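import Pool.Agent.V11257.Zt8

/-!
# The sets of Lean are a model of ZF
-/

set_option linter.all false

namespace Pool.Agent.V11257Z

open FirstOrder FirstOrder.Language
open Pool.Agent.Helper672.Plain (LSet Mem)
open Pool.Agent.H635Amen (ZF)

universe u

/-- The sets of Lean as a structure for the language of set theory. -/
def zs : LSet.Structure ZFSet.{u} where
  funMap := fun f => Empty.elim f
  RelMap := fun {_} r v => match r, v with
    | Helper672.Plain.Sym.mem, v => v 0 ∈ v 1

section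

attribute [local instance] zs

theorem zf_zs : ZF ZFSet.{u} where
  ext x y h := ZFSet.ext h
  pairing x y := ⟨{x, y}, fun z => ZFSet.mem_pair⟩
  union x := ⟨ZFSet.sUnion x, fun z => ZFSet.mem_sUnion⟩
  power x := ⟨ZFSet.powerset x, fun z => ZFSet.mem_powerset⟩
  infinity := ⟨ZFSet.omega, ⟨∅, ZFSet.omega_zero, fun z => ZFSet.notMem_empty z⟩, fun n hn =>
    ⟨insert n n, ZFSet.omega_succ hn, fun z => (ZFSet.mem_insert_iff).trans or_comm⟩⟩
  separation T _ x := ⟨ZFSet.sep (fun z => z ∈ T) x, fun z => ZFSet.mem_sep⟩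
  foundation x hx := by
    obtain ⟨y, hy⟩ := hx
    obtain ⟨z, h1, h2⟩ := ZFSet.regularity x (fun h => ZFSet.notMem_empty y (h ▸ hy))
    refine ⟨z, h1, fun w hw hwz => ZFSet.notMem_empty w ?_⟩
    rw [← h2]
    exact ZFSet.mem_inter.2 ⟨hw, hwz⟩
  replacement F _ a h := by
    choose f hf hf' using h
    refine ⟨ZFSet.range fun z : a => f z.1 z.2, fun y => ?_⟩
    refine ZFSet.mem_range.trans ?_
    constructor
    · rintro ⟨z, rfl⟩
      exact ⟨z.1, z.2, hf z.1 z.2⟩
    · rintro ⟨x, hx, h1⟩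
      exact ⟨⟨x, hx⟩, (hf' x hx y h1).symm⟩

end

/-- From relative consistency to a model. -/
theorem exists_of_forall {Q : ∀ (N : Type 1) [LSet.Structure N], Prop}
    (h : ∀ (M : Type 1) [LSet.Structure M], ZF M → ∃ (N : Type 1) (_ : LSet.Structure N),
      ZF N ∧ Q N) : ∃ (N : Type 1) (_ : LSet.Structure N), ZF N ∧ Q N :=
  letI := zs.{0}
  h ZFSet.{0} zf_zs

end Pool.Agent.V11257Z
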