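import Pool.Agent.Results.MP_e71ceb_lc.SuperatomicImpliesCWG

/-!
# Superatomic poset algebras are well-generated

Deduced from the theorem that a superatomic poset algebra is canonically well-generated.
-/

open Set

namespace Pool.Agent.V11257.PosetAlg

open Pool.Agent.Results.MP_e71ceb_lc.SuperatomicImpliesCWG

section
variable (P : Type) [PartialOrder P]

/-- The generator attached to `p`. -/
def N (p : P) : Set (UpperSet P) := {U | p ∈ U}

/-- The concrete poset algebra. -/
def C : BooleanSubalgebra (Set (UpperSet P)) := BooleanSubalgebra.closure (Set.range (N P))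

theorem hN (p : P) : N P p ∈ C P := BooleanSubalgebra.subset_closure ⟨p, rfl⟩

/-- The generators as elements of the algebra. -/
def gen (p : P) : C P := ⟨N P p, hN P p⟩

theorem isPosetAlgebra : IsPosetAlgebra (gen P) := by
  classical
  refine ⟨?_, ?_⟩
  · intro p q hpq
    change N P p ≤ N P q
    intro F hF
    exact F.upper hpq hF
  · intro A _ f hf
    -- the dual space of `A`
    let X : Type := BoundedLatticeHom A Prop
    let e : BoundedLatticeHom A (Set X) :=
      { toFun := fun a => {v | v a}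
        map_sup' := fun a b => by ext v; change v (a ⊔ b) ↔ v a ∨ v b; rw [map_sup]; exact Iff.rfl
        map_inf' := fun a b => by ext v; change v (a ⊓ b) ↔ v a ∧ v b; rw [map_inf]; exact Iff.rfl
        map_top' := by ext v; change v ⊤ ↔ True; rw [map_top]; exact Iff.rfl
        map_bot' := by ext v; change v ⊥ ↔ False; rw [map_bot]; exact Iff.rfl }
    have he : Function.Injective e := by
      have key : ∀ a b : A, e a = e b → a ≤ b := by
        intro a b hab
        by_contra hcon
        have h1 : a \ b ∉ ({⊥} : Set A) := by simpa [sdiff_eq_bot_iff] using hcon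
        obtain ⟨v, h2, -⟩ := exists_hom _ isId_bot _ h1
        rw [_root_.sdiff_eq, map_inf, map_compl'] at h2
        have h3 : v ∈ e a := h2.1
        rw [hab] at h3
        exact h2.2 h3
      intro a b hab
      exact le_antisymm (key a b hab) (key b a hab.symm)
    let g : X → UpperSet P := fun v => ⟨{p | v (f p)}, fun p q hpq hp => by
      have h3 : v (f p) ≤ v (f q) := OrderHomClass.mono v (hf hpq)
      exact h3 hp⟩
    let G : BoundedLatticeHom (Set (UpperSet P)) (Set X) :=
      { toFun := fun S => g ⁻¹' S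
        map_sup' := fun _ _ => rfl
        map_inf' := fun _ _ => rfl
        map_top' := rfl
        map_bot' := rfl }
    have hG : C P ≤ BooleanSubalgebra.comap G (BooleanSubalgebra.map e ⊤) := by
      unfold C
      rw [BooleanSubalgebra.closure_le]
      rintro _ ⟨p, rfl⟩
      exact ⟨f p, trivial, rfl⟩
    have hex : ∀ c : C P, ∃ a : A, e a = G c := by
      intro c
      obtain ⟨a, -, ha⟩ := hG c.2
      exact ⟨a, ha⟩
    choose φ hφ using hex
    refine ⟨{ toFun := φ
              map_sup' := fun c d => he (by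
                rw [map_sup, hφ, hφ, hφ]; rfl)
              map_inf' := fun c d => he (by
                rw [map_inf, hφ, hφ, hφ]; rfl)
              map_top' := he (by rw [map_top, hφ]; rfl)
              map_bot' := he (by rw [map_bot, hφ]; rfl) }, ?_, ?_⟩
    · intro p
      exact he (by
        change e (φ _) = e (f p)
        rw [hφ]; rfl)
    · intro ψ hψ
      ext ⟨c, hc⟩
      change ψ ⟨c, hc⟩ = φ ⟨c, hc⟩
      have key : ∀ θ θ' : BoundedLatticeHom (C P) A, (∀ p, θ ⟨N P p, hN P p⟩ = θ' ⟨N P p, hN P p⟩) →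
          ∀ c (hc : c ∈ C P), θ ⟨c, hc⟩ = θ' ⟨c, hc⟩ := by
        intro θ θ' hθ c hc
        induction hc using BooleanSubalgebra.closure_bot_sup_induction with
        | mem c hc =>
          obtain ⟨p, rfl⟩ := hc
          exact hθ p
        | bot =>
          have h1 : θ (⊥ : C P) = θ' (⊥ : C P) := by rw [map_bot, map_bot]
          exact h1
        | sup c hc d hd ih1 ih2 =>
          have h1 : θ ((⟨c, hc⟩ : C P) ⊔ ⟨d, hd⟩) = θ' ((⟨c, hc⟩ : C P) ⊔ ⟨d, hd⟩) := by
            rw [map_sup, map_sup, ih1, ih2]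
          exact h1
        | compl c hc ih =>
          have h1 : θ ((⟨c, hc⟩ : C P)ᶜ) = θ' ((⟨c, hc⟩ : C P)ᶜ) := by
            rw [map_compl', map_compl', ih]
          exact h1
      let Φ : BoundedLatticeHom (C P) A :=
        { toFun := φ
          map_sup' := fun c d => he (by
            rw [map_sup, hφ, hφ, hφ]; rfl)
          map_inf' := fun c d => he (by
            rw [map_inf, hφ, hφ, hφ]; rfl)
          map_top' := he (by rw [map_top, hφ]; rfl)
          map_bot' := he (by rw [map_bot, hφ]; rfl) }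
      refine key ψ Φ (fun p => ?_) c hc
      refine (hψ p).trans ?_
      exact he (by
        change e (f p) = e (φ _)
        rw [hφ]; rfl)

end

theorem main (P : Type) [PartialOrder P] (S : BooleanSubalgebra (Set (UpperSet P)))
    (hS : S = BooleanSubalgebra.closure (Set.range fun p : P => {U : UpperSet P | p ∈ U}))
    (hsa : ∀ I : Set (Set (UpperSet P)), I ⊆ (S : Set (Set (UpperSet P))) → ∅ ∈ I →
      (∀ a ∈ I, ∀ b ∈ S, b ⊆ a → b ∈ I) → (∀ a ∈ I, ∀ b ∈ I, a ∪ b ∈ I) →
      ∀ b ∈ S, b ∉ I → ∃ a ∈ S, a ⊆ b ∧ a ∉ I ∧ ∀ c ∈ S, c ⊆ a → c ∈ I ∨ a \ c ∈ I) :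
    ∃ G : Set (Set (UpperSet P)), G ⊆ (S : Set (Set (UpperSet P))) ∧
      (∀ x ∈ G, ∀ y ∈ G, x ∪ y ∈ G ∧ x ∩ y ∈ G) ∧
      (¬ ∃ f : ℕ → Set (UpperSet P), ∀ n, f n ∈ G ∧ f (n + 1) ⊂ f n) ∧
      BooleanSubalgebra.closure G = S := by
  have hS' : S = C P := hS
  subst hS'
  clear hS
  have hsup : Superatomic (C P) := by
    intro D _ f hf
    refine ⟨fun d => ?_⟩
    by_cases hd : d = ⊥
    · exact Or.inl hd
    right
    obtain ⟨⟨b, hb⟩, rfl⟩ := hf d
    let I : Set (Set (UpperSet P)) := {c | ∃ h : c ∈ C P, f ⟨c, h⟩ = ⊥}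
    obtain ⟨a, haS, hab, haI, hmin⟩ := hsa I (fun c hc => hc.1) ⟨(C P).bot_mem, map_bot f⟩
      (by
        rintro a ⟨ha, h1⟩ c hc hca
        refine ⟨hc, ?_⟩
        have h2 : (⟨c, hc⟩ : C P) ≤ ⟨a, ha⟩ := hca
        have h3 := OrderHomClass.mono f h2
        rw [h1] at h3
        exact le_bot_iff.1 h3)
      (by
        rintro a ⟨ha, h1⟩ c ⟨hc, h2⟩
        refine ⟨(C P).sup_mem ha hc, ?_⟩
        have h3 : f ((⟨a, ha⟩ : C P) ⊔ ⟨c, hc⟩) = ⊥ := by rw [map_sup, h1, h2, sup_bot_eq]
        exact h3)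
      b hb (fun h => hd h.2)
    refine ⟨f ⟨a, haS⟩, ⟨?_, ?_⟩, OrderHomClass.mono f (show (⟨a, haS⟩ : C P) ≤ ⟨b, hb⟩ from hab)⟩
    · intro h
      exact haI ⟨haS, h⟩
    · intro y hy
      obtain ⟨⟨c, hc⟩, rfl⟩ := hf y
      have hac : a ∩ c ∈ C P := (C P).inf_mem haS hc
      have e1 : f ⟨a ∩ c, hac⟩ = f ⟨a, haS⟩ ⊓ f ⟨c, hc⟩ := by
        have h3 : f ((⟨a, haS⟩ : C P) ⊓ ⟨c, hc⟩) = f ⟨a, haS⟩ ⊓ f ⟨c, hc⟩ := map_inf f _ _
        exact h3
      rcases hmin (a ∩ c) hac inter_subset_left with h | h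
      · obtain ⟨_, h⟩ := h
        rw [e1, inf_eq_right.2 hy.le] at h
        exact h
      · obtain ⟨h1, h⟩ := h
        exfalso
        have h4 : f ((⟨a, haS⟩ : C P) \ (⟨a ∩ c, hac⟩ : C P)) = ⊥ := by
          exact h
        rw [map_sdiff', e1, inf_eq_right.2 hy.le] at h4
        exact hy.not_ge (sdiff_eq_bot_iff.1 h4)
  obtain ⟨H, -, hgen, hwf⟩ := (Pool.Agent.Results.MP_e71ceb_lc.SuperatomicImpliesCWG.result P).2
    (C P) (gen P) (isPosetAlgebra P) hsup
  set K : Set (C P) := ⋃ α ∈ Set.Iic (rk (⊤ : C P)), H α with hK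
  refine ⟨Subtype.val '' (latticeClosure K), ?_, ?_, ?_, ?_⟩
  · rintro _ ⟨c, -, rfl⟩
    exact c.2
  · rintro _ ⟨c, hc, rfl⟩ _ ⟨d, hd, rfl⟩
    have h := isSublattice_latticeClosure (s := K)
    exact ⟨⟨c ⊔ d, h.supClosed hc hd, rfl⟩, ⟨c ⊓ d, h.infClosed hc hd, rfl⟩⟩
  · rintro ⟨f, hf⟩
    have h1 : ∀ n, ∃ c : C P, c ∈ latticeClosure K ∧ c.1 = f n := fun n => (hf n).1
    choose g hg1 hg2 using h1
    refine hwf g hg1 (strictAnti_nat_of_succ_lt fun n => ?_)
    have h3 := (hf n).2
    rw [← hg2 n, ← hg2 (n + 1)] at h3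
    exact h3
  · apply le_antisymm
    · rw [BooleanSubalgebra.closure_le]
      rintro _ ⟨c, -, rfl⟩
      exact c.2
    · intro c hc
      have h1 : (⟨c, hc⟩ : C P) ∈ BooleanSubalgebra.closure K := by
        rw [hgen]; trivial
      have key : ∀ d : C P, d ∈ BooleanSubalgebra.closure K →
          d.1 ∈ BooleanSubalgebra.closure (Subtype.val '' (latticeClosure K)) := by
        intro d hd
        induction hd using BooleanSubalgebra.closure_bot_sup_induction with
        | mem d hd => exact BooleanSubalgebra.subset_closure ⟨d, subset_latticeClosure hd, rfl⟩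
        | bot => exact BooleanSubalgebra.bot_mem
        | sup a _ b _ ih1 ih2 => exact BooleanSubalgebra.sup_mem ih1 ih2
        | compl a _ ih => exact BooleanSubalgebra.compl_mem ih
      exact key _ h1

end Pool.Agent.V11257.PosetAlg
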