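import Mathlib

/-!
# Homeomorphisms of the Cantor space and totally bounded metric spaces
-/

namespace Pool.Agent.V11257CB

open Set Topology

/-- The Cantor space. -/
abbrev C : Type := ℕ → Bool

/-- The group of the homeomorphisms of the Cantor space onto itself. -/
abbrev K : Type := C ≃ₜ C

/-- A letter followed by a sequence. -/
def cs (b : Bool) (x : C) : C := fun n => Nat.casesOn n b x

/-- The tail. -/
def tl (x : C) : C := fun n => x (n + 1)

@[simp] theorem cs_zero (b : Bool) (x : C) : cs b x 0 = b := rfl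
@[simp] theorem cs_succ (b : Bool) (x : C) (n : ℕ) : cs b x (n + 1) = x n := rfl
@[simp] theorem tl_cs (b : Bool) (x : C) : tl (cs b x) = x := rfl

theorem cs_tl (x : C) : cs (x 0) (tl x) = x := by
  funext n
  cases n <;> rfl

theorem cs_of {x : C} {b : Bool} (h : x 0 = b) : cs b (tl x) = x := h ▸ cs_tl x

theorem continuous_cs {X : Type*} [TopologicalSpace X] {b : X → Bool} {f : X → C}
    (hb : Continuous b) (hf : Continuous f) : Continuous fun x => cs (b x) (f x) := by
  refine continuous_pi fun n => ?_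
  cases n with
  | zero => exact hb
  | succ n => exact (continuous_apply n).comp hf

theorem continuous_tl : Continuous tl := continuous_pi fun n => continuous_apply (n + 1)

theorem continuous_sel {X : Type*} [TopologicalSpace X] {b : X → Bool} {f g : X → C}
    (hb : Continuous b) (hf : Continuous f) (hg : Continuous g) :
    Continuous fun x => if b x = true then f x else g x := by
  refine continuous_pi fun n => ?_
  have h : Continuous fun t : Bool × Bool × Bool => if t.1 = true then t.2.1 else t.2.2 :=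
    continuous_of_discreteTopology
  have h1 := h.comp (hb.prodMk (((continuous_apply n).comp hf).prodMk
    ((continuous_apply n).comp hg)))
  refine h1.congr fun x => ?_
  by_cases hx : b x = true <;> simp [hx]

/-- Homeomorphisms from continuous inverse functions. -/
def mkK (f g : C → C) (h1 : ∀ x, g (f x) = x) (h2 : ∀ x, f (g x) = x) (hf : Continuous f)
    (hg : Continuous g) : K where
  toFun := f
  invFun := g
  left_inv := h1
  right_inv := h2
  continuous_toFun := hf
  continuous_invFun := hg

/-- The action on the half `b`. -/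
def hb (b : Bool) (φ : K) (x : C) : C := if x 0 = b then cs b (φ (tl x)) else x

theorem hb_cs (b : Bool) (φ : K) (x : C) : hb b φ (cs b x) = cs b (φ x) := by
  simp [hb]

theorem hb_ne {b : Bool} {φ : K} {x : C} (h : x 0 ≠ b) : hb b φ x = x := by
  simp [hb, h]

theorem hb_zero (b : Bool) (φ : K) (x : C) : hb b φ x 0 = x 0 := by
  unfold hb
  split_ifs with h
  · simp [h]
  · rfl

theorem continuous_hb (b : Bool) (φ : K) : Continuous (hb b φ) := by
  have h : Continuous fun x : C => decide (x 0 = b) :=
    (continuous_of_discreteTopology (f := fun c : Bool => decide (c = b))).comp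
      (continuous_apply 0)
  have h1 : Continuous fun x : C => cs b (φ (tl x)) :=
    continuous_cs (b := fun _ => b) continuous_const (φ.continuous.comp continuous_tl)
  refine (continuous_sel h h1 continuous_id).congr fun x => ?_
  simp [hb]

theorem hb_hb (b : Bool) (φ ψ : K) (x : C) : hb b φ (hb b ψ x) = hb b (φ * ψ) x := by
  by_cases h : x 0 = b
  · rw [← cs_of h, hb_cs, hb_cs, hb_cs]
    rfl
  · rw [hb_ne h, hb_ne h, hb_ne h]

theorem hb_one (b : Bool) (x : C) : hb b 1 x = x := by
  by_cases h : x 0 = b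
  · rw [← cs_of h, hb_cs]
    rfl
  · rw [hb_ne h]

/-- The action on a half, as a homomorphism. -/
def inb (b : Bool) : K →* K where
  toFun φ := mkK (hb b φ) (hb b φ⁻¹) (fun x => by rw [hb_hb, inv_mul_cancel, hb_one])
    (fun x => by rw [hb_hb, mul_inv_cancel, hb_one]) (continuous_hb b φ) (continuous_hb b φ⁻¹)
  map_one' := Homeomorph.ext fun x => hb_one b x
  map_mul' φ ψ := Homeomorph.ext fun x => (hb_hb b φ ψ x).symm

theorem inb_apply (b : Bool) (φ : K) (x : C) : inb b φ x = hb b φ x := rfl

/-- The shift. -/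
def sg (x : C) : C :=
  if x 0 = true then cs true x else
    if x 1 = true then cs true (cs false (tl (tl x))) else tl x

/-- The inverse of the shift. -/
def sgi (x : C) : C :=
  if x 0 = true then (if x 1 = true then tl x else cs false (cs true (tl (tl x)))) else cs false x

theorem continuous_sg : Continuous sg :=
  continuous_sel (continuous_apply 0) (continuous_cs continuous_const continuous_id)
    (continuous_sel (continuous_apply 1) (continuous_cs continuous_const
      (continuous_cs continuous_const (continuous_tl.comp continuous_tl))) continuous_tl)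

theorem continuous_sgi : Continuous sgi :=
  continuous_sel (continuous_apply 0) (continuous_sel (continuous_apply 1) continuous_tl
    (continuous_cs continuous_const (continuous_cs continuous_const
      (continuous_tl.comp continuous_tl)))) (continuous_cs continuous_const continuous_id)

theorem cases3 (x : C) : (∃ y, x = cs true y) ∨ (∃ y, x = cs false (cs true y)) ∨
    ∃ y, x = cs false (cs false y) := by
  cases h : x 0
  · right
    cases h1 : x 1
    · right
      exact ⟨tl (tl x), by rw [cs_of (x := tl x) h1, cs_of h]⟩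
    · left
      exact ⟨tl (tl x), by rw [cs_of (x := tl x) h1, cs_of h]⟩
  · left
    exact ⟨tl x, (cs_of h).symm⟩

theorem sg_1 (y : C) : sg (cs true y) = cs true (cs true y) := by simp [sg]
theorem sg_01 (y : C) : sg (cs false (cs true y)) = cs true (cs false y) := by simp [sg, cs]
theorem sg_00 (y : C) : sg (cs false (cs false y)) = cs false y := by simp [sg, cs]
theorem sgi_0 (y : C) : sgi (cs false y) = cs false (cs false y) := by simp [sgi]
theorem sgi_10 (y : C) : sgi (cs true (cs false y)) = cs false (cs true y) := by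
  simp [sgi, cs]
theorem sgi_11 (y : C) : sgi (cs true (cs true y)) = cs true y := by simp [sgi, cs]

/-- The shift as a homeomorphism. -/
def σ : K := mkK sg sgi (fun x => by
    rcases cases3 x with ⟨y, rfl⟩ | ⟨y, rfl⟩ | ⟨y, rfl⟩
    · rw [sg_1, sgi_11]
    · rw [sg_01, sgi_10]
    · rw [sg_00, sgi_0]) (fun x => by
    cases h : x 0
    · rw [← cs_of h, sgi_0, sg_00]
    · cases h1 : x 1
      · rw [← cs_of h, ← cs_of (x := tl x) h1, sgi_10, sg_01]
      · rw [← cs_of h, ← cs_of (x := tl x) h1, sgi_11, sg_1]) continuous_sg continuous_sgi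

theorem σ_apply (x : C) : σ x = sg x := rfl

/-- The action on all blocks `1 ^ n 0`. -/
def lm (φ : K) : ℕ → C → Bool
  | 0, x => x 0
  | n + 1, x => if x 0 = true then lm φ n (tl x) else φ (tl x) n

/-- The action on all blocks `1 ^ n 0`. -/
def Lm (φ : K) (x : C) : C := fun n => lm φ n x

theorem Lm_1 (φ : K) (x : C) : Lm φ (cs true x) = cs true (Lm φ x) := by
  funext n
  cases n with
  | zero => rfl
  | succ n => simp [Lm, lm]

theorem Lm_0 (φ : K) (x : C) : Lm φ (cs false x) = cs false (φ x) := by
  funext n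
  cases n with
  | zero => rfl
  | succ n => simp [Lm, lm]

theorem continuous_Lm (φ : K) : Continuous (Lm φ) := by
  refine continuous_pi fun n => ?_
  induction n with
  | zero => exact continuous_apply 0
  | succ n ih =>
    have h : Continuous fun t : Bool × Bool × Bool => if t.1 = true then t.2.1 else t.2.2 :=
      continuous_of_discreteTopology
    have h1 := h.comp ((continuous_apply 0 : Continuous fun x : C => x 0).prodMk
      ((ih.comp continuous_tl).prodMk ((continuous_apply n).comp (φ.continuous.comp continuous_tl))))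
    refine h1.congr fun x => ?_
    simp [Lm, lm]

theorem Lm_Lm (φ ψ : K) (x : C) : Lm φ (Lm ψ x) = Lm (φ * ψ) x := by
  funext n
  induction n generalizing x with
  | zero => rfl
  | succ n ih =>
    cases h : x 0
    · rw [← cs_of h, Lm_0, Lm_0, Lm_0]
      rfl
    · rw [← cs_of h, Lm_1, Lm_1, Lm_1]
      exact ih (tl x)

theorem Lm_one (x : C) : Lm 1 x = x := by
  funext n
  induction n generalizing x with
  | zero => rfl
  | succ n ih =>
    cases h : x 0
    · rw [← cs_of h, Lm_0]
      rfl
    · rw [← cs_of h, Lm_1]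
      exact ih (tl x)

/-- The action on all blocks. -/
def LL (φ : K) : K := mkK (Lm φ) (Lm φ⁻¹) (fun x => by rw [Lm_Lm, inv_mul_cancel, Lm_one])
    (fun x => by rw [Lm_Lm, mul_inv_cancel, Lm_one]) (continuous_Lm φ) (continuous_Lm φ⁻¹)

theorem LL_apply (φ : K) (x : C) : LL φ x = Lm φ x := rfl

/-- The action on the block `01`. -/
def W : K →* K := (inb false).comp (inb true)

/-- The swindle. -/
theorem W_comm (φ : K) : ∃ Φ : K, W φ = Φ * σ * Φ⁻¹ * σ⁻¹ := by
  refine ⟨W φ * inb true (LL φ), ?_⟩
  have key : inb true (LL φ) * σ = σ * (W φ * inb true (LL φ)) := by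
    refine Homeomorph.ext fun x => ?_
    change hb true (LL φ) (sg x) = sg (hb false (inb true φ) (hb true (LL φ) x))
    rcases cases3 x with ⟨y, rfl⟩ | ⟨y, rfl⟩ | ⟨y, rfl⟩
    · rw [sg_1, hb_cs, LL_apply, Lm_1, hb_cs, LL_apply, hb_ne (by simp), sg_1]
    · rw [sg_01, hb_cs, LL_apply, Lm_0, hb_ne (b := true) (by simp), hb_cs, inb_apply, hb_cs, sg_01]
    · rw [sg_00, hb_ne (b := true) (by simp), hb_ne (b := true) (by simp), hb_cs, inb_apply,
        hb_ne (b := true) (by simp), sg_00]
  have e1 : σ * (W φ * inb true (LL φ)) * σ⁻¹ = inb true (LL φ) := by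
    rw [← key, mul_inv_cancel_right]
  have e2 : W φ * inb true (LL φ) * σ * (W φ * inb true (LL φ))⁻¹ * σ⁻¹ =
      W φ * inb true (LL φ) * (σ * (W φ * inb true (LL φ)) * σ⁻¹)⁻¹ := by group
  rw [e2, e1, mul_inv_cancel_right]

theorem W_σ (α : K) : σ * W α * σ⁻¹ = inb true (inb false α) := by
  rw [mul_inv_eq_iff_eq_mul]
  refine Homeomorph.ext fun x => ?_
  change sg (hb false (inb true α) x) = hb true (inb false α) (sg x)
  rcases cases3 x with ⟨y, rfl⟩ | ⟨y, rfl⟩ | ⟨y, rfl⟩
  · rw [hb_ne (by simp), sg_1, hb_cs, inb_apply, hb_ne (by simp)]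
  · rw [hb_cs, inb_apply, hb_cs, sg_01, sg_01, hb_cs, inb_apply, hb_cs]
  · rw [hb_cs, inb_apply, hb_ne (by simp), sg_00, hb_ne (by simp)]

theorem inb_σ (α : K) : σ * inb true α * σ⁻¹ = inb true (inb true α) := by
  rw [mul_inv_eq_iff_eq_mul]
  refine Homeomorph.ext fun x => ?_
  change sg (hb true α x) = hb true (inb true α) (sg x)
  rcases cases3 x with ⟨y, rfl⟩ | ⟨y, rfl⟩ | ⟨y, rfl⟩
  · rw [hb_cs, sg_1, sg_1, hb_cs, inb_apply, hb_cs]
  · rw [hb_ne (b := true) (by simp), sg_01, hb_cs, inb_apply, hb_ne (by simp)]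
  · rw [hb_ne (b := true) (by simp), sg_00, hb_ne (by simp)]

theorem inb_comm (α β : K) : inb true α * inb false β = inb false β * inb true α := by
  refine Homeomorph.ext fun x => ?_
  change hb true α (hb false β x) = hb false β (hb true α x)
  cases h : x 0
  · rw [hb_ne (b := true) (x := x) (by simp [h]), hb_ne (b := true) (by rw [hb_zero]; simp [h])]
  · rw [hb_ne (b := false) (x := x) (by simp [h]), hb_ne (b := false) (by rw [hb_zero]; simp [h])]

theorem W_pow (α : K) (m : ℕ) : ∃ ψ : K, σ ^ (m + 1) * W α * (σ ^ (m + 1))⁻¹ = inb true ψ := by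
  induction m with
  | zero => exact ⟨_, by rw [zero_add, pow_one]; exact W_σ α⟩
  | succ m ih =>
    obtain ⟨ψ, hψ⟩ := ih
    refine ⟨inb true ψ, ?_⟩
    rw [← inb_σ, ← hψ, pow_succ' σ (m + 1)]
    group

section norm

variable {X : Type*} [PseudoMetricSpace X] [MulAction K X]

theorem pig (hi : ∀ (g : K) (x y : X), dist (g • x) (g • y) = dist x y)
    (ht : TotallyBounded (Set.univ : Set X)) (g : ℕ → K) {ε : ℝ} (hε : 0 < ε) :
    ∃ i j, i < j ∧ ∀ x : X, dist (g i • x) (g j • x) < ε := by
  obtain ⟨t, htf, ht'⟩ := Metric.totallyBounded_iff.1 ht (ε / 4) (by positivity)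
  have hc : ∀ x : X, ∃ y : t, dist x y < ε / 4 := fun x => by
    obtain ⟨y, hy, h⟩ := Set.mem_iUnion₂.1 (ht' (Set.mem_univ x))
    exact ⟨⟨y, hy⟩, h⟩
  choose c hc' using hc
  haveI : Finite t := htf
  obtain ⟨i, j, hij, h⟩ := Finite.exists_ne_map_eq_of_infinite
    (fun n : ℕ => fun y : t => c (g n • (y : X)))
  have key : ∀ x : X, dist (g i • x) (g j • x) < ε := by
    intro x
    have h1 := hc' x
    have h2 := hc' (g i • (c x : X))
    have h3 := hc' (g j • (c x : X))
    have h4 : c (g i • (c x : X)) = c (g j • (c x : X)) := congrFun h (c x)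
    rw [← h4] at h3
    have h5 := hi (g i) x (c x)
    have h6 := hi (g j) x (c x)
    have h7 := dist_triangle (g i • x) (g i • (c x : X)) (c (g i • (c x : X)) : X)
    have h8 := dist_triangle (g i • x) (c (g i • (c x : X)) : X) (g j • x)
    have h9 := dist_triangle (g j • x) (g j • (c x : X)) (c (g i • (c x : X)) : X)
    have h10 := dist_comm (g j • x) (c (g i • (c x : X)) : X)
    linarith
  rcases lt_or_gt_of_ne hij with h1 | h1
  · exact ⟨i, j, h1, key⟩
  · exact ⟨j, i, h1, fun x => by rw [dist_comm]; exact key x⟩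

theorem comm_triv (hi : ∀ (g : K) (x y : X), dist (g • x) (g • y) = dist x y)
    (ht : TotallyBounded (Set.univ : Set X)) (α β : K) (x : X) :
    dist ((W α * W β * (W α)⁻¹ * (W β)⁻¹) • x) x = 0 := by
  refine le_antisymm (le_of_forall_pos_le_add fun ε hε => ?_) dist_nonneg
  obtain ⟨i, j, hij, h⟩ := pig hi ht (fun n => σ ^ n * W α * (σ ^ n)⁻¹) (half_pos hε)
  obtain ⟨m, rfl⟩ : ∃ m, j = i + (m + 1) := ⟨j - i - 1, by omega⟩
  obtain ⟨ψ, hψ⟩ := W_pow α m
  have h1 : ∀ z : X, dist (W α • z) (inb true ψ • z) < ε / 2 := by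
    intro z
    have h2 := h (σ ^ i • z)
    rw [← hi (σ ^ i) (W α • z), ← hψ]
    convert h2 using 2
    · simp only [smul_smul]
      congr 1
      group
    · simp only [smul_smul]
      congr 1
      rw [pow_add σ i (m + 1)]
      group
  have hc : inb true ψ * W β * (inb true ψ)⁻¹ * (W β)⁻¹ = 1 := by
    have : inb true ψ * W β = W β * inb true ψ := inb_comm ψ (inb true β)
    rw [this]
    group
  have h3 : dist ((W α * W β * (W α)⁻¹ * (W β)⁻¹) • x)
      ((inb true ψ * W β * (inb true ψ)⁻¹ * (W β)⁻¹) • x) < ε := by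
    have h4 := h1 ((W β * (W α)⁻¹ * (W β)⁻¹) • x)
    have h5 := h1 (((inb true ψ)⁻¹ * (W β)⁻¹) • x)
    have h6 : dist ((inb true ψ * W β * (W α)⁻¹ * (W β)⁻¹) • x)
        ((inb true ψ * W β * (inb true ψ)⁻¹ * (W β)⁻¹) • x) =
        dist (W α • ((inb true ψ)⁻¹ * (W β)⁻¹) • x) (inb true ψ • ((inb true ψ)⁻¹ * (W β)⁻¹) • x) := by
      have e1 : (inb true ψ * W β * (W α)⁻¹ * (W β)⁻¹) • x =
          (inb true ψ * W β * (W α)⁻¹) • ((W β)⁻¹ • x) := by simp only [smul_smul, mul_assoc]
      have e2 : (inb true ψ * W β * (inb true ψ)⁻¹ * (W β)⁻¹) • x =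
          (inb true ψ * W β * (W α)⁻¹) • ((W α * (inb true ψ)⁻¹) • ((W β)⁻¹ • x)) := by
        simp only [smul_smul]
        congr 1
        group
      rw [e1, e2, hi, dist_comm]
      simp only [smul_smul]
      rw [mul_inv_cancel_left]
      simp only [mul_assoc]
    have h7 := dist_triangle ((W α * W β * (W α)⁻¹ * (W β)⁻¹) • x)
      ((inb true ψ * W β * (W α)⁻¹ * (W β)⁻¹) • x)
      ((inb true ψ * W β * (inb true ψ)⁻¹ * (W β)⁻¹) • x)
    simp only [smul_smul] at h4 h5 h6 h7
    simp only [← mul_assoc] at h4 h5 h6 h7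
    linarith
  rw [hc, one_smul] at h3
  linarith

/-- The elements that act trivially. -/
def Nk (X : Type*) [PseudoMetricSpace X] [MulAction K X] (g : K) : Prop := ∀ x : X, dist (g • x) x = 0

theorem Nk.mul (hi : ∀ (g : K) (x y : X), dist (g • x) (g • y) = dist x y) {g h : K}
    (h1 : Nk X g) (h2 : Nk X h) : Nk X (g * h) := by
  intro x
  have h3 := h1 (h • x)
  have h4 := h2 x
  have h5 := dist_triangle (g • h • x) (h • x) x
  rw [mul_smul]
  have := dist_nonneg (x := g • h • x) (y := x)
  linarith

theorem Nk.conj (hi : ∀ (g : K) (x y : X), dist (g • x) (g • y) = dist x y) {g : K} (k : K)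
    (h1 : Nk X (k * g * k⁻¹)) : Nk X g := by
  intro x
  have h2 := h1 (k • x)
  have e : (k * g * k⁻¹) • k • x = k • g • x := by
    simp only [smul_smul]
    congr 1
    group
  rw [e, hi] at h2
  exact h2

theorem Nk.inv (hi : ∀ (g : K) (x y : X), dist (g • x) (g • y) = dist x y) {g : K}
    (h1 : Nk X g) : Nk X g⁻¹ := by
  intro x
  have h2 := h1 (g⁻¹ • x)
  rw [smul_inv_smul, dist_comm] at h2
  exact h2

theorem WW_triv (hi : ∀ (g : K) (x y : X), dist (g • x) (g • y) = dist x y)
    (ht : TotallyBounded (Set.univ : Set X)) (φ : K) : Nk X (W (W φ)) := by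
  obtain ⟨Φ, hΦ⟩ := W_comm φ
  intro x
  rw [hΦ, map_mul, map_mul, map_mul, map_inv, map_inv]
  exact comm_triv hi ht Φ σ x

end norm

end Pool.Agent.V11257CB
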