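import Pool.Agent.V11257.Cb1

/-!
# The homeomorphisms of the Cantor space act trivially on totally bounded metric spaces
-/

namespace Pool.Agent.V11257CB

open Set Topology

/-- The flip of the coordinates in `a`. -/
def fl (a : C) : K := mkK (fun x n => xor (x n) (a n)) (fun x n => xor (x n) (a n))
  (fun x => by funext n; simp) (fun x => by funext n; simp)
  (continuous_pi fun n => (continuous_of_discreteTopology
    (f := fun c : Bool => xor c (a n))).comp (continuous_apply n))
  (continuous_pi fun n => (continuous_of_discreteTopology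
    (f := fun c : Bool => xor c (a n))).comp (continuous_apply n))

theorem fl_apply (a x : C) (n : ℕ) : fl a x n = xor (x n) (a n) := rfl

theorem fl_fl (a x : C) : fl a (fl a x) = x := by
  funext n
  simp [fl_apply]

/-- The homeomorphism that takes the block `0101` to the half `1`. -/
def κ : K := (σ ^ 3)⁻¹ * fl (cs true (cs false (cs true (cs false fun _ => false))))

theorem σ3 (y : C) : (σ ^ 3) (cs true y) = cs true (cs true (cs true (cs true y))) := by
  change sg (sg (sg (cs true y))) = _
  rw [sg_1, sg_1, sg_1]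

theorem κ_apply (y : C) : κ (cs false (cs true (cs false (cs true y)))) = cs true y := by
  have h : fl (cs true (cs false (cs true (cs false fun _ => false))))
      (cs false (cs true (cs false (cs true y)))) = cs true (cs true (cs true (cs true y))) := by
    funext n
    rcases n with _ | _ | _ | _ | n <;> simp [fl_apply]
  have h' : κ (cs false (cs true (cs false (cs true y)))) =
    (σ ^ 3)⁻¹ (fl (cs true (cs false (cs true (cs false fun _ => false))))
      (cs false (cs true (cs false (cs true y))))) := rfl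
  rw [h', h, ← σ3]
  exact (σ ^ 3).symm_apply_apply _

theorem W_apply (φ : K) (x : C) : W φ x = hb false (inb true φ) x := rfl

theorem WW_apply (φ : K) (y : C) : W (W φ) (cs false (cs true (cs false (cs true y)))) =
    cs false (cs true (cs false (cs true (φ y)))) := by
  rw [W_apply, hb_cs, inb_apply, hb_cs, W_apply, hb_cs, inb_apply, hb_cs]

theorem WW_ne (φ : K) {x : C} (h : ∀ y, x ≠ cs false (cs true (cs false (cs true y)))) :
    W (W φ) x = x := by
  rw [W_apply]
  by_cases h0 : x 0 = false
  · rw [← cs_of h0, hb_cs, inb_apply]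
    congr 1
    by_cases h1 : tl x 0 = true
    · rw [← cs_of h1, hb_cs]
      congr 1
      rw [W_apply]
      by_cases h2 : tl (tl x) 0 = false
      · rw [← cs_of h2, hb_cs, inb_apply]
        congr 1
        by_cases h3 : tl (tl (tl x)) 0 = true
        · exact absurd (by rw [cs_of h3, cs_of h2, cs_of h1, cs_of h0]) (h (tl (tl (tl (tl x)))))
        · exact hb_ne h3
      · exact hb_ne h2
    · exact hb_ne h1
  · exact hb_ne h0

theorem κ_conj (φ : K) : κ * W (W φ) * κ⁻¹ = inb true φ := by
  rw [mul_inv_eq_iff_eq_mul]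
  refine Homeomorph.ext fun x => ?_
  change κ (W (W φ) x) = hb true φ (κ x)
  by_cases h : ∃ y, x = cs false (cs true (cs false (cs true y)))
  · obtain ⟨y, rfl⟩ := h
    rw [WW_apply, κ_apply, κ_apply, hb_cs]
  · push Not at h
    rw [WW_ne φ h, hb_ne]
    intro h1
    have h2 : κ x = κ (cs false (cs true (cs false (cs true (tl (κ x)))))) := by
      rw [κ_apply, cs_of h1]
    exact h _ (κ.injective h2)

/-- Homeomorphisms that are the identity on the half `0`. -/
theorem exists_inb {φ : K} (h : ∀ x : C, x 0 = false → φ x = x) : ∃ ψ, inb true ψ = φ := by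
  have h1 : ∀ x : C, x 0 = true → φ x 0 = true := by
    intro x hx
    by_contra h2
    have h3 : φ x 0 = false := by simpa using h2
    have h4 := φ.injective (h (φ x) h3)
    rw [h4] at h3
    simp [hx] at h3
  have h' : ∀ x : C, x 0 = false → φ⁻¹ x = x := by
    intro x hx
    have h2 := congrArg (φ⁻¹ : K) (h x hx)
    have h3 : (φ⁻¹ : K) (φ x) = x := φ.symm_apply_apply x
    rw [h3] at h2
    exact h2.symm
  have h1' : ∀ x : C, x 0 = true → φ⁻¹ x 0 = true := by
    intro x hx
    by_contra h2
    have h3 : φ⁻¹ x 0 = false := by simpa using h2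
    have h4 := (φ⁻¹ : K).injective (h' (φ⁻¹ x) h3)
    rw [h4] at h3
    simp [hx] at h3
  refine ⟨mkK (fun y => tl (φ (cs true y))) (fun y => tl (φ⁻¹ (cs true y))) (fun y => ?_)
    (fun y => ?_) (continuous_tl.comp (φ.continuous.comp
      (continuous_cs (b := fun _ => true) continuous_const continuous_id)))
    (continuous_tl.comp ((φ⁻¹ : K).continuous.comp
      (continuous_cs (b := fun _ => true) continuous_const continuous_id))), ?_⟩
  · rw [cs_of (h1 _ rfl)]
    have : (φ⁻¹ : K) (φ (cs true y)) = cs true y := φ.symm_apply_apply _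
    rw [this, tl_cs]
  · rw [cs_of (h1' _ rfl)]
    have : φ ((φ⁻¹ : K) (cs true y)) = cs true y := φ.apply_symm_apply _
    rw [this, tl_cs]
  · refine Homeomorph.ext fun x => ?_
    rw [inb_apply]
    cases hx : x 0
    · rw [hb_ne (by simp [hx]), h x hx]
    · rw [← cs_of hx, hb_cs]
      exact cs_of (h1 _ rfl)

section

variable {X : Type*} [PseudoMetricSpace X] [MulAction K X]
  (hi : ∀ (g : K) (x y : X), dist (g • x) (g • y) = dist x y)
  (ht : TotallyBounded (Set.univ : Set X))

include hi ht

theorem fix1 {φ : K} (h : ∀ x : C, x 0 = false → φ x = x) : Nk X φ := by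
  obtain ⟨ψ, rfl⟩ := exists_inb h
  rw [← κ_conj]
  refine Nk.conj hi κ⁻¹ ?_
  have e : κ⁻¹ * (κ * W (W ψ) * κ⁻¹) * κ⁻¹⁻¹ = W (W ψ) := by group
  rw [e]
  exact WW_triv hi ht ψ

theorem fix2 (n : ℕ) : ∀ φ : K, (∀ x : C, (∀ i < n + 1, x i = false) → φ x = x) → Nk X φ := by
  induction n with
  | zero =>
    intro φ h
    refine fix1 hi ht fun x hx => h x fun i h1 => ?_
    have h2 : i = 0 := by omega
    rw [h2]
    exact hx
  | succ n ih =>
    intro φ h
    refine Nk.conj hi σ (ih _ fun x hx => ?_)
    change σ (φ ((σ⁻¹ : K) x)) = x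
    have e : (σ⁻¹ : K) x = cs false x := by
      change sgi x = _
      rw [← cs_of (hx 0 (by omega)), sgi_0]
    rw [e, h]
    · rw [← e]
      exact σ.apply_symm_apply x
    · intro i hi'
      rcases i with _ | i
      · rfl
      · exact hx i (by omega)

theorem fix3 {φ : K} (a : C) (n : ℕ) (h : ∀ x : C, (∀ i < n, x i = a i) → φ x = x) : Nk X φ := by
  refine Nk.conj hi (fl a) (fix2 hi ht n _ fun x hx => ?_)
  change fl a (φ ((fl a)⁻¹ x)) = x
  have e : ((fl a)⁻¹ : K) x = fl a x := rfl
  rw [e, h, fl_fl]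
  intro i hi'
  rw [fl_apply, hx i (by omega)]
  simp

/-- The homeomorphisms of the Cantor space act trivially. -/
theorem triv (ψ : K) : Nk X ψ := by
  classical
  by_cases h0 : ψ = 1
  · intro x
    rw [h0, one_smul, dist_self]
  obtain ⟨x, hx⟩ : ∃ x, ψ x ≠ x := by
    by_contra hc
    push Not at hc
    exact h0 (Homeomorph.ext hc)
  obtain ⟨v, hv1, hv2⟩ : ∃ v : C, v ≠ x ∧ v ≠ ψ x := by
    by_contra hc
    push Not at hc
    have h1 : (Set.univ : Set C) ⊆ {x, ψ x} := fun v _ => by
      by_cases h : v = x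
      · exact Or.inl h
      · exact Or.inr (hc v h)
    exact Set.infinite_univ ((Set.toFinite {x, ψ x}).subset h1)
  obtain ⟨i, hi1⟩ := Function.ne_iff.1 hx
  obtain ⟨j, hj⟩ := Function.ne_iff.1 hv1
  obtain ⟨k, hk⟩ := Function.ne_iff.1 hv2
  have hO : IsOpen {z : C | (z i = x i ∧ ψ z i = ψ x i) ∧ (z j = x j ∧ ψ z k = ψ x k)} := by
    have c1 : ∀ n, IsOpen {z : C | z n = x n} := fun n =>
      (isOpen_discrete ({x n} : Set Bool)).preimage
        (continuous_apply n : Continuous fun z : C => z n)
    have c2 : ∀ n, IsOpen {z : C | ψ z n = ψ x n} := fun n =>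
      (isOpen_discrete ({ψ x n} : Set Bool)).preimage ((continuous_apply n).comp ψ.continuous)
    exact ((c1 i).inter (c2 i)).inter ((c1 j).inter (c2 k))
  have hxO : x ∈ {z : C | (z i = x i ∧ ψ z i = ψ x i) ∧ (z j = x j ∧ ψ z k = ψ x k)} :=
    ⟨⟨rfl, rfl⟩, rfl, rfl⟩
  obtain ⟨U, ⟨y, n, rfl⟩, hxU, hU⟩ :=
    (PiNat.isTopologicalBasis_cylinders (fun _ : ℕ => Bool)).exists_subset_of_mem_open
      hxO hO
  have hmem : ∀ z : C, z ∈ PiNat.cylinder (E := fun _ : ℕ => Bool) y n ↔ ∀ i < n, z i = y i :=
    fun z => Iff.rfl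
  have hUψ : ∀ z ∈ PiNat.cylinder (E := fun _ : ℕ => Bool) y n,
      ψ z ∉ PiNat.cylinder (E := fun _ : ℕ => Bool) y n := by
    intro z hz h1
    have h2 := hU hz
    have h3 := hU h1
    exact hi1 (h2.1.2.symm.trans h3.1.1)
  have hUc : IsClopen (PiNat.cylinder (E := fun _ : ℕ => Bool) y n) := by
    have : PiNat.cylinder (E := fun _ : ℕ => Bool) y n = ⋂ i ∈ Finset.range n,
        {z : C | z i = y i} := by
      ext z
      simp [PiNat.cylinder]
    rw [this]
    exact isClopen_biInter_finset fun i _ =>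
      (isClopen_discrete ({y i} : Set Bool)).preimage (continuous_apply i)
  -- the swap
  let f : C → C := fun z => if z ∈ PiNat.cylinder (E := fun _ : ℕ => Bool) y n then ψ z else
    if (ψ⁻¹ : K) z ∈ PiNat.cylinder (E := fun _ : ℕ => Bool) y n then (ψ⁻¹ : K) z else z
  have e1 : ∀ z, (ψ⁻¹ : K) (ψ z) = z := fun z => ψ.symm_apply_apply z
  have e2 : ∀ z, ψ ((ψ⁻¹ : K) z) = z := fun z => ψ.apply_symm_apply z
  have f1 : ∀ z, z ∈ PiNat.cylinder (E := fun _ : ℕ => Bool) y n → f z = ψ z := fun z hz =>
    if_pos hz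
  have f2 : ∀ z, (ψ⁻¹ : K) z ∈ PiNat.cylinder (E := fun _ : ℕ => Bool) y n →
      f z = (ψ⁻¹ : K) z := by
    intro z hz
    have h1 : z ∉ PiNat.cylinder (E := fun _ : ℕ => Bool) y n := by
      have := hUψ _ hz
      rwa [e2] at this
    change (if _ then _ else _) = _
    rw [if_neg h1, if_pos hz]
  have f3 : ∀ z, z ∉ PiNat.cylinder (E := fun _ : ℕ => Bool) y n →
      (ψ⁻¹ : K) z ∉ PiNat.cylinder (E := fun _ : ℕ => Bool) y n → f z = z := by
    intro z h1 h2
    change (if _ then _ else _) = _
    rw [if_neg h1, if_neg h2]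
  have hff : ∀ z, f (f z) = z := by
    intro z
    by_cases h1 : z ∈ PiNat.cylinder (E := fun _ : ℕ => Bool) y n
    · rw [f1 z h1, f2 (ψ z) (by rwa [e1]), e1]
    · by_cases h2 : (ψ⁻¹ : K) z ∈ PiNat.cylinder (E := fun _ : ℕ => Bool) y n
      · rw [f2 z h2, f1 _ h2, e2]
      · rw [f3 z h1 h2, f3 z h1 h2]
  have hfc : Continuous f := by
    have hif : ∀ (S : Set C), IsClopen S → ∀ g h : C → C, Continuous g → Continuous h →
        Continuous fun z => if z ∈ S then g z else h z := by
      intro S hS g h hg hh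
      refine Continuous.if (fun a ha => ?_) hg hh
      have h1 : frontier {x | x ∈ S} = ∅ := hS.frontier_eq
      rw [h1] at ha
      exact absurd ha (Set.notMem_empty _)
    exact hif _ hUc _ _ ψ.continuous (hif _ (hUc.preimage (ψ⁻¹ : K).continuous) _ _
      (ψ⁻¹ : K).continuous continuous_id)
  have hf : Nk X (mkK f f hff hff hfc hfc) := by
    refine fix3 hi ht v (max j k + 1) fun z hz => ?_
    refine f3 z (fun h1 => ?_) fun h1 => ?_
    · have h2 := (hU h1).2.1
      rw [hz j (by omega)] at h2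
      exact hj h2
    · have h2 := (hU h1).2.2
      rw [e2, hz k (by omega)] at h2
      exact hk h2
  have hg : Nk X (mkK f f hff hff hfc hfc * ψ) := by
    refine fix3 hi ht y n fun z hz => ?_
    change f (ψ z) = z
    rw [f2 (ψ z) (by rw [e1]; exact hz), e1]
  have h1 := Nk.mul hi (Nk.inv hi hf) hg
  rwa [inv_mul_cancel_left] at h1

end

end Pool.Agent.V11257CB
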