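import Pool.Agent.V11257.Cb2

/-!
# The sets of the Cantor-cube permutation model
-/

namespace Pool.Agent.V11257CB

open Set Topology

/-- The group of the permutations of the atoms: a homeomorphism of the Cantor space for every
natural number `n`, which acts on the `n`-th copy of the Cantor cube. -/
abbrev GG : Type := ℕ → K

/-- The subgroup of the elements that fix all atoms of the copies `n < k`. -/
def Fix (k : ℕ) : Subgroup GG where
  carrier := {g | ∀ n < k, g n = 1}
  mul_mem' {a b} ha hb n hn := by
    change a n * b n = 1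
    rw [ha n hn, hb n hn, one_mul]
  one_mem' n _ := rfl
  inv_mem' {a} ha n hn := by
    change (a n)⁻¹ = 1
    rw [ha n hn, inv_one]

theorem Fix_le {k m : ℕ} (h : k ≤ m) : Fix m ≤ Fix k := fun _ hg n hn => hg n (hn.trans_le h)

section

variable {k : ℕ} (X : Type*) [MulAction (Fix k) X]

/-- Every element of `X` is fixed by the elements of `Fix k` that fix all atoms of finitely many
copies of the Cantor cube. -/
def Elts : Prop := ∀ x : X, ∃ m, ∀ g : Fix k, (g : GG) ∈ Fix m → g • x = x

variable {X}

/-- The subset `S` of `X` belongs to the model. -/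
def SetN (S : Set X) : Prop := ∃ m, ∀ g : Fix k, (g : GG) ∈ Fix m → ∀ x, x ∈ S → g • x ∈ S

/-- The family `S` of subsets of `X` belongs to the model. -/
def FamN (S : Set (Set X)) : Prop :=
  (∀ U ∈ S, SetN (k := k) U) ∧
    ∃ m, ∀ g : Fix k, (g : GG) ∈ Fix m → ∀ U ∈ S, (fun x => g • x) '' U ∈ S

/-- The metric belongs to the model. -/
def MetN (k : ℕ) (X : Type*) [MetricSpace X] [MulAction (Fix k) X] : Prop :=
  ∃ m, ∀ g : Fix k, (g : GG) ∈ Fix m → ∀ x y : X, dist (g • x) (g • y) = dist x y

/-- The metric space `X` is compact in the model: every open cover of `X` that belongs to the model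
has a finite subcover. -/
def CompactN (k : ℕ) (X : Type*) [MetricSpace X] [MulAction (Fix k) X] : Prop :=
  ∀ S : Set (Set X), FamN (k := k) S → (∀ U ∈ S, IsOpen U) → ⋃₀ S = univ →
    ∃ T ⊆ S, T.Finite ∧ ⋃₀ T = univ

/-- The metric space `X` is separable in the model: there are a dense subset `Y` of `X` and an
injective function from `Y` to the set of the natural numbers that belong to the model. -/
def SeparableN (k : ℕ) (X : Type*) [MetricSpace X] [MulAction (Fix k) X] : Prop :=
  ∃ (Y : Set X) (e : X → ℕ) (m : ℕ), Dense Y ∧ InjOn e Y ∧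
    ∀ g : Fix k, (g : GG) ∈ Fix m → ∀ y ∈ Y, g • y ∈ Y ∧ e (g • y) = e y

end

/-- The elements that act on one copy only. -/
def one (j : ℕ) (φ : K) : GG := fun n => if n = j then φ else 1

theorem one_mem {k j : ℕ} (h : k ≤ j) (φ : K) : one j φ ∈ Fix k := by
  intro n hn
  have h1 : n ≠ j := by omega
  simp [one, h1]

/-- The elements that act on one copy only, as a homomorphism. -/
def oneH {k j : ℕ} (h : k ≤ j) : K →* Fix k where
  toFun φ := ⟨one j φ, one_mem h φ⟩
  map_one' := by
    refine Subtype.ext (funext fun n => ?_)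
    by_cases h1 : n = j <;> simp [one, h1]
  map_mul' φ ψ := by
    refine Subtype.ext (funext fun n => ?_)
    change one j (φ * ψ) n = one j φ n * one j ψ n
    by_cases h1 : n = j <;> simp [one, h1]

variable {k : ℕ} {X : Type*} [MetricSpace X] [MulAction (Fix k) X]

theorem tb_of (hE : Elts (k := k) X) (hM : MetN k X) (hC : CompactN k X) :
    TotallyBounded (univ : Set X) := by
  obtain ⟨m, hm⟩ := hM
  refine Metric.totallyBounded_iff.2 fun ε hε => ?_
  have himg : ∀ g : Fix k, (g : GG) ∈ Fix m → ∀ x : X,
      (fun y => g • y) '' Metric.ball x ε = Metric.ball (g • x) ε := by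
    intro g hg x
    ext y
    constructor
    · rintro ⟨z, hz, rfl⟩
      change dist (g • z) (g • x) < ε
      rw [hm g hg]
      exact hz
    · intro hy
      refine ⟨g⁻¹ • y, ?_, smul_inv_smul g y⟩
      change dist (g⁻¹ • y) x < ε
      rw [← hm g hg, smul_inv_smul]
      exact hy
  have hF : FamN (k := k) {U : Set X | ∃ x, U = Metric.ball x ε} := by
    refine ⟨?_, m, ?_⟩
    · rintro U ⟨x, rfl⟩
      obtain ⟨m', hm'⟩ := hE x
      refine ⟨max m m', fun g hg y hy => ?_⟩
      change dist (g • y) x < ε
      have h1 := hm' g (Fix_le (le_max_right _ _) hg)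
      have h2 : dist (g • y) (g • x) = dist y x := hm g (Fix_le (le_max_left _ _) hg) y x
      rw [h1] at h2
      rw [h2]
      exact hy
    · rintro g hg U ⟨x, rfl⟩
      exact ⟨g • x, himg g hg x⟩
  obtain ⟨T, hT, hTf, hTc⟩ := hC _ hF
    (by rintro U ⟨x, rfl⟩; exact Metric.isOpen_ball)
    (eq_univ_of_forall fun x => ⟨_, ⟨x, rfl⟩, Metric.mem_ball_self hε⟩)
  have hT' : ∀ U : T, ∃ x, (U : Set X) = Metric.ball x ε := fun U => hT U.2
  choose c hc using hT'
  haveI : Finite T := hTf
  refine ⟨range c, finite_range c, fun x _ => ?_⟩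
  have hx : x ∈ ⋃₀ T := hTc ▸ mem_univ x
  obtain ⟨U, hU, hxU⟩ := hx
  refine mem_iUnion₂.2 ⟨c ⟨U, hU⟩, mem_range_self _, ?_⟩
  rw [← hc ⟨U, hU⟩]
  exact hxU

/-- The compact metric spaces of the model are fixed by the elements that fix their metric. -/
theorem fixed (hE : Elts (k := k) X) (hM : MetN k X) (hC : CompactN k X) :
    ∃ m, ∀ g : Fix k, (g : GG) ∈ Fix m → ∀ x : X, g • x = x := by
  have ht := tb_of hE hM hC
  obtain ⟨m₀, hm⟩ := hM
  refine ⟨max k m₀, fun g hg x => ?_⟩
  -- one copy
  have h1 : ∀ j (hj : max k m₀ ≤ j) (φ : K) (x : X),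
      oneH (k := k) ((le_max_left k m₀).trans hj) φ • x = x := by
    intro j hj φ x
    letI : MulAction K X := MulAction.compHom X (oneH (k := k) ((le_max_left k m₀).trans hj))
    have hi : ∀ (g : K) (x y : X), dist (g • x) (g • y) = dist x y := fun g x y =>
      hm _ (one_mem ((le_max_right k m₀).trans hj) g) x y
    exact dist_eq_zero.1 (triv hi ht φ x)
  have h2 : ∀ d : ℕ, (∀ g : Fix k, (g : GG) ∈ Fix (max k m₀ + d) → g • x = x) →
      ∀ g : Fix k, (g : GG) ∈ Fix (max k m₀) → g • x = x := by
    intro d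
    induction d with
    | zero => exact fun h => h
    | succ d ih =>
      intro h
      refine ih fun g hg => ?_
      have hj : max k m₀ ≤ max k m₀ + d := by omega
      have h3 : ((oneH (k := k) ((le_max_left k m₀).trans hj) ((g : GG) (max k m₀ + d)))⁻¹ * g :
          Fix k) • x = x := by
        refine h _ fun n hn => ?_
        change (one (max k m₀ + d) ((g : GG) (max k m₀ + d)) n)⁻¹ * (g : GG) n = 1
        by_cases h4 : n = max k m₀ + d
        · subst h4
          simp [one]
        · have h5 : (g : GG) n = 1 := hg n (by omega)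
          simp [one, h4, h5]
      rw [mul_smul, inv_smul_eq_iff] at h3
      rw [h3]
      exact h1 _ hj _ x
  obtain ⟨m', hm'⟩ := hE x
  refine h2 m' (fun g hg => hm' g (Fix_le (by omega) hg)) g hg

/-- Compact metric spaces of the model are separable in the model. -/
theorem separable (hE : Elts (k := k) X) (hM : MetN k X) (hC : CompactN k X) :
    SeparableN k X := by
  classical
  have ht := tb_of hE hM hC
  obtain ⟨m, hm⟩ := fixed hE hM hC
  have hs : TopologicalSpace.IsSeparable (univ : Set X) := ht.isSeparable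
  obtain ⟨Y, hY, hd⟩ := hs
  obtain ⟨e, he⟩ := Set.countable_iff_exists_injOn.1 hY
  refine ⟨Y, e, m, fun x => hd (mem_univ x), he, fun g hg y hy => ?_⟩
  rw [hm g hg y]
  exact ⟨hy, rfl⟩

end Pool.Agent.V11257CB
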