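import Pool.Agent.V11257.Cq1

/-!
# Partitions from continuous real functions
-/

set_option maxHeartbeats 1000000
set_option linter.all false
set_option synthInstance.maxSize 2000

namespace Pool.Agent.Helper672.ZFA.V257

open FirstOrder FirstOrder.Language
open Pool.Agent.H310

universe u

section

variable {N : Type u} [L.Structure N] [IsModel N] {K : Type u} [ITy N K] [Field K]
  [LinearOrder K] [IsStrictOrderedRing K]

variable (N K) in
/-- Completeness. -/
def KComp : Prop := ∀ s : IPow N K, (∃ c, c ∈ s) → (∃ b, ∀ c, c ∈ s → c ≤ b) →
  ∃ c, (∀ d, d ∈ s → d ≤ c) ∧ ∀ b, (∀ d, d ∈ s → d ≤ b) → c ≤ b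

variable {ε : K}

/-- The multiples of `2 ε`. -/
noncomputable def zt (ε : K) (n : INat N) : K := irec 0 (fun _ y => y + (ε + ε)) n

section

variable [IAdd N K]

theorem int_zt0 : IntF N (fun q : INat N × K => q.2 + (ε + ε)) := by
  (repeat' (first | with_reducible exact IntF.id | with_reducible exact IntF.fst' | with_reducible exact IntF.snd' | with_reducible exact IntF.const _ | with_reducible exact Int.const _ | assumption | with_reducible apply Int.and | with_reducible apply Int.or | with_reducible apply Int.not | with_reducible apply Int.imp | with_reducible apply Int.iff | with_reducible apply Int.ne | with_reducible apply Int.eq | with_reducible apply Int.mem | with_reducible apply Int.subset | with_reducible apply Int.ltN | with_reducible apply Int.leN | with_reducible_and_instances apply Int.le | with_reducible_and_instances apply Int.lt | with_reducible apply Int.all | with_reducible apply Int.ex | with_reducible apply IntF.fst | with_reducible apply IntF.snd | with_reducible apply IntF.app | with_reducible apply IntF.inl | with_reducible apply IntF.inr | with_reducible_and_instances apply IntF.mul | with_reducible_and_instances apply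 IntF.inv | with_reducible_and_instances apply IntF.add | with_reducible_and_instances apply IntF.sub | with_reducible_and_instances apply IntF.neg | with_reducible_and_instances apply IntF.smul | with_reducible apply Int.fin | with_reducible apply IntF.sep | with_reducible apply IntF.lam | with_reducible apply IntF.insert | with_reducible apply IntF.singleton | with_reducible apply IntF.union | with_reducible apply IntF.iimage | with_reducible apply IntF.ite | with_reducible apply IntF.the | with_reducible apply IntF.irec | with_reducible apply IntF.succ | with_reducible apply IntF.val | with_reducible apply IntF.mk | (with_reducible refine Int.comp ?_ ?_; assumption) | (with_reducible refine Int.comp₂ ?_ ?_ ?_; assumption) | (with_reducible refine Int.comp₃ ?_ ?_ ?_ ?_; assumption) | (with_reducible refine Int.comp₄ ?_ ?_ ?_ ?_ ?_; assumption) | (with_reducible refine IntF.comp ?_ ?_; assumption) | (with_reducible refine IntF.comp₂ ?_ ?_ ?_; assumption) | (with_reducible refine IntF.comp₃ ?_ ?_ ?_ ?_; assumption) | with_reducible apply IntF.pair))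

theorem zt_zero : zt ε (0 : INat N) = 0 := irec_zero int_zt0

theorem zt_succ (n : INat N) : zt ε n.succ = zt ε n + (ε + ε) := irec_succ int_zt0 n

theorem int_zt : IntF N (zt (N := N) ε) := by
  unfold zt
  (repeat' (first | with_reducible exact IntF.id | with_reducible exact IntF.fst' | with_reducible exact IntF.snd' | with_reducible exact IntF.const _ | with_reducible exact Int.const _ | assumption | with_reducible apply Int.and | with_reducible apply Int.or | with_reducible apply Int.not | with_reducible apply Int.imp | with_reducible apply Int.iff | with_reducible apply Int.ne | with_reducible apply Int.eq | with_reducible apply Int.mem | with_reducible apply Int.subset | with_reducible apply Int.ltN | with_reducible apply Int.leN | with_reducible_and_instances apply Int.le | with_reducible_and_instances apply Int.lt | with_reducible apply Int.all | with_reducible apply Int.ex | with_reducible apply IntF.fst | with_reducible apply IntF.snd | with_reducible apply IntF.app | with_reducible apply IntF.inl | with_reducible apply IntF.inr | with_reducible_and_instances apply IntF.mul | with_reducible_and_instances apply IntF.inv | with_reducible_and_instances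 apply IntF.add | with_reducible_and_instances apply IntF.sub | with_reducible_and_instances apply IntF.neg | with_reducible_and_instances apply IntF.smul | with_reducible apply Int.fin | with_reducible apply IntF.sep | with_reducible apply IntF.lam | with_reducible apply IntF.insert | with_reducible apply IntF.singleton | with_reducible apply IntF.union | with_reducible apply IntF.iimage | with_reducible apply IntF.ite | with_reducible apply IntF.the | with_reducible apply IntF.irec | with_reducible apply IntF.succ | with_reducible apply IntF.val | with_reducible apply IntF.mk | (with_reducible refine Int.comp ?_ ?_; assumption) | (with_reducible refine Int.comp₂ ?_ ?_ ?_; assumption) | (with_reducible refine Int.comp₃ ?_ ?_ ?_ ?_; assumption) | (with_reducible refine Int.comp₄ ?_ ?_ ?_ ?_ ?_; assumption) | (with_reducible refine IntF.comp ?_ ?_; assumption) | (with_reducible refine IntF.comp₂ ?_ ?_ ?_; assumption) | (with_reducible refine IntF.comp₃ ?_ ?_ ?_ ?_; assumption) | with_reducible apply IntF.pair))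

theorem zt_add (m n : INat N) : zt ε (m + n) = zt ε m + zt ε n := by
  have hI := int_zt (N := N) (ε := ε)
  refine INat.ind (p := fun n => zt ε (m + n) = zt ε m + zt ε n) (by (repeat' (first | with_reducible exact IntF.id | with_reducible exact IntF.fst' | with_reducible exact IntF.snd' | with_reducible exact IntF.const _ | with_reducible exact Int.const _ | assumption | with_reducible apply Int.and | with_reducible apply Int.or | with_reducible apply Int.not | with_reducible apply Int.imp | with_reducible apply Int.iff | with_reducible apply Int.ne | with_reducible apply Int.eq | with_reducible apply Int.mem | with_reducible apply Int.subset | with_reducible apply Int.ltN | with_reducible apply Int.leN | with_reducible_and_instances apply Int.le | with_reducible_and_instances apply Int.lt | with_reducible apply Int.all | with_reducible apply Int.ex | with_reducible apply IntF.fst | with_reducible apply IntF.snd | with_reducible apply IntF.app | with_reducible apply IntF.inl | with_reducible apply IntF.inr | with_reducible_and_instances apply IntF.mul | with_reducible_and_instances apply IntF.inv | with_reducible_and_instances apply IntF.add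 | with_reducible_and_instances apply IntF.sub | with_reducible_and_instances apply IntF.neg | with_reducible_and_instances apply IntF.smul | with_reducible apply Int.fin | with_reducible apply IntF.sep | with_reducible apply IntF.lam | with_reducible apply IntF.insert | with_reducible apply IntF.singleton | with_reducible apply IntF.union | with_reducible apply IntF.iimage | with_reducible apply IntF.ite | with_reducible apply IntF.the | with_reducible apply IntF.irec | with_reducible apply IntF.succ | with_reducible apply IntF.val | with_reducible apply IntF.mk | (with_reducible refine Int.comp ?_ ?_; assumption) | (with_reducible refine Int.comp₂ ?_ ?_ ?_; assumption) | (with_reducible refine Int.comp₃ ?_ ?_ ?_ ?_; assumption) | (with_reducible refine Int.comp₄ ?_ ?_ ?_ ?_ ?_; assumption) | (with_reducible refine IntF.comp ?_ ?_; assumption) | (with_reducible refine IntF.comp₂ ?_ ?_ ?_; assumption) | (with_reducible refine IntF.comp₃ ?_ ?_ ?_ ?_; assumption) | with_reducible apply IntF.pair))) ?_ ?_ n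
  · rw [zt_zero, add_zero, add_zero]
  · intro n ih
    have h1 : m + n.succ = (m + n).succ := by
      rw [INat.succ_eq, INat.succ_eq, add_assoc]
    rw [h1, zt_succ, ih, zt_succ, add_assoc]

theorem zt_lt [ILE N K] (hε : 0 < ε) (m n : INat N) : m < n → zt ε m + (ε + ε) ≤ zt ε n := by
  have hI := int_zt (N := N) (ε := ε)
  refine INat.ind (p := fun n => m < n → zt ε m + (ε + ε) ≤ zt ε n) (by (repeat' (first | with_reducible exact IntF.id | with_reducible exact IntF.fst' | with_reducible exact IntF.snd' | with_reducible exact IntF.const _ | with_reducible exact Int.const _ | assumption | with_reducible apply Int.and | with_reducible apply Int.or | with_reducible apply Int.not | with_reducible apply Int.imp | with_reducible apply Int.iff | with_reducible apply Int.ne | with_reducible apply Int.eq | with_reducible apply Int.mem | with_reducible apply Int.subset | with_reducible apply Int.ltN | with_reducible apply Int.leN | with_reducible_and_instances apply Int.le | with_reducible_and_instances apply Int.lt | with_reducible apply Int.all | with_reducible apply Int.ex | with_reducible apply IntF.fst | with_reducible apply IntF.snd | with_reducible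 apply IntF.app | with_reducible apply IntF.inl | with_reducible apply IntF.inr | with_reducible_and_instances apply IntF.mul | with_reducible_and_instances apply IntF.inv | with_reducible_and_instances apply IntF.add | with_reducible_and_instances apply IntF.sub | with_reducible_and_instances apply IntF.neg | with_reducible_and_instances apply IntF.smul | with_reducible apply Int.fin | with_reducible apply IntF.sep | with_reducible apply IntF.lam | with_reducible apply IntF.insert | with_reducible apply IntF.singleton | with_reducible apply IntF.union | with_reducible apply IntF.iimage | with_reducible apply IntF.ite | with_reducible apply IntF.the | with_reducible apply IntF.irec | with_reducible apply IntF.succ | with_reducible apply IntF.val | with_reducible apply IntF.mk | (with_reducible refine Int.comp ?_ ?_; assumption) | (with_reducible refine Int.comp₂ ?_ ?_ ?_; assumption) | (with_reducible refine Int.comp₃ ?_ ?_ ?_ ?_; assumption) | (with_reducible refine Int.comp₄ ?_ ?_ ?_ ?_ ?_; assumption) | (with_reducible refine IntF.comp ?_ ?_; assumption) | (with_reducible refine IntF.comp₂ ?_ ?_ ?_; assumption) | (with_reducible refine IntF.comp₃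 ?_ ?_ ?_ ?_; assumption) | with_reducible apply IntF.pair))) ?_ ?_ n
  · intro h
    exact absurd h INat.not_lt_zero
  · intro n ih h
    rw [zt_succ]
    rcases INat.lt_succ_iff'.1 h with h | rfl
    · have := ih h
      linarith
    · exact le_rfl

/-- The centers. -/
theorem zt_tri [ILE N K] (hε : 0 < ε) (a b a' b' : INat N) :
    zt ε a' - zt ε b' + (ε + ε) ≤ zt ε a - zt ε b ∨ zt ε a' - zt ε b' = zt ε a - zt ε b ∨
      zt ε a - zt ε b + (ε + ε) ≤ zt ε a' - zt ε b' := by
  have h1 := zt_add (ε := ε) a b'
  have h2 := zt_add (ε := ε) a' b
  rcases lt_trichotomy (a + b') (a' + b) with h | h | h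
  · have h3 := zt_lt hε _ _ h
    exact Or.inr (Or.inr (by linarith))
  · rw [h] at h1
    exact Or.inr (Or.inl (by linarith))
  · have h3 := zt_lt hε _ _ h
    exact Or.inl (by linarith)

variable [ILE N K]

theorem zt_arch (hc : KComp N K) (hε : 0 < ε) (t : K) : ∃ n : INat N, t < zt ε n := by
  by_contra hcon
  push Not at hcon
  have hI := int_zt (N := N) (ε := ε)
  have hS : Int N (fun c : K => ∃ n : INat N, c = zt ε n) := by (repeat' (first | with_reducible exact IntF.id | with_reducible exact IntF.fst' | with_reducible exact IntF.snd' | with_reducible exact IntF.const _ | with_reducible exact Int.const _ | assumption | with_reducible apply Int.and | with_reducible apply Int.or | with_reducible apply Int.not | with_reducible apply Int.imp | with_reducible apply Int.iff | with_reducible apply Int.ne | with_reducible apply Int.eq | with_reducible apply Int.mem | with_reducible apply Int.subset | with_reducible apply Int.ltN | with_reducible apply Int.leN | with_reducible_and_instances apply Int.le | with_reducible_and_instances apply Int.lt | with_reducible apply Int.all | with_reducible apply Int.ex | with_reducible apply IntF.fst | with_reducible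 apply IntF.snd | with_reducible apply IntF.app | with_reducible apply IntF.inl | with_reducible apply IntF.inr | with_reducible_and_instances apply IntF.mul | with_reducible_and_instances apply IntF.inv | with_reducible_and_instances apply IntF.add | with_reducible_and_instances apply IntF.sub | with_reducible_and_instances apply IntF.neg | with_reducible_and_instances apply IntF.smul | with_reducible apply Int.fin | with_reducible apply IntF.sep | with_reducible apply IntF.lam | with_reducible apply IntF.insert | with_reducible apply IntF.singleton | with_reducible apply IntF.union | with_reducible apply IntF.iimage | with_reducible apply IntF.ite | with_reducible apply IntF.the | with_reducible apply IntF.irec | with_reducible apply IntF.succ | with_reducible apply IntF.val | with_reducible apply IntF.mk | (with_reducible refine Int.comp ?_ ?_; assumption) | (with_reducible refine Int.comp₂ ?_ ?_ ?_; assumption) | (with_reducible refine Int.comp₃ ?_ ?_ ?_ ?_; assumption) | (with_reducible refine Int.comp₄ ?_ ?_ ?_ ?_ ?_; assumption) | (with_reducible refine IntF.comp ?_ ?_; assumption) | (with_reducible refine IntF.comp₂ ?_ ?_ ?_; assumption)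 | (with_reducible refine IntF.comp₃ ?_ ?_ ?_ ?_; assumption) | with_reducible apply IntF.pair))
  obtain ⟨c, h1, h2⟩ := hc (sep N fun c : K => ∃ n : INat N, c = zt ε n)
    ⟨zt ε 0, (mem_sep hS).2 ⟨0, rfl⟩⟩ ⟨t, fun c hc => by
      obtain ⟨n, rfl⟩ := (mem_sep hS).1 hc
      exact hcon n⟩
  have h3 : c ≤ c - (ε + ε) := h2 _ fun d hd => by
    obtain ⟨n, rfl⟩ := (mem_sep hS).1 hd
    have h4 := h1 (zt ε n.succ) ((mem_sep hS).2 ⟨n.succ, rfl⟩)
    rw [zt_succ] at h4
    linarith
  linarith

theorem zt_floor (hc : KComp N K) (hε : 0 < ε) (t : K) :
    ∃ a b : INat N, zt ε a - zt ε b ≤ t ∧ t < zt ε a - zt ε b + (ε + ε) := by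
  have hI := int_zt (N := N) (ε := ε)
  obtain ⟨b, hb⟩ := zt_arch hc hε (-t)
  obtain ⟨n, h1, h2⟩ := INat.exists_least (p := fun n => t + zt ε b < zt ε n) (by (repeat' (first | with_reducible exact IntF.id | with_reducible exact IntF.fst' | with_reducible exact IntF.snd' | with_reducible exact IntF.const _ | with_reducible exact Int.const _ | assumption | with_reducible apply Int.and | with_reducible apply Int.or | with_reducible apply Int.not | with_reducible apply Int.imp | with_reducible apply Int.iff | with_reducible apply Int.ne | with_reducible apply Int.eq | with_reducible apply Int.mem | with_reducible apply Int.subset | with_reducible apply Int.ltN | with_reducible apply Int.leN | with_reducible_and_instances apply Int.le | with_reducible_and_instances apply Int.lt | with_reducible apply Int.all | with_reducible apply Int.ex | with_reducible apply IntF.fst | with_reducible apply IntF.snd | with_reducible apply IntF.app | with_reducible apply IntF.inl | with_reducible apply IntF.inr | with_reducible_and_instances apply IntF.mul | with_reducible_and_instances apply IntF.inv | with_reducible_and_instances apply IntF.add | with_reducible_and_instances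 apply IntF.sub | with_reducible_and_instances apply IntF.neg | with_reducible_and_instances apply IntF.smul | with_reducible apply Int.fin | with_reducible apply IntF.sep | with_reducible apply IntF.lam | with_reducible apply IntF.insert | with_reducible apply IntF.singleton | with_reducible apply IntF.union | with_reducible apply IntF.iimage | with_reducible apply IntF.ite | with_reducible apply IntF.the | with_reducible apply IntF.irec | with_reducible apply IntF.succ | with_reducible apply IntF.val | with_reducible apply IntF.mk | (with_reducible refine Int.comp ?_ ?_; assumption) | (with_reducible refine Int.comp₂ ?_ ?_ ?_; assumption) | (with_reducible refine Int.comp₃ ?_ ?_ ?_ ?_; assumption) | (with_reducible refine Int.comp₄ ?_ ?_ ?_ ?_ ?_; assumption) | (with_reducible refine IntF.comp ?_ ?_; assumption) | (with_reducible refine IntF.comp₂ ?_ ?_ ?_; assumption) | (with_reducible refine IntF.comp₃ ?_ ?_ ?_ ?_; assumption) | with_reducible apply IntF.pair)))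
    (zt_arch hc hε _)
  rcases INat.eq_zero_or_succ n with h3 | ⟨m, h3⟩
  · exfalso
    rw [h3, zt_zero] at h1
    linarith
  · refine ⟨m, b, ?_, ?_⟩
    · by_contra h4
      have h5 := h2 m (by linarith [not_le.1 h4])
      rw [h3] at h5
      exact absurd (INat.lt_succ_self m) (not_lt.2 h5)
    · rw [h3, zt_succ] at h1
      linarith

/-- The distance to the centers. -/
theorem exists_dist (hc : KComp N K) (hε : 0 < ε) : ∃ d : K → K, IntF N d ∧
    (∀ t, 0 ≤ d t ∧ d t ≤ ε) ∧ (∀ s t, d s ≤ d t + |s - t|) ∧
    (∀ a b : INat N, d (zt ε a - zt ε b) = 0) ∧
    ∀ t, d t < ε → ∃ a b : INat N, zt ε a - zt ε b - ε < t ∧ t < zt ε a - zt ε b + ε := by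
  have hI := int_zt (N := N) (ε := ε)
  have hex : ∀ t : K, ∃ y, 0 ≤ y ∧ y ≤ ε ∧
      (∃ a b : INat N, t - (zt ε a - zt ε b) = y ∨ (zt ε a - zt ε b) - t = y) ∧
      ∀ a b : INat N, y ≤ t - (zt ε a - zt ε b) ∨ y ≤ (zt ε a - zt ε b) - t := by
    intro t
    obtain ⟨a, b, h1, h2⟩ := zt_floor (N := N) hc hε t
    rcases le_or_gt (t - (zt ε a - zt ε b)) ε with h3 | h3
    · refine ⟨t - (zt ε a - zt ε b), by linarith, h3, ⟨a, b, Or.inl rfl⟩, fun a' b' => ?_⟩
      rcases zt_tri hε a b a' b' with h4 | h4 | h4
      · exact Or.inl (by linarith)
      · exact Or.inl (by linarith)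
      · exact Or.inr (by linarith)
    · have h5 := zt_succ (ε := ε) a
      refine ⟨zt ε a.succ - zt ε b - t, by linarith, by linarith, ⟨a.succ, b, Or.inr rfl⟩,
        fun a' b' => ?_⟩
      rcases zt_tri hε a b a' b' with h4 | h4 | h4
      · exact Or.inl (by linarith)
      · exact Or.inl (by linarith)
      · exact Or.inr (by linarith)
  choose d h1 h2 h3 h4 using hex
  have hle : ∀ s y, 0 ≤ y → (∃ a b : INat N, s - (zt ε a - zt ε b) = y ∨
      (zt ε a - zt ε b) - s = y) → d s ≤ y := by
    rintro s y hy ⟨a, b, h5⟩
    rcases h4 s a b with h6 | h6 <;> rcases h5 with h5 | h5 <;> linarith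
  refine ⟨d, ?_, fun t => ⟨h1 t, h2 t⟩, fun s t => ?_, fun a b => ?_, fun t ht => ?_⟩
  · refine IntF.of_rel (r := fun t y => 0 ≤ y ∧
      (∃ a b : INat N, t - (zt ε a - zt ε b) = y ∨ (zt ε a - zt ε b) - t = y) ∧
      ∀ a b : INat N, y ≤ t - (zt ε a - zt ε b) ∨ y ≤ (zt ε a - zt ε b) - t) (by (repeat' (first | with_reducible exact IntF.id | with_reducible exact IntF.fst' | with_reducible exact IntF.snd' | with_reducible exact IntF.const _ | with_reducible exact Int.const _ | assumption | with_reducible apply Int.and | with_reducible apply Int.or | with_reducible apply Int.not | with_reducible apply Int.imp | with_reducible apply Int.iff | with_reducible apply Int.ne | with_reducible apply Int.eq | with_reducible apply Int.mem | with_reducible apply Int.subset | with_reducible apply Int.ltN | with_reducible apply Int.leN | with_reducible_and_instances apply Int.le | with_reducible_and_instances apply Int.lt | with_reducible apply Int.all | with_reducible apply Int.ex | with_reducible apply IntF.fst | with_reducible apply IntF.snd | with_reducible apply IntF.app | with_reducible apply IntF.inl | with_reducible apply IntF.inr | with_reducible_and_instances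 apply IntF.mul | with_reducible_and_instances apply IntF.inv | with_reducible_and_instances apply IntF.add | with_reducible_and_instances apply IntF.sub | with_reducible_and_instances apply IntF.neg | with_reducible_and_instances apply IntF.smul | with_reducible apply Int.fin | with_reducible apply IntF.sep | with_reducible apply IntF.lam | with_reducible apply IntF.insert | with_reducible apply IntF.singleton | with_reducible apply IntF.union | with_reducible apply IntF.iimage | with_reducible apply IntF.ite | with_reducible apply IntF.the | with_reducible apply IntF.irec | with_reducible apply IntF.succ | with_reducible apply IntF.val | with_reducible apply IntF.mk | (with_reducible refine Int.comp ?_ ?_; assumption) | (with_reducible refine Int.comp₂ ?_ ?_ ?_; assumption) | (with_reducible refine Int.comp₃ ?_ ?_ ?_ ?_; assumption) | (with_reducible refine Int.comp₄ ?_ ?_ ?_ ?_ ?_; assumption) | (with_reducible refine IntF.comp ?_ ?_; assumption) | (with_reducible refine IntF.comp₂ ?_ ?_ ?_; assumption) | (with_reducible refine IntF.comp₃ ?_ ?_ ?_ ?_; assumption) | with_reducible apply IntF.pair)))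
      fun t y => ⟨fun h5 => ?_, fun h5 => h5 ▸ ⟨h1 t, h3 t, h4 t⟩⟩
    refine le_antisymm (hle t y h5.1 h5.2.1) ?_
    obtain ⟨a, b, h6⟩ := h3 t
    rcases h5.2.2 a b with h7 | h7 <;> rcases h6 with h6 | h6 <;> linarith [h1 t, h5.1]
  · obtain ⟨a, b, h5⟩ := h3 t
    have h6 := le_abs_self (s - t)
    have h7 := neg_abs_le (s - t)
    rcases le_total 0 (s - (zt ε a - zt ε b)) with h8 | h8
    · have h9 := hle s _ h8 ⟨a, b, Or.inl rfl⟩
      rcases h5 with h5 | h5 <;> linarith [h1 t]
    · have h9 := hle s ((zt ε a - zt ε b) - s) (by linarith) ⟨a, b, Or.inr rfl⟩
      rcases h5 with h5 | h5 <;> linarith [h1 t]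
  · refine le_antisymm (hle _ 0 le_rfl ⟨a, b, Or.inl (sub_self _)⟩) (h1 _)
  · obtain ⟨a, b, h5⟩ := h3 t
    have h6 := h1 t
    refine ⟨a, b, ?_, ?_⟩
    · rcases h5 with h5 | h5 <;> linarith
    · rcases h5 with h5 | h5 <;> linarith

end

variable [IAdd N K] [ILE N K] {α : Type u} [ITy N α] {O : IPow N α → Prop}

/-- Continuous functions to the field. -/
def CtK (O : IPow N α → Prop) (f : α → K) : Prop :=
  ∀ z, ∀ δ : K, 0 < δ → ∃ U, O U ∧ z ∈ U ∧ ∀ w, w ∈ U → |f w - f z| < δ

/-- Continuous functions to the natural numbers. -/
def CtN (O : IPow N α → Prop) (g : α → INat N) : Prop :=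
  ∀ z, ∃ U, O U ∧ z ∈ U ∧ ∀ w, w ∈ U → g w = g z

/-- The partition. -/
theorem exists_part (hε : 0 < ε) (hO : ∀ U V, O U → O V → O (U ∩ V)) {f : α → K}
    (hf : IntF N f) (hfc : CtK O f) {C C' : IPow N α} (hC : O C) (hC' : O C')
    (hCC : ∀ z, z ∈ C' ↔ z ∉ C)
    (h1 : ∀ z, z ∈ C → ∃ a b : INat N, zt ε a - zt ε b - ε < f z ∧ f z < zt ε a - zt ε b + ε)
    (h0 : ∀ z, z ∉ C → ∃ a b : INat N, zt ε a - zt ε b < f z ∧
      f z < zt ε a - zt ε b + (ε + ε)) :
    ∃ g : α → INat N, IntF N g ∧ CtN O g ∧ ∀ z w, g z = g w → |f z - f w| < ε + ε := by
  have hI := int_zt (N := N) (ε := ε)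
  have hpr : IntF N (fun q : INat N × INat N => pr q.1 q.2) := int_pr
  let W : α → INat N → Prop := fun z n => ∃ a b : INat N,
    (n = pr 0 (pr a b) ∧ z ∈ C ∧ zt ε a - zt ε b - ε < f z ∧ f z < zt ε a - zt ε b + ε) ∨
    (n = pr (INat.succ 0) (pr a b) ∧ z ∉ C ∧ zt ε a - zt ε b < f z ∧
      f z < zt ε a - zt ε b + (ε + ε))
  have iW : Int N (fun q : α × INat N => W q.1 q.2) := by
    change Int N (fun q : α × INat N => ∃ a b : INat N,
      (q.2 = pr 0 (pr a b) ∧ q.1 ∈ C ∧ zt ε a - zt ε b - ε < f q.1 ∧
        f q.1 < zt ε a - zt ε b + ε) ∨
      (q.2 = pr (INat.succ 0) (pr a b) ∧ q.1 ∉ C ∧ zt ε a - zt ε b < f q.1 ∧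
        f q.1 < zt ε a - zt ε b + (ε + ε)))
    (repeat' (first | with_reducible exact IntF.id | with_reducible exact IntF.fst' | with_reducible exact IntF.snd' | with_reducible exact IntF.const _ | with_reducible exact Int.const _ | assumption | with_reducible apply Int.and | with_reducible apply Int.or | with_reducible apply Int.not | with_reducible apply Int.imp | with_reducible apply Int.iff | with_reducible apply Int.ne | with_reducible apply Int.eq | with_reducible apply Int.mem | with_reducible apply Int.subset | with_reducible apply Int.ltN | with_reducible apply Int.leN | with_reducible_and_instances apply Int.le | with_reducible_and_instances apply Int.lt | with_reducible apply Int.all | with_reducible apply Int.ex | with_reducible apply IntF.fst | with_reducible apply IntF.snd | with_reducible apply IntF.app | with_reducible apply IntF.inl | with_reducible apply IntF.inr | with_reducible_and_instances apply IntF.mul | with_reducible_and_instances apply IntF.inv | with_reducible_and_instances apply IntF.add | with_reducible_and_instances apply IntF.sub | with_reducible_and_instances apply IntF.neg | with_reducible_and_instances apply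 IntF.smul | with_reducible apply Int.fin | with_reducible apply IntF.sep | with_reducible apply IntF.lam | with_reducible apply IntF.insert | with_reducible apply IntF.singleton | with_reducible apply IntF.union | with_reducible apply IntF.iimage | with_reducible apply IntF.ite | with_reducible apply IntF.the | with_reducible apply IntF.irec | with_reducible apply IntF.succ | with_reducible apply IntF.val | with_reducible apply IntF.mk | (with_reducible refine Int.comp ?_ ?_; assumption) | (with_reducible refine Int.comp₂ ?_ ?_ ?_; assumption) | (with_reducible refine Int.comp₃ ?_ ?_ ?_ ?_; assumption) | (with_reducible refine Int.comp₄ ?_ ?_ ?_ ?_ ?_; assumption) | (with_reducible refine IntF.comp ?_ ?_; assumption) | (with_reducible refine IntF.comp₂ ?_ ?_ ?_; assumption) | (with_reducible refine IntF.comp₃ ?_ ?_ ?_ ?_; assumption) | with_reducible apply IntF.pair))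
  have hex : ∀ z, ∃ n, W z n ∧ ∀ m, W z m → n ≤ m := by
    intro z
    have iWz : Int N (fun n : INat N => W z n) :=
      Int.comp (p := fun q : α × INat N => W q.1 q.2) (f := fun n : INat N => (z, n)) iW (by (repeat' (first | with_reducible exact IntF.id | with_reducible exact IntF.fst' | with_reducible exact IntF.snd' | with_reducible exact IntF.const _ | with_reducible exact Int.const _ | assumption | with_reducible apply Int.and | with_reducible apply Int.or | with_reducible apply Int.not | with_reducible apply Int.imp | with_reducible apply Int.iff | with_reducible apply Int.ne | with_reducible apply Int.eq | with_reducible apply Int.mem | with_reducible apply Int.subset | with_reducible apply Int.ltN | with_reducible apply Int.leN | with_reducible_and_instances apply Int.le | with_reducible_and_instances apply Int.lt | with_reducible apply Int.all | with_reducible apply Int.ex | with_reducible apply IntF.fst | with_reducible apply IntF.snd | with_reducible apply IntF.app | with_reducible apply IntF.inl | with_reducible apply IntF.inr | with_reducible_and_instances apply IntF.mul | with_reducible_and_instances apply IntF.inv | with_reducible_and_instances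 apply IntF.add | with_reducible_and_instances apply IntF.sub | with_reducible_and_instances apply IntF.neg | with_reducible_and_instances apply IntF.smul | with_reducible apply Int.fin | with_reducible apply IntF.sep | with_reducible apply IntF.lam | with_reducible apply IntF.insert | with_reducible apply IntF.singleton | with_reducible apply IntF.union | with_reducible apply IntF.iimage | with_reducible apply IntF.ite | with_reducible apply IntF.the | with_reducible apply IntF.irec | with_reducible apply IntF.succ | with_reducible apply IntF.val | with_reducible apply IntF.mk | (with_reducible refine Int.comp ?_ ?_; assumption) | (with_reducible refine Int.comp₂ ?_ ?_ ?_; assumption) | (with_reducible refine Int.comp₃ ?_ ?_ ?_ ?_; assumption) | (with_reducible refine Int.comp₄ ?_ ?_ ?_ ?_ ?_; assumption) | (with_reducible refine IntF.comp ?_ ?_; assumption) | (with_reducible refine IntF.comp₂ ?_ ?_ ?_; assumption) | (with_reducible refine IntF.comp₃ ?_ ?_ ?_ ?_; assumption) | with_reducible apply IntF.pair)))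
    refine INat.exists_least iWz ?_
    by_cases hz : z ∈ C
    · obtain ⟨a, b, h2, h3⟩ := h1 z hz
      exact ⟨_, a, b, Or.inl ⟨rfl, hz, h2, h3⟩⟩
    · obtain ⟨a, b, h2, h3⟩ := h0 z hz
      exact ⟨_, a, b, Or.inr ⟨rfl, hz, h2, h3⟩⟩
  choose g hg1 hg2 using hex
  have h01 : (0 : INat N) ≠ INat.succ 0 := (INat.succ_ne_zero _).symm
  have hcong : ∀ z w, (∀ n, W z n ↔ W w n) → g w = g z := fun z w h =>
    le_antisymm (hg2 w _ ((h _).1 (hg1 z))) (hg2 z _ ((h _).2 (hg1 w)))
  refine ⟨g, ?_, fun z => ?_, fun z w hzw => ?_⟩
  · refine IntF.of_rel (r := fun z n => W z n ∧ ∀ m, W z m → n ≤ m) ?_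
      fun z n => ⟨fun h => le_antisymm (hg2 z n h.1) (h.2 _ (hg1 z)), fun h => h ▸
        ⟨hg1 z, hg2 z⟩⟩
    have h2 : Int N (fun q : (α × INat N) × INat N => W q.1.1 q.2) :=
      Int.comp (p := fun q : α × INat N => W q.1 q.2)
        (f := fun q : (α × INat N) × INat N => (q.1.1, q.2)) iW (by (repeat' (first | with_reducible exact IntF.id | with_reducible exact IntF.fst' | with_reducible exact IntF.snd' | with_reducible exact IntF.const _ | with_reducible exact Int.const _ | assumption | with_reducible apply Int.and | with_reducible apply Int.or | with_reducible apply Int.not | with_reducible apply Int.imp | with_reducible apply Int.iff | with_reducible apply Int.ne | with_reducible apply Int.eq | with_reducible apply Int.mem | with_reducible apply Int.subset | with_reducible apply Int.ltN | with_reducible apply Int.leN | with_reducible_and_instances apply Int.le | with_reducible_and_instances apply Int.lt | with_reducible apply Int.all | with_reducible apply Int.ex | with_reducible apply IntF.fst | with_reducible apply IntF.snd | with_reducible apply IntF.app | with_reducible apply IntF.inl | with_reducible apply IntF.inr | with_reducible_and_instances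 apply IntF.mul | with_reducible_and_instances apply IntF.inv | with_reducible_and_instances apply IntF.add | with_reducible_and_instances apply IntF.sub | with_reducible_and_instances apply IntF.neg | with_reducible_and_instances apply IntF.smul | with_reducible apply Int.fin | with_reducible apply IntF.sep | with_reducible apply IntF.lam | with_reducible apply IntF.insert | with_reducible apply IntF.singleton | with_reducible apply IntF.union | with_reducible apply IntF.iimage | with_reducible apply IntF.ite | with_reducible apply IntF.the | with_reducible apply IntF.irec | with_reducible apply IntF.succ | with_reducible apply IntF.val | with_reducible apply IntF.mk | (with_reducible refine Int.comp ?_ ?_; assumption) | (with_reducible refine Int.comp₂ ?_ ?_ ?_; assumption) | (with_reducible refine Int.comp₃ ?_ ?_ ?_ ?_; assumption) | (with_reducible refine Int.comp₄ ?_ ?_ ?_ ?_ ?_; assumption) | (with_reducible refine IntF.comp ?_ ?_; assumption) | (with_reducible refine IntF.comp₂ ?_ ?_ ?_; assumption) | (with_reducible refine IntF.comp₃ ?_ ?_ ?_ ?_; assumption) | with_reducible apply IntF.pair)))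
    (repeat' (first | with_reducible exact IntF.id | with_reducible exact IntF.fst' | with_reducible exact IntF.snd' | with_reducible exact IntF.const _ | with_reducible exact Int.const _ | assumption | with_reducible apply Int.and | with_reducible apply Int.or | with_reducible apply Int.not | with_reducible apply Int.imp | with_reducible apply Int.iff | with_reducible apply Int.ne | with_reducible apply Int.eq | with_reducible apply Int.mem | with_reducible apply Int.subset | with_reducible apply Int.ltN | with_reducible apply Int.leN | with_reducible_and_instances apply Int.le | with_reducible_and_instances apply Int.lt | with_reducible apply Int.all | with_reducible apply Int.ex | with_reducible apply IntF.fst | with_reducible apply IntF.snd | with_reducible apply IntF.app | with_reducible apply IntF.inl | with_reducible apply IntF.inr | with_reducible_and_instances apply IntF.mul | with_reducible_and_instances apply IntF.inv | with_reducible_and_instances apply IntF.add | with_reducible_and_instances apply IntF.sub | with_reducible_and_instances apply IntF.neg | with_reducible_and_instances apply IntF.smul | with_reducible apply Int.fin |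 with_reducible apply IntF.sep | with_reducible apply IntF.lam | with_reducible apply IntF.insert | with_reducible apply IntF.singleton | with_reducible apply IntF.union | with_reducible apply IntF.iimage | with_reducible apply IntF.ite | with_reducible apply IntF.the | with_reducible apply IntF.irec | with_reducible apply IntF.succ | with_reducible apply IntF.val | with_reducible apply IntF.mk | (with_reducible refine Int.comp ?_ ?_; assumption) | (with_reducible refine Int.comp₂ ?_ ?_ ?_; assumption) | (with_reducible refine Int.comp₃ ?_ ?_ ?_ ?_; assumption) | (with_reducible refine Int.comp₄ ?_ ?_ ?_ ?_ ?_; assumption) | (with_reducible refine IntF.comp ?_ ?_; assumption) | (with_reducible refine IntF.comp₂ ?_ ?_ ?_; assumption) | (with_reducible refine IntF.comp₃ ?_ ?_ ?_ ?_; assumption) | with_reducible apply IntF.pair))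
  · by_cases hz : z ∈ C
    · obtain ⟨a, b, h2, h3⟩ := h1 z hz
      obtain ⟨U, h4, h5, h6⟩ := hfc z (min (f z - (zt ε a - zt ε b - ε))
        (zt ε a - zt ε b + ε - f z)) (lt_min (by linarith) (by linarith))
      refine ⟨C ∩ U, hO _ _ hC h4, mem_inter.2 ⟨hz, h5⟩, fun w hw => hcong z w fun n => ?_⟩
      obtain ⟨hw1, hw2⟩ := mem_inter.1 hw
      have h7 := h6 w hw2
      have h8 := (abs_lt.1 h7).1
      have h9 := (abs_lt.1 h7).2
      have k1 := lt_of_lt_of_le h7 (min_le_left _ _)
      have k2 := lt_of_lt_of_le h7 (min_le_right _ _)
      have k3 := (abs_lt.1 k1).1
      have k4 := (abs_lt.1 k2).2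
      constructor
      · rintro ⟨a', b', ⟨e1, -, e3, e4⟩ | ⟨e1, e2, e3, e4⟩⟩
        · refine ⟨a', b', Or.inl ⟨e1, hw1, ?_, ?_⟩⟩
          · rcases zt_tri hε a b a' b' with h10 | h10 | h10 <;> linarith
          · rcases zt_tri hε a b a' b' with h10 | h10 | h10 <;> linarith
        · exact absurd hz e2
      · rintro ⟨a', b', ⟨e1, -, e3, e4⟩ | ⟨e1, e2, e3, e4⟩⟩
        · refine ⟨a', b', Or.inl ⟨e1, hz, ?_, ?_⟩⟩
          · rcases zt_tri hε a b a' b' with h10 | h10 | h10 <;> linarith
          · rcases zt_tri hε a b a' b' with h10 | h10 | h10 <;> linarith
        · exact absurd hw1 e2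
    · obtain ⟨a, b, h2, h3⟩ := h0 z hz
      obtain ⟨U, h4, h5, h6⟩ := hfc z (min (f z - (zt ε a - zt ε b))
        (zt ε a - zt ε b + (ε + ε) - f z)) (lt_min (by linarith) (by linarith))
      refine ⟨C' ∩ U, hO _ _ hC' h4, mem_inter.2 ⟨(hCC z).2 hz, h5⟩, fun w hw =>
        hcong z w fun n => ?_⟩
      obtain ⟨hw1, hw2⟩ := mem_inter.1 hw
      have hw1 := (hCC w).1 hw1
      have h7 := h6 w hw2
      have k1 := lt_of_lt_of_le h7 (min_le_left _ _)
      have k2 := lt_of_lt_of_le h7 (min_le_right _ _)
      have k3 := (abs_lt.1 k1).1
      have k4 := (abs_lt.1 k2).2
      constructor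
      · rintro ⟨a', b', ⟨e1, e2, e3, e4⟩ | ⟨e1, e2, e3, e4⟩⟩
        · exact absurd e2 hz
        · refine ⟨a', b', Or.inr ⟨e1, hw1, ?_, ?_⟩⟩
          · rcases zt_tri hε a b a' b' with h10 | h10 | h10 <;> linarith
          · rcases zt_tri hε a b a' b' with h10 | h10 | h10 <;> linarith
      · rintro ⟨a', b', ⟨e1, e2, e3, e4⟩ | ⟨e1, e2, e3, e4⟩⟩
        · exact absurd e2 hw1
        · refine ⟨a', b', Or.inr ⟨e1, hz, ?_, ?_⟩⟩
          · rcases zt_tri hε a b a' b' with h10 | h10 | h10 <;> linarith
          · rcases zt_tri hε a b a' b' with h10 | h10 | h10 <;> linarith
  · have h2 := hg1 z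
    have h3 := hg1 w
    rw [hzw] at h2
    obtain ⟨a, b, h2⟩ := h2
    obtain ⟨a', b', h3⟩ := h3
    rcases h2 with ⟨e1, -, e2, e3⟩ | ⟨e1, -, e2, e3⟩ <;>
      rcases h3 with ⟨e4, -, e5, e6⟩ | ⟨e4, -, e5, e6⟩
    · obtain ⟨-, e7⟩ := pr_inj (e1.symm.trans e4)
      obtain ⟨e7, e8⟩ := pr_inj e7
      subst e7
      subst e8
      rw [abs_lt]
      constructor <;> linarith
    · exact absurd (pr_inj (e1.symm.trans e4)).1 h01
    · exact absurd (pr_inj (e4.symm.trans e1)).1 h01
    · obtain ⟨-, e7⟩ := pr_inj (e1.symm.trans e4)
      obtain ⟨e7, e8⟩ := pr_inj e7
      subst e7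
      subst e8
      rw [abs_lt]
      constructor <;> linarith

end

end Pool.Agent.Helper672.ZFA.V257
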