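import Pool.Agent.V11257.Zt5

/-!
# The spaces: N-compactness
-/

set_option maxHeartbeats 1000000
set_option linter.all false
set_option synthInstance.maxSize 2000

namespace Pool.Agent.V11257Z

open FirstOrder FirstOrder.Language
open Pool.Agent.Helper672
open Pool.Agent.Helper672.ZFA
open Pool.Agent.Helper672.ZFA.V246
open Pool.Agent.Helper672.Plain (LSet)
open Pool.Agent.H310
open Pool.Agent.H310Cards
open Pool.Agent.H310Top (IsTopology)
open Pool.Agent.V11246

universe u

section

variable {N : Type u} [L.Structure N] [hN : IsModel N] {α : Type u} [ITy N α]
variable {D : INat N × (α × α) → Prop} {fb : α → INat N} (h : ZT N D fb)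

include h

/-- Finitely many conditions define an interval. -/
theorem ZT.exists_itv (z : Pt N α) {S : IPow N α} (hS : IFin S) :
    ∃ l u, gt D fb z l ∧ leo D fb z u ∧ ∀ w, gt D fb w l → leo D fb w u →
      ∀ x, x ∈ S → (lep D fb w x ↔ lep D fb z x) := by
  have h1 := h.int_gt
  have h2 := h.int_leo
  have h3 := h.int_lep
  have g1 : Int N (fun q : (IPow N α × Bd N α) × Bd N α => gt D fb z q.1.2) := Int.comp
    (p := fun q : Pt N α × Bd N α => gt D fb q.1 q.2)
    (f := fun q : (IPow N α × Bd N α) × Bd N α => (z, q.1.2)) h1 (by (repeat' (first | with_reducible exact IntF.id | with_reducible exact IntF.fst' | with_reducible exact IntF.snd' | with_reducible exact IntF.const _ | with_reducible exact Int.const _ | assumption | with_reducible apply Int.and | with_reducible apply Int.or | with_reducible apply Int.not | with_reducible apply Int.imp | with_reducible apply Int.iff | with_reducible apply Int.ne | with_reducible apply Int.eq | with_reducible apply Int.mem | with_reducible apply Int.subset | with_reducible apply Int.ltN | with_reducible apply Int.leN | with_reducible_and_instances apply Int.le | with_reducible_and_instances apply Int.lt | with_reducible apply Int.all | with_reducible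 apply Int.ex | with_reducible apply IntF.fst | with_reducible apply IntF.snd | with_reducible apply IntF.app | with_reducible apply IntF.inl | with_reducible apply IntF.inr | with_reducible_and_instances apply IntF.mul | with_reducible_and_instances apply IntF.inv | with_reducible_and_instances apply IntF.add | with_reducible_and_instances apply IntF.sub | with_reducible_and_instances apply IntF.neg | with_reducible_and_instances apply IntF.smul | with_reducible apply Int.fin | with_reducible apply IntF.sep | with_reducible apply IntF.lam | with_reducible apply IntF.insert | with_reducible apply IntF.singleton | with_reducible apply IntF.union | with_reducible apply IntF.iimage | with_reducible apply IntF.ite | with_reducible apply IntF.the | with_reducible apply IntF.irec | with_reducible apply IntF.succ | with_reducible apply IntF.val | with_reducible apply IntF.mk | (with_reducible refine Int.comp ?_ ?_; assumption) | (with_reducible refine Int.comp₂ ?_ ?_ ?_; assumption) | (with_reducible refine Int.comp₃ ?_ ?_ ?_ ?_; assumption) | (with_reducible refine Int.comp₄ ?_ ?_ ?_ ?_ ?_; assumption) | (with_reducible refine IntF.comp ?_ ?_; assumption) | (with_reducible refine IntF.comp₂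 ?_ ?_ ?_; assumption) | (with_reducible refine IntF.comp₃ ?_ ?_ ?_ ?_; assumption) | with_reducible apply IntF.pair)))
  have g2 : Int N (fun q : (IPow N α × Bd N α) × Bd N α => leo D fb z q.2) := Int.comp
    (p := fun q : Pt N α × Bd N α => leo D fb q.1 q.2)
    (f := fun q : (IPow N α × Bd N α) × Bd N α => (z, q.2)) h2 (by (repeat' (first | with_reducible exact IntF.id | with_reducible exact IntF.fst' | with_reducible exact IntF.snd' | with_reducible exact IntF.const _ | with_reducible exact Int.const _ | assumption | with_reducible apply Int.and | with_reducible apply Int.or | with_reducible apply Int.not | with_reducible apply Int.imp | with_reducible apply Int.iff | with_reducible apply Int.ne | with_reducible apply Int.eq | with_reducible apply Int.mem | with_reducible apply Int.subset | with_reducible apply Int.ltN | with_reducible apply Int.leN | with_reducible_and_instances apply Int.le | with_reducible_and_instances apply Int.lt | with_reducible apply Int.all | with_reducible apply Int.ex | with_reducible apply IntF.fst | with_reducible apply IntF.snd | with_reducible apply IntF.app | with_reducible apply IntF.inl | with_reducible apply IntF.inr | with_reducible_and_instances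 apply IntF.mul | with_reducible_and_instances apply IntF.inv | with_reducible_and_instances apply IntF.add | with_reducible_and_instances apply IntF.sub | with_reducible_and_instances apply IntF.neg | with_reducible_and_instances apply IntF.smul | with_reducible apply Int.fin | with_reducible apply IntF.sep | with_reducible apply IntF.lam | with_reducible apply IntF.insert | with_reducible apply IntF.singleton | with_reducible apply IntF.union | with_reducible apply IntF.iimage | with_reducible apply IntF.ite | with_reducible apply IntF.the | with_reducible apply IntF.irec | with_reducible apply IntF.succ | with_reducible apply IntF.val | with_reducible apply IntF.mk | (with_reducible refine Int.comp ?_ ?_; assumption) | (with_reducible refine Int.comp₂ ?_ ?_ ?_; assumption) | (with_reducible refine Int.comp₃ ?_ ?_ ?_ ?_; assumption) | (with_reducible refine Int.comp₄ ?_ ?_ ?_ ?_ ?_; assumption) | (with_reducible refine IntF.comp ?_ ?_; assumption) | (with_reducible refine IntF.comp₂ ?_ ?_ ?_; assumption) | (with_reducible refine IntF.comp₃ ?_ ?_ ?_ ?_; assumption) | with_reducible apply IntF.pair)))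
  have g3 : Int N (fun q : ((IPow N α × Bd N α) × Bd N α) × Pt N α => gt D fb q.2 q.1.1.2) :=
    Int.comp (p := fun q : Pt N α × Bd N α => gt D fb q.1 q.2)
    (f := fun q : ((IPow N α × Bd N α) × Bd N α) × Pt N α => (q.2, q.1.1.2)) h1 (by (repeat' (first | with_reducible exact IntF.id | with_reducible exact IntF.fst' | with_reducible exact IntF.snd' | with_reducible exact IntF.const _ | with_reducible exact Int.const _ | assumption | with_reducible apply Int.and | with_reducible apply Int.or | with_reducible apply Int.not | with_reducible apply Int.imp | with_reducible apply Int.iff | with_reducible apply Int.ne | with_reducible apply Int.eq | with_reducible apply Int.mem | with_reducible apply Int.subset | with_reducible apply Int.ltN | with_reducible apply Int.leN | with_reducible_and_instances apply Int.le | with_reducible_and_instances apply Int.lt | with_reducible apply Int.all | with_reducible apply Int.ex | with_reducible apply IntF.fst | with_reducible apply IntF.snd | with_reducible apply IntF.app | with_reducible apply IntF.inl | with_reducible apply IntF.inr | with_reducible_and_instances apply IntF.mul | with_reducible_and_instances apply IntF.inv | with_reducible_and_instances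 apply IntF.add | with_reducible_and_instances apply IntF.sub | with_reducible_and_instances apply IntF.neg | with_reducible_and_instances apply IntF.smul | with_reducible apply Int.fin | with_reducible apply IntF.sep | with_reducible apply IntF.lam | with_reducible apply IntF.insert | with_reducible apply IntF.singleton | with_reducible apply IntF.union | with_reducible apply IntF.iimage | with_reducible apply IntF.ite | with_reducible apply IntF.the | with_reducible apply IntF.irec | with_reducible apply IntF.succ | with_reducible apply IntF.val | with_reducible apply IntF.mk | (with_reducible refine Int.comp ?_ ?_; assumption) | (with_reducible refine Int.comp₂ ?_ ?_ ?_; assumption) | (with_reducible refine Int.comp₃ ?_ ?_ ?_ ?_; assumption) | (with_reducible refine Int.comp₄ ?_ ?_ ?_ ?_ ?_; assumption) | (with_reducible refine IntF.comp ?_ ?_; assumption) | (with_reducible refine IntF.comp₂ ?_ ?_ ?_; assumption) | (with_reducible refine IntF.comp₃ ?_ ?_ ?_ ?_; assumption) | with_reducible apply IntF.pair)))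
  have g4 : Int N (fun q : ((IPow N α × Bd N α) × Bd N α) × Pt N α => leo D fb q.2 q.1.2) :=
    Int.comp (p := fun q : Pt N α × Bd N α => leo D fb q.1 q.2)
    (f := fun q : ((IPow N α × Bd N α) × Bd N α) × Pt N α => (q.2, q.1.2)) h2 (by (repeat' (first | with_reducible exact IntF.id | with_reducible exact IntF.fst' | with_reducible exact IntF.snd' | with_reducible exact IntF.const _ | with_reducible exact Int.const _ | assumption | with_reducible apply Int.and | with_reducible apply Int.or | with_reducible apply Int.not | with_reducible apply Int.imp | with_reducible apply Int.iff | with_reducible apply Int.ne | with_reducible apply Int.eq | with_reducible apply Int.mem | with_reducible apply Int.subset | with_reducible apply Int.ltN | with_reducible apply Int.leN | with_reducible_and_instances apply Int.le | with_reducible_and_instances apply Int.lt | with_reducible apply Int.all | with_reducible apply Int.ex | with_reducible apply IntF.fst | with_reducible apply IntF.snd | with_reducible apply IntF.app | with_reducible apply IntF.inl | with_reducible apply IntF.inr | with_reducible_and_instances apply IntF.mul | with_reducible_and_instances apply IntF.inv | with_reducible_and_instances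 apply IntF.add | with_reducible_and_instances apply IntF.sub | with_reducible_and_instances apply IntF.neg | with_reducible_and_instances apply IntF.smul | with_reducible apply Int.fin | with_reducible apply IntF.sep | with_reducible apply IntF.lam | with_reducible apply IntF.insert | with_reducible apply IntF.singleton | with_reducible apply IntF.union | with_reducible apply IntF.iimage | with_reducible apply IntF.ite | with_reducible apply IntF.the | with_reducible apply IntF.irec | with_reducible apply IntF.succ | with_reducible apply IntF.val | with_reducible apply IntF.mk | (with_reducible refine Int.comp ?_ ?_; assumption) | (with_reducible refine Int.comp₂ ?_ ?_ ?_; assumption) | (with_reducible refine Int.comp₃ ?_ ?_ ?_ ?_; assumption) | (with_reducible refine Int.comp₄ ?_ ?_ ?_ ?_ ?_; assumption) | (with_reducible refine IntF.comp ?_ ?_; assumption) | (with_reducible refine IntF.comp₂ ?_ ?_ ?_; assumption) | (with_reducible refine IntF.comp₃ ?_ ?_ ?_ ?_; assumption) | with_reducible apply IntF.pair)))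
  have g5 : Int N (fun q : (((IPow N α × Bd N α) × Bd N α) × Pt N α) × α => lep D fb q.1.2 q.2) :=
    Int.comp (p := fun q : Pt N α × α => lep D fb q.1 q.2)
    (f := fun q : (((IPow N α × Bd N α) × Bd N α) × Pt N α) × α => (q.1.2, q.2)) h3 (by (repeat' (first | with_reducible exact IntF.id | with_reducible exact IntF.fst' | with_reducible exact IntF.snd' | with_reducible exact IntF.const _ | with_reducible exact Int.const _ | assumption | with_reducible apply Int.and | with_reducible apply Int.or | with_reducible apply Int.not | with_reducible apply Int.imp | with_reducible apply Int.iff | with_reducible apply Int.ne | with_reducible apply Int.eq | with_reducible apply Int.mem | with_reducible apply Int.subset | with_reducible apply Int.ltN | with_reducible apply Int.leN | with_reducible_and_instances apply Int.le | with_reducible_and_instances apply Int.lt | with_reducible apply Int.all | with_reducible apply Int.ex | with_reducible apply IntF.fst | with_reducible apply IntF.snd | with_reducible apply IntF.app | with_reducible apply IntF.inl | with_reducible apply IntF.inr | with_reducible_and_instances apply IntF.mul | with_reducible_and_instances apply IntF.inv | with_reducible_and_instances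 apply IntF.add | with_reducible_and_instances apply IntF.sub | with_reducible_and_instances apply IntF.neg | with_reducible_and_instances apply IntF.smul | with_reducible apply Int.fin | with_reducible apply IntF.sep | with_reducible apply IntF.lam | with_reducible apply IntF.insert | with_reducible apply IntF.singleton | with_reducible apply IntF.union | with_reducible apply IntF.iimage | with_reducible apply IntF.ite | with_reducible apply IntF.the | with_reducible apply IntF.irec | with_reducible apply IntF.succ | with_reducible apply IntF.val | with_reducible apply IntF.mk | (with_reducible refine Int.comp ?_ ?_; assumption) | (with_reducible refine Int.comp₂ ?_ ?_ ?_; assumption) | (with_reducible refine Int.comp₃ ?_ ?_ ?_ ?_; assumption) | (with_reducible refine Int.comp₄ ?_ ?_ ?_ ?_ ?_; assumption) | (with_reducible refine IntF.comp ?_ ?_; assumption) | (with_reducible refine IntF.comp₂ ?_ ?_ ?_; assumption) | (with_reducible refine IntF.comp₃ ?_ ?_ ?_ ?_; assumption) | with_reducible apply IntF.pair)))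
  have g6 : Int N (fun q : (((IPow N α × Bd N α) × Bd N α) × Pt N α) × α => lep D fb z q.2) :=
    Int.comp (p := fun q : Pt N α × α => lep D fb q.1 q.2)
    (f := fun q : (((IPow N α × Bd N α) × Bd N α) × Pt N α) × α => (z, q.2)) h3 (by (repeat' (first | with_reducible exact IntF.id | with_reducible exact IntF.fst' | with_reducible exact IntF.snd' | with_reducible exact IntF.const _ | with_reducible exact Int.const _ | assumption | with_reducible apply Int.and | with_reducible apply Int.or | with_reducible apply Int.not | with_reducible apply Int.imp | with_reducible apply Int.iff | with_reducible apply Int.ne | with_reducible apply Int.eq | with_reducible apply Int.mem | with_reducible apply Int.subset | with_reducible apply Int.ltN | with_reducible apply Int.leN | with_reducible_and_instances apply Int.le | with_reducible_and_instances apply Int.lt | with_reducible apply Int.all | with_reducible apply Int.ex | with_reducible apply IntF.fst | with_reducible apply IntF.snd | with_reducible apply IntF.app | with_reducible apply IntF.inl | with_reducible apply IntF.inr | with_reducible_and_instances apply IntF.mul | with_reducible_and_instances apply IntF.inv | with_reducible_and_instances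 apply IntF.add | with_reducible_and_instances apply IntF.sub | with_reducible_and_instances apply IntF.neg | with_reducible_and_instances apply IntF.smul | with_reducible apply Int.fin | with_reducible apply IntF.sep | with_reducible apply IntF.lam | with_reducible apply IntF.insert | with_reducible apply IntF.singleton | with_reducible apply IntF.union | with_reducible apply IntF.iimage | with_reducible apply IntF.ite | with_reducible apply IntF.the | with_reducible apply IntF.irec | with_reducible apply IntF.succ | with_reducible apply IntF.val | with_reducible apply IntF.mk | (with_reducible refine Int.comp ?_ ?_; assumption) | (with_reducible refine Int.comp₂ ?_ ?_ ?_; assumption) | (with_reducible refine Int.comp₃ ?_ ?_ ?_ ?_; assumption) | (with_reducible refine Int.comp₄ ?_ ?_ ?_ ?_ ?_; assumption) | (with_reducible refine IntF.comp ?_ ?_; assumption) | (with_reducible refine IntF.comp₂ ?_ ?_ ?_; assumption) | (with_reducible refine IntF.comp₃ ?_ ?_ ?_ ?_; assumption) | with_reducible apply IntF.pair)))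
  refine IFin.ind (p := fun S => ∃ l u, gt D fb z l ∧ leo D fb z u ∧ ∀ w, gt D fb w l →
    leo D fb w u → ∀ x, x ∈ S → (lep D fb w x ↔ lep D fb z x)) (by (repeat' (first | with_reducible exact IntF.id | with_reducible exact IntF.fst' | with_reducible exact IntF.snd' | with_reducible exact IntF.const _ | with_reducible exact Int.const _ | assumption | with_reducible apply Int.and | with_reducible apply Int.or | with_reducible apply Int.not | with_reducible apply Int.imp | with_reducible apply Int.iff | with_reducible apply Int.ne | with_reducible apply Int.eq | with_reducible apply Int.mem | with_reducible apply Int.subset | with_reducible apply Int.ltN | with_reducible apply Int.leN | with_reducible_and_instances apply Int.le | with_reducible_and_instances apply Int.lt | with_reducible apply Int.all | with_reducible apply Int.ex | with_reducible apply IntF.fst | with_reducible apply IntF.snd | with_reducible apply IntF.app | with_reducible apply IntF.inl | with_reducible apply IntF.inr | with_reducible_and_instances apply IntF.mul | with_reducible_and_instances apply IntF.inv | with_reducible_and_instances apply IntF.add | with_reducible_and_instances apply IntF.sub | with_reducible_and_instances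 apply IntF.neg | with_reducible_and_instances apply IntF.smul | with_reducible apply Int.fin | with_reducible apply IntF.sep | with_reducible apply IntF.lam | with_reducible apply IntF.insert | with_reducible apply IntF.singleton | with_reducible apply IntF.union | with_reducible apply IntF.iimage | with_reducible apply IntF.ite | with_reducible apply IntF.the | with_reducible apply IntF.irec | with_reducible apply IntF.succ | with_reducible apply IntF.val | with_reducible apply IntF.mk | (with_reducible refine Int.comp ?_ ?_; assumption) | (with_reducible refine Int.comp₂ ?_ ?_ ?_; assumption) | (with_reducible refine Int.comp₃ ?_ ?_ ?_ ?_; assumption) | (with_reducible refine Int.comp₄ ?_ ?_ ?_ ?_ ?_; assumption) | (with_reducible refine IntF.comp ?_ ?_; assumption) | (with_reducible refine IntF.comp₂ ?_ ?_ ?_; assumption) | (with_reducible refine IntF.comp₃ ?_ ?_ ?_ ?_; assumption) | with_reducible apply IntF.pair))) ?_ ?_ S hS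
  · exact ⟨Sum.inr 0, Sum.inr 0, gt_inr, leo_inr, fun w _ _ x hx => absurd hx (by simp)⟩
  · rintro S x - - ⟨l, u, h4, h5, h6⟩
    by_cases h7 : lep D fb z x
    · rcases h.leo_dir u (Sum.inl x) with h8 | h8
      · refine ⟨l, u, h4, h5, fun w h9 h10 y hy => ?_⟩
        rcases mem_insert.1 hy with rfl | hy
        · exact iff_of_true (leo_inl.1 (h8 w h10)) h7
        · exact h6 w h9 h10 y hy
      · refine ⟨l, Sum.inl x, h4, leo_inl.2 h7, fun w h9 h10 y hy => ?_⟩
        rcases mem_insert.1 hy with rfl | hy
        · exact iff_of_true (leo_inl.1 h10) h7
        · exact h6 w h9 (h8 w h10) y hy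
    · rcases h.gt_dir l (Sum.inl x) with h8 | h8
      · refine ⟨l, u, h4, h5, fun w h9 h10 y hy => ?_⟩
        rcases mem_insert.1 hy with rfl | hy
        · exact iff_of_false (gt_inl.1 (h8 w h9)) h7
        · exact h6 w h9 h10 y hy
      · refine ⟨Sum.inl x, u, gt_inl.2 h7, h5, fun w h9 h10 y hy => ?_⟩
        rcases mem_insert.1 hy with rfl | hy
        · exact iff_of_false (gt_inl.1 h9) h7
        · exact h6 w (h8 w h9) h10 y hy

end

section

attribute [local instance] Helper672.Plain.toL

variable {N : Type u} [LSet.Structure N] [hZ : Helper672.Plain.Zermelo N]

local instance instModelZt6 : IsModel N := Helper672.Plain.isModel_toL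

noncomputable local instance instPElZt6 (x : N) : ITy N (Helper672.Plain.El x) :=
  (inferInstance : ITy N (El x))

variable {a : N}
variable {D : INat N × (Plain.El a × Plain.El a) → Prop} {fb : Plain.El a → INat N}
  (h : ZT N D fb)
variable {P : Pt N (Plain.El a) → Prop} (hP : Int N P)

theorem mem_codeP {β : Type u} [ITy N β] {U : IPow N β} {b : β} :
    Plain.Mem (code b) (code (M := N) U) ↔ b ∈ U := mem_codeB'

variable (N) in
/-- The natural number `0`. -/
noncomputable def e0 : Plain.El (dom N (INat N)) := ⟨code (0 : INat N), code_mem_domP _⟩

variable (N) in
/-- The natural number `1`. -/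
noncomputable def e1 : Plain.El (dom N (INat N)) := ⟨code (0 : INat N).succ, code_mem_domP _⟩

theorem e01 : e0 N ≠ e1 N := fun h => INat.succ_ne_zero (0 : INat N)
  (ITy.inj (congrArg Subtype.val h).symm)

open Classical in
/-- The embedding. -/
noncomputable def chi (D : INat N × (Plain.El a × Plain.El a) → Prop) (fb : Plain.El a → INat N)
    (z : Pt N (Plain.El a)) : IFun N (Plain.El a) (Plain.El (dom N (INat N))) :=
  lam N fun x => if lep D fb z x then e1 N else e0 N

include h

theorem int_chi : IntF N (chi D fb) := by
  have h1 := h.int_lep
  unfold chi
  (repeat' (first | with_reducible exact IntF.id | with_reducible exact IntF.fst' | with_reducible exact IntF.snd' | with_reducible exact IntF.const _ | with_reducible exact Int.const _ | assumption | with_reducible apply Int.and | with_reducible apply Int.or | with_reducible apply Int.not | with_reducible apply Int.imp | with_reducible apply Int.iff | with_reducible apply Int.ne | with_reducible apply Int.eq | with_reducible apply Int.mem | with_reducible apply Int.subset | with_reducible apply Int.ltN | with_reducible apply Int.leN | with_reducible_and_instances apply Int.le | with_reducible_and_instances apply Int.lt | with_reducible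 apply Int.all | with_reducible apply Int.ex | with_reducible apply IntF.fst | with_reducible apply IntF.snd | with_reducible apply IntF.app | with_reducible apply IntF.inl | with_reducible apply IntF.inr | with_reducible_and_instances apply IntF.mul | with_reducible_and_instances apply IntF.inv | with_reducible_and_instances apply IntF.add | with_reducible_and_instances apply IntF.sub | with_reducible_and_instances apply IntF.neg | with_reducible_and_instances apply IntF.smul | with_reducible apply Int.fin | with_reducible apply IntF.sep | with_reducible apply IntF.lam | with_reducible apply IntF.insert | with_reducible apply IntF.singleton | with_reducible apply IntF.union | with_reducible apply IntF.iimage | with_reducible apply IntF.ite | with_reducible apply IntF.the | with_reducible apply IntF.irec | with_reducible apply IntF.succ | with_reducible apply IntF.val | with_reducible apply IntF.mk | (with_reducible refine Int.comp ?_ ?_; assumption) | (with_reducible refine Int.comp₂ ?_ ?_ ?_; assumption) | (with_reducible refine Int.comp₃ ?_ ?_ ?_ ?_; assumption) | (with_reducible refine Int.comp₄ ?_ ?_ ?_ ?_ ?_; assumption) | (with_reducible refine IntF.comp ?_ ?_; assumption) |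 (with_reducible refine IntF.comp₂ ?_ ?_ ?_; assumption) | (with_reducible refine IntF.comp₃ ?_ ?_ ?_ ?_; assumption) | with_reducible apply IntF.pair))

theorem chi_apply (z : Pt N (Plain.El a)) (x : Plain.El a) :
    (lep D fb z x ∧ chi D fb z x = e1 N) ∨ (¬ lep D fb z x ∧ chi D fb z x = e0 N) := by
  classical
  have h1 := h.int_lep
  have h2 : Int N (fun x : Plain.El a => lep D fb z x) := Int.comp
    (p := fun q : Pt N (Plain.El a) × Plain.El a => lep D fb q.1 q.2) (f := fun x => (z, x)) h1
      (by (repeat' (first | with_reducible exact IntF.id | with_reducible exact IntF.fst' | with_reducible exact IntF.snd' | with_reducible exact IntF.const _ | with_reducible exact Int.const _ | assumption | with_reducible apply Int.and | with_reducible apply Int.or | with_reducible apply Int.not | with_reducible apply Int.imp | with_reducible apply Int.iff | with_reducible apply Int.ne | with_reducible apply Int.eq | with_reducible apply Int.mem | with_reducible apply Int.subset | with_reducible apply Int.ltN | with_reducible apply Int.leN | with_reducible_and_instances apply Int.le | with_reducible_and_instances apply Int.lt | with_reducible apply Int.all | with_reducible apply Int.ex | with_reducible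 apply IntF.fst | with_reducible apply IntF.snd | with_reducible apply IntF.app | with_reducible apply IntF.inl | with_reducible apply IntF.inr | with_reducible_and_instances apply IntF.mul | with_reducible_and_instances apply IntF.inv | with_reducible_and_instances apply IntF.add | with_reducible_and_instances apply IntF.sub | with_reducible_and_instances apply IntF.neg | with_reducible_and_instances apply IntF.smul | with_reducible apply Int.fin | with_reducible apply IntF.sep | with_reducible apply IntF.lam | with_reducible apply IntF.insert | with_reducible apply IntF.singleton | with_reducible apply IntF.union | with_reducible apply IntF.iimage | with_reducible apply IntF.ite | with_reducible apply IntF.the | with_reducible apply IntF.irec | with_reducible apply IntF.succ | with_reducible apply IntF.val | with_reducible apply IntF.mk | (with_reducible refine Int.comp ?_ ?_; assumption) | (with_reducible refine Int.comp₂ ?_ ?_ ?_; assumption) | (with_reducible refine Int.comp₃ ?_ ?_ ?_ ?_; assumption) | (with_reducible refine Int.comp₄ ?_ ?_ ?_ ?_ ?_; assumption) | (with_reducible refine IntF.comp ?_ ?_; assumption) | (with_reducible refine IntF.comp₂ ?_ ?_ ?_; assumption) | (with_reducible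 refine IntF.comp₃ ?_ ?_ ?_ ?_; assumption) | with_reducible apply IntF.pair)))
  have h3 : chi D fb z x = if lep D fb z x then e1 N else e0 N := by
    unfold chi
    rw [lam_apply (by (repeat' (first | with_reducible exact IntF.id | with_reducible exact IntF.fst' | with_reducible exact IntF.snd' | with_reducible exact IntF.const _ | with_reducible exact Int.const _ | assumption | with_reducible apply Int.and | with_reducible apply Int.or | with_reducible apply Int.not | with_reducible apply Int.imp | with_reducible apply Int.iff | with_reducible apply Int.ne | with_reducible apply Int.eq | with_reducible apply Int.mem | with_reducible apply Int.subset | with_reducible apply Int.ltN | with_reducible apply Int.leN | with_reducible_and_instances apply Int.le | with_reducible_and_instances apply Int.lt | with_reducible apply Int.all | with_reducible apply Int.ex | with_reducible apply IntF.fst | with_reducible apply IntF.snd | with_reducible apply IntF.app | with_reducible apply IntF.inl | with_reducible apply IntF.inr | with_reducible_and_instances apply IntF.mul | with_reducible_and_instances apply IntF.inv | with_reducible_and_instances apply IntF.add | with_reducible_and_instances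 apply IntF.sub | with_reducible_and_instances apply IntF.neg | with_reducible_and_instances apply IntF.smul | with_reducible apply Int.fin | with_reducible apply IntF.sep | with_reducible apply IntF.lam | with_reducible apply IntF.insert | with_reducible apply IntF.singleton | with_reducible apply IntF.union | with_reducible apply IntF.iimage | with_reducible apply IntF.ite | with_reducible apply IntF.the | with_reducible apply IntF.irec | with_reducible apply IntF.succ | with_reducible apply IntF.val | with_reducible apply IntF.mk | (with_reducible refine Int.comp ?_ ?_; assumption) | (with_reducible refine Int.comp₂ ?_ ?_ ?_; assumption) | (with_reducible refine Int.comp₃ ?_ ?_ ?_ ?_; assumption) | (with_reducible refine Int.comp₄ ?_ ?_ ?_ ?_ ?_; assumption) | (with_reducible refine IntF.comp ?_ ?_; assumption) | (with_reducible refine IntF.comp₂ ?_ ?_ ?_; assumption) | (with_reducible refine IntF.comp₃ ?_ ?_ ?_ ?_; assumption) | with_reducible apply IntF.pair)))]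
  rw [h3]
  by_cases h4 : lep D fb z x
  · rw [if_pos h4]
    exact Or.inl ⟨h4, rfl⟩
  · rw [if_neg h4]
    exact Or.inr ⟨h4, rfl⟩

theorem chi_one {z : Pt N (Plain.El a)} {x : Plain.El a} : chi D fb z x = e1 N ↔ lep D fb z x := by
  rcases chi_apply h z x with h1 | h1
  · exact iff_of_true h1.2 h1.1
  · exact iff_of_false (fun h2 => e01 (h1.2.symm.trans h2)) h1.1

theorem chi_zero {z : Pt N (Plain.El a)} {x : Plain.El a} :
    chi D fb z x = e0 N ↔ ¬ lep D fb z x := by
  rcases chi_apply h z x with h1 | h1
  · exact iff_of_false (fun h2 => e01 (h2.symm.trans h1.2)) (not_not.2 h1.1)
  · exact iff_of_true h1.2 h1.1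

theorem chi_eq {z w : Pt N (Plain.El a)} {x : Plain.El a} :
    chi D fb z x = chi D fb w x ↔ (lep D fb z x ↔ lep D fb w x) := by
  rcases chi_apply h z x with h1 | h1 <;> rcases chi_apply h w x with h2 | h2
  · exact iff_of_true (h1.2.trans h2.2.symm) (iff_of_true h1.1 h2.1)
  · refine iff_of_false (fun h3 => ?_) (fun h3 => h2.1 (h3.1 h1.1))
    rw [h1.2, h2.2] at h3
    exact e01 h3.symm
  · refine iff_of_false (fun h3 => ?_) (fun h3 => h1.1 (h3.2 h2.1))
    rw [h1.2, h2.2] at h3
    exact e01 h3
  · exact iff_of_true (h1.2.trans h2.2.symm) (iff_of_false h1.1 h2.1)

theorem chi_inj {z w : Pt N (Plain.El a)} (h1 : chi D fb z = chi D fb w) : z = w :=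
  h.sepp fun x => (chi_eq h).1 (by rw [h1])

include hP

/-- Closed subspaces of the large space are N-compact. -/
theorem nco_of (hPC : ∀ z, (∀ x, ∃ w, P w ∧ (lep D fb z x ↔ lep D fb w x)) → P z) :
    IsNCompact (ts (OP D fb P)) (xs (N := N) P) := by
  have hS := spO h hP
  have hchi := int_chi h
  have hgt := h.int_gt
  have hleo := h.int_leo
  have hR : Int N (fun q : Pt N (Plain.El a) ×
      IFun N (Plain.El a) (Plain.El (dom N (INat N))) => P q.1 ∧ chi D fb q.1 = q.2) := by
    have h1 : Int N (fun q : Pt N (Plain.El a) ×
      IFun N (Plain.El a) (Plain.El (dom N (INat N))) => P q.1) := Int.comp (p := P)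
        (f := fun q : Pt N (Plain.El a) ×
          IFun N (Plain.El a) (Plain.El (dom N (INat N))) => q.1) hP (by (repeat' (first | with_reducible exact IntF.id | with_reducible exact IntF.fst' | with_reducible exact IntF.snd' | with_reducible exact IntF.const _ | with_reducible exact Int.const _ | assumption | with_reducible apply Int.and | with_reducible apply Int.or | with_reducible apply Int.not | with_reducible apply Int.imp | with_reducible apply Int.iff | with_reducible apply Int.ne | with_reducible apply Int.eq | with_reducible apply Int.mem | with_reducible apply Int.subset | with_reducible apply Int.ltN | with_reducible apply Int.leN | with_reducible_and_instances apply Int.le | with_reducible_and_instances apply Int.lt | with_reducible apply Int.all | with_reducible apply Int.ex | with_reducible apply IntF.fst | with_reducible apply IntF.snd | with_reducible apply IntF.app | with_reducible apply IntF.inl | with_reducible apply IntF.inr | with_reducible_and_instances apply IntF.mul | with_reducible_and_instances apply IntF.inv | with_reducible_and_instances apply IntF.add | with_reducible_and_instances apply IntF.sub | with_reducible_and_instances apply IntF.neg | with_reducible_and_instances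 apply IntF.smul | with_reducible apply Int.fin | with_reducible apply IntF.sep | with_reducible apply IntF.lam | with_reducible apply IntF.insert | with_reducible apply IntF.singleton | with_reducible apply IntF.union | with_reducible apply IntF.iimage | with_reducible apply IntF.ite | with_reducible apply IntF.the | with_reducible apply IntF.irec | with_reducible apply IntF.succ | with_reducible apply IntF.val | with_reducible apply IntF.mk | (with_reducible refine Int.comp ?_ ?_; assumption) | (with_reducible refine Int.comp₂ ?_ ?_ ?_; assumption) | (with_reducible refine Int.comp₃ ?_ ?_ ?_ ?_; assumption) | (with_reducible refine Int.comp₄ ?_ ?_ ?_ ?_ ?_; assumption) | (with_reducible refine IntF.comp ?_ ?_; assumption) | (with_reducible refine IntF.comp₂ ?_ ?_ ?_; assumption) | (with_reducible refine IntF.comp₃ ?_ ?_ ?_ ?_; assumption) | with_reducible apply IntF.pair)))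
    have h2 : Int N (fun q : Pt N (Plain.El a) ×
      IFun N (Plain.El a) (Plain.El (dom N (INat N))) => chi D fb q.1 = q.2) := by (repeat' (first | with_reducible exact IntF.id | with_reducible exact IntF.fst' | with_reducible exact IntF.snd' | with_reducible exact IntF.const _ | with_reducible exact Int.const _ | assumption | with_reducible apply Int.and | with_reducible apply Int.or | with_reducible apply Int.not | with_reducible apply Int.imp | with_reducible apply Int.iff | with_reducible apply Int.ne | with_reducible apply Int.eq | with_reducible apply Int.mem | with_reducible apply Int.subset | with_reducible apply Int.ltN | with_reducible apply Int.leN | with_reducible_and_instances apply Int.le | with_reducible_and_instances apply Int.lt | with_reducible apply Int.all | with_reducible apply Int.ex | with_reducible apply IntF.fst | with_reducible apply IntF.snd | with_reducible apply IntF.app | with_reducible apply IntF.inl | with_reducible apply IntF.inr | with_reducible_and_instances apply IntF.mul | with_reducible_and_instances apply IntF.inv | with_reducible_and_instances apply IntF.add | with_reducible_and_instances apply IntF.sub | with_reducible_and_instances apply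 IntF.neg | with_reducible_and_instances apply IntF.smul | with_reducible apply Int.fin | with_reducible apply IntF.sep | with_reducible apply IntF.lam | with_reducible apply IntF.insert | with_reducible apply IntF.singleton | with_reducible apply IntF.union | with_reducible apply IntF.iimage | with_reducible apply IntF.ite | with_reducible apply IntF.the | with_reducible apply IntF.irec | with_reducible apply IntF.succ | with_reducible apply IntF.val | with_reducible apply IntF.mk | (with_reducible refine Int.comp ?_ ?_; assumption) | (with_reducible refine Int.comp₂ ?_ ?_ ?_; assumption) | (with_reducible refine Int.comp₃ ?_ ?_ ?_ ?_; assumption) | (with_reducible refine Int.comp₄ ?_ ?_ ?_ ?_ ?_; assumption) | (with_reducible refine IntF.comp ?_ ?_; assumption) | (with_reducible refine IntF.comp₂ ?_ ?_ ?_; assumption) | (with_reducible refine IntF.comp₃ ?_ ?_ ?_ ?_; assumption) | with_reducible apply IntF.pair))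
    exact h1.and h2
  have happ : ∀ z f, App (relc N fun (z : Pt N (Plain.El a))
      (f : IFun N (Plain.El a) (Plain.El (dom N (INat N)))) => P z ∧ chi D fb z = f) z f ↔
      ∃ s, P s ∧ z = code s ∧ f = code (chi D fb s) := by
    intro z f
    rw [app_relc hR]
    constructor
    · rintro ⟨s, g, ⟨h1, rfl⟩, h2, h3⟩
      exact ⟨s, h1, h2, h3⟩
    · rintro ⟨s, h1, h2, h3⟩
      exact ⟨s, _, ⟨h1, rfl⟩, h2, h3⟩
  obtain ⟨x₀, -⟩ := h.ne 0
  refine ⟨a, dom N (INat N), dom N (IFun N (Plain.El a) (Plain.El (dom N (INat N)))),
    code (M := N) (sep N (OpF (N := N) (j := a) (d := dom N (INat N)))),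
    relc N fun (z : Pt N (Plain.El a))
      (f : IFun N (Plain.El a) (Plain.El (dom N (INat N)))) => P z ∧ chi D fb z = f,
    ⟨x₀.1, x₀.2⟩, isOmega_dom, isFunSet_dom, isCubeTop_dom, ⟨⟨fun q hq => ?_, fun x hx => ?_⟩,
      fun x x' y h5 h6 => ?_⟩, fun u => ⟨fun hu => ?_, ?_⟩, ?_⟩
  · obtain ⟨s, f, ⟨h1, rfl⟩, rfl⟩ := (mem_relc hR).1 hq
    exact ⟨code s, code (chi D fb s), (mem_xs' hS).2 h1, code_mem_domP _, ordPair_iff.2 rfl⟩
  · obtain ⟨s, h1, rfl⟩ := (mem_xs hS).1 hx
    refine ⟨code (chi D fb s), (happ _ _).2 ⟨s, h1, rfl, rfl⟩, fun y hy => ?_⟩
    obtain ⟨t, h2, h3, rfl⟩ := (happ _ _).1 hy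
    rw [ITy.inj h3]
  · obtain ⟨s, h1, rfl, rfl⟩ := (happ _ _).1 h5
    obtain ⟨t, h2, rfl, h3⟩ := (happ _ _).1 h6
    rw [chi_inj h (ITy.inj h3)]
  · -- open sets are preimages
    obtain ⟨U, h1, rfl⟩ := (mem_ts hS).1 hu
    refine ⟨fun z hz => ?_, ?_⟩
    · obtain ⟨s, hs, rfl⟩ := mem_codeB.1 hz
      exact (mem_xs' hS).2 (h1.1 s hs)
    · have hI : Int N (fun f : IFun N (Plain.El a) (Plain.El (dom N (INat N))) =>
          ∃ l u : Bd N (Plain.El a), (∀ x, l = Sum.inl x → f x = e0 N) ∧
            (∀ x, u = Sum.inl x → f x = e1 N) ∧
            ∀ w : Pt N (Plain.El a), P w → gt D fb w l → leo D fb w u → w ∈ U) := by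
        have g1 : Int N (fun q : ((IFun N (Plain.El a) (Plain.El (dom N (INat N))) ×
            Bd N (Plain.El a)) × Bd N (Plain.El a)) × Pt N (Plain.El a) => gt D fb q.2 q.1.1.2) :=
          Int.comp (p := fun q : Pt N (Plain.El a) × Bd N (Plain.El a) => gt D fb q.1 q.2)
          (f := fun q : ((IFun N (Plain.El a) (Plain.El (dom N (INat N))) ×
            Bd N (Plain.El a)) × Bd N (Plain.El a)) × Pt N (Plain.El a) => (q.2, q.1.1.2)) hgt
            (by (repeat' (first | with_reducible exact IntF.id | with_reducible exact IntF.fst' | with_reducible exact IntF.snd' | with_reducible exact IntF.const _ | with_reducible exact Int.const _ | assumption | with_reducible apply Int.and | with_reducible apply Int.or | with_reducible apply Int.not | with_reducible apply Int.imp | with_reducible apply Int.iff | with_reducible apply Int.ne | with_reducible apply Int.eq | with_reducible apply Int.mem | with_reducible apply Int.subset | with_reducible apply Int.ltN | with_reducible apply Int.leN | with_reducible_and_instances apply Int.le | with_reducible_and_instances apply Int.lt | with_reducible apply Int.all | with_reducible apply Int.ex | with_reducible apply IntF.fst | with_reducible apply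 IntF.snd | with_reducible apply IntF.app | with_reducible apply IntF.inl | with_reducible apply IntF.inr | with_reducible_and_instances apply IntF.mul | with_reducible_and_instances apply IntF.inv | with_reducible_and_instances apply IntF.add | with_reducible_and_instances apply IntF.sub | with_reducible_and_instances apply IntF.neg | with_reducible_and_instances apply IntF.smul | with_reducible apply Int.fin | with_reducible apply IntF.sep | with_reducible apply IntF.lam | with_reducible apply IntF.insert | with_reducible apply IntF.singleton | with_reducible apply IntF.union | with_reducible apply IntF.iimage | with_reducible apply IntF.ite | with_reducible apply IntF.the | with_reducible apply IntF.irec | with_reducible apply IntF.succ | with_reducible apply IntF.val | with_reducible apply IntF.mk | (with_reducible refine Int.comp ?_ ?_; assumption) | (with_reducible refine Int.comp₂ ?_ ?_ ?_; assumption) | (with_reducible refine Int.comp₃ ?_ ?_ ?_ ?_; assumption) | (with_reducible refine Int.comp₄ ?_ ?_ ?_ ?_ ?_; assumption) | (with_reducible refine IntF.comp ?_ ?_; assumption) | (with_reducible refine IntF.comp₂ ?_ ?_ ?_; assumption) | (with_reducible refine IntF.comp₃ ?_ ?_ ?_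 ?_; assumption) | with_reducible apply IntF.pair)))
        have g2 : Int N (fun q : ((IFun N (Plain.El a) (Plain.El (dom N (INat N))) ×
            Bd N (Plain.El a)) × Bd N (Plain.El a)) × Pt N (Plain.El a) => leo D fb q.2 q.1.2) :=
          Int.comp (p := fun q : Pt N (Plain.El a) × Bd N (Plain.El a) => leo D fb q.1 q.2)
          (f := fun q : ((IFun N (Plain.El a) (Plain.El (dom N (INat N))) ×
            Bd N (Plain.El a)) × Bd N (Plain.El a)) × Pt N (Plain.El a) => (q.2, q.1.2)) hleo
            (by (repeat' (first | with_reducible exact IntF.id | with_reducible exact IntF.fst' | with_reducible exact IntF.snd' | with_reducible exact IntF.const _ | with_reducible exact Int.const _ | assumption | with_reducible apply Int.and | with_reducible apply Int.or | with_reducible apply Int.not | with_reducible apply Int.imp | with_reducible apply Int.iff | with_reducible apply Int.ne | with_reducible apply Int.eq | with_reducible apply Int.mem | with_reducible apply Int.subset | with_reducible apply Int.ltN | with_reducible apply Int.leN | with_reducible_and_instances apply Int.le | with_reducible_and_instances apply Int.lt | with_reducible apply Int.all | with_reducible apply Int.ex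 | with_reducible apply IntF.fst | with_reducible apply IntF.snd | with_reducible apply IntF.app | with_reducible apply IntF.inl | with_reducible apply IntF.inr | with_reducible_and_instances apply IntF.mul | with_reducible_and_instances apply IntF.inv | with_reducible_and_instances apply IntF.add | with_reducible_and_instances apply IntF.sub | with_reducible_and_instances apply IntF.neg | with_reducible_and_instances apply IntF.smul | with_reducible apply Int.fin | with_reducible apply IntF.sep | with_reducible apply IntF.lam | with_reducible apply IntF.insert | with_reducible apply IntF.singleton | with_reducible apply IntF.union | with_reducible apply IntF.iimage | with_reducible apply IntF.ite | with_reducible apply IntF.the | with_reducible apply IntF.irec | with_reducible apply IntF.succ | with_reducible apply IntF.val | with_reducible apply IntF.mk | (with_reducible refine Int.comp ?_ ?_; assumption) | (with_reducible refine Int.comp₂ ?_ ?_ ?_; assumption) | (with_reducible refine Int.comp₃ ?_ ?_ ?_ ?_; assumption) | (with_reducible refine Int.comp₄ ?_ ?_ ?_ ?_ ?_; assumption) | (with_reducible refine IntF.comp ?_ ?_; assumption) | (with_reducible refine IntF.comp₂ ?_ ?_ ?_;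 assumption) | (with_reducible refine IntF.comp₃ ?_ ?_ ?_ ?_; assumption) | with_reducible apply IntF.pair)))
        have g3 : Int N (fun q : ((IFun N (Plain.El a) (Plain.El (dom N (INat N))) ×
            Bd N (Plain.El a)) × Bd N (Plain.El a)) × Pt N (Plain.El a) => P q.2) :=
          Int.comp (p := P)
          (f := fun q : ((IFun N (Plain.El a) (Plain.El (dom N (INat N))) ×
            Bd N (Plain.El a)) × Bd N (Plain.El a)) × Pt N (Plain.El a) => q.2) hP
            (by (repeat' (first | with_reducible exact IntF.id | with_reducible exact IntF.fst' | with_reducible exact IntF.snd' | with_reducible exact IntF.const _ | with_reducible exact Int.const _ | assumption | with_reducible apply Int.and | with_reducible apply Int.or | with_reducible apply Int.not | with_reducible apply Int.imp | with_reducible apply Int.iff | with_reducible apply Int.ne | with_reducible apply Int.eq | with_reducible apply Int.mem | with_reducible apply Int.subset | with_reducible apply Int.ltN | with_reducible apply Int.leN | with_reducible_and_instances apply Int.le | with_reducible_and_instances apply Int.lt | with_reducible apply Int.all | with_reducible apply Int.ex | with_reducible apply IntF.fst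 | with_reducible apply IntF.snd | with_reducible apply IntF.app | with_reducible apply IntF.inl | with_reducible apply IntF.inr | with_reducible_and_instances apply IntF.mul | with_reducible_and_instances apply IntF.inv | with_reducible_and_instances apply IntF.add | with_reducible_and_instances apply IntF.sub | with_reducible_and_instances apply IntF.neg | with_reducible_and_instances apply IntF.smul | with_reducible apply Int.fin | with_reducible apply IntF.sep | with_reducible apply IntF.lam | with_reducible apply IntF.insert | with_reducible apply IntF.singleton | with_reducible apply IntF.union | with_reducible apply IntF.iimage | with_reducible apply IntF.ite | with_reducible apply IntF.the | with_reducible apply IntF.irec | with_reducible apply IntF.succ | with_reducible apply IntF.val | with_reducible apply IntF.mk | (with_reducible refine Int.comp ?_ ?_; assumption) | (with_reducible refine Int.comp₂ ?_ ?_ ?_; assumption) | (with_reducible refine Int.comp₃ ?_ ?_ ?_ ?_; assumption) | (with_reducible refine Int.comp₄ ?_ ?_ ?_ ?_ ?_; assumption) | (with_reducible refine IntF.comp ?_ ?_; assumption) | (with_reducible refine IntF.comp₂ ?_ ?_ ?_; assumption) | (with_reducible refine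 IntF.comp₃ ?_ ?_ ?_ ?_; assumption) | with_reducible apply IntF.pair)))
        (repeat' (first | with_reducible exact IntF.id | with_reducible exact IntF.fst' | with_reducible exact IntF.snd' | with_reducible exact IntF.const _ | with_reducible exact Int.const _ | assumption | with_reducible apply Int.and | with_reducible apply Int.or | with_reducible apply Int.not | with_reducible apply Int.imp | with_reducible apply Int.iff | with_reducible apply Int.ne | with_reducible apply Int.eq | with_reducible apply Int.mem | with_reducible apply Int.subset | with_reducible apply Int.ltN | with_reducible apply Int.leN | with_reducible_and_instances apply Int.le | with_reducible_and_instances apply Int.lt | with_reducible apply Int.all | with_reducible apply Int.ex | with_reducible apply IntF.fst | with_reducible apply IntF.snd | with_reducible apply IntF.app | with_reducible apply IntF.inl | with_reducible apply IntF.inr | with_reducible_and_instances apply IntF.mul | with_reducible_and_instances apply IntF.inv | with_reducible_and_instances apply IntF.add | with_reducible_and_instances apply IntF.sub | with_reducible_and_instances apply IntF.neg | with_reducible_and_instances apply IntF.smul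 | with_reducible apply Int.fin | with_reducible apply IntF.sep | with_reducible apply IntF.lam | with_reducible apply IntF.insert | with_reducible apply IntF.singleton | with_reducible apply IntF.union | with_reducible apply IntF.iimage | with_reducible apply IntF.ite | with_reducible apply IntF.the | with_reducible apply IntF.irec | with_reducible apply IntF.succ | with_reducible apply IntF.val | with_reducible apply IntF.mk | (with_reducible refine Int.comp ?_ ?_; assumption) | (with_reducible refine Int.comp₂ ?_ ?_ ?_; assumption) | (with_reducible refine Int.comp₃ ?_ ?_ ?_ ?_; assumption) | (with_reducible refine Int.comp₄ ?_ ?_ ?_ ?_ ?_; assumption) | (with_reducible refine IntF.comp ?_ ?_; assumption) | (with_reducible refine IntF.comp₂ ?_ ?_ ?_; assumption) | (with_reducible refine IntF.comp₃ ?_ ?_ ?_ ?_; assumption) | with_reducible apply IntF.pair))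
      refine ⟨code (sep N fun f : IFun N (Plain.El a) (Plain.El (dom N (INat N))) =>
          ∃ l u : Bd N (Plain.El a), (∀ x, l = Sum.inl x → f x = e0 N) ∧
            (∀ x, u = Sum.inl x → f x = e1 N) ∧
            ∀ w : Pt N (Plain.El a), P w → gt D fb w l → leo D fb w u → w ∈ U),
        mem_codeB'.2 ((mem_sep int_OpF).2 fun f hf => ?_), fun z f hzf => ?_⟩
      · obtain ⟨l, u, h2, h3, h4⟩ := (mem_sep hI).1 hf
        have h5 : ∃ S : IPow N (Plain.El a), IFin S ∧ (∀ x, l = Sum.inl x → x ∈ S) ∧
            ∀ x, u = Sum.inl x → x ∈ S := by
          have key : ∀ l : Bd N (Plain.El a), ∃ S : IPow N (Plain.El a), IFin S ∧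
              ∀ x, l = Sum.inl x → x ∈ S := by
            rintro (x | n)
            · exact ⟨{x}, IFin.singleton x, fun y hy => mem_singleton.2 (Sum.inl.inj hy).symm⟩
            · exact ⟨∅, IFin.empty, fun y hy => by simp at hy⟩
          obtain ⟨S, k1, k2⟩ := key l
          obtain ⟨S', k3, k4⟩ := key u
          exact ⟨S ∪ S', k1.union k3, fun x hx => mem_union.2 (Or.inl (k2 x hx)),
            fun x hx => mem_union.2 (Or.inr (k4 x hx))⟩
        obtain ⟨S, h6, h7, h8⟩ := h5
        exact ⟨S, h6, fun g hg => (mem_sep hI).2 ⟨l, u, fun x hx => (hg x (h7 x hx)).symm.trans
          (h2 x hx), fun x hx => (hg x (h8 x hx)).symm.trans (h3 x hx), h4⟩⟩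
      · obtain ⟨s, h2, rfl, rfl⟩ := (happ _ _).1 hzf
        rw [mem_codeP, mem_codeP, mem_sep hI]
        constructor
        · intro h3
          obtain ⟨l, u, h4, h5, h6⟩ := h1.2 s h3
          exact ⟨l, u, fun x hx => (chi_zero h).2 (h4 x hx), fun x hx => (chi_one h).2 (h5 x hx),
            h6⟩
        · rintro ⟨l, u, h4, h5, h6⟩
          exact h6 s h2 (fun x hx => (chi_zero h).1 (h4 x hx)) fun x hx =>
            (chi_one h).1 (h5 x hx)
  · -- preimages are open
    rintro ⟨h1, v, h2, h3⟩
    obtain ⟨V, h4, rfl⟩ := mem_codeB.1 h2
    rw [mem_sep int_OpF] at h4
    obtain ⟨U, rfl, h5⟩ := exists_sub hS h1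
    have h6 : ∀ s, P s → (s ∈ U ↔ chi D fb s ∈ V) := fun s hs => by
      have h7 := h3 (code s) (code (chi D fb s)) ((happ _ _).2 ⟨s, hs, rfl, rfl⟩)
      rwa [mem_codeP, mem_codeP] at h7
    refine (mem_ts' hS).2 ⟨h5, fun z hz => ?_⟩
    obtain ⟨S, h7, h8⟩ := h4 _ ((h6 z (h5 z hz)).1 hz)
    obtain ⟨l, u, h9, h10, h11⟩ := h.exists_itv z h7
    refine ⟨l, u, h9, h10, fun w h12 h13 h14 => (h6 w h12).2 (h8 _ fun x hx => ?_)⟩
    exact (chi_eq h).2 (h11 w h13 h14 x hx).symm
  · -- the image is closed
    have hI : Int N (fun f : IFun N (Plain.El a) (Plain.El (dom N (INat N))) =>
        ¬ ∃ s, P s ∧ chi D fb s = f) := by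
      have g1 : Int N (fun q : IFun N (Plain.El a) (Plain.El (dom N (INat N))) ×
          Pt N (Plain.El a) => P q.2) := Int.comp (p := P)
          (f := fun q : IFun N (Plain.El a) (Plain.El (dom N (INat N))) ×
          Pt N (Plain.El a) => q.2) hP (by (repeat' (first | with_reducible exact IntF.id | with_reducible exact IntF.fst' | with_reducible exact IntF.snd' | with_reducible exact IntF.const _ | with_reducible exact Int.const _ | assumption | with_reducible apply Int.and | with_reducible apply Int.or | with_reducible apply Int.not | with_reducible apply Int.imp | with_reducible apply Int.iff | with_reducible apply Int.ne | with_reducible apply Int.eq | with_reducible apply Int.mem | with_reducible apply Int.subset | with_reducible apply Int.ltN | with_reducible apply Int.leN | with_reducible_and_instances apply Int.le | with_reducible_and_instances apply Int.lt | with_reducible apply Int.all | with_reducible apply Int.ex | with_reducible apply IntF.fst | with_reducible apply IntF.snd | with_reducible apply IntF.app | with_reducible apply IntF.inl | with_reducible apply IntF.inr | with_reducible_and_instances apply IntF.mul | with_reducible_and_instances apply IntF.inv | with_reducible_and_instances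 apply IntF.add | with_reducible_and_instances apply IntF.sub | with_reducible_and_instances apply IntF.neg | with_reducible_and_instances apply IntF.smul | with_reducible apply Int.fin | with_reducible apply IntF.sep | with_reducible apply IntF.lam | with_reducible apply IntF.insert | with_reducible apply IntF.singleton | with_reducible apply IntF.union | with_reducible apply IntF.iimage | with_reducible apply IntF.ite | with_reducible apply IntF.the | with_reducible apply IntF.irec | with_reducible apply IntF.succ | with_reducible apply IntF.val | with_reducible apply IntF.mk | (with_reducible refine Int.comp ?_ ?_; assumption) | (with_reducible refine Int.comp₂ ?_ ?_ ?_; assumption) | (with_reducible refine Int.comp₃ ?_ ?_ ?_ ?_; assumption) | (with_reducible refine Int.comp₄ ?_ ?_ ?_ ?_ ?_; assumption) | (with_reducible refine IntF.comp ?_ ?_; assumption) | (with_reducible refine IntF.comp₂ ?_ ?_ ?_; assumption) | (with_reducible refine IntF.comp₃ ?_ ?_ ?_ ?_; assumption) | with_reducible apply IntF.pair)))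
      (repeat' (first | with_reducible exact IntF.id | with_reducible exact IntF.fst' | with_reducible exact IntF.snd' | with_reducible exact IntF.const _ | with_reducible exact Int.const _ | assumption | with_reducible apply Int.and | with_reducible apply Int.or | with_reducible apply Int.not | with_reducible apply Int.imp | with_reducible apply Int.iff | with_reducible apply Int.ne | with_reducible apply Int.eq | with_reducible apply Int.mem | with_reducible apply Int.subset | with_reducible apply Int.ltN | with_reducible apply Int.leN | with_reducible_and_instances apply Int.le | with_reducible_and_instances apply Int.lt | with_reducible apply Int.all | with_reducible apply Int.ex | with_reducible apply IntF.fst | with_reducible apply IntF.snd | with_reducible apply IntF.app | with_reducible apply IntF.inl | with_reducible apply IntF.inr | with_reducible_and_instances apply IntF.mul | with_reducible_and_instances apply IntF.inv | with_reducible_and_instances apply IntF.add | with_reducible_and_instances apply IntF.sub | with_reducible_and_instances apply IntF.neg | with_reducible_and_instances apply IntF.smul | with_reducible apply Int.fin | with_reducible apply IntF.sep | with_reducible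 apply IntF.lam | with_reducible apply IntF.insert | with_reducible apply IntF.singleton | with_reducible apply IntF.union | with_reducible apply IntF.iimage | with_reducible apply IntF.ite | with_reducible apply IntF.the | with_reducible apply IntF.irec | with_reducible apply IntF.succ | with_reducible apply IntF.val | with_reducible apply IntF.mk | (with_reducible refine Int.comp ?_ ?_; assumption) | (with_reducible refine Int.comp₂ ?_ ?_ ?_; assumption) | (with_reducible refine Int.comp₃ ?_ ?_ ?_ ?_; assumption) | (with_reducible refine Int.comp₄ ?_ ?_ ?_ ?_ ?_; assumption) | (with_reducible refine IntF.comp ?_ ?_; assumption) | (with_reducible refine IntF.comp₂ ?_ ?_ ?_; assumption) | (with_reducible refine IntF.comp₃ ?_ ?_ ?_ ?_; assumption) | with_reducible apply IntF.pair))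
    refine ⟨code (sep N fun f : IFun N (Plain.El a) (Plain.El (dom N (INat N))) =>
        ¬ ∃ s, P s ∧ chi D fb s = f), mem_codeB'.2 ((mem_sep int_OpF).2 fun f hf => ?_),
        fun f hf => ?_⟩
    · by_contra hc
      have h1 : ∀ S : IPow N (Plain.El a), IFin S → ∃ s, P s ∧ ∀ x, x ∈ S →
          f x = chi D fb s x := by
        intro S hS
        by_contra h2
        refine hc ⟨S, hS, fun g hg => (mem_sep hI).2 ?_⟩
        rintro ⟨s, h4, rfl⟩
        exact h2 ⟨s, h4, hg⟩
      refine (mem_sep hI).1 hf ?_
      have hφ : Int N (fun x : Plain.El a => f x = e1 N) := Int.eq f.int_app (IntF.const _)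
      obtain ⟨z, hz⟩ := h.cut hφ fun x y hx hxy => by
        obtain ⟨s, h2, h3⟩ := h1 (Insert.insert x {y}) ((IFin.singleton y).insert x)
        have h4 := h3 x (by simp)
        have h5 := h3 y (by simp)
        rw [hx] at h4
        rw [h5]
        exact (chi_one h).2 (h.lep_mono ((chi_one h).1 h4.symm) hxy)
      have hz' : ∀ x, ∃ w, P w ∧ (lep D fb z x ↔ lep D fb w x) ∧ f x = chi D fb w x := fun x => by
        obtain ⟨s, h2, h3⟩ := h1 {x} (IFin.singleton x)
        have h4 := h3 x (by simp)
        exact ⟨s, h2, by rw [← hz x, h4, chi_one h], h4⟩
      refine ⟨z, hPC z fun x => ?_, IFun.ext' fun x => ?_⟩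
      · obtain ⟨w, h2, h3, -⟩ := hz' x
        exact ⟨w, h2, h3⟩
      · obtain ⟨w, h2, h3, h4⟩ := hz' x
        rw [h4, chi_eq h]
        exact h3
    · obtain ⟨g, rfl⟩ := mem_domP.1 hf
      rw [mem_codeP, mem_sep hI]
      refine not_congr ⟨?_, ?_⟩
      · rintro ⟨s, h1, rfl⟩
        exact ⟨code s, (happ _ _).2 ⟨s, h1, rfl, rfl⟩⟩
      · rintro ⟨z, h1⟩
        obtain ⟨s, h2, -, h3⟩ := (happ _ _).1 h1
        exact ⟨s, h2, (ITy.inj h3).symm⟩

omit hP in
theorem nco_PK (n : INat N) : IsNCompact (ts (OP D fb (PK D fb n))) (xs (N := N) (PK D fb n)) :=
  nco_of h (int_PK' h n) fun z hz x hx => by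
    obtain ⟨w, h1, h2⟩ := hz x
    exact h2.2 (h1 x hx)

omit hP in
/-- Continuous functions to the natural numbers are eventually constant. -/
theorem ev_of_cont {F : Pt N (Plain.El a) → INat N} (hF : IntF N F)
    (hc : ∀ z, PB z → ∃ U, OP D fb PB U ∧ z ∈ U ∧ ∀ w, w ∈ U → F w = F z) :
    ∃ n₀ : INat N, ∀ n, n₀ ≤ n → F (Sum.inl n.succ) = F (Sum.inl n₀.succ) := by
  have hf := h.intF
  have hI : Int N (fun x : Plain.El a => F (Sum.inr x) = F (Sum.inl (fb x).succ)) := by
    have k1 : IntF N (fun x : Plain.El a => F (Sum.inr x)) := IntF.comp (f := fun x => Sum.inr x)
      hF (by (repeat' (first | with_reducible exact IntF.id | with_reducible exact IntF.fst' | with_reducible exact IntF.snd' | with_reducible exact IntF.const _ | with_reducible exact Int.const _ | assumption | with_reducible apply Int.and | with_reducible apply Int.or | with_reducible apply Int.not | with_reducible apply Int.imp | with_reducible apply Int.iff | with_reducible apply Int.ne | with_reducible apply Int.eq | with_reducible apply Int.mem | with_reducible apply Int.subset | with_reducible apply Int.ltN | with_reducible apply Int.leN | with_reducible_and_instances apply Int.le | with_reducible_and_instances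 apply Int.lt | with_reducible apply Int.all | with_reducible apply Int.ex | with_reducible apply IntF.fst | with_reducible apply IntF.snd | with_reducible apply IntF.app | with_reducible apply IntF.inl | with_reducible apply IntF.inr | with_reducible_and_instances apply IntF.mul | with_reducible_and_instances apply IntF.inv | with_reducible_and_instances apply IntF.add | with_reducible_and_instances apply IntF.sub | with_reducible_and_instances apply IntF.neg | with_reducible_and_instances apply IntF.smul | with_reducible apply Int.fin | with_reducible apply IntF.sep | with_reducible apply IntF.lam | with_reducible apply IntF.insert | with_reducible apply IntF.singleton | with_reducible apply IntF.union | with_reducible apply IntF.iimage | with_reducible apply IntF.ite | with_reducible apply IntF.the | with_reducible apply IntF.irec | with_reducible apply IntF.succ | with_reducible apply IntF.val | with_reducible apply IntF.mk | (with_reducible refine Int.comp ?_ ?_; assumption) | (with_reducible refine Int.comp₂ ?_ ?_ ?_; assumption) | (with_reducible refine Int.comp₃ ?_ ?_ ?_ ?_; assumption) | (with_reducible refine Int.comp₄ ?_ ?_ ?_ ?_ ?_; assumption) | (with_reducible refine IntF.comp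 ?_ ?_; assumption) | (with_reducible refine IntF.comp₂ ?_ ?_ ?_; assumption) | (with_reducible refine IntF.comp₃ ?_ ?_ ?_ ?_; assumption) | with_reducible apply IntF.pair)))
    have k2 : IntF N (fun x : Plain.El a => F (Sum.inl (fb x).succ)) := IntF.comp
      (f := fun x => Sum.inl (fb x).succ) hF (by (repeat' (first | with_reducible exact IntF.id | with_reducible exact IntF.fst' | with_reducible exact IntF.snd' | with_reducible exact IntF.const _ | with_reducible exact Int.const _ | assumption | with_reducible apply Int.and | with_reducible apply Int.or | with_reducible apply Int.not | with_reducible apply Int.imp | with_reducible apply Int.iff | with_reducible apply Int.ne | with_reducible apply Int.eq | with_reducible apply Int.mem | with_reducible apply Int.subset | with_reducible apply Int.ltN | with_reducible apply Int.leN | with_reducible_and_instances apply Int.le | with_reducible_and_instances apply Int.lt | with_reducible apply Int.all | with_reducible apply Int.ex | with_reducible apply IntF.fst | with_reducible apply IntF.snd | with_reducible apply IntF.app | with_reducible apply IntF.inl | with_reducible apply IntF.inr | with_reducible_and_instances apply IntF.mul |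 with_reducible_and_instances apply IntF.inv | with_reducible_and_instances apply IntF.add | with_reducible_and_instances apply IntF.sub | with_reducible_and_instances apply IntF.neg | with_reducible_and_instances apply IntF.smul | with_reducible apply Int.fin | with_reducible apply IntF.sep | with_reducible apply IntF.lam | with_reducible apply IntF.insert | with_reducible apply IntF.singleton | with_reducible apply IntF.union | with_reducible apply IntF.iimage | with_reducible apply IntF.ite | with_reducible apply IntF.the | with_reducible apply IntF.irec | with_reducible apply IntF.succ | with_reducible apply IntF.val | with_reducible apply IntF.mk | (with_reducible refine Int.comp ?_ ?_; assumption) | (with_reducible refine Int.comp₂ ?_ ?_ ?_; assumption) | (with_reducible refine Int.comp₃ ?_ ?_ ?_ ?_; assumption) | (with_reducible refine Int.comp₄ ?_ ?_ ?_ ?_ ?_; assumption) | (with_reducible refine IntF.comp ?_ ?_; assumption) | (with_reducible refine IntF.comp₂ ?_ ?_ ?_; assumption) | (with_reducible refine IntF.comp₃ ?_ ?_ ?_ ?_; assumption) | with_reducible apply IntF.pair)))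
    exact Int.eq k1 k2
  obtain ⟨n₀, h1⟩ := h.key hI
  have h2 : ∀ n, n₀ ≤ n → F (Sum.inl n.succ) = F (Sum.inl n.succ.succ) := by
    intro n hn
    by_contra hne
    obtain ⟨U, h3, h4, h5⟩ := hc (Sum.inl n.succ) fun e => INat.succ_ne_zero _ (Sum.inl.inj e)
    obtain ⟨V, h6, h7, h8⟩ := hc (Sum.inl n.succ.succ) fun e =>
      INat.succ_ne_zero _ (Sum.inl.inj e)
    obtain ⟨l, u, k1, k2, k3⟩ := h3.2 _ h4
    obtain ⟨l', u', k1', k2', k3'⟩ := h6.2 _ h7
    obtain ⟨y, m1, m2⟩ := h.nbR k1 k2
    obtain ⟨y', m1', m2'⟩ := h.nbL k1' k2'
    refine h1 n hn ⟨y, m1, fun w hw hwy => ?_⟩ ⟨y', m1', fun w hw hwy h9 => hne ?_⟩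
    · have m3 := m2 w hw hwy
      rw [hw]
      exact h5 _ (k3 _ (fun e => by simp at e) m3.1 m3.2)
    · have m3 := m2' w hw hwy
      rw [hw] at h9
      rw [← h9]
      exact h8 _ (k3' _ (fun e => by simp at e) m3.1 m3.2)
  have hg : IntF N (fun n : INat N => F (Sum.inl n.succ)) := IntF.comp
    (f := fun n : INat N => Sum.inl n.succ) hF (by (repeat' (first | with_reducible exact IntF.id | with_reducible exact IntF.fst' | with_reducible exact IntF.snd' | with_reducible exact IntF.const _ | with_reducible exact Int.const _ | assumption | with_reducible apply Int.and | with_reducible apply Int.or | with_reducible apply Int.not | with_reducible apply Int.imp | with_reducible apply Int.iff | with_reducible apply Int.ne | with_reducible apply Int.eq | with_reducible apply Int.mem | with_reducible apply Int.subset | with_reducible apply Int.ltN | with_reducible apply Int.leN | with_reducible_and_instances apply Int.le | with_reducible_and_instances apply Int.lt | with_reducible apply Int.all | with_reducible apply Int.ex | with_reducible apply IntF.fst | with_reducible apply IntF.snd | with_reducible apply IntF.app | with_reducible apply IntF.inl | with_reducible apply IntF.inr | with_reducible_and_instances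 apply IntF.mul | with_reducible_and_instances apply IntF.inv | with_reducible_and_instances apply IntF.add | with_reducible_and_instances apply IntF.sub | with_reducible_and_instances apply IntF.neg | with_reducible_and_instances apply IntF.smul | with_reducible apply Int.fin | with_reducible apply IntF.sep | with_reducible apply IntF.lam | with_reducible apply IntF.insert | with_reducible apply IntF.singleton | with_reducible apply IntF.union | with_reducible apply IntF.iimage | with_reducible apply IntF.ite | with_reducible apply IntF.the | with_reducible apply IntF.irec | with_reducible apply IntF.succ | with_reducible apply IntF.val | with_reducible apply IntF.mk | (with_reducible refine Int.comp ?_ ?_; assumption) | (with_reducible refine Int.comp₂ ?_ ?_ ?_; assumption) | (with_reducible refine Int.comp₃ ?_ ?_ ?_ ?_; assumption) | (with_reducible refine Int.comp₄ ?_ ?_ ?_ ?_ ?_; assumption) | (with_reducible refine IntF.comp ?_ ?_; assumption) | (with_reducible refine IntF.comp₂ ?_ ?_ ?_; assumption) | (with_reducible refine IntF.comp₃ ?_ ?_ ?_ ?_; assumption) | with_reducible apply IntF.pair)))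
  exact ⟨n₀, h.ev_const hg h2⟩

omit hP in
/-- The space without the last point is not N-compact. -/
theorem not_nco : ¬ IsNCompact (ts (OP D fb PB)) (xs (N := N) (PB (N := N) (α := Plain.El a))) := by
  intro hN
  have hSB := spO h (int_PB (N := N) (α := Plain.El a))
  obtain ⟨j, F, hF, hc, hcl, hemb⟩ := nco_unfold hSB hN
  obtain ⟨g, hg, h1⟩ := exists_lim hF fun i => ev_of_cont h (F := fun z => F (i, z))
    (IntF.comp (f := fun z => (i, z)) hF (IntF.pair (IntF.const _) IntF.id)) fun z hz => hc i z hz
  obtain ⟨z, hz, h2⟩ := hcl g hg fun S hS => by
    obtain ⟨n, -, h2⟩ := h1 S hS 0
    exact ⟨_, fun e => INat.succ_ne_zero _ (Sum.inl.inj e), h2⟩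
  obtain ⟨x, hx⟩ : ∃ x, lep D fb z x := by
    rcases z with n | y
    · rcases INat.eq_zero_or_succ n with rfl | ⟨k, rfl⟩
      · exact absurd rfl hz
      · obtain ⟨x, hx⟩ := h.ne k
        exact ⟨x, lep_inl.2 hx.symm.le⟩
    · exact ⟨y, lep_inr.2 (h.pre_refl y)⟩
  have hI := int_itv h (int_PB (N := N) (α := Plain.El a)) (Sum.inr 0) (Sum.inl x)
  obtain ⟨S, h3, h4⟩ := hemb (sep N fun s => PB s ∧ gt D fb s (Sum.inr 0) ∧ leo D fb s (Sum.inl x)) z
    (op_itv fun s => mem_sep hI) ((mem_sep hI).2 ⟨hz, gt_inr, leo_inl.2 hx⟩)
  obtain ⟨n, h5, h6⟩ := h1 S h3 (fb x).succ
  have h7 := (mem_sep hI).1 (h4 (Sum.inl n.succ) (fun e => INat.succ_ne_zero _ (Sum.inl.inj e))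
    fun i hi => (h6 i hi).trans (h2 i).symm)
  have h8 := lep_inl.1 (leo_inl.1 h7.2.2)
  exact absurd (lt_of_lt_of_le (INat.lt_succ_self (fb x)) (h5.trans h8)) (lt_irrefl _)

end

end Pool.Agent.V11257Z
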