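import Pool.Agent.V11257.Ck1
import Pool.Agent.V11257.Zt6

/-!
# N-compactness from internal data
-/

set_option maxHeartbeats 1000000
set_option linter.all false
set_option synthInstance.maxSize 2000

namespace Pool.Agent.Helper672.ZFA.V257

open FirstOrder FirstOrder.Language
open Pool.Agent.Helper672.Plain (LSet)
open Pool.Agent.H310
open Pool.Agent.H310Cards
open Pool.Agent.H310Top (IsTopology)
open Pool.Agent.V11246
open Pool.Agent.V11257Z (mem_codeP)
open Pool.Agent.Helper672.ZFA.V246

universe u

section

attribute [local instance] Helper672.Plain.toL

variable {N : Type u} [LSet.Structure N] [hZ : Helper672.Plain.Zermelo N]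

local instance instModelCk2 : IsModel N := Helper672.Plain.isModel_toL

noncomputable local instance instPElCk2 (x : N) : ITy N (Helper672.Plain.El x) :=
  (inferInstance : ITy N (El x))

variable {α : Type u} [ITy N α] {P : α → Prop} {O : IPow N α → Prop}

/-- The set of the natural numbers. -/
noncomputable abbrev om (N : Type u) [LSet.Structure N] [Helper672.Plain.Zermelo N] : N :=
  dom N (INat N)

/-- The natural number as an element. -/
noncomputable def cd (n : INat N) : Plain.El (om N) := ⟨code n, code_mem_domP _⟩

theorem cd_inj {m n : INat N} (h : cd m = cd n) : m = n :=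
  ITy.inj (congrArg Subtype.val h)

theorem cd_surj (y : Plain.El (om N)) : ∃ n, cd n = y := by
  obtain ⟨n, hn⟩ := mem_domP.1 y.2
  exact ⟨n, Subtype.ext hn⟩

theorem int_cd : IntF N (cd (N := N)) := by
  have h1 : Int N (fun q : INat N × Plain.El (om N) => code (M := N) q.1 = code (M := N) q.2) := by
    refine Int.of_D₂ (S := fun v => v 0 = v 1) ?_ fun p n => ?_
    · exact D.eqf (DF.var _) (DF.var _)
    · exact Iff.rfl
  refine IntF.of_rel (r := fun (n : INat N) (y : Plain.El (om N)) =>
    code (M := N) n = code (M := N) y) h1 fun n y => ?_
  exact ⟨fun h => Subtype.ext h, fun h => congrArg Subtype.val h⟩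

variable {j : N} (F : Plain.El j × α → INat N)

/-- The embedding. -/
noncomputable def em (z : α) : IFun N (Plain.El j) (Plain.El (om N)) :=
  lam N fun i => cd (F (i, z))

variable {F} (hF : IntF N F)

include hF

theorem int_em : IntF N (em F) := by
  have h1 := int_cd (N := N)
  unfold em
  (repeat' (first | with_reducible exact IntF.id | with_reducible exact IntF.fst' | with_reducible exact IntF.snd' | with_reducible exact IntF.const _ | with_reducible exact Int.const _ | assumption | with_reducible apply Int.and | with_reducible apply Int.or | with_reducible apply Int.not | with_reducible apply Int.imp | with_reducible apply Int.iff | with_reducible apply Int.ne | with_reducible apply Int.eq | with_reducible apply Int.mem | with_reducible apply Int.subset | with_reducible apply Int.ltN | with_reducible apply Int.leN | with_reducible_and_instances apply Int.le | with_reducible_and_instances apply Int.lt | with_reducible apply Int.all | with_reducible apply Int.ex | with_reducible apply IntF.fst | with_reducible apply IntF.snd | with_reducible apply IntF.app | with_reducible apply IntF.inl | with_reducible apply IntF.inr | with_reducible_and_instances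 apply IntF.mul | with_reducible_and_instances apply IntF.inv | with_reducible_and_instances apply IntF.add | with_reducible_and_instances apply IntF.sub | with_reducible_and_instances apply IntF.neg | with_reducible_and_instances apply IntF.smul | with_reducible apply Int.fin | with_reducible apply IntF.sep | with_reducible apply IntF.lam | with_reducible apply IntF.insert | with_reducible apply IntF.singleton | with_reducible apply IntF.union | with_reducible apply IntF.iimage | with_reducible apply IntF.ite | with_reducible apply IntF.the | with_reducible apply IntF.irec | with_reducible apply IntF.succ | with_reducible apply IntF.val | with_reducible apply IntF.mk | (with_reducible refine Int.comp ?_ ?_; assumption) | (with_reducible refine Int.comp₂ ?_ ?_ ?_; assumption) | (with_reducible refine Int.comp₃ ?_ ?_ ?_ ?_; assumption) | (with_reducible refine Int.comp₄ ?_ ?_ ?_ ?_ ?_; assumption) | (with_reducible refine IntF.comp ?_ ?_; assumption) | (with_reducible refine IntF.comp₂ ?_ ?_ ?_; assumption) | (with_reducible refine IntF.comp₃ ?_ ?_ ?_ ?_; assumption) | with_reducible apply IntF.pair))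

theorem em_apply (z : α) (i : Plain.El j) : em F z i = cd (F (i, z)) := by
  have h1 := int_cd (N := N)
  unfold em
  rw [lam_apply (by (repeat' (first | with_reducible exact IntF.id | with_reducible exact IntF.fst' | with_reducible exact IntF.snd' | with_reducible exact IntF.const _ | with_reducible exact Int.const _ | assumption | with_reducible apply Int.and | with_reducible apply Int.or | with_reducible apply Int.not | with_reducible apply Int.imp | with_reducible apply Int.iff | with_reducible apply Int.ne | with_reducible apply Int.eq | with_reducible apply Int.mem | with_reducible apply Int.subset | with_reducible apply Int.ltN | with_reducible apply Int.leN | with_reducible_and_instances apply Int.le | with_reducible_and_instances apply Int.lt | with_reducible apply Int.all | with_reducible apply Int.ex | with_reducible apply IntF.fst | with_reducible apply IntF.snd | with_reducible apply IntF.app | with_reducible apply IntF.inl | with_reducible apply IntF.inr | with_reducible_and_instances apply IntF.mul | with_reducible_and_instances apply IntF.inv | with_reducible_and_instances apply IntF.add | with_reducible_and_instances apply IntF.sub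 | with_reducible_and_instances apply IntF.neg | with_reducible_and_instances apply IntF.smul | with_reducible apply Int.fin | with_reducible apply IntF.sep | with_reducible apply IntF.lam | with_reducible apply IntF.insert | with_reducible apply IntF.singleton | with_reducible apply IntF.union | with_reducible apply IntF.iimage | with_reducible apply IntF.ite | with_reducible apply IntF.the | with_reducible apply IntF.irec | with_reducible apply IntF.succ | with_reducible apply IntF.val | with_reducible apply IntF.mk | (with_reducible refine Int.comp ?_ ?_; assumption) | (with_reducible refine Int.comp₂ ?_ ?_ ?_; assumption) | (with_reducible refine Int.comp₃ ?_ ?_ ?_ ?_; assumption) | (with_reducible refine Int.comp₄ ?_ ?_ ?_ ?_ ?_; assumption) | (with_reducible refine IntF.comp ?_ ?_; assumption) | (with_reducible refine IntF.comp₂ ?_ ?_ ?_; assumption) | (with_reducible refine IntF.comp₃ ?_ ?_ ?_ ?_; assumption) | with_reducible apply IntF.pair)))]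

/-- From internal data to N-compactness. -/
theorem nco_fold (hS : SpO N P O) (hj : ∃ i, Plain.Mem i j)
    (hT : ∀ z w, P z → P w → z ≠ w → ∃ U, O U ∧ z ∈ U ∧ w ∉ U)
    (h1 : ∀ i z, P z → ∃ U, O U ∧ z ∈ U ∧ ∀ w, w ∈ U → F (i, w) = F (i, z))
    (h2 : ∀ g : Plain.El j → INat N, IntF N g → (∀ S : IPow N (Plain.El j), IFin S →
      ∃ z, P z ∧ ∀ i, i ∈ S → F (i, z) = g i) → ∃ z, P z ∧ ∀ i, F (i, z) = g i)
    (h3 : ∀ U z, O U → z ∈ U → ∃ S : IPow N (Plain.El j), IFin S ∧ ∀ w, P w →
      (∀ i, i ∈ S → F (i, w) = F (i, z)) → w ∈ U) :
    IsNCompact (ts O) (xs (N := N) P) := by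
  have hP := hS.iP
  have hO := hS.iO
  have iE := int_em hF
  have hR : Int N (fun q : α × IFun N (Plain.El j) (Plain.El (om N)) =>
      P q.1 ∧ em F q.1 = q.2) := by (repeat' (first | with_reducible exact IntF.id | with_reducible exact IntF.fst' | with_reducible exact IntF.snd' | with_reducible exact IntF.const _ | with_reducible exact Int.const _ | assumption | with_reducible apply Int.and | with_reducible apply Int.or | with_reducible apply Int.not | with_reducible apply Int.imp | with_reducible apply Int.iff | with_reducible apply Int.ne | with_reducible apply Int.eq | with_reducible apply Int.mem | with_reducible apply Int.subset | with_reducible apply Int.ltN | with_reducible apply Int.leN | with_reducible_and_instances apply Int.le | with_reducible_and_instances apply Int.lt | with_reducible apply Int.all | with_reducible apply Int.ex | with_reducible apply IntF.fst | with_reducible apply IntF.snd | with_reducible apply IntF.app | with_reducible apply IntF.inl | with_reducible apply IntF.inr | with_reducible_and_instances apply IntF.mul | with_reducible_and_instances apply IntF.inv | with_reducible_and_instances apply IntF.add | with_reducible_and_instances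 apply IntF.sub | with_reducible_and_instances apply IntF.neg | with_reducible_and_instances apply IntF.smul | with_reducible apply Int.fin | with_reducible apply IntF.sep | with_reducible apply IntF.lam | with_reducible apply IntF.insert | with_reducible apply IntF.singleton | with_reducible apply IntF.union | with_reducible apply IntF.iimage | with_reducible apply IntF.ite | with_reducible apply IntF.the | with_reducible apply IntF.irec | with_reducible apply IntF.succ | with_reducible apply IntF.val | with_reducible apply IntF.mk | (with_reducible refine Int.comp ?_ ?_; assumption) | (with_reducible refine Int.comp₂ ?_ ?_ ?_; assumption) | (with_reducible refine Int.comp₃ ?_ ?_ ?_ ?_; assumption) | (with_reducible refine Int.comp₄ ?_ ?_ ?_ ?_ ?_; assumption) | (with_reducible refine IntF.comp ?_ ?_; assumption) | (with_reducible refine IntF.comp₂ ?_ ?_ ?_; assumption) | (with_reducible refine IntF.comp₃ ?_ ?_ ?_ ?_; assumption) | with_reducible apply IntF.pair))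
  have hinj : ∀ z w, P z → P w → em F z = em F w → z = w := by
    intro z w hz hw h
    by_contra hne
    obtain ⟨U, hU, hzU, hwU⟩ := hT z w hz hw hne
    obtain ⟨S, -, hS'⟩ := h3 U z hU hzU
    refine hwU (hS' w hw fun i _ => ?_)
    have h4 := em_apply hF z i
    have h5 := em_apply hF w i
    rw [h] at h4
    exact cd_inj (h5.symm.trans h4)
  have happ : ∀ z f, App (relc N fun (z : α) (f : IFun N (Plain.El j) (Plain.El (om N))) =>
      P z ∧ em F z = f) z f ↔ ∃ s, P s ∧ z = code s ∧ f = code (em F s) := by
    intro z f
    rw [app_relc hR]
    constructor
    · rintro ⟨s, g, ⟨h1, rfl⟩, h2, h3⟩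
      exact ⟨s, h1, h2, h3⟩
    · rintro ⟨s, h1, h2, h3⟩
      exact ⟨s, _, ⟨h1, rfl⟩, h2, h3⟩
  refine ⟨j, om N, dom N (IFun N (Plain.El j) (Plain.El (om N))),
    code (M := N) (sep N (OpF (N := N) (j := j) (d := om N))),
    relc N fun (z : α) (f : IFun N (Plain.El j) (Plain.El (om N))) => P z ∧ em F z = f,
    hj, isOmega_dom, isFunSet_dom, isCubeTop_dom, ⟨⟨fun q hq => ?_, fun x hx => ?_⟩,
      fun x x' y h5 h6 => ?_⟩, fun u => ⟨fun hu => ?_, ?_⟩, ?_⟩
  · obtain ⟨s, f, ⟨h1, rfl⟩, rfl⟩ := (mem_relc hR).1 hq
    exact ⟨code s, code (em F s), (mem_xs' hS).2 h1, code_mem_domP _, ordPair_iff.2 rfl⟩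
  · obtain ⟨s, h1, rfl⟩ := (mem_xs hS).1 hx
    refine ⟨code (em F s), (happ _ _).2 ⟨s, h1, rfl, rfl⟩, fun y hy => ?_⟩
    obtain ⟨t, h2, h3, rfl⟩ := (happ _ _).1 hy
    rw [ITy.inj h3]
  · obtain ⟨s, h1, rfl, rfl⟩ := (happ _ _).1 h5
    obtain ⟨t, h2, rfl, h3⟩ := (happ _ _).1 h6
    rw [hinj s t h1 h2 (ITy.inj h3)]
  · -- open sets are preimages
    obtain ⟨U, hU, rfl⟩ := (mem_ts hS).1 hu
    refine ⟨fun z hz => ?_, ?_⟩
    · obtain ⟨s, hs, rfl⟩ := mem_codeB.1 hz
      exact (mem_xs' hS).2 (hS.sub U hU s hs)
    · have hI : Int N (fun f : IFun N (Plain.El j) (Plain.El (om N)) =>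
          ∃ (S : IPow N (Plain.El j)) (z : α), IFin S ∧ (∀ i, i ∈ S → f i = em F z i) ∧
            ∀ w, P w → (∀ i, i ∈ S → F (i, w) = F (i, z)) → w ∈ U) := by
        (repeat' (first | with_reducible exact IntF.id | with_reducible exact IntF.fst' | with_reducible exact IntF.snd' | with_reducible exact IntF.const _ | with_reducible exact Int.const _ | assumption | with_reducible apply Int.and | with_reducible apply Int.or | with_reducible apply Int.not | with_reducible apply Int.imp | with_reducible apply Int.iff | with_reducible apply Int.ne | with_reducible apply Int.eq | with_reducible apply Int.mem | with_reducible apply Int.subset | with_reducible apply Int.ltN | with_reducible apply Int.leN | with_reducible_and_instances apply Int.le | with_reducible_and_instances apply Int.lt | with_reducible apply Int.all | with_reducible apply Int.ex | with_reducible apply IntF.fst | with_reducible apply IntF.snd | with_reducible apply IntF.app | with_reducible apply IntF.inl | with_reducible apply IntF.inr | with_reducible_and_instances apply IntF.mul | with_reducible_and_instances apply IntF.inv | with_reducible_and_instances apply IntF.add | with_reducible_and_instances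 apply IntF.sub | with_reducible_and_instances apply IntF.neg | with_reducible_and_instances apply IntF.smul | with_reducible apply Int.fin | with_reducible apply IntF.sep | with_reducible apply IntF.lam | with_reducible apply IntF.insert | with_reducible apply IntF.singleton | with_reducible apply IntF.union | with_reducible apply IntF.iimage | with_reducible apply IntF.ite | with_reducible apply IntF.the | with_reducible apply IntF.irec | with_reducible apply IntF.succ | with_reducible apply IntF.val | with_reducible apply IntF.mk | (with_reducible refine Int.comp ?_ ?_; assumption) | (with_reducible refine Int.comp₂ ?_ ?_ ?_; assumption) | (with_reducible refine Int.comp₃ ?_ ?_ ?_ ?_; assumption) | (with_reducible refine Int.comp₄ ?_ ?_ ?_ ?_ ?_; assumption) | (with_reducible refine IntF.comp ?_ ?_; assumption) | (with_reducible refine IntF.comp₂ ?_ ?_ ?_; assumption) | (with_reducible refine IntF.comp₃ ?_ ?_ ?_ ?_; assumption) | with_reducible apply IntF.pair))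
      refine ⟨code (sep N fun f : IFun N (Plain.El j) (Plain.El (om N)) =>
          ∃ (S : IPow N (Plain.El j)) (z : α), IFin S ∧ (∀ i, i ∈ S → f i = em F z i) ∧
            ∀ w, P w → (∀ i, i ∈ S → F (i, w) = F (i, z)) → w ∈ U),
        mem_codeB'.2 ((mem_sep int_OpF).2 fun f hf => ?_), fun z f hzf => ?_⟩
      · obtain ⟨S, z, h4, h5, h6⟩ := (mem_sep hI).1 hf
        exact ⟨S, h4, fun g hg => (mem_sep hI).2 ⟨S, z, h4, fun i hi =>
          (hg i hi).symm.trans (h5 i hi), h6⟩⟩
      · obtain ⟨s, h4, rfl, rfl⟩ := (happ _ _).1 hzf
        rw [mem_codeP, mem_codeP, mem_sep hI]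
        constructor
        · intro h5
          obtain ⟨S, h6, h7⟩ := h3 U s hU h5
          exact ⟨S, s, h6, fun i _ => rfl, h7⟩
        · rintro ⟨S, z, h6, h7, h8⟩
          refine h8 s h4 fun i hi => ?_
          have h9 := h7 i hi
          rw [em_apply hF, em_apply hF] at h9
          exact cd_inj h9
  · -- preimages are open
    rintro ⟨h4, v, h5, h6⟩
    obtain ⟨V, h7, rfl⟩ := mem_codeB.1 h5
    rw [mem_sep int_OpF] at h7
    obtain ⟨U, rfl, h8⟩ := exists_sub hS h4
    have h9 : ∀ s, P s → (s ∈ U ↔ em F s ∈ V) := fun s hs => by
      have h10 := h6 (code s) (code (em F s)) ((happ _ _).2 ⟨s, hs, rfl, rfl⟩)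
      rwa [mem_codeP, mem_codeP] at h10
    refine (mem_ts' hS).2 ?_
    have iC : Int N (fun W : IPow N α => O W ∧ ∀ s, s ∈ W → s ∈ U) := by (repeat' (first | with_reducible exact IntF.id | with_reducible exact IntF.fst' | with_reducible exact IntF.snd' | with_reducible exact IntF.const _ | with_reducible exact Int.const _ | assumption | with_reducible apply Int.and | with_reducible apply Int.or | with_reducible apply Int.not | with_reducible apply Int.imp | with_reducible apply Int.iff | with_reducible apply Int.ne | with_reducible apply Int.eq | with_reducible apply Int.mem | with_reducible apply Int.subset | with_reducible apply Int.ltN | with_reducible apply Int.leN | with_reducible_and_instances apply Int.le | with_reducible_and_instances apply Int.lt | with_reducible apply Int.all | with_reducible apply Int.ex | with_reducible apply IntF.fst | with_reducible apply IntF.snd | with_reducible apply IntF.app | with_reducible apply IntF.inl | with_reducible apply IntF.inr | with_reducible_and_instances apply IntF.mul | with_reducible_and_instances apply IntF.inv | with_reducible_and_instances apply IntF.add | with_reducible_and_instances apply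 IntF.sub | with_reducible_and_instances apply IntF.neg | with_reducible_and_instances apply IntF.smul | with_reducible apply Int.fin | with_reducible apply IntF.sep | with_reducible apply IntF.lam | with_reducible apply IntF.insert | with_reducible apply IntF.singleton | with_reducible apply IntF.union | with_reducible apply IntF.iimage | with_reducible apply IntF.ite | with_reducible apply IntF.the | with_reducible apply IntF.irec | with_reducible apply IntF.succ | with_reducible apply IntF.val | with_reducible apply IntF.mk | (with_reducible refine Int.comp ?_ ?_; assumption) | (with_reducible refine Int.comp₂ ?_ ?_ ?_; assumption) | (with_reducible refine Int.comp₃ ?_ ?_ ?_ ?_; assumption) | (with_reducible refine Int.comp₄ ?_ ?_ ?_ ?_ ?_; assumption) | (with_reducible refine IntF.comp ?_ ?_; assumption) | (with_reducible refine IntF.comp₂ ?_ ?_ ?_; assumption) | (with_reducible refine IntF.comp₃ ?_ ?_ ?_ ?_; assumption) | with_reducible apply IntF.pair))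
    refine hS.union (sep N fun W : IPow N α => O W ∧ ∀ s, s ∈ W → s ∈ U) U
      (fun W hW => ((mem_sep iC).1 hW).1) fun s => ⟨fun hs => ?_, fun hs => ?_⟩
    · have hPs := h8 s hs
      obtain ⟨S, h10, h11⟩ := h7 _ ((h9 s hPs).1 hs)
      have key : ∃ W, O W ∧ s ∈ W ∧ ∀ w, w ∈ W → ∀ i, i ∈ S → F (i, w) = F (i, s) := by
        refine IFin.ind (p := fun S : IPow N (Plain.El j) => ∃ W, O W ∧ s ∈ W ∧
          ∀ w, w ∈ W → ∀ i, i ∈ S → F (i, w) = F (i, s)) (by (repeat' (first | with_reducible exact IntF.id | with_reducible exact IntF.fst' | with_reducible exact IntF.snd' | with_reducible exact IntF.const _ | with_reducible exact Int.const _ | assumption | with_reducible apply Int.and | with_reducible apply Int.or | with_reducible apply Int.not | with_reducible apply Int.imp | with_reducible apply Int.iff | with_reducible apply Int.ne | with_reducible apply Int.eq | with_reducible apply Int.mem | with_reducible apply Int.subset | with_reducible apply Int.ltN | with_reducible apply Int.leN | with_reducible_and_instances apply Int.le | with_reducible_and_instances apply Int.lt | with_reducible apply Int.all | with_reducible apply Int.ex | with_reducible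 apply IntF.fst | with_reducible apply IntF.snd | with_reducible apply IntF.app | with_reducible apply IntF.inl | with_reducible apply IntF.inr | with_reducible_and_instances apply IntF.mul | with_reducible_and_instances apply IntF.inv | with_reducible_and_instances apply IntF.add | with_reducible_and_instances apply IntF.sub | with_reducible_and_instances apply IntF.neg | with_reducible_and_instances apply IntF.smul | with_reducible apply Int.fin | with_reducible apply IntF.sep | with_reducible apply IntF.lam | with_reducible apply IntF.insert | with_reducible apply IntF.singleton | with_reducible apply IntF.union | with_reducible apply IntF.iimage | with_reducible apply IntF.ite | with_reducible apply IntF.the | with_reducible apply IntF.irec | with_reducible apply IntF.succ | with_reducible apply IntF.val | with_reducible apply IntF.mk | (with_reducible refine Int.comp ?_ ?_; assumption) | (with_reducible refine Int.comp₂ ?_ ?_ ?_; assumption) | (with_reducible refine Int.comp₃ ?_ ?_ ?_ ?_; assumption) | (with_reducible refine Int.comp₄ ?_ ?_ ?_ ?_ ?_; assumption) | (with_reducible refine IntF.comp ?_ ?_; assumption) | (with_reducible refine IntF.comp₂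 ?_ ?_ ?_; assumption) | (with_reducible refine IntF.comp₃ ?_ ?_ ?_ ?_; assumption) | with_reducible apply IntF.pair))) ?_ ?_ S h10
        · exact ⟨sep N P, hS.univ _ fun s => mem_sep hP, (mem_sep hP).2 hPs,
            fun w _ i hi => absurd hi (by simp)⟩
        · rintro S i - - ⟨W, k1, k2, k3⟩
          obtain ⟨W', k4, k5, k6⟩ := h1 i s hPs
          refine ⟨W ∩ W', hS.inter W W' _ k1 k4 fun s => mem_inter, mem_inter.2 ⟨k2, k5⟩,
            fun w hw i' hi' => ?_⟩
          obtain ⟨k7, k8⟩ := mem_inter.1 hw
          rcases mem_insert.1 hi' with rfl | hi'
          · exact k6 w k8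
          · exact k3 w k7 i' hi'
      obtain ⟨W, k1, k2, k3⟩ := key
      refine ⟨W, (mem_sep iC).2 ⟨k1, fun w hw => (h9 w (hS.sub W k1 w hw)).2
        (h11 _ fun i hi => ?_)⟩, k2⟩
      rw [em_apply hF, em_apply hF, k3 w hw i hi]
    · obtain ⟨W, k1, k2⟩ := hs
      exact ((mem_sep iC).1 k1).2 s k2
  · -- the image is closed
    have hI : Int N (fun f : IFun N (Plain.El j) (Plain.El (om N)) =>
        ¬ ∃ s, P s ∧ em F s = f) := by
      (repeat' (first | with_reducible exact IntF.id | with_reducible exact IntF.fst' | with_reducible exact IntF.snd' | with_reducible exact IntF.const _ | with_reducible exact Int.const _ | assumption | with_reducible apply Int.and | with_reducible apply Int.or | with_reducible apply Int.not | with_reducible apply Int.imp | with_reducible apply Int.iff | with_reducible apply Int.ne | with_reducible apply Int.eq | with_reducible apply Int.mem | with_reducible apply Int.subset | with_reducible apply Int.ltN | with_reducible apply Int.leN | with_reducible_and_instances apply Int.le | with_reducible_and_instances apply Int.lt | with_reducible apply Int.all | with_reducible apply Int.ex | with_reducible apply IntF.fst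 | with_reducible apply IntF.snd | with_reducible apply IntF.app | with_reducible apply IntF.inl | with_reducible apply IntF.inr | with_reducible_and_instances apply IntF.mul | with_reducible_and_instances apply IntF.inv | with_reducible_and_instances apply IntF.add | with_reducible_and_instances apply IntF.sub | with_reducible_and_instances apply IntF.neg | with_reducible_and_instances apply IntF.smul | with_reducible apply Int.fin | with_reducible apply IntF.sep | with_reducible apply IntF.lam | with_reducible apply IntF.insert | with_reducible apply IntF.singleton | with_reducible apply IntF.union | with_reducible apply IntF.iimage | with_reducible apply IntF.ite | with_reducible apply IntF.the | with_reducible apply IntF.irec | with_reducible apply IntF.succ | with_reducible apply IntF.val | with_reducible apply IntF.mk | (with_reducible refine Int.comp ?_ ?_; assumption) | (with_reducible refine Int.comp₂ ?_ ?_ ?_; assumption) | (with_reducible refine Int.comp₃ ?_ ?_ ?_ ?_; assumption) | (with_reducible refine Int.comp₄ ?_ ?_ ?_ ?_ ?_; assumption) | (with_reducible refine IntF.comp ?_ ?_; assumption) | (with_reducible refine IntF.comp₂ ?_ ?_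 ?_; assumption) | (with_reducible refine IntF.comp₃ ?_ ?_ ?_ ?_; assumption) | with_reducible apply IntF.pair))
    refine ⟨code (sep N fun f : IFun N (Plain.El j) (Plain.El (om N)) =>
        ¬ ∃ s, P s ∧ em F s = f), mem_codeB'.2 ((mem_sep int_OpF).2 fun f hf => ?_),
        fun f hf => ?_⟩
    · by_contra hc
      refine (mem_sep hI).1 hf ?_
      choose g hg using fun i : Plain.El j => cd_surj (f i)
      have ig : IntF N g := by
        have h4 := int_cd (N := N)
        refine IntF.of_rel (r := fun i n => cd n = f i) (Int.eq (IntF.comp (g := cd)
          (f := fun q : Plain.El j × INat N => q.2) h4 IntF.snd')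
          (IntF.app (IntF.const f) IntF.fst')) fun i n => ?_
        exact ⟨fun h => cd_inj ((hg i).trans h.symm), fun h => h ▸ hg i⟩
      obtain ⟨z, hz, hzg⟩ := h2 g ig fun S hS => by
        by_contra h4
        refine hc ⟨S, hS, fun g' hg' => (mem_sep hI).2 ?_⟩
        rintro ⟨s, h5, rfl⟩
        refine h4 ⟨s, h5, fun i hi => ?_⟩
        have h6 := hg' i hi
        rw [em_apply hF, ← hg i] at h6
        exact (cd_inj h6).symm
      refine ⟨z, hz, IFun.ext' fun i => ?_⟩
      rw [em_apply hF, hzg i, hg i]
    · obtain ⟨g, rfl⟩ := mem_domP.1 hf
      rw [mem_codeP, mem_sep hI]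
      refine not_congr ⟨?_, ?_⟩
      · rintro ⟨s, h1, rfl⟩
        exact ⟨code s, (happ _ _).2 ⟨s, h1, rfl, rfl⟩⟩
      · rintro ⟨z, h1⟩
        obtain ⟨s, h2, -, h3⟩ := (happ _ _).1 h1
        exact ⟨s, h2, (ITy.inj h3).symm⟩

end

end Pool.Agent.Helper672.ZFA.V257
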