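import Pool.Agent.V11257.Zr1

/-!
# Unfolding realcompactness
-/

set_option maxHeartbeats 1000000
set_option linter.all false
set_option synthInstance.maxSize 2000

namespace Pool.Agent.V11257Z

open FirstOrder FirstOrder.Language
open Pool.Agent.Helper672
open Pool.Agent.Helper672.ZFA
open Pool.Agent.Helper672.ZFA.V246
open Pool.Agent.Helper672.Plain (LSet)
open Pool.Agent.H310
open Pool.Agent.H310Cards
open Pool.Agent.H310Top (IsTopology)
open Pool.Agent.H635Amen (IsReals)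
open Pool.Agent.V11246

universe u

section

attribute [local instance] Helper672.Plain.toL

variable {N : Type u} [LSet.Structure N] [hZ : Helper672.Plain.Zermelo N]

local instance instModelZr2 : IsModel N := Helper672.Plain.isModel_toL

noncomputable local instance instPElZr2 (x : N) : ITy N (Helper672.Plain.El x) :=
  (inferInstance : ITy N (El x))

variable {α : Type u} [ITy N α] {P : α → Prop} {O : IPow N α → Prop}

theorem int_RR2 {h j r : N} : Int N (fun q : (α × Plain.El j) × Plain.El r =>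
    ∃ f, App h (code q.1.1) f ∧ App f (code q.1.2) (code q.2)) := by
  refine Int.of_D₂ (S := fun v => ∃ s i f, v 0 = op s i ∧ Mem (op s f) h ∧ Mem (op i (v 1)) f)
    ?_ fun p n => ?_
  · exact D.ex (D.ex (D.ex (D.and (D.eqf (DF.var _) (DF.op (DF.var _) (DF.var _)))
      (D.and (D.memf (DF.op (DF.var _) (DF.var _)) (DF.const _))
        (D.memf (DF.op (DF.var _) (DF.var _)) (DF.var _))))))
  · constructor
    · rintro ⟨s, i, f, h1, h2, h3⟩
      have h4 : op (code p.1) (code p.2) = op s i := h1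
      obtain ⟨rfl, rfl⟩ := op_inj h4
      exact ⟨f, app_iff.2 h2, app_iff.2 h3⟩
    · rintro ⟨f, h1, h2⟩
      exact ⟨code p.1, code p.2, f, rfl, app_iff.1 h1, app_iff.1 h2⟩

/-- What realcompactness says about the internal data. -/
theorem rco_unfold (hS : SpO N P O) (hN : IsRealcompact (ts O) (xs (N := N) P)) :
    ∃ (r : N) (_ : Field (Plain.El r)) (_ : LinearOrder (Plain.El r))
      (_ : IsStrictOrderedRing (Plain.El r)), IsReals r ∧
    ∃ (j : N) (F : Plain.El j × α → Plain.El r), IntF N F ∧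
      (∀ i, CtR P O fun z => F (i, z)) ∧
      (∀ g : Plain.El j → Plain.El r, IntF N g → (∀ S : IPow N (Plain.El j), IFin S →
        ∀ ε : Plain.El r, 0 < ε → ∃ z, P z ∧ ∀ i, i ∈ S → |F (i, z) - g i| < ε) →
          ∃ z, P z ∧ ∀ i, F (i, z) = g i) ∧
      ∀ U z, O U → z ∈ U → ∃ S : IPow N (Plain.El j), IFin S ∧ ∃ ε : Plain.El r, 0 < ε ∧
        ∀ w, P w → (∀ i, i ∈ S → |F (i, w) - F (i, z)| < ε) → w ∈ U := by
  obtain ⟨r, i1, i2, i3, hr, j, c, t, h, hc, ht, hh, htop, vc, hvc, hvc'⟩ := hN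
  refine ⟨r, i1, i2, i3, hr, ?_⟩
  have hR := int_RR2 (α := α) (h := h) (j := j) (r := r)
  have hIP := hS.iP
  have hclo := int_closeR hr
  have hval : ∀ s : α, P s → ∃ f, App h (code s) f ∧ Mem f c := by
    intro s hs
    obtain ⟨f, h1, -⟩ := hh.1.2 (code s) ((mem_xs' hS).2 hs)
    exact ⟨f, h1, (app_dom hh.1 h1).2⟩
  have hctop : ∀ u, Mem u t → ∀ f, Mem f u → Mem f c := fun u hu => ((ht u).1 hu).1
  have hfval : ∀ f, Mem f c → ∀ i : Plain.El j, ∃ y : Plain.El r, App f i.1 y.1 ∧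
      ∀ y' : Plain.El r, App f i.1 y'.1 → y' = y := by
    intro f hf i
    obtain ⟨y, hy, hu⟩ := ((hc f).1 hf).2 i.1 i.2
    exact ⟨⟨y, (app_dom ((hc f).1 hf) hy).2⟩, hy, fun y' hy' => Subtype.ext (hu _ hy')⟩
  -- cylinders of the power
  have hcyl : ∀ (i : Plain.El j) (a ε : Plain.El r), ∃ v, Mem v t ∧ ∀ f, Mem f v ↔
      Mem f c ∧ ∃ y : Plain.El r, App f i.1 y.1 ∧ |y - a| < ε := by
    intro i a ε
    have hI : Int N (fun f : Plain.El c => ∃ y : Plain.El r, App f.1 i.1 y.1 ∧ |y - a| < ε) := by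
      have g1 : Int N (fun q : Plain.El c × Plain.El r => App q.1.1 i.1 q.2.1) := by
        refine Int.of_D₂ (S := fun v => Mem (op i.1 (v 1)) (v 0)) ?_ fun f y => ?_
        · exact D.memf (DF.op (DF.const _) (DF.var _)) (DF.var _)
        · exact app_iff.symm
      have g2 : Int N (fun q : Plain.El c × Plain.El r => |q.2 - a| < ε) := Int.comp
        (p := fun q : (Plain.El r × Plain.El r) × Plain.El r => |q.1.1 - q.1.2| < q.2)
        (f := fun q : Plain.El c × Plain.El r => ((q.2, a), ε)) hclo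
        ((IntF.snd'.pair (IntF.const _)).pair (IntF.const _))
      exact Int.ex (g1.and g2)
    have hv : ∀ f, Mem f (code (M := N) (sep N fun f : Plain.El c => ∃ y : Plain.El r,
        App f.1 i.1 y.1 ∧ |y - a| < ε)) ↔
        Mem f c ∧ ∃ y : Plain.El r, App f i.1 y.1 ∧ |y - a| < ε := by
      intro f
      constructor
      · intro hf
        obtain ⟨g, h1, rfl⟩ := mem_codeB.1 hf
        exact ⟨g.2, (mem_sep hI).1 h1⟩
      · rintro ⟨h1, h2⟩
        exact mem_codeB.2 ⟨⟨f, h1⟩, (mem_sep hI).2 h2, rfl⟩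
    refine ⟨_, (ht _).2 ⟨fun f hf => ((hv f).1 hf).1, fun f hf => ?_⟩, hv⟩
    obtain ⟨hf1, y, hy, hy'⟩ := (hv f).1 hf
    refine ⟨code (M := N) ({i} : IPow N (Plain.El j)), isFinite_of_fin (IFin.singleton _),
      fun z hz => ?_, ε - |y - a|, by linarith, fun g hg hgf => (hv g).2 ⟨hg, ?_⟩⟩
    · obtain ⟨b, -, rfl⟩ := mem_codeB.1 hz
      exact b.2
    · obtain ⟨z, hz, -⟩ := hfval g hg i
      have h1 := hgf i.1 y z (mem_codeB.2 ⟨i, mem_singleton.2 rfl, rfl⟩) hy hz
      refine ⟨z, hz, ?_⟩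
      have h2 : |z - a| ≤ |z - y| + |y - a| := by
        have := abs_add_le (z - y) (y - a)
        rwa [sub_add_sub_cancel] at this
      linarith
  -- finite subsets of `j`
  have hfinj : ∀ s, IsFinite s → (∀ i, Mem i s → Mem i j) → ∃ S : IPow N (Plain.El j),
      IFin S ∧ code S = s := by
    intro s hs hsj
    obtain ⟨S, rfl⟩ := exists_codeB (α := Plain.El j) (u := s) fun z hz => ⟨⟨z, hsj z hz⟩, rfl⟩
    exact ⟨S, fin_of_isFinite hs, rfl⟩
  -- values
  have hvalue : ∀ s, P s → ∀ i : Plain.El j, ∃ n : Plain.El r,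
      (∃ f, App h (code s) f ∧ App f (code i) (code n)) ∧
      ∀ n' : Plain.El r, (∃ f, App h (code s) f ∧ App f (code i) (code n')) → n' = n := by
    intro s hs i
    obtain ⟨f, h1, h2⟩ := hval s hs
    obtain ⟨n, hn, hu⟩ := hfval f h2 i
    refine ⟨n, ⟨f, h1, hn⟩, fun n' hn' => ?_⟩
    obtain ⟨g, h3, h4⟩ := hn'
    rw [app_uniq hh.1 h3 h1] at h4
    exact hu _ h4
  have hex : ∀ q : Plain.El j × α, ∃ n : Plain.El r,
      (P q.2 ∧ ∃ f, App h (code q.2) f ∧ App f (code q.1) (code n)) ∨ (¬ P q.2 ∧ n = 0) := by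
    intro q
    by_cases hq : P q.2
    · obtain ⟨n, h1, -⟩ := hvalue q.2 hq q.1
      exact ⟨n, Or.inl ⟨hq, h1⟩⟩
    · exact ⟨0, Or.inr ⟨hq, rfl⟩⟩
  choose F hF using hex
  have hF1 : ∀ i s (n : Plain.El r), P s → ((∃ f, App h (code s) f ∧ App f (code i) (code n)) ↔
      F (i, s) = n) := by
    intro i s n hs
    obtain ⟨m, h1, h2⟩ := hvalue s hs i
    have h3 : F (i, s) = m := by
      rcases hF (i, s) with h3 | h3
      · exact h2 _ h3.2
      · exact absurd hs h3.1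
    rw [h3]
    exact ⟨fun h4 => (h2 n h4).symm, fun h4 => h4 ▸ h1⟩
  have hIF : IntF N F := by
    refine IntF.of_rel (r := fun (q : Plain.El j × α) (n : Plain.El r) =>
      (P q.2 ∧ ∃ f, App h (code q.2) f ∧ App f (code q.1) (code n)) ∨ (¬ P q.2 ∧ n = 0)) ?_ ?_
    · have h1 : Int N (fun q : (Plain.El j × α) × Plain.El r =>
          ∃ f, App h (code q.1.2) f ∧ App f (code q.1.1) (code q.2)) :=
        Int.comp (p := fun q : (α × Plain.El j) × Plain.El r =>
          ∃ f, App h (code q.1.1) f ∧ App f (code q.1.2) (code q.2))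
          (f := fun q : (Plain.El j × α) × Plain.El r => ((q.1.2, q.1.1), q.2)) hR
          (((IntF.snd IntF.fst').pair (IntF.fst IntF.fst')).pair IntF.snd')
      have h2 : Int N (fun q : (Plain.El j × α) × Plain.El r => P q.1.2) := Int.comp (p := P)
        (f := fun q : (Plain.El j × α) × Plain.El r => q.1.2) hIP (IntF.snd IntF.fst')
      have h3 : Int N (fun q : (Plain.El j × α) × Plain.El r => q.2 = 0) :=
        Int.eq IntF.snd' (IntF.const _)
      exact (h2.and h1).or (h2.not.and h3)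
    · rintro ⟨i, s⟩ n
      by_cases hs : P s
      · rw [← hF1 i s n hs]
        exact ⟨fun h1 => h1.elim (fun h1 => h1.2) fun h1 => absurd hs h1.1,
          fun h1 => Or.inl ⟨hs, h1⟩⟩
      · have h1 : F (i, s) = 0 := (hF (i, s)).elim (fun h1 => absurd h1.1 hs) fun h1 => h1.2
        rw [h1]
        exact ⟨fun h2 => h2.elim (fun h2 => absurd h2.1 hs) fun h2 => h2.2.symm,
          fun h2 => Or.inr ⟨hs, h2.symm⟩⟩
  refine ⟨j, F, hIF, ?_, ?_, ?_⟩
  · intro i z hz ε hε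
    obtain ⟨v, hv, hv'⟩ := hcyl i (F (i, z)) ε
    have hI : Int N (fun s : α => P s ∧ |F (i, s) - F (i, z)| < ε) := by
      have h1 : Int N (fun s : α => |F (i, s) - F (i, z)| < ε) := Int.comp
        (p := fun q : (Plain.El r × Plain.El r) × Plain.El r => |q.1.1 - q.1.2| < q.2)
        (f := fun s => ((F (i, s), F (i, z)), ε)) hclo
        (((IntF.comp (f := fun s => (i, s)) hIF ((IntF.const _).pair IntF.id)).pair
          (IntF.const _)).pair (IntF.const _))
      exact hIP.and h1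
    refine ⟨sep N fun s : α => P s ∧ |F (i, s) - F (i, z)| < ε, ?_, (mem_sep hI).2 ⟨hz, ?_⟩,
      fun w hw => ((mem_sep hI).1 hw).2⟩
    · rw [← mem_ts' hS]
      refine (htop _).2 ⟨fun x hx => ?_, v, hv, fun x f hf => ?_⟩
      · obtain ⟨s, h1, rfl⟩ := mem_codeB.1 hx
        exact (mem_xs' hS).2 ((mem_sep hI).1 h1).1
      · constructor
        · intro hx
          obtain ⟨s, h1, rfl⟩ := mem_codeB.1 hx
          obtain ⟨h0, h1⟩ := (mem_sep hI).1 h1
          obtain ⟨g, h2, h3⟩ := (hF1 i s _ h0).2 rfl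
          rw [app_uniq hh.1 h2 hf] at h3
          exact (hv' f).2 ⟨(app_dom hh.1 hf).2, _, h3, h1⟩
        · intro hfv
          obtain ⟨s, hs, rfl⟩ := (mem_xs hS).1 (app_dom hh.1 hf).1
          obtain ⟨-, y, h2, h3⟩ := (hv' f).1 hfv
          rw [← (hF1 i s y hs).1 ⟨f, hf, h2⟩] at h3
          exact mem_codeB'.2 ((mem_sep hI).2 ⟨hs, h3⟩)
    · rw [sub_self, abs_zero]
      exact hε
  · intro p hp hfin
    have hf : IsFun (code (⟨p, hp⟩ : IFun N (Plain.El j) (Plain.El r))) j r :=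
      isFun_code _ (fun z => ⟨fun h => ⟨⟨z, h⟩, rfl⟩, fun ⟨x, h⟩ => h ▸ x.2⟩)
        fun i => (p i).2
    have happ : ∀ i : Plain.El j, App (code (⟨p, hp⟩ : IFun N (Plain.El j) (Plain.El r))) i.1
        (code (p i)) := fun i => app_code.2 ⟨i, rfl, rfl⟩
    have hfc := (hc _).2 hf
    by_cases hin : ∃ z, App h z (code (⟨p, hp⟩ : IFun N (Plain.El j) (Plain.El r)))
    · obtain ⟨z, hz⟩ := hin
      obtain ⟨s, hs, rfl⟩ := (mem_xs hS).1 (app_dom hh.1 hz).1
      exact ⟨s, hs, fun i => (hF1 i s _ hs).1 ⟨_, hz, happ i⟩⟩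
    · exfalso
      obtain ⟨s', h1, h2, ε, hε, h3⟩ := ((ht vc).1 hvc).2 _ ((hvc' _ hfc).2 hin)
      obtain ⟨S, h4, rfl⟩ := hfinj s' h1 h2
      obtain ⟨s, h5, h6⟩ := hfin S h4 ε hε
      obtain ⟨g, h7, h8⟩ := hval s h5
      refine (hvc' g h8).1 (h3 g h8 fun i y z hi hy hz => ?_) ⟨_, h7⟩
      obtain ⟨b, hb, rfl⟩ := mem_codeB.1 hi
      have h9 : F (b, s) = z := (hF1 b s z h5).1 ⟨g, h7, hz⟩
      have h10 : p b = y := Subtype.ext (app_uniq hf (happ b) hy)
      rw [← h9, ← h10]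
      exact h6 b hb
  · intro U s₀ hU hs₀
    have hPs₀ := hS.sub U hU s₀ hs₀
    obtain ⟨-, v, hv, h2⟩ := (htop _).1 ((mem_ts' hS).2 hU)
    obtain ⟨f, h3, h4⟩ := hval s₀ hPs₀
    have h5 : Mem f v := (h2 _ _ h3).1 (mem_codeB'.2 hs₀)
    obtain ⟨s', h6, h7, ε, hε, h8⟩ := ((ht v).1 hv).2 f h5
    obtain ⟨S, h9, rfl⟩ := hfinj s' h6 h7
    refine ⟨S, h9, ε, hε, fun s hs hag => ?_⟩
    obtain ⟨g, h10, h11⟩ := hval s hs
    have h12 : Mem g v := by
      refine h8 g h11 fun i y z hi hy hz => ?_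
      obtain ⟨k, hk, rfl⟩ := mem_codeB.1 hi
      have h12 : F (k, s₀) = y := (hF1 k s₀ y hPs₀).1 ⟨f, h3, hy⟩
      have h13 : F (k, s) = z := (hF1 k s z hs).1 ⟨g, h10, hz⟩
      rw [← h12, ← h13]
      exact hag k hk
    exact mem_codeB'.1 ((h2 _ _ h10).2 h12)

end

end Pool.Agent.V11257Z
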