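import Pool.Agent.V11257.Ck2
import Pool.Agent.V11257.Zr2

/-!
# Strongly zero-dimensional realcompact spaces are N-compact
-/

set_option maxHeartbeats 1000000
set_option linter.all false
set_option synthInstance.maxSize 2000

namespace Pool.Agent.Helper672.ZFA.V257

open FirstOrder FirstOrder.Language
open Pool.Agent.Helper672.Plain (LSet)
open Pool.Agent.H310
open Pool.Agent.H310Cards
open Pool.Agent.H310Top (IsTopology)
open Pool.Agent.H635Amen (IsReals Sub)
open Pool.Agent.V11246
open Pool.Agent.V11257Z (mem_codeP int_addR int_leR opGraph_iff IsRealcompact rco_unfold CtR)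
open Pool.Agent.Helper672.ZFA.V246

universe u

section

attribute [local instance] Helper672.Plain.toL

variable {N : Type u} [LSet.Structure N] [hZ : Helper672.Plain.Zermelo N]

local instance instModelCk3 : IsModel N := Helper672.Plain.isModel_toL

noncomputable local instance instPElCk3 (x : N) : ITy N (Helper672.Plain.El x) :=
  (inferInstance : ITy N (El x))

variable {x t r : N}

/-- The open sets of a space of the model. -/
def Ox (t : N) {x : N} (V : IPow N (Plain.El x)) : Prop := Mem (code V) t

theorem int_Ox : Int N (Ox t (x := x)) := ⟨t, fun _ => Iff.rfl⟩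

theorem exCode {u : N} (hu : ∀ z, Plain.Mem z u → Plain.Mem z x) :
    ∃ V : IPow N (Plain.El x), code V = u :=
  exists_codeB (α := Plain.El x) (u := u) fun z hz => ⟨⟨z, hu z hz⟩, rfl⟩

theorem mCode {V : IPow N (Plain.El x)} {a : Plain.El x} : Plain.Mem a.1 (code (M := N) V) ↔
    a ∈ V := mem_codeB' (a := a)

theorem spoX (ht : IsTopology t x) : SpO N (fun _ : Plain.El x => True) (Ox t) where
  iP := by (repeat' (first | with_reducible exact IntF.id | with_reducible exact IntF.fst' | with_reducible exact IntF.snd' | with_reducible exact IntF.const _ | with_reducible exact Int.const _ | assumption | with_reducible apply Int.and | with_reducible apply Int.or | with_reducible apply Int.not | with_reducible apply Int.imp | with_reducible apply Int.iff | with_reducible apply Int.ne | with_reducible apply Int.eq | with_reducible apply Int.mem | with_reducible apply Int.subset | with_reducible apply Int.ltN | with_reducible apply Int.leN | with_reducible_and_instances apply Int.le | with_reducible_and_instances apply Int.lt | with_reducible apply Int.all | with_reducible apply Int.ex | with_reducible apply IntF.fst | with_reducible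 apply IntF.snd | with_reducible apply IntF.app | with_reducible apply IntF.inl | with_reducible apply IntF.inr | with_reducible_and_instances apply IntF.mul | with_reducible_and_instances apply IntF.inv | with_reducible_and_instances apply IntF.add | with_reducible_and_instances apply IntF.sub | with_reducible_and_instances apply IntF.neg | with_reducible_and_instances apply IntF.smul | with_reducible apply Int.fin | with_reducible apply IntF.sep | with_reducible apply IntF.lam | with_reducible apply IntF.insert | with_reducible apply IntF.singleton | with_reducible apply IntF.union | with_reducible apply IntF.iimage | with_reducible apply IntF.ite | with_reducible apply IntF.the | with_reducible apply IntF.irec | with_reducible apply IntF.succ | with_reducible apply IntF.val | with_reducible apply IntF.mk | (with_reducible refine Int.comp ?_ ?_; assumption) | (with_reducible refine Int.comp₂ ?_ ?_ ?_; assumption) | (with_reducible refine Int.comp₃ ?_ ?_ ?_ ?_; assumption) | (with_reducible refine Int.comp₄ ?_ ?_ ?_ ?_ ?_; assumption) | (with_reducible refine IntF.comp ?_ ?_; assumption) | (with_reducible refine IntF.comp₂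 ?_ ?_ ?_; assumption) | (with_reducible refine IntF.comp₃ ?_ ?_ ?_ ?_; assumption) | with_reducible apply IntF.pair))
  iO := int_Ox
  sub := fun _ _ _ _ => trivial
  univ := fun U hU => by
    have h1 : code (M := N) U = x := extM fun z => ⟨fun hz => by
      obtain ⟨a, -, rfl⟩ := mem_codeB.1 hz
      exact a.2, fun hz => mCode (a := ⟨z, hz⟩).2 ((hU _).2 trivial)⟩
    change Mem (code U) t
    rw [h1]
    exact ht.univ
  inter := fun U V W hU hV hW => by
    refine ht.inter (code U) (code V) (code W) hU hV fun z => ⟨fun hz => ?_, fun hz => ?_⟩
    · obtain ⟨a, ha, rfl⟩ := mem_codeB.1 hz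
      exact ⟨mCode.2 ((hW a).1 ha).1, mCode.2 ((hW a).1 ha).2⟩
    · obtain ⟨a, ha, rfl⟩ := mem_codeB.1 hz.1
      exact mCode.2 ((hW a).2 ⟨ha, mCode.1 hz.2⟩)
  union := fun c W hc hW => by
    refine ht.union (code c) (code W) (fun u hu => ?_) fun z => ⟨fun hz => ?_, ?_⟩
    · obtain ⟨U, hU, rfl⟩ := mem_codeB.1 hu
      exact hc U hU
    · obtain ⟨a, ha, rfl⟩ := mem_codeB.1 hz
      obtain ⟨U, hU, haU⟩ := (hW a).1 ha
      exact ⟨code U, mem_codeB'.2 hU, mCode.2 haU⟩
    · rintro ⟨u, hu, hzu⟩
      obtain ⟨U, hU, rfl⟩ := mem_codeB.1 hu
      obtain ⟨a, ha, rfl⟩ := mem_codeB.1 hzu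
      exact mCode.2 ((hW a).2 ⟨U, hU, ha⟩)

theorem xsX (ht : IsTopology t x) : xs (N := N) (fun _ : Plain.El x => True) = x :=
  extM fun z => (mem_xs (spoX ht)).trans ⟨fun ⟨a, _, h⟩ => h ▸ a.2, fun h => ⟨⟨z, h⟩, trivial, rfl⟩⟩

theorem tsX (ht : IsTopology t x) : ts (N := N) (Ox t (x := x)) = t :=
  extM fun z => (mem_ts (spoX ht)).trans ⟨fun ⟨U, h1, h2⟩ => h2 ▸ h1, fun h => by
    obtain ⟨V, rfl⟩ := exCode (ht.sub z h)
    exact ⟨V, h, rfl⟩⟩

variable [Field (Plain.El r)] [LinearOrder (Plain.El r)] [IsStrictOrderedRing (Plain.El r)]

theorem kcomp (hr : IsReals r) : KComp N (Plain.El r) := by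
  intro s h1 h2
  have hsub : ∀ z, Plain.Mem z (code (M := N) s) → Plain.Mem z r := fun z hz => by
    obtain ⟨a, -, rfl⟩ := mem_codeB.1 hz
    exact a.2
  obtain ⟨c, h3, h4⟩ := hr.complete ⟨code (M := N) s, hsub⟩ (by
    obtain ⟨c, hc⟩ := h1
    exact ⟨c.1, mCode.2 hc⟩) (by
    obtain ⟨b, hb⟩ := h2
    exact ⟨b, fun y hy => hb y (mCode.1 hy)⟩)
  exact ⟨c, fun d hd => h3 (mCode.2 hd), fun b hb => h4 fun d hd => hb d (mCode.1 hd)⟩

/-- Partitions with small oscillation. -/
theorem exists_g (hr : IsReals r) (ht : IsTopology t x) (hz : IsStronglyZeroDim t x)
    {f : Plain.El x → Plain.El r} (hf : IntF N f) (hfc : CtK (Ox t) f) {δ : Plain.El r}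
    (hδ : 0 < δ) : ∃ g : Plain.El x → INat N, IntF N g ∧ CtN (Ox t) g ∧
      ∀ z w, g z = g w → f z < f w + δ := by
  letI : IAdd N (Plain.El r) := ⟨int_addR hr⟩
  letI : ILE N (Plain.El r) := ⟨int_leR hr⟩
  have iM : IntF N (fun q : Plain.El r × Plain.El r => q.1 * q.2) := by
    obtain ⟨g, hg⟩ := hr.mul
    exact ⟨g, fun q => ((hg q.1.1 q.1.2 q.2).trans opGraph_iff).symm⟩
  letI : IMul N (Plain.El r) := ⟨iM⟩
  have hS := spoX ht
  obtain ⟨ε, hε, hεδ⟩ : ∃ ε : Plain.El r, 0 < ε ∧ ε + ε = δ :=
    ⟨δ / 2, half_pos hδ, add_halves δ⟩
  obtain ⟨d, id', h1, h2, h3, h4⟩ := exists_dist (N := N) (kcomp hr) hε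
  have iφ : IntF N (fun a : Plain.El x => d (f a) * ε⁻¹) := by (repeat' (first | with_reducible exact IntF.id | with_reducible exact IntF.fst' | with_reducible exact IntF.snd' | with_reducible exact IntF.const _ | with_reducible exact Int.const _ | assumption | with_reducible apply Int.and | with_reducible apply Int.or | with_reducible apply Int.not | with_reducible apply Int.imp | with_reducible apply Int.iff | with_reducible apply Int.ne | with_reducible apply Int.eq | with_reducible apply Int.mem | with_reducible apply Int.subset | with_reducible apply Int.ltN | with_reducible apply Int.leN | with_reducible_and_instances apply Int.le | with_reducible_and_instances apply Int.lt | with_reducible apply Int.all | with_reducible apply Int.ex | with_reducible apply IntF.fst | with_reducible apply IntF.snd | with_reducible apply IntF.app | with_reducible apply IntF.inl | with_reducible apply IntF.inr | with_reducible_and_instances apply IntF.mul | with_reducible_and_instances apply IntF.inv | with_reducible_and_instances apply IntF.add | with_reducible_and_instances apply IntF.sub | with_reducible_and_instances apply IntF.neg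 | with_reducible_and_instances apply IntF.smul | with_reducible apply Int.fin | with_reducible apply IntF.sep | with_reducible apply IntF.lam | with_reducible apply IntF.insert | with_reducible apply IntF.singleton | with_reducible apply IntF.union | with_reducible apply IntF.iimage | with_reducible apply IntF.ite | with_reducible apply IntF.the | with_reducible apply IntF.irec | with_reducible apply IntF.succ | with_reducible apply IntF.val | with_reducible apply IntF.mk | (with_reducible refine Int.comp ?_ ?_; assumption) | (with_reducible refine Int.comp₂ ?_ ?_ ?_; assumption) | (with_reducible refine Int.comp₃ ?_ ?_ ?_ ?_; assumption) | (with_reducible refine Int.comp₄ ?_ ?_ ?_ ?_ ?_; assumption) | (with_reducible refine IntF.comp ?_ ?_; assumption) | (with_reducible refine IntF.comp₂ ?_ ?_ ?_; assumption) | (with_reducible refine IntF.comp₃ ?_ ?_ ?_ ?_; assumption) | with_reducible apply IntF.pair))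
  have hφ0 : ∀ a, 0 ≤ d (f a) * ε⁻¹ := fun a => mul_nonneg (h1 _).1 (inv_nonneg.2 hε.le)
  have hφ1 : ∀ a, d (f a) * ε⁻¹ ≤ 1 := fun a => by
    rw [← div_eq_mul_inv, div_le_one hε]
    exact (h1 _).2
  have iA : Int N (fun a : Plain.El x => d (f a) = 0) := by (repeat' (first | with_reducible exact IntF.id | with_reducible exact IntF.fst' | with_reducible exact IntF.snd' | with_reducible exact IntF.const _ | with_reducible exact Int.const _ | assumption | with_reducible apply Int.and | with_reducible apply Int.or | with_reducible apply Int.not | with_reducible apply Int.imp | with_reducible apply Int.iff | with_reducible apply Int.ne | with_reducible apply Int.eq | with_reducible apply Int.mem | with_reducible apply Int.subset | with_reducible apply Int.ltN | with_reducible apply Int.leN | with_reducible_and_instances apply Int.le | with_reducible_and_instances apply Int.lt | with_reducible apply Int.all | with_reducible apply Int.ex | with_reducible apply IntF.fst | with_reducible apply IntF.snd | with_reducible apply IntF.app | with_reducible apply IntF.inl | with_reducible apply IntF.inr | with_reducible_and_instances apply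 IntF.mul | with_reducible_and_instances apply IntF.inv | with_reducible_and_instances apply IntF.add | with_reducible_and_instances apply IntF.sub | with_reducible_and_instances apply IntF.neg | with_reducible_and_instances apply IntF.smul | with_reducible apply Int.fin | with_reducible apply IntF.sep | with_reducible apply IntF.lam | with_reducible apply IntF.insert | with_reducible apply IntF.singleton | with_reducible apply IntF.union | with_reducible apply IntF.iimage | with_reducible apply IntF.ite | with_reducible apply IntF.the | with_reducible apply IntF.irec | with_reducible apply IntF.succ | with_reducible apply IntF.val | with_reducible apply IntF.mk | (with_reducible refine Int.comp ?_ ?_; assumption) | (with_reducible refine Int.comp₂ ?_ ?_ ?_; assumption) | (with_reducible refine Int.comp₃ ?_ ?_ ?_ ?_; assumption) | (with_reducible refine Int.comp₄ ?_ ?_ ?_ ?_ ?_; assumption) | (with_reducible refine IntF.comp ?_ ?_; assumption) | (with_reducible refine IntF.comp₂ ?_ ?_ ?_; assumption) | (with_reducible refine IntF.comp₃ ?_ ?_ ?_ ?_; assumption) | with_reducible apply IntF.pair))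
  have iB : Int N (fun a : Plain.El x => d (f a) = ε) := by (repeat' (first | with_reducible exact IntF.id | with_reducible exact IntF.fst' | with_reducible exact IntF.snd' | with_reducible exact IntF.const _ | with_reducible exact Int.const _ | assumption | with_reducible apply Int.and | with_reducible apply Int.or | with_reducible apply Int.not | with_reducible apply Int.imp | with_reducible apply Int.iff | with_reducible apply Int.ne | with_reducible apply Int.eq | with_reducible apply Int.mem | with_reducible apply Int.subset | with_reducible apply Int.ltN | with_reducible apply Int.leN | with_reducible_and_instances apply Int.le | with_reducible_and_instances apply Int.lt | with_reducible apply Int.all | with_reducible apply Int.ex | with_reducible apply IntF.fst | with_reducible apply IntF.snd | with_reducible apply IntF.app | with_reducible apply IntF.inl | with_reducible apply IntF.inr | with_reducible_and_instances apply IntF.mul | with_reducible_and_instances apply IntF.inv | with_reducible_and_instances apply IntF.add | with_reducible_and_instances apply IntF.sub | with_reducible_and_instances apply IntF.neg | with_reducible_and_instances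 apply IntF.smul | with_reducible apply Int.fin | with_reducible apply IntF.sep | with_reducible apply IntF.lam | with_reducible apply IntF.insert | with_reducible apply IntF.singleton | with_reducible apply IntF.union | with_reducible apply IntF.iimage | with_reducible apply IntF.ite | with_reducible apply IntF.the | with_reducible apply IntF.irec | with_reducible apply IntF.succ | with_reducible apply IntF.val | with_reducible apply IntF.mk | (with_reducible refine Int.comp ?_ ?_; assumption) | (with_reducible refine Int.comp₂ ?_ ?_ ?_; assumption) | (with_reducible refine Int.comp₃ ?_ ?_ ?_ ?_; assumption) | (with_reducible refine Int.comp₄ ?_ ?_ ?_ ?_ ?_; assumption) | (with_reducible refine IntF.comp ?_ ?_; assumption) | (with_reducible refine IntF.comp₂ ?_ ?_ ?_; assumption) | (with_reducible refine IntF.comp₃ ?_ ?_ ?_ ?_; assumption) | with_reducible apply IntF.pair))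
  have hsep : IsSeparated t x (code (M := N) (sep N fun a : Plain.El x => d (f a) = 0))
      (code (M := N) (sep N fun a : Plain.El x => d (f a) = ε)) := by
    refine ⟨r, inferInstance, inferInstance, inferInstance, hr,
        fun a => d (f a) * ε⁻¹, ⟨?_, ?_⟩, fun z => ⟨hφ0 z, hφ1 z⟩, fun z hz => ?_, fun z hz => ?_⟩
    · obtain ⟨g, hg⟩ := iφ
      exact ⟨g, fun a y => ((hg (a, y)).symm.trans app_iff.symm)⟩
    · intro a δ' hδ'
      obtain ⟨U, h5, h6, h7⟩ := hfc a (δ' * ε) (mul_pos hδ' hε)
      refine ⟨code U, h5, mCode.2 h6, fun b hb => ?_⟩
      have h8 := h7 b (mCode.1 hb)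
      have h9 := h2 (f b) (f a)
      have h10 := h2 (f a) (f b)
      rw [abs_sub_comm] at h10
      have h11 : |d (f b) - d (f a)| < δ' * ε := by
        rw [abs_lt]
        constructor <;> linarith
      rw [← sub_mul, abs_mul, abs_of_pos (inv_pos.2 hε)]
      calc |d (f b) - d (f a)| * ε⁻¹ < δ' * ε * ε⁻¹ :=
            mul_lt_mul_of_pos_right h11 (inv_pos.2 hε)
        _ = δ' := by rw [mul_assoc, mul_inv_cancel₀ hε.ne', mul_one]
    · have h5 : d (f z) = 0 := (mem_sep iA).1 (mCode.1 hz)
      change d (f z) * ε⁻¹ = 0
      rw [h5, zero_mul]
    · have h5 : d (f z) = ε := (mem_sep iB).1 (mCode.1 hz)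
      change d (f z) * ε⁻¹ = 1
      rw [h5, mul_inv_cancel₀ hε.ne']
  obtain ⟨u, v, hu, hv, huv, hau, hbu⟩ := hz
    (code (M := N) (sep N fun a : Plain.El x => d (f a) = 0))
    (code (M := N) (sep N fun a : Plain.El x => d (f a) = ε)) (fun z hz => by
      obtain ⟨a, -, rfl⟩ := mem_codeB.1 hz
      exact a.2) (fun z hz => by
      obtain ⟨a, -, rfl⟩ := mem_codeB.1 hz
      exact a.2) hsep
  obtain ⟨C, rfl⟩ := exCode (ht.sub u hu)
  obtain ⟨C', rfl⟩ := exCode (ht.sub v hv)
  obtain ⟨g, h5, h6, h7⟩ := exists_part (N := N) hε (O := Ox t) (fun U V hU hV =>
    hS.inter U V _ hU hV fun s => mem_inter) hf hfc (C := C) (C' := C') hu hv (fun z => by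
      have h8 := huv z.1
      rw [mCode, mCode] at h8
      exact h8.trans ⟨fun h => h.2, fun h => ⟨z.2, h⟩⟩) (fun z hz => by
      refine h4 _ (lt_of_le_of_ne (h1 _).2 fun h8 => ?_)
      exact hbu z.1 (mCode.2 ((mem_sep iB).2 h8)) (mCode.2 hz)) (fun z hz => by
      obtain ⟨a, b, h8, h9⟩ := zt_floor (N := N) (kcomp hr) hε (f z)
      refine ⟨a, b, lt_of_le_of_ne h8 fun h10 => hz (mCode.1 (hau z.1 (mCode.2
        ((mem_sep iA).2 ?_)))), h9⟩
      rw [← h10]
      exact h3 a b)
  refine ⟨g, h5, h6, fun z w hzw => ?_⟩
  have h8 := (abs_lt.1 (h7 z w hzw)).2
  linarith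

/-- The set of the continuous functions to the natural numbers. -/
noncomputable def JJ (t x : N) : N :=
  code (M := N) (sep N fun g : IFun N (Plain.El x) (INat N) => CtN (Ox t) g)

omit [Field (Plain.El r)] [LinearOrder (Plain.El r)] [IsStrictOrderedRing (Plain.El r)] in
/-- Strongly zero-dimensional realcompact spaces are N-compact. -/
theorem nco_of_szd (ht : IsTopology t x) (hT : IsT1 t x) (hz : IsStronglyZeroDim t x)
    (hrc : IsRealcompact t x) : IsNCompact t x := by
  have hS := spoX ht
  have iO := int_Ox (t := t) (x := x)
  rw [← xsX ht, ← tsX ht] at hrc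
  obtain ⟨r, i1, i2, i3, hr, j, F, hF, hFc, hFcl, hFs⟩ := rco_unfold hS hrc
  letI : IAdd N (Plain.El r) := ⟨int_addR hr⟩
  letI : ILE N (Plain.El r) := ⟨int_leR hr⟩
  have iC : Int N (fun g : IFun N (Plain.El x) (INat N) => CtN (Ox t) g) := by
    unfold CtN
    (repeat' (first | with_reducible exact IntF.id | with_reducible exact IntF.fst' | with_reducible exact IntF.snd' | with_reducible exact IntF.const _ | with_reducible exact Int.const _ | assumption | with_reducible apply Int.and | with_reducible apply Int.or | with_reducible apply Int.not | with_reducible apply Int.imp | with_reducible apply Int.iff | with_reducible apply Int.ne | with_reducible apply Int.eq | with_reducible apply Int.mem | with_reducible apply Int.subset | with_reducible apply Int.ltN | with_reducible apply Int.leN | with_reducible_and_instances apply Int.le | with_reducible_and_instances apply Int.lt | with_reducible apply Int.all | with_reducible apply Int.ex | with_reducible apply IntF.fst | with_reducible apply IntF.snd | with_reducible apply IntF.app | with_reducible apply IntF.inl | with_reducible apply IntF.inr | with_reducible_and_instances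 apply IntF.mul | with_reducible_and_instances apply IntF.inv | with_reducible_and_instances apply IntF.add | with_reducible_and_instances apply IntF.sub | with_reducible_and_instances apply IntF.neg | with_reducible_and_instances apply IntF.smul | with_reducible apply Int.fin | with_reducible apply IntF.sep | with_reducible apply IntF.lam | with_reducible apply IntF.insert | with_reducible apply IntF.singleton | with_reducible apply IntF.union | with_reducible apply IntF.iimage | with_reducible apply IntF.ite | with_reducible apply IntF.the | with_reducible apply IntF.irec | with_reducible apply IntF.succ | with_reducible apply IntF.val | with_reducible apply IntF.mk | (with_reducible refine Int.comp ?_ ?_; assumption) | (with_reducible refine Int.comp₂ ?_ ?_ ?_; assumption) | (with_reducible refine Int.comp₃ ?_ ?_ ?_ ?_; assumption) | (with_reducible refine Int.comp₄ ?_ ?_ ?_ ?_ ?_; assumption) | (with_reducible refine IntF.comp ?_ ?_; assumption) | (with_reducible refine IntF.comp₂ ?_ ?_ ?_; assumption) | (with_reducible refine IntF.comp₃ ?_ ?_ ?_ ?_; assumption) | with_reducible apply IntF.pair))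
  have hgex : ∀ i : Plain.El (JJ t x), ∃ g : IFun N (Plain.El x) (INat N), CtN (Ox t) g ∧ code g = i.1 := by
    intro i
    obtain ⟨g, h1, h2⟩ := mem_codeB.1 i.2
    exact ⟨g, (mem_sep iC).1 h1, h2⟩
  choose gg hg1 hg2 using hgex
  have hgs : ∀ g : IFun N (Plain.El x) (INat N), CtN (Ox t) g → ∃ i, gg i = g := by
    intro g hg
    refine ⟨⟨code g, mem_codeB'.2 ((mem_sep iC).2 hg)⟩, ITy.inj (M := N) ?_⟩
    exact hg2 _
  have igg : IntF N gg := by
    have h1 : Int N (fun q : Plain.El (JJ t x) × IFun N (Plain.El x) (INat N) => code (M := N) q.2 = code (M := N) q.1) := by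
      refine Int.of_D₂ (S := fun v => v 1 = v 0) ?_ fun p n => ?_
      · exact D.eqf (DF.var _) (DF.var _)
      · exact Iff.rfl
    refine IntF.of_rel (r := fun i g => code (M := N) g = code (M := N) i) h1 fun i g => ?_
    exact ⟨fun h => ITy.inj (M := N) ((hg2 i).trans h.symm), fun h => h ▸ hg2 i⟩
  have iG : IntF N (fun q : Plain.El (JJ t x) × Plain.El x => gg q.1 q.2) := by
    (repeat' (first | with_reducible exact IntF.id | with_reducible exact IntF.fst' | with_reducible exact IntF.snd' | with_reducible exact IntF.const _ | with_reducible exact Int.const _ | assumption | with_reducible apply Int.and | with_reducible apply Int.or | with_reducible apply Int.not | with_reducible apply Int.imp | with_reducible apply Int.iff | with_reducible apply Int.ne | with_reducible apply Int.eq | with_reducible apply Int.mem | with_reducible apply Int.subset | with_reducible apply Int.ltN | with_reducible apply Int.leN | with_reducible_and_instances apply Int.le | with_reducible_and_instances apply Int.lt | with_reducible apply Int.all | with_reducible apply Int.ex | with_reducible apply IntF.fst | with_reducible apply IntF.snd |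 with_reducible apply IntF.app | with_reducible apply IntF.inl | with_reducible apply IntF.inr | with_reducible_and_instances apply IntF.mul | with_reducible_and_instances apply IntF.inv | with_reducible_and_instances apply IntF.add | with_reducible_and_instances apply IntF.sub | with_reducible_and_instances apply IntF.neg | with_reducible_and_instances apply IntF.smul | with_reducible apply Int.fin | with_reducible apply IntF.sep | with_reducible apply IntF.lam | with_reducible apply IntF.insert | with_reducible apply IntF.singleton | with_reducible apply IntF.union | with_reducible apply IntF.iimage | with_reducible apply IntF.ite | with_reducible apply IntF.the | with_reducible apply IntF.irec | with_reducible apply IntF.succ | with_reducible apply IntF.val | with_reducible apply IntF.mk | (with_reducible refine Int.comp ?_ ?_; assumption) | (with_reducible refine Int.comp₂ ?_ ?_ ?_; assumption) | (with_reducible refine Int.comp₃ ?_ ?_ ?_ ?_; assumption) | (with_reducible refine Int.comp₄ ?_ ?_ ?_ ?_ ?_; assumption) | (with_reducible refine IntF.comp ?_ ?_; assumption) | (with_reducible refine IntF.comp₂ ?_ ?_ ?_; assumption)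 | (with_reducible refine IntF.comp₃ ?_ ?_ ?_ ?_; assumption) | with_reducible apply IntF.pair))
  have hc : ∀ i, CtK (Ox t) fun z => F (i, z) := fun i z ε hε => hFc i z trivial ε hε
  have hkey : ∀ i, ∀ ε : Plain.El r, 0 < ε → ∃ g, ∀ z w, gg g z = gg g w →
      F (i, z) < F (i, w) + ε := by
    intro i ε hε
    obtain ⟨g, h1, h2, h3⟩ := exists_g hr ht hz (f := fun z => F (i, z)) (by (repeat' (first | with_reducible exact IntF.id | with_reducible exact IntF.fst' | with_reducible exact IntF.snd' | with_reducible exact IntF.const _ | with_reducible exact Int.const _ | assumption | with_reducible apply Int.and | with_reducible apply Int.or | with_reducible apply Int.not | with_reducible apply Int.imp | with_reducible apply Int.iff | with_reducible apply Int.ne | with_reducible apply Int.eq | with_reducible apply Int.mem | with_reducible apply Int.subset | with_reducible apply Int.ltN | with_reducible apply Int.leN | with_reducible_and_instances apply Int.le | with_reducible_and_instances apply Int.lt | with_reducible apply Int.all | with_reducible apply Int.ex | with_reducible apply IntF.fst | with_reducible apply IntF.snd |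 with_reducible apply IntF.app | with_reducible apply IntF.inl | with_reducible apply IntF.inr | with_reducible_and_instances apply IntF.mul | with_reducible_and_instances apply IntF.inv | with_reducible_and_instances apply IntF.add | with_reducible_and_instances apply IntF.sub | with_reducible_and_instances apply IntF.neg | with_reducible_and_instances apply IntF.smul | with_reducible apply Int.fin | with_reducible apply IntF.sep | with_reducible apply IntF.lam | with_reducible apply IntF.insert | with_reducible apply IntF.singleton | with_reducible apply IntF.union | with_reducible apply IntF.iimage | with_reducible apply IntF.ite | with_reducible apply IntF.the | with_reducible apply IntF.irec | with_reducible apply IntF.succ | with_reducible apply IntF.val | with_reducible apply IntF.mk | (with_reducible refine Int.comp ?_ ?_; assumption) | (with_reducible refine Int.comp₂ ?_ ?_ ?_; assumption) | (with_reducible refine Int.comp₃ ?_ ?_ ?_ ?_; assumption) | (with_reducible refine Int.comp₄ ?_ ?_ ?_ ?_ ?_; assumption) | (with_reducible refine IntF.comp ?_ ?_; assumption) | (with_reducible refine IntF.comp₂ ?_ ?_ ?_; assumption)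 | (with_reducible refine IntF.comp₃ ?_ ?_ ?_ ?_; assumption) | with_reducible apply IntF.pair))) (hc i) hε
    obtain ⟨g', hg'⟩ := hgs ⟨g, h1⟩ h2
    refine ⟨g', fun z w h => h3 z w ?_⟩
    rw [hg'] at h
    exact h
  have hfin : ∀ S : IPow N (Plain.El j), IFin S → ∀ ε : Plain.El r, 0 < ε →
      ∃ T : IPow N (Plain.El (JJ t x)), IFin T ∧ ∀ i, i ∈ S → ∃ g, g ∈ T ∧
        ∀ z w, gg g z = gg g w → F (i, z) < F (i, w) + ε := by
    intro S hSf ε hε
    refine IFin.ind (p := fun S : IPow N (Plain.El j) => ∃ T : IPow N (Plain.El (JJ t x)),
      IFin T ∧ ∀ i, i ∈ S → ∃ g, g ∈ T ∧ ∀ z w, gg g z = gg g w → F (i, z) < F (i, w) + ε) (by (repeat' (first | with_reducible exact IntF.id | with_reducible exact IntF.fst' | with_reducible exact IntF.snd' | with_reducible exact IntF.const _ | with_reducible exact Int.const _ | assumption | with_reducible apply Int.and | with_reducible apply Int.or | with_reducible apply Int.not | with_reducible apply Int.imp | with_reducible apply Int.iff | with_reducible apply Int.ne | with_reducible apply Int.eq | with_reducible apply Int.mem | with_reducible apply Int.subset | with_reducible apply Int.ltN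 | with_reducible apply Int.leN | with_reducible_and_instances apply Int.le | with_reducible_and_instances apply Int.lt | with_reducible apply Int.all | with_reducible apply Int.ex | with_reducible apply IntF.fst | with_reducible apply IntF.snd | with_reducible apply IntF.app | with_reducible apply IntF.inl | with_reducible apply IntF.inr | with_reducible_and_instances apply IntF.mul | with_reducible_and_instances apply IntF.inv | with_reducible_and_instances apply IntF.add | with_reducible_and_instances apply IntF.sub | with_reducible_and_instances apply IntF.neg | with_reducible_and_instances apply IntF.smul | with_reducible apply Int.fin | with_reducible apply IntF.sep | with_reducible apply IntF.lam | with_reducible apply IntF.insert | with_reducible apply IntF.singleton | with_reducible apply IntF.union | with_reducible apply IntF.iimage | with_reducible apply IntF.ite | with_reducible apply IntF.the | with_reducible apply IntF.irec | with_reducible apply IntF.succ | with_reducible apply IntF.val | with_reducible apply IntF.mk | (with_reducible refine Int.comp ?_ ?_; assumption) | (with_reducible refine Int.comp₂ ?_ ?_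 ?_; assumption) | (with_reducible refine Int.comp₃ ?_ ?_ ?_ ?_; assumption) | (with_reducible refine Int.comp₄ ?_ ?_ ?_ ?_ ?_; assumption) | (with_reducible refine IntF.comp ?_ ?_; assumption) | (with_reducible refine IntF.comp₂ ?_ ?_ ?_; assumption) | (with_reducible refine IntF.comp₃ ?_ ?_ ?_ ?_; assumption) | with_reducible apply IntF.pair))) ?_ ?_ S hSf
    · exact ⟨∅, IFin.empty, fun i hi => absurd hi (by simp)⟩
    · rintro S i - - ⟨T, k1, k2⟩
      obtain ⟨g, hg⟩ := hkey i ε hε
      refine ⟨insert g T, k1.insert g, fun i' hi' => ?_⟩
      rcases mem_insert.1 hi' with rfl | hi'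
      · exact ⟨g, by simp, hg⟩
      · obtain ⟨g', k3, k4⟩ := k2 i' hi'
        exact ⟨g', mem_insert.2 (Or.inr k3), k4⟩
  have hmain := nco_fold (F := fun q : Plain.El (JJ t x) × Plain.El x => gg q.1 q.2) iG hS ?_ ?_ ?_ ?_ ?_
  · rwa [xsX ht, tsX ht] at hmain
  · obtain ⟨i, -⟩ := hgs ⟨fun _ => 0, IntF.const 0⟩ fun z => ⟨sep N fun _ => True,
      hS.univ _ fun s => mem_sep hS.iP, (mem_sep hS.iP).2 trivial, fun w _ => rfl⟩
    exact ⟨i.1, i.2⟩
  · intro z w _ _ hzw
    obtain ⟨u, h1, h2, h3⟩ := hT z.1 w.1 z.2 w.2 fun h => hzw (Subtype.ext h)
    obtain ⟨U, rfl⟩ := exCode (ht.sub u h1)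
    exact ⟨U, h1, mCode.1 h2, fun h => h3 (mCode.2 h)⟩
  · intro i z _
    exact hg1 i z
  · intro p hp hpf
    have two : ∀ g g', ∃ z, gg g z = p g ∧ gg g' z = p g' := by
      intro g g'
      obtain ⟨z, -, h1⟩ := hpf (insert g {g'}) ((IFin.singleton g').insert g)
      exact ⟨z, h1 g (by simp), h1 g' (by simp)⟩
    have hrr : ∀ i, ∃ c : Plain.El r, (∀ s, (∃ g, ∀ z, gg g z = p g → s ≤ F (i, z)) → s ≤ c) ∧
        ∀ b, (∀ s, (∃ g, ∀ z, gg g z = p g → s ≤ F (i, z)) → s ≤ b) → c ≤ b := by
      intro i
      have iL : Int N (fun s : Plain.El r => ∃ g, ∀ z, gg g z = p g → s ≤ F (i, z)) := by (repeat' (first | with_reducible exact IntF.id | with_reducible exact IntF.fst' | with_reducible exact IntF.snd' | with_reducible exact IntF.const _ | with_reducible exact Int.const _ | assumption | with_reducible apply Int.and | with_reducible apply Int.or | with_reducible apply Int.not | with_reducible apply Int.imp | with_reducible apply Int.iff | with_reducible apply Int.ne | with_reducible apply Int.eq | with_reducible apply Int.mem | with_reducible apply Int.subset | with_reducible apply Int.ltN | with_reducible apply Int.leN | with_reducible_and_instances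 apply Int.le | with_reducible_and_instances apply Int.lt | with_reducible apply Int.all | with_reducible apply Int.ex | with_reducible apply IntF.fst | with_reducible apply IntF.snd | with_reducible apply IntF.app | with_reducible apply IntF.inl | with_reducible apply IntF.inr | with_reducible_and_instances apply IntF.mul | with_reducible_and_instances apply IntF.inv | with_reducible_and_instances apply IntF.add | with_reducible_and_instances apply IntF.sub | with_reducible_and_instances apply IntF.neg | with_reducible_and_instances apply IntF.smul | with_reducible apply Int.fin | with_reducible apply IntF.sep | with_reducible apply IntF.lam | with_reducible apply IntF.insert | with_reducible apply IntF.singleton | with_reducible apply IntF.union | with_reducible apply IntF.iimage | with_reducible apply IntF.ite | with_reducible apply IntF.the | with_reducible apply IntF.irec | with_reducible apply IntF.succ | with_reducible apply IntF.val | with_reducible apply IntF.mk | (with_reducible refine Int.comp ?_ ?_; assumption) | (with_reducible refine Int.comp₂ ?_ ?_ ?_; assumption) | (with_reducible refine Int.comp₃ ?_ ?_ ?_ ?_;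 assumption) | (with_reducible refine Int.comp₄ ?_ ?_ ?_ ?_ ?_; assumption) | (with_reducible refine IntF.comp ?_ ?_; assumption) | (with_reducible refine IntF.comp₂ ?_ ?_ ?_; assumption) | (with_reducible refine IntF.comp₃ ?_ ?_ ?_ ?_; assumption) | with_reducible apply IntF.pair))
      obtain ⟨g, hg⟩ := hkey i 1 one_pos
      obtain ⟨z, hz1, -⟩ := two g g
      obtain ⟨c, h1, h2⟩ := kcomp hr (⟨_, iL⟩ : IPow N (Plain.El r))
        ⟨F (i, z) - 1, g, fun w hw => by
          have h3 := hg z w (hz1.trans hw.symm)
          linarith⟩ ⟨F (i, z) + 1, by
          rintro s ⟨g', hg'⟩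
          obtain ⟨w, hw1, hw2⟩ := two g g'
          have h3 := hg w z (hw1.trans hz1.symm)
          have h4 := hg' w hw2
          linarith⟩
      exact ⟨c, fun s hs => h1 s hs, fun b hb => h2 b fun s hs => hb s hs⟩
    choose ρ hρ1 hρ2 using hrr
    have iρ : IntF N ρ := by
      refine IntF.of_rel (r := fun i c => (∀ s, (∃ g, ∀ z, gg g z = p g → s ≤ F (i, z)) → s ≤ c) ∧
        ∀ b, (∀ s, (∃ g, ∀ z, gg g z = p g → s ≤ F (i, z)) → s ≤ b) → c ≤ b) (by (repeat' (first | with_reducible exact IntF.id | with_reducible exact IntF.fst' | with_reducible exact IntF.snd' | with_reducible exact IntF.const _ | with_reducible exact Int.const _ | assumption | with_reducible apply Int.and | with_reducible apply Int.or | with_reducible apply Int.not | with_reducible apply Int.imp | with_reducible apply Int.iff | with_reducible apply Int.ne | with_reducible apply Int.eq | with_reducible apply Int.mem | with_reducible apply Int.subset | with_reducible apply Int.ltN | with_reducible apply Int.leN | with_reducible_and_instances apply Int.le | with_reducible_and_instances apply Int.lt | with_reducible apply Int.all | with_reducible apply Int.ex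 | with_reducible apply IntF.fst | with_reducible apply IntF.snd | with_reducible apply IntF.app | with_reducible apply IntF.inl | with_reducible apply IntF.inr | with_reducible_and_instances apply IntF.mul | with_reducible_and_instances apply IntF.inv | with_reducible_and_instances apply IntF.add | with_reducible_and_instances apply IntF.sub | with_reducible_and_instances apply IntF.neg | with_reducible_and_instances apply IntF.smul | with_reducible apply Int.fin | with_reducible apply IntF.sep | with_reducible apply IntF.lam | with_reducible apply IntF.insert | with_reducible apply IntF.singleton | with_reducible apply IntF.union | with_reducible apply IntF.iimage | with_reducible apply IntF.ite | with_reducible apply IntF.the | with_reducible apply IntF.irec | with_reducible apply IntF.succ | with_reducible apply IntF.val | with_reducible apply IntF.mk | (with_reducible refine Int.comp ?_ ?_; assumption) | (with_reducible refine Int.comp₂ ?_ ?_ ?_; assumption) | (with_reducible refine Int.comp₃ ?_ ?_ ?_ ?_; assumption) | (with_reducible refine Int.comp₄ ?_ ?_ ?_ ?_ ?_; assumption) | (with_reducible refine IntF.comp ?_ ?_;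 assumption) | (with_reducible refine IntF.comp₂ ?_ ?_ ?_; assumption) | (with_reducible refine IntF.comp₃ ?_ ?_ ?_ ?_; assumption) | with_reducible apply IntF.pair)))
        fun i c => ⟨fun h => le_antisymm (hρ2 i _ h.1) (h.2 _ (hρ1 i)), fun h => h ▸
          ⟨hρ1 i, hρ2 i⟩⟩
    have star : ∀ i g, ∀ ε : Plain.El r, (∀ z w, gg g z = gg g w → F (i, z) < F (i, w) + ε) →
        ∀ z, gg g z = p g → F (i, z) - ε ≤ ρ i ∧ ρ i ≤ F (i, z) + ε := by
      intro i g ε hg z hz1
      constructor
      · refine hρ1 i _ ⟨g, fun w hw => ?_⟩
        have h3 := hg z w (hz1.trans hw.symm)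
        linarith
      · refine hρ2 i _ ?_
        rintro s ⟨g', hg'⟩
        obtain ⟨w, hw1, hw2⟩ := two g g'
        have h3 := hg w z (hw1.trans hz1.symm)
        have h4 := hg' w hw2
        linarith
    obtain ⟨z, -, hzr⟩ := hFcl ρ iρ fun S hSf ε hε => by
      obtain ⟨T, k1, k2⟩ := hfin S hSf (ε / 2) (half_pos hε)
      obtain ⟨z, -, h1⟩ := hpf T k1
      refine ⟨z, trivial, fun i hi => ?_⟩
      obtain ⟨g, k3, k4⟩ := k2 i hi
      have h2 := star i g (ε / 2) k4 z (h1 g k3)
      have h3 := half_lt_self hε
      rw [abs_lt]
      constructor <;> linarith [h2.1, h2.2]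
    refine ⟨z, trivial, fun g => ?_⟩
    obtain ⟨U, hU, hzU, hUc⟩ := hg1 g z
    obtain ⟨S, hSf, ε, hε, h1⟩ := hFs U z hU hzU
    obtain ⟨T, k1, k2⟩ := hfin S hSf (ε / 2) (half_pos hε)
    obtain ⟨w, -, h2⟩ := hpf (insert g T) (k1.insert g)
    have h3 : w ∈ U := h1 w trivial fun i hi => by
      obtain ⟨g', k3, k4⟩ := k2 i hi
      have h4 := star i g' (ε / 2) k4 w (h2 g' (mem_insert.2 (Or.inr k3)))
      have h5 := half_lt_self hε
      rw [hzr i, abs_lt]
      constructor <;> linarith [h4.1, h4.2]
    exact (hUc w h3).symm.trans (h2 g (by simp))
  · intro U z hU hzU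
    obtain ⟨S, hSf, ε, hε, h1⟩ := hFs U z hU hzU
    obtain ⟨T, k1, k2⟩ := hfin S hSf ε hε
    refine ⟨T, k1, fun w _ hw => h1 w trivial fun i hi => ?_⟩
    obtain ⟨g, k3, k4⟩ := k2 i hi
    have h2 := k4 w z (hw g k3)
    have h3 := k4 z w (hw g k3).symm
    rw [abs_lt]
    constructor <;> linarith

end

end Pool.Agent.Helper672.ZFA.V257
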