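import Pool.Agent.V11246.CdDefs

/-!
# P-spaces and products in a structure for the language of set theory: definitions

`Mem` and `LSet` are from `Pool.Agent.Helper672.SIK.Plain`, `App` and `IsProd` from
`Pool.Agent.H310R3.Cards`, `IsTopology` from `Pool.Agent.H310R3.TopDefs`, and `IsCtble` from
`Pool.Agent.V11246.CdDefs`.
-/

namespace Pool.Agent.V11257H

open FirstOrder FirstOrder.Language
open Pool.Agent.Helper672.Plain (LSet Mem)
open Pool.Agent.H310Cards
open Pool.Agent.H310Top (IsTopology)
open Pool.Agent.V11246 (IsCtble)

universe u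

variable {M : Type u} [LSet.Structure M]

/-- `g` is a G-delta-set: the intersection of a nonempty countable family of open sets. -/
def IsGdelta (t g : M) : Prop :=
  ∃ c, IsCtble c ∧ (∃ u, Mem u c) ∧ (∀ u, Mem u c → Mem u t) ∧
    ∀ z, Mem z g ↔ ∀ u, Mem u c → Mem z u

/-- `a` is a P-point: every G-delta-set that contains `a` contains `a` in its interior. -/
def IsPPoint (t a : M) : Prop :=
  ∀ g, IsGdelta t g → Mem a g → ∃ u, Mem u t ∧ Mem a u ∧ ∀ z, Mem z u → Mem z g

/-- The space `x` with the topology `t` is a P-space: every point is a P-point. -/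
def IsPSpace (t x : M) : Prop := ∀ a, Mem a x → IsPPoint t a

/-- `s` is the product topology on the product `p` of two spaces with the topologies `t` and `t'`:
a subset `w` of `p` is open if and only if for every pair `(a, b)` in `w` there are open sets `u`
and `v` with `a` in `u` and `b` in `v` such that all pairs `(c, d)` with `c` in `u` and `d` in `v`
are in `w`. -/
def IsProdTop (s p t t' : M) : Prop :=
  ∀ w, Mem w s ↔ (∀ q, Mem q w → Mem q p) ∧
    ∀ a b, App w a b → ∃ u v, Mem u t ∧ Mem v t' ∧ Mem a u ∧ Mem b v ∧
      ∀ c d, Mem c u → Mem d v → App w c d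

variable (M) in
/-- The product of every two P-spaces is a P-space. -/
def PPP : Prop :=
  ∀ x t y t' p s : M, IsTopology t x → IsTopology t' y → IsPSpace t x → IsPSpace t' y →
    IsProd p x y → IsProdTop s p t t' → IsPSpace s p

end Pool.Agent.V11257H
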