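import Pool.Agent.V11257.Mg4
import Pool.Agent.V11257.MgDefs
import Pool.Agent.V11246.NcoR

/-!
# Two P-spaces whose product is not a P-space
-/

set_option maxHeartbeats 1000000
set_option linter.all false
set_option synthInstance.maxSize 2000

namespace Pool.Agent.V11257H

open FirstOrder FirstOrder.Language
open Pool.Agent.Helper672
open Pool.Agent.Helper672.ZFA
open Pool.Agent.Helper672.ZFA.V246
open Pool.Agent.Helper672.Plain (LSet)
open Pool.Agent.H310
open Pool.Agent.H310Cards
open Pool.Agent.H310Top (IsTopology)
open Pool.Agent.V11246

universe u

section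

attribute [local instance] Helper672.Plain.toL

variable {N : Type u} [LSet.Structure N] [hZ : Helper672.Plain.Zermelo N]

local instance instModelMg : IsModel N := Helper672.Plain.isModel_toL

variable {α : Type u} [ITy N α]

/-- The points of the spaces. -/
def Pt (p : INat N ⊕ α) : Prop := p = Sum.inl 0 ∨ ∃ a, p = Sum.inr a

/-- The open sets of the spaces. -/
def Op (I : IPow N α → Prop) (U : IPow N (INat N ⊕ α)) : Prop :=
  (∀ p, p ∈ U → Pt p) ∧ (Sum.inl 0 ∈ U → ∃ S, I S ∧ ∀ a, a ∉ S → Sum.inr a ∈ U)

theorem int_Pt : Int N (Pt (N := N) (α := α)) := by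
  unfold Pt
  (repeat' (first | with_reducible exact IntF.id | with_reducible exact IntF.fst' | with_reducible exact IntF.snd' | with_reducible exact IntF.const _ | with_reducible exact Int.const _ | assumption | with_reducible apply Int.and | with_reducible apply Int.or | with_reducible apply Int.not | with_reducible apply Int.imp | with_reducible apply Int.iff | with_reducible apply Int.ne | with_reducible apply Int.eq | with_reducible apply Int.mem | with_reducible apply Int.subset | with_reducible apply Int.ltN | with_reducible apply Int.leN | with_reducible_and_instances apply Int.le | with_reducible_and_instances apply Int.lt | with_reducible apply Int.all | with_reducible apply Int.ex | with_reducible apply IntF.fst | with_reducible apply IntF.snd | with_reducible apply IntF.app | with_reducible apply IntF.inl | with_reducible apply IntF.inr | with_reducible_and_instances apply IntF.mul | with_reducible_and_instances apply IntF.inv | with_reducible_and_instances apply IntF.add | with_reducible_and_instances apply IntF.sub | with_reducible_and_instances apply IntF.neg | with_reducible_and_instances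 apply IntF.smul | with_reducible apply Int.fin | with_reducible apply IntF.sep | with_reducible apply IntF.lam | with_reducible apply IntF.insert | with_reducible apply IntF.singleton | with_reducible apply IntF.union | with_reducible apply IntF.iimage | with_reducible apply IntF.ite | with_reducible apply IntF.the | with_reducible apply IntF.irec | with_reducible apply IntF.succ | with_reducible apply IntF.val | with_reducible apply IntF.mk | (with_reducible refine Int.comp ?_ ?_; assumption) | (with_reducible refine Int.comp₂ ?_ ?_ ?_; assumption) | (with_reducible refine Int.comp₃ ?_ ?_ ?_ ?_; assumption) | (with_reducible refine Int.comp₄ ?_ ?_ ?_ ?_ ?_; assumption) | (with_reducible refine IntF.comp ?_ ?_; assumption) | (with_reducible refine IntF.comp₂ ?_ ?_ ?_; assumption) | (with_reducible refine IntF.comp₃ ?_ ?_ ?_ ?_; assumption) | with_reducible apply IntF.pair))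

theorem int_Op {I : IPow N α → Prop} (hI : Int N I) : Int N (Op I) := by
  unfold Op Pt
  (repeat' (first | with_reducible exact IntF.id | with_reducible exact IntF.fst' | with_reducible exact IntF.snd' | with_reducible exact IntF.const _ | with_reducible exact Int.const _ | assumption | with_reducible apply Int.and | with_reducible apply Int.or | with_reducible apply Int.not | with_reducible apply Int.imp | with_reducible apply Int.iff | with_reducible apply Int.ne | with_reducible apply Int.eq | with_reducible apply Int.mem | with_reducible apply Int.subset | with_reducible apply Int.ltN | with_reducible apply Int.leN | with_reducible_and_instances apply Int.le | with_reducible_and_instances apply Int.lt | with_reducible apply Int.all | with_reducible apply Int.ex | with_reducible apply IntF.fst | with_reducible apply IntF.snd | with_reducible apply IntF.app | with_reducible apply IntF.inl | with_reducible apply IntF.inr | with_reducible_and_instances apply IntF.mul | with_reducible_and_instances apply IntF.inv | with_reducible_and_instances apply IntF.add | with_reducible_and_instances apply IntF.sub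 | with_reducible_and_instances apply IntF.neg | with_reducible_and_instances apply IntF.smul | with_reducible apply Int.fin | with_reducible apply IntF.sep | with_reducible apply IntF.lam | with_reducible apply IntF.insert | with_reducible apply IntF.singleton | with_reducible apply IntF.union | with_reducible apply IntF.iimage | with_reducible apply IntF.ite | with_reducible apply IntF.the | with_reducible apply IntF.irec | with_reducible apply IntF.succ | with_reducible apply IntF.val | with_reducible apply IntF.mk | (with_reducible refine Int.comp ?_ ?_; assumption) | (with_reducible refine Int.comp₂ ?_ ?_ ?_; assumption) | (with_reducible refine Int.comp₃ ?_ ?_ ?_ ?_; assumption) | (with_reducible refine Int.comp₄ ?_ ?_ ?_ ?_ ?_; assumption) | (with_reducible refine IntF.comp ?_ ?_; assumption) | (with_reducible refine IntF.comp₂ ?_ ?_ ?_; assumption) | (with_reducible refine IntF.comp₃ ?_ ?_ ?_ ?_; assumption) | with_reducible apply IntF.pair))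

/-- The properties of one ideal. -/
structure Sid (I : IPow N α → Prop) : Prop where
  int : Int N I
  emp : I ∅
  sing : ∀ a, I {a}
  sub : ∀ S T : IPow N α, I T → (∀ a, a ∈ S → a ∈ T) → I S
  un : ∀ S T : IPow N α, I S → I T → I (S ∪ T)
  sig : ∀ W : α × INat N → Prop, Int N W → (∀ n, I (sep N fun a => W (a, n))) →
    I (sep N fun a => ∃ n, W (a, n))

variable {I : IPow N α → Prop} (h : Sid I)

include h

theorem spo : SpO N (Pt (N := N) (α := α)) (Op I) := by
  have hI := h.int
  refine ⟨int_Pt, int_Op hI, fun U hU => hU.1, fun U hU => ?_, fun U V W hU hV hW => ?_,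
    fun c W hc hW => ?_⟩
  · exact ⟨fun p hp => (hU p).1 hp, fun _ => ⟨∅, h.emp, fun a _ => (hU _).2 (Or.inr ⟨a, rfl⟩)⟩⟩
  · refine ⟨fun p hp => hU.1 p ((hW p).1 hp).1, fun h0 => ?_⟩
    obtain ⟨S, hS, h1⟩ := hU.2 ((hW _).1 h0).1
    obtain ⟨T, hT, h2⟩ := hV.2 ((hW _).1 h0).2
    refine ⟨S ∪ T, h.un _ _ hS hT, fun a ha => (hW _).2 ⟨h1 a fun h3 => ha ?_,
      h2 a fun h3 => ha ?_⟩⟩
    · exact mem_union.2 (Or.inl h3)
    · exact mem_union.2 (Or.inr h3)
  · refine ⟨fun p hp => ?_, fun h0 => ?_⟩
    · obtain ⟨U, h1, h2⟩ := (hW p).1 hp
      exact (hc U h1).1 p h2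
    · obtain ⟨U, h1, h2⟩ := (hW _).1 h0
      obtain ⟨S, hS, h3⟩ := (hc U h1).2 h2
      exact ⟨S, hS, fun a ha => (hW _).2 ⟨U, h1, h3 a ha⟩⟩

/-- The singletons of the points of the ideal are open. -/
theorem op_sing (a : α) : Op I ({Sum.inr a} : IPow N (INat N ⊕ α)) := by
  refine ⟨fun p hp => Or.inr ⟨a, mem_singleton.1 hp⟩, fun h0 => ?_⟩
  exact absurd (mem_singleton.1 h0) (by simp)

/-- The complements of the sets of the ideal. -/
noncomputable def Cm (S : IPow N α) : IPow N (INat N ⊕ α) :=
  sep N fun p => p = Sum.inl 0 ∨ ∃ a, p = Sum.inr a ∧ a ∉ S

omit h in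
theorem mem_Cm {S : IPow N α} {p : INat N ⊕ α} :
    p ∈ Cm S ↔ p = Sum.inl 0 ∨ ∃ a, p = Sum.inr a ∧ a ∉ S := mem_sep (by (repeat' (first | with_reducible exact IntF.id | with_reducible exact IntF.fst' | with_reducible exact IntF.snd' | with_reducible exact IntF.const _ | with_reducible exact Int.const _ | assumption | with_reducible apply Int.and | with_reducible apply Int.or | with_reducible apply Int.not | with_reducible apply Int.imp | with_reducible apply Int.iff | with_reducible apply Int.ne | with_reducible apply Int.eq | with_reducible apply Int.mem | with_reducible apply Int.subset | with_reducible apply Int.ltN | with_reducible apply Int.leN | with_reducible_and_instances apply Int.le | with_reducible_and_instances apply Int.lt | with_reducible apply Int.all | with_reducible apply Int.ex | with_reducible apply IntF.fst | with_reducible apply IntF.snd | with_reducible apply IntF.app | with_reducible apply IntF.inl | with_reducible apply IntF.inr | with_reducible_and_instances apply IntF.mul | with_reducible_and_instances apply IntF.inv | with_reducible_and_instances apply IntF.add | with_reducible_and_instances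 apply IntF.sub | with_reducible_and_instances apply IntF.neg | with_reducible_and_instances apply IntF.smul | with_reducible apply Int.fin | with_reducible apply IntF.sep | with_reducible apply IntF.lam | with_reducible apply IntF.insert | with_reducible apply IntF.singleton | with_reducible apply IntF.union | with_reducible apply IntF.iimage | with_reducible apply IntF.ite | with_reducible apply IntF.the | with_reducible apply IntF.irec | with_reducible apply IntF.succ | with_reducible apply IntF.val | with_reducible apply IntF.mk | (with_reducible refine Int.comp ?_ ?_; assumption) | (with_reducible refine Int.comp₂ ?_ ?_ ?_; assumption) | (with_reducible refine Int.comp₃ ?_ ?_ ?_ ?_; assumption) | (with_reducible refine Int.comp₄ ?_ ?_ ?_ ?_ ?_; assumption) | (with_reducible refine IntF.comp ?_ ?_; assumption) | (with_reducible refine IntF.comp₂ ?_ ?_ ?_; assumption) | (with_reducible refine IntF.comp₃ ?_ ?_ ?_ ?_; assumption) | with_reducible apply IntF.pair)))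

omit h in
theorem op_Cm {S : IPow N α} (hS : I S) : Op I (Cm S) := by
  refine ⟨fun p hp => ?_, fun _ => ⟨S, hS, fun a ha => mem_Cm.2 (Or.inr ⟨a, rfl, ha⟩)⟩⟩
  rcases mem_Cm.1 hp with h1 | ⟨a, h1, h2⟩
  · exact Or.inl h1
  · exact Or.inr ⟨a, h1⟩

/-- The spaces are P-spaces. -/
theorem isPSpace_ts : IsPSpace (ts (Op I)) (xs (N := N) (Pt (N := N) (α := α))) := by
  have hO := spo h
  intro z hz g hg hzg
  obtain ⟨p, hp, rfl⟩ := (mem_xs hO).1 hz
  obtain ⟨c, hc, ⟨u₀, hu₀⟩, hct, hgc⟩ := hg
  obtain ⟨C, rfl, hC⟩ := exists_fam hO hct
  rcases hp with rfl | ⟨a, rfl⟩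
  · obtain ⟨e, he, hinj⟩ := isCtble_iff.1 hc
    have hI := h.int
    have iW : Int N (fun q : α × INat N => ∃ U, U ∈ C ∧ e U = q.2 ∧
        (Sum.inr q.1 : INat N ⊕ α) ∉ U) := by (repeat' (first | with_reducible exact IntF.id | with_reducible exact IntF.fst' | with_reducible exact IntF.snd' | with_reducible exact IntF.const _ | with_reducible exact Int.const _ | assumption | with_reducible apply Int.and | with_reducible apply Int.or | with_reducible apply Int.not | with_reducible apply Int.imp | with_reducible apply Int.iff | with_reducible apply Int.ne | with_reducible apply Int.eq | with_reducible apply Int.mem | with_reducible apply Int.subset | with_reducible apply Int.ltN | with_reducible apply Int.leN | with_reducible_and_instances apply Int.le | with_reducible_and_instances apply Int.lt | with_reducible apply Int.all | with_reducible apply Int.ex | with_reducible apply IntF.fst | with_reducible apply IntF.snd | with_reducible apply IntF.app | with_reducible apply IntF.inl | with_reducible apply IntF.inr | with_reducible_and_instances apply IntF.mul | with_reducible_and_instances apply IntF.inv |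 with_reducible_and_instances apply IntF.add | with_reducible_and_instances apply IntF.sub | with_reducible_and_instances apply IntF.neg | with_reducible_and_instances apply IntF.smul | with_reducible apply Int.fin | with_reducible apply IntF.sep | with_reducible apply IntF.lam | with_reducible apply IntF.insert | with_reducible apply IntF.singleton | with_reducible apply IntF.union | with_reducible apply IntF.iimage | with_reducible apply IntF.ite | with_reducible apply IntF.the | with_reducible apply IntF.irec | with_reducible apply IntF.succ | with_reducible apply IntF.val | with_reducible apply IntF.mk | (with_reducible refine Int.comp ?_ ?_; assumption) | (with_reducible refine Int.comp₂ ?_ ?_ ?_; assumption) | (with_reducible refine Int.comp₃ ?_ ?_ ?_ ?_; assumption) | (with_reducible refine Int.comp₄ ?_ ?_ ?_ ?_ ?_; assumption) | (with_reducible refine IntF.comp ?_ ?_; assumption) | (with_reducible refine IntF.comp₂ ?_ ?_ ?_; assumption) | (with_reducible refine IntF.comp₃ ?_ ?_ ?_ ?_; assumption) | with_reducible apply IntF.pair))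
    have h1 := h.sig _ iW fun n => ?_
    · refine ⟨_, (mem_ts' hO).2 (op_Cm h1), mem_codeB'.2 (mem_Cm.2 (Or.inl rfl)), fun y hy => ?_⟩
      obtain ⟨q, hq, rfl⟩ := mem_codeB.1 hy
      refine (hgc _).2 fun u hu => ?_
      rcases mem_Cm.1 hq with rfl | ⟨a, rfl, ha⟩
      · exact (hgc _).1 hzg u hu
      · obtain ⟨U, hU, rfl⟩ := mem_codeB.1 hu
        by_contra hcon
        refine ha ((mem_sep (by (repeat' (first | with_reducible exact IntF.id | with_reducible exact IntF.fst' | with_reducible exact IntF.snd' | with_reducible exact IntF.const _ | with_reducible exact Int.const _ | assumption | with_reducible apply Int.and | with_reducible apply Int.or | with_reducible apply Int.not | with_reducible apply Int.imp | with_reducible apply Int.iff | with_reducible apply Int.ne | with_reducible apply Int.eq | with_reducible apply Int.mem | with_reducible apply Int.subset | with_reducible apply Int.ltN | with_reducible apply Int.leN | with_reducible_and_instances apply Int.le | with_reducible_and_instances apply Int.lt | with_reducible apply Int.all | with_reducible apply Int.ex | with_reducible apply IntF.fst |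 with_reducible apply IntF.snd | with_reducible apply IntF.app | with_reducible apply IntF.inl | with_reducible apply IntF.inr | with_reducible_and_instances apply IntF.mul | with_reducible_and_instances apply IntF.inv | with_reducible_and_instances apply IntF.add | with_reducible_and_instances apply IntF.sub | with_reducible_and_instances apply IntF.neg | with_reducible_and_instances apply IntF.smul | with_reducible apply Int.fin | with_reducible apply IntF.sep | with_reducible apply IntF.lam | with_reducible apply IntF.insert | with_reducible apply IntF.singleton | with_reducible apply IntF.union | with_reducible apply IntF.iimage | with_reducible apply IntF.ite | with_reducible apply IntF.the | with_reducible apply IntF.irec | with_reducible apply IntF.succ | with_reducible apply IntF.val | with_reducible apply IntF.mk | (with_reducible refine Int.comp ?_ ?_; assumption) | (with_reducible refine Int.comp₂ ?_ ?_ ?_; assumption) | (with_reducible refine Int.comp₃ ?_ ?_ ?_ ?_; assumption) | (with_reducible refine Int.comp₄ ?_ ?_ ?_ ?_ ?_; assumption) | (with_reducible refine IntF.comp ?_ ?_; assumption) |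 (with_reducible refine IntF.comp₂ ?_ ?_ ?_; assumption) | (with_reducible refine IntF.comp₃ ?_ ?_ ?_ ?_; assumption) | with_reducible apply IntF.pair)))).2 ⟨e U, U, hU, rfl, fun h2 => hcon ?_⟩)
        exact mem_codeB'.2 h2
    · have iS : Int N (fun a : α => ∃ U, U ∈ C ∧ e U = n ∧ (Sum.inr a : INat N ⊕ α) ∉ U) := by (repeat' (first | with_reducible exact IntF.id | with_reducible exact IntF.fst' | with_reducible exact IntF.snd' | with_reducible exact IntF.const _ | with_reducible exact Int.const _ | assumption | with_reducible apply Int.and | with_reducible apply Int.or | with_reducible apply Int.not | with_reducible apply Int.imp | with_reducible apply Int.iff | with_reducible apply Int.ne | with_reducible apply Int.eq | with_reducible apply Int.mem | with_reducible apply Int.subset | with_reducible apply Int.ltN | with_reducible apply Int.leN | with_reducible_and_instances apply Int.le | with_reducible_and_instances apply Int.lt | with_reducible apply Int.all | with_reducible apply Int.ex | with_reducible apply IntF.fst | with_reducible apply IntF.snd | with_reducible apply IntF.app | with_reducible apply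 IntF.inl | with_reducible apply IntF.inr | with_reducible_and_instances apply IntF.mul | with_reducible_and_instances apply IntF.inv | with_reducible_and_instances apply IntF.add | with_reducible_and_instances apply IntF.sub | with_reducible_and_instances apply IntF.neg | with_reducible_and_instances apply IntF.smul | with_reducible apply Int.fin | with_reducible apply IntF.sep | with_reducible apply IntF.lam | with_reducible apply IntF.insert | with_reducible apply IntF.singleton | with_reducible apply IntF.union | with_reducible apply IntF.iimage | with_reducible apply IntF.ite | with_reducible apply IntF.the | with_reducible apply IntF.irec | with_reducible apply IntF.succ | with_reducible apply IntF.val | with_reducible apply IntF.mk | (with_reducible refine Int.comp ?_ ?_; assumption) | (with_reducible refine Int.comp₂ ?_ ?_ ?_; assumption) | (with_reducible refine Int.comp₃ ?_ ?_ ?_ ?_; assumption) | (with_reducible refine Int.comp₄ ?_ ?_ ?_ ?_ ?_; assumption) | (with_reducible refine IntF.comp ?_ ?_; assumption) | (with_reducible refine IntF.comp₂ ?_ ?_ ?_; assumption) | (with_reducible refine IntF.comp₃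 ?_ ?_ ?_ ?_; assumption) | with_reducible apply IntF.pair))
      by_cases h2 : ∃ U, U ∈ C ∧ e U = n
      · obtain ⟨U, hU, hUn⟩ := h2
        have h3 : Sum.inl 0 ∈ U := mem_codeB'.1 ((hgc _).1 hzg _ (mem_codeB'.2 hU))
        obtain ⟨S, hS, h4⟩ := (hC U hU).2 h3
        refine h.sub _ S hS fun a ha => ?_
        obtain ⟨U', hU', hUn', h5⟩ := (mem_sep iS).1 ha
        obtain rfl := hinj _ _ hU hU' (hUn.trans hUn'.symm)
        by_contra h6
        exact h5 (h4 a h6)
      · refine h.sub _ ∅ h.emp fun a ha => ?_
        obtain ⟨U', hU', hUn', h5⟩ := (mem_sep iS).1 ha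
        exact absurd ⟨U', hU', hUn'⟩ h2
  · refine ⟨_, (mem_ts' hO).2 (op_sing h a), mem_codeB'.2 (mem_singleton.2 rfl), fun y hy => ?_⟩
    obtain ⟨q, hq, rfl⟩ := mem_codeB.1 hy
    rw [mem_singleton.1 hq]
    exact hzg

end

section

attribute [local instance] Helper672.Plain.toL

variable {N : Type u} [LSet.Structure N] [hZ : Helper672.Plain.Zermelo N]

local instance instModelMg5 : IsModel N := Helper672.Plain.isModel_toL

variable {α : Type u} [ITy N α] {Q : α × INat N → Prop} {I J : IPow N α → Prop}

theorem sidI (h : PP N α Q I J) : Sid I := by
  obtain ⟨S, T, hS, hT, -⟩ := h.cover 0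
  exact ⟨h.intI, h.subI _ _ hS fun a ha => absurd ha (by simp), h.singI, h.subI, h.unI, h.sigI⟩

theorem sidJ (h : PP N α Q I J) : Sid J := by
  obtain ⟨S, T, hS, hT, -⟩ := h.cover 0
  exact ⟨h.intJ, h.subJ _ _ hT fun a ha => absurd ha (by simp), h.singJ, h.subJ, h.unJ, h.sigJ⟩

/-- The points of the product. -/
def Pt2 (q : (INat N ⊕ α) × (INat N ⊕ α)) : Prop := Pt q.1 ∧ Pt q.2

/-- The open sets of the product. -/
def Op2 (I J : IPow N α → Prop) (W : IPow N ((INat N ⊕ α) × (INat N ⊕ α))) : Prop :=
  (∀ q, q ∈ W → Pt2 q) ∧ ∀ a b, (a, b) ∈ W → ∃ U V, Op I U ∧ Op J V ∧ a ∈ U ∧ b ∈ V ∧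
    ∀ c d, c ∈ U → d ∈ V → (c, d) ∈ W

theorem int_Pt2 : Int N (Pt2 (N := N) (α := α)) := by
  have h1 := int_Pt (N := N) (α := α)
  unfold Pt2
  (repeat' (first | with_reducible exact IntF.id | with_reducible exact IntF.fst' | with_reducible exact IntF.snd' | with_reducible exact IntF.const _ | with_reducible exact Int.const _ | assumption | with_reducible apply Int.and | with_reducible apply Int.or | with_reducible apply Int.not | with_reducible apply Int.imp | with_reducible apply Int.iff | with_reducible apply Int.ne | with_reducible apply Int.eq | with_reducible apply Int.mem | with_reducible apply Int.subset | with_reducible apply Int.ltN | with_reducible apply Int.leN | with_reducible_and_instances apply Int.le | with_reducible_and_instances apply Int.lt | with_reducible apply Int.all | with_reducible apply Int.ex | with_reducible apply IntF.fst | with_reducible apply IntF.snd | with_reducible apply IntF.app | with_reducible apply IntF.inl | with_reducible apply IntF.inr | with_reducible_and_instances apply IntF.mul | with_reducible_and_instances apply IntF.inv | with_reducible_and_instances apply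 IntF.add | with_reducible_and_instances apply IntF.sub | with_reducible_and_instances apply IntF.neg | with_reducible_and_instances apply IntF.smul | with_reducible apply Int.fin | with_reducible apply IntF.sep | with_reducible apply IntF.lam | with_reducible apply IntF.insert | with_reducible apply IntF.singleton | with_reducible apply IntF.union | with_reducible apply IntF.iimage | with_reducible apply IntF.ite | with_reducible apply IntF.the | with_reducible apply IntF.irec | with_reducible apply IntF.succ | with_reducible apply IntF.val | with_reducible apply IntF.mk | (with_reducible refine Int.comp ?_ ?_; assumption) | (with_reducible refine Int.comp₂ ?_ ?_ ?_; assumption) | (with_reducible refine Int.comp₃ ?_ ?_ ?_ ?_; assumption) | (with_reducible refine Int.comp₄ ?_ ?_ ?_ ?_ ?_; assumption) | (with_reducible refine IntF.comp ?_ ?_; assumption) | (with_reducible refine IntF.comp₂ ?_ ?_ ?_; assumption) | (with_reducible refine IntF.comp₃ ?_ ?_ ?_ ?_; assumption) | with_reducible apply IntF.pair))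

theorem int_Op2 (hI : Int N I) (hJ : Int N J) : Int N (Op2 I J) := by
  have h1 := int_Pt2 (N := N) (α := α)
  have h2 := int_Op hI
  have h3 := int_Op hJ
  unfold Op2
  (repeat' (first | with_reducible exact IntF.id | with_reducible exact IntF.fst' | with_reducible exact IntF.snd' | with_reducible exact IntF.const _ | with_reducible exact Int.const _ | assumption | with_reducible apply Int.and | with_reducible apply Int.or | with_reducible apply Int.not | with_reducible apply Int.imp | with_reducible apply Int.iff | with_reducible apply Int.ne | with_reducible apply Int.eq | with_reducible apply Int.mem | with_reducible apply Int.subset | with_reducible apply Int.ltN | with_reducible apply Int.leN | with_reducible_and_instances apply Int.le | with_reducible_and_instances apply Int.lt | with_reducible apply Int.all | with_reducible apply Int.ex | with_reducible apply IntF.fst | with_reducible apply IntF.snd | with_reducible apply IntF.app | with_reducible apply IntF.inl | with_reducible apply IntF.inr | with_reducible_and_instances apply IntF.mul | with_reducible_and_instances apply IntF.inv | with_reducible_and_instances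 apply IntF.add | with_reducible_and_instances apply IntF.sub | with_reducible_and_instances apply IntF.neg | with_reducible_and_instances apply IntF.smul | with_reducible apply Int.fin | with_reducible apply IntF.sep | with_reducible apply IntF.lam | with_reducible apply IntF.insert | with_reducible apply IntF.singleton | with_reducible apply IntF.union | with_reducible apply IntF.iimage | with_reducible apply IntF.ite | with_reducible apply IntF.the | with_reducible apply IntF.irec | with_reducible apply IntF.succ | with_reducible apply IntF.val | with_reducible apply IntF.mk | (with_reducible refine Int.comp ?_ ?_; assumption) | (with_reducible refine Int.comp₂ ?_ ?_ ?_; assumption) | (with_reducible refine Int.comp₃ ?_ ?_ ?_ ?_; assumption) | (with_reducible refine Int.comp₄ ?_ ?_ ?_ ?_ ?_; assumption) | (with_reducible refine IntF.comp ?_ ?_; assumption) | (with_reducible refine IntF.comp₂ ?_ ?_ ?_; assumption) | (with_reducible refine IntF.comp₃ ?_ ?_ ?_ ?_; assumption) | with_reducible apply IntF.pair))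

theorem spo2 (h : PP N α Q I J) : SpO N (Pt2 (N := N) (α := α)) (Op2 I J) := by
  have hI := spo (sidI h)
  have hJ := spo (sidJ h)
  refine ⟨int_Pt2, int_Op2 h.intI h.intJ, fun U hU => hU.1, fun U hU => ?_,
    fun U V W hU hV hW => ?_, fun c W hc hW => ?_⟩
  · refine ⟨fun p hp => (hU p).1 hp, fun a b hab => ?_⟩
    refine ⟨_, _, hI.univ (sep N Pt) fun s => mem_sep int_Pt,
      hJ.univ (sep N Pt) fun s => mem_sep int_Pt, (mem_sep int_Pt).2 ((hU _).1 hab).1,
      (mem_sep int_Pt).2 ((hU _).1 hab).2, fun c d hc hd => (hU _).2
        ⟨(mem_sep int_Pt).1 hc, (mem_sep int_Pt).1 hd⟩⟩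
  · refine ⟨fun p hp => hU.1 p ((hW p).1 hp).1, fun a b hab => ?_⟩
    obtain ⟨U₁, V₁, h1, h2, h3, h4, h5⟩ := hU.2 a b ((hW _).1 hab).1
    obtain ⟨U₂, V₂, h1', h2', h3', h4', h5'⟩ := hV.2 a b ((hW _).1 hab).2
    refine ⟨U₁ ∩ U₂, V₁ ∩ V₂, hI.inter U₁ U₂ _ h1 h1' fun s => mem_inter,
      hJ.inter V₁ V₂ _ h2 h2' fun s => mem_inter, mem_inter.2 ⟨h3, h3'⟩, mem_inter.2 ⟨h4, h4'⟩,
      fun c d hc hd => (hW _).2 ⟨h5 c d (mem_inter.1 hc).1 (mem_inter.1 hd).1,
        h5' c d (mem_inter.1 hc).2 (mem_inter.1 hd).2⟩⟩
  · refine ⟨fun p hp => ?_, fun a b hab => ?_⟩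
    · obtain ⟨U, h1, h2⟩ := (hW p).1 hp
      exact (hc U h1).1 p h2
    · obtain ⟨U, h1, h2⟩ := (hW _).1 hab
      obtain ⟨U₁, V₁, h3, h4, h5, h6, h7⟩ := (hc U h1).2 a b h2
      exact ⟨U₁, V₁, h3, h4, h5, h6, fun c d hc hd => (hW _).2 ⟨U, h1, h7 c d hc hd⟩⟩

theorem isProd_xs (h : PP N α Q I J) : IsProd (xs (N := N) (Pt2 (N := N) (α := α)))
    (xs (N := N) (Pt (N := N) (α := α))) (xs (N := N) (Pt (N := N) (α := α))) := by
  have hI := spo (sidI h)
  have h2 := spo2 h
  intro q
  rw [mem_xs h2]
  constructor
  · rintro ⟨⟨a, b⟩, h3, rfl⟩
    exact ⟨code a, code b, (mem_xs' hI).2 h3.1, (mem_xs' hI).2 h3.2, ordPair_iff.2 rfl⟩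
  · rintro ⟨x, y, hx, hy, hq⟩
    obtain ⟨a, ha, rfl⟩ := (mem_xs hI).1 hx
    obtain ⟨b, hb, rfl⟩ := (mem_xs hI).1 hy
    exact ⟨(a, b), ⟨ha, hb⟩, (ordPair_iff.1 hq).symm⟩

theorem app_pair {W : IPow N ((INat N ⊕ α) × (INat N ⊕ α))} {a b : INat N ⊕ α} :
    App (code (M := N) W) (code a) (code b) ↔ (a, b) ∈ W := by
  constructor
  · rintro ⟨q, h1, h2⟩
    rw [ordPair_iff.1 h1] at h2
    exact mem_codeB'.1 h2
  · intro h
    exact ⟨_, ordPair_iff.2 rfl, mem_codeB'.2 h⟩

theorem isProdTop_ts (h : PP N α Q I J) : IsProdTop (ts (N := N) (Op2 I J))
    (xs (N := N) (Pt2 (N := N) (α := α))) (ts (Op I)) (ts (Op J)) := by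
  have hI := spo (sidI h)
  have hJ := spo (sidJ h)
  have h2 := spo2 h
  intro w
  constructor
  · intro hw
    obtain ⟨W, hW, rfl⟩ := (mem_ts h2).1 hw
    refine ⟨fun q hq => ?_, fun x y hxy => ?_⟩
    · obtain ⟨q, hq', rfl⟩ := mem_codeB.1 hq
      exact (mem_xs' h2).2 (hW.1 q hq')
    · obtain ⟨q, h3, h4⟩ := hxy
      obtain ⟨⟨a, b⟩, h5, rfl⟩ := mem_codeB.1 h4
      obtain ⟨rfl, rfl⟩ := op_inj ((ordPair_iff.1 h3).symm)
      obtain ⟨U, V, hU, hV, ha, hb, hUV⟩ := hW.2 a b h5
      refine ⟨code U, code V, (mem_ts' hI).2 hU, (mem_ts' hJ).2 hV, mem_codeB'.2 ha,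
        mem_codeB'.2 hb, fun c d hc hd => ?_⟩
      obtain ⟨c, hc', rfl⟩ := mem_codeB.1 hc
      obtain ⟨d, hd', rfl⟩ := mem_codeB.1 hd
      exact app_pair.2 (hUV c d hc' hd')
  · rintro ⟨hw1, hw2⟩
    obtain ⟨W, rfl, hW⟩ := exists_sub h2 hw1
    refine (mem_ts' h2).2 ⟨hW, fun a b hab => ?_⟩
    obtain ⟨u, v, hu, hv, ha, hb, huv⟩ := hw2 _ _ (app_pair.2 hab)
    obtain ⟨U, hU, rfl⟩ := (mem_ts hI).1 hu
    obtain ⟨V, hV, rfl⟩ := (mem_ts hJ).1 hv
    exact ⟨U, V, hU, hV, mem_codeB'.1 ha, mem_codeB'.1 hb, fun c d hc hd =>
      app_pair.1 (huv _ _ (mem_codeB'.2 hc) (mem_codeB'.2 hd))⟩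

/-- The open sets in the product. -/
noncomputable def On (Q : α × INat N → Prop) (n : INat N) :
    IPow N ((INat N ⊕ α) × (INat N ⊕ α)) :=
  sep N fun q => Pt2 q ∧ ¬ ∃ a, Q (a, n) ∧ q.1 = Sum.inr a ∧ q.2 = Sum.inr a

theorem mem_On (hQ : Int N Q) {n : INat N} {q : (INat N ⊕ α) × (INat N ⊕ α)} :
    q ∈ On Q n ↔ Pt2 q ∧ ¬ ∃ a, Q (a, n) ∧ q.1 = Sum.inr a ∧ q.2 = Sum.inr a := by
  have h1 := int_Pt2 (N := N) (α := α)
  exact mem_sep (by (repeat' (first | with_reducible exact IntF.id | with_reducible exact IntF.fst' | with_reducible exact IntF.snd' | with_reducible exact IntF.const _ | with_reducible exact Int.const _ | assumption | with_reducible apply Int.and | with_reducible apply Int.or | with_reducible apply Int.not | with_reducible apply Int.imp | with_reducible apply Int.iff | with_reducible apply Int.ne | with_reducible apply Int.eq | with_reducible apply Int.mem | with_reducible apply Int.subset | with_reducible apply Int.ltN | with_reducible apply Int.leN | with_reducible_and_instances apply Int.le | with_reducible_and_instances apply Int.lt | with_reducible apply Int.all | with_reducible apply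 Int.ex | with_reducible apply IntF.fst | with_reducible apply IntF.snd | with_reducible apply IntF.app | with_reducible apply IntF.inl | with_reducible apply IntF.inr | with_reducible_and_instances apply IntF.mul | with_reducible_and_instances apply IntF.inv | with_reducible_and_instances apply IntF.add | with_reducible_and_instances apply IntF.sub | with_reducible_and_instances apply IntF.neg | with_reducible_and_instances apply IntF.smul | with_reducible apply Int.fin | with_reducible apply IntF.sep | with_reducible apply IntF.lam | with_reducible apply IntF.insert | with_reducible apply IntF.singleton | with_reducible apply IntF.union | with_reducible apply IntF.iimage | with_reducible apply IntF.ite | with_reducible apply IntF.the | with_reducible apply IntF.irec | with_reducible apply IntF.succ | with_reducible apply IntF.val | with_reducible apply IntF.mk | (with_reducible refine Int.comp ?_ ?_; assumption) | (with_reducible refine Int.comp₂ ?_ ?_ ?_; assumption) | (with_reducible refine Int.comp₃ ?_ ?_ ?_ ?_; assumption) | (with_reducible refine Int.comp₄ ?_ ?_ ?_ ?_ ?_; assumption) | (with_reducible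 refine IntF.comp ?_ ?_; assumption) | (with_reducible refine IntF.comp₂ ?_ ?_ ?_; assumption) | (with_reducible refine IntF.comp₃ ?_ ?_ ?_ ?_; assumption) | with_reducible apply IntF.pair)))

theorem int_On (hQ : Int N Q) : IntF N (On (N := N) Q) := by
  have h1 := int_Pt2 (N := N) (α := α)
  unfold On
  (repeat' (first | with_reducible exact IntF.id | with_reducible exact IntF.fst' | with_reducible exact IntF.snd' | with_reducible exact IntF.const _ | with_reducible exact Int.const _ | assumption | with_reducible apply Int.and | with_reducible apply Int.or | with_reducible apply Int.not | with_reducible apply Int.imp | with_reducible apply Int.iff | with_reducible apply Int.ne | with_reducible apply Int.eq | with_reducible apply Int.mem | with_reducible apply Int.subset | with_reducible apply Int.ltN | with_reducible apply Int.leN | with_reducible_and_instances apply Int.le | with_reducible_and_instances apply Int.lt | with_reducible apply Int.all | with_reducible apply Int.ex | with_reducible apply IntF.fst | with_reducible apply IntF.snd | with_reducible apply IntF.app | with_reducible apply IntF.inl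 | with_reducible apply IntF.inr | with_reducible_and_instances apply IntF.mul | with_reducible_and_instances apply IntF.inv | with_reducible_and_instances apply IntF.add | with_reducible_and_instances apply IntF.sub | with_reducible_and_instances apply IntF.neg | with_reducible_and_instances apply IntF.smul | with_reducible apply Int.fin | with_reducible apply IntF.sep | with_reducible apply IntF.lam | with_reducible apply IntF.insert | with_reducible apply IntF.singleton | with_reducible apply IntF.union | with_reducible apply IntF.iimage | with_reducible apply IntF.ite | with_reducible apply IntF.the | with_reducible apply IntF.irec | with_reducible apply IntF.succ | with_reducible apply IntF.val | with_reducible apply IntF.mk | (with_reducible refine Int.comp ?_ ?_; assumption) | (with_reducible refine Int.comp₂ ?_ ?_ ?_; assumption) | (with_reducible refine Int.comp₃ ?_ ?_ ?_ ?_; assumption) | (with_reducible refine Int.comp₄ ?_ ?_ ?_ ?_ ?_; assumption) | (with_reducible refine IntF.comp ?_ ?_; assumption) | (with_reducible refine IntF.comp₂ ?_ ?_ ?_; assumption) | (with_reducible refine IntF.comp₃ ?_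 ?_ ?_ ?_; assumption) | with_reducible apply IntF.pair))

theorem op_On (h : PP N α Q I J) (n : INat N) : Op2 I J (On Q n) := by
  have hQ := h.intQ
  have hI := sidI h
  have hJ := sidJ h
  refine ⟨fun q hq => ((mem_On hQ).1 hq).1, fun p q hpq => ?_⟩
  obtain ⟨⟨h1, h2⟩, h3⟩ := (mem_On hQ).1 hpq
  rcases h1 with rfl | ⟨a, rfl⟩
  · rcases h2 with rfl | ⟨b, rfl⟩
    · obtain ⟨S, T, hS, hT, hST⟩ := h.cover n
      refine ⟨Cm S, Cm T, op_Cm hS, op_Cm hT, mem_Cm.2 (Or.inl rfl), mem_Cm.2 (Or.inl rfl),
        fun c d hc hd => (mem_On hQ).2 ⟨⟨(op_Cm hS).1 c hc, (op_Cm hT).1 d hd⟩, ?_⟩⟩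
      rintro ⟨a, ha, h4, h5⟩
      change c = _ at h4
      change d = _ at h5
      subst h4
      subst h5
      rcases mem_Cm.1 hc with h6 | ⟨a', h6, h7⟩
      · cases h6
      · obtain rfl := Sum.inr_injective h6
        rcases mem_Cm.1 hd with h8 | ⟨a'', h8, h9⟩
        · cases h8
        · obtain rfl := Sum.inr_injective h8
          exact (hST _ ha).elim h7 h9
    · refine ⟨Cm {b}, {Sum.inr b}, op_Cm (h.singI b), op_sing hJ b, mem_Cm.2 (Or.inl rfl),
        mem_singleton.2 rfl, fun c d hc hd => (mem_On hQ).2 ⟨⟨(op_Cm (h.singI b)).1 c hc,
          (op_sing hJ b).1 d hd⟩, ?_⟩⟩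
      rintro ⟨a, ha, h4, h5⟩
      change c = _ at h4
      change d = _ at h5
      subst h4
      subst h5
      have h6 := Sum.inr_injective (mem_singleton.1 hd)
      subst h6
      rcases mem_Cm.1 hc with h6 | ⟨a', h6, h7⟩
      · cases h6
      · obtain rfl := Sum.inr_injective h6
        exact h7 (mem_singleton.2 rfl)
  · rcases h2 with rfl | ⟨b, rfl⟩
    · refine ⟨{Sum.inr a}, Cm {a}, op_sing hI a, op_Cm (h.singJ a), mem_singleton.2 rfl,
        mem_Cm.2 (Or.inl rfl), fun c d hc hd => (mem_On hQ).2 ⟨⟨(op_sing hI a).1 c hc,
          (op_Cm (h.singJ a)).1 d hd⟩, ?_⟩⟩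
      rintro ⟨b, hb, h4, h5⟩
      change c = _ at h4
      change d = _ at h5
      subst h4
      subst h5
      have h6 := Sum.inr_injective (mem_singleton.1 hc)
      subst h6
      rcases mem_Cm.1 hd with h6 | ⟨a', h6, h7⟩
      · cases h6
      · obtain rfl := Sum.inr_injective h6
        exact h7 (mem_singleton.2 rfl)
    · refine ⟨{Sum.inr a}, {Sum.inr b}, op_sing hI a, op_sing hJ b, mem_singleton.2 rfl,
        mem_singleton.2 rfl, fun c d hc hd => ?_⟩
      rw [mem_singleton.1 hc, mem_singleton.1 hd]
      exact hpq

/-- The product is not a P-space. -/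
theorem not_ppp (h : PP N α Q I J) : ¬ PPP N := by
  intro hP
  have hQ := h.intQ
  have hI := spo (sidI h)
  have hJ := spo (sidJ h)
  have h2 := spo2 h
  have h3 := hP _ _ _ _ _ _ (isTopology_ts hI) (isTopology_ts hJ) (isPSpace_ts (sidI h))
    (isPSpace_ts (sidJ h)) (isProd_xs h) (isProdTop_ts h)
  have iT : Int N (fun _ : INat N => True) := Int.const _
  have hiO := int_On (N := N) hQ
  have hpt2 := int_Pt2 (N := N) (α := α)
  have iF : Int N (fun U : IPow N ((INat N ⊕ α) × (INat N ⊕ α)) => ∃ n, True ∧ On Q n = U) := by
    (repeat' (first | with_reducible exact IntF.id | with_reducible exact IntF.fst' | with_reducible exact IntF.snd' | with_reducible exact IntF.const _ | with_reducible exact Int.const _ | assumption | with_reducible apply Int.and | with_reducible apply Int.or | with_reducible apply Int.not | with_reducible apply Int.imp | with_reducible apply Int.iff | with_reducible apply Int.ne | with_reducible apply Int.eq | with_reducible apply Int.mem | with_reducible apply Int.subset | with_reducible apply Int.ltN | with_reducible apply Int.leN | with_reducible_and_instances apply Int.le | with_reducible_and_instances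 apply Int.lt | with_reducible apply Int.all | with_reducible apply Int.ex | with_reducible apply IntF.fst | with_reducible apply IntF.snd | with_reducible apply IntF.app | with_reducible apply IntF.inl | with_reducible apply IntF.inr | with_reducible_and_instances apply IntF.mul | with_reducible_and_instances apply IntF.inv | with_reducible_and_instances apply IntF.add | with_reducible_and_instances apply IntF.sub | with_reducible_and_instances apply IntF.neg | with_reducible_and_instances apply IntF.smul | with_reducible apply Int.fin | with_reducible apply IntF.sep | with_reducible apply IntF.lam | with_reducible apply IntF.insert | with_reducible apply IntF.singleton | with_reducible apply IntF.union | with_reducible apply IntF.iimage | with_reducible apply IntF.ite | with_reducible apply IntF.the | with_reducible apply IntF.irec | with_reducible apply IntF.succ | with_reducible apply IntF.val | with_reducible apply IntF.mk | (with_reducible refine Int.comp ?_ ?_; assumption) | (with_reducible refine Int.comp₂ ?_ ?_ ?_; assumption) | (with_reducible refine Int.comp₃ ?_ ?_ ?_ ?_; assumption) | (with_reducible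 refine Int.comp₄ ?_ ?_ ?_ ?_ ?_; assumption) | (with_reducible refine IntF.comp ?_ ?_; assumption) | (with_reducible refine IntF.comp₂ ?_ ?_ ?_; assumption) | (with_reducible refine IntF.comp₃ ?_ ?_ ?_ ?_; assumption) | with_reducible apply IntF.pair))
  have iG : Int N (fun q : (INat N ⊕ α) × (INat N ⊕ α) => Pt2 q ∧
      ¬ ∃ a, q.1 = Sum.inr a ∧ q.2 = Sum.inr a) := by (repeat' (first | with_reducible exact IntF.id | with_reducible exact IntF.fst' | with_reducible exact IntF.snd' | with_reducible exact IntF.const _ | with_reducible exact Int.const _ | assumption | with_reducible apply Int.and | with_reducible apply Int.or | with_reducible apply Int.not | with_reducible apply Int.imp | with_reducible apply Int.iff | with_reducible apply Int.ne | with_reducible apply Int.eq | with_reducible apply Int.mem | with_reducible apply Int.subset | with_reducible apply Int.ltN | with_reducible apply Int.leN | with_reducible_and_instances apply Int.le | with_reducible_and_instances apply Int.lt | with_reducible apply Int.all | with_reducible apply Int.ex | with_reducible apply IntF.fst | with_reducible apply IntF.snd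 | with_reducible apply IntF.app | with_reducible apply IntF.inl | with_reducible apply IntF.inr | with_reducible_and_instances apply IntF.mul | with_reducible_and_instances apply IntF.inv | with_reducible_and_instances apply IntF.add | with_reducible_and_instances apply IntF.sub | with_reducible_and_instances apply IntF.neg | with_reducible_and_instances apply IntF.smul | with_reducible apply Int.fin | with_reducible apply IntF.sep | with_reducible apply IntF.lam | with_reducible apply IntF.insert | with_reducible apply IntF.singleton | with_reducible apply IntF.union | with_reducible apply IntF.iimage | with_reducible apply IntF.ite | with_reducible apply IntF.the | with_reducible apply IntF.irec | with_reducible apply IntF.succ | with_reducible apply IntF.val | with_reducible apply IntF.mk | (with_reducible refine Int.comp ?_ ?_; assumption) | (with_reducible refine Int.comp₂ ?_ ?_ ?_; assumption) | (with_reducible refine Int.comp₃ ?_ ?_ ?_ ?_; assumption) | (with_reducible refine Int.comp₄ ?_ ?_ ?_ ?_ ?_; assumption) | (with_reducible refine IntF.comp ?_ ?_; assumption) | (with_reducible refine IntF.comp₂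 ?_ ?_ ?_; assumption) | (with_reducible refine IntF.comp₃ ?_ ?_ ?_ ?_; assumption) | with_reducible apply IntF.pair))
  have h4 := h3 (code ((Sum.inl 0, Sum.inl 0) : (INat N ⊕ α) × (INat N ⊕ α)))
    ((mem_xs' h2).2 ⟨Or.inl rfl, Or.inl rfl⟩)
    (code (M := N) (sep N fun q : (INat N ⊕ α) × (INat N ⊕ α) => Pt2 q ∧
      ¬ ∃ a, q.1 = Sum.inr a ∧ q.2 = Sum.inr a)) ?_ ?_
  · obtain ⟨w, hw, h5, h6⟩ := h4
    obtain ⟨W, hW, rfl⟩ := (mem_ts h2).1 hw
    obtain ⟨U, V, hU, hV, h7, h8, h9⟩ := hW.2 _ _ (mem_codeB'.1 h5)
    obtain ⟨S, hS, hS'⟩ := hU.2 h7
    obtain ⟨T, hT, hT'⟩ := hV.2 h8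
    obtain ⟨a, ha, hb⟩ := h.nocover S T hS hT
    have h10 := h6 _ (mem_codeB'.2 (h9 _ _ (hS' a ha) (hT' a hb)))
    exact ((mem_sep iG).1 (mem_codeB'.1 h10)).2 ⟨a, rfl, rfl⟩
  · refine ⟨code (M := N) (sep N fun U => ∃ n, True ∧ On Q n = U), isCtble_iff.2
      ((Ctb.nat.image iT hiO).mono fun U hU => (mem_sep iF).1 hU),
      ⟨_, mem_codeB'.2 ((mem_sep iF).2 ⟨0, trivial, rfl⟩)⟩, fun u hu => ?_, fun z => ⟨fun hz u hu => ?_,
        fun hz => ?_⟩⟩
    · obtain ⟨U, hU, rfl⟩ := mem_codeB.1 hu
      obtain ⟨n, -, rfl⟩ := (mem_sep iF).1 hU
      exact (mem_ts' h2).2 (op_On h n)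
    · obtain ⟨U, hU, rfl⟩ := mem_codeB.1 hu
      obtain ⟨n, -, rfl⟩ := (mem_sep iF).1 hU
      obtain ⟨q, hq, rfl⟩ := mem_codeB.1 hz
      obtain ⟨hq1, hq2⟩ := (mem_sep iG).1 hq
      exact mem_codeB'.2 ((mem_On hQ).2 ⟨hq1, fun ⟨a, _, ha⟩ => hq2 ⟨a, ha⟩⟩)
    · obtain ⟨q, hq, rfl⟩ := mem_codeB.1 (hz _ (mem_codeB'.2 ((mem_sep iF).2 ⟨0, trivial, rfl⟩)))
      refine mem_codeB'.2 ((mem_sep iG).2 ⟨((mem_On hQ).1 hq).1, ?_⟩)
      rintro ⟨a, ha⟩
      obtain ⟨n, hn⟩ := h.lev a
      have h5 : q ∈ On Q n :=
        mem_codeB'.1 (hz _ (mem_codeB'.2 ((mem_sep iF).2 ⟨n, trivial, rfl⟩)))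
      exact ((mem_On hQ).1 h5).2 ⟨a, hn, ha⟩
  · exact mem_codeB'.2 ((mem_sep iG).2 ⟨⟨Or.inl rfl, Or.inl rfl⟩, fun ⟨a, ha, _⟩ => by cases ha⟩)

end

end Pool.Agent.V11257H
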