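import Pool.Agent.V11257.ZtDefs
import Pool.Agent.V11246.CubeDefs

/-!
# Realcompact spaces and zero-sets in a structure for the language of set theory: definitions

`Mem`, `El` and `LSet` are from `Pool.Agent.Helper672.SIK.Plain`, `IsOmega`, `IsFun`, `IsInj`,
`App` and `IsFinite` from `Pool.Agent.H310R3.Cards`, `IsReals` from
`Pool.Agent.H635R2.Statement`, `IsFunSet` and `IsContinuousIn` from
`Pool.Agent.V11246.CubeDefs`, `IsT1`, `IsCtble`, `HasCip` and `IsFixed` from
`Pool.Agent.V11246.CdDefs`, and `IsSubTop` from `Pool.Agent.V11257.ZtDefs`.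
-/

namespace Pool.Agent.V11257Z

open FirstOrder FirstOrder.Language
open Pool.Agent.Helper672.Plain (LSet Mem El)
open Pool.Agent.H310Cards
open Pool.Agent.H635Amen (IsReals)
open Pool.Agent.V11246 (IsFunSet IsContinuousIn IsT1 IsCtble HasCip IsFixed)

universe u

variable {M : Type u} [LSet.Structure M]

/-- `t` is the product topology on the set `c` of the functions from `j` to the ordered field `r`:
a subset `u` of `c` is open if and only if for every `f` in `u` there are a finite subset `s` of
`j` and `ε > 0` such that all `g` in `c` whose values on `s` differ from those of `f` by less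
than `ε` are in `u`. -/
def IsRealPowTop (r : M) [Field (El r)] [LinearOrder (El r)] (t c j : M) : Prop :=
  ∀ u, Mem u t ↔ (∀ f, Mem f u → Mem f c) ∧
    ∀ f, Mem f u → ∃ s, IsFinite s ∧ (∀ i, Mem i s → Mem i j) ∧ ∃ ε : El r, 0 < ε ∧
      ∀ g, Mem g c → (∀ i (y z : El r), Mem i s → App f i y.1 → App g i z.1 → |z - y| < ε) →
        Mem g u

/-- The space `x` with the topology `t` is realcompact: for some `j` it is homeomorphic to a closed
subspace of the product `c` (with the product topology `s`) of copies, indexed by `j`, of the real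
line `r` of the model. The injection `h` is a homeomorphism onto its image (the open sets of `x`
are the preimages of the open sets of `c`), and the complement `v` of the image is open. -/
def IsRealcompact (t x : M) : Prop :=
  ∃ (r : M) (_ : Field (El r)) (_ : LinearOrder (El r)) (_ : IsStrictOrderedRing (El r)),
    IsReals r ∧ ∃ j c s h, IsFunSet c j r ∧ IsRealPowTop r s c j ∧ IsInj h x c ∧
      (∀ u, Mem u t ↔ (∀ z, Mem z u → Mem z x) ∧
        ∃ v, Mem v s ∧ ∀ z f, App h z f → (Mem z u ↔ Mem f v)) ∧
      ∃ v, Mem v s ∧ ∀ f, Mem f c → (Mem f v ↔ ¬ ∃ z, App h z f)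

/-- The subspace `y` is realcompact. -/
def IsRealcompactSub (t y : M) : Prop := ∃ t', IsSubTop t' t y ∧ IsRealcompact t' y

/-- The space is a Tychonoff space: it is a T1 space, and for every point `a` of an open set `u`
there is a continuous function from the space to the unit interval that is zero at `a` and one
outside `u`. -/
def IsTychonoff (t x : M) : Prop :=
  IsT1 t x ∧ ∀ u a, Mem u t → Mem a u →
    ∃ (r : M) (_ : Field (El r)) (_ : LinearOrder (El r)) (_ : IsStrictOrderedRing (El r)),
      IsReals r ∧ ∃ φ : El x → El r, IsContinuousIn t φ ∧ (∀ z, 0 ≤ φ z ∧ φ z ≤ 1) ∧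
        (∀ z : El x, z.1 = a → φ z = 0) ∧ ∀ z : El x, ¬ Mem z.1 u → φ z = 1

/-- `z` is the zero-set of a continuous function from the space to the real line. -/
def IsZeroSet (t x z : M) : Prop :=
  (∀ y, Mem y z → Mem y x) ∧
    ∃ (r : M) (_ : Field (El r)) (_ : LinearOrder (El r)) (_ : IsStrictOrderedRing (El r)),
      IsReals r ∧ ∃ φ : El x → El r, IsContinuousIn t φ ∧ ∀ y : El x, Mem y.1 z ↔ φ y = 0

/-- The subspace `y` is z-embedded in the space: every zero-set of the subspace is the trace of a
zero-set of the space. -/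
def IsZEmbedded (t x y : M) : Prop :=
  (∀ z, Mem z y → Mem z x) ∧ ∃ t', IsSubTop t' t y ∧ ∀ z, IsZeroSet t' y z →
    ∃ z', IsZeroSet t x z' ∧ ∀ w, Mem w z ↔ Mem w z' ∧ Mem w y

/-- `z` is the zero-set of a continuous function from the space to `r`. -/
def IsZeroSetIn (r : M) [Field (El r)] [LinearOrder (El r)] (t x z : M) : Prop :=
  (∀ y, Mem y z → Mem y x) ∧
    ∃ φ : El x → El r, IsContinuousIn t φ ∧ ∀ y : El x, Mem y.1 z ↔ φ y = 0

/-- `F` is a z-filter (`r` is the real line of the model): a nonempty family of nonempty zero-sets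
that is closed under binary intersections and under zero-sets that are supersets. -/
structure IsZFilter (r : M) [Field (El r)] [LinearOrder (El r)] (t x F : M) : Prop where
  ne : ∃ a, Mem a F
  mem : ∀ a, Mem a F → IsZeroSetIn r t x a ∧ ∃ z, Mem z a
  inter : ∀ a b c, Mem a F → Mem b F → (∀ z, Mem z c ↔ Mem z a ∧ Mem z b) → Mem c F
  up : ∀ a b, Mem a F → IsZeroSetIn r t x b → (∀ z, Mem z a → Mem z b) → Mem b F

/-- `F` is a z-ultrafilter: a maximal z-filter. -/
def IsZUltra (r : M) [Field (El r)] [LinearOrder (El r)] (t x F : M) : Prop :=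
  IsZFilter r t x F ∧
    ∀ G, IsZFilter r t x G → (∀ a, Mem a F → Mem a G) → ∀ a, Mem a G → Mem a F

/-- `S` is a sigma-algebra of subsets of `x`: it is closed under complements and under unions of
countable subfamilies. -/
structure IsSigmaAlgebra (S x : M) : Prop where
  sub : ∀ a, Mem a S → ∀ z, Mem z a → Mem z x
  compl : ∀ a b, Mem a S → (∀ z, Mem z b ↔ Mem z x ∧ ¬ Mem z a) → Mem b S
  union : ∀ c b, IsCtble c → (∀ a, Mem a c → Mem a S) → (∀ z, Mem z b ↔ ∃ a, Mem a c ∧ Mem z a) →
    Mem b S

/-- `b` is a Baire set of the space: it is a member of every sigma-algebra of subsets of `x` that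
contains all zero-sets. -/
def IsBaireSet (t x b : M) : Prop :=
  ∀ S, IsSigmaAlgebra S x → (∀ z, IsZeroSet t x z → Mem z S) → Mem b S

/-- The space has countable pseudocharacter: for every point `a` there is a nonempty countable
family `c` of open sets whose intersection is the set of the point `a`. -/
def HasCtblePseudocharacter (t x : M) : Prop :=
  ∀ a, Mem a x → ∃ c, IsCtble c ∧ (∃ u, Mem u c) ∧ (∀ u, Mem u c → Mem u t) ∧
    ∀ z, z = a ↔ ∀ u, Mem u c → Mem z u

/-- The subset `u` is open in the topology that has the zero-sets as a base. -/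
def IsZOpen (t x u : M) : Prop :=
  (∀ z, Mem z u → Mem z x) ∧
    ∀ a, Mem a u → ∃ z, IsZeroSet t x z ∧ Mem a z ∧ ∀ y, Mem y z → Mem y u

/-- The countable axiom of multiple choice: for every sequence `f` of nonempty sets there is a
sequence `g` of nonempty finite subsets of the values of `f`. -/
def CMC (M : Type u) [LSet.Structure M] : Prop :=
  ∀ w s f : M, IsOmega w → IsFun f w s → (∀ n a, App f n a → ∃ z, Mem z a) →
    ∃ s' g, IsFun g w s' ∧ ∀ n a b, App f n a → App g n b →
      IsFinite b ∧ (∃ z, Mem z b) ∧ ∀ z, Mem z b → Mem z a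

end Pool.Agent.V11257Z
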