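import Pool.Agent.V11257.MgDefs
import Pool.Agent.V11257.ZrDefs

/-!
# E-completely regular and E-compact spaces, and the Hewitt E-compact extension: definitions

`Mem`, `El` and `LSet` are from `Pool.Agent.Helper672.SIK.Plain`, `IsFun`, `IsInj`, `App`,
`IsFinite` and `IsPow` from `Pool.Agent.H310R3.Cards`, `IsTopology` from
`Pool.Agent.H310R3.TopDefs`, `IsReals` from `Pool.Agent.H635R2.Statement`, `IsFunSet` from
`Pool.Agent.V11246.CubeDefs`, `IsSubTop` from `Pool.Agent.V11257.ZtDefs`, `IsTychonoff` from
`Pool.Agent.V11257.ZrDefs`, and `IsPSpace` from `Pool.Agent.V11257.MgDefs`.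
-/

namespace Pool.Agent.V11257K

open FirstOrder FirstOrder.Language
open Pool.Agent.Helper672.Plain (LSet Mem El IsOrdPair)
open Pool.Agent.H310Cards
open Pool.Agent.H310Top (IsTopology)
open Pool.Agent.H635Amen (IsReals)
open Pool.Agent.V11246 (IsFunSet)
open Pool.Agent.V11257Z (IsSubTop IsTychonoff)
open Pool.Agent.V11257H (IsPSpace)

universe u

section

variable {M : Type u} [LSet.Structure M]

/-- `s` is the product topology on the set `c` of the functions from `j` to the space with the
topology `te`: a subset `u` of `c` is open if and only if for every `f` in `u` there is a finite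
set `b` of pairs `(i, v)`, where `i` is in `j` and `v` is an open set of the space with `f i` in
`v`, such that every `g` in `c` with `g i` in `v` for all `(i, v)` in `b` is in `u`. -/
def IsPowTop (te s c j : M) : Prop :=
  ∀ u, Mem u s ↔ (∀ f, Mem f u → Mem f c) ∧ ∀ f, Mem f u →
    ∃ b, IsFinite b ∧ (∀ q, Mem q b → ∃ i v y, IsOrdPair q i v ∧ Mem i j ∧ Mem v te ∧
      App f i y ∧ Mem y v) ∧
      ∀ g, Mem g c → (∀ i v y, App b i v → App g i y → Mem y v) → Mem g u

/-- `h` is a homeomorphism from the space `x` with the topology `t` to a subspace of the space `c`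
with the topology `s`: the open sets of `x` are the preimages of the open sets of `c`. -/
def IsEmbedding (t x s c h : M) : Prop :=
  IsInj h x c ∧ ∀ u, Mem u t ↔ (∀ z, Mem z u → Mem z x) ∧
    ∃ v, Mem v s ∧ ∀ z f, App h z f → (Mem z u ↔ Mem f v)

/-- The space `x` with the topology `t` is E-completely regular, where E is the space `e` with the
topology `te`: for some nonempty `j` it is homeomorphic to a subspace of the product of copies of
E, indexed by `j`. -/
def IsECompletelyRegular (te e t x : M) : Prop :=
  ∃ j c s h, (∃ i, Mem i j) ∧ IsFunSet c j e ∧ IsPowTop te s c j ∧ IsEmbedding t x s c h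

/-- The space `x` with the topology `t` is E-compact, where E is the space `e` with the topology
`te`: for some nonempty `j` it is homeomorphic to a closed subspace of the product of copies of E,
indexed by `j` (the complement `v` of the image is open). -/
def IsECompact (te e t x : M) : Prop :=
  ∃ j c s h, (∃ i, Mem i j) ∧ IsFunSet c j e ∧ IsPowTop te s c j ∧ IsEmbedding t x s c h ∧
    ∃ v, Mem v s ∧ ∀ f, Mem f c → (Mem f v ↔ ¬ ∃ z, App h z f)

/-- `k` is the set of the continuous functions from the space `x` with the topology `t` to the
space `e` with the topology `te`. -/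
def IsContinuousSet (k t x te e : M) : Prop :=
  ∀ f, Mem f k ↔ IsFun f x e ∧ ∀ v z y, Mem v te → App f z y → Mem y v →
    ∃ u, Mem u t ∧ Mem z u ∧ ∀ z' y', Mem z' u → App f z' y' → Mem y' v

/-- The space `v` with the topology `s'` is the Hewitt E-compact extension of the space `x` with
the topology `t`, where E is the space `e` with the topology `te`: `k` is the set of the continuous
functions from `x` to E, `c` with the topology `s` is the product of copies of E, indexed by `k`,
`h` is the evaluation map from `x` to `c`, and `v` is the closure of the image of `h`. -/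
def IsHewittExt (te e t x s' v : M) : Prop :=
  ∃ k c s h, IsContinuousSet k t x te e ∧ IsFunSet c k e ∧ IsPowTop te s c k ∧ IsFun h x c ∧
    (∀ z g, App h z g → ∀ f y, App g f y ↔ Mem f k ∧ App f z y) ∧
    (∀ g, Mem g v ↔ Mem g c ∧ ∀ u, Mem u s → Mem g u → ∃ z g', App h z g' ∧ Mem g' u) ∧
    IsSubTop s' s v

end

/-- In the model `M` there are a Tychonoff space E (the space `e` with the topology `te`) such that
the discrete space of the real numbers is E-compact, and an E-completely regular P-space whose
Hewitt E-compact extension is not a P-space. -/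
def HewittFails (M : Type u) [LSet.Structure M] : Prop :=
  ∃ e te : M, IsTopology te e ∧ IsTychonoff te e ∧
    (∃ (r : M) (_ : Field (El r)) (_ : LinearOrder (El r)) (_ : IsStrictOrderedRing (El r)),
      IsReals r ∧ ∃ p, IsPow p r ∧ IsECompact te e p r) ∧
    ∃ x t, IsTopology t x ∧ IsPSpace t x ∧ IsECompletelyRegular te e t x ∧
      ∃ s v, IsHewittExt te e t x s v ∧ ¬ IsPSpace s v

end Pool.Agent.V11257K
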