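import Pool.Agent.V11257.Ck3
import Pool.Agent.V11257.CpDefs

/-!
# Powers of discrete spaces and the Hewitt extension from internal data
-/

set_option maxHeartbeats 1000000
set_option linter.all false
set_option synthInstance.maxSize 2000

namespace Pool.Agent.Helper672.ZFA.V257

open FirstOrder FirstOrder.Language
open Pool.Agent.Helper672.Plain (LSet)
open Pool.Agent.H310
open Pool.Agent.H310Cards
open Pool.Agent.H310Top (IsTopology)
open Pool.Agent.H635Amen (IsReals Sub)
open Pool.Agent.V11246
open Pool.Agent.V11257Z (mem_codeP int_addR int_leR opGraph_iff IsSubTop IsTychonoff)
open Pool.Agent.V11257K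
open Pool.Agent.Helper672.ZFA.V246

universe u

section

attribute [local instance] Helper672.Plain.toL

variable {N : Type u} [LSet.Structure N] [hZ : Helper672.Plain.Zermelo N]

attribute [local instance] instModelCk3 instPElCk3

variable {x t e te j : N}

/-- Open sets of functions. -/
def OpD (U : IPow N (IFun N (Plain.El j) (Plain.El e))) : Prop :=
  ∀ f, f ∈ U → ∃ S : IPow N (Plain.El j), IFin S ∧
    ∀ g : IFun N (Plain.El j) (Plain.El e), (∀ i, i ∈ S → f i = g i) → g ∈ U

theorem int_OpD : Int N (OpD (N := N) (j := j) (e := e)) := by
  unfold OpD
  (repeat' (first | with_reducible exact IntF.id | with_reducible exact IntF.fst' | with_reducible exact IntF.snd' | with_reducible exact IntF.const _ | with_reducible exact Int.const _ | assumption | with_reducible apply Int.and | with_reducible apply Int.or | with_reducible apply Int.not | with_reducible apply Int.imp | with_reducible apply Int.iff | with_reducible apply Int.ne | with_reducible apply Int.eq | with_reducible apply Int.mem | with_reducible apply Int.subset | with_reducible apply Int.ltN | with_reducible apply Int.leN | with_reducible_and_instances apply Int.le | with_reducible_and_instances apply Int.lt | with_reducible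 apply Int.all | with_reducible apply Int.ex | with_reducible apply IntF.fst | with_reducible apply IntF.snd | with_reducible apply IntF.app | with_reducible apply IntF.inl | with_reducible apply IntF.inr | with_reducible_and_instances apply IntF.mul | with_reducible_and_instances apply IntF.inv | with_reducible_and_instances apply IntF.add | with_reducible_and_instances apply IntF.sub | with_reducible_and_instances apply IntF.neg | with_reducible_and_instances apply IntF.smul | with_reducible apply Int.fin | with_reducible apply IntF.sep | with_reducible apply IntF.lam | with_reducible apply IntF.insert | with_reducible apply IntF.singleton | with_reducible apply IntF.union | with_reducible apply IntF.iimage | with_reducible apply IntF.ite | with_reducible apply IntF.the | with_reducible apply IntF.irec | with_reducible apply IntF.succ | with_reducible apply IntF.val | with_reducible apply IntF.mk | (with_reducible refine Int.comp ?_ ?_; assumption) | (with_reducible refine Int.comp₂ ?_ ?_ ?_; assumption) | (with_reducible refine Int.comp₃ ?_ ?_ ?_ ?_; assumption) | (with_reducible refine Int.comp₄ ?_ ?_ ?_ ?_ ?_; assumption) | (with_reducible refine IntF.comp ?_ ?_; assumption) | (with_reducible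 refine IntF.comp₂ ?_ ?_ ?_; assumption) | (with_reducible refine IntF.comp₃ ?_ ?_ ?_ ?_; assumption) | with_reducible apply IntF.pair))

/-- The set of the functions. -/
noncomputable abbrev pcc (j e : N) : N := dom N (IFun N (Plain.El j) (Plain.El e))

/-- The topology of the power. -/
noncomputable abbrev pss (j e : N) : N := code (M := N) (sep N (OpD (N := N) (j := j) (e := e)))

theorem isPowTop_dom (hte : IsPow te e) : IsPowTop te (pss j e) (pcc j e) j := by
  intro u
  constructor
  · intro hu
    obtain ⟨U, hU, rfl⟩ := mem_codeB.1 hu
    rw [mem_sep int_OpD] at hU
    refine ⟨fun f hf => ?_, fun f hf => ?_⟩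
    · obtain ⟨f, -, rfl⟩ := mem_codeB.1 hf
      exact code_mem_domP f
    · obtain ⟨f, hf', rfl⟩ := mem_codeB.1 hf
      obtain ⟨S, h1, h2⟩ := hU f hf'
      have iB : Int N (fun q : Plain.El j × IPow N (Plain.El e) => q.1 ∈ S ∧ q.2 = {f q.1}) := by
        (repeat' (first | with_reducible exact IntF.id | with_reducible exact IntF.fst' | with_reducible exact IntF.snd' | with_reducible exact IntF.const _ | with_reducible exact Int.const _ | assumption | with_reducible apply Int.and | with_reducible apply Int.or | with_reducible apply Int.not | with_reducible apply Int.imp | with_reducible apply Int.iff | with_reducible apply Int.ne | with_reducible apply Int.eq | with_reducible apply Int.mem | with_reducible apply Int.subset | with_reducible apply Int.ltN | with_reducible apply Int.leN | with_reducible_and_instances apply Int.le | with_reducible_and_instances apply Int.lt | with_reducible apply Int.all | with_reducible apply Int.ex | with_reducible apply IntF.fst | with_reducible apply IntF.snd | with_reducible apply IntF.app | with_reducible apply IntF.inl | with_reducible apply IntF.inr | with_reducible_and_instances apply IntF.mul | with_reducible_and_instances apply IntF.inv | with_reducible_and_instances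 apply IntF.add | with_reducible_and_instances apply IntF.sub | with_reducible_and_instances apply IntF.neg | with_reducible_and_instances apply IntF.smul | with_reducible apply Int.fin | with_reducible apply IntF.sep | with_reducible apply IntF.lam | with_reducible apply IntF.insert | with_reducible apply IntF.singleton | with_reducible apply IntF.union | with_reducible apply IntF.iimage | with_reducible apply IntF.ite | with_reducible apply IntF.the | with_reducible apply IntF.irec | with_reducible apply IntF.succ | with_reducible apply IntF.val | with_reducible apply IntF.mk | (with_reducible refine Int.comp ?_ ?_; assumption) | (with_reducible refine Int.comp₂ ?_ ?_ ?_; assumption) | (with_reducible refine Int.comp₃ ?_ ?_ ?_ ?_; assumption) | (with_reducible refine Int.comp₄ ?_ ?_ ?_ ?_ ?_; assumption) | (with_reducible refine IntF.comp ?_ ?_; assumption) | (with_reducible refine IntF.comp₂ ?_ ?_ ?_; assumption) | (with_reducible refine IntF.comp₃ ?_ ?_ ?_ ?_; assumption) | with_reducible apply IntF.pair))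
      have hfin : IFin (sep N fun q : Plain.El j × IPow N (Plain.El e) =>
          q.1 ∈ S ∧ q.2 = {f q.1}) := by
        refine IFin.ind (p := fun S : IPow N (Plain.El j) =>
          IFin (sep N fun q : Plain.El j × IPow N (Plain.El e) =>
          q.1 ∈ S ∧ q.2 = {f q.1})) (by (repeat' (first | with_reducible exact IntF.id | with_reducible exact IntF.fst' | with_reducible exact IntF.snd' | with_reducible exact IntF.const _ | with_reducible exact Int.const _ | assumption | with_reducible apply Int.and | with_reducible apply Int.or | with_reducible apply Int.not | with_reducible apply Int.imp | with_reducible apply Int.iff | with_reducible apply Int.ne | with_reducible apply Int.eq | with_reducible apply Int.mem | with_reducible apply Int.subset | with_reducible apply Int.ltN | with_reducible apply Int.leN | with_reducible_and_instances apply Int.le | with_reducible_and_instances apply Int.lt | with_reducible apply Int.all | with_reducible apply Int.ex | with_reducible apply IntF.fst | with_reducible apply IntF.snd | with_reducible apply IntF.app | with_reducible apply IntF.inl | with_reducible apply IntF.inr | with_reducible_and_instances apply IntF.mul | with_reducible_and_instances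 apply IntF.inv | with_reducible_and_instances apply IntF.add | with_reducible_and_instances apply IntF.sub | with_reducible_and_instances apply IntF.neg | with_reducible_and_instances apply IntF.smul | with_reducible apply Int.fin | with_reducible apply IntF.sep | with_reducible apply IntF.lam | with_reducible apply IntF.insert | with_reducible apply IntF.singleton | with_reducible apply IntF.union | with_reducible apply IntF.iimage | with_reducible apply IntF.ite | with_reducible apply IntF.the | with_reducible apply IntF.irec | with_reducible apply IntF.succ | with_reducible apply IntF.val | with_reducible apply IntF.mk | (with_reducible refine Int.comp ?_ ?_; assumption) | (with_reducible refine Int.comp₂ ?_ ?_ ?_; assumption) | (with_reducible refine Int.comp₃ ?_ ?_ ?_ ?_; assumption) | (with_reducible refine Int.comp₄ ?_ ?_ ?_ ?_ ?_; assumption) | (with_reducible refine IntF.comp ?_ ?_; assumption) | (with_reducible refine IntF.comp₂ ?_ ?_ ?_; assumption) | (with_reducible refine IntF.comp₃ ?_ ?_ ?_ ?_; assumption) | with_reducible apply IntF.pair))) ?_ ?_ S h1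
        · refine IFin.empty.subset fun q hq => ?_
          rw [mem_sep (by (repeat' (first | with_reducible exact IntF.id | with_reducible exact IntF.fst' | with_reducible exact IntF.snd' | with_reducible exact IntF.const _ | with_reducible exact Int.const _ | assumption | with_reducible apply Int.and | with_reducible apply Int.or | with_reducible apply Int.not | with_reducible apply Int.imp | with_reducible apply Int.iff | with_reducible apply Int.ne | with_reducible apply Int.eq | with_reducible apply Int.mem | with_reducible apply Int.subset | with_reducible apply Int.ltN | with_reducible apply Int.leN | with_reducible_and_instances apply Int.le | with_reducible_and_instances apply Int.lt | with_reducible apply Int.all | with_reducible apply Int.ex | with_reducible apply IntF.fst | with_reducible apply IntF.snd | with_reducible apply IntF.app | with_reducible apply IntF.inl | with_reducible apply IntF.inr | with_reducible_and_instances apply IntF.mul | with_reducible_and_instances apply IntF.inv | with_reducible_and_instances apply IntF.add | with_reducible_and_instances apply IntF.sub | with_reducible_and_instances apply IntF.neg | with_reducible_and_instances apply IntF.smul | with_reducible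 apply Int.fin | with_reducible apply IntF.sep | with_reducible apply IntF.lam | with_reducible apply IntF.insert | with_reducible apply IntF.singleton | with_reducible apply IntF.union | with_reducible apply IntF.iimage | with_reducible apply IntF.ite | with_reducible apply IntF.the | with_reducible apply IntF.irec | with_reducible apply IntF.succ | with_reducible apply IntF.val | with_reducible apply IntF.mk | (with_reducible refine Int.comp ?_ ?_; assumption) | (with_reducible refine Int.comp₂ ?_ ?_ ?_; assumption) | (with_reducible refine Int.comp₃ ?_ ?_ ?_ ?_; assumption) | (with_reducible refine Int.comp₄ ?_ ?_ ?_ ?_ ?_; assumption) | (with_reducible refine IntF.comp ?_ ?_; assumption) | (with_reducible refine IntF.comp₂ ?_ ?_ ?_; assumption) | (with_reducible refine IntF.comp₃ ?_ ?_ ?_ ?_; assumption) | with_reducible apply IntF.pair)))] at hq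
          exact absurd hq.1 (by simp)
        · intro S i _ _ ih
          refine (ih.insert (i, {f i})).subset fun q hq => ?_
          rw [mem_sep (by (repeat' (first | with_reducible exact IntF.id | with_reducible exact IntF.fst' | with_reducible exact IntF.snd' | with_reducible exact IntF.const _ | with_reducible exact Int.const _ | assumption | with_reducible apply Int.and | with_reducible apply Int.or | with_reducible apply Int.not | with_reducible apply Int.imp | with_reducible apply Int.iff | with_reducible apply Int.ne | with_reducible apply Int.eq | with_reducible apply Int.mem | with_reducible apply Int.subset | with_reducible apply Int.ltN | with_reducible apply Int.leN | with_reducible_and_instances apply Int.le | with_reducible_and_instances apply Int.lt | with_reducible apply Int.all | with_reducible apply Int.ex | with_reducible apply IntF.fst | with_reducible apply IntF.snd | with_reducible apply IntF.app | with_reducible apply IntF.inl | with_reducible apply IntF.inr | with_reducible_and_instances apply IntF.mul | with_reducible_and_instances apply IntF.inv | with_reducible_and_instances apply IntF.add | with_reducible_and_instances apply IntF.sub | with_reducible_and_instances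 apply IntF.neg | with_reducible_and_instances apply IntF.smul | with_reducible apply Int.fin | with_reducible apply IntF.sep | with_reducible apply IntF.lam | with_reducible apply IntF.insert | with_reducible apply IntF.singleton | with_reducible apply IntF.union | with_reducible apply IntF.iimage | with_reducible apply IntF.ite | with_reducible apply IntF.the | with_reducible apply IntF.irec | with_reducible apply IntF.succ | with_reducible apply IntF.val | with_reducible apply IntF.mk | (with_reducible refine Int.comp ?_ ?_; assumption) | (with_reducible refine Int.comp₂ ?_ ?_ ?_; assumption) | (with_reducible refine Int.comp₃ ?_ ?_ ?_ ?_; assumption) | (with_reducible refine Int.comp₄ ?_ ?_ ?_ ?_ ?_; assumption) | (with_reducible refine IntF.comp ?_ ?_; assumption) | (with_reducible refine IntF.comp₂ ?_ ?_ ?_; assumption) | (with_reducible refine IntF.comp₃ ?_ ?_ ?_ ?_; assumption) | with_reducible apply IntF.pair)))] at hq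
          rw [mem_insert, mem_sep (by (repeat' (first | with_reducible exact IntF.id | with_reducible exact IntF.fst' | with_reducible exact IntF.snd' | with_reducible exact IntF.const _ | with_reducible exact Int.const _ | assumption | with_reducible apply Int.and | with_reducible apply Int.or | with_reducible apply Int.not | with_reducible apply Int.imp | with_reducible apply Int.iff | with_reducible apply Int.ne | with_reducible apply Int.eq | with_reducible apply Int.mem | with_reducible apply Int.subset | with_reducible apply Int.ltN | with_reducible apply Int.leN | with_reducible_and_instances apply Int.le | with_reducible_and_instances apply Int.lt | with_reducible apply Int.all | with_reducible apply Int.ex | with_reducible apply IntF.fst | with_reducible apply IntF.snd | with_reducible apply IntF.app | with_reducible apply IntF.inl | with_reducible apply IntF.inr | with_reducible_and_instances apply IntF.mul | with_reducible_and_instances apply IntF.inv | with_reducible_and_instances apply IntF.add | with_reducible_and_instances apply IntF.sub | with_reducible_and_instances apply IntF.neg | with_reducible_and_instances apply IntF.smul | with_reducible apply Int.fin | with_reducible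 apply IntF.sep | with_reducible apply IntF.lam | with_reducible apply IntF.insert | with_reducible apply IntF.singleton | with_reducible apply IntF.union | with_reducible apply IntF.iimage | with_reducible apply IntF.ite | with_reducible apply IntF.the | with_reducible apply IntF.irec | with_reducible apply IntF.succ | with_reducible apply IntF.val | with_reducible apply IntF.mk | (with_reducible refine Int.comp ?_ ?_; assumption) | (with_reducible refine Int.comp₂ ?_ ?_ ?_; assumption) | (with_reducible refine Int.comp₃ ?_ ?_ ?_ ?_; assumption) | (with_reducible refine Int.comp₄ ?_ ?_ ?_ ?_ ?_; assumption) | (with_reducible refine IntF.comp ?_ ?_; assumption) | (with_reducible refine IntF.comp₂ ?_ ?_ ?_; assumption) | (with_reducible refine IntF.comp₃ ?_ ?_ ?_ ?_; assumption) | with_reducible apply IntF.pair)))]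
          rcases mem_insert.1 hq.1 with h3 | h3
          · exact Or.inl (Prod.ext h3 (by rw [hq.2, h3]))
          · exact Or.inr ⟨h3, hq.2⟩
      refine ⟨code _, isFinite_of_fin hfin, fun q hq => ?_, fun g hg h3 => ?_⟩
      · obtain ⟨q, hq', rfl⟩ := mem_codeB.1 hq
        obtain ⟨h3, h4⟩ := (mem_sep iB).1 hq'
        refine ⟨code q.1, code q.2, code (f q.1), ordPair_iff.2 rfl, q.1.2, (hte _).2 ?_,
          app_code.2 ⟨q.1, rfl, rfl⟩, ?_⟩
        · intro z hz
          obtain ⟨y, -, rfl⟩ := mem_codeB.1 hz
          exact y.2
        · rw [h4]
          exact mem_codeB'.2 (mem_singleton.2 rfl)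
      · obtain ⟨g, rfl⟩ := mem_domP.1 hg
        refine mem_codeB'.2 (h2 g fun i hi => ?_)
        have h4 := h3 (code i) (code ({f i} : IPow N (Plain.El e))) (code (g i))
          ⟨_, ordPair_iff.2 rfl, (mem_codeB' (a := (i, ({f i} : IPow N (Plain.El e))))).2
            ((mem_sep iB).2 ⟨hi, rfl⟩)⟩ (app_code.2 ⟨i, rfl, rfl⟩)
        exact (mem_singleton.1 (mem_codeB'.1 h4)).symm
  · rintro ⟨h1, h2⟩
    obtain ⟨U, rfl⟩ := exists_codeB (α := IFun N (Plain.El j) (Plain.El e)) fun z hz =>
      mem_domP.1 (h1 z hz)
    refine mem_codeB'.2 ((mem_sep int_OpD).2 fun f hf => ?_)
    obtain ⟨b, h3, h4, h5⟩ := h2 (code f) (mem_codeB'.2 hf)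
    obtain ⟨B, rfl⟩ := exists_codeB (α := Plain.El j × IPow N (Plain.El e)) (u := b)
      fun q hq => by
        obtain ⟨i, v, y, h6, h7, h8, -⟩ := h4 q hq
        obtain ⟨V, rfl⟩ := exCode ((hte v).1 h8)
        exact ⟨(⟨i, h7⟩, V), (ordPair_iff.1 h6).symm⟩
    have iS : Int N (fun i : Plain.El j => ∃ q, q ∈ B ∧ q.1 = i) := by (repeat' (first | with_reducible exact IntF.id | with_reducible exact IntF.fst' | with_reducible exact IntF.snd' | with_reducible exact IntF.const _ | with_reducible exact Int.const _ | assumption | with_reducible apply Int.and | with_reducible apply Int.or | with_reducible apply Int.not | with_reducible apply Int.imp | with_reducible apply Int.iff | with_reducible apply Int.ne | with_reducible apply Int.eq | with_reducible apply Int.mem | with_reducible apply Int.subset | with_reducible apply Int.ltN | with_reducible apply Int.leN | with_reducible_and_instances apply Int.le | with_reducible_and_instances apply Int.lt | with_reducible apply Int.all | with_reducible apply Int.ex | with_reducible apply IntF.fst | with_reducible apply IntF.snd | with_reducible apply IntF.app | with_reducible apply IntF.inl | with_reducible apply IntF.inr | with_reducible_and_instances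 apply IntF.mul | with_reducible_and_instances apply IntF.inv | with_reducible_and_instances apply IntF.add | with_reducible_and_instances apply IntF.sub | with_reducible_and_instances apply IntF.neg | with_reducible_and_instances apply IntF.smul | with_reducible apply Int.fin | with_reducible apply IntF.sep | with_reducible apply IntF.lam | with_reducible apply IntF.insert | with_reducible apply IntF.singleton | with_reducible apply IntF.union | with_reducible apply IntF.iimage | with_reducible apply IntF.ite | with_reducible apply IntF.the | with_reducible apply IntF.irec | with_reducible apply IntF.succ | with_reducible apply IntF.val | with_reducible apply IntF.mk | (with_reducible refine Int.comp ?_ ?_; assumption) | (with_reducible refine Int.comp₂ ?_ ?_ ?_; assumption) | (with_reducible refine Int.comp₃ ?_ ?_ ?_ ?_; assumption) | (with_reducible refine Int.comp₄ ?_ ?_ ?_ ?_ ?_; assumption) | (with_reducible refine IntF.comp ?_ ?_; assumption) | (with_reducible refine IntF.comp₂ ?_ ?_ ?_; assumption) | (with_reducible refine IntF.comp₃ ?_ ?_ ?_ ?_; assumption) | with_reducible apply IntF.pair))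
    refine ⟨sep N fun i : Plain.El j => ∃ q, q ∈ B ∧ q.1 = i, ?_, fun g hg => ?_⟩
    · refine IFin.ind (p := fun B : IPow N (Plain.El j × IPow N (Plain.El e)) =>
        IFin (sep N fun i : Plain.El j => ∃ q, q ∈ B ∧ q.1 = i)) (by (repeat' (first | with_reducible exact IntF.id | with_reducible exact IntF.fst' | with_reducible exact IntF.snd' | with_reducible exact IntF.const _ | with_reducible exact Int.const _ | assumption | with_reducible apply Int.and | with_reducible apply Int.or | with_reducible apply Int.not | with_reducible apply Int.imp | with_reducible apply Int.iff | with_reducible apply Int.ne | with_reducible apply Int.eq | with_reducible apply Int.mem | with_reducible apply Int.subset | with_reducible apply Int.ltN | with_reducible apply Int.leN | with_reducible_and_instances apply Int.le | with_reducible_and_instances apply Int.lt | with_reducible apply Int.all | with_reducible apply Int.ex | with_reducible apply IntF.fst | with_reducible apply IntF.snd | with_reducible apply IntF.app | with_reducible apply IntF.inl | with_reducible apply IntF.inr | with_reducible_and_instances apply IntF.mul | with_reducible_and_instances apply IntF.inv | with_reducible_and_instances apply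 IntF.add | with_reducible_and_instances apply IntF.sub | with_reducible_and_instances apply IntF.neg | with_reducible_and_instances apply IntF.smul | with_reducible apply Int.fin | with_reducible apply IntF.sep | with_reducible apply IntF.lam | with_reducible apply IntF.insert | with_reducible apply IntF.singleton | with_reducible apply IntF.union | with_reducible apply IntF.iimage | with_reducible apply IntF.ite | with_reducible apply IntF.the | with_reducible apply IntF.irec | with_reducible apply IntF.succ | with_reducible apply IntF.val | with_reducible apply IntF.mk | (with_reducible refine Int.comp ?_ ?_; assumption) | (with_reducible refine Int.comp₂ ?_ ?_ ?_; assumption) | (with_reducible refine Int.comp₃ ?_ ?_ ?_ ?_; assumption) | (with_reducible refine Int.comp₄ ?_ ?_ ?_ ?_ ?_; assumption) | (with_reducible refine IntF.comp ?_ ?_; assumption) | (with_reducible refine IntF.comp₂ ?_ ?_ ?_; assumption) | (with_reducible refine IntF.comp₃ ?_ ?_ ?_ ?_; assumption) | with_reducible apply IntF.pair))) ?_ ?_ B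
          (fin_of_isFinite h3)
      · refine IFin.empty.subset fun q hq => ?_
        rw [mem_sep (by (repeat' (first | with_reducible exact IntF.id | with_reducible exact IntF.fst' | with_reducible exact IntF.snd' | with_reducible exact IntF.const _ | with_reducible exact Int.const _ | assumption | with_reducible apply Int.and | with_reducible apply Int.or | with_reducible apply Int.not | with_reducible apply Int.imp | with_reducible apply Int.iff | with_reducible apply Int.ne | with_reducible apply Int.eq | with_reducible apply Int.mem | with_reducible apply Int.subset | with_reducible apply Int.ltN | with_reducible apply Int.leN | with_reducible_and_instances apply Int.le | with_reducible_and_instances apply Int.lt | with_reducible apply Int.all | with_reducible apply Int.ex | with_reducible apply IntF.fst | with_reducible apply IntF.snd | with_reducible apply IntF.app | with_reducible apply IntF.inl | with_reducible apply IntF.inr | with_reducible_and_instances apply IntF.mul | with_reducible_and_instances apply IntF.inv | with_reducible_and_instances apply IntF.add | with_reducible_and_instances apply IntF.sub | with_reducible_and_instances apply IntF.neg | with_reducible_and_instances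 apply IntF.smul | with_reducible apply Int.fin | with_reducible apply IntF.sep | with_reducible apply IntF.lam | with_reducible apply IntF.insert | with_reducible apply IntF.singleton | with_reducible apply IntF.union | with_reducible apply IntF.iimage | with_reducible apply IntF.ite | with_reducible apply IntF.the | with_reducible apply IntF.irec | with_reducible apply IntF.succ | with_reducible apply IntF.val | with_reducible apply IntF.mk | (with_reducible refine Int.comp ?_ ?_; assumption) | (with_reducible refine Int.comp₂ ?_ ?_ ?_; assumption) | (with_reducible refine Int.comp₃ ?_ ?_ ?_ ?_; assumption) | (with_reducible refine Int.comp₄ ?_ ?_ ?_ ?_ ?_; assumption) | (with_reducible refine IntF.comp ?_ ?_; assumption) | (with_reducible refine IntF.comp₂ ?_ ?_ ?_; assumption) | (with_reducible refine IntF.comp₃ ?_ ?_ ?_ ?_; assumption) | with_reducible apply IntF.pair)))] at hq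
        obtain ⟨q, h6, -⟩ := hq
        exact absurd h6 (by simp)
      · intro B q _ _ ih
        refine (ih.insert q.1).subset fun i hi => ?_
        rw [mem_sep (by (repeat' (first | with_reducible exact IntF.id | with_reducible exact IntF.fst' | with_reducible exact IntF.snd' | with_reducible exact IntF.const _ | with_reducible exact Int.const _ | assumption | with_reducible apply Int.and | with_reducible apply Int.or | with_reducible apply Int.not | with_reducible apply Int.imp | with_reducible apply Int.iff | with_reducible apply Int.ne | with_reducible apply Int.eq | with_reducible apply Int.mem | with_reducible apply Int.subset | with_reducible apply Int.ltN | with_reducible apply Int.leN | with_reducible_and_instances apply Int.le | with_reducible_and_instances apply Int.lt | with_reducible apply Int.all | with_reducible apply Int.ex | with_reducible apply IntF.fst | with_reducible apply IntF.snd | with_reducible apply IntF.app | with_reducible apply IntF.inl | with_reducible apply IntF.inr | with_reducible_and_instances apply IntF.mul | with_reducible_and_instances apply IntF.inv | with_reducible_and_instances apply IntF.add | with_reducible_and_instances apply IntF.sub | with_reducible_and_instances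 apply IntF.neg | with_reducible_and_instances apply IntF.smul | with_reducible apply Int.fin | with_reducible apply IntF.sep | with_reducible apply IntF.lam | with_reducible apply IntF.insert | with_reducible apply IntF.singleton | with_reducible apply IntF.union | with_reducible apply IntF.iimage | with_reducible apply IntF.ite | with_reducible apply IntF.the | with_reducible apply IntF.irec | with_reducible apply IntF.succ | with_reducible apply IntF.val | with_reducible apply IntF.mk | (with_reducible refine Int.comp ?_ ?_; assumption) | (with_reducible refine Int.comp₂ ?_ ?_ ?_; assumption) | (with_reducible refine Int.comp₃ ?_ ?_ ?_ ?_; assumption) | (with_reducible refine Int.comp₄ ?_ ?_ ?_ ?_ ?_; assumption) | (with_reducible refine IntF.comp ?_ ?_; assumption) | (with_reducible refine IntF.comp₂ ?_ ?_ ?_; assumption) | (with_reducible refine IntF.comp₃ ?_ ?_ ?_ ?_; assumption) | with_reducible apply IntF.pair)))] at hi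
        rw [mem_insert, mem_sep (by (repeat' (first | with_reducible exact IntF.id | with_reducible exact IntF.fst' | with_reducible exact IntF.snd' | with_reducible exact IntF.const _ | with_reducible exact Int.const _ | assumption | with_reducible apply Int.and | with_reducible apply Int.or | with_reducible apply Int.not | with_reducible apply Int.imp | with_reducible apply Int.iff | with_reducible apply Int.ne | with_reducible apply Int.eq | with_reducible apply Int.mem | with_reducible apply Int.subset | with_reducible apply Int.ltN | with_reducible apply Int.leN | with_reducible_and_instances apply Int.le | with_reducible_and_instances apply Int.lt | with_reducible apply Int.all | with_reducible apply Int.ex | with_reducible apply IntF.fst | with_reducible apply IntF.snd | with_reducible apply IntF.app | with_reducible apply IntF.inl | with_reducible apply IntF.inr | with_reducible_and_instances apply IntF.mul | with_reducible_and_instances apply IntF.inv | with_reducible_and_instances apply IntF.add | with_reducible_and_instances apply IntF.sub | with_reducible_and_instances apply IntF.neg | with_reducible_and_instances apply IntF.smul | with_reducible apply Int.fin | with_reducible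 apply IntF.sep | with_reducible apply IntF.lam | with_reducible apply IntF.insert | with_reducible apply IntF.singleton | with_reducible apply IntF.union | with_reducible apply IntF.iimage | with_reducible apply IntF.ite | with_reducible apply IntF.the | with_reducible apply IntF.irec | with_reducible apply IntF.succ | with_reducible apply IntF.val | with_reducible apply IntF.mk | (with_reducible refine Int.comp ?_ ?_; assumption) | (with_reducible refine Int.comp₂ ?_ ?_ ?_; assumption) | (with_reducible refine Int.comp₃ ?_ ?_ ?_ ?_; assumption) | (with_reducible refine Int.comp₄ ?_ ?_ ?_ ?_ ?_; assumption) | (with_reducible refine IntF.comp ?_ ?_; assumption) | (with_reducible refine IntF.comp₂ ?_ ?_ ?_; assumption) | (with_reducible refine IntF.comp₃ ?_ ?_ ?_ ?_; assumption) | with_reducible apply IntF.pair)))]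
        obtain ⟨q', h6, h7⟩ := hi
        rcases mem_insert.1 h6 with h8 | h8
        · exact Or.inl (by rw [← h7, h8])
        · exact Or.inr ⟨q', h8, h7⟩
    · refine mem_codeB'.1 (h5 (code g) (code_mem_domP g) fun i v y hi hy => ?_)
      obtain ⟨p, h6, h7⟩ := hi
      obtain ⟨i', v', y', h8, h9, h10, h11, h12⟩ := h4 p h7
      have h13 := (ordPair_iff.1 h6).symm.trans (ordPair_iff.1 h8)
      obtain ⟨rfl, rfl⟩ := op_inj h13
      obtain ⟨q, hq, rfl⟩ := mem_codeB.1 h7
      have h14 : code (M := N) q = op (code q.1) (code q.2) := rfl
      rw [ordPair_iff.1 h6] at h14
      obtain ⟨rfl, rfl⟩ := op_inj h14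
      obtain ⟨k, h15, rfl⟩ := app_code.1 hy
      obtain ⟨k', h16, rfl⟩ := app_code.1 h11
      obtain rfl := ITy.inj h15
      obtain rfl := ITy.inj h16
      rwa [← hg _ ((mem_sep iS).2 ⟨q, hq, rfl⟩)]

/-- Continuous functions to a discrete space. -/
def CtD {β : Type u} [ITy N β] (O : IPow N (Plain.El x) → Prop) (g : Plain.El x → β) : Prop :=
  ∀ z, ∃ U, O U ∧ z ∈ U ∧ ∀ w, w ∈ U → g w = g z

/-- The set of the continuous functions to the discrete space. -/
noncomputable def KK (t x e : N) : N :=
  code (M := N) (sep N fun g : IFun N (Plain.El x) (Plain.El e) => CtD (Ox t) g)

theorem int_CtD : Int N (fun g : IFun N (Plain.El x) (Plain.El e) => CtD (Ox t) g) := by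
  have iO := int_Ox (t := t) (x := x)
  unfold CtD
  (repeat' (first | with_reducible exact IntF.id | with_reducible exact IntF.fst' | with_reducible exact IntF.snd' | with_reducible exact IntF.const _ | with_reducible exact Int.const _ | assumption | with_reducible apply Int.and | with_reducible apply Int.or | with_reducible apply Int.not | with_reducible apply Int.imp | with_reducible apply Int.iff | with_reducible apply Int.ne | with_reducible apply Int.eq | with_reducible apply Int.mem | with_reducible apply Int.subset | with_reducible apply Int.ltN | with_reducible apply Int.leN | with_reducible_and_instances apply Int.le | with_reducible_and_instances apply Int.lt | with_reducible apply Int.all | with_reducible apply Int.ex | with_reducible apply IntF.fst | with_reducible apply IntF.snd | with_reducible apply IntF.app | with_reducible apply IntF.inl | with_reducible apply IntF.inr | with_reducible_and_instances apply IntF.mul | with_reducible_and_instances apply IntF.inv | with_reducible_and_instances apply IntF.add | with_reducible_and_instances apply IntF.sub | with_reducible_and_instances apply IntF.neg | with_reducible_and_instances apply IntF.smul | with_reducible apply Int.fin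 | with_reducible apply IntF.sep | with_reducible apply IntF.lam | with_reducible apply IntF.insert | with_reducible apply IntF.singleton | with_reducible apply IntF.union | with_reducible apply IntF.iimage | with_reducible apply IntF.ite | with_reducible apply IntF.the | with_reducible apply IntF.irec | with_reducible apply IntF.succ | with_reducible apply IntF.val | with_reducible apply IntF.mk | (with_reducible refine Int.comp ?_ ?_; assumption) | (with_reducible refine Int.comp₂ ?_ ?_ ?_; assumption) | (with_reducible refine Int.comp₃ ?_ ?_ ?_ ?_; assumption) | (with_reducible refine Int.comp₄ ?_ ?_ ?_ ?_ ?_; assumption) | (with_reducible refine IntF.comp ?_ ?_; assumption) | (with_reducible refine IntF.comp₂ ?_ ?_ ?_; assumption) | (with_reducible refine IntF.comp₃ ?_ ?_ ?_ ?_; assumption) | with_reducible apply IntF.pair))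

theorem isContinuousSet_KK (ht : IsTopology t x) (hte : IsPow te e) :
    IsContinuousSet (KK t x e) t x te e := by
  intro f
  constructor
  · intro hf
    obtain ⟨g, hg, rfl⟩ := mem_codeB.1 hf
    have hg := (mem_sep int_CtD).1 hg
    refine ⟨(isFunSet_dom _).1 (code_mem_domP g), fun v z y hv hz hy => ?_⟩
    obtain ⟨z, rfl, rfl⟩ := app_code.1 hz
    obtain ⟨U, h1, h2, h3⟩ := hg z
    refine ⟨code U, h1, mem_codeB'.2 h2, fun z' y' hz' hy' => ?_⟩
    obtain ⟨w, rfl, rfl⟩ := app_code.1 hy'
    rwa [h3 w (mem_codeB'.1 hz')]
  · rintro ⟨h1, h2⟩
    obtain ⟨g, rfl⟩ := mem_domP.1 ((isFunSet_dom (j := x) (d := e) _).2 h1)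
    refine mem_codeB'.2 ((mem_sep int_CtD).2 fun z => ?_)
    obtain ⟨u, h3, h4, h5⟩ := h2 (code ({g z} : IPow N (Plain.El e))) (code z) (code (g z))
      ((hte _).2 fun y hy => by
        obtain ⟨y, -, rfl⟩ := mem_codeB.1 hy
        exact y.2) (app_code.2 ⟨z, rfl, rfl⟩) (mem_codeB'.2 (mem_singleton.2 rfl))
    obtain ⟨U, rfl⟩ := exCode (ht.sub u h3)
    refine ⟨U, h3, mem_codeB'.1 h4, fun w hw => ?_⟩
    exact mem_singleton.1 (mem_codeB'.1 (h5 (code w) (code (g w)) (mem_codeB'.2 hw)
      (app_code.2 ⟨w, rfl, rfl⟩)))

/-- The functions of the set. -/
theorem exists_gg : ∃ gg : Plain.El (KK t x e) → IFun N (Plain.El x) (Plain.El e),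
    IntF N gg ∧ (∀ i, CtD (Ox t) (gg i)) ∧ (∀ i, code (M := N) (gg i) = i.1) ∧
      ∀ g : IFun N (Plain.El x) (Plain.El e), CtD (Ox t) g → ∃ i, gg i = g := by
  have hgex : ∀ i : Plain.El (KK t x e), ∃ g : IFun N (Plain.El x) (Plain.El e),
      CtD (Ox t) g ∧ code (M := N) g = i.1 := by
    intro i
    obtain ⟨g, h1, h2⟩ := mem_codeB.1 i.2
    exact ⟨g, (mem_sep int_CtD).1 h1, h2⟩
  choose gg hg1 hg2 using hgex
  refine ⟨gg, ?_, hg1, hg2, fun g hg => ?_⟩
  · have h1 : Int N (fun q : Plain.El (KK t x e) × IFun N (Plain.El x) (Plain.El e) =>
        code (M := N) q.2 = code (M := N) q.1) := by
      refine Int.of_D₂ (S := fun v => v 1 = v 0) ?_ fun p n => ?_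
      · exact D.eqf (DF.var _) (DF.var _)
      · exact Iff.rfl
    refine IntF.of_rel (r := fun i g => code (M := N) g = code (M := N) i) h1 fun i g => ?_
    exact ⟨fun h => ITy.inj (M := N) ((hg2 i).trans h.symm), fun h => h ▸ hg2 i⟩
  · exact ⟨⟨code g, mem_codeB'.2 ((mem_sep int_CtD).2 hg)⟩, ITy.inj (M := N) (hg2 _)⟩

/-- The evaluation map. -/
noncomputable def ev (F : Plain.El j × Plain.El x → Plain.El e) (z : Plain.El x) :
    IFun N (Plain.El j) (Plain.El e) := lam N fun i => F (i, z)

variable {F : Plain.El j × Plain.El x → Plain.El e}

theorem int_ev (hF : IntF N F) : IntF N (ev F) := by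
  unfold ev
  (repeat' (first | with_reducible exact IntF.id | with_reducible exact IntF.fst' | with_reducible exact IntF.snd' | with_reducible exact IntF.const _ | with_reducible exact Int.const _ | assumption | with_reducible apply Int.and | with_reducible apply Int.or | with_reducible apply Int.not | with_reducible apply Int.imp | with_reducible apply Int.iff | with_reducible apply Int.ne | with_reducible apply Int.eq | with_reducible apply Int.mem | with_reducible apply Int.subset | with_reducible apply Int.ltN | with_reducible apply Int.leN | with_reducible_and_instances apply Int.le | with_reducible_and_instances apply Int.lt | with_reducible apply Int.all | with_reducible apply Int.ex | with_reducible apply IntF.fst | with_reducible apply IntF.snd | with_reducible apply IntF.app | with_reducible apply IntF.inl | with_reducible apply IntF.inr | with_reducible_and_instances apply IntF.mul | with_reducible_and_instances apply IntF.inv | with_reducible_and_instances apply IntF.add | with_reducible_and_instances apply IntF.sub | with_reducible_and_instances apply IntF.neg | with_reducible_and_instances apply IntF.smul | with_reducible apply Int.fin | with_reducible apply IntF.sep | with_reducible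 apply IntF.lam | with_reducible apply IntF.insert | with_reducible apply IntF.singleton | with_reducible apply IntF.union | with_reducible apply IntF.iimage | with_reducible apply IntF.ite | with_reducible apply IntF.the | with_reducible apply IntF.irec | with_reducible apply IntF.succ | with_reducible apply IntF.val | with_reducible apply IntF.mk | (with_reducible refine Int.comp ?_ ?_; assumption) | (with_reducible refine Int.comp₂ ?_ ?_ ?_; assumption) | (with_reducible refine Int.comp₃ ?_ ?_ ?_ ?_; assumption) | (with_reducible refine Int.comp₄ ?_ ?_ ?_ ?_ ?_; assumption) | (with_reducible refine IntF.comp ?_ ?_; assumption) | (with_reducible refine IntF.comp₂ ?_ ?_ ?_; assumption) | (with_reducible refine IntF.comp₃ ?_ ?_ ?_ ?_; assumption) | with_reducible apply IntF.pair))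

theorem ev_apply (hF : IntF N F) (z : Plain.El x) (i : Plain.El j) : ev F z i = F (i, z) := by
  unfold ev
  rw [lam_apply (by (repeat' (first | with_reducible exact IntF.id | with_reducible exact IntF.fst' | with_reducible exact IntF.snd' | with_reducible exact IntF.const _ | with_reducible exact Int.const _ | assumption | with_reducible apply Int.and | with_reducible apply Int.or | with_reducible apply Int.not | with_reducible apply Int.imp | with_reducible apply Int.iff | with_reducible apply Int.ne | with_reducible apply Int.eq | with_reducible apply Int.mem | with_reducible apply Int.subset | with_reducible apply Int.ltN | with_reducible apply Int.leN | with_reducible_and_instances apply Int.le | with_reducible_and_instances apply Int.lt | with_reducible apply Int.all | with_reducible apply Int.ex | with_reducible apply IntF.fst | with_reducible apply IntF.snd | with_reducible apply IntF.app | with_reducible apply IntF.inl | with_reducible apply IntF.inr | with_reducible_and_instances apply IntF.mul | with_reducible_and_instances apply IntF.inv | with_reducible_and_instances apply IntF.add | with_reducible_and_instances apply IntF.sub | with_reducible_and_instances apply IntF.neg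 | with_reducible_and_instances apply IntF.smul | with_reducible apply Int.fin | with_reducible apply IntF.sep | with_reducible apply IntF.lam | with_reducible apply IntF.insert | with_reducible apply IntF.singleton | with_reducible apply IntF.union | with_reducible apply IntF.iimage | with_reducible apply IntF.ite | with_reducible apply IntF.the | with_reducible apply IntF.irec | with_reducible apply IntF.succ | with_reducible apply IntF.val | with_reducible apply IntF.mk | (with_reducible refine Int.comp ?_ ?_; assumption) | (with_reducible refine Int.comp₂ ?_ ?_ ?_; assumption) | (with_reducible refine Int.comp₃ ?_ ?_ ?_ ?_; assumption) | (with_reducible refine Int.comp₄ ?_ ?_ ?_ ?_ ?_; assumption) | (with_reducible refine IntF.comp ?_ ?_; assumption) | (with_reducible refine IntF.comp₂ ?_ ?_ ?_; assumption) | (with_reducible refine IntF.comp₃ ?_ ?_ ?_ ?_; assumption) | with_reducible apply IntF.pair)))]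

/-- The graph of the evaluation map. -/
noncomputable def evr (F : Plain.El j × Plain.El x → Plain.El e) : N :=
  relc N fun (z : Plain.El x) (f : IFun N (Plain.El j) (Plain.El e)) => ev F z = f

theorem app_evr (hF : IntF N F) {z f : N} : App (evr F) z f ↔ ∃ s, z = code s ∧
    f = code (ev F s) := by
  have iE := int_ev hF
  have hR : Int N (fun q : Plain.El x × IFun N (Plain.El j) (Plain.El e) =>
      ev F q.1 = q.2) := by (repeat' (first | with_reducible exact IntF.id | with_reducible exact IntF.fst' | with_reducible exact IntF.snd' | with_reducible exact IntF.const _ | with_reducible exact Int.const _ | assumption | with_reducible apply Int.and | with_reducible apply Int.or | with_reducible apply Int.not | with_reducible apply Int.imp | with_reducible apply Int.iff | with_reducible apply Int.ne | with_reducible apply Int.eq | with_reducible apply Int.mem | with_reducible apply Int.subset | with_reducible apply Int.ltN | with_reducible apply Int.leN | with_reducible_and_instances apply Int.le | with_reducible_and_instances apply Int.lt | with_reducible apply Int.all | with_reducible apply Int.ex | with_reducible apply IntF.fst | with_reducible apply IntF.snd | with_reducible apply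 IntF.app | with_reducible apply IntF.inl | with_reducible apply IntF.inr | with_reducible_and_instances apply IntF.mul | with_reducible_and_instances apply IntF.inv | with_reducible_and_instances apply IntF.add | with_reducible_and_instances apply IntF.sub | with_reducible_and_instances apply IntF.neg | with_reducible_and_instances apply IntF.smul | with_reducible apply Int.fin | with_reducible apply IntF.sep | with_reducible apply IntF.lam | with_reducible apply IntF.insert | with_reducible apply IntF.singleton | with_reducible apply IntF.union | with_reducible apply IntF.iimage | with_reducible apply IntF.ite | with_reducible apply IntF.the | with_reducible apply IntF.irec | with_reducible apply IntF.succ | with_reducible apply IntF.val | with_reducible apply IntF.mk | (with_reducible refine Int.comp ?_ ?_; assumption) | (with_reducible refine Int.comp₂ ?_ ?_ ?_; assumption) | (with_reducible refine Int.comp₃ ?_ ?_ ?_ ?_; assumption) | (with_reducible refine Int.comp₄ ?_ ?_ ?_ ?_ ?_; assumption) | (with_reducible refine IntF.comp ?_ ?_; assumption) | (with_reducible refine IntF.comp₂ ?_ ?_ ?_; assumption) | (with_reducible refine IntF.comp₃ ?_ ?_ ?_ ?_; assumption) | with_reducible apply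 IntF.pair))
  unfold evr
  rw [app_relc hR]
  constructor
  · rintro ⟨s, g, rfl, h2, h3⟩
    exact ⟨s, h2, h3⟩
  · rintro ⟨s, h2, h3⟩
    exact ⟨s, _, rfl, h2, h3⟩

theorem isFun_evr (hF : IntF N F) : IsFun (evr F) x (pcc j e) := by
  have iE := int_ev hF
  have hR : Int N (fun q : Plain.El x × IFun N (Plain.El j) (Plain.El e) =>
      ev F q.1 = q.2) := by (repeat' (first | with_reducible exact IntF.id | with_reducible exact IntF.fst' | with_reducible exact IntF.snd' | with_reducible exact IntF.const _ | with_reducible exact Int.const _ | assumption | with_reducible apply Int.and | with_reducible apply Int.or | with_reducible apply Int.not | with_reducible apply Int.imp | with_reducible apply Int.iff | with_reducible apply Int.ne | with_reducible apply Int.eq | with_reducible apply Int.mem | with_reducible apply Int.subset | with_reducible apply Int.ltN | with_reducible apply Int.leN | with_reducible_and_instances apply Int.le | with_reducible_and_instances apply Int.lt | with_reducible apply Int.all | with_reducible apply Int.ex | with_reducible apply IntF.fst | with_reducible apply IntF.snd | with_reducible apply IntF.app | with_reducible apply IntF.inl | with_reducible apply IntF.inr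 | with_reducible_and_instances apply IntF.mul | with_reducible_and_instances apply IntF.inv | with_reducible_and_instances apply IntF.add | with_reducible_and_instances apply IntF.sub | with_reducible_and_instances apply IntF.neg | with_reducible_and_instances apply IntF.smul | with_reducible apply Int.fin | with_reducible apply IntF.sep | with_reducible apply IntF.lam | with_reducible apply IntF.insert | with_reducible apply IntF.singleton | with_reducible apply IntF.union | with_reducible apply IntF.iimage | with_reducible apply IntF.ite | with_reducible apply IntF.the | with_reducible apply IntF.irec | with_reducible apply IntF.succ | with_reducible apply IntF.val | with_reducible apply IntF.mk | (with_reducible refine Int.comp ?_ ?_; assumption) | (with_reducible refine Int.comp₂ ?_ ?_ ?_; assumption) | (with_reducible refine Int.comp₃ ?_ ?_ ?_ ?_; assumption) | (with_reducible refine Int.comp₄ ?_ ?_ ?_ ?_ ?_; assumption) | (with_reducible refine IntF.comp ?_ ?_; assumption) | (with_reducible refine IntF.comp₂ ?_ ?_ ?_; assumption) | (with_reducible refine IntF.comp₃ ?_ ?_ ?_ ?_; assumption) | with_reducible apply IntF.pair))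
  refine ⟨fun q hq => ?_, fun z hz => ?_⟩
  · obtain ⟨s, f, rfl, rfl⟩ := (mem_relc hR).1 hq
    exact ⟨code s, code (ev F s), s.2, code_mem_domP _, ordPair_iff.2 rfl⟩
  · refine ⟨code (ev F ⟨z, hz⟩), (app_evr hF).2 ⟨⟨z, hz⟩, rfl, rfl⟩, fun y hy => ?_⟩
    obtain ⟨s, h2, rfl⟩ := (app_evr hF).1 hy
    have h3 : s = ⟨z, hz⟩ := ITy.inj (M := N) h2.symm
    rw [h3]

/-- Embeddings into powers of discrete spaces. -/
theorem isEmbedding_evr (hF : IntF N F) (ht : IsTopology t x)
    (hT : ∀ z w : Plain.El x, z ≠ w → ∃ U, Ox t U ∧ z ∈ U ∧ w ∉ U)
    (h1 : ∀ i (z : Plain.El x), ∃ U, Ox t U ∧ z ∈ U ∧ ∀ w, w ∈ U → F (i, w) = F (i, z))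
    (h3 : ∀ U (z : Plain.El x), Ox t U → z ∈ U → ∃ S : IPow N (Plain.El j), IFin S ∧
      ∀ w, (∀ i, i ∈ S → F (i, w) = F (i, z)) → w ∈ U) :
    IsEmbedding t x (pss j e) (pcc j e) (evr F) := by
  have iE := int_ev hF
  have iO := int_Ox (t := t) (x := x)
  have hS := spoX ht
  have hinj : ∀ z w, ev F z = ev F w → z = w := by
    intro z w h
    by_contra hne
    obtain ⟨U, hU, hzU, hwU⟩ := hT z w hne
    obtain ⟨S, -, hS'⟩ := h3 U z hU hzU
    refine hwU (hS' w fun i _ => ?_)
    have h4 := ev_apply hF z i
    have h5 := ev_apply hF w i
    rw [h] at h4
    exact h5.symm.trans h4
  refine ⟨⟨isFun_evr hF, fun z z' y h5 h6 => ?_⟩, fun u => ⟨fun hu => ?_, ?_⟩⟩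
  · obtain ⟨s, rfl, rfl⟩ := (app_evr hF).1 h5
    obtain ⟨s', rfl, h7⟩ := (app_evr hF).1 h6
    rw [hinj s s' (ITy.inj (M := N) h7)]
  · obtain ⟨U, rfl⟩ := exCode (ht.sub u hu)
    refine ⟨ht.sub _ hu, ?_⟩
    have hI : Int N (fun f : IFun N (Plain.El j) (Plain.El e) =>
        ∃ (S : IPow N (Plain.El j)) (z : Plain.El x), IFin S ∧ (∀ i, i ∈ S → f i = ev F z i) ∧
          ∀ w, (∀ i, i ∈ S → F (i, w) = F (i, z)) → w ∈ U) := by
      (repeat' (first | with_reducible exact IntF.id | with_reducible exact IntF.fst' | with_reducible exact IntF.snd' | with_reducible exact IntF.const _ | with_reducible exact Int.const _ | assumption | with_reducible apply Int.and | with_reducible apply Int.or | with_reducible apply Int.not | with_reducible apply Int.imp | with_reducible apply Int.iff | with_reducible apply Int.ne | with_reducible apply Int.eq | with_reducible apply Int.mem | with_reducible apply Int.subset | with_reducible apply Int.ltN | with_reducible apply Int.leN | with_reducible_and_instances apply Int.le | with_reducible_and_instances apply Int.lt | with_reducible apply Int.all | with_reducible apply Int.ex | with_reducible apply IntF.fst | with_reducible apply IntF.snd | with_reducible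 apply IntF.app | with_reducible apply IntF.inl | with_reducible apply IntF.inr | with_reducible_and_instances apply IntF.mul | with_reducible_and_instances apply IntF.inv | with_reducible_and_instances apply IntF.add | with_reducible_and_instances apply IntF.sub | with_reducible_and_instances apply IntF.neg | with_reducible_and_instances apply IntF.smul | with_reducible apply Int.fin | with_reducible apply IntF.sep | with_reducible apply IntF.lam | with_reducible apply IntF.insert | with_reducible apply IntF.singleton | with_reducible apply IntF.union | with_reducible apply IntF.iimage | with_reducible apply IntF.ite | with_reducible apply IntF.the | with_reducible apply IntF.irec | with_reducible apply IntF.succ | with_reducible apply IntF.val | with_reducible apply IntF.mk | (with_reducible refine Int.comp ?_ ?_; assumption) | (with_reducible refine Int.comp₂ ?_ ?_ ?_; assumption) | (with_reducible refine Int.comp₃ ?_ ?_ ?_ ?_; assumption) | (with_reducible refine Int.comp₄ ?_ ?_ ?_ ?_ ?_; assumption) | (with_reducible refine IntF.comp ?_ ?_; assumption) | (with_reducible refine IntF.comp₂ ?_ ?_ ?_; assumption) | (with_reducible refine IntF.comp₃ ?_ ?_ ?_ ?_; assumption) | with_reducible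 apply IntF.pair))
    refine ⟨code (sep N fun f : IFun N (Plain.El j) (Plain.El e) =>
        ∃ (S : IPow N (Plain.El j)) (z : Plain.El x), IFin S ∧ (∀ i, i ∈ S → f i = ev F z i) ∧
          ∀ w, (∀ i, i ∈ S → F (i, w) = F (i, z)) → w ∈ U),
      mem_codeB'.2 ((mem_sep int_OpD).2 fun f hf => ?_), fun z f hzf => ?_⟩
    · obtain ⟨S, z, h4, h5, h6⟩ := (mem_sep hI).1 hf
      exact ⟨S, h4, fun g hg => (mem_sep hI).2 ⟨S, z, h4, fun i hi =>
        (hg i hi).symm.trans (h5 i hi), h6⟩⟩
    · obtain ⟨s, rfl, rfl⟩ := (app_evr hF).1 hzf
      rw [mem_codeP, mem_codeP, mem_sep hI]
      constructor
      · intro h5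
        obtain ⟨S, h6, h7⟩ := h3 U s hu h5
        exact ⟨S, s, h6, fun i _ => rfl, h7⟩
      · rintro ⟨S, z, h6, h7, h8⟩
        refine h8 s fun i hi => ?_
        have h9 := h7 i hi
        rwa [ev_apply hF, ev_apply hF] at h9
  · rintro ⟨h4, v, h5, h6⟩
    obtain ⟨V, h7, rfl⟩ := mem_codeB.1 h5
    rw [mem_sep int_OpD] at h7
    obtain ⟨U, rfl⟩ := exCode h4
    have h9 : ∀ s : Plain.El x, s ∈ U ↔ ev F s ∈ V := fun s => by
      have h10 := h6 (code s) (code (ev F s)) ((app_evr hF).2 ⟨s, rfl, rfl⟩)
      rwa [mem_codeP, mem_codeP] at h10
    change Ox t U
    have iC : Int N (fun W : IPow N (Plain.El x) => Ox t W ∧ ∀ s, s ∈ W → s ∈ U) := by (repeat' (first | with_reducible exact IntF.id | with_reducible exact IntF.fst' | with_reducible exact IntF.snd' | with_reducible exact IntF.const _ | with_reducible exact Int.const _ | assumption | with_reducible apply Int.and | with_reducible apply Int.or | with_reducible apply Int.not | with_reducible apply Int.imp | with_reducible apply Int.iff | with_reducible apply Int.ne | with_reducible apply Int.eq | with_reducible apply Int.mem | with_reducible apply Int.subset | with_reducible apply Int.ltN | with_reducible apply Int.leN | with_reducible_and_instances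 apply Int.le | with_reducible_and_instances apply Int.lt | with_reducible apply Int.all | with_reducible apply Int.ex | with_reducible apply IntF.fst | with_reducible apply IntF.snd | with_reducible apply IntF.app | with_reducible apply IntF.inl | with_reducible apply IntF.inr | with_reducible_and_instances apply IntF.mul | with_reducible_and_instances apply IntF.inv | with_reducible_and_instances apply IntF.add | with_reducible_and_instances apply IntF.sub | with_reducible_and_instances apply IntF.neg | with_reducible_and_instances apply IntF.smul | with_reducible apply Int.fin | with_reducible apply IntF.sep | with_reducible apply IntF.lam | with_reducible apply IntF.insert | with_reducible apply IntF.singleton | with_reducible apply IntF.union | with_reducible apply IntF.iimage | with_reducible apply IntF.ite | with_reducible apply IntF.the | with_reducible apply IntF.irec | with_reducible apply IntF.succ | with_reducible apply IntF.val | with_reducible apply IntF.mk | (with_reducible refine Int.comp ?_ ?_; assumption) | (with_reducible refine Int.comp₂ ?_ ?_ ?_; assumption) | (with_reducible refine Int.comp₃ ?_ ?_ ?_ ?_; assumption) | (with_reducible refine Int.comp₄ ?_ ?_ ?_ ?_ ?_;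 assumption) | (with_reducible refine IntF.comp ?_ ?_; assumption) | (with_reducible refine IntF.comp₂ ?_ ?_ ?_; assumption) | (with_reducible refine IntF.comp₃ ?_ ?_ ?_ ?_; assumption) | with_reducible apply IntF.pair))
    refine hS.union (sep N fun W : IPow N (Plain.El x) => Ox t W ∧ ∀ s, s ∈ W → s ∈ U) U
      (fun W hW => ((mem_sep iC).1 hW).1) fun s => ⟨fun hs => ?_, fun hs => ?_⟩
    · obtain ⟨S, h10, h11⟩ := h7 _ ((h9 s).1 hs)
      have key : ∃ W, Ox t W ∧ s ∈ W ∧ ∀ w, w ∈ W → ∀ i, i ∈ S → F (i, w) = F (i, s) := by
        refine IFin.ind (p := fun S : IPow N (Plain.El j) => ∃ W, Ox t W ∧ s ∈ W ∧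
          ∀ w, w ∈ W → ∀ i, i ∈ S → F (i, w) = F (i, s)) (by (repeat' (first | with_reducible exact IntF.id | with_reducible exact IntF.fst' | with_reducible exact IntF.snd' | with_reducible exact IntF.const _ | with_reducible exact Int.const _ | assumption | with_reducible apply Int.and | with_reducible apply Int.or | with_reducible apply Int.not | with_reducible apply Int.imp | with_reducible apply Int.iff | with_reducible apply Int.ne | with_reducible apply Int.eq | with_reducible apply Int.mem | with_reducible apply Int.subset | with_reducible apply Int.ltN | with_reducible apply Int.leN | with_reducible_and_instances apply Int.le | with_reducible_and_instances apply Int.lt | with_reducible apply Int.all | with_reducible apply Int.ex | with_reducible apply IntF.fst | with_reducible apply IntF.snd | with_reducible apply IntF.app | with_reducible apply IntF.inl | with_reducible apply IntF.inr | with_reducible_and_instances apply IntF.mul | with_reducible_and_instances apply IntF.inv | with_reducible_and_instances apply IntF.add | with_reducible_and_instances apply IntF.sub | with_reducible_and_instances apply IntF.neg | with_reducible_and_instances apply IntF.smul | with_reducible apply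 Int.fin | with_reducible apply IntF.sep | with_reducible apply IntF.lam | with_reducible apply IntF.insert | with_reducible apply IntF.singleton | with_reducible apply IntF.union | with_reducible apply IntF.iimage | with_reducible apply IntF.ite | with_reducible apply IntF.the | with_reducible apply IntF.irec | with_reducible apply IntF.succ | with_reducible apply IntF.val | with_reducible apply IntF.mk | (with_reducible refine Int.comp ?_ ?_; assumption) | (with_reducible refine Int.comp₂ ?_ ?_ ?_; assumption) | (with_reducible refine Int.comp₃ ?_ ?_ ?_ ?_; assumption) | (with_reducible refine Int.comp₄ ?_ ?_ ?_ ?_ ?_; assumption) | (with_reducible refine IntF.comp ?_ ?_; assumption) | (with_reducible refine IntF.comp₂ ?_ ?_ ?_; assumption) | (with_reducible refine IntF.comp₃ ?_ ?_ ?_ ?_; assumption) | with_reducible apply IntF.pair))) ?_ ?_ S h10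
        · exact ⟨sep N fun _ => True, hS.univ _ fun s => mem_sep hS.iP,
            (mem_sep hS.iP).2 trivial, fun w _ i hi => absurd hi (by simp)⟩
        · rintro S i - - ⟨W, k1, k2, k3⟩
          obtain ⟨W', k4, k5, k6⟩ := h1 i s
          refine ⟨W ∩ W', hS.inter W W' _ k1 k4 fun s => mem_inter, mem_inter.2 ⟨k2, k5⟩,
            fun w hw i' hi' => ?_⟩
          obtain ⟨k7, k8⟩ := mem_inter.1 hw
          rcases mem_insert.1 hi' with rfl | hi'
          · exact k6 w k8
          · exact k3 w k7 i' hi'
      obtain ⟨W, k1, k2, k3⟩ := key
      refine ⟨W, (mem_sep iC).2 ⟨k1, fun w hw => (h9 w).2 (h11 _ fun i hi => ?_)⟩, k2⟩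
      rw [ev_apply hF, ev_apply hF, k3 w hw i hi]
    · obtain ⟨W, k1, k2⟩ := hs
      exact ((mem_sep iC).1 k1).2 s k2

/-- Closed embeddings. -/
theorem closed_evr (hF : IntF N F)
    (h2 : ∀ g : IFun N (Plain.El j) (Plain.El e), (∀ S : IPow N (Plain.El j), IFin S →
      ∃ z, ∀ i, i ∈ S → F (i, z) = g i) → ∃ z, ∀ i, F (i, z) = g i) :
    ∃ v, Plain.Mem v (pss j e) ∧ ∀ f, Plain.Mem f (pcc j e) →
      (Plain.Mem f v ↔ ¬ ∃ z, App (evr F) z f) := by
  have iE := int_ev hF
  have hI : Int N (fun f : IFun N (Plain.El j) (Plain.El e) => ¬ ∃ s, ev F s = f) := by
    (repeat' (first | with_reducible exact IntF.id | with_reducible exact IntF.fst' | with_reducible exact IntF.snd' | with_reducible exact IntF.const _ | with_reducible exact Int.const _ | assumption | with_reducible apply Int.and | with_reducible apply Int.or | with_reducible apply Int.not | with_reducible apply Int.imp | with_reducible apply Int.iff | with_reducible apply Int.ne | with_reducible apply Int.eq | with_reducible apply Int.mem | with_reducible apply Int.subset | with_reducible apply Int.ltN | with_reducible apply Int.leN | with_reducible_and_instances apply Int.le | with_reducible_and_instances apply Int.lt | with_reducible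 apply Int.all | with_reducible apply Int.ex | with_reducible apply IntF.fst | with_reducible apply IntF.snd | with_reducible apply IntF.app | with_reducible apply IntF.inl | with_reducible apply IntF.inr | with_reducible_and_instances apply IntF.mul | with_reducible_and_instances apply IntF.inv | with_reducible_and_instances apply IntF.add | with_reducible_and_instances apply IntF.sub | with_reducible_and_instances apply IntF.neg | with_reducible_and_instances apply IntF.smul | with_reducible apply Int.fin | with_reducible apply IntF.sep | with_reducible apply IntF.lam | with_reducible apply IntF.insert | with_reducible apply IntF.singleton | with_reducible apply IntF.union | with_reducible apply IntF.iimage | with_reducible apply IntF.ite | with_reducible apply IntF.the | with_reducible apply IntF.irec | with_reducible apply IntF.succ | with_reducible apply IntF.val | with_reducible apply IntF.mk | (with_reducible refine Int.comp ?_ ?_; assumption) | (with_reducible refine Int.comp₂ ?_ ?_ ?_; assumption) | (with_reducible refine Int.comp₃ ?_ ?_ ?_ ?_; assumption) | (with_reducible refine Int.comp₄ ?_ ?_ ?_ ?_ ?_; assumption) | (with_reducible refine IntF.comp ?_ ?_; assumption) | (with_reducible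 refine IntF.comp₂ ?_ ?_ ?_; assumption) | (with_reducible refine IntF.comp₃ ?_ ?_ ?_ ?_; assumption) | with_reducible apply IntF.pair))
  refine ⟨code (sep N fun f : IFun N (Plain.El j) (Plain.El e) => ¬ ∃ s, ev F s = f),
    mem_codeB'.2 ((mem_sep int_OpD).2 fun f hf => ?_), fun f hf => ?_⟩
  · by_contra hc
    refine (mem_sep hI).1 hf ?_
    obtain ⟨z, hzg⟩ := h2 f fun S hS => by
      by_contra h4
      refine hc ⟨S, hS, fun g' hg' => (mem_sep hI).2 ?_⟩
      rintro ⟨s, rfl⟩
      refine h4 ⟨s, fun i hi => ?_⟩
      have h6 := hg' i hi
      rw [ev_apply hF] at h6
      exact h6.symm
    refine ⟨z, IFun.ext' fun i => ?_⟩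
    rw [ev_apply hF, hzg i]
  · obtain ⟨g, rfl⟩ := mem_domP.1 hf
    rw [mem_codeP, mem_sep hI]
    refine not_congr ⟨?_, ?_⟩
    · rintro ⟨s, rfl⟩
      exact ⟨code s, (app_evr hF).2 ⟨s, rfl, rfl⟩⟩
    · rintro ⟨z, h1⟩
      obtain ⟨s, -, h3⟩ := (app_evr hF).1 h1
      exact ⟨s, (ITy.inj (M := N) h3).symm⟩

end

end Pool.Agent.Helper672.ZFA.V257
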