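import Pool.Agent.V11257.Cp3
import Pool.Agent.V11257.Cp2

/-!
# Discrete spaces and the Hewitt extension
-/

set_option maxHeartbeats 1000000
set_option linter.all false
set_option synthInstance.maxSize 2000

namespace Pool.Agent.Helper672.ZFA.V257

open FirstOrder FirstOrder.Language
open Pool.Agent.Helper672.Plain (LSet)
open Pool.Agent.H310
open Pool.Agent.H310Cards
open Pool.Agent.H310Top (IsTopology)
open Pool.Agent.H635Amen (IsReals Sub)
open Pool.Agent.V11246
open Pool.Agent.V11257Z (mem_codeP int_addR int_leR opGraph_iff IsSubTop IsTychonoff)
open Pool.Agent.V11257H (IsPSpace)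
open Pool.Agent.V11257K
open Pool.Agent.Helper672.ZFA.V246

universe u

section

attribute [local instance] Helper672.Plain.toL

variable {N : Type u} [LSet.Structure N] [hZ : Helper672.Plain.Zermelo N]

attribute [local instance] instModelCk3 instPElCk3

variable {x t e te j : N}

theorem isTopology_pow (hte : IsPow te e) : IsTopology te e := by
  refine ⟨fun u hu => (hte u).1 hu, (hte e).2 fun z h => h, fun u v w hu hv hw =>
    (hte w).2 fun z hz => (hte u).1 hu z ((hw z).1 hz).1, fun k w hk hw => (hte w).2 fun z hz => ?_⟩
  obtain ⟨u, h1, h2⟩ := (hw z).1 hz
  exact (hte u).1 (hk u h1) z h2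

theorem ox_pow (hte : IsPow te e) (U : IPow N (Plain.El e)) : Ox te U := by
  refine (hte _).2 fun z hz => ?_
  obtain ⟨z, -, rfl⟩ := mem_codeB.1 hz
  exact z.2

open Classical in
theorem isTychonoff_pow {r : N} [Field (Plain.El r)] [LinearOrder (Plain.El r)]
    [IsStrictOrderedRing (Plain.El r)] (hr : IsReals r) (hte : IsPow te e) :
    IsTychonoff te e := by
  refine ⟨fun a b ha hb hab => ?_, fun u a hu ha => ?_⟩
  · refine ⟨code ({⟨a, ha⟩} : IPow N (Plain.El e)), ox_pow hte _,
      (mCode (a := (⟨a, ha⟩ : Plain.El e))).2 (mem_singleton.2 rfl), fun h => ?_⟩
    have h1 := mem_singleton.1 ((mCode (a := (⟨b, hb⟩ : Plain.El e))).1 h)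
    exact hab (congrArg Subtype.val h1).symm
  · obtain ⟨U, rfl⟩ := exCode ((hte u).1 hu)
    refine ⟨r, inferInstance, inferInstance, inferInstance, hr,
      fun z => if z ∈ U then 0 else 1, ⟨?_, fun z ε hε => ?_⟩, fun z => ?_, fun z hz => ?_,
      fun z hz => ?_⟩
    · have h1 : IntF N (fun z : Plain.El e => (if z ∈ U then 0 else 1 : Plain.El r)) := by
        refine IntF.of_rel (r := fun (z : Plain.El e) (y : Plain.El r) =>
          (z ∈ U ∧ y = 0) ∨ (z ∉ U ∧ y = 1)) (by (repeat' (first | with_reducible exact IntF.id | with_reducible exact IntF.fst' | with_reducible exact IntF.snd' | with_reducible exact IntF.const _ | with_reducible exact Int.const _ | assumption | with_reducible apply Int.and | with_reducible apply Int.or | with_reducible apply Int.not | with_reducible apply Int.imp | with_reducible apply Int.iff | with_reducible apply Int.ne | with_reducible apply Int.eq | with_reducible apply Int.mem | with_reducible apply Int.subset | with_reducible apply Int.ltN | with_reducible apply Int.leN | with_reducible_and_instances apply Int.le | with_reducible_and_instances apply Int.lt | with_reducible apply Int.all | with_reducible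 apply Int.ex | with_reducible apply IntF.fst | with_reducible apply IntF.snd | with_reducible apply IntF.app | with_reducible apply IntF.inl | with_reducible apply IntF.inr | with_reducible_and_instances apply IntF.mul | with_reducible_and_instances apply IntF.inv | with_reducible_and_instances apply IntF.add | with_reducible_and_instances apply IntF.sub | with_reducible_and_instances apply IntF.neg | with_reducible_and_instances apply IntF.smul | with_reducible apply Int.fin | with_reducible apply IntF.sep | with_reducible apply IntF.lam | with_reducible apply IntF.insert | with_reducible apply IntF.singleton | with_reducible apply IntF.union | with_reducible apply IntF.iimage | with_reducible apply IntF.ite | with_reducible apply IntF.the | with_reducible apply IntF.irec | with_reducible apply IntF.succ | with_reducible apply IntF.val | with_reducible apply IntF.mk | (with_reducible refine Int.comp ?_ ?_; assumption) | (with_reducible refine Int.comp₂ ?_ ?_ ?_; assumption) | (with_reducible refine Int.comp₃ ?_ ?_ ?_ ?_; assumption) | (with_reducible refine Int.comp₄ ?_ ?_ ?_ ?_ ?_; assumption) | (with_reducible refine IntF.comp ?_ ?_;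 assumption) | (with_reducible refine IntF.comp₂ ?_ ?_ ?_; assumption) | (with_reducible refine IntF.comp₃ ?_ ?_ ?_ ?_; assumption) | with_reducible apply IntF.pair))) fun z y => ?_
        by_cases hz : z ∈ U
        · rw [if_pos hz]
          constructor
          · rintro (h | h)
            · exact h.2.symm
            · exact absurd hz h.1
          · exact fun h => Or.inl ⟨hz, h.symm⟩
        · rw [if_neg hz]
          constructor
          · rintro (h | h)
            · exact absurd h.1 hz
            · exact h.2.symm
          · exact fun h => Or.inr ⟨hz, h.symm⟩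
      obtain ⟨g, hg⟩ := h1
      exact ⟨g, fun a y => ((hg (a, y)).symm.trans app_iff.symm)⟩
    · refine ⟨code ({z} : IPow N (Plain.El e)), ox_pow hte _,
        mCode.2 (mem_singleton.2 rfl), fun b hb => ?_⟩
      rw [mem_singleton.1 (mCode.1 hb), sub_self, abs_zero]
      exact hε
    · by_cases hz : z ∈ U
      · simp only [if_pos hz]
        exact ⟨le_rfl, zero_le_one⟩
      · simp only [if_neg hz]
        exact ⟨zero_le_one, le_rfl⟩
    · subst hz
      exact if_pos (mCode.1 ha)
    · exact if_neg fun h => hz (mCode.2 h)

/-- Discrete spaces are compact with respect to themselves. -/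
theorem isECompact_self (hte : IsPow te e) (i₀ : Plain.El e) : IsECompact te e te e := by
  have ht := isTopology_pow hte
  have iF : IntF N (fun q : Plain.El e × Plain.El e => q.2) := by (repeat' (first | with_reducible exact IntF.id | with_reducible exact IntF.fst' | with_reducible exact IntF.snd' | with_reducible exact IntF.const _ | with_reducible exact Int.const _ | assumption | with_reducible apply Int.and | with_reducible apply Int.or | with_reducible apply Int.not | with_reducible apply Int.imp | with_reducible apply Int.iff | with_reducible apply Int.ne | with_reducible apply Int.eq | with_reducible apply Int.mem | with_reducible apply Int.subset | with_reducible apply Int.ltN | with_reducible apply Int.leN | with_reducible_and_instances apply Int.le | with_reducible_and_instances apply Int.lt | with_reducible apply Int.all | with_reducible apply Int.ex | with_reducible apply IntF.fst | with_reducible apply IntF.snd | with_reducible apply IntF.app | with_reducible apply IntF.inl | with_reducible apply IntF.inr | with_reducible_and_instances apply IntF.mul | with_reducible_and_instances apply IntF.inv | with_reducible_and_instances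 apply IntF.add | with_reducible_and_instances apply IntF.sub | with_reducible_and_instances apply IntF.neg | with_reducible_and_instances apply IntF.smul | with_reducible apply Int.fin | with_reducible apply IntF.sep | with_reducible apply IntF.lam | with_reducible apply IntF.insert | with_reducible apply IntF.singleton | with_reducible apply IntF.union | with_reducible apply IntF.iimage | with_reducible apply IntF.ite | with_reducible apply IntF.the | with_reducible apply IntF.irec | with_reducible apply IntF.succ | with_reducible apply IntF.val | with_reducible apply IntF.mk | (with_reducible refine Int.comp ?_ ?_; assumption) | (with_reducible refine Int.comp₂ ?_ ?_ ?_; assumption) | (with_reducible refine Int.comp₃ ?_ ?_ ?_ ?_; assumption) | (with_reducible refine Int.comp₄ ?_ ?_ ?_ ?_ ?_; assumption) | (with_reducible refine IntF.comp ?_ ?_; assumption) | (with_reducible refine IntF.comp₂ ?_ ?_ ?_; assumption) | (with_reducible refine IntF.comp₃ ?_ ?_ ?_ ?_; assumption) | with_reducible apply IntF.pair))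
  refine ⟨e, pcc e e, pss e e, evr fun q : Plain.El e × Plain.El e => q.2, ⟨i₀.1, i₀.2⟩,
    isFunSet_dom, isPowTop_dom hte, isEmbedding_evr iF ht (fun z w hzw => ?_) (fun i z => ?_)
      fun U z hU hz => ?_, closed_evr iF fun g hg => ?_⟩
  · exact ⟨{z}, ox_pow hte _, mem_singleton.2 rfl, fun h => hzw (mem_singleton.1 h).symm⟩
  · exact ⟨{z}, ox_pow hte _, mem_singleton.2 rfl, fun w hw => mem_singleton.1 hw⟩
  · refine ⟨{i₀}, IFin.singleton _, fun w hw => ?_⟩
    have h1 := hw i₀ (mem_singleton.2 rfl)
    change w = z at h1
    rwa [h1]
  · refine ⟨g i₀, fun i => ?_⟩
    obtain ⟨z, hz⟩ := hg (insert i {i₀}) ((IFin.singleton i₀).insert i)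
    have h1 := hz i (by simp)
    have h2 := hz i₀ (by simp)
    change z = _ at h1
    change z = _ at h2
    change g i₀ = g i
    rw [← h1, ← h2]

/-- Enough clopen sets. -/
def Zd (t x : N) : Prop := ∀ (U : IPow N (Plain.El x)) z, Ox t U → z ∈ U →
  ∃ V V' : IPow N (Plain.El x), Ox t V ∧ Ox t V' ∧ z ∈ V ∧ (∀ w, w ∈ V → w ∈ U) ∧
    ∀ w, w ∈ V' ↔ w ∉ V

open Classical in
/-- The indicator functions of clopen sets. -/
theorem exists_ind {V V' : IPow N (Plain.El x)} (hV : Ox t V) (hV' : Ox t V')
    (hVV : ∀ w, w ∈ V' ↔ w ∉ V) (y₀ y₁ : Plain.El e) :
    ∃ g : IFun N (Plain.El x) (Plain.El e), CtD (Ox t) g ∧ (∀ w, w ∈ V → g w = y₁) ∧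
      ∀ w, w ∉ V → g w = y₀ := by
  have h1 : IntF N (fun z : Plain.El x => (if z ∈ V then y₁ else y₀ : Plain.El e)) := by
    refine IntF.of_rel (r := fun (z : Plain.El x) (y : Plain.El e) =>
      (z ∈ V ∧ y = y₁) ∨ (z ∉ V ∧ y = y₀)) (by (repeat' (first | with_reducible exact IntF.id | with_reducible exact IntF.fst' | with_reducible exact IntF.snd' | with_reducible exact IntF.const _ | with_reducible exact Int.const _ | assumption | with_reducible apply Int.and | with_reducible apply Int.or | with_reducible apply Int.not | with_reducible apply Int.imp | with_reducible apply Int.iff | with_reducible apply Int.ne | with_reducible apply Int.eq | with_reducible apply Int.mem | with_reducible apply Int.subset | with_reducible apply Int.ltN | with_reducible apply Int.leN | with_reducible_and_instances apply Int.le | with_reducible_and_instances apply Int.lt | with_reducible apply Int.all | with_reducible apply Int.ex | with_reducible apply IntF.fst | with_reducible apply IntF.snd | with_reducible apply IntF.app | with_reducible apply IntF.inl | with_reducible apply IntF.inr | with_reducible_and_instances apply IntF.mul | with_reducible_and_instances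 apply IntF.inv | with_reducible_and_instances apply IntF.add | with_reducible_and_instances apply IntF.sub | with_reducible_and_instances apply IntF.neg | with_reducible_and_instances apply IntF.smul | with_reducible apply Int.fin | with_reducible apply IntF.sep | with_reducible apply IntF.lam | with_reducible apply IntF.insert | with_reducible apply IntF.singleton | with_reducible apply IntF.union | with_reducible apply IntF.iimage | with_reducible apply IntF.ite | with_reducible apply IntF.the | with_reducible apply IntF.irec | with_reducible apply IntF.succ | with_reducible apply IntF.val | with_reducible apply IntF.mk | (with_reducible refine Int.comp ?_ ?_; assumption) | (with_reducible refine Int.comp₂ ?_ ?_ ?_; assumption) | (with_reducible refine Int.comp₃ ?_ ?_ ?_ ?_; assumption) | (with_reducible refine Int.comp₄ ?_ ?_ ?_ ?_ ?_; assumption) | (with_reducible refine IntF.comp ?_ ?_; assumption) | (with_reducible refine IntF.comp₂ ?_ ?_ ?_; assumption) | (with_reducible refine IntF.comp₃ ?_ ?_ ?_ ?_; assumption) | with_reducible apply IntF.pair))) fun z y => ?_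
    by_cases hz : z ∈ V
    · rw [if_pos hz]
      constructor
      · rintro (h | h)
        · exact h.2.symm
        · exact absurd hz h.1
      · exact fun h => Or.inl ⟨hz, h.symm⟩
    · rw [if_neg hz]
      constructor
      · rintro (h | h)
        · exact absurd h.1 hz
        · exact h.2.symm
      · exact fun h => Or.inr ⟨hz, h.symm⟩
  refine ⟨⟨_, h1⟩, fun z => ?_, fun w hw => if_pos hw, fun w hw => if_neg hw⟩
  by_cases hz : z ∈ V
  · refine ⟨V, hV, hz, fun w hw => ?_⟩
    exact (if_pos hw).trans (if_pos hz).symm
  · refine ⟨V', hV', (hVV z).2 hz, fun w hw => ?_⟩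
    exact (if_neg ((hVV w).1 hw)).trans (if_neg hz).symm

variable {gg : Plain.El (KK t x e) → IFun N (Plain.El x) (Plain.El e)}

/-- The evaluation function. -/
abbrev Fg (gg : Plain.El (KK t x e) → IFun N (Plain.El x) (Plain.El e)) :
    Plain.El (KK t x e) × Plain.El x → Plain.El e := fun q => gg q.1 q.2

theorem int_Fg (hg : IntF N gg) : IntF N (Fg gg) := by
  unfold Fg
  (repeat' (first | with_reducible exact IntF.id | with_reducible exact IntF.fst' | with_reducible exact IntF.snd' | with_reducible exact IntF.const _ | with_reducible exact Int.const _ | assumption | with_reducible apply Int.and | with_reducible apply Int.or | with_reducible apply Int.not | with_reducible apply Int.imp | with_reducible apply Int.iff | with_reducible apply Int.ne | with_reducible apply Int.eq | with_reducible apply Int.mem | with_reducible apply Int.subset | with_reducible apply Int.ltN | with_reducible apply Int.leN | with_reducible_and_instances apply Int.le | with_reducible_and_instances apply Int.lt | with_reducible apply Int.all | with_reducible apply Int.ex | with_reducible apply IntF.fst | with_reducible apply IntF.snd | with_reducible apply IntF.app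 | with_reducible apply IntF.inl | with_reducible apply IntF.inr | with_reducible_and_instances apply IntF.mul | with_reducible_and_instances apply IntF.inv | with_reducible_and_instances apply IntF.add | with_reducible_and_instances apply IntF.sub | with_reducible_and_instances apply IntF.neg | with_reducible_and_instances apply IntF.smul | with_reducible apply Int.fin | with_reducible apply IntF.sep | with_reducible apply IntF.lam | with_reducible apply IntF.insert | with_reducible apply IntF.singleton | with_reducible apply IntF.union | with_reducible apply IntF.iimage | with_reducible apply IntF.ite | with_reducible apply IntF.the | with_reducible apply IntF.irec | with_reducible apply IntF.succ | with_reducible apply IntF.val | with_reducible apply IntF.mk | (with_reducible refine Int.comp ?_ ?_; assumption) | (with_reducible refine Int.comp₂ ?_ ?_ ?_; assumption) | (with_reducible refine Int.comp₃ ?_ ?_ ?_ ?_; assumption) | (with_reducible refine Int.comp₄ ?_ ?_ ?_ ?_ ?_; assumption) | (with_reducible refine IntF.comp ?_ ?_; assumption) | (with_reducible refine IntF.comp₂ ?_ ?_ ?_; assumption) | (with_reducible refine IntF.comp₃ ?_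 ?_ ?_ ?_; assumption) | with_reducible apply IntF.pair))

theorem isECR (hg : IntF N gg) (hg1 : ∀ i, CtD (Ox t) (gg i))
    (hg3 : ∀ g : IFun N (Plain.El x) (Plain.El e), CtD (Ox t) g → ∃ i, gg i = g)
    (ht : IsTopology t x) (hte : IsPow te e) (hT : IsT1 t x) (hz : Zd t x)
    {y₀ y₁ : Plain.El e} (hy : y₀ ≠ y₁) : IsECompletelyRegular te e t x := by
  have iF := int_Fg hg
  have hS := spoX ht
  refine ⟨KK t x e, pcc (KK t x e) e, pss (KK t x e) e, evr (Fg gg), ?_, isFunSet_dom,
    isPowTop_dom hte, isEmbedding_evr iF ht (fun z w hzw => ?_) (fun i z => hg1 i z)
      fun U z hU hzU => ?_⟩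
  · have h1 : IntF N (fun _ : Plain.El x => y₀) := IntF.const _
    obtain ⟨i, -⟩ := hg3 ⟨_, h1⟩ fun z => ⟨sep N fun _ => True,
      hS.univ _ fun s => mem_sep hS.iP, (mem_sep hS.iP).2 trivial, fun w _ => rfl⟩
    exact ⟨i.1, i.2⟩
  · obtain ⟨u, h1, h2, h3⟩ := hT z.1 w.1 z.2 w.2 fun h => hzw (Subtype.ext h)
    obtain ⟨U, rfl⟩ := exCode (ht.sub u h1)
    exact ⟨U, h1, mCode.1 h2, fun h => h3 (mCode.2 h)⟩
  · obtain ⟨V, V', h1, h2, h3, h4, h5⟩ := hz U z hU hzU
    obtain ⟨g, h6, h7, h8⟩ := exists_ind h1 h2 h5 y₀ y₁
    obtain ⟨i, hi⟩ := hg3 g h6
    refine ⟨{i}, IFin.singleton _, fun w hw => h4 w ?_⟩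
    have h9 := hw i (mem_singleton.2 rfl)
    change gg i w = gg i z at h9
    rw [hi, h7 z h3] at h9
    by_contra h10
    exact hy ((h8 w h10).symm.trans h9)

/-- The points of the extension. -/
def Cl (gg : Plain.El (KK t x e) → IFun N (Plain.El x) (Plain.El e))
    (f : IFun N (Plain.El (KK t x e)) (Plain.El e)) : Prop :=
  ∀ S : IPow N (Plain.El (KK t x e)), IFin S → ∃ z, ∀ i, i ∈ S → gg i z = f i

/-- The open sets of the extension. -/
def Oh (gg : Plain.El (KK t x e) → IFun N (Plain.El x) (Plain.El e))
    (U : IPow N (IFun N (Plain.El (KK t x e)) (Plain.El e))) : Prop :=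
  ∃ V : IPow N (IFun N (Plain.El (KK t x e)) (Plain.El e)), OpD V ∧
    ∀ f, f ∈ U ↔ f ∈ V ∧ Cl gg f

theorem int_Cl (hg : IntF N gg) : Int N (Cl gg) := by
  unfold Cl
  (repeat' (first | with_reducible exact IntF.id | with_reducible exact IntF.fst' | with_reducible exact IntF.snd' | with_reducible exact IntF.const _ | with_reducible exact Int.const _ | assumption | with_reducible apply Int.and | with_reducible apply Int.or | with_reducible apply Int.not | with_reducible apply Int.imp | with_reducible apply Int.iff | with_reducible apply Int.ne | with_reducible apply Int.eq | with_reducible apply Int.mem | with_reducible apply Int.subset | with_reducible apply Int.ltN | with_reducible apply Int.leN | with_reducible_and_instances apply Int.le | with_reducible_and_instances apply Int.lt | with_reducible apply Int.all | with_reducible apply Int.ex | with_reducible apply IntF.fst | with_reducible apply IntF.snd | with_reducible apply IntF.app | with_reducible apply IntF.inl | with_reducible apply IntF.inr | with_reducible_and_instances apply IntF.mul | with_reducible_and_instances apply IntF.inv | with_reducible_and_instances apply IntF.add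 | with_reducible_and_instances apply IntF.sub | with_reducible_and_instances apply IntF.neg | with_reducible_and_instances apply IntF.smul | with_reducible apply Int.fin | with_reducible apply IntF.sep | with_reducible apply IntF.lam | with_reducible apply IntF.insert | with_reducible apply IntF.singleton | with_reducible apply IntF.union | with_reducible apply IntF.iimage | with_reducible apply IntF.ite | with_reducible apply IntF.the | with_reducible apply IntF.irec | with_reducible apply IntF.succ | with_reducible apply IntF.val | with_reducible apply IntF.mk | (with_reducible refine Int.comp ?_ ?_; assumption) | (with_reducible refine Int.comp₂ ?_ ?_ ?_; assumption) | (with_reducible refine Int.comp₃ ?_ ?_ ?_ ?_; assumption) | (with_reducible refine Int.comp₄ ?_ ?_ ?_ ?_ ?_; assumption) | (with_reducible refine IntF.comp ?_ ?_; assumption) | (with_reducible refine IntF.comp₂ ?_ ?_ ?_; assumption) | (with_reducible refine IntF.comp₃ ?_ ?_ ?_ ?_; assumption) | with_reducible apply IntF.pair))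

theorem int_Oh (hg : IntF N gg) : Int N (Oh gg) := by
  have h1 := int_Cl hg
  have h2 := int_OpD (N := N) (j := KK t x e) (e := e)
  unfold Oh
  (repeat' (first | with_reducible exact IntF.id | with_reducible exact IntF.fst' | with_reducible exact IntF.snd' | with_reducible exact IntF.const _ | with_reducible exact Int.const _ | assumption | with_reducible apply Int.and | with_reducible apply Int.or | with_reducible apply Int.not | with_reducible apply Int.imp | with_reducible apply Int.iff | with_reducible apply Int.ne | with_reducible apply Int.eq | with_reducible apply Int.mem | with_reducible apply Int.subset | with_reducible apply Int.ltN | with_reducible apply Int.leN | with_reducible_and_instances apply Int.le | with_reducible_and_instances apply Int.lt | with_reducible apply Int.all | with_reducible apply Int.ex | with_reducible apply IntF.fst | with_reducible apply IntF.snd | with_reducible apply IntF.app | with_reducible apply IntF.inl | with_reducible apply IntF.inr | with_reducible_and_instances apply IntF.mul | with_reducible_and_instances apply IntF.inv | with_reducible_and_instances apply IntF.add | with_reducible_and_instances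 apply IntF.sub | with_reducible_and_instances apply IntF.neg | with_reducible_and_instances apply IntF.smul | with_reducible apply Int.fin | with_reducible apply IntF.sep | with_reducible apply IntF.lam | with_reducible apply IntF.insert | with_reducible apply IntF.singleton | with_reducible apply IntF.union | with_reducible apply IntF.iimage | with_reducible apply IntF.ite | with_reducible apply IntF.the | with_reducible apply IntF.irec | with_reducible apply IntF.succ | with_reducible apply IntF.val | with_reducible apply IntF.mk | (with_reducible refine Int.comp ?_ ?_; assumption) | (with_reducible refine Int.comp₂ ?_ ?_ ?_; assumption) | (with_reducible refine Int.comp₃ ?_ ?_ ?_ ?_; assumption) | (with_reducible refine Int.comp₄ ?_ ?_ ?_ ?_ ?_; assumption) | (with_reducible refine IntF.comp ?_ ?_; assumption) | (with_reducible refine IntF.comp₂ ?_ ?_ ?_; assumption) | (with_reducible refine IntF.comp₃ ?_ ?_ ?_ ?_; assumption) | with_reducible apply IntF.pair))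

theorem isHewittExt_of (hg : IntF N gg) (hg2 : ∀ i, code (M := N) (gg i) = i.1)
    (ht : IsTopology t x) (hte : IsPow te e) :
    IsHewittExt te e t x (code (M := N) (sep N (Oh gg))) (code (M := N) (sep N (Cl gg))) := by
  have iF := int_Fg hg
  have iC := int_Cl hg
  have iO := int_Oh hg
  refine ⟨KK t x e, pcc (KK t x e) e, pss (KK t x e) e, evr (Fg gg), isContinuousSet_KK ht hte,
    isFunSet_dom, isPowTop_dom hte, isFun_evr iF, fun z g hzg f y => ?_, fun g => ?_,
    fun u => ⟨fun hu => ?_, ?_⟩⟩
  · obtain ⟨s, rfl, rfl⟩ := (app_evr iF).1 hzg
    constructor
    · intro h1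
      obtain ⟨i, rfl, rfl⟩ := app_code.1 h1
      refine ⟨i.2, ?_⟩
      have h2 : App (code (M := N) (gg i)) (code s) (code (ev (Fg gg) s i)) :=
        app_code.2 ⟨s, rfl, by rw [ev_apply iF]⟩
      rwa [hg2 i] at h2
    · rintro ⟨hf, h2⟩
      have h3 : code (M := N) (gg ⟨f, hf⟩) = f := hg2 ⟨f, hf⟩
      rw [← h3] at h2
      obtain ⟨s', h4, rfl⟩ := app_code.1 h2
      obtain rfl := ITy.inj (M := N) h4
      exact app_code.2 ⟨⟨f, hf⟩, rfl, by rw [ev_apply iF]⟩
  · constructor
    · intro hg'
      obtain ⟨f, hf, rfl⟩ := mem_codeB.1 hg'
      have hf := (mem_sep iC).1 hf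
      refine ⟨code_mem_domP f, fun u hu hfu => ?_⟩
      obtain ⟨U, hU, rfl⟩ := mem_codeB.1 hu
      obtain ⟨S, h1, h2⟩ := (mem_sep int_OpD).1 hU f (mem_codeB'.1 hfu)
      obtain ⟨z, hz⟩ := hf S h1
      refine ⟨code z, code (ev (Fg gg) z), (app_evr iF).2 ⟨z, rfl, rfl⟩,
        mem_codeB'.2 (h2 _ fun i hi => ?_)⟩
      rw [ev_apply iF]
      exact (hz i hi).symm
    · rintro ⟨hc, h1⟩
      obtain ⟨f, rfl⟩ := mem_domP.1 hc
      refine mem_codeB'.2 ((mem_sep iC).2 fun S hS => ?_)
      have iU : Int N (fun f' : IFun N (Plain.El (KK t x e)) (Plain.El e) =>
          ∀ i, i ∈ S → f i = f' i) := by (repeat' (first | with_reducible exact IntF.id | with_reducible exact IntF.fst' | with_reducible exact IntF.snd' | with_reducible exact IntF.const _ | with_reducible exact Int.const _ | assumption | with_reducible apply Int.and | with_reducible apply Int.or | with_reducible apply Int.not | with_reducible apply Int.imp | with_reducible apply Int.iff | with_reducible apply Int.ne | with_reducible apply Int.eq | with_reducible apply Int.mem | with_reducible apply Int.subset | with_reducible apply Int.ltN | with_reducible apply Int.leN | with_reducible_and_instances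 apply Int.le | with_reducible_and_instances apply Int.lt | with_reducible apply Int.all | with_reducible apply Int.ex | with_reducible apply IntF.fst | with_reducible apply IntF.snd | with_reducible apply IntF.app | with_reducible apply IntF.inl | with_reducible apply IntF.inr | with_reducible_and_instances apply IntF.mul | with_reducible_and_instances apply IntF.inv | with_reducible_and_instances apply IntF.add | with_reducible_and_instances apply IntF.sub | with_reducible_and_instances apply IntF.neg | with_reducible_and_instances apply IntF.smul | with_reducible apply Int.fin | with_reducible apply IntF.sep | with_reducible apply IntF.lam | with_reducible apply IntF.insert | with_reducible apply IntF.singleton | with_reducible apply IntF.union | with_reducible apply IntF.iimage | with_reducible apply IntF.ite | with_reducible apply IntF.the | with_reducible apply IntF.irec | with_reducible apply IntF.succ | with_reducible apply IntF.val | with_reducible apply IntF.mk | (with_reducible refine Int.comp ?_ ?_; assumption) | (with_reducible refine Int.comp₂ ?_ ?_ ?_; assumption) | (with_reducible refine Int.comp₃ ?_ ?_ ?_ ?_; assumption)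 | (with_reducible refine Int.comp₄ ?_ ?_ ?_ ?_ ?_; assumption) | (with_reducible refine IntF.comp ?_ ?_; assumption) | (with_reducible refine IntF.comp₂ ?_ ?_ ?_; assumption) | (with_reducible refine IntF.comp₃ ?_ ?_ ?_ ?_; assumption) | with_reducible apply IntF.pair))
      obtain ⟨z, g', h2, h3⟩ := h1 (code (sep N
        fun f' : IFun N (Plain.El (KK t x e)) (Plain.El e) => ∀ i, i ∈ S → f i = f' i))
        (mem_codeB'.2 ((mem_sep int_OpD).2 fun f' hf' => ⟨S, hS, fun g hg => (mem_sep iU).2
          fun i hi => ((mem_sep iU).1 hf' i hi).trans (hg i hi)⟩))
        (mem_codeB'.2 ((mem_sep iU).2 fun _ _ => rfl))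
      obtain ⟨s, rfl, rfl⟩ := (app_evr iF).1 h2
      refine ⟨s, fun i hi => ?_⟩
      have h4 := (mem_sep iU).1 (mem_codeB'.1 h3) i hi
      rw [ev_apply iF] at h4
      exact h4.symm
  · obtain ⟨U, hU, rfl⟩ := mem_codeB.1 hu
    obtain ⟨V, h1, h2⟩ := (mem_sep iO).1 hU
    refine ⟨fun z hz => ?_, code V, mem_codeB'.2 ((mem_sep int_OpD).2 h1), fun z => ?_⟩
    · obtain ⟨f, hf, rfl⟩ := mem_codeB.1 hz
      exact mem_codeB'.2 ((mem_sep iC).2 ((h2 f).1 hf).2)
    · constructor
      · intro hz
        obtain ⟨f, hf, rfl⟩ := mem_codeB.1 hz
        obtain ⟨h3, h4⟩ := (h2 f).1 hf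
        exact ⟨mem_codeB'.2 h3, mem_codeB'.2 ((mem_sep iC).2 h4)⟩
      · rintro ⟨h3, h4⟩
        obtain ⟨f, hf, rfl⟩ := mem_codeB.1 h3
        exact mem_codeB'.2 ((h2 f).2 ⟨hf, (mem_sep iC).1 (mem_codeB'.1 h4)⟩)
  · rintro ⟨h1, v, h2, h3⟩
    obtain ⟨U, rfl⟩ := exists_codeB (α := IFun N (Plain.El (KK t x e)) (Plain.El e)) (u := u)
      fun z hz => by
        obtain ⟨f, -, hf⟩ := mem_codeB.1 (h1 z hz)
        exact ⟨f, hf⟩
    obtain ⟨V, hV, rfl⟩ := mem_codeB.1 h2
    refine mem_codeB'.2 ((mem_sep iO).2 ⟨V, (mem_sep int_OpD).1 hV, fun f => ?_⟩)
    have h4 := h3 (code f)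
    rw [mem_codeP, mem_codeP, mem_codeP, mem_sep iC] at h4
    exact h4

/-- The extension is not a P-space. -/
theorem not_isPSpace_of (hg : IntF N gg) (z₀ : Plain.El x)
    {q : INat N → IFun N (Plain.El (KK t x e)) (Plain.El e)} (hq : IntF N q)
    (hq1 : ∀ n, Cl gg (q n)) (hq2 : ∀ n, ∃ i, gg i z₀ ≠ q n i)
    (hq3 : ∀ S : IPow N (Plain.El (KK t x e)), IFin S → ∃ n, ∀ i, i ∈ S → gg i z₀ = q n i) :
    ¬ IsPSpace (code (M := N) (sep N (Oh gg))) (code (M := N) (sep N (Cl gg))) := by
  have iF := int_Fg hg
  have iC := int_Cl hg
  have iO := int_Oh hg
  intro hP
  have hcl : Cl gg (ev (Fg gg) z₀) := fun S hS => ⟨z₀, fun i _ => by rw [ev_apply iF]⟩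
  have iW : ∀ n, Int N (fun f : IFun N (Plain.El (KK t x e)) (Plain.El e) =>
      Cl gg f ∧ f ≠ q n) := fun n => by (repeat' (first | with_reducible exact IntF.id | with_reducible exact IntF.fst' | with_reducible exact IntF.snd' | with_reducible exact IntF.const _ | with_reducible exact Int.const _ | assumption | with_reducible apply Int.and | with_reducible apply Int.or | with_reducible apply Int.not | with_reducible apply Int.imp | with_reducible apply Int.iff | with_reducible apply Int.ne | with_reducible apply Int.eq | with_reducible apply Int.mem | with_reducible apply Int.subset | with_reducible apply Int.ltN | with_reducible apply Int.leN | with_reducible_and_instances apply Int.le | with_reducible_and_instances apply Int.lt | with_reducible apply Int.all | with_reducible apply Int.ex | with_reducible apply IntF.fst | with_reducible apply IntF.snd | with_reducible apply IntF.app | with_reducible apply IntF.inl | with_reducible apply IntF.inr | with_reducible_and_instances apply IntF.mul | with_reducible_and_instances apply IntF.inv | with_reducible_and_instances apply IntF.add | with_reducible_and_instances apply IntF.sub | with_reducible_and_instances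 apply IntF.neg | with_reducible_and_instances apply IntF.smul | with_reducible apply Int.fin | with_reducible apply IntF.sep | with_reducible apply IntF.lam | with_reducible apply IntF.insert | with_reducible apply IntF.singleton | with_reducible apply IntF.union | with_reducible apply IntF.iimage | with_reducible apply IntF.ite | with_reducible apply IntF.the | with_reducible apply IntF.irec | with_reducible apply IntF.succ | with_reducible apply IntF.val | with_reducible apply IntF.mk | (with_reducible refine Int.comp ?_ ?_; assumption) | (with_reducible refine Int.comp₂ ?_ ?_ ?_; assumption) | (with_reducible refine Int.comp₃ ?_ ?_ ?_ ?_; assumption) | (with_reducible refine Int.comp₄ ?_ ?_ ?_ ?_ ?_; assumption) | (with_reducible refine IntF.comp ?_ ?_; assumption) | (with_reducible refine IntF.comp₂ ?_ ?_ ?_; assumption) | (with_reducible refine IntF.comp₃ ?_ ?_ ?_ ?_; assumption) | with_reducible apply IntF.pair))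
  have iWn : IntF N (fun n : INat N => sep N
      fun f : IFun N (Plain.El (KK t x e)) (Plain.El e) => Cl gg f ∧ f ≠ q n) := by (repeat' (first | with_reducible exact IntF.id | with_reducible exact IntF.fst' | with_reducible exact IntF.snd' | with_reducible exact IntF.const _ | with_reducible exact Int.const _ | assumption | with_reducible apply Int.and | with_reducible apply Int.or | with_reducible apply Int.not | with_reducible apply Int.imp | with_reducible apply Int.iff | with_reducible apply Int.ne | with_reducible apply Int.eq | with_reducible apply Int.mem | with_reducible apply Int.subset | with_reducible apply Int.ltN | with_reducible apply Int.leN | with_reducible_and_instances apply Int.le | with_reducible_and_instances apply Int.lt | with_reducible apply Int.all | with_reducible apply Int.ex | with_reducible apply IntF.fst | with_reducible apply IntF.snd | with_reducible apply IntF.app | with_reducible apply IntF.inl | with_reducible apply IntF.inr | with_reducible_and_instances apply IntF.mul | with_reducible_and_instances apply IntF.inv | with_reducible_and_instances apply IntF.add | with_reducible_and_instances apply IntF.sub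 | with_reducible_and_instances apply IntF.neg | with_reducible_and_instances apply IntF.smul | with_reducible apply Int.fin | with_reducible apply IntF.sep | with_reducible apply IntF.lam | with_reducible apply IntF.insert | with_reducible apply IntF.singleton | with_reducible apply IntF.union | with_reducible apply IntF.iimage | with_reducible apply IntF.ite | with_reducible apply IntF.the | with_reducible apply IntF.irec | with_reducible apply IntF.succ | with_reducible apply IntF.val | with_reducible apply IntF.mk | (with_reducible refine Int.comp ?_ ?_; assumption) | (with_reducible refine Int.comp₂ ?_ ?_ ?_; assumption) | (with_reducible refine Int.comp₃ ?_ ?_ ?_ ?_; assumption) | (with_reducible refine Int.comp₄ ?_ ?_ ?_ ?_ ?_; assumption) | (with_reducible refine IntF.comp ?_ ?_; assumption) | (with_reducible refine IntF.comp₂ ?_ ?_ ?_; assumption) | (with_reducible refine IntF.comp₃ ?_ ?_ ?_ ?_; assumption) | with_reducible apply IntF.pair))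
  have iG : Int N (fun f : IFun N (Plain.El (KK t x e)) (Plain.El e) =>
      Cl gg f ∧ ∀ n, f ≠ q n) := by (repeat' (first | with_reducible exact IntF.id | with_reducible exact IntF.fst' | with_reducible exact IntF.snd' | with_reducible exact IntF.const _ | with_reducible exact Int.const _ | assumption | with_reducible apply Int.and | with_reducible apply Int.or | with_reducible apply Int.not | with_reducible apply Int.imp | with_reducible apply Int.iff | with_reducible apply Int.ne | with_reducible apply Int.eq | with_reducible apply Int.mem | with_reducible apply Int.subset | with_reducible apply Int.ltN | with_reducible apply Int.leN | with_reducible_and_instances apply Int.le | with_reducible_and_instances apply Int.lt | with_reducible apply Int.all | with_reducible apply Int.ex | with_reducible apply IntF.fst | with_reducible apply IntF.snd | with_reducible apply IntF.app | with_reducible apply IntF.inl | with_reducible apply IntF.inr | with_reducible_and_instances apply IntF.mul | with_reducible_and_instances apply IntF.inv | with_reducible_and_instances apply IntF.add | with_reducible_and_instances apply IntF.sub | with_reducible_and_instances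 apply IntF.neg | with_reducible_and_instances apply IntF.smul | with_reducible apply Int.fin | with_reducible apply IntF.sep | with_reducible apply IntF.lam | with_reducible apply IntF.insert | with_reducible apply IntF.singleton | with_reducible apply IntF.union | with_reducible apply IntF.iimage | with_reducible apply IntF.ite | with_reducible apply IntF.the | with_reducible apply IntF.irec | with_reducible apply IntF.succ | with_reducible apply IntF.val | with_reducible apply IntF.mk | (with_reducible refine Int.comp ?_ ?_; assumption) | (with_reducible refine Int.comp₂ ?_ ?_ ?_; assumption) | (with_reducible refine Int.comp₃ ?_ ?_ ?_ ?_; assumption) | (with_reducible refine Int.comp₄ ?_ ?_ ?_ ?_ ?_; assumption) | (with_reducible refine IntF.comp ?_ ?_; assumption) | (with_reducible refine IntF.comp₂ ?_ ?_ ?_; assumption) | (with_reducible refine IntF.comp₃ ?_ ?_ ?_ ?_; assumption) | with_reducible apply IntF.pair))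
  have iT : Int N (fun _ : INat N => True) := Int.const _
  have iFm : Int N (fun U : IPow N (IFun N (Plain.El (KK t x e)) (Plain.El e)) =>
      ∃ n, True ∧ (sep N fun f : IFun N (Plain.El (KK t x e)) (Plain.El e) =>
        Cl gg f ∧ f ≠ q n) = U) := by (repeat' (first | with_reducible exact IntF.id | with_reducible exact IntF.fst' | with_reducible exact IntF.snd' | with_reducible exact IntF.const _ | with_reducible exact Int.const _ | assumption | with_reducible apply Int.and | with_reducible apply Int.or | with_reducible apply Int.not | with_reducible apply Int.imp | with_reducible apply Int.iff | with_reducible apply Int.ne | with_reducible apply Int.eq | with_reducible apply Int.mem | with_reducible apply Int.subset | with_reducible apply Int.ltN | with_reducible apply Int.leN | with_reducible_and_instances apply Int.le | with_reducible_and_instances apply Int.lt | with_reducible apply Int.all | with_reducible apply Int.ex | with_reducible apply IntF.fst | with_reducible apply IntF.snd | with_reducible apply IntF.app | with_reducible apply IntF.inl | with_reducible apply IntF.inr | with_reducible_and_instances apply IntF.mul | with_reducible_and_instances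 apply IntF.inv | with_reducible_and_instances apply IntF.add | with_reducible_and_instances apply IntF.sub | with_reducible_and_instances apply IntF.neg | with_reducible_and_instances apply IntF.smul | with_reducible apply Int.fin | with_reducible apply IntF.sep | with_reducible apply IntF.lam | with_reducible apply IntF.insert | with_reducible apply IntF.singleton | with_reducible apply IntF.union | with_reducible apply IntF.iimage | with_reducible apply IntF.ite | with_reducible apply IntF.the | with_reducible apply IntF.irec | with_reducible apply IntF.succ | with_reducible apply IntF.val | with_reducible apply IntF.mk | (with_reducible refine Int.comp ?_ ?_; assumption) | (with_reducible refine Int.comp₂ ?_ ?_ ?_; assumption) | (with_reducible refine Int.comp₃ ?_ ?_ ?_ ?_; assumption) | (with_reducible refine Int.comp₄ ?_ ?_ ?_ ?_ ?_; assumption) | (with_reducible refine IntF.comp ?_ ?_; assumption) | (with_reducible refine IntF.comp₂ ?_ ?_ ?_; assumption) | (with_reducible refine IntF.comp₃ ?_ ?_ ?_ ?_; assumption) | with_reducible apply IntF.pair))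
  have hne : ∀ n, ev (Fg gg) z₀ ≠ q n := fun n h => by
    obtain ⟨i, hi⟩ := hq2 n
    apply hi
    rw [← h, ev_apply iF]
  have h1 := hP (code (M := N) (ev (Fg gg) z₀)) (mem_codeB'.2 ((mem_sep iC).2 hcl))
    (code (M := N) (sep N fun f : IFun N (Plain.El (KK t x e)) (Plain.El e) =>
      Cl gg f ∧ ∀ n, f ≠ q n)) ?_ (mem_codeB'.2 ((mem_sep iG).2 ⟨hcl, hne⟩))
  · obtain ⟨u, hu, h2, h3⟩ := h1
    obtain ⟨U, hU, rfl⟩ := mem_codeB.1 hu
    obtain ⟨V, hV, hUV⟩ := (mem_sep iO).1 hU
    obtain ⟨S, hS, hS'⟩ := hV _ ((hUV _).1 (mem_codeB'.1 h2)).1
    obtain ⟨n, hn⟩ := hq3 S hS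
    have h4 : q n ∈ U := (hUV _).2 ⟨hS' _ fun i hi => by rw [ev_apply iF]; exact hn i hi, hq1 n⟩
    exact ((mem_sep iG).1 (mem_codeB'.1 (h3 _ (mem_codeB'.2 h4)))).2 n rfl
  · refine ⟨code (M := N) (sep N fun U => ∃ n, True ∧ (sep N
        fun f : IFun N (Plain.El (KK t x e)) (Plain.El e) => Cl gg f ∧ f ≠ q n) = U),
      isCtble_iff.2 ((Ctb.nat.image iT iWn).mono fun U hU => (mem_sep iFm).1 hU),
      ⟨_, mem_codeB'.2 ((mem_sep iFm).2 ⟨0, trivial, rfl⟩)⟩, fun u hu => ?_,
      fun z => ⟨fun hz u hu => ?_, fun hz => ?_⟩⟩
    · obtain ⟨U, hU, rfl⟩ := mem_codeB.1 hu
      obtain ⟨n, -, rfl⟩ := (mem_sep iFm).1 hU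
      have iV : Int N (fun f : IFun N (Plain.El (KK t x e)) (Plain.El e) => f ≠ q n) := by (repeat' (first | with_reducible exact IntF.id | with_reducible exact IntF.fst' | with_reducible exact IntF.snd' | with_reducible exact IntF.const _ | with_reducible exact Int.const _ | assumption | with_reducible apply Int.and | with_reducible apply Int.or | with_reducible apply Int.not | with_reducible apply Int.imp | with_reducible apply Int.iff | with_reducible apply Int.ne | with_reducible apply Int.eq | with_reducible apply Int.mem | with_reducible apply Int.subset | with_reducible apply Int.ltN | with_reducible apply Int.leN | with_reducible_and_instances apply Int.le | with_reducible_and_instances apply Int.lt | with_reducible apply Int.all | with_reducible apply Int.ex | with_reducible apply IntF.fst | with_reducible apply IntF.snd | with_reducible apply IntF.app | with_reducible apply IntF.inl | with_reducible apply IntF.inr | with_reducible_and_instances apply IntF.mul | with_reducible_and_instances apply IntF.inv | with_reducible_and_instances apply IntF.add | with_reducible_and_instances apply IntF.sub | with_reducible_and_instances apply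 IntF.neg | with_reducible_and_instances apply IntF.smul | with_reducible apply Int.fin | with_reducible apply IntF.sep | with_reducible apply IntF.lam | with_reducible apply IntF.insert | with_reducible apply IntF.singleton | with_reducible apply IntF.union | with_reducible apply IntF.iimage | with_reducible apply IntF.ite | with_reducible apply IntF.the | with_reducible apply IntF.irec | with_reducible apply IntF.succ | with_reducible apply IntF.val | with_reducible apply IntF.mk | (with_reducible refine Int.comp ?_ ?_; assumption) | (with_reducible refine Int.comp₂ ?_ ?_ ?_; assumption) | (with_reducible refine Int.comp₃ ?_ ?_ ?_ ?_; assumption) | (with_reducible refine Int.comp₄ ?_ ?_ ?_ ?_ ?_; assumption) | (with_reducible refine IntF.comp ?_ ?_; assumption) | (with_reducible refine IntF.comp₂ ?_ ?_ ?_; assumption) | (with_reducible refine IntF.comp₃ ?_ ?_ ?_ ?_; assumption) | with_reducible apply IntF.pair))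
      refine mem_codeB'.2 ((mem_sep iO).2 ⟨sep N fun f => f ≠ q n, fun f hf => ?_, fun f => ?_⟩)
      · have h2 := (mem_sep iV).1 hf
        have h3 : ∃ i, f i ≠ q n i := by
          by_contra h3
          push Not at h3
          exact h2 (IFun.ext' h3)
        obtain ⟨i, hi⟩ := h3
        refine ⟨{i}, IFin.singleton _, fun g hg' => (mem_sep iV).2 fun h4 => hi ?_⟩
        rw [hg' i (mem_singleton.2 rfl), h4]
      · rw [mem_sep (iW n), mem_sep iV]
        exact and_comm
    · obtain ⟨U, hU, rfl⟩ := mem_codeB.1 hu
      obtain ⟨n, -, rfl⟩ := (mem_sep iFm).1 hU
      obtain ⟨f, hf, rfl⟩ := mem_codeB.1 hz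
      obtain ⟨h2, h3⟩ := (mem_sep iG).1 hf
      exact mem_codeB'.2 ((mem_sep (iW n)).2 ⟨h2, h3 n⟩)
    · obtain ⟨f, hf, rfl⟩ := mem_codeB.1 (hz _ (mem_codeB'.2 ((mem_sep iFm).2 ⟨0, trivial, rfl⟩)))
      refine mem_codeB'.2 ((mem_sep iG).2 ⟨((mem_sep (iW 0)).1 hf).1, fun n => ?_⟩)
      exact ((mem_sep (iW n)).1 (mem_codeB'.1 (hz _ (mem_codeB'.2
        ((mem_sep iFm).2 ⟨n, trivial, rfl⟩))))).2

end

end Pool.Agent.Helper672.ZFA.V257
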