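import Pool.Agent.V11257.Cr5

/-!
# A metrization lemma, inside a model
-/

set_option maxHeartbeats 1000000
set_option linter.all false
set_option synthInstance.maxSize 2000

namespace Pool.Agent.Helper672.ZFA.V257

open FirstOrder FirstOrder.Language
open H635 (IR)
open Pool.Agent.H310

universe u

section

variable {N : Type u} [L.Structure N] [IsModel N]

theorem nr_add' (m n : INat N) : nr (m + n) = nr m + nr n := by
  have hI := int_nr (N := N)
  refine INat.ind (p := fun n => nr (m + n) = nr m + nr n) (by (repeat' (first | with_reducible exact IntF.id | with_reducible exact IntF.fst' | with_reducible exact IntF.snd' | with_reducible exact IntF.const _ | with_reducible exact Int.const _ | assumption | with_reducible apply Int.and | with_reducible apply Int.or | with_reducible apply Int.not | with_reducible apply Int.imp | with_reducible apply Int.iff | with_reducible apply Int.ne | with_reducible apply Int.eq | with_reducible apply Int.mem | with_reducible apply Int.subset | with_reducible apply Int.ltN | with_reducible apply Int.leN | with_reducible_and_instances apply Int.le | with_reducible_and_instances apply Int.lt | with_reducible apply Int.all | with_reducible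 apply Int.ex | with_reducible apply IntF.fst | with_reducible apply IntF.snd | with_reducible apply IntF.app | with_reducible apply IntF.inl | with_reducible apply IntF.inr | with_reducible_and_instances apply IntF.mul | with_reducible_and_instances apply IntF.inv | with_reducible_and_instances apply IntF.add | with_reducible_and_instances apply IntF.sub | with_reducible_and_instances apply IntF.neg | with_reducible_and_instances apply IntF.smul | with_reducible apply Int.fin | with_reducible apply IntF.sep | with_reducible apply IntF.lam | with_reducible apply IntF.insert | with_reducible apply IntF.singleton | with_reducible apply IntF.union | with_reducible apply IntF.iimage | with_reducible apply IntF.ite | with_reducible apply IntF.the | with_reducible apply IntF.irec | with_reducible apply IntF.succ | with_reducible apply IntF.val | with_reducible apply IntF.mk | (with_reducible refine Int.comp ?_ ?_; assumption) | (with_reducible refine Int.comp₂ ?_ ?_ ?_; assumption) | (with_reducible refine Int.comp₃ ?_ ?_ ?_ ?_; assumption) | (with_reducible refine Int.comp₄ ?_ ?_ ?_ ?_ ?_; assumption) | (with_reducible refine IntF.comp ?_ ?_; assumption) | (with_reducible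 refine IntF.comp₂ ?_ ?_ ?_; assumption) | (with_reducible refine IntF.comp₃ ?_ ?_ ?_ ?_; assumption) | with_reducible apply IntF.pair))) ?_ ?_ n
  · rw [nr_zero, add_zero, add_zero]
  · intro n ih
    have h1 : m + n.succ = (m + n).succ := by
      rw [INat.succ_eq, INat.succ_eq, add_assoc]
    rw [h1, nr_succ, ih, nr_succ, add_assoc]

theorem nr_one : nr (INat.succ (0 : INat N)) = 1 := by
  rw [nr_succ, nr_zero, zero_add]

theorem add_self_eq_zero {k : INat N} (h : 0 = k + k) : k = 0 := by
  rcases INat.eq_zero_or_succ k with h1 | ⟨l, rfl⟩
  · exact h1
  · exfalso
    have h2 : l.succ + l.succ = (l.succ + l).succ := by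
      rw [INat.succ_eq (l.succ + l), add_assoc, ← INat.succ_eq l]
    rw [h2] at h
    exact INat.succ_ne_zero _ h.symm

theorem one_ne_add_self {k : INat N} (h : INat.succ 0 = k + k) : False := by
  rcases INat.eq_zero_or_succ k with h1 | ⟨l, rfl⟩
  · subst h1
    rw [add_zero] at h
    exact INat.succ_ne_zero _ h
  · have h2 : l.succ + l.succ = (l.succ + l).succ := by
      rw [INat.succ_eq (l.succ + l), add_assoc, ← INat.succ_eq l]
    rw [h2] at h
    have h3 := INat.succ_inj h
    have h4 : l.succ + l = (l + l).succ := by
      rw [INat.succ_eq, INat.succ_eq, add_right_comm]
    rw [h4] at h3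
    exact INat.succ_ne_zero _ h3.symm

variable {α : Type u} [ITy N α] {U : INat N × (α × α) → Prop}

/-- The relations with dyadic indices. -/
noncomputable def VV (U : INat N × (α × α) → Prop) (n : INat N) : IPow N (INat N × (α × α)) :=
  irec (sep N fun q : INat N × (α × α) => q.1 ≠ 0 ∨ q.2.1 = q.2.2)
    (fun n S => sep N fun q : INat N × (α × α) => (∃ k, q.1 = k + k ∧ (k, q.2) ∈ S) ∨
      ∃ k z, q.1 = (k + k).succ ∧ U (n.succ, (q.2.1, z)) ∧ (k, (z, q.2.2)) ∈ S) n

/-- The properties of the sequence of relations. -/
structure US (U : INat N × (α × α) → Prop) : Prop where
  int : Int N U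
  refl : ∀ n x, U (n, (x, x))
  symm : ∀ n x y, U (n, (x, y)) → U (n, (y, x))
  comp : ∀ n x y z, U (n.succ, (x, y)) → U (n.succ, (y, z)) → U (n, (x, z))

variable (h : US U)

include h

theorem int_VV0 : IntF N (fun q : INat N × IPow N (INat N × (α × α)) =>
    sep N fun p : INat N × (α × α) => (∃ k, p.1 = k + k ∧ (k, p.2) ∈ q.2) ∨
      ∃ k z, p.1 = (k + k).succ ∧ U (q.1.succ, (p.2.1, z)) ∧ (k, (z, p.2.2)) ∈ q.2) := by
  have hU := h.int
  (repeat' (first | with_reducible exact IntF.id | with_reducible exact IntF.fst' | with_reducible exact IntF.snd' | with_reducible exact IntF.const _ | with_reducible exact Int.const _ | assumption | with_reducible apply Int.and | with_reducible apply Int.or | with_reducible apply Int.not | with_reducible apply Int.imp | with_reducible apply Int.iff | with_reducible apply Int.ne | with_reducible apply Int.eq | with_reducible apply Int.mem | with_reducible apply Int.subset | with_reducible apply Int.ltN | with_reducible apply Int.leN | with_reducible_and_instances apply Int.le | with_reducible_and_instances apply Int.lt | with_reducible apply Int.all | with_reducible apply Int.ex | with_reducible apply IntF.fst | with_reducible apply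 IntF.snd | with_reducible apply IntF.app | with_reducible apply IntF.inl | with_reducible apply IntF.inr | with_reducible_and_instances apply IntF.mul | with_reducible_and_instances apply IntF.inv | with_reducible_and_instances apply IntF.add | with_reducible_and_instances apply IntF.sub | with_reducible_and_instances apply IntF.neg | with_reducible_and_instances apply IntF.smul | with_reducible apply Int.fin | with_reducible apply IntF.sep | with_reducible apply IntF.lam | with_reducible apply IntF.insert | with_reducible apply IntF.singleton | with_reducible apply IntF.union | with_reducible apply IntF.iimage | with_reducible apply IntF.ite | with_reducible apply IntF.the | with_reducible apply IntF.irec | with_reducible apply IntF.succ | with_reducible apply IntF.val | with_reducible apply IntF.mk | (with_reducible refine Int.comp ?_ ?_; assumption) | (with_reducible refine Int.comp₂ ?_ ?_ ?_; assumption) | (with_reducible refine Int.comp₃ ?_ ?_ ?_ ?_; assumption) | (with_reducible refine Int.comp₄ ?_ ?_ ?_ ?_ ?_; assumption) | (with_reducible refine IntF.comp ?_ ?_; assumption) | (with_reducible refine IntF.comp₂ ?_ ?_ ?_; assumption) | (with_reducible refine IntF.comp₃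 ?_ ?_ ?_ ?_; assumption) | with_reducible apply IntF.pair))

theorem int_VV : IntF N (VV U) := by
  have hU := h.int
  unfold VV
  (repeat' (first | with_reducible exact IntF.id | with_reducible exact IntF.fst' | with_reducible exact IntF.snd' | with_reducible exact IntF.const _ | with_reducible exact Int.const _ | assumption | with_reducible apply Int.and | with_reducible apply Int.or | with_reducible apply Int.not | with_reducible apply Int.imp | with_reducible apply Int.iff | with_reducible apply Int.ne | with_reducible apply Int.eq | with_reducible apply Int.mem | with_reducible apply Int.subset | with_reducible apply Int.ltN | with_reducible apply Int.leN | with_reducible_and_instances apply Int.le | with_reducible_and_instances apply Int.lt | with_reducible apply Int.all | with_reducible apply Int.ex | with_reducible apply IntF.fst | with_reducible apply IntF.snd | with_reducible apply IntF.app | with_reducible apply IntF.inl | with_reducible apply IntF.inr | with_reducible_and_instances apply IntF.mul | with_reducible_and_instances apply IntF.inv | with_reducible_and_instances apply IntF.add | with_reducible_and_instances apply IntF.sub | with_reducible_and_instances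 apply IntF.neg | with_reducible_and_instances apply IntF.smul | with_reducible apply Int.fin | with_reducible apply IntF.sep | with_reducible apply IntF.lam | with_reducible apply IntF.insert | with_reducible apply IntF.singleton | with_reducible apply IntF.union | with_reducible apply IntF.iimage | with_reducible apply IntF.ite | with_reducible apply IntF.the | with_reducible apply IntF.irec | with_reducible apply IntF.succ | with_reducible apply IntF.val | with_reducible apply IntF.mk | (with_reducible refine Int.comp ?_ ?_; assumption) | (with_reducible refine Int.comp₂ ?_ ?_ ?_; assumption) | (with_reducible refine Int.comp₃ ?_ ?_ ?_ ?_; assumption) | (with_reducible refine Int.comp₄ ?_ ?_ ?_ ?_ ?_; assumption) | (with_reducible refine IntF.comp ?_ ?_; assumption) | (with_reducible refine IntF.comp₂ ?_ ?_ ?_; assumption) | (with_reducible refine IntF.comp₃ ?_ ?_ ?_ ?_; assumption) | with_reducible apply IntF.pair))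

omit h in
theorem int_V0 : Int N (fun q : INat N × (α × α) => q.1 ≠ 0 ∨ q.2.1 = q.2.2) := by
  (repeat' (first | with_reducible exact IntF.id | with_reducible exact IntF.fst' | with_reducible exact IntF.snd' | with_reducible exact IntF.const _ | with_reducible exact Int.const _ | assumption | with_reducible apply Int.and | with_reducible apply Int.or | with_reducible apply Int.not | with_reducible apply Int.imp | with_reducible apply Int.iff | with_reducible apply Int.ne | with_reducible apply Int.eq | with_reducible apply Int.mem | with_reducible apply Int.subset | with_reducible apply Int.ltN | with_reducible apply Int.leN | with_reducible_and_instances apply Int.le | with_reducible_and_instances apply Int.lt | with_reducible apply Int.all | with_reducible apply Int.ex | with_reducible apply IntF.fst | with_reducible apply IntF.snd | with_reducible apply IntF.app | with_reducible apply IntF.inl | with_reducible apply IntF.inr | with_reducible_and_instances apply IntF.mul | with_reducible_and_instances apply IntF.inv | with_reducible_and_instances apply IntF.add | with_reducible_and_instances apply IntF.sub | with_reducible_and_instances apply IntF.neg | with_reducible_and_instances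 apply IntF.smul | with_reducible apply Int.fin | with_reducible apply IntF.sep | with_reducible apply IntF.lam | with_reducible apply IntF.insert | with_reducible apply IntF.singleton | with_reducible apply IntF.union | with_reducible apply IntF.iimage | with_reducible apply IntF.ite | with_reducible apply IntF.the | with_reducible apply IntF.irec | with_reducible apply IntF.succ | with_reducible apply IntF.val | with_reducible apply IntF.mk | (with_reducible refine Int.comp ?_ ?_; assumption) | (with_reducible refine Int.comp₂ ?_ ?_ ?_; assumption) | (with_reducible refine Int.comp₃ ?_ ?_ ?_ ?_; assumption) | (with_reducible refine Int.comp₄ ?_ ?_ ?_ ?_ ?_; assumption) | (with_reducible refine IntF.comp ?_ ?_; assumption) | (with_reducible refine IntF.comp₂ ?_ ?_ ?_; assumption) | (with_reducible refine IntF.comp₃ ?_ ?_ ?_ ?_; assumption) | with_reducible apply IntF.pair))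

theorem mem_VV_zero (p : INat N × (α × α)) : p ∈ VV U 0 ↔ p.1 ≠ 0 ∨ p.2.1 = p.2.2 := by
  unfold VV
  rw [irec_zero (int_VV0 h)]
  exact mem_sep int_V0

theorem mem_VV_succ (n : INat N) (p : INat N × (α × α)) : p ∈ VV U n.succ ↔
    (∃ k, p.1 = k + k ∧ (k, p.2) ∈ VV U n) ∨
      ∃ k z, p.1 = (k + k).succ ∧ U (n.succ, (p.2.1, z)) ∧ (k, (z, p.2.2)) ∈ VV U n := by
  have hU := h.int
  have h1 : VV U n.succ = sep N fun p : INat N × (α × α) => (∃ k, p.1 = k + k ∧
      (k, p.2) ∈ VV U n) ∨ ∃ k z, p.1 = (k + k).succ ∧ U (n.succ, (p.2.1, z)) ∧
        (k, (z, p.2.2)) ∈ VV U n := by
    unfold VV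
    rw [irec_succ (int_VV0 h)]
  rw [h1]
  exact mem_sep (by (repeat' (first | with_reducible exact IntF.id | with_reducible exact IntF.fst' | with_reducible exact IntF.snd' | with_reducible exact IntF.const _ | with_reducible exact Int.const _ | assumption | with_reducible apply Int.and | with_reducible apply Int.or | with_reducible apply Int.not | with_reducible apply Int.imp | with_reducible apply Int.iff | with_reducible apply Int.ne | with_reducible apply Int.eq | with_reducible apply Int.mem | with_reducible apply Int.subset | with_reducible apply Int.ltN | with_reducible apply Int.leN | with_reducible_and_instances apply Int.le | with_reducible_and_instances apply Int.lt | with_reducible apply Int.all | with_reducible apply Int.ex | with_reducible apply IntF.fst | with_reducible apply IntF.snd | with_reducible apply IntF.app | with_reducible apply IntF.inl | with_reducible apply IntF.inr | with_reducible_and_instances apply IntF.mul | with_reducible_and_instances apply IntF.inv | with_reducible_and_instances apply IntF.add | with_reducible_and_instances apply IntF.sub | with_reducible_and_instances apply IntF.neg | with_reducible_and_instances apply IntF.smul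 | with_reducible apply Int.fin | with_reducible apply IntF.sep | with_reducible apply IntF.lam | with_reducible apply IntF.insert | with_reducible apply IntF.singleton | with_reducible apply IntF.union | with_reducible apply IntF.iimage | with_reducible apply IntF.ite | with_reducible apply IntF.the | with_reducible apply IntF.irec | with_reducible apply IntF.succ | with_reducible apply IntF.val | with_reducible apply IntF.mk | (with_reducible refine Int.comp ?_ ?_; assumption) | (with_reducible refine Int.comp₂ ?_ ?_ ?_; assumption) | (with_reducible refine Int.comp₃ ?_ ?_ ?_ ?_; assumption) | (with_reducible refine Int.comp₄ ?_ ?_ ?_ ?_ ?_; assumption) | (with_reducible refine IntF.comp ?_ ?_; assumption) | (with_reducible refine IntF.comp₂ ?_ ?_ ?_; assumption) | (with_reducible refine IntF.comp₃ ?_ ?_ ?_ ?_; assumption) | with_reducible apply IntF.pair)))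

theorem VV_even {n k : INat N} {p : α × α} (hk : (k, p) ∈ VV U n) : (k + k, p) ∈ VV U n.succ :=
  (mem_VV_succ h n _).2 (Or.inl ⟨k, rfl, hk⟩)

/-- One more step. -/
theorem VV_add (n : INat N) : ∀ m x y z, U (n, (x, z)) → (m, (z, y)) ∈ VV U n →
    (m.succ, (x, y)) ∈ VV U n := by
  have hU := h.int
  have hV := int_VV h
  refine INat.ind (p := fun n => ∀ m x y z, U (n, (x, z)) → (m, (z, y)) ∈ VV U n →
    (m.succ, (x, y)) ∈ VV U n) (by (repeat' (first | with_reducible exact IntF.id | with_reducible exact IntF.fst' | with_reducible exact IntF.snd' | with_reducible exact IntF.const _ | with_reducible exact Int.const _ | assumption | with_reducible apply Int.and | with_reducible apply Int.or | with_reducible apply Int.not | with_reducible apply Int.imp | with_reducible apply Int.iff | with_reducible apply Int.ne | with_reducible apply Int.eq | with_reducible apply Int.mem | with_reducible apply Int.subset | with_reducible apply Int.ltN | with_reducible apply Int.leN | with_reducible_and_instances apply Int.le | with_reducible_and_instances apply Int.lt | with_reducible apply Int.all | with_reducible apply Int.ex | with_reducible apply IntF.fst | with_reducible apply IntF.snd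 | with_reducible apply IntF.app | with_reducible apply IntF.inl | with_reducible apply IntF.inr | with_reducible_and_instances apply IntF.mul | with_reducible_and_instances apply IntF.inv | with_reducible_and_instances apply IntF.add | with_reducible_and_instances apply IntF.sub | with_reducible_and_instances apply IntF.neg | with_reducible_and_instances apply IntF.smul | with_reducible apply Int.fin | with_reducible apply IntF.sep | with_reducible apply IntF.lam | with_reducible apply IntF.insert | with_reducible apply IntF.singleton | with_reducible apply IntF.union | with_reducible apply IntF.iimage | with_reducible apply IntF.ite | with_reducible apply IntF.the | with_reducible apply IntF.irec | with_reducible apply IntF.succ | with_reducible apply IntF.val | with_reducible apply IntF.mk | (with_reducible refine Int.comp ?_ ?_; assumption) | (with_reducible refine Int.comp₂ ?_ ?_ ?_; assumption) | (with_reducible refine Int.comp₃ ?_ ?_ ?_ ?_; assumption) | (with_reducible refine Int.comp₄ ?_ ?_ ?_ ?_ ?_; assumption) | (with_reducible refine IntF.comp ?_ ?_; assumption) | (with_reducible refine IntF.comp₂ ?_ ?_ ?_; assumption) | (with_reducible refine IntF.comp₃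 ?_ ?_ ?_ ?_; assumption) | with_reducible apply IntF.pair))) ?_ ?_ n
  · intro m x y z _ _
    exact (mem_VV_zero h _).2 (Or.inl (INat.succ_ne_zero _))
  · intro n ih m x y z h1 h2
    rcases (mem_VV_succ h n _).1 h2 with ⟨k, h3, h4⟩ | ⟨k, z', h3, h4, h5⟩
    · refine (mem_VV_succ h n _).2 (Or.inr ⟨k, z, congrArg INat.succ h3, h1, h4⟩)
    · have h6 := ih k x y z' (h.comp n x z z' h1 h4) h5
      have h7 := VV_even h h6
      have h8 : k.succ + k.succ = m.succ := by
        change m = (k + k).succ at h3
        rw [h3, INat.succ_eq, INat.succ_eq, INat.succ_eq, add_add_add_comm, add_assoc (k + k)]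
      rw [h8] at h7
      exact h7

theorem VV_null (n : INat N) : ∀ x y, (0, (x, y)) ∈ VV U n → x = y := by
  have hV := int_VV h
  refine INat.ind (p := fun n => ∀ x y, (0, (x, y)) ∈ VV U n → x = y) (by (repeat' (first | with_reducible exact IntF.id | with_reducible exact IntF.fst' | with_reducible exact IntF.snd' | with_reducible exact IntF.const _ | with_reducible exact Int.const _ | assumption | with_reducible apply Int.and | with_reducible apply Int.or | with_reducible apply Int.not | with_reducible apply Int.imp | with_reducible apply Int.iff | with_reducible apply Int.ne | with_reducible apply Int.eq | with_reducible apply Int.mem | with_reducible apply Int.subset | with_reducible apply Int.ltN | with_reducible apply Int.leN | with_reducible_and_instances apply Int.le | with_reducible_and_instances apply Int.lt | with_reducible apply Int.all | with_reducible apply Int.ex | with_reducible apply IntF.fst | with_reducible apply IntF.snd | with_reducible apply IntF.app | with_reducible apply IntF.inl | with_reducible apply IntF.inr | with_reducible_and_instances apply IntF.mul | with_reducible_and_instances apply IntF.inv | with_reducible_and_instances apply IntF.add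 | with_reducible_and_instances apply IntF.sub | with_reducible_and_instances apply IntF.neg | with_reducible_and_instances apply IntF.smul | with_reducible apply Int.fin | with_reducible apply IntF.sep | with_reducible apply IntF.lam | with_reducible apply IntF.insert | with_reducible apply IntF.singleton | with_reducible apply IntF.union | with_reducible apply IntF.iimage | with_reducible apply IntF.ite | with_reducible apply IntF.the | with_reducible apply IntF.irec | with_reducible apply IntF.succ | with_reducible apply IntF.val | with_reducible apply IntF.mk | (with_reducible refine Int.comp ?_ ?_; assumption) | (with_reducible refine Int.comp₂ ?_ ?_ ?_; assumption) | (with_reducible refine Int.comp₃ ?_ ?_ ?_ ?_; assumption) | (with_reducible refine Int.comp₄ ?_ ?_ ?_ ?_ ?_; assumption) | (with_reducible refine IntF.comp ?_ ?_; assumption) | (with_reducible refine IntF.comp₂ ?_ ?_ ?_; assumption) | (with_reducible refine IntF.comp₃ ?_ ?_ ?_ ?_; assumption) | with_reducible apply IntF.pair))) ?_ ?_ n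
  · intro x y h1
    rcases (mem_VV_zero h _).1 h1 with h2 | h2
    · exact absurd rfl h2
    · exact h2
  · intro n ih x y h1
    rcases (mem_VV_succ h n _).1 h1 with ⟨k, h3, h4⟩ | ⟨k, z', h3, h4, h5⟩
    · have h5 : k = 0 := add_self_eq_zero h3
      subst h5
      exact ih x y h4
    · exact absurd h3.symm (INat.succ_ne_zero _)

theorem VV_one {n : INat N} {x y : α} (h1 : (INat.succ 0, (x, y)) ∈ VV U n.succ) :
    U (n.succ, (x, y)) := by
  rcases (mem_VV_succ h n _).1 h1 with ⟨k, h3, h4⟩ | ⟨k, z', h3, h4, h5⟩
  · exact absurd h3 one_ne_add_self
  · have h6 : k = 0 := add_self_eq_zero (INat.succ_inj h3)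
    subst h6
    have h7 := VV_null h n _ _ h5
    change z' = y at h7
    rw [← h7]
    exact h4

omit h in
theorem hh_two (n : INat N) : hh n.succ + hh n.succ = hh n := by
  rw [hh_succ]
  have h1 : (2 : IR N) ≠ 0 := two_ne_zero
  have h2 : hh n * 2⁻¹ + hh n * 2⁻¹ = hh n * (2 * 2⁻¹) := by ring
  rw [h2, mul_inv_cancel₀ h1, mul_one]

theorem VV_up (n c : INat N) : ∀ m p, (m, p) ∈ VV U n →
    ∃ m', (m', p) ∈ VV U (n + c) ∧ nr m' * hh (n + c) = nr m * hh n := by
  have hV := int_VV h
  have hI := int_hh (N := N)
  have hJ := int_nr (N := N)
  refine INat.ind (p := fun c => ∀ m p, (m, p) ∈ VV U n →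
    ∃ m', (m', p) ∈ VV U (n + c) ∧ nr m' * hh (n + c) = nr m * hh n) (by (repeat' (first | with_reducible exact IntF.id | with_reducible exact IntF.fst' | with_reducible exact IntF.snd' | with_reducible exact IntF.const _ | with_reducible exact Int.const _ | assumption | with_reducible apply Int.and | with_reducible apply Int.or | with_reducible apply Int.not | with_reducible apply Int.imp | with_reducible apply Int.iff | with_reducible apply Int.ne | with_reducible apply Int.eq | with_reducible apply Int.mem | with_reducible apply Int.subset | with_reducible apply Int.ltN | with_reducible apply Int.leN | with_reducible_and_instances apply Int.le | with_reducible_and_instances apply Int.lt | with_reducible apply Int.all | with_reducible apply Int.ex | with_reducible apply IntF.fst | with_reducible apply IntF.snd | with_reducible apply IntF.app | with_reducible apply IntF.inl | with_reducible apply IntF.inr | with_reducible_and_instances apply IntF.mul | with_reducible_and_instances apply IntF.inv | with_reducible_and_instances apply IntF.add | with_reducible_and_instances apply IntF.sub | with_reducible_and_instances apply IntF.neg | with_reducible_and_instances apply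 IntF.smul | with_reducible apply Int.fin | with_reducible apply IntF.sep | with_reducible apply IntF.lam | with_reducible apply IntF.insert | with_reducible apply IntF.singleton | with_reducible apply IntF.union | with_reducible apply IntF.iimage | with_reducible apply IntF.ite | with_reducible apply IntF.the | with_reducible apply IntF.irec | with_reducible apply IntF.succ | with_reducible apply IntF.val | with_reducible apply IntF.mk | (with_reducible refine Int.comp ?_ ?_; assumption) | (with_reducible refine Int.comp₂ ?_ ?_ ?_; assumption) | (with_reducible refine Int.comp₃ ?_ ?_ ?_ ?_; assumption) | (with_reducible refine Int.comp₄ ?_ ?_ ?_ ?_ ?_; assumption) | (with_reducible refine IntF.comp ?_ ?_; assumption) | (with_reducible refine IntF.comp₂ ?_ ?_ ?_; assumption) | (with_reducible refine IntF.comp₃ ?_ ?_ ?_ ?_; assumption) | with_reducible apply IntF.pair))) ?_ ?_ c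
  · intro m p hm
    exact ⟨m, by rwa [add_zero], by rw [add_zero]⟩
  · intro c ih m p hm
    obtain ⟨m', h1, h2⟩ := ih m p hm
    have h3 : n + c.succ = (n + c).succ := by
      rw [INat.succ_eq, INat.succ_eq, add_assoc]
    refine ⟨m' + m', by rw [h3]; exact VV_even h h1, ?_⟩
    rw [h3, nr_add', ← h2, ← hh_two (n + c)]
    ring

theorem VV_down (j c : INat N) : ∀ m p, (m, p) ∈ VV U (j + c) →
    ∃ m', (m', p) ∈ VV U j ∧ nr m' * hh j + hh (j + c) ≤ nr m * hh (j + c) + hh j := by
  have hV := int_VV h
  have hI := int_hh (N := N)
  have hJ := int_nr (N := N)
  refine INat.ind (p := fun c => ∀ m p, (m, p) ∈ VV U (j + c) →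
    ∃ m', (m', p) ∈ VV U j ∧ nr m' * hh j + hh (j + c) ≤ nr m * hh (j + c) + hh j) (by (repeat' (first | with_reducible exact IntF.id | with_reducible exact IntF.fst' | with_reducible exact IntF.snd' | with_reducible exact IntF.const _ | with_reducible exact Int.const _ | assumption | with_reducible apply Int.and | with_reducible apply Int.or | with_reducible apply Int.not | with_reducible apply Int.imp | with_reducible apply Int.iff | with_reducible apply Int.ne | with_reducible apply Int.eq | with_reducible apply Int.mem | with_reducible apply Int.subset | with_reducible apply Int.ltN | with_reducible apply Int.leN | with_reducible_and_instances apply Int.le | with_reducible_and_instances apply Int.lt | with_reducible apply Int.all | with_reducible apply Int.ex | with_reducible apply IntF.fst | with_reducible apply IntF.snd | with_reducible apply IntF.app | with_reducible apply IntF.inl | with_reducible apply IntF.inr | with_reducible_and_instances apply IntF.mul | with_reducible_and_instances apply IntF.inv | with_reducible_and_instances apply IntF.add | with_reducible_and_instances apply IntF.sub | with_reducible_and_instances apply IntF.neg | with_reducible_and_instances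 apply IntF.smul | with_reducible apply Int.fin | with_reducible apply IntF.sep | with_reducible apply IntF.lam | with_reducible apply IntF.insert | with_reducible apply IntF.singleton | with_reducible apply IntF.union | with_reducible apply IntF.iimage | with_reducible apply IntF.ite | with_reducible apply IntF.the | with_reducible apply IntF.irec | with_reducible apply IntF.succ | with_reducible apply IntF.val | with_reducible apply IntF.mk | (with_reducible refine Int.comp ?_ ?_; assumption) | (with_reducible refine Int.comp₂ ?_ ?_ ?_; assumption) | (with_reducible refine Int.comp₃ ?_ ?_ ?_ ?_; assumption) | (with_reducible refine Int.comp₄ ?_ ?_ ?_ ?_ ?_; assumption) | (with_reducible refine IntF.comp ?_ ?_; assumption) | (with_reducible refine IntF.comp₂ ?_ ?_ ?_; assumption) | (with_reducible refine IntF.comp₃ ?_ ?_ ?_ ?_; assumption) | with_reducible apply IntF.pair))) ?_ ?_ c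
  · intro m p hm
    rw [add_zero] at hm ⊢
    exact ⟨m, hm, le_rfl⟩
  · intro c ih m p hm
    have h3 : j + c.succ = (j + c).succ := by
      rw [INat.succ_eq, INat.succ_eq, add_assoc]
    rw [h3] at hm ⊢
    have h4 := hh_two (j + c)
    obtain ⟨x, y⟩ := p
    rcases (mem_VV_succ h _ _).1 hm with ⟨k, h5, h6⟩ | ⟨k, z, h5, h6, h7⟩
    · change m = k + k at h5
      obtain ⟨m', h8, h9⟩ := ih k (x, y) h6
      refine ⟨m', h8, ?_⟩
      have h10 : nr k * hh (j + c) = nr m * hh (j + c).succ := by
        rw [h5, nr_add', ← h4]
        ring
      have h11 := hh_pos (j + c).succ
      linarith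
    · change m = (k + k).succ at h5
      change U ((j + c).succ, (x, z)) at h6
      have h12 := VV_add h (j + c) k x y z
        (h.comp _ _ _ _ h6 (h.refl _ _)) h7
      obtain ⟨m', h8, h9⟩ := ih k.succ (x, y) h12
      refine ⟨m', h8, ?_⟩
      have h10 : nr k.succ * hh (j + c) = nr m * hh (j + c).succ + hh (j + c).succ := by
        rw [h5, nr_succ, nr_succ, nr_add', ← h4]
        ring
      linarith

/-- Change of level. -/
theorem VV_level (j n m : INat N) (p : α × α) (hm : (m, p) ∈ VV U n) :
    ∃ m', (m', p) ∈ VV U j ∧ nr m' * hh j ≤ nr m * hh n + hh j := by
  rcases INat.total n j with ⟨c, hc⟩ | ⟨c, hc⟩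
  · obtain ⟨m', h1, h2⟩ := VV_up h n c m p hm
    rw [← hc] at h1 h2
    have := hh_pos j
    exact ⟨m', h1, by linarith⟩
  · rw [hc] at hm ⊢
    obtain ⟨m', h1, h2⟩ := VV_down h j c m p hm
    have := hh_pos (j + c)
    exact ⟨m', h1, by linarith⟩

/-- The distance is less than `t`, first form. -/
def FF (U : INat N × (α × α) → Prop) (x y : α) (t : IR N) : Prop :=
  ∃ n m, (m, (x, y)) ∈ VV U n ∧ nr m * hh n < t

/-- Upper bounds of the distance. -/
def ZS (U : INat N × (α × α) → Prop) (x z : α) (s : IR N) : Prop :=
  0 ≤ s ∧ ∀ y t, (FF U z y t → FF U x y (t + s)) ∧ (FF U x y t → FF U z y (t + s))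

theorem int_FF : Int N (fun q : (α × α) × IR N => FF U q.1.1 q.1.2 q.2) := by
  have hV := int_VV h
  have hI := int_hh (N := N)
  have hJ := int_nr (N := N)
  unfold FF
  (repeat' (first | with_reducible exact IntF.id | with_reducible exact IntF.fst' | with_reducible exact IntF.snd' | with_reducible exact IntF.const _ | with_reducible exact Int.const _ | assumption | with_reducible apply Int.and | with_reducible apply Int.or | with_reducible apply Int.not | with_reducible apply Int.imp | with_reducible apply Int.iff | with_reducible apply Int.ne | with_reducible apply Int.eq | with_reducible apply Int.mem | with_reducible apply Int.subset | with_reducible apply Int.ltN | with_reducible apply Int.leN | with_reducible_and_instances apply Int.le | with_reducible_and_instances apply Int.lt | with_reducible apply Int.all | with_reducible apply Int.ex | with_reducible apply IntF.fst | with_reducible apply IntF.snd | with_reducible apply IntF.app | with_reducible apply IntF.inl | with_reducible apply IntF.inr | with_reducible_and_instances apply IntF.mul | with_reducible_and_instances apply IntF.inv | with_reducible_and_instances apply IntF.add | with_reducible_and_instances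 apply IntF.sub | with_reducible_and_instances apply IntF.neg | with_reducible_and_instances apply IntF.smul | with_reducible apply Int.fin | with_reducible apply IntF.sep | with_reducible apply IntF.lam | with_reducible apply IntF.insert | with_reducible apply IntF.singleton | with_reducible apply IntF.union | with_reducible apply IntF.iimage | with_reducible apply IntF.ite | with_reducible apply IntF.the | with_reducible apply IntF.irec | with_reducible apply IntF.succ | with_reducible apply IntF.val | with_reducible apply IntF.mk | (with_reducible refine Int.comp ?_ ?_; assumption) | (with_reducible refine Int.comp₂ ?_ ?_ ?_; assumption) | (with_reducible refine Int.comp₃ ?_ ?_ ?_ ?_; assumption) | (with_reducible refine Int.comp₄ ?_ ?_ ?_ ?_ ?_; assumption) | (with_reducible refine IntF.comp ?_ ?_; assumption) | (with_reducible refine IntF.comp₂ ?_ ?_ ?_; assumption) | (with_reducible refine IntF.comp₃ ?_ ?_ ?_ ?_; assumption) | with_reducible apply IntF.pair))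

theorem int_ZS : Int N (fun q : (α × α) × IR N => ZS U q.1.1 q.1.2 q.2) := by
  have hV := int_VV h
  have hI := int_hh (N := N)
  have hJ := int_nr (N := N)
  unfold ZS FF
  (repeat' (first | with_reducible exact IntF.id | with_reducible exact IntF.fst' | with_reducible exact IntF.snd' | with_reducible exact IntF.const _ | with_reducible exact Int.const _ | assumption | with_reducible apply Int.and | with_reducible apply Int.or | with_reducible apply Int.not | with_reducible apply Int.imp | with_reducible apply Int.iff | with_reducible apply Int.ne | with_reducible apply Int.eq | with_reducible apply Int.mem | with_reducible apply Int.subset | with_reducible apply Int.ltN | with_reducible apply Int.leN | with_reducible_and_instances apply Int.le | with_reducible_and_instances apply Int.lt | with_reducible apply Int.all | with_reducible apply Int.ex | with_reducible apply IntF.fst | with_reducible apply IntF.snd | with_reducible apply IntF.app | with_reducible apply IntF.inl | with_reducible apply IntF.inr | with_reducible_and_instances apply IntF.mul | with_reducible_and_instances apply IntF.inv | with_reducible_and_instances apply IntF.add | with_reducible_and_instances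 apply IntF.sub | with_reducible_and_instances apply IntF.neg | with_reducible_and_instances apply IntF.smul | with_reducible apply Int.fin | with_reducible apply IntF.sep | with_reducible apply IntF.lam | with_reducible apply IntF.insert | with_reducible apply IntF.singleton | with_reducible apply IntF.union | with_reducible apply IntF.iimage | with_reducible apply IntF.ite | with_reducible apply IntF.the | with_reducible apply IntF.irec | with_reducible apply IntF.succ | with_reducible apply IntF.val | with_reducible apply IntF.mk | (with_reducible refine Int.comp ?_ ?_; assumption) | (with_reducible refine Int.comp₂ ?_ ?_ ?_; assumption) | (with_reducible refine Int.comp₃ ?_ ?_ ?_ ?_; assumption) | (with_reducible refine Int.comp₄ ?_ ?_ ?_ ?_ ?_; assumption) | (with_reducible refine IntF.comp ?_ ?_; assumption) | (with_reducible refine IntF.comp₂ ?_ ?_ ?_; assumption) | (with_reducible refine IntF.comp₃ ?_ ?_ ?_ ?_; assumption) | with_reducible apply IntF.pair))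

theorem FF_pos {x y : α} {t : IR N} (h1 : FF U x y t) : 0 < t := by
  obtain ⟨n, m, -, h2⟩ := h1
  exact lt_of_le_of_lt (mul_nonneg (nr_nonneg m) (hh_pos n).le) h2

theorem FF_self (x : α) {t : IR N} (ht : 0 < t) : FF U x x t :=
  ⟨0, 0, (mem_VV_zero h _).2 (Or.inr rfl), by rw [nr_zero, zero_mul]; exact ht⟩

theorem ZS_self (x : α) : ZS U x x 0 := ⟨le_rfl, fun y t => by
  rw [add_zero]
  exact ⟨id, id⟩⟩

theorem ZS_symm {x z : α} {s : IR N} (h1 : ZS U x z s) : ZS U z x s :=
  ⟨h1.1, fun y t => ⟨(h1.2 y t).2, (h1.2 y t).1⟩⟩

theorem ZS_add {x z w : α} {s t : IR N} (h1 : ZS U x z s) (h2 : ZS U z w t) :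
    ZS U x w (s + t) :=
  ⟨add_nonneg h1.1 h2.1, fun y r => ⟨fun h3 => by
    rw [add_comm s t, ← add_assoc]
    exact (h1.2 y _).1 ((h2.2 y _).1 h3), fun h3 => by
    rw [← add_assoc]
    exact (h2.2 y _).2 ((h1.2 y _).2 h3)⟩⟩

theorem ZS_one (x z : α) : ZS U x z 1 := by
  refine ⟨zero_le_one, fun y t => ⟨fun h1 => ⟨0, INat.succ 0, ?_, ?_⟩, fun h1 =>
    ⟨0, INat.succ 0, ?_, ?_⟩⟩⟩
  · exact (mem_VV_zero h _).2 (Or.inl (INat.succ_ne_zero _))
  · have := FF_pos h h1
    rw [nr_one, hh_zero]
    linarith
  · exact (mem_VV_zero h _).2 (Or.inl (INat.succ_ne_zero _))
  · have := FF_pos h h1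
    rw [nr_one, hh_zero]
    linarith

theorem FF_step {j : INat N} {x z y : α} {t : IR N} (hU : U (j, (x, z))) (h1 : FF U z y t) :
    FF U x y (t + (hh j + hh j)) := by
  obtain ⟨n, m, h2, h3⟩ := h1
  obtain ⟨m', h4, h5⟩ := VV_level h j n m _ h2
  refine ⟨j, m'.succ, VV_add h j m' x y z hU h4, ?_⟩
  rw [nr_succ, add_mul, one_mul]
  linarith

theorem ZS_of_U {j : INat N} {x z : α} (hU : U (j, (x, z))) : ZS U x z (hh j + hh j) :=
  ⟨add_nonneg (hh_pos j).le (hh_pos j).le, fun y t => ⟨fun h1 => FF_step h hU h1,
    fun h1 => FF_step h (h.symm _ _ _ hU) h1⟩⟩

theorem U_of_FF {j : INat N} {x z : α} (h1 : FF U x z (hh j.succ)) : U (j.succ, (x, z)) := by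
  obtain ⟨n, m, h2, h3⟩ := h1
  obtain ⟨m', h4, h5⟩ := VV_level h j.succ n m _ h2
  have h6 := hh_pos j.succ
  have h7 : nr m' < 2 := by
    by_contra h8
    have h9 : 2 * hh j.succ ≤ nr m' * hh j.succ := mul_le_mul_of_nonneg_right (not_lt.1 h8) h6.le
    linarith
  rcases INat.eq_zero_or_succ m' with h8 | ⟨l, h8⟩
  · subst h8
    rw [VV_null h _ _ _ h4]
    exact h.refl _ _
  · rcases INat.eq_zero_or_succ l with h9 | ⟨l', h9⟩
    · subst h9
      subst h8
      exact VV_one h h4
    · exfalso
      rw [h8, h9, nr_succ, nr_succ] at h7
      have := nr_nonneg l'
      linarith

theorem U_of_ZS {j : INat N} {x z : α} {s : IR N} (h1 : ZS U x z s) (hs : s < hh j.succ) :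
    U (j.succ, (x, z)) := by
  have h2 := (h1.2 z (hh j.succ - s)).1 (FF_self h z (by linarith))
  rw [sub_add_cancel] at h2
  exact U_of_FF h h2

/-- The metrization lemma. -/
theorem exists_rho : ∃ ρ : α × α → IR N, IntF N ρ ∧ (∀ x, ρ (x, x) = 0) ∧ (∀ x y, 0 ≤ ρ (x, y)) ∧
    (∀ x y, ρ (x, y) = ρ (y, x)) ∧ (∀ x y z, ρ (x, z) ≤ ρ (x, y) + ρ (y, z)) ∧
    (∀ (j : INat N) x y, U (j, (x, y)) → ρ (x, y) ≤ hh j + hh j) ∧
    ∀ (j : INat N) x y, ρ (x, y) < hh j.succ → U (j.succ, (x, y)) := by
  have hZ := int_ZS h
  have hex : ∀ p : α × α, ∃ c : IR N, (∀ s, ZS U p.1 p.2 s → c ≤ s) ∧
      ∀ b, (∀ s, ZS U p.1 p.2 s → b ≤ s) → b ≤ c := by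
    intro p
    have hi : Int N (fun b : IR N => ∀ s, ZS U p.1 p.2 s → b ≤ s) := by
      have h1 : Int N (fun q : IR N × IR N => ZS U p.1 p.2 q.2) :=
        Int.comp (p := fun q : (α × α) × IR N => ZS U q.1.1 q.1.2 q.2)
          (f := fun q : IR N × IR N => (p, q.2)) hZ (by (repeat' (first | with_reducible exact IntF.id | with_reducible exact IntF.fst' | with_reducible exact IntF.snd' | with_reducible exact IntF.const _ | with_reducible exact Int.const _ | assumption | with_reducible apply Int.and | with_reducible apply Int.or | with_reducible apply Int.not | with_reducible apply Int.imp | with_reducible apply Int.iff | with_reducible apply Int.ne | with_reducible apply Int.eq | with_reducible apply Int.mem | with_reducible apply Int.subset | with_reducible apply Int.ltN | with_reducible apply Int.leN | with_reducible_and_instances apply Int.le | with_reducible_and_instances apply Int.lt | with_reducible apply Int.all | with_reducible apply Int.ex | with_reducible apply IntF.fst | with_reducible apply IntF.snd | with_reducible apply IntF.app | with_reducible apply IntF.inl | with_reducible apply IntF.inr | with_reducible_and_instances apply IntF.mul | with_reducible_and_instances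 apply IntF.inv | with_reducible_and_instances apply IntF.add | with_reducible_and_instances apply IntF.sub | with_reducible_and_instances apply IntF.neg | with_reducible_and_instances apply IntF.smul | with_reducible apply Int.fin | with_reducible apply IntF.sep | with_reducible apply IntF.lam | with_reducible apply IntF.insert | with_reducible apply IntF.singleton | with_reducible apply IntF.union | with_reducible apply IntF.iimage | with_reducible apply IntF.ite | with_reducible apply IntF.the | with_reducible apply IntF.irec | with_reducible apply IntF.succ | with_reducible apply IntF.val | with_reducible apply IntF.mk | (with_reducible refine Int.comp ?_ ?_; assumption) | (with_reducible refine Int.comp₂ ?_ ?_ ?_; assumption) | (with_reducible refine Int.comp₃ ?_ ?_ ?_ ?_; assumption) | (with_reducible refine Int.comp₄ ?_ ?_ ?_ ?_ ?_; assumption) | (with_reducible refine IntF.comp ?_ ?_; assumption) | (with_reducible refine IntF.comp₂ ?_ ?_ ?_; assumption) | (with_reducible refine IntF.comp₃ ?_ ?_ ?_ ?_; assumption) | with_reducible apply IntF.pair)))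
      (repeat' (first | with_reducible exact IntF.id | with_reducible exact IntF.fst' | with_reducible exact IntF.snd' | with_reducible exact IntF.const _ | with_reducible exact Int.const _ | assumption | with_reducible apply Int.and | with_reducible apply Int.or | with_reducible apply Int.not | with_reducible apply Int.imp | with_reducible apply Int.iff | with_reducible apply Int.ne | with_reducible apply Int.eq | with_reducible apply Int.mem | with_reducible apply Int.subset | with_reducible apply Int.ltN | with_reducible apply Int.leN | with_reducible_and_instances apply Int.le | with_reducible_and_instances apply Int.lt | with_reducible apply Int.all | with_reducible apply Int.ex | with_reducible apply IntF.fst | with_reducible apply IntF.snd | with_reducible apply IntF.app | with_reducible apply IntF.inl | with_reducible apply IntF.inr | with_reducible_and_instances apply IntF.mul | with_reducible_and_instances apply IntF.inv | with_reducible_and_instances apply IntF.add | with_reducible_and_instances apply IntF.sub | with_reducible_and_instances apply IntF.neg | with_reducible_and_instances apply IntF.smul | with_reducible apply Int.fin | with_reducible apply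 IntF.sep | with_reducible apply IntF.lam | with_reducible apply IntF.insert | with_reducible apply IntF.singleton | with_reducible apply IntF.union | with_reducible apply IntF.iimage | with_reducible apply IntF.ite | with_reducible apply IntF.the | with_reducible apply IntF.irec | with_reducible apply IntF.succ | with_reducible apply IntF.val | with_reducible apply IntF.mk | (with_reducible refine Int.comp ?_ ?_; assumption) | (with_reducible refine Int.comp₂ ?_ ?_ ?_; assumption) | (with_reducible refine Int.comp₃ ?_ ?_ ?_ ?_; assumption) | (with_reducible refine Int.comp₄ ?_ ?_ ?_ ?_ ?_; assumption) | (with_reducible refine IntF.comp ?_ ?_; assumption) | (with_reducible refine IntF.comp₂ ?_ ?_ ?_; assumption) | (with_reducible refine IntF.comp₃ ?_ ?_ ?_ ?_; assumption) | with_reducible apply IntF.pair))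
    obtain ⟨c, h1, h2⟩ := IR.complete (⟨_, hi⟩ : IPow N (IR N)) ⟨0, fun s hs => hs.1⟩
      ⟨1, fun b hb => hb 1 (ZS_one h _ _)⟩
    exact ⟨c, fun s hs => h2 s fun b hb => hb s hs, fun b hb => h1 b hb⟩
  choose ρ hρ1 hρ2 using hex
  have hlt : ∀ x y r, ρ (x, y) < r → ∃ s, ZS U x y s ∧ s < r := by
    intro x y r hr
    by_contra h1
    refine absurd (hρ2 (x, y) r fun s hs => ?_) (not_le.2 hr)
    by_contra h2
    exact h1 ⟨s, hs, not_le.1 h2⟩
  refine ⟨ρ, ?_, ?_, ?_, ?_, ?_, ?_, ?_⟩
  · refine IntF.of_rel (r := fun p c => (∀ s, ZS U p.1 p.2 s → c ≤ s) ∧
      ∀ b, (∀ s, ZS U p.1 p.2 s → b ≤ s) → b ≤ c) ?_ fun p c =>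
        ⟨fun h1 => le_antisymm (h1.2 _ (hρ1 p)) (hρ2 p _ h1.1), fun h1 => h1 ▸ ⟨hρ1 p, hρ2 p⟩⟩
    have h1 : Int N (fun q : ((α × α) × IR N) × IR N => ZS U q.1.1.1 q.1.1.2 q.2) :=
      Int.comp (p := fun q : (α × α) × IR N => ZS U q.1.1 q.1.2 q.2)
        (f := fun q : ((α × α) × IR N) × IR N => (q.1.1, q.2)) hZ (by (repeat' (first | with_reducible exact IntF.id | with_reducible exact IntF.fst' | with_reducible exact IntF.snd' | with_reducible exact IntF.const _ | with_reducible exact Int.const _ | assumption | with_reducible apply Int.and | with_reducible apply Int.or | with_reducible apply Int.not | with_reducible apply Int.imp | with_reducible apply Int.iff | with_reducible apply Int.ne | with_reducible apply Int.eq | with_reducible apply Int.mem | with_reducible apply Int.subset | with_reducible apply Int.ltN | with_reducible apply Int.leN | with_reducible_and_instances apply Int.le | with_reducible_and_instances apply Int.lt | with_reducible apply Int.all | with_reducible apply Int.ex | with_reducible apply IntF.fst | with_reducible apply IntF.snd | with_reducible apply IntF.app | with_reducible apply IntF.inl | with_reducible apply IntF.inr | with_reducible_and_instances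 apply IntF.mul | with_reducible_and_instances apply IntF.inv | with_reducible_and_instances apply IntF.add | with_reducible_and_instances apply IntF.sub | with_reducible_and_instances apply IntF.neg | with_reducible_and_instances apply IntF.smul | with_reducible apply Int.fin | with_reducible apply IntF.sep | with_reducible apply IntF.lam | with_reducible apply IntF.insert | with_reducible apply IntF.singleton | with_reducible apply IntF.union | with_reducible apply IntF.iimage | with_reducible apply IntF.ite | with_reducible apply IntF.the | with_reducible apply IntF.irec | with_reducible apply IntF.succ | with_reducible apply IntF.val | with_reducible apply IntF.mk | (with_reducible refine Int.comp ?_ ?_; assumption) | (with_reducible refine Int.comp₂ ?_ ?_ ?_; assumption) | (with_reducible refine Int.comp₃ ?_ ?_ ?_ ?_; assumption) | (with_reducible refine Int.comp₄ ?_ ?_ ?_ ?_ ?_; assumption) | (with_reducible refine IntF.comp ?_ ?_; assumption) | (with_reducible refine IntF.comp₂ ?_ ?_ ?_; assumption) | (with_reducible refine IntF.comp₃ ?_ ?_ ?_ ?_; assumption) | with_reducible apply IntF.pair)))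
    have h2 : Int N (fun q : (((α × α) × IR N) × IR N) × IR N => ZS U q.1.1.1.1 q.1.1.1.2 q.2) :=
      Int.comp (p := fun q : (α × α) × IR N => ZS U q.1.1 q.1.2 q.2)
        (f := fun q : (((α × α) × IR N) × IR N) × IR N => (q.1.1.1, q.2)) hZ (by (repeat' (first | with_reducible exact IntF.id | with_reducible exact IntF.fst' | with_reducible exact IntF.snd' | with_reducible exact IntF.const _ | with_reducible exact Int.const _ | assumption | with_reducible apply Int.and | with_reducible apply Int.or | with_reducible apply Int.not | with_reducible apply Int.imp | with_reducible apply Int.iff | with_reducible apply Int.ne | with_reducible apply Int.eq | with_reducible apply Int.mem | with_reducible apply Int.subset | with_reducible apply Int.ltN | with_reducible apply Int.leN | with_reducible_and_instances apply Int.le | with_reducible_and_instances apply Int.lt | with_reducible apply Int.all | with_reducible apply Int.ex | with_reducible apply IntF.fst | with_reducible apply IntF.snd | with_reducible apply IntF.app | with_reducible apply IntF.inl | with_reducible apply IntF.inr | with_reducible_and_instances apply IntF.mul | with_reducible_and_instances apply IntF.inv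 | with_reducible_and_instances apply IntF.add | with_reducible_and_instances apply IntF.sub | with_reducible_and_instances apply IntF.neg | with_reducible_and_instances apply IntF.smul | with_reducible apply Int.fin | with_reducible apply IntF.sep | with_reducible apply IntF.lam | with_reducible apply IntF.insert | with_reducible apply IntF.singleton | with_reducible apply IntF.union | with_reducible apply IntF.iimage | with_reducible apply IntF.ite | with_reducible apply IntF.the | with_reducible apply IntF.irec | with_reducible apply IntF.succ | with_reducible apply IntF.val | with_reducible apply IntF.mk | (with_reducible refine Int.comp ?_ ?_; assumption) | (with_reducible refine Int.comp₂ ?_ ?_ ?_; assumption) | (with_reducible refine Int.comp₃ ?_ ?_ ?_ ?_; assumption) | (with_reducible refine Int.comp₄ ?_ ?_ ?_ ?_ ?_; assumption) | (with_reducible refine IntF.comp ?_ ?_; assumption) | (with_reducible refine IntF.comp₂ ?_ ?_ ?_; assumption) | (with_reducible refine IntF.comp₃ ?_ ?_ ?_ ?_; assumption) | with_reducible apply IntF.pair)))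
    (repeat' (first | with_reducible exact IntF.id | with_reducible exact IntF.fst' | with_reducible exact IntF.snd' | with_reducible exact IntF.const _ | with_reducible exact Int.const _ | assumption | with_reducible apply Int.and | with_reducible apply Int.or | with_reducible apply Int.not | with_reducible apply Int.imp | with_reducible apply Int.iff | with_reducible apply Int.ne | with_reducible apply Int.eq | with_reducible apply Int.mem | with_reducible apply Int.subset | with_reducible apply Int.ltN | with_reducible apply Int.leN | with_reducible_and_instances apply Int.le | with_reducible_and_instances apply Int.lt | with_reducible apply Int.all | with_reducible apply Int.ex | with_reducible apply IntF.fst | with_reducible apply IntF.snd | with_reducible apply IntF.app | with_reducible apply IntF.inl | with_reducible apply IntF.inr | with_reducible_and_instances apply IntF.mul | with_reducible_and_instances apply IntF.inv | with_reducible_and_instances apply IntF.add | with_reducible_and_instances apply IntF.sub | with_reducible_and_instances apply IntF.neg | with_reducible_and_instances apply IntF.smul | with_reducible apply Int.fin | with_reducible apply IntF.sep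 | with_reducible apply IntF.lam | with_reducible apply IntF.insert | with_reducible apply IntF.singleton | with_reducible apply IntF.union | with_reducible apply IntF.iimage | with_reducible apply IntF.ite | with_reducible apply IntF.the | with_reducible apply IntF.irec | with_reducible apply IntF.succ | with_reducible apply IntF.val | with_reducible apply IntF.mk | (with_reducible refine Int.comp ?_ ?_; assumption) | (with_reducible refine Int.comp₂ ?_ ?_ ?_; assumption) | (with_reducible refine Int.comp₃ ?_ ?_ ?_ ?_; assumption) | (with_reducible refine Int.comp₄ ?_ ?_ ?_ ?_ ?_; assumption) | (with_reducible refine IntF.comp ?_ ?_; assumption) | (with_reducible refine IntF.comp₂ ?_ ?_ ?_; assumption) | (with_reducible refine IntF.comp₃ ?_ ?_ ?_ ?_; assumption) | with_reducible apply IntF.pair))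
  · intro x
    exact le_antisymm (hρ1 (x, x) 0 (ZS_self h x)) (hρ2 (x, x) 0 fun s hs => hs.1)
  · intro x y
    exact hρ2 (x, y) 0 fun s hs => hs.1
  · intro x y
    exact le_antisymm (hρ2 (y, x) _ fun s hs => hρ1 (x, y) s (ZS_symm h hs))
      (hρ2 (x, y) _ fun s hs => hρ1 (y, x) s (ZS_symm h hs))
  · intro x y z
    have h1 : ∀ s, ZS U x y s → ρ (x, z) - s ≤ ρ (y, z) := by
      intro s hs
      refine hρ2 (y, z) _ fun t ht => ?_
      have := hρ1 (x, z) _ (ZS_add h hs ht)
      linarith
    have h2 : ρ (x, z) - ρ (y, z) ≤ ρ (x, y) := hρ2 (x, y) _ fun s hs => by
      have := h1 s hs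
      linarith
    linarith
  · intro j x y hU
    exact hρ1 (x, y) _ (ZS_of_U h hU)
  · intro j x y h1
    obtain ⟨s, h2, h3⟩ := hlt x y _ h1
    exact U_of_ZS h h2 h3

end

end Pool.Agent.Helper672.ZFA.V257
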