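import Pool.Agent.V11257.Cr6

/-!
# The space of the irrational numbers
-/

set_option maxHeartbeats 1000000
set_option linter.all false
set_option synthInstance.maxSize 2000

namespace Pool.Agent.Helper672.ZFA.V257

open FirstOrder FirstOrder.Language
open H635 (IR)
open Pool.Agent.Helper672.Plain (LSet)
open Pool.Agent.H310
open Pool.Agent.H635Amen
open Pool.Agent.H310Cards
open Pool.Agent.H310Top
open Pool.Agent.V11246
open Pool.Agent.V11257C (CR HasCR IsRealSub IsNatReal IsRationalReal IsKSpace)
open Pool.Agent.Helper672.ZFA.V246

universe u

section

attribute [local instance] Helper672.Plain.toL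

variable {N : Type u} [LSet.Structure N] [hZ : Helper672.Plain.Zermelo N]

local instance instModelCr7 : IsModel N := Helper672.Plain.isModel_toL

/-- The rational numbers. -/
def Rt (t : IR N) : Prop := ∃ b c : INat N, nr c ≠ 0 ∧ (t * nr c = nr b ∨ t * nr c = - nr b)

theorem int_Rt : Int N (Rt (N := N)) := by
  have hI := int_nr (N := N)
  unfold Rt
  (repeat' (first | with_reducible exact IntF.id | with_reducible exact IntF.fst' | with_reducible exact IntF.snd' | with_reducible exact IntF.const _ | with_reducible exact Int.const _ | assumption | with_reducible apply Int.and | with_reducible apply Int.or | with_reducible apply Int.not | with_reducible apply Int.imp | with_reducible apply Int.iff | with_reducible apply Int.ne | with_reducible apply Int.eq | with_reducible apply Int.mem | with_reducible apply Int.subset | with_reducible apply Int.ltN | with_reducible apply Int.leN | with_reducible_and_instances apply Int.le | with_reducible_and_instances apply Int.lt | with_reducible apply Int.all | with_reducible apply Int.ex | with_reducible apply IntF.fst | with_reducible apply IntF.snd | with_reducible apply IntF.app | with_reducible apply IntF.inl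 | with_reducible apply IntF.inr | with_reducible_and_instances apply IntF.mul | with_reducible_and_instances apply IntF.inv | with_reducible_and_instances apply IntF.add | with_reducible_and_instances apply IntF.sub | with_reducible_and_instances apply IntF.neg | with_reducible_and_instances apply IntF.smul | with_reducible apply Int.fin | with_reducible apply IntF.sep | with_reducible apply IntF.lam | with_reducible apply IntF.insert | with_reducible apply IntF.singleton | with_reducible apply IntF.union | with_reducible apply IntF.iimage | with_reducible apply IntF.ite | with_reducible apply IntF.the | with_reducible apply IntF.irec | with_reducible apply IntF.succ | with_reducible apply IntF.val | with_reducible apply IntF.mk | (with_reducible refine Int.comp ?_ ?_; assumption) | (with_reducible refine Int.comp₂ ?_ ?_ ?_; assumption) | (with_reducible refine Int.comp₃ ?_ ?_ ?_ ?_; assumption) | (with_reducible refine Int.comp₄ ?_ ?_ ?_ ?_ ?_; assumption) | (with_reducible refine IntF.comp ?_ ?_; assumption) | (with_reducible refine IntF.comp₂ ?_ ?_ ?_; assumption) | (with_reducible refine IntF.comp₃ ?_ ?_ ?_ ?_; assumption) | with_reducible apply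 IntF.pair))

theorem Rt_of_Qr {t : IR N} (h : Qr t) : Rt t := by
  obtain ⟨a, b, h1, h2⟩ := h
  exact ⟨a, b, h1, Or.inl h2⟩

theorem Qr_of_Rt {t : IR N} (ht : 0 < t) (h : Rt t) : Qr t := by
  obtain ⟨b, c, h1, h2 | h2⟩ := h
  · exact ⟨b, c, h1, h2⟩
  · exfalso
    have h3 := nr_nonneg b
    have h4 : 0 < nr c := lt_of_le_of_ne (nr_nonneg c) (Ne.symm h1)
    have h5 := mul_pos ht h4
    linarith

section rl

variable {r : N} [Field (Plain.El r)] [LinearOrder (Plain.El r)] [IsStrictOrderedRing (Plain.El r)]
  {e : Plain.El r ≃ IR N} (h : RL r e)

include h

theorem isNatReal_iff (a : Plain.El r) : IsNatReal a ↔ ∃ n, e a = nr n := by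
  have hI := int_nr (N := N)
  constructor
  · intro ha
    have hi : Int N (fun c : IR N => ∃ n, c = nr n) := by (repeat' (first | with_reducible exact IntF.id | with_reducible exact IntF.fst' | with_reducible exact IntF.snd' | with_reducible exact IntF.const _ | with_reducible exact Int.const _ | assumption | with_reducible apply Int.and | with_reducible apply Int.or | with_reducible apply Int.not | with_reducible apply Int.imp | with_reducible apply Int.iff | with_reducible apply Int.ne | with_reducible apply Int.eq | with_reducible apply Int.mem | with_reducible apply Int.subset | with_reducible apply Int.ltN | with_reducible apply Int.leN | with_reducible_and_instances apply Int.le | with_reducible_and_instances apply Int.lt | with_reducible apply Int.all | with_reducible apply Int.ex | with_reducible apply IntF.fst | with_reducible apply IntF.snd | with_reducible apply IntF.app | with_reducible apply IntF.inl | with_reducible apply IntF.inr | with_reducible_and_instances apply IntF.mul | with_reducible_and_instances apply IntF.inv | with_reducible_and_instances apply IntF.add | with_reducible_and_instances apply IntF.sub | with_reducible_and_instances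 apply IntF.neg | with_reducible_and_instances apply IntF.smul | with_reducible apply Int.fin | with_reducible apply IntF.sep | with_reducible apply IntF.lam | with_reducible apply IntF.insert | with_reducible apply IntF.singleton | with_reducible apply IntF.union | with_reducible apply IntF.iimage | with_reducible apply IntF.ite | with_reducible apply IntF.the | with_reducible apply IntF.irec | with_reducible apply IntF.succ | with_reducible apply IntF.val | with_reducible apply IntF.mk | (with_reducible refine Int.comp ?_ ?_; assumption) | (with_reducible refine Int.comp₂ ?_ ?_ ?_; assumption) | (with_reducible refine Int.comp₃ ?_ ?_ ?_ ?_; assumption) | (with_reducible refine Int.comp₄ ?_ ?_ ?_ ?_ ?_; assumption) | (with_reducible refine IntF.comp ?_ ?_; assumption) | (with_reducible refine IntF.comp₂ ?_ ?_ ?_; assumption) | (with_reducible refine IntF.comp₃ ?_ ?_ ?_ ?_; assumption) | with_reducible apply IntF.pair))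
    have hs : ∀ x, Plain.Mem x (code (M := N) (sep N fun c : IR N => ∃ n, c = nr n)) →
        Plain.Mem x r := by
      intro x hx
      obtain ⟨c, -, rfl⟩ := mem_codeB.1 hx
      rw [← h.val_symm c]
      exact (e.symm c).2
    have key : ∀ b : Plain.El r, Plain.Mem b.1 (code (M := N) (sep N fun c : IR N => ∃ n, c = nr n)) ↔
        ∃ n, e b = nr n := by
      intro b
      rw [← h.code_e]
      exact mem_codeB'.trans (mem_sep hi)
    refine (key a).1 (ha ⟨_, hs⟩ ((key 0).2 ⟨0, ?_⟩) fun b hb => (key _).2 ?_)
    · rw [h.zero, nr_zero]
    · obtain ⟨n, hn⟩ := (key b).1 hb
      exact ⟨n.succ, by rw [h.add, h.one, hn, nr_succ]⟩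
  · rintro ⟨n, hn⟩ s h0 h1
    have hs : Int N (fun c : IR N => Mem (code c) s.1) := ⟨s.1, fun _ => Iff.rfl⟩
    have hII : Int N (fun n : INat N => Mem (code (nr n)) s.1) :=
      Int.comp (p := fun c : IR N => Mem (code c) s.1) (f := nr) hs hI
    have key : ∀ n : INat N, Mem (code (nr n)) s.1 := by
      refine INat.ind hII ?_ ?_
      · rw [nr_zero, ← h.zero, h.code_e]
        exact h0
      · intro n ih
        have h2 := h1 (e.symm (nr n)) (by rw [h.val_symm]; exact ih)
        have h3 : e (e.symm (nr n) + 1) = nr n.succ := by
          rw [h.add, e.apply_symm_apply, h.one, nr_succ]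
        rw [← h.code_e, h3] at h2
        exact h2
    have := key n
    rw [← hn, h.code_e] at this
    exact this

theorem isRationalReal_iff (a : Plain.El r) : IsRationalReal a ↔ Rt (e a) := by
  constructor
  · rintro ⟨b, c, hb, hc, hc0, h1⟩
    obtain ⟨m, hm⟩ := (isNatReal_iff h b).1 hb
    obtain ⟨n, hn⟩ := (isNatReal_iff h c).1 hc
    refine ⟨m, n, ?_, ?_⟩
    · rw [← hn, ← h.zero]
      exact fun h2 => hc0 (e.injective h2)
    · rw [← hm, ← hn, ← h.mul, ← h.neg]
      exact h1.imp (congrArg e) (congrArg e)
  · rintro ⟨m, n, h1, h2⟩
    refine ⟨e.symm (nr m), e.symm (nr n), (isNatReal_iff h _).2 ⟨m, e.apply_symm_apply _⟩,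
      (isNatReal_iff h _).2 ⟨n, e.apply_symm_apply _⟩, fun h3 => h1 ?_, ?_⟩
    · rw [← h.zero, ← h3, e.apply_symm_apply]
    · refine h2.imp (fun h2 => e.injective ?_) fun h2 => e.injective ?_
      · rw [h.mul, e.apply_symm_apply, e.apply_symm_apply]
        exact h2
      · rw [h.mul, h.neg, e.apply_symm_apply, e.apply_symm_apply]
        exact h2

end rl

/-- Finite sets are closed. -/
theorem fin_closed {F : IPow N (IR N)} (hF : IFin F) (s : IR N) :
    ∃ b c, b < s ∧ s < c ∧ ∀ t, t ∈ F → t ≠ s → ¬ (b < t ∧ t < c) := by
  refine IFin.ind (p := fun F : IPow N (IR N) =>
    ∃ b c, b < s ∧ s < c ∧ ∀ t, t ∈ F → t ≠ s → ¬ (b < t ∧ t < c)) (by (repeat' (first | with_reducible exact IntF.id | with_reducible exact IntF.fst' | with_reducible exact IntF.snd' | with_reducible exact IntF.const _ | with_reducible exact Int.const _ | assumption | with_reducible apply Int.and | with_reducible apply Int.or | with_reducible apply Int.not | with_reducible apply Int.imp | with_reducible apply Int.iff | with_reducible apply Int.ne | with_reducible apply Int.eq | with_reducible apply Int.mem | with_reducible apply Int.subset | with_reducible apply Int.ltN | with_reducible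 apply Int.leN | with_reducible_and_instances apply Int.le | with_reducible_and_instances apply Int.lt | with_reducible apply Int.all | with_reducible apply Int.ex | with_reducible apply IntF.fst | with_reducible apply IntF.snd | with_reducible apply IntF.app | with_reducible apply IntF.inl | with_reducible apply IntF.inr | with_reducible_and_instances apply IntF.mul | with_reducible_and_instances apply IntF.inv | with_reducible_and_instances apply IntF.add | with_reducible_and_instances apply IntF.sub | with_reducible_and_instances apply IntF.neg | with_reducible_and_instances apply IntF.smul | with_reducible apply Int.fin | with_reducible apply IntF.sep | with_reducible apply IntF.lam | with_reducible apply IntF.insert | with_reducible apply IntF.singleton | with_reducible apply IntF.union | with_reducible apply IntF.iimage | with_reducible apply IntF.ite | with_reducible apply IntF.the | with_reducible apply IntF.irec | with_reducible apply IntF.succ | with_reducible apply IntF.val | with_reducible apply IntF.mk | (with_reducible refine Int.comp ?_ ?_; assumption) | (with_reducible refine Int.comp₂ ?_ ?_ ?_; assumption) | (with_reducible refine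 Int.comp₃ ?_ ?_ ?_ ?_; assumption) | (with_reducible refine Int.comp₄ ?_ ?_ ?_ ?_ ?_; assumption) | (with_reducible refine IntF.comp ?_ ?_; assumption) | (with_reducible refine IntF.comp₂ ?_ ?_ ?_; assumption) | (with_reducible refine IntF.comp₃ ?_ ?_ ?_ ?_; assumption) | with_reducible apply IntF.pair))) ?_ ?_ F hF
  · exact ⟨s - 1, s + 1, by linarith, by linarith, fun t ht => absurd ht (by simp)⟩
  · rintro F t - - ⟨b, c, h1, h2, h3⟩
    by_cases hts : t = s
    · refine ⟨b, c, h1, h2, fun u hu hus => ?_⟩
      rcases mem_insert.1 hu with rfl | hu
      · exact absurd hts hus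
      · exact h3 u hu hus
    · rcases lt_or_gt_of_ne hts with hlt | hlt
      · refine ⟨max b t, c, max_lt h1 hlt, h2, fun u hu hus hbc => ?_⟩
        rcases mem_insert.1 hu with rfl | hu
        · exact absurd (lt_of_le_of_lt (le_max_right _ _) hbc.1) (lt_irrefl _)
        · exact h3 u hu hus ⟨lt_of_le_of_lt (le_max_left _ _) hbc.1, hbc.2⟩
      · refine ⟨b, min c t, h1, lt_min h2 hlt, fun u hu hus hbc => ?_⟩
        rcases mem_insert.1 hu with rfl | hu
        · exact absurd (lt_of_lt_of_le hbc.2 (min_le_right _ _)) (lt_irrefl _)
        · exact h3 u hu hus ⟨hbc.1, lt_of_lt_of_le hbc.2 (min_le_left _ _)⟩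

theorem int_notRt : Int N (fun t : IR N => ¬ Rt t) := int_Rt.not

/-- Compact sets of irrational numbers are away from the rational numbers. -/
theorem compact_away {k : N}
    (hk : IsCompactSub (ts (OR fun t : IR N => ¬ Rt t)) (xs fun t : IR N => ¬ Rt t) k)
    {K : IPow N (IR N)} (hK : code K = k) {q : IR N} (hq : Rt q) :
    ∃ ε, 0 < ε ∧ ∀ t, t ∈ K → ¬ |t - q| < ε := by
  subst hK
  have hRt := int_Rt (N := N)
  have hP := int_notRt (N := N)
  have hS := spo_OR hP
  have hh' := int_hh (N := N)
  have iU : ∀ n : INat N, Int N (fun t : IR N => ¬ Rt t ∧ (t + hh n < q ∨ q + hh n < t)) := by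
    intro n
    (repeat' (first | with_reducible exact IntF.id | with_reducible exact IntF.fst' | with_reducible exact IntF.snd' | with_reducible exact IntF.const _ | with_reducible exact Int.const _ | assumption | with_reducible apply Int.and | with_reducible apply Int.or | with_reducible apply Int.not | with_reducible apply Int.imp | with_reducible apply Int.iff | with_reducible apply Int.ne | with_reducible apply Int.eq | with_reducible apply Int.mem | with_reducible apply Int.subset | with_reducible apply Int.ltN | with_reducible apply Int.leN | with_reducible_and_instances apply Int.le | with_reducible_and_instances apply Int.lt | with_reducible apply Int.all | with_reducible apply Int.ex | with_reducible apply IntF.fst | with_reducible apply IntF.snd | with_reducible apply IntF.app | with_reducible apply IntF.inl | with_reducible apply IntF.inr | with_reducible_and_instances apply IntF.mul | with_reducible_and_instances apply IntF.inv | with_reducible_and_instances apply IntF.add | with_reducible_and_instances apply IntF.sub | with_reducible_and_instances apply IntF.neg | with_reducible_and_instances apply IntF.smul | with_reducible apply Int.fin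 | with_reducible apply IntF.sep | with_reducible apply IntF.lam | with_reducible apply IntF.insert | with_reducible apply IntF.singleton | with_reducible apply IntF.union | with_reducible apply IntF.iimage | with_reducible apply IntF.ite | with_reducible apply IntF.the | with_reducible apply IntF.irec | with_reducible apply IntF.succ | with_reducible apply IntF.val | with_reducible apply IntF.mk | (with_reducible refine Int.comp ?_ ?_; assumption) | (with_reducible refine Int.comp₂ ?_ ?_ ?_; assumption) | (with_reducible refine Int.comp₃ ?_ ?_ ?_ ?_; assumption) | (with_reducible refine Int.comp₄ ?_ ?_ ?_ ?_ ?_; assumption) | (with_reducible refine IntF.comp ?_ ?_; assumption) | (with_reducible refine IntF.comp₂ ?_ ?_ ?_; assumption) | (with_reducible refine IntF.comp₃ ?_ ?_ ?_ ?_; assumption) | with_reducible apply IntF.pair))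
  have iUF : IntF N (fun n : INat N =>
      sep N fun t : IR N => ¬ Rt t ∧ (t + hh n < q ∨ q + hh n < t)) := by
    (repeat' (first | with_reducible exact IntF.id | with_reducible exact IntF.fst' | with_reducible exact IntF.snd' | with_reducible exact IntF.const _ | with_reducible exact Int.const _ | assumption | with_reducible apply Int.and | with_reducible apply Int.or | with_reducible apply Int.not | with_reducible apply Int.imp | with_reducible apply Int.iff | with_reducible apply Int.ne | with_reducible apply Int.eq | with_reducible apply Int.mem | with_reducible apply Int.subset | with_reducible apply Int.ltN | with_reducible apply Int.leN | with_reducible_and_instances apply Int.le | with_reducible_and_instances apply Int.lt | with_reducible apply Int.all | with_reducible apply Int.ex | with_reducible apply IntF.fst | with_reducible apply IntF.snd | with_reducible apply IntF.app | with_reducible apply IntF.inl | with_reducible apply IntF.inr | with_reducible_and_instances apply IntF.mul | with_reducible_and_instances apply IntF.inv | with_reducible_and_instances apply IntF.add | with_reducible_and_instances apply IntF.sub | with_reducible_and_instances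 apply IntF.neg | with_reducible_and_instances apply IntF.smul | with_reducible apply Int.fin | with_reducible apply IntF.sep | with_reducible apply IntF.lam | with_reducible apply IntF.insert | with_reducible apply IntF.singleton | with_reducible apply IntF.union | with_reducible apply IntF.iimage | with_reducible apply IntF.ite | with_reducible apply IntF.the | with_reducible apply IntF.irec | with_reducible apply IntF.succ | with_reducible apply IntF.val | with_reducible apply IntF.mk | (with_reducible refine Int.comp ?_ ?_; assumption) | (with_reducible refine Int.comp₂ ?_ ?_ ?_; assumption) | (with_reducible refine Int.comp₃ ?_ ?_ ?_ ?_; assumption) | (with_reducible refine Int.comp₄ ?_ ?_ ?_ ?_ ?_; assumption) | (with_reducible refine IntF.comp ?_ ?_; assumption) | (with_reducible refine IntF.comp₂ ?_ ?_ ?_; assumption) | (with_reducible refine IntF.comp₃ ?_ ?_ ?_ ?_; assumption) | with_reducible apply IntF.pair))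
  have iC : Int N (fun U : IPow N (IR N) => ∃ n : INat N,
      U = sep N fun t : IR N => ¬ Rt t ∧ (t + hh n < q ∨ q + hh n < t)) := by
    (repeat' (first | with_reducible exact IntF.id | with_reducible exact IntF.fst' | with_reducible exact IntF.snd' | with_reducible exact IntF.const _ | with_reducible exact Int.const _ | assumption | with_reducible apply Int.and | with_reducible apply Int.or | with_reducible apply Int.not | with_reducible apply Int.imp | with_reducible apply Int.iff | with_reducible apply Int.ne | with_reducible apply Int.eq | with_reducible apply Int.mem | with_reducible apply Int.subset | with_reducible apply Int.ltN | with_reducible apply Int.leN | with_reducible_and_instances apply Int.le | with_reducible_and_instances apply Int.lt | with_reducible apply Int.all | with_reducible apply Int.ex | with_reducible apply IntF.fst | with_reducible apply IntF.snd | with_reducible apply IntF.app | with_reducible apply IntF.inl | with_reducible apply IntF.inr | with_reducible_and_instances apply IntF.mul | with_reducible_and_instances apply IntF.inv | with_reducible_and_instances apply IntF.add | with_reducible_and_instances apply IntF.sub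 | with_reducible_and_instances apply IntF.neg | with_reducible_and_instances apply IntF.smul | with_reducible apply Int.fin | with_reducible apply IntF.sep | with_reducible apply IntF.lam | with_reducible apply IntF.insert | with_reducible apply IntF.singleton | with_reducible apply IntF.union | with_reducible apply IntF.iimage | with_reducible apply IntF.ite | with_reducible apply IntF.the | with_reducible apply IntF.irec | with_reducible apply IntF.succ | with_reducible apply IntF.val | with_reducible apply IntF.mk | (with_reducible refine Int.comp ?_ ?_; assumption) | (with_reducible refine Int.comp₂ ?_ ?_ ?_; assumption) | (with_reducible refine Int.comp₃ ?_ ?_ ?_ ?_; assumption) | (with_reducible refine Int.comp₄ ?_ ?_ ?_ ?_ ?_; assumption) | (with_reducible refine IntF.comp ?_ ?_; assumption) | (with_reducible refine IntF.comp₂ ?_ ?_ ?_; assumption) | (with_reducible refine IntF.comp₃ ?_ ?_ ?_ ?_; assumption) | with_reducible apply IntF.pair))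
  obtain ⟨hk1, hk2⟩ := hk
  have hcov := hk2 (code (M := N) (sep N fun U : IPow N (IR N) => ∃ n : INat N,
      U = sep N fun t : IR N => ¬ Rt t ∧ (t + hh n < q ∨ q + hh n < t))) ?_ ?_
  · obtain ⟨c', h1, h2, h3⟩ := hcov
    obtain ⟨C, rfl⟩ := exists_codeB (α := IPow N (IR N)) (u := c') fun z hz => by
      obtain ⟨U, -, h6⟩ := mem_codeB.1 (h2 z hz)
      exact ⟨U, h6⟩
    have hC : IFin C := fin_of_isFinite h1
    obtain ⟨n, hn⟩ := IFin.exists_bound
      (r := fun (U : IPow N (IR N)) (n : INat N) => ∀ t, t ∈ U → t + hh n < q ∨ q + hh n < t)
      (by (repeat' (first | with_reducible exact IntF.id | with_reducible exact IntF.fst' | with_reducible exact IntF.snd' | with_reducible exact IntF.const _ | with_reducible exact Int.const _ | assumption | with_reducible apply Int.and | with_reducible apply Int.or | with_reducible apply Int.not | with_reducible apply Int.imp | with_reducible apply Int.iff | with_reducible apply Int.ne | with_reducible apply Int.eq | with_reducible apply Int.mem | with_reducible apply Int.subset | with_reducible apply Int.ltN | with_reducible apply Int.leN | with_reducible_and_instances apply Int.le | with_reducible_and_instances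 apply Int.lt | with_reducible apply Int.all | with_reducible apply Int.ex | with_reducible apply IntF.fst | with_reducible apply IntF.snd | with_reducible apply IntF.app | with_reducible apply IntF.inl | with_reducible apply IntF.inr | with_reducible_and_instances apply IntF.mul | with_reducible_and_instances apply IntF.inv | with_reducible_and_instances apply IntF.add | with_reducible_and_instances apply IntF.sub | with_reducible_and_instances apply IntF.neg | with_reducible_and_instances apply IntF.smul | with_reducible apply Int.fin | with_reducible apply IntF.sep | with_reducible apply IntF.lam | with_reducible apply IntF.insert | with_reducible apply IntF.singleton | with_reducible apply IntF.union | with_reducible apply IntF.iimage | with_reducible apply IntF.ite | with_reducible apply IntF.the | with_reducible apply IntF.irec | with_reducible apply IntF.succ | with_reducible apply IntF.val | with_reducible apply IntF.mk | (with_reducible refine Int.comp ?_ ?_; assumption) | (with_reducible refine Int.comp₂ ?_ ?_ ?_; assumption) | (with_reducible refine Int.comp₃ ?_ ?_ ?_ ?_; assumption) | (with_reducible refine Int.comp₄ ?_ ?_ ?_ ?_ ?_; assumption)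 | (with_reducible refine IntF.comp ?_ ?_; assumption) | (with_reducible refine IntF.comp₂ ?_ ?_ ?_; assumption) | (with_reducible refine IntF.comp₃ ?_ ?_ ?_ ?_; assumption) | with_reducible apply IntF.pair))) (fun b c => ⟨max b c, fun U hU t ht => by
        have e1 : ∀ m n : INat N, m ≤ n → hh n ≤ hh m := by
          intro m n hmn
          have h10 := (ss_bd (∅ : IPow N (INat N)) m n hmn).2
          have h11 := (ss_bd (∅ : IPow N (INat N)) m n hmn).1
          linarith
        rcases hU with hU | hU
        · have e2 := e1 b (max b c) (le_max_left _ _)
          rcases hU t ht with h4 | h4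
          · exact Or.inl (by linarith)
          · exact Or.inr (by linarith)
        · have e2 := e1 c (max b c) (le_max_right _ _)
          rcases hU t ht with h4 | h4
          · exact Or.inl (by linarith)
          · exact Or.inr (by linarith)⟩) ⟨0⟩ hC fun U hU => by
        obtain ⟨n, rfl⟩ := (mem_sep iC).1 (mem_codeB'.1 (h2 _ (mem_codeB'.2 hU)))
        exact ⟨n, fun t ht => ((mem_sep (iU n)).1 ht).2⟩
    refine ⟨hh n, hh_pos n, fun t ht h4 => ?_⟩
    obtain ⟨u, hu, htu⟩ := h3 _ (mem_codeB'.2 ht)
    obtain ⟨U, hU, rfl⟩ := mem_codeB.1 hu
    rw [abs_lt] at h4
    rcases hn U hU t (mem_codeB'.1 htu) with h5 | h5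
    · linarith [h4.1]
    · linarith [h4.2]
  · intro u hu
    obtain ⟨U, hU, rfl⟩ := mem_codeB.1 hu
    obtain ⟨n, rfl⟩ := (mem_sep iC).1 hU
    refine (mem_ts' hS).2 ⟨fun s hs => ((mem_sep (iU n)).1 hs).1, fun s hs => ?_⟩
    rcases ((mem_sep (iU n)).1 hs).2 with h1 | h1
    · exact ⟨s - 1, q - hh n, by linarith, by linarith, fun d hd _ hc =>
        (mem_sep (iU n)).2 ⟨hd, Or.inl (by linarith)⟩⟩
    · exact ⟨q + hh n, s + 1, by linarith, by linarith, fun d hd hb _ =>
        (mem_sep (iU n)).2 ⟨hd, Or.inr (by linarith)⟩⟩
  · intro z hz
    obtain ⟨t, ht, rfl⟩ := (mem_xs hS).1 (hk1 z hz)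
    have hne : t ≠ q := fun h4 => ht (h4 ▸ hq)
    have hpos : 0 < |t - q| := abs_pos.2 (sub_ne_zero.2 hne)
    obtain ⟨n, hn⟩ := hh_small hpos
    refine ⟨_, mem_codeB'.2 ((mem_sep iC).2 ⟨n, rfl⟩), mem_codeB'.2 ((mem_sep (iU n)).2 ⟨ht, ?_⟩)⟩
    rcases abs_cases (t - q) with ⟨h4, h5⟩ | ⟨h4, h5⟩
    · exact Or.inr (by linarith)
    · exact Or.inl (by linarith)

/-- The space of the irrational numbers is not a k-space. -/
theorem not_kspace {Dp : IR N → Prop} (h : DR N Dp) :
    ¬ IsKSpace (ts (OR fun t : IR N => ¬ Rt t)) (xs (N := N) fun t : IR N => ¬ Rt t) := by
  intro hk
  have hP := int_notRt (N := N)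
  have hS := spo_OR hP
  have hD := h.int
  obtain ⟨t₀, ht₀, h1, h2⟩ := h.dense 0 1 le_rfl one_pos le_rfl
  have hirr : ∀ t, Dp t → ¬ Rt t := fun t ht hr => h.irr t ht (Qr_of_Rt (h.pos t ht).1 hr)
  have iA : Int N (fun t : IR N => Dp t ∧ t ≠ t₀) := by (repeat' (first | with_reducible exact IntF.id | with_reducible exact IntF.fst' | with_reducible exact IntF.snd' | with_reducible exact IntF.const _ | with_reducible exact Int.const _ | assumption | with_reducible apply Int.and | with_reducible apply Int.or | with_reducible apply Int.not | with_reducible apply Int.imp | with_reducible apply Int.iff | with_reducible apply Int.ne | with_reducible apply Int.eq | with_reducible apply Int.mem | with_reducible apply Int.subset | with_reducible apply Int.ltN | with_reducible apply Int.leN | with_reducible_and_instances apply Int.le | with_reducible_and_instances apply Int.lt | with_reducible apply Int.all | with_reducible apply Int.ex | with_reducible apply IntF.fst | with_reducible apply IntF.snd | with_reducible apply IntF.app | with_reducible apply IntF.inl | with_reducible apply IntF.inr | with_reducible_and_instances apply IntF.mul | with_reducible_and_instances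 apply IntF.inv | with_reducible_and_instances apply IntF.add | with_reducible_and_instances apply IntF.sub | with_reducible_and_instances apply IntF.neg | with_reducible_and_instances apply IntF.smul | with_reducible apply Int.fin | with_reducible apply IntF.sep | with_reducible apply IntF.lam | with_reducible apply IntF.insert | with_reducible apply IntF.singleton | with_reducible apply IntF.union | with_reducible apply IntF.iimage | with_reducible apply IntF.ite | with_reducible apply IntF.the | with_reducible apply IntF.irec | with_reducible apply IntF.succ | with_reducible apply IntF.val | with_reducible apply IntF.mk | (with_reducible refine Int.comp ?_ ?_; assumption) | (with_reducible refine Int.comp₂ ?_ ?_ ?_; assumption) | (with_reducible refine Int.comp₃ ?_ ?_ ?_ ?_; assumption) | (with_reducible refine Int.comp₄ ?_ ?_ ?_ ?_ ?_; assumption) | (with_reducible refine IntF.comp ?_ ?_; assumption) | (with_reducible refine IntF.comp₂ ?_ ?_ ?_; assumption) | (with_reducible refine IntF.comp₃ ?_ ?_ ?_ ?_; assumption) | with_reducible apply IntF.pair))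
  obtain ⟨-, u, hu, hu'⟩ := hk (code (M := N) (sep N fun t : IR N => Dp t ∧ t ≠ t₀)) (fun z hz => by
    obtain ⟨t, ht, rfl⟩ := mem_codeB.1 hz
    exact (mem_xs' hS).2 (hirr t ((mem_sep iA).1 ht).1)) fun k hk => by
      obtain ⟨K, rfl, hK⟩ := exists_sub hS hk.1
      obtain ⟨F, hF, h3⟩ := h.comp K fun q _ hq => compact_away hk rfl (Rt_of_Qr hq)
      have iV : Int N (fun t : IR N => ¬ Rt t ∧ ¬ (t ∈ F ∧ Dp t ∧ t ≠ t₀)) := by (repeat' (first | with_reducible exact IntF.id | with_reducible exact IntF.fst' | with_reducible exact IntF.snd' | with_reducible exact IntF.const _ | with_reducible exact Int.const _ | assumption | with_reducible apply Int.and | with_reducible apply Int.or | with_reducible apply Int.not | with_reducible apply Int.imp | with_reducible apply Int.iff | with_reducible apply Int.ne | with_reducible apply Int.eq | with_reducible apply Int.mem | with_reducible apply Int.subset | with_reducible apply Int.ltN | with_reducible apply Int.leN | with_reducible_and_instances apply Int.le | with_reducible_and_instances apply Int.lt | with_reducible apply Int.all | with_reducible apply Int.ex | with_reducible apply IntF.fst | with_reducible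 apply IntF.snd | with_reducible apply IntF.app | with_reducible apply IntF.inl | with_reducible apply IntF.inr | with_reducible_and_instances apply IntF.mul | with_reducible_and_instances apply IntF.inv | with_reducible_and_instances apply IntF.add | with_reducible_and_instances apply IntF.sub | with_reducible_and_instances apply IntF.neg | with_reducible_and_instances apply IntF.smul | with_reducible apply Int.fin | with_reducible apply IntF.sep | with_reducible apply IntF.lam | with_reducible apply IntF.insert | with_reducible apply IntF.singleton | with_reducible apply IntF.union | with_reducible apply IntF.iimage | with_reducible apply IntF.ite | with_reducible apply IntF.the | with_reducible apply IntF.irec | with_reducible apply IntF.succ | with_reducible apply IntF.val | with_reducible apply IntF.mk | (with_reducible refine Int.comp ?_ ?_; assumption) | (with_reducible refine Int.comp₂ ?_ ?_ ?_; assumption) | (with_reducible refine Int.comp₃ ?_ ?_ ?_ ?_; assumption) | (with_reducible refine Int.comp₄ ?_ ?_ ?_ ?_ ?_; assumption) | (with_reducible refine IntF.comp ?_ ?_; assumption) | (with_reducible refine IntF.comp₂ ?_ ?_ ?_; assumption) |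 (with_reducible refine IntF.comp₃ ?_ ?_ ?_ ?_; assumption) | with_reducible apply IntF.pair))
      refine ⟨code (M := N) (sep N fun t : IR N => ¬ Rt t ∧ ¬ (t ∈ F ∧ Dp t ∧ t ≠ t₀)),
        (mem_ts' hS).2 ⟨fun s hs => ((mem_sep iV).1 hs).1, fun s hs => ?_⟩, fun z hz => ?_⟩
      · obtain ⟨b, c, h4, h5, h6⟩ := fin_closed hF s
        refine ⟨b, c, h4, h5, fun d hd hb hc => (mem_sep iV).2 ⟨hd, fun h7 => ?_⟩⟩
        by_cases hds : d = s
        · subst hds
          exact ((mem_sep iV).1 hs).2 h7
        · exact h6 d h7.1 hds ⟨hb, hc⟩
      · obtain ⟨t, ht, rfl⟩ := mem_codeB.1 hz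
        refine mem_codeB'.trans (Iff.trans (mem_sep iV) (Iff.trans ?_
          (not_congr (mem_codeB'.trans (mem_sep iA))).symm))
        constructor
        · rintro ⟨h4, h5⟩ h6
          exact h5 ⟨h3 t ht h6.1, h6⟩
        · intro h4
          exact ⟨hK t ht, fun h5 => h4 h5.2⟩
  obtain ⟨U, hU, rfl⟩ := (mem_ts hS).1 hu
  have h3 : t₀ ∈ U := by
    refine mem_codeB'.1 ((hu' _).2 ⟨(mem_xs' hS).2 (hirr t₀ ht₀), fun h4 => ?_⟩)
    exact ((mem_sep iA).1 (mem_codeB'.1 h4)).2 rfl
  obtain ⟨b, c, h4, h5, h6⟩ := hU.2 t₀ h3
  obtain ⟨t, ht, h7, h8⟩ := h.dense (max b 0) t₀ (le_max_right _ _) (max_lt h4 h1) h2.le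
  have h9 : t ∈ U := h6 t (hirr t ht) (lt_of_le_of_lt (le_max_left _ _) h7) (h8.trans h5)
  exact ((hu' _).1 (mem_codeB'.2 h9)).2 (mem_codeB'.2 ((mem_sep iA).2 ⟨ht, h8.ne⟩))

end

end Pool.Agent.Helper672.ZFA.V257
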