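import Pool.Agent.V11257.Cq1
import Pool.Agent.V11257.Cr7

/-!
# Compact Hausdorff quasi-metrizable spaces, typed form
-/

set_option maxHeartbeats 1000000
set_option linter.all false
set_option synthInstance.maxSize 2000

namespace Pool.Agent.Helper672.ZFA.V257

open FirstOrder FirstOrder.Language
open H635 (IR)
open Pool.Agent.Helper672.Plain (LSet)
open Pool.Agent.H310
open Pool.Agent.H635Amen
open Pool.Agent.H310Cards
open Pool.Agent.H310Top
open Pool.Agent.V11246
open Pool.Agent.Helper672.ZFA.V246

universe u

section

attribute [local instance] Helper672.Plain.toL

variable {N : Type u} [LSet.Structure N] [hZ : Helper672.Plain.Zermelo N]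

local instance instModelCq2 : IsModel N := Helper672.Plain.isModel_toL

variable {α : Type u} [ITy N α] {B : INat N × (α × α) → Prop} {O : IPow N α → Prop}

/-- The balls of a compact Hausdorff quasi-metrizable space. -/
structure QB (B : INat N × (α × α) → Prop) (O : IPow N α → Prop) : Prop where
  int : Int N B
  refl : ∀ n x, B (n, (x, x))
  anti : ∀ m n x y, m ≤ n → B (n, (x, y)) → B (m, (x, y))
  comp : ∀ n, ∃ m, ∀ x y z, B (m, (x, y)) → B (m, (y, z)) → B (n, (x, z))
  ball : ∀ n x y, B (n, (x, y)) → ∃ m, ∀ z, B (m, (y, z)) → B (n, (x, z))
  open' : ∀ V : IPow N α, O V ↔ ∀ x, x ∈ V → ∃ n, ∀ y, B (n, (x, y)) → y ∈ V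
  haus : ∀ x y, x ≠ y → ∃ V W, O V ∧ O W ∧ x ∈ V ∧ y ∈ W ∧ ∀ z, z ∈ V → z ∉ W
  cpt : ∀ C : IPow N (IPow N α), (∀ V, V ∈ C → O V) → (∀ x, ∃ V, V ∈ C ∧ x ∈ V) →
    ∃ F : IPow N (IPow N α), IFin F ∧ (∀ V, V ∈ F → V ∈ C) ∧ ∀ x, ∃ V, V ∈ F ∧ x ∈ V

variable (h : QB B O)

include h

theorem QB.cp {Q : α × INat N → Prop} (hQ : Int N Q)
    (mono : ∀ x m n, m ≤ n → Q (x, m) → Q (x, n))
    (loc : ∀ c, ∃ k n, ∀ x, B (k, (c, x)) → Q (x, n)) : ∃ n, ∀ x, Q (x, n) := by
  have hB := h.int
  have iC : Int N (fun V : IPow N α => (∀ x, x ∈ V → ∃ n, ∀ y, B (n, (x, y)) → y ∈ V) ∧
      ∃ n, ∀ x, x ∈ V → Q (x, n)) := by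
    (repeat' (first | with_reducible exact IntF.id | with_reducible exact IntF.fst' | with_reducible exact IntF.snd' | with_reducible exact IntF.const _ | with_reducible exact Int.const _ | assumption | with_reducible apply Int.and | with_reducible apply Int.or | with_reducible apply Int.not | with_reducible apply Int.imp | with_reducible apply Int.iff | with_reducible apply Int.ne | with_reducible apply Int.eq | with_reducible apply Int.mem | with_reducible apply Int.subset | with_reducible apply Int.ltN | with_reducible apply Int.leN | with_reducible_and_instances apply Int.le | with_reducible_and_instances apply Int.lt | with_reducible apply Int.all | with_reducible apply Int.ex | with_reducible apply IntF.fst | with_reducible apply IntF.snd | with_reducible apply IntF.app | with_reducible apply IntF.inl | with_reducible apply IntF.inr | with_reducible_and_instances apply IntF.mul | with_reducible_and_instances apply IntF.inv | with_reducible_and_instances apply IntF.add | with_reducible_and_instances apply IntF.sub | with_reducible_and_instances apply IntF.neg | with_reducible_and_instances apply IntF.smul | with_reducible apply Int.fin | with_reducible apply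 IntF.sep | with_reducible apply IntF.lam | with_reducible apply IntF.insert | with_reducible apply IntF.singleton | with_reducible apply IntF.union | with_reducible apply IntF.iimage | with_reducible apply IntF.ite | with_reducible apply IntF.the | with_reducible apply IntF.irec | with_reducible apply IntF.succ | with_reducible apply IntF.val | with_reducible apply IntF.mk | (with_reducible refine Int.comp ?_ ?_; assumption) | (with_reducible refine Int.comp₂ ?_ ?_ ?_; assumption) | (with_reducible refine Int.comp₃ ?_ ?_ ?_ ?_; assumption) | (with_reducible refine Int.comp₄ ?_ ?_ ?_ ?_ ?_; assumption) | (with_reducible refine IntF.comp ?_ ?_; assumption) | (with_reducible refine IntF.comp₂ ?_ ?_ ?_; assumption) | (with_reducible refine IntF.comp₃ ?_ ?_ ?_ ?_; assumption) | with_reducible apply IntF.pair))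
  obtain ⟨F, hF, h1, h2⟩ := h.cpt (sep N fun V : IPow N α =>
    (∀ x, x ∈ V → ∃ n, ∀ y, B (n, (x, y)) → y ∈ V) ∧ ∃ n, ∀ x, x ∈ V → Q (x, n))
    (fun V hV => (h.open' V).2 ((mem_sep iC).1 hV).1) fun c => by
      obtain ⟨k, n, hk⟩ := loc c
      have iV : Int N (fun x : α => B (k, (c, x))) := by (repeat' (first | with_reducible exact IntF.id | with_reducible exact IntF.fst' | with_reducible exact IntF.snd' | with_reducible exact IntF.const _ | with_reducible exact Int.const _ | assumption | with_reducible apply Int.and | with_reducible apply Int.or | with_reducible apply Int.not | with_reducible apply Int.imp | with_reducible apply Int.iff | with_reducible apply Int.ne | with_reducible apply Int.eq | with_reducible apply Int.mem | with_reducible apply Int.subset | with_reducible apply Int.ltN | with_reducible apply Int.leN | with_reducible_and_instances apply Int.le | with_reducible_and_instances apply Int.lt | with_reducible apply Int.all | with_reducible apply Int.ex | with_reducible apply IntF.fst | with_reducible apply IntF.snd | with_reducible apply IntF.app | with_reducible apply IntF.inl | with_reducible apply IntF.inr | with_reducible_and_instances apply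 IntF.mul | with_reducible_and_instances apply IntF.inv | with_reducible_and_instances apply IntF.add | with_reducible_and_instances apply IntF.sub | with_reducible_and_instances apply IntF.neg | with_reducible_and_instances apply IntF.smul | with_reducible apply Int.fin | with_reducible apply IntF.sep | with_reducible apply IntF.lam | with_reducible apply IntF.insert | with_reducible apply IntF.singleton | with_reducible apply IntF.union | with_reducible apply IntF.iimage | with_reducible apply IntF.ite | with_reducible apply IntF.the | with_reducible apply IntF.irec | with_reducible apply IntF.succ | with_reducible apply IntF.val | with_reducible apply IntF.mk | (with_reducible refine Int.comp ?_ ?_; assumption) | (with_reducible refine Int.comp₂ ?_ ?_ ?_; assumption) | (with_reducible refine Int.comp₃ ?_ ?_ ?_ ?_; assumption) | (with_reducible refine Int.comp₄ ?_ ?_ ?_ ?_ ?_; assumption) | (with_reducible refine IntF.comp ?_ ?_; assumption) | (with_reducible refine IntF.comp₂ ?_ ?_ ?_; assumption) | (with_reducible refine IntF.comp₃ ?_ ?_ ?_ ?_; assumption) | with_reducible apply IntF.pair))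
      refine ⟨sep N fun x : α => B (k, (c, x)), (mem_sep iC).2 ⟨fun x hx => ?_, n, fun x hx =>
        hk x ((mem_sep iV).1 hx)⟩, (mem_sep iV).2 (h.refl _ _)⟩
      obtain ⟨m, hm⟩ := h.ball k c x ((mem_sep iV).1 hx)
      exact ⟨m, fun y hy => (mem_sep iV).2 (hm y hy)⟩
  obtain ⟨n, hn⟩ := IFin.exists_bound
    (r := fun (V : IPow N α) (n : INat N) => ∀ x, x ∈ V → Q (x, n)) (by (repeat' (first | with_reducible exact IntF.id | with_reducible exact IntF.fst' | with_reducible exact IntF.snd' | with_reducible exact IntF.const _ | with_reducible exact Int.const _ | assumption | with_reducible apply Int.and | with_reducible apply Int.or | with_reducible apply Int.not | with_reducible apply Int.imp | with_reducible apply Int.iff | with_reducible apply Int.ne | with_reducible apply Int.eq | with_reducible apply Int.mem | with_reducible apply Int.subset | with_reducible apply Int.ltN | with_reducible apply Int.leN | with_reducible_and_instances apply Int.le | with_reducible_and_instances apply Int.lt | with_reducible apply Int.all | with_reducible apply Int.ex | with_reducible apply IntF.fst | with_reducible apply IntF.snd | with_reducible apply IntF.app | with_reducible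 apply IntF.inl | with_reducible apply IntF.inr | with_reducible_and_instances apply IntF.mul | with_reducible_and_instances apply IntF.inv | with_reducible_and_instances apply IntF.add | with_reducible_and_instances apply IntF.sub | with_reducible_and_instances apply IntF.neg | with_reducible_and_instances apply IntF.smul | with_reducible apply Int.fin | with_reducible apply IntF.sep | with_reducible apply IntF.lam | with_reducible apply IntF.insert | with_reducible apply IntF.singleton | with_reducible apply IntF.union | with_reducible apply IntF.iimage | with_reducible apply IntF.ite | with_reducible apply IntF.the | with_reducible apply IntF.irec | with_reducible apply IntF.succ | with_reducible apply IntF.val | with_reducible apply IntF.mk | (with_reducible refine Int.comp ?_ ?_; assumption) | (with_reducible refine Int.comp₂ ?_ ?_ ?_; assumption) | (with_reducible refine Int.comp₃ ?_ ?_ ?_ ?_; assumption) | (with_reducible refine Int.comp₄ ?_ ?_ ?_ ?_ ?_; assumption) | (with_reducible refine IntF.comp ?_ ?_; assumption) | (with_reducible refine IntF.comp₂ ?_ ?_ ?_; assumption) | (with_reducible refine IntF.comp₃ ?_ ?_ ?_ ?_; assumption) | with_reducible apply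 IntF.pair)))
    (fun b c => ⟨max b c, fun V hV x hx => by
      rcases hV with hV | hV
      · exact mono x b _ (le_max_left _ _) (hV x hx)
      · exact mono x c _ (le_max_right _ _) (hV x hx)⟩) ⟨0⟩ hF fun V hV =>
        ((mem_sep iC).1 (h1 V hV)).2
  refine ⟨n, fun x => ?_⟩
  obtain ⟨V, hV, hx⟩ := h2 x
  exact hn V hV x hx

/-- The union of the squares of the balls. -/
def EE (B : INat N × (α × α) → Prop) (q : INat N × (α × α)) : Prop :=
  ∃ u, B (q.1, (u, q.2.1)) ∧ B (q.1, (u, q.2.2))

theorem int_EE : Int N (EE B) := by
  have hB := h.int
  unfold EE
  (repeat' (first | with_reducible exact IntF.id | with_reducible exact IntF.fst' | with_reducible exact IntF.snd' | with_reducible exact IntF.const _ | with_reducible exact Int.const _ | assumption | with_reducible apply Int.and | with_reducible apply Int.or | with_reducible apply Int.not | with_reducible apply Int.imp | with_reducible apply Int.iff | with_reducible apply Int.ne | with_reducible apply Int.eq | with_reducible apply Int.mem | with_reducible apply Int.subset | with_reducible apply Int.ltN | with_reducible apply Int.leN | with_reducible_and_instances apply Int.le | with_reducible_and_instances apply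 Int.lt | with_reducible apply Int.all | with_reducible apply Int.ex | with_reducible apply IntF.fst | with_reducible apply IntF.snd | with_reducible apply IntF.app | with_reducible apply IntF.inl | with_reducible apply IntF.inr | with_reducible_and_instances apply IntF.mul | with_reducible_and_instances apply IntF.inv | with_reducible_and_instances apply IntF.add | with_reducible_and_instances apply IntF.sub | with_reducible_and_instances apply IntF.neg | with_reducible_and_instances apply IntF.smul | with_reducible apply Int.fin | with_reducible apply IntF.sep | with_reducible apply IntF.lam | with_reducible apply IntF.insert | with_reducible apply IntF.singleton | with_reducible apply IntF.union | with_reducible apply IntF.iimage | with_reducible apply IntF.ite | with_reducible apply IntF.the | with_reducible apply IntF.irec | with_reducible apply IntF.succ | with_reducible apply IntF.val | with_reducible apply IntF.mk | (with_reducible refine Int.comp ?_ ?_; assumption) | (with_reducible refine Int.comp₂ ?_ ?_ ?_; assumption) | (with_reducible refine Int.comp₃ ?_ ?_ ?_ ?_; assumption) | (with_reducible refine Int.comp₄ ?_ ?_ ?_ ?_ ?_; assumption) | (with_reducible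 refine IntF.comp ?_ ?_; assumption) | (with_reducible refine IntF.comp₂ ?_ ?_ ?_; assumption) | (with_reducible refine IntF.comp₃ ?_ ?_ ?_ ?_; assumption) | with_reducible apply IntF.pair))

theorem EE_anti {m n : INat N} {x y : α} (hmn : m ≤ n) (h1 : EE B (n, (x, y))) :
    EE B (m, (x, y)) := by
  obtain ⟨u, h2, h3⟩ := h1
  exact ⟨u, h.anti _ _ _ _ hmn h2, h.anti _ _ _ _ hmn h3⟩

omit h in
theorem EE_symm {n : INat N} {x y : α} (h1 : EE B (n, (x, y))) : EE B (n, (y, x)) := by
  obtain ⟨u, h2, h3⟩ := h1
  exact ⟨u, h3, h2⟩

theorem QB.sep_aux {a c : α} (hac : c ≠ a) : ∃ k n, ∀ x, B (k, (c, x)) →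
    ¬ ∃ u, B (n, (a, u)) ∧ B (n, (x, u)) := by
  obtain ⟨V, W, hV, hW, h1, h2, h3⟩ := h.haus c a hac
  obtain ⟨n1, h4⟩ := (h.open' V).1 hV c h1
  obtain ⟨n2, h5⟩ := (h.open' W).1 hW a h2
  obtain ⟨m, h6⟩ := h.comp n1
  refine ⟨m, max m n2, fun x hx => ?_⟩
  rintro ⟨u, h7, h8⟩
  exact h3 u (h4 u (h6 c x u hx (h.anti _ _ _ _ (le_max_left _ _) h8)))
    (h5 u (h.anti _ _ _ _ (le_max_right _ _) h7))

/-- The closures of the neighbourhoods of the diagonal meet in the diagonal. -/
theorem QB.diag {a b : α} (hab : a ≠ b) : ∃ n, ∀ u v, B (n, (a, u)) → B (n, (b, v)) →
    ¬ EE B (n, (u, v)) := by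
  have hB := h.int
  obtain ⟨n, hn⟩ := h.cp (Q := fun q : α × INat N => (¬ ∃ u, B (q.2, (a, u)) ∧ B (q.2, (q.1, u))) ∨
    ¬ ∃ u, B (q.2, (b, u)) ∧ B (q.2, (q.1, u))) (by (repeat' (first | with_reducible exact IntF.id | with_reducible exact IntF.fst' | with_reducible exact IntF.snd' | with_reducible exact IntF.const _ | with_reducible exact Int.const _ | assumption | with_reducible apply Int.and | with_reducible apply Int.or | with_reducible apply Int.not | with_reducible apply Int.imp | with_reducible apply Int.iff | with_reducible apply Int.ne | with_reducible apply Int.eq | with_reducible apply Int.mem | with_reducible apply Int.subset | with_reducible apply Int.ltN | with_reducible apply Int.leN | with_reducible_and_instances apply Int.le | with_reducible_and_instances apply Int.lt | with_reducible apply Int.all | with_reducible apply Int.ex | with_reducible apply IntF.fst | with_reducible apply IntF.snd | with_reducible apply IntF.app | with_reducible apply IntF.inl | with_reducible apply IntF.inr | with_reducible_and_instances apply IntF.mul | with_reducible_and_instances apply IntF.inv | with_reducible_and_instances apply IntF.add | with_reducible_and_instances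 apply IntF.sub | with_reducible_and_instances apply IntF.neg | with_reducible_and_instances apply IntF.smul | with_reducible apply Int.fin | with_reducible apply IntF.sep | with_reducible apply IntF.lam | with_reducible apply IntF.insert | with_reducible apply IntF.singleton | with_reducible apply IntF.union | with_reducible apply IntF.iimage | with_reducible apply IntF.ite | with_reducible apply IntF.the | with_reducible apply IntF.irec | with_reducible apply IntF.succ | with_reducible apply IntF.val | with_reducible apply IntF.mk | (with_reducible refine Int.comp ?_ ?_; assumption) | (with_reducible refine Int.comp₂ ?_ ?_ ?_; assumption) | (with_reducible refine Int.comp₃ ?_ ?_ ?_ ?_; assumption) | (with_reducible refine Int.comp₄ ?_ ?_ ?_ ?_ ?_; assumption) | (with_reducible refine IntF.comp ?_ ?_; assumption) | (with_reducible refine IntF.comp₂ ?_ ?_ ?_; assumption) | (with_reducible refine IntF.comp₃ ?_ ?_ ?_ ?_; assumption) | with_reducible apply IntF.pair))) (by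
      rintro x m n hmn (h1 | h1)
      · refine Or.inl ?_
        rintro ⟨u, h2, h3⟩
        exact h1 ⟨u, h.anti _ _ _ _ hmn h2, h.anti _ _ _ _ hmn h3⟩
      · refine Or.inr ?_
        rintro ⟨u, h2, h3⟩
        exact h1 ⟨u, h.anti _ _ _ _ hmn h2, h.anti _ _ _ _ hmn h3⟩) (fun c => by
      by_cases hca : c = a
      · obtain ⟨k, n, h1⟩ := h.sep_aux (a := b) (c := c) (fun h2 => hab (hca.symm.trans h2))
        exact ⟨k, n, fun x hx => Or.inr (h1 x hx)⟩
      · obtain ⟨k, n, h1⟩ := h.sep_aux (a := a) (c := c) hca
        exact ⟨k, n, fun x hx => Or.inl (h1 x hx)⟩)
  refine ⟨n, fun u v h1 h2 => ?_⟩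
  rintro ⟨x, h3, h4⟩
  rcases hn x with h5 | h5
  · exact h5 ⟨u, h1, h3⟩
  · exact h5 ⟨v, h2, h4⟩

theorem QB.star (x : α) (n : INat N) : ∃ k, ∀ y z, B (k, (x, y)) → EE B (k, (y, z)) →
    B (n, (x, z)) := by
  have hB := h.int
  have hE := int_EE h
  obtain ⟨k, hk⟩ := h.cp (Q := fun q : α × INat N => B (n, (x, q.1)) ∨
    ∀ y, B (q.2, (x, y)) → ¬ EE B (q.2, (y, q.1))) (by (repeat' (first | with_reducible exact IntF.id | with_reducible exact IntF.fst' | with_reducible exact IntF.snd' | with_reducible exact IntF.const _ | with_reducible exact Int.const _ | assumption | with_reducible apply Int.and | with_reducible apply Int.or | with_reducible apply Int.not | with_reducible apply Int.imp | with_reducible apply Int.iff | with_reducible apply Int.ne | with_reducible apply Int.eq | with_reducible apply Int.mem | with_reducible apply Int.subset | with_reducible apply Int.ltN | with_reducible apply Int.leN | with_reducible_and_instances apply Int.le | with_reducible_and_instances apply Int.lt | with_reducible apply Int.all | with_reducible apply Int.ex | with_reducible apply IntF.fst | with_reducible apply IntF.snd | with_reducible apply IntF.app | with_reducible apply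 IntF.inl | with_reducible apply IntF.inr | with_reducible_and_instances apply IntF.mul | with_reducible_and_instances apply IntF.inv | with_reducible_and_instances apply IntF.add | with_reducible_and_instances apply IntF.sub | with_reducible_and_instances apply IntF.neg | with_reducible_and_instances apply IntF.smul | with_reducible apply Int.fin | with_reducible apply IntF.sep | with_reducible apply IntF.lam | with_reducible apply IntF.insert | with_reducible apply IntF.singleton | with_reducible apply IntF.union | with_reducible apply IntF.iimage | with_reducible apply IntF.ite | with_reducible apply IntF.the | with_reducible apply IntF.irec | with_reducible apply IntF.succ | with_reducible apply IntF.val | with_reducible apply IntF.mk | (with_reducible refine Int.comp ?_ ?_; assumption) | (with_reducible refine Int.comp₂ ?_ ?_ ?_; assumption) | (with_reducible refine Int.comp₃ ?_ ?_ ?_ ?_; assumption) | (with_reducible refine Int.comp₄ ?_ ?_ ?_ ?_ ?_; assumption) | (with_reducible refine IntF.comp ?_ ?_; assumption) | (with_reducible refine IntF.comp₂ ?_ ?_ ?_; assumption) | (with_reducible refine IntF.comp₃ ?_ ?_ ?_ ?_; assumption) | with_reducible apply IntF.pair)))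 (by
      rintro z m k hmk (h1 | h1)
      · exact Or.inl h1
      · exact Or.inr fun y h2 h3 => h1 y (h.anti _ _ _ _ hmk h2) (EE_anti h hmk h3)) (fun c => by
      by_cases hc : B (n, (x, c))
      · obtain ⟨m, hm⟩ := h.ball n x c hc
        exact ⟨m, 0, fun z hz => Or.inl (hm z hz)⟩
      · have hcx : x ≠ c := fun h1 => hc (h1 ▸ h.refl _ _)
        obtain ⟨m, hm⟩ := h.diag hcx
        exact ⟨m, m, fun z hz => Or.inr fun y hy => hm y z hy hz⟩)
  refine ⟨k, fun y z h1 h2 => ?_⟩
  rcases hk z with h3 | h3
  · exact h3
  · exact absurd h2 (h3 y h1)

theorem QB.EE_comp (n : INat N) : ∃ m, ∀ y z w, EE B (m, (y, z)) → EE B (m, (z, w)) →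
    EE B (n, (y, w)) := by
  have hE := int_EE h
  obtain ⟨m, hm⟩ := h.cp (Q := fun q : α × INat N => ∀ y w, EE B (q.2, (y, q.1)) →
    EE B (q.2, (q.1, w)) → EE B (n, (y, w))) (by (repeat' (first | with_reducible exact IntF.id | with_reducible exact IntF.fst' | with_reducible exact IntF.snd' | with_reducible exact IntF.const _ | with_reducible exact Int.const _ | assumption | with_reducible apply Int.and | with_reducible apply Int.or | with_reducible apply Int.not | with_reducible apply Int.imp | with_reducible apply Int.iff | with_reducible apply Int.ne | with_reducible apply Int.eq | with_reducible apply Int.mem | with_reducible apply Int.subset | with_reducible apply Int.ltN | with_reducible apply Int.leN | with_reducible_and_instances apply Int.le | with_reducible_and_instances apply Int.lt | with_reducible apply Int.all | with_reducible apply Int.ex | with_reducible apply IntF.fst | with_reducible apply IntF.snd | with_reducible apply IntF.app | with_reducible apply IntF.inl | with_reducible apply IntF.inr | with_reducible_and_instances apply IntF.mul | with_reducible_and_instances apply IntF.inv | with_reducible_and_instances apply IntF.add | with_reducible_and_instances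 apply IntF.sub | with_reducible_and_instances apply IntF.neg | with_reducible_and_instances apply IntF.smul | with_reducible apply Int.fin | with_reducible apply IntF.sep | with_reducible apply IntF.lam | with_reducible apply IntF.insert | with_reducible apply IntF.singleton | with_reducible apply IntF.union | with_reducible apply IntF.iimage | with_reducible apply IntF.ite | with_reducible apply IntF.the | with_reducible apply IntF.irec | with_reducible apply IntF.succ | with_reducible apply IntF.val | with_reducible apply IntF.mk | (with_reducible refine Int.comp ?_ ?_; assumption) | (with_reducible refine Int.comp₂ ?_ ?_ ?_; assumption) | (with_reducible refine Int.comp₃ ?_ ?_ ?_ ?_; assumption) | (with_reducible refine Int.comp₄ ?_ ?_ ?_ ?_ ?_; assumption) | (with_reducible refine IntF.comp ?_ ?_; assumption) | (with_reducible refine IntF.comp₂ ?_ ?_ ?_; assumption) | (with_reducible refine IntF.comp₃ ?_ ?_ ?_ ?_; assumption) | with_reducible apply IntF.pair))) (fun x m k hmk h1 y w h2 h3 =>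
      h1 y w (EE_anti h hmk h2) (EE_anti h hmk h3)) (fun c => by
      obtain ⟨k, hk⟩ := h.star c n
      exact ⟨k, k, fun x hx y w h1 h2 => ⟨c, hk x y hx (EE_symm h1), hk x w hx h2⟩⟩)
  exact ⟨m, fun y z w => hm z y w⟩

/-- The choice of a subsequence. -/
theorem QB.exists_nu : ∃ ν : INat N → INat N, IntF N ν ∧ (∀ n, n ≤ ν n) ∧
    ∀ n y z w, EE B (ν n.succ, (y, z)) → EE B (ν n.succ, (z, w)) → EE B (ν n, (y, w)) := by
  have hE := int_EE h
  have hex : ∀ a : INat N, ∃ m, (a < m ∧ ∀ y z w, EE B (m, (y, z)) → EE B (m, (z, w)) →
      EE B (a, (y, w))) ∧ ∀ m', (a < m' ∧ ∀ y z w, EE B (m', (y, z)) → EE B (m', (z, w)) →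
      EE B (a, (y, w))) → m ≤ m' := by
    intro a
    have iQ : Int N (fun m => a < m ∧ ∀ y z w, EE B (m, (y, z)) → EE B (m, (z, w)) →
      EE B (a, (y, w))) := by (repeat' (first | with_reducible exact IntF.id | with_reducible exact IntF.fst' | with_reducible exact IntF.snd' | with_reducible exact IntF.const _ | with_reducible exact Int.const _ | assumption | with_reducible apply Int.and | with_reducible apply Int.or | with_reducible apply Int.not | with_reducible apply Int.imp | with_reducible apply Int.iff | with_reducible apply Int.ne | with_reducible apply Int.eq | with_reducible apply Int.mem | with_reducible apply Int.subset | with_reducible apply Int.ltN | with_reducible apply Int.leN | with_reducible_and_instances apply Int.le | with_reducible_and_instances apply Int.lt | with_reducible apply Int.all | with_reducible apply Int.ex | with_reducible apply IntF.fst | with_reducible apply IntF.snd | with_reducible apply IntF.app | with_reducible apply IntF.inl | with_reducible apply IntF.inr | with_reducible_and_instances apply IntF.mul | with_reducible_and_instances apply IntF.inv | with_reducible_and_instances apply IntF.add | with_reducible_and_instances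 apply IntF.sub | with_reducible_and_instances apply IntF.neg | with_reducible_and_instances apply IntF.smul | with_reducible apply Int.fin | with_reducible apply IntF.sep | with_reducible apply IntF.lam | with_reducible apply IntF.insert | with_reducible apply IntF.singleton | with_reducible apply IntF.union | with_reducible apply IntF.iimage | with_reducible apply IntF.ite | with_reducible apply IntF.the | with_reducible apply IntF.irec | with_reducible apply IntF.succ | with_reducible apply IntF.val | with_reducible apply IntF.mk | (with_reducible refine Int.comp ?_ ?_; assumption) | (with_reducible refine Int.comp₂ ?_ ?_ ?_; assumption) | (with_reducible refine Int.comp₃ ?_ ?_ ?_ ?_; assumption) | (with_reducible refine Int.comp₄ ?_ ?_ ?_ ?_ ?_; assumption) | (with_reducible refine IntF.comp ?_ ?_; assumption) | (with_reducible refine IntF.comp₂ ?_ ?_ ?_; assumption) | (with_reducible refine IntF.comp₃ ?_ ?_ ?_ ?_; assumption) | with_reducible apply IntF.pair))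
    refine INat.exists_least iQ ?_
    obtain ⟨m, hm⟩ := h.EE_comp a
    exact ⟨max m a.succ, lt_of_lt_of_le (INat.lt_succ_self a) (le_max_right _ _),
      fun y z w h1 h2 => hm y z w (EE_anti h (le_max_left _ _) h1)
        (EE_anti h (le_max_left _ _) h2)⟩
  choose μ hμ1 hμ2 using hex
  have iμ : IntF N μ := by
    refine IntF.of_rel (r := fun a m => (a < m ∧ ∀ y z w, EE B (m, (y, z)) → EE B (m, (z, w)) →
      EE B (a, (y, w))) ∧ ∀ m', (a < m' ∧ ∀ y z w, EE B (m', (y, z)) → EE B (m', (z, w)) →
      EE B (a, (y, w))) → m ≤ m') (by (repeat' (first | with_reducible exact IntF.id | with_reducible exact IntF.fst' | with_reducible exact IntF.snd' | with_reducible exact IntF.const _ | with_reducible exact Int.const _ | assumption | with_reducible apply Int.and | with_reducible apply Int.or | with_reducible apply Int.not | with_reducible apply Int.imp | with_reducible apply Int.iff | with_reducible apply Int.ne | with_reducible apply Int.eq | with_reducible apply Int.mem | with_reducible apply Int.subset | with_reducible apply Int.ltN | with_reducible apply Int.leN | with_reducible_and_instances apply Int.le | with_reducible_and_instances apply Int.lt | with_reducible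 apply Int.all | with_reducible apply Int.ex | with_reducible apply IntF.fst | with_reducible apply IntF.snd | with_reducible apply IntF.app | with_reducible apply IntF.inl | with_reducible apply IntF.inr | with_reducible_and_instances apply IntF.mul | with_reducible_and_instances apply IntF.inv | with_reducible_and_instances apply IntF.add | with_reducible_and_instances apply IntF.sub | with_reducible_and_instances apply IntF.neg | with_reducible_and_instances apply IntF.smul | with_reducible apply Int.fin | with_reducible apply IntF.sep | with_reducible apply IntF.lam | with_reducible apply IntF.insert | with_reducible apply IntF.singleton | with_reducible apply IntF.union | with_reducible apply IntF.iimage | with_reducible apply IntF.ite | with_reducible apply IntF.the | with_reducible apply IntF.irec | with_reducible apply IntF.succ | with_reducible apply IntF.val | with_reducible apply IntF.mk | (with_reducible refine Int.comp ?_ ?_; assumption) | (with_reducible refine Int.comp₂ ?_ ?_ ?_; assumption) | (with_reducible refine Int.comp₃ ?_ ?_ ?_ ?_; assumption) | (with_reducible refine Int.comp₄ ?_ ?_ ?_ ?_ ?_; assumption) | (with_reducible refine IntF.comp ?_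 ?_; assumption) | (with_reducible refine IntF.comp₂ ?_ ?_ ?_; assumption) | (with_reducible refine IntF.comp₃ ?_ ?_ ?_ ?_; assumption) | with_reducible apply IntF.pair))) fun a m => ⟨fun h1 => ?_, fun h1 => h1 ▸
        ⟨hμ1 a, hμ2 a⟩⟩
    exact le_antisymm (hμ2 a m h1.1) (h1.2 _ (hμ1 a))
  have iν : IntF N (fun n : INat N => irec (0 : INat N) (fun _ a => μ a) n) := by (repeat' (first | with_reducible exact IntF.id | with_reducible exact IntF.fst' | with_reducible exact IntF.snd' | with_reducible exact IntF.const _ | with_reducible exact Int.const _ | assumption | with_reducible apply Int.and | with_reducible apply Int.or | with_reducible apply Int.not | with_reducible apply Int.imp | with_reducible apply Int.iff | with_reducible apply Int.ne | with_reducible apply Int.eq | with_reducible apply Int.mem | with_reducible apply Int.subset | with_reducible apply Int.ltN | with_reducible apply Int.leN | with_reducible_and_instances apply Int.le | with_reducible_and_instances apply Int.lt | with_reducible apply Int.all | with_reducible apply Int.ex | with_reducible apply IntF.fst | with_reducible apply IntF.snd | with_reducible apply IntF.app | with_reducible apply IntF.inl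 | with_reducible apply IntF.inr | with_reducible_and_instances apply IntF.mul | with_reducible_and_instances apply IntF.inv | with_reducible_and_instances apply IntF.add | with_reducible_and_instances apply IntF.sub | with_reducible_and_instances apply IntF.neg | with_reducible_and_instances apply IntF.smul | with_reducible apply Int.fin | with_reducible apply IntF.sep | with_reducible apply IntF.lam | with_reducible apply IntF.insert | with_reducible apply IntF.singleton | with_reducible apply IntF.union | with_reducible apply IntF.iimage | with_reducible apply IntF.ite | with_reducible apply IntF.the | with_reducible apply IntF.irec | with_reducible apply IntF.succ | with_reducible apply IntF.val | with_reducible apply IntF.mk | (with_reducible refine Int.comp ?_ ?_; assumption) | (with_reducible refine Int.comp₂ ?_ ?_ ?_; assumption) | (with_reducible refine Int.comp₃ ?_ ?_ ?_ ?_; assumption) | (with_reducible refine Int.comp₄ ?_ ?_ ?_ ?_ ?_; assumption) | (with_reducible refine IntF.comp ?_ ?_; assumption) | (with_reducible refine IntF.comp₂ ?_ ?_ ?_; assumption) | (with_reducible refine IntF.comp₃ ?_ ?_ ?_ ?_; assumption) | with_reducible apply IntF.pair))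
  have hs : ∀ n : INat N, irec (0 : INat N) (fun _ a => μ a) n.succ =
      μ (irec (0 : INat N) (fun _ a => μ a) n) := fun n => irec_succ (by (repeat' (first | with_reducible exact IntF.id | with_reducible exact IntF.fst' | with_reducible exact IntF.snd' | with_reducible exact IntF.const _ | with_reducible exact Int.const _ | assumption | with_reducible apply Int.and | with_reducible apply Int.or | with_reducible apply Int.not | with_reducible apply Int.imp | with_reducible apply Int.iff | with_reducible apply Int.ne | with_reducible apply Int.eq | with_reducible apply Int.mem | with_reducible apply Int.subset | with_reducible apply Int.ltN | with_reducible apply Int.leN | with_reducible_and_instances apply Int.le | with_reducible_and_instances apply Int.lt | with_reducible apply Int.all | with_reducible apply Int.ex | with_reducible apply IntF.fst | with_reducible apply IntF.snd | with_reducible apply IntF.app | with_reducible apply IntF.inl | with_reducible apply IntF.inr | with_reducible_and_instances apply IntF.mul | with_reducible_and_instances apply IntF.inv | with_reducible_and_instances apply IntF.add | with_reducible_and_instances apply IntF.sub | with_reducible_and_instances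 apply IntF.neg | with_reducible_and_instances apply IntF.smul | with_reducible apply Int.fin | with_reducible apply IntF.sep | with_reducible apply IntF.lam | with_reducible apply IntF.insert | with_reducible apply IntF.singleton | with_reducible apply IntF.union | with_reducible apply IntF.iimage | with_reducible apply IntF.ite | with_reducible apply IntF.the | with_reducible apply IntF.irec | with_reducible apply IntF.succ | with_reducible apply IntF.val | with_reducible apply IntF.mk | (with_reducible refine Int.comp ?_ ?_; assumption) | (with_reducible refine Int.comp₂ ?_ ?_ ?_; assumption) | (with_reducible refine Int.comp₃ ?_ ?_ ?_ ?_; assumption) | (with_reducible refine Int.comp₄ ?_ ?_ ?_ ?_ ?_; assumption) | (with_reducible refine IntF.comp ?_ ?_; assumption) | (with_reducible refine IntF.comp₂ ?_ ?_ ?_; assumption) | (with_reducible refine IntF.comp₃ ?_ ?_ ?_ ?_; assumption) | with_reducible apply IntF.pair))) n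
  refine ⟨_, iν, ?_, ?_⟩
  · refine INat.ind (by (repeat' (first | with_reducible exact IntF.id | with_reducible exact IntF.fst' | with_reducible exact IntF.snd' | with_reducible exact IntF.const _ | with_reducible exact Int.const _ | assumption | with_reducible apply Int.and | with_reducible apply Int.or | with_reducible apply Int.not | with_reducible apply Int.imp | with_reducible apply Int.iff | with_reducible apply Int.ne | with_reducible apply Int.eq | with_reducible apply Int.mem | with_reducible apply Int.subset | with_reducible apply Int.ltN | with_reducible apply Int.leN | with_reducible_and_instances apply Int.le | with_reducible_and_instances apply Int.lt | with_reducible apply Int.all | with_reducible apply Int.ex | with_reducible apply IntF.fst | with_reducible apply IntF.snd | with_reducible apply IntF.app | with_reducible apply IntF.inl | with_reducible apply IntF.inr | with_reducible_and_instances apply IntF.mul | with_reducible_and_instances apply IntF.inv | with_reducible_and_instances apply IntF.add | with_reducible_and_instances apply IntF.sub | with_reducible_and_instances apply IntF.neg | with_reducible_and_instances apply IntF.smul | with_reducible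 apply Int.fin | with_reducible apply IntF.sep | with_reducible apply IntF.lam | with_reducible apply IntF.insert | with_reducible apply IntF.singleton | with_reducible apply IntF.union | with_reducible apply IntF.iimage | with_reducible apply IntF.ite | with_reducible apply IntF.the | with_reducible apply IntF.irec | with_reducible apply IntF.succ | with_reducible apply IntF.val | with_reducible apply IntF.mk | (with_reducible refine Int.comp ?_ ?_; assumption) | (with_reducible refine Int.comp₂ ?_ ?_ ?_; assumption) | (with_reducible refine Int.comp₃ ?_ ?_ ?_ ?_; assumption) | (with_reducible refine Int.comp₄ ?_ ?_ ?_ ?_ ?_; assumption) | (with_reducible refine IntF.comp ?_ ?_; assumption) | (with_reducible refine IntF.comp₂ ?_ ?_ ?_; assumption) | (with_reducible refine IntF.comp₃ ?_ ?_ ?_ ?_; assumption) | with_reducible apply IntF.pair))) (INat.zero_le _) fun n ih => ?_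
    rw [hs]
    exact INat.succ_le_iff.2 (lt_of_le_of_lt ih (hμ1 _).1)
  · intro n y z w
    change EE B (irec (0 : INat N) (fun _ a => μ a) n.succ, (y, z)) →
      EE B (irec (0 : INat N) (fun _ a => μ a) n.succ, (z, w)) → _
    rw [hs]
    exact (hμ1 _).2 y z w

/-- The metric. -/
theorem QB.exists_metric : ∃ ρ : α × α → IR N, IntF N ρ ∧ (∀ x, ρ (x, x) = 0) ∧
    (∀ x y, ρ (x, y) = 0 → x = y) ∧ (∀ x y, ρ (x, y) = ρ (y, x)) ∧
    (∀ x y z, ρ (x, z) ≤ ρ (x, y) + ρ (y, z)) ∧
    ∀ V : IPow N α, O V ↔ ∀ x, x ∈ V → ∃ ε, 0 < ε ∧ ∀ y, ρ (x, y) < ε → y ∈ V := by
  have hE := int_EE h
  obtain ⟨ν, iν, hν, hν2⟩ := h.exists_nu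
  have hU : US (fun q : INat N × (α × α) => EE B (ν q.1, q.2)) := by
    refine ⟨by (repeat' (first | with_reducible exact IntF.id | with_reducible exact IntF.fst' | with_reducible exact IntF.snd' | with_reducible exact IntF.const _ | with_reducible exact Int.const _ | assumption | with_reducible apply Int.and | with_reducible apply Int.or | with_reducible apply Int.not | with_reducible apply Int.imp | with_reducible apply Int.iff | with_reducible apply Int.ne | with_reducible apply Int.eq | with_reducible apply Int.mem | with_reducible apply Int.subset | with_reducible apply Int.ltN | with_reducible apply Int.leN | with_reducible_and_instances apply Int.le | with_reducible_and_instances apply Int.lt | with_reducible apply Int.all | with_reducible apply Int.ex | with_reducible apply IntF.fst | with_reducible apply IntF.snd | with_reducible apply IntF.app | with_reducible apply IntF.inl | with_reducible apply IntF.inr | with_reducible_and_instances apply IntF.mul | with_reducible_and_instances apply IntF.inv | with_reducible_and_instances apply IntF.add | with_reducible_and_instances apply IntF.sub | with_reducible_and_instances apply IntF.neg | with_reducible_and_instances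 apply IntF.smul | with_reducible apply Int.fin | with_reducible apply IntF.sep | with_reducible apply IntF.lam | with_reducible apply IntF.insert | with_reducible apply IntF.singleton | with_reducible apply IntF.union | with_reducible apply IntF.iimage | with_reducible apply IntF.ite | with_reducible apply IntF.the | with_reducible apply IntF.irec | with_reducible apply IntF.succ | with_reducible apply IntF.val | with_reducible apply IntF.mk | (with_reducible refine Int.comp ?_ ?_; assumption) | (with_reducible refine Int.comp₂ ?_ ?_ ?_; assumption) | (with_reducible refine Int.comp₃ ?_ ?_ ?_ ?_; assumption) | (with_reducible refine Int.comp₄ ?_ ?_ ?_ ?_ ?_; assumption) | (with_reducible refine IntF.comp ?_ ?_; assumption) | (with_reducible refine IntF.comp₂ ?_ ?_ ?_; assumption) | (with_reducible refine IntF.comp₃ ?_ ?_ ?_ ?_; assumption) | with_reducible apply IntF.pair)), fun n x => ⟨x, h.refl _ _, h.refl _ _⟩, fun n x y h1 => EE_symm h1,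
      fun n x y z h1 h2 => hν2 n x y z h1 h2⟩
  obtain ⟨ρ, iρ, h1, h2, h3, h4, h5, h6⟩ := exists_rho hU
  have hmono : ∀ (n : INat N) x y, EE B (ν n.succ, (x, y)) → EE B (ν n, (x, y)) :=
    fun n x y h7 => hν2 n x y y h7 ⟨y, h.refl _ _, h.refl _ _⟩
  refine ⟨ρ, iρ, h1, fun x y h7 => ?_, h3, h4, fun V => ?_⟩
  · by_contra hxy
    obtain ⟨n, hn⟩ := h.diag hxy
    have h8 := h6 n x y (by rw [h7]; exact hh_pos _)
    exact hn x y (h.refl _ _) (h.refl _ _) (EE_anti h (hν n) (hmono n x y h8))
  · rw [h.open']
    constructor
    · intro hV x hx
      obtain ⟨n, hn⟩ := hV x hx
      obtain ⟨k, hk⟩ := h.star x n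
      refine ⟨hh k.succ, hh_pos _, fun y hy => hn y (hk x y (h.refl _ _) ?_)⟩
      exact EE_anti h (hν k) (hmono k x y (h6 k x y hy))
    · intro hV x hx
      obtain ⟨ε, hε, h7⟩ := hV x hx
      obtain ⟨n, hn⟩ := hh_small (ε := ε * 2⁻¹) (mul_pos hε half_pos')
      refine ⟨ν n, fun y hy => h7 y (lt_of_le_of_lt (h5 n x y ⟨x, h.refl _ _, hy⟩) ?_)⟩
      linarith

end

end Pool.Agent.Helper672.ZFA.V257
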