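import Pool.Agent.V11246.CcDefs

/-!
# Quasi-metrizable and metrizable spaces in a structure for the language of set theory

`Mem`, `El`, `LSet` and `IsOrdPair` are from `Pool.Agent.Helper672.SIK.Plain`, `IsReals` from
`Pool.Agent.H635R2.Statement`, `IsMetric` from `Pool.Agent.H310R3.MetDefs`, and `IsMetricTop` (`t`
is the topology induced by `d`) from `Pool.Agent.V11246.CcDefs`.
-/

namespace Pool.Agent.V11257Q

open FirstOrder FirstOrder.Language
open Pool.Agent.Helper672.Plain (LSet Mem El IsOrdPair)
open Pool.Agent.H310Metric (IsMetric)
open Pool.Agent.H635Amen (IsReals)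
open Pool.Agent.V11246 (IsMetricTop)

universe u

variable {M : Type u} [LSet.Structure M]

/-- `d` is a quasi-metric on the set `x` with values in `r`, and `d` is in the model: the set of
the `((a, b), c)` with `d a b = c` is an element of the model. -/
structure IsQuasiMetric {x r : M} [Field (El r)] [LinearOrder (El r)] (d : El x → El x → El r) :
    Prop where
  graph : ∃ g, ∀ (a b : El x) (c : El r),
    d a b = c ↔ ∃ p q, IsOrdPair p a.1 b.1 ∧ IsOrdPair q p c.1 ∧ Mem q g
  nonneg : ∀ a b, 0 ≤ d a b
  self : ∀ a, d a a = 0
  tri : ∀ a b c, d a c ≤ d a b + d b c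
  eq : ∀ a b, d a b = 0 → d b a = 0 → a = b

/-- The set `x` with the set `t` of open sets is a quasi-metrizable space: its topology is induced
by a quasi-metric with values in the field `r` of the real numbers. -/
def IsQuasiMetrizable (t x : M) : Prop :=
  ∃ (r : M) (_ : Field (El r)) (_ : LinearOrder (El r)) (_ : IsStrictOrderedRing (El r)),
    IsReals r ∧ ∃ d : El x → El x → El r, IsQuasiMetric d ∧ IsMetricTop d t

/-- The space is metrizable: its topology is induced by a metric with values in the field `r` of
the real numbers. -/
def IsMetrizable (t x : M) : Prop :=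
  ∃ (r : M) (_ : Field (El r)) (_ : LinearOrder (El r)) (_ : IsStrictOrderedRing (El r)),
    IsReals r ∧ ∃ d : El x → El x → El r, IsMetric d ∧ IsMetricTop d t

end Pool.Agent.V11257Q
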