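import Pool.Agent.V11257.Zt6
import Pool.Agent.V11246.NcoR

/-!
# The spaces: the union of a sequence of N-compact subspaces
-/

set_option maxHeartbeats 1000000
set_option linter.all false
set_option synthInstance.maxSize 2000

namespace Pool.Agent.V11257Z

open FirstOrder FirstOrder.Language
open Pool.Agent.Helper672
open Pool.Agent.Helper672.ZFA
open Pool.Agent.Helper672.ZFA.V246
open Pool.Agent.Helper672.Plain (LSet)
open Pool.Agent.H310
open Pool.Agent.H310Cards
open Pool.Agent.H310Top (IsTopology)
open Pool.Agent.V11246

universe u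

section

attribute [local instance] Helper672.Plain.toL

variable {N : Type u} [LSet.Structure N] [hZ : Helper672.Plain.Zermelo N]

local instance instModelZt7 : IsModel N := Helper672.Plain.isModel_toL

variable {α : Type u} [ITy N α]
variable {D : INat N × (α × α) → Prop} {fb : α → INat N} (h : ZT N D fb)

theorem mem_codeQ {β : Type u} [ITy N β] {U : IPow N β} {b : β} :
    Plain.Mem (code b) (code (M := N) U) ↔ b ∈ U := mem_codeB'

open Classical in
/-- The retraction. -/
noncomputable def rt (D : INat N × (α × α) → Prop) (fb : α → INat N) (n : INat N)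
    (z : Pt N α) : Pt N α :=
  if PK D fb n z then z else Sum.inl n.succ

include h

theorem int_rt (n : INat N) : IntF N (rt D fb n) := by
  classical
  have h1 := int_PK' h n
  unfold rt
  (repeat' (first | with_reducible exact IntF.id | with_reducible exact IntF.fst' | with_reducible exact IntF.snd' | with_reducible exact IntF.const _ | with_reducible exact Int.const _ | assumption | with_reducible apply Int.and | with_reducible apply Int.or | with_reducible apply Int.not | with_reducible apply Int.imp | with_reducible apply Int.iff | with_reducible apply Int.ne | with_reducible apply Int.eq | with_reducible apply Int.mem | with_reducible apply Int.subset | with_reducible apply Int.ltN | with_reducible apply Int.leN | with_reducible_and_instances apply Int.le | with_reducible_and_instances apply Int.lt | with_reducible apply Int.all | with_reducible apply Int.ex | with_reducible apply IntF.fst | with_reducible apply IntF.snd | with_reducible apply IntF.app | with_reducible apply IntF.inl | with_reducible apply IntF.inr | with_reducible_and_instances apply IntF.mul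 | with_reducible_and_instances apply IntF.inv | with_reducible_and_instances apply IntF.add | with_reducible_and_instances apply IntF.sub | with_reducible_and_instances apply IntF.neg | with_reducible_and_instances apply IntF.smul | with_reducible apply Int.fin | with_reducible apply IntF.sep | with_reducible apply IntF.lam | with_reducible apply IntF.insert | with_reducible apply IntF.singleton | with_reducible apply IntF.union | with_reducible apply IntF.iimage | with_reducible apply IntF.ite | with_reducible apply IntF.the | with_reducible apply IntF.irec | with_reducible apply IntF.succ | with_reducible apply IntF.val | with_reducible apply IntF.mk | (with_reducible refine Int.comp ?_ ?_; assumption) | (with_reducible refine Int.comp₂ ?_ ?_ ?_; assumption) | (with_reducible refine Int.comp₃ ?_ ?_ ?_ ?_; assumption) | (with_reducible refine Int.comp₄ ?_ ?_ ?_ ?_ ?_; assumption) | (with_reducible refine IntF.comp ?_ ?_; assumption) | (with_reducible refine IntF.comp₂ ?_ ?_ ?_; assumption) | (with_reducible refine IntF.comp₃ ?_ ?_ ?_ ?_; assumption) | with_reducible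 apply IntF.pair))

omit h in
theorem rt_pos {n : INat N} {z : Pt N α} (hz : PK D fb n z) : rt D fb n z = z := by
  classical
  unfold rt
  rw [if_pos hz]

omit h in
theorem rt_neg {n : INat N} {z : Pt N α} (hz : ¬ PK D fb n z) : rt D fb n z = Sum.inl n.succ := by
  classical
  unfold rt
  rw [if_neg hz]

omit h in
theorem pk_limit (n : INat N) : PK D fb n (Sum.inl n.succ : Pt N α) := fun x hx => lep_inl.2 hx

omit h in
theorem rt_pk (n : INat N) (z : Pt N α) : PK D fb n (rt D fb n z) := by
  by_cases hz : PK D fb n z
  · rw [rt_pos hz]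
    exact hz
  · rw [rt_neg hz]
    exact pk_limit n

theorem not_pk_lep {n : INat N} {z : Pt N α} (hz : ¬ PK D fb n z) {x : α} (hx : lep D fb z x) :
    n ≤ fb x := by
  by_contra h1
  exact hz fun y hy => h.lep_mono hx (Or.inl (lt_of_lt_of_le (not_le.1 h1) hy))

omit h in
theorem int_pre_rt {n : INat N} (hrt : IntF N (rt D fb n)) (U : IPow N (Pt N α)) :
    Int N (fun z : Pt N α => PB z ∧ rt D fb n z ∈ U) := by
  have h1 := int_PB (N := N) (α := α)
  have h2 : Int N (fun z : Pt N α => rt D fb n z ∈ U) := Int.comp (p := fun z => z ∈ U)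
    (f := rt D fb n) U.int_mem hrt
  exact h1.and h2

/-- The retraction is continuous. -/
theorem op_rt {n : INat N} {U V : IPow N (Pt N α)} (hU : OP D fb (PK D fb n) U)
    (hV : ∀ z, z ∈ V ↔ PB z ∧ rt D fb n z ∈ U) : OP D fb PB V := by
  refine ⟨fun z hz => ((hV z).1 hz).1, fun z hz => ?_⟩
  obtain ⟨h1, h2⟩ := (hV z).1 hz
  by_cases h3 : PK D fb n z
  · rw [rt_pos h3] at h2
    obtain ⟨l, u, h4, h5, h6⟩ := hU.2 z h2
    refine ⟨l, u, h4, h5, fun w h7 h8 h9 => (hV w).2 ⟨h7, ?_⟩⟩
    by_cases h10 : PK D fb n w
    · rw [rt_pos h10]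
      exact h6 w h10 h8 h9
    · rw [rt_neg h10]
      refine h6 _ (pk_limit n) (fun x hx h11 => ?_) fun x hx => ?_
      · exact h4 x hx (h3 x (lep_inl.1 h11))
      · exact lep_inl.2 (not_pk_lep h h10 (h9 x hx))
  · rw [rt_neg h3] at h2
    unfold PK at h3
    push Not at h3
    obtain ⟨x, h4, h5⟩ := h3
    refine ⟨Sum.inl x, Sum.inr 0, gt_inl.2 h5, leo_inr, fun w h6 h7 _ => (hV w).2 ⟨h6, ?_⟩⟩
    rw [rt_neg fun h8 => gt_inl.1 h7 (h8 x h4)]
    exact h2

/-- The preimage of a clopen set under the retraction. -/
theorem clopen_rt {n : INat N} {U : IPow N (Pt N α)}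
    (hU : IsClopen (ts (OP D fb (PK D fb n))) (xs (N := N) (PK D fb n)) (code U)) :
    IsClopen (ts (OP D fb PB)) (xs (N := N) (PB (N := N) (α := α)))
      (code (sep N fun z : Pt N α => PB z ∧ rt D fb n z ∈ U)) := by
  obtain ⟨h1, V, h2, h3⟩ := (isClopen_iff h (int_PK' h n)).1 hU
  have hI := int_pre_rt (int_rt h n)
  refine (isClopen_iff h (int_PB (N := N) (α := α))).2 ⟨op_rt h h1 fun z => mem_sep (hI U),
    sep N fun z : Pt N α => PB z ∧ rt D fb n z ∈ V, op_rt h h2 fun z => mem_sep (hI V), fun z => ?_⟩
  rw [mem_sep (hI V), mem_sep (hI U), h3]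
  have := rt_pk (D := D) (fb := fb) n z
  tauto

theorem trace_rt {n : INat N} {U : IPow N (Pt N α)} (hU : ∀ z, z ∈ U → PK D fb n z) (z : N) :
    Plain.Mem z (code U) ↔ Plain.Mem z (code (sep N fun z : Pt N α => PB z ∧ rt D fb n z ∈ U)) ∧
      Plain.Mem z (xs (PK D fb n)) := by
  have hS := spO h (int_PK' h n)
  have hI := int_pre_rt (int_rt h n) U
  constructor
  · intro hz
    obtain ⟨s, hs, rfl⟩ := mem_codeB.1 hz
    have h1 := hU s hs
    refine ⟨mem_codeB'.2 ((mem_sep hI).2 ⟨pk_pb h h1, ?_⟩), (mem_xs' hS).2 h1⟩
    rw [rt_pos h1]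
    exact hs
  · rintro ⟨h1, h2⟩
    obtain ⟨s, hs, rfl⟩ := mem_codeB.1 h1
    have h3 := (mem_sep hI).1 hs
    rw [rt_pos ((mem_xs' hS).1 h2)] at h3
    exact mem_codeB'.2 h3.2

theorem pk_sub (n : INat N) (z : N) (hz : Plain.Mem z (xs (PK D fb n))) :
    Plain.Mem z (xs (PB (N := N) (α := α))) := by
  obtain ⟨s, hs, rfl⟩ := (mem_xs (spO h (int_PK' h n))).1 hz
  exact (mem_xs' (spO h (int_PB (N := N) (α := α)))).2 (pk_pb h hs)

theorem two_embedded (n : INat N) : IsTwoEmbedded (ts (OP D fb PB))
    (xs (N := N) (PB (N := N) (α := α))) (xs (N := N) (PK D fb n)) := by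
  refine ⟨pk_sub h n, ts (OP D fb (PK D fb n)), isSubTop_ts h (int_PB (N := N) (α := α))
    (int_PK' h n) fun z hz => pk_pb h hz, fun u hu => ?_⟩
  obtain ⟨U, rfl, h1⟩ := clopen_code h (int_PK' h n) hu
  exact ⟨_, clopen_rt h hu, trace_rt h h1.1⟩

theorem cd_embedded (n : INat N) : IsCdEmbedded (ts (OP D fb PB))
    (xs (N := N) (PB (N := N) (α := α))) (xs (N := N) (PK D fb n)) := by
  have hS := spO h (int_PK' h n)
  have hSB := spO h (int_PB (N := N) (α := α))
  refine ⟨pk_sub h n, ts (OP D fb (PK D fb n)), isSubTop_ts h (int_PB (N := N) (α := α))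
    (int_PK' h n) fun z hz => pk_pb h hz, fun a' ha' => ?_⟩
  obtain ⟨c, hc, ⟨u₀, hu₀⟩, hcl, ha'⟩ := ha'
  obtain ⟨C, rfl, hC⟩ := exists_fam hS fun u hu => (hcl u hu).1
  have hrt := int_rt h n
  have hpre : Int N (fun q : IPow N (Pt N α) × Pt N α => PB q.2 ∧ rt D fb n q.2 ∈ q.1) := by
    have g1 : Int N (fun q : IPow N (Pt N α) × Pt N α => PB q.2) := Int.comp
      (p := PB) (f := fun q : IPow N (Pt N α) × Pt N α => q.2) (int_PB (N := N) (α := α)) (by (repeat' (first | with_reducible exact IntF.id | with_reducible exact IntF.fst' | with_reducible exact IntF.snd' | with_reducible exact IntF.const _ | with_reducible exact Int.const _ | assumption | with_reducible apply Int.and | with_reducible apply Int.or | with_reducible apply Int.not | with_reducible apply Int.imp | with_reducible apply Int.iff | with_reducible apply Int.ne | with_reducible apply Int.eq | with_reducible apply Int.mem | with_reducible apply Int.subset | with_reducible apply Int.ltN | with_reducible apply Int.leN | with_reducible_and_instances apply Int.le | with_reducible_and_instances apply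 Int.lt | with_reducible apply Int.all | with_reducible apply Int.ex | with_reducible apply IntF.fst | with_reducible apply IntF.snd | with_reducible apply IntF.app | with_reducible apply IntF.inl | with_reducible apply IntF.inr | with_reducible_and_instances apply IntF.mul | with_reducible_and_instances apply IntF.inv | with_reducible_and_instances apply IntF.add | with_reducible_and_instances apply IntF.sub | with_reducible_and_instances apply IntF.neg | with_reducible_and_instances apply IntF.smul | with_reducible apply Int.fin | with_reducible apply IntF.sep | with_reducible apply IntF.lam | with_reducible apply IntF.insert | with_reducible apply IntF.singleton | with_reducible apply IntF.union | with_reducible apply IntF.iimage | with_reducible apply IntF.ite | with_reducible apply IntF.the | with_reducible apply IntF.irec | with_reducible apply IntF.succ | with_reducible apply IntF.val | with_reducible apply IntF.mk | (with_reducible refine Int.comp ?_ ?_; assumption) | (with_reducible refine Int.comp₂ ?_ ?_ ?_; assumption) | (with_reducible refine Int.comp₃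 ?_ ?_ ?_ ?_; assumption) | (with_reducible refine Int.comp₄ ?_ ?_ ?_ ?_ ?_; assumption) | (with_reducible refine IntF.comp ?_ ?_; assumption) | (with_reducible refine IntF.comp₂ ?_ ?_ ?_; assumption) | (with_reducible refine IntF.comp₃ ?_ ?_ ?_ ?_; assumption) | with_reducible apply IntF.pair)))
    have g2 : Int N (fun q : IPow N (Pt N α) × Pt N α => rt D fb n q.2 ∈ q.1) := by (repeat' (first | with_reducible exact IntF.id | with_reducible exact IntF.fst' | with_reducible exact IntF.snd' | with_reducible exact IntF.const _ | with_reducible exact Int.const _ | assumption | with_reducible apply Int.and | with_reducible apply Int.or | with_reducible apply Int.not | with_reducible apply Int.imp | with_reducible apply Int.iff | with_reducible apply Int.ne | with_reducible apply Int.eq | with_reducible apply Int.mem | with_reducible apply Int.subset | with_reducible apply Int.ltN | with_reducible apply Int.leN | with_reducible_and_instances apply Int.le | with_reducible_and_instances apply Int.lt | with_reducible apply Int.all | with_reducible apply Int.ex | with_reducible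 apply IntF.fst | with_reducible apply IntF.snd | with_reducible apply IntF.app | with_reducible apply IntF.inl | with_reducible apply IntF.inr | with_reducible_and_instances apply IntF.mul | with_reducible_and_instances apply IntF.inv | with_reducible_and_instances apply IntF.add | with_reducible_and_instances apply IntF.sub | with_reducible_and_instances apply IntF.neg | with_reducible_and_instances apply IntF.smul | with_reducible apply Int.fin | with_reducible apply IntF.sep | with_reducible apply IntF.lam | with_reducible apply IntF.insert | with_reducible apply IntF.singleton | with_reducible apply IntF.union | with_reducible apply IntF.iimage | with_reducible apply IntF.ite | with_reducible apply IntF.the | with_reducible apply IntF.irec | with_reducible apply IntF.succ | with_reducible apply IntF.val | with_reducible apply IntF.mk | (with_reducible refine Int.comp ?_ ?_; assumption) | (with_reducible refine Int.comp₂ ?_ ?_ ?_; assumption) | (with_reducible refine Int.comp₃ ?_ ?_ ?_ ?_; assumption) | (with_reducible refine Int.comp₄ ?_ ?_ ?_ ?_ ?_; assumption)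 | (with_reducible refine IntF.comp ?_ ?_; assumption) | (with_reducible refine IntF.comp₂ ?_ ?_ ?_; assumption) | (with_reducible refine IntF.comp₃ ?_ ?_ ?_ ?_; assumption) | with_reducible apply IntF.pair))
    exact g1.and g2
  have hpf : IntF N (fun U : IPow N (Pt N α) => sep N fun z : Pt N α =>
      PB z ∧ rt D fb n z ∈ U) := IntF.sep hpre
  have hI : Int N (fun V : IPow N (Pt N α) => ∃ U, U ∈ C ∧ (sep N fun z : Pt N α =>
      PB z ∧ rt D fb n z ∈ U) = V) := by
    have g : Int N (fun q : IPow N (Pt N α) × IPow N (Pt N α) => q.2 ∈ C ∧ (sep N fun z : Pt N α =>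
        PB z ∧ rt D fb n z ∈ q.2) = q.1) :=
      (Int.comp (p := fun U => U ∈ C) (f := fun q : IPow N (Pt N α) × IPow N (Pt N α) => q.2)
        C.int_mem IntF.snd').and (Int.eq (IntF.comp
          (f := fun q : IPow N (Pt N α) × IPow N (Pt N α) => q.2) hpf IntF.snd') IntF.fst')
    exact Int.ex g
  have hmem : ∀ V : IPow N (Pt N α), V ∈ sep N (fun V : IPow N (Pt N α) => ∃ U, U ∈ C ∧
      (sep N fun z : Pt N α => PB z ∧ rt D fb n z ∈ U) = V) ↔ ∃ U, U ∈ C ∧
      (sep N fun z : Pt N α => PB z ∧ rt D fb n z ∈ U) = V := fun V => mem_sep hI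
  have hI2 : Int N (fun z : Pt N α => PB z ∧ ∀ U, U ∈ C → rt D fb n z ∈ U) := by
    have g1 : Int N (fun z : Pt N α => ∀ U, U ∈ C → rt D fb n z ∈ U) := by (repeat' (first | with_reducible exact IntF.id | with_reducible exact IntF.fst' | with_reducible exact IntF.snd' | with_reducible exact IntF.const _ | with_reducible exact Int.const _ | assumption | with_reducible apply Int.and | with_reducible apply Int.or | with_reducible apply Int.not | with_reducible apply Int.imp | with_reducible apply Int.iff | with_reducible apply Int.ne | with_reducible apply Int.eq | with_reducible apply Int.mem | with_reducible apply Int.subset | with_reducible apply Int.ltN | with_reducible apply Int.leN | with_reducible_and_instances apply Int.le | with_reducible_and_instances apply Int.lt | with_reducible apply Int.all | with_reducible apply Int.ex | with_reducible apply IntF.fst | with_reducible apply IntF.snd | with_reducible apply IntF.app | with_reducible apply IntF.inl | with_reducible apply IntF.inr | with_reducible_and_instances apply IntF.mul | with_reducible_and_instances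 apply IntF.inv | with_reducible_and_instances apply IntF.add | with_reducible_and_instances apply IntF.sub | with_reducible_and_instances apply IntF.neg | with_reducible_and_instances apply IntF.smul | with_reducible apply Int.fin | with_reducible apply IntF.sep | with_reducible apply IntF.lam | with_reducible apply IntF.insert | with_reducible apply IntF.singleton | with_reducible apply IntF.union | with_reducible apply IntF.iimage | with_reducible apply IntF.ite | with_reducible apply IntF.the | with_reducible apply IntF.irec | with_reducible apply IntF.succ | with_reducible apply IntF.val | with_reducible apply IntF.mk | (with_reducible refine Int.comp ?_ ?_; assumption) | (with_reducible refine Int.comp₂ ?_ ?_ ?_; assumption) | (with_reducible refine Int.comp₃ ?_ ?_ ?_ ?_; assumption) | (with_reducible refine Int.comp₄ ?_ ?_ ?_ ?_ ?_; assumption) | (with_reducible refine IntF.comp ?_ ?_; assumption) | (with_reducible refine IntF.comp₂ ?_ ?_ ?_; assumption) | (with_reducible refine IntF.comp₃ ?_ ?_ ?_ ?_; assumption) | with_reducible apply IntF.pair))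
    exact (int_PB (N := N) (α := α)).and g1
  obtain ⟨U₀, hU₀, -⟩ := mem_codeB.1 hu₀
  refine ⟨code (sep N fun z : Pt N α => PB z ∧ ∀ U, U ∈ C → rt D fb n z ∈ U),
    ⟨code (sep N fun V : IPow N (Pt N α) => ∃ U, U ∈ C ∧ (sep N fun z : Pt N α =>
      PB z ∧ rt D fb n z ∈ U) = V), ?_, ?_, ?_, ?_⟩, fun z => ?_⟩
  · refine isCtble_of_ctb ?_
    refine ((Ctb.image (P := fun U => U ∈ C) C.int_mem (isCtble_iff.1 hc) hpf).mono fun V hV =>
      (hmem V).1 hV)
  · exact ⟨_, mem_codeQ.2 ((hmem _).2 ⟨U₀, hU₀, rfl⟩)⟩
  · intro v hv
    obtain ⟨V, hV, rfl⟩ := mem_codeB.1 hv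
    obtain ⟨U, hU, rfl⟩ := (hmem V).1 hV
    exact clopen_rt h (hcl _ (mem_codeQ.2 hU))
  · intro z
    constructor
    · intro hz v hv
      obtain ⟨s, hs, rfl⟩ := mem_codeB.1 hz
      obtain ⟨V, hV, rfl⟩ := mem_codeB.1 hv
      obtain ⟨U, hU, rfl⟩ := (hmem V).1 hV
      have h1 := (mem_sep hI2).1 hs
      exact mem_codeQ.2 ((mem_sep (int_pre_rt hrt U)).2 ⟨h1.1, h1.2 U hU⟩)
    · intro hz
      have h1 := hz _ (mem_codeQ.2 ((hmem _).2 ⟨U₀, hU₀, rfl⟩))
      obtain ⟨s, hs, rfl⟩ := mem_codeB.1 h1
      refine mem_codeQ.2 ((mem_sep hI2).2 ⟨((mem_sep (int_pre_rt hrt U₀)).1 hs).1, fun U hU => ?_⟩)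
      exact ((mem_sep (int_pre_rt hrt U)).1 (mem_codeQ.1 (hz _ (mem_codeQ.2 ((hmem _).2
        ⟨U, hU, rfl⟩))))).2
  · constructor
    · intro hz
      have h1 := (ha' z).1 hz
      obtain ⟨s, hs, rfl⟩ := mem_codeB.1 (h1 _ (mem_codeQ.2 hU₀))
      have h2 : PK D fb n s := (hC U₀ hU₀).1 s hs
      refine ⟨mem_codeQ.2 ((mem_sep hI2).2 ⟨pk_pb h h2, fun U hU => ?_⟩), (mem_xs' hS).2 h2⟩
      rw [rt_pos h2]
      exact mem_codeQ.1 (h1 _ (mem_codeQ.2 hU))
    · rintro ⟨h1, h2⟩
      obtain ⟨s, hs, rfl⟩ := mem_codeB.1 h1
      have h3 := (mem_xs' hS).1 h2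
      refine (ha' _).2 fun u hu => ?_
      obtain ⟨U, hU, rfl⟩ := mem_codeB.1 hu
      have h4 := ((mem_sep hI2).1 hs).2 U hU
      rw [rt_pos h3] at h4
      exact mem_codeQ.2 h4

/-- The sequence of the subspaces. -/
theorem seq_union : ∃ f : N, IsSeqUnion f (xs (N := N) (PB (N := N) (α := α))) ∧
    ∀ n u, App f n u → ∃ m : INat N, u = xs (N := N) (PK D fb m) := by
  have hSB := spO h (int_PB (N := N) (α := α))
  have h1 := int_PK h
  have hf : IntF N (fun n : INat N => sep N (PK D fb n)) := IntF.sep h1
  refine ⟨code (⟨_, hf⟩ : IFun N (INat N) (IPow N (Pt N α))), ⟨dom N (INat N),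
    dom N (IPow N (Pt N α)), isOmega_dom, isFun_code _ (fun z => mem_domP) fun n =>
      code_mem_domP _, fun z => ?_⟩, fun n u hu => ?_⟩
  · constructor
    · intro hz
      obtain ⟨s, hs, rfl⟩ := (mem_xs hSB).1 hz
      have h2 : ∃ n, PK D fb n s := by
        rcases s with k | y
        · rcases INat.eq_zero_or_succ k with rfl | ⟨m, rfl⟩
          · exact absurd rfl hs
          · exact ⟨m, pk_limit m⟩
        · exact ⟨(fb y).succ, fun x hx => lep_inr.2 (Or.inl (INat.succ_le_iff.1 hx))⟩
      obtain ⟨n, h2⟩ := h2
      exact ⟨code n, _, app_code.2 ⟨n, rfl, rfl⟩, mem_codeQ.2 ((mem_sep (int_PK' h n)).2 h2)⟩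
    · rintro ⟨n, u, h2, h3⟩
      obtain ⟨n, rfl, rfl⟩ := app_code.1 h2
      exact pk_sub h n z h3
  · obtain ⟨n, rfl, rfl⟩ := app_code.1 hu
    exact ⟨n, rfl⟩

end

section

attribute [local instance] Helper672.Plain.toL

variable {N : Type u} [LSet.Structure N] [hZ : Helper672.Plain.Zermelo N]

local instance instModelZt7' : IsModel N := Helper672.Plain.isModel_toL

noncomputable local instance instPElZt7 (x : N) : ITy N (Helper672.Plain.El x) :=
  (inferInstance : ITy N (El x))

variable {a : N}
variable {D : INat N × (Plain.El a × Plain.El a) → Prop} {fb : Plain.El a → INat N}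
  (h : ZT N D fb)

include h

/-- The space. -/
theorem space_nco : ∃ x t : N, IsTopology t x ∧ IsT1 t x ∧ IsZeroDim t x ∧ (∃ f, IsSeqUnion f x ∧
    ∀ n u, App f n u → IsNCompactSub t u ∧ IsTwoEmbedded t x u ∧ IsCdEmbedded t x u) ∧
      ¬ IsNCompact t x := by
  have hB := int_PB (N := N) (α := Plain.El a)
  have hS := spO h hB
  obtain ⟨f, h1, h2⟩ := seq_union h
  refine ⟨xs (N := N) (PB (N := N) (α := Plain.El a)), ts (OP D fb PB), isTopology_ts hS,
    isT1_ts h hB, isZeroDim_ts h hB, ⟨f, h1, fun n u hu => ?_⟩, not_nco h⟩
  obtain ⟨m, rfl⟩ := h2 n u hu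
  exact ⟨⟨ts (OP D fb (PK D fb m)), isSubTop_ts h hB (int_PK' h m) (fun z hz => pk_pb h hz),
    nco_PK h m⟩, two_embedded h m, cd_embedded h m⟩

end

end Pool.Agent.V11257Z
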