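import Pool.Agent.V11257.ZrDefs
import Pool.Agent.V11257.Zt7
import Pool.Agent.H310R3.Met

/-!
# Real functions on spaces from internal data
-/

set_option maxHeartbeats 1000000
set_option linter.all false
set_option synthInstance.maxSize 2000

namespace Pool.Agent.V11257Z

open FirstOrder FirstOrder.Language
open Pool.Agent.Helper672
open Pool.Agent.Helper672.ZFA
open Pool.Agent.Helper672.ZFA.V246
open Pool.Agent.Helper672.Plain (LSet)
open Pool.Agent.H310
open Pool.Agent.H310Cards
open Pool.Agent.H310Top (IsTopology)
open Pool.Agent.H635Amen (IsReals)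
open Pool.Agent.V11246

universe u

section

attribute [local instance] Helper672.Plain.toL

variable {N : Type u} [LSet.Structure N] [hZ : Helper672.Plain.Zermelo N]

local instance instModelZr1 : IsModel N := Helper672.Plain.isModel_toL

noncomputable local instance instPElZr1 (x : N) : ITy N (Helper672.Plain.El x) :=
  (inferInstance : ITy N (El x))

variable {α : Type u} [ITy N α] {P : α → Prop} {O : IPow N α → Prop}
variable {r : N} [Field (Plain.El r)] [LinearOrder (Plain.El r)]
  [IsStrictOrderedRing (Plain.El r)]

theorem opGraph_iff {x y z : N} {g : N} : (∃ p q, Plain.IsOrdPair p x y ∧ Plain.IsOrdPair q p z ∧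
    Mem q g) ↔ Mem (op (op x y) z) g := by
  constructor
  · rintro ⟨p, q, h1, h2, h3⟩
    rw [ordPair_iff] at h1 h2
    rw [← h1, ← h2]
    exact h3
  · intro h
    exact ⟨_, _, ordPair_iff.2 rfl, ordPair_iff.2 rfl, h⟩

theorem int_addR (hr : IsReals r) : IntF N (fun q : Plain.El r × Plain.El r => q.1 + q.2) := by
  obtain ⟨g, hg⟩ := hr.add
  exact ⟨g, fun q => ((hg q.1.1 q.1.2 q.2).trans opGraph_iff).symm⟩

theorem int_leR (hr : IsReals r) : Int N (fun q : Plain.El r × Plain.El r => q.1 ≤ q.2) := by
  obtain ⟨g, hg⟩ := hr.le
  exact ⟨g, fun q => ((hg q.1 q.2).trans app_iff).symm⟩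

theorem int_ltR (hr : IsReals r) : Int N (fun q : Plain.El r × Plain.El r => q.1 < q.2) :=
  (ZFA.Int.not (Int.comp (p := fun q : Plain.El r × Plain.El r => q.1 ≤ q.2)
    (f := fun q : Plain.El r × Plain.El r => (q.2, q.1)) (int_leR hr)
    (IntF.snd'.pair IntF.fst'))).congr fun q => not_le

omit hZ in
theorem close_iff {x y ε : Plain.El r} : |x - y| < ε ↔ x < y + ε ∧ y < x + ε := by
  rw [abs_sub_lt_iff]
  constructor
  · rintro ⟨h1, h2⟩
    constructor <;> linarith
  · rintro ⟨h1, h2⟩
    constructor <;> linarith

/-- `|x - y| < ε`. -/
theorem int_closeR (hr : IsReals r) : Int N (fun q : (Plain.El r × Plain.El r) × Plain.El r =>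
    |q.1.1 - q.1.2| < q.2) := by
  have h1 := int_addR hr
  have h2 := int_ltR hr
  have h3 : Int N (fun q : (Plain.El r × Plain.El r) × Plain.El r => q.1.1 < q.1.2 + q.2) :=
    Int.comp (p := fun q : Plain.El r × Plain.El r => q.1 < q.2)
      (f := fun q : (Plain.El r × Plain.El r) × Plain.El r => (q.1.1, q.1.2 + q.2)) h2
      (IntF.pair (by (repeat' (first | with_reducible exact IntF.id | with_reducible exact IntF.fst' | with_reducible exact IntF.snd' | with_reducible exact IntF.const _ | with_reducible exact Int.const _ | assumption | with_reducible apply Int.and | with_reducible apply Int.or | with_reducible apply Int.not | with_reducible apply Int.imp | with_reducible apply Int.iff | with_reducible apply Int.ne | with_reducible apply Int.eq | with_reducible apply Int.mem | with_reducible apply Int.subset | with_reducible apply Int.ltN | with_reducible apply Int.leN | with_reducible_and_instances apply Int.le | with_reducible_and_instances apply Int.lt | with_reducible apply Int.all | with_reducible apply Int.ex | with_reducible apply IntF.fst | with_reducible apply IntF.snd | with_reducible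 apply IntF.app | with_reducible apply IntF.inl | with_reducible apply IntF.inr | with_reducible_and_instances apply IntF.mul | with_reducible_and_instances apply IntF.inv | with_reducible_and_instances apply IntF.add | with_reducible_and_instances apply IntF.sub | with_reducible_and_instances apply IntF.neg | with_reducible_and_instances apply IntF.smul | with_reducible apply Int.fin | with_reducible apply IntF.sep | with_reducible apply IntF.lam | with_reducible apply IntF.insert | with_reducible apply IntF.singleton | with_reducible apply IntF.union | with_reducible apply IntF.iimage | with_reducible apply IntF.ite | with_reducible apply IntF.the | with_reducible apply IntF.irec | with_reducible apply IntF.succ | with_reducible apply IntF.val | with_reducible apply IntF.mk | (with_reducible refine Int.comp ?_ ?_; assumption) | (with_reducible refine Int.comp₂ ?_ ?_ ?_; assumption) | (with_reducible refine Int.comp₃ ?_ ?_ ?_ ?_; assumption) | (with_reducible refine Int.comp₄ ?_ ?_ ?_ ?_ ?_; assumption) | (with_reducible refine IntF.comp ?_ ?_; assumption) | (with_reducible refine IntF.comp₂ ?_ ?_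 ?_; assumption) | (with_reducible refine IntF.comp₃ ?_ ?_ ?_ ?_; assumption) | with_reducible apply IntF.pair))) (IntF.comp (g := fun q : Plain.El r × Plain.El r => q.1 + q.2)
        (f := fun q : (Plain.El r × Plain.El r) × Plain.El r => (q.1.2, q.2)) h1 (by (repeat' (first | with_reducible exact IntF.id | with_reducible exact IntF.fst' | with_reducible exact IntF.snd' | with_reducible exact IntF.const _ | with_reducible exact Int.const _ | assumption | with_reducible apply Int.and | with_reducible apply Int.or | with_reducible apply Int.not | with_reducible apply Int.imp | with_reducible apply Int.iff | with_reducible apply Int.ne | with_reducible apply Int.eq | with_reducible apply Int.mem | with_reducible apply Int.subset | with_reducible apply Int.ltN | with_reducible apply Int.leN | with_reducible_and_instances apply Int.le | with_reducible_and_instances apply Int.lt | with_reducible apply Int.all | with_reducible apply Int.ex | with_reducible apply IntF.fst | with_reducible apply IntF.snd | with_reducible apply IntF.app | with_reducible apply IntF.inl | with_reducible apply IntF.inr | with_reducible_and_instances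 apply IntF.mul | with_reducible_and_instances apply IntF.inv | with_reducible_and_instances apply IntF.add | with_reducible_and_instances apply IntF.sub | with_reducible_and_instances apply IntF.neg | with_reducible_and_instances apply IntF.smul | with_reducible apply Int.fin | with_reducible apply IntF.sep | with_reducible apply IntF.lam | with_reducible apply IntF.insert | with_reducible apply IntF.singleton | with_reducible apply IntF.union | with_reducible apply IntF.iimage | with_reducible apply IntF.ite | with_reducible apply IntF.the | with_reducible apply IntF.irec | with_reducible apply IntF.succ | with_reducible apply IntF.val | with_reducible apply IntF.mk | (with_reducible refine Int.comp ?_ ?_; assumption) | (with_reducible refine Int.comp₂ ?_ ?_ ?_; assumption) | (with_reducible refine Int.comp₃ ?_ ?_ ?_ ?_; assumption) | (with_reducible refine Int.comp₄ ?_ ?_ ?_ ?_ ?_; assumption) | (with_reducible refine IntF.comp ?_ ?_; assumption) | (with_reducible refine IntF.comp₂ ?_ ?_ ?_; assumption) | (with_reducible refine IntF.comp₃ ?_ ?_ ?_ ?_; assumption) | with_reducible apply IntF.pair)))))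
  have h4 : Int N (fun q : (Plain.El r × Plain.El r) × Plain.El r => q.1.2 < q.1.1 + q.2) :=
    Int.comp (p := fun q : Plain.El r × Plain.El r => q.1 < q.2)
      (f := fun q : (Plain.El r × Plain.El r) × Plain.El r => (q.1.2, q.1.1 + q.2)) h2
      (IntF.pair (by (repeat' (first | with_reducible exact IntF.id | with_reducible exact IntF.fst' | with_reducible exact IntF.snd' | with_reducible exact IntF.const _ | with_reducible exact Int.const _ | assumption | with_reducible apply Int.and | with_reducible apply Int.or | with_reducible apply Int.not | with_reducible apply Int.imp | with_reducible apply Int.iff | with_reducible apply Int.ne | with_reducible apply Int.eq | with_reducible apply Int.mem | with_reducible apply Int.subset | with_reducible apply Int.ltN | with_reducible apply Int.leN | with_reducible_and_instances apply Int.le | with_reducible_and_instances apply Int.lt | with_reducible apply Int.all | with_reducible apply Int.ex | with_reducible apply IntF.fst | with_reducible apply IntF.snd | with_reducible apply IntF.app | with_reducible apply IntF.inl | with_reducible apply IntF.inr |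 with_reducible_and_instances apply IntF.mul | with_reducible_and_instances apply IntF.inv | with_reducible_and_instances apply IntF.add | with_reducible_and_instances apply IntF.sub | with_reducible_and_instances apply IntF.neg | with_reducible_and_instances apply IntF.smul | with_reducible apply Int.fin | with_reducible apply IntF.sep | with_reducible apply IntF.lam | with_reducible apply IntF.insert | with_reducible apply IntF.singleton | with_reducible apply IntF.union | with_reducible apply IntF.iimage | with_reducible apply IntF.ite | with_reducible apply IntF.the | with_reducible apply IntF.irec | with_reducible apply IntF.succ | with_reducible apply IntF.val | with_reducible apply IntF.mk | (with_reducible refine Int.comp ?_ ?_; assumption) | (with_reducible refine Int.comp₂ ?_ ?_ ?_; assumption) | (with_reducible refine Int.comp₃ ?_ ?_ ?_ ?_; assumption) | (with_reducible refine Int.comp₄ ?_ ?_ ?_ ?_ ?_; assumption) | (with_reducible refine IntF.comp ?_ ?_; assumption) | (with_reducible refine IntF.comp₂ ?_ ?_ ?_; assumption) | (with_reducible refine IntF.comp₃ ?_ ?_ ?_ ?_; assumption) | with_reducible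 apply IntF.pair))) (IntF.comp (g := fun q : Plain.El r × Plain.El r => q.1 + q.2)
        (f := fun q : (Plain.El r × Plain.El r) × Plain.El r => (q.1.1, q.2)) h1 (by (repeat' (first | with_reducible exact IntF.id | with_reducible exact IntF.fst' | with_reducible exact IntF.snd' | with_reducible exact IntF.const _ | with_reducible exact Int.const _ | assumption | with_reducible apply Int.and | with_reducible apply Int.or | with_reducible apply Int.not | with_reducible apply Int.imp | with_reducible apply Int.iff | with_reducible apply Int.ne | with_reducible apply Int.eq | with_reducible apply Int.mem | with_reducible apply Int.subset | with_reducible apply Int.ltN | with_reducible apply Int.leN | with_reducible_and_instances apply Int.le | with_reducible_and_instances apply Int.lt | with_reducible apply Int.all | with_reducible apply Int.ex | with_reducible apply IntF.fst | with_reducible apply IntF.snd | with_reducible apply IntF.app | with_reducible apply IntF.inl | with_reducible apply IntF.inr | with_reducible_and_instances apply IntF.mul | with_reducible_and_instances apply IntF.inv | with_reducible_and_instances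 apply IntF.add | with_reducible_and_instances apply IntF.sub | with_reducible_and_instances apply IntF.neg | with_reducible_and_instances apply IntF.smul | with_reducible apply Int.fin | with_reducible apply IntF.sep | with_reducible apply IntF.lam | with_reducible apply IntF.insert | with_reducible apply IntF.singleton | with_reducible apply IntF.union | with_reducible apply IntF.iimage | with_reducible apply IntF.ite | with_reducible apply IntF.the | with_reducible apply IntF.irec | with_reducible apply IntF.succ | with_reducible apply IntF.val | with_reducible apply IntF.mk | (with_reducible refine Int.comp ?_ ?_; assumption) | (with_reducible refine Int.comp₂ ?_ ?_ ?_; assumption) | (with_reducible refine Int.comp₃ ?_ ?_ ?_ ?_; assumption) | (with_reducible refine Int.comp₄ ?_ ?_ ?_ ?_ ?_; assumption) | (with_reducible refine IntF.comp ?_ ?_; assumption) | (with_reducible refine IntF.comp₂ ?_ ?_ ?_; assumption) | (with_reducible refine IntF.comp₃ ?_ ?_ ?_ ?_; assumption) | with_reducible apply IntF.pair)))))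
  exact (h3.and h4).congr fun q => close_iff.symm

/-- Continuous functions, inside. -/
def CtR (P : α → Prop) (O : IPow N α → Prop) (F : α → Plain.El r) : Prop :=
  ∀ z, P z → ∀ ε : Plain.El r, 0 < ε → ∃ U, O U ∧ z ∈ U ∧ ∀ w, w ∈ U → |F w - F z| < ε

theorem cont_unfold (hS : SpO N P O) {φ : Plain.El (xs (N := N) P) → Plain.El r}
    (hφ : IsContinuousIn (ts O) φ) : ∃ F : α → Plain.El r, IntF N F ∧
      (∀ (z : α) (hz : P z), F z = φ ⟨code z, (mem_xs' hS).2 hz⟩) ∧ CtR P O F := by
  classical
  obtain ⟨⟨g, hg⟩, hc⟩ := hφ
  have hIP := hS.iP
  have hF : ∀ (z : α) (hz : P z), (if hz : P z then φ ⟨code z, (mem_xs' hS).2 hz⟩ else 0) =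
      φ ⟨code z, (mem_xs' hS).2 hz⟩ := fun z hz => dif_pos hz
  refine ⟨fun z => if hz : P z then φ ⟨code z, (mem_xs' hS).2 hz⟩ else 0, ?_, hF, ?_⟩
  · refine IntF.of_rel (r := fun (z : α) (y : Plain.El r) =>
      (P z ∧ Mem (op (code z) (code y)) g) ∨ (¬ P z ∧ y = 0)) ?_ ?_
    · have h1 : Int N (fun q : α × Plain.El r => P q.1) := Int.comp (p := P)
        (f := fun q : α × Plain.El r => q.1) hIP IntF.fst'
      have h2 : Int N (fun q : α × Plain.El r => Mem (op (code q.1) (code q.2)) g) :=
        ⟨g, fun q => Iff.rfl⟩
      have h3 : Int N (fun q : α × Plain.El r => q.2 = 0) := Int.eq IntF.snd' (IntF.const _)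
      exact (h1.and h2).or (h1.not.and h3)
    · intro z y
      by_cases hz : P z
      · rw [hF z hz, hg, app_iff]
        exact ⟨fun h => h.elim (fun h => h.2) fun h => absurd hz h.1, fun h => Or.inl ⟨hz, h⟩⟩
      · rw [dif_neg hz]
        exact ⟨fun h => h.elim (fun h => absurd h.1 hz) fun h => h.2.symm,
          fun h => Or.inr ⟨hz, h.symm⟩⟩
  · intro z hz ε hε
    obtain ⟨u, hu, h1, h2⟩ := hc ⟨code z, (mem_xs' hS).2 hz⟩ ε hε
    obtain ⟨U, h3, rfl⟩ := (mem_ts hS).1 hu
    refine ⟨U, h3, mem_codeQ.1 h1, fun w hw => ?_⟩
    have hw' := hS.sub U h3 w hw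
    beta_reduce
    rw [hF w hw', hF z hz]
    exact h2 ⟨code w, (mem_xs' hS).2 hw'⟩ (mem_codeQ.2 hw)

theorem cont_fold (hS : SpO N P O) {F : α → Plain.El r} (hF : IntF N F) (hc : CtR P O F) :
    ∃ φ : Plain.El (xs (N := N) P) → Plain.El r, IsContinuousIn (ts O) φ ∧
      ∀ (z : α) (hz : P z), φ ⟨code z, (mem_xs' hS).2 hz⟩ = F z := by
  have hIP := hS.iP
  have hex : ∀ a : Plain.El (xs (N := N) P), ∃ s, P s ∧ code s = a.1 := fun a => (mem_xs hS).1 a.2
  choose s hs hs' using hex
  have h0 : ∀ (z : α) (hz : P z), s ⟨code z, (mem_xs' hS).2 hz⟩ = z := fun z hz =>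
    ITy.inj (hs' ⟨code z, (mem_xs' hS).2 hz⟩)
  have hI : Int N (fun q : α × Plain.El r => P q.1 ∧ F q.1 = q.2) := by
    have h1 : Int N (fun q : α × Plain.El r => P q.1) := Int.comp (p := P)
      (f := fun q : α × Plain.El r => q.1) hIP IntF.fst'
    exact h1.and hF
  refine ⟨fun a => F (s a), ⟨⟨relc N fun (z : α) (y : Plain.El r) => P z ∧ F z = y,
    fun a y => ?_⟩, fun a ε hε => ?_⟩, fun z hz => congrArg F (h0 z hz)⟩
  · rw [app_relc hI]
    constructor
    · intro h1
      exact ⟨s a, y, ⟨hs a, h1⟩, (hs' a).symm, rfl⟩
    · rintro ⟨z, y', ⟨h1, h2⟩, h3, h4⟩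
      obtain rfl : y = y' := Subtype.ext h4
      rw [← h2]
      exact congrArg F (ITy.inj ((hs' a).trans h3))
  · obtain ⟨U, h1, h2, h3⟩ := hc (s a) (hs a) ε hε
    refine ⟨code U, (mem_ts' hS).2 h1, ?_, fun b hb => h3 _ ?_⟩
    · rw [← hs' a]
      exact mem_codeQ.2 h2
    · rw [← hs' b] at hb
      exact mem_codeQ.1 hb

/-- Zero-sets, inside. -/
theorem zero_unfold (hS : SpO N P O) {z : N} (hz : IsZeroSet (ts O) (xs (N := N) P) z) :
    ∃ (Z : IPow N α), code Z = z ∧ (∀ s, s ∈ Z → P s) ∧
      ∃ (r : N) (_ : Field (Plain.El r)) (_ : LinearOrder (Plain.El r))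
        (_ : IsStrictOrderedRing (Plain.El r)), IsReals r ∧ ∃ F : α → Plain.El r, IntF N F ∧
          CtR P O F ∧ ∀ s, P s → (s ∈ Z ↔ F s = 0) := by
  obtain ⟨h1, r, i1, i2, i3, hr, φ, h2, h3⟩ := hz
  obtain ⟨Z, rfl, h4⟩ := exists_sub hS h1
  obtain ⟨F, h5, h6, h7⟩ := cont_unfold hS h2
  refine ⟨Z, rfl, h4, r, i1, i2, i3, hr, F, h5, h7, fun s hs => ?_⟩
  rw [h6 s hs, ← h3]
  exact mem_codeQ.symm

theorem zero_fold (hS : SpO N P O) (hr : IsReals r) {F : α → Plain.El r} (hF : IntF N F)
    (hc : CtR P O F) {Z : IPow N α} (hZs : ∀ s, s ∈ Z → P s) (hZF : ∀ s, P s → (s ∈ Z ↔ F s = 0)) :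
    IsZeroSet (ts O) (xs (N := N) P) (code Z) := by
  obtain ⟨φ, h1, h2⟩ := cont_fold hS hF hc
  refine ⟨fun y hy => ?_, r, inferInstance, inferInstance, inferInstance, hr, φ, h1, fun y => ?_⟩
  · obtain ⟨s, hs, rfl⟩ := mem_codeB.1 hy
    exact (mem_xs' hS).2 (hZs s hs)
  · obtain ⟨s, hs, hs'⟩ := (mem_xs hS).1 y.2
    obtain rfl : (⟨code s, (mem_xs' hS).2 hs⟩ : Plain.El (xs (N := N) P)) = y := Subtype.ext hs'
    rw [h2 s hs, ← hZF s hs]
    exact mem_codeQ

end

end Pool.Agent.V11257Z
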