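import Pool.Agent.V11257.Cq2
import Pool.Agent.V11257.CqDefs
import Pool.Agent.H310R3.Met
import Pool.Agent.V11257.Zr1

/-!
# Compact Hausdorff quasi-metrizable spaces are metrizable
-/

set_option maxHeartbeats 1000000
set_option linter.all false
set_option synthInstance.maxSize 2000

namespace Pool.Agent.Helper672.ZFA.V257

open FirstOrder FirstOrder.Language
open H635 (IR)
open Pool.Agent.Helper672.Plain (LSet)
open Pool.Agent.H310
open Pool.Agent.H635Amen
open Pool.Agent.H310Cards
open Pool.Agent.H310Top
open Pool.Agent.H310Metric (IsMetric)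
open Pool.Agent.V11246
open Pool.Agent.V11257Q
open Pool.Agent.V11257Z (int_addR int_leR int_ltR opGraph_iff)
open Pool.Agent.Helper672.ZFA.V246

universe u

section

attribute [local instance] Helper672.Plain.toL

variable {N : Type u} [LSet.Structure N] [hZ : Helper672.Plain.Zermelo N]

local instance instModelCq3 : IsModel N := Helper672.Plain.isModel_toL

noncomputable local instance instPElCq3 (x : N) : ITy N (Helper672.Plain.El x) :=
  (inferInstance : ITy N (El x))

variable {t x r : N}

theorem exists_codeX {u : N} (hu : ∀ z, Plain.Mem z u → Plain.Mem z x) :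
    ∃ V : IPow N (Plain.El x), code V = u :=
  exists_codeB (α := Plain.El x) (u := u) fun z hz => ⟨⟨z, hu z hz⟩, rfl⟩

theorem mem_codeX {V : IPow N (Plain.El x)} {a : Plain.El x} : Plain.Mem a.1 (code (M := N) V) ↔
    a ∈ V := mem_codeB' (a := a)

theorem qb_of [Field (Plain.El r)] [LinearOrder (Plain.El r)] [IsStrictOrderedRing (Plain.El r)]
    (hr : IsReals r) {d : Plain.El x → Plain.El x → Plain.El r} (hd : IsQuasiMetric d)
    (ht : IsMetricTop d t) (hc : IsCompact t x) (hH : IsHausdorff t x) :
    ∃ B : INat N × (Plain.El x × Plain.El x) → Prop,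
      QB B (fun V : IPow N (Plain.El x) => Mem (code V) t) := by
  obtain ⟨q, iq, h1, h2, h3⟩ := H310.exists_q hr
  obtain ⟨g, hg⟩ := hd.graph
  have id' : IntF N (fun p : Plain.El x × Plain.El x => d p.1 p.2) :=
    ⟨g, fun q => ((hg q.1.1 q.1.2 q.2).trans opGraph_iff).symm⟩
  have iB : Int N (fun p : INat N × (Plain.El x × Plain.El x) => d p.2.1 p.2.2 < q p.1) :=
    Int.comp (p := fun q : Plain.El r × Plain.El r => q.1 < q.2)
      (f := fun p : INat N × (Plain.El x × Plain.El x) => (d p.2.1 p.2.2, q p.1)) (int_ltR hr)
      (IntF.pair (IntF.comp (g := fun p : Plain.El x × Plain.El x => d p.1 p.2)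
        (f := fun p : INat N × (Plain.El x × Plain.El x) => p.2) id' (by (repeat' (first | with_reducible exact IntF.id | with_reducible exact IntF.fst' | with_reducible exact IntF.snd' | with_reducible exact IntF.const _ | with_reducible exact Int.const _ | assumption | with_reducible apply Int.and | with_reducible apply Int.or | with_reducible apply Int.not | with_reducible apply Int.imp | with_reducible apply Int.iff | with_reducible apply Int.ne | with_reducible apply Int.eq | with_reducible apply Int.mem | with_reducible apply Int.subset | with_reducible apply Int.ltN | with_reducible apply Int.leN | with_reducible_and_instances apply Int.le | with_reducible_and_instances apply Int.lt | with_reducible apply Int.all | with_reducible apply Int.ex | with_reducible apply IntF.fst | with_reducible apply IntF.snd | with_reducible apply IntF.app | with_reducible apply IntF.inl | with_reducible apply IntF.inr | with_reducible_and_instances apply IntF.mul | with_reducible_and_instances apply IntF.inv | with_reducible_and_instances apply IntF.add |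 with_reducible_and_instances apply IntF.sub | with_reducible_and_instances apply IntF.neg | with_reducible_and_instances apply IntF.smul | with_reducible apply Int.fin | with_reducible apply IntF.sep | with_reducible apply IntF.lam | with_reducible apply IntF.insert | with_reducible apply IntF.singleton | with_reducible apply IntF.union | with_reducible apply IntF.iimage | with_reducible apply IntF.ite | with_reducible apply IntF.the | with_reducible apply IntF.irec | with_reducible apply IntF.succ | with_reducible apply IntF.val | with_reducible apply IntF.mk | (with_reducible refine Int.comp ?_ ?_; assumption) | (with_reducible refine Int.comp₂ ?_ ?_ ?_; assumption) | (with_reducible refine Int.comp₃ ?_ ?_ ?_ ?_; assumption) | (with_reducible refine Int.comp₄ ?_ ?_ ?_ ?_ ?_; assumption) | (with_reducible refine IntF.comp ?_ ?_; assumption) | (with_reducible refine IntF.comp₂ ?_ ?_ ?_; assumption) | (with_reducible refine IntF.comp₃ ?_ ?_ ?_ ?_; assumption) | with_reducible apply IntF.pair))))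
        (IntF.comp (g := q) (f := fun p : INat N × (Plain.El x × Plain.El x) => p.1) iq
          (by (repeat' (first | with_reducible exact IntF.id | with_reducible exact IntF.fst' | with_reducible exact IntF.snd' | with_reducible exact IntF.const _ | with_reducible exact Int.const _ | assumption | with_reducible apply Int.and | with_reducible apply Int.or | with_reducible apply Int.not | with_reducible apply Int.imp | with_reducible apply Int.iff | with_reducible apply Int.ne | with_reducible apply Int.eq | with_reducible apply Int.mem | with_reducible apply Int.subset | with_reducible apply Int.ltN | with_reducible apply Int.leN | with_reducible_and_instances apply Int.le | with_reducible_and_instances apply Int.lt | with_reducible apply Int.all | with_reducible apply Int.ex | with_reducible apply IntF.fst | with_reducible apply IntF.snd | with_reducible apply IntF.app | with_reducible apply IntF.inl | with_reducible apply IntF.inr | with_reducible_and_instances apply IntF.mul | with_reducible_and_instances apply IntF.inv | with_reducible_and_instances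 apply IntF.add | with_reducible_and_instances apply IntF.sub | with_reducible_and_instances apply IntF.neg | with_reducible_and_instances apply IntF.smul | with_reducible apply Int.fin | with_reducible apply IntF.sep | with_reducible apply IntF.lam | with_reducible apply IntF.insert | with_reducible apply IntF.singleton | with_reducible apply IntF.union | with_reducible apply IntF.iimage | with_reducible apply IntF.ite | with_reducible apply IntF.the | with_reducible apply IntF.irec | with_reducible apply IntF.succ | with_reducible apply IntF.val | with_reducible apply IntF.mk | (with_reducible refine Int.comp ?_ ?_; assumption) | (with_reducible refine Int.comp₂ ?_ ?_ ?_; assumption) | (with_reducible refine Int.comp₃ ?_ ?_ ?_ ?_; assumption) | (with_reducible refine Int.comp₄ ?_ ?_ ?_ ?_ ?_; assumption) | (with_reducible refine IntF.comp ?_ ?_; assumption) | (with_reducible refine IntF.comp₂ ?_ ?_ ?_; assumption) | (with_reducible refine IntF.comp₃ ?_ ?_ ?_ ?_; assumption) | with_reducible apply IntF.pair)))))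
  have hle : ∀ m n, m ≤ n → q n ≤ q m := by
    intro m n hmn
    rcases hmn.lt_or_eq with h4 | h4
    · exact (h2 m n h4).le
    · rw [h4]
  have hop : ∀ V : IPow N (Plain.El x), Mem (code V) t ↔ ∀ a, a ∈ V → ∃ ε : Plain.El r, 0 < ε ∧
      ∀ b, d a b < ε → b ∈ V := by
    intro V
    refine (ht (code V)).trans ⟨fun h4 a ha => ?_, fun h4 => ⟨fun z hz => ?_, fun a ha => ?_⟩⟩
    · obtain ⟨ε, h5, h6⟩ := h4.2 a (mem_codeX.2 ha)
      exact ⟨ε, h5, fun b hb => mem_codeX.1 (h6 b hb)⟩
    · obtain ⟨a, -, rfl⟩ := mem_codeB.1 hz
      exact a.2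
    · obtain ⟨ε, h5, h6⟩ := h4 a (mem_codeX.1 ha)
      exact ⟨ε, h5, fun b hb => mem_codeX.2 (h6 b hb)⟩
  have hsub : ∀ u, Mem u t → ∀ z, Mem z u → Mem z x := fun u hu => ((ht u).1 hu).1
  refine ⟨fun p => d p.2.1 p.2.2 < q p.1, iB, fun n a => ?_, fun m n a b hmn h4 => ?_, fun n => ?_,
    fun n a b h4 => ?_, fun V => ?_, fun a b hab => ?_, fun C hC hcov => ?_⟩
  · change d a a < q n
    rw [hd.self]
    exact h1 n
  · exact lt_of_lt_of_le h4 (hle m n hmn)
  · obtain ⟨m, hm⟩ := h3 (q n / 2) (half_pos (h1 n))
    refine ⟨m, fun a b c h4 h5 => ?_⟩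
    have h6 := hd.tri a b c
    change d a b < q m at h4
    change d b c < q m at h5
    change d a c < q n
    linarith
  · change d a b < q n at h4
    obtain ⟨m, hm⟩ := h3 (q n - d a b) (by linarith)
    refine ⟨m, fun c h5 => ?_⟩
    have h6 := hd.tri a b c
    change d b c < q m at h5
    change d a c < q n
    linarith
  · refine (hop V).trans ⟨fun h4 a ha => ?_, fun h4 a ha => ?_⟩
    · obtain ⟨ε, h5, h6⟩ := h4 a ha
      obtain ⟨n, hn⟩ := h3 ε h5
      exact ⟨n, fun b hb => h6 b (lt_trans hb hn)⟩
    · obtain ⟨n, hn⟩ := h4 a ha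
      exact ⟨q n, h1 n, fun b hb => hn b hb⟩
  · obtain ⟨u, v, h4, h5, h6, h7, h8⟩ := hH a.1 b.1 a.2 b.2 fun h4 => hab (Subtype.ext h4)
    obtain ⟨V, rfl⟩ := exists_codeX (hsub u h4)
    obtain ⟨W, rfl⟩ := exists_codeX (hsub v h5)
    exact ⟨V, W, h4, h5, mem_codeX.1 h6, mem_codeX.1 h7, fun z hz hz' =>
      h8 z.1 (mem_codeX.2 hz) (mem_codeX.2 hz')⟩
  · obtain ⟨c', h4, h5, h6⟩ := hc (code C) (fun u hu => by
      obtain ⟨V, hV, rfl⟩ := mem_codeB.1 hu
      exact hC V hV) fun z hz => by
        obtain ⟨V, hV, hzV⟩ := hcov ⟨z, hz⟩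
        exact ⟨code V, mem_codeB'.2 hV, mem_codeX.2 hzV⟩
    obtain ⟨F, rfl⟩ := exists_codeB (α := IPow N (Plain.El x)) (u := c') fun z hz => by
      obtain ⟨V, -, h7⟩ := mem_codeB.1 (h5 z hz)
      exact ⟨V, h7⟩
    refine ⟨F, fin_of_isFinite h4, fun V hV => mem_codeB'.1 (h5 _ (mem_codeB'.2 hV)), fun a => ?_⟩
    obtain ⟨u, hu, hau⟩ := h6 a.1 a.2
    obtain ⟨V, hV, rfl⟩ := mem_codeB.1 hu
    exact ⟨V, hV, mem_codeX.1 hau⟩

theorem metrizable_of_qb (hsub : ∀ u, Mem u t → ∀ z, Mem z u → Mem z x)
    {B : INat N × (Plain.El x × Plain.El x) → Prop}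
    (h : QB B (fun V : IPow N (Plain.El x) => Mem (code V) t)) : IsMetrizable t x := by
  obtain ⟨ρ, iρ, h1, h2, h3, h4, h5⟩ := h.exists_metric
  obtain ⟨r, i1, i2, i3, e, he⟩ := exists_rl N
  refine ⟨r, i1, i2, i3, he.reals, fun a b => e.symm (ρ (a, b)), ⟨?_, fun a b => ?_, fun a b => ?_,
    fun a b c => ?_⟩, fun u => ⟨fun hu => ⟨hsub u hu, fun a ha => ?_⟩, fun hu => ?_⟩⟩
  · obtain ⟨g, hg⟩ := iρ
    refine ⟨g, fun a b c => ?_⟩
    refine Iff.trans ?_ opGraph_iff.symm
    have h6 := hg ((a, b), e c)
    rw [show (code (M := N) ((a, b), e c)) = op (op a.1 b.1) c.1 from by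
      rw [← he.code_e c]; rfl] at h6
    rw [h6, Equiv.symm_apply_eq]
  · rw [Equiv.symm_apply_eq, he.zero]
    exact ⟨fun h6 => h2 a b h6, fun h6 => by rw [h6]; exact h1 b⟩
  · change e.symm (ρ (a, b)) = e.symm (ρ (b, a))
    rw [h3]
  · change e.symm (ρ (a, c)) ≤ e.symm (ρ (a, b)) + e.symm (ρ (b, c))
    rw [he.le, he.add, e.apply_symm_apply, e.apply_symm_apply, e.apply_symm_apply]
    exact h4 a b c
  · obtain ⟨V, rfl⟩ := exists_codeX (hsub u hu)
    obtain ⟨ε, h6, h7⟩ := (h5 V).1 hu a (mem_codeX.1 ha)
    refine ⟨e.symm ε, ?_, fun b hb => mem_codeX.2 (h7 b ?_)⟩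
    · rwa [he.lt, he.zero, e.apply_symm_apply]
    · rwa [he.lt, e.apply_symm_apply, e.apply_symm_apply] at hb
  · obtain ⟨V, rfl⟩ := exists_codeX hu.1
    refine (h5 V).2 fun a ha => ?_
    obtain ⟨ε, h6, h7⟩ := hu.2 a (mem_codeX.2 ha)
    refine ⟨e ε, ?_, fun b hb => mem_codeX.1 (h7 b ?_)⟩
    · rwa [he.lt, he.zero] at h6
    · rwa [he.lt, e.apply_symm_apply]

theorem metrizable_of_quasi (hc : IsCompact t x) (hH : IsHausdorff t x)
    (hq : IsQuasiMetrizable t x) : IsMetrizable t x := by
  obtain ⟨r, i1, i2, i3, hr, d, hd, ht⟩ := hq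
  obtain ⟨B, hB⟩ := qb_of hr hd ht hc hH
  exact metrizable_of_qb (fun u hu => ((ht u).1 hu).1) hB

end

end Pool.Agent.Helper672.ZFA.V257
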