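import Pool.Agent.V11257.CqDefs
import Pool.Agent.V11246.CdDefs

/-!
# Countable products of quasi-metrizable and of metrizable spaces: definitions

`IsOmega`, `IsFun`, `App` and `IsFinite` are from `Pool.Agent.H310R3.Cards`, `IsTopology`,
`IsCompact` and `IsHausdorff` from `Pool.Agent.H310R3.TopDefs`, `IsCtble` (countable sets) from
`Pool.Agent.V11246.CdDefs`, and `IsQuasiMetric` and `IsMetrizable` from
`Pool.Agent.V11257.CqDefs`.
-/

namespace Pool.Agent.V11257Q

open FirstOrder FirstOrder.Language
open Pool.Agent.Helper672.Plain (LSet Mem El IsOrdPair)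
open Pool.Agent.H310Cards
open Pool.Agent.H310Top (IsTopology IsCompact IsHausdorff)
open Pool.Agent.H635Amen (IsReals)
open Pool.Agent.V11246 (IsMetricTop IsCtble)

universe u

section

variable {M : Type u} [LSet.Structure M]

/-- `d` is a quasi-metric in the stronger sense: `d a b = 0` implies `a = b`. -/
def IsQuasiMetric₁ {x r : M} [Field (El r)] [LinearOrder (El r)] (d : El x → El x → El r) :
    Prop :=
  IsQuasiMetric d ∧ ∀ a b, d a b = 0 → a = b

/-- The space is quasi-metrizable: its topology is induced by a quasi-metric `d` such that
`d a b = 0` implies `a = b`. -/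
def IsQuasiMetrizable₁ (t x : M) : Prop :=
  ∃ (r : M) (_ : Field (El r)) (_ : LinearOrder (El r)) (_ : IsStrictOrderedRing (El r)),
    IsReals r ∧ ∃ d : El x → El x → El r, IsQuasiMetric₁ d ∧ IsMetricTop d t

/-- `f` and `g` are a family of topological spaces, indexed by the set `j`: `f i` is the set of
the points and `g i` is the topology of the space with the index `i`. -/
def IsFamily (j f g : M) : Prop :=
  (∃ s, IsFun f j s) ∧ (∃ s, IsFun g j s) ∧ ∀ i x t, App f i x → App g i t → IsTopology t x

/-- `p` is the product of the family `f` of sets: the set of all functions `h` on `j` such that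
`h i` is an element of `f i` for all `i`. -/
def IsProductSet (p j f : M) : Prop :=
  ∀ h, Mem h p ↔ (∃ s, IsFun h j s) ∧ ∀ i x y, App f i x → App h i y → Mem y x

/-- `s` is the product topology on the product `p` of the family of spaces with the topologies
`g i`: a subset `u` of `p` is open if and only if for every `h` in `u` there is a finite set `b`
of pairs `(i, v)`, where `v` is an open set of the space with the index `i` and `h i` is in `v`,
such that every `h'` in `p` with `h' i` in `v` for all `(i, v)` in `b` is in `u`. -/
def IsProductTopology (s p g : M) : Prop :=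
  ∀ u, Mem u s ↔ (∀ h, Mem h u → Mem h p) ∧ ∀ h, Mem h u →
    ∃ b, IsFinite b ∧ (∀ q, Mem q b → ∃ i v t y, IsOrdPair q i v ∧ App g i t ∧ Mem v t ∧
      App h i y ∧ Mem y v) ∧
      ∀ h', Mem h' p → (∀ i v y, App b i v → App h' i y → Mem y v) → Mem h' u

end

/-- `CPM_le(C, M)`: every countable product of compact metrizable spaces is metrizable. -/
def CPMle (M : Type u) [LSet.Structure M] : Prop :=
  ∀ j f g p s : M, IsCtble j → IsFamily j f g →
    (∀ i x t, App f i x → App g i t → IsCompact t x ∧ IsMetrizable t x) →
      IsProductSet p j f → IsProductTopology s p g → IsMetrizable s p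

/-- Every countable product of compact Hausdorff quasi-metrizable spaces is metrizable, and so
quasi-metrizable. -/
def ProductsOfQuasi (M : Type u) [LSet.Structure M] : Prop :=
  ∀ j f g p s : M, IsCtble j → IsFamily j f g →
    (∀ i x t, App f i x → App g i t →
      IsCompact t x ∧ IsHausdorff t x ∧ IsQuasiMetrizable₁ t x) →
      IsProductSet p j f → IsProductTopology s p g → IsMetrizable s p ∧ IsQuasiMetrizable₁ s p

end Pool.Agent.V11257Q
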