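import Pool.Agent.V11257.Cq3
import Pool.Agent.V11257.CqDefs2

/-!
# Countable products of compact Hausdorff quasi-metrizable spaces
-/

set_option linter.all false

namespace Pool.Agent.V11257Q

open FirstOrder FirstOrder.Language
open Pool.Agent.Helper672.Plain (LSet Mem El IsOrdPair Zermelo)
open Pool.Agent.H310Cards
open Pool.Agent.H310Top (IsTopology IsCompact IsHausdorff)
open Pool.Agent.H310Metric (IsMetric)
open Pool.Agent.H635Amen (ZF IsReals)
open Pool.Agent.V11246 (IsMetricTop IsCtble)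

universe u

variable {M : Type u} [LSet.Structure M]

theorem quasi_of_quasi₁ {t x : M} (h : IsQuasiMetrizable₁ t x) : IsQuasiMetrizable t x := by
  obtain ⟨r, i1, i2, i3, hr, d, hd, ht⟩ := h
  exact ⟨r, i1, i2, i3, hr, d, hd.1, ht⟩

theorem quasi₁_of_metrizable {t x : M} (h : IsMetrizable t x) : IsQuasiMetrizable₁ t x := by
  obtain ⟨r, i1, i2, i3, hr, d, hd, ht⟩ := h
  refine ⟨r, i1, i2, i3, hr, d, ⟨⟨hd.graph, fun a b => ?_, fun a => (hd.zero a a).2 rfl, hd.tri,
    fun a b h1 _ => (hd.zero a b).1 h1⟩, fun a b h1 => (hd.zero a b).1 h1⟩, ht⟩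
  have h1 := hd.tri a b a
  rw [(hd.zero a a).2 rfl, hd.symm b a] at h1
  by_contra h2
  linarith [not_le.1 h2]

/-- In a model of Zermelo set theory, every compact Hausdorff quasi-metrizable space is
metrizable. -/
theorem metrizable (hZ : Zermelo M) {t x : M} (hc : IsCompact t x) (hH : IsHausdorff t x)
    (hq : IsQuasiMetrizable t x) : IsMetrizable t x :=
  Pool.Agent.Helper672.ZFA.V257.metrizable_of_quasi hc hH hq

theorem productsOfQuasi (hZ : Zermelo M) (h : CPMle M) : ProductsOfQuasi M := by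
  intro j f g p s hj hf h1 hp hs
  have h2 := h j f g p s hj hf (fun i x t hx ht => ⟨(h1 i x t hx ht).1, metrizable hZ
    (h1 i x t hx ht).1 (h1 i x t hx ht).2.1 (quasi_of_quasi₁ (h1 i x t hx ht).2.2)⟩) hp hs
  exact ⟨h2, quasi₁_of_metrizable h2⟩

end Pool.Agent.V11257Q
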