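import Pool.Agent.H310R3.PM5
import Pool.Agent.V11257.Mf4

/-!
# The first model of Cohen: the symmetric system and the base graph
-/

set_option maxHeartbeats 1000000
set_option linter.all false
set_option synthInstance.maxSize 2000

namespace Pool.Agent.V11257C

open FirstOrder FirstOrder.Language
open Pool.Agent.Helper672.ZFA
open Pool.Agent.Helper672.ZFA.H635 (IPerm SymSys IG WFI FEq FMem tw Good feq_of_map feq_iff IsGen
  nd nd_eq mem_nd mem_nd_nd exists_mk mk_eq_nd EqFam NN nn_ext CollL nn_zf mem_NN fmem_tw feq_tw
  tw_tw_inv SymQ extG good_extG mem_nd_inr feq_equivQ)
open Pool.Agent.Helper672.ZFA.H310M (FS fsu)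
open Pool.Agent.Helper672.Plain (LSet)
open Pool.Agent.H310

universe u

variable {M : Type u} [L.Structure M] [hM : IsModel M]

/-- The conditions: two disjoint finite sets of cells. -/
def IsCq (p : IPow M (INat M × INat M) × IPow M (INat M × INat M)) : Prop :=
  (IFin p.1 ∧ IFin p.2) ∧ ∀ c, c ∈ p.1 → ¬ c ∈ p.2

theorem int_isCq : Int M (IsCq (M := M)) := by
  unfold IsCq
  (repeat' (first | with_reducible exact IntF.id | with_reducible exact IntF.fst' | with_reducible exact IntF.snd' | with_reducible exact IntF.const _ | with_reducible exact Int.const _ | assumption | with_reducible apply Int.and | with_reducible apply Int.or | with_reducible apply Int.not | with_reducible apply Int.imp | with_reducible apply Int.iff | with_reducible apply Int.ne | with_reducible apply Int.eq | with_reducible apply Int.mem | with_reducible apply Int.subset | with_reducible apply Int.ltN | with_reducible apply Int.leN | with_reducible_and_instances apply Int.le | with_reducible_and_instances apply Int.lt | with_reducible apply Int.all | with_reducible apply Int.ex | with_reducible apply IntF.fst | with_reducible apply IntF.snd | with_reducible apply IntF.app | with_reducible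 apply IntF.inl | with_reducible apply IntF.inr | with_reducible_and_instances apply IntF.mul | with_reducible_and_instances apply IntF.inv | with_reducible_and_instances apply IntF.add | with_reducible_and_instances apply IntF.sub | with_reducible_and_instances apply IntF.neg | with_reducible_and_instances apply IntF.smul | with_reducible apply Int.fin | with_reducible apply IntF.sep | with_reducible apply IntF.lam | with_reducible apply IntF.insert | with_reducible apply IntF.singleton | with_reducible apply IntF.union | with_reducible apply IntF.iimage | with_reducible apply IntF.ite | with_reducible apply IntF.the | with_reducible apply IntF.irec | with_reducible apply IntF.succ | with_reducible apply IntF.val | with_reducible apply IntF.mk | (with_reducible refine Int.comp ?_ ?_; assumption) | (with_reducible refine Int.comp₂ ?_ ?_ ?_; assumption) | (with_reducible refine Int.comp₃ ?_ ?_ ?_ ?_; assumption) | (with_reducible refine Int.comp₄ ?_ ?_ ?_ ?_ ?_; assumption) | (with_reducible refine IntF.comp ?_ ?_; assumption) | (with_reducible refine IntF.comp₂ ?_ ?_ ?_; assumption) | (with_reducible refine IntF.comp₃ ?_ ?_ ?_ ?_; assumption) | with_reducible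 apply IntF.pair))

instance : Fact (Int M (IsCq (M := M))) := ⟨int_isCq⟩

variable (M) in
/-- The notion of forcing. -/
abbrev Cq : Type u := {p : IPow M (INat M × INat M) × IPow M (INat M × INat M) // IsCq p}

instance : Preorder (Cq M) where
  le p q := (∀ c, c ∈ q.1.1 → c ∈ p.1.1) ∧ ∀ c, c ∈ q.1.2 → c ∈ p.1.2
  le_refl _ := ⟨fun _ h => h, fun _ h => h⟩
  le_trans _ _ _ h h' := ⟨fun c hc => h.1 c (h'.1 c hc), fun c hc => h.2 c (h'.2 c hc)⟩

theorem le_defC {p q : Cq M} : p ≤ q ↔ (∀ c, c ∈ q.1.1 → c ∈ p.1.1) ∧ ∀ c, c ∈ q.1.2 → c ∈ p.1.2 :=
  Iff.rfl

instance : ILE M (Cq M) where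
  out := by
    change Int M (fun q : Cq M × Cq M => (∀ c, c ∈ q.2.1.1 → c ∈ q.1.1.1) ∧
      ∀ c, c ∈ q.2.1.2 → c ∈ q.1.1.2)
    (repeat' (first | with_reducible exact IntF.id | with_reducible exact IntF.fst' | with_reducible exact IntF.snd' | with_reducible exact IntF.const _ | with_reducible exact Int.const _ | assumption | with_reducible apply Int.and | with_reducible apply Int.or | with_reducible apply Int.not | with_reducible apply Int.imp | with_reducible apply Int.iff | with_reducible apply Int.ne | with_reducible apply Int.eq | with_reducible apply Int.mem | with_reducible apply Int.subset | with_reducible apply Int.ltN | with_reducible apply Int.leN | with_reducible_and_instances apply Int.le | with_reducible_and_instances apply Int.lt | with_reducible apply Int.all | with_reducible apply Int.ex | with_reducible apply IntF.fst | with_reducible apply IntF.snd | with_reducible apply IntF.app | with_reducible apply IntF.inl | with_reducible apply IntF.inr | with_reducible_and_instances apply IntF.mul | with_reducible_and_instances apply IntF.inv | with_reducible_and_instances apply IntF.add | with_reducible_and_instances apply IntF.sub | with_reducible_and_instances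 apply IntF.neg | with_reducible_and_instances apply IntF.smul | with_reducible apply Int.fin | with_reducible apply IntF.sep | with_reducible apply IntF.lam | with_reducible apply IntF.insert | with_reducible apply IntF.singleton | with_reducible apply IntF.union | with_reducible apply IntF.iimage | with_reducible apply IntF.ite | with_reducible apply IntF.the | with_reducible apply IntF.irec | with_reducible apply IntF.succ | with_reducible apply IntF.val | with_reducible apply IntF.mk | (with_reducible refine Int.comp ?_ ?_; assumption) | (with_reducible refine Int.comp₂ ?_ ?_ ?_; assumption) | (with_reducible refine Int.comp₃ ?_ ?_ ?_ ?_; assumption) | (with_reducible refine Int.comp₄ ?_ ?_ ?_ ?_ ?_; assumption) | (with_reducible refine IntF.comp ?_ ?_; assumption) | (with_reducible refine IntF.comp₂ ?_ ?_ ?_; assumption) | (with_reducible refine IntF.comp₃ ?_ ?_ ?_ ?_; assumption) | with_reducible apply IntF.pair))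

variable (M) in
/-- The group. -/
abbrev Gp : Type u := IPerm M (INat M)

theorem int_sc (π : Gp M) (p : IPow M (INat M × INat M)) :
    Int M (fun c : INat M × INat M => (π.1.2 c.1, c.2) ∈ p) := by
  (repeat' (first | with_reducible exact IntF.id | with_reducible exact IntF.fst' | with_reducible exact IntF.snd' | with_reducible exact IntF.const _ | with_reducible exact Int.const _ | assumption | with_reducible apply Int.and | with_reducible apply Int.or | with_reducible apply Int.not | with_reducible apply Int.imp | with_reducible apply Int.iff | with_reducible apply Int.ne | with_reducible apply Int.eq | with_reducible apply Int.mem | with_reducible apply Int.subset | with_reducible apply Int.ltN | with_reducible apply Int.leN | with_reducible_and_instances apply Int.le | with_reducible_and_instances apply Int.lt | with_reducible apply Int.all | with_reducible apply Int.ex | with_reducible apply IntF.fst | with_reducible apply IntF.snd | with_reducible apply IntF.app | with_reducible apply IntF.inl | with_reducible apply IntF.inr | with_reducible_and_instances apply IntF.mul | with_reducible_and_instances apply IntF.inv | with_reducible_and_instances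 apply IntF.add | with_reducible_and_instances apply IntF.sub | with_reducible_and_instances apply IntF.neg | with_reducible_and_instances apply IntF.smul | with_reducible apply Int.fin | with_reducible apply IntF.sep | with_reducible apply IntF.lam | with_reducible apply IntF.insert | with_reducible apply IntF.singleton | with_reducible apply IntF.union | with_reducible apply IntF.iimage | with_reducible apply IntF.ite | with_reducible apply IntF.the | with_reducible apply IntF.irec | with_reducible apply IntF.succ | with_reducible apply IntF.val | with_reducible apply IntF.mk | (with_reducible refine Int.comp ?_ ?_; assumption) | (with_reducible refine Int.comp₂ ?_ ?_ ?_; assumption) | (with_reducible refine Int.comp₃ ?_ ?_ ?_ ?_; assumption) | (with_reducible refine Int.comp₄ ?_ ?_ ?_ ?_ ?_; assumption) | (with_reducible refine IntF.comp ?_ ?_; assumption) | (with_reducible refine IntF.comp₂ ?_ ?_ ?_; assumption) | (with_reducible refine IntF.comp₃ ?_ ?_ ?_ ?_; assumption) | with_reducible apply IntF.pair))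

/-- The action on sets of cells. -/
noncomputable def sc (π : Gp M) (p : IPow M (INat M × INat M)) : IPow M (INat M × INat M) :=
  sep M fun c : INat M × INat M => (π.1.2 c.1, c.2) ∈ p

theorem mem_sc {π : Gp M} {p : IPow M (INat M × INat M)} {c : INat M × INat M} :
    c ∈ sc π p ↔ (π.1.2 c.1, c.2) ∈ p := mem_sep (int_sc π p)

theorem e1 (π : Gp M) (x : INat M) : π.1.1 (π.1.2 x) = x := π.2.1 x

theorem e2 (π : Gp M) (x : INat M) : π.1.2 (π.1.1 x) = x := π.2.2 x

theorem fin_sc {π : Gp M} {p : IPow M (INat M × INat M)} (h : IFin p) : IFin (sc π p) := by
  have hs : IntF M (fun c : INat M × INat M => (π.1.1 c.1, c.2)) := by (repeat' (first | with_reducible exact IntF.id | with_reducible exact IntF.fst' | with_reducible exact IntF.snd' | with_reducible exact IntF.const _ | with_reducible exact Int.const _ | assumption | with_reducible apply Int.and | with_reducible apply Int.or | with_reducible apply Int.not | with_reducible apply Int.imp | with_reducible apply Int.iff | with_reducible apply Int.ne | with_reducible apply Int.eq | with_reducible apply Int.mem | with_reducible apply Int.subset | with_reducible apply Int.ltN | with_reducible apply Int.leN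 | with_reducible_and_instances apply Int.le | with_reducible_and_instances apply Int.lt | with_reducible apply Int.all | with_reducible apply Int.ex | with_reducible apply IntF.fst | with_reducible apply IntF.snd | with_reducible apply IntF.app | with_reducible apply IntF.inl | with_reducible apply IntF.inr | with_reducible_and_instances apply IntF.mul | with_reducible_and_instances apply IntF.inv | with_reducible_and_instances apply IntF.add | with_reducible_and_instances apply IntF.sub | with_reducible_and_instances apply IntF.neg | with_reducible_and_instances apply IntF.smul | with_reducible apply Int.fin | with_reducible apply IntF.sep | with_reducible apply IntF.lam | with_reducible apply IntF.insert | with_reducible apply IntF.singleton | with_reducible apply IntF.union | with_reducible apply IntF.iimage | with_reducible apply IntF.ite | with_reducible apply IntF.the | with_reducible apply IntF.irec | with_reducible apply IntF.succ | with_reducible apply IntF.val | with_reducible apply IntF.mk | (with_reducible refine Int.comp ?_ ?_; assumption) | (with_reducible refine Int.comp₂ ?_ ?_ ?_; assumption) | (with_reducible refine Int.comp₃ ?_ ?_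 ?_ ?_; assumption) | (with_reducible refine Int.comp₄ ?_ ?_ ?_ ?_ ?_; assumption) | (with_reducible refine IntF.comp ?_ ?_; assumption) | (with_reducible refine IntF.comp₂ ?_ ?_ ?_; assumption) | (with_reducible refine IntF.comp₃ ?_ ?_ ?_ ?_; assumption) | with_reducible apply IntF.pair))
  refine (h.image hs).subset fun c hc => ?_
  rw [mem_sc] at hc
  rw [mem_iimage hs]
  exact ⟨_, hc, Prod.ext (e1 π c.1) rfl⟩

noncomputable instance : SMul (Gp M) (Cq M) :=
  ⟨fun π p => ⟨(sc π p.1.1, sc π p.1.2), ⟨fin_sc p.2.1.1, fin_sc p.2.1.2⟩, fun c hc hc' =>
    p.2.2 _ (mem_sc.1 hc) (mem_sc.1 hc')⟩⟩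

theorem mem_smul1 {π : Gp M} {p : Cq M} {c : INat M × INat M} :
    c ∈ (π • p).1.1 ↔ (π.1.2 c.1, c.2) ∈ p.1.1 := mem_sc

theorem mem_smul2 {π : Gp M} {p : Cq M} {c : INat M × INat M} :
    c ∈ (π • p).1.2 ↔ (π.1.2 c.1, c.2) ∈ p.1.2 := mem_sc

theorem ext_Cq {p q : Cq M} (h1 : ∀ c, c ∈ p.1.1 ↔ c ∈ q.1.1) (h2 : ∀ c, c ∈ p.1.2 ↔ c ∈ q.1.2) :
    p = q := Subtype.ext (Prod.ext (IPow.ext' h1) (IPow.ext' h2))

noncomputable instance : MulAction (Gp M) (Cq M) where
  one_smul p := ext_Cq (fun c => by rw [mem_smul1, IPerm.one_apply₂])
    fun c => by rw [mem_smul2, IPerm.one_apply₂]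
  mul_smul π σ p := ext_Cq (fun c => by rw [mem_smul1, mem_smul1, mem_smul1, IPerm.mul_apply₂])
    fun c => by rw [mem_smul2, mem_smul2, mem_smul2, IPerm.mul_apply₂]

instance : ISMul M (Gp M) (Cq M) where
  out := by
    refine IntF.of_rel (r := fun (q : Gp M × Cq M) (p : Cq M) =>
      (∀ c, c ∈ p.1.1 ↔ (q.1.1.2 c.1, c.2) ∈ q.2.1.1) ∧
      ∀ c, c ∈ p.1.2 ↔ (q.1.1.2 c.1, c.2) ∈ q.2.1.2) (by (repeat' (first | with_reducible exact IntF.id | with_reducible exact IntF.fst' | with_reducible exact IntF.snd' | with_reducible exact IntF.const _ | with_reducible exact Int.const _ | assumption | with_reducible apply Int.and | with_reducible apply Int.or | with_reducible apply Int.not | with_reducible apply Int.imp | with_reducible apply Int.iff | with_reducible apply Int.ne | with_reducible apply Int.eq | with_reducible apply Int.mem | with_reducible apply Int.subset | with_reducible apply Int.ltN | with_reducible apply Int.leN | with_reducible_and_instances apply Int.le | with_reducible_and_instances apply Int.lt | with_reducible apply Int.all | with_reducible apply Int.ex | with_reducible apply IntF.fst | with_reducible apply IntF.snd | with_reducible apply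 IntF.app | with_reducible apply IntF.inl | with_reducible apply IntF.inr | with_reducible_and_instances apply IntF.mul | with_reducible_and_instances apply IntF.inv | with_reducible_and_instances apply IntF.add | with_reducible_and_instances apply IntF.sub | with_reducible_and_instances apply IntF.neg | with_reducible_and_instances apply IntF.smul | with_reducible apply Int.fin | with_reducible apply IntF.sep | with_reducible apply IntF.lam | with_reducible apply IntF.insert | with_reducible apply IntF.singleton | with_reducible apply IntF.union | with_reducible apply IntF.iimage | with_reducible apply IntF.ite | with_reducible apply IntF.the | with_reducible apply IntF.irec | with_reducible apply IntF.succ | with_reducible apply IntF.val | with_reducible apply IntF.mk | (with_reducible refine Int.comp ?_ ?_; assumption) | (with_reducible refine Int.comp₂ ?_ ?_ ?_; assumption) | (with_reducible refine Int.comp₃ ?_ ?_ ?_ ?_; assumption) | (with_reducible refine Int.comp₄ ?_ ?_ ?_ ?_ ?_; assumption) | (with_reducible refine IntF.comp ?_ ?_; assumption) | (with_reducible refine IntF.comp₂ ?_ ?_ ?_; assumption) | (with_reducible refine IntF.comp₃ ?_ ?_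 ?_ ?_; assumption) | with_reducible apply IntF.pair))) fun q p => ?_
    constructor
    · intro h1
      exact ext_Cq (fun c => mem_smul1.trans (h1.1 c).symm) fun c => mem_smul2.trans (h1.2 c).symm
    · rintro rfl
      exact ⟨fun c => mem_smul1, fun c => mem_smul2⟩

/-- The subgroups. -/
def UC (E : FS M (INat M)) (π : Gp M) : Prop := ∀ x, x ∈ E.1 → π.1.1 x = x

/-- Images of finite sets. -/
noncomputable def fsiC (π : Gp M) (E : FS M (INat M)) : FS M (INat M) :=
  ⟨iimage (fun x => π.1.1 x) E.1, E.2.image (by (repeat' (first | with_reducible exact IntF.id | with_reducible exact IntF.fst' | with_reducible exact IntF.snd' | with_reducible exact IntF.const _ | with_reducible exact Int.const _ | assumption | with_reducible apply Int.and | with_reducible apply Int.or | with_reducible apply Int.not | with_reducible apply Int.imp | with_reducible apply Int.iff | with_reducible apply Int.ne | with_reducible apply Int.eq | with_reducible apply Int.mem | with_reducible apply Int.subset | with_reducible apply Int.ltN | with_reducible apply Int.leN | with_reducible_and_instances apply Int.le | with_reducible_and_instances apply Int.lt | with_reducible apply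 Int.all | with_reducible apply Int.ex | with_reducible apply IntF.fst | with_reducible apply IntF.snd | with_reducible apply IntF.app | with_reducible apply IntF.inl | with_reducible apply IntF.inr | with_reducible_and_instances apply IntF.mul | with_reducible_and_instances apply IntF.inv | with_reducible_and_instances apply IntF.add | with_reducible_and_instances apply IntF.sub | with_reducible_and_instances apply IntF.neg | with_reducible_and_instances apply IntF.smul | with_reducible apply Int.fin | with_reducible apply IntF.sep | with_reducible apply IntF.lam | with_reducible apply IntF.insert | with_reducible apply IntF.singleton | with_reducible apply IntF.union | with_reducible apply IntF.iimage | with_reducible apply IntF.ite | with_reducible apply IntF.the | with_reducible apply IntF.irec | with_reducible apply IntF.succ | with_reducible apply IntF.val | with_reducible apply IntF.mk | (with_reducible refine Int.comp ?_ ?_; assumption) | (with_reducible refine Int.comp₂ ?_ ?_ ?_; assumption) | (with_reducible refine Int.comp₃ ?_ ?_ ?_ ?_; assumption) | (with_reducible refine Int.comp₄ ?_ ?_ ?_ ?_ ?_; assumption) | (with_reducible refine IntF.comp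 ?_ ?_; assumption) | (with_reducible refine IntF.comp₂ ?_ ?_ ?_; assumption) | (with_reducible refine IntF.comp₃ ?_ ?_ ?_ ?_; assumption) | with_reducible apply IntF.pair)))⟩

theorem mem_fsiC {π : Gp M} {E : FS M (INat M)} {x : INat M} (h : x ∈ E.1) :
    π.1.1 x ∈ (fsiC π E).1 := by
  have h0 : IntF M (fun x => π.1.1 x) := by (repeat' (first | with_reducible exact IntF.id | with_reducible exact IntF.fst' | with_reducible exact IntF.snd' | with_reducible exact IntF.const _ | with_reducible exact Int.const _ | assumption | with_reducible apply Int.and | with_reducible apply Int.or | with_reducible apply Int.not | with_reducible apply Int.imp | with_reducible apply Int.iff | with_reducible apply Int.ne | with_reducible apply Int.eq | with_reducible apply Int.mem | with_reducible apply Int.subset | with_reducible apply Int.ltN | with_reducible apply Int.leN | with_reducible_and_instances apply Int.le | with_reducible_and_instances apply Int.lt | with_reducible apply Int.all | with_reducible apply Int.ex | with_reducible apply IntF.fst | with_reducible apply IntF.snd | with_reducible apply IntF.app | with_reducible apply IntF.inl | with_reducible apply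 IntF.inr | with_reducible_and_instances apply IntF.mul | with_reducible_and_instances apply IntF.inv | with_reducible_and_instances apply IntF.add | with_reducible_and_instances apply IntF.sub | with_reducible_and_instances apply IntF.neg | with_reducible_and_instances apply IntF.smul | with_reducible apply Int.fin | with_reducible apply IntF.sep | with_reducible apply IntF.lam | with_reducible apply IntF.insert | with_reducible apply IntF.singleton | with_reducible apply IntF.union | with_reducible apply IntF.iimage | with_reducible apply IntF.ite | with_reducible apply IntF.the | with_reducible apply IntF.irec | with_reducible apply IntF.succ | with_reducible apply IntF.val | with_reducible apply IntF.mk | (with_reducible refine Int.comp ?_ ?_; assumption) | (with_reducible refine Int.comp₂ ?_ ?_ ?_; assumption) | (with_reducible refine Int.comp₃ ?_ ?_ ?_ ?_; assumption) | (with_reducible refine Int.comp₄ ?_ ?_ ?_ ?_ ?_; assumption) | (with_reducible refine IntF.comp ?_ ?_; assumption) | (with_reducible refine IntF.comp₂ ?_ ?_ ?_; assumption) | (with_reducible refine IntF.comp₃ ?_ ?_ ?_ ?_; assumption) | with_reducible apply IntF.pair))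
  exact (mem_iimage h0).2 ⟨x, h, rfl⟩

variable (M) in
/-- The symmetric system. -/
noncomputable def CS : SymSys M (Cq M) (Gp M) (FS M (INat M)) where
  smul_le π p q h := ⟨fun c hc => mem_smul1.2 (h.1 _ (mem_smul1.1 hc)),
    fun c hc => mem_smul2.2 (h.2 _ (mem_smul2.1 hc))⟩
  U := UC
  int_U := by
    unfold UC
    (repeat' (first | with_reducible exact IntF.id | with_reducible exact IntF.fst' | with_reducible exact IntF.snd' | with_reducible exact IntF.const _ | with_reducible exact Int.const _ | assumption | with_reducible apply Int.and | with_reducible apply Int.or | with_reducible apply Int.not | with_reducible apply Int.imp | with_reducible apply Int.iff | with_reducible apply Int.ne | with_reducible apply Int.eq | with_reducible apply Int.mem | with_reducible apply Int.subset | with_reducible apply Int.ltN | with_reducible apply Int.leN | with_reducible_and_instances apply Int.le | with_reducible_and_instances apply Int.lt | with_reducible apply Int.all | with_reducible apply Int.ex | with_reducible apply IntF.fst | with_reducible apply IntF.snd | with_reducible apply IntF.app | with_reducible apply IntF.inl | with_reducible apply IntF.inr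 | with_reducible_and_instances apply IntF.mul | with_reducible_and_instances apply IntF.inv | with_reducible_and_instances apply IntF.add | with_reducible_and_instances apply IntF.sub | with_reducible_and_instances apply IntF.neg | with_reducible_and_instances apply IntF.smul | with_reducible apply Int.fin | with_reducible apply IntF.sep | with_reducible apply IntF.lam | with_reducible apply IntF.insert | with_reducible apply IntF.singleton | with_reducible apply IntF.union | with_reducible apply IntF.iimage | with_reducible apply IntF.ite | with_reducible apply IntF.the | with_reducible apply IntF.irec | with_reducible apply IntF.succ | with_reducible apply IntF.val | with_reducible apply IntF.mk | (with_reducible refine Int.comp ?_ ?_; assumption) | (with_reducible refine Int.comp₂ ?_ ?_ ?_; assumption) | (with_reducible refine Int.comp₃ ?_ ?_ ?_ ?_; assumption) | (with_reducible refine Int.comp₄ ?_ ?_ ?_ ?_ ?_; assumption) | (with_reducible refine IntF.comp ?_ ?_; assumption) | (with_reducible refine IntF.comp₂ ?_ ?_ ?_; assumption) | (with_reducible refine IntF.comp₃ ?_ ?_ ?_ ?_; assumption) | with_reducible apply IntF.pair))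
  nonempty := ⟨⟨∅, IFin.empty⟩⟩
  one _ c _ := IPerm.one_apply c
  mul _ a b ha hb c hc := by rw [IPerm.mul_apply, hb c hc, ha c hc]
  inv _ a ha c hc := by
    rw [IPerm.inv_apply]
    have h := congrArg a.1.2 (ha c hc)
    rwa [e2, eq_comm] at h
  dir l l' := ⟨fsu l l', fun a ha => ⟨fun c hc => ha c (mem_union.2 (Or.inl hc)),
    fun c hc => ha c (mem_union.2 (Or.inr hc))⟩⟩
  conj π l := by
    refine ⟨fsiC π l, fun a ha c hc => ?_⟩
    rw [IPerm.mul_apply, IPerm.mul_apply, IPerm.inv_apply, ha _ (mem_fsiC hc), e2]

/-! ### The base graph -/

variable (M) in
/-- The nodes of the base graph. -/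
abbrev BC : Type u := INat M ⊕ INat M

/-- The node of a natural number. -/
abbrev nat (n : INat M) : BC M := Sum.inl n
/-- The nodes of the generic reals. -/
abbrev cn (i : INat M) : BC M := Sum.inr i

/-- The base graph. -/
def BE (x : BC M) (p : Cq M) (y : BC M) : Prop :=
  (∃ m n, x = nat m ∧ y = nat n ∧ m < n) ∨ ∃ k i, x = nat k ∧ y = cn i ∧ (i, k) ∈ p.1.1

theorem ig_BE : IG M (BE (M := M)) := by
  unfold IG BE
  (repeat' (first | with_reducible exact IntF.id | with_reducible exact IntF.fst' | with_reducible exact IntF.snd' | with_reducible exact IntF.const _ | with_reducible exact Int.const _ | assumption | with_reducible apply Int.and | with_reducible apply Int.or | with_reducible apply Int.not | with_reducible apply Int.imp | with_reducible apply Int.iff | with_reducible apply Int.ne | with_reducible apply Int.eq | with_reducible apply Int.mem | with_reducible apply Int.subset | with_reducible apply Int.ltN | with_reducible apply Int.leN | with_reducible_and_instances apply Int.le | with_reducible_and_instances apply Int.lt | with_reducible apply Int.all | with_reducible apply Int.ex | with_reducible apply IntF.fst | with_reducible apply IntF.snd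 | with_reducible apply IntF.app | with_reducible apply IntF.inl | with_reducible apply IntF.inr | with_reducible_and_instances apply IntF.mul | with_reducible_and_instances apply IntF.inv | with_reducible_and_instances apply IntF.add | with_reducible_and_instances apply IntF.sub | with_reducible_and_instances apply IntF.neg | with_reducible_and_instances apply IntF.smul | with_reducible apply Int.fin | with_reducible apply IntF.sep | with_reducible apply IntF.lam | with_reducible apply IntF.insert | with_reducible apply IntF.singleton | with_reducible apply IntF.union | with_reducible apply IntF.iimage | with_reducible apply IntF.ite | with_reducible apply IntF.the | with_reducible apply IntF.irec | with_reducible apply IntF.succ | with_reducible apply IntF.val | with_reducible apply IntF.mk | (with_reducible refine Int.comp ?_ ?_; assumption) | (with_reducible refine Int.comp₂ ?_ ?_ ?_; assumption) | (with_reducible refine Int.comp₃ ?_ ?_ ?_ ?_; assumption) | (with_reducible refine Int.comp₄ ?_ ?_ ?_ ?_ ?_; assumption) | (with_reducible refine IntF.comp ?_ ?_; assumption) | (with_reducible refine IntF.comp₂ ?_ ?_ ?_; assumption) | (with_reducible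 refine IntF.comp₃ ?_ ?_ ?_ ?_; assumption) | with_reducible apply IntF.pair))

variable {x : BC M} {p : Cq M}

theorem BE_nat {n : INat M} : BE x p (nat n) ↔ ∃ m, x = nat m ∧ m < n := by
  unfold BE
  constructor
  · rintro (⟨m, n', rfl, h, h1⟩ | ⟨k, i', rfl, h, h1⟩)
    · cases h
      exact ⟨m, rfl, h1⟩
    · cases h
  · rintro ⟨m, rfl, h⟩
    exact Or.inl ⟨m, n, rfl, rfl, h⟩

theorem BE_cn {i : INat M} : BE x p (cn i) ↔ ∃ k, x = nat k ∧ (i, k) ∈ p.1.1 := by
  unfold BE
  constructor
  · rintro (⟨m, n', rfl, h, h1⟩ | ⟨k, i', rfl, h, h1⟩)
    · cases h
    · cases h
      exact ⟨k, rfl, h1⟩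
  · rintro ⟨m, rfl, h⟩
    exact Or.inr ⟨m, i, rfl, rfl, h⟩

theorem wf_BE : WFI M (BE (M := M)) := by
  intro s hs
  by_cases h1 : ∃ n, nat n ∈ s
  · obtain ⟨n, h2, h3⟩ := INat.exists_least (p := fun n => nat n ∈ s) (by (repeat' (first | with_reducible exact IntF.id | with_reducible exact IntF.fst' | with_reducible exact IntF.snd' | with_reducible exact IntF.const _ | with_reducible exact Int.const _ | assumption | with_reducible apply Int.and | with_reducible apply Int.or | with_reducible apply Int.not | with_reducible apply Int.imp | with_reducible apply Int.iff | with_reducible apply Int.ne | with_reducible apply Int.eq | with_reducible apply Int.mem | with_reducible apply Int.subset | with_reducible apply Int.ltN | with_reducible apply Int.leN | with_reducible_and_instances apply Int.le | with_reducible_and_instances apply Int.lt | with_reducible apply Int.all | with_reducible apply Int.ex | with_reducible apply IntF.fst | with_reducible apply IntF.snd | with_reducible apply IntF.app | with_reducible apply IntF.inl | with_reducible apply IntF.inr | with_reducible_and_instances apply IntF.mul | with_reducible_and_instances apply IntF.inv | with_reducible_and_instances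 apply IntF.add | with_reducible_and_instances apply IntF.sub | with_reducible_and_instances apply IntF.neg | with_reducible_and_instances apply IntF.smul | with_reducible apply Int.fin | with_reducible apply IntF.sep | with_reducible apply IntF.lam | with_reducible apply IntF.insert | with_reducible apply IntF.singleton | with_reducible apply IntF.union | with_reducible apply IntF.iimage | with_reducible apply IntF.ite | with_reducible apply IntF.the | with_reducible apply IntF.irec | with_reducible apply IntF.succ | with_reducible apply IntF.val | with_reducible apply IntF.mk | (with_reducible refine Int.comp ?_ ?_; assumption) | (with_reducible refine Int.comp₂ ?_ ?_ ?_; assumption) | (with_reducible refine Int.comp₃ ?_ ?_ ?_ ?_; assumption) | (with_reducible refine Int.comp₄ ?_ ?_ ?_ ?_ ?_; assumption) | (with_reducible refine IntF.comp ?_ ?_; assumption) | (with_reducible refine IntF.comp₂ ?_ ?_ ?_; assumption) | (with_reducible refine IntF.comp₃ ?_ ?_ ?_ ?_; assumption) | with_reducible apply IntF.pair))) h1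
    refine ⟨nat n, h2, fun x q hx h4 => ?_⟩
    obtain ⟨m, rfl, h5⟩ := BE_nat.1 h4
    exact absurd (h3 m hx) (not_le.2 h5)
  obtain ⟨x, hx⟩ := hs
  refine ⟨x, hx, fun y q hy h4 => ?_⟩
  rcases x with n | i
  · exact h1 ⟨n, hx⟩
  · obtain ⟨k, rfl, -⟩ := BE_cn.1 h4
    exact h1 ⟨k, hy⟩

/-- The action on nodes. -/
noncomputable def th (π : Gp M) : BC M → BC M
  | Sum.inl n => nat n
  | Sum.inr i => cn (π.1.1 i)

theorem int_th (π : Gp M) : IntF M (th π) := by
  refine IntF.of_rel (r := fun x y => (∃ n, x = nat n ∧ y = nat n) ∨
    (∃ i, x = cn i ∧ y = cn (π.1.1 i))) (by (repeat' (first | with_reducible exact IntF.id | with_reducible exact IntF.fst' | with_reducible exact IntF.snd' | with_reducible exact IntF.const _ | with_reducible exact Int.const _ | assumption | with_reducible apply Int.and | with_reducible apply Int.or | with_reducible apply Int.not | with_reducible apply Int.imp | with_reducible apply Int.iff | with_reducible apply Int.ne | with_reducible apply Int.eq | with_reducible apply Int.mem | with_reducible apply Int.subset | with_reducible apply Int.ltN | with_reducible apply Int.leN | with_reducible_and_instances apply Int.le | with_reducible_and_instances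 apply Int.lt | with_reducible apply Int.all | with_reducible apply Int.ex | with_reducible apply IntF.fst | with_reducible apply IntF.snd | with_reducible apply IntF.app | with_reducible apply IntF.inl | with_reducible apply IntF.inr | with_reducible_and_instances apply IntF.mul | with_reducible_and_instances apply IntF.inv | with_reducible_and_instances apply IntF.add | with_reducible_and_instances apply IntF.sub | with_reducible_and_instances apply IntF.neg | with_reducible_and_instances apply IntF.smul | with_reducible apply Int.fin | with_reducible apply IntF.sep | with_reducible apply IntF.lam | with_reducible apply IntF.insert | with_reducible apply IntF.singleton | with_reducible apply IntF.union | with_reducible apply IntF.iimage | with_reducible apply IntF.ite | with_reducible apply IntF.the | with_reducible apply IntF.irec | with_reducible apply IntF.succ | with_reducible apply IntF.val | with_reducible apply IntF.mk | (with_reducible refine Int.comp ?_ ?_; assumption) | (with_reducible refine Int.comp₂ ?_ ?_ ?_; assumption) | (with_reducible refine Int.comp₃ ?_ ?_ ?_ ?_; assumption) | (with_reducible refine Int.comp₄ ?_ ?_ ?_ ?_ ?_; assumption)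 | (with_reducible refine IntF.comp ?_ ?_; assumption) | (with_reducible refine IntF.comp₂ ?_ ?_ ?_; assumption) | (with_reducible refine IntF.comp₃ ?_ ?_ ?_ ?_; assumption) | with_reducible apply IntF.pair))) fun x y => ?_
  constructor
  · rintro (⟨n, rfl, rfl⟩ | ⟨n, rfl, rfl⟩) <;> rfl
  · rintro rfl
    rcases x with n | i
    · exact Or.inl ⟨n, rfl, rfl⟩
    · exact Or.inr ⟨i, rfl, rfl⟩

theorem BE_th (π : Gp M) (a b : BC M) (s : Cq M) :
    BE b s (th π a) ↔ ∃ a', th π a' = b ∧ tw π BE a' s a := by
  unfold tw
  rcases a with n | i
  · change BE b s (nat n) ↔ ∃ a', _ ∧ BE a' _ (nat n)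
    simp only [BE_nat]
    constructor
    · rintro ⟨m, rfl, h⟩
      exact ⟨nat m, rfl, m, rfl, h⟩
    · rintro ⟨_, rfl, m, rfl, h⟩
      exact ⟨m, rfl, h⟩
  · change BE b s (cn (π.1.1 i)) ↔ ∃ a', _ ∧ BE a' _ (cn i)
    simp only [BE_cn]
    constructor
    · rintro ⟨k, rfl, h2⟩
      refine ⟨nat k, rfl, k, rfl, ?_⟩
      rw [mem_smul1, IPerm.inv_apply₂]
      exact h2
    · rintro ⟨_, rfl, k, rfl, h2⟩
      refine ⟨k, rfl, ?_⟩
      rw [mem_smul1, IPerm.inv_apply₂] at h2
      exact h2

theorem feq_th (π : Gp M) (p : Cq M) (a : BC M) : FEq M (tw π BE) BE p a (th π a) :=
  feq_of_map (int_th π) (BE_th π) p a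

theorem good_BE : Good (CS M) (BE (M := M)) := by
  refine ⟨ig_BE, wf_BE, ?_⟩
  rintro (n | i)
  · exact ⟨⟨∅, IFin.empty⟩, fun π _ p => feq_th π p (nat n)⟩
  · refine ⟨⟨{i}, IFin.singleton i⟩, fun π hπ p => ?_⟩
    have h := feq_th π p (cn i)
    have h1 : π.1.1 i = i := hπ i (mem_singleton.2 rfl)
    have h2 : th π (cn i) = cn i := congrArg Sum.inr h1
    rw [h2] at h
    exact h

/-! ### Equality of nodes -/

theorem feq_nat {p : Cq M} {m n : INat M} (h : FEq M BE BE p (nat m) (nat n)) : m = n := by
  have hI := (ig_BE (M := M)).feq ig_BE
  by_contra hmn
  have hP : Int M (fun m : INat M => ∃ (n : INat M) (p : Cq M),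
      FEq M BE BE p (nat m) (nat n) ∧ m ≠ n) := by
    (repeat' (first | with_reducible exact IntF.id | with_reducible exact IntF.fst' | with_reducible exact IntF.snd' | with_reducible exact IntF.const _ | with_reducible exact Int.const _ | assumption | with_reducible apply Int.and | with_reducible apply Int.or | with_reducible apply Int.not | with_reducible apply Int.imp | with_reducible apply Int.iff | with_reducible apply Int.ne | with_reducible apply Int.eq | with_reducible apply Int.mem | with_reducible apply Int.subset | with_reducible apply Int.ltN | with_reducible apply Int.leN | with_reducible_and_instances apply Int.le | with_reducible_and_instances apply Int.lt | with_reducible apply Int.all | with_reducible apply Int.ex | with_reducible apply IntF.fst | with_reducible apply IntF.snd | with_reducible apply IntF.app | with_reducible apply IntF.inl | with_reducible apply IntF.inr | with_reducible_and_instances apply IntF.mul | with_reducible_and_instances apply IntF.inv | with_reducible_and_instances apply IntF.add | with_reducible_and_instances apply IntF.sub | with_reducible_and_instances apply IntF.neg | with_reducible_and_instances apply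 IntF.smul | with_reducible apply Int.fin | with_reducible apply IntF.sep | with_reducible apply IntF.lam | with_reducible apply IntF.insert | with_reducible apply IntF.singleton | with_reducible apply IntF.union | with_reducible apply IntF.iimage | with_reducible apply IntF.ite | with_reducible apply IntF.the | with_reducible apply IntF.irec | with_reducible apply IntF.succ | with_reducible apply IntF.val | with_reducible apply IntF.mk | (with_reducible refine Int.comp ?_ ?_; assumption) | (with_reducible refine Int.comp₂ ?_ ?_ ?_; assumption) | (with_reducible refine Int.comp₃ ?_ ?_ ?_ ?_; assumption) | (with_reducible refine Int.comp₄ ?_ ?_ ?_ ?_ ?_; assumption) | (with_reducible refine IntF.comp ?_ ?_; assumption) | (with_reducible refine IntF.comp₂ ?_ ?_ ?_; assumption) | (with_reducible refine IntF.comp₃ ?_ ?_ ?_ ?_; assumption) | with_reducible apply IntF.pair))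
  obtain ⟨m, ⟨n, p, h, hmn⟩, hmin⟩ := INat.exists_least hP ⟨m, n, p, h, hmn⟩
  obtain ⟨h1, h2⟩ := (feq_iff ig_BE ig_BE).1 h
  rcases lt_or_gt_of_ne hmn with hlt | hlt
  · obtain ⟨r, -, b, s, hb, -, h3⟩ := h2 (nat m) p (BE_nat.2 ⟨m, rfl, hlt⟩) p le_rfl le_rfl p le_rfl
    obtain ⟨m', rfl, hm'⟩ := BE_nat.1 hb
    refine absurd (hmin m' ⟨m, r, h3.symm ig_BE ig_BE, hm'.ne⟩) (not_le.2 hm')
  · obtain ⟨r, -, b, s, hb, -, h3⟩ := h1 (nat n) p (BE_nat.2 ⟨n, rfl, hlt⟩) p le_rfl le_rfl p le_rfl
    obtain ⟨n', rfl, hn'⟩ := BE_nat.1 hb
    refine absurd (hmin n ⟨n', r, h3, hn'.ne'⟩) (not_le.2 hlt)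

/-- A finite set of cells leaves almost all rows free. -/
theorem exists_free (s : IPow M (INat M × INat M)) (hs : IFin s) :
    ∃ k : INat M, ∀ i k', k ≤ k' → ¬ (i, k') ∈ s := by
  have hI : IntF M (fun c : INat M × INat M => c.2) := by (repeat' (first | with_reducible exact IntF.id | with_reducible exact IntF.fst' | with_reducible exact IntF.snd' | with_reducible exact IntF.const _ | with_reducible exact Int.const _ | assumption | with_reducible apply Int.and | with_reducible apply Int.or | with_reducible apply Int.not | with_reducible apply Int.imp | with_reducible apply Int.iff | with_reducible apply Int.ne | with_reducible apply Int.eq | with_reducible apply Int.mem | with_reducible apply Int.subset | with_reducible apply Int.ltN | with_reducible apply Int.leN | with_reducible_and_instances apply Int.le | with_reducible_and_instances apply Int.lt | with_reducible apply Int.all | with_reducible apply Int.ex | with_reducible apply IntF.fst | with_reducible apply IntF.snd | with_reducible apply IntF.app | with_reducible apply IntF.inl | with_reducible apply IntF.inr | with_reducible_and_instances apply IntF.mul | with_reducible_and_instances apply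 IntF.inv | with_reducible_and_instances apply IntF.add | with_reducible_and_instances apply IntF.sub | with_reducible_and_instances apply IntF.neg | with_reducible_and_instances apply IntF.smul | with_reducible apply Int.fin | with_reducible apply IntF.sep | with_reducible apply IntF.lam | with_reducible apply IntF.insert | with_reducible apply IntF.singleton | with_reducible apply IntF.union | with_reducible apply IntF.iimage | with_reducible apply IntF.ite | with_reducible apply IntF.the | with_reducible apply IntF.irec | with_reducible apply IntF.succ | with_reducible apply IntF.val | with_reducible apply IntF.mk | (with_reducible refine Int.comp ?_ ?_; assumption) | (with_reducible refine Int.comp₂ ?_ ?_ ?_; assumption) | (with_reducible refine Int.comp₃ ?_ ?_ ?_ ?_; assumption) | (with_reducible refine Int.comp₄ ?_ ?_ ?_ ?_ ?_; assumption) | (with_reducible refine IntF.comp ?_ ?_; assumption) | (with_reducible refine IntF.comp₂ ?_ ?_ ?_; assumption) | (with_reducible refine IntF.comp₃ ?_ ?_ ?_ ?_; assumption) | with_reducible apply IntF.pair))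
  have h1 : IFin (iimage (fun c : INat M × INat M => c.2) s) := hs.image hI
  obtain ⟨n, hn⟩ := IFin.exists_bound (r := fun m n : INat M => m < n) (by (repeat' (first | with_reducible exact IntF.id | with_reducible exact IntF.fst' | with_reducible exact IntF.snd' | with_reducible exact IntF.const _ | with_reducible exact Int.const _ | assumption | with_reducible apply Int.and | with_reducible apply Int.or | with_reducible apply Int.not | with_reducible apply Int.imp | with_reducible apply Int.iff | with_reducible apply Int.ne | with_reducible apply Int.eq | with_reducible apply Int.mem | with_reducible apply Int.subset | with_reducible apply Int.ltN | with_reducible apply Int.leN | with_reducible_and_instances apply Int.le | with_reducible_and_instances apply Int.lt | with_reducible apply Int.all | with_reducible apply Int.ex | with_reducible apply IntF.fst | with_reducible apply IntF.snd | with_reducible apply IntF.app | with_reducible apply IntF.inl | with_reducible apply IntF.inr | with_reducible_and_instances apply IntF.mul | with_reducible_and_instances apply IntF.inv | with_reducible_and_instances apply IntF.add | with_reducible_and_instances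 apply IntF.sub | with_reducible_and_instances apply IntF.neg | with_reducible_and_instances apply IntF.smul | with_reducible apply Int.fin | with_reducible apply IntF.sep | with_reducible apply IntF.lam | with_reducible apply IntF.insert | with_reducible apply IntF.singleton | with_reducible apply IntF.union | with_reducible apply IntF.iimage | with_reducible apply IntF.ite | with_reducible apply IntF.the | with_reducible apply IntF.irec | with_reducible apply IntF.succ | with_reducible apply IntF.val | with_reducible apply IntF.mk | (with_reducible refine Int.comp ?_ ?_; assumption) | (with_reducible refine Int.comp₂ ?_ ?_ ?_; assumption) | (with_reducible refine Int.comp₃ ?_ ?_ ?_ ?_; assumption) | (with_reducible refine Int.comp₄ ?_ ?_ ?_ ?_ ?_; assumption) | (with_reducible refine IntF.comp ?_ ?_; assumption) | (with_reducible refine IntF.comp₂ ?_ ?_ ?_; assumption) | (with_reducible refine IntF.comp₃ ?_ ?_ ?_ ?_; assumption) | with_reducible apply IntF.pair)))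
    (fun b c => ⟨max b c, fun a ha => ha.elim (fun h => lt_of_lt_of_le h (le_max_left _ _))
      fun h => lt_of_lt_of_le h (le_max_right _ _)⟩) ⟨0⟩ h1 fun a _ => ⟨a.succ, INat.lt_succ_self a⟩
  refine ⟨n, fun i k' hk h => ?_⟩
  have h2 := hn k' ((mem_iimage hI).2 ⟨_, h, rfl⟩)
  exact absurd (lt_of_le_of_lt hk h2) (lt_irrefl n)

/-- Adding a cell to the first set. -/
theorem exists_add1 (p : Cq M) {c : INat M × INat M} (h : ¬ c ∈ p.1.2) :
    ∃ q, q ≤ p ∧ c ∈ q.1.1 ∧ q.1.2 = p.1.2 ∧ ∀ d, d ∈ q.1.1 → d ∈ p.1.1 ∨ d = c := by
  refine ⟨⟨(insert c p.1.1, p.1.2), ⟨p.2.1.1.insert _, p.2.1.2⟩, fun d hd hd' => ?_⟩,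
    ⟨fun d hd => mem_insert.2 (Or.inr hd), fun d hd => hd⟩, mem_insert.2 (Or.inl rfl), rfl,
    fun d hd => (mem_insert.1 hd).symm⟩
  rcases mem_insert.1 hd with rfl | hd
  · exact h hd'
  · exact p.2.2 d hd hd'

/-- Adding a cell to the second set. -/
theorem exists_add2 (p : Cq M) {c : INat M × INat M} (h : ¬ c ∈ p.1.1) :
    ∃ q, q ≤ p ∧ c ∈ q.1.2 ∧ q.1.1 = p.1.1 ∧ ∀ d, d ∈ q.1.2 → d ∈ p.1.2 ∨ d = c := by
  refine ⟨⟨(p.1.1, insert c p.1.2), ⟨p.2.1.1, p.2.1.2.insert _⟩, fun d hd hd' => ?_⟩,
    ⟨fun d hd => hd, fun d hd => mem_insert.2 (Or.inr hd)⟩, mem_insert.2 (Or.inl rfl), rfl,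
    fun d hd => (mem_insert.1 hd).symm⟩
  change d ∈ insert c p.1.2 at hd'
  rcases mem_insert.1 hd' with rfl | hd'
  · exact h hd
  · exact p.2.2 d hd hd'

theorem feq_cn {p : Cq M} {i j : INat M} (h : FEq M BE BE p (cn i) (cn j)) : i = j := by
  by_contra hij
  obtain ⟨k, hk⟩ := exists_free (p.1.1 ∪ p.1.2) (p.2.1.1.union p.2.1.2)
  have hk1 : ∀ i, ¬ (i, k) ∈ p.1.1 := fun i h => hk i k le_rfl (mem_union.2 (Or.inl h))
  have hk2 : ∀ i, ¬ (i, k) ∈ p.1.2 := fun i h => hk i k le_rfl (mem_union.2 (Or.inr h))
  obtain ⟨q, hq, hq1, hq2, hq3⟩ := exists_add2 p (hk1 j)
  have hq4 : ¬ (i, k) ∈ q.1.2 := fun h => by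
    rcases hq3 _ h with h1 | h1
    · exact hk2 _ h1
    · exact hij (congrArg Prod.fst h1)
  obtain ⟨q', hq', hq1', hq2', -⟩ := exists_add1 q hq4
  obtain ⟨h1, -⟩ := (feq_iff ig_BE ig_BE).1 h
  obtain ⟨r, hr, b, s, hb, hs, h3⟩ := h1 (nat k) q' (BE_cn.2 ⟨k, rfl, hq1'⟩) q'
    (hq'.trans hq) le_rfl q' le_rfl
  obtain ⟨k', rfl, hk'⟩ := BE_cn.1 hb
  obtain rfl := feq_nat h3
  exact r.2.2 _ (hs.1 _ hk') (hr.2 _ (hq'.2 _ hq1))

end Pool.Agent.V11257C
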