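import Pool.Agent.V11257.Cr1

/-!
# The first model of Cohen: the extension
-/

set_option maxHeartbeats 1000000
set_option linter.all false
set_option synthInstance.maxSize 2000

namespace Pool.Agent.V11257C

open FirstOrder FirstOrder.Language
open Pool.Agent.Helper672
open Pool.Agent.Helper672.ZFA
open Pool.Agent.Helper672.ZFA.H635 (IPerm SymSys IG WFI FEq FMem tw Good feq_of_map feq_iff IsGen
  nd nd_eq mem_nd mem_nd_nd exists_mk mk_eq_nd EqFam NN nn_ext CollL nn_zf mem_NN fmem_tw feq_tw
  tw_tw_inv SymQ extG good_extG mem_nd_inr feq_equivQ)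
open Pool.Agent.Helper672.ZFA.H310M (FS fsu)
open Pool.Agent.Helper672.Plain (LSet)
open Pool.Agent.H310
open Pool.Agent.V11257P (swf sw sw_apply swf_left swf_right swf_of_ne swf_swf)

universe u

variable {M : Type u} [L.Structure M] [hM : IsModel M] {G : Set (Cq M)} (hG : IsGen M G)

/-- The extension. -/
abbrev NC : Type u := NN (CS M) hG

/-- The generic reals. -/
noncomputable def cc (i : INat M) : NC hG := nd hG good_BE (cn i)

/-- The natural numbers. -/
noncomputable def nn (n : INat M) : NC hG := nd hG good_BE (nat n)

theorem cc_inj {i j : INat M} : cc hG i = cc hG j ↔ i = j := by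
  refine ⟨fun h => ?_, fun h => h ▸ rfl⟩
  obtain ⟨p, -, h1⟩ := (nd_eq hG _ _).1 h
  exact feq_cn h1

theorem nn_inj {m n : INat M} : nn hG m = nn hG n ↔ m = n := by
  refine ⟨fun h => ?_, fun h => h ▸ rfl⟩
  obtain ⟨p, -, h1⟩ := (nd_eq hG _ _).1 h
  exact feq_nat h1

theorem mem_nn {w : NC hG} {n : INat M} :
    Plain.Mem w (nn hG n) ↔ ∃ m, m < n ∧ w = nn hG m := by
  unfold nn
  rw [mem_nd]
  constructor
  · rintro ⟨a, s, hs, h, rfl⟩
    obtain ⟨m, rfl, h1⟩ := BE_nat.1 h
    exact ⟨m, h1, rfl⟩
  · rintro ⟨m, h, rfl⟩
    obtain ⟨p, hp⟩ := hG.ne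
    exact ⟨_, p, hp, BE_nat.2 ⟨m, rfl, h⟩, rfl⟩

theorem mem_cc {w : NC hG} {i : INat M} :
    Plain.Mem w (cc hG i) ↔ ∃ k, w = nn hG k ∧ ∃ s, s ∈ G ∧ (i, k) ∈ s.1.1 := by
  unfold cc
  rw [mem_nd]
  constructor
  · rintro ⟨a, s, hs, h, rfl⟩
    obtain ⟨k, rfl, h1⟩ := BE_cn.1 h
    exact ⟨k, rfl, s, hs, h1⟩
  · rintro ⟨k, rfl, s, hs, h⟩
    exact ⟨_, s, hs, BE_cn.2 ⟨k, rfl, h⟩, rfl⟩

theorem mem_cc' {k i : INat M} :
    Plain.Mem (nn hG k) (cc hG i) ↔ ∃ s, s ∈ G ∧ (i, k) ∈ s.1.1 := by
  rw [mem_cc]
  constructor
  · rintro ⟨k', h, h1⟩
    rwa [(nn_inj hG).1 h]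
  · exact fun h => ⟨k, rfl, h⟩

/-- The second part of a condition of the filter. -/
theorem not_mem_cc {k i : INat M} {s : Cq M} (hs : s ∈ G) (h : (i, k) ∈ s.1.2) :
    ¬ Plain.Mem (nn hG k) (cc hG i) := by
  intro h1
  obtain ⟨t, ht, h2⟩ := (mem_cc' hG).1 h1
  obtain ⟨r, -, h3, h4⟩ := hG.dir s t hs ht
  exact r.2.2 _ (h4.1 _ h2) (h3.2 _ h)

theorem ef_cc : EqFam hG (fun (g : Gp M) i => g.1.1 i) (fun i => cc hG i) := by
  refine ⟨BC M, _, BE, good_BE, fun i => cn i, by (repeat' (first | with_reducible exact IntF.id | with_reducible exact IntF.fst' | with_reducible exact IntF.snd' | with_reducible exact IntF.const _ | with_reducible exact Int.const _ | assumption | with_reducible apply Int.and | with_reducible apply Int.or | with_reducible apply Int.not | with_reducible apply Int.imp | with_reducible apply Int.iff | with_reducible apply Int.ne | with_reducible apply Int.eq | with_reducible apply Int.mem | with_reducible apply Int.subset | with_reducible apply Int.ltN | with_reducible apply Int.leN | with_reducible_and_instances apply Int.le | with_reducible_and_instances apply Int.lt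 | with_reducible apply Int.all | with_reducible apply Int.ex | with_reducible apply IntF.fst | with_reducible apply IntF.snd | with_reducible apply IntF.app | with_reducible apply IntF.inl | with_reducible apply IntF.inr | with_reducible_and_instances apply IntF.mul | with_reducible_and_instances apply IntF.inv | with_reducible_and_instances apply IntF.add | with_reducible_and_instances apply IntF.sub | with_reducible_and_instances apply IntF.neg | with_reducible_and_instances apply IntF.smul | with_reducible apply Int.fin | with_reducible apply IntF.sep | with_reducible apply IntF.lam | with_reducible apply IntF.insert | with_reducible apply IntF.singleton | with_reducible apply IntF.union | with_reducible apply IntF.iimage | with_reducible apply IntF.ite | with_reducible apply IntF.the | with_reducible apply IntF.irec | with_reducible apply IntF.succ | with_reducible apply IntF.val | with_reducible apply IntF.mk | (with_reducible refine Int.comp ?_ ?_; assumption) | (with_reducible refine Int.comp₂ ?_ ?_ ?_; assumption) | (with_reducible refine Int.comp₃ ?_ ?_ ?_ ?_; assumption)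 | (with_reducible refine Int.comp₄ ?_ ?_ ?_ ?_ ?_; assumption) | (with_reducible refine IntF.comp ?_ ?_; assumption) | (with_reducible refine IntF.comp₂ ?_ ?_ ?_; assumption) | (with_reducible refine IntF.comp₃ ?_ ?_ ?_ ?_; assumption) | with_reducible apply IntF.pair)), fun i => rfl, fun π p c => ?_⟩
  exact feq_th π p (cn c)

theorem ef_nn : EqFam hG (fun (_ : Gp M) n => n) (fun n => nn hG n) := by
  refine ⟨BC M, _, BE, good_BE, fun n => nat n, by (repeat' (first | with_reducible exact IntF.id | with_reducible exact IntF.fst' | with_reducible exact IntF.snd' | with_reducible exact IntF.const _ | with_reducible exact Int.const _ | assumption | with_reducible apply Int.and | with_reducible apply Int.or | with_reducible apply Int.not | with_reducible apply Int.imp | with_reducible apply Int.iff | with_reducible apply Int.ne | with_reducible apply Int.eq | with_reducible apply Int.mem | with_reducible apply Int.subset | with_reducible apply Int.ltN | with_reducible apply Int.leN | with_reducible_and_instances apply Int.le | with_reducible_and_instances apply Int.lt | with_reducible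 apply Int.all | with_reducible apply Int.ex | with_reducible apply IntF.fst | with_reducible apply IntF.snd | with_reducible apply IntF.app | with_reducible apply IntF.inl | with_reducible apply IntF.inr | with_reducible_and_instances apply IntF.mul | with_reducible_and_instances apply IntF.inv | with_reducible_and_instances apply IntF.add | with_reducible_and_instances apply IntF.sub | with_reducible_and_instances apply IntF.neg | with_reducible_and_instances apply IntF.smul | with_reducible apply Int.fin | with_reducible apply IntF.sep | with_reducible apply IntF.lam | with_reducible apply IntF.insert | with_reducible apply IntF.singleton | with_reducible apply IntF.union | with_reducible apply IntF.iimage | with_reducible apply IntF.ite | with_reducible apply IntF.the | with_reducible apply IntF.irec | with_reducible apply IntF.succ | with_reducible apply IntF.val | with_reducible apply IntF.mk | (with_reducible refine Int.comp ?_ ?_; assumption) | (with_reducible refine Int.comp₂ ?_ ?_ ?_; assumption) | (with_reducible refine Int.comp₃ ?_ ?_ ?_ ?_; assumption) | (with_reducible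 refine Int.comp₄ ?_ ?_ ?_ ?_ ?_; assumption) | (with_reducible refine IntF.comp ?_ ?_; assumption) | (with_reducible refine IntF.comp₂ ?_ ?_ ?_; assumption) | (with_reducible refine IntF.comp₃ ?_ ?_ ?_ ?_; assumption) | with_reducible apply IntF.pair)), fun n => rfl, fun π p c => ?_⟩
  exact feq_th π p (nat c)

/-! ### The natural numbers -/

theorem exists_om : ∃ z : NC hG, ∀ w, Plain.Mem w z ↔ ∃ n, w = nn hG n := by
  obtain ⟨z, hz⟩ := (ef_nn hG).set (Z := fun _ => True) (Int.const _)
    ⟨⟨∅, IFin.empty⟩, fun _ _ _ _ => trivial⟩
  exact ⟨z, fun w => (hz w).trans ⟨fun ⟨c, _, h⟩ => ⟨c, h⟩, fun ⟨c, h⟩ => ⟨c, trivial, h⟩⟩⟩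

theorem mem_nn' {w : NC hG} {n : INat M} :
    Mem w (nn hG n) ↔ ∃ m, m < n ∧ w = nn hG m := mem_nn hG

theorem ext' {x y : NC hG} (h : ∀ z, Mem z x ↔ Mem z y) : x = y := nn_ext hG h

theorem isNat_nn (hC : CollL M) (n : INat M) (i : NC hG) (hi : Ind i) :
    Mem (nn hG n) i := by
  by_contra hc
  obtain ⟨o, ho⟩ := exists_om hG
  have hS : ZFA.Small {z : NC hG | Mem z o ∧ z ∈ {z | ¬ Mem z i}} :=
    small_sep (D.not (D.memf (DF.var _) (DF.const _))) o
  obtain ⟨y, hy, hmin⟩ := (nn_zf hG hC).foundation hS.elt
    ⟨nn hG n, hS.mem.2 ⟨(ho _).2 ⟨n, rfl⟩, hc⟩⟩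
  obtain ⟨h1, h2⟩ := hS.mem.1 hy
  obtain ⟨m, rfl⟩ := (ho _).1 h1
  rcases INat.eq_zero_or_succ m with rfl | ⟨k, rfl⟩
  · obtain ⟨e, he, -, h0⟩ := hi.1
    refine h2 ?_
    have : nn hG (0 : INat M) = e := ext' hG fun z => ⟨fun h => ?_, fun h => absurd h (h0 z)⟩
    · rw [this]
      exact he
    · obtain ⟨m, hm, -⟩ := (mem_nn' hG).1 h
      exact absurd hm INat.not_lt_zero
  · have hk : Mem (nn hG k) i := by
      by_contra hk
      exact hmin (nn hG k) (hS.mem.2 ⟨(ho _).2 ⟨k, rfl⟩, hk⟩)
        ((mem_nn' hG).2 ⟨k, INat.lt_succ_self k, rfl⟩)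
    obtain ⟨s, hs, -, h3⟩ := hi.2 _ hk
    refine h2 ?_
    have : nn hG k.succ = s := ext' hG fun z => by
      rw [h3 z, mem_nn', mem_nn']
      constructor
      · rintro ⟨m, hm, rfl⟩
        rcases INat.lt_succ_iff'.1 hm with hm | rfl
        · exact Or.inl ⟨m, hm, rfl⟩
        · exact Or.inr rfl
      · rintro (⟨m, hm, rfl⟩ | rfl)
        · exact ⟨m, hm.trans (INat.lt_succ_self k), rfl⟩
        · exact ⟨k, INat.lt_succ_self k, rfl⟩
    rw [this]
    exact hs

/-- The natural numbers of the extension. -/
noncomputable def nnN (hC : CollL M) (n : INat M) : INat (NC hG) :=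
  ⟨nn hG n, fun i hi => isNat_nn hG hC n i hi⟩

section

variable (hC : CollL M)

theorem nnN_val (n : INat M) : (nnN hG hC n).val = nn hG n := rfl

theorem nnN_zero : nnN hG hC 0 = 0 := by
  refine INat.ext (ext' hG fun z => ?_)
  rw [nnN_val, mem_nn']
  constructor
  · rintro ⟨m, hm, -⟩
    exact absurd hm INat.not_lt_zero
  · exact fun h => absurd h INat.not_mem_zero

theorem nnN_succ (n : INat M) : nnN hG hC n.succ = (nnN hG hC n).succ := by
  refine INat.ext (ext' hG fun z => ?_)
  rw [INat.mem_succ, nnN_val, nnN_val, mem_nn', mem_nn']
  constructor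
  · rintro ⟨m, hm, rfl⟩
    rcases INat.lt_succ_iff'.1 hm with hm | rfl
    · exact Or.inl ⟨m, hm, rfl⟩
    · exact Or.inr rfl
  · rintro (⟨m, hm, rfl⟩ | rfl)
    · exact ⟨m, hm.trans (INat.lt_succ_self n), rfl⟩
    · exact ⟨n, INat.lt_succ_self n, rfl⟩

theorem nnN_surj (m : INat (NC hG)) : ∃ n, nnN hG hC n = m := by
  obtain ⟨o, ho⟩ := exists_om hG
  have h := m.prop o ⟨⟨(0 : INat (NC hG)).val, (ho _).2 ⟨0, ?_⟩, trivial,
    fun z => INat.not_mem_zero⟩, fun z hz => ?_⟩
  · obtain ⟨n, hn⟩ := (ho _).1 h
    exact ⟨n, INat.ext hn.symm⟩
  · rw [← nnN_zero hG hC, nnN_val]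
  · obtain ⟨n, rfl⟩ := (ho _).1 hz
    refine ⟨(nnN hG hC n).succ.val, (ho _).2 ⟨n.succ, ?_⟩, trivial, fun z => INat.mem_succ⟩
    rw [← nnN_succ, nnN_val]

theorem nnN_inj {m n : INat M} : nnN hG hC m = nnN hG hC n ↔ m = n := by
  refine ⟨fun h => ?_, fun h => h ▸ rfl⟩
  have := congrArg INat.val h
  exact (nn_inj hG).1 this

theorem nnN_lt {m n : INat M} : nnN hG hC m < nnN hG hC n ↔ m < n := by
  rw [INat.lt_def, nnN_val, nnN_val, mem_nn']
  constructor
  · rintro ⟨k, hk, h⟩
    rwa [(nn_inj hG).1 h]
  · exact fun h => ⟨m, h, rfl⟩

end

/-! ### Homogeneity -/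

theorem ef_pair : EqFam hG (fun (g : Gp M) (c : INat M × INat M) => (g.1.1 c.1, c.2))
    (fun c => op (cc hG c.1) (nn hG c.2)) := by
  refine EqFam.op (fun g b => Prod.ext (g.2.2 _) rfl) ?_ ?_
  · exact (ef_cc hG).comp (φ := fun c : INat M × INat M => c.1) (by (repeat' (first | with_reducible exact IntF.id | with_reducible exact IntF.fst' | with_reducible exact IntF.snd' | with_reducible exact IntF.const _ | with_reducible exact Int.const _ | assumption | with_reducible apply Int.and | with_reducible apply Int.or | with_reducible apply Int.not | with_reducible apply Int.imp | with_reducible apply Int.iff | with_reducible apply Int.ne | with_reducible apply Int.eq | with_reducible apply Int.mem | with_reducible apply Int.subset | with_reducible apply Int.ltN | with_reducible apply Int.leN | with_reducible_and_instances apply Int.le | with_reducible_and_instances apply Int.lt | with_reducible apply Int.all | with_reducible apply Int.ex | with_reducible apply IntF.fst | with_reducible apply IntF.snd | with_reducible apply IntF.app | with_reducible apply IntF.inl | with_reducible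 apply IntF.inr | with_reducible_and_instances apply IntF.mul | with_reducible_and_instances apply IntF.inv | with_reducible_and_instances apply IntF.add | with_reducible_and_instances apply IntF.sub | with_reducible_and_instances apply IntF.neg | with_reducible_and_instances apply IntF.smul | with_reducible apply Int.fin | with_reducible apply IntF.sep | with_reducible apply IntF.lam | with_reducible apply IntF.insert | with_reducible apply IntF.singleton | with_reducible apply IntF.union | with_reducible apply IntF.iimage | with_reducible apply IntF.ite | with_reducible apply IntF.the | with_reducible apply IntF.irec | with_reducible apply IntF.succ | with_reducible apply IntF.val | with_reducible apply IntF.mk | (with_reducible refine Int.comp ?_ ?_; assumption) | (with_reducible refine Int.comp₂ ?_ ?_ ?_; assumption) | (with_reducible refine Int.comp₃ ?_ ?_ ?_ ?_; assumption) | (with_reducible refine Int.comp₄ ?_ ?_ ?_ ?_ ?_; assumption) | (with_reducible refine IntF.comp ?_ ?_; assumption) | (with_reducible refine IntF.comp₂ ?_ ?_ ?_; assumption) | (with_reducible refine IntF.comp₃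 ?_ ?_ ?_ ?_; assumption) | with_reducible apply IntF.pair))) fun g b => rfl
  · exact (ef_nn hG).comp (φ := fun c : INat M × INat M => c.2) (by (repeat' (first | with_reducible exact IntF.id | with_reducible exact IntF.fst' | with_reducible exact IntF.snd' | with_reducible exact IntF.const _ | with_reducible exact Int.const _ | assumption | with_reducible apply Int.and | with_reducible apply Int.or | with_reducible apply Int.not | with_reducible apply Int.imp | with_reducible apply Int.iff | with_reducible apply Int.ne | with_reducible apply Int.eq | with_reducible apply Int.mem | with_reducible apply Int.subset | with_reducible apply Int.ltN | with_reducible apply Int.leN | with_reducible_and_instances apply Int.le | with_reducible_and_instances apply Int.lt | with_reducible apply Int.all | with_reducible apply Int.ex | with_reducible apply IntF.fst | with_reducible apply IntF.snd | with_reducible apply IntF.app | with_reducible apply IntF.inl | with_reducible apply IntF.inr | with_reducible_and_instances apply IntF.mul | with_reducible_and_instances apply IntF.inv | with_reducible_and_instances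 apply IntF.add | with_reducible_and_instances apply IntF.sub | with_reducible_and_instances apply IntF.neg | with_reducible_and_instances apply IntF.smul | with_reducible apply Int.fin | with_reducible apply IntF.sep | with_reducible apply IntF.lam | with_reducible apply IntF.insert | with_reducible apply IntF.singleton | with_reducible apply IntF.union | with_reducible apply IntF.iimage | with_reducible apply IntF.ite | with_reducible apply IntF.the | with_reducible apply IntF.irec | with_reducible apply IntF.succ | with_reducible apply IntF.val | with_reducible apply IntF.mk | (with_reducible refine Int.comp ?_ ?_; assumption) | (with_reducible refine Int.comp₂ ?_ ?_ ?_; assumption) | (with_reducible refine Int.comp₃ ?_ ?_ ?_ ?_; assumption) | (with_reducible refine Int.comp₄ ?_ ?_ ?_ ?_ ?_; assumption) | (with_reducible refine IntF.comp ?_ ?_; assumption) | (with_reducible refine IntF.comp₂ ?_ ?_ ?_; assumption) | (with_reducible refine IntF.comp₃ ?_ ?_ ?_ ?_; assumption) | with_reducible apply IntF.pair))) fun g b => rfl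

include hG in
/-- The rows of a finite set of cells are bounded. -/
theorem exists_sep (p : Cq M) (i : INat M) : ∃ q m, q ∈ G ∧
    (∀ j, j ≠ i → (∃ k, (j, k) ∈ p.1.1 ∨ (j, k) ∈ p.1.2) → ∃ k, k < m ∧ (i, k) ∈ q.1.1 ∧
      (j, k) ∈ q.1.2) ∧ ∀ j k, m ≤ k → ¬ ((j, k) ∈ p.1.1 ∨ (j, k) ∈ p.1.2) := by
  obtain ⟨q, hq, m, h1⟩ := hG.dense (fun q => ∃ m : INat M, ∀ j, j ≠ i →
    (∃ k, (j, k) ∈ p.1.1 ∨ (j, k) ∈ p.1.2) → ∃ k, k < m ∧ (i, k) ∈ q.1.1 ∧ (j, k) ∈ q.1.2)
    (by (repeat' (first | with_reducible exact IntF.id | with_reducible exact IntF.fst' | with_reducible exact IntF.snd' | with_reducible exact IntF.const _ | with_reducible exact Int.const _ | assumption | with_reducible apply Int.and | with_reducible apply Int.or | with_reducible apply Int.not | with_reducible apply Int.imp | with_reducible apply Int.iff | with_reducible apply Int.ne | with_reducible apply Int.eq | with_reducible apply Int.mem | with_reducible apply Int.subset | with_reducible apply Int.ltN | with_reducible apply Int.leN | with_reducible_and_instances apply Int.le | with_reducible_and_instances apply Int.lt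 | with_reducible apply Int.all | with_reducible apply Int.ex | with_reducible apply IntF.fst | with_reducible apply IntF.snd | with_reducible apply IntF.app | with_reducible apply IntF.inl | with_reducible apply IntF.inr | with_reducible_and_instances apply IntF.mul | with_reducible_and_instances apply IntF.inv | with_reducible_and_instances apply IntF.add | with_reducible_and_instances apply IntF.sub | with_reducible_and_instances apply IntF.neg | with_reducible_and_instances apply IntF.smul | with_reducible apply Int.fin | with_reducible apply IntF.sep | with_reducible apply IntF.lam | with_reducible apply IntF.insert | with_reducible apply IntF.singleton | with_reducible apply IntF.union | with_reducible apply IntF.iimage | with_reducible apply IntF.ite | with_reducible apply IntF.the | with_reducible apply IntF.irec | with_reducible apply IntF.succ | with_reducible apply IntF.val | with_reducible apply IntF.mk | (with_reducible refine Int.comp ?_ ?_; assumption) | (with_reducible refine Int.comp₂ ?_ ?_ ?_; assumption) | (with_reducible refine Int.comp₃ ?_ ?_ ?_ ?_; assumption)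 | (with_reducible refine Int.comp₄ ?_ ?_ ?_ ?_ ?_; assumption) | (with_reducible refine IntF.comp ?_ ?_; assumption) | (with_reducible refine IntF.comp₂ ?_ ?_ ?_; assumption) | (with_reducible refine IntF.comp₃ ?_ ?_ ?_ ?_; assumption) | with_reducible apply IntF.pair))) fun p' => by
      obtain ⟨k, hk⟩ := exists_free (p'.1.1 ∪ p'.1.2) (p'.2.1.1.union p'.2.1.2)
      have hk1 : ∀ i, ¬ (i, k) ∈ p'.1.1 := fun i h => hk i k le_rfl (mem_union.2 (Or.inl h))
      have hk2 : ∀ i, ¬ (i, k) ∈ p'.1.2 := fun i h => hk i k le_rfl (mem_union.2 (Or.inr h))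
      have hJ : IntF M (fun c : INat M × INat M => (c.1, k)) := by (repeat' (first | with_reducible exact IntF.id | with_reducible exact IntF.fst' | with_reducible exact IntF.snd' | with_reducible exact IntF.const _ | with_reducible exact Int.const _ | assumption | with_reducible apply Int.and | with_reducible apply Int.or | with_reducible apply Int.not | with_reducible apply Int.imp | with_reducible apply Int.iff | with_reducible apply Int.ne | with_reducible apply Int.eq | with_reducible apply Int.mem | with_reducible apply Int.subset | with_reducible apply Int.ltN | with_reducible apply Int.leN | with_reducible_and_instances apply Int.le | with_reducible_and_instances apply Int.lt | with_reducible apply Int.all | with_reducible apply Int.ex | with_reducible apply IntF.fst | with_reducible apply IntF.snd | with_reducible apply IntF.app | with_reducible apply IntF.inl | with_reducible apply IntF.inr | with_reducible_and_instances apply IntF.mul | with_reducible_and_instances apply IntF.inv | with_reducible_and_instances apply IntF.add | with_reducible_and_instances apply IntF.sub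 | with_reducible_and_instances apply IntF.neg | with_reducible_and_instances apply IntF.smul | with_reducible apply Int.fin | with_reducible apply IntF.sep | with_reducible apply IntF.lam | with_reducible apply IntF.insert | with_reducible apply IntF.singleton | with_reducible apply IntF.union | with_reducible apply IntF.iimage | with_reducible apply IntF.ite | with_reducible apply IntF.the | with_reducible apply IntF.irec | with_reducible apply IntF.succ | with_reducible apply IntF.val | with_reducible apply IntF.mk | (with_reducible refine Int.comp ?_ ?_; assumption) | (with_reducible refine Int.comp₂ ?_ ?_ ?_; assumption) | (with_reducible refine Int.comp₃ ?_ ?_ ?_ ?_; assumption) | (with_reducible refine Int.comp₄ ?_ ?_ ?_ ?_ ?_; assumption) | (with_reducible refine IntF.comp ?_ ?_; assumption) | (with_reducible refine IntF.comp₂ ?_ ?_ ?_; assumption) | (with_reducible refine IntF.comp₃ ?_ ?_ ?_ ?_; assumption) | with_reducible apply IntF.pair))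
      have hfin : IFin (iimage (fun c : INat M × INat M => (c.1, k)) (p.1.1 ∪ p.1.2)) :=
        (p.2.1.1.union p.2.1.2).image hJ
      have hS : Int M (fun c : INat M × INat M => c ∈ p'.1.2 ∨
        (c ∈ (iimage (fun c : INat M × INat M => (c.1, k)) (p.1.1 ∪ p.1.2)) ∧ c.1 ≠ i)) := by (repeat' (first | with_reducible exact IntF.id | with_reducible exact IntF.fst' | with_reducible exact IntF.snd' | with_reducible exact IntF.const _ | with_reducible exact Int.const _ | assumption | with_reducible apply Int.and | with_reducible apply Int.or | with_reducible apply Int.not | with_reducible apply Int.imp | with_reducible apply Int.iff | with_reducible apply Int.ne | with_reducible apply Int.eq | with_reducible apply Int.mem | with_reducible apply Int.subset | with_reducible apply Int.ltN | with_reducible apply Int.leN | with_reducible_and_instances apply Int.le | with_reducible_and_instances apply Int.lt | with_reducible apply Int.all | with_reducible apply Int.ex | with_reducible apply IntF.fst | with_reducible apply IntF.snd | with_reducible apply IntF.app | with_reducible apply IntF.inl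 | with_reducible apply IntF.inr | with_reducible_and_instances apply IntF.mul | with_reducible_and_instances apply IntF.inv | with_reducible_and_instances apply IntF.add | with_reducible_and_instances apply IntF.sub | with_reducible_and_instances apply IntF.neg | with_reducible_and_instances apply IntF.smul | with_reducible apply Int.fin | with_reducible apply IntF.sep | with_reducible apply IntF.lam | with_reducible apply IntF.insert | with_reducible apply IntF.singleton | with_reducible apply IntF.union | with_reducible apply IntF.iimage | with_reducible apply IntF.ite | with_reducible apply IntF.the | with_reducible apply IntF.irec | with_reducible apply IntF.succ | with_reducible apply IntF.val | with_reducible apply IntF.mk | (with_reducible refine Int.comp ?_ ?_; assumption) | (with_reducible refine Int.comp₂ ?_ ?_ ?_; assumption) | (with_reducible refine Int.comp₃ ?_ ?_ ?_ ?_; assumption) | (with_reducible refine Int.comp₄ ?_ ?_ ?_ ?_ ?_; assumption) | (with_reducible refine IntF.comp ?_ ?_; assumption) | (with_reducible refine IntF.comp₂ ?_ ?_ ?_; assumption) | (with_reducible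 refine IntF.comp₃ ?_ ?_ ?_ ?_; assumption) | with_reducible apply IntF.pair))
      refine ⟨⟨(insert (i, k) p'.1.1, sep M fun c => c ∈ p'.1.2 ∨
        (c ∈ (iimage (fun c : INat M × INat M => (c.1, k)) (p.1.1 ∪ p.1.2)) ∧ c.1 ≠ i)),
        ⟨p'.2.1.1.insert _, (p'.2.1.2.union hfin).subset fun c hc => ?_⟩, fun c hc hc' => ?_⟩,
        ⟨fun c hc => mem_insert.2 (Or.inr hc), fun c hc => (mem_sep hS).2 (Or.inl hc)⟩, k.succ,
        fun j hj h => ⟨k, INat.lt_succ_self k, mem_insert.2 (Or.inl rfl), (mem_sep hS).2
          (Or.inr ⟨?_, hj⟩)⟩⟩
      · rw [mem_union]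
        rcases (mem_sep hS).1 hc with h | h
        · exact Or.inl h
        · exact Or.inr h.1
      · rcases mem_insert.1 hc with rfl | hc
        · rcases (mem_sep hS).1 hc' with h | h
          · exact hk2 _ h
          · exact h.2 rfl
        · rcases (mem_sep hS).1 hc' with h | h
          · exact p'.2.2 _ hc h
          · obtain ⟨d, -, rfl⟩ := (mem_iimage hJ).1 h.1
            exact hk1 _ hc
      · obtain ⟨l, h | h⟩ := h
        · exact (mem_iimage hJ).2 ⟨_, mem_union.2 (Or.inl h), rfl⟩
        · exact (mem_iimage hJ).2 ⟨_, mem_union.2 (Or.inr h), rfl⟩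
  obtain ⟨l, hl⟩ := exists_free (p.1.1 ∪ p.1.2) (p.2.1.1.union p.2.1.2)
  refine ⟨q, max m l, hq, fun j hj h => ?_, fun j k hk h => ?_⟩
  · obtain ⟨k, h2, h3⟩ := h1 j hj h
    exact ⟨k, lt_of_lt_of_le h2 (le_max_left _ _), h3⟩
  · exact hl j k ((le_max_right _ _).trans hk) (mem_union.2 h)

theorem int_dec {α β : Type u} [ITy M α] [ITy M β] {F : α → Cq M → α → Prop}
    {E : β → Cq M → β → Prop} (hF : IG M F) (hE : IG M E) (a : α) (b : β) :
    Int M (fun q : Cq M => FMem M F E q a b ∨ ∀ r, r ≤ q → ¬ FMem M F E r a b) := by
  have hI := hF.fmem hE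
  have hle : Int M (fun q : Cq M × Cq M => q.2 ≤ q.1) := ZFA.Int.le IntF.snd' IntF.fst'
  (repeat' (first | with_reducible exact IntF.id | with_reducible exact IntF.fst' | with_reducible exact IntF.snd' | with_reducible exact IntF.const _ | with_reducible exact Int.const _ | assumption | with_reducible apply Int.and | with_reducible apply Int.or | with_reducible apply Int.not | with_reducible apply Int.imp | with_reducible apply Int.iff | with_reducible apply Int.ne | with_reducible apply Int.eq | with_reducible apply Int.mem | with_reducible apply Int.subset | with_reducible apply Int.ltN | with_reducible apply Int.leN | with_reducible_and_instances apply Int.le | with_reducible_and_instances apply Int.lt | with_reducible apply Int.all | with_reducible apply Int.ex | with_reducible apply IntF.fst | with_reducible apply IntF.snd | with_reducible apply IntF.app | with_reducible apply IntF.inl | with_reducible apply IntF.inr | with_reducible_and_instances apply IntF.mul | with_reducible_and_instances apply IntF.inv | with_reducible_and_instances apply IntF.add | with_reducible_and_instances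 apply IntF.sub | with_reducible_and_instances apply IntF.neg | with_reducible_and_instances apply IntF.smul | with_reducible apply Int.fin | with_reducible apply IntF.sep | with_reducible apply IntF.lam | with_reducible apply IntF.insert | with_reducible apply IntF.singleton | with_reducible apply IntF.union | with_reducible apply IntF.iimage | with_reducible apply IntF.ite | with_reducible apply IntF.the | with_reducible apply IntF.irec | with_reducible apply IntF.succ | with_reducible apply IntF.val | with_reducible apply IntF.mk | (with_reducible refine Int.comp ?_ ?_; assumption) | (with_reducible refine Int.comp₂ ?_ ?_ ?_; assumption) | (with_reducible refine Int.comp₃ ?_ ?_ ?_ ?_; assumption) | (with_reducible refine Int.comp₄ ?_ ?_ ?_ ?_ ?_; assumption) | (with_reducible refine IntF.comp ?_ ?_; assumption) | (with_reducible refine IntF.comp₂ ?_ ?_ ?_; assumption) | (with_reducible refine IntF.comp₃ ?_ ?_ ?_ ?_; assumption) | with_reducible apply IntF.pair))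

/-- Homogeneity. -/
theorem star0 (z : NC hG) : ∃ E : FS M (INat M), ∀ i n, i ∉ E.1 →
    Plain.Mem (op (cc hG i) (nn hG n)) z → ∃ m, ∀ j, j ∉ E.1 →
      (∀ k, k < m → (Plain.Mem (nn hG k) (cc hG i) ↔ Plain.Mem (nn hG k) (cc hG j))) →
        Plain.Mem (op (cc hG j) (nn hG n)) z := by
  obtain ⟨x, rfl⟩ := exists_mk hG z
  obtain ⟨E, hn⟩ := x.good.sym x.root
  refine ⟨E, fun i n hi h => ?_⟩
  obtain ⟨α, _, F, hF, g₀, hg₀, h1, h2⟩ := ef_pair hG
  have h1i : op (cc hG i) (nn hG n) = nd hG hF (g₀ (i, n)) := h1 (i, n)
  rw [h1i, mk_eq_nd, mem_nd_nd] at h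
  obtain ⟨p, hp, h3⟩ := h
  obtain ⟨q₁, m, hq₁, hsep, hrow⟩ := exists_sep hG p i
  refine ⟨m, fun j hj hag => ?_⟩
  by_cases hji : j = i
  · subst hji
    rw [h1i, mk_eq_nd, mem_nd_nd]
    exact ⟨p, hp, h3⟩
  have hJ : ¬ ∃ k, (j, k) ∈ p.1.1 ∨ (j, k) ∈ p.1.2 := by
    intro hJ
    obtain ⟨k, hk, h4, h5⟩ := hsep j hji hJ
    exact not_mem_cc hG hq₁ h5 ((hag k hk).1 ((mem_cc' hG).2 ⟨q₁, hq₁, h4⟩))
  set π : Gp M := sw M i j with hπ
  have hπ1 : ∀ x, π.1.1 x = swf i j x := fun x => rfl
  have hπ2 : ∀ x, π.1.2 x = swf i j x := fun x => rfl
  have hU : (CS M).U E π := by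
    intro x hx
    rw [hπ1]
    exact swf_of_ne (fun h => hi (h ▸ hx)) fun h => hj (h ▸ hx)
  have h1j : op (cc hG j) (nn hG n) = nd hG hF (g₀ (j, n)) := h1 (j, n)
  rw [h1j, mk_eq_nd, mem_nd_nd]
  by_contra hc
  obtain ⟨q, hq, h4⟩ := hG.dense (fun q => FMem M F x.E q (g₀ (j, n)) x.root ∨
      ∀ r, r ≤ q → ¬ FMem M F x.E r (g₀ (j, n)) x.root)
    (int_dec hF.int x.int _ _)
    fun q => by
      by_cases h : ∃ r, r ≤ q ∧ FMem M F x.E r (g₀ (j, n)) x.root
      · obtain ⟨r, hr, h3⟩ := h
        exact ⟨r, hr, Or.inl h3⟩
      · exact ⟨q, le_rfl, Or.inr fun r hr h3 => h ⟨r, hr, h3⟩⟩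
  rcases h4 with h4 | h4
  · exact hc ⟨q, hq, h4⟩
  -- the conditions are compatible
  have c1 : ∀ c, c ∈ (π • p).1.1 → ¬ c ∈ q.1.2 := by
    intro c hc hc'
    rw [mem_smul1, hπ2] at hc
    by_cases hi' : c.1 = i
    · rw [hi', swf_left] at hc
      exact hJ ⟨_, Or.inl hc⟩
    · by_cases hj' : c.1 = j
      · rw [hj', swf_right] at hc
        have hlt : c.2 < m := by
          by_contra hlt
          exact hrow _ _ (not_lt.1 hlt) (Or.inl hc)
        have h5 := (hag _ hlt).1 ((mem_cc' hG).2 ⟨p, hp, hc⟩)
        have h6 : (j, c.2) ∈ q.1.2 := by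
          have e : (j, c.2) = c := Prod.ext hj'.symm rfl
          rwa [e]
        exact not_mem_cc hG hq h6 h5
      · rw [swf_of_ne hi' hj'] at hc
        obtain ⟨r, -, h5, h6⟩ := hG.dir p q hp hq
        exact r.2.2 _ (h5.1 _ hc) (h6.2 _ hc')
  have c2 : ∀ c, c ∈ q.1.1 → ¬ c ∈ (π • p).1.2 := by
    intro c hc' hc
    rw [mem_smul2, hπ2] at hc
    by_cases hi' : c.1 = i
    · rw [hi', swf_left] at hc
      exact hJ ⟨_, Or.inr hc⟩
    · by_cases hj' : c.1 = j
      · rw [hj', swf_right] at hc
        have hlt : c.2 < m := by
          by_contra hlt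
          exact hrow _ _ (not_lt.1 hlt) (Or.inr hc)
        have h6 : (j, c.2) ∈ q.1.1 := by
          have e : (j, c.2) = c := Prod.ext hj'.symm rfl
          rwa [e]
        have h5 := (hag _ hlt).2 ((mem_cc' hG).2 ⟨q, hq, h6⟩)
        exact not_mem_cc hG hp hc h5
      · rw [swf_of_ne hi' hj'] at hc
        obtain ⟨r, -, h5, h6⟩ := hG.dir p q hp hq
        exact r.2.2 _ (h6.1 _ hc') (h5.2 _ hc)
  let r : Cq M := ⟨(q.1.1 ∪ (π • p).1.1, q.1.2 ∪ (π • p).1.2),
    ⟨q.2.1.1.union (π • p).2.1.1, q.2.1.2.union (π • p).2.1.2⟩, fun c hc hc' => by
      rcases mem_union.1 hc with hc | hc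
      · rcases mem_union.1 hc' with hc' | hc'
        · exact q.2.2 c hc hc'
        · exact c2 c hc hc'
      · rcases mem_union.1 hc' with hc' | hc'
        · exact c1 c hc hc'
        · exact (π • p).2.2 c hc hc'⟩
  have hr : r ≤ q := ⟨fun c hc => mem_union.2 (Or.inl hc), fun c hc => mem_union.2 (Or.inl hc)⟩
  have hr' : r ≤ π • p := ⟨fun c hc => mem_union.2 (Or.inr hc),
    fun c hc => mem_union.2 (Or.inr hc)⟩
  refine h4 r hr ?_
  have h7 := (fmem_tw (CS M) π h3).mono hr'
  have h8 : FEq M (tw π F) F r (g₀ (i, n)) (g₀ (π.1.1 i, n)) := h2 π r (i, n)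
  rw [hπ1, swf_left] at h8
  exact FMem.congr_left hF.int (hF.int.tw π) x.int (h8.symm (hF.int.tw π) hF.int)
    (FMem.congr_right (hF.int.tw π) (x.int.tw π) x.int h7 (hn π hU r))

end Pool.Agent.V11257C
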