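import Pool.Agent.V11257.Cr2

/-!
# The first model of Cohen: the set of the Cohen reals
-/

set_option maxHeartbeats 1000000
set_option linter.all false
set_option synthInstance.maxSize 2000

namespace Pool.Agent.V11257C

open FirstOrder FirstOrder.Language
open Pool.Agent.Helper672
open Pool.Agent.Helper672.ZFA
open Pool.Agent.Helper672.ZFA.H635 (IPerm SymSys IG WFI FEq FMem tw Good feq_of_map feq_iff IsGen
  nd nd_eq mem_nd mem_nd_nd exists_mk mk_eq_nd EqFam NN nn_ext CollL nn_zf mem_NN fmem_tw feq_tw
  tw_tw_inv SymQ extG good_extG mem_nd_inr feq_equivQ isModel_of_zermelo coll_of_zf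
  exists_countable_sub toL)
open Pool.Agent.Helper672.ZFA.H310M (FS fsu)
open Pool.Agent.Helper672.Plain (LSet)
open Pool.Agent.H310
open Pool.Agent.H635Amen (ZF)
open Pool.Agent.V11257P (swf sw sw_apply swf_left swf_right swf_of_ne swf_swf)

universe u

/-- The structure in the model. -/
structure CR (N : Type u) [L.Structure N] [IsModel N] (Dd : IPow N (INat N) → Prop) : Prop where
  int : Int N Dd
  ne : ∃ x, Dd x
  flip : ∀ x m, Dd x → ∃ y, Dd y ∧ (∀ k, k < m → (k ∈ x ↔ k ∈ y)) ∧ ¬ (m ∈ x ↔ m ∈ y)
  star : ∀ W : IPow N (INat N) × INat N → Prop, Int N W →
    ∃ E : IPow N (IPow N (INat N)), IFin E ∧ ∀ x n, Dd x → x ∉ E → W (x, n) →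
      ∃ m, ∀ y, Dd y → y ∉ E → (∀ k, k < m → (k ∈ x ↔ k ∈ y)) → W (y, n)

variable {M : Type u} [L.Structure M] [hM : IsModel M] {G : Set (Cq M)} (hG : IsGen M G)

/-- The generic reals. -/
noncomputable def cR (i : INat M) : IPow (NC hG) (INat (NC hG)) :=
  ⟨fun k => Mem k.val (cc hG i), ⟨cc hG i, fun k => Iff.rfl⟩⟩

theorem mem_cR {i : INat M} {k : INat (NC hG)} : k ∈ cR hG i ↔ Mem k.val (cc hG i) := Iff.rfl

/-- Genericity. -/
theorem exists_flip (i m : INat M) : ∃ j, (∀ k, k < m →
    (Plain.Mem (nn hG k) (cc hG i) ↔ Plain.Mem (nn hG k) (cc hG j))) ∧
      ¬ (Plain.Mem (nn hG m) (cc hG i) ↔ Plain.Mem (nn hG m) (cc hG j)) := by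
  obtain ⟨q, hq, j, h1, h2⟩ := hG.dense (fun q => ∃ j : INat M,
    (∀ k, k < m → ((i, k) ∈ q.1.1 ∧ (j, k) ∈ q.1.1) ∨ ((i, k) ∈ q.1.2 ∧ (j, k) ∈ q.1.2)) ∧
      (((i, m) ∈ q.1.1 ∧ (j, m) ∈ q.1.2) ∨ ((i, m) ∈ q.1.2 ∧ (j, m) ∈ q.1.1)))
    (by (repeat' (first | with_reducible exact IntF.id | with_reducible exact IntF.fst' | with_reducible exact IntF.snd' | with_reducible exact IntF.const _ | with_reducible exact Int.const _ | assumption | with_reducible apply Int.and | with_reducible apply Int.or | with_reducible apply Int.not | with_reducible apply Int.imp | with_reducible apply Int.iff | with_reducible apply Int.ne | with_reducible apply Int.eq | with_reducible apply Int.mem | with_reducible apply Int.subset | with_reducible apply Int.ltN | with_reducible apply Int.leN | with_reducible_and_instances apply Int.le | with_reducible_and_instances apply Int.lt | with_reducible apply Int.all | with_reducible apply Int.ex | with_reducible apply IntF.fst | with_reducible apply IntF.snd | with_reducible apply IntF.app | with_reducible apply IntF.inl | with_reducible apply IntF.inr | with_reducible_and_instances apply IntF.mul | with_reducible_and_instances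 apply IntF.inv | with_reducible_and_instances apply IntF.add | with_reducible_and_instances apply IntF.sub | with_reducible_and_instances apply IntF.neg | with_reducible_and_instances apply IntF.smul | with_reducible apply Int.fin | with_reducible apply IntF.sep | with_reducible apply IntF.lam | with_reducible apply IntF.insert | with_reducible apply IntF.singleton | with_reducible apply IntF.union | with_reducible apply IntF.iimage | with_reducible apply IntF.ite | with_reducible apply IntF.the | with_reducible apply IntF.irec | with_reducible apply IntF.succ | with_reducible apply IntF.val | with_reducible apply IntF.mk | (with_reducible refine Int.comp ?_ ?_; assumption) | (with_reducible refine Int.comp₂ ?_ ?_ ?_; assumption) | (with_reducible refine Int.comp₃ ?_ ?_ ?_ ?_; assumption) | (with_reducible refine Int.comp₄ ?_ ?_ ?_ ?_ ?_; assumption) | (with_reducible refine IntF.comp ?_ ?_; assumption) | (with_reducible refine IntF.comp₂ ?_ ?_ ?_; assumption) | (with_reducible refine IntF.comp₃ ?_ ?_ ?_ ?_; assumption) | with_reducible apply IntF.pair))) fun p => by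
      obtain ⟨j, hj⟩ : ∃ j : INat M, ∀ j' k, j ≤ j' → ¬ (j', k) ∈ p.1.1 ∪ p.1.2 := by
        have hI : IntF M (fun c : INat M × INat M => c.1) := by (repeat' (first | with_reducible exact IntF.id | with_reducible exact IntF.fst' | with_reducible exact IntF.snd' | with_reducible exact IntF.const _ | with_reducible exact Int.const _ | assumption | with_reducible apply Int.and | with_reducible apply Int.or | with_reducible apply Int.not | with_reducible apply Int.imp | with_reducible apply Int.iff | with_reducible apply Int.ne | with_reducible apply Int.eq | with_reducible apply Int.mem | with_reducible apply Int.subset | with_reducible apply Int.ltN | with_reducible apply Int.leN | with_reducible_and_instances apply Int.le | with_reducible_and_instances apply Int.lt | with_reducible apply Int.all | with_reducible apply Int.ex | with_reducible apply IntF.fst | with_reducible apply IntF.snd | with_reducible apply IntF.app | with_reducible apply IntF.inl | with_reducible apply IntF.inr | with_reducible_and_instances apply IntF.mul | with_reducible_and_instances apply IntF.inv | with_reducible_and_instances apply IntF.add | with_reducible_and_instances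 apply IntF.sub | with_reducible_and_instances apply IntF.neg | with_reducible_and_instances apply IntF.smul | with_reducible apply Int.fin | with_reducible apply IntF.sep | with_reducible apply IntF.lam | with_reducible apply IntF.insert | with_reducible apply IntF.singleton | with_reducible apply IntF.union | with_reducible apply IntF.iimage | with_reducible apply IntF.ite | with_reducible apply IntF.the | with_reducible apply IntF.irec | with_reducible apply IntF.succ | with_reducible apply IntF.val | with_reducible apply IntF.mk | (with_reducible refine Int.comp ?_ ?_; assumption) | (with_reducible refine Int.comp₂ ?_ ?_ ?_; assumption) | (with_reducible refine Int.comp₃ ?_ ?_ ?_ ?_; assumption) | (with_reducible refine Int.comp₄ ?_ ?_ ?_ ?_ ?_; assumption) | (with_reducible refine IntF.comp ?_ ?_; assumption) | (with_reducible refine IntF.comp₂ ?_ ?_ ?_; assumption) | (with_reducible refine IntF.comp₃ ?_ ?_ ?_ ?_; assumption) | with_reducible apply IntF.pair))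
        have h1 : IFin (iimage (fun c : INat M × INat M => c.1) (p.1.1 ∪ p.1.2)) :=
          (p.2.1.1.union p.2.1.2).image hI
        obtain ⟨n, hn⟩ := IFin.exists_bound (r := fun m n : INat M => m < n) (by (repeat' (first | with_reducible exact IntF.id | with_reducible exact IntF.fst' | with_reducible exact IntF.snd' | with_reducible exact IntF.const _ | with_reducible exact Int.const _ | assumption | with_reducible apply Int.and | with_reducible apply Int.or | with_reducible apply Int.not | with_reducible apply Int.imp | with_reducible apply Int.iff | with_reducible apply Int.ne | with_reducible apply Int.eq | with_reducible apply Int.mem | with_reducible apply Int.subset | with_reducible apply Int.ltN | with_reducible apply Int.leN | with_reducible_and_instances apply Int.le | with_reducible_and_instances apply Int.lt | with_reducible apply Int.all | with_reducible apply Int.ex | with_reducible apply IntF.fst | with_reducible apply IntF.snd | with_reducible apply IntF.app | with_reducible apply IntF.inl | with_reducible apply IntF.inr | with_reducible_and_instances apply IntF.mul | with_reducible_and_instances apply IntF.inv | with_reducible_and_instances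 apply IntF.add | with_reducible_and_instances apply IntF.sub | with_reducible_and_instances apply IntF.neg | with_reducible_and_instances apply IntF.smul | with_reducible apply Int.fin | with_reducible apply IntF.sep | with_reducible apply IntF.lam | with_reducible apply IntF.insert | with_reducible apply IntF.singleton | with_reducible apply IntF.union | with_reducible apply IntF.iimage | with_reducible apply IntF.ite | with_reducible apply IntF.the | with_reducible apply IntF.irec | with_reducible apply IntF.succ | with_reducible apply IntF.val | with_reducible apply IntF.mk | (with_reducible refine Int.comp ?_ ?_; assumption) | (with_reducible refine Int.comp₂ ?_ ?_ ?_; assumption) | (with_reducible refine Int.comp₃ ?_ ?_ ?_ ?_; assumption) | (with_reducible refine Int.comp₄ ?_ ?_ ?_ ?_ ?_; assumption) | (with_reducible refine IntF.comp ?_ ?_; assumption) | (with_reducible refine IntF.comp₂ ?_ ?_ ?_; assumption) | (with_reducible refine IntF.comp₃ ?_ ?_ ?_ ?_; assumption) | with_reducible apply IntF.pair)))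
          (fun b c => ⟨max b c, fun a ha => ha.elim (fun h => lt_of_lt_of_le h (le_max_left _ _))
            fun h => lt_of_lt_of_le h (le_max_right _ _)⟩) ⟨0⟩ h1
            fun a _ => ⟨a.succ, INat.lt_succ_self a⟩
        refine ⟨n, fun i k' hk h => ?_⟩
        have h2 := hn i ((mem_iimage hI).2 ⟨_, h, rfl⟩)
        exact absurd (lt_of_le_of_lt hk h2) (lt_irrefl n)
      obtain ⟨j', hj', hji⟩ : ∃ j', (∀ k, ¬ (j', k) ∈ p.1.1 ∪ p.1.2) ∧ j' ≠ i := by
        by_cases h : j = i
        · refine ⟨j.succ, fun k => hj _ k (INat.lt_succ_self j).le, fun h' => ?_⟩
          rw [h] at h'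
          exact absurd (INat.lt_succ_self i) (by rw [h']; exact lt_irrefl _)
        · exact ⟨j, fun k => hj _ k le_rfl, h⟩
      have hj1 : ∀ k, ¬ (j', k) ∈ p.1.1 := fun k h => hj' k (mem_union.2 (Or.inl h))
      have hj2 : ∀ k, ¬ (j', k) ∈ p.1.2 := fun k h => hj' k (mem_union.2 (Or.inr h))
      have iA : Int M (fun c : INat M × INat M => c ∈ p.1.1 ∨
        (c.1 = j' ∧ c.2 < m ∧ (i, c.2) ∈ p.1.1) ∨ (c = (j', m) ∧ (i, m) ∉ p.1.1)) := by (repeat' (first | with_reducible exact IntF.id | with_reducible exact IntF.fst' | with_reducible exact IntF.snd' | with_reducible exact IntF.const _ | with_reducible exact Int.const _ | assumption | with_reducible apply Int.and | with_reducible apply Int.or | with_reducible apply Int.not | with_reducible apply Int.imp | with_reducible apply Int.iff | with_reducible apply Int.ne | with_reducible apply Int.eq | with_reducible apply Int.mem | with_reducible apply Int.subset | with_reducible apply Int.ltN | with_reducible apply Int.leN | with_reducible_and_instances apply Int.le | with_reducible_and_instances apply Int.lt | with_reducible apply Int.all | with_reducible apply Int.ex | with_reducible apply IntF.fst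 | with_reducible apply IntF.snd | with_reducible apply IntF.app | with_reducible apply IntF.inl | with_reducible apply IntF.inr | with_reducible_and_instances apply IntF.mul | with_reducible_and_instances apply IntF.inv | with_reducible_and_instances apply IntF.add | with_reducible_and_instances apply IntF.sub | with_reducible_and_instances apply IntF.neg | with_reducible_and_instances apply IntF.smul | with_reducible apply Int.fin | with_reducible apply IntF.sep | with_reducible apply IntF.lam | with_reducible apply IntF.insert | with_reducible apply IntF.singleton | with_reducible apply IntF.union | with_reducible apply IntF.iimage | with_reducible apply IntF.ite | with_reducible apply IntF.the | with_reducible apply IntF.irec | with_reducible apply IntF.succ | with_reducible apply IntF.val | with_reducible apply IntF.mk | (with_reducible refine Int.comp ?_ ?_; assumption) | (with_reducible refine Int.comp₂ ?_ ?_ ?_; assumption) | (with_reducible refine Int.comp₃ ?_ ?_ ?_ ?_; assumption) | (with_reducible refine Int.comp₄ ?_ ?_ ?_ ?_ ?_; assumption) | (with_reducible refine IntF.comp ?_ ?_; assumption) | (with_reducible refine IntF.comp₂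 ?_ ?_ ?_; assumption) | (with_reducible refine IntF.comp₃ ?_ ?_ ?_ ?_; assumption) | with_reducible apply IntF.pair))
      have iB : Int M (fun c : INat M × INat M => c ∈ p.1.2 ∨
        (c.1 = i ∧ c.2 < m.succ ∧ (i, c.2) ∉ p.1.1) ∨ (c.1 = j' ∧ c.2 < m ∧ (i, c.2) ∉ p.1.1) ∨
          (c = (j', m) ∧ (i, m) ∈ p.1.1)) := by (repeat' (first | with_reducible exact IntF.id | with_reducible exact IntF.fst' | with_reducible exact IntF.snd' | with_reducible exact IntF.const _ | with_reducible exact Int.const _ | assumption | with_reducible apply Int.and | with_reducible apply Int.or | with_reducible apply Int.not | with_reducible apply Int.imp | with_reducible apply Int.iff | with_reducible apply Int.ne | with_reducible apply Int.eq | with_reducible apply Int.mem | with_reducible apply Int.subset | with_reducible apply Int.ltN | with_reducible apply Int.leN | with_reducible_and_instances apply Int.le | with_reducible_and_instances apply Int.lt | with_reducible apply Int.all | with_reducible apply Int.ex | with_reducible apply IntF.fst | with_reducible apply IntF.snd | with_reducible apply IntF.app | with_reducible apply IntF.inl | with_reducible apply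 IntF.inr | with_reducible_and_instances apply IntF.mul | with_reducible_and_instances apply IntF.inv | with_reducible_and_instances apply IntF.add | with_reducible_and_instances apply IntF.sub | with_reducible_and_instances apply IntF.neg | with_reducible_and_instances apply IntF.smul | with_reducible apply Int.fin | with_reducible apply IntF.sep | with_reducible apply IntF.lam | with_reducible apply IntF.insert | with_reducible apply IntF.singleton | with_reducible apply IntF.union | with_reducible apply IntF.iimage | with_reducible apply IntF.ite | with_reducible apply IntF.the | with_reducible apply IntF.irec | with_reducible apply IntF.succ | with_reducible apply IntF.val | with_reducible apply IntF.mk | (with_reducible refine Int.comp ?_ ?_; assumption) | (with_reducible refine Int.comp₂ ?_ ?_ ?_; assumption) | (with_reducible refine Int.comp₃ ?_ ?_ ?_ ?_; assumption) | (with_reducible refine Int.comp₄ ?_ ?_ ?_ ?_ ?_; assumption) | (with_reducible refine IntF.comp ?_ ?_; assumption) | (with_reducible refine IntF.comp₂ ?_ ?_ ?_; assumption) | (with_reducible refine IntF.comp₃ ?_ ?_ ?_ ?_; assumption) | with_reducible apply IntF.pair))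
      have hrow : ∀ a : INat M, ∀ n : INat M, IFin (sep M fun c : INat M × INat M => c.1 = a ∧ c.2 < n) := by
        intro a n
        have hI : IntF M (fun k : INat M => (a, k)) := by (repeat' (first | with_reducible exact IntF.id | with_reducible exact IntF.fst' | with_reducible exact IntF.snd' | with_reducible exact IntF.const _ | with_reducible exact Int.const _ | assumption | with_reducible apply Int.and | with_reducible apply Int.or | with_reducible apply Int.not | with_reducible apply Int.imp | with_reducible apply Int.iff | with_reducible apply Int.ne | with_reducible apply Int.eq | with_reducible apply Int.mem | with_reducible apply Int.subset | with_reducible apply Int.ltN | with_reducible apply Int.leN | with_reducible_and_instances apply Int.le | with_reducible_and_instances apply Int.lt | with_reducible apply Int.all | with_reducible apply Int.ex | with_reducible apply IntF.fst | with_reducible apply IntF.snd | with_reducible apply IntF.app | with_reducible apply IntF.inl | with_reducible apply IntF.inr | with_reducible_and_instances apply IntF.mul | with_reducible_and_instances apply IntF.inv | with_reducible_and_instances apply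 IntF.add | with_reducible_and_instances apply IntF.sub | with_reducible_and_instances apply IntF.neg | with_reducible_and_instances apply IntF.smul | with_reducible apply Int.fin | with_reducible apply IntF.sep | with_reducible apply IntF.lam | with_reducible apply IntF.insert | with_reducible apply IntF.singleton | with_reducible apply IntF.union | with_reducible apply IntF.iimage | with_reducible apply IntF.ite | with_reducible apply IntF.the | with_reducible apply IntF.irec | with_reducible apply IntF.succ | with_reducible apply IntF.val | with_reducible apply IntF.mk | (with_reducible refine Int.comp ?_ ?_; assumption) | (with_reducible refine Int.comp₂ ?_ ?_ ?_; assumption) | (with_reducible refine Int.comp₃ ?_ ?_ ?_ ?_; assumption) | (with_reducible refine Int.comp₄ ?_ ?_ ?_ ?_ ?_; assumption) | (with_reducible refine IntF.comp ?_ ?_; assumption) | (with_reducible refine IntF.comp₂ ?_ ?_ ?_; assumption) | (with_reducible refine IntF.comp₃ ?_ ?_ ?_ ?_; assumption) | with_reducible apply IntF.pair))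
        refine ((V11257G.fin_lt n).image hI).subset fun c hc => ?_
        rw [mem_sep (by (repeat' (first | with_reducible exact IntF.id | with_reducible exact IntF.fst' | with_reducible exact IntF.snd' | with_reducible exact IntF.const _ | with_reducible exact Int.const _ | assumption | with_reducible apply Int.and | with_reducible apply Int.or | with_reducible apply Int.not | with_reducible apply Int.imp | with_reducible apply Int.iff | with_reducible apply Int.ne | with_reducible apply Int.eq | with_reducible apply Int.mem | with_reducible apply Int.subset | with_reducible apply Int.ltN | with_reducible apply Int.leN | with_reducible_and_instances apply Int.le | with_reducible_and_instances apply Int.lt | with_reducible apply Int.all | with_reducible apply Int.ex | with_reducible apply IntF.fst | with_reducible apply IntF.snd | with_reducible apply IntF.app | with_reducible apply IntF.inl | with_reducible apply IntF.inr | with_reducible_and_instances apply IntF.mul | with_reducible_and_instances apply IntF.inv | with_reducible_and_instances apply IntF.add | with_reducible_and_instances apply IntF.sub | with_reducible_and_instances apply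 IntF.neg | with_reducible_and_instances apply IntF.smul | with_reducible apply Int.fin | with_reducible apply IntF.sep | with_reducible apply IntF.lam | with_reducible apply IntF.insert | with_reducible apply IntF.singleton | with_reducible apply IntF.union | with_reducible apply IntF.iimage | with_reducible apply IntF.ite | with_reducible apply IntF.the | with_reducible apply IntF.irec | with_reducible apply IntF.succ | with_reducible apply IntF.val | with_reducible apply IntF.mk | (with_reducible refine Int.comp ?_ ?_; assumption) | (with_reducible refine Int.comp₂ ?_ ?_ ?_; assumption) | (with_reducible refine Int.comp₃ ?_ ?_ ?_ ?_; assumption) | (with_reducible refine Int.comp₄ ?_ ?_ ?_ ?_ ?_; assumption) | (with_reducible refine IntF.comp ?_ ?_; assumption) | (with_reducible refine IntF.comp₂ ?_ ?_ ?_; assumption) | (with_reducible refine IntF.comp₃ ?_ ?_ ?_ ?_; assumption) | with_reducible apply IntF.pair)))] at hc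
        rw [mem_iimage hI]
        exact ⟨c.2, (mem_sep (by (repeat' (first | with_reducible exact IntF.id | with_reducible exact IntF.fst' | with_reducible exact IntF.snd' | with_reducible exact IntF.const _ | with_reducible exact Int.const _ | assumption | with_reducible apply Int.and | with_reducible apply Int.or | with_reducible apply Int.not | with_reducible apply Int.imp | with_reducible apply Int.iff | with_reducible apply Int.ne | with_reducible apply Int.eq | with_reducible apply Int.mem | with_reducible apply Int.subset | with_reducible apply Int.ltN | with_reducible apply Int.leN | with_reducible_and_instances apply Int.le | with_reducible_and_instances apply Int.lt | with_reducible apply Int.all | with_reducible apply Int.ex | with_reducible apply IntF.fst | with_reducible apply IntF.snd | with_reducible apply IntF.app | with_reducible apply IntF.inl | with_reducible apply IntF.inr | with_reducible_and_instances apply IntF.mul | with_reducible_and_instances apply IntF.inv | with_reducible_and_instances apply IntF.add | with_reducible_and_instances apply IntF.sub | with_reducible_and_instances apply IntF.neg | with_reducible_and_instances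 apply IntF.smul | with_reducible apply Int.fin | with_reducible apply IntF.sep | with_reducible apply IntF.lam | with_reducible apply IntF.insert | with_reducible apply IntF.singleton | with_reducible apply IntF.union | with_reducible apply IntF.iimage | with_reducible apply IntF.ite | with_reducible apply IntF.the | with_reducible apply IntF.irec | with_reducible apply IntF.succ | with_reducible apply IntF.val | with_reducible apply IntF.mk | (with_reducible refine Int.comp ?_ ?_; assumption) | (with_reducible refine Int.comp₂ ?_ ?_ ?_; assumption) | (with_reducible refine Int.comp₃ ?_ ?_ ?_ ?_; assumption) | (with_reducible refine Int.comp₄ ?_ ?_ ?_ ?_ ?_; assumption) | (with_reducible refine IntF.comp ?_ ?_; assumption) | (with_reducible refine IntF.comp₂ ?_ ?_ ?_; assumption) | (with_reducible refine IntF.comp₃ ?_ ?_ ?_ ?_; assumption) | with_reducible apply IntF.pair)))).2 hc.2, Prod.ext hc.1.symm rfl⟩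
      have fA : IFin (sep M fun c : INat M × INat M => c ∈ p.1.1 ∨
        (c.1 = j' ∧ c.2 < m ∧ (i, c.2) ∈ p.1.1) ∨ (c = (j', m) ∧ (i, m) ∉ p.1.1)) := by
        refine (p.2.1.1.union (hrow j' m.succ)).subset fun c hc => ?_
        rw [mem_union, mem_sep (by (repeat' (first | with_reducible exact IntF.id | with_reducible exact IntF.fst' | with_reducible exact IntF.snd' | with_reducible exact IntF.const _ | with_reducible exact Int.const _ | assumption | with_reducible apply Int.and | with_reducible apply Int.or | with_reducible apply Int.not | with_reducible apply Int.imp | with_reducible apply Int.iff | with_reducible apply Int.ne | with_reducible apply Int.eq | with_reducible apply Int.mem | with_reducible apply Int.subset | with_reducible apply Int.ltN | with_reducible apply Int.leN | with_reducible_and_instances apply Int.le | with_reducible_and_instances apply Int.lt | with_reducible apply Int.all | with_reducible apply Int.ex | with_reducible apply IntF.fst | with_reducible apply IntF.snd | with_reducible apply IntF.app | with_reducible apply IntF.inl | with_reducible apply IntF.inr | with_reducible_and_instances apply IntF.mul | with_reducible_and_instances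 apply IntF.inv | with_reducible_and_instances apply IntF.add | with_reducible_and_instances apply IntF.sub | with_reducible_and_instances apply IntF.neg | with_reducible_and_instances apply IntF.smul | with_reducible apply Int.fin | with_reducible apply IntF.sep | with_reducible apply IntF.lam | with_reducible apply IntF.insert | with_reducible apply IntF.singleton | with_reducible apply IntF.union | with_reducible apply IntF.iimage | with_reducible apply IntF.ite | with_reducible apply IntF.the | with_reducible apply IntF.irec | with_reducible apply IntF.succ | with_reducible apply IntF.val | with_reducible apply IntF.mk | (with_reducible refine Int.comp ?_ ?_; assumption) | (with_reducible refine Int.comp₂ ?_ ?_ ?_; assumption) | (with_reducible refine Int.comp₃ ?_ ?_ ?_ ?_; assumption) | (with_reducible refine Int.comp₄ ?_ ?_ ?_ ?_ ?_; assumption) | (with_reducible refine IntF.comp ?_ ?_; assumption) | (with_reducible refine IntF.comp₂ ?_ ?_ ?_; assumption) | (with_reducible refine IntF.comp₃ ?_ ?_ ?_ ?_; assumption) | with_reducible apply IntF.pair)))]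
        rcases (mem_sep iA).1 hc with h | h | h
        · exact Or.inl h
        · exact Or.inr ⟨h.1, h.2.1.trans (INat.lt_succ_self m)⟩
        · rw [h.1]
          exact Or.inr ⟨rfl, INat.lt_succ_self m⟩
      have fB : IFin (sep M fun c : INat M × INat M => c ∈ p.1.2 ∨
        (c.1 = i ∧ c.2 < m.succ ∧ (i, c.2) ∉ p.1.1) ∨ (c.1 = j' ∧ c.2 < m ∧ (i, c.2) ∉ p.1.1) ∨
          (c = (j', m) ∧ (i, m) ∈ p.1.1)) := by
        refine (p.2.1.2.union ((hrow j' m.succ).union (hrow i m.succ))).subset fun c hc => ?_
        rw [mem_union, mem_union, mem_sep (by (repeat' (first | with_reducible exact IntF.id | with_reducible exact IntF.fst' | with_reducible exact IntF.snd' | with_reducible exact IntF.const _ | with_reducible exact Int.const _ | assumption | with_reducible apply Int.and | with_reducible apply Int.or | with_reducible apply Int.not | with_reducible apply Int.imp | with_reducible apply Int.iff | with_reducible apply Int.ne | with_reducible apply Int.eq | with_reducible apply Int.mem | with_reducible apply Int.subset | with_reducible apply Int.ltN | with_reducible apply Int.leN | with_reducible_and_instances apply Int.le | with_reducible_and_instances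 apply Int.lt | with_reducible apply Int.all | with_reducible apply Int.ex | with_reducible apply IntF.fst | with_reducible apply IntF.snd | with_reducible apply IntF.app | with_reducible apply IntF.inl | with_reducible apply IntF.inr | with_reducible_and_instances apply IntF.mul | with_reducible_and_instances apply IntF.inv | with_reducible_and_instances apply IntF.add | with_reducible_and_instances apply IntF.sub | with_reducible_and_instances apply IntF.neg | with_reducible_and_instances apply IntF.smul | with_reducible apply Int.fin | with_reducible apply IntF.sep | with_reducible apply IntF.lam | with_reducible apply IntF.insert | with_reducible apply IntF.singleton | with_reducible apply IntF.union | with_reducible apply IntF.iimage | with_reducible apply IntF.ite | with_reducible apply IntF.the | with_reducible apply IntF.irec | with_reducible apply IntF.succ | with_reducible apply IntF.val | with_reducible apply IntF.mk | (with_reducible refine Int.comp ?_ ?_; assumption) | (with_reducible refine Int.comp₂ ?_ ?_ ?_; assumption) | (with_reducible refine Int.comp₃ ?_ ?_ ?_ ?_; assumption) | (with_reducible refine Int.comp₄ ?_ ?_ ?_ ?_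 ?_; assumption) | (with_reducible refine IntF.comp ?_ ?_; assumption) | (with_reducible refine IntF.comp₂ ?_ ?_ ?_; assumption) | (with_reducible refine IntF.comp₃ ?_ ?_ ?_ ?_; assumption) | with_reducible apply IntF.pair))), mem_sep (by (repeat' (first | with_reducible exact IntF.id | with_reducible exact IntF.fst' | with_reducible exact IntF.snd' | with_reducible exact IntF.const _ | with_reducible exact Int.const _ | assumption | with_reducible apply Int.and | with_reducible apply Int.or | with_reducible apply Int.not | with_reducible apply Int.imp | with_reducible apply Int.iff | with_reducible apply Int.ne | with_reducible apply Int.eq | with_reducible apply Int.mem | with_reducible apply Int.subset | with_reducible apply Int.ltN | with_reducible apply Int.leN | with_reducible_and_instances apply Int.le | with_reducible_and_instances apply Int.lt | with_reducible apply Int.all | with_reducible apply Int.ex | with_reducible apply IntF.fst | with_reducible apply IntF.snd | with_reducible apply IntF.app | with_reducible apply IntF.inl | with_reducible apply IntF.inr | with_reducible_and_instances apply IntF.mul | with_reducible_and_instances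 apply IntF.inv | with_reducible_and_instances apply IntF.add | with_reducible_and_instances apply IntF.sub | with_reducible_and_instances apply IntF.neg | with_reducible_and_instances apply IntF.smul | with_reducible apply Int.fin | with_reducible apply IntF.sep | with_reducible apply IntF.lam | with_reducible apply IntF.insert | with_reducible apply IntF.singleton | with_reducible apply IntF.union | with_reducible apply IntF.iimage | with_reducible apply IntF.ite | with_reducible apply IntF.the | with_reducible apply IntF.irec | with_reducible apply IntF.succ | with_reducible apply IntF.val | with_reducible apply IntF.mk | (with_reducible refine Int.comp ?_ ?_; assumption) | (with_reducible refine Int.comp₂ ?_ ?_ ?_; assumption) | (with_reducible refine Int.comp₃ ?_ ?_ ?_ ?_; assumption) | (with_reducible refine Int.comp₄ ?_ ?_ ?_ ?_ ?_; assumption) | (with_reducible refine IntF.comp ?_ ?_; assumption) | (with_reducible refine IntF.comp₂ ?_ ?_ ?_; assumption) | (with_reducible refine IntF.comp₃ ?_ ?_ ?_ ?_; assumption) | with_reducible apply IntF.pair)))]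
        rcases (mem_sep iB).1 hc with h | h | h | h
        · exact Or.inl h
        · exact Or.inr (Or.inr ⟨h.1, h.2.1⟩)
        · exact Or.inr (Or.inl ⟨h.1, h.2.1.trans (INat.lt_succ_self m)⟩)
        · rw [h.1]
          exact Or.inr (Or.inl ⟨rfl, INat.lt_succ_self m⟩)
      refine ⟨⟨(_, _), ⟨fA, fB⟩, fun c hc hc' => ?_⟩, ⟨fun c hc => (mem_sep iA).2 (Or.inl hc),
        fun c hc => (mem_sep iB).2 (Or.inl hc)⟩, j', fun k hk => ?_, ?_⟩
      · have h1 := (mem_sep iA).1 hc
        have h2 := (mem_sep iB).1 hc'
        rcases h1 with h1 | ⟨h1, h3, h4⟩ | ⟨h1, h3⟩
        · rcases h2 with h2 | ⟨h2, h5, h6⟩ | ⟨h2, h5, h6⟩ | ⟨h2, h5⟩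
          · exact p.2.2 _ h1 h2
          · refine h6 ?_
            rw [← h2]
            exact h1
          · refine hj1 c.2 ?_
            rw [← h2]
            exact h1
          · rw [h2] at h1
            exact hj1 _ h1
        · rcases h2 with h2 | ⟨h2, h5, h6⟩ | ⟨h2, h5, h6⟩ | ⟨h2, h5⟩
          · refine hj2 c.2 ?_
            rw [← h1]
            exact h2
          · exact hji (h1.symm.trans h2)
          · exact h6 h4
          · rw [h2] at h3
            exact lt_irrefl _ h3
        · rcases h2 with h2 | ⟨h2, h5, h6⟩ | ⟨h2, h5, h6⟩ | ⟨h2, h5⟩
          · rw [h1] at h2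
            exact hj2 _ h2
          · rw [h1] at h2
            exact hji h2
          · rw [h1] at h5
            exact lt_irrefl _ h5
          · exact h3 h5
      · by_cases h : (i, k) ∈ p.1.1
        · exact Or.inl ⟨(mem_sep iA).2 (Or.inl h), (mem_sep iA).2 (Or.inr (Or.inl ⟨rfl, hk, h⟩))⟩
        · exact Or.inr ⟨(mem_sep iB).2 (Or.inr (Or.inl ⟨rfl, hk.trans (INat.lt_succ_self m), h⟩)),
            (mem_sep iB).2 (Or.inr (Or.inr (Or.inl ⟨rfl, hk, h⟩)))⟩
      · by_cases h : (i, m) ∈ p.1.1
        · exact Or.inl ⟨(mem_sep iA).2 (Or.inl h),
            (mem_sep iB).2 (Or.inr (Or.inr (Or.inr ⟨rfl, h⟩)))⟩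
        · exact Or.inr ⟨(mem_sep iB).2 (Or.inr (Or.inl ⟨rfl, INat.lt_succ_self m, h⟩)),
            (mem_sep iA).2 (Or.inr (Or.inr ⟨rfl, h⟩))⟩
  refine ⟨j, fun k hk => ?_, ?_⟩
  · rcases h1 k hk with ⟨h3, h4⟩ | ⟨h3, h4⟩
    · exact iff_of_true ((mem_cc' hG).2 ⟨q, hq, h3⟩) ((mem_cc' hG).2 ⟨q, hq, h4⟩)
    · exact iff_of_false (not_mem_cc hG hq h3) (not_mem_cc hG hq h4)
  · rcases h2 with ⟨h3, h4⟩ | ⟨h3, h4⟩
    · exact fun h => not_mem_cc hG hq h4 (h.1 ((mem_cc' hG).2 ⟨q, hq, h3⟩))
    · exact fun h => not_mem_cc hG hq h3 (h.2 ((mem_cc' hG).2 ⟨q, hq, h4⟩))

section

variable (hC : CollL M)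

include hC

theorem code_cR (i : INat M) : code (cR hG i) = cc hG i := by
  refine ext' hG fun z => ?_
  refine (mem_code_pow (s := cR hG i)).trans ⟨?_, fun h => ?_⟩
  · rintro ⟨k, hk, rfl⟩
    exact hk
  · obtain ⟨k, rfl, h1⟩ := (mem_cc hG).1 h
    exact ⟨nnN hG hC k, h, rfl⟩

theorem cR_inj {i j : INat M} : cR hG i = cR hG j ↔ i = j := by
  refine ⟨fun h => ?_, fun h => h ▸ rfl⟩
  have h1 := congrArg (code (M := NC hG)) h
  rw [code_cR hG hC, code_cR hG hC] at h1
  exact (cc_inj hG).1 h1

theorem int_cR {Y : INat M → Prop} (hY : Int M Y) {E : FS M (INat M)}
    (hs : ∀ g : Gp M, (∀ x, x ∈ E.1 → g.1.1 x = x) → ∀ c, Y c → Y (g.1.1 c)) :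
    Int (NC hG) (fun x : IPow (NC hG) (INat (NC hG)) => ∃ i, Y i ∧ x = cR hG i) := by
  obtain ⟨z, hz⟩ := (ef_cc hG).set (Z := Y) hY ⟨E, hs⟩
  refine ⟨z, fun x => ?_⟩
  refine (hz _).trans ⟨?_, ?_⟩
  · rintro ⟨i, hi, h⟩
    exact ⟨i, hi, ITy.inj (h.trans (code_cR hG hC i).symm)⟩
  · rintro ⟨i, hi, rfl⟩
    exact ⟨i, hi, code_cR hG hC i⟩

/-- Finite sets. -/
theorem exists_finC (E : FS M (INat M)) : ∃ s : IPow (NC hG) (IPow (NC hG) (INat (NC hG))),
    IFin s ∧ ∀ i, i ∈ E.1 → cR hG i ∈ s := by
  obtain ⟨e, n, h1, h2, h3⟩ := exists_BN E.2
  obtain ⟨z, hz⟩ := (ef_pair hG).set (Z := fun q : INat M × INat M => q.1 ∈ E.1 ∧ e q.1 = q.2)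
    (by (repeat' (first | with_reducible exact IntF.id | with_reducible exact IntF.fst' | with_reducible exact IntF.snd' | with_reducible exact IntF.const _ | with_reducible exact Int.const _ | assumption | with_reducible apply Int.and | with_reducible apply Int.or | with_reducible apply Int.not | with_reducible apply Int.imp | with_reducible apply Int.iff | with_reducible apply Int.ne | with_reducible apply Int.eq | with_reducible apply Int.mem | with_reducible apply Int.subset | with_reducible apply Int.ltN | with_reducible apply Int.leN | with_reducible_and_instances apply Int.le | with_reducible_and_instances apply Int.lt | with_reducible apply Int.all | with_reducible apply Int.ex | with_reducible apply IntF.fst | with_reducible apply IntF.snd | with_reducible apply IntF.app | with_reducible apply IntF.inl | with_reducible apply IntF.inr | with_reducible_and_instances apply IntF.mul | with_reducible_and_instances apply IntF.inv | with_reducible_and_instances apply IntF.add | with_reducible_and_instances apply IntF.sub | with_reducible_and_instances apply IntF.neg | with_reducible_and_instances apply IntF.smul | with_reducible apply Int.fin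 | with_reducible apply IntF.sep | with_reducible apply IntF.lam | with_reducible apply IntF.insert | with_reducible apply IntF.singleton | with_reducible apply IntF.union | with_reducible apply IntF.iimage | with_reducible apply IntF.ite | with_reducible apply IntF.the | with_reducible apply IntF.irec | with_reducible apply IntF.succ | with_reducible apply IntF.val | with_reducible apply IntF.mk | (with_reducible refine Int.comp ?_ ?_; assumption) | (with_reducible refine Int.comp₂ ?_ ?_ ?_; assumption) | (with_reducible refine Int.comp₃ ?_ ?_ ?_ ?_; assumption) | (with_reducible refine Int.comp₄ ?_ ?_ ?_ ?_ ?_; assumption) | (with_reducible refine IntF.comp ?_ ?_; assumption) | (with_reducible refine IntF.comp₂ ?_ ?_ ?_; assumption) | (with_reducible refine IntF.comp₃ ?_ ?_ ?_ ?_; assumption) | with_reducible apply IntF.pair))) ⟨E, fun g hgE c hc => by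
      change g.1.1 c.1 ∈ E.1 ∧ e (g.1.1 c.1) = c.2
      rw [hgE _ hc.1]
      exact hc⟩
  have hz' : ∀ m x, Mem (op (cc hG x) (nn hG m)) z ↔ x ∈ E.1 ∧ e x = m := by
    intro m x
    refine (hz _).trans ⟨?_, fun h => ⟨(x, m), h, rfl⟩⟩
    rintro ⟨⟨x', m'⟩, h, h2⟩
    obtain ⟨h3, h4⟩ := op_inj h2
    obtain rfl := (nn_inj hG).1 h4
    obtain rfl := (cc_inj hG).1 h3
    exact h
  have hI : Int (NC hG) (fun q : IPow (NC hG) (INat (NC hG)) × INat (NC hG) =>
      Mem (op (code q.1) (code q.2)) z) := ⟨z, fun q => Iff.rfl⟩
  have hp : Int (NC hG) (fun x : IPow (NC hG) (INat (NC hG)) => ∃ i, i ∈ E.1 ∧ x = cR hG i) :=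
    int_cR hG hC (Y := fun i => i ∈ E.1) (by (repeat' (first | with_reducible exact IntF.id | with_reducible exact IntF.fst' | with_reducible exact IntF.snd' | with_reducible exact IntF.const _ | with_reducible exact Int.const _ | assumption | with_reducible apply Int.and | with_reducible apply Int.or | with_reducible apply Int.not | with_reducible apply Int.imp | with_reducible apply Int.iff | with_reducible apply Int.ne | with_reducible apply Int.eq | with_reducible apply Int.mem | with_reducible apply Int.subset | with_reducible apply Int.ltN | with_reducible apply Int.leN | with_reducible_and_instances apply Int.le | with_reducible_and_instances apply Int.lt | with_reducible apply Int.all | with_reducible apply Int.ex | with_reducible apply IntF.fst | with_reducible apply IntF.snd | with_reducible apply IntF.app | with_reducible apply IntF.inl | with_reducible apply IntF.inr | with_reducible_and_instances apply IntF.mul | with_reducible_and_instances apply IntF.inv | with_reducible_and_instances apply IntF.add | with_reducible_and_instances apply IntF.sub | with_reducible_and_instances apply IntF.neg | with_reducible_and_instances apply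 IntF.smul | with_reducible apply Int.fin | with_reducible apply IntF.sep | with_reducible apply IntF.lam | with_reducible apply IntF.insert | with_reducible apply IntF.singleton | with_reducible apply IntF.union | with_reducible apply IntF.iimage | with_reducible apply IntF.ite | with_reducible apply IntF.the | with_reducible apply IntF.irec | with_reducible apply IntF.succ | with_reducible apply IntF.val | with_reducible apply IntF.mk | (with_reducible refine Int.comp ?_ ?_; assumption) | (with_reducible refine Int.comp₂ ?_ ?_ ?_; assumption) | (with_reducible refine Int.comp₃ ?_ ?_ ?_ ?_; assumption) | (with_reducible refine Int.comp₄ ?_ ?_ ?_ ?_ ?_; assumption) | (with_reducible refine IntF.comp ?_ ?_; assumption) | (with_reducible refine IntF.comp₂ ?_ ?_ ?_; assumption) | (with_reducible refine IntF.comp₃ ?_ ?_ ?_ ?_; assumption) | with_reducible apply IntF.pair))) (E := E) fun g hg c hc => by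
      rw [hg c hc]
      exact hc
  have hF : IntF (NC hG) (fun a : IPow (NC hG) (INat (NC hG)) =>
      the (fun k : INat (NC hG) => Mem (op (code a) (code k)) z) 0) :=
    IntF.the hI (IntF.const _)
  have key : ∀ x, x ∈ E.1 → the (fun k : INat (NC hG) =>
      Mem (op (code (cR hG x)) (code k)) z) 0 = nnN hG hC (e x) := by
    intro x hx
    have h4 : Mem (op (code (cR hG x)) (code (nnN hG hC (e x)))) z := by
      rw [code_cR hG hC]
      exact (hz' _ _).2 ⟨hx, rfl⟩
    refine the_eq ⟨nnN hG hC (e x), h4, fun k hk => ?_⟩ h4
    obtain ⟨k, rfl⟩ := nnN_surj hG hC k
    rw [code_cR hG hC] at hk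
    rw [((hz' _ _).1 hk).2]
  have h5 : FinP (NC hG) (fun x : IPow (NC hG) (INat (NC hG)) => ∃ i, i ∈ E.1 ∧ x = cR hG i) := by
    refine FinP.of_inj hp hF ?_ (finP_lt (nnN hG hC n)) ?_
    · rintro a a' ⟨i, hi, rfl⟩ ⟨j, hj, rfl⟩ h
      rw [key i hi, key j hj] at h
      rw [h2 _ _ hi hj ((nnN_inj hG hC).1 h)]
    · rintro a ⟨i, hi, rfl⟩
      rw [key i hi]
      exact (nnN_lt hG hC).2 (h1 i hi)
  exact ⟨sep _ _, (finP_iff hp).1 h5, fun i hi => (mem_sep hp).2 ⟨i, hi, rfl⟩⟩

theorem cr : CR (NC hG) (fun x => ∃ i, x = cR hG i) := by
  have hD : Int (NC hG) (fun x : IPow (NC hG) (INat (NC hG)) => ∃ i, x = cR hG i) :=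
    (int_cR hG hC (Y := fun _ => True) (Int.const _) (E := ⟨∅, IFin.empty⟩)
      fun _ _ _ _ => trivial).congr fun x => ⟨fun ⟨i, _, h⟩ => ⟨i, h⟩, fun ⟨i, h⟩ => ⟨i, trivial, h⟩⟩
  refine ⟨hD, ⟨_, 0, rfl⟩, ?_, ?_⟩
  · rintro x m ⟨i, rfl⟩
    obtain ⟨m, rfl⟩ := nnN_surj hG hC m
    obtain ⟨j, h1, h2⟩ := exists_flip hG i m
    refine ⟨cR hG j, ⟨j, rfl⟩, fun k hk => ?_, h2⟩
    obtain ⟨k, rfl⟩ := nnN_surj hG hC k
    exact h1 k ((nnN_lt hG hC).1 hk)
  · rintro W ⟨z, hz⟩
    obtain ⟨E, hE⟩ := star0 hG z
    obtain ⟨s, hs, h1⟩ := exists_finC hG hC E
    refine ⟨s, hs, ?_⟩
    rintro x n ⟨i, rfl⟩ hi hW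
    obtain ⟨n, rfl⟩ := nnN_surj hG hC n
    have h2 : Mem (op (code (cR hG i)) (code (nnN hG hC n))) z := (hz (cR hG i, nnN hG hC n)).2 hW
    rw [code_cR hG hC] at h2
    obtain ⟨m, hm⟩ := hE i n (fun h => hi (h1 i h)) h2
    refine ⟨nnN hG hC m, ?_⟩
    rintro y ⟨j, rfl⟩ hj hag
    refine (hz (cR hG j, nnN hG hC n)).1 ?_
    change Mem (op (code (cR hG j)) (code (nnN hG hC n))) z
    rw [code_cR hG hC]
    exact hm j (fun h => hj (h1 j h)) fun k hk => hag _ ((nnN_lt hG hC).2 hk)

end

/-- The model has the structure. -/
def HasCR (N : Type u) [LSet.Structure N] [hZ : Helper672.Plain.Zermelo N] : Prop :=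
  letI := Helper672.Plain.toL (M := N)
  letI : IsModel N := Helper672.Plain.isModel_toL
  ∃ Dd : IPow N (INat N) → Prop, CR N Dd

theorem exists_cr (M : Type u) [L.Structure M] [IsModel M] [Countable M] (hC : CollL M) :
    ∃ (N : Type u) (_ : LSet.Structure N) (_ : ZF N), HasCR N := by
  have p₀ : Cq M := ⟨(∅, ∅), ⟨IFin.empty, IFin.empty⟩, fun c hc => absurd hc (by simp)⟩
  obtain ⟨G, hG⟩ := H635.exists_gen (M := M) p₀
  have hzf : ZF (NC hG) := nn_zf hG hC
  exact ⟨NC hG, inferInstance, hzf, _, cr hG hC⟩

/-- From a model of ZF to a model with Cohen reals. -/
theorem exists_of_cr {P : ∀ (N : Type u) [LSet.Structure N], Prop}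
    (h : ∀ (N : Type u) [LSet.Structure N] [hZ : Helper672.Plain.Zermelo N], HasCR N → P N)
    (M : Type u) [LSet.Structure M] (hM : ZF M) :
    ∃ (N : Type u) (_ : LSet.Structure N), ZF N ∧ P N := by
  obtain ⟨M₀, h1, h2⟩ := exists_countable_sub M hM
  letI := toL (M := M₀)
  haveI : IsModel M₀ := isModel_of_zermelo h2.toZermelo
  obtain ⟨N, iN, hN, h4⟩ := exists_cr M₀ (coll_of_zf h2)
  exact ⟨N, iN, hN, @h N iN hN.toZermelo h4⟩

end Pool.Agent.V11257C
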