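import Pool.Agent.H635R2.Statement
import Pool.Agent.V11246.CdDefs
import Pool.Agent.V11246.CcDefs

/-!
# Subspaces of the real line and k-spaces in a structure for the language of set theory: definitions

`Mem`, `El` and `LSet` are from `Pool.Agent.Helper672.SIK.Plain`, `Sub` and `IsReals` from
`Pool.Agent.H635R2.Statement`, `IsClosed` from `Pool.Agent.H310R3.TopDefs`, and `IsCompactSub` from
`Pool.Agent.V11246.CcDefs`.
-/

namespace Pool.Agent.V11257C

open FirstOrder FirstOrder.Language
open Pool.Agent.Helper672.Plain (LSet Mem El)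
open Pool.Agent.H635Amen (Sub)
open Pool.Agent.H310Top (IsClosed)
open Pool.Agent.V11246 (IsCompactSub)

universe u

variable {M : Type u} [LSet.Structure M]

/-- `x` is a subset of the linear order `r` and `t` is the topology of the subspace `x` of `r`: a
subset `u` of `x` is open if and only if for every `a` in `u` there are `b < a` and `c > a` such
that all elements of `x` between `b` and `c` are in `u`. -/
def IsRealSub (r : M) [LinearOrder (El r)] (t x : M) : Prop :=
  (∀ z, Mem z x → Mem z r) ∧ ∀ u, Mem u t ↔ (∀ z, Mem z u → Mem z x) ∧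
    ∀ a : El r, Mem a.1 u → ∃ b c : El r, b < a ∧ a < c ∧
      ∀ d : El r, Mem d.1 x → b < d → d < c → Mem d.1 u

/-- `a` is a natural number of the field `r`: an element of all sets of the model that contain `0`
and are closed under adding `1`. -/
def IsNatReal {r : M} [Field (El r)] (a : El r) : Prop :=
  ∀ s : Sub r, Mem (0 : El r).1 s.1 → (∀ b : El r, Mem b.1 s.1 → Mem (b + 1).1 s.1) → Mem a.1 s.1

/-- `a` is a rational number of the field `r`. -/
def IsRationalReal {r : M} [Field (El r)] (a : El r) : Prop :=
  ∃ b c : El r, IsNatReal b ∧ IsNatReal c ∧ c ≠ 0 ∧ (a * c = b ∨ a * c = -b)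

/-- The space is a k-space: a subset `a` is closed if `a ∩ k` is closed in `k` (that is, the
complement of `a` in `k` is the trace of an open set) for every compact subspace `k`. -/
def IsKSpace (t x : M) : Prop :=
  ∀ a, (∀ z, Mem z a → Mem z x) →
    (∀ k, IsCompactSub t x k → ∃ u, Mem u t ∧ ∀ z, Mem z k → (Mem z u ↔ ¬ Mem z a)) →
      IsClosed t x a

end Pool.Agent.V11257C
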