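import Pool.Agent.V11257.Cr5
import Pool.Agent.V11257.CrDefs
import Pool.Agent.V11246.Spc
import Pool.Agent.V11246.CubeX

/-!
# Subspaces of the real line of the model
-/

set_option maxHeartbeats 1000000
set_option linter.all false
set_option synthInstance.maxSize 2000

namespace Pool.Agent.Helper672.ZFA.V257

open FirstOrder FirstOrder.Language
open H635 (IR exists_transfer plainN_opGraph plainN_graph isModel_of_zermelo)
open Pool.Agent.Helper672.Plain (LSet)
open Pool.Agent.H310
open Pool.Agent.H635Amen
open Pool.Agent.H310Cards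
open Pool.Agent.H310Top
open Pool.Agent.V11246
open Pool.Agent.V11257C (CR HasCR IsRealSub IsNatReal IsRationalReal IsKSpace)
open Pool.Agent.Helper672.ZFA.V246

universe u

section

attribute [local instance] Helper672.Plain.toL

variable {N : Type u} [LSet.Structure N] [hZ : Helper672.Plain.Zermelo N]

local instance instModelCr : IsModel N := Helper672.Plain.isModel_toL

/-- The real line of the model. -/
structure RL (r : N) [Field (Plain.El r)] [LinearOrder (Plain.El r)]
    [IsStrictOrderedRing (Plain.El r)] (e : Plain.El r ≃ IR N) : Prop where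
  reals : IsReals r
  code_e : ∀ x, code (M := N) (e x) = x.1
  add : ∀ x y, e (x + y) = e x + e y
  mul : ∀ x y, e (x * y) = e x * e y
  le : ∀ x y, x ≤ y ↔ e x ≤ e y

variable (N) in
theorem exists_rl : ∃ (r : N) (_ : Field (Plain.El r)) (_ : LinearOrder (Plain.El r))
    (_ : IsStrictOrderedRing (Plain.El r)) (e : Plain.El r ≃ IR N), RL r e := by
  let r : N := dom N (IR N)
  have hcm : ∀ c : IR N, Plain.Mem (code (M := N) c) r := fun c =>
    (show Mem (code c) (dom N (IR N)) from code_mem_dom c)
  have hdom : ∀ x : N, Plain.Mem x r → ∃ c : IR N, code c = x := fun x hx =>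
    mem_dom.1 (show Mem x (dom N (IR N)) from hx)
  let e : Plain.El r ≃ IR N := (Equiv.ofBijective (fun c : IR N => (⟨code c, hcm c⟩ :
    Plain.El r)) ⟨fun c d h => ITy.inj (congrArg Subtype.val h), fun x => by
      obtain ⟨c, hc⟩ := hdom x.1 x.2
      exact ⟨c, Subtype.ext hc⟩⟩).symm
  have he : ∀ x : Plain.El r, code (M := N) (e x) = x.1 := fun x =>
    congrArg Subtype.val (e.symm_apply_apply x)
  obtain ⟨i1, i2, i3, hadd, hmul, hle⟩ := exists_transfer e
  refine ⟨r, i1, i2, i3, e, ⟨?_, ?_, ?_, ?_⟩, he, hadd, hmul, hle⟩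
  · obtain ⟨g, hg⟩ := (IAdd.out : IntF N (fun q : IR N × IR N => q.1 + q.2))
    refine ⟨g, fun x y z => ?_⟩
    rw [plainN_opGraph, ← he x, ← he y, ← he z]
    refine Iff.trans ?_ (hg ((e x, e y), e z)).symm
    change x + y = z ↔ e x + e y = e z
    rw [← hadd]
    exact e.injective.eq_iff.symm
  · obtain ⟨g, hg⟩ := (IMul.out : IntF N (fun q : IR N × IR N => q.1 * q.2))
    refine ⟨g, fun x y z => ?_⟩
    rw [plainN_opGraph, ← he x, ← he y, ← he z]
    refine Iff.trans ?_ (hg ((e x, e y), e z)).symm
    change x * y = z ↔ e x * e y = e z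
    rw [← hmul]
    exact e.injective.eq_iff.symm
  · obtain ⟨g, hg⟩ := (ILE.out : Int N (fun q : IR N × IR N => q.1 ≤ q.2))
    refine ⟨g, fun x y => ?_⟩
    rw [plainN_graph, ← he x, ← he y, hle]
    exact (hg (e x, e y)).symm
  · intro s h1 h2
    have hs : Int N (fun c : IR N => Mem (code c) s.1) := ⟨s.1, fun _ => Iff.rfl⟩
    obtain ⟨c, h3, h4⟩ := IR.complete (⟨_, hs⟩ : IPow N (IR N)) (by
      obtain ⟨x, hx⟩ := h1
      obtain ⟨c, rfl⟩ := hdom x (s.2 x hx)
      exact ⟨c, hx⟩) (by
      obtain ⟨b, hb⟩ := h2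
      refine ⟨e b, fun c hc => ?_⟩
      have h5 := hb (e.symm c) hc
      rwa [hle, e.apply_symm_apply] at h5)
    refine ⟨e.symm c, fun x hx => ?_, fun b hb => ?_⟩
    · rw [hle, e.apply_symm_apply]
      refine h3 (e x) ?_
      change Mem (code (e x)) s.1
      rw [he]
      exact hx
    · rw [hle, e.apply_symm_apply]
      refine h4 (e b) fun d hd => ?_
      have h5 := hb (a := e.symm d) hd
      rwa [hle, e.apply_symm_apply] at h5

section rl

variable {r : N} [Field (Plain.El r)] [LinearOrder (Plain.El r)] [IsStrictOrderedRing (Plain.El r)]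
  {e : Plain.El r ≃ IR N} (h : RL r e)

include h

theorem RL.lt (x y : Plain.El r) : x < y ↔ e x < e y := by
  rw [lt_iff_le_not_ge, lt_iff_le_not_ge, h.le, h.le]

theorem RL.zero : e 0 = 0 := by
  have h1 := h.add 0 0
  rw [add_zero] at h1
  exact (left_eq_add (a := e 0)).1 h1

theorem RL.neg (x : Plain.El r) : e (-x) = - e x := by
  have h1 := h.add x (-x)
  rw [add_neg_cancel, h.zero] at h1
  exact eq_neg_of_add_eq_zero_right h1.symm

theorem RL.one : e 1 = 1 := by
  have h1 := h.mul 1 1
  rw [mul_one] at h1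
  have h2 : e 1 ≠ 0 := fun h3 => one_ne_zero (e.injective (h3.trans h.zero.symm))
  exact (mul_right_cancel₀ h2 (by rw [one_mul]; exact h1)).symm

theorem RL.val_symm (c : IR N) : (e.symm c).1 = code c := by
  rw [← h.code_e, e.apply_symm_apply]

end rl

variable {P : IR N → Prop}

/-- The open subsets of a subspace of the real line. -/
def OR (P : IR N → Prop) (U : IPow N (IR N)) : Prop :=
  (∀ s, s ∈ U → P s) ∧ ∀ s, s ∈ U → ∃ b c, b < s ∧ s < c ∧ ∀ d, P d → b < d → d < c → d ∈ U

theorem int_OR (hP : Int N P) : Int N (OR P) := by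
  unfold OR
  (repeat' (first | with_reducible exact IntF.id | with_reducible exact IntF.fst' | with_reducible exact IntF.snd' | with_reducible exact IntF.const _ | with_reducible exact Int.const _ | assumption | with_reducible apply Int.and | with_reducible apply Int.or | with_reducible apply Int.not | with_reducible apply Int.imp | with_reducible apply Int.iff | with_reducible apply Int.ne | with_reducible apply Int.eq | with_reducible apply Int.mem | with_reducible apply Int.subset | with_reducible apply Int.ltN | with_reducible apply Int.leN | with_reducible_and_instances apply Int.le | with_reducible_and_instances apply Int.lt | with_reducible apply Int.all | with_reducible apply Int.ex | with_reducible apply IntF.fst | with_reducible apply IntF.snd | with_reducible apply IntF.app | with_reducible apply IntF.inl | with_reducible apply IntF.inr | with_reducible_and_instances apply IntF.mul | with_reducible_and_instances apply IntF.inv | with_reducible_and_instances apply IntF.add | with_reducible_and_instances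 apply IntF.sub | with_reducible_and_instances apply IntF.neg | with_reducible_and_instances apply IntF.smul | with_reducible apply Int.fin | with_reducible apply IntF.sep | with_reducible apply IntF.lam | with_reducible apply IntF.insert | with_reducible apply IntF.singleton | with_reducible apply IntF.union | with_reducible apply IntF.iimage | with_reducible apply IntF.ite | with_reducible apply IntF.the | with_reducible apply IntF.irec | with_reducible apply IntF.succ | with_reducible apply IntF.val | with_reducible apply IntF.mk | (with_reducible refine Int.comp ?_ ?_; assumption) | (with_reducible refine Int.comp₂ ?_ ?_ ?_; assumption) | (with_reducible refine Int.comp₃ ?_ ?_ ?_ ?_; assumption) | (with_reducible refine Int.comp₄ ?_ ?_ ?_ ?_ ?_; assumption) | (with_reducible refine IntF.comp ?_ ?_; assumption) | (with_reducible refine IntF.comp₂ ?_ ?_ ?_; assumption) | (with_reducible refine IntF.comp₃ ?_ ?_ ?_ ?_; assumption) | with_reducible apply IntF.pair))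

theorem spo_OR (hP : Int N P) : SpO N P (OR P) := by
  refine ⟨hP, int_OR hP, fun U hU => hU.1, fun U hU => ?_, fun U V W hU hV hW => ?_,
    fun c W hc hW => ?_⟩
  · refine ⟨fun s hs => (hU s).1 hs, fun s hs => ⟨s - 1, s + 1, by linarith, by linarith,
      fun d hd _ _ => (hU d).2 hd⟩⟩
  · refine ⟨fun s hs => hU.1 s ((hW s).1 hs).1, fun s hs => ?_⟩
    obtain ⟨b, c, h1, h2, h3⟩ := hU.2 s ((hW s).1 hs).1
    obtain ⟨b', c', h1', h2', h3'⟩ := hV.2 s ((hW s).1 hs).2
    exact ⟨max b b', min c c', max_lt h1 h1', lt_min h2 h2', fun d hd hb hc => (hW d).2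
      ⟨h3 d hd (lt_of_le_of_lt (le_max_left _ _) hb) (lt_of_lt_of_le hc (min_le_left _ _)),
        h3' d hd (lt_of_le_of_lt (le_max_right _ _) hb) (lt_of_lt_of_le hc (min_le_right _ _))⟩⟩
  · refine ⟨fun s hs => ?_, fun s hs => ?_⟩
    · obtain ⟨U, h1, h2⟩ := (hW s).1 hs
      exact (hc U h1).1 s h2
    · obtain ⟨U, h1, h2⟩ := (hW s).1 hs
      obtain ⟨b, c, h3, h4, h5⟩ := (hc U h1).2 s h2
      exact ⟨b, c, h3, h4, fun d hd hb hc => (hW d).2 ⟨U, h1, h5 d hd hb hc⟩⟩

theorem isRealSub {r : N} [Field (Plain.El r)] [LinearOrder (Plain.El r)]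
    [IsStrictOrderedRing (Plain.El r)] {e : Plain.El r ≃ IR N} (h : RL r e) (hP : Int N P) :
    IsRealSub r (ts (OR P)) (xs P) := by
  have hS := spo_OR hP
  refine ⟨fun z hz => ?_, fun u => ⟨fun hu => ?_, fun hu => ?_⟩⟩
  · obtain ⟨s, -, rfl⟩ := (mem_xs hS).1 hz
    rw [← h.val_symm s]
    exact (e.symm s).2
  · obtain ⟨U, hU, rfl⟩ := (mem_ts hS).1 hu
    refine ⟨fun z hz => ?_, fun a ha => ?_⟩
    · obtain ⟨s, hs, rfl⟩ := mem_codeB.1 hz
      exact (mem_xs' hS).2 (hU.1 s hs)
    · rw [← h.code_e] at ha
      obtain ⟨b, c, h1, h2, h3⟩ := hU.2 _ (mem_codeB'.1 ha)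
      refine ⟨e.symm b, e.symm c, ?_, ?_, fun d hd hb hc => ?_⟩
      · rwa [h.lt, e.apply_symm_apply]
      · rwa [h.lt, e.apply_symm_apply]
      · rw [h.lt, e.apply_symm_apply] at hb hc
        rw [← h.code_e] at hd
        rw [← h.code_e]
        exact mem_codeB'.2 (h3 _ ((mem_xs' hS).1 hd) hb hc)
  · obtain ⟨hu1, hu2⟩ := hu
    obtain ⟨U, rfl, hU⟩ := exists_sub hS hu1
    refine (mem_ts' hS).2 ⟨hU, fun s hs => ?_⟩
    obtain ⟨b, c, h1, h2, h3⟩ := hu2 (e.symm s) (by rw [h.val_symm]; exact mem_codeB'.2 hs)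
    rw [h.lt, e.apply_symm_apply] at h1 h2
    refine ⟨e b, e c, h1, h2, fun d hd hb hc => ?_⟩
    have h4 := h3 (e.symm d) (by rw [h.val_symm]; exact (mem_xs' hS).2 hd)
      (by rwa [h.lt, e.apply_symm_apply]) (by rwa [h.lt, e.apply_symm_apply])
    rw [h.val_symm] at h4
    exact mem_codeB'.1 h4

end

end Pool.Agent.Helper672.ZFA.V257
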