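import Pool.Agent.V11257.Cr7

/-!
# A model where the space of the irrational numbers is not a k-space
-/

set_option maxHeartbeats 1000000
set_option linter.all false
set_option synthInstance.maxSize 2000

namespace Pool.Agent.V11257C

open FirstOrder FirstOrder.Language
open Pool.Agent.Helper672
open Pool.Agent.Helper672.ZFA
open Pool.Agent.Helper672.ZFA.V246
open Pool.Agent.Helper672.ZFA.V257
open Pool.Agent.Helper672.ZFA.H635 (IR)
open Pool.Agent.Helper672.Plain (LSet)
open Pool.Agent.H310
open Pool.Agent.H635Amen (ZF IsReals)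

universe u

/-- In the model `N` the space `x` of the irrational numbers, with the topology `t` of a subspace
of the real line `r`, is not a k-space. -/
def IrrNotK (N : Type u) [LSet.Structure N] : Prop :=
  ∃ (r : N) (_ : Field (Plain.El r)) (_ : LinearOrder (Plain.El r))
    (_ : IsStrictOrderedRing (Plain.El r)), IsReals r ∧
      ∃ x t : N, (∀ a : Plain.El r, Plain.Mem a.1 x ↔ ¬ IsRationalReal a) ∧
        IsRealSub r t x ∧ ¬ IsKSpace t x

section

attribute [local instance] Helper672.Plain.toL

theorem irrNotK_of_cr {N : Type u} [LSet.Structure N] [hZ : Helper672.Plain.Zermelo N]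
    (h : HasCR N) : IrrNotK N := by
  letI : IsModel N := Helper672.Plain.isModel_toL
  obtain ⟨Dd, hD⟩ := h
  obtain ⟨Dp, hp⟩ := exists_dr hD
  obtain ⟨r, i1, i2, i3, e, he⟩ := exists_rl N
  refine ⟨r, i1, i2, i3, he.reals, xs (fun t : IR N => ¬ Rt t), ts (OR fun t : IR N => ¬ Rt t),
    fun a => ?_, isRealSub he int_notRt, not_kspace hp⟩
  rw [← he.code_e, mem_xs' (spo_OR int_notRt), isRationalReal_iff he]

end

theorem exists_irrNotK (M : Type u) [LSet.Structure M] (hM : ZF M) :
    ∃ (N : Type u) (_ : LSet.Structure N), ZF N ∧ IrrNotK N :=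
  exists_of_cr (P := fun N _ => IrrNotK N) (fun N _ _ h => irrNotK_of_cr h) M hM

end Pool.Agent.V11257C
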