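import Pool.Agent.V11257.ZtDefs
import Pool.Agent.V11246.Spc
import Pool.Agent.V11246.CubeX

/-!
# Unfolding N-compactness
-/

set_option maxHeartbeats 1000000
set_option linter.all false
set_option synthInstance.maxSize 2000

namespace Pool.Agent.V11257Z

open FirstOrder FirstOrder.Language
open Pool.Agent.Helper672
open Pool.Agent.Helper672.ZFA
open Pool.Agent.Helper672.ZFA.V246
open Pool.Agent.Helper672.Plain (LSet)
open Pool.Agent.H310
open Pool.Agent.H310Cards
open Pool.Agent.H310Top (IsTopology)
open Pool.Agent.V11246

universe u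

section

attribute [local instance] Helper672.Plain.toL

variable {N : Type u} [LSet.Structure N] [hZ : Helper672.Plain.Zermelo N]

local instance instModelZt : IsModel N := Helper672.Plain.isModel_toL

noncomputable local instance instPElZt (x : N) : ITy N (Helper672.Plain.El x) :=
  (inferInstance : ITy N (El x))

variable {α : Type u} [ITy N α] {P : α → Prop} {O : IPow N α → Prop}

theorem app_dom {f s t x y : N} (hf : IsFun f s t) (h : App f x y) : Mem x s ∧ Mem y t := by
  obtain ⟨q, h1, h2⟩ := h
  obtain ⟨x', y', h3, h4, h5⟩ := hf.1 q h2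
  obtain ⟨rfl, rfl⟩ := op_inj ((ordPair_iff.1 h1).symm.trans (ordPair_iff.1 h5))
  exact ⟨h3, h4⟩

theorem app_uniq {f s t x y y' : N} (hf : IsFun f s t) (h : App f x y) (h' : App f x y') :
    y = y' := by
  obtain ⟨z, -, h1⟩ := hf.2 x (app_dom hf h).1
  exact (h1 _ h).trans (h1 _ h').symm

theorem int_RZ {h j : N} : Int N (fun q : (α × Plain.El j) × INat N =>
    ∃ f, App h (code q.1.1) f ∧ App f (code q.1.2) (code q.2)) := by
  refine Int.of_D₂ (S := fun v => ∃ s i f, v 0 = op s i ∧ Mem (op s f) h ∧ Mem (op i (v 1)) f)
    ?_ fun p n => ?_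
  · exact D.ex (D.ex (D.ex (D.and (D.eqf (DF.var _) (DF.op (DF.var _) (DF.var _)))
      (D.and (D.memf (DF.op (DF.var _) (DF.var _)) (DF.const _))
        (D.memf (DF.op (DF.var _) (DF.var _)) (DF.var _))))))
  · constructor
    · rintro ⟨s, i, f, h1, h2, h3⟩
      have h4 : op (code p.1) (code p.2) = op s i := h1
      obtain ⟨rfl, rfl⟩ := op_inj h4
      exact ⟨f, app_iff.2 h2, app_iff.2 h3⟩
    · rintro ⟨f, h1, h2⟩
      exact ⟨code p.1, code p.2, f, rfl, app_iff.1 h1, app_iff.1 h2⟩

/-- What N-compactness says about the internal data. -/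
theorem nco_unfold (hS : SpO N P O) (hN : IsNCompact (ts O) (xs (N := N) P)) :
    ∃ (j : N) (F : Plain.El j × α → INat N), IntF N F ∧
      (∀ i z, P z → ∃ U, O U ∧ z ∈ U ∧ ∀ w, w ∈ U → F (i, w) = F (i, z)) ∧
      (∀ g : Plain.El j → INat N, IntF N g → (∀ S : IPow N (Plain.El j), IFin S →
        ∃ z, P z ∧ ∀ i, i ∈ S → F (i, z) = g i) → ∃ z, P z ∧ ∀ i, F (i, z) = g i) ∧
      ∀ U z, O U → z ∈ U → ∃ S : IPow N (Plain.El j), IFin S ∧ ∀ w, P w →
        (∀ i, i ∈ S → F (i, w) = F (i, z)) → w ∈ U := by
  obtain ⟨j, w, c, t, h, ⟨i₀, hi₀⟩, hw, hc, ht, hh, htop, vc, hvc, hvc'⟩ := hN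
  have hR := int_RZ (α := α) (h := h) (j := j)
  have hIP := hS.iP
  have hval : ∀ s : α, P s → ∃ f, App h (code s) f ∧ Mem f c := by
    intro s hs
    obtain ⟨f, h1, -⟩ := hh.1.2 (code s) ((mem_xs' hS).2 hs)
    exact ⟨f, h1, (app_dom hh.1 h1).2⟩
  have hctop : ∀ u, Mem u t → ∀ f, Mem f u → Mem f c := fun u hu => ((ht u).1 hu).1
  -- cylinders of the power
  have hcyl : ∀ i n, Mem i j → ∃ v, Mem v t ∧ ∀ f, Mem f v ↔ Mem f c ∧ App f i n := by
    intro i n hi
    have hI : Int N (fun f : Plain.El c => App f.1 i n) := by
      refine Int.of_D (S := fun v => Mem (op i n) (v 0)) ?_ fun f => ?_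
      · exact D.memf (DF.op (DF.const _) (DF.const _)) (DF.var _)
      · exact app_iff.symm
    have hv : ∀ f, Mem f (code (M := N) (sep N fun f : Plain.El c => App f.1 i n)) ↔
        Mem f c ∧ App f i n := by
      intro f
      constructor
      · intro hf
        obtain ⟨g, h1, rfl⟩ := mem_codeB.1 hf
        exact ⟨g.2, (mem_sep hI).1 h1⟩
      · rintro ⟨h1, h2⟩
        exact mem_codeB.2 ⟨⟨f, h1⟩, (mem_sep hI).2 h2, rfl⟩
    refine ⟨_, (ht _).2 ⟨fun f hf => ((hv f).1 hf).1, fun f hf => ?_⟩, hv⟩
    refine ⟨code (M := N) ({⟨i, hi⟩} : IPow N (Plain.El j)), isFinite_of_fin (IFin.singleton _),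
      fun z hz => ?_, fun g hg hgf => (hv g).2 ⟨hg, hgf i n ?_ ((hv f).1 hf).2⟩⟩
    · obtain ⟨b, -, rfl⟩ := mem_codeB.1 hz
      exact b.2
    · exact mem_codeB.2 ⟨⟨i, hi⟩, mem_singleton.2 rfl, rfl⟩
  -- finite subsets of `j`
  have hfinj : ∀ s, IsFinite s → (∀ i, Mem i s → Mem i j) → ∃ S : IPow N (Plain.El j),
      IFin S ∧ code S = s := by
    intro s hs hsj
    obtain ⟨S, rfl⟩ := exists_codeB (α := Plain.El j) (u := s) fun z hz => ⟨⟨z, hsj z hz⟩, rfl⟩
    exact ⟨S, fin_of_isFinite hs, rfl⟩
  -- values
  have hvalue : ∀ s, P s → ∀ i : Plain.El j, ∃ n : INat N,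
      (∃ f, App h (code s) f ∧ App f (code i) (code n)) ∧
      ∀ n' : INat N, (∃ f, App h (code s) f ∧ App f (code i) (code n')) → n' = n := by
    intro s hs i
    obtain ⟨f, h1, h2⟩ := hval s hs
    obtain ⟨y, hy, hu⟩ := ((hc f).1 h2).2 i.1 i.2
    obtain ⟨n, hn⟩ := (mem_omega hw).1 (app_dom ((hc f).1 h2) hy).2
    refine ⟨n, ⟨f, h1, ?_⟩, fun n' hn' => ?_⟩
    · rw [hn]
      exact hy
    · obtain ⟨g, h3, h4⟩ := hn'
      rw [app_uniq hh.1 h3 h1] at h4
      exact ITy.inj ((hu _ h4).trans hn.symm)
  have hex : ∀ q : Plain.El j × α, ∃ n : INat N,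
      (P q.2 ∧ ∃ f, App h (code q.2) f ∧ App f (code q.1) (code n)) ∨ (¬ P q.2 ∧ n = 0) := by
    intro q
    by_cases hq : P q.2
    · obtain ⟨n, h1, -⟩ := hvalue q.2 hq q.1
      exact ⟨n, Or.inl ⟨hq, h1⟩⟩
    · exact ⟨0, Or.inr ⟨hq, rfl⟩⟩
  choose F hF using hex
  have hF1 : ∀ i s (n : INat N), P s → ((∃ f, App h (code s) f ∧ App f (code i) (code n)) ↔
      F (i, s) = n) := by
    intro i s n hs
    obtain ⟨m, h1, h2⟩ := hvalue s hs i
    have h3 : F (i, s) = m := by
      rcases hF (i, s) with h3 | h3
      · exact h2 _ h3.2
      · exact absurd hs h3.1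
    rw [h3]
    exact ⟨fun h4 => (h2 n h4).symm, fun h4 => h4 ▸ h1⟩
  have hIF : IntF N F := by
    refine IntF.of_rel (r := fun (q : Plain.El j × α) (n : INat N) =>
      (P q.2 ∧ ∃ f, App h (code q.2) f ∧ App f (code q.1) (code n)) ∨ (¬ P q.2 ∧ n = 0)) ?_ ?_
    · have h1 : Int N (fun q : (Plain.El j × α) × INat N =>
          ∃ f, App h (code q.1.2) f ∧ App f (code q.1.1) (code q.2)) :=
        Int.comp (p := fun q : (α × Plain.El j) × INat N =>
          ∃ f, App h (code q.1.1) f ∧ App f (code q.1.2) (code q.2))
          (f := fun q : (Plain.El j × α) × INat N => ((q.1.2, q.1.1), q.2)) hR (by (repeat' (first | with_reducible exact IntF.id | with_reducible exact IntF.fst' | with_reducible exact IntF.snd' | with_reducible exact IntF.const _ | with_reducible exact Int.const _ | assumption | with_reducible apply Int.and | with_reducible apply Int.or | with_reducible apply Int.not | with_reducible apply Int.imp | with_reducible apply Int.iff | with_reducible apply Int.ne | with_reducible apply Int.eq | with_reducible apply Int.mem | with_reducible apply Int.subset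 | with_reducible apply Int.ltN | with_reducible apply Int.leN | with_reducible_and_instances apply Int.le | with_reducible_and_instances apply Int.lt | with_reducible apply Int.all | with_reducible apply Int.ex | with_reducible apply IntF.fst | with_reducible apply IntF.snd | with_reducible apply IntF.app | with_reducible apply IntF.inl | with_reducible apply IntF.inr | with_reducible_and_instances apply IntF.mul | with_reducible_and_instances apply IntF.inv | with_reducible_and_instances apply IntF.add | with_reducible_and_instances apply IntF.sub | with_reducible_and_instances apply IntF.neg | with_reducible_and_instances apply IntF.smul | with_reducible apply Int.fin | with_reducible apply IntF.sep | with_reducible apply IntF.lam | with_reducible apply IntF.insert | with_reducible apply IntF.singleton | with_reducible apply IntF.union | with_reducible apply IntF.iimage | with_reducible apply IntF.ite | with_reducible apply IntF.the | with_reducible apply IntF.irec | with_reducible apply IntF.succ | with_reducible apply IntF.val | with_reducible apply IntF.mk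 | (with_reducible refine Int.comp ?_ ?_; assumption) | (with_reducible refine Int.comp₂ ?_ ?_ ?_; assumption) | (with_reducible refine Int.comp₃ ?_ ?_ ?_ ?_; assumption) | (with_reducible refine Int.comp₄ ?_ ?_ ?_ ?_ ?_; assumption) | (with_reducible refine IntF.comp ?_ ?_; assumption) | (with_reducible refine IntF.comp₂ ?_ ?_ ?_; assumption) | (with_reducible refine IntF.comp₃ ?_ ?_ ?_ ?_; assumption) | with_reducible apply IntF.pair)))
      have h2 : Int N (fun q : (Plain.El j × α) × INat N => P q.1.2) := Int.comp (p := P)
        (f := fun q : (Plain.El j × α) × INat N => q.1.2) hIP (by (repeat' (first | with_reducible exact IntF.id | with_reducible exact IntF.fst' | with_reducible exact IntF.snd' | with_reducible exact IntF.const _ | with_reducible exact Int.const _ | assumption | with_reducible apply Int.and | with_reducible apply Int.or | with_reducible apply Int.not | with_reducible apply Int.imp | with_reducible apply Int.iff | with_reducible apply Int.ne | with_reducible apply Int.eq | with_reducible apply Int.mem | with_reducible apply Int.subset |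 with_reducible apply Int.ltN | with_reducible apply Int.leN | with_reducible_and_instances apply Int.le | with_reducible_and_instances apply Int.lt | with_reducible apply Int.all | with_reducible apply Int.ex | with_reducible apply IntF.fst | with_reducible apply IntF.snd | with_reducible apply IntF.app | with_reducible apply IntF.inl | with_reducible apply IntF.inr | with_reducible_and_instances apply IntF.mul | with_reducible_and_instances apply IntF.inv | with_reducible_and_instances apply IntF.add | with_reducible_and_instances apply IntF.sub | with_reducible_and_instances apply IntF.neg | with_reducible_and_instances apply IntF.smul | with_reducible apply Int.fin | with_reducible apply IntF.sep | with_reducible apply IntF.lam | with_reducible apply IntF.insert | with_reducible apply IntF.singleton | with_reducible apply IntF.union | with_reducible apply IntF.iimage | with_reducible apply IntF.ite | with_reducible apply IntF.the | with_reducible apply IntF.irec | with_reducible apply IntF.succ | with_reducible apply IntF.val | with_reducible apply IntF.mk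 | (with_reducible refine Int.comp ?_ ?_; assumption) | (with_reducible refine Int.comp₂ ?_ ?_ ?_; assumption) | (with_reducible refine Int.comp₃ ?_ ?_ ?_ ?_; assumption) | (with_reducible refine Int.comp₄ ?_ ?_ ?_ ?_ ?_; assumption) | (with_reducible refine IntF.comp ?_ ?_; assumption) | (with_reducible refine IntF.comp₂ ?_ ?_ ?_; assumption) | (with_reducible refine IntF.comp₃ ?_ ?_ ?_ ?_; assumption) | with_reducible apply IntF.pair)))
      have h3 : Int N (fun q : (Plain.El j × α) × INat N => q.2 = 0) := by (repeat' (first | with_reducible exact IntF.id | with_reducible exact IntF.fst' | with_reducible exact IntF.snd' | with_reducible exact IntF.const _ | with_reducible exact Int.const _ | assumption | with_reducible apply Int.and | with_reducible apply Int.or | with_reducible apply Int.not | with_reducible apply Int.imp | with_reducible apply Int.iff | with_reducible apply Int.ne | with_reducible apply Int.eq | with_reducible apply Int.mem | with_reducible apply Int.subset | with_reducible apply Int.ltN | with_reducible apply Int.leN | with_reducible_and_instances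 apply Int.le | with_reducible_and_instances apply Int.lt | with_reducible apply Int.all | with_reducible apply Int.ex | with_reducible apply IntF.fst | with_reducible apply IntF.snd | with_reducible apply IntF.app | with_reducible apply IntF.inl | with_reducible apply IntF.inr | with_reducible_and_instances apply IntF.mul | with_reducible_and_instances apply IntF.inv | with_reducible_and_instances apply IntF.add | with_reducible_and_instances apply IntF.sub | with_reducible_and_instances apply IntF.neg | with_reducible_and_instances apply IntF.smul | with_reducible apply Int.fin | with_reducible apply IntF.sep | with_reducible apply IntF.lam | with_reducible apply IntF.insert | with_reducible apply IntF.singleton | with_reducible apply IntF.union | with_reducible apply IntF.iimage | with_reducible apply IntF.ite | with_reducible apply IntF.the | with_reducible apply IntF.irec | with_reducible apply IntF.succ | with_reducible apply IntF.val | with_reducible apply IntF.mk | (with_reducible refine Int.comp ?_ ?_; assumption) | (with_reducible refine Int.comp₂ ?_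 ?_ ?_; assumption) | (with_reducible refine Int.comp₃ ?_ ?_ ?_ ?_; assumption) | (with_reducible refine Int.comp₄ ?_ ?_ ?_ ?_ ?_; assumption) | (with_reducible refine IntF.comp ?_ ?_; assumption) | (with_reducible refine IntF.comp₂ ?_ ?_ ?_; assumption) | (with_reducible refine IntF.comp₃ ?_ ?_ ?_ ?_; assumption) | with_reducible apply IntF.pair))
      exact (h2.and h1).or (h2.not.and h3)
    · rintro ⟨i, s⟩ n
      by_cases hs : P s
      · rw [← hF1 i s n hs]
        exact ⟨fun h1 => h1.elim (fun h1 => h1.2) fun h1 => absurd hs h1.1,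
          fun h1 => Or.inl ⟨hs, h1⟩⟩
      · have h1 : F (i, s) = 0 := (hF (i, s)).elim (fun h1 => absurd h1.1 hs) fun h1 => h1.2
        rw [h1]
        exact ⟨fun h2 => h2.elim (fun h2 => absurd h2.1 hs) fun h2 => h2.2.symm,
          fun h2 => Or.inr ⟨hs, h2.symm⟩⟩
  refine ⟨j, F, hIF, ?_, ?_, ?_⟩
  · intro i z hz
    obtain ⟨v, hv, hv'⟩ := hcyl i.1 (code (F (i, z))) i.2
    have hI : Int N (fun s : α => P s ∧ F (i, s) = F (i, z)) := by
      have h1 : Int N (fun s : α => F (i, s) = F (i, z)) := by (repeat' (first | with_reducible exact IntF.id | with_reducible exact IntF.fst' | with_reducible exact IntF.snd' | with_reducible exact IntF.const _ | with_reducible exact Int.const _ | assumption | with_reducible apply Int.and | with_reducible apply Int.or | with_reducible apply Int.not | with_reducible apply Int.imp | with_reducible apply Int.iff | with_reducible apply Int.ne | with_reducible apply Int.eq | with_reducible apply Int.mem | with_reducible apply Int.subset | with_reducible apply Int.ltN | with_reducible apply Int.leN | with_reducible_and_instances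 apply Int.le | with_reducible_and_instances apply Int.lt | with_reducible apply Int.all | with_reducible apply Int.ex | with_reducible apply IntF.fst | with_reducible apply IntF.snd | with_reducible apply IntF.app | with_reducible apply IntF.inl | with_reducible apply IntF.inr | with_reducible_and_instances apply IntF.mul | with_reducible_and_instances apply IntF.inv | with_reducible_and_instances apply IntF.add | with_reducible_and_instances apply IntF.sub | with_reducible_and_instances apply IntF.neg | with_reducible_and_instances apply IntF.smul | with_reducible apply Int.fin | with_reducible apply IntF.sep | with_reducible apply IntF.lam | with_reducible apply IntF.insert | with_reducible apply IntF.singleton | with_reducible apply IntF.union | with_reducible apply IntF.iimage | with_reducible apply IntF.ite | with_reducible apply IntF.the | with_reducible apply IntF.irec | with_reducible apply IntF.succ | with_reducible apply IntF.val | with_reducible apply IntF.mk | (with_reducible refine Int.comp ?_ ?_; assumption) | (with_reducible refine Int.comp₂ ?_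 ?_ ?_; assumption) | (with_reducible refine Int.comp₃ ?_ ?_ ?_ ?_; assumption) | (with_reducible refine Int.comp₄ ?_ ?_ ?_ ?_ ?_; assumption) | (with_reducible refine IntF.comp ?_ ?_; assumption) | (with_reducible refine IntF.comp₂ ?_ ?_ ?_; assumption) | (with_reducible refine IntF.comp₃ ?_ ?_ ?_ ?_; assumption) | with_reducible apply IntF.pair))
      exact hIP.and h1
    refine ⟨sep N fun s : α => P s ∧ F (i, s) = F (i, z), ?_, (mem_sep hI).2 ⟨hz, rfl⟩,
      fun w hw => ((mem_sep hI).1 hw).2⟩
    rw [← mem_ts' hS]
    refine (htop _).2 ⟨fun x hx => ?_, v, hv, fun x f hf => ?_⟩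
    · obtain ⟨s, h1, rfl⟩ := mem_codeB.1 hx
      exact (mem_xs' hS).2 ((mem_sep hI).1 h1).1
    · constructor
      · intro hx
        obtain ⟨s, h1, rfl⟩ := mem_codeB.1 hx
        obtain ⟨h0, h1⟩ := (mem_sep hI).1 h1
        obtain ⟨g, h2, h3⟩ := (hF1 i s _ h0).2 h1
        rw [app_uniq hh.1 h2 hf] at h3
        exact (hv' f).2 ⟨(app_dom hh.1 hf).2, h3⟩
      · intro hfv
        obtain ⟨s, hs, rfl⟩ := (mem_xs hS).1 (app_dom hh.1 hf).1
        exact mem_codeB'.2 ((mem_sep hI).2 ⟨hs, (hF1 i s _ hs).1 ⟨f, hf, ((hv' f).1 hfv).2⟩⟩)
  · intro p hp hfin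
    have hf : IsFun (code (⟨p, hp⟩ : IFun N (Plain.El j) (INat N))) j w :=
      isFun_code _ (fun z => ⟨fun h => ⟨⟨z, h⟩, rfl⟩, fun ⟨x, h⟩ => h ▸ x.2⟩)
        fun i => (mem_omega hw).2 ⟨p i, rfl⟩
    have happ : ∀ i : Plain.El j, App (code (⟨p, hp⟩ : IFun N (Plain.El j) (INat N))) i.1
        (code (p i)) := fun i => app_code.2 ⟨i, rfl, rfl⟩
    have hfc := (hc _).2 hf
    by_cases hin : ∃ z, App h z (code (⟨p, hp⟩ : IFun N (Plain.El j) (INat N)))
    · obtain ⟨z, hz⟩ := hin
      obtain ⟨s, hs, rfl⟩ := (mem_xs hS).1 (app_dom hh.1 hz).1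
      exact ⟨s, hs, fun i => (hF1 i s _ hs).1 ⟨_, hz, happ i⟩⟩
    · exfalso
      obtain ⟨s', h1, h2, h3⟩ := ((ht vc).1 hvc).2 _ ((hvc' _ hfc).2 hin)
      obtain ⟨S, h4, rfl⟩ := hfinj s' h1 h2
      obtain ⟨s, h5, h6⟩ := hfin S h4
      obtain ⟨g, h7, h8⟩ := hval s h5
      refine (hvc' g h8).1 (h3 g h8 fun i y hi hy => ?_) ⟨_, h7⟩
      obtain ⟨b, hb, rfl⟩ := mem_codeB.1 hi
      obtain ⟨g', h9, h10⟩ := (hF1 b s _ h5).2 (h6 b hb)
      rw [app_uniq hh.1 h9 h7] at h10
      rw [app_uniq hf hy (happ b)]
      exact h10
  · intro U s₀ hU hs₀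
    have hPs₀ := hS.sub U hU s₀ hs₀
    obtain ⟨-, v, hv, h2⟩ := (htop _).1 ((mem_ts' hS).2 hU)
    obtain ⟨f, h3, h4⟩ := hval s₀ hPs₀
    have h5 : Mem f v := (h2 _ _ h3).1 (mem_codeB'.2 hs₀)
    obtain ⟨s', h6, h7, h8⟩ := ((ht v).1 hv).2 f h5
    obtain ⟨S, h9, rfl⟩ := hfinj s' h6 h7
    refine ⟨S, h9, fun s hs hag => ?_⟩
    obtain ⟨g, h10, h11⟩ := hval s hs
    have h12 : Mem g v := by
      refine h8 g h11 fun i y hi hy => ?_
      obtain ⟨k, hk, rfl⟩ := mem_codeB.1 hi
      obtain ⟨n, rfl⟩ := (mem_omega hw).1 (app_dom ((hc f).1 h4) hy).2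
      have h12 : F (k, s₀) = n := (hF1 k s₀ n hPs₀).1 ⟨f, h3, hy⟩
      obtain ⟨g', h13, h14⟩ := (hF1 k s n hs).2 ((hag k hk).trans h12)
      rw [app_uniq hh.1 h13 h10] at h14
      exact h14
    exact mem_codeB'.1 ((h2 _ _ h10).2 h12)

end

end Pool.Agent.V11257Z
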