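import Pool.Agent.V11257.Cr7
import Pool.Agent.V11257.Zt4

/-!
# A zero-dimensional subspace of the real line that is not N-compact
-/

set_option maxHeartbeats 1000000
set_option linter.all false
set_option synthInstance.maxSize 2000

namespace Pool.Agent.Helper672.ZFA.V257

open FirstOrder FirstOrder.Language
open H635 (IR)
open Pool.Agent.Helper672.Plain (LSet)
open Pool.Agent.H310
open Pool.Agent.H635Amen
open Pool.Agent.H310Cards
open Pool.Agent.H310Top
open Pool.Agent.V11246
open Pool.Agent.V11257C (CR HasCR IsRealSub)
open Pool.Agent.V11257Z (nco_unfold)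
open Pool.Agent.Helper672.ZFA.V246

universe u

section

attribute [local instance] Helper672.Plain.toL

variable {N : Type u} [LSet.Structure N] [hZ : Helper672.Plain.Zermelo N]

local instance instModelCs1 : IsModel N := Helper672.Plain.isModel_toL

/-- The points of the interval outside of the dense set. -/
def Xd (Dp : IR N → Prop) (t : IR N) : Prop := 0 < t ∧ t < 1 ∧ ¬ Dp t

variable {Dp : IR N → Prop} (h : DR N Dp)

include h

theorem int_Xd : Int N (Xd Dp) := by
  have := h.int
  unfold Xd
  (repeat' (first | with_reducible exact IntF.id | with_reducible exact IntF.fst' | with_reducible exact IntF.snd' | with_reducible exact IntF.const _ | with_reducible exact Int.const _ | assumption | with_reducible apply Int.and | with_reducible apply Int.or | with_reducible apply Int.not | with_reducible apply Int.imp | with_reducible apply Int.iff | with_reducible apply Int.ne | with_reducible apply Int.eq | with_reducible apply Int.mem | with_reducible apply Int.subset | with_reducible apply Int.ltN | with_reducible apply Int.leN | with_reducible_and_instances apply Int.le | with_reducible_and_instances apply Int.lt | with_reducible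 apply Int.all | with_reducible apply Int.ex | with_reducible apply IntF.fst | with_reducible apply IntF.snd | with_reducible apply IntF.app | with_reducible apply IntF.inl | with_reducible apply IntF.inr | with_reducible_and_instances apply IntF.mul | with_reducible_and_instances apply IntF.inv | with_reducible_and_instances apply IntF.add | with_reducible_and_instances apply IntF.sub | with_reducible_and_instances apply IntF.neg | with_reducible_and_instances apply IntF.smul | with_reducible apply Int.fin | with_reducible apply IntF.sep | with_reducible apply IntF.lam | with_reducible apply IntF.insert | with_reducible apply IntF.singleton | with_reducible apply IntF.union | with_reducible apply IntF.iimage | with_reducible apply IntF.ite | with_reducible apply IntF.the | with_reducible apply IntF.irec | with_reducible apply IntF.succ | with_reducible apply IntF.val | with_reducible apply IntF.mk | (with_reducible refine Int.comp ?_ ?_; assumption) | (with_reducible refine Int.comp₂ ?_ ?_ ?_; assumption) | (with_reducible refine Int.comp₃ ?_ ?_ ?_ ?_; assumption) | (with_reducible refine Int.comp₄ ?_ ?_ ?_ ?_ ?_; assumption)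 | (with_reducible refine IntF.comp ?_ ?_; assumption) | (with_reducible refine IntF.comp₂ ?_ ?_ ?_; assumption) | (with_reducible refine IntF.comp₃ ?_ ?_ ?_ ?_; assumption) | with_reducible apply IntF.pair))

theorem Xd_of_Qr {t : IR N} (h0 : 0 < t) (h1 : t < 1) (hq : Qr t) : Xd Dp t :=
  ⟨h0, h1, fun h2 => h.irr t h2 hq⟩

theorem exists_Xd {a b : IR N} (h0 : 0 ≤ a) (hab : a < b) (h1 : b ≤ 1) :
    ∃ t, Qr t ∧ a < t ∧ t < b ∧ Xd Dp t := by
  obtain ⟨t, h2, h3, h4⟩ := exists_Qr h0 hab h1
  exact ⟨t, h2, h3, h4, Xd_of_Qr h (by linarith) (by linarith) h2⟩

/-- The part where a function is constant. -/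
def SS (Dp : IR N → Prop) (f : IR N → INat N) (u v t : IR N) : Prop :=
  u ≤ t ∧ t ≤ v ∧ ∀ w, Xd Dp w → u ≤ w → w ≤ t → f w = f u

/-- The end of the interval where a function is constant. -/
def LB (Dp : IR N → Prop) (f : IR N → INat N) (u v p : IR N) : Prop :=
  (∀ t, SS Dp f u v t → t ≤ p) ∧ ∀ b, (∀ t, SS Dp f u v t → t ≤ b) → p ≤ b

omit h in
theorem LB_uniq {f : IR N → INat N} {u v p p' : IR N} (h1 : LB Dp f u v p) (h2 : LB Dp f u v p') :
    p = p' := le_antisymm (h1.2 _ h2.1) (h2.2 _ h1.1)

theorem exists_LB {f : IR N → INat N} (hf : IntF N f)
    (hc : ∀ z, Xd Dp z → ∃ b c, b < z ∧ z < c ∧ ∀ d, Xd Dp d → b < d → d < c → f d = f z)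
    {u v : IR N} (hu : Xd Dp u) (hv : Xd Dp v) (huv : u < v) (hne : f u ≠ f v) :
    ∃ p, Dp p ∧ u ≤ p ∧ p ≤ v ∧ LB Dp f u v p := by
  have hX := int_Xd h
  have iS : Int N (SS Dp f u v) := by
    unfold SS
    (repeat' (first | with_reducible exact IntF.id | with_reducible exact IntF.fst' | with_reducible exact IntF.snd' | with_reducible exact IntF.const _ | with_reducible exact Int.const _ | assumption | with_reducible apply Int.and | with_reducible apply Int.or | with_reducible apply Int.not | with_reducible apply Int.imp | with_reducible apply Int.iff | with_reducible apply Int.ne | with_reducible apply Int.eq | with_reducible apply Int.mem | with_reducible apply Int.subset | with_reducible apply Int.ltN | with_reducible apply Int.leN | with_reducible_and_instances apply Int.le | with_reducible_and_instances apply Int.lt | with_reducible apply Int.all | with_reducible apply Int.ex | with_reducible apply IntF.fst | with_reducible apply IntF.snd | with_reducible apply IntF.app | with_reducible apply IntF.inl | with_reducible apply IntF.inr | with_reducible_and_instances apply IntF.mul | with_reducible_and_instances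 apply IntF.inv | with_reducible_and_instances apply IntF.add | with_reducible_and_instances apply IntF.sub | with_reducible_and_instances apply IntF.neg | with_reducible_and_instances apply IntF.smul | with_reducible apply Int.fin | with_reducible apply IntF.sep | with_reducible apply IntF.lam | with_reducible apply IntF.insert | with_reducible apply IntF.singleton | with_reducible apply IntF.union | with_reducible apply IntF.iimage | with_reducible apply IntF.ite | with_reducible apply IntF.the | with_reducible apply IntF.irec | with_reducible apply IntF.succ | with_reducible apply IntF.val | with_reducible apply IntF.mk | (with_reducible refine Int.comp ?_ ?_; assumption) | (with_reducible refine Int.comp₂ ?_ ?_ ?_; assumption) | (with_reducible refine Int.comp₃ ?_ ?_ ?_ ?_; assumption) | (with_reducible refine Int.comp₄ ?_ ?_ ?_ ?_ ?_; assumption) | (with_reducible refine IntF.comp ?_ ?_; assumption) | (with_reducible refine IntF.comp₂ ?_ ?_ ?_; assumption) | (with_reducible refine IntF.comp₃ ?_ ?_ ?_ ?_; assumption) | with_reducible apply IntF.pair))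
  have h0 : SS Dp f u v u := ⟨le_rfl, huv.le, fun w _ h1 h2 => by rw [le_antisymm h2 h1]⟩
  obtain ⟨p, h1, h2⟩ := IR.complete (⟨_, iS⟩ : IPow N (IR N)) ⟨u, h0⟩ ⟨v, fun t ht => ht.2.1⟩
  have h3 : u ≤ p := h1 u h0
  have h4 : p ≤ v := h2 v fun t ht => ht.2.1
  refine ⟨p, ?_, h3, h4, fun t ht => h1 t ht, fun b hb => h2 b fun t ht => hb t ht⟩
  by_contra hp
  have hXp : Xd Dp p := ⟨lt_of_lt_of_le hu.1 h3, lt_of_le_of_lt h4 hv.2.1, hp⟩
  obtain ⟨b, c, hb, hc1, hbc⟩ := hc p hXp
  have h5 : ∀ b, b < p → ∃ t, SS Dp f u v t ∧ b < t := by
    intro b hb
    by_contra h6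
    refine absurd (h2 b fun t ht => ?_) (not_le.2 hb)
    by_contra h7
    exact h6 ⟨t, ht, not_le.1 h7⟩
  have h6 : f p = f u := by
    obtain ⟨t, ht, h7⟩ := h5 b hb
    rcases lt_or_eq_of_le ht.1 with h8 | h8
    · obtain ⟨w, -, h9, h10, h11⟩ := exists_Xd h (a := max b u) (b := t)
        (hu.1.le.trans (le_max_right _ _)) (max_lt h7 h8)
        (le_trans (h1 t ht) hXp.2.1.le)
      have h12 : t ≤ p := h1 t ht
      rw [← hbc w h11 (lt_of_le_of_lt (le_max_left _ _) h9) (lt_of_lt_of_le h10 (h12.trans hc1.le)),
        ht.2.2 w h11 (le_trans (le_max_right _ _) h9.le) h10.le]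
    · rw [← h8] at h7
      exact (hbc u hu h7 (lt_of_le_of_lt h3 hc1)).symm
  rcases lt_or_eq_of_le h4 with h7 | h7
  · obtain ⟨t', h8, h9⟩ : ∃ t', p < t' ∧ t' ≤ min c v ∧ t' < c := by
      obtain ⟨w, -, h9, h10, h11⟩ := exists_Xd h (a := p) (b := min c v) hXp.1.le
        (lt_min hc1 h7) (le_trans (min_le_right _ _) hv.2.1.le)
      exact ⟨w, h9, h10.le, lt_of_lt_of_le h10 (min_le_left _ _)⟩
    refine absurd (h1 t' ⟨h3.trans h8.le, h9.1.trans (min_le_right _ _), fun w hw h10 h11 => ?_⟩)
      (not_le.2 h8)
    rcases lt_trichotomy w p with h12 | h12 | h12
    · obtain ⟨t, ht, h13⟩ := h5 w h12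
      exact ht.2.2 w hw h10 h13.le
    · rw [h12, h6]
    · rw [hbc w hw (hb.trans h12) (lt_of_le_of_lt h11 h9.2), h6]
  · rw [h7] at h6
    exact hne h6.symm

/-- Continuous functions are constant to the left of a point of the dense set. -/
theorem const_left {f : IR N → INat N} (hf : IntF N f)
    (hc : ∀ z, Xd Dp z → ∃ b c, b < z ∧ z < c ∧ ∀ d, Xd Dp d → b < d → d < c → f d = f z)
    {q : IR N} (hq : Dp q) : ∃ n a, 0 ≤ a ∧ a < q ∧ ∀ s, Xd Dp s → a < s → s < q → f s = n := by
  have hX := int_Xd h
  have hD := h.int
  have hE := int_En (N := N)
  have hpr : IntF N (fun q : INat N × INat N => pr q.1 q.2) := int_pr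
  have iS : Int N (fun q : IR N × (IR N × IR N) => SS Dp f q.1 q.2.1 q.2.2) := by
    unfold SS
    (repeat' (first | with_reducible exact IntF.id | with_reducible exact IntF.fst' | with_reducible exact IntF.snd' | with_reducible exact IntF.const _ | with_reducible exact Int.const _ | assumption | with_reducible apply Int.and | with_reducible apply Int.or | with_reducible apply Int.not | with_reducible apply Int.imp | with_reducible apply Int.iff | with_reducible apply Int.ne | with_reducible apply Int.eq | with_reducible apply Int.mem | with_reducible apply Int.subset | with_reducible apply Int.ltN | with_reducible apply Int.leN | with_reducible_and_instances apply Int.le | with_reducible_and_instances apply Int.lt | with_reducible apply Int.all | with_reducible apply Int.ex | with_reducible apply IntF.fst | with_reducible apply IntF.snd | with_reducible apply IntF.app | with_reducible apply IntF.inl | with_reducible apply IntF.inr | with_reducible_and_instances apply IntF.mul | with_reducible_and_instances apply IntF.inv | with_reducible_and_instances apply IntF.add | with_reducible_and_instances apply IntF.sub |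 with_reducible_and_instances apply IntF.neg | with_reducible_and_instances apply IntF.smul | with_reducible apply Int.fin | with_reducible apply IntF.sep | with_reducible apply IntF.lam | with_reducible apply IntF.insert | with_reducible apply IntF.singleton | with_reducible apply IntF.union | with_reducible apply IntF.iimage | with_reducible apply IntF.ite | with_reducible apply IntF.the | with_reducible apply IntF.irec | with_reducible apply IntF.succ | with_reducible apply IntF.val | with_reducible apply IntF.mk | (with_reducible refine Int.comp ?_ ?_; assumption) | (with_reducible refine Int.comp₂ ?_ ?_ ?_; assumption) | (with_reducible refine Int.comp₃ ?_ ?_ ?_ ?_; assumption) | (with_reducible refine Int.comp₄ ?_ ?_ ?_ ?_ ?_; assumption) | (with_reducible refine IntF.comp ?_ ?_; assumption) | (with_reducible refine IntF.comp₂ ?_ ?_ ?_; assumption) | (with_reducible refine IntF.comp₃ ?_ ?_ ?_ ?_; assumption) | with_reducible apply IntF.pair))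
  have iL : Int N (fun q : IR N × (IR N × IR N) => LB Dp f q.1 q.2.1 q.2.2) := by
    unfold LB SS
    (repeat' (first | with_reducible exact IntF.id | with_reducible exact IntF.fst' | with_reducible exact IntF.snd' | with_reducible exact IntF.const _ | with_reducible exact Int.const _ | assumption | with_reducible apply Int.and | with_reducible apply Int.or | with_reducible apply Int.not | with_reducible apply Int.imp | with_reducible apply Int.iff | with_reducible apply Int.ne | with_reducible apply Int.eq | with_reducible apply Int.mem | with_reducible apply Int.subset | with_reducible apply Int.ltN | with_reducible apply Int.leN | with_reducible_and_instances apply Int.le | with_reducible_and_instances apply Int.lt | with_reducible apply Int.all | with_reducible apply Int.ex | with_reducible apply IntF.fst | with_reducible apply IntF.snd | with_reducible apply IntF.app | with_reducible apply IntF.inl | with_reducible apply IntF.inr | with_reducible_and_instances apply IntF.mul | with_reducible_and_instances apply IntF.inv | with_reducible_and_instances apply IntF.add | with_reducible_and_instances apply IntF.sub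 | with_reducible_and_instances apply IntF.neg | with_reducible_and_instances apply IntF.smul | with_reducible apply Int.fin | with_reducible apply IntF.sep | with_reducible apply IntF.lam | with_reducible apply IntF.insert | with_reducible apply IntF.singleton | with_reducible apply IntF.union | with_reducible apply IntF.iimage | with_reducible apply IntF.ite | with_reducible apply IntF.the | with_reducible apply IntF.irec | with_reducible apply IntF.succ | with_reducible apply IntF.val | with_reducible apply IntF.mk | (with_reducible refine Int.comp ?_ ?_; assumption) | (with_reducible refine Int.comp₂ ?_ ?_ ?_; assumption) | (with_reducible refine Int.comp₃ ?_ ?_ ?_ ?_; assumption) | (with_reducible refine Int.comp₄ ?_ ?_ ?_ ?_ ?_; assumption) | (with_reducible refine IntF.comp ?_ ?_; assumption) | (with_reducible refine IntF.comp₂ ?_ ?_ ?_; assumption) | (with_reducible refine IntF.comp₃ ?_ ?_ ?_ ?_; assumption) | with_reducible apply IntF.pair))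
  by_contra hno
  have hno2 : ∀ a, 0 ≤ a → a < q → ∃ u v, Qr u ∧ Qr v ∧ Xd Dp u ∧ Xd Dp v ∧ a < u ∧ u < v ∧ v < q ∧
      f u ≠ f v := by
    intro a ha haq
    obtain ⟨s, -, h1, h2, h3⟩ := exists_Xd h ha haq (h.pos q hq).2.le
    have h4 : ∃ t, Xd Dp t ∧ a < t ∧ t < q ∧ f t ≠ f s := by
      by_contra h5
      refine hno ⟨f s, a, ha, haq, fun t h6 h7 h8 => ?_⟩
      by_contra h9
      exact h5 ⟨t, h6, h7, h8, h9⟩
    obtain ⟨t, h5, h6, h7, h8⟩ := h4
    have key : ∀ z, Xd Dp z → a < z → z < q → ∃ u, Qr u ∧ Xd Dp u ∧ a < u ∧ u < q ∧ f u = f z := by
      intro z hz h9 h10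
      obtain ⟨b, c, hb, hc1, hbc⟩ := hc z hz
      obtain ⟨w, h11, h12, h13, h14⟩ := exists_Xd h (a := max b a) (b := z)
        (ha.trans (le_max_right _ _)) (max_lt hb h9) hz.2.1.le
      exact ⟨w, h11, h14, lt_of_le_of_lt (le_max_right _ _) h12, h13.trans h10,
        hbc w h14 (lt_of_le_of_lt (le_max_left _ _) h12) (h13.trans hc1)⟩
    obtain ⟨u, u1, u2, u3, u4, u5⟩ := key s h3 h1 h2
    obtain ⟨v, v1, v2, v3, v4, v5⟩ := key t h5 h6 h7
    have huv : f u ≠ f v := by
      rw [u5, v5]
      exact h8.symm
    rcases lt_trichotomy u v with h9 | h9 | h9
    · exact ⟨u, v, u1, v1, u2, v2, u3, h9, v4, huv⟩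
    · exact absurd (congrArg f h9) huv
    · exact ⟨v, u, v1, u1, v2, u2, v3, h9, u4, huv.symm⟩
  have hC : Int N (fun p : INat N × IR N => ∃ i j u v, p.1 = pr i j ∧ En (i, u) ∧ En (j, v) ∧
      LB Dp f u v p.2) := by
    unfold LB SS
    (repeat' (first | with_reducible exact IntF.id | with_reducible exact IntF.fst' | with_reducible exact IntF.snd' | with_reducible exact IntF.const _ | with_reducible exact Int.const _ | assumption | with_reducible apply Int.and | with_reducible apply Int.or | with_reducible apply Int.not | with_reducible apply Int.imp | with_reducible apply Int.iff | with_reducible apply Int.ne | with_reducible apply Int.eq | with_reducible apply Int.mem | with_reducible apply Int.subset | with_reducible apply Int.ltN | with_reducible apply Int.leN | with_reducible_and_instances apply Int.le | with_reducible_and_instances apply Int.lt | with_reducible apply Int.all | with_reducible apply Int.ex | with_reducible apply IntF.fst | with_reducible apply IntF.snd | with_reducible apply IntF.app | with_reducible apply IntF.inl | with_reducible apply IntF.inr | with_reducible_and_instances apply IntF.mul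 | with_reducible_and_instances apply IntF.inv | with_reducible_and_instances apply IntF.add | with_reducible_and_instances apply IntF.sub | with_reducible_and_instances apply IntF.neg | with_reducible_and_instances apply IntF.smul | with_reducible apply Int.fin | with_reducible apply IntF.sep | with_reducible apply IntF.lam | with_reducible apply IntF.insert | with_reducible apply IntF.singleton | with_reducible apply IntF.union | with_reducible apply IntF.iimage | with_reducible apply IntF.ite | with_reducible apply IntF.the | with_reducible apply IntF.irec | with_reducible apply IntF.succ | with_reducible apply IntF.val | with_reducible apply IntF.mk | (with_reducible refine Int.comp ?_ ?_; assumption) | (with_reducible refine Int.comp₂ ?_ ?_ ?_; assumption) | (with_reducible refine Int.comp₃ ?_ ?_ ?_ ?_; assumption) | (with_reducible refine Int.comp₄ ?_ ?_ ?_ ?_ ?_; assumption) | (with_reducible refine IntF.comp ?_ ?_; assumption) | (with_reducible refine IntF.comp₂ ?_ ?_ ?_; assumption) | (with_reducible refine IntF.comp₃ ?_ ?_ ?_ ?_; assumption) | with_reducible apply IntF.pair))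
  obtain ⟨G, hG, h1⟩ := h.seq _ hC (by
    rintro n s t ⟨i, j, u, v, h1, h2, h3, h4⟩ ⟨i', j', u', v', h1', h2', h3', h4'⟩
    obtain ⟨rfl, rfl⟩ := pr_inj (h1.symm.trans h1')
    rw [En_inj h2 h2', En_inj h3 h3'] at h4
    exact LB_uniq h4 h4')
  obtain ⟨b, c, hb, hc1, hbc⟩ := V257.fin_closed hG q
  obtain ⟨u, v, h2, h3, h4, h5, h6, h7, h8, h9⟩ := hno2 (max b 0) (le_max_right _ _)
    (max_lt hb (h.pos q hq).1)
  obtain ⟨p, hp, h10, h11, h12⟩ := exists_LB h hf hc h4 h5 h7 h9
  obtain ⟨i, hi⟩ := exists_En h2
  obtain ⟨j, hj⟩ := exists_En h3
  have h13 : p < q := lt_of_le_of_lt h11 h8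
  refine hbc p (h1 (pr i j) p ⟨i, j, u, v, rfl, hi, hj, h12⟩ hp) h13.ne ⟨?_, h13.trans hc1⟩
  exact lt_of_lt_of_le (lt_of_le_of_lt (le_max_left _ _) h6) h10

/-- The typed form of the failure of N-compactness. -/
theorem not_nco_aux {J : Type u} [ITy N J] (F : J × IR N → INat N) (hF : IntF N F)
    (h1 : ∀ i z, Xd Dp z → ∃ U, OR (Xd Dp) U ∧ z ∈ U ∧ ∀ w, w ∈ U → F (i, w) = F (i, z))
    (h2 : ∀ g : J → INat N, IntF N g → (∀ S : IPow N J, IFin S →
        ∃ z, Xd Dp z ∧ ∀ i, i ∈ S → F (i, z) = g i) → ∃ z, Xd Dp z ∧ ∀ i, F (i, z) = g i)
    (h3 : ∀ U z, OR (Xd Dp) U → z ∈ U → ∃ S : IPow N J, IFin S ∧ ∀ w, Xd Dp w →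
        (∀ i, i ∈ S → F (i, w) = F (i, z)) → w ∈ U) : False := by
  have hX := int_Xd h
  obtain ⟨q, hq, h00, h01⟩ := h.dense 0 1 le_rfl one_pos le_rfl
  have hc : ∀ i z, Xd Dp z → ∃ b c, b < z ∧ z < c ∧ ∀ d, Xd Dp d → b < d → d < c →
      F (i, d) = F (i, z) := by
    intro i z hz
    obtain ⟨U, hU, hzU, hUc⟩ := h1 i z hz
    obtain ⟨b, c, h4, h5, h6⟩ := hU.2 z hzU
    exact ⟨b, c, h4, h5, fun d hd hb hc => hUc d (h6 d hd hb hc)⟩
  have hex : ∀ i, ∃ n a, 0 ≤ a ∧ a < q ∧ ∀ s, Xd Dp s → a < s → s < q → F (i, s) = n :=
    fun i => const_left h (f := fun s => F (i, s)) (by (repeat' (first | with_reducible exact IntF.id | with_reducible exact IntF.fst' | with_reducible exact IntF.snd' | with_reducible exact IntF.const _ | with_reducible exact Int.const _ | assumption | with_reducible apply Int.and | with_reducible apply Int.or | with_reducible apply Int.not | with_reducible apply Int.imp | with_reducible apply Int.iff | with_reducible apply Int.ne | with_reducible apply Int.eq | with_reducible apply Int.mem | with_reducible apply Int.subset | with_reducible apply Int.ltN | with_reducible apply Int.leN | with_reducible_and_instances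 apply Int.le | with_reducible_and_instances apply Int.lt | with_reducible apply Int.all | with_reducible apply Int.ex | with_reducible apply IntF.fst | with_reducible apply IntF.snd | with_reducible apply IntF.app | with_reducible apply IntF.inl | with_reducible apply IntF.inr | with_reducible_and_instances apply IntF.mul | with_reducible_and_instances apply IntF.inv | with_reducible_and_instances apply IntF.add | with_reducible_and_instances apply IntF.sub | with_reducible_and_instances apply IntF.neg | with_reducible_and_instances apply IntF.smul | with_reducible apply Int.fin | with_reducible apply IntF.sep | with_reducible apply IntF.lam | with_reducible apply IntF.insert | with_reducible apply IntF.singleton | with_reducible apply IntF.union | with_reducible apply IntF.iimage | with_reducible apply IntF.ite | with_reducible apply IntF.the | with_reducible apply IntF.irec | with_reducible apply IntF.succ | with_reducible apply IntF.val | with_reducible apply IntF.mk | (with_reducible refine Int.comp ?_ ?_; assumption) | (with_reducible refine Int.comp₂ ?_ ?_ ?_; assumption) | (with_reducible refine Int.comp₃ ?_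 ?_ ?_ ?_; assumption) | (with_reducible refine Int.comp₄ ?_ ?_ ?_ ?_ ?_; assumption) | (with_reducible refine IntF.comp ?_ ?_; assumption) | (with_reducible refine IntF.comp₂ ?_ ?_ ?_; assumption) | (with_reducible refine IntF.comp₃ ?_ ?_ ?_ ?_; assumption) | with_reducible apply IntF.pair))) (hc i) hq
  have huq : ∀ i n n', (∃ a, 0 ≤ a ∧ a < q ∧ ∀ s, Xd Dp s → a < s → s < q → F (i, s) = n) →
      (∃ a, 0 ≤ a ∧ a < q ∧ ∀ s, Xd Dp s → a < s → s < q → F (i, s) = n') → n = n' := by
    rintro i n n' ⟨a, h4, h5, h6⟩ ⟨a', h7, h8, h9⟩
    obtain ⟨s, -, h10, h11, h12⟩ := exists_Xd h (a := max a a') (b := q)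
      (h4.trans (le_max_left _ _)) (max_lt h5 h8) h01.le
    rw [← h6 s h12 (lt_of_le_of_lt (le_max_left _ _) h10) h11,
      ← h9 s h12 (lt_of_le_of_lt (le_max_right _ _) h10) h11]
  choose g hg using hex
  have ig : IntF N g := by
    refine IntF.of_rel (r := fun i n => ∃ a, 0 ≤ a ∧ a < q ∧ ∀ s, Xd Dp s → a < s → s < q →
      F (i, s) = n) (by (repeat' (first | with_reducible exact IntF.id | with_reducible exact IntF.fst' | with_reducible exact IntF.snd' | with_reducible exact IntF.const _ | with_reducible exact Int.const _ | assumption | with_reducible apply Int.and | with_reducible apply Int.or | with_reducible apply Int.not | with_reducible apply Int.imp | with_reducible apply Int.iff | with_reducible apply Int.ne | with_reducible apply Int.eq | with_reducible apply Int.mem | with_reducible apply Int.subset | with_reducible apply Int.ltN | with_reducible apply Int.leN | with_reducible_and_instances apply Int.le | with_reducible_and_instances apply Int.lt | with_reducible apply Int.all | with_reducible apply Int.ex | with_reducible apply IntF.fst | with_reducible apply IntF.snd | with_reducible apply IntF.app |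 with_reducible apply IntF.inl | with_reducible apply IntF.inr | with_reducible_and_instances apply IntF.mul | with_reducible_and_instances apply IntF.inv | with_reducible_and_instances apply IntF.add | with_reducible_and_instances apply IntF.sub | with_reducible_and_instances apply IntF.neg | with_reducible_and_instances apply IntF.smul | with_reducible apply Int.fin | with_reducible apply IntF.sep | with_reducible apply IntF.lam | with_reducible apply IntF.insert | with_reducible apply IntF.singleton | with_reducible apply IntF.union | with_reducible apply IntF.iimage | with_reducible apply IntF.ite | with_reducible apply IntF.the | with_reducible apply IntF.irec | with_reducible apply IntF.succ | with_reducible apply IntF.val | with_reducible apply IntF.mk | (with_reducible refine Int.comp ?_ ?_; assumption) | (with_reducible refine Int.comp₂ ?_ ?_ ?_; assumption) | (with_reducible refine Int.comp₃ ?_ ?_ ?_ ?_; assumption) | (with_reducible refine Int.comp₄ ?_ ?_ ?_ ?_ ?_; assumption) | (with_reducible refine IntF.comp ?_ ?_; assumption) | (with_reducible refine IntF.comp₂ ?_ ?_ ?_; assumption) | (with_reducible refine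 IntF.comp₃ ?_ ?_ ?_ ?_; assumption) | with_reducible apply IntF.pair))) fun i n => ⟨fun h4 => ?_, fun h4 => h4 ▸ hg i⟩
    exact huq i _ _ (hg i) h4
  have hfin : ∀ S : IPow N J, IFin S → ∃ a, 0 ≤ a ∧ a < q ∧ ∀ i, i ∈ S → ∀ s, Xd Dp s → a < s →
      s < q → F (i, s) = g i := by
    intro S hS
    refine IFin.ind (p := fun S : IPow N J => ∃ a, 0 ≤ a ∧ a < q ∧ ∀ i, i ∈ S → ∀ s, Xd Dp s →
      a < s → s < q → F (i, s) = g i) (by (repeat' (first | with_reducible exact IntF.id | with_reducible exact IntF.fst' | with_reducible exact IntF.snd' | with_reducible exact IntF.const _ | with_reducible exact Int.const _ | assumption | with_reducible apply Int.and | with_reducible apply Int.or | with_reducible apply Int.not | with_reducible apply Int.imp | with_reducible apply Int.iff | with_reducible apply Int.ne | with_reducible apply Int.eq | with_reducible apply Int.mem | with_reducible apply Int.subset | with_reducible apply Int.ltN | with_reducible apply Int.leN | with_reducible_and_instances apply Int.le | with_reducible_and_instances apply Int.lt | with_reducible apply Int.all | with_reducible apply Int.ex | with_reducible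 apply IntF.fst | with_reducible apply IntF.snd | with_reducible apply IntF.app | with_reducible apply IntF.inl | with_reducible apply IntF.inr | with_reducible_and_instances apply IntF.mul | with_reducible_and_instances apply IntF.inv | with_reducible_and_instances apply IntF.add | with_reducible_and_instances apply IntF.sub | with_reducible_and_instances apply IntF.neg | with_reducible_and_instances apply IntF.smul | with_reducible apply Int.fin | with_reducible apply IntF.sep | with_reducible apply IntF.lam | with_reducible apply IntF.insert | with_reducible apply IntF.singleton | with_reducible apply IntF.union | with_reducible apply IntF.iimage | with_reducible apply IntF.ite | with_reducible apply IntF.the | with_reducible apply IntF.irec | with_reducible apply IntF.succ | with_reducible apply IntF.val | with_reducible apply IntF.mk | (with_reducible refine Int.comp ?_ ?_; assumption) | (with_reducible refine Int.comp₂ ?_ ?_ ?_; assumption) | (with_reducible refine Int.comp₃ ?_ ?_ ?_ ?_; assumption) | (with_reducible refine Int.comp₄ ?_ ?_ ?_ ?_ ?_; assumption) | (with_reducible refine IntF.comp ?_ ?_; assumption)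 | (with_reducible refine IntF.comp₂ ?_ ?_ ?_; assumption) | (with_reducible refine IntF.comp₃ ?_ ?_ ?_ ?_; assumption) | with_reducible apply IntF.pair))) ?_ ?_ S hS
    · exact ⟨0, le_rfl, h00, fun i hi => absurd hi (by simp)⟩
    · rintro S i - - ⟨a, h4, h5, h6⟩
      obtain ⟨a', h7, h8, h9⟩ := hg i
      refine ⟨max a a', h4.trans (le_max_left _ _), max_lt h5 h8, fun k hk s hs h10 h11 => ?_⟩
      rcases mem_insert.1 hk with rfl | hk
      · exact h9 s hs (lt_of_le_of_lt (le_max_right _ _) h10) h11
      · exact h6 k hk s hs (lt_of_le_of_lt (le_max_left _ _) h10) h11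
  obtain ⟨z, hz, hzg⟩ := h2 g ig fun S hS => by
    obtain ⟨a, h4, h5, h6⟩ := hfin S hS
    obtain ⟨s, -, h7, h8, h9⟩ := exists_Xd h h4 h5 h01.le
    exact ⟨s, h9, fun i hi => h6 i hi s h9 h7 h8⟩
  have hzq : z ≠ q := fun h4 => hz.2.2 (h4 ▸ hq)
  have hhalf := half_pos' (N := N)
  rcases lt_or_gt_of_ne hzq with hlt | hlt
  · have iU : Int N (fun t : IR N => Xd Dp t ∧ t < (z + q) * 2⁻¹) := by (repeat' (first | with_reducible exact IntF.id | with_reducible exact IntF.fst' | with_reducible exact IntF.snd' | with_reducible exact IntF.const _ | with_reducible exact Int.const _ | assumption | with_reducible apply Int.and | with_reducible apply Int.or | with_reducible apply Int.not | with_reducible apply Int.imp | with_reducible apply Int.iff | with_reducible apply Int.ne | with_reducible apply Int.eq | with_reducible apply Int.mem | with_reducible apply Int.subset | with_reducible apply Int.ltN | with_reducible apply Int.leN | with_reducible_and_instances apply Int.le | with_reducible_and_instances apply Int.lt | with_reducible apply Int.all | with_reducible apply Int.ex | with_reducible apply IntF.fst | with_reducible apply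 IntF.snd | with_reducible apply IntF.app | with_reducible apply IntF.inl | with_reducible apply IntF.inr | with_reducible_and_instances apply IntF.mul | with_reducible_and_instances apply IntF.inv | with_reducible_and_instances apply IntF.add | with_reducible_and_instances apply IntF.sub | with_reducible_and_instances apply IntF.neg | with_reducible_and_instances apply IntF.smul | with_reducible apply Int.fin | with_reducible apply IntF.sep | with_reducible apply IntF.lam | with_reducible apply IntF.insert | with_reducible apply IntF.singleton | with_reducible apply IntF.union | with_reducible apply IntF.iimage | with_reducible apply IntF.ite | with_reducible apply IntF.the | with_reducible apply IntF.irec | with_reducible apply IntF.succ | with_reducible apply IntF.val | with_reducible apply IntF.mk | (with_reducible refine Int.comp ?_ ?_; assumption) | (with_reducible refine Int.comp₂ ?_ ?_ ?_; assumption) | (with_reducible refine Int.comp₃ ?_ ?_ ?_ ?_; assumption) | (with_reducible refine Int.comp₄ ?_ ?_ ?_ ?_ ?_; assumption) | (with_reducible refine IntF.comp ?_ ?_; assumption) | (with_reducible refine IntF.comp₂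 ?_ ?_ ?_; assumption) | (with_reducible refine IntF.comp₃ ?_ ?_ ?_ ?_; assumption) | with_reducible apply IntF.pair))
    obtain ⟨S, hS, h4⟩ := h3 (sep N fun t : IR N => Xd Dp t ∧ t < (z + q) * 2⁻¹) z
      ⟨fun s hs => ((mem_sep iU).1 hs).1, fun s hs => ⟨s - 1, (z + q) * 2⁻¹, by linarith,
        ((mem_sep iU).1 hs).2, fun d hd _ hc => (mem_sep iU).2 ⟨hd, hc⟩⟩⟩
      ((mem_sep iU).2 ⟨hz, by linarith⟩)
    obtain ⟨a, h5, h6, h7⟩ := hfin S hS
    obtain ⟨w, -, h8, h9, h10⟩ := exists_Xd h (a := max a ((z + q) * 2⁻¹)) (b := q)
      (h5.trans (le_max_left _ _)) (max_lt h6 (by linarith)) h01.le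
    have h11 := h4 w h10 fun i hi => by
      rw [h7 i hi w h10 (lt_of_le_of_lt (le_max_left _ _) h8) h9, hzg i]
    have h12 := ((mem_sep iU).1 h11).2
    exact absurd (lt_of_le_of_lt (le_max_right _ _) h8) (not_lt.2 h12.le)
  · have iU : Int N (fun t : IR N => Xd Dp t ∧ q < t) := by (repeat' (first | with_reducible exact IntF.id | with_reducible exact IntF.fst' | with_reducible exact IntF.snd' | with_reducible exact IntF.const _ | with_reducible exact Int.const _ | assumption | with_reducible apply Int.and | with_reducible apply Int.or | with_reducible apply Int.not | with_reducible apply Int.imp | with_reducible apply Int.iff | with_reducible apply Int.ne | with_reducible apply Int.eq | with_reducible apply Int.mem | with_reducible apply Int.subset | with_reducible apply Int.ltN | with_reducible apply Int.leN | with_reducible_and_instances apply Int.le | with_reducible_and_instances apply Int.lt | with_reducible apply Int.all | with_reducible apply Int.ex | with_reducible apply IntF.fst | with_reducible apply IntF.snd | with_reducible apply IntF.app | with_reducible apply IntF.inl | with_reducible apply IntF.inr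 | with_reducible_and_instances apply IntF.mul | with_reducible_and_instances apply IntF.inv | with_reducible_and_instances apply IntF.add | with_reducible_and_instances apply IntF.sub | with_reducible_and_instances apply IntF.neg | with_reducible_and_instances apply IntF.smul | with_reducible apply Int.fin | with_reducible apply IntF.sep | with_reducible apply IntF.lam | with_reducible apply IntF.insert | with_reducible apply IntF.singleton | with_reducible apply IntF.union | with_reducible apply IntF.iimage | with_reducible apply IntF.ite | with_reducible apply IntF.the | with_reducible apply IntF.irec | with_reducible apply IntF.succ | with_reducible apply IntF.val | with_reducible apply IntF.mk | (with_reducible refine Int.comp ?_ ?_; assumption) | (with_reducible refine Int.comp₂ ?_ ?_ ?_; assumption) | (with_reducible refine Int.comp₃ ?_ ?_ ?_ ?_; assumption) | (with_reducible refine Int.comp₄ ?_ ?_ ?_ ?_ ?_; assumption) | (with_reducible refine IntF.comp ?_ ?_; assumption) | (with_reducible refine IntF.comp₂ ?_ ?_ ?_; assumption) | (with_reducible refine IntF.comp₃ ?_ ?_ ?_ ?_; assumption) | with_reducible apply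 IntF.pair))
    obtain ⟨S, hS, h4⟩ := h3 (sep N fun t : IR N => Xd Dp t ∧ q < t) z
      ⟨fun s hs => ((mem_sep iU).1 hs).1, fun s hs => ⟨q, s + 1, ((mem_sep iU).1 hs).2,
        by linarith, fun d hd hb _ => (mem_sep iU).2 ⟨hd, hb⟩⟩⟩
      ((mem_sep iU).2 ⟨hz, hlt⟩)
    obtain ⟨a, h5, h6, h7⟩ := hfin S hS
    obtain ⟨w, -, h8, h9, h10⟩ := exists_Xd h h5 h6 h01.le
    have h11 := h4 w h10 fun i hi => by rw [h7 i hi w h10 h8 h9, hzg i]
    exact absurd ((mem_sep iU).1 h11).2 (not_lt.2 h9.le)

theorem not_nco : ¬ IsNCompact (ts (OR (Xd Dp))) (xs (N := N) (Xd Dp)) := by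
  intro hn
  obtain ⟨j, F, hF, h1, h2, h3⟩ := nco_unfold (spo_OR (int_Xd h)) hn
  letI : ITy N (Plain.El j) := (inferInstance : ITy N (El j))
  exact not_nco_aux h F hF h1 h2 h3

theorem isT1_X : IsT1 (ts (OR (Xd Dp))) (xs (N := N) (Xd Dp)) := by
  have hX := int_Xd h
  have hS := spo_OR hX
  intro y z hy hz hne
  obtain ⟨s, hs, rfl⟩ := (mem_xs hS).1 hy
  obtain ⟨t, ht, rfl⟩ := (mem_xs hS).1 hz
  have hst : s ≠ t := fun e => hne (by rw [e])
  have iU : Int N (fun r : IR N => Xd Dp r ∧ r ≠ t) := by (repeat' (first | with_reducible exact IntF.id | with_reducible exact IntF.fst' | with_reducible exact IntF.snd' | with_reducible exact IntF.const _ | with_reducible exact Int.const _ | assumption | with_reducible apply Int.and | with_reducible apply Int.or | with_reducible apply Int.not | with_reducible apply Int.imp | with_reducible apply Int.iff | with_reducible apply Int.ne | with_reducible apply Int.eq | with_reducible apply Int.mem | with_reducible apply Int.subset | with_reducible apply Int.ltN | with_reducible apply Int.leN | with_reducible_and_instances apply Int.le | with_reducible_and_instances apply Int.lt | with_reducible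 apply Int.all | with_reducible apply Int.ex | with_reducible apply IntF.fst | with_reducible apply IntF.snd | with_reducible apply IntF.app | with_reducible apply IntF.inl | with_reducible apply IntF.inr | with_reducible_and_instances apply IntF.mul | with_reducible_and_instances apply IntF.inv | with_reducible_and_instances apply IntF.add | with_reducible_and_instances apply IntF.sub | with_reducible_and_instances apply IntF.neg | with_reducible_and_instances apply IntF.smul | with_reducible apply Int.fin | with_reducible apply IntF.sep | with_reducible apply IntF.lam | with_reducible apply IntF.insert | with_reducible apply IntF.singleton | with_reducible apply IntF.union | with_reducible apply IntF.iimage | with_reducible apply IntF.ite | with_reducible apply IntF.the | with_reducible apply IntF.irec | with_reducible apply IntF.succ | with_reducible apply IntF.val | with_reducible apply IntF.mk | (with_reducible refine Int.comp ?_ ?_; assumption) | (with_reducible refine Int.comp₂ ?_ ?_ ?_; assumption) | (with_reducible refine Int.comp₃ ?_ ?_ ?_ ?_; assumption) | (with_reducible refine Int.comp₄ ?_ ?_ ?_ ?_ ?_; assumption)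 | (with_reducible refine IntF.comp ?_ ?_; assumption) | (with_reducible refine IntF.comp₂ ?_ ?_ ?_; assumption) | (with_reducible refine IntF.comp₃ ?_ ?_ ?_ ?_; assumption) | with_reducible apply IntF.pair))
  refine ⟨code (M := N) (sep N fun r : IR N => Xd Dp r ∧ r ≠ t), (mem_ts' hS).2
    ⟨fun r hr => ((mem_sep iU).1 hr).1, fun r hr => ?_⟩, mem_codeB'.2 ((mem_sep iU).2 ⟨hs, hst⟩),
    fun h1 => ((mem_sep iU).1 (mem_codeB'.1 h1)).2 rfl⟩
  rcases lt_or_gt_of_ne ((mem_sep iU).1 hr).2 with hlt | hlt
  · exact ⟨r - 1, t, by linarith, hlt, fun d hd _ hc => (mem_sep iU).2 ⟨hd, hc.ne⟩⟩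
  · exact ⟨t, r + 1, hlt, by linarith, fun d hd hb _ => (mem_sep iU).2 ⟨hd, hb.ne'⟩⟩

theorem isZeroDim_X : IsZeroDim (ts (OR (Xd Dp))) (xs (N := N) (Xd Dp)) := by
  have hX := int_Xd h
  have hS := spo_OR hX
  intro u z hu hz
  obtain ⟨U, hU, rfl⟩ := (mem_ts hS).1 hu
  obtain ⟨s, hs, rfl⟩ := mem_codeB.1 hz
  have hXs := hU.1 s hs
  obtain ⟨b, c, h1, h2, h3⟩ := hU.2 s hs
  obtain ⟨p, hp, h4, h5⟩ := h.dense (max b 0) s (le_max_right _ _) (max_lt h1 hXs.1) hXs.2.1.le
  obtain ⟨q, hq, h6, h7⟩ := h.dense s (min c 1) hXs.1.le (lt_min h2 hXs.2.1) (min_le_right _ _)
  have hbp : b < p := lt_of_le_of_lt (le_max_left _ _) h4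
  have hqc : q < c := lt_of_lt_of_le h7 (min_le_left _ _)
  have iV : Int N (fun r : IR N => Xd Dp r ∧ p < r ∧ r < q) := by (repeat' (first | with_reducible exact IntF.id | with_reducible exact IntF.fst' | with_reducible exact IntF.snd' | with_reducible exact IntF.const _ | with_reducible exact Int.const _ | assumption | with_reducible apply Int.and | with_reducible apply Int.or | with_reducible apply Int.not | with_reducible apply Int.imp | with_reducible apply Int.iff | with_reducible apply Int.ne | with_reducible apply Int.eq | with_reducible apply Int.mem | with_reducible apply Int.subset | with_reducible apply Int.ltN | with_reducible apply Int.leN | with_reducible_and_instances apply Int.le | with_reducible_and_instances apply Int.lt | with_reducible apply Int.all | with_reducible apply Int.ex | with_reducible apply IntF.fst | with_reducible apply IntF.snd | with_reducible apply IntF.app | with_reducible apply IntF.inl | with_reducible apply IntF.inr | with_reducible_and_instances apply IntF.mul | with_reducible_and_instances apply IntF.inv | with_reducible_and_instances apply IntF.add | with_reducible_and_instances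 apply IntF.sub | with_reducible_and_instances apply IntF.neg | with_reducible_and_instances apply IntF.smul | with_reducible apply Int.fin | with_reducible apply IntF.sep | with_reducible apply IntF.lam | with_reducible apply IntF.insert | with_reducible apply IntF.singleton | with_reducible apply IntF.union | with_reducible apply IntF.iimage | with_reducible apply IntF.ite | with_reducible apply IntF.the | with_reducible apply IntF.irec | with_reducible apply IntF.succ | with_reducible apply IntF.val | with_reducible apply IntF.mk | (with_reducible refine Int.comp ?_ ?_; assumption) | (with_reducible refine Int.comp₂ ?_ ?_ ?_; assumption) | (with_reducible refine Int.comp₃ ?_ ?_ ?_ ?_; assumption) | (with_reducible refine Int.comp₄ ?_ ?_ ?_ ?_ ?_; assumption) | (with_reducible refine IntF.comp ?_ ?_; assumption) | (with_reducible refine IntF.comp₂ ?_ ?_ ?_; assumption) | (with_reducible refine IntF.comp₃ ?_ ?_ ?_ ?_; assumption) | with_reducible apply IntF.pair))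
  have iW : Int N (fun r : IR N => Xd Dp r ∧ (r < p ∨ q < r)) := by (repeat' (first | with_reducible exact IntF.id | with_reducible exact IntF.fst' | with_reducible exact IntF.snd' | with_reducible exact IntF.const _ | with_reducible exact Int.const _ | assumption | with_reducible apply Int.and | with_reducible apply Int.or | with_reducible apply Int.not | with_reducible apply Int.imp | with_reducible apply Int.iff | with_reducible apply Int.ne | with_reducible apply Int.eq | with_reducible apply Int.mem | with_reducible apply Int.subset | with_reducible apply Int.ltN | with_reducible apply Int.leN | with_reducible_and_instances apply Int.le | with_reducible_and_instances apply Int.lt | with_reducible apply Int.all | with_reducible apply Int.ex | with_reducible apply IntF.fst | with_reducible apply IntF.snd | with_reducible apply IntF.app | with_reducible apply IntF.inl | with_reducible apply IntF.inr | with_reducible_and_instances apply IntF.mul | with_reducible_and_instances apply IntF.inv | with_reducible_and_instances apply IntF.add | with_reducible_and_instances apply IntF.sub | with_reducible_and_instances apply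 IntF.neg | with_reducible_and_instances apply IntF.smul | with_reducible apply Int.fin | with_reducible apply IntF.sep | with_reducible apply IntF.lam | with_reducible apply IntF.insert | with_reducible apply IntF.singleton | with_reducible apply IntF.union | with_reducible apply IntF.iimage | with_reducible apply IntF.ite | with_reducible apply IntF.the | with_reducible apply IntF.irec | with_reducible apply IntF.succ | with_reducible apply IntF.val | with_reducible apply IntF.mk | (with_reducible refine Int.comp ?_ ?_; assumption) | (with_reducible refine Int.comp₂ ?_ ?_ ?_; assumption) | (with_reducible refine Int.comp₃ ?_ ?_ ?_ ?_; assumption) | (with_reducible refine Int.comp₄ ?_ ?_ ?_ ?_ ?_; assumption) | (with_reducible refine IntF.comp ?_ ?_; assumption) | (with_reducible refine IntF.comp₂ ?_ ?_ ?_; assumption) | (with_reducible refine IntF.comp₃ ?_ ?_ ?_ ?_; assumption) | with_reducible apply IntF.pair))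
  refine ⟨code (M := N) (sep N fun r : IR N => Xd Dp r ∧ p < r ∧ r < q), ⟨(mem_ts' hS).2
    ⟨fun r hr => ((mem_sep iV).1 hr).1, fun r hr => ⟨p, q, ((mem_sep iV).1 hr).2.1,
      ((mem_sep iV).1 hr).2.2, fun d hd hb hc => (mem_sep iV).2 ⟨hd, hb, hc⟩⟩⟩,
    code (M := N) (sep N fun r : IR N => Xd Dp r ∧ (r < p ∨ q < r)), (mem_ts' hS).2
      ⟨fun r hr => ((mem_sep iW).1 hr).1, fun r hr => ?_⟩, fun z => ⟨fun hz => ?_, ?_⟩⟩,
    mem_codeB'.2 ((mem_sep iV).2 ⟨hXs, h5, h6⟩), fun y hy => ?_⟩
  · rcases ((mem_sep iW).1 hr).2 with h8 | h8
    · exact ⟨r - 1, p, by linarith, h8, fun d hd _ hc => (mem_sep iW).2 ⟨hd, Or.inl hc⟩⟩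
    · exact ⟨q, r + 1, h8, by linarith, fun d hd hb _ => (mem_sep iW).2 ⟨hd, Or.inr hb⟩⟩
  · obtain ⟨r, hr, rfl⟩ := mem_codeB.1 hz
    obtain ⟨h8, h9⟩ := (mem_sep iW).1 hr
    refine ⟨(mem_xs' hS).2 h8, fun h10 => ?_⟩
    obtain ⟨-, h11, h12⟩ := (mem_sep iV).1 (mem_codeB'.1 h10)
    rcases h9 with h9 | h9
    · exact lt_asymm h9 h11
    · exact lt_asymm h9 h12
  · rintro ⟨h8, h9⟩
    obtain ⟨r, hr, rfl⟩ := (mem_xs hS).1 h8
    refine mem_codeB'.2 ((mem_sep iW).2 ⟨hr, ?_⟩)
    by_contra h10
    refine h9 (mem_codeB'.2 ((mem_sep iV).2 ⟨hr, ?_, ?_⟩))
    · refine lt_of_le_of_ne (not_lt.1 fun h11 => h10 (Or.inl h11)) fun h11 => hr.2.2 (h11 ▸ hp)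
    · refine lt_of_le_of_ne (not_lt.1 fun h11 => h10 (Or.inr h11)) fun h11 => hr.2.2 (h11 ▸ hq)
  · obtain ⟨r, hr, rfl⟩ := mem_codeB.1 hy
    obtain ⟨h8, h9, h10⟩ := (mem_sep iV).1 hr
    exact mem_codeB'.2 (h3 r h8 (hbp.trans h9) (h10.trans hqc))

end

end Pool.Agent.Helper672.ZFA.V257
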