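import Pool.Agent.H310R3.Cards

/-!
# Ramsey's theorem for pairs in a structure for the language of set theory: definitions

`Mem`, `IsPair` (unordered pairs) and `LSet` are from `Pool.Agent.Helper672.SIK.Plain`, and
`IsFun`, `App` and `IsFinite` from `Pool.Agent.H310R3.Cards`.
-/

namespace Pool.Agent.V11257F

open FirstOrder FirstOrder.Language
open Pool.Agent.Helper672.Plain (LSet Mem IsPair)
open Pool.Agent.H310Cards

universe u

variable {M : Type u} [LSet.Structure M]

/-- `q` is the set of all two-element subsets of `x`. -/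
def IsPairs (q x : M) : Prop := ∀ p, Mem p q ↔ ∃ a b, Mem a x ∧ Mem b x ∧ a ≠ b ∧ IsPair p a b

/-- The value of the function `f` at the unordered pair of `a` and `b` is `z`. -/
def Val (f a b z : M) : Prop := ∃ p, IsPair p a b ∧ App f p z

/-- Ramsey's theorem for pairs of elements of `x` and the set `k` of colours: for every function
`f` from the set `q` of the two-element subsets of `x` to `k` there is an infinite subset `y` of
`x` such that `f` is constant on the two-element subsets of `y`. -/
def RT2 (x k : M) : Prop :=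
  ∀ q f, IsPairs q x → IsFun f q k → ∃ y, (∀ a, Mem a y → Mem a x) ∧ ¬ IsFinite y ∧
    ∃ z, ∀ a b, Mem a y → Mem b y → a ≠ b → Val f a b z

/-- `l` is a strict linear order on the set `y` (`App l a b` says that `a` is below `b`). -/
structure IsLinOrd (l y : M) : Prop where
  sub : ∀ a b, App l a b → Mem a y ∧ Mem b y
  irrefl : ∀ a, ¬ App l a a
  trans : ∀ a b c, App l a b → App l b c → App l a c
  total : ∀ a b, Mem a y → Mem b y → a ≠ b → App l a b ∨ App l b a

/-- For all pairs `a₁ < b₁` and `a₂ < b₂` the values of `f` are equal if and only if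
`R a₁ b₁ a₂ b₂`. -/
def ValEqIff (f l : M) (R : M → M → M → M → Prop) : Prop :=
  ∀ a₁ b₁ a₂ b₂ z₁ z₂, App l a₁ b₁ → App l a₂ b₂ → Val f a₁ b₁ z₁ → Val f a₂ b₂ z₂ →
    (z₁ = z₂ ↔ R a₁ b₁ a₂ b₂)

/-- The function `f` is canonical for the linear order `l`. -/
def IsCanonical (f l : M) : Prop :=
  ValEqIff f l (fun _ _ _ _ => True) ∨ ValEqIff f l (fun a₁ _ a₂ _ => a₁ = a₂) ∨
    ValEqIff f l (fun _ b₁ _ b₂ => b₁ = b₂) ∨ ValEqIff f l fun a₁ b₁ a₂ b₂ => a₁ = a₂ ∧ b₁ = b₂

/-- The canonical Ramsey theorem for pairs of elements of `x`: for every function `f` on the set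
of the two-element subsets of `x` there are an infinite subset `y` of `x` and a linear order `l`
on `y` such that `f` is canonical. -/
def CRT (x : M) : Prop :=
  ∀ q f c, IsPairs q x → IsFun f q c → ∃ y l, (∀ a, Mem a y → Mem a x) ∧ ¬ IsFinite y ∧
    IsLinOrd l y ∧ IsCanonical f l

end Pool.Agent.V11257F
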