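import Pool.Agent.V11257.Pmx
import Pool.Agent.V11257.FrDefs
import Pool.Agent.V11257.Zt9
import Pool.Agent.V11246.NcoR

/-!
# The basic Fraenkel model
-/

set_option maxHeartbeats 1000000
set_option linter.all false
set_option synthInstance.maxSize 2000

namespace Pool.Agent.V11257F

open FirstOrder FirstOrder.Language
open Pool.Agent.Helper672
open Pool.Agent.Helper672.ZFA
open Pool.Agent.Helper672.ZFA.H635 (IPerm SymSys IG WFI FEq FMem tw Good feq_of_map feq_iff IsGen
  nd nd_eq mem_nd mem_nd_nd exists_mk mk_eq_nd EqFam NN nn_ext nn_zf mem_NN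
  CollL isModel_of_zermelo coll_of_zf exists_countable_sub toL)
open Pool.Agent.Helper672.ZFA.H310M
open Pool.Agent.Helper672.ZFA.V246
open Pool.Agent.Helper672.Plain (LSet)
open Pool.Agent.H310
open Pool.Agent.H310Cards
open Pool.Agent.H635Amen (ZF)
open Pool.Agent.V11246
open Pool.Agent.V11257P

universe u

/-- An infinite set without structure: every relation between two elements is trivial outside a
finite set. -/
structure FrA (N : Type u) [L.Structure N] [IsModel N] (α : Type u) [ITy N α] : Prop where
  out : ∀ s : IPow N α, IFin s → ∃ x y, x ∉ s ∧ y ∉ s ∧ x ≠ y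
  hom : ∀ W : α × α → Prop, Int N W → ∃ s : IPow N α, IFin s ∧
    ∀ x y x' y', x ∉ s → y ∉ s → x ≠ y → x' ∉ s → y' ∉ s → x' ≠ y' → W (x, y) → W (x', y')

section

variable (M : Type u) [L.Structure M] [hM : IsModel M]

/-- The group of all permutations. -/
noncomputable def Zf : PGr M (INat M) where
  H := ⊤
  int := Int.const _

variable {M}

theorem exists_move2 {E : IPow M (INat M)} {x y x' y' : INat M} (hx : x ∉ E) (hy : y ∉ E)
    (hxy : x ≠ y) (hx' : x' ∉ E) (hy' : y' ∉ E) (hxy' : x' ≠ y') :
    ∃ g : IPerm M (INat M), (∀ z, z ∈ E → g.1.1 z = z) ∧ g.1.1 x = x' ∧ g.1.1 y = y' := by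
  refine ⟨sw M (swf x x' y) y' * sw M x x', fun z hz => ?_, ?_, ?_⟩
  · have h1 : z ≠ x := fun e => hx (e ▸ hz)
    have h2 : z ≠ x' := fun e => hx' (e ▸ hz)
    have h3 : z ≠ y := fun e => hy (e ▸ hz)
    have h4 : z ≠ y' := fun e => hy' (e ▸ hz)
    have h5 : z ≠ swf x x' y := by
      intro e
      rw [e] at h1 h2 h3
      by_cases h6 : y = x'
      · rw [h6, swf_right] at h1
        exact h1 rfl
      · rw [swf_of_ne (Ne.symm hxy) h6] at h3
        exact h3 rfl
    rw [IPerm.mul_apply, sw_apply, sw_apply, swf_of_ne h1 h2, swf_of_ne h5 h4]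
  · have h5 : x' ≠ swf x x' y := by
      intro e
      have h6 := congrArg (swf x x') e
      rw [swf_right, swf_swf] at h6
      exact hxy h6
    rw [IPerm.mul_apply, sw_apply, sw_apply, swf_left, swf_of_ne h5 hxy']
  · rw [IPerm.mul_apply, sw_apply, sw_apply, swf_left]

theorem exists_fresh {E : IPow M (INat M)} (hE : IFin E) : ∃ n, n ∉ E := by
  obtain ⟨n, hn⟩ := IFin.exists_bound (r := fun m n : INat M => m < n) (by (repeat' (first | with_reducible exact IntF.id | with_reducible exact IntF.fst' | with_reducible exact IntF.snd' | with_reducible exact IntF.const _ | with_reducible exact Int.const _ | assumption | with_reducible apply Int.and | with_reducible apply Int.or | with_reducible apply Int.not | with_reducible apply Int.imp | with_reducible apply Int.iff | with_reducible apply Int.ne | with_reducible apply Int.eq | with_reducible apply Int.mem | with_reducible apply Int.subset | with_reducible apply Int.ltN | with_reducible apply Int.leN | with_reducible_and_instances apply Int.le | with_reducible_and_instances apply Int.lt | with_reducible apply Int.all | with_reducible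 apply Int.ex | with_reducible apply IntF.fst | with_reducible apply IntF.snd | with_reducible apply IntF.app | with_reducible apply IntF.inl | with_reducible apply IntF.inr | with_reducible_and_instances apply IntF.mul | with_reducible_and_instances apply IntF.inv | with_reducible_and_instances apply IntF.add | with_reducible_and_instances apply IntF.sub | with_reducible_and_instances apply IntF.neg | with_reducible_and_instances apply IntF.smul | with_reducible apply Int.fin | with_reducible apply IntF.sep | with_reducible apply IntF.lam | with_reducible apply IntF.insert | with_reducible apply IntF.singleton | with_reducible apply IntF.union | with_reducible apply IntF.iimage | with_reducible apply IntF.ite | with_reducible apply IntF.the | with_reducible apply IntF.irec | with_reducible apply IntF.succ | with_reducible apply IntF.val | with_reducible apply IntF.mk | (with_reducible refine Int.comp ?_ ?_; assumption) | (with_reducible refine Int.comp₂ ?_ ?_ ?_; assumption) | (with_reducible refine Int.comp₃ ?_ ?_ ?_ ?_; assumption) | (with_reducible refine Int.comp₄ ?_ ?_ ?_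 ?_ ?_; assumption) | (with_reducible refine IntF.comp ?_ ?_; assumption) | (with_reducible refine IntF.comp₂ ?_ ?_ ?_; assumption) | (with_reducible refine IntF.comp₃ ?_ ?_ ?_ ?_; assumption) | with_reducible apply IntF.pair)))
    (fun b c => ⟨max b c, fun a ha => ha.elim (fun h => lt_of_lt_of_le h (le_max_left _ _))
      fun h => lt_of_lt_of_le h (le_max_right _ _)⟩) ⟨0⟩ hE fun a _ => ⟨a.succ, INat.lt_succ_self a⟩
  exact ⟨n, fun h => lt_irrefl _ (hn n h)⟩

variable {G : Set (Co M (INat M))} (hG : IsGen M G) (hC : CollL M)

include hC in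
theorem frA : FrA (NN (SS (Zf M)) hG) (El (AA (Zf M) hG)) := by
  have hc := cA_surj (Z := Zf M) hG
  constructor
  · intro s hs
    by_contra hcon
    push Not at hcon
    obtain ⟨t, ht, hall⟩ : ∃ t : IPow (NN (SS (Zf M)) hG) (El (AA (Zf M) hG)), IFin t ∧
        ∀ x, x ∈ t := by
      by_cases h1 : ∃ x, x ∉ s
      · obtain ⟨x, hx⟩ := h1
        refine ⟨insert x s, hs.insert x, fun y => ?_⟩
        by_cases hy : y ∈ s
        · exact mem_insert.2 (Or.inr hy)
        · exact mem_insert.2 (Or.inl (hcon y x hy hx))
      · push Not at h1
        exact ⟨s, hs, h1⟩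
    obtain ⟨e, he, hinj⟩ := Ctb.fin ht
    have hW : Int (NN (SS (Zf M)) hG) (fun q : El (AA (Zf M) hG) × El (AA (Zf M) hG) =>
        e q.1 < e q.2) := by (repeat' (first | with_reducible exact IntF.id | with_reducible exact IntF.fst' | with_reducible exact IntF.snd' | with_reducible exact IntF.const _ | with_reducible exact Int.const _ | assumption | with_reducible apply Int.and | with_reducible apply Int.or | with_reducible apply Int.not | with_reducible apply Int.imp | with_reducible apply Int.iff | with_reducible apply Int.ne | with_reducible apply Int.eq | with_reducible apply Int.mem | with_reducible apply Int.subset | with_reducible apply Int.ltN | with_reducible apply Int.leN | with_reducible_and_instances apply Int.le | with_reducible_and_instances apply Int.lt | with_reducible apply Int.all | with_reducible apply Int.ex | with_reducible apply IntF.fst | with_reducible apply IntF.snd | with_reducible apply IntF.app | with_reducible apply IntF.inl | with_reducible apply IntF.inr | with_reducible_and_instances apply IntF.mul | with_reducible_and_instances apply IntF.inv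 | with_reducible_and_instances apply IntF.add | with_reducible_and_instances apply IntF.sub | with_reducible_and_instances apply IntF.neg | with_reducible_and_instances apply IntF.smul | with_reducible apply Int.fin | with_reducible apply IntF.sep | with_reducible apply IntF.lam | with_reducible apply IntF.insert | with_reducible apply IntF.singleton | with_reducible apply IntF.union | with_reducible apply IntF.iimage | with_reducible apply IntF.ite | with_reducible apply IntF.the | with_reducible apply IntF.irec | with_reducible apply IntF.succ | with_reducible apply IntF.val | with_reducible apply IntF.mk | (with_reducible refine Int.comp ?_ ?_; assumption) | (with_reducible refine Int.comp₂ ?_ ?_ ?_; assumption) | (with_reducible refine Int.comp₃ ?_ ?_ ?_ ?_; assumption) | (with_reducible refine Int.comp₄ ?_ ?_ ?_ ?_ ?_; assumption) | (with_reducible refine IntF.comp ?_ ?_; assumption) | (with_reducible refine IntF.comp₂ ?_ ?_ ?_; assumption) | (with_reducible refine IntF.comp₃ ?_ ?_ ?_ ?_; assumption) | with_reducible apply IntF.pair))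
    obtain ⟨E, hE⟩ := exists_hom2 (Z := Zf M) hG hW
    obtain ⟨n₁, h1⟩ := exists_fresh E.2
    obtain ⟨n₂, h2⟩ := exists_fresh (E.2.insert n₁)
    rw [mem_insert, not_or] at h2
    have h3 : n₁ ≠ n₂ := fun e => h2.1 e.symm
    obtain ⟨g, hg, hg1, hg2⟩ := exists_move2 h1 h2.2 h3 h2.2 h1 h3.symm
    have h4 := hE g trivial hg
    have h5 := h4 n₁ n₂
    have h6 := h4 n₂ n₁
    rw [hg1, hg2] at h5 h6
    rcases lt_trichotomy (e (cA (Zf M) hG n₁)) (e (cA (Zf M) hG n₂)) with h7 | h7 | h7
    · exact lt_asymm h7 (h5 h7)
    · exact h3 ((cA_inj hG).1 (hinj _ _ (hall _) (hall _) h7))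
    · exact lt_asymm h7 (h6 h7)
  · intro W hW
    obtain ⟨E, hE⟩ := exists_hom2 (Z := Zf M) hG hW
    obtain ⟨s, hs, hs'⟩ := exists_fin (Z := Zf M) hG hC E
    refine ⟨s, hs, fun x y x' y' h1 h2 h3 h4 h5 h6 h7 => ?_⟩
    obtain ⟨x, rfl⟩ := hc x
    obtain ⟨y, rfl⟩ := hc y
    obtain ⟨x', rfl⟩ := hc x'
    obtain ⟨y', rfl⟩ := hc y'
    rw [hs'] at h1 h2 h4 h5
    obtain ⟨g, hg, rfl, rfl⟩ := exists_move2 h1 h2 (fun e => h3 (by rw [e])) h4 h5
      fun e => h6 (by rw [e])
    exact hE g trivial hg x y h7

end

/-- The model has an infinite set without structure. -/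
def HasFr (N : Type u) [LSet.Structure N] [hZ : Helper672.Plain.Zermelo N] : Prop :=
  letI := Helper672.Plain.toL (M := N)
  letI : IsModel N := Helper672.Plain.isModel_toL
  ∃ a : N, FrA N (El a)

theorem exists_fr' (M : Type u) [L.Structure M] [IsModel M] [Countable M] (hC : CollL M) :
    ∃ (N : Type u) (_ : LSet.Structure N) (_ : ZF N), HasFr N := by
  have p₀ : Co M (INat M) := ⟨∅, fun i k d d' h => absurd h (by simp), IFin.empty⟩
  obtain ⟨G, hG⟩ := H635.exists_gen (M := M) p₀
  have hzf : ZF (H635.NN (SS (Zf M)) hG) := nn_zf hG hC
  exact ⟨H635.NN (SS (Zf M)) hG, inferInstance, hzf, AA (Zf M) hG, frA hG hC⟩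

section

attribute [local instance] toL

theorem exists_fr_c (M : Type u) [LSet.Structure M] [Countable M] (h : ZF M) :
    ∃ (N : Type u) (_ : LSet.Structure N) (_ : ZF N), HasFr N := by
  have hM : IsModel M := isModel_of_zermelo h.toZermelo
  exact exists_fr' M (coll_of_zf h)

end

theorem exists_fr (M : Type u) [LSet.Structure M] (h : ZF M) :
    ∃ (N : Type u) (_ : LSet.Structure N) (_ : ZF N), HasFr N := by
  obtain ⟨M₀, h1, h2⟩ := exists_countable_sub M h
  exact exists_fr_c M₀ h2

end Pool.Agent.V11257F
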