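import Pool.Agent.V11257.Fr1

/-!
# Ramsey's theorem for sets without structure
-/

set_option maxHeartbeats 1000000
set_option linter.all false
set_option synthInstance.maxSize 2000

namespace Pool.Agent.V11257F

open FirstOrder FirstOrder.Language
open Pool.Agent.Helper672
open Pool.Agent.Helper672.ZFA
open Pool.Agent.Helper672.ZFA.V246
open Pool.Agent.Helper672.ZFA.H310M (FS)
open Pool.Agent.Helper672.Plain (LSet)
open Pool.Agent.H310
open Pool.Agent.H310Cards
open Pool.Agent.H635Amen (ZF)
open Pool.Agent.V11246
open Pool.Agent.V11257Z (mem_codeQ)

universe u

section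

attribute [local instance] Helper672.Plain.toL

variable {N : Type u} [LSet.Structure N] [hZ : Helper672.Plain.Zermelo N]

local instance instModelFr2 : IsModel N := Helper672.Plain.isModel_toL

noncomputable local instance instPElFr2 (x : N) : ITy N (Helper672.Plain.El x) :=
  (inferInstance : ITy N (El x))

variable {α : Type u} [ITy N α] (h : FrA N α)

theorem isPair_iff {x y : α} {p : N} : Plain.IsPair p (code x) (code y) ↔
    p = code (insert x {y} : IPow N α) := by
  constructor
  · intro h1
    refine Helper672.Plain.Zermelo.ext _ _ fun z => (h1 z).trans ?_
    constructor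
    · rintro (rfl | rfl)
      · exact mem_codeQ.2 (mem_insert.2 (Or.inl rfl))
      · exact mem_codeQ.2 (mem_insert.2 (Or.inr (mem_singleton.2 rfl)))
    · intro hz
      obtain ⟨w, hw, rfl⟩ := mem_codeB.1 hz
      rcases mem_insert.1 hw with rfl | hw
      · exact Or.inl rfl
      · rw [mem_singleton.1 hw]
        exact Or.inr rfl
  · rintro rfl z
    constructor
    · intro hz
      obtain ⟨w, hw, rfl⟩ := mem_codeB.1 hz
      rcases mem_insert.1 hw with rfl | hw
      · exact Or.inl rfl
      · rw [mem_singleton.1 hw]
        exact Or.inr rfl
    · rintro (rfl | rfl)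
      · exact mem_codeQ.2 (mem_insert.2 (Or.inl rfl))
      · exact mem_codeQ.2 (mem_insert.2 (Or.inr (mem_singleton.2 rfl)))

theorem val_iff {f z : N} {x y : α} : Val f (code x) (code y) z ↔
    Mem (op (code (insert x {y} : IPow N α)) z) f := by
  constructor
  · rintro ⟨p, h1, h2⟩
    rw [isPair_iff] at h1
    subst h1
    exact app_iff.1 h2
  · intro h1
    exact ⟨_, isPair_iff.2 rfl, app_iff.2 h1⟩

theorem int_val {κ : Type u} [ITy N κ] (f : N) :
    Int N (fun q : (α × α) × κ => Val f (code q.1.1) (code q.1.2) (code q.2)) := by
  have h1 : Int N (fun q : IPow N α × κ => Mem (op (code q.1) (code q.2)) f) := ⟨f, fun q => Iff.rfl⟩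
  have h2 : Int N (fun q : (α × α) × κ => Mem (op (code (insert q.1.1 {q.1.2} : IPow N α))
      (code q.2)) f) := Int.comp (p := fun q : IPow N α × κ => Mem (op (code q.1) (code q.2)) f)
    (f := fun q : (α × α) × κ => ((insert q.1.1 {q.1.2} : IPow N α), q.2)) h1 (by (repeat' (first | with_reducible exact IntF.id | with_reducible exact IntF.fst' | with_reducible exact IntF.snd' | with_reducible exact IntF.const _ | with_reducible exact Int.const _ | assumption | with_reducible apply Int.and | with_reducible apply Int.or | with_reducible apply Int.not | with_reducible apply Int.imp | with_reducible apply Int.iff | with_reducible apply Int.ne | with_reducible apply Int.eq | with_reducible apply Int.mem | with_reducible apply Int.subset | with_reducible apply Int.ltN | with_reducible apply Int.leN | with_reducible_and_instances apply Int.le | with_reducible_and_instances apply Int.lt | with_reducible apply Int.all | with_reducible apply Int.ex | with_reducible apply IntF.fst | with_reducible apply IntF.snd | with_reducible apply IntF.app | with_reducible apply IntF.inl | with_reducible apply IntF.inr | with_reducible_and_instances apply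 IntF.mul | with_reducible_and_instances apply IntF.inv | with_reducible_and_instances apply IntF.add | with_reducible_and_instances apply IntF.sub | with_reducible_and_instances apply IntF.neg | with_reducible_and_instances apply IntF.smul | with_reducible apply Int.fin | with_reducible apply IntF.sep | with_reducible apply IntF.lam | with_reducible apply IntF.insert | with_reducible apply IntF.singleton | with_reducible apply IntF.union | with_reducible apply IntF.iimage | with_reducible apply IntF.ite | with_reducible apply IntF.the | with_reducible apply IntF.irec | with_reducible apply IntF.succ | with_reducible apply IntF.val | with_reducible apply IntF.mk | (with_reducible refine Int.comp ?_ ?_; assumption) | (with_reducible refine Int.comp₂ ?_ ?_ ?_; assumption) | (with_reducible refine Int.comp₃ ?_ ?_ ?_ ?_; assumption) | (with_reducible refine Int.comp₄ ?_ ?_ ?_ ?_ ?_; assumption) | (with_reducible refine IntF.comp ?_ ?_; assumption) | (with_reducible refine IntF.comp₂ ?_ ?_ ?_; assumption) | (with_reducible refine IntF.comp₃ ?_ ?_ ?_ ?_; assumption) | with_reducible apply IntF.pair)))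
  exact h2.congr fun q => val_iff.symm

theorem int_ncol {κ : Type u} [ITy N κ] {P : α × α → κ → Prop}
    (hP : Int N (fun q : (α × α) × κ => P q.1 q.2)) :
    Int N (fun q : κ × FS N α => ∀ x y, x ∉ q.2.1 → y ∉ q.2.1 → x ≠ y → ¬ P (x, y) q.1) := by
  (repeat' (first | with_reducible exact IntF.id | with_reducible exact IntF.fst' | with_reducible exact IntF.snd' | with_reducible exact IntF.const _ | with_reducible exact Int.const _ | assumption | with_reducible apply Int.and | with_reducible apply Int.or | with_reducible apply Int.not | with_reducible apply Int.imp | with_reducible apply Int.iff | with_reducible apply Int.ne | with_reducible apply Int.eq | with_reducible apply Int.mem | with_reducible apply Int.subset | with_reducible apply Int.ltN | with_reducible apply Int.leN | with_reducible_and_instances apply Int.le | with_reducible_and_instances apply Int.lt | with_reducible apply Int.all | with_reducible apply Int.ex | with_reducible apply IntF.fst | with_reducible apply IntF.snd | with_reducible apply IntF.app | with_reducible apply IntF.inl | with_reducible apply IntF.inr | with_reducible_and_instances apply IntF.mul | with_reducible_and_instances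 apply IntF.inv | with_reducible_and_instances apply IntF.add | with_reducible_and_instances apply IntF.sub | with_reducible_and_instances apply IntF.neg | with_reducible_and_instances apply IntF.smul | with_reducible apply Int.fin | with_reducible apply IntF.sep | with_reducible apply IntF.lam | with_reducible apply IntF.insert | with_reducible apply IntF.singleton | with_reducible apply IntF.union | with_reducible apply IntF.iimage | with_reducible apply IntF.ite | with_reducible apply IntF.the | with_reducible apply IntF.irec | with_reducible apply IntF.succ | with_reducible apply IntF.val | with_reducible apply IntF.mk | (with_reducible refine Int.comp ?_ ?_; assumption) | (with_reducible refine Int.comp₂ ?_ ?_ ?_; assumption) | (with_reducible refine Int.comp₃ ?_ ?_ ?_ ?_; assumption) | (with_reducible refine Int.comp₄ ?_ ?_ ?_ ?_ ?_; assumption) | (with_reducible refine IntF.comp ?_ ?_; assumption) | (with_reducible refine IntF.comp₂ ?_ ?_ ?_; assumption) | (with_reducible refine IntF.comp₃ ?_ ?_ ?_ ?_; assumption) | with_reducible apply IntF.pair))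

include h

theorem FrA.not_fin {s : IPow N α} (hs : IFin s) (h1 : ∀ x, x ∈ s) : False := by
  obtain ⟨x, y, h2, -, -⟩ := h.out s hs
  exact h2 (h1 x)

theorem rt2 {k : N} (hk : IsFinite k) : RT2 (dom N α) k := by
  intro q f hq hf
  have hK : ∃ K : IPow N (Plain.El k), code K = k ∧ ∀ z, z ∈ K := by
    obtain ⟨K, hK⟩ := exists_codeB (α := Plain.El k) (u := k) fun z hz => ⟨⟨z, hz⟩, rfl⟩
    refine ⟨K, hK, fun z => mem_codeB'.1 ?_⟩
    rw [hK]
    exact z.2
  obtain ⟨K, hK, hall⟩ := hK
  have hKf : IFin K := fin_of_isFinite (by rw [hK]; exact hk)
  have hv : Int N (fun q : (α × α) × Plain.El k => Val f (code q.1.1) (code q.1.2) (code q.2)) :=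
    int_val f
  -- every pair has a colour
  have htot : ∀ x y : α, x ≠ y → ∃ z : Plain.El k, Val f (code x) (code y) (code z) := by
    intro x y hxy
    have h1 : Mem (code (insert x {y} : IPow N α)) q := by
      refine (hq _).2 ⟨code x, code y, code_mem_domP x, code_mem_domP y, fun e => hxy (ITy.inj e),
        isPair_iff.2 rfl⟩
    obtain ⟨z, hz, hz'⟩ := hf.2 _ h1
    obtain ⟨a, b, h2, h3, h4⟩ := hf.1 _ (app_iff.1 hz)
    obtain ⟨h5, h6⟩ := op_inj (ordPair_iff.1 h4)
    exact ⟨⟨z, h6 ▸ h3⟩, _, isPair_iff.2 rfl, hz⟩
  by_cases hc : ∃ (z : Plain.El k) (s : IPow N α), IFin s ∧ ∀ x y, x ∉ s → y ∉ s → x ≠ y →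
      Val f (code x) (code y) (code z)
  · obtain ⟨z, s, hs, h1⟩ := hc
    have hI : Int N (fun x : α => x ∉ s) := by (repeat' (first | with_reducible exact IntF.id | with_reducible exact IntF.fst' | with_reducible exact IntF.snd' | with_reducible exact IntF.const _ | with_reducible exact Int.const _ | assumption | with_reducible apply Int.and | with_reducible apply Int.or | with_reducible apply Int.not | with_reducible apply Int.imp | with_reducible apply Int.iff | with_reducible apply Int.ne | with_reducible apply Int.eq | with_reducible apply Int.mem | with_reducible apply Int.subset | with_reducible apply Int.ltN | with_reducible apply Int.leN | with_reducible_and_instances apply Int.le | with_reducible_and_instances apply Int.lt | with_reducible apply Int.all | with_reducible apply Int.ex | with_reducible apply IntF.fst | with_reducible apply IntF.snd | with_reducible apply IntF.app | with_reducible apply IntF.inl | with_reducible apply IntF.inr | with_reducible_and_instances apply IntF.mul | with_reducible_and_instances apply IntF.inv | with_reducible_and_instances apply IntF.add | with_reducible_and_instances apply IntF.sub |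 with_reducible_and_instances apply IntF.neg | with_reducible_and_instances apply IntF.smul | with_reducible apply Int.fin | with_reducible apply IntF.sep | with_reducible apply IntF.lam | with_reducible apply IntF.insert | with_reducible apply IntF.singleton | with_reducible apply IntF.union | with_reducible apply IntF.iimage | with_reducible apply IntF.ite | with_reducible apply IntF.the | with_reducible apply IntF.irec | with_reducible apply IntF.succ | with_reducible apply IntF.val | with_reducible apply IntF.mk | (with_reducible refine Int.comp ?_ ?_; assumption) | (with_reducible refine Int.comp₂ ?_ ?_ ?_; assumption) | (with_reducible refine Int.comp₃ ?_ ?_ ?_ ?_; assumption) | (with_reducible refine Int.comp₄ ?_ ?_ ?_ ?_ ?_; assumption) | (with_reducible refine IntF.comp ?_ ?_; assumption) | (with_reducible refine IntF.comp₂ ?_ ?_ ?_; assumption) | (with_reducible refine IntF.comp₃ ?_ ?_ ?_ ?_; assumption) | with_reducible apply IntF.pair))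
    refine ⟨code (sep N fun x : α => x ∉ s), fun a ha => ?_, fun h2 => ?_, code z, ?_⟩
    · obtain ⟨x, hx, rfl⟩ := mem_codeB.1 ha
      exact code_mem_domP x
    · refine h.not_fin ((fin_of_isFinite h2).union hs) fun x => ?_
      by_cases hx : x ∈ s
      · exact mem_union.2 (Or.inr hx)
      · exact mem_union.2 (Or.inl ((mem_sep hI).2 hx))
    · intro a b ha hb hab
      obtain ⟨x, hx, rfl⟩ := mem_codeB.1 ha
      obtain ⟨y, hy, rfl⟩ := mem_codeB.1 hb
      exact h1 x y ((mem_sep hI).1 hx) ((mem_sep hI).1 hy) fun e => hab (by rw [e])
  · push Not at hc
    exfalso
    obtain ⟨s, hs⟩ := IFin.exists_bound (M := N) (s := K)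
      (r := fun (z : Plain.El k) (s : FS N α) => ∀ x y, x ∉ s.1 → y ∉ s.1 → x ≠ y →
        ¬ Val f (code x) (code y) (code z)) (int_ncol
          (P := fun q z => Val f (code q.1) (code q.2) (code z)) hv)
      (fun b c => ⟨⟨b.1 ∪ c.1, b.2.union c.2⟩, fun z hz x y hx hy hxy => by
        rw [mem_union, not_or] at hx hy
        rcases hz with hz | hz
        · exact hz x y hx.1 hy.1 hxy
        · exact hz x y hx.2 hy.2 hxy⟩) ⟨⟨∅, IFin.empty⟩⟩ hKf fun z _ => by
      obtain ⟨s, hs, h1⟩ := h.hom (fun q => Val f (code q.1) (code q.2) (code z))
        (Int.comp (p := fun q : (α × α) × Plain.El k => Val f (code q.1.1) (code q.1.2) (code q.2))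
          (f := fun q : α × α => (q, z)) hv (by (repeat' (first | with_reducible exact IntF.id | with_reducible exact IntF.fst' | with_reducible exact IntF.snd' | with_reducible exact IntF.const _ | with_reducible exact Int.const _ | assumption | with_reducible apply Int.and | with_reducible apply Int.or | with_reducible apply Int.not | with_reducible apply Int.imp | with_reducible apply Int.iff | with_reducible apply Int.ne | with_reducible apply Int.eq | with_reducible apply Int.mem | with_reducible apply Int.subset | with_reducible apply Int.ltN | with_reducible apply Int.leN | with_reducible_and_instances apply Int.le | with_reducible_and_instances apply Int.lt | with_reducible apply Int.all | with_reducible apply Int.ex | with_reducible apply IntF.fst | with_reducible apply IntF.snd | with_reducible apply IntF.app | with_reducible apply IntF.inl | with_reducible apply IntF.inr | with_reducible_and_instances apply IntF.mul | with_reducible_and_instances apply IntF.inv | with_reducible_and_instances apply IntF.add | with_reducible_and_instances apply IntF.sub | with_reducible_and_instances apply IntF.neg | with_reducible_and_instances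 apply IntF.smul | with_reducible apply Int.fin | with_reducible apply IntF.sep | with_reducible apply IntF.lam | with_reducible apply IntF.insert | with_reducible apply IntF.singleton | with_reducible apply IntF.union | with_reducible apply IntF.iimage | with_reducible apply IntF.ite | with_reducible apply IntF.the | with_reducible apply IntF.irec | with_reducible apply IntF.succ | with_reducible apply IntF.val | with_reducible apply IntF.mk | (with_reducible refine Int.comp ?_ ?_; assumption) | (with_reducible refine Int.comp₂ ?_ ?_ ?_; assumption) | (with_reducible refine Int.comp₃ ?_ ?_ ?_ ?_; assumption) | (with_reducible refine Int.comp₄ ?_ ?_ ?_ ?_ ?_; assumption) | (with_reducible refine IntF.comp ?_ ?_; assumption) | (with_reducible refine IntF.comp₂ ?_ ?_ ?_; assumption) | (with_reducible refine IntF.comp₃ ?_ ?_ ?_ ?_; assumption) | with_reducible apply IntF.pair))))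
      obtain ⟨x, y, hx, hy, hxy, h2⟩ := hc z s hs
      exact ⟨⟨s, hs⟩, fun x' y' hx' hy' hxy' h3 => h2 (h1 x' y' x y hx' hy' hxy' hx hy hxy h3)⟩
    obtain ⟨x, y, hx, hy, hxy⟩ := h.out s.1 s.2
    obtain ⟨z, hz⟩ := htot x y hxy
    exact hs z (hall z) x y hx hy hxy hz

theorem not_crt : ¬ CRT (dom N α) := by
  intro hC
  have hPI : Int N (fun U : IPow N α => ∃ x y : α, x ≠ y ∧ U = insert x {y}) := by (repeat' (first | with_reducible exact IntF.id | with_reducible exact IntF.fst' | with_reducible exact IntF.snd' | with_reducible exact IntF.const _ | with_reducible exact Int.const _ | assumption | with_reducible apply Int.and | with_reducible apply Int.or | with_reducible apply Int.not | with_reducible apply Int.imp | with_reducible apply Int.iff | with_reducible apply Int.ne | with_reducible apply Int.eq | with_reducible apply Int.mem | with_reducible apply Int.subset | with_reducible apply Int.ltN | with_reducible apply Int.leN | with_reducible_and_instances apply Int.le | with_reducible_and_instances apply Int.lt | with_reducible apply Int.all | with_reducible apply Int.ex | with_reducible apply IntF.fst | with_reducible apply IntF.snd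 | with_reducible apply IntF.app | with_reducible apply IntF.inl | with_reducible apply IntF.inr | with_reducible_and_instances apply IntF.mul | with_reducible_and_instances apply IntF.inv | with_reducible_and_instances apply IntF.add | with_reducible_and_instances apply IntF.sub | with_reducible_and_instances apply IntF.neg | with_reducible_and_instances apply IntF.smul | with_reducible apply Int.fin | with_reducible apply IntF.sep | with_reducible apply IntF.lam | with_reducible apply IntF.insert | with_reducible apply IntF.singleton | with_reducible apply IntF.union | with_reducible apply IntF.iimage | with_reducible apply IntF.ite | with_reducible apply IntF.the | with_reducible apply IntF.irec | with_reducible apply IntF.succ | with_reducible apply IntF.val | with_reducible apply IntF.mk | (with_reducible refine Int.comp ?_ ?_; assumption) | (with_reducible refine Int.comp₂ ?_ ?_ ?_; assumption) | (with_reducible refine Int.comp₃ ?_ ?_ ?_ ?_; assumption) | (with_reducible refine Int.comp₄ ?_ ?_ ?_ ?_ ?_; assumption) | (with_reducible refine IntF.comp ?_ ?_; assumption) | (with_reducible refine IntF.comp₂ ?_ ?_ ?_; assumption) | (with_reducible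 refine IntF.comp₃ ?_ ?_ ?_ ?_; assumption) | with_reducible apply IntF.pair))
  have hRI : Int N (fun q : IPow N α × INat N =>
      (∃ x y : α, x ≠ y ∧ q.1 = insert x {y}) ∧ q.2 = 0) := by (repeat' (first | with_reducible exact IntF.id | with_reducible exact IntF.fst' | with_reducible exact IntF.snd' | with_reducible exact IntF.const _ | with_reducible exact Int.const _ | assumption | with_reducible apply Int.and | with_reducible apply Int.or | with_reducible apply Int.not | with_reducible apply Int.imp | with_reducible apply Int.iff | with_reducible apply Int.ne | with_reducible apply Int.eq | with_reducible apply Int.mem | with_reducible apply Int.subset | with_reducible apply Int.ltN | with_reducible apply Int.leN | with_reducible_and_instances apply Int.le | with_reducible_and_instances apply Int.lt | with_reducible apply Int.all | with_reducible apply Int.ex | with_reducible apply IntF.fst | with_reducible apply IntF.snd | with_reducible apply IntF.app | with_reducible apply IntF.inl | with_reducible apply IntF.inr | with_reducible_and_instances apply IntF.mul | with_reducible_and_instances apply IntF.inv | with_reducible_and_instances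 apply IntF.add | with_reducible_and_instances apply IntF.sub | with_reducible_and_instances apply IntF.neg | with_reducible_and_instances apply IntF.smul | with_reducible apply Int.fin | with_reducible apply IntF.sep | with_reducible apply IntF.lam | with_reducible apply IntF.insert | with_reducible apply IntF.singleton | with_reducible apply IntF.union | with_reducible apply IntF.iimage | with_reducible apply IntF.ite | with_reducible apply IntF.the | with_reducible apply IntF.irec | with_reducible apply IntF.succ | with_reducible apply IntF.val | with_reducible apply IntF.mk | (with_reducible refine Int.comp ?_ ?_; assumption) | (with_reducible refine Int.comp₂ ?_ ?_ ?_; assumption) | (with_reducible refine Int.comp₃ ?_ ?_ ?_ ?_; assumption) | (with_reducible refine Int.comp₄ ?_ ?_ ?_ ?_ ?_; assumption) | (with_reducible refine IntF.comp ?_ ?_; assumption) | (with_reducible refine IntF.comp₂ ?_ ?_ ?_; assumption) | (with_reducible refine IntF.comp₃ ?_ ?_ ?_ ?_; assumption) | with_reducible apply IntF.pair))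
  have hq : IsPairs (code (sep N fun U : IPow N α => ∃ x y : α, x ≠ y ∧ U = insert x {y}))
      (dom N α) := by
    intro p
    refine mem_codeB.trans ?_
    constructor
    · rintro ⟨U, hU, rfl⟩
      obtain ⟨x, y, hxy, rfl⟩ := (mem_sep hPI).1 hU
      exact ⟨code x, code y, code_mem_domP x, code_mem_domP y, fun e => hxy (ITy.inj e),
        isPair_iff.2 rfl⟩
    · rintro ⟨a, b, ha, hb, hab, h1⟩
      obtain ⟨x, rfl⟩ := mem_domP.1 ha
      obtain ⟨y, rfl⟩ := mem_domP.1 hb
      exact ⟨_, (mem_sep hPI).2 ⟨x, y, fun e => hab (by rw [e]), rfl⟩, (isPair_iff.1 h1).symm⟩
  have hf : IsFun (relc N fun (U : IPow N α) (n : INat N) =>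
      (∃ x y : α, x ≠ y ∧ U = insert x {y}) ∧ n = 0)
      (code (sep N fun U : IPow N α => ∃ x y : α, x ≠ y ∧ U = insert x {y}))
      (dom N (INat N)) := by
    constructor
    · intro p hp
      obtain ⟨U, n, ⟨h1, h2⟩, rfl⟩ := (mem_relc hRI).1 hp
      exact ⟨_, _, mem_codeB.2 ⟨U, (mem_sep hPI).2 h1, rfl⟩, code_mem_domP n, ordPair_iff.2 rfl⟩
    · intro p hp
      obtain ⟨U, hU, rfl⟩ := mem_codeB.1 hp
      refine ⟨code (0 : INat N), (app_relc' hRI).2 ⟨(mem_sep hPI).1 hU, rfl⟩, fun z hz => ?_⟩
      obtain ⟨U', n, ⟨-, h2⟩, -, rfl⟩ := (app_relc hRI).1 hz
      rw [h2]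
  obtain ⟨y, l, hy, hinf, hl, -⟩ := hC _ _ _ hq hf
  obtain ⟨Y, rfl⟩ := exists_codeB (α := α) (u := y) fun z hz => mem_domP.1 (hy z hz)
  have hW : Int N (fun q : α × α => App l (code q.1) (code q.2)) := ⟨l, fun q => app_iff.symm⟩
  obtain ⟨s, hs, h1⟩ := h.hom _ hW
  -- two points of `Y` outside `s`
  have h2 : ∃ x y, x ∈ Y ∧ y ∈ Y ∧ x ∉ s ∧ y ∉ s ∧ x ≠ y := by
    by_contra hcon
    push Not at hcon
    apply hinf
    apply isFinite_of_fin
    by_cases h3 : ∃ x, x ∈ Y ∧ x ∉ s
    · obtain ⟨x, hx, hxs⟩ := h3
      refine (hs.insert x).subset fun y hy => ?_
      by_cases hys : y ∈ s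
      · exact mem_insert.2 (Or.inr hys)
      · exact mem_insert.2 (Or.inl (hcon x y hx hy hxs hys).symm)
    · push Not at h3
      exact hs.subset fun y hy => h3 y hy
  obtain ⟨x, y, hx, hy, hxs, hys, hxy⟩ := h2
  have h3 : ∀ x y, x ∉ s → y ∉ s → x ≠ y → ¬ App l (code x) (code y) := fun x y hx hy hxy h4 =>
    hl.irrefl _ (hl.trans _ _ _ h4 (h1 x y y x hx hy hxy hy hx hxy.symm h4))
  rcases hl.total (code x) (code y) (mem_codeB'.2 hx) (mem_codeB'.2 hy)
    (fun e => hxy (ITy.inj e)) with h4 | h4
  · exact h3 x y hxs hys hxy h4
  · exact h3 y x hys hxs hxy.symm h4

end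

section

attribute [local instance] Helper672.Plain.toL

variable {N : Type u} [LSet.Structure N] [hZ : Helper672.Plain.Zermelo N]

local instance instModelFr2' : IsModel N := Helper672.Plain.isModel_toL

noncomputable local instance instPElFr2' (x : N) : ITy N (Helper672.Plain.El x) :=
  (inferInstance : ITy N (El x))

theorem crt_rt2 {a : N} (h : FrA N (Plain.El a)) :
    ∃ x : N, ¬ CRT x ∧ ∀ k : N, IsFinite k → RT2 x k :=
  ⟨dom N (Plain.El a), not_crt h, fun _ hk => rt2 h hk⟩

end

section

attribute [local instance] Helper672.Plain.toL

theorem crt_rt2_of {N : Type u} [LSet.Structure N] [hZ : Helper672.Plain.Zermelo N]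
    (hh : HasFr N) : ∃ x : N, ¬ CRT x ∧ ∀ k : N, IsFinite k → RT2 x k := by
  letI : IsModel N := Helper672.Plain.isModel_toL
  obtain ⟨a, h⟩ := hh
  exact crt_rt2 h

end

end Pool.Agent.V11257F
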