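import Pool.Agent.V11257.Pmx

/-!
# A set with names for all its subsets: the group
-/

set_option maxHeartbeats 1000000
set_option linter.all false
set_option synthInstance.maxSize 2000

namespace Pool.Agent.V11257G

open FirstOrder FirstOrder.Language
open Pool.Agent.Helper672.ZFA
open Pool.Agent.Helper672.ZFA.H635 (IPerm SymSys IG WFI FEq FMem tw Good feq_of_map feq_iff IsGen
  nd nd_eq mem_nd mem_nd_nd exists_mk mk_eq_nd EqFam NN nn_ext CollL nn_zf mem_NN)
open Pool.Agent.Helper672.ZFA.H310M
open Pool.Agent.Helper672.Plain (LSet)
open Pool.Agent.H310
open Pool.Agent.V11257P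

universe u

variable {M : Type u} [L.Structure M] [hM : IsModel M] {β ν : Type u} [ITy M β] [ITy M ν]

variable (M β ν) in
/-- The index set. -/
abbrev Xg : Type u := β ⊕ (IPow M β ⊕ ν)

/-- A point. -/
abbrev xa (x : β) : Xg M β ν := Sum.inl x
/-- A set of points. -/
abbrev xd (B : IPow M β) : Xg M β ν := Sum.inr (Sum.inl B)
/-- An index. -/
abbrev xv (v : ν) : Xg M β ν := Sum.inr (Sum.inr v)

/-- Membership. -/
def Tm (q : INat M × (Xg M β ν × Xg M β ν)) : Prop :=
  ∃ x B, q.2.1 = xa x ∧ q.2.2 = xd B ∧ x ∈ B

/-- The given relation. -/
def Tr (R : IPow M β × ν → Prop) (q : INat M × (Xg M β ν × Xg M β ν)) : Prop :=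
  ∃ B v, q.2.1 = xd B ∧ q.2.2 = xv v ∧ R (B, v)

/-- The points. -/
def Ta (q : INat M × (Xg M β ν × Xg M β ν)) : Prop := ∃ x, q.2.1 = xa x

/-- The sets. -/
def Td (q : INat M × (Xg M β ν × Xg M β ν)) : Prop := ∃ B, q.2.1 = xd B

/-- The indices. -/
def Tv (q : INat M × (Xg M β ν × Xg M β ν)) : Prop := ∃ v, q.2.1 = xv v

/-- A relation between numbers and indices. -/
def Tn (T : INat M × ν → Prop) (q : INat M × (Xg M β ν × Xg M β ν)) : Prop :=
  ∃ v, q.2.1 = xv v ∧ T (q.1, v)

theorem int_Tm : Int M (Tm (M := M) (β := β) (ν := ν)) := by
  unfold Tm
  (repeat' (first | with_reducible exact IntF.id | with_reducible exact IntF.fst' | with_reducible exact IntF.snd' | with_reducible exact IntF.const _ | with_reducible exact Int.const _ | assumption | with_reducible apply Int.and | with_reducible apply Int.or | with_reducible apply Int.not | with_reducible apply Int.imp | with_reducible apply Int.iff | with_reducible apply Int.ne | with_reducible apply Int.eq | with_reducible apply Int.mem | with_reducible apply Int.subset | with_reducible apply Int.ltN | with_reducible apply Int.leN | with_reducible_and_instances apply Int.le | with_reducible_and_instances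 apply Int.lt | with_reducible apply Int.all | with_reducible apply Int.ex | with_reducible apply IntF.fst | with_reducible apply IntF.snd | with_reducible apply IntF.app | with_reducible apply IntF.inl | with_reducible apply IntF.inr | with_reducible_and_instances apply IntF.mul | with_reducible_and_instances apply IntF.inv | with_reducible_and_instances apply IntF.add | with_reducible_and_instances apply IntF.sub | with_reducible_and_instances apply IntF.neg | with_reducible_and_instances apply IntF.smul | with_reducible apply Int.fin | with_reducible apply IntF.sep | with_reducible apply IntF.lam | with_reducible apply IntF.insert | with_reducible apply IntF.singleton | with_reducible apply IntF.union | with_reducible apply IntF.iimage | with_reducible apply IntF.ite | with_reducible apply IntF.the | with_reducible apply IntF.irec | with_reducible apply IntF.succ | with_reducible apply IntF.val | with_reducible apply IntF.mk | (with_reducible refine Int.comp ?_ ?_; assumption) | (with_reducible refine Int.comp₂ ?_ ?_ ?_; assumption) | (with_reducible refine Int.comp₃ ?_ ?_ ?_ ?_; assumption) | (with_reducible refine Int.comp₄ ?_ ?_ ?_ ?_ ?_;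 assumption) | (with_reducible refine IntF.comp ?_ ?_; assumption) | (with_reducible refine IntF.comp₂ ?_ ?_ ?_; assumption) | (with_reducible refine IntF.comp₃ ?_ ?_ ?_ ?_; assumption) | with_reducible apply IntF.pair))

theorem int_Tr {R : IPow M β × ν → Prop} (hR : Int M R) : Int M (Tr R) := by
  unfold Tr
  (repeat' (first | with_reducible exact IntF.id | with_reducible exact IntF.fst' | with_reducible exact IntF.snd' | with_reducible exact IntF.const _ | with_reducible exact Int.const _ | assumption | with_reducible apply Int.and | with_reducible apply Int.or | with_reducible apply Int.not | with_reducible apply Int.imp | with_reducible apply Int.iff | with_reducible apply Int.ne | with_reducible apply Int.eq | with_reducible apply Int.mem | with_reducible apply Int.subset | with_reducible apply Int.ltN | with_reducible apply Int.leN | with_reducible_and_instances apply Int.le | with_reducible_and_instances apply Int.lt | with_reducible apply Int.all | with_reducible apply Int.ex | with_reducible apply IntF.fst | with_reducible apply IntF.snd | with_reducible apply IntF.app | with_reducible apply IntF.inl | with_reducible apply IntF.inr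 | with_reducible_and_instances apply IntF.mul | with_reducible_and_instances apply IntF.inv | with_reducible_and_instances apply IntF.add | with_reducible_and_instances apply IntF.sub | with_reducible_and_instances apply IntF.neg | with_reducible_and_instances apply IntF.smul | with_reducible apply Int.fin | with_reducible apply IntF.sep | with_reducible apply IntF.lam | with_reducible apply IntF.insert | with_reducible apply IntF.singleton | with_reducible apply IntF.union | with_reducible apply IntF.iimage | with_reducible apply IntF.ite | with_reducible apply IntF.the | with_reducible apply IntF.irec | with_reducible apply IntF.succ | with_reducible apply IntF.val | with_reducible apply IntF.mk | (with_reducible refine Int.comp ?_ ?_; assumption) | (with_reducible refine Int.comp₂ ?_ ?_ ?_; assumption) | (with_reducible refine Int.comp₃ ?_ ?_ ?_ ?_; assumption) | (with_reducible refine Int.comp₄ ?_ ?_ ?_ ?_ ?_; assumption) | (with_reducible refine IntF.comp ?_ ?_; assumption) | (with_reducible refine IntF.comp₂ ?_ ?_ ?_; assumption) | (with_reducible refine IntF.comp₃ ?_ ?_ ?_ ?_; assumption) | with_reducible apply IntF.pair))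

theorem int_Ta : Int M (Ta (M := M) (β := β) (ν := ν)) := by
  unfold Ta
  (repeat' (first | with_reducible exact IntF.id | with_reducible exact IntF.fst' | with_reducible exact IntF.snd' | with_reducible exact IntF.const _ | with_reducible exact Int.const _ | assumption | with_reducible apply Int.and | with_reducible apply Int.or | with_reducible apply Int.not | with_reducible apply Int.imp | with_reducible apply Int.iff | with_reducible apply Int.ne | with_reducible apply Int.eq | with_reducible apply Int.mem | with_reducible apply Int.subset | with_reducible apply Int.ltN | with_reducible apply Int.leN | with_reducible_and_instances apply Int.le | with_reducible_and_instances apply Int.lt | with_reducible apply Int.all | with_reducible apply Int.ex | with_reducible apply IntF.fst | with_reducible apply IntF.snd | with_reducible apply IntF.app | with_reducible apply IntF.inl | with_reducible apply IntF.inr | with_reducible_and_instances apply IntF.mul | with_reducible_and_instances apply IntF.inv | with_reducible_and_instances apply IntF.add | with_reducible_and_instances apply IntF.sub | with_reducible_and_instances apply IntF.neg | with_reducible_and_instances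 apply IntF.smul | with_reducible apply Int.fin | with_reducible apply IntF.sep | with_reducible apply IntF.lam | with_reducible apply IntF.insert | with_reducible apply IntF.singleton | with_reducible apply IntF.union | with_reducible apply IntF.iimage | with_reducible apply IntF.ite | with_reducible apply IntF.the | with_reducible apply IntF.irec | with_reducible apply IntF.succ | with_reducible apply IntF.val | with_reducible apply IntF.mk | (with_reducible refine Int.comp ?_ ?_; assumption) | (with_reducible refine Int.comp₂ ?_ ?_ ?_; assumption) | (with_reducible refine Int.comp₃ ?_ ?_ ?_ ?_; assumption) | (with_reducible refine Int.comp₄ ?_ ?_ ?_ ?_ ?_; assumption) | (with_reducible refine IntF.comp ?_ ?_; assumption) | (with_reducible refine IntF.comp₂ ?_ ?_ ?_; assumption) | (with_reducible refine IntF.comp₃ ?_ ?_ ?_ ?_; assumption) | with_reducible apply IntF.pair))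

theorem int_Td : Int M (Td (M := M) (β := β) (ν := ν)) := by
  unfold Td
  (repeat' (first | with_reducible exact IntF.id | with_reducible exact IntF.fst' | with_reducible exact IntF.snd' | with_reducible exact IntF.const _ | with_reducible exact Int.const _ | assumption | with_reducible apply Int.and | with_reducible apply Int.or | with_reducible apply Int.not | with_reducible apply Int.imp | with_reducible apply Int.iff | with_reducible apply Int.ne | with_reducible apply Int.eq | with_reducible apply Int.mem | with_reducible apply Int.subset | with_reducible apply Int.ltN | with_reducible apply Int.leN | with_reducible_and_instances apply Int.le | with_reducible_and_instances apply Int.lt | with_reducible apply Int.all | with_reducible apply Int.ex | with_reducible apply IntF.fst | with_reducible apply IntF.snd | with_reducible apply IntF.app | with_reducible apply IntF.inl | with_reducible apply IntF.inr | with_reducible_and_instances apply IntF.mul | with_reducible_and_instances apply IntF.inv | with_reducible_and_instances apply IntF.add | with_reducible_and_instances apply IntF.sub | with_reducible_and_instances apply IntF.neg | with_reducible_and_instances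 apply IntF.smul | with_reducible apply Int.fin | with_reducible apply IntF.sep | with_reducible apply IntF.lam | with_reducible apply IntF.insert | with_reducible apply IntF.singleton | with_reducible apply IntF.union | with_reducible apply IntF.iimage | with_reducible apply IntF.ite | with_reducible apply IntF.the | with_reducible apply IntF.irec | with_reducible apply IntF.succ | with_reducible apply IntF.val | with_reducible apply IntF.mk | (with_reducible refine Int.comp ?_ ?_; assumption) | (with_reducible refine Int.comp₂ ?_ ?_ ?_; assumption) | (with_reducible refine Int.comp₃ ?_ ?_ ?_ ?_; assumption) | (with_reducible refine Int.comp₄ ?_ ?_ ?_ ?_ ?_; assumption) | (with_reducible refine IntF.comp ?_ ?_; assumption) | (with_reducible refine IntF.comp₂ ?_ ?_ ?_; assumption) | (with_reducible refine IntF.comp₃ ?_ ?_ ?_ ?_; assumption) | with_reducible apply IntF.pair))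

theorem int_Tv : Int M (Tv (M := M) (β := β) (ν := ν)) := by
  unfold Tv
  (repeat' (first | with_reducible exact IntF.id | with_reducible exact IntF.fst' | with_reducible exact IntF.snd' | with_reducible exact IntF.const _ | with_reducible exact Int.const _ | assumption | with_reducible apply Int.and | with_reducible apply Int.or | with_reducible apply Int.not | with_reducible apply Int.imp | with_reducible apply Int.iff | with_reducible apply Int.ne | with_reducible apply Int.eq | with_reducible apply Int.mem | with_reducible apply Int.subset | with_reducible apply Int.ltN | with_reducible apply Int.leN | with_reducible_and_instances apply Int.le | with_reducible_and_instances apply Int.lt | with_reducible apply Int.all | with_reducible apply Int.ex | with_reducible apply IntF.fst | with_reducible apply IntF.snd | with_reducible apply IntF.app | with_reducible apply IntF.inl | with_reducible apply IntF.inr | with_reducible_and_instances apply IntF.mul | with_reducible_and_instances apply IntF.inv | with_reducible_and_instances apply IntF.add | with_reducible_and_instances apply IntF.sub | with_reducible_and_instances apply IntF.neg | with_reducible_and_instances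 apply IntF.smul | with_reducible apply Int.fin | with_reducible apply IntF.sep | with_reducible apply IntF.lam | with_reducible apply IntF.insert | with_reducible apply IntF.singleton | with_reducible apply IntF.union | with_reducible apply IntF.iimage | with_reducible apply IntF.ite | with_reducible apply IntF.the | with_reducible apply IntF.irec | with_reducible apply IntF.succ | with_reducible apply IntF.val | with_reducible apply IntF.mk | (with_reducible refine Int.comp ?_ ?_; assumption) | (with_reducible refine Int.comp₂ ?_ ?_ ?_; assumption) | (with_reducible refine Int.comp₃ ?_ ?_ ?_ ?_; assumption) | (with_reducible refine Int.comp₄ ?_ ?_ ?_ ?_ ?_; assumption) | (with_reducible refine IntF.comp ?_ ?_; assumption) | (with_reducible refine IntF.comp₂ ?_ ?_ ?_; assumption) | (with_reducible refine IntF.comp₃ ?_ ?_ ?_ ?_; assumption) | with_reducible apply IntF.pair))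

theorem int_Tn {T : INat M × ν → Prop} (hT : Int M T) :
    Int M (Tn (M := M) (β := β) (ν := ν) T) := by
  unfold Tn
  (repeat' (first | with_reducible exact IntF.id | with_reducible exact IntF.fst' | with_reducible exact IntF.snd' | with_reducible exact IntF.const _ | with_reducible exact Int.const _ | assumption | with_reducible apply Int.and | with_reducible apply Int.or | with_reducible apply Int.not | with_reducible apply Int.imp | with_reducible apply Int.iff | with_reducible apply Int.ne | with_reducible apply Int.eq | with_reducible apply Int.mem | with_reducible apply Int.subset | with_reducible apply Int.ltN | with_reducible apply Int.leN | with_reducible_and_instances apply Int.le | with_reducible_and_instances apply Int.lt | with_reducible apply Int.all | with_reducible apply Int.ex | with_reducible apply IntF.fst | with_reducible apply IntF.snd | with_reducible apply IntF.app | with_reducible apply IntF.inl | with_reducible apply IntF.inr | with_reducible_and_instances apply IntF.mul | with_reducible_and_instances apply IntF.inv | with_reducible_and_instances apply IntF.add | with_reducible_and_instances apply IntF.sub | with_reducible_and_instances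 apply IntF.neg | with_reducible_and_instances apply IntF.smul | with_reducible apply Int.fin | with_reducible apply IntF.sep | with_reducible apply IntF.lam | with_reducible apply IntF.insert | with_reducible apply IntF.singleton | with_reducible apply IntF.union | with_reducible apply IntF.iimage | with_reducible apply IntF.ite | with_reducible apply IntF.the | with_reducible apply IntF.irec | with_reducible apply IntF.succ | with_reducible apply IntF.val | with_reducible apply IntF.mk | (with_reducible refine Int.comp ?_ ?_; assumption) | (with_reducible refine Int.comp₂ ?_ ?_ ?_; assumption) | (with_reducible refine Int.comp₃ ?_ ?_ ?_ ?_; assumption) | (with_reducible refine Int.comp₄ ?_ ?_ ?_ ?_ ?_; assumption) | (with_reducible refine IntF.comp ?_ ?_; assumption) | (with_reducible refine IntF.comp₂ ?_ ?_ ?_; assumption) | (with_reducible refine IntF.comp₃ ?_ ?_ ?_ ?_; assumption) | with_reducible apply IntF.pair))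

/-- The group. -/
structure GgS (R : IPow M β × ν → Prop) (g : IPerm M (Xg M β ν)) : Prop where
  m : ∀ n p q, Tm (n, (p, q)) ↔ Tm (n, (g.1.1 p, g.1.1 q))
  r : ∀ n p q, Tr R (n, (p, q)) ↔ Tr R (n, (g.1.1 p, g.1.1 q))
  a : ∀ n p q, Ta (n, (p, q)) ↔ Ta (n, (g.1.1 p, g.1.1 q))
  d : ∀ n p q, Td (n, (p, q)) ↔ Td (n, (g.1.1 p, g.1.1 q))
  v : ∀ v, g.1.1 (xv v) = xv v

theorem ggS_iff (R : IPow M β × ν → Prop) (g : IPerm M (Xg M β ν)) : GgS R g ↔
    (∀ n p q, Tm (n, (p, q)) ↔ Tm (n, (g.1.1 p, g.1.1 q))) ∧
    (∀ n p q, Tr R (n, (p, q)) ↔ Tr R (n, (g.1.1 p, g.1.1 q))) ∧
    (∀ n p q, Ta (n, (p, q)) ↔ Ta (n, (g.1.1 p, g.1.1 q))) ∧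
    (∀ n p q, Td (n, (p, q)) ↔ Td (n, (g.1.1 p, g.1.1 q))) ∧ ∀ v, g.1.1 (xv v) = xv v :=
  ⟨fun h => ⟨h.m, h.r, h.a, h.d, h.v⟩, fun h => ⟨h.1, h.2.1, h.2.2.1, h.2.2.2.1, h.2.2.2.2⟩⟩

/-- The group. -/
def Hg (R : IPow M β × ν → Prop) : Subgroup (IPerm M (Xg M β ν)) where
  carrier := {g | GgS R g}
  mul_mem' {a b} ha hb := by
    refine ⟨fun n p q => ?_, fun n p q => ?_, fun n p q => ?_, fun n p q => ?_, fun v => ?_⟩
    · rw [hb.m n p q, ha.m n (b.1.1 p) (b.1.1 q), IPerm.mul_apply, IPerm.mul_apply]
    · rw [hb.r n p q, ha.r n (b.1.1 p) (b.1.1 q), IPerm.mul_apply, IPerm.mul_apply]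
    · rw [hb.a n p q, ha.a n (b.1.1 p) (b.1.1 q), IPerm.mul_apply, IPerm.mul_apply]
    · rw [hb.d n p q, ha.d n (b.1.1 p) (b.1.1 q), IPerm.mul_apply, IPerm.mul_apply]
    · rw [IPerm.mul_apply, hb.v, ha.v]
  one_mem' := by
    refine ⟨fun n p q => ?_, fun n p q => ?_, fun n p q => ?_, fun n p q => ?_, fun v => ?_⟩
    · rw [IPerm.one_apply, IPerm.one_apply]
    · rw [IPerm.one_apply, IPerm.one_apply]
    · rw [IPerm.one_apply, IPerm.one_apply]
    · rw [IPerm.one_apply, IPerm.one_apply]
    · rw [IPerm.one_apply]
  inv_mem' {a} ha := by
    have e1 : ∀ x, a.1.1 (a.1.2 x) = x := a.2.1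
    have e2 : ∀ x, a.1.2 (a.1.1 x) = x := a.2.2
    refine ⟨fun n p q => ?_, fun n p q => ?_, fun n p q => ?_, fun n p q => ?_, fun v => ?_⟩
    · change _ ↔ Tm (n, (a.1.2 p, a.1.2 q))
      rw [ha.m n (a.1.2 p), e1, e1]
    · change _ ↔ Tr R (n, (a.1.2 p, a.1.2 q))
      rw [ha.r n (a.1.2 p), e1, e1]
    · change _ ↔ Ta (n, (a.1.2 p, a.1.2 q))
      rw [ha.a n (a.1.2 p) (a.1.2 q), e1, e1]
    · change _ ↔ Td (n, (a.1.2 p, a.1.2 q))
      rw [ha.d n (a.1.2 p) (a.1.2 q), e1, e1]
    · change a.1.2 (xv v) = xv v
      have h1 := congrArg a.1.2 (ha.v v)
      rw [e2] at h1
      exact h1.symm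

/-- The group. -/
def Zg (R : IPow M β × ν → Prop) (hR : Int M R) : PGr M (Xg M β ν) where
  H := Hg R
  int := by
    have h1 := int_Tm (M := M) (β := β) (ν := ν)
    have h2 := int_Tr hR
    have h3 := int_Ta (M := M) (β := β) (ν := ν)
    have h4 := int_Td (M := M) (β := β) (ν := ν)
    refine Int.congr (p := fun g : IPerm M (Xg M β ν) =>
      (∀ n p q, Tm (n, (p, q)) ↔ Tm (n, (g.1.1 p, g.1.1 q))) ∧
      (∀ n p q, Tr R (n, (p, q)) ↔ Tr R (n, (g.1.1 p, g.1.1 q))) ∧
      (∀ n p q, Ta (n, (p, q)) ↔ Ta (n, (g.1.1 p, g.1.1 q))) ∧
      (∀ n p q, Td (n, (p, q)) ↔ Td (n, (g.1.1 p, g.1.1 q))) ∧ ∀ v, g.1.1 (xv v) = xv v)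
      ?_ fun g => (ggS_iff R g).symm
    (repeat' (first | with_reducible exact IntF.id | with_reducible exact IntF.fst' | with_reducible exact IntF.snd' | with_reducible exact IntF.const _ | with_reducible exact Int.const _ | assumption | with_reducible apply Int.and | with_reducible apply Int.or | with_reducible apply Int.not | with_reducible apply Int.imp | with_reducible apply Int.iff | with_reducible apply Int.ne | with_reducible apply Int.eq | with_reducible apply Int.mem | with_reducible apply Int.subset | with_reducible apply Int.ltN | with_reducible apply Int.leN | with_reducible_and_instances apply Int.le | with_reducible_and_instances apply Int.lt | with_reducible apply Int.all | with_reducible apply Int.ex | with_reducible apply IntF.fst | with_reducible apply IntF.snd | with_reducible apply IntF.app | with_reducible apply IntF.inl | with_reducible apply IntF.inr | with_reducible_and_instances apply IntF.mul | with_reducible_and_instances apply IntF.inv | with_reducible_and_instances apply IntF.add | with_reducible_and_instances apply IntF.sub | with_reducible_and_instances apply IntF.neg | with_reducible_and_instances apply IntF.smul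 | with_reducible apply Int.fin | with_reducible apply IntF.sep | with_reducible apply IntF.lam | with_reducible apply IntF.insert | with_reducible apply IntF.singleton | with_reducible apply IntF.union | with_reducible apply IntF.iimage | with_reducible apply IntF.ite | with_reducible apply IntF.the | with_reducible apply IntF.irec | with_reducible apply IntF.succ | with_reducible apply IntF.val | with_reducible apply IntF.mk | (with_reducible refine Int.comp ?_ ?_; assumption) | (with_reducible refine Int.comp₂ ?_ ?_ ?_; assumption) | (with_reducible refine Int.comp₃ ?_ ?_ ?_ ?_; assumption) | (with_reducible refine Int.comp₄ ?_ ?_ ?_ ?_ ?_; assumption) | (with_reducible refine IntF.comp ?_ ?_; assumption) | (with_reducible refine IntF.comp₂ ?_ ?_ ?_; assumption) | (with_reducible refine IntF.comp₃ ?_ ?_ ?_ ?_; assumption) | with_reducible apply IntF.pair))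

/-- The image of a set under an involution. -/
noncomputable def im (f : β → β) (B : IPow M β) : IPow M β := sep M fun y => f y ∈ B

theorem mem_im {f : β → β} (hf : IntF M f) {B : IPow M β} {y : β} : y ∈ im f B ↔ f y ∈ B := by
  unfold im
  exact mem_sep (by (repeat' (first | with_reducible exact IntF.id | with_reducible exact IntF.fst' | with_reducible exact IntF.snd' | with_reducible exact IntF.const _ | with_reducible exact Int.const _ | assumption | with_reducible apply Int.and | with_reducible apply Int.or | with_reducible apply Int.not | with_reducible apply Int.imp | with_reducible apply Int.iff | with_reducible apply Int.ne | with_reducible apply Int.eq | with_reducible apply Int.mem | with_reducible apply Int.subset | with_reducible apply Int.ltN | with_reducible apply Int.leN | with_reducible_and_instances apply Int.le | with_reducible_and_instances apply Int.lt | with_reducible apply Int.all | with_reducible apply Int.ex | with_reducible apply IntF.fst | with_reducible apply IntF.snd | with_reducible apply IntF.app | with_reducible apply IntF.inl | with_reducible apply IntF.inr | with_reducible_and_instances apply IntF.mul | with_reducible_and_instances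 apply IntF.inv | with_reducible_and_instances apply IntF.add | with_reducible_and_instances apply IntF.sub | with_reducible_and_instances apply IntF.neg | with_reducible_and_instances apply IntF.smul | with_reducible apply Int.fin | with_reducible apply IntF.sep | with_reducible apply IntF.lam | with_reducible apply IntF.insert | with_reducible apply IntF.singleton | with_reducible apply IntF.union | with_reducible apply IntF.iimage | with_reducible apply IntF.ite | with_reducible apply IntF.the | with_reducible apply IntF.irec | with_reducible apply IntF.succ | with_reducible apply IntF.val | with_reducible apply IntF.mk | (with_reducible refine Int.comp ?_ ?_; assumption) | (with_reducible refine Int.comp₂ ?_ ?_ ?_; assumption) | (with_reducible refine Int.comp₃ ?_ ?_ ?_ ?_; assumption) | (with_reducible refine Int.comp₄ ?_ ?_ ?_ ?_ ?_; assumption) | (with_reducible refine IntF.comp ?_ ?_; assumption) | (with_reducible refine IntF.comp₂ ?_ ?_ ?_; assumption) | (with_reducible refine IntF.comp₃ ?_ ?_ ?_ ?_; assumption) | with_reducible apply IntF.pair)))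

theorem im_im {f : β → β} (hf : IntF M f) (hff : ∀ x, f (f x) = x) (B : IPow M β) :
    im f (im f B) = B := IPow.ext' fun x => by
  rw [mem_im hf, mem_im hf, hff]

/-- The map of the index set given by an involution. -/
noncomputable def gf (f : β → β) : Xg M β ν → Xg M β ν
  | Sum.inl x => xa (f x)
  | Sum.inr (Sum.inl B) => xd (im f B)
  | Sum.inr (Sum.inr v) => xv v

theorem int_im {f : β → β} (hf : IntF M f) : IntF M (im (M := M) f) := by
  unfold im
  (repeat' (first | with_reducible exact IntF.id | with_reducible exact IntF.fst' | with_reducible exact IntF.snd' | with_reducible exact IntF.const _ | with_reducible exact Int.const _ | assumption | with_reducible apply Int.and | with_reducible apply Int.or | with_reducible apply Int.not | with_reducible apply Int.imp | with_reducible apply Int.iff | with_reducible apply Int.ne | with_reducible apply Int.eq | with_reducible apply Int.mem | with_reducible apply Int.subset | with_reducible apply Int.ltN | with_reducible apply Int.leN | with_reducible_and_instances apply Int.le | with_reducible_and_instances apply Int.lt | with_reducible apply Int.all | with_reducible apply Int.ex | with_reducible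 apply IntF.fst | with_reducible apply IntF.snd | with_reducible apply IntF.app | with_reducible apply IntF.inl | with_reducible apply IntF.inr | with_reducible_and_instances apply IntF.mul | with_reducible_and_instances apply IntF.inv | with_reducible_and_instances apply IntF.add | with_reducible_and_instances apply IntF.sub | with_reducible_and_instances apply IntF.neg | with_reducible_and_instances apply IntF.smul | with_reducible apply Int.fin | with_reducible apply IntF.sep | with_reducible apply IntF.lam | with_reducible apply IntF.insert | with_reducible apply IntF.singleton | with_reducible apply IntF.union | with_reducible apply IntF.iimage | with_reducible apply IntF.ite | with_reducible apply IntF.the | with_reducible apply IntF.irec | with_reducible apply IntF.succ | with_reducible apply IntF.val | with_reducible apply IntF.mk | (with_reducible refine Int.comp ?_ ?_; assumption) | (with_reducible refine Int.comp₂ ?_ ?_ ?_; assumption) | (with_reducible refine Int.comp₃ ?_ ?_ ?_ ?_; assumption) | (with_reducible refine Int.comp₄ ?_ ?_ ?_ ?_ ?_; assumption) | (with_reducible refine IntF.comp ?_ ?_; assumption) | (with_reducible refine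 IntF.comp₂ ?_ ?_ ?_; assumption) | (with_reducible refine IntF.comp₃ ?_ ?_ ?_ ?_; assumption) | with_reducible apply IntF.pair))

theorem int_gf {f : β → β} (hf : IntF M f) : IntF M (gf (M := M) (ν := ν) f) := by
  have h1 := int_im (M := M) hf
  refine IntF.of_rel (r := fun p q : Xg M β ν => (∃ x, p = xa x ∧ q = xa (f x)) ∨
    (∃ B, p = xd B ∧ q = xd (im f B)) ∨ (∃ v, p = xv v ∧ q = xv v)) (by (repeat' (first | with_reducible exact IntF.id | with_reducible exact IntF.fst' | with_reducible exact IntF.snd' | with_reducible exact IntF.const _ | with_reducible exact Int.const _ | assumption | with_reducible apply Int.and | with_reducible apply Int.or | with_reducible apply Int.not | with_reducible apply Int.imp | with_reducible apply Int.iff | with_reducible apply Int.ne | with_reducible apply Int.eq | with_reducible apply Int.mem | with_reducible apply Int.subset | with_reducible apply Int.ltN | with_reducible apply Int.leN | with_reducible_and_instances apply Int.le | with_reducible_and_instances apply Int.lt | with_reducible apply Int.all | with_reducible apply Int.ex | with_reducible apply IntF.fst | with_reducible apply IntF.snd | with_reducible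 apply IntF.app | with_reducible apply IntF.inl | with_reducible apply IntF.inr | with_reducible_and_instances apply IntF.mul | with_reducible_and_instances apply IntF.inv | with_reducible_and_instances apply IntF.add | with_reducible_and_instances apply IntF.sub | with_reducible_and_instances apply IntF.neg | with_reducible_and_instances apply IntF.smul | with_reducible apply Int.fin | with_reducible apply IntF.sep | with_reducible apply IntF.lam | with_reducible apply IntF.insert | with_reducible apply IntF.singleton | with_reducible apply IntF.union | with_reducible apply IntF.iimage | with_reducible apply IntF.ite | with_reducible apply IntF.the | with_reducible apply IntF.irec | with_reducible apply IntF.succ | with_reducible apply IntF.val | with_reducible apply IntF.mk | (with_reducible refine Int.comp ?_ ?_; assumption) | (with_reducible refine Int.comp₂ ?_ ?_ ?_; assumption) | (with_reducible refine Int.comp₃ ?_ ?_ ?_ ?_; assumption) | (with_reducible refine Int.comp₄ ?_ ?_ ?_ ?_ ?_; assumption) | (with_reducible refine IntF.comp ?_ ?_; assumption) | (with_reducible refine IntF.comp₂ ?_ ?_ ?_; assumption) | (with_reducible refine IntF.comp₃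 ?_ ?_ ?_ ?_; assumption) | with_reducible apply IntF.pair))) fun p q => ?_
  constructor
  · rintro (⟨x, rfl, rfl⟩ | ⟨B, rfl, rfl⟩ | ⟨v, rfl, rfl⟩) <;> rfl
  · rintro rfl
    rcases p with x | B | v
    · exact Or.inl ⟨x, rfl, rfl⟩
    · exact Or.inr (Or.inl ⟨B, rfl, rfl⟩)
    · exact Or.inr (Or.inr ⟨v, rfl, rfl⟩)

theorem gf_gf {f : β → β} (hf : IntF M f) (hff : ∀ x, f (f x) = x) (p : Xg M β ν) :
    gf f (gf f p) = p := by
  rcases p with x | B | v
  · exact congrArg Sum.inl (hff x)
  · exact congrArg (fun B => Sum.inr (Sum.inl B)) (im_im hf hff B)
  · rfl

variable (M) in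
/-- The admissible involutions. -/
structure Adm (R : IPow M β × ν → Prop) (f : β → β) : Prop where
  int : IntF M f
  inv : ∀ x, f (f x) = x
  pres : ∀ B v, R (B, v) → R (im f B, v)

theorem Adm.tm {R : IPow M β × ν → Prop} {f : β → β} (hf : Adm M R f) {n : INat M}
    {p q : Xg M β ν} (h : Tm (n, (p, q))) : Tm (n, (gf f p, gf f q)) := by
  obtain ⟨x, B, h1, h2, h3⟩ := h
  change p = _ at h1
  change q = _ at h2
  subst h1
  subst h2
  refine ⟨f x, im f B, rfl, rfl, (mem_im hf.int).2 ?_⟩
  rwa [hf.inv]

theorem Adm.tr {R : IPow M β × ν → Prop} {f : β → β} (hf : Adm M R f) {n : INat M}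
    {p q : Xg M β ν} (h : Tr R (n, (p, q))) : Tr R (n, (gf f p, gf f q)) := by
  obtain ⟨B, v, h1, h2, h3⟩ := h
  change p = _ at h1
  change q = _ at h2
  subst h1
  subst h2
  exact ⟨im f B, v, rfl, rfl, hf.pres B v h3⟩

theorem Adm.ta {f : β → β} {n : INat M}
    {p q : Xg M β ν} (h : Ta (n, (p, q))) : Ta (n, (gf f p, gf f q)) := by
  obtain ⟨x, h1⟩ := h
  change p = _ at h1
  subst h1
  exact ⟨f x, rfl⟩

theorem Adm.td {f : β → β} {n : INat M}
    {p q : Xg M β ν} (h : Td (n, (p, q))) : Td (n, (gf f p, gf f q)) := by
  obtain ⟨x, h1⟩ := h
  change p = _ at h1
  subst h1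
  exact ⟨im f x, rfl⟩

theorem Adm.mem {R : IPow M β × ν → Prop} (hR : Int M R) {f : β → β} (hf : Adm M R f) :
    ∃ g ∈ (Zg R hR).H, ∀ p, g.1.1 p = gf f p := by
  refine ⟨IPerm.ofInv (gf f) (int_gf hf.int) (gf_gf hf.int hf.inv), ⟨?_, ?_, ?_, ?_, ?_⟩, fun p => rfl⟩
  · intro n p q
    refine ⟨hf.tm, fun h => ?_⟩
    have h1 := hf.tm h
    change Tm (n, (gf f (gf f p), gf f (gf f q))) at h1
    rwa [gf_gf hf.int hf.inv, gf_gf hf.int hf.inv] at h1
  · intro n p q
    refine ⟨hf.tr, fun h => ?_⟩
    have h1 := hf.tr h
    change Tr R (n, (gf f (gf f p), gf f (gf f q))) at h1
    rwa [gf_gf hf.int hf.inv, gf_gf hf.int hf.inv] at h1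
  · intro n p q
    refine ⟨Adm.ta, fun h => ?_⟩
    have h1 := Adm.ta (f := f) h
    change Ta (n, (gf f (gf f p), gf f (gf f q))) at h1
    rwa [gf_gf hf.int hf.inv, gf_gf hf.int hf.inv] at h1
  · intro n p q
    refine ⟨Adm.td, fun h => ?_⟩
    have h1 := Adm.td (f := f) h
    change Td (n, (gf f (gf f p), gf f (gf f q))) at h1
    rwa [gf_gf hf.int hf.inv, gf_gf hf.int hf.inv] at h1
  · intro v
    rfl

/-- The sets that have to be fixed. -/
noncomputable def phi : Xg M β ν → IPow M β
  | Sum.inl x => {x}
  | Sum.inr (Sum.inl B) => B
  | Sum.inr (Sum.inr _) => ∅

theorem int_phi : IntF M (phi (M := M) (β := β) (ν := ν)) := by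
  refine IntF.of_rel (r := fun (p : Xg M β ν) (B : IPow M β) => (∃ x, p = xa x ∧ B = {x}) ∨
    (p = xd B) ∨ (∃ v, p = xv v ∧ B = ∅)) (by (repeat' (first | with_reducible exact IntF.id | with_reducible exact IntF.fst' | with_reducible exact IntF.snd' | with_reducible exact IntF.const _ | with_reducible exact Int.const _ | assumption | with_reducible apply Int.and | with_reducible apply Int.or | with_reducible apply Int.not | with_reducible apply Int.imp | with_reducible apply Int.iff | with_reducible apply Int.ne | with_reducible apply Int.eq | with_reducible apply Int.mem | with_reducible apply Int.subset | with_reducible apply Int.ltN | with_reducible apply Int.leN | with_reducible_and_instances apply Int.le | with_reducible_and_instances apply Int.lt | with_reducible apply Int.all | with_reducible apply Int.ex | with_reducible apply IntF.fst | with_reducible apply IntF.snd | with_reducible apply IntF.app | with_reducible apply IntF.inl | with_reducible apply IntF.inr | with_reducible_and_instances apply IntF.mul | with_reducible_and_instances apply IntF.inv | with_reducible_and_instances apply IntF.add | with_reducible_and_instances apply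 IntF.sub | with_reducible_and_instances apply IntF.neg | with_reducible_and_instances apply IntF.smul | with_reducible apply Int.fin | with_reducible apply IntF.sep | with_reducible apply IntF.lam | with_reducible apply IntF.insert | with_reducible apply IntF.singleton | with_reducible apply IntF.union | with_reducible apply IntF.iimage | with_reducible apply IntF.ite | with_reducible apply IntF.the | with_reducible apply IntF.irec | with_reducible apply IntF.succ | with_reducible apply IntF.val | with_reducible apply IntF.mk | (with_reducible refine Int.comp ?_ ?_; assumption) | (with_reducible refine Int.comp₂ ?_ ?_ ?_; assumption) | (with_reducible refine Int.comp₃ ?_ ?_ ?_ ?_; assumption) | (with_reducible refine Int.comp₄ ?_ ?_ ?_ ?_ ?_; assumption) | (with_reducible refine IntF.comp ?_ ?_; assumption) | (with_reducible refine IntF.comp₂ ?_ ?_ ?_; assumption) | (with_reducible refine IntF.comp₃ ?_ ?_ ?_ ?_; assumption) | with_reducible apply IntF.pair))) fun p q => ?_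
  constructor
  · rintro (⟨x, rfl, rfl⟩ | rfl | ⟨v, rfl, rfl⟩) <;> rfl
  · rintro rfl
    rcases p with x | B | v
    · exact Or.inl ⟨x, rfl, rfl⟩
    · exact Or.inr (Or.inl rfl)
    · exact Or.inr (Or.inr ⟨v, rfl, rfl⟩)

theorem exists_fix (E : FS M (Xg M β ν)) : ∃ s : IPow M (IPow M β), IFin s ∧
    ∀ f : β → β, IntF M f → (∀ B, B ∈ s → ∀ y, f y ∈ B ↔ y ∈ B) →
      ∀ p, p ∈ E.1 → gf f p = p := by
  refine ⟨iimage phi E.1, E.2.image int_phi, fun f hf hs p hp => ?_⟩
  have h1 := hs (phi p) ((mem_iimage int_phi).2 ⟨p, hp, rfl⟩)
  rcases p with x | B | v
  · have h2 := h1 x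
    change f x ∈ ({x} : IPow M β) ↔ x ∈ ({x} : IPow M β) at h2
    rw [mem_singleton, mem_singleton] at h2
    exact congrArg Sum.inl (h2.2 rfl)
  · refine congrArg (fun B => Sum.inr (Sum.inl B)) (IPow.ext' fun y => ?_)
    rw [mem_im hf]
    exact h1 y
  · rfl

section

variable {R : IPow M β × ν → Prop} {hR : Int M R} {G : Set (Co M (Xg M β ν))} (hG : IsGen M G)
  (hC : CollL M)

theorem exists_homG {W : El (AA (Zg R hR) hG) × INat (NN (SS (Zg R hR)) hG) → Prop}
    (hW : Int (NN (SS (Zg R hR)) hG) W) :
    ∃ s : IPow M (IPow M β), IFin s ∧ ∀ f : β → β, Adm M R f →
      (∀ B, B ∈ s → ∀ y, f y ∈ B ↔ y ∈ B) → ∀ p n,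
        W (cA (Zg R hR) hG p, nnN (Zg R hR) hG hC n) →
          W (cA (Zg R hR) hG (gf f p), nnN (Zg R hR) hG hC n) := by
  obtain ⟨E, hE⟩ := exists_hom (Z := Zg R hR) hG hC hW
  obtain ⟨s, hs, h1⟩ := exists_fix E
  refine ⟨s, hs, fun f hf hfs p n h => ?_⟩
  obtain ⟨g, hg, hgf⟩ := hf.mem hR
  have h2 := hE g hg (fun x hx => by rw [hgf, h1 f hf.int hfs x hx]) p n h
  rwa [hgf] at h2

end

end Pool.Agent.V11257G
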