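import Pool.Agent.V11257.Mf10

/-!
# Strongly filterbase infinite sets: the second structure, part 4
-/

set_option maxHeartbeats 1000000
set_option linter.all false
set_option synthInstance.maxSize 2000

namespace Pool.Agent.V11257G

open FirstOrder FirstOrder.Language
open Pool.Agent.Helper672.ZFA
open Pool.Agent.Helper672.ZFA.V246
open Pool.Agent.Helper672.Plain (LSet)
open Pool.Agent.H310
open Pool.Agent.V11246
open Pool.Agent.V11257P

universe u

variable {M : Type u} [L.Structure M] [hM : IsModel M] {N : Type u} [L.Structure N] [IsModel N]

theorem intc1 {α : Type u} [ITy N α] (s : IPow N (IPow N α)) (x : α) (B : IPow N α) :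
    Int N (fun y => Cl s x y ∧ y ∈ B) := by
  have := int_Cl s
  (repeat' (first | with_reducible exact IntF.id | with_reducible exact IntF.fst' | with_reducible exact IntF.snd' | with_reducible exact IntF.const _ | with_reducible exact Int.const _ | assumption | with_reducible apply Int.and | with_reducible apply Int.or | with_reducible apply Int.not | with_reducible apply Int.imp | with_reducible apply Int.iff | with_reducible apply Int.ne | with_reducible apply Int.eq | with_reducible apply Int.mem | with_reducible apply Int.subset | with_reducible apply Int.ltN | with_reducible apply Int.leN | with_reducible_and_instances apply Int.le | with_reducible_and_instances apply Int.lt | with_reducible apply Int.all | with_reducible apply Int.ex | with_reducible apply IntF.fst | with_reducible apply IntF.snd | with_reducible apply IntF.app | with_reducible apply IntF.inl | with_reducible apply IntF.inr | with_reducible_and_instances apply IntF.mul | with_reducible_and_instances apply IntF.inv | with_reducible_and_instances apply IntF.add | with_reducible_and_instances apply IntF.sub | with_reducible_and_instances apply IntF.neg | with_reducible_and_instances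 apply IntF.smul | with_reducible apply Int.fin | with_reducible apply IntF.sep | with_reducible apply IntF.lam | with_reducible apply IntF.insert | with_reducible apply IntF.singleton | with_reducible apply IntF.union | with_reducible apply IntF.iimage | with_reducible apply IntF.ite | with_reducible apply IntF.the | with_reducible apply IntF.irec | with_reducible apply IntF.succ | with_reducible apply IntF.val | with_reducible apply IntF.mk | (with_reducible refine Int.comp ?_ ?_; assumption) | (with_reducible refine Int.comp₂ ?_ ?_ ?_; assumption) | (with_reducible refine Int.comp₃ ?_ ?_ ?_ ?_; assumption) | (with_reducible refine Int.comp₄ ?_ ?_ ?_ ?_ ?_; assumption) | (with_reducible refine IntF.comp ?_ ?_; assumption) | (with_reducible refine IntF.comp₂ ?_ ?_ ?_; assumption) | (with_reducible refine IntF.comp₃ ?_ ?_ ?_ ?_; assumption) | with_reducible apply IntF.pair))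

theorem intc2 {α : Type u} [ITy N α] (s : IPow N (IPow N α)) (x : α) (B : IPow N α) :
    Int N (fun y => Cl s x y ∧ y ∉ B) := by
  have := int_Cl s
  (repeat' (first | with_reducible exact IntF.id | with_reducible exact IntF.fst' | with_reducible exact IntF.snd' | with_reducible exact IntF.const _ | with_reducible exact Int.const _ | assumption | with_reducible apply Int.and | with_reducible apply Int.or | with_reducible apply Int.not | with_reducible apply Int.imp | with_reducible apply Int.iff | with_reducible apply Int.ne | with_reducible apply Int.eq | with_reducible apply Int.mem | with_reducible apply Int.subset | with_reducible apply Int.ltN | with_reducible apply Int.leN | with_reducible_and_instances apply Int.le | with_reducible_and_instances apply Int.lt | with_reducible apply Int.all | with_reducible apply Int.ex | with_reducible apply IntF.fst | with_reducible apply IntF.snd | with_reducible apply IntF.app | with_reducible apply IntF.inl | with_reducible apply IntF.inr | with_reducible_and_instances apply IntF.mul | with_reducible_and_instances apply IntF.inv | with_reducible_and_instances apply IntF.add | with_reducible_and_instances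 apply IntF.sub | with_reducible_and_instances apply IntF.neg | with_reducible_and_instances apply IntF.smul | with_reducible apply Int.fin | with_reducible apply IntF.sep | with_reducible apply IntF.lam | with_reducible apply IntF.insert | with_reducible apply IntF.singleton | with_reducible apply IntF.union | with_reducible apply IntF.iimage | with_reducible apply IntF.ite | with_reducible apply IntF.the | with_reducible apply IntF.irec | with_reducible apply IntF.succ | with_reducible apply IntF.val | with_reducible apply IntF.mk | (with_reducible refine Int.comp ?_ ?_; assumption) | (with_reducible refine Int.comp₂ ?_ ?_ ?_; assumption) | (with_reducible refine Int.comp₃ ?_ ?_ ?_ ?_; assumption) | (with_reducible refine Int.comp₄ ?_ ?_ ?_ ?_ ?_; assumption) | (with_reducible refine IntF.comp ?_ ?_; assumption) | (with_reducible refine IntF.comp₂ ?_ ?_ ?_; assumption) | (with_reducible refine IntF.comp₃ ?_ ?_ ?_ ?_; assumption) | with_reducible apply IntF.pair))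

theorem intc3 {α : Type u} [ITy N α] (s : IPow N (IPow N α)) (x : α) (B E : IPow N α) :
    Int N (fun y => Cl s x y ∧ y ∈ B ∧ y ∈ E) := by
  have := int_Cl s
  (repeat' (first | with_reducible exact IntF.id | with_reducible exact IntF.fst' | with_reducible exact IntF.snd' | with_reducible exact IntF.const _ | with_reducible exact Int.const _ | assumption | with_reducible apply Int.and | with_reducible apply Int.or | with_reducible apply Int.not | with_reducible apply Int.imp | with_reducible apply Int.iff | with_reducible apply Int.ne | with_reducible apply Int.eq | with_reducible apply Int.mem | with_reducible apply Int.subset | with_reducible apply Int.ltN | with_reducible apply Int.leN | with_reducible_and_instances apply Int.le | with_reducible_and_instances apply Int.lt | with_reducible apply Int.all | with_reducible apply Int.ex | with_reducible apply IntF.fst | with_reducible apply IntF.snd | with_reducible apply IntF.app | with_reducible apply IntF.inl | with_reducible apply IntF.inr | with_reducible_and_instances apply IntF.mul | with_reducible_and_instances apply IntF.inv | with_reducible_and_instances apply IntF.add |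 with_reducible_and_instances apply IntF.sub | with_reducible_and_instances apply IntF.neg | with_reducible_and_instances apply IntF.smul | with_reducible apply Int.fin | with_reducible apply IntF.sep | with_reducible apply IntF.lam | with_reducible apply IntF.insert | with_reducible apply IntF.singleton | with_reducible apply IntF.union | with_reducible apply IntF.iimage | with_reducible apply IntF.ite | with_reducible apply IntF.the | with_reducible apply IntF.irec | with_reducible apply IntF.succ | with_reducible apply IntF.val | with_reducible apply IntF.mk | (with_reducible refine Int.comp ?_ ?_; assumption) | (with_reducible refine Int.comp₂ ?_ ?_ ?_; assumption) | (with_reducible refine Int.comp₃ ?_ ?_ ?_ ?_; assumption) | (with_reducible refine Int.comp₄ ?_ ?_ ?_ ?_ ?_; assumption) | (with_reducible refine IntF.comp ?_ ?_; assumption) | (with_reducible refine IntF.comp₂ ?_ ?_ ?_; assumption) | (with_reducible refine IntF.comp₃ ?_ ?_ ?_ ?_; assumption) | with_reducible apply IntF.pair))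

theorem intc4 {α : Type u} [ITy N α] (s : IPow N (IPow N α)) (x : α) (B E : IPow N α) :
    Int N (fun y => Cl s x y ∧ y ∉ B ∧ y ∈ E) := by
  have := int_Cl s
  (repeat' (first | with_reducible exact IntF.id | with_reducible exact IntF.fst' | with_reducible exact IntF.snd' | with_reducible exact IntF.const _ | with_reducible exact Int.const _ | assumption | with_reducible apply Int.and | with_reducible apply Int.or | with_reducible apply Int.not | with_reducible apply Int.imp | with_reducible apply Int.iff | with_reducible apply Int.ne | with_reducible apply Int.eq | with_reducible apply Int.mem | with_reducible apply Int.subset | with_reducible apply Int.ltN | with_reducible apply Int.leN | with_reducible_and_instances apply Int.le | with_reducible_and_instances apply Int.lt | with_reducible apply Int.all | with_reducible apply Int.ex | with_reducible apply IntF.fst | with_reducible apply IntF.snd | with_reducible apply IntF.app | with_reducible apply IntF.inl | with_reducible apply IntF.inr | with_reducible_and_instances apply IntF.mul | with_reducible_and_instances apply IntF.inv | with_reducible_and_instances apply IntF.add |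 with_reducible_and_instances apply IntF.sub | with_reducible_and_instances apply IntF.neg | with_reducible_and_instances apply IntF.smul | with_reducible apply Int.fin | with_reducible apply IntF.sep | with_reducible apply IntF.lam | with_reducible apply IntF.insert | with_reducible apply IntF.singleton | with_reducible apply IntF.union | with_reducible apply IntF.iimage | with_reducible apply IntF.ite | with_reducible apply IntF.the | with_reducible apply IntF.irec | with_reducible apply IntF.succ | with_reducible apply IntF.val | with_reducible apply IntF.mk | (with_reducible refine Int.comp ?_ ?_; assumption) | (with_reducible refine Int.comp₂ ?_ ?_ ?_; assumption) | (with_reducible refine Int.comp₃ ?_ ?_ ?_ ?_; assumption) | (with_reducible refine Int.comp₄ ?_ ?_ ?_ ?_ ?_; assumption) | (with_reducible refine IntF.comp ?_ ?_; assumption) | (with_reducible refine IntF.comp₂ ?_ ?_ ?_; assumption) | (with_reducible refine IntF.comp₃ ?_ ?_ ?_ ?_; assumption) | with_reducible apply IntF.pair))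

theorem intc5 (s : IPow M (IPow M (B17 M))) (x : B17 M) (B : IPow M (B17 M)) (i : INat M) :
    Int M (fun y : B17 M => (Cl s x y ∧ y ∈ B) ∧ y.1 = i) := by
  have := int_Cl s
  (repeat' (first | with_reducible exact IntF.id | with_reducible exact IntF.fst' | with_reducible exact IntF.snd' | with_reducible exact IntF.const _ | with_reducible exact Int.const _ | assumption | with_reducible apply Int.and | with_reducible apply Int.or | with_reducible apply Int.not | with_reducible apply Int.imp | with_reducible apply Int.iff | with_reducible apply Int.ne | with_reducible apply Int.eq | with_reducible apply Int.mem | with_reducible apply Int.subset | with_reducible apply Int.ltN | with_reducible apply Int.leN | with_reducible_and_instances apply Int.le | with_reducible_and_instances apply Int.lt | with_reducible apply Int.all | with_reducible apply Int.ex | with_reducible apply IntF.fst | with_reducible apply IntF.snd | with_reducible apply IntF.app | with_reducible apply IntF.inl | with_reducible apply IntF.inr | with_reducible_and_instances apply IntF.mul | with_reducible_and_instances apply IntF.inv | with_reducible_and_instances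 apply IntF.add | with_reducible_and_instances apply IntF.sub | with_reducible_and_instances apply IntF.neg | with_reducible_and_instances apply IntF.smul | with_reducible apply Int.fin | with_reducible apply IntF.sep | with_reducible apply IntF.lam | with_reducible apply IntF.insert | with_reducible apply IntF.singleton | with_reducible apply IntF.union | with_reducible apply IntF.iimage | with_reducible apply IntF.ite | with_reducible apply IntF.the | with_reducible apply IntF.irec | with_reducible apply IntF.succ | with_reducible apply IntF.val | with_reducible apply IntF.mk | (with_reducible refine Int.comp ?_ ?_; assumption) | (with_reducible refine Int.comp₂ ?_ ?_ ?_; assumption) | (with_reducible refine Int.comp₃ ?_ ?_ ?_ ?_; assumption) | (with_reducible refine Int.comp₄ ?_ ?_ ?_ ?_ ?_; assumption) | (with_reducible refine IntF.comp ?_ ?_; assumption) | (with_reducible refine IntF.comp₂ ?_ ?_ ?_; assumption) | (with_reducible refine IntF.comp₃ ?_ ?_ ?_ ?_; assumption) | with_reducible apply IntF.pair))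

theorem intc6 (s : IPow M (IPow M (B17 M))) (x : B17 M) (B : IPow M (B17 M)) (i : INat M) :
    Int M (fun y : B17 M => (Cl s x y ∧ y ∉ B) ∧ y.1 = i) := by
  have := int_Cl s
  (repeat' (first | with_reducible exact IntF.id | with_reducible exact IntF.fst' | with_reducible exact IntF.snd' | with_reducible exact IntF.const _ | with_reducible exact Int.const _ | assumption | with_reducible apply Int.and | with_reducible apply Int.or | with_reducible apply Int.not | with_reducible apply Int.imp | with_reducible apply Int.iff | with_reducible apply Int.ne | with_reducible apply Int.eq | with_reducible apply Int.mem | with_reducible apply Int.subset | with_reducible apply Int.ltN | with_reducible apply Int.leN | with_reducible_and_instances apply Int.le | with_reducible_and_instances apply Int.lt | with_reducible apply Int.all | with_reducible apply Int.ex | with_reducible apply IntF.fst | with_reducible apply IntF.snd | with_reducible apply IntF.app | with_reducible apply IntF.inl | with_reducible apply IntF.inr | with_reducible_and_instances apply IntF.mul | with_reducible_and_instances apply IntF.inv | with_reducible_and_instances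 apply IntF.add | with_reducible_and_instances apply IntF.sub | with_reducible_and_instances apply IntF.neg | with_reducible_and_instances apply IntF.smul | with_reducible apply Int.fin | with_reducible apply IntF.sep | with_reducible apply IntF.lam | with_reducible apply IntF.insert | with_reducible apply IntF.singleton | with_reducible apply IntF.union | with_reducible apply IntF.iimage | with_reducible apply IntF.ite | with_reducible apply IntF.the | with_reducible apply IntF.irec | with_reducible apply IntF.succ | with_reducible apply IntF.val | with_reducible apply IntF.mk | (with_reducible refine Int.comp ?_ ?_; assumption) | (with_reducible refine Int.comp₂ ?_ ?_ ?_; assumption) | (with_reducible refine Int.comp₃ ?_ ?_ ?_ ?_; assumption) | (with_reducible refine Int.comp₄ ?_ ?_ ?_ ?_ ?_; assumption) | (with_reducible refine IntF.comp ?_ ?_; assumption) | (with_reducible refine IntF.comp₂ ?_ ?_ ?_; assumption) | (with_reducible refine IntF.comp₃ ?_ ?_ ?_ ?_; assumption) | with_reducible apply IntF.pair))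

theorem intc7 (s : IPow M (IPow M (B17 M))) (x : B17 M) (B : IPow M (B17 M)) (i : INat M) :
    Int M (fun y : B17 M => (Cl s x y ∧ y ∈ B) ∧ ¬ y.1 < i) := by
  have := int_Cl s
  (repeat' (first | with_reducible exact IntF.id | with_reducible exact IntF.fst' | with_reducible exact IntF.snd' | with_reducible exact IntF.const _ | with_reducible exact Int.const _ | assumption | with_reducible apply Int.and | with_reducible apply Int.or | with_reducible apply Int.not | with_reducible apply Int.imp | with_reducible apply Int.iff | with_reducible apply Int.ne | with_reducible apply Int.eq | with_reducible apply Int.mem | with_reducible apply Int.subset | with_reducible apply Int.ltN | with_reducible apply Int.leN | with_reducible_and_instances apply Int.le | with_reducible_and_instances apply Int.lt | with_reducible apply Int.all | with_reducible apply Int.ex | with_reducible apply IntF.fst | with_reducible apply IntF.snd | with_reducible apply IntF.app | with_reducible apply IntF.inl | with_reducible apply IntF.inr | with_reducible_and_instances apply IntF.mul | with_reducible_and_instances apply IntF.inv | with_reducible_and_instances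 apply IntF.add | with_reducible_and_instances apply IntF.sub | with_reducible_and_instances apply IntF.neg | with_reducible_and_instances apply IntF.smul | with_reducible apply Int.fin | with_reducible apply IntF.sep | with_reducible apply IntF.lam | with_reducible apply IntF.insert | with_reducible apply IntF.singleton | with_reducible apply IntF.union | with_reducible apply IntF.iimage | with_reducible apply IntF.ite | with_reducible apply IntF.the | with_reducible apply IntF.irec | with_reducible apply IntF.succ | with_reducible apply IntF.val | with_reducible apply IntF.mk | (with_reducible refine Int.comp ?_ ?_; assumption) | (with_reducible refine Int.comp₂ ?_ ?_ ?_; assumption) | (with_reducible refine Int.comp₃ ?_ ?_ ?_ ?_; assumption) | (with_reducible refine Int.comp₄ ?_ ?_ ?_ ?_ ?_; assumption) | (with_reducible refine IntF.comp ?_ ?_; assumption) | (with_reducible refine IntF.comp₂ ?_ ?_ ?_; assumption) | (with_reducible refine IntF.comp₃ ?_ ?_ ?_ ?_; assumption) | with_reducible apply IntF.pair))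

theorem intc8 (s : IPow M (IPow M (B17 M))) (x : B17 M) (B : IPow M (B17 M)) (i : INat M) :
    Int M (fun y : B17 M => (Cl s x y ∧ y ∉ B) ∧ ¬ y.1 < i) := by
  have := int_Cl s
  (repeat' (first | with_reducible exact IntF.id | with_reducible exact IntF.fst' | with_reducible exact IntF.snd' | with_reducible exact IntF.const _ | with_reducible exact Int.const _ | assumption | with_reducible apply Int.and | with_reducible apply Int.or | with_reducible apply Int.not | with_reducible apply Int.imp | with_reducible apply Int.iff | with_reducible apply Int.ne | with_reducible apply Int.eq | with_reducible apply Int.mem | with_reducible apply Int.subset | with_reducible apply Int.ltN | with_reducible apply Int.leN | with_reducible_and_instances apply Int.le | with_reducible_and_instances apply Int.lt | with_reducible apply Int.all | with_reducible apply Int.ex | with_reducible apply IntF.fst | with_reducible apply IntF.snd | with_reducible apply IntF.app | with_reducible apply IntF.inl | with_reducible apply IntF.inr | with_reducible_and_instances apply IntF.mul | with_reducible_and_instances apply IntF.inv | with_reducible_and_instances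 apply IntF.add | with_reducible_and_instances apply IntF.sub | with_reducible_and_instances apply IntF.neg | with_reducible_and_instances apply IntF.smul | with_reducible apply Int.fin | with_reducible apply IntF.sep | with_reducible apply IntF.lam | with_reducible apply IntF.insert | with_reducible apply IntF.singleton | with_reducible apply IntF.union | with_reducible apply IntF.iimage | with_reducible apply IntF.ite | with_reducible apply IntF.the | with_reducible apply IntF.irec | with_reducible apply IntF.succ | with_reducible apply IntF.val | with_reducible apply IntF.mk | (with_reducible refine Int.comp ?_ ?_; assumption) | (with_reducible refine Int.comp₂ ?_ ?_ ?_; assumption) | (with_reducible refine Int.comp₃ ?_ ?_ ?_ ?_; assumption) | (with_reducible refine Int.comp₄ ?_ ?_ ?_ ?_ ?_; assumption) | (with_reducible refine IntF.comp ?_ ?_; assumption) | (with_reducible refine IntF.comp₂ ?_ ?_ ?_; assumption) | (with_reducible refine IntF.comp₃ ?_ ?_ ?_ ?_; assumption) | with_reducible apply IntF.pair))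

variable {r : Rep M N (B17 M) (INat M ⊕ INat M) R17} {R : IPow N r.α × INat N → Prop}
  {Fc : IPow N r.α → Prop} (h : FB2M r R Fc)

/-- The exchange of two sequences. -/
theorem swap17 {W : IPow N r.α × INat N → Prop} {s : IPow M (IPow M (B17 M))} {B : IPow M (B17 M)}
    {n : INat M} {x : B17 M}
    (h1 : ∀ f : B17 M → B17 M, Adm M R17 f → (∀ B, B ∈ s → ∀ y, f y ∈ B ↔ y ∈ B) →
      ∀ B n, W (r.st B, r.nn n) → W (r.st (im f B), r.nn n))
    (hU : W (r.st B, r.nn n)) (hd : ∀ U', W (U', r.nn n) → IFin (r.st B \ U'))
    {u v : INat M → B17 M} (hu : IntF M u) (hv : IntF M v) (hu2 : ∀ m n, u m = u n → m = n)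
    (hv2 : ∀ m n, v m = v n → m = n) (hu1 : ∀ n, Cl s x (u n) ∧ u n ∈ B)
    (hv1 : ∀ n, Cl s x (v n) ∧ v n ∉ B) (hf : Adm M R17 (xs u v)) : False := by
  have huv : ∀ m n, u m ≠ v n := fun m n h => (hv1 n).2 (h ▸ (hu1 m).2)
  have h3 := hd _ (h1 _ hf (fun C hC z => xs_cell hu2 hv2 huv (C := fun y => Cl s x y)
    (fun n => (hu1 n).1) (fun n => (hv1 n).1)
    (fun y z hy hz => (hy C hC).symm.trans (hz C hC)) z) B n hU)
  rw [diff17] at h3
  refine not_fin_range hu hu2 h3 fun n => (mem_sep (int17d _ _)).2 ⟨(hu1 n).2, ?_⟩
  rw [mem_im hf.int, xs_u hu2]
  exact (hv1 n).2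

include h

theorem FB2M.hom1 {W : IPow N r.α × INat N → Prop} {s : IPow M (IPow M (B17 M))}
    {s' : IPow N (IPow N r.α)} (hc : ∀ x y, Cl s' (r.ca x) (r.ca y) ↔ Cl s x y)
    {B : IPow M (B17 M)} {n : INat M} {x : B17 M}
    (h1 : ∀ f : B17 M → B17 M, Adm M R17 f → (∀ B, B ∈ s → ∀ y, f y ∈ B ↔ y ∈ B) →
      ∀ B n, W (r.st B, r.nn n) → W (r.st (im f B), r.nn n))
    (hU : W (r.st B, r.nn n)) (hd : ∀ U', W (U', r.nn n) → IFin (r.st B \ U'))
    {i : INat N} {e : IPow N r.α} (hei : R (e, i))
    (h3 : ¬ IFin (sep N fun y => Cl s' (r.ca x) y ∧ y ∈ r.st B ∧ y ∈ e)) :
    IFin (sep N fun y => Cl s' (r.ca x) y ∧ y ∉ r.st B ∧ y ∈ e) := by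
  obtain ⟨E, rfl⟩ := r.exists_st adm17_swf e
  obtain ⟨i, rfl⟩ := r.nn_surj i
  rw [h.hR] at hei
  by_contra h4
  have hI3 := intc3 s x B E
  have hI4 := intc4 s x B E
  have hI3' := intc3 s' (r.ca x) (r.st B) (r.st E)
  have hI4' := intc4 s' (r.ca x) (r.st B) (r.st E)
  have e3 : ∀ y, r.ca y ∈ (sep N fun y => Cl s' (r.ca x) y ∧ y ∈ r.st B ∧ y ∈ r.st E) ↔
      y ∈ sep M fun y => Cl s x y ∧ y ∈ B ∧ y ∈ E := by
    intro y
    rw [mem_sep hI3', mem_sep hI3, r.mem_st, r.mem_st, hc]
  have e4 : ∀ y, r.ca y ∈ (sep N fun y => Cl s' (r.ca x) y ∧ y ∉ r.st B ∧ y ∈ r.st E) ↔
      y ∈ sep M fun y => Cl s x y ∧ y ∉ B ∧ y ∈ E := by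
    intro y
    rw [mem_sep hI4', mem_sep hI4, r.mem_st, r.mem_st, hc]
  rw [r.finU adm17_swf e3] at h3
  rw [r.finU adm17_swf e4] at h4
  have h5 : ¬ IFin (sep M fun y : B17 M => (Cl s x y ∧ y ∈ B) ∧ y.1 = i) := fun h5 =>
    h3 ((h5.union hei).subset fun y hy => by
      rw [mem_sep hI3] at hy
      rw [mem_union, mem_sep (intc5 _ _ _ _), mem_sep (int17 _ _)]
      tauto)
  have h6 : ¬ IFin (sep M fun y : B17 M => (Cl s x y ∧ y ∉ B) ∧ y.1 = i) := fun h6 =>
    h4 ((h6.union hei).subset fun y hy => by
      rw [mem_sep hI4] at hy
      rw [mem_union, mem_sep (intc6 _ _ _ _), mem_sep (int17 _ _)]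
      tauto)
  have he : IntF M (fun x : B17 M => pr x.1 x.2) := int_pr
  have hei : ∀ a b : B17 M, pr a.1 a.2 = pr b.1 b.2 → a = b := fun a b hab =>
    Prod.ext (pr_inj hab).1 (pr_inj hab).2
  obtain ⟨u, hu, hu1, hu2⟩ := exists_enum (intc5 s x B i) he (fun a b _ _ => hei a b) h5
  obtain ⟨v, hv, hv1, hv2⟩ := exists_enum (intc6 s x B i) he (fun a b _ _ => hei a b) h6
  have huv : ∀ m n, u m ≠ v n := fun m n h => (hv1 n).1.2 (h ▸ (hu1 m).1.2)
  exact swap17 h1 hU hd hu hv hu2 hv2 (fun n => (hu1 n).1) (fun n => (hv1 n).1)
    (adm17_col hu hv hu2 hv2 huv (fun n => (hu1 n).2) fun n => (hv1 n).2)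

theorem FB2M.hom2 {W : IPow N r.α × INat N → Prop} {s : IPow M (IPow M (B17 M))}
    {s' : IPow N (IPow N r.α)} (hc : ∀ x y, Cl s' (r.ca x) (r.ca y) ↔ Cl s x y)
    {B : IPow M (B17 M)} {n : INat M} {x : B17 M}
    (h1 : ∀ f : B17 M → B17 M, Adm M R17 f → (∀ B, B ∈ s → ∀ y, f y ∈ B ↔ y ∈ B) →
      ∀ B n, W (r.st B, r.nn n) → W (r.st (im f B), r.nn n))
    (hU : W (r.st B, r.nn n)) (hd : ∀ U', W (U', r.nn n) → IFin (r.st B \ U')) :
    Fc (sep N fun y => Cl s' (r.ca x) y ∧ y ∈ r.st B) ∨
      Fc (sep N fun y => Cl s' (r.ca x) y ∧ y ∉ r.st B) := by
  by_contra hcon
  rw [not_or] at hcon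
  obtain ⟨h3, h4⟩ := hcon
  have hI1 := intc1 s x B
  have hI2 := intc2 s x B
  have hI1' := intc1 s' (r.ca x) (r.st B)
  have hI2' := intc2 s' (r.ca x) (r.st B)
  have e3 : (sep N fun y => Cl s' (r.ca x) y ∧ y ∈ r.st B) =
      r.st (sep M fun y => Cl s x y ∧ y ∈ B) := by
    refine r.eq_st fun y => ?_
    rw [mem_sep hI1', mem_sep hI1, hc, r.mem_st]
  have e4 : (sep N fun y => Cl s' (r.ca x) y ∧ y ∉ r.st B) =
      r.st (sep M fun y => Cl s x y ∧ y ∉ B) := by
    refine r.eq_st fun y => ?_
    rw [mem_sep hI2', mem_sep hI2, hc, r.mem_st]
  rw [e3, h.hF] at h3
  rw [e4, h.hF] at h4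
  have h5 : ∀ n, ¬ IFin (sep M fun y : B17 M => (Cl s x y ∧ y ∈ B) ∧ ¬ y.1 < n) := fun n h5 =>
    h3 ⟨n, h5.subset fun y hy => by
      rw [mem_sep (int17' _ _), mem_sep hI1] at hy
      exact (mem_sep (intc7 _ _ _ _)).2 hy⟩
  have h6 : ∀ n, ¬ IFin (sep M fun y : B17 M => (Cl s x y ∧ y ∉ B) ∧ ¬ y.1 < n) := fun n h5 =>
    h4 ⟨n, h5.subset fun y hy => by
      rw [mem_sep (int17' _ _), mem_sep hI2] at hy
      exact (mem_sep (intc8 _ _ _ _)).2 hy⟩
  obtain ⟨u, hu, hu1, hu2⟩ := exists_sparse hI1 h5
  obtain ⟨v, hv, hv1, hv2⟩ := exists_sparse hI2 h6
  have huv : ∀ m n, u m ≠ v n := fun m n h => (hv1 n).2 (h ▸ (hu1 m).2)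
  exact swap17 h1 hU hd hu hv (fun m n h => hu2 m n (by rw [h])) (fun m n h => hv2 m n (by rw [h]))
    hu1 hv1 (adm17_sparse hu hv hu2 hv2 huv)

theorem FB2M.fb2 : FB2 N r.α R Fc where
  intR := h.intR
  intF := h.intF
  c1 := h.c1
  c2 := h.c2
  c3 := h.c3
  c4 := h.c4
  c5 := h.c5
  f1 := h.f1
  f2 := h.f2
  f3 := h.f3
  f4 := h.f4
  hom W hW := by
    obtain ⟨s, s', hs, hs', hc, h1⟩ := r.homU adm17_swf hW
    refine ⟨s', hs', fun U n x hU hd => ?_⟩
    obtain ⟨B, rfl⟩ := r.exists_st adm17_swf U
    obtain ⟨n, rfl⟩ := r.nn_surj n
    obtain ⟨x, rfl⟩ := r.ca_surj x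
    exact ⟨fun i e hei h3 => h.hom1 hc h1 hU hd hei h3, h.hom2 hc h1 hU hd⟩

omit h in
theorem fb2 (r : Rep M N (B17 M) (INat M ⊕ INat M) R17) : ∃ R Fc, FB2 N r.α R Fc := by
  obtain ⟨R, Fc, h⟩ := exists_fb2m r
  exact ⟨R, Fc, h.fb2⟩

end Pool.Agent.V11257G
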