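import Pool.Agent.V11257.Mf11

/-!
# Dyadic systems of families of sets
-/

set_option maxHeartbeats 1000000
set_option linter.all false
set_option synthInstance.maxSize 2000

namespace Pool.Agent.V11257G

open FirstOrder FirstOrder.Language
open Pool.Agent.Helper672.ZFA
open Pool.Agent.Helper672.ZFA.V246
open Pool.Agent.Helper672.Plain (LSet)
open Pool.Agent.H310
open Pool.Agent.V11246
open Pool.Agent.V11257P

universe u

variable {N : Type u} [L.Structure N] [IsModel N] {α : Type u} [ITy N α]

/-- `t` is a subset of `n`. -/
def Sb (n : INat N) (t : IPow N (INat N)) : Prop := ∀ k, k ∈ t → k < n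

/-- Dyadic systems. -/
structure Dy (D : (INat N × IPow N (INat N)) × IPow N α → Prop) : Prop where
  int : Int N D
  ne : ∀ n t, 0 < n → Sb n t → ∃ U, D ((n, t), U)
  inf : ∀ n t U, 0 < n → Sb n t → D ((n, t), U) → ¬ IFin U
  diff : ∀ n t U U', 0 < n → Sb n t → D ((n, t), U) → D ((n, t), U') → IFin (U \ U')
  split : ∀ n s t W G, 0 < n → Sb n s → Sb n t → s ≠ t → D ((n, s), W) → D ((n, t), G) →
    ∃ U U', D ((n.succ, s), U) ∧ D ((n.succ, insert n s), U') ∧
      IFin ((U ∪ U') \ W) ∧ IFin ((U ∪ U') ∩ G)

theorem fin_tri {U V W : IPow N α} (h1 : IFin (U \ V)) (h2 : IFin (V \ W)) : IFin (U \ W) := by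
  refine (h1.union h2).subset fun x hx => ?_
  rw [mem_sdiff] at hx
  rw [mem_union, mem_sdiff, mem_sdiff]
  tauto

theorem fin_dis {U V G : IPow N α} (h1 : IFin (U ∩ G)) (h2 : IFin (V \ G)) : IFin (U ∩ V) := by
  refine (h1.union h2).subset fun x hx => ?_
  rw [mem_inter] at hx
  rw [mem_union, mem_inter, mem_sdiff]
  tauto

theorem fin_sym {U V : IPow N α} (h1 : IFin (U ∩ V)) : IFin (V ∩ U) := by
  refine h1.subset fun x hx => ?_
  rw [mem_inter] at hx ⊢
  tauto

theorem exists_other (n : INat N) (s : IPow N (INat N)) (hn : 0 < n) : ∃ t, Sb n t ∧ s ≠ t := by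
  by_cases h : ∃ k, k ∈ s
  · refine ⟨∅, fun k hk => absurd hk (by simp), fun e => ?_⟩
    obtain ⟨k, hk⟩ := h
    rw [e] at hk
    exact absurd hk (by simp)
  · refine ⟨{0}, fun k hk => ?_, fun e => ?_⟩
    · rw [mem_singleton.1 hk]
      exact hn
    · refine h ⟨0, ?_⟩
      rw [e]
      exact mem_singleton.2 rfl

variable {D : (INat N × IPow N (INat N)) × IPow N α → Prop} (h : Dy D)

theorem Sb.succ {n : INat N} {s : IPow N (INat N)} (hs : Sb n s) : Sb n.succ s :=
  fun k hk => (hs k hk).trans (INat.lt_succ_self n)

theorem Sb.ins {n : INat N} {s : IPow N (INat N)} (hs : Sb n s) : Sb n.succ (insert n s) := by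
  intro k hk
  rcases mem_insert.1 hk with rfl | hk
  · exact INat.lt_succ_self k
  · exact (hs k hk).trans (INat.lt_succ_self n)

theorem pos_succ (n : INat N) : 0 < n.succ := by
  rcases INat.eq_zero_or_succ n with h | ⟨m, h⟩
  · rw [h]
    exact INat.lt_succ_self 0
  · exact lt_of_le_of_lt (INat.zero_le n) (INat.lt_succ_self n)

include h

theorem Dy.child0 {n : INat N} {s : IPow N (INat N)} {W U : IPow N α} (hn : 0 < n) (hs : Sb n s)
    (hW : D ((n, s), W)) (hU : D ((n.succ, s), U)) : IFin (U \ W) := by
  obtain ⟨t, ht, hst⟩ := exists_other n s hn
  obtain ⟨G, hG⟩ := h.ne n t hn ht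
  obtain ⟨V, V', h1, h2, h3, h4⟩ := h.split n s t W G hn hs ht hst hW hG
  refine fin_tri (h.diff _ _ _ _ (pos_succ n) hs.succ hU h1) (h3.subset fun x hx => ?_)
  rw [mem_sdiff] at hx ⊢
  exact ⟨mem_union.2 (Or.inl hx.1), hx.2⟩

theorem Dy.child1 {n : INat N} {s : IPow N (INat N)} {W U : IPow N α} (hn : 0 < n) (hs : Sb n s)
    (hW : D ((n, s), W)) (hU : D ((n.succ, insert n s), U)) : IFin (U \ W) := by
  obtain ⟨t, ht, hst⟩ := exists_other n s hn
  obtain ⟨G, hG⟩ := h.ne n t hn ht
  obtain ⟨V, V', h1, h2, h3, h4⟩ := h.split n s t W G hn hs ht hst hW hG
  refine fin_tri (h.diff _ _ _ _ (pos_succ n) hs.ins hU h2) (h3.subset fun x hx => ?_)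
  rw [mem_sdiff] at hx ⊢
  exact ⟨mem_union.2 (Or.inr hx.1), hx.2⟩

theorem Dy.cousin {n : INat N} {s t : IPow N (INat N)} {G U : IPow N α} (hn : 0 < n) (hs : Sb n s)
    (ht : Sb n t) (hst : s ≠ t) (hG : D ((n, t), G)) (hU : D ((n.succ, s), U)) : IFin (U ∩ G) := by
  obtain ⟨W, hW⟩ := h.ne n s hn hs
  obtain ⟨V, V', h1, h2, h3, h4⟩ := h.split n s t W G hn hs ht hst hW hG
  have h5 := h.diff _ _ _ _ (pos_succ n) hs.succ hU h1
  refine (h5.union h4).subset fun x hx => ?_
  rw [mem_inter] at hx
  rw [mem_union, mem_sdiff, mem_inter, mem_union]
  tauto

omit h in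
/-- The nodes of a path. -/
noncomputable def pk (l : INat N) (t : IPow N (INat N)) (m : INat N) : IPow N (INat N) :=
  sep N fun j => j ∈ t ∨ (l ≤ j ∧ j < m)

omit h in
theorem mem_pk {l : INat N} {t : IPow N (INat N)} {m j : INat N} :
    j ∈ pk l t m ↔ j ∈ t ∨ (l ≤ j ∧ j < m) := by
  unfold pk
  exact mem_sep (by (repeat' (first | with_reducible exact IntF.id | with_reducible exact IntF.fst' | with_reducible exact IntF.snd' | with_reducible exact IntF.const _ | with_reducible exact Int.const _ | assumption | with_reducible apply Int.and | with_reducible apply Int.or | with_reducible apply Int.not | with_reducible apply Int.imp | with_reducible apply Int.iff | with_reducible apply Int.ne | with_reducible apply Int.eq | with_reducible apply Int.mem | with_reducible apply Int.subset | with_reducible apply Int.ltN | with_reducible apply Int.leN | with_reducible_and_instances apply Int.le | with_reducible_and_instances apply Int.lt | with_reducible apply Int.all | with_reducible apply Int.ex | with_reducible apply IntF.fst | with_reducible apply IntF.snd | with_reducible apply IntF.app | with_reducible apply IntF.inl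 | with_reducible apply IntF.inr | with_reducible_and_instances apply IntF.mul | with_reducible_and_instances apply IntF.inv | with_reducible_and_instances apply IntF.add | with_reducible_and_instances apply IntF.sub | with_reducible_and_instances apply IntF.neg | with_reducible_and_instances apply IntF.smul | with_reducible apply Int.fin | with_reducible apply IntF.sep | with_reducible apply IntF.lam | with_reducible apply IntF.insert | with_reducible apply IntF.singleton | with_reducible apply IntF.union | with_reducible apply IntF.iimage | with_reducible apply IntF.ite | with_reducible apply IntF.the | with_reducible apply IntF.irec | with_reducible apply IntF.succ | with_reducible apply IntF.val | with_reducible apply IntF.mk | (with_reducible refine Int.comp ?_ ?_; assumption) | (with_reducible refine Int.comp₂ ?_ ?_ ?_; assumption) | (with_reducible refine Int.comp₃ ?_ ?_ ?_ ?_; assumption) | (with_reducible refine Int.comp₄ ?_ ?_ ?_ ?_ ?_; assumption) | (with_reducible refine IntF.comp ?_ ?_; assumption) | (with_reducible refine IntF.comp₂ ?_ ?_ ?_; assumption) | (with_reducible refine IntF.comp₃ ?_ ?_ ?_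 ?_; assumption) | with_reducible apply IntF.pair)))

omit h in
theorem int_pk (l : INat N) (t : IPow N (INat N)) : IntF N (pk l t) := by
  unfold pk
  (repeat' (first | with_reducible exact IntF.id | with_reducible exact IntF.fst' | with_reducible exact IntF.snd' | with_reducible exact IntF.const _ | with_reducible exact Int.const _ | assumption | with_reducible apply Int.and | with_reducible apply Int.or | with_reducible apply Int.not | with_reducible apply Int.imp | with_reducible apply Int.iff | with_reducible apply Int.ne | with_reducible apply Int.eq | with_reducible apply Int.mem | with_reducible apply Int.subset | with_reducible apply Int.ltN | with_reducible apply Int.leN | with_reducible_and_instances apply Int.le | with_reducible_and_instances apply Int.lt | with_reducible apply Int.all | with_reducible apply Int.ex | with_reducible apply IntF.fst | with_reducible apply IntF.snd | with_reducible apply IntF.app | with_reducible apply IntF.inl | with_reducible apply IntF.inr | with_reducible_and_instances apply IntF.mul | with_reducible_and_instances apply IntF.inv | with_reducible_and_instances apply IntF.add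 | with_reducible_and_instances apply IntF.sub | with_reducible_and_instances apply IntF.neg | with_reducible_and_instances apply IntF.smul | with_reducible apply Int.fin | with_reducible apply IntF.sep | with_reducible apply IntF.lam | with_reducible apply IntF.insert | with_reducible apply IntF.singleton | with_reducible apply IntF.union | with_reducible apply IntF.iimage | with_reducible apply IntF.ite | with_reducible apply IntF.the | with_reducible apply IntF.irec | with_reducible apply IntF.succ | with_reducible apply IntF.val | with_reducible apply IntF.mk | (with_reducible refine Int.comp ?_ ?_; assumption) | (with_reducible refine Int.comp₂ ?_ ?_ ?_; assumption) | (with_reducible refine Int.comp₃ ?_ ?_ ?_ ?_; assumption) | (with_reducible refine Int.comp₄ ?_ ?_ ?_ ?_ ?_; assumption) | (with_reducible refine IntF.comp ?_ ?_; assumption) | (with_reducible refine IntF.comp₂ ?_ ?_ ?_; assumption) | (with_reducible refine IntF.comp₃ ?_ ?_ ?_ ?_; assumption) | with_reducible apply IntF.pair))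

omit h in
theorem pk_succ {l : INat N} {t : IPow N (INat N)} {m : INat N} (hm : l ≤ m) :
    pk l t m.succ = insert m (pk l t m) := by
  refine IPow.ext' fun j => ?_
  rw [mem_insert, mem_pk, mem_pk, INat.lt_succ_iff]
  constructor
  · rintro (h | ⟨h1, h2⟩)
    · exact Or.inr (Or.inl h)
    · rcases h2.lt_or_eq with h3 | h3
      · exact Or.inr (Or.inr ⟨h1, h3⟩)
      · exact Or.inl h3
  · rintro (rfl | h | ⟨h1, h2⟩)
    · exact Or.inr ⟨hm, le_rfl⟩
    · exact Or.inl h
    · exact Or.inr ⟨h1, h2.le⟩

omit h in
theorem pk_self (l : INat N) (t : IPow N (INat N)) : pk l t l = t := by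
  refine IPow.ext' fun j => ?_
  rw [mem_pk]
  constructor
  · rintro (h | ⟨h1, h2⟩)
    · exact h
    · exact absurd (lt_of_le_of_lt h1 h2) (lt_irrefl _)
  · exact Or.inl

omit h in
theorem sb_pk {l : INat N} {t : IPow N (INat N)} (ht : Sb l t) {m : INat N} (hm : l ≤ m) :
    Sb m (pk l t m) := by
  intro k hk
  rcases mem_pk.1 hk with h | h
  · exact lt_of_lt_of_le (ht k h) hm
  · exact h.2

omit h in
theorem pk_ne {l : INat N} {t : IPow N (INat N)} (ht : Sb l t) {m : INat N} (hm : l ≤ m) :
    pk l t m ≠ pk l t m.succ := by
  intro e
  have h1 : m ∈ pk l t m := by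
    rw [e, mem_pk]
    exact Or.inr ⟨hm, INat.lt_succ_self m⟩
  exact lt_irrefl _ (sb_pk ht hm m h1)

theorem Dy.desc {l : INat N} {t : IPow N (INat N)} (hl : 0 < l) (ht : Sb l t) : ∀ m' : INat N,
    ∀ m, l ≤ m → m ≤ m' → ∀ W U, D ((m, pk l t m), W) → D ((m', pk l t m'), U) → IFin (U \ W) := by
  have hD := h.int
  have hp := int_pk l t
  refine INat.ind (p := fun m' : INat N => ∀ m, l ≤ m → m ≤ m' → ∀ W U, D ((m, pk l t m), W) →
    D ((m', pk l t m'), U) → IFin (U \ W)) ?_ ?_ ?_
  · have e1 : Int N (fun q : ((INat N × INat N) × IPow N α) × IPow N α =>
        IFin (q.2 \ q.1.2)) := Int.fin (IntF.sdiff IntF.snd' (by (repeat' (first | with_reducible exact IntF.id | with_reducible exact IntF.fst' | with_reducible exact IntF.snd' | with_reducible exact IntF.const _ | with_reducible exact Int.const _ | assumption | with_reducible apply Int.and | with_reducible apply Int.or | with_reducible apply Int.not | with_reducible apply Int.imp | with_reducible apply Int.iff | with_reducible apply Int.ne | with_reducible apply Int.eq | with_reducible apply Int.mem | with_reducible apply Int.subset | with_reducible apply Int.ltN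 | with_reducible apply Int.leN | with_reducible_and_instances apply Int.le | with_reducible_and_instances apply Int.lt | with_reducible apply Int.all | with_reducible apply Int.ex | with_reducible apply IntF.fst | with_reducible apply IntF.snd | with_reducible apply IntF.app | with_reducible apply IntF.inl | with_reducible apply IntF.inr | with_reducible_and_instances apply IntF.mul | with_reducible_and_instances apply IntF.inv | with_reducible_and_instances apply IntF.add | with_reducible_and_instances apply IntF.sub | with_reducible_and_instances apply IntF.neg | with_reducible_and_instances apply IntF.smul | with_reducible apply Int.fin | with_reducible apply IntF.sep | with_reducible apply IntF.lam | with_reducible apply IntF.insert | with_reducible apply IntF.singleton | with_reducible apply IntF.union | with_reducible apply IntF.iimage | with_reducible apply IntF.ite | with_reducible apply IntF.the | with_reducible apply IntF.irec | with_reducible apply IntF.succ | with_reducible apply IntF.val | with_reducible apply IntF.mk | (with_reducible refine Int.comp ?_ ?_; assumption) | (with_reducible refine Int.comp₂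 ?_ ?_ ?_; assumption) | (with_reducible refine Int.comp₃ ?_ ?_ ?_ ?_; assumption) | (with_reducible refine Int.comp₄ ?_ ?_ ?_ ?_ ?_; assumption) | (with_reducible refine IntF.comp ?_ ?_; assumption) | (with_reducible refine IntF.comp₂ ?_ ?_ ?_; assumption) | (with_reducible refine IntF.comp₃ ?_ ?_ ?_ ?_; assumption) | with_reducible apply IntF.pair))))
    (repeat' (first | with_reducible exact IntF.id | with_reducible exact IntF.fst' | with_reducible exact IntF.snd' | with_reducible exact IntF.const _ | with_reducible exact Int.const _ | assumption | with_reducible apply Int.and | with_reducible apply Int.or | with_reducible apply Int.not | with_reducible apply Int.imp | with_reducible apply Int.iff | with_reducible apply Int.ne | with_reducible apply Int.eq | with_reducible apply Int.mem | with_reducible apply Int.subset | with_reducible apply Int.ltN | with_reducible apply Int.leN | with_reducible_and_instances apply Int.le | with_reducible_and_instances apply Int.lt | with_reducible apply Int.all | with_reducible apply Int.ex | with_reducible apply IntF.fst | with_reducible apply IntF.snd | with_reducible apply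 IntF.app | with_reducible apply IntF.inl | with_reducible apply IntF.inr | with_reducible_and_instances apply IntF.mul | with_reducible_and_instances apply IntF.inv | with_reducible_and_instances apply IntF.add | with_reducible_and_instances apply IntF.sub | with_reducible_and_instances apply IntF.neg | with_reducible_and_instances apply IntF.smul | with_reducible apply Int.fin | with_reducible apply IntF.sep | with_reducible apply IntF.lam | with_reducible apply IntF.insert | with_reducible apply IntF.singleton | with_reducible apply IntF.union | with_reducible apply IntF.iimage | with_reducible apply IntF.ite | with_reducible apply IntF.the | with_reducible apply IntF.irec | with_reducible apply IntF.succ | with_reducible apply IntF.val | with_reducible apply IntF.mk | (with_reducible refine Int.comp ?_ ?_; assumption) | (with_reducible refine Int.comp₂ ?_ ?_ ?_; assumption) | (with_reducible refine Int.comp₃ ?_ ?_ ?_ ?_; assumption) | (with_reducible refine Int.comp₄ ?_ ?_ ?_ ?_ ?_; assumption) | (with_reducible refine IntF.comp ?_ ?_; assumption) | (with_reducible refine IntF.comp₂ ?_ ?_ ?_; assumption) | (with_reducible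 refine IntF.comp₃ ?_ ?_ ?_ ?_; assumption) | with_reducible apply IntF.pair))
  · intro m hlm hm
    have h1 : m ≤ 0 := hm
    exact absurd (lt_of_lt_of_le hl (hlm.trans h1)) (lt_irrefl _)
  · intro m' ih m hlm hm W U hW hU
    rcases hm.lt_or_eq with h1 | h1
    · have h2 : m ≤ m' := INat.lt_succ_iff.1 h1
      have h3 : l ≤ m' := hlm.trans h2
      have h4 : 0 < m' := lt_of_lt_of_le hl h3
      obtain ⟨V, hV⟩ := h.ne m' _ h4 (sb_pk ht h3)
      rw [pk_succ h3] at hU
      exact fin_tri (h.child1 h4 (sb_pk ht h3) hV hU) (ih m hlm h2 W V hW hV)
    · subst h1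
      exact h.diff _ _ _ _ (lt_of_lt_of_le hl hlm) (sb_pk ht hlm) hU hW

/-- A sequence of disjoint nodes below a node. -/
theorem Dy.seq {l : INat N} {t : IPow N (INat N)} (hl : 0 < l) (ht : Sb l t) :
    ∃ P : IPow N α × INat N → Prop, Int N P ∧ (∀ k, ∃ U, P (U, k)) ∧
      (∀ k U, P (U, k) → ¬ IFin U) ∧ (∀ k U U', P (U, k) → P (U', k) → IFin (U \ U')) ∧
      (∀ j k U U', j ≠ k → P (U, j) → P (U', k) → IFin (U ∩ U')) ∧
      (∀ k U W, P (U, k) → D ((l, t), W) → IFin (U \ W)) ∧
      ∀ k, ∃ l' t', 0 < l' ∧ Sb l' t' ∧ ∀ U, P (U, k) ↔ D ((l', t'), U) := by
  have hD := h.int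
  have hp := int_pk l t
  have hadd : IntF N (fun k : INat N => l + k) := by (repeat' (first | with_reducible exact IntF.id | with_reducible exact IntF.fst' | with_reducible exact IntF.snd' | with_reducible exact IntF.const _ | with_reducible exact Int.const _ | assumption | with_reducible apply Int.and | with_reducible apply Int.or | with_reducible apply Int.not | with_reducible apply Int.imp | with_reducible apply Int.iff | with_reducible apply Int.ne | with_reducible apply Int.eq | with_reducible apply Int.mem | with_reducible apply Int.subset | with_reducible apply Int.ltN | with_reducible apply Int.leN | with_reducible_and_instances apply Int.le | with_reducible_and_instances apply Int.lt | with_reducible apply Int.all | with_reducible apply Int.ex | with_reducible apply IntF.fst | with_reducible apply IntF.snd | with_reducible apply IntF.app | with_reducible apply IntF.inl | with_reducible apply IntF.inr | with_reducible_and_instances apply IntF.mul | with_reducible_and_instances apply IntF.inv | with_reducible_and_instances apply IntF.add | with_reducible_and_instances apply IntF.sub | with_reducible_and_instances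 apply IntF.neg | with_reducible_and_instances apply IntF.smul | with_reducible apply Int.fin | with_reducible apply IntF.sep | with_reducible apply IntF.lam | with_reducible apply IntF.insert | with_reducible apply IntF.singleton | with_reducible apply IntF.union | with_reducible apply IntF.iimage | with_reducible apply IntF.ite | with_reducible apply IntF.the | with_reducible apply IntF.irec | with_reducible apply IntF.succ | with_reducible apply IntF.val | with_reducible apply IntF.mk | (with_reducible refine Int.comp ?_ ?_; assumption) | (with_reducible refine Int.comp₂ ?_ ?_ ?_; assumption) | (with_reducible refine Int.comp₃ ?_ ?_ ?_ ?_; assumption) | (with_reducible refine Int.comp₄ ?_ ?_ ?_ ?_ ?_; assumption) | (with_reducible refine IntF.comp ?_ ?_; assumption) | (with_reducible refine IntF.comp₂ ?_ ?_ ?_; assumption) | (with_reducible refine IntF.comp₃ ?_ ?_ ?_ ?_; assumption) | with_reducible apply IntF.pair))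
  have hle : ∀ k, l ≤ l + k := fun k => le_add_r l k
  have hsb : ∀ m, l ≤ m → Sb m.succ.succ (pk l t m) := fun m hm => (sb_pk ht hm).succ.succ
  have hdesc : ∀ m, l ≤ m → ∀ U V, D ((m.succ.succ, pk l t m), U) → D ((m, pk l t m), V) →
      IFin (U \ V) := by
    intro m hm U V hU hV
    obtain ⟨V', hV'⟩ := h.ne m.succ (pk l t m) (pos_succ m) (sb_pk ht hm).succ
    exact fin_tri (h.child0 (pos_succ m) (sb_pk ht hm).succ hV' hU)
      (h.child0 (lt_of_lt_of_le hl hm) (sb_pk ht hm) hV hV')
  have hdis : ∀ m m', l ≤ m → m < m' → ∀ U U', D ((m.succ.succ, pk l t m), U) →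
      D ((m'.succ.succ, pk l t m'), U') → IFin (U ∩ U') := by
    intro m m' hm hmm U U' hU hU'
    have h1 : l ≤ m.succ := hm.trans (INat.lt_succ_self m).le
    have h2 : l ≤ m' := hm.trans hmm.le
    obtain ⟨G, hG⟩ := h.ne m.succ (pk l t m.succ) (pos_succ m) (sb_pk ht h1)
    obtain ⟨V, hV⟩ := h.ne m' (pk l t m') (lt_of_lt_of_le hl h2) (sb_pk ht h2)
    have h3 := h.cousin (pos_succ m) (sb_pk ht hm).succ (sb_pk ht h1) (pk_ne ht hm) hG hU
    exact fin_dis h3 (fin_tri (hdesc m' h2 U' V hU' hV)
      (h.desc hl ht m' m.succ h1 (INat.succ_le_iff.2 hmm) G V hG hV))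
  refine ⟨fun q => D (((l + q.2).succ.succ, pk l t (l + q.2)), q.1), ?_, fun k => ?_, fun k U hU => ?_,
    fun k U U' hU hU' => ?_, fun j k U U' hjk hU hU' => ?_, fun k U W hU hW => ?_, fun k => ?_⟩
  · (repeat' (first | with_reducible exact IntF.id | with_reducible exact IntF.fst' | with_reducible exact IntF.snd' | with_reducible exact IntF.const _ | with_reducible exact Int.const _ | assumption | with_reducible apply Int.and | with_reducible apply Int.or | with_reducible apply Int.not | with_reducible apply Int.imp | with_reducible apply Int.iff | with_reducible apply Int.ne | with_reducible apply Int.eq | with_reducible apply Int.mem | with_reducible apply Int.subset | with_reducible apply Int.ltN | with_reducible apply Int.leN | with_reducible_and_instances apply Int.le | with_reducible_and_instances apply Int.lt | with_reducible apply Int.all | with_reducible apply Int.ex | with_reducible apply IntF.fst | with_reducible apply IntF.snd | with_reducible apply IntF.app | with_reducible apply IntF.inl | with_reducible apply IntF.inr | with_reducible_and_instances apply IntF.mul | with_reducible_and_instances apply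 IntF.inv | with_reducible_and_instances apply IntF.add | with_reducible_and_instances apply IntF.sub | with_reducible_and_instances apply IntF.neg | with_reducible_and_instances apply IntF.smul | with_reducible apply Int.fin | with_reducible apply IntF.sep | with_reducible apply IntF.lam | with_reducible apply IntF.insert | with_reducible apply IntF.singleton | with_reducible apply IntF.union | with_reducible apply IntF.iimage | with_reducible apply IntF.ite | with_reducible apply IntF.the | with_reducible apply IntF.irec | with_reducible apply IntF.succ | with_reducible apply IntF.val | with_reducible apply IntF.mk | (with_reducible refine Int.comp ?_ ?_; assumption) | (with_reducible refine Int.comp₂ ?_ ?_ ?_; assumption) | (with_reducible refine Int.comp₃ ?_ ?_ ?_ ?_; assumption) | (with_reducible refine Int.comp₄ ?_ ?_ ?_ ?_ ?_; assumption) | (with_reducible refine IntF.comp ?_ ?_; assumption) | (with_reducible refine IntF.comp₂ ?_ ?_ ?_; assumption) | (with_reducible refine IntF.comp₃ ?_ ?_ ?_ ?_; assumption) | with_reducible apply IntF.pair))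
  · exact h.ne _ _ (pos_succ _) (hsb _ (hle k))
  · exact h.inf _ _ _ (pos_succ _) (hsb _ (hle k)) hU
  · exact h.diff _ _ _ _ (pos_succ _) (hsb _ (hle k)) hU hU'
  · have h1 : l + j ≠ l + k := fun e => hjk (add_left_cancel e)
    rcases lt_or_gt_of_ne h1 with h2 | h2
    · exact hdis _ _ (hle j) h2 _ _ hU hU'
    · exact fin_sym (hdis _ _ (hle k) h2 _ _ hU' hU)
  · obtain ⟨V, hV⟩ := h.ne (l + k) (pk l t (l + k)) (lt_of_lt_of_le hl (hle k)) (sb_pk ht (hle k))
    refine fin_tri (hdesc _ (hle k) U V hU hV) (h.desc hl ht (l + k) l le_rfl (hle k) W V ?_ hV)
    rw [pk_self]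
    exact hW
  · exact ⟨_, _, pos_succ _, hsb _ (hle k), fun U => Iff.rfl⟩

end Pool.Agent.V11257G
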