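import Pool.Agent.V11257.Mf13

/-!
# Strongly filterbase infinite and dyadically filterbase finite
-/

set_option maxHeartbeats 1000000
set_option linter.all false
set_option synthInstance.maxSize 2000

namespace Pool.Agent.V11257G

open FirstOrder FirstOrder.Language
open Pool.Agent.Helper672
open Pool.Agent.Helper672.ZFA
open Pool.Agent.Helper672.ZFA.V246
open Pool.Agent.Helper672.Plain (LSet)
open Pool.Agent.H310
open Pool.Agent.H310Cards
open Pool.Agent.H635Amen (ZF)
open Pool.Agent.V11246

universe u

section

variable {N : Type u} [L.Structure N] [IsModel N] {α : Type u} [ITy N α]

/-- Finite unions. -/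
theorem fin_union_lt {P : INat N × α → Prop} (hP : Int N P) : ∀ n : INat N,
    (∀ i, i < n → IFin (sep N fun x => P (i, x))) → IFin (sep N fun x => ∃ i, i < n ∧ P (i, x)) := by
  have i1 : ∀ n, Int N (fun x => ∃ i, i < n ∧ P (i, x)) := by
    intro n
    (repeat' (first | with_reducible exact IntF.id | with_reducible exact IntF.fst' | with_reducible exact IntF.snd' | with_reducible exact IntF.const _ | with_reducible exact Int.const _ | assumption | with_reducible apply Int.and | with_reducible apply Int.or | with_reducible apply Int.not | with_reducible apply Int.imp | with_reducible apply Int.iff | with_reducible apply Int.ne | with_reducible apply Int.eq | with_reducible apply Int.mem | with_reducible apply Int.subset | with_reducible apply Int.ltN | with_reducible apply Int.leN | with_reducible_and_instances apply Int.le | with_reducible_and_instances apply Int.lt | with_reducible apply Int.all | with_reducible apply Int.ex | with_reducible apply IntF.fst | with_reducible apply IntF.snd | with_reducible apply IntF.app | with_reducible apply IntF.inl | with_reducible apply IntF.inr | with_reducible_and_instances apply IntF.mul | with_reducible_and_instances apply IntF.inv | with_reducible_and_instances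 apply IntF.add | with_reducible_and_instances apply IntF.sub | with_reducible_and_instances apply IntF.neg | with_reducible_and_instances apply IntF.smul | with_reducible apply Int.fin | with_reducible apply IntF.sep | with_reducible apply IntF.lam | with_reducible apply IntF.insert | with_reducible apply IntF.singleton | with_reducible apply IntF.union | with_reducible apply IntF.iimage | with_reducible apply IntF.ite | with_reducible apply IntF.the | with_reducible apply IntF.irec | with_reducible apply IntF.succ | with_reducible apply IntF.val | with_reducible apply IntF.mk | (with_reducible refine Int.comp ?_ ?_; assumption) | (with_reducible refine Int.comp₂ ?_ ?_ ?_; assumption) | (with_reducible refine Int.comp₃ ?_ ?_ ?_ ?_; assumption) | (with_reducible refine Int.comp₄ ?_ ?_ ?_ ?_ ?_; assumption) | (with_reducible refine IntF.comp ?_ ?_; assumption) | (with_reducible refine IntF.comp₂ ?_ ?_ ?_; assumption) | (with_reducible refine IntF.comp₃ ?_ ?_ ?_ ?_; assumption) | with_reducible apply IntF.pair))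
  have i2 : ∀ n, Int N (fun x => P (n, x)) := by
    intro n
    (repeat' (first | with_reducible exact IntF.id | with_reducible exact IntF.fst' | with_reducible exact IntF.snd' | with_reducible exact IntF.const _ | with_reducible exact Int.const _ | assumption | with_reducible apply Int.and | with_reducible apply Int.or | with_reducible apply Int.not | with_reducible apply Int.imp | with_reducible apply Int.iff | with_reducible apply Int.ne | with_reducible apply Int.eq | with_reducible apply Int.mem | with_reducible apply Int.subset | with_reducible apply Int.ltN | with_reducible apply Int.leN | with_reducible_and_instances apply Int.le | with_reducible_and_instances apply Int.lt | with_reducible apply Int.all | with_reducible apply Int.ex | with_reducible apply IntF.fst | with_reducible apply IntF.snd | with_reducible apply IntF.app | with_reducible apply IntF.inl | with_reducible apply IntF.inr | with_reducible_and_instances apply IntF.mul | with_reducible_and_instances apply IntF.inv | with_reducible_and_instances apply IntF.add | with_reducible_and_instances apply IntF.sub | with_reducible_and_instances apply IntF.neg | with_reducible_and_instances apply IntF.smul | with_reducible apply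 Int.fin | with_reducible apply IntF.sep | with_reducible apply IntF.lam | with_reducible apply IntF.insert | with_reducible apply IntF.singleton | with_reducible apply IntF.union | with_reducible apply IntF.iimage | with_reducible apply IntF.ite | with_reducible apply IntF.the | with_reducible apply IntF.irec | with_reducible apply IntF.succ | with_reducible apply IntF.val | with_reducible apply IntF.mk | (with_reducible refine Int.comp ?_ ?_; assumption) | (with_reducible refine Int.comp₂ ?_ ?_ ?_; assumption) | (with_reducible refine Int.comp₃ ?_ ?_ ?_ ?_; assumption) | (with_reducible refine Int.comp₄ ?_ ?_ ?_ ?_ ?_; assumption) | (with_reducible refine IntF.comp ?_ ?_; assumption) | (with_reducible refine IntF.comp₂ ?_ ?_ ?_; assumption) | (with_reducible refine IntF.comp₃ ?_ ?_ ?_ ?_; assumption) | with_reducible apply IntF.pair))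
  refine INat.ind (p := fun n => (∀ i, i < n → IFin (sep N fun x => P (i, x))) →
    IFin (sep N fun x => ∃ i, i < n ∧ P (i, x))) (by (repeat' (first | with_reducible exact IntF.id | with_reducible exact IntF.fst' | with_reducible exact IntF.snd' | with_reducible exact IntF.const _ | with_reducible exact Int.const _ | assumption | with_reducible apply Int.and | with_reducible apply Int.or | with_reducible apply Int.not | with_reducible apply Int.imp | with_reducible apply Int.iff | with_reducible apply Int.ne | with_reducible apply Int.eq | with_reducible apply Int.mem | with_reducible apply Int.subset | with_reducible apply Int.ltN | with_reducible apply Int.leN | with_reducible_and_instances apply Int.le | with_reducible_and_instances apply Int.lt | with_reducible apply Int.all | with_reducible apply Int.ex | with_reducible apply IntF.fst | with_reducible apply IntF.snd | with_reducible apply IntF.app | with_reducible apply IntF.inl | with_reducible apply IntF.inr | with_reducible_and_instances apply IntF.mul | with_reducible_and_instances apply IntF.inv | with_reducible_and_instances apply IntF.add | with_reducible_and_instances apply IntF.sub | with_reducible_and_instances apply IntF.neg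 | with_reducible_and_instances apply IntF.smul | with_reducible apply Int.fin | with_reducible apply IntF.sep | with_reducible apply IntF.lam | with_reducible apply IntF.insert | with_reducible apply IntF.singleton | with_reducible apply IntF.union | with_reducible apply IntF.iimage | with_reducible apply IntF.ite | with_reducible apply IntF.the | with_reducible apply IntF.irec | with_reducible apply IntF.succ | with_reducible apply IntF.val | with_reducible apply IntF.mk | (with_reducible refine Int.comp ?_ ?_; assumption) | (with_reducible refine Int.comp₂ ?_ ?_ ?_; assumption) | (with_reducible refine Int.comp₃ ?_ ?_ ?_ ?_; assumption) | (with_reducible refine Int.comp₄ ?_ ?_ ?_ ?_ ?_; assumption) | (with_reducible refine IntF.comp ?_ ?_; assumption) | (with_reducible refine IntF.comp₂ ?_ ?_ ?_; assumption) | (with_reducible refine IntF.comp₃ ?_ ?_ ?_ ?_; assumption) | with_reducible apply IntF.pair))) ?_ ?_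
  · intro _
    refine IFin.empty.subset fun x hx => ?_
    obtain ⟨i, hi, -⟩ := (mem_sep (i1 0)).1 hx
    exact absurd hi INat.not_lt_zero
  · intro n ih h
    refine ((ih fun i hi => h i (hi.trans (INat.lt_succ_self n))).union
      (h n (INat.lt_succ_self n))).subset fun x hx => ?_
    obtain ⟨i, hi, hx'⟩ := (mem_sep (i1 _)).1 hx
    rw [mem_union, mem_sep (i1 n), mem_sep (i2 n)]
    rcases (INat.lt_succ_iff.1 hi).lt_or_eq with h1 | rfl
    · exact Or.inl ⟨i, h1, hx'⟩
    · exact Or.inr hx'

end

section

attribute [local instance] Helper672.Plain.toL

variable {N : Type u} [LSet.Structure N] [hZ : Helper672.Plain.Zermelo N]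

local instance instModelMf14 : IsModel N := Helper672.Plain.isModel_toL

variable {α : Type u} [ITy N α]

theorem int_app2 (f : N) : Int N (fun q : INat N × IPow N α =>
    App f (code q.1) (code q.2)) := ⟨f, fun q => app_iff.symm⟩

variable {R : IPow N α × INat N → Prop} {Fc : IPow N α → Prop} (h : FB2 N α R Fc)

include h

theorem FB2.modd (i : INat N) : Modd (sep N fun U : IPow N α => R (U, i)) := by
  have hR := h.intR
  have hI : Int N (fun U : IPow N α => R (U, i)) := by (repeat' (first | with_reducible exact IntF.id | with_reducible exact IntF.fst' | with_reducible exact IntF.snd' | with_reducible exact IntF.const _ | with_reducible exact Int.const _ | assumption | with_reducible apply Int.and | with_reducible apply Int.or | with_reducible apply Int.not | with_reducible apply Int.imp | with_reducible apply Int.iff | with_reducible apply Int.ne | with_reducible apply Int.eq | with_reducible apply Int.mem | with_reducible apply Int.subset | with_reducible apply Int.ltN | with_reducible apply Int.leN | with_reducible_and_instances apply Int.le | with_reducible_and_instances apply Int.lt | with_reducible apply Int.all | with_reducible apply Int.ex | with_reducible apply IntF.fst | with_reducible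 apply IntF.snd | with_reducible apply IntF.app | with_reducible apply IntF.inl | with_reducible apply IntF.inr | with_reducible_and_instances apply IntF.mul | with_reducible_and_instances apply IntF.inv | with_reducible_and_instances apply IntF.add | with_reducible_and_instances apply IntF.sub | with_reducible_and_instances apply IntF.neg | with_reducible_and_instances apply IntF.smul | with_reducible apply Int.fin | with_reducible apply IntF.sep | with_reducible apply IntF.lam | with_reducible apply IntF.insert | with_reducible apply IntF.singleton | with_reducible apply IntF.union | with_reducible apply IntF.iimage | with_reducible apply IntF.ite | with_reducible apply IntF.the | with_reducible apply IntF.irec | with_reducible apply IntF.succ | with_reducible apply IntF.val | with_reducible apply IntF.mk | (with_reducible refine Int.comp ?_ ?_; assumption) | (with_reducible refine Int.comp₂ ?_ ?_ ?_; assumption) | (with_reducible refine Int.comp₃ ?_ ?_ ?_ ?_; assumption) | (with_reducible refine Int.comp₄ ?_ ?_ ?_ ?_ ?_; assumption) | (with_reducible refine IntF.comp ?_ ?_; assumption) | (with_reducible refine IntF.comp₂ ?_ ?_ ?_; assumption) | (with_reducible refine IntF.comp₃ ?_ ?_ ?_ ?_;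 assumption) | with_reducible apply IntF.pair))
  refine ⟨?_, ?_, ?_, ?_, ?_⟩
  · obtain ⟨U, hU⟩ := h.c1 i
    exact ⟨U, (mem_sep hI).2 hU⟩
  · intro U U' hU hU'
    rw [mem_sep hI] at hU hU' ⊢
    refine h.c3 U _ i hU (IFin.empty.subset fun x hx => ?_) ((h.c2 U' U i hU' hU).subset fun x hx => ?_)
    · rw [mem_sdiff, mem_union] at hx
      exact absurd (Or.inl hx.1) hx.2
    · rw [mem_sdiff, mem_union] at hx
      rw [mem_sdiff]
      tauto
  · intro U U' hU hU'
    rw [mem_sep hI] at hU hU' ⊢
    refine h.c3 U _ i hU ((h.c2 U U' i hU hU').subset fun x hx => ?_) (IFin.empty.subset fun x hx => ?_)
    · rw [mem_sdiff, mem_inter] at hx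
      rw [mem_sdiff]
      tauto
    · rw [mem_sdiff, mem_inter] at hx
      exact absurd hx.1.1 hx.2
  · intro U hU
    exact h.c4 U i ((mem_sep hI).1 hU)
  · intro U U' hU hU'
    exact h.c2 U U' i ((mem_sep hI).1 hU) ((mem_sep hI).1 hU')

theorem FB2.strongly : StronglyFilterbaseInfinite (dom N α) := by
  have hR := h.intR
  have hF : IntF N (fun i : INat N => sep N fun U : IPow N α => R (U, i)) := by (repeat' (first | with_reducible exact IntF.id | with_reducible exact IntF.fst' | with_reducible exact IntF.snd' | with_reducible exact IntF.const _ | with_reducible exact Int.const _ | assumption | with_reducible apply Int.and | with_reducible apply Int.or | with_reducible apply Int.not | with_reducible apply Int.imp | with_reducible apply Int.iff | with_reducible apply Int.ne | with_reducible apply Int.eq | with_reducible apply Int.mem | with_reducible apply Int.subset | with_reducible apply Int.ltN | with_reducible apply Int.leN | with_reducible_and_instances apply Int.le | with_reducible_and_instances apply Int.lt | with_reducible apply Int.all | with_reducible apply Int.ex | with_reducible apply IntF.fst | with_reducible apply IntF.snd | with_reducible apply IntF.app | with_reducible apply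 IntF.inl | with_reducible apply IntF.inr | with_reducible_and_instances apply IntF.mul | with_reducible_and_instances apply IntF.inv | with_reducible_and_instances apply IntF.add | with_reducible_and_instances apply IntF.sub | with_reducible_and_instances apply IntF.neg | with_reducible_and_instances apply IntF.smul | with_reducible apply Int.fin | with_reducible apply IntF.sep | with_reducible apply IntF.lam | with_reducible apply IntF.insert | with_reducible apply IntF.singleton | with_reducible apply IntF.union | with_reducible apply IntF.iimage | with_reducible apply IntF.ite | with_reducible apply IntF.the | with_reducible apply IntF.irec | with_reducible apply IntF.succ | with_reducible apply IntF.val | with_reducible apply IntF.mk | (with_reducible refine Int.comp ?_ ?_; assumption) | (with_reducible refine Int.comp₂ ?_ ?_ ?_; assumption) | (with_reducible refine Int.comp₃ ?_ ?_ ?_ ?_; assumption) | (with_reducible refine Int.comp₄ ?_ ?_ ?_ ?_ ?_; assumption) | (with_reducible refine IntF.comp ?_ ?_; assumption) | (with_reducible refine IntF.comp₂ ?_ ?_ ?_; assumption) | (with_reducible refine IntF.comp₃ ?_ ?_ ?_ ?_; assumption) | with_reducible apply IntF.pair))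
  have hI : ∀ i, Int N (fun U : IPow N α => R (U, i)) := by
    intro i
    (repeat' (first | with_reducible exact IntF.id | with_reducible exact IntF.fst' | with_reducible exact IntF.snd' | with_reducible exact IntF.const _ | with_reducible exact Int.const _ | assumption | with_reducible apply Int.and | with_reducible apply Int.or | with_reducible apply Int.not | with_reducible apply Int.imp | with_reducible apply Int.iff | with_reducible apply Int.ne | with_reducible apply Int.eq | with_reducible apply Int.mem | with_reducible apply Int.subset | with_reducible apply Int.ltN | with_reducible apply Int.leN | with_reducible_and_instances apply Int.le | with_reducible_and_instances apply Int.lt | with_reducible apply Int.all | with_reducible apply Int.ex | with_reducible apply IntF.fst | with_reducible apply IntF.snd | with_reducible apply IntF.app | with_reducible apply IntF.inl | with_reducible apply IntF.inr | with_reducible_and_instances apply IntF.mul | with_reducible_and_instances apply IntF.inv | with_reducible_and_instances apply IntF.add | with_reducible_and_instances apply IntF.sub | with_reducible_and_instances apply IntF.neg | with_reducible_and_instances apply IntF.smul | with_reducible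 apply Int.fin | with_reducible apply IntF.sep | with_reducible apply IntF.lam | with_reducible apply IntF.insert | with_reducible apply IntF.singleton | with_reducible apply IntF.union | with_reducible apply IntF.iimage | with_reducible apply IntF.ite | with_reducible apply IntF.the | with_reducible apply IntF.irec | with_reducible apply IntF.succ | with_reducible apply IntF.val | with_reducible apply IntF.mk | (with_reducible refine Int.comp ?_ ?_; assumption) | (with_reducible refine Int.comp₂ ?_ ?_ ?_; assumption) | (with_reducible refine Int.comp₃ ?_ ?_ ?_ ?_; assumption) | (with_reducible refine Int.comp₄ ?_ ?_ ?_ ?_ ?_; assumption) | (with_reducible refine IntF.comp ?_ ?_; assumption) | (with_reducible refine IntF.comp₂ ?_ ?_ ?_; assumption) | (with_reducible refine IntF.comp₃ ?_ ?_ ?_ ?_; assumption) | with_reducible apply IntF.pair))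
  refine ⟨_, isSeq_relc hF, ?_, ?_, ?_⟩
  · intro n v hv
    obtain ⟨i, rfl, rfl⟩ := (app_relcF hF).1 hv
    exact isMod_of (h.modd i)
  · intro m n v v' hv hv' hmn
    obtain ⟨i, rfl, rfl⟩ := (app_relcF hF).1 hv
    obtain ⟨j, rfl, rfl⟩ := (app_relcF hF).1 hv'
    obtain ⟨U, hU⟩ := h.c1 i
    obtain ⟨U', hU'⟩ := h.c1 j
    exact ⟨code U, code U', code (U ∩ U'), mem_codeM.2 ((mem_sep (hI i)).2 hU),
      mem_codeM.2 ((mem_sep (hI j)).2 hU'), isInter_code.2 rfl,
      isFinite_of_fin (h.c5 U U' i j (fun e => hmn (by rw [e])) hU hU')⟩
  · intro n g s hn hg hgv b hb hbf
    obtain ⟨n, rfl⟩ := natB.1 hn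
    obtain ⟨B, rfl⟩ := subs_code (α := α) (u := b) fun z hz => ((hb z).1 hz).1
    have hB := fin_of_isFinite hbf
    obtain ⟨e, he⟩ := h.c1 n
    have hA := int_app2 (α := α) g
    have hP : Int N (fun q : INat N × α => q.2 ∈ e ∧ ∃ U : IPow N α, App g (code q.1) (code U) ∧
        q.2 ∈ U) := by
      refine Int.and (by (repeat' (first | with_reducible exact IntF.id | with_reducible exact IntF.fst' | with_reducible exact IntF.snd' | with_reducible exact IntF.const _ | with_reducible exact Int.const _ | assumption | with_reducible apply Int.and | with_reducible apply Int.or | with_reducible apply Int.not | with_reducible apply Int.imp | with_reducible apply Int.iff | with_reducible apply Int.ne | with_reducible apply Int.eq | with_reducible apply Int.mem | with_reducible apply Int.subset | with_reducible apply Int.ltN | with_reducible apply Int.leN | with_reducible_and_instances apply Int.le | with_reducible_and_instances apply Int.lt | with_reducible apply Int.all | with_reducible apply Int.ex | with_reducible apply IntF.fst | with_reducible apply IntF.snd | with_reducible apply IntF.app | with_reducible apply IntF.inl | with_reducible apply IntF.inr | with_reducible_and_instances apply IntF.mul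 | with_reducible_and_instances apply IntF.inv | with_reducible_and_instances apply IntF.add | with_reducible_and_instances apply IntF.sub | with_reducible_and_instances apply IntF.neg | with_reducible_and_instances apply IntF.smul | with_reducible apply Int.fin | with_reducible apply IntF.sep | with_reducible apply IntF.lam | with_reducible apply IntF.insert | with_reducible apply IntF.singleton | with_reducible apply IntF.union | with_reducible apply IntF.iimage | with_reducible apply IntF.ite | with_reducible apply IntF.the | with_reducible apply IntF.irec | with_reducible apply IntF.succ | with_reducible apply IntF.val | with_reducible apply IntF.mk | (with_reducible refine Int.comp ?_ ?_; assumption) | (with_reducible refine Int.comp₂ ?_ ?_ ?_; assumption) | (with_reducible refine Int.comp₃ ?_ ?_ ?_ ?_; assumption) | (with_reducible refine Int.comp₄ ?_ ?_ ?_ ?_ ?_; assumption) | (with_reducible refine IntF.comp ?_ ?_; assumption) | (with_reducible refine IntF.comp₂ ?_ ?_ ?_; assumption) | (with_reducible refine IntF.comp₃ ?_ ?_ ?_ ?_; assumption) | with_reducible apply IntF.pair))) (Int.ex (Int.and ?_ (by (repeat' (first | with_reducible exact IntF.id | with_reducible exact IntF.fst' |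 with_reducible exact IntF.snd' | with_reducible exact IntF.const _ | with_reducible exact Int.const _ | assumption | with_reducible apply Int.and | with_reducible apply Int.or | with_reducible apply Int.not | with_reducible apply Int.imp | with_reducible apply Int.iff | with_reducible apply Int.ne | with_reducible apply Int.eq | with_reducible apply Int.mem | with_reducible apply Int.subset | with_reducible apply Int.ltN | with_reducible apply Int.leN | with_reducible_and_instances apply Int.le | with_reducible_and_instances apply Int.lt | with_reducible apply Int.all | with_reducible apply Int.ex | with_reducible apply IntF.fst | with_reducible apply IntF.snd | with_reducible apply IntF.app | with_reducible apply IntF.inl | with_reducible apply IntF.inr | with_reducible_and_instances apply IntF.mul | with_reducible_and_instances apply IntF.inv | with_reducible_and_instances apply IntF.add | with_reducible_and_instances apply IntF.sub | with_reducible_and_instances apply IntF.neg | with_reducible_and_instances apply IntF.smul | with_reducible apply Int.fin | with_reducible apply IntF.sep | with_reducible apply IntF.lam | with_reducible apply IntF.insert | with_reducible apply IntF.singleton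 | with_reducible apply IntF.union | with_reducible apply IntF.iimage | with_reducible apply IntF.ite | with_reducible apply IntF.the | with_reducible apply IntF.irec | with_reducible apply IntF.succ | with_reducible apply IntF.val | with_reducible apply IntF.mk | (with_reducible refine Int.comp ?_ ?_; assumption) | (with_reducible refine Int.comp₂ ?_ ?_ ?_; assumption) | (with_reducible refine Int.comp₃ ?_ ?_ ?_ ?_; assumption) | (with_reducible refine Int.comp₄ ?_ ?_ ?_ ?_ ?_; assumption) | (with_reducible refine IntF.comp ?_ ?_; assumption) | (with_reducible refine IntF.comp₂ ?_ ?_ ?_; assumption) | (with_reducible refine IntF.comp₃ ?_ ?_ ?_ ?_; assumption) | with_reducible apply IntF.pair)))))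
      exact Int.comp (p := fun q : INat N × IPow N α => App g (code q.1) (code q.2))
        (f := fun q : (INat N × α) × IPow N α => (q.1.1, q.2)) hA (by (repeat' (first | with_reducible exact IntF.id | with_reducible exact IntF.fst' | with_reducible exact IntF.snd' | with_reducible exact IntF.const _ | with_reducible exact Int.const _ | assumption | with_reducible apply Int.and | with_reducible apply Int.or | with_reducible apply Int.not | with_reducible apply Int.imp | with_reducible apply Int.iff | with_reducible apply Int.ne | with_reducible apply Int.eq | with_reducible apply Int.mem | with_reducible apply Int.subset | with_reducible apply Int.ltN | with_reducible apply Int.leN | with_reducible_and_instances apply Int.le | with_reducible_and_instances apply Int.lt | with_reducible apply Int.all | with_reducible apply Int.ex | with_reducible apply IntF.fst | with_reducible apply IntF.snd | with_reducible apply IntF.app | with_reducible apply IntF.inl | with_reducible apply IntF.inr | with_reducible_and_instances apply IntF.mul | with_reducible_and_instances apply IntF.inv | with_reducible_and_instances apply IntF.add | with_reducible_and_instances apply IntF.sub | with_reducible_and_instances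 apply IntF.neg | with_reducible_and_instances apply IntF.smul | with_reducible apply Int.fin | with_reducible apply IntF.sep | with_reducible apply IntF.lam | with_reducible apply IntF.insert | with_reducible apply IntF.singleton | with_reducible apply IntF.union | with_reducible apply IntF.iimage | with_reducible apply IntF.ite | with_reducible apply IntF.the | with_reducible apply IntF.irec | with_reducible apply IntF.succ | with_reducible apply IntF.val | with_reducible apply IntF.mk | (with_reducible refine Int.comp ?_ ?_; assumption) | (with_reducible refine Int.comp₂ ?_ ?_ ?_; assumption) | (with_reducible refine Int.comp₃ ?_ ?_ ?_ ?_; assumption) | (with_reducible refine Int.comp₄ ?_ ?_ ?_ ?_ ?_; assumption) | (with_reducible refine IntF.comp ?_ ?_; assumption) | (with_reducible refine IntF.comp₂ ?_ ?_ ?_; assumption) | (with_reducible refine IntF.comp₃ ?_ ?_ ?_ ?_; assumption) | with_reducible apply IntF.pair)))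
    -- the values of `g`
    have hgU : ∀ i : INat N, i < n → ∃ U : IPow N α, R (U, i) ∧ App g (code i) (code U) ∧
        ∀ V : IPow N α, App g (code i) (code V) → V = U := by
      intro i hi
      obtain ⟨u, hu, huu⟩ := hg.2 (code i) hi
      have h1 := hgv (code i) u _ hu ((app_relcF hF).2 ⟨i, rfl, rfl⟩)
      obtain ⟨U, hU, rfl⟩ := mem_codeB.1 h1
      exact ⟨U, (mem_sep (hI i)).1 hU, hu, fun V hV => ITy.inj (huu _ hV)⟩
    have hfin := fin_union_lt hP n fun i hi => by
      obtain ⟨U, hU, -, hu⟩ := hgU i hi
      refine (h.c5 e U n i (fun e => ?_) he hU).subset fun x hx => ?_
      · rw [e] at hi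
        exact lt_irrefl _ hi
      · have hx' := (mem_sep (Int.comp (p := fun q : INat N × α => q.2 ∈ e ∧
          ∃ U : IPow N α, App g (code q.1) (code U) ∧ q.2 ∈ U) (f := fun x : α => (i, x)) hP
          (by (repeat' (first | with_reducible exact IntF.id | with_reducible exact IntF.fst' | with_reducible exact IntF.snd' | with_reducible exact IntF.const _ | with_reducible exact Int.const _ | assumption | with_reducible apply Int.and | with_reducible apply Int.or | with_reducible apply Int.not | with_reducible apply Int.imp | with_reducible apply Int.iff | with_reducible apply Int.ne | with_reducible apply Int.eq | with_reducible apply Int.mem | with_reducible apply Int.subset | with_reducible apply Int.ltN | with_reducible apply Int.leN | with_reducible_and_instances apply Int.le | with_reducible_and_instances apply Int.lt | with_reducible apply Int.all | with_reducible apply Int.ex | with_reducible apply IntF.fst | with_reducible apply IntF.snd | with_reducible apply IntF.app | with_reducible apply IntF.inl | with_reducible apply IntF.inr | with_reducible_and_instances apply IntF.mul | with_reducible_and_instances apply IntF.inv | with_reducible_and_instances apply IntF.add | with_reducible_and_instances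 apply IntF.sub | with_reducible_and_instances apply IntF.neg | with_reducible_and_instances apply IntF.smul | with_reducible apply Int.fin | with_reducible apply IntF.sep | with_reducible apply IntF.lam | with_reducible apply IntF.insert | with_reducible apply IntF.singleton | with_reducible apply IntF.union | with_reducible apply IntF.iimage | with_reducible apply IntF.ite | with_reducible apply IntF.the | with_reducible apply IntF.irec | with_reducible apply IntF.succ | with_reducible apply IntF.val | with_reducible apply IntF.mk | (with_reducible refine Int.comp ?_ ?_; assumption) | (with_reducible refine Int.comp₂ ?_ ?_ ?_; assumption) | (with_reducible refine Int.comp₃ ?_ ?_ ?_ ?_; assumption) | (with_reducible refine Int.comp₄ ?_ ?_ ?_ ?_ ?_; assumption) | (with_reducible refine IntF.comp ?_ ?_; assumption) | (with_reducible refine IntF.comp₂ ?_ ?_ ?_; assumption) | (with_reducible refine IntF.comp₃ ?_ ?_ ?_ ?_; assumption) | with_reducible apply IntF.pair))))).1 hx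
        obtain ⟨h1, V, hV, hxV⟩ := hx'
        rw [hu V hV] at hxV
        exact mem_inter.2 ⟨h1, hxV⟩
    refine h.c4 e n he ((hB.union hfin).subset fun x hx => ?_)
    rw [mem_union]
    by_cases hxB : x ∈ B
    · exact Or.inl hxB
    · refine Or.inr ((mem_sep ?_).2 ?_)
      · refine Int.ex (Int.and (by (repeat' (first | with_reducible exact IntF.id | with_reducible exact IntF.fst' | with_reducible exact IntF.snd' | with_reducible exact IntF.const _ | with_reducible exact Int.const _ | assumption | with_reducible apply Int.and | with_reducible apply Int.or | with_reducible apply Int.not | with_reducible apply Int.imp | with_reducible apply Int.iff | with_reducible apply Int.ne | with_reducible apply Int.eq | with_reducible apply Int.mem | with_reducible apply Int.subset | with_reducible apply Int.ltN | with_reducible apply Int.leN | with_reducible_and_instances apply Int.le | with_reducible_and_instances apply Int.lt | with_reducible apply Int.all | with_reducible apply Int.ex | with_reducible apply IntF.fst | with_reducible apply IntF.snd | with_reducible apply IntF.app | with_reducible apply IntF.inl | with_reducible apply IntF.inr | with_reducible_and_instances apply IntF.mul | with_reducible_and_instances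 apply IntF.inv | with_reducible_and_instances apply IntF.add | with_reducible_and_instances apply IntF.sub | with_reducible_and_instances apply IntF.neg | with_reducible_and_instances apply IntF.smul | with_reducible apply Int.fin | with_reducible apply IntF.sep | with_reducible apply IntF.lam | with_reducible apply IntF.insert | with_reducible apply IntF.singleton | with_reducible apply IntF.union | with_reducible apply IntF.iimage | with_reducible apply IntF.ite | with_reducible apply IntF.the | with_reducible apply IntF.irec | with_reducible apply IntF.succ | with_reducible apply IntF.val | with_reducible apply IntF.mk | (with_reducible refine Int.comp ?_ ?_; assumption) | (with_reducible refine Int.comp₂ ?_ ?_ ?_; assumption) | (with_reducible refine Int.comp₃ ?_ ?_ ?_ ?_; assumption) | (with_reducible refine Int.comp₄ ?_ ?_ ?_ ?_ ?_; assumption) | (with_reducible refine IntF.comp ?_ ?_; assumption) | (with_reducible refine IntF.comp₂ ?_ ?_ ?_; assumption) | (with_reducible refine IntF.comp₃ ?_ ?_ ?_ ?_; assumption) | with_reducible apply IntF.pair))) ?_)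
        exact Int.comp (p := fun q : INat N × α => q.2 ∈ e ∧
          ∃ U : IPow N α, App g (code q.1) (code U) ∧ q.2 ∈ U)
          (f := fun q : α × INat N => (q.2, q.1)) hP (by (repeat' (first | with_reducible exact IntF.id | with_reducible exact IntF.fst' | with_reducible exact IntF.snd' | with_reducible exact IntF.const _ | with_reducible exact Int.const _ | assumption | with_reducible apply Int.and | with_reducible apply Int.or | with_reducible apply Int.not | with_reducible apply Int.imp | with_reducible apply Int.iff | with_reducible apply Int.ne | with_reducible apply Int.eq | with_reducible apply Int.mem | with_reducible apply Int.subset | with_reducible apply Int.ltN | with_reducible apply Int.leN | with_reducible_and_instances apply Int.le | with_reducible_and_instances apply Int.lt | with_reducible apply Int.all | with_reducible apply Int.ex | with_reducible apply IntF.fst | with_reducible apply IntF.snd | with_reducible apply IntF.app | with_reducible apply IntF.inl | with_reducible apply IntF.inr | with_reducible_and_instances apply IntF.mul | with_reducible_and_instances apply IntF.inv | with_reducible_and_instances apply IntF.add | with_reducible_and_instances apply IntF.sub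 | with_reducible_and_instances apply IntF.neg | with_reducible_and_instances apply IntF.smul | with_reducible apply Int.fin | with_reducible apply IntF.sep | with_reducible apply IntF.lam | with_reducible apply IntF.insert | with_reducible apply IntF.singleton | with_reducible apply IntF.union | with_reducible apply IntF.iimage | with_reducible apply IntF.ite | with_reducible apply IntF.the | with_reducible apply IntF.irec | with_reducible apply IntF.succ | with_reducible apply IntF.val | with_reducible apply IntF.mk | (with_reducible refine Int.comp ?_ ?_; assumption) | (with_reducible refine Int.comp₂ ?_ ?_ ?_; assumption) | (with_reducible refine Int.comp₃ ?_ ?_ ?_ ?_; assumption) | (with_reducible refine Int.comp₄ ?_ ?_ ?_ ?_ ?_; assumption) | (with_reducible refine IntF.comp ?_ ?_; assumption) | (with_reducible refine IntF.comp₂ ?_ ?_ ?_; assumption) | (with_reducible refine IntF.comp₃ ?_ ?_ ?_ ?_; assumption) | with_reducible apply IntF.pair)))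
      · have h1 : ¬ Plain.Mem (code x) (code B) := fun h1 => hxB (mem_codeM.1 h1)
        rw [hb] at h1
        have h2 : ∃ i u, App g i u ∧ Plain.Mem (code x) u := by
          by_contra h2
          exact h1 ⟨code_mem_domP x, h2⟩
        obtain ⟨i, u, hi, hxu⟩ := h2
        obtain ⟨i', y, hi', -, h3⟩ := hg.1 _ (app_iff.1 hi)
        obtain ⟨h4, h5⟩ := op_inj (ordPair_iff.1 h3)
        subst h4
        obtain ⟨k, hk, rfl⟩ := mem_nat (n := n) (z := i) hi'
        obtain ⟨U, hU, hgU', hu⟩ := hgU k hk
        obtain ⟨u', hu', huu⟩ := hg.2 _ hi'
        have h6 : u = code U := (huu _ hi).trans (huu _ hgU').symm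
        rw [h6] at hxu
        exact ⟨k, hk, hx, U, hgU', mem_codeM.1 hxu⟩

omit h in
theorem val2_iff {f n t v : N} : Val2 f n t v ↔ Mem (op (op n t) v) f := by
  constructor
  · rintro ⟨p, h1, h2⟩
    rw [ordPair_iff.1 h1] at h2
    exact app_iff.1 h2
  · intro h1
    exact ⟨_, ordPair_iff.2 rfl, app_iff.2 h1⟩

omit h in
theorem int_val2 (f : N) : Int N (fun q : (INat N × IPow N (INat N)) × IPow N (IPow N α) =>
    Val2 f (code q.1.1) (code q.1.2) (code q.2)) := ⟨f, fun q => val2_iff.symm⟩

omit h in
theorem isNode_code {n : INat N} {t : IPow N (INat N)} (hn : 0 < n) (ht : Sb n t) :
    IsNode (code (M := N) n) (code (M := N) t) := by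
  refine ⟨natB.2 ⟨n, rfl⟩, ⟨code (M := N) (0 : INat N), hn⟩, fun k hk => ?_⟩
  obtain ⟨k, hk', rfl⟩ := mem_codeB.1 hk
  exact ht k hk'

omit h in
theorem isSucc_code (n : INat N) : IsSucc (code (M := N) n.succ) (code (M := N) n) := by
  intro z
  have h : Mem z (INat.succ n).val ↔ Mem z n.val ∨ z = n.val := INat.mem_succ
  exact h

omit h in
theorem ins_code (n : INat N) (s : IPow N (INat N)) (z : N) :
    Plain.Mem z (code (insert n s : IPow N (INat N))) ↔ Plain.Mem z (code s) ∨ z = code n := by
  refine mem_codeB.trans ⟨?_, ?_⟩
  · rintro ⟨k, hk, rfl⟩
    rcases mem_insert.1 hk with rfl | hk
    · exact Or.inr rfl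
    · exact Or.inl (mem_codeM.2 hk)
  · rintro (hz | rfl)
    · obtain ⟨k, hk, rfl⟩ := mem_codeB.1 hz
      exact ⟨k, mem_insert.2 (Or.inr hk), rfl⟩
    · exact ⟨n, mem_insert.2 (Or.inl rfl), rfl⟩

theorem FB2.not_dyadic : ¬ DyadicallyFilterbaseInfinite (dom N α) := by
  rintro ⟨f, h1, h2, h3, -⟩
  have hV := int_val2 (α := α) f
  have hval : ∀ (n : INat N) (t : IPow N (INat N)), 0 < n → Sb n t → ∃ V : IPow N (IPow N α),
      Val2 f (code n) (code t) (code V) ∧ Modd V ∧
        ∀ V' : IPow N (IPow N α), Val2 f (code n) (code t) (code V') → V' = V := by
    intro n t hn ht
    obtain ⟨v, hv, hu⟩ := h1 _ _ (isNode_code hn ht)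
    obtain ⟨V, rfl, hV⟩ := (h2 _ _ _ (isNode_code hn ht) hv).code
    exact ⟨V, hv, hV, fun V' hV' => ITy.inj (hu _ hV')⟩
  refine h.no_dy (D := fun q => ∃ V : IPow N (IPow N α),
    Val2 f (code q.1.1) (code q.1.2) (code V) ∧ q.2 ∈ V) ⟨?_, ?_, ?_, ?_, ?_⟩
  · refine Int.ex (Int.and ?_ (by (repeat' (first | with_reducible exact IntF.id | with_reducible exact IntF.fst' | with_reducible exact IntF.snd' | with_reducible exact IntF.const _ | with_reducible exact Int.const _ | assumption | with_reducible apply Int.and | with_reducible apply Int.or | with_reducible apply Int.not | with_reducible apply Int.imp | with_reducible apply Int.iff | with_reducible apply Int.ne | with_reducible apply Int.eq | with_reducible apply Int.mem | with_reducible apply Int.subset | with_reducible apply Int.ltN | with_reducible apply Int.leN | with_reducible_and_instances apply Int.le | with_reducible_and_instances apply Int.lt | with_reducible apply Int.all | with_reducible apply Int.ex | with_reducible apply IntF.fst | with_reducible apply IntF.snd | with_reducible apply IntF.app | with_reducible apply IntF.inl | with_reducible apply IntF.inr | with_reducible_and_instances apply IntF.mul | with_reducible_and_instances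 apply IntF.inv | with_reducible_and_instances apply IntF.add | with_reducible_and_instances apply IntF.sub | with_reducible_and_instances apply IntF.neg | with_reducible_and_instances apply IntF.smul | with_reducible apply Int.fin | with_reducible apply IntF.sep | with_reducible apply IntF.lam | with_reducible apply IntF.insert | with_reducible apply IntF.singleton | with_reducible apply IntF.union | with_reducible apply IntF.iimage | with_reducible apply IntF.ite | with_reducible apply IntF.the | with_reducible apply IntF.irec | with_reducible apply IntF.succ | with_reducible apply IntF.val | with_reducible apply IntF.mk | (with_reducible refine Int.comp ?_ ?_; assumption) | (with_reducible refine Int.comp₂ ?_ ?_ ?_; assumption) | (with_reducible refine Int.comp₃ ?_ ?_ ?_ ?_; assumption) | (with_reducible refine Int.comp₄ ?_ ?_ ?_ ?_ ?_; assumption) | (with_reducible refine IntF.comp ?_ ?_; assumption) | (with_reducible refine IntF.comp₂ ?_ ?_ ?_; assumption) | (with_reducible refine IntF.comp₃ ?_ ?_ ?_ ?_; assumption) | with_reducible apply IntF.pair))))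
    exact Int.comp (p := fun q : (INat N × IPow N (INat N)) × IPow N (IPow N α) =>
      Val2 f (code q.1.1) (code q.1.2) (code q.2))
      (f := fun q : ((INat N × IPow N (INat N)) × IPow N α) × IPow N (IPow N α) => (q.1.1, q.2))
      hV (by (repeat' (first | with_reducible exact IntF.id | with_reducible exact IntF.fst' | with_reducible exact IntF.snd' | with_reducible exact IntF.const _ | with_reducible exact Int.const _ | assumption | with_reducible apply Int.and | with_reducible apply Int.or | with_reducible apply Int.not | with_reducible apply Int.imp | with_reducible apply Int.iff | with_reducible apply Int.ne | with_reducible apply Int.eq | with_reducible apply Int.mem | with_reducible apply Int.subset | with_reducible apply Int.ltN | with_reducible apply Int.leN | with_reducible_and_instances apply Int.le | with_reducible_and_instances apply Int.lt | with_reducible apply Int.all | with_reducible apply Int.ex | with_reducible apply IntF.fst | with_reducible apply IntF.snd | with_reducible apply IntF.app | with_reducible apply IntF.inl | with_reducible apply IntF.inr | with_reducible_and_instances apply IntF.mul | with_reducible_and_instances apply IntF.inv | with_reducible_and_instances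 apply IntF.add | with_reducible_and_instances apply IntF.sub | with_reducible_and_instances apply IntF.neg | with_reducible_and_instances apply IntF.smul | with_reducible apply Int.fin | with_reducible apply IntF.sep | with_reducible apply IntF.lam | with_reducible apply IntF.insert | with_reducible apply IntF.singleton | with_reducible apply IntF.union | with_reducible apply IntF.iimage | with_reducible apply IntF.ite | with_reducible apply IntF.the | with_reducible apply IntF.irec | with_reducible apply IntF.succ | with_reducible apply IntF.val | with_reducible apply IntF.mk | (with_reducible refine Int.comp ?_ ?_; assumption) | (with_reducible refine Int.comp₂ ?_ ?_ ?_; assumption) | (with_reducible refine Int.comp₃ ?_ ?_ ?_ ?_; assumption) | (with_reducible refine Int.comp₄ ?_ ?_ ?_ ?_ ?_; assumption) | (with_reducible refine IntF.comp ?_ ?_; assumption) | (with_reducible refine IntF.comp₂ ?_ ?_ ?_; assumption) | (with_reducible refine IntF.comp₃ ?_ ?_ ?_ ?_; assumption) | with_reducible apply IntF.pair)))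
  · intro n t hn ht
    obtain ⟨V, h4, h5, -⟩ := hval n t hn ht
    obtain ⟨U, hU⟩ := h5.ne
    exact ⟨U, V, h4, hU⟩
  · rintro n t U hn ht ⟨V', h6, hU⟩
    obtain ⟨V, h4, h5, h7⟩ := hval n t hn ht
    rw [h7 V' h6] at hU
    exact h5.inf U hU
  · rintro n t U U' hn ht ⟨V', h6, hU⟩ ⟨V'', h6', hU'⟩
    obtain ⟨V, h4, h5, h7⟩ := hval n t hn ht
    rw [h7 V' h6] at hU
    rw [h7 V'' h6'] at hU'
    exact h5.diff U U' hU hU'
  · rintro n s t W G hn hs ht hst ⟨V, h4, hW⟩ ⟨V', h5, hG⟩
    obtain ⟨V₀, h6, h7, -⟩ := hval n.succ s (pos_succ n) hs.succ
    obtain ⟨V₁, h8, h9, -⟩ := hval n.succ (insert n s) (pos_succ n) hs.ins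
    obtain ⟨u, u', h10, h11, h12, h13⟩ := h3 _ _ _ _ _ (isNode_code hn hs) (isNode_code hn ht)
      (fun e => hst (ITy.inj e)) (isSucc_code n) (ins_code n s) _ _ h4 h5 _ _ (mem_codeM.2 hW)
      (mem_codeM.2 hG) _ _ h6 h8
    obtain ⟨U, hU, rfl⟩ := mem_codeB.1 h10
    obtain ⟨U', hU', rfl⟩ := mem_codeB.1 h11
    refine ⟨U, U', ⟨V₀, h6, hU⟩, ⟨V₁, h8, hU'⟩, fin_of_isFinite (h12 _ fun z => ?_),
      fin_of_isFinite (h13 _ fun z => ?_)⟩
    · refine ((isDiff_code (w := code ((U ∪ U') \ W))).2 rfl z).trans (and_congr ?_ Iff.rfl)
      exact (isUnion_code (w := code (U ∪ U'))).2 rfl z
    · refine ((isInter_code (w := code ((U ∪ U') ∩ G))).2 rfl z).trans (and_congr ?_ Iff.rfl)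
      exact (isUnion_code (w := code (U ∪ U'))).2 rfl z

end

section

attribute [local instance] Helper672.Plain.toL

theorem sd_of_rep {M : Type u} [L.Structure M] [IsModel M] {N : Type u} [LSet.Structure N]
    [hZ : Helper672.Plain.Zermelo N] (h : HasRep M (R17 (M := M)) N) :
    ∃ x : N, StronglyFilterbaseInfinite x ∧ ¬ DyadicallyFilterbaseInfinite x := by
  letI : IsModel N := Helper672.Plain.isModel_toL
  obtain ⟨r⟩ := h
  obtain ⟨R, Fc, hR⟩ := fb2 r
  exact ⟨dom N r.α, hR.strongly, hR.not_dyadic⟩

end

theorem exists_sd (M : Type u) [LSet.Structure M] (hM : ZF M) :
    ∃ (N : Type u) (_ : LSet.Structure N), ZF N ∧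
      ∃ x : N, StronglyFilterbaseInfinite x ∧ ¬ DyadicallyFilterbaseInfinite x :=
  exists_of_rep (P := fun N _ => ∃ x : N, StronglyFilterbaseInfinite x ∧
    ¬ DyadicallyFilterbaseInfinite x)
    (fun M _ _ _ => ⟨B17 M, INat M ⊕ INat M, inferInstance, inferInstance, R17, int_R17,
      fun N _ _ h => sd_of_rep h⟩) M hM

end Pool.Agent.V11257G
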