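import Pool.Agent.V11257.Mf14

/-!
# A dyadic system in a model: the third structure
-/

set_option maxHeartbeats 1000000
set_option linter.all false
set_option synthInstance.maxSize 2000

namespace Pool.Agent.V11257G

open FirstOrder FirstOrder.Language
open Pool.Agent.Helper672.ZFA
open Pool.Agent.Helper672.ZFA.V246
open Pool.Agent.Helper672.Plain (LSet)
open Pool.Agent.H310
open Pool.Agent.V11246
open Pool.Agent.V11257P

universe u

/-- The structure in the model. -/
structure FB3 (N : Type u) [L.Structure N] [IsModel N] (α : Type u) [ITy N α]
    (D : (INat N × IPow N (INat N)) × IPow N α → Prop) : Prop where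
  int : Int N D
  ne : ∀ n t, ∃ U, D ((n, t), U)
  diff : ∀ n t U U', D ((n, t), U) → D ((n, t), U') → IFin (U \ U')
  ext : ∀ n t U U', D ((n, t), U) → IFin (U \ U') → IFin (U' \ U) → D ((n, t), U')
  inf : ∀ n t U, D ((n, t), U) → ¬ IFin U
  child0 : ∀ n t W U, D ((n, t), W) → D ((n.succ, t), U) → IFin (U \ W)
  child1 : ∀ n t W U, D ((n, t), W) → D ((n.succ, insert n t), U) → IFin (U \ W)
  dis : ∀ n s t U G, Sb n s → Sb n t → s ≠ t → D ((n, s), U) → D ((n, t), G) → IFin (U ∩ G)
  cover : ∀ n, ∃ K : IPow N (IPow N α), IFin K ∧ ∀ x, ∃ C t, C ∈ K ∧ x ∈ C ∧ Sb n t ∧ D ((n, t), C)
  supp : ∀ W : α × INat N → Prop, Int N W → ∃ s : IPow N (IPow N α), IFin s ∧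
    ∀ x y, Cl s x y → ∀ n, W (x, n) → W (y, n)

section

variable {M : Type u} [L.Structure M] [hM : IsModel M]

variable (M) in
/-- The points. -/
abbrev B21 : Type u := IPow M (INat M)

/-- Equality below `n`. -/
def Eb (n : INat M) (x s : IPow M (INat M)) : Prop := ∀ k, k < n → (k ∈ x ↔ k ∈ s)

theorem int_Eb : Int M (fun q : (INat M × IPow M (INat M)) × IPow M (INat M) =>
    Eb q.1.1 q.1.2 q.2) := by
  unfold Eb
  (repeat' (first | with_reducible exact IntF.id | with_reducible exact IntF.fst' | with_reducible exact IntF.snd' | with_reducible exact IntF.const _ | with_reducible exact Int.const _ | assumption | with_reducible apply Int.and | with_reducible apply Int.or | with_reducible apply Int.not | with_reducible apply Int.imp | with_reducible apply Int.iff | with_reducible apply Int.ne | with_reducible apply Int.eq | with_reducible apply Int.mem | with_reducible apply Int.subset | with_reducible apply Int.ltN | with_reducible apply Int.leN | with_reducible_and_instances apply Int.le | with_reducible_and_instances apply Int.lt | with_reducible apply Int.all | with_reducible apply Int.ex | with_reducible apply IntF.fst | with_reducible apply IntF.snd | with_reducible apply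 IntF.app | with_reducible apply IntF.inl | with_reducible apply IntF.inr | with_reducible_and_instances apply IntF.mul | with_reducible_and_instances apply IntF.inv | with_reducible_and_instances apply IntF.add | with_reducible_and_instances apply IntF.sub | with_reducible_and_instances apply IntF.neg | with_reducible_and_instances apply IntF.smul | with_reducible apply Int.fin | with_reducible apply IntF.sep | with_reducible apply IntF.lam | with_reducible apply IntF.insert | with_reducible apply IntF.singleton | with_reducible apply IntF.union | with_reducible apply IntF.iimage | with_reducible apply IntF.ite | with_reducible apply IntF.the | with_reducible apply IntF.irec | with_reducible apply IntF.succ | with_reducible apply IntF.val | with_reducible apply IntF.mk | (with_reducible refine Int.comp ?_ ?_; assumption) | (with_reducible refine Int.comp₂ ?_ ?_ ?_; assumption) | (with_reducible refine Int.comp₃ ?_ ?_ ?_ ?_; assumption) | (with_reducible refine Int.comp₄ ?_ ?_ ?_ ?_ ?_; assumption) | (with_reducible refine IntF.comp ?_ ?_; assumption) | (with_reducible refine IntF.comp₂ ?_ ?_ ?_; assumption) | (with_reducible refine IntF.comp₃ ?_ ?_ ?_ ?_; assumption) | with_reducible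 apply IntF.pair))

/-- The relation. -/
def R21 (q : IPow M (B21 M) × (INat M × IPow M (INat M))) : Prop :=
  IFin (sep M fun x : B21 M => ¬ (x ∈ q.1 ↔ Eb q.2.1 x q.2.2))

theorem int_R21 : Int M (R21 (M := M)) := by
  unfold R21 Eb
  (repeat' (first | with_reducible exact IntF.id | with_reducible exact IntF.fst' | with_reducible exact IntF.snd' | with_reducible exact IntF.const _ | with_reducible exact Int.const _ | assumption | with_reducible apply Int.and | with_reducible apply Int.or | with_reducible apply Int.not | with_reducible apply Int.imp | with_reducible apply Int.iff | with_reducible apply Int.ne | with_reducible apply Int.eq | with_reducible apply Int.mem | with_reducible apply Int.subset | with_reducible apply Int.ltN | with_reducible apply Int.leN | with_reducible_and_instances apply Int.le | with_reducible_and_instances apply Int.lt | with_reducible apply Int.all | with_reducible apply Int.ex | with_reducible apply IntF.fst | with_reducible apply IntF.snd | with_reducible apply IntF.app | with_reducible apply IntF.inl | with_reducible apply IntF.inr | with_reducible_and_instances apply IntF.mul | with_reducible_and_instances apply IntF.inv | with_reducible_and_instances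 apply IntF.add | with_reducible_and_instances apply IntF.sub | with_reducible_and_instances apply IntF.neg | with_reducible_and_instances apply IntF.smul | with_reducible apply Int.fin | with_reducible apply IntF.sep | with_reducible apply IntF.lam | with_reducible apply IntF.insert | with_reducible apply IntF.singleton | with_reducible apply IntF.union | with_reducible apply IntF.iimage | with_reducible apply IntF.ite | with_reducible apply IntF.the | with_reducible apply IntF.irec | with_reducible apply IntF.succ | with_reducible apply IntF.val | with_reducible apply IntF.mk | (with_reducible refine Int.comp ?_ ?_; assumption) | (with_reducible refine Int.comp₂ ?_ ?_ ?_; assumption) | (with_reducible refine Int.comp₃ ?_ ?_ ?_ ?_; assumption) | (with_reducible refine Int.comp₄ ?_ ?_ ?_ ?_ ?_; assumption) | (with_reducible refine IntF.comp ?_ ?_; assumption) | (with_reducible refine IntF.comp₂ ?_ ?_ ?_; assumption) | (with_reducible refine IntF.comp₃ ?_ ?_ ?_ ?_; assumption) | with_reducible apply IntF.pair))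

theorem int21 (B : IPow M (B21 M)) (n : INat M) (s : IPow M (INat M)) :
    Int M (fun x : B21 M => ¬ (x ∈ B ↔ Eb n x s)) := by
  unfold Eb
  (repeat' (first | with_reducible exact IntF.id | with_reducible exact IntF.fst' | with_reducible exact IntF.snd' | with_reducible exact IntF.const _ | with_reducible exact Int.const _ | assumption | with_reducible apply Int.and | with_reducible apply Int.or | with_reducible apply Int.not | with_reducible apply Int.imp | with_reducible apply Int.iff | with_reducible apply Int.ne | with_reducible apply Int.eq | with_reducible apply Int.mem | with_reducible apply Int.subset | with_reducible apply Int.ltN | with_reducible apply Int.leN | with_reducible_and_instances apply Int.le | with_reducible_and_instances apply Int.lt | with_reducible apply Int.all | with_reducible apply Int.ex | with_reducible apply IntF.fst | with_reducible apply IntF.snd | with_reducible apply IntF.app | with_reducible apply IntF.inl | with_reducible apply IntF.inr | with_reducible_and_instances apply IntF.mul | with_reducible_and_instances apply IntF.inv | with_reducible_and_instances apply IntF.add | with_reducible_and_instances apply IntF.sub | with_reducible_and_instances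 apply IntF.neg | with_reducible_and_instances apply IntF.smul | with_reducible apply Int.fin | with_reducible apply IntF.sep | with_reducible apply IntF.lam | with_reducible apply IntF.insert | with_reducible apply IntF.singleton | with_reducible apply IntF.union | with_reducible apply IntF.iimage | with_reducible apply IntF.ite | with_reducible apply IntF.the | with_reducible apply IntF.irec | with_reducible apply IntF.succ | with_reducible apply IntF.val | with_reducible apply IntF.mk | (with_reducible refine Int.comp ?_ ?_; assumption) | (with_reducible refine Int.comp₂ ?_ ?_ ?_; assumption) | (with_reducible refine Int.comp₃ ?_ ?_ ?_ ?_; assumption) | (with_reducible refine Int.comp₄ ?_ ?_ ?_ ?_ ?_; assumption) | (with_reducible refine IntF.comp ?_ ?_; assumption) | (with_reducible refine IntF.comp₂ ?_ ?_ ?_; assumption) | (with_reducible refine IntF.comp₃ ?_ ?_ ?_ ?_; assumption) | with_reducible apply IntF.pair))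

theorem int21e (n : INat M) (s : IPow M (INat M)) : Int M (fun x : B21 M => Eb n x s) := by
  unfold Eb
  (repeat' (first | with_reducible exact IntF.id | with_reducible exact IntF.fst' | with_reducible exact IntF.snd' | with_reducible exact IntF.const _ | with_reducible exact Int.const _ | assumption | with_reducible apply Int.and | with_reducible apply Int.or | with_reducible apply Int.not | with_reducible apply Int.imp | with_reducible apply Int.iff | with_reducible apply Int.ne | with_reducible apply Int.eq | with_reducible apply Int.mem | with_reducible apply Int.subset | with_reducible apply Int.ltN | with_reducible apply Int.leN | with_reducible_and_instances apply Int.le | with_reducible_and_instances apply Int.lt | with_reducible apply Int.all | with_reducible apply Int.ex | with_reducible apply IntF.fst | with_reducible apply IntF.snd | with_reducible apply IntF.app | with_reducible apply IntF.inl | with_reducible apply IntF.inr | with_reducible_and_instances apply IntF.mul | with_reducible_and_instances apply IntF.inv | with_reducible_and_instances apply IntF.add | with_reducible_and_instances apply IntF.sub | with_reducible_and_instances apply IntF.neg | with_reducible_and_instances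 apply IntF.smul | with_reducible apply Int.fin | with_reducible apply IntF.sep | with_reducible apply IntF.lam | with_reducible apply IntF.insert | with_reducible apply IntF.singleton | with_reducible apply IntF.union | with_reducible apply IntF.iimage | with_reducible apply IntF.ite | with_reducible apply IntF.the | with_reducible apply IntF.irec | with_reducible apply IntF.succ | with_reducible apply IntF.val | with_reducible apply IntF.mk | (with_reducible refine Int.comp ?_ ?_; assumption) | (with_reducible refine Int.comp₂ ?_ ?_ ?_; assumption) | (with_reducible refine Int.comp₃ ?_ ?_ ?_ ?_; assumption) | (with_reducible refine Int.comp₄ ?_ ?_ ?_ ?_ ?_; assumption) | (with_reducible refine IntF.comp ?_ ?_; assumption) | (with_reducible refine IntF.comp₂ ?_ ?_ ?_; assumption) | (with_reducible refine IntF.comp₃ ?_ ?_ ?_ ?_; assumption) | with_reducible apply IntF.pair))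

theorem adm21_swf (x y : B21 M) : Adm M R21 (swf x y) := by
  have hI := int_swf (M := M) x y
  refine ⟨hI, swf_swf x y, fun B v hB => ?_⟩
  obtain ⟨n, s⟩ := v
  change IFin (sep M fun x : B21 M => ¬ (x ∈ B ↔ Eb n x s)) at hB
  change IFin (sep M fun z : B21 M => ¬ (z ∈ im (swf x y) B ↔ Eb n z s))
  refine ((hB.insert x).insert y).subset fun z hz => ?_
  rw [mem_sep (int21 _ _ _), mem_im hI] at hz
  rw [mem_insert, mem_insert, mem_sep (int21 _ _ _)]
  by_cases h1 : z = y
  · exact Or.inl h1
  · by_cases h2 : z = x
    · exact Or.inr (Or.inl h2)
    · rw [swf_of_ne h2 h1] at hz
      exact Or.inr (Or.inr hz)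

theorem not_fin_Eb (n : INat M) (s : IPow M (INat M)) {K : IPow M (B21 M)} (hK : IFin K)
    (h : ∀ x, Eb n x s → x ∈ K) : False := by
  have hu : IntF M (fun k : INat M => sep M fun i => (i < n ∧ i ∈ s) ∨ i = n + k) := by (repeat' (first | with_reducible exact IntF.id | with_reducible exact IntF.fst' | with_reducible exact IntF.snd' | with_reducible exact IntF.const _ | with_reducible exact Int.const _ | assumption | with_reducible apply Int.and | with_reducible apply Int.or | with_reducible apply Int.not | with_reducible apply Int.imp | with_reducible apply Int.iff | with_reducible apply Int.ne | with_reducible apply Int.eq | with_reducible apply Int.mem | with_reducible apply Int.subset | with_reducible apply Int.ltN | with_reducible apply Int.leN | with_reducible_and_instances apply Int.le | with_reducible_and_instances apply Int.lt | with_reducible apply Int.all | with_reducible apply Int.ex | with_reducible apply IntF.fst | with_reducible apply IntF.snd | with_reducible apply IntF.app | with_reducible apply IntF.inl | with_reducible apply IntF.inr | with_reducible_and_instances apply IntF.mul | with_reducible_and_instances apply IntF.inv | with_reducible_and_instances apply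 IntF.add | with_reducible_and_instances apply IntF.sub | with_reducible_and_instances apply IntF.neg | with_reducible_and_instances apply IntF.smul | with_reducible apply Int.fin | with_reducible apply IntF.sep | with_reducible apply IntF.lam | with_reducible apply IntF.insert | with_reducible apply IntF.singleton | with_reducible apply IntF.union | with_reducible apply IntF.iimage | with_reducible apply IntF.ite | with_reducible apply IntF.the | with_reducible apply IntF.irec | with_reducible apply IntF.succ | with_reducible apply IntF.val | with_reducible apply IntF.mk | (with_reducible refine Int.comp ?_ ?_; assumption) | (with_reducible refine Int.comp₂ ?_ ?_ ?_; assumption) | (with_reducible refine Int.comp₃ ?_ ?_ ?_ ?_; assumption) | (with_reducible refine Int.comp₄ ?_ ?_ ?_ ?_ ?_; assumption) | (with_reducible refine IntF.comp ?_ ?_; assumption) | (with_reducible refine IntF.comp₂ ?_ ?_ ?_; assumption) | (with_reducible refine IntF.comp₃ ?_ ?_ ?_ ?_; assumption) | with_reducible apply IntF.pair))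
  have hI : ∀ k, Int M (fun i => (i < n ∧ i ∈ s) ∨ i = n + k) := by
    intro k
    (repeat' (first | with_reducible exact IntF.id | with_reducible exact IntF.fst' | with_reducible exact IntF.snd' | with_reducible exact IntF.const _ | with_reducible exact Int.const _ | assumption | with_reducible apply Int.and | with_reducible apply Int.or | with_reducible apply Int.not | with_reducible apply Int.imp | with_reducible apply Int.iff | with_reducible apply Int.ne | with_reducible apply Int.eq | with_reducible apply Int.mem | with_reducible apply Int.subset | with_reducible apply Int.ltN | with_reducible apply Int.leN | with_reducible_and_instances apply Int.le | with_reducible_and_instances apply Int.lt | with_reducible apply Int.all | with_reducible apply Int.ex | with_reducible apply IntF.fst | with_reducible apply IntF.snd | with_reducible apply IntF.app | with_reducible apply IntF.inl | with_reducible apply IntF.inr | with_reducible_and_instances apply IntF.mul | with_reducible_and_instances apply IntF.inv | with_reducible_and_instances apply IntF.add | with_reducible_and_instances apply IntF.sub | with_reducible_and_instances apply IntF.neg | with_reducible_and_instances apply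 IntF.smul | with_reducible apply Int.fin | with_reducible apply IntF.sep | with_reducible apply IntF.lam | with_reducible apply IntF.insert | with_reducible apply IntF.singleton | with_reducible apply IntF.union | with_reducible apply IntF.iimage | with_reducible apply IntF.ite | with_reducible apply IntF.the | with_reducible apply IntF.irec | with_reducible apply IntF.succ | with_reducible apply IntF.val | with_reducible apply IntF.mk | (with_reducible refine Int.comp ?_ ?_; assumption) | (with_reducible refine Int.comp₂ ?_ ?_ ?_; assumption) | (with_reducible refine Int.comp₃ ?_ ?_ ?_ ?_; assumption) | (with_reducible refine Int.comp₄ ?_ ?_ ?_ ?_ ?_; assumption) | (with_reducible refine IntF.comp ?_ ?_; assumption) | (with_reducible refine IntF.comp₂ ?_ ?_ ?_; assumption) | (with_reducible refine IntF.comp₃ ?_ ?_ ?_ ?_; assumption) | with_reducible apply IntF.pair))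
  have hle : ∀ k : INat M, ¬ n + k < n := fun k h => lt_irrefl _ (lt_of_le_of_lt (le_add_r n k) h)
  refine not_fin_range hu (fun j k hjk => ?_) hK fun k => h _ fun i hi => ?_
  · have h1 : n + j ∈ sep M (fun i => (i < n ∧ i ∈ s) ∨ i = n + j) :=
      (mem_sep (hI j)).2 (Or.inr rfl)
    rw [hjk, mem_sep (hI k)] at h1
    rcases h1 with h1 | h1
    · exact absurd h1.1 (hle j)
    · exact add_left_cancel h1
  · rw [mem_sep (hI k)]
    constructor
    · rintro (h1 | h1)
      · exact h1.2
      · rw [h1] at hi
        exact absurd hi (hle k)
    · exact fun h1 => Or.inl ⟨hi, h1⟩

variable {N : Type u} [L.Structure N] [IsModel N]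

/-- The relations in the model. -/
structure FB3M (r : Rep M N (B21 M) (INat M × IPow M (INat M)) R21)
    (D : (INat N × IPow N (INat N)) × IPow N r.α → Prop) : Prop where
  int : Int N D
  tr : ∀ (n : INat M) (t : IPow N (INat N)), ∃ s : IPow M (INat M), ∀ k, k < n →
    (r.nn k ∈ t ↔ k ∈ s)
  rt : ∀ (n : INat M) (s : IPow M (INat M)), ∃ t : IPow N (INat N), Sb (r.nn n) t ∧ ∀ k, k < n →
    (r.nn k ∈ t ↔ k ∈ s)
  hD : ∀ B n t s, (∀ k, k < n → (r.nn k ∈ t ↔ k ∈ s)) → (D ((r.nn n, t), r.st B) ↔
    IFin (sep M fun x : B21 M => ¬ (x ∈ B ↔ Eb n x s)))

theorem exists_fb3m (r : Rep M N (B21 M) (INat M × IPow M (INat M)) R21) : ∃ D, FB3M r D := by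
  have hm := r.intm
  have hRi := r.intR
  have hex : IntF N (ex (N := N) r.mem) := int_ex hm
  obtain ⟨T, hT, hT'⟩ := r.relv (fun q => q.2.1 = q.1) (by (repeat' (first | with_reducible exact IntF.id | with_reducible exact IntF.fst' | with_reducible exact IntF.snd' | with_reducible exact IntF.const _ | with_reducible exact Int.const _ | assumption | with_reducible apply Int.and | with_reducible apply Int.or | with_reducible apply Int.not | with_reducible apply Int.imp | with_reducible apply Int.iff | with_reducible apply Int.ne | with_reducible apply Int.eq | with_reducible apply Int.mem | with_reducible apply Int.subset | with_reducible apply Int.ltN | with_reducible apply Int.leN | with_reducible_and_instances apply Int.le | with_reducible_and_instances apply Int.lt | with_reducible apply Int.all | with_reducible apply Int.ex | with_reducible apply IntF.fst | with_reducible apply IntF.snd | with_reducible apply IntF.app | with_reducible apply IntF.inl | with_reducible apply IntF.inr | with_reducible_and_instances apply IntF.mul | with_reducible_and_instances apply IntF.inv | with_reducible_and_instances apply IntF.add | with_reducible_and_instances apply IntF.sub | with_reducible_and_instances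 apply IntF.neg | with_reducible_and_instances apply IntF.smul | with_reducible apply Int.fin | with_reducible apply IntF.sep | with_reducible apply IntF.lam | with_reducible apply IntF.insert | with_reducible apply IntF.singleton | with_reducible apply IntF.union | with_reducible apply IntF.iimage | with_reducible apply IntF.ite | with_reducible apply IntF.the | with_reducible apply IntF.irec | with_reducible apply IntF.succ | with_reducible apply IntF.val | with_reducible apply IntF.mk | (with_reducible refine Int.comp ?_ ?_; assumption) | (with_reducible refine Int.comp₂ ?_ ?_ ?_; assumption) | (with_reducible refine Int.comp₃ ?_ ?_ ?_ ?_; assumption) | (with_reducible refine Int.comp₄ ?_ ?_ ?_ ?_ ?_; assumption) | (with_reducible refine IntF.comp ?_ ?_; assumption) | (with_reducible refine IntF.comp₂ ?_ ?_ ?_; assumption) | (with_reducible refine IntF.comp₃ ?_ ?_ ?_ ?_; assumption) | with_reducible apply IntF.pair)))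
  obtain ⟨T2, hT2, hT2'⟩ := r.relv (fun q => q.1 ∈ q.2.2) (by (repeat' (first | with_reducible exact IntF.id | with_reducible exact IntF.fst' | with_reducible exact IntF.snd' | with_reducible exact IntF.const _ | with_reducible exact Int.const _ | assumption | with_reducible apply Int.and | with_reducible apply Int.or | with_reducible apply Int.not | with_reducible apply Int.imp | with_reducible apply Int.iff | with_reducible apply Int.ne | with_reducible apply Int.eq | with_reducible apply Int.mem | with_reducible apply Int.subset | with_reducible apply Int.ltN | with_reducible apply Int.leN | with_reducible_and_instances apply Int.le | with_reducible_and_instances apply Int.lt | with_reducible apply Int.all | with_reducible apply Int.ex | with_reducible apply IntF.fst | with_reducible apply IntF.snd | with_reducible apply IntF.app | with_reducible apply IntF.inl | with_reducible apply IntF.inr | with_reducible_and_instances apply IntF.mul | with_reducible_and_instances apply IntF.inv | with_reducible_and_instances apply IntF.add | with_reducible_and_instances apply IntF.sub | with_reducible_and_instances apply IntF.neg | with_reducible_and_instances apply IntF.smul | with_reducible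 apply Int.fin | with_reducible apply IntF.sep | with_reducible apply IntF.lam | with_reducible apply IntF.insert | with_reducible apply IntF.singleton | with_reducible apply IntF.union | with_reducible apply IntF.iimage | with_reducible apply IntF.ite | with_reducible apply IntF.the | with_reducible apply IntF.irec | with_reducible apply IntF.succ | with_reducible apply IntF.val | with_reducible apply IntF.mk | (with_reducible refine Int.comp ?_ ?_; assumption) | (with_reducible refine Int.comp₂ ?_ ?_ ?_; assumption) | (with_reducible refine Int.comp₃ ?_ ?_ ?_ ?_; assumption) | (with_reducible refine Int.comp₄ ?_ ?_ ?_ ?_ ?_; assumption) | (with_reducible refine IntF.comp ?_ ?_; assumption) | (with_reducible refine IntF.comp₂ ?_ ?_ ?_; assumption) | (with_reducible refine IntF.comp₃ ?_ ?_ ?_ ?_; assumption) | with_reducible apply IntF.pair)))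
  have i1 : Int N (fun q : (INat N × IPow N (INat N)) × IPow N r.α => ∃ d v, q.2 = ex r.mem d ∧
      T (q.1.1, v) ∧ (∀ k, k < q.1.1 → (k ∈ q.1.2 ↔ T2 (k, v))) ∧ r.Rr (d, v)) := by (repeat' (first | with_reducible exact IntF.id | with_reducible exact IntF.fst' | with_reducible exact IntF.snd' | with_reducible exact IntF.const _ | with_reducible exact Int.const _ | assumption | with_reducible apply Int.and | with_reducible apply Int.or | with_reducible apply Int.not | with_reducible apply Int.imp | with_reducible apply Int.iff | with_reducible apply Int.ne | with_reducible apply Int.eq | with_reducible apply Int.mem | with_reducible apply Int.subset | with_reducible apply Int.ltN | with_reducible apply Int.leN | with_reducible_and_instances apply Int.le | with_reducible_and_instances apply Int.lt | with_reducible apply Int.all | with_reducible apply Int.ex | with_reducible apply IntF.fst | with_reducible apply IntF.snd | with_reducible apply IntF.app | with_reducible apply IntF.inl | with_reducible apply IntF.inr | with_reducible_and_instances apply IntF.mul | with_reducible_and_instances apply IntF.inv | with_reducible_and_instances apply IntF.add | with_reducible_and_instances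 apply IntF.sub | with_reducible_and_instances apply IntF.neg | with_reducible_and_instances apply IntF.smul | with_reducible apply Int.fin | with_reducible apply IntF.sep | with_reducible apply IntF.lam | with_reducible apply IntF.insert | with_reducible apply IntF.singleton | with_reducible apply IntF.union | with_reducible apply IntF.iimage | with_reducible apply IntF.ite | with_reducible apply IntF.the | with_reducible apply IntF.irec | with_reducible apply IntF.succ | with_reducible apply IntF.val | with_reducible apply IntF.mk | (with_reducible refine Int.comp ?_ ?_; assumption) | (with_reducible refine Int.comp₂ ?_ ?_ ?_; assumption) | (with_reducible refine Int.comp₃ ?_ ?_ ?_ ?_; assumption) | (with_reducible refine Int.comp₄ ?_ ?_ ?_ ?_ ?_; assumption) | (with_reducible refine IntF.comp ?_ ?_; assumption) | (with_reducible refine IntF.comp₂ ?_ ?_ ?_; assumption) | (with_reducible refine IntF.comp₃ ?_ ?_ ?_ ?_; assumption) | with_reducible apply IntF.pair))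
  -- the traces
  have h0 : ∀ (n : INat N) (t : IPow N (INat N)), ∃ v, T (n, v) ∧
      ∀ k, k < n → (k ∈ t ↔ T2 (k, v)) := by
    have hs : ∀ n v, T (n, v) → (∃ v', T (n.succ, v') ∧ (∀ k, k < n → (T2 (k, v') ↔ T2 (k, v))) ∧
        T2 (n, v')) ∧ ∃ v', T (n.succ, v') ∧ (∀ k, k < n → (T2 (k, v') ↔ T2 (k, v))) ∧
        ¬ T2 (n, v') := by
      intro n v hv
      obtain ⟨n, rfl⟩ := r.nn_surj n
      obtain ⟨v, rfl⟩ := r.cv_surj v
      obtain ⟨n', s⟩ := v
      have h1 := (hT' _ _).1 hv
      have h1 : n' = n := h1
      subst h1
      have hI : Int M (fun k => k ∈ s ∧ k ≠ n') := by (repeat' (first | with_reducible exact IntF.id | with_reducible exact IntF.fst' | with_reducible exact IntF.snd' | with_reducible exact IntF.const _ | with_reducible exact Int.const _ | assumption | with_reducible apply Int.and | with_reducible apply Int.or | with_reducible apply Int.not | with_reducible apply Int.imp | with_reducible apply Int.iff | with_reducible apply Int.ne | with_reducible apply Int.eq | with_reducible apply Int.mem | with_reducible apply Int.subset | with_reducible apply Int.ltN | with_reducible apply Int.leN | with_reducible_and_instances apply Int.le | with_reducible_and_instances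 apply Int.lt | with_reducible apply Int.all | with_reducible apply Int.ex | with_reducible apply IntF.fst | with_reducible apply IntF.snd | with_reducible apply IntF.app | with_reducible apply IntF.inl | with_reducible apply IntF.inr | with_reducible_and_instances apply IntF.mul | with_reducible_and_instances apply IntF.inv | with_reducible_and_instances apply IntF.add | with_reducible_and_instances apply IntF.sub | with_reducible_and_instances apply IntF.neg | with_reducible_and_instances apply IntF.smul | with_reducible apply Int.fin | with_reducible apply IntF.sep | with_reducible apply IntF.lam | with_reducible apply IntF.insert | with_reducible apply IntF.singleton | with_reducible apply IntF.union | with_reducible apply IntF.iimage | with_reducible apply IntF.ite | with_reducible apply IntF.the | with_reducible apply IntF.irec | with_reducible apply IntF.succ | with_reducible apply IntF.val | with_reducible apply IntF.mk | (with_reducible refine Int.comp ?_ ?_; assumption) | (with_reducible refine Int.comp₂ ?_ ?_ ?_; assumption) | (with_reducible refine Int.comp₃ ?_ ?_ ?_ ?_; assumption) | (with_reducible refine Int.comp₄ ?_ ?_ ?_ ?_ ?_; assumption) | (with_reducible refine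 IntF.comp ?_ ?_; assumption) | (with_reducible refine IntF.comp₂ ?_ ?_ ?_; assumption) | (with_reducible refine IntF.comp₃ ?_ ?_ ?_ ?_; assumption) | with_reducible apply IntF.pair))
      refine ⟨⟨r.cv (n'.succ, insert n' s), ?_, fun k hk => ?_, ?_⟩,
        ⟨r.cv (n'.succ, sep M fun k => k ∈ s ∧ k ≠ n'), ?_, fun k hk => ?_, ?_⟩⟩
      · rw [← r.nn_succ]
        exact (hT' _ _).2 rfl
      · obtain ⟨k, rfl⟩ := r.nn_surj k
        rw [r.nn_lt] at hk
        rw [hT2', hT2']
        change k ∈ (insert n' s : IPow M (INat M)) ↔ k ∈ s
        rw [mem_insert]
        exact ⟨fun h => h.resolve_left fun e => by rw [e] at hk; exact lt_irrefl _ hk, Or.inr⟩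
      · rw [hT2']
        exact mem_insert.2 (Or.inl rfl)
      · rw [← r.nn_succ]
        exact (hT' _ _).2 rfl
      · obtain ⟨k, rfl⟩ := r.nn_surj k
        rw [r.nn_lt] at hk
        rw [hT2', hT2']
        change k ∈ (sep M fun k => k ∈ s ∧ k ≠ n') ↔ k ∈ s
        rw [mem_sep hI]
        exact ⟨fun h => h.1, fun h => ⟨h, fun e => by rw [e] at hk; exact lt_irrefl _ hk⟩⟩
      · rw [hT2']
        change ¬ n' ∈ (sep M fun k => k ∈ s ∧ k ≠ n')
        rw [mem_sep hI]
        exact fun h => h.2 rfl
    refine INat.ind (p := fun n => ∀ t : IPow N (INat N), ∃ v, T (n, v) ∧
      ∀ k, k < n → (k ∈ t ↔ T2 (k, v))) (by (repeat' (first | with_reducible exact IntF.id | with_reducible exact IntF.fst' | with_reducible exact IntF.snd' | with_reducible exact IntF.const _ | with_reducible exact Int.const _ | assumption | with_reducible apply Int.and | with_reducible apply Int.or | with_reducible apply Int.not | with_reducible apply Int.imp | with_reducible apply Int.iff | with_reducible apply Int.ne | with_reducible apply Int.eq | with_reducible apply Int.mem | with_reducible apply Int.subset | with_reducible apply Int.ltN | with_reducible apply Int.leN | with_reducible_and_instances apply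 Int.le | with_reducible_and_instances apply Int.lt | with_reducible apply Int.all | with_reducible apply Int.ex | with_reducible apply IntF.fst | with_reducible apply IntF.snd | with_reducible apply IntF.app | with_reducible apply IntF.inl | with_reducible apply IntF.inr | with_reducible_and_instances apply IntF.mul | with_reducible_and_instances apply IntF.inv | with_reducible_and_instances apply IntF.add | with_reducible_and_instances apply IntF.sub | with_reducible_and_instances apply IntF.neg | with_reducible_and_instances apply IntF.smul | with_reducible apply Int.fin | with_reducible apply IntF.sep | with_reducible apply IntF.lam | with_reducible apply IntF.insert | with_reducible apply IntF.singleton | with_reducible apply IntF.union | with_reducible apply IntF.iimage | with_reducible apply IntF.ite | with_reducible apply IntF.the | with_reducible apply IntF.irec | with_reducible apply IntF.succ | with_reducible apply IntF.val | with_reducible apply IntF.mk | (with_reducible refine Int.comp ?_ ?_; assumption) | (with_reducible refine Int.comp₂ ?_ ?_ ?_; assumption) | (with_reducible refine Int.comp₃ ?_ ?_ ?_ ?_; assumption) | (with_reducible refine Int.comp₄ ?_ ?_ ?_ ?_ ?_;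 assumption) | (with_reducible refine IntF.comp ?_ ?_; assumption) | (with_reducible refine IntF.comp₂ ?_ ?_ ?_; assumption) | (with_reducible refine IntF.comp₃ ?_ ?_ ?_ ?_; assumption) | with_reducible apply IntF.pair))) ?_ ?_
    · intro t
      refine ⟨r.cv (0, ∅), ?_, fun k hk => absurd hk INat.not_lt_zero⟩
      rw [← r.nn_zero]
      exact (hT' _ _).2 rfl
    · intro n ih t
      obtain ⟨v, hv, hv'⟩ := ih t
      obtain ⟨⟨v₁, h1, h2, h3⟩, ⟨v₂, h4, h5, h6⟩⟩ := hs n v hv
      by_cases hn : n ∈ t
      · refine ⟨v₁, h1, fun k hk => ?_⟩
        rcases (INat.lt_succ_iff.1 hk).lt_or_eq with h7 | rfl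
        · exact (hv' k h7).trans (h2 k h7).symm
        · exact iff_of_true hn h3
      · refine ⟨v₂, h4, fun k hk => ?_⟩
        rcases (INat.lt_succ_iff.1 hk).lt_or_eq with h7 | rfl
        · exact (hv' k h7).trans (h5 k h7).symm
        · exact iff_of_false hn h6
  refine ⟨_, i1, fun n t => ?_, fun n s => ?_, fun B n t s hs => ?_⟩
  · obtain ⟨v, hv, hv'⟩ := h0 (r.nn n) t
    obtain ⟨v, rfl⟩ := r.cv_surj v
    refine ⟨v.2, fun k hk => ?_⟩
    rw [hv' _ (r.nn_lt.2 hk), hT2']
  · have hI : Int N (fun k => k < r.nn n ∧ T2 (k, r.cv (n, s))) := by (repeat' (first | with_reducible exact IntF.id | with_reducible exact IntF.fst' | with_reducible exact IntF.snd' | with_reducible exact IntF.const _ | with_reducible exact Int.const _ | assumption | with_reducible apply Int.and | with_reducible apply Int.or | with_reducible apply Int.not | with_reducible apply Int.imp | with_reducible apply Int.iff | with_reducible apply Int.ne | with_reducible apply Int.eq | with_reducible apply Int.mem | with_reducible apply Int.subset | with_reducible apply Int.ltN | with_reducible apply Int.leN | with_reducible_and_instances apply Int.le | with_reducible_and_instances apply Int.lt | with_reducible apply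 Int.all | with_reducible apply Int.ex | with_reducible apply IntF.fst | with_reducible apply IntF.snd | with_reducible apply IntF.app | with_reducible apply IntF.inl | with_reducible apply IntF.inr | with_reducible_and_instances apply IntF.mul | with_reducible_and_instances apply IntF.inv | with_reducible_and_instances apply IntF.add | with_reducible_and_instances apply IntF.sub | with_reducible_and_instances apply IntF.neg | with_reducible_and_instances apply IntF.smul | with_reducible apply Int.fin | with_reducible apply IntF.sep | with_reducible apply IntF.lam | with_reducible apply IntF.insert | with_reducible apply IntF.singleton | with_reducible apply IntF.union | with_reducible apply IntF.iimage | with_reducible apply IntF.ite | with_reducible apply IntF.the | with_reducible apply IntF.irec | with_reducible apply IntF.succ | with_reducible apply IntF.val | with_reducible apply IntF.mk | (with_reducible refine Int.comp ?_ ?_; assumption) | (with_reducible refine Int.comp₂ ?_ ?_ ?_; assumption) | (with_reducible refine Int.comp₃ ?_ ?_ ?_ ?_; assumption) | (with_reducible refine Int.comp₄ ?_ ?_ ?_ ?_ ?_; assumption) | (with_reducible refine IntF.comp ?_ ?_; assumption) | (with_reducible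 refine IntF.comp₂ ?_ ?_ ?_; assumption) | (with_reducible refine IntF.comp₃ ?_ ?_ ?_ ?_; assumption) | with_reducible apply IntF.pair))
    refine ⟨sep N fun k => k < r.nn n ∧ T2 (k, r.cv (n, s)), fun k hk => ((mem_sep hI).1 hk).1,
      fun k hk => ?_⟩
    rw [mem_sep hI, hT2']
    exact ⟨fun h => h.2, fun h => ⟨r.nn_lt.2 hk, h⟩⟩
  · constructor
    · rintro ⟨d, v, h1, h2, h3, h4⟩
      obtain ⟨d, rfl⟩ := r.cd_surj d
      obtain ⟨⟨n', s'⟩, rfl⟩ := r.cv_surj v
      have h2 : n' = n := (hT' _ _).1 h2
      subst h2
      rw [r.R_iff] at h4
      rw [r.st_inj h1]
      have h5 : ∀ k, k < n' → (k ∈ s ↔ k ∈ s') := fun k hk => by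
        rw [← hs k hk, h3 _ (r.nn_lt.2 hk), hT2']
      have h6 : ∀ x, Eb n' x s ↔ Eb n' x s' := fun x =>
        ⟨fun h k hk => (h k hk).trans (h5 k hk), fun h k hk => (h k hk).trans (h5 k hk).symm⟩
      have h7 : IFin (sep M fun x : B21 M => ¬ (x ∈ d ↔ Eb n' x s')) := h4
      refine h7.subset fun x hx => ?_
      rw [mem_sep (int21 _ _ _)] at hx ⊢
      rwa [← h6]
    · intro h
      refine ⟨r.cd B, r.cv (n, s), rfl, (hT' _ _).2 rfl, fun k hk => ?_, r.R_iff.2 h⟩
      obtain ⟨k, rfl⟩ := r.nn_surj k
      rw [r.nn_lt] at hk
      rw [hT2']
      exact hs k hk

variable {r : Rep M N (B21 M) (INat M × IPow M (INat M)) R21}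
  {D : (INat N × IPow N (INat N)) × IPow N r.α → Prop}

theorem diff21 (B B' : IPow M (B21 M)) : IFin (r.st B \ r.st B') ↔
    IFin (sep M fun x => x ∈ B ∧ x ∉ B') := by
  have hI : Int M (fun x => x ∈ B ∧ x ∉ B') := by (repeat' (first | with_reducible exact IntF.id | with_reducible exact IntF.fst' | with_reducible exact IntF.snd' | with_reducible exact IntF.const _ | with_reducible exact Int.const _ | assumption | with_reducible apply Int.and | with_reducible apply Int.or | with_reducible apply Int.not | with_reducible apply Int.imp | with_reducible apply Int.iff | with_reducible apply Int.ne | with_reducible apply Int.eq | with_reducible apply Int.mem | with_reducible apply Int.subset | with_reducible apply Int.ltN | with_reducible apply Int.leN | with_reducible_and_instances apply Int.le | with_reducible_and_instances apply Int.lt | with_reducible apply Int.all | with_reducible apply Int.ex | with_reducible apply IntF.fst | with_reducible apply IntF.snd | with_reducible apply IntF.app | with_reducible apply IntF.inl | with_reducible apply IntF.inr | with_reducible_and_instances apply IntF.mul | with_reducible_and_instances apply IntF.inv | with_reducible_and_instances apply IntF.add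 | with_reducible_and_instances apply IntF.sub | with_reducible_and_instances apply IntF.neg | with_reducible_and_instances apply IntF.smul | with_reducible apply Int.fin | with_reducible apply IntF.sep | with_reducible apply IntF.lam | with_reducible apply IntF.insert | with_reducible apply IntF.singleton | with_reducible apply IntF.union | with_reducible apply IntF.iimage | with_reducible apply IntF.ite | with_reducible apply IntF.the | with_reducible apply IntF.irec | with_reducible apply IntF.succ | with_reducible apply IntF.val | with_reducible apply IntF.mk | (with_reducible refine Int.comp ?_ ?_; assumption) | (with_reducible refine Int.comp₂ ?_ ?_ ?_; assumption) | (with_reducible refine Int.comp₃ ?_ ?_ ?_ ?_; assumption) | (with_reducible refine Int.comp₄ ?_ ?_ ?_ ?_ ?_; assumption) | (with_reducible refine IntF.comp ?_ ?_; assumption) | (with_reducible refine IntF.comp₂ ?_ ?_ ?_; assumption) | (with_reducible refine IntF.comp₃ ?_ ?_ ?_ ?_; assumption) | with_reducible apply IntF.pair))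
  refine r.finU adm21_swf fun x => ?_
  rw [mem_sdiff, r.mem_st, r.mem_st, mem_sep hI]

theorem inter21 (B B' : IPow M (B21 M)) : IFin (r.st B ∩ r.st B') ↔
    IFin (sep M fun x => x ∈ B ∧ x ∈ B') := by
  have hI : Int M (fun x => x ∈ B ∧ x ∈ B') := by (repeat' (first | with_reducible exact IntF.id | with_reducible exact IntF.fst' | with_reducible exact IntF.snd' | with_reducible exact IntF.const _ | with_reducible exact Int.const _ | assumption | with_reducible apply Int.and | with_reducible apply Int.or | with_reducible apply Int.not | with_reducible apply Int.imp | with_reducible apply Int.iff | with_reducible apply Int.ne | with_reducible apply Int.eq | with_reducible apply Int.mem | with_reducible apply Int.subset | with_reducible apply Int.ltN | with_reducible apply Int.leN | with_reducible_and_instances apply Int.le | with_reducible_and_instances apply Int.lt | with_reducible apply Int.all | with_reducible apply Int.ex | with_reducible apply IntF.fst | with_reducible apply IntF.snd | with_reducible apply IntF.app | with_reducible apply IntF.inl | with_reducible apply IntF.inr | with_reducible_and_instances apply IntF.mul | with_reducible_and_instances apply IntF.inv | with_reducible_and_instances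 apply IntF.add | with_reducible_and_instances apply IntF.sub | with_reducible_and_instances apply IntF.neg | with_reducible_and_instances apply IntF.smul | with_reducible apply Int.fin | with_reducible apply IntF.sep | with_reducible apply IntF.lam | with_reducible apply IntF.insert | with_reducible apply IntF.singleton | with_reducible apply IntF.union | with_reducible apply IntF.iimage | with_reducible apply IntF.ite | with_reducible apply IntF.the | with_reducible apply IntF.irec | with_reducible apply IntF.succ | with_reducible apply IntF.val | with_reducible apply IntF.mk | (with_reducible refine Int.comp ?_ ?_; assumption) | (with_reducible refine Int.comp₂ ?_ ?_ ?_; assumption) | (with_reducible refine Int.comp₃ ?_ ?_ ?_ ?_; assumption) | (with_reducible refine Int.comp₄ ?_ ?_ ?_ ?_ ?_; assumption) | (with_reducible refine IntF.comp ?_ ?_; assumption) | (with_reducible refine IntF.comp₂ ?_ ?_ ?_; assumption) | (with_reducible refine IntF.comp₃ ?_ ?_ ?_ ?_; assumption) | with_reducible apply IntF.pair))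
  refine r.finU adm21_swf fun x => ?_
  rw [mem_inter, r.mem_st, r.mem_st, mem_sep hI]

theorem int21d (B B' : IPow M (B21 M)) : Int M (fun x => x ∈ B ∧ x ∉ B') := by (repeat' (first | with_reducible exact IntF.id | with_reducible exact IntF.fst' | with_reducible exact IntF.snd' | with_reducible exact IntF.const _ | with_reducible exact Int.const _ | assumption | with_reducible apply Int.and | with_reducible apply Int.or | with_reducible apply Int.not | with_reducible apply Int.imp | with_reducible apply Int.iff | with_reducible apply Int.ne | with_reducible apply Int.eq | with_reducible apply Int.mem | with_reducible apply Int.subset | with_reducible apply Int.ltN | with_reducible apply Int.leN | with_reducible_and_instances apply Int.le | with_reducible_and_instances apply Int.lt | with_reducible apply Int.all | with_reducible apply Int.ex | with_reducible apply IntF.fst | with_reducible apply IntF.snd | with_reducible apply IntF.app | with_reducible apply IntF.inl | with_reducible apply IntF.inr | with_reducible_and_instances apply IntF.mul | with_reducible_and_instances apply IntF.inv | with_reducible_and_instances apply IntF.add | with_reducible_and_instances apply IntF.sub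 | with_reducible_and_instances apply IntF.neg | with_reducible_and_instances apply IntF.smul | with_reducible apply Int.fin | with_reducible apply IntF.sep | with_reducible apply IntF.lam | with_reducible apply IntF.insert | with_reducible apply IntF.singleton | with_reducible apply IntF.union | with_reducible apply IntF.iimage | with_reducible apply IntF.ite | with_reducible apply IntF.the | with_reducible apply IntF.irec | with_reducible apply IntF.succ | with_reducible apply IntF.val | with_reducible apply IntF.mk | (with_reducible refine Int.comp ?_ ?_; assumption) | (with_reducible refine Int.comp₂ ?_ ?_ ?_; assumption) | (with_reducible refine Int.comp₃ ?_ ?_ ?_ ?_; assumption) | (with_reducible refine Int.comp₄ ?_ ?_ ?_ ?_ ?_; assumption) | (with_reducible refine IntF.comp ?_ ?_; assumption) | (with_reducible refine IntF.comp₂ ?_ ?_ ?_; assumption) | (with_reducible refine IntF.comp₃ ?_ ?_ ?_ ?_; assumption) | with_reducible apply IntF.pair))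

theorem int21i (B B' : IPow M (B21 M)) : Int M (fun x => x ∈ B ∧ x ∈ B') := by (repeat' (first | with_reducible exact IntF.id | with_reducible exact IntF.fst' | with_reducible exact IntF.snd' | with_reducible exact IntF.const _ | with_reducible exact Int.const _ | assumption | with_reducible apply Int.and | with_reducible apply Int.or | with_reducible apply Int.not | with_reducible apply Int.imp | with_reducible apply Int.iff | with_reducible apply Int.ne | with_reducible apply Int.eq | with_reducible apply Int.mem | with_reducible apply Int.subset | with_reducible apply Int.ltN | with_reducible apply Int.leN | with_reducible_and_instances apply Int.le | with_reducible_and_instances apply Int.lt | with_reducible apply Int.all | with_reducible apply Int.ex | with_reducible apply IntF.fst | with_reducible apply IntF.snd | with_reducible apply IntF.app | with_reducible apply IntF.inl | with_reducible apply IntF.inr | with_reducible_and_instances apply IntF.mul | with_reducible_and_instances apply IntF.inv | with_reducible_and_instances apply IntF.add | with_reducible_and_instances apply IntF.sub | with_reducible_and_instances apply IntF.neg | with_reducible_and_instances apply IntF.smul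 | with_reducible apply Int.fin | with_reducible apply IntF.sep | with_reducible apply IntF.lam | with_reducible apply IntF.insert | with_reducible apply IntF.singleton | with_reducible apply IntF.union | with_reducible apply IntF.iimage | with_reducible apply IntF.ite | with_reducible apply IntF.the | with_reducible apply IntF.irec | with_reducible apply IntF.succ | with_reducible apply IntF.val | with_reducible apply IntF.mk | (with_reducible refine Int.comp ?_ ?_; assumption) | (with_reducible refine Int.comp₂ ?_ ?_ ?_; assumption) | (with_reducible refine Int.comp₃ ?_ ?_ ?_ ?_; assumption) | (with_reducible refine Int.comp₄ ?_ ?_ ?_ ?_ ?_; assumption) | (with_reducible refine IntF.comp ?_ ?_; assumption) | (with_reducible refine IntF.comp₂ ?_ ?_ ?_; assumption) | (with_reducible refine IntF.comp₃ ?_ ?_ ?_ ?_; assumption) | with_reducible apply IntF.pair))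

theorem FB3M.fb3 (h : FB3M r D) : FB3 N r.α D := by
  refine ⟨h.int, ?_, ?_, ?_, ?_, ?_, ?_, ?_, ?_, ?_⟩
  · intro n t
    obtain ⟨n, rfl⟩ := r.nn_surj n
    obtain ⟨s, hs⟩ := h.tr n t
    refine ⟨r.st (sep M fun x => Eb n x s), (h.hD _ n t s hs).2 (IFin.empty.subset fun x hx => ?_)⟩
    rw [mem_sep (int21 _ _ _), mem_sep (int21e _ _)] at hx
    exact absurd Iff.rfl hx
  · intro n t U U' h1 h2
    obtain ⟨B, rfl⟩ := r.exists_st adm21_swf U
    obtain ⟨B', rfl⟩ := r.exists_st adm21_swf U'
    obtain ⟨n, rfl⟩ := r.nn_surj n
    obtain ⟨s, hs⟩ := h.tr n t
    rw [h.hD _ n t s hs] at h1 h2
    rw [diff21]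
    refine (h1.union h2).subset fun x hx => ?_
    rw [mem_sep (int21d _ _)] at hx
    rw [mem_union, mem_sep (int21 _ _ _), mem_sep (int21 _ _ _)]
    tauto
  · intro n t U U' h0 h1 h2
    obtain ⟨B, rfl⟩ := r.exists_st adm21_swf U
    obtain ⟨B', rfl⟩ := r.exists_st adm21_swf U'
    obtain ⟨n, rfl⟩ := r.nn_surj n
    obtain ⟨s, hs⟩ := h.tr n t
    rw [h.hD _ n t s hs] at h0 ⊢
    rw [diff21] at h1 h2
    refine (h0.union (h1.union h2)).subset fun x hx => ?_
    rw [mem_sep (int21 _ _ _)] at hx
    rw [mem_union, mem_union, mem_sep (int21 _ _ _), mem_sep (int21d _ _), mem_sep (int21d _ _)]
    tauto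
  · intro n t U h0 h1
    obtain ⟨B, rfl⟩ := r.exists_st adm21_swf U
    obtain ⟨n, rfl⟩ := r.nn_surj n
    obtain ⟨s, hs⟩ := h.tr n t
    rw [h.hD _ n t s hs] at h0
    rw [r.finU adm21_swf fun x => r.mem_st] at h1
    refine not_fin_Eb n s (h0.union h1) fun x hx => ?_
    rw [mem_union, mem_sep (int21 _ _ _)]
    by_cases h2 : x ∈ B
    · exact Or.inr h2
    · exact Or.inl fun h3 => h2 (h3.2 hx)
  · intro n t W U h1 h2
    obtain ⟨B, rfl⟩ := r.exists_st adm21_swf W
    obtain ⟨B', rfl⟩ := r.exists_st adm21_swf U
    obtain ⟨n, rfl⟩ := r.nn_surj n
    obtain ⟨s, hs⟩ := h.tr n.succ t
    rw [h.hD _ n t s fun k hk => hs k (hk.trans (INat.lt_succ_self n))] at h1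
    rw [← r.nn_succ, h.hD _ n.succ t s hs] at h2
    rw [diff21]
    refine (h1.union h2).subset fun x hx => ?_
    rw [mem_sep (int21d _ _)] at hx
    rw [mem_union, mem_sep (int21 _ _ _), mem_sep (int21 _ _ _)]
    have h3 : Eb n.succ x s → Eb n x s := fun h k hk => h k (hk.trans (INat.lt_succ_self n))
    tauto
  · intro n t W U h1 h2
    obtain ⟨B, rfl⟩ := r.exists_st adm21_swf W
    obtain ⟨B', rfl⟩ := r.exists_st adm21_swf U
    obtain ⟨n, rfl⟩ := r.nn_surj n
    obtain ⟨s, hs⟩ := h.tr n.succ (insert (r.nn n) t)
    rw [h.hD _ n t s fun k hk => by
      rw [← hs k (hk.trans (INat.lt_succ_self n)), mem_insert]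
      refine ⟨Or.inr, fun h => h.resolve_left fun e => ?_⟩
      rw [r.nn_inj.1 e] at hk
      exact lt_irrefl _ hk] at h1
    rw [← r.nn_succ, h.hD _ n.succ _ s hs] at h2
    rw [diff21]
    refine (h1.union h2).subset fun x hx => ?_
    rw [mem_sep (int21d _ _)] at hx
    rw [mem_union, mem_sep (int21 _ _ _), mem_sep (int21 _ _ _)]
    have h3 : Eb n.succ x s → Eb n x s := fun h k hk => h k (hk.trans (INat.lt_succ_self n))
    tauto
  · intro n t t' U G ht ht' hne h1 h2
    obtain ⟨B, rfl⟩ := r.exists_st adm21_swf U
    obtain ⟨B', rfl⟩ := r.exists_st adm21_swf G
    obtain ⟨n, rfl⟩ := r.nn_surj n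
    obtain ⟨s, hs⟩ := h.tr n t
    obtain ⟨s', hs'⟩ := h.tr n t'
    rw [h.hD _ n t s hs] at h1
    rw [h.hD _ n t' s' hs'] at h2
    rw [inter21]
    have h3 : ∃ k, k < n ∧ ¬ (k ∈ s ↔ k ∈ s') := by
      by_contra hcon
      push Not at hcon
      refine hne (IPow.ext' fun k => ?_)
      obtain ⟨k, rfl⟩ := r.nn_surj k
      by_cases hk : k < n
      · rw [hs k hk, hs' k hk]
        have := hcon k hk
        tauto
      · exact iff_of_false (fun h => hk (r.nn_lt.1 (ht _ h))) fun h => hk (r.nn_lt.1 (ht' _ h))
    obtain ⟨k, hk, hk'⟩ := h3
    refine (h1.union h2).subset fun x hx => ?_
    rw [mem_sep (int21i _ _)] at hx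
    rw [mem_union, mem_sep (int21 _ _ _), mem_sep (int21 _ _ _)]
    have h3 : Eb n x s → Eb n x s' → False := fun h h' => hk' ((h k hk).symm.trans (h' k hk))
    tauto
  · intro n
    obtain ⟨n, rfl⟩ := r.nn_surj n
    have hC : IntF M (fun s : IPow M (INat M) => sep M fun x : B21 M => Eb n x s) := by
      unfold Eb
      (repeat' (first | with_reducible exact IntF.id | with_reducible exact IntF.fst' | with_reducible exact IntF.snd' | with_reducible exact IntF.const _ | with_reducible exact Int.const _ | assumption | with_reducible apply Int.and | with_reducible apply Int.or | with_reducible apply Int.not | with_reducible apply Int.imp | with_reducible apply Int.iff | with_reducible apply Int.ne | with_reducible apply Int.eq | with_reducible apply Int.mem | with_reducible apply Int.subset | with_reducible apply Int.ltN | with_reducible apply Int.leN | with_reducible_and_instances apply Int.le | with_reducible_and_instances apply Int.lt | with_reducible apply Int.all | with_reducible apply Int.ex | with_reducible apply IntF.fst | with_reducible apply IntF.snd | with_reducible apply IntF.app | with_reducible apply IntF.inl | with_reducible apply IntF.inr | with_reducible_and_instances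 apply IntF.mul | with_reducible_and_instances apply IntF.inv | with_reducible_and_instances apply IntF.add | with_reducible_and_instances apply IntF.sub | with_reducible_and_instances apply IntF.neg | with_reducible_and_instances apply IntF.smul | with_reducible apply Int.fin | with_reducible apply IntF.sep | with_reducible apply IntF.lam | with_reducible apply IntF.insert | with_reducible apply IntF.singleton | with_reducible apply IntF.union | with_reducible apply IntF.iimage | with_reducible apply IntF.ite | with_reducible apply IntF.the | with_reducible apply IntF.irec | with_reducible apply IntF.succ | with_reducible apply IntF.val | with_reducible apply IntF.mk | (with_reducible refine Int.comp ?_ ?_; assumption) | (with_reducible refine Int.comp₂ ?_ ?_ ?_; assumption) | (with_reducible refine Int.comp₃ ?_ ?_ ?_ ?_; assumption) | (with_reducible refine Int.comp₄ ?_ ?_ ?_ ?_ ?_; assumption) | (with_reducible refine IntF.comp ?_ ?_; assumption) | (with_reducible refine IntF.comp₂ ?_ ?_ ?_; assumption) | (with_reducible refine IntF.comp₃ ?_ ?_ ?_ ?_; assumption) | with_reducible apply IntF.pair))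
    have hlt : Int M (fun k : INat M => k < n) := by (repeat' (first | with_reducible exact IntF.id | with_reducible exact IntF.fst' | with_reducible exact IntF.snd' | with_reducible exact IntF.const _ | with_reducible exact Int.const _ | assumption | with_reducible apply Int.and | with_reducible apply Int.or | with_reducible apply Int.not | with_reducible apply Int.imp | with_reducible apply Int.iff | with_reducible apply Int.ne | with_reducible apply Int.eq | with_reducible apply Int.mem | with_reducible apply Int.subset | with_reducible apply Int.ltN | with_reducible apply Int.leN | with_reducible_and_instances apply Int.le | with_reducible_and_instances apply Int.lt | with_reducible apply Int.all | with_reducible apply Int.ex | with_reducible apply IntF.fst | with_reducible apply IntF.snd | with_reducible apply IntF.app | with_reducible apply IntF.inl | with_reducible apply IntF.inr | with_reducible_and_instances apply IntF.mul | with_reducible_and_instances apply IntF.inv | with_reducible_and_instances apply IntF.add | with_reducible_and_instances apply IntF.sub | with_reducible_and_instances apply IntF.neg | with_reducible_and_instances apply IntF.smul | with_reducible apply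 Int.fin | with_reducible apply IntF.sep | with_reducible apply IntF.lam | with_reducible apply IntF.insert | with_reducible apply IntF.singleton | with_reducible apply IntF.union | with_reducible apply IntF.iimage | with_reducible apply IntF.ite | with_reducible apply IntF.the | with_reducible apply IntF.irec | with_reducible apply IntF.succ | with_reducible apply IntF.val | with_reducible apply IntF.mk | (with_reducible refine Int.comp ?_ ?_; assumption) | (with_reducible refine Int.comp₂ ?_ ?_ ?_; assumption) | (with_reducible refine Int.comp₃ ?_ ?_ ?_ ?_; assumption) | (with_reducible refine Int.comp₄ ?_ ?_ ?_ ?_ ?_; assumption) | (with_reducible refine IntF.comp ?_ ?_; assumption) | (with_reducible refine IntF.comp₂ ?_ ?_ ?_; assumption) | (with_reducible refine IntF.comp₃ ?_ ?_ ?_ ?_; assumption) | with_reducible apply IntF.pair))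
    obtain ⟨K, hK, hK'⟩ := r.find _ ((fin_lt n).pow.image hC)
    have hex : IntF N (ex (N := N) r.mem) := int_ex r.intm
    refine ⟨iimage (ex r.mem) K, hK.image hex, fun x => ?_⟩
    obtain ⟨x, rfl⟩ := r.ca_surj x
    have hI : Int M (fun k => k < n ∧ k ∈ x) := by (repeat' (first | with_reducible exact IntF.id | with_reducible exact IntF.fst' | with_reducible exact IntF.snd' | with_reducible exact IntF.const _ | with_reducible exact Int.const _ | assumption | with_reducible apply Int.and | with_reducible apply Int.or | with_reducible apply Int.not | with_reducible apply Int.imp | with_reducible apply Int.iff | with_reducible apply Int.ne | with_reducible apply Int.eq | with_reducible apply Int.mem | with_reducible apply Int.subset | with_reducible apply Int.ltN | with_reducible apply Int.leN | with_reducible_and_instances apply Int.le | with_reducible_and_instances apply Int.lt | with_reducible apply Int.all | with_reducible apply Int.ex | with_reducible apply IntF.fst | with_reducible apply IntF.snd | with_reducible apply IntF.app | with_reducible apply IntF.inl | with_reducible apply IntF.inr | with_reducible_and_instances apply IntF.mul | with_reducible_and_instances apply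 IntF.inv | with_reducible_and_instances apply IntF.add | with_reducible_and_instances apply IntF.sub | with_reducible_and_instances apply IntF.neg | with_reducible_and_instances apply IntF.smul | with_reducible apply Int.fin | with_reducible apply IntF.sep | with_reducible apply IntF.lam | with_reducible apply IntF.insert | with_reducible apply IntF.singleton | with_reducible apply IntF.union | with_reducible apply IntF.iimage | with_reducible apply IntF.ite | with_reducible apply IntF.the | with_reducible apply IntF.irec | with_reducible apply IntF.succ | with_reducible apply IntF.val | with_reducible apply IntF.mk | (with_reducible refine Int.comp ?_ ?_; assumption) | (with_reducible refine Int.comp₂ ?_ ?_ ?_; assumption) | (with_reducible refine Int.comp₃ ?_ ?_ ?_ ?_; assumption) | (with_reducible refine Int.comp₄ ?_ ?_ ?_ ?_ ?_; assumption) | (with_reducible refine IntF.comp ?_ ?_; assumption) | (with_reducible refine IntF.comp₂ ?_ ?_ ?_; assumption) | (with_reducible refine IntF.comp₃ ?_ ?_ ?_ ?_; assumption) | with_reducible apply IntF.pair))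
    obtain ⟨t, ht, ht'⟩ := h.rt n (sep M fun k => k < n ∧ k ∈ x)
    refine ⟨r.st (sep M fun y => Eb n y (sep M fun k => k < n ∧ k ∈ x)), t, ?_, ?_, ht, ?_⟩
    · refine (mem_iimage hex).2 ⟨_, (hK' _).2 ((mem_iimage hC).2 ⟨_, ?_, rfl⟩), rfl⟩
      rw [mem_ipow]
      intro k hk
      exact (mem_sep hlt).2 ((mem_sep hI).1 hk).1
    · rw [r.mem_st, mem_sep (int21e _ _)]
      intro k hk
      rw [mem_sep hI]
      exact ⟨fun h => ⟨hk, h⟩, fun h => h.2⟩
    · refine (h.hD _ n t _ ht').2 (IFin.empty.subset fun y hy => ?_)
      rw [mem_sep (int21 _ _ _), mem_sep (int21e _ _)] at hy
      exact absurd Iff.rfl hy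
  · intro W hW
    obtain ⟨s, hs, h1⟩ := r.supp adm21_swf hW
    have hex : IntF N (ex (N := N) r.mem) := int_ex r.intm
    refine ⟨iimage (ex r.mem) s, hs.image hex, fun x y hxy n hx => h1 x y (fun d hd => ?_) n hx⟩
    have := hxy _ ((mem_iimage hex).2 ⟨d, hd, rfl⟩)
    rwa [mem_ex r.intm, mem_ex r.intm] at this

end

end Pool.Agent.V11257G
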