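import Pool.Agent.V11257.MfDefs

/-!
# Weakly Dedekind-finite sets in a structure for the language of set theory
-/

namespace Pool.Agent.V11257G

open FirstOrder FirstOrder.Language
open Pool.Agent.Helper672.Plain (LSet Mem IsOrdPair)
open Pool.Agent.H310Cards

universe u

variable {M : Type u} [LSet.Structure M]

/-- `a` is weakly Dedekind-finite: there is no injective function from the set of the natural
numbers to the power set of `a`. -/
def WeaklyDedekindFinite (a : M) : Prop := ∀ p w f, IsPow p a → IsOmega w → ¬ IsInj f w p

end Pool.Agent.V11257G
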