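import Pool.Agent.V11257.Mf15
import Pool.Agent.V11257.MfDefs2

/-!
# Dyadically filterbase infinite and weakly Dedekind-finite
-/

set_option maxHeartbeats 1000000
set_option linter.all false
set_option synthInstance.maxSize 2000

namespace Pool.Agent.V11257G

open FirstOrder FirstOrder.Language
open Pool.Agent.Helper672
open Pool.Agent.Helper672.ZFA
open Pool.Agent.Helper672.ZFA.V246
open Pool.Agent.Helper672.Plain (LSet)
open Pool.Agent.H310
open Pool.Agent.H310Cards
open Pool.Agent.H635Amen (ZF)
open Pool.Agent.V11246

universe u

section

attribute [local instance] Helper672.Plain.toL

variable {N : Type u} [LSet.Structure N] [hZ : Helper672.Plain.Zermelo N]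

local instance instModelMf16 : IsModel N := Helper672.Plain.isModel_toL

variable {α : Type u} [ITy N α]

theorem int_app3 (f : N) : Int N (fun q : IPow N (INat N) × IPow N α =>
    App f (code q.1) (code q.2)) := ⟨f, fun q => app_iff.symm⟩

theorem node_code {n t : N} (h : IsNode n t) : ∃ (n' : INat N) (t' : IPow N (INat N)),
    n = code n' ∧ t = code t' ∧ 0 < n' ∧ Sb n' t' := by
  obtain ⟨h1, ⟨k, hk⟩, h2⟩ := h
  obtain ⟨n', rfl⟩ := natB.1 h1
  obtain ⟨t', rfl⟩ := exists_codeB (α := INat N) (u := t) fun z hz => by
    obtain ⟨m, -, hm⟩ := mem_nat (n := n') (z := z) (h2 z hz)
    exact ⟨m, hm⟩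
  obtain ⟨m, hm, -⟩ := mem_nat (n := n') (z := k) hk
  exact ⟨n', t', rfl, rfl, lt_of_le_of_lt (INat.zero_le m) hm, fun j hj => h2 (code j)
    (mem_codeM.2 hj)⟩

variable {D : (INat N × IPow N (INat N)) × IPow N α → Prop} (h : FB3 N α D)

include h

theorem FB3.modd (n : INat N) (t : IPow N (INat N)) :
    Modd (sep N fun U : IPow N α => D ((n, t), U)) := by
  have hR := h.int
  have hI : Int N (fun U : IPow N α => D ((n, t), U)) := by (repeat' (first | with_reducible exact IntF.id | with_reducible exact IntF.fst' | with_reducible exact IntF.snd' | with_reducible exact IntF.const _ | with_reducible exact Int.const _ | assumption | with_reducible apply Int.and | with_reducible apply Int.or | with_reducible apply Int.not | with_reducible apply Int.imp | with_reducible apply Int.iff | with_reducible apply Int.ne | with_reducible apply Int.eq | with_reducible apply Int.mem | with_reducible apply Int.subset | with_reducible apply Int.ltN | with_reducible apply Int.leN | with_reducible_and_instances apply Int.le | with_reducible_and_instances apply Int.lt | with_reducible apply Int.all | with_reducible apply Int.ex | with_reducible apply IntF.fst | with_reducible apply IntF.snd | with_reducible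 apply IntF.app | with_reducible apply IntF.inl | with_reducible apply IntF.inr | with_reducible_and_instances apply IntF.mul | with_reducible_and_instances apply IntF.inv | with_reducible_and_instances apply IntF.add | with_reducible_and_instances apply IntF.sub | with_reducible_and_instances apply IntF.neg | with_reducible_and_instances apply IntF.smul | with_reducible apply Int.fin | with_reducible apply IntF.sep | with_reducible apply IntF.lam | with_reducible apply IntF.insert | with_reducible apply IntF.singleton | with_reducible apply IntF.union | with_reducible apply IntF.iimage | with_reducible apply IntF.ite | with_reducible apply IntF.the | with_reducible apply IntF.irec | with_reducible apply IntF.succ | with_reducible apply IntF.val | with_reducible apply IntF.mk | (with_reducible refine Int.comp ?_ ?_; assumption) | (with_reducible refine Int.comp₂ ?_ ?_ ?_; assumption) | (with_reducible refine Int.comp₃ ?_ ?_ ?_ ?_; assumption) | (with_reducible refine Int.comp₄ ?_ ?_ ?_ ?_ ?_; assumption) | (with_reducible refine IntF.comp ?_ ?_; assumption) | (with_reducible refine IntF.comp₂ ?_ ?_ ?_; assumption) | (with_reducible refine IntF.comp₃ ?_ ?_ ?_ ?_; assumption) | with_reducible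 apply IntF.pair))
  refine ⟨?_, ?_, ?_, ?_, ?_⟩
  · obtain ⟨U, hU⟩ := h.ne n t
    exact ⟨U, (mem_sep hI).2 hU⟩
  · intro U U' hU hU'
    rw [mem_sep hI] at hU hU' ⊢
    refine h.ext n t U _ hU (IFin.empty.subset fun x hx => ?_)
      ((h.diff n t U' U hU' hU).subset fun x hx => ?_)
    · rw [mem_sdiff, mem_union] at hx
      exact absurd (Or.inl hx.1) hx.2
    · rw [mem_sdiff, mem_union] at hx
      rw [mem_sdiff]
      tauto
  · intro U U' hU hU'
    rw [mem_sep hI] at hU hU' ⊢
    refine h.ext n t U _ hU ((h.diff n t U U' hU hU').subset fun x hx => ?_)
      (IFin.empty.subset fun x hx => ?_)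
    · rw [mem_sdiff, mem_inter] at hx
      rw [mem_sdiff]
      tauto
    · rw [mem_sdiff, mem_inter] at hx
      exact absurd hx.1.1 hx.2
  · intro U hU
    exact h.inf n t U ((mem_sep hI).1 hU)
  · intro U U' hU hU'
    exact h.diff n t U U' ((mem_sep hI).1 hU) ((mem_sep hI).1 hU')

theorem FB3.wdf : WeaklyDedekindFinite (dom N α) := by
  intro p w f hp hw hf
  have hA := int_app2 (α := α) f
  have hval : ∀ n : INat N, ∃ U : IPow N α, App f (code n) (code U) ∧
      ∀ V : IPow N α, App f (code n) (code V) → V = U := by
    intro n
    obtain ⟨u, hu, huu⟩ := hf.1.2 (code n) ((hw _).2 (natB.2 ⟨n, rfl⟩))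
    obtain ⟨a, b, -, hb, hab⟩ := hf.1.1 _ (app_iff.1 hu)
    obtain ⟨h4, h5⟩ := op_inj (ordPair_iff.1 hab)
    subst h5
    obtain ⟨U, rfl⟩ := subs_code (α := α) (u := u) ((hp u).1 hb)
    exact ⟨U, hu, fun V hV => ITy.inj (huu _ hV)⟩
  have hW : Int N (fun q : α × INat N => ∃ U : IPow N α, App f (code q.2) (code U) ∧ q.1 ∈ U) := by
    refine Int.ex (Int.and ?_ (by (repeat' (first | with_reducible exact IntF.id | with_reducible exact IntF.fst' | with_reducible exact IntF.snd' | with_reducible exact IntF.const _ | with_reducible exact Int.const _ | assumption | with_reducible apply Int.and | with_reducible apply Int.or | with_reducible apply Int.not | with_reducible apply Int.imp | with_reducible apply Int.iff | with_reducible apply Int.ne | with_reducible apply Int.eq | with_reducible apply Int.mem | with_reducible apply Int.subset | with_reducible apply Int.ltN | with_reducible apply Int.leN | with_reducible_and_instances apply Int.le | with_reducible_and_instances apply Int.lt | with_reducible apply Int.all | with_reducible apply Int.ex | with_reducible apply IntF.fst | with_reducible apply IntF.snd | with_reducible apply IntF.app | with_reducible apply IntF.inl | with_reducible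 apply IntF.inr | with_reducible_and_instances apply IntF.mul | with_reducible_and_instances apply IntF.inv | with_reducible_and_instances apply IntF.add | with_reducible_and_instances apply IntF.sub | with_reducible_and_instances apply IntF.neg | with_reducible_and_instances apply IntF.smul | with_reducible apply Int.fin | with_reducible apply IntF.sep | with_reducible apply IntF.lam | with_reducible apply IntF.insert | with_reducible apply IntF.singleton | with_reducible apply IntF.union | with_reducible apply IntF.iimage | with_reducible apply IntF.ite | with_reducible apply IntF.the | with_reducible apply IntF.irec | with_reducible apply IntF.succ | with_reducible apply IntF.val | with_reducible apply IntF.mk | (with_reducible refine Int.comp ?_ ?_; assumption) | (with_reducible refine Int.comp₂ ?_ ?_ ?_; assumption) | (with_reducible refine Int.comp₃ ?_ ?_ ?_ ?_; assumption) | (with_reducible refine Int.comp₄ ?_ ?_ ?_ ?_ ?_; assumption) | (with_reducible refine IntF.comp ?_ ?_; assumption) | (with_reducible refine IntF.comp₂ ?_ ?_ ?_; assumption) | (with_reducible refine IntF.comp₃ ?_ ?_ ?_ ?_; assumption) | with_reducible apply IntF.pair))))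
    exact Int.comp (p := fun q : INat N × IPow N α => App f (code q.1) (code q.2))
      (f := fun q : (α × INat N) × IPow N α => (q.1.2, q.2)) hA (by (repeat' (first | with_reducible exact IntF.id | with_reducible exact IntF.fst' | with_reducible exact IntF.snd' | with_reducible exact IntF.const _ | with_reducible exact Int.const _ | assumption | with_reducible apply Int.and | with_reducible apply Int.or | with_reducible apply Int.not | with_reducible apply Int.imp | with_reducible apply Int.iff | with_reducible apply Int.ne | with_reducible apply Int.eq | with_reducible apply Int.mem | with_reducible apply Int.subset | with_reducible apply Int.ltN | with_reducible apply Int.leN | with_reducible_and_instances apply Int.le | with_reducible_and_instances apply Int.lt | with_reducible apply Int.all | with_reducible apply Int.ex | with_reducible apply IntF.fst | with_reducible apply IntF.snd | with_reducible apply IntF.app | with_reducible apply IntF.inl | with_reducible apply IntF.inr | with_reducible_and_instances apply IntF.mul | with_reducible_and_instances apply IntF.inv | with_reducible_and_instances apply IntF.add | with_reducible_and_instances apply IntF.sub | with_reducible_and_instances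 apply IntF.neg | with_reducible_and_instances apply IntF.smul | with_reducible apply Int.fin | with_reducible apply IntF.sep | with_reducible apply IntF.lam | with_reducible apply IntF.insert | with_reducible apply IntF.singleton | with_reducible apply IntF.union | with_reducible apply IntF.iimage | with_reducible apply IntF.ite | with_reducible apply IntF.the | with_reducible apply IntF.irec | with_reducible apply IntF.succ | with_reducible apply IntF.val | with_reducible apply IntF.mk | (with_reducible refine Int.comp ?_ ?_; assumption) | (with_reducible refine Int.comp₂ ?_ ?_ ?_; assumption) | (with_reducible refine Int.comp₃ ?_ ?_ ?_ ?_; assumption) | (with_reducible refine Int.comp₄ ?_ ?_ ?_ ?_ ?_; assumption) | (with_reducible refine IntF.comp ?_ ?_; assumption) | (with_reducible refine IntF.comp₂ ?_ ?_ ?_; assumption) | (with_reducible refine IntF.comp₃ ?_ ?_ ?_ ?_; assumption) | with_reducible apply IntF.pair)))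
  obtain ⟨s, hs, h1⟩ := h.supp _ hW
  have hty := int_ty s
  have hW' : Int N (fun q : (INat N × IPow N (IPow N α)) × α =>
      ∃ U : IPow N α, App f (code q.1.1) (code U) ∧ q.2 ∈ U) :=
    Int.comp (p := fun q : α × INat N => ∃ U : IPow N α, App f (code q.2) (code U) ∧ q.1 ∈ U)
      (f := fun q : (INat N × IPow N (IPow N α)) × α => (q.2, q.1.1)) hW (by (repeat' (first | with_reducible exact IntF.id | with_reducible exact IntF.fst' | with_reducible exact IntF.snd' | with_reducible exact IntF.const _ | with_reducible exact Int.const _ | assumption | with_reducible apply Int.and | with_reducible apply Int.or | with_reducible apply Int.not | with_reducible apply Int.imp | with_reducible apply Int.iff | with_reducible apply Int.ne | with_reducible apply Int.eq | with_reducible apply Int.mem | with_reducible apply Int.subset | with_reducible apply Int.ltN | with_reducible apply Int.leN | with_reducible_and_instances apply Int.le | with_reducible_and_instances apply Int.lt | with_reducible apply Int.all | with_reducible apply Int.ex | with_reducible apply IntF.fst | with_reducible apply IntF.snd | with_reducible apply IntF.app | with_reducible apply IntF.inl | with_reducible apply IntF.inr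 | with_reducible_and_instances apply IntF.mul | with_reducible_and_instances apply IntF.inv | with_reducible_and_instances apply IntF.add | with_reducible_and_instances apply IntF.sub | with_reducible_and_instances apply IntF.neg | with_reducible_and_instances apply IntF.smul | with_reducible apply Int.fin | with_reducible apply IntF.sep | with_reducible apply IntF.lam | with_reducible apply IntF.insert | with_reducible apply IntF.singleton | with_reducible apply IntF.union | with_reducible apply IntF.iimage | with_reducible apply IntF.ite | with_reducible apply IntF.the | with_reducible apply IntF.irec | with_reducible apply IntF.succ | with_reducible apply IntF.val | with_reducible apply IntF.mk | (with_reducible refine Int.comp ?_ ?_; assumption) | (with_reducible refine Int.comp₂ ?_ ?_ ?_; assumption) | (with_reducible refine Int.comp₃ ?_ ?_ ?_ ?_; assumption) | (with_reducible refine Int.comp₄ ?_ ?_ ?_ ?_ ?_; assumption) | (with_reducible refine IntF.comp ?_ ?_; assumption) | (with_reducible refine IntF.comp₂ ?_ ?_ ?_; assumption) | (with_reducible refine IntF.comp₃ ?_ ?_ ?_ ?_; assumption) | with_reducible apply IntF.pair)))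
  have hT' : Int N (fun q : INat N × IPow N (IPow N α) => ∃ x, q.2 = ty s x ∧
      ∃ U : IPow N α, App f (code q.1) (code U) ∧ x ∈ U) := Int.ex (Int.and (by (repeat' (first | with_reducible exact IntF.id | with_reducible exact IntF.fst' | with_reducible exact IntF.snd' | with_reducible exact IntF.const _ | with_reducible exact Int.const _ | assumption | with_reducible apply Int.and | with_reducible apply Int.or | with_reducible apply Int.not | with_reducible apply Int.imp | with_reducible apply Int.iff | with_reducible apply Int.ne | with_reducible apply Int.eq | with_reducible apply Int.mem | with_reducible apply Int.subset | with_reducible apply Int.ltN | with_reducible apply Int.leN | with_reducible_and_instances apply Int.le | with_reducible_and_instances apply Int.lt | with_reducible apply Int.all | with_reducible apply Int.ex | with_reducible apply IntF.fst | with_reducible apply IntF.snd | with_reducible apply IntF.app | with_reducible apply IntF.inl | with_reducible apply IntF.inr | with_reducible_and_instances apply IntF.mul | with_reducible_and_instances apply IntF.inv | with_reducible_and_instances apply IntF.add | with_reducible_and_instances apply IntF.sub | with_reducible_and_instances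 apply IntF.neg | with_reducible_and_instances apply IntF.smul | with_reducible apply Int.fin | with_reducible apply IntF.sep | with_reducible apply IntF.lam | with_reducible apply IntF.insert | with_reducible apply IntF.singleton | with_reducible apply IntF.union | with_reducible apply IntF.iimage | with_reducible apply IntF.ite | with_reducible apply IntF.the | with_reducible apply IntF.irec | with_reducible apply IntF.succ | with_reducible apply IntF.val | with_reducible apply IntF.mk | (with_reducible refine Int.comp ?_ ?_; assumption) | (with_reducible refine Int.comp₂ ?_ ?_ ?_; assumption) | (with_reducible refine Int.comp₃ ?_ ?_ ?_ ?_; assumption) | (with_reducible refine Int.comp₄ ?_ ?_ ?_ ?_ ?_; assumption) | (with_reducible refine IntF.comp ?_ ?_; assumption) | (with_reducible refine IntF.comp₂ ?_ ?_ ?_; assumption) | (with_reducible refine IntF.comp₃ ?_ ?_ ?_ ?_; assumption) | with_reducible apply IntF.pair))) hW')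
  have hT : IntF N (fun n : INat N => sep N fun t : IPow N (IPow N α) => ∃ x, t = ty s x ∧
      ∃ U : IPow N α, App f (code n) (code U) ∧ x ∈ U) := IntF.sep hT'
  have hI : ∀ n : INat N, Int N (fun t : IPow N (IPow N α) => ∃ x, t = ty s x ∧
      ∃ U : IPow N α, App f (code n) (code U) ∧ x ∈ U) := by
    intro n
    exact Int.comp (p := fun q : INat N × IPow N (IPow N α) => ∃ x, q.2 = ty s x ∧
      ∃ U : IPow N α, App f (code q.1) (code U) ∧ x ∈ U)
      (f := fun t : IPow N (IPow N α) => (n, t)) hT' (by (repeat' (first | with_reducible exact IntF.id | with_reducible exact IntF.fst' | with_reducible exact IntF.snd' | with_reducible exact IntF.const _ | with_reducible exact Int.const _ | assumption | with_reducible apply Int.and | with_reducible apply Int.or | with_reducible apply Int.not | with_reducible apply Int.imp | with_reducible apply Int.iff | with_reducible apply Int.ne | with_reducible apply Int.eq | with_reducible apply Int.mem | with_reducible apply Int.subset | with_reducible apply Int.ltN | with_reducible apply Int.leN | with_reducible_and_instances apply Int.le | with_reducible_and_instances apply Int.lt | with_reducible apply Int.all | with_reducible apply Int.ex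 | with_reducible apply IntF.fst | with_reducible apply IntF.snd | with_reducible apply IntF.app | with_reducible apply IntF.inl | with_reducible apply IntF.inr | with_reducible_and_instances apply IntF.mul | with_reducible_and_instances apply IntF.inv | with_reducible_and_instances apply IntF.add | with_reducible_and_instances apply IntF.sub | with_reducible_and_instances apply IntF.neg | with_reducible_and_instances apply IntF.smul | with_reducible apply Int.fin | with_reducible apply IntF.sep | with_reducible apply IntF.lam | with_reducible apply IntF.insert | with_reducible apply IntF.singleton | with_reducible apply IntF.union | with_reducible apply IntF.iimage | with_reducible apply IntF.ite | with_reducible apply IntF.the | with_reducible apply IntF.irec | with_reducible apply IntF.succ | with_reducible apply IntF.val | with_reducible apply IntF.mk | (with_reducible refine Int.comp ?_ ?_; assumption) | (with_reducible refine Int.comp₂ ?_ ?_ ?_; assumption) | (with_reducible refine Int.comp₃ ?_ ?_ ?_ ?_; assumption) | (with_reducible refine Int.comp₄ ?_ ?_ ?_ ?_ ?_; assumption) | (with_reducible refine IntF.comp ?_ ?_; assumption) | (with_reducible refine IntF.comp₂ ?_ ?_ ?_;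 assumption) | (with_reducible refine IntF.comp₃ ?_ ?_ ?_ ?_; assumption) | with_reducible apply IntF.pair)))
  have hsub : ∀ (m n : INat N) (U V : IPow N α), App f (code m) (code U) →
      App f (code n) (code V) → (sep N fun t : IPow N (IPow N α) => ∃ x, t = ty s x ∧
        ∃ U : IPow N α, App f (code m) (code U) ∧ x ∈ U) =
        (sep N fun t : IPow N (IPow N α) => ∃ x, t = ty s x ∧
        ∃ U : IPow N α, App f (code n) (code U) ∧ x ∈ U) → ∀ x, x ∈ U → x ∈ V := by
    intro m n U V hU hV e x hx
    have h2 : ty s x ∈ sep N fun t : IPow N (IPow N α) => ∃ x, t = ty s x ∧
        ∃ U : IPow N α, App f (code m) (code U) ∧ x ∈ U :=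
      (mem_sep (hI m)).2 ⟨x, rfl, U, hU, hx⟩
    rw [e, mem_sep (hI n)] at h2
    obtain ⟨y, hy, V', hV', hyV⟩ := h2
    have h3 : Cl s y x := by
      have h5 : Cl s x x := fun C _ => Iff.rfl
      exact h5.of_ty hy
    obtain ⟨V'', hV'', hxV⟩ := h1 y x h3 n ⟨V', hV', hyV⟩
    obtain ⟨U₀, -, hu⟩ := hval n
    rw [hu V hV, ← hu V'' hV'']
    exact hxV
  refine not_fin_range hT (fun m n hmn => ?_) hs.pow.pow fun n => ?_
  · obtain ⟨U, hU, -⟩ := hval m
    obtain ⟨V, hV, -⟩ := hval n
    have h2 : U = V := IPow.ext' fun x =>
      ⟨hsub m n U V hU hV hmn x, hsub n m V U hV hU hmn.symm x⟩
    rw [← h2] at hV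
    exact ITy.inj (hf.2 _ _ _ hU hV)
  · rw [mem_ipow]
    intro t ht
    obtain ⟨x, rfl, -⟩ := (mem_sep (hI n)).1 ht
    exact ty_mem s x

theorem FB3.dyadic : DyadicallyFilterbaseInfinite (dom N α) := by
  have hD := h.int
  have hF : Int N (fun q : (INat N × IPow N (INat N)) × IPow N (IPow N α) =>
      q.2 = sep N fun U : IPow N α => D (q.1, U)) := by (repeat' (first | with_reducible exact IntF.id | with_reducible exact IntF.fst' | with_reducible exact IntF.snd' | with_reducible exact IntF.const _ | with_reducible exact Int.const _ | assumption | with_reducible apply Int.and | with_reducible apply Int.or | with_reducible apply Int.not | with_reducible apply Int.imp | with_reducible apply Int.iff | with_reducible apply Int.ne | with_reducible apply Int.eq | with_reducible apply Int.mem | with_reducible apply Int.subset | with_reducible apply Int.ltN | with_reducible apply Int.leN | with_reducible_and_instances apply Int.le | with_reducible_and_instances apply Int.lt | with_reducible apply Int.all | with_reducible apply Int.ex | with_reducible apply IntF.fst | with_reducible apply IntF.snd | with_reducible apply IntF.app | with_reducible apply IntF.inl | with_reducible apply IntF.inr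 | with_reducible_and_instances apply IntF.mul | with_reducible_and_instances apply IntF.inv | with_reducible_and_instances apply IntF.add | with_reducible_and_instances apply IntF.sub | with_reducible_and_instances apply IntF.neg | with_reducible_and_instances apply IntF.smul | with_reducible apply Int.fin | with_reducible apply IntF.sep | with_reducible apply IntF.lam | with_reducible apply IntF.insert | with_reducible apply IntF.singleton | with_reducible apply IntF.union | with_reducible apply IntF.iimage | with_reducible apply IntF.ite | with_reducible apply IntF.the | with_reducible apply IntF.irec | with_reducible apply IntF.succ | with_reducible apply IntF.val | with_reducible apply IntF.mk | (with_reducible refine Int.comp ?_ ?_; assumption) | (with_reducible refine Int.comp₂ ?_ ?_ ?_; assumption) | (with_reducible refine Int.comp₃ ?_ ?_ ?_ ?_; assumption) | (with_reducible refine Int.comp₄ ?_ ?_ ?_ ?_ ?_; assumption) | (with_reducible refine IntF.comp ?_ ?_; assumption) | (with_reducible refine IntF.comp₂ ?_ ?_ ?_; assumption) | (with_reducible refine IntF.comp₃ ?_ ?_ ?_ ?_; assumption) | with_reducible apply IntF.pair))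
  have hI : ∀ n t, Int N (fun U : IPow N α => D ((n, t), U)) := by
    intro n t
    (repeat' (first | with_reducible exact IntF.id | with_reducible exact IntF.fst' | with_reducible exact IntF.snd' | with_reducible exact IntF.const _ | with_reducible exact Int.const _ | assumption | with_reducible apply Int.and | with_reducible apply Int.or | with_reducible apply Int.not | with_reducible apply Int.imp | with_reducible apply Int.iff | with_reducible apply Int.ne | with_reducible apply Int.eq | with_reducible apply Int.mem | with_reducible apply Int.subset | with_reducible apply Int.ltN | with_reducible apply Int.leN | with_reducible_and_instances apply Int.le | with_reducible_and_instances apply Int.lt | with_reducible apply Int.all | with_reducible apply Int.ex | with_reducible apply IntF.fst | with_reducible apply IntF.snd | with_reducible apply IntF.app | with_reducible apply IntF.inl | with_reducible apply IntF.inr | with_reducible_and_instances apply IntF.mul | with_reducible_and_instances apply IntF.inv | with_reducible_and_instances apply IntF.add | with_reducible_and_instances apply IntF.sub | with_reducible_and_instances apply IntF.neg | with_reducible_and_instances apply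 IntF.smul | with_reducible apply Int.fin | with_reducible apply IntF.sep | with_reducible apply IntF.lam | with_reducible apply IntF.insert | with_reducible apply IntF.singleton | with_reducible apply IntF.union | with_reducible apply IntF.iimage | with_reducible apply IntF.ite | with_reducible apply IntF.the | with_reducible apply IntF.irec | with_reducible apply IntF.succ | with_reducible apply IntF.val | with_reducible apply IntF.mk | (with_reducible refine Int.comp ?_ ?_; assumption) | (with_reducible refine Int.comp₂ ?_ ?_ ?_; assumption) | (with_reducible refine Int.comp₃ ?_ ?_ ?_ ?_; assumption) | (with_reducible refine Int.comp₄ ?_ ?_ ?_ ?_ ?_; assumption) | (with_reducible refine IntF.comp ?_ ?_; assumption) | (with_reducible refine IntF.comp₂ ?_ ?_ ?_; assumption) | (with_reducible refine IntF.comp₃ ?_ ?_ ?_ ?_; assumption) | with_reducible apply IntF.pair))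
  have hv : ∀ n t v, Val2 (relc N fun (p : INat N × IPow N (INat N)) (V : IPow N (IPow N α)) =>
      V = sep N fun U : IPow N α => D (p, U)) n t v ↔ ∃ (n' : INat N) (t' : IPow N (INat N)),
        n = code n' ∧ t = code t' ∧ v = code (sep N fun U : IPow N α => D ((n', t'), U)) := by
    intro n t v
    constructor
    · rintro ⟨p, h1, h2⟩
      obtain ⟨⟨n', t'⟩, V, rfl, h3, h4⟩ := (app_relc hF).1 h2
      obtain ⟨h5, h6⟩ := op_inj ((ordPair_iff.1 h1).symm.trans h3)
      exact ⟨n', t', h5, h6, h4⟩
    · rintro ⟨n', t', rfl, rfl, rfl⟩
      exact ⟨_, ordPair_iff.2 rfl, (app_relc hF).2 ⟨(n', t'), _, rfl, rfl, rfl⟩⟩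
  have hv' : ∀ (n : INat N) (t : IPow N (INat N)) v,
      Val2 (relc N fun (p : INat N × IPow N (INat N)) (V : IPow N (IPow N α)) =>
      V = sep N fun U : IPow N α => D (p, U)) (code n) (code t) v ↔
        v = code (sep N fun U : IPow N α => D ((n, t), U)) := by
    intro n t v
    rw [hv]
    constructor
    · rintro ⟨n', t', h1, h2, rfl⟩
      rw [ITy.inj h1, ITy.inj h2]
    · rintro rfl
      exact ⟨n, t, rfl, rfl, rfl⟩
  refine ⟨relc N fun (p : INat N × IPow N (INat N)) (V : IPow N (IPow N α)) =>
      V = sep N fun U : IPow N α => D (p, U), ?_, ?_, ?_, ?_⟩
  · intro n t hnt
    obtain ⟨n, t, rfl, rfl, hn, ht⟩ := node_code hnt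
    exact ⟨_, (hv' n t _).2 rfl, fun v hv => (hv' n t v).1 hv⟩
  · intro n t v hnt hvv
    obtain ⟨n, t, rfl, rfl, hn, ht⟩ := node_code hnt
    rw [(hv' n t v).1 hvv]
    exact isMod_of (h.modd n t)
  · intro n m s t s' hns hnt hst hmn hs' v v' h1 h2 w g hw hg v₀ v₁ h3 h4
    obtain ⟨n, s, rfl, rfl, hn, hs⟩ := node_code hns
    obtain ⟨n', t, hnn, rfl, -, ht⟩ := node_code hnt
    rw [← ITy.inj hnn] at ht
    have hm : m = code n.succ := Helper672.Plain.Zermelo.ext _ _ fun z =>
      (hmn z).trans (isSucc_code n z).symm
    subst hm
    have hs'' : s' = code (insert n s : IPow N (INat N)) := Helper672.Plain.Zermelo.ext _ _ fun z =>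
      (hs' z).trans (ins_code n s z).symm
    subst hs''
    rw [(hv' _ _ _).1 h1] at hw
    rw [(hv' _ _ _).1 h2] at hg
    rw [(hv' _ _ _).1 h3, (hv' _ _ _).1 h4]
    obtain ⟨W, hW, rfl⟩ := mem_codeB.1 hw
    obtain ⟨G, hG, rfl⟩ := mem_codeB.1 hg
    rw [mem_sep (hI _ _)] at hW hG
    obtain ⟨U, hU⟩ := h.ne n.succ s
    obtain ⟨U', hU'⟩ := h.ne n.succ (insert n s)
    have h5 := h.child0 n s W U hW hU
    have h6 := h.child1 n s W U' hW hU'
    have h7 := h.dis n s t W G hs ht (fun e => hst (by rw [e])) hW hG
    refine ⟨code U, code U', mem_codeM.2 ((mem_sep (hI _ _)).2 hU),
      mem_codeM.2 ((mem_sep (hI _ _)).2 hU'), fun b hb => ?_, fun b hb => ?_⟩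
    · have e : b = code ((U ∪ U') \ W) := isDiff_code.1 fun z => (hb z).trans (and_congr
        ((isUnion_code (w := code (U ∪ U'))).2 rfl z).symm Iff.rfl)
      rw [e]
      refine isFinite_of_fin ((h5.union h6).subset fun x hx => ?_)
      rw [mem_sdiff, mem_union] at hx
      rw [mem_union, mem_sdiff, mem_sdiff]
      tauto
    · have e : b = code ((U ∪ U') ∩ G) := isInter_code.1 fun z => (hb z).trans (and_congr
        ((isUnion_code (w := code (U ∪ U'))).2 rfl z).symm Iff.rfl)
      rw [e]
      refine isFinite_of_fin (((h5.union h6).union h7).subset fun x hx => ?_)
      rw [mem_inter, mem_union] at hx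
      rw [mem_union, mem_union, mem_sdiff, mem_sdiff, mem_inter]
      tauto
  · intro n p g s hn hk hp hg hgv b hb
    obtain ⟨n, rfl⟩ := natB.1 hn
    obtain ⟨B, rfl⟩ := subs_code (α := α) (u := b) fun z hz => ((hb z).1 hz).1
    have hA := int_app3 (α := α) g
    obtain ⟨K, hK, hcov⟩ := h.cover n
    have hA' : Int N (fun q : ((IPow N α × α) × IPow N (INat N)) × IPow N α =>
        App g (code q.1.2) (code q.2)) :=
      Int.comp (p := fun q : IPow N (INat N) × IPow N α => App g (code q.1) (code q.2))
        (f := fun q : ((IPow N α × α) × IPow N (INat N)) × IPow N α => (q.1.2, q.2)) hA (by (repeat' (first | with_reducible exact IntF.id | with_reducible exact IntF.fst' | with_reducible exact IntF.snd' | with_reducible exact IntF.const _ | with_reducible exact Int.const _ | assumption | with_reducible apply Int.and | with_reducible apply Int.or | with_reducible apply Int.not | with_reducible apply Int.imp | with_reducible apply Int.iff | with_reducible apply Int.ne | with_reducible apply Int.eq | with_reducible apply Int.mem | with_reducible apply Int.subset | with_reducible apply Int.ltN | with_reducible apply Int.leN | with_reducible_and_instances apply Int.le | with_reducible_and_instances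 apply Int.lt | with_reducible apply Int.all | with_reducible apply Int.ex | with_reducible apply IntF.fst | with_reducible apply IntF.snd | with_reducible apply IntF.app | with_reducible apply IntF.inl | with_reducible apply IntF.inr | with_reducible_and_instances apply IntF.mul | with_reducible_and_instances apply IntF.inv | with_reducible_and_instances apply IntF.add | with_reducible_and_instances apply IntF.sub | with_reducible_and_instances apply IntF.neg | with_reducible_and_instances apply IntF.smul | with_reducible apply Int.fin | with_reducible apply IntF.sep | with_reducible apply IntF.lam | with_reducible apply IntF.insert | with_reducible apply IntF.singleton | with_reducible apply IntF.union | with_reducible apply IntF.iimage | with_reducible apply IntF.ite | with_reducible apply IntF.the | with_reducible apply IntF.irec | with_reducible apply IntF.succ | with_reducible apply IntF.val | with_reducible apply IntF.mk | (with_reducible refine Int.comp ?_ ?_; assumption) | (with_reducible refine Int.comp₂ ?_ ?_ ?_; assumption) | (with_reducible refine Int.comp₃ ?_ ?_ ?_ ?_; assumption) | (with_reducible refine Int.comp₄ ?_ ?_ ?_ ?_ ?_; assumption) | (with_reducible refine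 IntF.comp ?_ ?_; assumption) | (with_reducible refine IntF.comp₂ ?_ ?_ ?_; assumption) | (with_reducible refine IntF.comp₃ ?_ ?_ ?_ ?_; assumption) | with_reducible apply IntF.pair)))
    have hSb : Int N (fun q : (IPow N α × α) × IPow N (INat N) => Sb n q.2) := by
      unfold Sb
      (repeat' (first | with_reducible exact IntF.id | with_reducible exact IntF.fst' | with_reducible exact IntF.snd' | with_reducible exact IntF.const _ | with_reducible exact Int.const _ | assumption | with_reducible apply Int.and | with_reducible apply Int.or | with_reducible apply Int.not | with_reducible apply Int.imp | with_reducible apply Int.iff | with_reducible apply Int.ne | with_reducible apply Int.eq | with_reducible apply Int.mem | with_reducible apply Int.subset | with_reducible apply Int.ltN | with_reducible apply Int.leN | with_reducible_and_instances apply Int.le | with_reducible_and_instances apply Int.lt | with_reducible apply Int.all | with_reducible apply Int.ex | with_reducible apply IntF.fst | with_reducible apply IntF.snd | with_reducible apply IntF.app | with_reducible apply IntF.inl | with_reducible apply IntF.inr | with_reducible_and_instances apply IntF.mul | with_reducible_and_instances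 apply IntF.inv | with_reducible_and_instances apply IntF.add | with_reducible_and_instances apply IntF.sub | with_reducible_and_instances apply IntF.neg | with_reducible_and_instances apply IntF.smul | with_reducible apply Int.fin | with_reducible apply IntF.sep | with_reducible apply IntF.lam | with_reducible apply IntF.insert | with_reducible apply IntF.singleton | with_reducible apply IntF.union | with_reducible apply IntF.iimage | with_reducible apply IntF.ite | with_reducible apply IntF.the | with_reducible apply IntF.irec | with_reducible apply IntF.succ | with_reducible apply IntF.val | with_reducible apply IntF.mk | (with_reducible refine Int.comp ?_ ?_; assumption) | (with_reducible refine Int.comp₂ ?_ ?_ ?_; assumption) | (with_reducible refine Int.comp₃ ?_ ?_ ?_ ?_; assumption) | (with_reducible refine Int.comp₄ ?_ ?_ ?_ ?_ ?_; assumption) | (with_reducible refine IntF.comp ?_ ?_; assumption) | (with_reducible refine IntF.comp₂ ?_ ?_ ?_; assumption) | (with_reducible refine IntF.comp₃ ?_ ?_ ?_ ?_; assumption) | with_reducible apply IntF.pair))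
    have hKI : Int N (fun q : IPow N α × α => q.2 ∈ q.1 ∧ ∃ t : IPow N (INat N), Sb n t ∧
        D ((n, t), q.1) ∧ ∀ U : IPow N α, App g (code t) (code U) → q.2 ∉ U) := by
      refine Int.and (by (repeat' (first | with_reducible exact IntF.id | with_reducible exact IntF.fst' | with_reducible exact IntF.snd' | with_reducible exact IntF.const _ | with_reducible exact Int.const _ | assumption | with_reducible apply Int.and | with_reducible apply Int.or | with_reducible apply Int.not | with_reducible apply Int.imp | with_reducible apply Int.iff | with_reducible apply Int.ne | with_reducible apply Int.eq | with_reducible apply Int.mem | with_reducible apply Int.subset | with_reducible apply Int.ltN | with_reducible apply Int.leN | with_reducible_and_instances apply Int.le | with_reducible_and_instances apply Int.lt | with_reducible apply Int.all | with_reducible apply Int.ex | with_reducible apply IntF.fst | with_reducible apply IntF.snd | with_reducible apply IntF.app | with_reducible apply IntF.inl | with_reducible apply IntF.inr | with_reducible_and_instances apply IntF.mul | with_reducible_and_instances apply IntF.inv | with_reducible_and_instances apply IntF.add | with_reducible_and_instances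 apply IntF.sub | with_reducible_and_instances apply IntF.neg | with_reducible_and_instances apply IntF.smul | with_reducible apply Int.fin | with_reducible apply IntF.sep | with_reducible apply IntF.lam | with_reducible apply IntF.insert | with_reducible apply IntF.singleton | with_reducible apply IntF.union | with_reducible apply IntF.iimage | with_reducible apply IntF.ite | with_reducible apply IntF.the | with_reducible apply IntF.irec | with_reducible apply IntF.succ | with_reducible apply IntF.val | with_reducible apply IntF.mk | (with_reducible refine Int.comp ?_ ?_; assumption) | (with_reducible refine Int.comp₂ ?_ ?_ ?_; assumption) | (with_reducible refine Int.comp₃ ?_ ?_ ?_ ?_; assumption) | (with_reducible refine Int.comp₄ ?_ ?_ ?_ ?_ ?_; assumption) | (with_reducible refine IntF.comp ?_ ?_; assumption) | (with_reducible refine IntF.comp₂ ?_ ?_ ?_; assumption) | (with_reducible refine IntF.comp₃ ?_ ?_ ?_ ?_; assumption) | with_reducible apply IntF.pair))) (Int.ex (Int.and hSb (Int.and (by (repeat' (first | with_reducible exact IntF.id | with_reducible exact IntF.fst' | with_reducible exact IntF.snd' | with_reducible exact IntF.const _ | with_reducible exact Int.const _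 | assumption | with_reducible apply Int.and | with_reducible apply Int.or | with_reducible apply Int.not | with_reducible apply Int.imp | with_reducible apply Int.iff | with_reducible apply Int.ne | with_reducible apply Int.eq | with_reducible apply Int.mem | with_reducible apply Int.subset | with_reducible apply Int.ltN | with_reducible apply Int.leN | with_reducible_and_instances apply Int.le | with_reducible_and_instances apply Int.lt | with_reducible apply Int.all | with_reducible apply Int.ex | with_reducible apply IntF.fst | with_reducible apply IntF.snd | with_reducible apply IntF.app | with_reducible apply IntF.inl | with_reducible apply IntF.inr | with_reducible_and_instances apply IntF.mul | with_reducible_and_instances apply IntF.inv | with_reducible_and_instances apply IntF.add | with_reducible_and_instances apply IntF.sub | with_reducible_and_instances apply IntF.neg | with_reducible_and_instances apply IntF.smul | with_reducible apply Int.fin | with_reducible apply IntF.sep | with_reducible apply IntF.lam | with_reducible apply IntF.insert | with_reducible apply IntF.singleton | with_reducible apply IntF.union | with_reducible apply IntF.iimage | with_reducible apply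 IntF.ite | with_reducible apply IntF.the | with_reducible apply IntF.irec | with_reducible apply IntF.succ | with_reducible apply IntF.val | with_reducible apply IntF.mk | (with_reducible refine Int.comp ?_ ?_; assumption) | (with_reducible refine Int.comp₂ ?_ ?_ ?_; assumption) | (with_reducible refine Int.comp₃ ?_ ?_ ?_ ?_; assumption) | (with_reducible refine Int.comp₄ ?_ ?_ ?_ ?_ ?_; assumption) | (with_reducible refine IntF.comp ?_ ?_; assumption) | (with_reducible refine IntF.comp₂ ?_ ?_ ?_; assumption) | (with_reducible refine IntF.comp₃ ?_ ?_ ?_ ?_; assumption) | with_reducible apply IntF.pair))) (Int.all ?_))))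
      exact Int.imp hA' (by (repeat' (first | with_reducible exact IntF.id | with_reducible exact IntF.fst' | with_reducible exact IntF.snd' | with_reducible exact IntF.const _ | with_reducible exact Int.const _ | assumption | with_reducible apply Int.and | with_reducible apply Int.or | with_reducible apply Int.not | with_reducible apply Int.imp | with_reducible apply Int.iff | with_reducible apply Int.ne | with_reducible apply Int.eq | with_reducible apply Int.mem | with_reducible apply Int.subset | with_reducible apply Int.ltN | with_reducible apply Int.leN | with_reducible_and_instances apply Int.le | with_reducible_and_instances apply Int.lt | with_reducible apply Int.all | with_reducible apply Int.ex | with_reducible apply IntF.fst | with_reducible apply IntF.snd | with_reducible apply IntF.app | with_reducible apply IntF.inl | with_reducible apply IntF.inr | with_reducible_and_instances apply IntF.mul | with_reducible_and_instances apply IntF.inv | with_reducible_and_instances apply IntF.add | with_reducible_and_instances apply IntF.sub | with_reducible_and_instances apply IntF.neg | with_reducible_and_instances apply IntF.smul | with_reducible apply Int.fin | with_reducible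 apply IntF.sep | with_reducible apply IntF.lam | with_reducible apply IntF.insert | with_reducible apply IntF.singleton | with_reducible apply IntF.union | with_reducible apply IntF.iimage | with_reducible apply IntF.ite | with_reducible apply IntF.the | with_reducible apply IntF.irec | with_reducible apply IntF.succ | with_reducible apply IntF.val | with_reducible apply IntF.mk | (with_reducible refine Int.comp ?_ ?_; assumption) | (with_reducible refine Int.comp₂ ?_ ?_ ?_; assumption) | (with_reducible refine Int.comp₃ ?_ ?_ ?_ ?_; assumption) | (with_reducible refine Int.comp₄ ?_ ?_ ?_ ?_ ?_; assumption) | (with_reducible refine IntF.comp ?_ ?_; assumption) | (with_reducible refine IntF.comp₂ ?_ ?_ ?_; assumption) | (with_reducible refine IntF.comp₃ ?_ ?_ ?_ ?_; assumption) | with_reducible apply IntF.pair)))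
    have hKK : IntF N (fun C : IPow N α => sep N fun x => x ∈ C ∧ ∃ t : IPow N (INat N), Sb n t ∧
        D ((n, t), C) ∧ ∀ U : IPow N α, App g (code t) (code U) → x ∉ U) := IntF.sep hKI
    have hKI' : ∀ C : IPow N α, Int N (fun x => x ∈ C ∧ ∃ t : IPow N (INat N), Sb n t ∧
        D ((n, t), C) ∧ ∀ U : IPow N α, App g (code t) (code U) → x ∉ U) := fun C =>
      Int.comp (p := fun q : IPow N α × α => q.2 ∈ q.1 ∧ ∃ t : IPow N (INat N), Sb n t ∧
        D ((n, t), q.1) ∧ ∀ U : IPow N α, App g (code t) (code U) → q.2 ∉ U)
        (f := fun x : α => (C, x)) hKI (by (repeat' (first | with_reducible exact IntF.id | with_reducible exact IntF.fst' | with_reducible exact IntF.snd' | with_reducible exact IntF.const _ | with_reducible exact Int.const _ | assumption | with_reducible apply Int.and | with_reducible apply Int.or | with_reducible apply Int.not | with_reducible apply Int.imp | with_reducible apply Int.iff | with_reducible apply Int.ne | with_reducible apply Int.eq | with_reducible apply Int.mem | with_reducible apply Int.subset | with_reducible apply Int.ltN | with_reducible apply Int.leN | with_reducible_and_instances apply Int.le | with_reducible_and_instances apply Int.lt | with_reducible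 apply Int.all | with_reducible apply Int.ex | with_reducible apply IntF.fst | with_reducible apply IntF.snd | with_reducible apply IntF.app | with_reducible apply IntF.inl | with_reducible apply IntF.inr | with_reducible_and_instances apply IntF.mul | with_reducible_and_instances apply IntF.inv | with_reducible_and_instances apply IntF.add | with_reducible_and_instances apply IntF.sub | with_reducible_and_instances apply IntF.neg | with_reducible_and_instances apply IntF.smul | with_reducible apply Int.fin | with_reducible apply IntF.sep | with_reducible apply IntF.lam | with_reducible apply IntF.insert | with_reducible apply IntF.singleton | with_reducible apply IntF.union | with_reducible apply IntF.iimage | with_reducible apply IntF.ite | with_reducible apply IntF.the | with_reducible apply IntF.irec | with_reducible apply IntF.succ | with_reducible apply IntF.val | with_reducible apply IntF.mk | (with_reducible refine Int.comp ?_ ?_; assumption) | (with_reducible refine Int.comp₂ ?_ ?_ ?_; assumption) | (with_reducible refine Int.comp₃ ?_ ?_ ?_ ?_; assumption) | (with_reducible refine Int.comp₄ ?_ ?_ ?_ ?_ ?_; assumption) | (with_reducible refine IntF.comp ?_ ?_; assumption)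 | (with_reducible refine IntF.comp₂ ?_ ?_ ?_; assumption) | (with_reducible refine IntF.comp₃ ?_ ?_ ?_ ?_; assumption) | with_reducible apply IntF.pair)))
    refine isFinite_of_fin ((IFin.isUnion (hK.image hKK) ?_).subset fun x hx => ?_)
    · intro V hV
      obtain ⟨C, hC, rfl⟩ := (mem_iimage hKK).1 hV
      by_cases h1 : ∃ t, Sb n t ∧ D ((n, t), C)
      · obtain ⟨t, ht, hCt⟩ := h1
        have htp : Plain.Mem (code t) p := by
          refine (hp _).2 fun z hz => ?_
          obtain ⟨k, hk, rfl⟩ := mem_codeB.1 hz
          exact ht k hk
        obtain ⟨u, hu, -⟩ := hg.2 _ htp
        have h2 := hgv _ _ _ hu ((hv' n t _).2 rfl)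
        obtain ⟨U, hU, rfl⟩ := mem_codeB.1 h2
        rw [mem_sep (hI _ _)] at hU
        refine (h.diff n t C U hCt hU).subset fun x hx => ?_
        obtain ⟨hxC, t', ht', hCt', hxU⟩ := (mem_sep (hKI' C)).1 hx
        have h3 : t' = t := by
          by_contra hne
          refine h.inf n t C hCt ((h.dis n t' t C C ht' ht hne hCt' hCt).subset fun y hy => ?_)
          exact mem_inter.2 ⟨hy, hy⟩
        rw [h3] at hxU
        exact mem_sdiff.2 ⟨hxC, hxU U hu⟩
      · refine IFin.empty.subset fun x hx => ?_
        obtain ⟨hxC, t', ht', hCt', hxU⟩ := (mem_sep (hKI' C)).1 hx
        exact absurd ⟨t', ht', hCt'⟩ h1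
    · rw [mem_isUnion]
      obtain ⟨C, t, hC, hxC, ht, hCt⟩ := hcov x
      refine ⟨_, (mem_iimage hKK).2 ⟨C, hC, rfl⟩, (mem_sep (hKI' C)).2 ⟨hxC, t, ht, hCt,
        fun U hU hxU => ?_⟩⟩
      exact ((hb (code x)).1 (mem_codeM.2 hx)).2 ⟨_, _, hU, mem_codeM.2 hxU⟩

end

section

attribute [local instance] Helper672.Plain.toL

theorem dw_of_rep {M : Type u} [L.Structure M] [IsModel M] {N : Type u} [LSet.Structure N]
    [hZ : Helper672.Plain.Zermelo N] (h : HasRep M (R21 (M := M)) N) :
    ∃ x : N, DyadicallyFilterbaseInfinite x ∧ WeaklyDedekindFinite x := by
  letI : IsModel N := Helper672.Plain.isModel_toL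
  obtain ⟨r⟩ := h
  obtain ⟨D, hD⟩ := exists_fb3m r
  exact ⟨dom N r.α, hD.fb3.dyadic, hD.fb3.wdf⟩

end

theorem exists_dw (M : Type u) [LSet.Structure M] (hM : ZF M) :
    ∃ (N : Type u) (_ : LSet.Structure N), ZF N ∧
      ∃ x : N, DyadicallyFilterbaseInfinite x ∧ WeaklyDedekindFinite x :=
  exists_of_rep (P := fun N _ => ∃ x : N, DyadicallyFilterbaseInfinite x ∧
    WeaklyDedekindFinite x)
    (fun M _ _ _ => ⟨B21 M, INat M × IPow M (INat M), inferInstance, inferInstance, R21, int_R21,
      fun N _ _ h => dw_of_rep h⟩) M hM

end Pool.Agent.V11257G
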