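import Pool.Agent.H310R3.Cards

/-!
# Filterbase infinite sets in a structure for the language of set theory: definitions

`Mem`, `IsOrdPair` and `LSet` are from `Pool.Agent.Helper672.SIK.Plain`, and `IsNat`, `IsOmega`,
`IsFun`, `App` and `IsFinite` from `Pool.Agent.H310R3.Cards`.
-/

namespace Pool.Agent.V11257G

open FirstOrder FirstOrder.Language
open Pool.Agent.Helper672.Plain (LSet Mem IsOrdPair)
open Pool.Agent.H310Cards

universe u

variable {M : Type u} [LSet.Structure M]

/-- `v` is a filterbase in `a`: a nonempty set of nonempty subsets of `a` such that the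
intersection of any two of its elements contains one of its elements. -/
structure IsFilterbase (v a : M) : Prop where
  ne : ∃ u, Mem u v
  sub : ∀ u, Mem u v → (∀ z, Mem z u → Mem z a) ∧ ∃ z, Mem z u
  inter : ∀ u u', Mem u v → Mem u' v → ∃ w, Mem w v ∧ ∀ z, Mem z w → Mem z u ∧ Mem z u'

/-- The intersection of the elements of `v` is empty. -/
def IsFree (v : M) : Prop := ∀ z, ∃ u, Mem u v ∧ ¬ Mem z u

/-- `f` is a sequence: a function whose domain is the set of the natural numbers. -/
def IsSeq (f : M) : Prop := ∃ w s, IsOmega w ∧ IsFun f w s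

/-- `a` is filterbase infinite: there are free filterbases `v n` in `a` such that for all distinct
`m` and `n` there are disjoint `u` in `v m` and `u'` in `v n`. -/
def FilterbaseInfinite (a : M) : Prop :=
  ∃ f, IsSeq f ∧ (∀ n v, App f n v → IsFilterbase v a ∧ IsFree v) ∧
    ∀ m n v v', App f m v → App f n v' → m ≠ n →
      ∃ u u', Mem u v ∧ Mem u' v' ∧ ∀ z, ¬ (Mem z u ∧ Mem z u')

/-- `w` is the union of `u` and `u'`. -/
def IsUnion (w u u' : M) : Prop := ∀ z, Mem z w ↔ Mem z u ∨ Mem z u'

/-- `w` is the intersection of `u` and `u'`. -/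
def IsInter (w u u' : M) : Prop := ∀ z, Mem z w ↔ Mem z u ∧ Mem z u'

/-- `w` is the difference of `u` and `u'`. -/
def IsDiff (w u u' : M) : Prop := ∀ z, Mem z w ↔ Mem z u ∧ ¬ Mem z u'

/-- `v` is a filterbase in `a`, closed under (finite) unions and (finite) intersections, all
elements of `v` are infinite, and the difference of any two elements of `v` is finite. -/
structure IsMod (v a : M) : Prop where
  fb : IsFilterbase v a
  union : ∀ u u' w, Mem u v → Mem u' v → IsUnion w u u' → Mem w v
  inter : ∀ u u' w, Mem u v → Mem u' v → IsInter w u u' → Mem w v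
  inf : ∀ u, Mem u v → ¬ IsFinite u
  diff : ∀ u u' w, Mem u v → Mem u' v → IsDiff w u u' → IsFinite w

/-- `b` is the set of the elements of `a` that do not belong to any value of `g`. -/
def IsRest (b a g : M) : Prop := ∀ z, Mem z b ↔ Mem z a ∧ ¬ ∃ i u, App g i u ∧ Mem z u

/-- `a` is strongly filterbase infinite: there is a sequence of filterbases `v n` in `a` such that
(i), (ii) each `v n` is closed under finite unions and intersections, all elements of `v n` are
infinite and their differences are finite; (iii) for distinct `m` and `n` there are `u` in `v m`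
and `u'` in `v n` such that the intersection of `u` and `u'` is finite; (iv) for every natural
number `n` (the set of all smaller natural numbers) and every choice `g` of elements of `v i`, for
`i` in `n`, infinitely many elements of `a` do not belong to any value of `g`. -/
def StronglyFilterbaseInfinite (a : M) : Prop :=
  ∃ f, IsSeq f ∧ (∀ n v, App f n v → IsMod v a) ∧
    (∀ m n v v', App f m v → App f n v' → m ≠ n →
      ∃ u u' w, Mem u v ∧ Mem u' v' ∧ IsInter w u u' ∧ IsFinite w) ∧
    ∀ n g s, IsNat n → IsFun g n s → (∀ i u v, App g i u → App f i v → Mem u v) →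
      ∀ b, IsRest b a g → ¬ IsFinite b

/-- `n` is a positive natural number of the model and `t` is a subset of (the set) `n`. The `2 ^ n`
subsets of `n` (equivalently, the binary sequences of length `n`) are the indices at level `n`. -/
def IsNode (n t : M) : Prop := IsNat n ∧ (∃ k, Mem k n) ∧ ∀ k, Mem k t → Mem k n

/-- `m` is the union of `n` and `{n}`. -/
def IsSucc (m n : M) : Prop := ∀ z, Mem z m ↔ Mem z n ∨ z = n

/-- The value of `f` at the ordered pair of `n` and `t` is `v`. -/
def Val2 (f n t v : M) : Prop := ∃ p, IsOrdPair p n t ∧ App f p v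

/-- The set `b` is finite, where `b` is the difference of the union of `u` and `u'` and the
set `w`. -/
def FinDiff (u u' w : M) : Prop :=
  ∀ b, (∀ z, Mem z b ↔ (Mem z u ∨ Mem z u') ∧ ¬ Mem z w) → IsFinite b

/-- The set `b` is finite, where `b` is the intersection of the union of `u` and `u'` and the
set `w`. -/
def FinInter (u u' w : M) : Prop :=
  ∀ b, (∀ z, Mem z b ↔ (Mem z u ∨ Mem z u') ∧ Mem z w) → IsFinite b

/-- `a` is dyadically filterbase infinite: there is a function `f` on the set of all pairs of a
positive natural number `n` and a subset `t` of `n` such that, writing `v(n, t)` for the values: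
(1), (2) every `v(n, t)` is a filterbase in `a` that is closed under finite unions and
intersections, all its elements are infinite and their differences are finite; (3) for all distinct
subsets `s` and `t` of `n`, all `w` in `v(n, s)` and `g` in `v(n, t)` there are `u` in
`v(n + 1, s)` and `u'` in `v(n + 1, s ∪ {n})` such that `(u ∪ u') \ w` and `(u ∪ u') ∩ g` are
finite; (4) for every choice `g` of elements of `v(n, t)`, for all subsets `t` of `n`, only
finitely many elements of `a` do not belong to any value of `g`. -/
def DyadicallyFilterbaseInfinite (a : M) : Prop :=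
  ∃ f, (∀ n t, IsNode n t → ∃! v, Val2 f n t v) ∧
    (∀ n t v, IsNode n t → Val2 f n t v → IsMod v a) ∧
    (∀ n m s t s', IsNode n s → IsNode n t → s ≠ t → IsSucc m n → (∀ z, Mem z s' ↔ Mem z s ∨ z = n) →
      ∀ v v', Val2 f n s v → Val2 f n t v' → ∀ w g, Mem w v → Mem g v' →
        ∀ v₀ v₁, Val2 f m s v₀ → Val2 f m s' v₁ →
          ∃ u u', Mem u v₀ ∧ Mem u' v₁ ∧ FinDiff u u' w ∧ FinInter u u' g) ∧
    ∀ n p g s, IsNat n → (∃ k, Mem k n) → IsPow p n → IsFun g p s →
      (∀ t u v, App g t u → Val2 f n t v → Mem u v) → ∀ b, IsRest b a g → IsFinite b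

end Pool.Agent.V11257G
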