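import Pool.Agent.V11257.Mf5

/-!
# Families of subsets of a set of the model
-/

set_option maxHeartbeats 1000000
set_option linter.all false
set_option synthInstance.maxSize 2000

namespace Pool.Agent.V11257G

open FirstOrder FirstOrder.Language
open Pool.Agent.Helper672
open Pool.Agent.Helper672.ZFA
open Pool.Agent.Helper672.ZFA.V246
open Pool.Agent.Helper672.Plain (LSet)
open Pool.Agent.H310
open Pool.Agent.H310Cards
open Pool.Agent.V11246

universe u

section

variable {N : Type u} [L.Structure N] [IsModel N] {α δ γ : Type u} [ITy N α] [ITy N δ] [ITy N γ]

/-- There is no sequence of disjoint nonempty subsets of a finite set. -/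
theorem no_disj {t : IPow N γ} (ht : IFin t) {F : INat N × γ → Prop} (hF : Int N F)
    (hne : ∀ n, ∃ c, c ∈ t ∧ F (n, c)) (hd : ∀ m n c, c ∈ t → F (m, c) → F (n, c) → m = n) :
    False := by
  have hI : ∀ n, Int N (fun c => c ∈ t ∧ F (n, c)) := by
    intro n
    (repeat' (first | with_reducible exact IntF.id | with_reducible exact IntF.fst' | with_reducible exact IntF.snd' | with_reducible exact IntF.const _ | with_reducible exact Int.const _ | assumption | with_reducible apply Int.and | with_reducible apply Int.or | with_reducible apply Int.not | with_reducible apply Int.imp | with_reducible apply Int.iff | with_reducible apply Int.ne | with_reducible apply Int.eq | with_reducible apply Int.mem | with_reducible apply Int.subset | with_reducible apply Int.ltN | with_reducible apply Int.leN | with_reducible_and_instances apply Int.le | with_reducible_and_instances apply Int.lt | with_reducible apply Int.all | with_reducible apply Int.ex | with_reducible apply IntF.fst | with_reducible apply IntF.snd | with_reducible apply IntF.app | with_reducible apply IntF.inl | with_reducible apply IntF.inr | with_reducible_and_instances apply IntF.mul | with_reducible_and_instances apply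 IntF.inv | with_reducible_and_instances apply IntF.add | with_reducible_and_instances apply IntF.sub | with_reducible_and_instances apply IntF.neg | with_reducible_and_instances apply IntF.smul | with_reducible apply Int.fin | with_reducible apply IntF.sep | with_reducible apply IntF.lam | with_reducible apply IntF.insert | with_reducible apply IntF.singleton | with_reducible apply IntF.union | with_reducible apply IntF.iimage | with_reducible apply IntF.ite | with_reducible apply IntF.the | with_reducible apply IntF.irec | with_reducible apply IntF.succ | with_reducible apply IntF.val | with_reducible apply IntF.mk | (with_reducible refine Int.comp ?_ ?_; assumption) | (with_reducible refine Int.comp₂ ?_ ?_ ?_; assumption) | (with_reducible refine Int.comp₃ ?_ ?_ ?_ ?_; assumption) | (with_reducible refine Int.comp₄ ?_ ?_ ?_ ?_ ?_; assumption) | (with_reducible refine IntF.comp ?_ ?_; assumption) | (with_reducible refine IntF.comp₂ ?_ ?_ ?_; assumption) | (with_reducible refine IntF.comp₃ ?_ ?_ ?_ ?_; assumption) | with_reducible apply IntF.pair))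
  have hu : IntF N (fun n : INat N => sep N fun c => c ∈ t ∧ F (n, c)) := by (repeat' (first | with_reducible exact IntF.id | with_reducible exact IntF.fst' | with_reducible exact IntF.snd' | with_reducible exact IntF.const _ | with_reducible exact Int.const _ | assumption | with_reducible apply Int.and | with_reducible apply Int.or | with_reducible apply Int.not | with_reducible apply Int.imp | with_reducible apply Int.iff | with_reducible apply Int.ne | with_reducible apply Int.eq | with_reducible apply Int.mem | with_reducible apply Int.subset | with_reducible apply Int.ltN | with_reducible apply Int.leN | with_reducible_and_instances apply Int.le | with_reducible_and_instances apply Int.lt | with_reducible apply Int.all | with_reducible apply Int.ex | with_reducible apply IntF.fst | with_reducible apply IntF.snd | with_reducible apply IntF.app | with_reducible apply IntF.inl | with_reducible apply IntF.inr | with_reducible_and_instances apply IntF.mul | with_reducible_and_instances apply IntF.inv | with_reducible_and_instances apply IntF.add | with_reducible_and_instances apply IntF.sub | with_reducible_and_instances apply IntF.neg | with_reducible_and_instances apply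 IntF.smul | with_reducible apply Int.fin | with_reducible apply IntF.sep | with_reducible apply IntF.lam | with_reducible apply IntF.insert | with_reducible apply IntF.singleton | with_reducible apply IntF.union | with_reducible apply IntF.iimage | with_reducible apply IntF.ite | with_reducible apply IntF.the | with_reducible apply IntF.irec | with_reducible apply IntF.succ | with_reducible apply IntF.val | with_reducible apply IntF.mk | (with_reducible refine Int.comp ?_ ?_; assumption) | (with_reducible refine Int.comp₂ ?_ ?_ ?_; assumption) | (with_reducible refine Int.comp₃ ?_ ?_ ?_ ?_; assumption) | (with_reducible refine Int.comp₄ ?_ ?_ ?_ ?_ ?_; assumption) | (with_reducible refine IntF.comp ?_ ?_; assumption) | (with_reducible refine IntF.comp₂ ?_ ?_ ?_; assumption) | (with_reducible refine IntF.comp₃ ?_ ?_ ?_ ?_; assumption) | with_reducible apply IntF.pair))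
  refine not_fin_range hu (fun m n hmn => ?_) ht.pow fun n => ?_
  · obtain ⟨c, hc, hc'⟩ := hne m
    have h1 : c ∈ sep N fun c => c ∈ t ∧ F (m, c) := (mem_sep (hI m)).2 ⟨hc, hc'⟩
    rw [hmn, mem_sep (hI n)] at h1
    exact hd m n c hc hc' h1.2
  · rw [mem_ipow]
    intro c hc
    exact ((mem_sep (hI n)).1 hc).1

/-- The set of the elements of the set named `d`. -/
noncomputable def ex (mem : α × δ → Prop) (d : δ) : IPow N α := sep N fun x => mem (x, d)

theorem mem_ex {mem : α × δ → Prop} (hm : Int N mem) {x : α} {d : δ} :
    x ∈ ex (N := N) mem d ↔ mem (x, d) := mem_sep (by (repeat' (first | with_reducible exact IntF.id | with_reducible exact IntF.fst' | with_reducible exact IntF.snd' | with_reducible exact IntF.const _ | with_reducible exact Int.const _ | assumption | with_reducible apply Int.and | with_reducible apply Int.or | with_reducible apply Int.not | with_reducible apply Int.imp | with_reducible apply Int.iff | with_reducible apply Int.ne | with_reducible apply Int.eq | with_reducible apply Int.mem | with_reducible apply Int.subset | with_reducible apply Int.ltN | with_reducible apply Int.leN | with_reducible_and_instances apply Int.le | with_reducible_and_instances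 apply Int.lt | with_reducible apply Int.all | with_reducible apply Int.ex | with_reducible apply IntF.fst | with_reducible apply IntF.snd | with_reducible apply IntF.app | with_reducible apply IntF.inl | with_reducible apply IntF.inr | with_reducible_and_instances apply IntF.mul | with_reducible_and_instances apply IntF.inv | with_reducible_and_instances apply IntF.add | with_reducible_and_instances apply IntF.sub | with_reducible_and_instances apply IntF.neg | with_reducible_and_instances apply IntF.smul | with_reducible apply Int.fin | with_reducible apply IntF.sep | with_reducible apply IntF.lam | with_reducible apply IntF.insert | with_reducible apply IntF.singleton | with_reducible apply IntF.union | with_reducible apply IntF.iimage | with_reducible apply IntF.ite | with_reducible apply IntF.the | with_reducible apply IntF.irec | with_reducible apply IntF.succ | with_reducible apply IntF.val | with_reducible apply IntF.mk | (with_reducible refine Int.comp ?_ ?_; assumption) | (with_reducible refine Int.comp₂ ?_ ?_ ?_; assumption) | (with_reducible refine Int.comp₃ ?_ ?_ ?_ ?_; assumption) | (with_reducible refine Int.comp₄ ?_ ?_ ?_ ?_ ?_; assumption) | (with_reducible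 refine IntF.comp ?_ ?_; assumption) | (with_reducible refine IntF.comp₂ ?_ ?_ ?_; assumption) | (with_reducible refine IntF.comp₃ ?_ ?_ ?_ ?_; assumption) | with_reducible apply IntF.pair)))

theorem int_ex {mem : α × δ → Prop} (hm : Int N mem) : IntF N (ex (N := N) mem) := by
  unfold ex
  (repeat' (first | with_reducible exact IntF.id | with_reducible exact IntF.fst' | with_reducible exact IntF.snd' | with_reducible exact IntF.const _ | with_reducible exact Int.const _ | assumption | with_reducible apply Int.and | with_reducible apply Int.or | with_reducible apply Int.not | with_reducible apply Int.imp | with_reducible apply Int.iff | with_reducible apply Int.ne | with_reducible apply Int.eq | with_reducible apply Int.mem | with_reducible apply Int.subset | with_reducible apply Int.ltN | with_reducible apply Int.leN | with_reducible_and_instances apply Int.le | with_reducible_and_instances apply Int.lt | with_reducible apply Int.all | with_reducible apply Int.ex | with_reducible apply IntF.fst | with_reducible apply IntF.snd | with_reducible apply IntF.app | with_reducible apply IntF.inl | with_reducible apply IntF.inr | with_reducible_and_instances apply IntF.mul | with_reducible_and_instances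 apply IntF.inv | with_reducible_and_instances apply IntF.add | with_reducible_and_instances apply IntF.sub | with_reducible_and_instances apply IntF.neg | with_reducible_and_instances apply IntF.smul | with_reducible apply Int.fin | with_reducible apply IntF.sep | with_reducible apply IntF.lam | with_reducible apply IntF.insert | with_reducible apply IntF.singleton | with_reducible apply IntF.union | with_reducible apply IntF.iimage | with_reducible apply IntF.ite | with_reducible apply IntF.the | with_reducible apply IntF.irec | with_reducible apply IntF.succ | with_reducible apply IntF.val | with_reducible apply IntF.mk | (with_reducible refine Int.comp ?_ ?_; assumption) | (with_reducible refine Int.comp₂ ?_ ?_ ?_; assumption) | (with_reducible refine Int.comp₃ ?_ ?_ ?_ ?_; assumption) | (with_reducible refine Int.comp₄ ?_ ?_ ?_ ?_ ?_; assumption) | (with_reducible refine IntF.comp ?_ ?_; assumption) | (with_reducible refine IntF.comp₂ ?_ ?_ ?_; assumption) | (with_reducible refine IntF.comp₃ ?_ ?_ ?_ ?_; assumption) | with_reducible apply IntF.pair))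

theorem FB1.no_seq {mem : α × δ → Prop} {R : δ × INat N → Prop} (h : FB1 N mem R)
    {P : INat N × IPow N α → Prop} (hP : Int N P) (ne : ∀ n, ∃ U, P (n, U))
    (inf : ∀ n U, P (n, U) → ¬ IFin U) (diff : ∀ n U U', P (n, U) → P (n, U') → IFin (U \ U'))
    (disj : ∀ m n, m ≠ n → ∃ U U', P (m, U) ∧ P (n, U') ∧ IFin (U ∩ U')) : False := by
  have hm := h.intm
  have hex := int_ex h.intm
  obtain ⟨s, hs, h1⟩ := h.hom (fun q => P (q.2, ex mem q.1)) (by (repeat' (first | with_reducible exact IntF.id | with_reducible exact IntF.fst' | with_reducible exact IntF.snd' | with_reducible exact IntF.const _ | with_reducible exact Int.const _ | assumption | with_reducible apply Int.and | with_reducible apply Int.or | with_reducible apply Int.not | with_reducible apply Int.imp | with_reducible apply Int.iff | with_reducible apply Int.ne | with_reducible apply Int.eq | with_reducible apply Int.mem | with_reducible apply Int.subset | with_reducible apply Int.ltN | with_reducible apply Int.leN | with_reducible_and_instances apply Int.le | with_reducible_and_instances apply Int.lt | with_reducible apply Int.all | with_reducible apply Int.ex | with_reducible apply IntF.fst | with_reducible apply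 IntF.snd | with_reducible apply IntF.app | with_reducible apply IntF.inl | with_reducible apply IntF.inr | with_reducible_and_instances apply IntF.mul | with_reducible_and_instances apply IntF.inv | with_reducible_and_instances apply IntF.add | with_reducible_and_instances apply IntF.sub | with_reducible_and_instances apply IntF.neg | with_reducible_and_instances apply IntF.smul | with_reducible apply Int.fin | with_reducible apply IntF.sep | with_reducible apply IntF.lam | with_reducible apply IntF.insert | with_reducible apply IntF.singleton | with_reducible apply IntF.union | with_reducible apply IntF.iimage | with_reducible apply IntF.ite | with_reducible apply IntF.the | with_reducible apply IntF.irec | with_reducible apply IntF.succ | with_reducible apply IntF.val | with_reducible apply IntF.mk | (with_reducible refine Int.comp ?_ ?_; assumption) | (with_reducible refine Int.comp₂ ?_ ?_ ?_; assumption) | (with_reducible refine Int.comp₃ ?_ ?_ ?_ ?_; assumption) | (with_reducible refine Int.comp₄ ?_ ?_ ?_ ?_ ?_; assumption) | (with_reducible refine IntF.comp ?_ ?_; assumption) | (with_reducible refine IntF.comp₂ ?_ ?_ ?_; assumption) | (with_reducible refine IntF.comp₃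 ?_ ?_ ?_ ?_; assumption) | with_reducible apply IntF.pair)))
  have hall : ∀ U : IPow N α, ∃ d, U = ex mem d := by
    intro U
    obtain ⟨d, hd⟩ := h.all U
    exact ⟨d, IPow.ext' fun x => (hd x).trans (mem_ex hm).symm⟩
  -- on each cell
  have h2 : ∀ n U x, P (n, U) →
      ¬ IFin (sep N fun y => (∀ e, e ∈ s → (mem (x, e) ↔ mem (y, e))) ∧ y ∈ U) →
      IFin (sep N fun y => (∀ e, e ∈ s → (mem (x, e) ↔ mem (y, e))) ∧ ¬ y ∈ U) := by
    intro n U x hU h3
    by_contra h4
    obtain ⟨d, rfl⟩ := hall U
    have e1 : (sep N fun y => (∀ e, e ∈ s → (mem (x, e) ↔ mem (y, e))) ∧ y ∈ ex (N := N) mem d) =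
        sep N fun y => (∀ e, e ∈ s → (mem (x, e) ↔ mem (y, e))) ∧ mem (y, d) :=
      IPow.ext' fun y => by rw [mem_sep (by (repeat' (first | with_reducible exact IntF.id | with_reducible exact IntF.fst' | with_reducible exact IntF.snd' | with_reducible exact IntF.const _ | with_reducible exact Int.const _ | assumption | with_reducible apply Int.and | with_reducible apply Int.or | with_reducible apply Int.not | with_reducible apply Int.imp | with_reducible apply Int.iff | with_reducible apply Int.ne | with_reducible apply Int.eq | with_reducible apply Int.mem | with_reducible apply Int.subset | with_reducible apply Int.ltN | with_reducible apply Int.leN | with_reducible_and_instances apply Int.le | with_reducible_and_instances apply Int.lt | with_reducible apply Int.all | with_reducible apply Int.ex | with_reducible apply IntF.fst | with_reducible apply IntF.snd | with_reducible apply IntF.app | with_reducible apply IntF.inl | with_reducible apply IntF.inr | with_reducible_and_instances apply IntF.mul | with_reducible_and_instances apply IntF.inv | with_reducible_and_instances apply IntF.add | with_reducible_and_instances apply IntF.sub | with_reducible_and_instances apply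 IntF.neg | with_reducible_and_instances apply IntF.smul | with_reducible apply Int.fin | with_reducible apply IntF.sep | with_reducible apply IntF.lam | with_reducible apply IntF.insert | with_reducible apply IntF.singleton | with_reducible apply IntF.union | with_reducible apply IntF.iimage | with_reducible apply IntF.ite | with_reducible apply IntF.the | with_reducible apply IntF.irec | with_reducible apply IntF.succ | with_reducible apply IntF.val | with_reducible apply IntF.mk | (with_reducible refine Int.comp ?_ ?_; assumption) | (with_reducible refine Int.comp₂ ?_ ?_ ?_; assumption) | (with_reducible refine Int.comp₃ ?_ ?_ ?_ ?_; assumption) | (with_reducible refine Int.comp₄ ?_ ?_ ?_ ?_ ?_; assumption) | (with_reducible refine IntF.comp ?_ ?_; assumption) | (with_reducible refine IntF.comp₂ ?_ ?_ ?_; assumption) | (with_reducible refine IntF.comp₃ ?_ ?_ ?_ ?_; assumption) | with_reducible apply IntF.pair))), mem_sep (by (repeat' (first | with_reducible exact IntF.id | with_reducible exact IntF.fst' | with_reducible exact IntF.snd' | with_reducible exact IntF.const _ | with_reducible exact Int.const _ | assumption | with_reducible apply Int.and | with_reducible apply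 Int.or | with_reducible apply Int.not | with_reducible apply Int.imp | with_reducible apply Int.iff | with_reducible apply Int.ne | with_reducible apply Int.eq | with_reducible apply Int.mem | with_reducible apply Int.subset | with_reducible apply Int.ltN | with_reducible apply Int.leN | with_reducible_and_instances apply Int.le | with_reducible_and_instances apply Int.lt | with_reducible apply Int.all | with_reducible apply Int.ex | with_reducible apply IntF.fst | with_reducible apply IntF.snd | with_reducible apply IntF.app | with_reducible apply IntF.inl | with_reducible apply IntF.inr | with_reducible_and_instances apply IntF.mul | with_reducible_and_instances apply IntF.inv | with_reducible_and_instances apply IntF.add | with_reducible_and_instances apply IntF.sub | with_reducible_and_instances apply IntF.neg | with_reducible_and_instances apply IntF.smul | with_reducible apply Int.fin | with_reducible apply IntF.sep | with_reducible apply IntF.lam | with_reducible apply IntF.insert | with_reducible apply IntF.singleton | with_reducible apply IntF.union | with_reducible apply IntF.iimage | with_reducible apply IntF.ite | with_reducible apply IntF.the | with_reducible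 apply IntF.irec | with_reducible apply IntF.succ | with_reducible apply IntF.val | with_reducible apply IntF.mk | (with_reducible refine Int.comp ?_ ?_; assumption) | (with_reducible refine Int.comp₂ ?_ ?_ ?_; assumption) | (with_reducible refine Int.comp₃ ?_ ?_ ?_ ?_; assumption) | (with_reducible refine Int.comp₄ ?_ ?_ ?_ ?_ ?_; assumption) | (with_reducible refine IntF.comp ?_ ?_; assumption) | (with_reducible refine IntF.comp₂ ?_ ?_ ?_; assumption) | (with_reducible refine IntF.comp₃ ?_ ?_ ?_ ?_; assumption) | with_reducible apply IntF.pair))), mem_ex hm]
    have e2 : (sep N fun y => (∀ e, e ∈ s → (mem (x, e) ↔ mem (y, e))) ∧ ¬ y ∈ ex (N := N) mem d) =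
        sep N fun y => (∀ e, e ∈ s → (mem (x, e) ↔ mem (y, e))) ∧ ¬ mem (y, d) :=
      IPow.ext' fun y => by rw [mem_sep (by (repeat' (first | with_reducible exact IntF.id | with_reducible exact IntF.fst' | with_reducible exact IntF.snd' | with_reducible exact IntF.const _ | with_reducible exact Int.const _ | assumption | with_reducible apply Int.and | with_reducible apply Int.or | with_reducible apply Int.not | with_reducible apply Int.imp | with_reducible apply Int.iff | with_reducible apply Int.ne | with_reducible apply Int.eq | with_reducible apply Int.mem | with_reducible apply Int.subset | with_reducible apply Int.ltN | with_reducible apply Int.leN | with_reducible_and_instances apply Int.le | with_reducible_and_instances apply Int.lt | with_reducible apply Int.all | with_reducible apply Int.ex | with_reducible apply IntF.fst | with_reducible apply IntF.snd | with_reducible apply IntF.app | with_reducible apply IntF.inl | with_reducible apply IntF.inr | with_reducible_and_instances apply IntF.mul | with_reducible_and_instances apply IntF.inv | with_reducible_and_instances apply IntF.add | with_reducible_and_instances apply IntF.sub | with_reducible_and_instances apply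 IntF.neg | with_reducible_and_instances apply IntF.smul | with_reducible apply Int.fin | with_reducible apply IntF.sep | with_reducible apply IntF.lam | with_reducible apply IntF.insert | with_reducible apply IntF.singleton | with_reducible apply IntF.union | with_reducible apply IntF.iimage | with_reducible apply IntF.ite | with_reducible apply IntF.the | with_reducible apply IntF.irec | with_reducible apply IntF.succ | with_reducible apply IntF.val | with_reducible apply IntF.mk | (with_reducible refine Int.comp ?_ ?_; assumption) | (with_reducible refine Int.comp₂ ?_ ?_ ?_; assumption) | (with_reducible refine Int.comp₃ ?_ ?_ ?_ ?_; assumption) | (with_reducible refine Int.comp₄ ?_ ?_ ?_ ?_ ?_; assumption) | (with_reducible refine IntF.comp ?_ ?_; assumption) | (with_reducible refine IntF.comp₂ ?_ ?_ ?_; assumption) | (with_reducible refine IntF.comp₃ ?_ ?_ ?_ ?_; assumption) | with_reducible apply IntF.pair))), mem_sep (by (repeat' (first | with_reducible exact IntF.id | with_reducible exact IntF.fst' | with_reducible exact IntF.snd' | with_reducible exact IntF.const _ | with_reducible exact Int.const _ | assumption | with_reducible apply Int.and | with_reducible apply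 Int.or | with_reducible apply Int.not | with_reducible apply Int.imp | with_reducible apply Int.iff | with_reducible apply Int.ne | with_reducible apply Int.eq | with_reducible apply Int.mem | with_reducible apply Int.subset | with_reducible apply Int.ltN | with_reducible apply Int.leN | with_reducible_and_instances apply Int.le | with_reducible_and_instances apply Int.lt | with_reducible apply Int.all | with_reducible apply Int.ex | with_reducible apply IntF.fst | with_reducible apply IntF.snd | with_reducible apply IntF.app | with_reducible apply IntF.inl | with_reducible apply IntF.inr | with_reducible_and_instances apply IntF.mul | with_reducible_and_instances apply IntF.inv | with_reducible_and_instances apply IntF.add | with_reducible_and_instances apply IntF.sub | with_reducible_and_instances apply IntF.neg | with_reducible_and_instances apply IntF.smul | with_reducible apply Int.fin | with_reducible apply IntF.sep | with_reducible apply IntF.lam | with_reducible apply IntF.insert | with_reducible apply IntF.singleton | with_reducible apply IntF.union | with_reducible apply IntF.iimage | with_reducible apply IntF.ite | with_reducible apply IntF.the | with_reducible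 apply IntF.irec | with_reducible apply IntF.succ | with_reducible apply IntF.val | with_reducible apply IntF.mk | (with_reducible refine Int.comp ?_ ?_; assumption) | (with_reducible refine Int.comp₂ ?_ ?_ ?_; assumption) | (with_reducible refine Int.comp₃ ?_ ?_ ?_ ?_; assumption) | (with_reducible refine Int.comp₄ ?_ ?_ ?_ ?_ ?_; assumption) | (with_reducible refine IntF.comp ?_ ?_; assumption) | (with_reducible refine IntF.comp₂ ?_ ?_ ?_; assumption) | (with_reducible refine IntF.comp₃ ?_ ?_ ?_ ?_; assumption) | with_reducible apply IntF.pair))), mem_ex hm]
    rw [e1] at h3
    rw [e2] at h4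
    obtain ⟨d', h5, h6⟩ := h1 d n x hU h3 h4
    refine h6 ((diff n _ _ hU h5).subset fun y hy => ?_)
    rw [mem_sep (by (repeat' (first | with_reducible exact IntF.id | with_reducible exact IntF.fst' | with_reducible exact IntF.snd' | with_reducible exact IntF.const _ | with_reducible exact Int.const _ | assumption | with_reducible apply Int.and | with_reducible apply Int.or | with_reducible apply Int.not | with_reducible apply Int.imp | with_reducible apply Int.iff | with_reducible apply Int.ne | with_reducible apply Int.eq | with_reducible apply Int.mem | with_reducible apply Int.subset | with_reducible apply Int.ltN | with_reducible apply Int.leN | with_reducible_and_instances apply Int.le | with_reducible_and_instances apply Int.lt | with_reducible apply Int.all | with_reducible apply Int.ex | with_reducible apply IntF.fst | with_reducible apply IntF.snd | with_reducible apply IntF.app | with_reducible apply IntF.inl | with_reducible apply IntF.inr | with_reducible_and_instances apply IntF.mul | with_reducible_and_instances apply IntF.inv | with_reducible_and_instances apply IntF.add | with_reducible_and_instances apply IntF.sub | with_reducible_and_instances apply IntF.neg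 | with_reducible_and_instances apply IntF.smul | with_reducible apply Int.fin | with_reducible apply IntF.sep | with_reducible apply IntF.lam | with_reducible apply IntF.insert | with_reducible apply IntF.singleton | with_reducible apply IntF.union | with_reducible apply IntF.iimage | with_reducible apply IntF.ite | with_reducible apply IntF.the | with_reducible apply IntF.irec | with_reducible apply IntF.succ | with_reducible apply IntF.val | with_reducible apply IntF.mk | (with_reducible refine Int.comp ?_ ?_; assumption) | (with_reducible refine Int.comp₂ ?_ ?_ ?_; assumption) | (with_reducible refine Int.comp₃ ?_ ?_ ?_ ?_; assumption) | (with_reducible refine Int.comp₄ ?_ ?_ ?_ ?_ ?_; assumption) | (with_reducible refine IntF.comp ?_ ?_; assumption) | (with_reducible refine IntF.comp₂ ?_ ?_ ?_; assumption) | (with_reducible refine IntF.comp₃ ?_ ?_ ?_ ?_; assumption) | with_reducible apply IntF.pair)))] at hy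
    rw [mem_sdiff, mem_ex hm, mem_ex hm]
    exact hy
  have hFI : Int N (fun q : INat N × IPow N δ => ∃ x, (∀ e, e ∈ s → (e ∈ q.2 ↔ mem (x, e))) ∧
      ∃ U, P (q.1, U) ∧
      ¬ IFin (sep N fun y => (∀ e, e ∈ s → (mem (x, e) ↔ mem (y, e))) ∧ y ∈ U)) := by (repeat' (first | with_reducible exact IntF.id | with_reducible exact IntF.fst' | with_reducible exact IntF.snd' | with_reducible exact IntF.const _ | with_reducible exact Int.const _ | assumption | with_reducible apply Int.and | with_reducible apply Int.or | with_reducible apply Int.not | with_reducible apply Int.imp | with_reducible apply Int.iff | with_reducible apply Int.ne | with_reducible apply Int.eq | with_reducible apply Int.mem | with_reducible apply Int.subset | with_reducible apply Int.ltN | with_reducible apply Int.leN | with_reducible_and_instances apply Int.le | with_reducible_and_instances apply Int.lt | with_reducible apply Int.all | with_reducible apply Int.ex | with_reducible apply IntF.fst | with_reducible apply IntF.snd | with_reducible apply IntF.app | with_reducible apply IntF.inl | with_reducible apply IntF.inr | with_reducible_and_instances apply IntF.mul | with_reducible_and_instances apply IntF.inv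 | with_reducible_and_instances apply IntF.add | with_reducible_and_instances apply IntF.sub | with_reducible_and_instances apply IntF.neg | with_reducible_and_instances apply IntF.smul | with_reducible apply Int.fin | with_reducible apply IntF.sep | with_reducible apply IntF.lam | with_reducible apply IntF.insert | with_reducible apply IntF.singleton | with_reducible apply IntF.union | with_reducible apply IntF.iimage | with_reducible apply IntF.ite | with_reducible apply IntF.the | with_reducible apply IntF.irec | with_reducible apply IntF.succ | with_reducible apply IntF.val | with_reducible apply IntF.mk | (with_reducible refine Int.comp ?_ ?_; assumption) | (with_reducible refine Int.comp₂ ?_ ?_ ?_; assumption) | (with_reducible refine Int.comp₃ ?_ ?_ ?_ ?_; assumption) | (with_reducible refine Int.comp₄ ?_ ?_ ?_ ?_ ?_; assumption) | (with_reducible refine IntF.comp ?_ ?_; assumption) | (with_reducible refine IntF.comp₂ ?_ ?_ ?_; assumption) | (with_reducible refine IntF.comp₃ ?_ ?_ ?_ ?_; assumption) | with_reducible apply IntF.pair))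
  refine no_disj hs.pow hFI (fun n => ?_) fun m n t ht hmt hnt => ?_
  · obtain ⟨U, hU⟩ := ne n
    obtain ⟨x, hx, h3⟩ := exists_cell hm hs U (inf n U hU)
    have hI : Int N (fun e => e ∈ s ∧ mem (x, e)) := by (repeat' (first | with_reducible exact IntF.id | with_reducible exact IntF.fst' | with_reducible exact IntF.snd' | with_reducible exact IntF.const _ | with_reducible exact Int.const _ | assumption | with_reducible apply Int.and | with_reducible apply Int.or | with_reducible apply Int.not | with_reducible apply Int.imp | with_reducible apply Int.iff | with_reducible apply Int.ne | with_reducible apply Int.eq | with_reducible apply Int.mem | with_reducible apply Int.subset | with_reducible apply Int.ltN | with_reducible apply Int.leN | with_reducible_and_instances apply Int.le | with_reducible_and_instances apply Int.lt | with_reducible apply Int.all | with_reducible apply Int.ex | with_reducible apply IntF.fst | with_reducible apply IntF.snd | with_reducible apply IntF.app | with_reducible apply IntF.inl | with_reducible apply IntF.inr | with_reducible_and_instances apply IntF.mul | with_reducible_and_instances apply IntF.inv | with_reducible_and_instances apply IntF.add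 | with_reducible_and_instances apply IntF.sub | with_reducible_and_instances apply IntF.neg | with_reducible_and_instances apply IntF.smul | with_reducible apply Int.fin | with_reducible apply IntF.sep | with_reducible apply IntF.lam | with_reducible apply IntF.insert | with_reducible apply IntF.singleton | with_reducible apply IntF.union | with_reducible apply IntF.iimage | with_reducible apply IntF.ite | with_reducible apply IntF.the | with_reducible apply IntF.irec | with_reducible apply IntF.succ | with_reducible apply IntF.val | with_reducible apply IntF.mk | (with_reducible refine Int.comp ?_ ?_; assumption) | (with_reducible refine Int.comp₂ ?_ ?_ ?_; assumption) | (with_reducible refine Int.comp₃ ?_ ?_ ?_ ?_; assumption) | (with_reducible refine Int.comp₄ ?_ ?_ ?_ ?_ ?_; assumption) | (with_reducible refine IntF.comp ?_ ?_; assumption) | (with_reducible refine IntF.comp₂ ?_ ?_ ?_; assumption) | (with_reducible refine IntF.comp₃ ?_ ?_ ?_ ?_; assumption) | with_reducible apply IntF.pair))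
    refine ⟨sep N fun e => e ∈ s ∧ mem (x, e), ?_, x, fun e he => ?_, U, hU, fun h4 => h3 ?_⟩
    · rw [mem_ipow]
      exact fun e he => ((mem_sep hI).1 he).1
    · rw [mem_sep hI]
      exact ⟨fun h => h.2, fun h => ⟨he, h⟩⟩
    · refine h4.subset fun y hy => ?_
      rw [mem_sep (by (repeat' (first | with_reducible exact IntF.id | with_reducible exact IntF.fst' | with_reducible exact IntF.snd' | with_reducible exact IntF.const _ | with_reducible exact Int.const _ | assumption | with_reducible apply Int.and | with_reducible apply Int.or | with_reducible apply Int.not | with_reducible apply Int.imp | with_reducible apply Int.iff | with_reducible apply Int.ne | with_reducible apply Int.eq | with_reducible apply Int.mem | with_reducible apply Int.subset | with_reducible apply Int.ltN | with_reducible apply Int.leN | with_reducible_and_instances apply Int.le | with_reducible_and_instances apply Int.lt | with_reducible apply Int.all | with_reducible apply Int.ex | with_reducible apply IntF.fst | with_reducible apply IntF.snd | with_reducible apply IntF.app | with_reducible apply IntF.inl | with_reducible apply IntF.inr | with_reducible_and_instances apply IntF.mul | with_reducible_and_instances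 apply IntF.inv | with_reducible_and_instances apply IntF.add | with_reducible_and_instances apply IntF.sub | with_reducible_and_instances apply IntF.neg | with_reducible_and_instances apply IntF.smul | with_reducible apply Int.fin | with_reducible apply IntF.sep | with_reducible apply IntF.lam | with_reducible apply IntF.insert | with_reducible apply IntF.singleton | with_reducible apply IntF.union | with_reducible apply IntF.iimage | with_reducible apply IntF.ite | with_reducible apply IntF.the | with_reducible apply IntF.irec | with_reducible apply IntF.succ | with_reducible apply IntF.val | with_reducible apply IntF.mk | (with_reducible refine Int.comp ?_ ?_; assumption) | (with_reducible refine Int.comp₂ ?_ ?_ ?_; assumption) | (with_reducible refine Int.comp₃ ?_ ?_ ?_ ?_; assumption) | (with_reducible refine Int.comp₄ ?_ ?_ ?_ ?_ ?_; assumption) | (with_reducible refine IntF.comp ?_ ?_; assumption) | (with_reducible refine IntF.comp₂ ?_ ?_ ?_; assumption) | (with_reducible refine IntF.comp₃ ?_ ?_ ?_ ?_; assumption) | with_reducible apply IntF.pair)))] at hy ⊢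
      exact ⟨hy.2, hy.1⟩
  · by_contra hne
    obtain ⟨x, hx, U, hU, h3⟩ := hmt
    obtain ⟨x', hx', U', hU', h3'⟩ := hnt
    obtain ⟨V, V', hV, hV', h4⟩ := disj m n hne
    have h5 := h2 n U' x' hU' h3'
    refine h3 ((((diff m U V hU hV).union (diff n U' V' hU' hV')).union (h5.union h4)).subset
      fun y hy => ?_)
    rw [mem_sep (by (repeat' (first | with_reducible exact IntF.id | with_reducible exact IntF.fst' | with_reducible exact IntF.snd' | with_reducible exact IntF.const _ | with_reducible exact Int.const _ | assumption | with_reducible apply Int.and | with_reducible apply Int.or | with_reducible apply Int.not | with_reducible apply Int.imp | with_reducible apply Int.iff | with_reducible apply Int.ne | with_reducible apply Int.eq | with_reducible apply Int.mem | with_reducible apply Int.subset | with_reducible apply Int.ltN | with_reducible apply Int.leN | with_reducible_and_instances apply Int.le | with_reducible_and_instances apply Int.lt | with_reducible apply Int.all | with_reducible apply Int.ex | with_reducible apply IntF.fst | with_reducible apply IntF.snd | with_reducible apply IntF.app | with_reducible apply IntF.inl | with_reducible apply IntF.inr | with_reducible_and_instances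 apply IntF.mul | with_reducible_and_instances apply IntF.inv | with_reducible_and_instances apply IntF.add | with_reducible_and_instances apply IntF.sub | with_reducible_and_instances apply IntF.neg | with_reducible_and_instances apply IntF.smul | with_reducible apply Int.fin | with_reducible apply IntF.sep | with_reducible apply IntF.lam | with_reducible apply IntF.insert | with_reducible apply IntF.singleton | with_reducible apply IntF.union | with_reducible apply IntF.iimage | with_reducible apply IntF.ite | with_reducible apply IntF.the | with_reducible apply IntF.irec | with_reducible apply IntF.succ | with_reducible apply IntF.val | with_reducible apply IntF.mk | (with_reducible refine Int.comp ?_ ?_; assumption) | (with_reducible refine Int.comp₂ ?_ ?_ ?_; assumption) | (with_reducible refine Int.comp₃ ?_ ?_ ?_ ?_; assumption) | (with_reducible refine Int.comp₄ ?_ ?_ ?_ ?_ ?_; assumption) | (with_reducible refine IntF.comp ?_ ?_; assumption) | (with_reducible refine IntF.comp₂ ?_ ?_ ?_; assumption) | (with_reducible refine IntF.comp₃ ?_ ?_ ?_ ?_; assumption) | with_reducible apply IntF.pair)))] at hy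
    rw [mem_union, mem_union, mem_union, mem_sep (by (repeat' (first | with_reducible exact IntF.id | with_reducible exact IntF.fst' | with_reducible exact IntF.snd' | with_reducible exact IntF.const _ | with_reducible exact Int.const _ | assumption | with_reducible apply Int.and | with_reducible apply Int.or | with_reducible apply Int.not | with_reducible apply Int.imp | with_reducible apply Int.iff | with_reducible apply Int.ne | with_reducible apply Int.eq | with_reducible apply Int.mem | with_reducible apply Int.subset | with_reducible apply Int.ltN | with_reducible apply Int.leN | with_reducible_and_instances apply Int.le | with_reducible_and_instances apply Int.lt | with_reducible apply Int.all | with_reducible apply Int.ex | with_reducible apply IntF.fst | with_reducible apply IntF.snd | with_reducible apply IntF.app | with_reducible apply IntF.inl | with_reducible apply IntF.inr | with_reducible_and_instances apply IntF.mul | with_reducible_and_instances apply IntF.inv | with_reducible_and_instances apply IntF.add | with_reducible_and_instances apply IntF.sub | with_reducible_and_instances apply IntF.neg | with_reducible_and_instances apply IntF.smul | with_reducible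 apply Int.fin | with_reducible apply IntF.sep | with_reducible apply IntF.lam | with_reducible apply IntF.insert | with_reducible apply IntF.singleton | with_reducible apply IntF.union | with_reducible apply IntF.iimage | with_reducible apply IntF.ite | with_reducible apply IntF.the | with_reducible apply IntF.irec | with_reducible apply IntF.succ | with_reducible apply IntF.val | with_reducible apply IntF.mk | (with_reducible refine Int.comp ?_ ?_; assumption) | (with_reducible refine Int.comp₂ ?_ ?_ ?_; assumption) | (with_reducible refine Int.comp₃ ?_ ?_ ?_ ?_; assumption) | (with_reducible refine Int.comp₄ ?_ ?_ ?_ ?_ ?_; assumption) | (with_reducible refine IntF.comp ?_ ?_; assumption) | (with_reducible refine IntF.comp₂ ?_ ?_ ?_; assumption) | (with_reducible refine IntF.comp₃ ?_ ?_ ?_ ?_; assumption) | with_reducible apply IntF.pair))), mem_sdiff, mem_sdiff, mem_inter]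
    have h6 : ∀ e, e ∈ s → (mem (x', e) ↔ mem (y, e)) := fun e he =>
      ((hx' e he).symm.trans (hx e he)).trans (hy.1 e he)
    have h7 := hy.2
    tauto

end

section

attribute [local instance] Helper672.Plain.toL

variable {N : Type u} [LSet.Structure N] [hZ : Helper672.Plain.Zermelo N]

local instance instModelMf6 : IsModel N := Helper672.Plain.isModel_toL

variable {α δ : Type u} [ITy N α] [ITy N δ]

theorem subs_code {u : N} (h : ∀ z, Plain.Mem z u → Plain.Mem z (dom N α)) :
    ∃ U : IPow N α, code U = u :=
  exists_codeB (α := α) (u := u) fun z hz => mem_domP.1 (h z hz)

theorem fam_code {v : N} (h : ∀ u, Plain.Mem u v → ∀ z, Plain.Mem z u → Plain.Mem z (dom N α)) :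
    ∃ V : IPow N (IPow N α), code V = v :=
  exists_codeB (α := IPow N α) (u := v) fun z hz => subs_code (h z hz)

theorem eq_code {w : N} {U : IPow N α} (h : ∀ z, Plain.Mem z w ↔ ∃ a, a ∈ U ∧ code a = z) :
    w = code U := Helper672.Plain.Zermelo.ext _ _ fun z => (h z).trans mem_codeB.symm

theorem mem_codeM {U : IPow N α} {b : α} :
    Plain.Mem (code b) (code (M := N) U) ↔ b ∈ U := mem_codeB'

theorem isUnion_code {w : N} {U U' : IPow N α} : IsUnion w (code U) (code U') ↔
    w = code (U ∪ U') := by
  have key : ∀ z, (Plain.Mem z (code U) ∨ Plain.Mem z (code U')) ↔
      ∃ a, a ∈ U ∪ U' ∧ code (M := N) a = z := by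
    intro z
    refine (or_congr mem_codeB mem_codeB).trans ⟨?_, ?_⟩
    · rintro (⟨a, ha, rfl⟩ | ⟨a, ha, rfl⟩)
      · exact ⟨a, mem_union.2 (Or.inl ha), rfl⟩
      · exact ⟨a, mem_union.2 (Or.inr ha), rfl⟩
    · rintro ⟨a, ha, rfl⟩
      rcases mem_union.1 ha with ha | ha
      · exact Or.inl ⟨a, ha, rfl⟩
      · exact Or.inr ⟨a, ha, rfl⟩
  constructor
  · intro h
    exact eq_code fun z => (h z).trans (key z)
  · rintro rfl z
    exact mem_codeB.trans (key z).symm

theorem isInter_code {w : N} {U U' : IPow N α} : IsInter w (code U) (code U') ↔
    w = code (U ∩ U') := by
  have key : ∀ z, (Plain.Mem z (code U) ∧ Plain.Mem z (code U')) ↔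
      ∃ a, a ∈ U ∩ U' ∧ code (M := N) a = z := by
    intro z
    refine (and_congr mem_codeB mem_codeB).trans ⟨?_, ?_⟩
    · rintro ⟨⟨a, ha, rfl⟩, ⟨b, hb, hab⟩⟩
      rw [ITy.inj hab] at hb
      exact ⟨a, mem_inter.2 ⟨ha, hb⟩, rfl⟩
    · rintro ⟨a, ha, rfl⟩
      exact ⟨⟨a, (mem_inter.1 ha).1, rfl⟩, ⟨a, (mem_inter.1 ha).2, rfl⟩⟩
  constructor
  · intro h
    exact eq_code fun z => (h z).trans (key z)
  · rintro rfl z
    exact mem_codeB.trans (key z).symm

theorem isDiff_code {w : N} {U U' : IPow N α} : IsDiff w (code U) (code U') ↔
    w = code (U \ U') := by
  have key : ∀ z, (Plain.Mem z (code U) ∧ ¬ Plain.Mem z (code U')) ↔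
      ∃ a, a ∈ U \ U' ∧ code (M := N) a = z := by
    intro z
    refine (and_congr mem_codeB (not_congr mem_codeB)).trans ⟨?_, ?_⟩
    · rintro ⟨⟨a, ha, rfl⟩, h⟩
      exact ⟨a, mem_sdiff.2 ⟨ha, fun hb => h ⟨a, hb, rfl⟩⟩, rfl⟩
    · rintro ⟨a, ha, rfl⟩
      refine ⟨⟨a, (mem_sdiff.1 ha).1, rfl⟩, ?_⟩
      rintro ⟨b, hb, hab⟩
      rw [ITy.inj hab] at hb
      exact (mem_sdiff.1 ha).2 hb
  constructor
  · intro h
    exact eq_code fun z => (h z).trans (key z)
  · rintro rfl z
    exact mem_codeB.trans (key z).symm

/-- The families in the definitions. -/
structure Modd (V : IPow N (IPow N α)) : Prop where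
  ne : ∃ U, U ∈ V
  union : ∀ U U', U ∈ V → U' ∈ V → U ∪ U' ∈ V
  inter : ∀ U U', U ∈ V → U' ∈ V → U ∩ U' ∈ V
  inf : ∀ U, U ∈ V → ¬ IFin U
  diff : ∀ U U', U ∈ V → U' ∈ V → IFin (U \ U')

theorem modd_of {V : IPow N (IPow N α)} (h : IsMod (code V) (dom N α)) : Modd V := by
  refine ⟨?_, ?_, ?_, ?_, ?_⟩
  · obtain ⟨u, hu⟩ := h.fb.ne
    obtain ⟨U, hU, rfl⟩ := mem_codeB.1 hu
    exact ⟨U, hU⟩
  · intro U U' hU hU'
    exact mem_codeM.1 (h.union _ _ _ (mem_codeM.2 hU) (mem_codeM.2 hU') (isUnion_code.2 rfl))
  · intro U U' hU hU'
    exact mem_codeM.1 (h.inter _ _ _ (mem_codeM.2 hU) (mem_codeM.2 hU') (isInter_code.2 rfl))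
  · intro U hU h1
    exact h.inf _ (mem_codeM.2 hU) (isFinite_of_fin h1)
  · intro U U' hU hU'
    exact fin_of_isFinite (h.diff _ _ _ (mem_codeM.2 hU) (mem_codeM.2 hU') (isDiff_code.2 rfl))

theorem isMod_of {V : IPow N (IPow N α)} (h : Modd V) : IsMod (code V) (dom N α) := by
  refine ⟨⟨?_, ?_, ?_⟩, ?_, ?_, ?_, ?_⟩
  · obtain ⟨U, hU⟩ := h.ne
    exact ⟨code U, mem_codeM.2 hU⟩
  · intro u hu
    obtain ⟨U, hU, rfl⟩ := mem_codeB.1 hu
    refine ⟨fun z hz => ?_, ?_⟩
    · obtain ⟨a, ha, rfl⟩ := mem_codeB.1 hz
      exact code_mem_domP a
    · by_contra hcon
      refine h.inf U hU (IFin.empty.subset fun x hx => ?_)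
      exact absurd ⟨code x, mem_codeM.2 hx⟩ hcon
  · intro u u' hu hu'
    obtain ⟨U, hU, rfl⟩ := mem_codeB.1 hu
    obtain ⟨U', hU', rfl⟩ := mem_codeB.1 hu'
    exact ⟨code (U ∩ U'), mem_codeM.2 (h.inter _ _ hU hU'), fun z hz =>
      ((isInter_code (w := code (U ∩ U'))).2 rfl z).1 hz⟩
  · intro u u' w hu hu' hw
    obtain ⟨U, hU, rfl⟩ := mem_codeB.1 hu
    obtain ⟨U', hU', rfl⟩ := mem_codeB.1 hu'
    rw [isUnion_code.1 hw]
    exact mem_codeM.2 (h.union _ _ hU hU')
  · intro u u' w hu hu' hw
    obtain ⟨U, hU, rfl⟩ := mem_codeB.1 hu
    obtain ⟨U', hU', rfl⟩ := mem_codeB.1 hu'
    rw [isInter_code.1 hw]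
    exact mem_codeM.2 (h.inter _ _ hU hU')
  · intro u hu h1
    obtain ⟨U, hU, rfl⟩ := mem_codeB.1 hu
    exact h.inf _ hU (fin_of_isFinite h1)
  · intro u u' w hu hu' hw
    obtain ⟨U, hU, rfl⟩ := mem_codeB.1 hu
    obtain ⟨U', hU', rfl⟩ := mem_codeB.1 hu'
    rw [isDiff_code.1 hw]
    exact isFinite_of_fin (h.diff _ _ hU hU')

theorem IsMod.code {v : N} (h : IsMod v (dom N α)) : ∃ V : IPow N (IPow N α), ZFA.code V = v ∧
    Modd V := by
  obtain ⟨V, rfl⟩ := fam_code (α := α) (v := v) fun u hu => (h.fb.sub u hu).1
  exact ⟨V, rfl, modd_of h⟩

/-- The sequence given by an internal function. -/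
theorem isSeq_relc {F : INat N → IPow N (IPow N α)} (hF : IntF N F) :
    IsSeq (relc N fun (n : INat N) (V : IPow N (IPow N α)) => V = F n) := by
  have hI : Int N (fun q : INat N × IPow N (IPow N α) => q.2 = F q.1) := by (repeat' (first | with_reducible exact IntF.id | with_reducible exact IntF.fst' | with_reducible exact IntF.snd' | with_reducible exact IntF.const _ | with_reducible exact Int.const _ | assumption | with_reducible apply Int.and | with_reducible apply Int.or | with_reducible apply Int.not | with_reducible apply Int.imp | with_reducible apply Int.iff | with_reducible apply Int.ne | with_reducible apply Int.eq | with_reducible apply Int.mem | with_reducible apply Int.subset | with_reducible apply Int.ltN | with_reducible apply Int.leN | with_reducible_and_instances apply Int.le | with_reducible_and_instances apply Int.lt | with_reducible apply Int.all | with_reducible apply Int.ex | with_reducible apply IntF.fst | with_reducible apply IntF.snd | with_reducible apply IntF.app | with_reducible apply IntF.inl | with_reducible apply IntF.inr | with_reducible_and_instances apply IntF.mul | with_reducible_and_instances apply IntF.inv | with_reducible_and_instances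 apply IntF.add | with_reducible_and_instances apply IntF.sub | with_reducible_and_instances apply IntF.neg | with_reducible_and_instances apply IntF.smul | with_reducible apply Int.fin | with_reducible apply IntF.sep | with_reducible apply IntF.lam | with_reducible apply IntF.insert | with_reducible apply IntF.singleton | with_reducible apply IntF.union | with_reducible apply IntF.iimage | with_reducible apply IntF.ite | with_reducible apply IntF.the | with_reducible apply IntF.irec | with_reducible apply IntF.succ | with_reducible apply IntF.val | with_reducible apply IntF.mk | (with_reducible refine Int.comp ?_ ?_; assumption) | (with_reducible refine Int.comp₂ ?_ ?_ ?_; assumption) | (with_reducible refine Int.comp₃ ?_ ?_ ?_ ?_; assumption) | (with_reducible refine Int.comp₄ ?_ ?_ ?_ ?_ ?_; assumption) | (with_reducible refine IntF.comp ?_ ?_; assumption) | (with_reducible refine IntF.comp₂ ?_ ?_ ?_; assumption) | (with_reducible refine IntF.comp₃ ?_ ?_ ?_ ?_; assumption) | with_reducible apply IntF.pair))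
  refine ⟨dom N (INat N), dom N (IPow N (IPow N α)), isOmega_dom, fun p hp => ?_, fun p hp => ?_⟩
  · obtain ⟨n, V, -, rfl⟩ := (mem_relc hI).1 hp
    exact ⟨_, _, code_mem_domP n, code_mem_domP V, ordPair_iff.2 rfl⟩
  · obtain ⟨n, rfl⟩ := mem_domP.1 hp
    refine ⟨_, (app_relc' hI).2 rfl, fun y hy => ?_⟩
    obtain ⟨n', V, rfl, h1, rfl⟩ := (app_relc hI).1 hy
    rw [ITy.inj h1]

theorem app_relcF {F : INat N → IPow N (IPow N α)} (hF : IntF N F) {n v : N} :
    App (relc N fun (n : INat N) (V : IPow N (IPow N α)) => V = F n) n v ↔
      ∃ k : INat N, n = code k ∧ v = code (F k) := by
  have hI : Int N (fun q : INat N × IPow N (IPow N α) => q.2 = F q.1) := by (repeat' (first | with_reducible exact IntF.id | with_reducible exact IntF.fst' | with_reducible exact IntF.snd' | with_reducible exact IntF.const _ | with_reducible exact Int.const _ | assumption | with_reducible apply Int.and | with_reducible apply Int.or | with_reducible apply Int.not | with_reducible apply Int.imp | with_reducible apply Int.iff | with_reducible apply Int.ne | with_reducible apply Int.eq | with_reducible apply Int.mem | with_reducible apply Int.subset | with_reducible apply Int.ltN | with_reducible apply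 Int.leN | with_reducible_and_instances apply Int.le | with_reducible_and_instances apply Int.lt | with_reducible apply Int.all | with_reducible apply Int.ex | with_reducible apply IntF.fst | with_reducible apply IntF.snd | with_reducible apply IntF.app | with_reducible apply IntF.inl | with_reducible apply IntF.inr | with_reducible_and_instances apply IntF.mul | with_reducible_and_instances apply IntF.inv | with_reducible_and_instances apply IntF.add | with_reducible_and_instances apply IntF.sub | with_reducible_and_instances apply IntF.neg | with_reducible_and_instances apply IntF.smul | with_reducible apply Int.fin | with_reducible apply IntF.sep | with_reducible apply IntF.lam | with_reducible apply IntF.insert | with_reducible apply IntF.singleton | with_reducible apply IntF.union | with_reducible apply IntF.iimage | with_reducible apply IntF.ite | with_reducible apply IntF.the | with_reducible apply IntF.irec | with_reducible apply IntF.succ | with_reducible apply IntF.val | with_reducible apply IntF.mk | (with_reducible refine Int.comp ?_ ?_; assumption) | (with_reducible refine Int.comp₂ ?_ ?_ ?_; assumption) | (with_reducible refine Int.comp₃ ?_ ?_ ?_ ?_; assumption)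 | (with_reducible refine Int.comp₄ ?_ ?_ ?_ ?_ ?_; assumption) | (with_reducible refine IntF.comp ?_ ?_; assumption) | (with_reducible refine IntF.comp₂ ?_ ?_ ?_; assumption) | (with_reducible refine IntF.comp₃ ?_ ?_ ?_ ?_; assumption) | with_reducible apply IntF.pair))
  rw [app_relc hI]
  constructor
  · rintro ⟨k, V, rfl, h1, h2⟩
    exact ⟨k, h1, h2⟩
  · rintro ⟨k, h1, h2⟩
    exact ⟨k, _, rfl, h1, h2⟩

/-- The values of a sequence. -/
theorem IsSeq.val {f : N} (hf : IsSeq f) (n : INat N) : ∃! v, App f (code n) v := by
  obtain ⟨w, s, hw, hf⟩ := hf
  exact hf.2 _ ((hw _).2 (natB.2 ⟨n, rfl⟩))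

theorem int_app (f : N) : Int N (fun q : INat N × IPow N (IPow N α) =>
    App f (code q.1) (code q.2)) := ⟨f, fun q => app_iff.symm⟩

theorem not_strongly {mem : α × δ → Prop} {R : δ × INat N → Prop} (h : FB1 N mem R) :
    ¬ StronglyFilterbaseInfinite (dom N α) := by
  rintro ⟨f, hf, h1, h2, -⟩
  have hval : ∀ n : INat N, ∃ V : IPow N (IPow N α), App f (code n) (code V) ∧ Modd V := by
    intro n
    obtain ⟨v, hv, -⟩ := hf.val n
    obtain ⟨V, rfl, hV⟩ := (h1 _ _ hv).code
    exact ⟨V, hv, hV⟩
  have huniq : ∀ (n : INat N) (V V' : IPow N (IPow N α)), App f (code n) (code V) →
      App f (code n) (code V') → V = V' := by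
    intro n V V' hV hV'
    obtain ⟨v, hv, hu⟩ := hf.val n
    exact ITy.inj ((hu _ hV).trans (hu _ hV').symm)
  have hA := int_app (α := α) f
  refine h.no_seq (P := fun q => ∃ V : IPow N (IPow N α), App f (code q.1) (code V) ∧ q.2 ∈ V)
    ?_ (fun n => ?_) (fun n U => ?_) (fun n U U' => ?_) fun m n hmn => ?_
  · refine Int.ex (Int.and ?_ ?_)
    · exact Int.comp (p := fun q : INat N × IPow N (IPow N α) => App f (code q.1) (code q.2))
        (f := fun q : (INat N × IPow N α) × IPow N (IPow N α) => (q.1.1, q.2)) hA (by (repeat' (first | with_reducible exact IntF.id | with_reducible exact IntF.fst' | with_reducible exact IntF.snd' | with_reducible exact IntF.const _ | with_reducible exact Int.const _ | assumption | with_reducible apply Int.and | with_reducible apply Int.or | with_reducible apply Int.not | with_reducible apply Int.imp | with_reducible apply Int.iff | with_reducible apply Int.ne | with_reducible apply Int.eq | with_reducible apply Int.mem | with_reducible apply Int.subset | with_reducible apply Int.ltN | with_reducible apply Int.leN | with_reducible_and_instances apply Int.le | with_reducible_and_instances apply Int.lt | with_reducible apply Int.all | with_reducible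 apply Int.ex | with_reducible apply IntF.fst | with_reducible apply IntF.snd | with_reducible apply IntF.app | with_reducible apply IntF.inl | with_reducible apply IntF.inr | with_reducible_and_instances apply IntF.mul | with_reducible_and_instances apply IntF.inv | with_reducible_and_instances apply IntF.add | with_reducible_and_instances apply IntF.sub | with_reducible_and_instances apply IntF.neg | with_reducible_and_instances apply IntF.smul | with_reducible apply Int.fin | with_reducible apply IntF.sep | with_reducible apply IntF.lam | with_reducible apply IntF.insert | with_reducible apply IntF.singleton | with_reducible apply IntF.union | with_reducible apply IntF.iimage | with_reducible apply IntF.ite | with_reducible apply IntF.the | with_reducible apply IntF.irec | with_reducible apply IntF.succ | with_reducible apply IntF.val | with_reducible apply IntF.mk | (with_reducible refine Int.comp ?_ ?_; assumption) | (with_reducible refine Int.comp₂ ?_ ?_ ?_; assumption) | (with_reducible refine Int.comp₃ ?_ ?_ ?_ ?_; assumption) | (with_reducible refine Int.comp₄ ?_ ?_ ?_ ?_ ?_; assumption) | (with_reducible refine IntF.comp ?_ ?_; assumption) | (with_reducible refine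 IntF.comp₂ ?_ ?_ ?_; assumption) | (with_reducible refine IntF.comp₃ ?_ ?_ ?_ ?_; assumption) | with_reducible apply IntF.pair)))
    · (repeat' (first | with_reducible exact IntF.id | with_reducible exact IntF.fst' | with_reducible exact IntF.snd' | with_reducible exact IntF.const _ | with_reducible exact Int.const _ | assumption | with_reducible apply Int.and | with_reducible apply Int.or | with_reducible apply Int.not | with_reducible apply Int.imp | with_reducible apply Int.iff | with_reducible apply Int.ne | with_reducible apply Int.eq | with_reducible apply Int.mem | with_reducible apply Int.subset | with_reducible apply Int.ltN | with_reducible apply Int.leN | with_reducible_and_instances apply Int.le | with_reducible_and_instances apply Int.lt | with_reducible apply Int.all | with_reducible apply Int.ex | with_reducible apply IntF.fst | with_reducible apply IntF.snd | with_reducible apply IntF.app | with_reducible apply IntF.inl | with_reducible apply IntF.inr | with_reducible_and_instances apply IntF.mul | with_reducible_and_instances apply IntF.inv | with_reducible_and_instances apply IntF.add | with_reducible_and_instances apply IntF.sub | with_reducible_and_instances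 apply IntF.neg | with_reducible_and_instances apply IntF.smul | with_reducible apply Int.fin | with_reducible apply IntF.sep | with_reducible apply IntF.lam | with_reducible apply IntF.insert | with_reducible apply IntF.singleton | with_reducible apply IntF.union | with_reducible apply IntF.iimage | with_reducible apply IntF.ite | with_reducible apply IntF.the | with_reducible apply IntF.irec | with_reducible apply IntF.succ | with_reducible apply IntF.val | with_reducible apply IntF.mk | (with_reducible refine Int.comp ?_ ?_; assumption) | (with_reducible refine Int.comp₂ ?_ ?_ ?_; assumption) | (with_reducible refine Int.comp₃ ?_ ?_ ?_ ?_; assumption) | (with_reducible refine Int.comp₄ ?_ ?_ ?_ ?_ ?_; assumption) | (with_reducible refine IntF.comp ?_ ?_; assumption) | (with_reducible refine IntF.comp₂ ?_ ?_ ?_; assumption) | (with_reducible refine IntF.comp₃ ?_ ?_ ?_ ?_; assumption) | with_reducible apply IntF.pair))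
  · obtain ⟨V, h3, h4⟩ := hval n
    obtain ⟨U, hU⟩ := h4.ne
    exact ⟨U, V, h3, hU⟩
  · rintro ⟨V, h3, h4⟩
    obtain ⟨V', h5, h6⟩ := hval n
    obtain rfl := huniq _ _ _ h3 h5
    exact h6.inf U h4
  · rintro ⟨V, h3, h4⟩ ⟨V', h5, h6⟩
    obtain ⟨V'', h7, h8⟩ := hval n
    obtain rfl := huniq _ _ _ h3 h7
    obtain rfl := huniq _ _ _ h5 h7
    exact h8.diff _ _ h4 h6
  · obtain ⟨V, h3, h4⟩ := hval m
    obtain ⟨V', h5, h6⟩ := hval n
    obtain ⟨u, u', w, h7, h8, h9, h10⟩ := h2 _ _ _ _ h3 h5 fun h => hmn (ITy.inj h)
    obtain ⟨U, hU, rfl⟩ := mem_codeB.1 h7
    obtain ⟨U', hU', rfl⟩ := mem_codeB.1 h8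
    rw [isInter_code.1 h9] at h10
    exact ⟨U, U', ⟨V, h3, hU⟩, ⟨V', h5, hU'⟩, fin_of_isFinite h10⟩

theorem fbi_of {mem : α × δ → Prop} {R : δ × INat N → Prop} (h : FB1 N mem R) :
    FilterbaseInfinite (dom N α) := by
  have hm := h.intm
  have hR := h.intR
  have hex := int_ex h.intm
  have hF : IntF N (fun i : INat N => sep N fun U : IPow N α => ∃ d, R (d, i) ∧
    U = ex mem d) := by (repeat' (first | with_reducible exact IntF.id | with_reducible exact IntF.fst' | with_reducible exact IntF.snd' | with_reducible exact IntF.const _ | with_reducible exact Int.const _ | assumption | with_reducible apply Int.and | with_reducible apply Int.or | with_reducible apply Int.not | with_reducible apply Int.imp | with_reducible apply Int.iff | with_reducible apply Int.ne | with_reducible apply Int.eq | with_reducible apply Int.mem | with_reducible apply Int.subset | with_reducible apply Int.ltN | with_reducible apply Int.leN | with_reducible_and_instances apply Int.le | with_reducible_and_instances apply Int.lt | with_reducible apply Int.all | with_reducible apply Int.ex | with_reducible apply IntF.fst | with_reducible apply IntF.snd | with_reducible apply IntF.app | with_reducible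 apply IntF.inl | with_reducible apply IntF.inr | with_reducible_and_instances apply IntF.mul | with_reducible_and_instances apply IntF.inv | with_reducible_and_instances apply IntF.add | with_reducible_and_instances apply IntF.sub | with_reducible_and_instances apply IntF.neg | with_reducible_and_instances apply IntF.smul | with_reducible apply Int.fin | with_reducible apply IntF.sep | with_reducible apply IntF.lam | with_reducible apply IntF.insert | with_reducible apply IntF.singleton | with_reducible apply IntF.union | with_reducible apply IntF.iimage | with_reducible apply IntF.ite | with_reducible apply IntF.the | with_reducible apply IntF.irec | with_reducible apply IntF.succ | with_reducible apply IntF.val | with_reducible apply IntF.mk | (with_reducible refine Int.comp ?_ ?_; assumption) | (with_reducible refine Int.comp₂ ?_ ?_ ?_; assumption) | (with_reducible refine Int.comp₃ ?_ ?_ ?_ ?_; assumption) | (with_reducible refine Int.comp₄ ?_ ?_ ?_ ?_ ?_; assumption) | (with_reducible refine IntF.comp ?_ ?_; assumption) | (with_reducible refine IntF.comp₂ ?_ ?_ ?_; assumption) | (with_reducible refine IntF.comp₃ ?_ ?_ ?_ ?_; assumption) | with_reducible apply IntF.pair))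
  have hI : ∀ i, Int N (fun U : IPow N α => ∃ d, R (d, i) ∧ U = ex mem d) := by
    intro i
    (repeat' (first | with_reducible exact IntF.id | with_reducible exact IntF.fst' | with_reducible exact IntF.snd' | with_reducible exact IntF.const _ | with_reducible exact Int.const _ | assumption | with_reducible apply Int.and | with_reducible apply Int.or | with_reducible apply Int.not | with_reducible apply Int.imp | with_reducible apply Int.iff | with_reducible apply Int.ne | with_reducible apply Int.eq | with_reducible apply Int.mem | with_reducible apply Int.subset | with_reducible apply Int.ltN | with_reducible apply Int.leN | with_reducible_and_instances apply Int.le | with_reducible_and_instances apply Int.lt | with_reducible apply Int.all | with_reducible apply Int.ex | with_reducible apply IntF.fst | with_reducible apply IntF.snd | with_reducible apply IntF.app | with_reducible apply IntF.inl | with_reducible apply IntF.inr | with_reducible_and_instances apply IntF.mul | with_reducible_and_instances apply IntF.inv | with_reducible_and_instances apply IntF.add | with_reducible_and_instances apply IntF.sub | with_reducible_and_instances apply IntF.neg | with_reducible_and_instances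 apply IntF.smul | with_reducible apply Int.fin | with_reducible apply IntF.sep | with_reducible apply IntF.lam | with_reducible apply IntF.insert | with_reducible apply IntF.singleton | with_reducible apply IntF.union | with_reducible apply IntF.iimage | with_reducible apply IntF.ite | with_reducible apply IntF.the | with_reducible apply IntF.irec | with_reducible apply IntF.succ | with_reducible apply IntF.val | with_reducible apply IntF.mk | (with_reducible refine Int.comp ?_ ?_; assumption) | (with_reducible refine Int.comp₂ ?_ ?_ ?_; assumption) | (with_reducible refine Int.comp₃ ?_ ?_ ?_ ?_; assumption) | (with_reducible refine Int.comp₄ ?_ ?_ ?_ ?_ ?_; assumption) | (with_reducible refine IntF.comp ?_ ?_; assumption) | (with_reducible refine IntF.comp₂ ?_ ?_ ?_; assumption) | (with_reducible refine IntF.comp₃ ?_ ?_ ?_ ?_; assumption) | with_reducible apply IntF.pair))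
  have hne : ∀ i, ∃ d, R (d, i) := by
    intro i
    obtain ⟨d, d', h1, -, -⟩ := h.disj i i.succ (fun e => absurd (INat.lt_succ_self i)
      (by rw [← e]; exact lt_irrefl _))
    exact ⟨d, h1⟩
  refine ⟨_, isSeq_relc hF, ?_, ?_⟩
  · intro n v hv
    obtain ⟨i, rfl, rfl⟩ := (app_relcF hF).1 hv
    refine ⟨⟨?_, ?_, ?_⟩, ?_⟩
    · obtain ⟨d, hd⟩ := hne i
      exact ⟨code (ex mem d), mem_codeM.2 ((mem_sep (hI i)).2 ⟨d, hd, rfl⟩)⟩
    · intro u hu
      obtain ⟨U, hU, rfl⟩ := mem_codeB.1 hu
      obtain ⟨d, hd, rfl⟩ := (mem_sep (hI i)).1 hU
      refine ⟨fun z hz => ?_, ?_⟩
      · obtain ⟨a, ha, rfl⟩ := mem_codeB.1 hz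
        exact code_mem_domP a
      · obtain ⟨x, hx⟩ := h.ne d i hd
        exact ⟨code x, mem_codeM.2 ((mem_ex hm).2 hx)⟩
    · intro u u' hu hu'
      obtain ⟨U, hU, rfl⟩ := mem_codeB.1 hu
      obtain ⟨U', hU', rfl⟩ := mem_codeB.1 hu'
      obtain ⟨d, hd, rfl⟩ := (mem_sep (hI i)).1 hU
      obtain ⟨d', hd', rfl⟩ := (mem_sep (hI i)).1 hU'
      obtain ⟨d'', h1, h2⟩ := h.inter d d' i hd hd'
      refine ⟨code (ex mem d''), mem_codeM.2 ((mem_sep (hI i)).2 ⟨d'', h1, rfl⟩), fun z hz => ?_⟩
      obtain ⟨a, ha, rfl⟩ := mem_codeB.1 hz
      have h3 := h2 a ((mem_ex hm).1 ha)
      exact ⟨mem_codeM.2 ((mem_ex hm).2 h3.1), mem_codeM.2 ((mem_ex hm).2 h3.2)⟩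
    · intro z
      by_cases hz : ∃ a : α, code a = z
      · obtain ⟨a, rfl⟩ := hz
        obtain ⟨d, hd, hd'⟩ := h.free i a
        exact ⟨code (ex mem d), mem_codeM.2 ((mem_sep (hI i)).2 ⟨d, hd, rfl⟩),
          fun h1 => hd' ((mem_ex hm).1 (mem_codeM.1 h1))⟩
      · obtain ⟨d, hd⟩ := hne i
        refine ⟨code (ex mem d), mem_codeM.2 ((mem_sep (hI i)).2 ⟨d, hd, rfl⟩), fun h1 => hz ?_⟩
        obtain ⟨a, -, ha⟩ := mem_codeB.1 h1
        exact ⟨a, ha⟩
  · intro m n v v' hv hv' hmn
    obtain ⟨i, rfl, rfl⟩ := (app_relcF hF).1 hv
    obtain ⟨j, rfl, rfl⟩ := (app_relcF hF).1 hv'
    obtain ⟨d, d', h1, h2, h3⟩ := h.disj i j fun e => hmn (by rw [e])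
    refine ⟨code (ex mem d), code (ex mem d'), mem_codeM.2 ((mem_sep (hI i)).2 ⟨d, h1, rfl⟩),
      mem_codeM.2 ((mem_sep (hI j)).2 ⟨d', h2, rfl⟩), ?_⟩
    rintro z ⟨h4, h5⟩
    obtain ⟨a, ha, rfl⟩ := mem_codeB.1 h4
    exact h3 a ⟨(mem_ex hm).1 ha, (mem_ex hm).1 (mem_codeM.1 h5)⟩

end

end Pool.Agent.V11257G
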