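import Pool.Agent.V11257.Mf8

/-!
# Strongly filterbase infinite sets: the second structure, part 2
-/

set_option maxHeartbeats 1000000
set_option linter.all false
set_option synthInstance.maxSize 2000

namespace Pool.Agent.V11257G

open FirstOrder FirstOrder.Language
open Pool.Agent.Helper672.ZFA
open Pool.Agent.Helper672.ZFA.V246
open Pool.Agent.Helper672.Plain (LSet)
open Pool.Agent.H310
open Pool.Agent.V11246
open Pool.Agent.V11257P

universe u

section

variable {M N : Type u} [L.Structure M] [IsModel M] [L.Structure N] [IsModel N]
  {β ν : Type u} [ITy M β] [ITy M ν] {R : IPow M β × ν → Prop} (r : Rep M N β ν R)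

/-- The set named by `B`. -/
noncomputable def Rep.st (B : IPow M β) : IPow N r.α := ex r.mem (r.cd B)

theorem Rep.mem_st {x : β} {B : IPow M β} : r.ca x ∈ r.st B ↔ x ∈ B := by
  unfold Rep.st
  rw [mem_ex r.intm, r.mem_iff]

theorem Rep.st_inj {B B' : IPow M β} (h : r.st B = r.st B') : B = B' :=
  IPow.ext' fun x => by rw [← r.mem_st, h, r.mem_st]

theorem Rep.eq_st {U : IPow N r.α} {B : IPow M β} (h : ∀ x, r.ca x ∈ U ↔ x ∈ B) : U = r.st B := by
  refine IPow.ext' fun x => ?_
  obtain ⟨x, rfl⟩ := r.ca_surj x
  rw [h, r.mem_st]

variable (hR : ∀ x y : β, Adm M R (swf x y))

include hR

theorem Rep.exists_st (U : IPow N r.α) : ∃ B, U = r.st B := by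
  obtain ⟨d, hd⟩ := r.all hR U
  obtain ⟨B, rfl⟩ := r.cd_surj d
  refine ⟨B, r.eq_st fun x => ?_⟩
  rw [hd, r.mem_iff]

theorem Rep.finU {U : IPow N r.α} {B : IPow M β} (h : ∀ x, r.ca x ∈ U ↔ x ∈ B) :
    IFin U ↔ IFin B := by
  have h0 : Int N (fun x => x ∈ U) := by (repeat' (first | with_reducible exact IntF.id | with_reducible exact IntF.fst' | with_reducible exact IntF.snd' | with_reducible exact IntF.const _ | with_reducible exact Int.const _ | assumption | with_reducible apply Int.and | with_reducible apply Int.or | with_reducible apply Int.not | with_reducible apply Int.imp | with_reducible apply Int.iff | with_reducible apply Int.ne | with_reducible apply Int.eq | with_reducible apply Int.mem | with_reducible apply Int.subset | with_reducible apply Int.ltN | with_reducible apply Int.leN | with_reducible_and_instances apply Int.le | with_reducible_and_instances apply Int.lt | with_reducible apply Int.all | with_reducible apply Int.ex | with_reducible apply IntF.fst | with_reducible apply IntF.snd | with_reducible apply IntF.app | with_reducible apply IntF.inl | with_reducible apply IntF.inr | with_reducible_and_instances apply IntF.mul | with_reducible_and_instances apply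 IntF.inv | with_reducible_and_instances apply IntF.add | with_reducible_and_instances apply IntF.sub | with_reducible_and_instances apply IntF.neg | with_reducible_and_instances apply IntF.smul | with_reducible apply Int.fin | with_reducible apply IntF.sep | with_reducible apply IntF.lam | with_reducible apply IntF.insert | with_reducible apply IntF.singleton | with_reducible apply IntF.union | with_reducible apply IntF.iimage | with_reducible apply IntF.ite | with_reducible apply IntF.the | with_reducible apply IntF.irec | with_reducible apply IntF.succ | with_reducible apply IntF.val | with_reducible apply IntF.mk | (with_reducible refine Int.comp ?_ ?_; assumption) | (with_reducible refine Int.comp₂ ?_ ?_ ?_; assumption) | (with_reducible refine Int.comp₃ ?_ ?_ ?_ ?_; assumption) | (with_reducible refine Int.comp₄ ?_ ?_ ?_ ?_ ?_; assumption) | (with_reducible refine IntF.comp ?_ ?_; assumption) | (with_reducible refine IntF.comp₂ ?_ ?_ ?_; assumption) | (with_reducible refine IntF.comp₃ ?_ ?_ ?_ ?_; assumption) | with_reducible apply IntF.pair))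
  have h1 : sep N (fun x => x ∈ U) = U := IPow.ext' fun x => mem_sep h0
  rw [← h1]
  exact r.fin_iff hR h0 h

/-- Supports of families of sets. -/
theorem Rep.homU {W : IPow N r.α × INat N → Prop} (hW : Int N W) :
    ∃ (s : IPow M (IPow M β)) (s' : IPow N (IPow N r.α)), IFin s ∧ IFin s' ∧
      (∀ x y, Cl s' (r.ca x) (r.ca y) ↔ Cl s x y) ∧
      ∀ f : β → β, Adm M R f → (∀ B, B ∈ s → ∀ y, f y ∈ B ↔ y ∈ B) →
        ∀ B n, W (r.st B, r.nn n) → W (r.st (im f B), r.nn n) := by
  have hm := r.intm
  have hex : IntF N (ex (N := N) r.mem) := int_ex hm
  obtain ⟨s, hs, h1⟩ := r.homd (fun q => W (ex r.mem q.1, q.2)) (by (repeat' (first | with_reducible exact IntF.id | with_reducible exact IntF.fst' | with_reducible exact IntF.snd' | with_reducible exact IntF.const _ | with_reducible exact Int.const _ | assumption | with_reducible apply Int.and | with_reducible apply Int.or | with_reducible apply Int.not | with_reducible apply Int.imp | with_reducible apply Int.iff | with_reducible apply Int.ne | with_reducible apply Int.eq | with_reducible apply Int.mem | with_reducible apply Int.subset | with_reducible apply Int.ltN | with_reducible apply Int.leN | with_reducible_and_instances apply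 Int.le | with_reducible_and_instances apply Int.lt | with_reducible apply Int.all | with_reducible apply Int.ex | with_reducible apply IntF.fst | with_reducible apply IntF.snd | with_reducible apply IntF.app | with_reducible apply IntF.inl | with_reducible apply IntF.inr | with_reducible_and_instances apply IntF.mul | with_reducible_and_instances apply IntF.inv | with_reducible_and_instances apply IntF.add | with_reducible_and_instances apply IntF.sub | with_reducible_and_instances apply IntF.neg | with_reducible_and_instances apply IntF.smul | with_reducible apply Int.fin | with_reducible apply IntF.sep | with_reducible apply IntF.lam | with_reducible apply IntF.insert | with_reducible apply IntF.singleton | with_reducible apply IntF.union | with_reducible apply IntF.iimage | with_reducible apply IntF.ite | with_reducible apply IntF.the | with_reducible apply IntF.irec | with_reducible apply IntF.succ | with_reducible apply IntF.val | with_reducible apply IntF.mk | (with_reducible refine Int.comp ?_ ?_; assumption) | (with_reducible refine Int.comp₂ ?_ ?_ ?_; assumption) | (with_reducible refine Int.comp₃ ?_ ?_ ?_ ?_; assumption) | (with_reducible refine Int.comp₄ ?_ ?_ ?_ ?_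 ?_; assumption) | (with_reducible refine IntF.comp ?_ ?_; assumption) | (with_reducible refine IntF.comp₂ ?_ ?_ ?_; assumption) | (with_reducible refine IntF.comp₃ ?_ ?_ ?_ ?_; assumption) | with_reducible apply IntF.pair)))
  obtain ⟨s', hs', h2⟩ := r.find s hs
  refine ⟨s, iimage (ex r.mem) s', hs, hs'.image hex, fun x y => ?_, h1⟩
  constructor
  · intro h C hC
    have := h (ex r.mem (r.cd C)) ((mem_iimage hex).2 ⟨_, (h2 C).2 hC, rfl⟩)
    rwa [mem_ex hm, mem_ex hm, r.mem_iff, r.mem_iff] at this
  · intro h e he
    obtain ⟨d, hd, rfl⟩ := (mem_iimage hex).1 he
    obtain ⟨C, rfl⟩ := r.cd_surj d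
    rw [mem_ex hm, mem_ex hm, r.mem_iff, r.mem_iff]
    exact h C ((h2 C).1 hd)

end

section

variable {M : Type u} [L.Structure M] [hM : IsModel M] {N : Type u} [L.Structure N] [IsModel N]

/-- The relations in the model. -/
structure FB2M (r : Rep M N (B17 M) (INat M ⊕ INat M) R17) (R : IPow N r.α × INat N → Prop)
    (Fc : IPow N r.α → Prop) : Prop where
  intR : Int N R
  intF : Int N Fc
  hR : ∀ B n, R (r.st B, r.nn n) ↔ IFin (sep M fun x : B17 M => ¬ (x ∈ B ↔ x.1 = n))
  hF : ∀ B, Fc (r.st B) ↔ ∃ n, IFin (sep M fun x : B17 M => x ∈ B ∧ ¬ x.1 < n)

variable (r : Rep M N (B17 M) (INat M ⊕ INat M) R17)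

theorem exists_fb2m : ∃ R Fc, FB2M r R Fc := by
  have hm := r.intm
  have hRi := r.intR
  have hex : IntF N (ex (N := N) r.mem) := int_ex hm
  obtain ⟨T, hT, hT'⟩ := r.relv (fun q => q.2 = Sum.inl q.1) (by (repeat' (first | with_reducible exact IntF.id | with_reducible exact IntF.fst' | with_reducible exact IntF.snd' | with_reducible exact IntF.const _ | with_reducible exact Int.const _ | assumption | with_reducible apply Int.and | with_reducible apply Int.or | with_reducible apply Int.not | with_reducible apply Int.imp | with_reducible apply Int.iff | with_reducible apply Int.ne | with_reducible apply Int.eq | with_reducible apply Int.mem | with_reducible apply Int.subset | with_reducible apply Int.ltN | with_reducible apply Int.leN | with_reducible_and_instances apply Int.le | with_reducible_and_instances apply Int.lt | with_reducible apply Int.all | with_reducible apply Int.ex | with_reducible apply IntF.fst | with_reducible apply IntF.snd | with_reducible apply IntF.app | with_reducible apply IntF.inl | with_reducible apply IntF.inr | with_reducible_and_instances apply IntF.mul | with_reducible_and_instances apply IntF.inv | with_reducible_and_instances apply IntF.add | with_reducible_and_instances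 apply IntF.sub | with_reducible_and_instances apply IntF.neg | with_reducible_and_instances apply IntF.smul | with_reducible apply Int.fin | with_reducible apply IntF.sep | with_reducible apply IntF.lam | with_reducible apply IntF.insert | with_reducible apply IntF.singleton | with_reducible apply IntF.union | with_reducible apply IntF.iimage | with_reducible apply IntF.ite | with_reducible apply IntF.the | with_reducible apply IntF.irec | with_reducible apply IntF.succ | with_reducible apply IntF.val | with_reducible apply IntF.mk | (with_reducible refine Int.comp ?_ ?_; assumption) | (with_reducible refine Int.comp₂ ?_ ?_ ?_; assumption) | (with_reducible refine Int.comp₃ ?_ ?_ ?_ ?_; assumption) | (with_reducible refine Int.comp₄ ?_ ?_ ?_ ?_ ?_; assumption) | (with_reducible refine IntF.comp ?_ ?_; assumption) | (with_reducible refine IntF.comp₂ ?_ ?_ ?_; assumption) | (with_reducible refine IntF.comp₃ ?_ ?_ ?_ ?_; assumption) | with_reducible apply IntF.pair)))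
  obtain ⟨T2, hT2, hT2'⟩ := r.relv (fun q => q.2 = Sum.inr q.1) (by (repeat' (first | with_reducible exact IntF.id | with_reducible exact IntF.fst' | with_reducible exact IntF.snd' | with_reducible exact IntF.const _ | with_reducible exact Int.const _ | assumption | with_reducible apply Int.and | with_reducible apply Int.or | with_reducible apply Int.not | with_reducible apply Int.imp | with_reducible apply Int.iff | with_reducible apply Int.ne | with_reducible apply Int.eq | with_reducible apply Int.mem | with_reducible apply Int.subset | with_reducible apply Int.ltN | with_reducible apply Int.leN | with_reducible_and_instances apply Int.le | with_reducible_and_instances apply Int.lt | with_reducible apply Int.all | with_reducible apply Int.ex | with_reducible apply IntF.fst | with_reducible apply IntF.snd | with_reducible apply IntF.app | with_reducible apply IntF.inl | with_reducible apply IntF.inr | with_reducible_and_instances apply IntF.mul | with_reducible_and_instances apply IntF.inv | with_reducible_and_instances apply IntF.add | with_reducible_and_instances apply IntF.sub | with_reducible_and_instances apply IntF.neg | with_reducible_and_instances apply IntF.smul | with_reducible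 apply Int.fin | with_reducible apply IntF.sep | with_reducible apply IntF.lam | with_reducible apply IntF.insert | with_reducible apply IntF.singleton | with_reducible apply IntF.union | with_reducible apply IntF.iimage | with_reducible apply IntF.ite | with_reducible apply IntF.the | with_reducible apply IntF.irec | with_reducible apply IntF.succ | with_reducible apply IntF.val | with_reducible apply IntF.mk | (with_reducible refine Int.comp ?_ ?_; assumption) | (with_reducible refine Int.comp₂ ?_ ?_ ?_; assumption) | (with_reducible refine Int.comp₃ ?_ ?_ ?_ ?_; assumption) | (with_reducible refine Int.comp₄ ?_ ?_ ?_ ?_ ?_; assumption) | (with_reducible refine IntF.comp ?_ ?_; assumption) | (with_reducible refine IntF.comp₂ ?_ ?_ ?_; assumption) | (with_reducible refine IntF.comp₃ ?_ ?_ ?_ ?_; assumption) | with_reducible apply IntF.pair)))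
  have i1 : Int N (fun q : IPow N r.α × INat N => ∃ d v, q.1 = ex r.mem d ∧ T (q.2, v) ∧
      r.Rr (d, v)) := by (repeat' (first | with_reducible exact IntF.id | with_reducible exact IntF.fst' | with_reducible exact IntF.snd' | with_reducible exact IntF.const _ | with_reducible exact Int.const _ | assumption | with_reducible apply Int.and | with_reducible apply Int.or | with_reducible apply Int.not | with_reducible apply Int.imp | with_reducible apply Int.iff | with_reducible apply Int.ne | with_reducible apply Int.eq | with_reducible apply Int.mem | with_reducible apply Int.subset | with_reducible apply Int.ltN | with_reducible apply Int.leN | with_reducible_and_instances apply Int.le | with_reducible_and_instances apply Int.lt | with_reducible apply Int.all | with_reducible apply Int.ex | with_reducible apply IntF.fst | with_reducible apply IntF.snd | with_reducible apply IntF.app | with_reducible apply IntF.inl | with_reducible apply IntF.inr | with_reducible_and_instances apply IntF.mul | with_reducible_and_instances apply IntF.inv | with_reducible_and_instances apply IntF.add | with_reducible_and_instances apply IntF.sub | with_reducible_and_instances apply IntF.neg | with_reducible_and_instances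 apply IntF.smul | with_reducible apply Int.fin | with_reducible apply IntF.sep | with_reducible apply IntF.lam | with_reducible apply IntF.insert | with_reducible apply IntF.singleton | with_reducible apply IntF.union | with_reducible apply IntF.iimage | with_reducible apply IntF.ite | with_reducible apply IntF.the | with_reducible apply IntF.irec | with_reducible apply IntF.succ | with_reducible apply IntF.val | with_reducible apply IntF.mk | (with_reducible refine Int.comp ?_ ?_; assumption) | (with_reducible refine Int.comp₂ ?_ ?_ ?_; assumption) | (with_reducible refine Int.comp₃ ?_ ?_ ?_ ?_; assumption) | (with_reducible refine Int.comp₄ ?_ ?_ ?_ ?_ ?_; assumption) | (with_reducible refine IntF.comp ?_ ?_; assumption) | (with_reducible refine IntF.comp₂ ?_ ?_ ?_; assumption) | (with_reducible refine IntF.comp₃ ?_ ?_ ?_ ?_; assumption) | with_reducible apply IntF.pair))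
  have i2 : Int N (fun U : IPow N r.α => ∃ d v n, U = ex r.mem d ∧ T2 (n, v) ∧
      r.Rr (d, v)) := by (repeat' (first | with_reducible exact IntF.id | with_reducible exact IntF.fst' | with_reducible exact IntF.snd' | with_reducible exact IntF.const _ | with_reducible exact Int.const _ | assumption | with_reducible apply Int.and | with_reducible apply Int.or | with_reducible apply Int.not | with_reducible apply Int.imp | with_reducible apply Int.iff | with_reducible apply Int.ne | with_reducible apply Int.eq | with_reducible apply Int.mem | with_reducible apply Int.subset | with_reducible apply Int.ltN | with_reducible apply Int.leN | with_reducible_and_instances apply Int.le | with_reducible_and_instances apply Int.lt | with_reducible apply Int.all | with_reducible apply Int.ex | with_reducible apply IntF.fst | with_reducible apply IntF.snd | with_reducible apply IntF.app | with_reducible apply IntF.inl | with_reducible apply IntF.inr | with_reducible_and_instances apply IntF.mul | with_reducible_and_instances apply IntF.inv | with_reducible_and_instances apply IntF.add | with_reducible_and_instances apply IntF.sub | with_reducible_and_instances apply IntF.neg | with_reducible_and_instances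 apply IntF.smul | with_reducible apply Int.fin | with_reducible apply IntF.sep | with_reducible apply IntF.lam | with_reducible apply IntF.insert | with_reducible apply IntF.singleton | with_reducible apply IntF.union | with_reducible apply IntF.iimage | with_reducible apply IntF.ite | with_reducible apply IntF.the | with_reducible apply IntF.irec | with_reducible apply IntF.succ | with_reducible apply IntF.val | with_reducible apply IntF.mk | (with_reducible refine Int.comp ?_ ?_; assumption) | (with_reducible refine Int.comp₂ ?_ ?_ ?_; assumption) | (with_reducible refine Int.comp₃ ?_ ?_ ?_ ?_; assumption) | (with_reducible refine Int.comp₄ ?_ ?_ ?_ ?_ ?_; assumption) | (with_reducible refine IntF.comp ?_ ?_; assumption) | (with_reducible refine IntF.comp₂ ?_ ?_ ?_; assumption) | (with_reducible refine IntF.comp₃ ?_ ?_ ?_ ?_; assumption) | with_reducible apply IntF.pair))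
  refine ⟨_, _, i1, i2, ?_, ?_⟩
  · intro B n
    rw [← R17_inl]
    constructor
    · rintro ⟨d, v, h1, h2, h3⟩
      obtain ⟨d, rfl⟩ := r.cd_surj d
      obtain ⟨v, rfl⟩ := r.cv_surj v
      rw [hT'] at h2
      rw [r.R_iff] at h3
      rw [r.st_inj h1]
      rwa [show v = Sum.inl n from h2] at h3
    · intro h
      exact ⟨r.cd B, r.cv (Sum.inl n), rfl, (hT' _ _).2 rfl, r.R_iff.2 h⟩
  · intro B
    constructor
    · rintro ⟨d, v, n, h1, h2, h3⟩
      obtain ⟨d, rfl⟩ := r.cd_surj d
      obtain ⟨v, rfl⟩ := r.cv_surj v
      obtain ⟨n, rfl⟩ := r.nn_surj n
      rw [hT2'] at h2
      rw [r.R_iff] at h3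
      rw [r.st_inj h1]
      rw [show v = Sum.inr n from h2, R17_inr] at h3
      exact ⟨n, h3⟩
    · rintro ⟨n, h⟩
      exact ⟨r.cd B, r.cv (Sum.inr n), r.nn n, rfl, (hT2' _ _).2 rfl, r.R_iff.2 (R17_inr.2 h)⟩

end

end Pool.Agent.V11257G
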