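import Pool.Agent.V11257.Pmx

/-!
# A set with names for some of its subsets: the group
-/

set_option maxHeartbeats 1000000
set_option linter.all false
set_option synthInstance.maxSize 2000

namespace Pool.Agent.V11257H

open FirstOrder FirstOrder.Language
open Pool.Agent.Helper672.ZFA
open Pool.Agent.Helper672.ZFA.H635 (IPerm SymSys IG WFI FEq FMem tw Good feq_of_map feq_iff IsGen
  nd nd_eq mem_nd mem_nd_nd exists_mk mk_eq_nd EqFam NN nn_ext CollL nn_zf mem_NN)
open Pool.Agent.Helper672.ZFA.H310M
open Pool.Agent.Helper672.Plain (LSet)
open Pool.Agent.H310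
open Pool.Agent.V11257P

universe u

variable {M : Type u} [L.Structure M] [hM : IsModel M] {β δ ν : Type u} [ITy M β] [ITy M δ]
  [ITy M ν]

variable (β δ ν) in
/-- The index set. -/
abbrev Xh : Type u := β ⊕ (δ ⊕ ν)

/-- A point. -/
abbrev xa (x : β) : Xh β δ ν := Sum.inl x
/-- A name of a set. -/
abbrev xd (B : δ) : Xh β δ ν := Sum.inr (Sum.inl B)
/-- An index. -/
abbrev xv (v : ν) : Xh β δ ν := Sum.inr (Sum.inr v)

/-- Membership. -/
def Tm (m : β × δ → Prop) (q : INat M × (Xh β δ ν × Xh β δ ν)) : Prop :=
  ∃ x B, q.2.1 = xa x ∧ q.2.2 = xd B ∧ m (x, B)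

/-- The relation between names and indices. -/
def Tr (R : δ × ν → Prop) (q : INat M × (Xh β δ ν × Xh β δ ν)) : Prop :=
  ∃ B v, q.2.1 = xd B ∧ q.2.2 = xv v ∧ R (B, v)

/-- The relation between points and indices. -/
def Tq (Q : β × ν → Prop) (q : INat M × (Xh β δ ν × Xh β δ ν)) : Prop :=
  ∃ x v, q.2.1 = xa x ∧ q.2.2 = xv v ∧ Q (x, v)

/-- The points. -/
def Ta (q : INat M × (Xh β δ ν × Xh β δ ν)) : Prop := ∃ x, q.2.1 = xa x

/-- The names. -/
def Td (q : INat M × (Xh β δ ν × Xh β δ ν)) : Prop := ∃ B, q.2.1 = xd B

/-- The indices. -/
def Tv (q : INat M × (Xh β δ ν × Xh β δ ν)) : Prop := ∃ v, q.2.1 = xv v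

/-- A relation between numbers and indices. -/
def Tn (T : INat M × ν → Prop) (q : INat M × (Xh β δ ν × Xh β δ ν)) : Prop :=
  ∃ v, q.2.1 = xv v ∧ T (q.1, v)

theorem int_Tm {m : β × δ → Prop} (hm : Int M m) : Int M (Tm (M := M) (ν := ν) m) := by
  unfold Tm
  (repeat' (first | with_reducible exact IntF.id | with_reducible exact IntF.fst' | with_reducible exact IntF.snd' | with_reducible exact IntF.const _ | with_reducible exact Int.const _ | assumption | with_reducible apply Int.and | with_reducible apply Int.or | with_reducible apply Int.not | with_reducible apply Int.imp | with_reducible apply Int.iff | with_reducible apply Int.ne | with_reducible apply Int.eq | with_reducible apply Int.mem | with_reducible apply Int.subset | with_reducible apply Int.ltN | with_reducible apply Int.leN | with_reducible_and_instances apply Int.le | with_reducible_and_instances apply Int.lt | with_reducible apply Int.all | with_reducible apply Int.ex | with_reducible apply IntF.fst | with_reducible apply IntF.snd | with_reducible apply IntF.app | with_reducible apply IntF.inl | with_reducible apply IntF.inr | with_reducible_and_instances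 apply IntF.mul | with_reducible_and_instances apply IntF.inv | with_reducible_and_instances apply IntF.add | with_reducible_and_instances apply IntF.sub | with_reducible_and_instances apply IntF.neg | with_reducible_and_instances apply IntF.smul | with_reducible apply Int.fin | with_reducible apply IntF.sep | with_reducible apply IntF.lam | with_reducible apply IntF.insert | with_reducible apply IntF.singleton | with_reducible apply IntF.union | with_reducible apply IntF.iimage | with_reducible apply IntF.ite | with_reducible apply IntF.the | with_reducible apply IntF.irec | with_reducible apply IntF.succ | with_reducible apply IntF.val | with_reducible apply IntF.mk | (with_reducible refine Int.comp ?_ ?_; assumption) | (with_reducible refine Int.comp₂ ?_ ?_ ?_; assumption) | (with_reducible refine Int.comp₃ ?_ ?_ ?_ ?_; assumption) | (with_reducible refine Int.comp₄ ?_ ?_ ?_ ?_ ?_; assumption) | (with_reducible refine IntF.comp ?_ ?_; assumption) | (with_reducible refine IntF.comp₂ ?_ ?_ ?_; assumption) | (with_reducible refine IntF.comp₃ ?_ ?_ ?_ ?_; assumption) | with_reducible apply IntF.pair))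

theorem int_Tr {R : δ × ν → Prop} (hR : Int M R) : Int M (Tr (M := M) (β := β) R) := by
  unfold Tr
  (repeat' (first | with_reducible exact IntF.id | with_reducible exact IntF.fst' | with_reducible exact IntF.snd' | with_reducible exact IntF.const _ | with_reducible exact Int.const _ | assumption | with_reducible apply Int.and | with_reducible apply Int.or | with_reducible apply Int.not | with_reducible apply Int.imp | with_reducible apply Int.iff | with_reducible apply Int.ne | with_reducible apply Int.eq | with_reducible apply Int.mem | with_reducible apply Int.subset | with_reducible apply Int.ltN | with_reducible apply Int.leN | with_reducible_and_instances apply Int.le | with_reducible_and_instances apply Int.lt | with_reducible apply Int.all | with_reducible apply Int.ex | with_reducible apply IntF.fst | with_reducible apply IntF.snd | with_reducible apply IntF.app | with_reducible apply IntF.inl | with_reducible apply IntF.inr | with_reducible_and_instances apply IntF.mul | with_reducible_and_instances apply IntF.inv | with_reducible_and_instances apply IntF.add | with_reducible_and_instances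 apply IntF.sub | with_reducible_and_instances apply IntF.neg | with_reducible_and_instances apply IntF.smul | with_reducible apply Int.fin | with_reducible apply IntF.sep | with_reducible apply IntF.lam | with_reducible apply IntF.insert | with_reducible apply IntF.singleton | with_reducible apply IntF.union | with_reducible apply IntF.iimage | with_reducible apply IntF.ite | with_reducible apply IntF.the | with_reducible apply IntF.irec | with_reducible apply IntF.succ | with_reducible apply IntF.val | with_reducible apply IntF.mk | (with_reducible refine Int.comp ?_ ?_; assumption) | (with_reducible refine Int.comp₂ ?_ ?_ ?_; assumption) | (with_reducible refine Int.comp₃ ?_ ?_ ?_ ?_; assumption) | (with_reducible refine Int.comp₄ ?_ ?_ ?_ ?_ ?_; assumption) | (with_reducible refine IntF.comp ?_ ?_; assumption) | (with_reducible refine IntF.comp₂ ?_ ?_ ?_; assumption) | (with_reducible refine IntF.comp₃ ?_ ?_ ?_ ?_; assumption) | with_reducible apply IntF.pair))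

theorem int_Tq {Q : β × ν → Prop} (hQ : Int M Q) : Int M (Tq (M := M) (δ := δ) Q) := by
  unfold Tq
  (repeat' (first | with_reducible exact IntF.id | with_reducible exact IntF.fst' | with_reducible exact IntF.snd' | with_reducible exact IntF.const _ | with_reducible exact Int.const _ | assumption | with_reducible apply Int.and | with_reducible apply Int.or | with_reducible apply Int.not | with_reducible apply Int.imp | with_reducible apply Int.iff | with_reducible apply Int.ne | with_reducible apply Int.eq | with_reducible apply Int.mem | with_reducible apply Int.subset | with_reducible apply Int.ltN | with_reducible apply Int.leN | with_reducible_and_instances apply Int.le | with_reducible_and_instances apply Int.lt | with_reducible apply Int.all | with_reducible apply Int.ex | with_reducible apply IntF.fst | with_reducible apply IntF.snd | with_reducible apply IntF.app | with_reducible apply IntF.inl | with_reducible apply IntF.inr | with_reducible_and_instances apply IntF.mul | with_reducible_and_instances apply IntF.inv | with_reducible_and_instances apply IntF.add | with_reducible_and_instances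 apply IntF.sub | with_reducible_and_instances apply IntF.neg | with_reducible_and_instances apply IntF.smul | with_reducible apply Int.fin | with_reducible apply IntF.sep | with_reducible apply IntF.lam | with_reducible apply IntF.insert | with_reducible apply IntF.singleton | with_reducible apply IntF.union | with_reducible apply IntF.iimage | with_reducible apply IntF.ite | with_reducible apply IntF.the | with_reducible apply IntF.irec | with_reducible apply IntF.succ | with_reducible apply IntF.val | with_reducible apply IntF.mk | (with_reducible refine Int.comp ?_ ?_; assumption) | (with_reducible refine Int.comp₂ ?_ ?_ ?_; assumption) | (with_reducible refine Int.comp₃ ?_ ?_ ?_ ?_; assumption) | (with_reducible refine Int.comp₄ ?_ ?_ ?_ ?_ ?_; assumption) | (with_reducible refine IntF.comp ?_ ?_; assumption) | (with_reducible refine IntF.comp₂ ?_ ?_ ?_; assumption) | (with_reducible refine IntF.comp₃ ?_ ?_ ?_ ?_; assumption) | with_reducible apply IntF.pair))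

theorem int_Ta : Int M (Ta (M := M) (β := β) (δ := δ) (ν := ν)) := by
  unfold Ta
  (repeat' (first | with_reducible exact IntF.id | with_reducible exact IntF.fst' | with_reducible exact IntF.snd' | with_reducible exact IntF.const _ | with_reducible exact Int.const _ | assumption | with_reducible apply Int.and | with_reducible apply Int.or | with_reducible apply Int.not | with_reducible apply Int.imp | with_reducible apply Int.iff | with_reducible apply Int.ne | with_reducible apply Int.eq | with_reducible apply Int.mem | with_reducible apply Int.subset | with_reducible apply Int.ltN | with_reducible apply Int.leN | with_reducible_and_instances apply Int.le | with_reducible_and_instances apply Int.lt | with_reducible apply Int.all | with_reducible apply Int.ex | with_reducible apply IntF.fst | with_reducible apply IntF.snd | with_reducible apply IntF.app | with_reducible apply IntF.inl | with_reducible apply IntF.inr | with_reducible_and_instances apply IntF.mul | with_reducible_and_instances apply IntF.inv | with_reducible_and_instances apply IntF.add | with_reducible_and_instances apply IntF.sub | with_reducible_and_instances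 apply IntF.neg | with_reducible_and_instances apply IntF.smul | with_reducible apply Int.fin | with_reducible apply IntF.sep | with_reducible apply IntF.lam | with_reducible apply IntF.insert | with_reducible apply IntF.singleton | with_reducible apply IntF.union | with_reducible apply IntF.iimage | with_reducible apply IntF.ite | with_reducible apply IntF.the | with_reducible apply IntF.irec | with_reducible apply IntF.succ | with_reducible apply IntF.val | with_reducible apply IntF.mk | (with_reducible refine Int.comp ?_ ?_; assumption) | (with_reducible refine Int.comp₂ ?_ ?_ ?_; assumption) | (with_reducible refine Int.comp₃ ?_ ?_ ?_ ?_; assumption) | (with_reducible refine Int.comp₄ ?_ ?_ ?_ ?_ ?_; assumption) | (with_reducible refine IntF.comp ?_ ?_; assumption) | (with_reducible refine IntF.comp₂ ?_ ?_ ?_; assumption) | (with_reducible refine IntF.comp₃ ?_ ?_ ?_ ?_; assumption) | with_reducible apply IntF.pair))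

theorem int_Td : Int M (Td (M := M) (β := β) (δ := δ) (ν := ν)) := by
  unfold Td
  (repeat' (first | with_reducible exact IntF.id | with_reducible exact IntF.fst' | with_reducible exact IntF.snd' | with_reducible exact IntF.const _ | with_reducible exact Int.const _ | assumption | with_reducible apply Int.and | with_reducible apply Int.or | with_reducible apply Int.not | with_reducible apply Int.imp | with_reducible apply Int.iff | with_reducible apply Int.ne | with_reducible apply Int.eq | with_reducible apply Int.mem | with_reducible apply Int.subset | with_reducible apply Int.ltN | with_reducible apply Int.leN | with_reducible_and_instances apply Int.le | with_reducible_and_instances apply Int.lt | with_reducible apply Int.all | with_reducible apply Int.ex | with_reducible apply IntF.fst | with_reducible apply IntF.snd | with_reducible apply IntF.app | with_reducible apply IntF.inl | with_reducible apply IntF.inr | with_reducible_and_instances apply IntF.mul | with_reducible_and_instances apply IntF.inv | with_reducible_and_instances apply IntF.add | with_reducible_and_instances apply IntF.sub | with_reducible_and_instances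 apply IntF.neg | with_reducible_and_instances apply IntF.smul | with_reducible apply Int.fin | with_reducible apply IntF.sep | with_reducible apply IntF.lam | with_reducible apply IntF.insert | with_reducible apply IntF.singleton | with_reducible apply IntF.union | with_reducible apply IntF.iimage | with_reducible apply IntF.ite | with_reducible apply IntF.the | with_reducible apply IntF.irec | with_reducible apply IntF.succ | with_reducible apply IntF.val | with_reducible apply IntF.mk | (with_reducible refine Int.comp ?_ ?_; assumption) | (with_reducible refine Int.comp₂ ?_ ?_ ?_; assumption) | (with_reducible refine Int.comp₃ ?_ ?_ ?_ ?_; assumption) | (with_reducible refine Int.comp₄ ?_ ?_ ?_ ?_ ?_; assumption) | (with_reducible refine IntF.comp ?_ ?_; assumption) | (with_reducible refine IntF.comp₂ ?_ ?_ ?_; assumption) | (with_reducible refine IntF.comp₃ ?_ ?_ ?_ ?_; assumption) | with_reducible apply IntF.pair))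

theorem int_Tv : Int M (Tv (M := M) (β := β) (δ := δ) (ν := ν)) := by
  unfold Tv
  (repeat' (first | with_reducible exact IntF.id | with_reducible exact IntF.fst' | with_reducible exact IntF.snd' | with_reducible exact IntF.const _ | with_reducible exact Int.const _ | assumption | with_reducible apply Int.and | with_reducible apply Int.or | with_reducible apply Int.not | with_reducible apply Int.imp | with_reducible apply Int.iff | with_reducible apply Int.ne | with_reducible apply Int.eq | with_reducible apply Int.mem | with_reducible apply Int.subset | with_reducible apply Int.ltN | with_reducible apply Int.leN | with_reducible_and_instances apply Int.le | with_reducible_and_instances apply Int.lt | with_reducible apply Int.all | with_reducible apply Int.ex | with_reducible apply IntF.fst | with_reducible apply IntF.snd | with_reducible apply IntF.app | with_reducible apply IntF.inl | with_reducible apply IntF.inr | with_reducible_and_instances apply IntF.mul | with_reducible_and_instances apply IntF.inv | with_reducible_and_instances apply IntF.add | with_reducible_and_instances apply IntF.sub | with_reducible_and_instances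 apply IntF.neg | with_reducible_and_instances apply IntF.smul | with_reducible apply Int.fin | with_reducible apply IntF.sep | with_reducible apply IntF.lam | with_reducible apply IntF.insert | with_reducible apply IntF.singleton | with_reducible apply IntF.union | with_reducible apply IntF.iimage | with_reducible apply IntF.ite | with_reducible apply IntF.the | with_reducible apply IntF.irec | with_reducible apply IntF.succ | with_reducible apply IntF.val | with_reducible apply IntF.mk | (with_reducible refine Int.comp ?_ ?_; assumption) | (with_reducible refine Int.comp₂ ?_ ?_ ?_; assumption) | (with_reducible refine Int.comp₃ ?_ ?_ ?_ ?_; assumption) | (with_reducible refine Int.comp₄ ?_ ?_ ?_ ?_ ?_; assumption) | (with_reducible refine IntF.comp ?_ ?_; assumption) | (with_reducible refine IntF.comp₂ ?_ ?_ ?_; assumption) | (with_reducible refine IntF.comp₃ ?_ ?_ ?_ ?_; assumption) | with_reducible apply IntF.pair))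

theorem int_Tn {T : INat M × ν → Prop} (hT : Int M T) :
    Int M (Tn (M := M) (β := β) (δ := δ) (ν := ν) T) := by
  unfold Tn
  (repeat' (first | with_reducible exact IntF.id | with_reducible exact IntF.fst' | with_reducible exact IntF.snd' | with_reducible exact IntF.const _ | with_reducible exact Int.const _ | assumption | with_reducible apply Int.and | with_reducible apply Int.or | with_reducible apply Int.not | with_reducible apply Int.imp | with_reducible apply Int.iff | with_reducible apply Int.ne | with_reducible apply Int.eq | with_reducible apply Int.mem | with_reducible apply Int.subset | with_reducible apply Int.ltN | with_reducible apply Int.leN | with_reducible_and_instances apply Int.le | with_reducible_and_instances apply Int.lt | with_reducible apply Int.all | with_reducible apply Int.ex | with_reducible apply IntF.fst | with_reducible apply IntF.snd | with_reducible apply IntF.app | with_reducible apply IntF.inl | with_reducible apply IntF.inr | with_reducible_and_instances apply IntF.mul | with_reducible_and_instances apply IntF.inv | with_reducible_and_instances apply IntF.add | with_reducible_and_instances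 apply IntF.sub | with_reducible_and_instances apply IntF.neg | with_reducible_and_instances apply IntF.smul | with_reducible apply Int.fin | with_reducible apply IntF.sep | with_reducible apply IntF.lam | with_reducible apply IntF.insert | with_reducible apply IntF.singleton | with_reducible apply IntF.union | with_reducible apply IntF.iimage | with_reducible apply IntF.ite | with_reducible apply IntF.the | with_reducible apply IntF.irec | with_reducible apply IntF.succ | with_reducible apply IntF.val | with_reducible apply IntF.mk | (with_reducible refine Int.comp ?_ ?_; assumption) | (with_reducible refine Int.comp₂ ?_ ?_ ?_; assumption) | (with_reducible refine Int.comp₃ ?_ ?_ ?_ ?_; assumption) | (with_reducible refine Int.comp₄ ?_ ?_ ?_ ?_ ?_; assumption) | (with_reducible refine IntF.comp ?_ ?_; assumption) | (with_reducible refine IntF.comp₂ ?_ ?_ ?_; assumption) | (with_reducible refine IntF.comp₃ ?_ ?_ ?_ ?_; assumption) | with_reducible apply IntF.pair))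

/-- The group. -/
structure GhS (m : β × δ → Prop) (R : δ × ν → Prop) (Q : β × ν → Prop)
    (g : IPerm M (Xh β δ ν)) : Prop where
  m : ∀ (n : INat M) p q, Tm m (n, (p, q)) ↔ Tm m (n, (g.1.1 p, g.1.1 q))
  r : ∀ (n : INat M) p q, Tr R (n, (p, q)) ↔ Tr R (n, (g.1.1 p, g.1.1 q))
  q : ∀ (n : INat M) p q, Tq Q (n, (p, q)) ↔ Tq Q (n, (g.1.1 p, g.1.1 q))
  a : ∀ (n : INat M) p q, Ta (n, (p, q)) ↔ Ta (n, (g.1.1 p, g.1.1 q))
  d : ∀ (n : INat M) p q, Td (n, (p, q)) ↔ Td (n, (g.1.1 p, g.1.1 q))
  v : ∀ v, g.1.1 (xv v) = xv v

theorem ghS_iff (m : β × δ → Prop) (R : δ × ν → Prop) (Q : β × ν → Prop)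
    (g : IPerm M (Xh β δ ν)) : GhS m R Q g ↔
    (∀ (n : INat M) p q, Tm m (n, (p, q)) ↔ Tm m (n, (g.1.1 p, g.1.1 q))) ∧
    (∀ (n : INat M) p q, Tr R (n, (p, q)) ↔ Tr R (n, (g.1.1 p, g.1.1 q))) ∧
    (∀ (n : INat M) p q, Tq Q (n, (p, q)) ↔ Tq Q (n, (g.1.1 p, g.1.1 q))) ∧
    (∀ (n : INat M) p q, Ta (n, (p, q)) ↔ Ta (n, (g.1.1 p, g.1.1 q))) ∧
    (∀ (n : INat M) p q, Td (n, (p, q)) ↔ Td (n, (g.1.1 p, g.1.1 q))) ∧
    ∀ v, g.1.1 (xv v) = xv v :=
  ⟨fun h => ⟨h.m, h.r, h.q, h.a, h.d, h.v⟩,
    fun h => ⟨h.1, h.2.1, h.2.2.1, h.2.2.2.1, h.2.2.2.2.1, h.2.2.2.2.2⟩⟩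

/-- The group. -/
def Hh (m : β × δ → Prop) (R : δ × ν → Prop) (Q : β × ν → Prop) :
    Subgroup (IPerm M (Xh β δ ν)) where
  carrier := {g | GhS m R Q g}
  mul_mem' {a b} ha hb := by
    refine ⟨fun n p q => ?_, fun n p q => ?_, fun n p q => ?_, fun n p q => ?_, fun n p q => ?_,
      fun v => ?_⟩
    · rw [hb.m n p q, ha.m n (b.1.1 p) (b.1.1 q), IPerm.mul_apply, IPerm.mul_apply]
    · rw [hb.r n p q, ha.r n (b.1.1 p) (b.1.1 q), IPerm.mul_apply, IPerm.mul_apply]
    · rw [hb.q n p q, ha.q n (b.1.1 p) (b.1.1 q), IPerm.mul_apply, IPerm.mul_apply]
    · rw [hb.a n p q, ha.a n (b.1.1 p) (b.1.1 q), IPerm.mul_apply, IPerm.mul_apply]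
    · rw [hb.d n p q, ha.d n (b.1.1 p) (b.1.1 q), IPerm.mul_apply, IPerm.mul_apply]
    · rw [IPerm.mul_apply, hb.v, ha.v]
  one_mem' := by
    refine ⟨fun n p q => ?_, fun n p q => ?_, fun n p q => ?_, fun n p q => ?_, fun n p q => ?_,
      fun v => ?_⟩
    · rw [IPerm.one_apply, IPerm.one_apply]
    · rw [IPerm.one_apply, IPerm.one_apply]
    · rw [IPerm.one_apply, IPerm.one_apply]
    · rw [IPerm.one_apply, IPerm.one_apply]
    · rw [IPerm.one_apply, IPerm.one_apply]
    · rw [IPerm.one_apply]
  inv_mem' {a} ha := by
    have e1 : ∀ x, a.1.1 (a.1.2 x) = x := a.2.1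
    have e2 : ∀ x, a.1.2 (a.1.1 x) = x := a.2.2
    refine ⟨fun n p q => ?_, fun n p q => ?_, fun n p q => ?_, fun n p q => ?_, fun n p q => ?_,
      fun v => ?_⟩
    · change _ ↔ Tm m (n, (a.1.2 p, a.1.2 q))
      rw [ha.m n (a.1.2 p), e1, e1]
    · change _ ↔ Tr R (n, (a.1.2 p, a.1.2 q))
      rw [ha.r n (a.1.2 p), e1, e1]
    · change _ ↔ Tq Q (n, (a.1.2 p, a.1.2 q))
      rw [ha.q n (a.1.2 p), e1, e1]
    · change _ ↔ Ta (n, (a.1.2 p, a.1.2 q))
      rw [ha.a n (a.1.2 p) (a.1.2 q), e1, e1]
    · change _ ↔ Td (n, (a.1.2 p, a.1.2 q))
      rw [ha.d n (a.1.2 p) (a.1.2 q), e1, e1]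
    · change a.1.2 (xv v) = xv v
      have h1 := congrArg a.1.2 (ha.v v)
      rw [e2] at h1
      exact h1.symm

variable (M) in
/-- The relations of the structure. -/
structure Rels (β δ ν : Type u) [ITy M β] [ITy M δ] [ITy M ν] where
  m : β × δ → Prop
  R : δ × ν → Prop
  Q : β × ν → Prop
  im : Int M m
  iR : Int M R
  iQ : Int M Q

/-- The group. -/
def Zh (S : Rels M β δ ν) : PGr M (Xh β δ ν) where
  H := Hh S.m S.R S.Q
  int := by
    have h1 := int_Tm (M := M) (ν := ν) S.im
    have h2 := int_Tr (M := M) (β := β) S.iR
    have h2' := int_Tq (M := M) (δ := δ) S.iQ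
    have h3 := int_Ta (M := M) (β := β) (δ := δ) (ν := ν)
    have h4 := int_Td (M := M) (β := β) (δ := δ) (ν := ν)
    refine Int.congr (p := fun g : IPerm M (Xh β δ ν) =>
      (∀ (n : INat M) p q, Tm S.m (n, (p, q)) ↔ Tm S.m (n, (g.1.1 p, g.1.1 q))) ∧
      (∀ (n : INat M) p q, Tr S.R (n, (p, q)) ↔ Tr S.R (n, (g.1.1 p, g.1.1 q))) ∧
      (∀ (n : INat M) p q, Tq S.Q (n, (p, q)) ↔ Tq S.Q (n, (g.1.1 p, g.1.1 q))) ∧
      (∀ (n : INat M) p q, Ta (n, (p, q)) ↔ Ta (n, (g.1.1 p, g.1.1 q))) ∧
      (∀ (n : INat M) p q, Td (n, (p, q)) ↔ Td (n, (g.1.1 p, g.1.1 q))) ∧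
      ∀ v, g.1.1 (xv v) = xv v)
      ?_ fun g => (ghS_iff S.m S.R S.Q g).symm
    (repeat' (first | with_reducible exact IntF.id | with_reducible exact IntF.fst' | with_reducible exact IntF.snd' | with_reducible exact IntF.const _ | with_reducible exact Int.const _ | assumption | with_reducible apply Int.and | with_reducible apply Int.or | with_reducible apply Int.not | with_reducible apply Int.imp | with_reducible apply Int.iff | with_reducible apply Int.ne | with_reducible apply Int.eq | with_reducible apply Int.mem | with_reducible apply Int.subset | with_reducible apply Int.ltN | with_reducible apply Int.leN | with_reducible_and_instances apply Int.le | with_reducible_and_instances apply Int.lt | with_reducible apply Int.all | with_reducible apply Int.ex | with_reducible apply IntF.fst | with_reducible apply IntF.snd | with_reducible apply IntF.app | with_reducible apply IntF.inl | with_reducible apply IntF.inr | with_reducible_and_instances apply IntF.mul | with_reducible_and_instances apply IntF.inv | with_reducible_and_instances apply IntF.add | with_reducible_and_instances apply IntF.sub | with_reducible_and_instances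 apply IntF.neg | with_reducible_and_instances apply IntF.smul | with_reducible apply Int.fin | with_reducible apply IntF.sep | with_reducible apply IntF.lam | with_reducible apply IntF.insert | with_reducible apply IntF.singleton | with_reducible apply IntF.union | with_reducible apply IntF.iimage | with_reducible apply IntF.ite | with_reducible apply IntF.the | with_reducible apply IntF.irec | with_reducible apply IntF.succ | with_reducible apply IntF.val | with_reducible apply IntF.mk | (with_reducible refine Int.comp ?_ ?_; assumption) | (with_reducible refine Int.comp₂ ?_ ?_ ?_; assumption) | (with_reducible refine Int.comp₃ ?_ ?_ ?_ ?_; assumption) | (with_reducible refine Int.comp₄ ?_ ?_ ?_ ?_ ?_; assumption) | (with_reducible refine IntF.comp ?_ ?_; assumption) | (with_reducible refine IntF.comp₂ ?_ ?_ ?_; assumption) | (with_reducible refine IntF.comp₃ ?_ ?_ ?_ ?_; assumption) | with_reducible apply IntF.pair))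

/-- The map of the index set given by two involutions. -/
def gf (f : β → β) (fd : δ → δ) : Xh β δ ν → Xh β δ ν
  | Sum.inl x => xa (f x)
  | Sum.inr (Sum.inl B) => xd (fd B)
  | Sum.inr (Sum.inr v) => xv v

theorem int_gf {f : β → β} {fd : δ → δ} (hf : IntF M f) (hfd : IntF M fd) :
    IntF M (gf (ν := ν) f fd) := by
  refine IntF.of_rel (r := fun p q : Xh β δ ν => (∃ x, p = xa x ∧ q = xa (f x)) ∨
    (∃ B, p = xd B ∧ q = xd (fd B)) ∨ (∃ v, p = xv v ∧ q = xv v)) (by (repeat' (first | with_reducible exact IntF.id | with_reducible exact IntF.fst' | with_reducible exact IntF.snd' | with_reducible exact IntF.const _ | with_reducible exact Int.const _ | assumption | with_reducible apply Int.and | with_reducible apply Int.or | with_reducible apply Int.not | with_reducible apply Int.imp | with_reducible apply Int.iff | with_reducible apply Int.ne | with_reducible apply Int.eq | with_reducible apply Int.mem | with_reducible apply Int.subset | with_reducible apply Int.ltN | with_reducible apply Int.leN | with_reducible_and_instances apply Int.le | with_reducible_and_instances apply Int.lt | with_reducible apply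 Int.all | with_reducible apply Int.ex | with_reducible apply IntF.fst | with_reducible apply IntF.snd | with_reducible apply IntF.app | with_reducible apply IntF.inl | with_reducible apply IntF.inr | with_reducible_and_instances apply IntF.mul | with_reducible_and_instances apply IntF.inv | with_reducible_and_instances apply IntF.add | with_reducible_and_instances apply IntF.sub | with_reducible_and_instances apply IntF.neg | with_reducible_and_instances apply IntF.smul | with_reducible apply Int.fin | with_reducible apply IntF.sep | with_reducible apply IntF.lam | with_reducible apply IntF.insert | with_reducible apply IntF.singleton | with_reducible apply IntF.union | with_reducible apply IntF.iimage | with_reducible apply IntF.ite | with_reducible apply IntF.the | with_reducible apply IntF.irec | with_reducible apply IntF.succ | with_reducible apply IntF.val | with_reducible apply IntF.mk | (with_reducible refine Int.comp ?_ ?_; assumption) | (with_reducible refine Int.comp₂ ?_ ?_ ?_; assumption) | (with_reducible refine Int.comp₃ ?_ ?_ ?_ ?_; assumption) | (with_reducible refine Int.comp₄ ?_ ?_ ?_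 ?_ ?_; assumption) | (with_reducible refine IntF.comp ?_ ?_; assumption) | (with_reducible refine IntF.comp₂ ?_ ?_ ?_; assumption) | (with_reducible refine IntF.comp₃ ?_ ?_ ?_ ?_; assumption) | with_reducible apply IntF.pair))) fun p q => ?_
  constructor
  · rintro (⟨x, rfl, rfl⟩ | ⟨B, rfl, rfl⟩ | ⟨v, rfl, rfl⟩) <;> rfl
  · rintro rfl
    rcases p with x | B | v
    · exact Or.inl ⟨x, rfl, rfl⟩
    · exact Or.inr (Or.inl ⟨B, rfl, rfl⟩)
    · exact Or.inr (Or.inr ⟨v, rfl, rfl⟩)

theorem gf_gf {f : β → β} {fd : δ → δ} (hff : ∀ x, f (f x) = x) (hfd : ∀ x, fd (fd x) = x)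
    (p : Xh β δ ν) : gf f fd (gf f fd p) = p := by
  rcases p with x | B | v
  · exact congrArg Sum.inl (hff x)
  · exact congrArg (fun B => Sum.inr (Sum.inl B)) (hfd B)
  · rfl

/-- The admissible pairs of involutions. -/
structure Adm (S : Rels M β δ ν) (f : β → β) (fd : δ → δ) : Prop where
  int : IntF M f
  intd : IntF M fd
  inv : ∀ x, f (f x) = x
  invd : ∀ x, fd (fd x) = x
  m : ∀ x B, S.m (x, B) → S.m (f x, fd B)
  R : ∀ B v, S.R (B, v) → S.R (fd B, v)
  Q : ∀ x v, S.Q (x, v) → S.Q (f x, v)

variable {S : Rels M β δ ν} {f : β → β} {fd : δ → δ}

theorem Adm.tm (hf : Adm S f fd) {n : INat M} {p q : Xh β δ ν} (h : Tm S.m (n, (p, q))) :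
    Tm S.m (n, (gf f fd p, gf f fd q)) := by
  obtain ⟨x, B, h1, h2, h3⟩ := h
  change p = _ at h1
  change q = _ at h2
  subst h1
  subst h2
  exact ⟨f x, fd B, rfl, rfl, hf.m x B h3⟩

theorem Adm.tr (hf : Adm S f fd) {n : INat M} {p q : Xh β δ ν} (h : Tr S.R (n, (p, q))) :
    Tr S.R (n, (gf f fd p, gf f fd q)) := by
  obtain ⟨B, v, h1, h2, h3⟩ := h
  change p = _ at h1
  change q = _ at h2
  subst h1
  subst h2
  exact ⟨fd B, v, rfl, rfl, hf.R B v h3⟩

theorem Adm.tq (hf : Adm S f fd) {n : INat M} {p q : Xh β δ ν} (h : Tq S.Q (n, (p, q))) :
    Tq S.Q (n, (gf f fd p, gf f fd q)) := by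
  obtain ⟨B, v, h1, h2, h3⟩ := h
  change p = _ at h1
  change q = _ at h2
  subst h1
  subst h2
  exact ⟨f B, v, rfl, rfl, hf.Q B v h3⟩

theorem Adm.ta {n : INat M} {p q : Xh β δ ν} (h : Ta (n, (p, q))) :
    Ta (n, (gf f fd p, gf f fd q)) := by
  obtain ⟨x, h1⟩ := h
  change p = _ at h1
  subst h1
  exact ⟨f x, rfl⟩

theorem Adm.td {n : INat M} {p q : Xh β δ ν} (h : Td (n, (p, q))) :
    Td (n, (gf f fd p, gf f fd q)) := by
  obtain ⟨x, h1⟩ := h
  change p = _ at h1
  subst h1
  exact ⟨fd x, rfl⟩

theorem Adm.mem (hf : Adm S f fd) : ∃ g ∈ (Zh S).H, ∀ p, g.1.1 p = gf f fd p := by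
  refine ⟨IPerm.ofInv (gf f fd) (int_gf hf.int hf.intd) (gf_gf hf.inv hf.invd),
    ⟨?_, ?_, ?_, ?_, ?_, ?_⟩, fun p => rfl⟩
  · intro n p q
    refine ⟨hf.tm, fun h => ?_⟩
    have h1 := hf.tm h
    change Tm S.m (n, (gf f fd (gf f fd p), gf f fd (gf f fd q))) at h1
    rwa [gf_gf hf.inv hf.invd, gf_gf hf.inv hf.invd] at h1
  · intro n p q
    refine ⟨hf.tr, fun h => ?_⟩
    have h1 := hf.tr h
    change Tr S.R (n, (gf f fd (gf f fd p), gf f fd (gf f fd q))) at h1
    rwa [gf_gf hf.inv hf.invd, gf_gf hf.inv hf.invd] at h1
  · intro n p q
    refine ⟨hf.tq, fun h => ?_⟩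
    have h1 := hf.tq h
    change Tq S.Q (n, (gf f fd (gf f fd p), gf f fd (gf f fd q))) at h1
    rwa [gf_gf hf.inv hf.invd, gf_gf hf.inv hf.invd] at h1
  · intro n p q
    refine ⟨Adm.ta, fun h => ?_⟩
    have h1 := Adm.ta (f := f) (fd := fd) h
    change Ta (n, (gf f fd (gf f fd p), gf f fd (gf f fd q))) at h1
    rwa [gf_gf hf.inv hf.invd, gf_gf hf.inv hf.invd] at h1
  · intro n p q
    refine ⟨Adm.td, fun h => ?_⟩
    have h1 := Adm.td (f := f) (fd := fd) h
    change Td (n, (gf f fd (gf f fd p), gf f fd (gf f fd q))) at h1
    rwa [gf_gf hf.inv hf.invd, gf_gf hf.inv hf.invd] at h1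
  · intro v
    rfl

section

variable {G : Set (Co M (Xh β δ ν))} (hG : IsGen M G) (hC : CollL M)

theorem exists_homH {W : El (AA (Zh S) hG) × INat (NN (SS (Zh S)) hG) → Prop}
    (hW : Int (NN (SS (Zh S)) hG) W) :
    ∃ E : IPow M (Xh β δ ν), IFin E ∧ ∀ (f : β → β) (fd : δ → δ), Adm S f fd →
      (∀ p, p ∈ E → gf f fd p = p) → ∀ p n,
        W (cA (Zh S) hG p, nnN (Zh S) hG hC n) →
          W (cA (Zh S) hG (gf f fd p), nnN (Zh S) hG hC n) := by
  obtain ⟨E, hE⟩ := exists_hom (Z := Zh S) hG hC hW
  refine ⟨E.1, E.2, fun f fd hf hfs p n h => ?_⟩
  obtain ⟨g, hg, hgf⟩ := hf.mem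
  have h2 := hE g hg (fun x hx => by rw [hgf, hfs x hx]) p n h
  rwa [hgf] at h2

theorem exists_homH2 {W : El (AA (Zh S) hG) × El (AA (Zh S) hG) → Prop}
    (hW : Int (NN (SS (Zh S)) hG) W) :
    ∃ E : IPow M (Xh β δ ν), IFin E ∧ ∀ (f : β → β) (fd : δ → δ), Adm S f fd →
      (∀ p, p ∈ E → gf f fd p = p) → ∀ p q,
        W (cA (Zh S) hG p, cA (Zh S) hG q) →
          W (cA (Zh S) hG (gf f fd p), cA (Zh S) hG (gf f fd q)) := by
  obtain ⟨E, hE⟩ := exists_hom2 (Z := Zh S) hG hW
  refine ⟨E.1, E.2, fun f fd hf hfs p n h => ?_⟩
  obtain ⟨g, hg, hgf⟩ := hf.mem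
  have h2 := hE g hg (fun x hx => by rw [hgf, hfs x hx]) p n h
  rwa [hgf, hgf] at h2

end

end Pool.Agent.V11257H
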