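import Pool.Agent.V11257.Mg1
import Pool.Agent.V11257.Mf16

/-!
# A set with names for some of its subsets: the model
-/

set_option maxHeartbeats 1000000
set_option linter.all false
set_option synthInstance.maxSize 2000

namespace Pool.Agent.V11257H

open FirstOrder FirstOrder.Language
open Pool.Agent.Helper672.ZFA
open Pool.Agent.Helper672.ZFA.H635 (IPerm SymSys IG WFI FEq FMem tw Good feq_of_map feq_iff IsGen
  nd nd_eq mem_nd mem_nd_nd exists_mk mk_eq_nd EqFam NN nn_ext CollL nn_zf mem_NN
  isModel_of_zermelo coll_of_zf exists_countable_sub toL)
open Pool.Agent.Helper672.ZFA.H310M
open Pool.Agent.Helper672.Plain (LSet)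
open Pool.Agent.H310
open Pool.Agent.H635Amen (ZF)
open Pool.Agent.V11257P
open Pool.Agent.V11257G (fin_preimage)

universe u

/-- The sets `α`, `δ'` and `κ` of the model `N` are copies of the sets `β`, `δ` and `ν` of the
model `M`. -/
structure Rep (M N : Type u) [L.Structure M] [IsModel M] [L.Structure N] [IsModel N]
    {β δ ν : Type u} [ITy M β] [ITy M δ] [ITy M ν] (S : Rels M β δ ν) where
  α : Type u
  [iα : ITy N α]
  γ : Type u
  [iγ : ITy N γ]
  κ : Type u
  [iκ : ITy N κ]
  nn : INat M → INat N
  ca : β → α
  cd : δ → γ
  cv : ν → κ
  mem : α × γ → Prop
  Rr : γ × κ → Prop
  Rq : α × κ → Prop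
  nn_zero : nn 0 = 0
  nn_succ : ∀ n, nn n.succ = (nn n).succ
  nn_surj : ∀ m, ∃ n, nn n = m
  nn_inj : ∀ {m n}, nn m = nn n ↔ m = n
  nn_lt : ∀ {m n}, nn m < nn n ↔ m < n
  ca_inj : ∀ {x y}, ca x = ca y ↔ x = y
  ca_surj : ∀ a, ∃ x, ca x = a
  cd_inj : ∀ {x y}, cd x = cd y ↔ x = y
  cd_surj : ∀ a, ∃ x, cd x = a
  cv_inj : ∀ {x y}, cv x = cv y ↔ x = y
  cv_surj : ∀ a, ∃ x, cv x = a
  intm : Int N mem
  mem_iff : ∀ {x B}, mem (ca x, cd B) ↔ S.m (x, B)
  intR : Int N Rr
  R_iff : ∀ {B v}, Rr (cd B, cv v) ↔ S.R (B, v)
  intQ : Int N Rq
  Q_iff : ∀ {x v}, Rq (ca x, cv v) ↔ S.Q (x, v)
  relv : ∀ T : INat M × ν → Prop, Int M T → ∃ T' : INat N × κ → Prop, Int N T' ∧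
    ∀ n v, T' (nn n, cv v) ↔ T (n, v)
  homa : ∀ W : α × INat N → Prop, Int N W → ∃ E : IPow M (Xh β δ ν), IFin E ∧
    ∀ (f : β → β) (fd : δ → δ), Adm S f fd → (∀ p, p ∈ E → gf f fd p = p) →
      ∀ x n, W (ca x, nn n) → W (ca (f x), nn n)
  homaa : ∀ W : α × α → Prop, Int N W → ∃ E : IPow M (Xh β δ ν), IFin E ∧
    ∀ (f : β → β) (fd : δ → δ), Adm S f fd → (∀ p, p ∈ E → gf f fd p = p) →
      ∀ x y, W (ca x, ca y) → W (ca (f x), ca (f y))
  homd : ∀ W : γ × INat N → Prop, Int N W → ∃ E : IPow M (Xh β δ ν), IFin E ∧
    ∀ (f : β → β) (fd : δ → δ), Adm S f fd → (∀ p, p ∈ E → gf f fd p = p) →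
      ∀ B n, W (cd B, nn n) → W (cd (fd B), nn n)
  fina : ∀ E : IPow M β, IFin E → ∃ s : IPow N α, IFin s ∧ ∀ x, ca x ∈ s ↔ x ∈ E
  find : ∀ E : IPow M δ, IFin E → ∃ s : IPow N γ, IFin s ∧ ∀ B, cd B ∈ s ↔ B ∈ E

attribute [instance] Rep.iα Rep.iγ Rep.iκ

section

variable {M : Type u} [L.Structure M] [hM : IsModel M] {β δ ν : Type u} [ITy M β] [ITy M δ]
  [ITy M ν] {S : Rels M β δ ν} {G : Set (Co M (Xh β δ ν))} (hG : IsGen M G) (hC : CollL M)

/-- The copy of `β`. -/
def PA (p : El (AA (Zh S) hG)) : Prop := ∃ x, p = cA (Zh S) hG (xa x)

/-- The copy of `δ`. -/
def PD (p : El (AA (Zh S) hG)) : Prop := ∃ x, p = cA (Zh S) hG (xd x)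

/-- The copy of `ν`. -/
def PV (p : El (AA (Zh S) hG)) : Prop := ∃ x, p = cA (Zh S) hG (xv x)

include hC

theorem int_PA : Int (NN (SS (Zh S)) hG) (PA (S := S) hG) := by
  obtain ⟨T, hT, hT'⟩ := exists_rel (Z := Zh S) hG hC int_Ta
    (fun g hg n x y h => (hg.a n x y).1 h)
  have h1 : Int (NN (SS (Zh S)) hG) (fun p : El (AA (Zh S) hG) =>
      T (nnN (Zh S) hG hC 0, (p, p))) := by (repeat' (first | with_reducible exact IntF.id | with_reducible exact IntF.fst' | with_reducible exact IntF.snd' | with_reducible exact IntF.const _ | with_reducible exact Int.const _ | assumption | with_reducible apply Int.and | with_reducible apply Int.or | with_reducible apply Int.not | with_reducible apply Int.imp | with_reducible apply Int.iff | with_reducible apply Int.ne | with_reducible apply Int.eq | with_reducible apply Int.mem | with_reducible apply Int.subset | with_reducible apply Int.ltN | with_reducible apply Int.leN | with_reducible_and_instances apply Int.le | with_reducible_and_instances apply Int.lt | with_reducible apply Int.all | with_reducible apply Int.ex | with_reducible apply IntF.fst | with_reducible apply IntF.snd | with_reducible apply IntF.app | with_reducible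 apply IntF.inl | with_reducible apply IntF.inr | with_reducible_and_instances apply IntF.mul | with_reducible_and_instances apply IntF.inv | with_reducible_and_instances apply IntF.add | with_reducible_and_instances apply IntF.sub | with_reducible_and_instances apply IntF.neg | with_reducible_and_instances apply IntF.smul | with_reducible apply Int.fin | with_reducible apply IntF.sep | with_reducible apply IntF.lam | with_reducible apply IntF.insert | with_reducible apply IntF.singleton | with_reducible apply IntF.union | with_reducible apply IntF.iimage | with_reducible apply IntF.ite | with_reducible apply IntF.the | with_reducible apply IntF.irec | with_reducible apply IntF.succ | with_reducible apply IntF.val | with_reducible apply IntF.mk | (with_reducible refine Int.comp ?_ ?_; assumption) | (with_reducible refine Int.comp₂ ?_ ?_ ?_; assumption) | (with_reducible refine Int.comp₃ ?_ ?_ ?_ ?_; assumption) | (with_reducible refine Int.comp₄ ?_ ?_ ?_ ?_ ?_; assumption) | (with_reducible refine IntF.comp ?_ ?_; assumption) | (with_reducible refine IntF.comp₂ ?_ ?_ ?_; assumption) | (with_reducible refine IntF.comp₃ ?_ ?_ ?_ ?_; assumption) | with_reducible apply IntF.pair))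
  refine h1.congr fun p => ?_
  obtain ⟨p, rfl⟩ := cA_surj (Z := Zh S) hG p
  rw [hT']
  constructor
  · rintro ⟨x, hx⟩
    exact ⟨x, by rw [show p = xa x from hx]⟩
  · rintro ⟨x, hx⟩
    exact ⟨x, (cA_inj hG).1 hx⟩

theorem int_PD : Int (NN (SS (Zh S)) hG) (PD (S := S) hG) := by
  obtain ⟨T, hT, hT'⟩ := exists_rel (Z := Zh S) hG hC int_Td
    (fun g hg n x y h => (hg.d n x y).1 h)
  have h1 : Int (NN (SS (Zh S)) hG) (fun p : El (AA (Zh S) hG) =>
      T (nnN (Zh S) hG hC 0, (p, p))) := by (repeat' (first | with_reducible exact IntF.id | with_reducible exact IntF.fst' | with_reducible exact IntF.snd' | with_reducible exact IntF.const _ | with_reducible exact Int.const _ | assumption | with_reducible apply Int.and | with_reducible apply Int.or | with_reducible apply Int.not | with_reducible apply Int.imp | with_reducible apply Int.iff | with_reducible apply Int.ne | with_reducible apply Int.eq | with_reducible apply Int.mem | with_reducible apply Int.subset | with_reducible apply Int.ltN | with_reducible apply Int.leN | with_reducible_and_instances apply Int.le | with_reducible_and_instances apply Int.lt | with_reducible apply Int.all | with_reducible apply Int.ex | with_reducible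 apply IntF.fst | with_reducible apply IntF.snd | with_reducible apply IntF.app | with_reducible apply IntF.inl | with_reducible apply IntF.inr | with_reducible_and_instances apply IntF.mul | with_reducible_and_instances apply IntF.inv | with_reducible_and_instances apply IntF.add | with_reducible_and_instances apply IntF.sub | with_reducible_and_instances apply IntF.neg | with_reducible_and_instances apply IntF.smul | with_reducible apply Int.fin | with_reducible apply IntF.sep | with_reducible apply IntF.lam | with_reducible apply IntF.insert | with_reducible apply IntF.singleton | with_reducible apply IntF.union | with_reducible apply IntF.iimage | with_reducible apply IntF.ite | with_reducible apply IntF.the | with_reducible apply IntF.irec | with_reducible apply IntF.succ | with_reducible apply IntF.val | with_reducible apply IntF.mk | (with_reducible refine Int.comp ?_ ?_; assumption) | (with_reducible refine Int.comp₂ ?_ ?_ ?_; assumption) | (with_reducible refine Int.comp₃ ?_ ?_ ?_ ?_; assumption) | (with_reducible refine Int.comp₄ ?_ ?_ ?_ ?_ ?_; assumption) | (with_reducible refine IntF.comp ?_ ?_; assumption) | (with_reducible refine IntF.comp₂ ?_ ?_ ?_; assumption)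 | (with_reducible refine IntF.comp₃ ?_ ?_ ?_ ?_; assumption) | with_reducible apply IntF.pair))
  refine h1.congr fun p => ?_
  obtain ⟨p, rfl⟩ := cA_surj (Z := Zh S) hG p
  rw [hT']
  constructor
  · rintro ⟨x, hx⟩
    exact ⟨x, by rw [show p = xd x from hx]⟩
  · rintro ⟨x, hx⟩
    exact ⟨x, (cA_inj hG).1 hx⟩

theorem int_PV : Int (NN (SS (Zh S)) hG) (PV (S := S) hG) := by
  obtain ⟨T, hT, hT'⟩ := exists_rel (Z := Zh S) hG hC int_Tv
    (fun g hg n x y h => by
      obtain ⟨v, hv⟩ := h
      change x = _ at hv
      subst hv
      exact ⟨v, hg.v v⟩)
  have h1 : Int (NN (SS (Zh S)) hG) (fun p : El (AA (Zh S) hG) =>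
      T (nnN (Zh S) hG hC 0, (p, p))) := by (repeat' (first | with_reducible exact IntF.id | with_reducible exact IntF.fst' | with_reducible exact IntF.snd' | with_reducible exact IntF.const _ | with_reducible exact Int.const _ | assumption | with_reducible apply Int.and | with_reducible apply Int.or | with_reducible apply Int.not | with_reducible apply Int.imp | with_reducible apply Int.iff | with_reducible apply Int.ne | with_reducible apply Int.eq | with_reducible apply Int.mem | with_reducible apply Int.subset | with_reducible apply Int.ltN | with_reducible apply Int.leN | with_reducible_and_instances apply Int.le | with_reducible_and_instances apply Int.lt | with_reducible apply Int.all | with_reducible apply Int.ex | with_reducible apply IntF.fst | with_reducible apply IntF.snd | with_reducible apply IntF.app | with_reducible apply IntF.inl | with_reducible apply IntF.inr | with_reducible_and_instances apply IntF.mul | with_reducible_and_instances apply IntF.inv | with_reducible_and_instances apply IntF.add | with_reducible_and_instances apply IntF.sub | with_reducible_and_instances apply IntF.neg | with_reducible_and_instances apply IntF.smul | with_reducible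 apply Int.fin | with_reducible apply IntF.sep | with_reducible apply IntF.lam | with_reducible apply IntF.insert | with_reducible apply IntF.singleton | with_reducible apply IntF.union | with_reducible apply IntF.iimage | with_reducible apply IntF.ite | with_reducible apply IntF.the | with_reducible apply IntF.irec | with_reducible apply IntF.succ | with_reducible apply IntF.val | with_reducible apply IntF.mk | (with_reducible refine Int.comp ?_ ?_; assumption) | (with_reducible refine Int.comp₂ ?_ ?_ ?_; assumption) | (with_reducible refine Int.comp₃ ?_ ?_ ?_ ?_; assumption) | (with_reducible refine Int.comp₄ ?_ ?_ ?_ ?_ ?_; assumption) | (with_reducible refine IntF.comp ?_ ?_; assumption) | (with_reducible refine IntF.comp₂ ?_ ?_ ?_; assumption) | (with_reducible refine IntF.comp₃ ?_ ?_ ?_ ?_; assumption) | with_reducible apply IntF.pair))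
  refine h1.congr fun p => ?_
  obtain ⟨p, rfl⟩ := cA_surj (Z := Zh S) hG p
  rw [hT']
  constructor
  · rintro ⟨x, hx⟩
    exact ⟨x, by rw [show p = xv x from hx]⟩
  · rintro ⟨x, hx⟩
    exact ⟨x, (cA_inj hG).1 hx⟩

theorem exists_repG : Nonempty (Rep M (NN (SS (Zh S)) hG) S) := by
  haveI fA : Fact (Int (NN (SS (Zh S)) hG) (PA (S := S) hG)) := ⟨int_PA hG hC⟩
  haveI fD : Fact (Int (NN (SS (Zh S)) hG) (PD (S := S) hG)) := ⟨int_PD hG hC⟩
  haveI fV : Fact (Int (NN (SS (Zh S)) hG) (PV (S := S) hG)) := ⟨int_PV hG hC⟩
  obtain ⟨Tm', hTm, hTm'⟩ := exists_rel (Z := Zh S) hG hC (int_Tm S.im)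
    (fun g hg n x y h => (hg.m n x y).1 h)
  obtain ⟨Tr', hTr, hTr'⟩ := exists_rel (Z := Zh S) hG hC (int_Tr S.iR)
    (fun g hg n x y h => (hg.r n x y).1 h)
  obtain ⟨Tq', hTq, hTq'⟩ := exists_rel (Z := Zh S) hG hC (int_Tq S.iQ)
    (fun g hg n x y h => (hg.q n x y).1 h)
  have hz := nnN_zero (Z := Zh S) hG hC
  refine ⟨{
    α := {p : El (AA (Zh S) hG) // PA hG p}
    γ := {p : El (AA (Zh S) hG) // PD hG p}
    κ := {p : El (AA (Zh S) hG) // PV hG p}
    nn := nnN (Zh S) hG hC
    ca := fun x => ⟨cA (Zh S) hG (xa x), x, rfl⟩
    cd := fun x => ⟨cA (Zh S) hG (xd x), x, rfl⟩
    cv := fun x => ⟨cA (Zh S) hG (xv x), x, rfl⟩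
    mem := fun q => Tm' (nnN (Zh S) hG hC 0, (q.1.1, q.2.1))
    Rr := fun q => Tr' (nnN (Zh S) hG hC 0, (q.1.1, q.2.1))
    Rq := fun q => Tq' (nnN (Zh S) hG hC 0, (q.1.1, q.2.1))
    nn_zero := hz
    nn_succ := nnN_succ hG hC
    nn_surj := nnN_surj hG hC
    nn_inj := nnN_inj hG hC
    nn_lt := nnN_lt hG hC
    ca_inj := ?_
    ca_surj := ?_
    cd_inj := ?_
    cd_surj := ?_
    cv_inj := ?_
    cv_surj := ?_
    intm := by (repeat' (first | with_reducible exact IntF.id | with_reducible exact IntF.fst' | with_reducible exact IntF.snd' | with_reducible exact IntF.const _ | with_reducible exact Int.const _ | assumption | with_reducible apply Int.and | with_reducible apply Int.or | with_reducible apply Int.not | with_reducible apply Int.imp | with_reducible apply Int.iff | with_reducible apply Int.ne | with_reducible apply Int.eq | with_reducible apply Int.mem | with_reducible apply Int.subset | with_reducible apply Int.ltN | with_reducible apply Int.leN | with_reducible_and_instances apply Int.le | with_reducible_and_instances apply Int.lt | with_reducible apply Int.all | with_reducible apply Int.ex | with_reducible apply IntF.fst | with_reducible apply IntF.snd |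 with_reducible apply IntF.app | with_reducible apply IntF.inl | with_reducible apply IntF.inr | with_reducible_and_instances apply IntF.mul | with_reducible_and_instances apply IntF.inv | with_reducible_and_instances apply IntF.add | with_reducible_and_instances apply IntF.sub | with_reducible_and_instances apply IntF.neg | with_reducible_and_instances apply IntF.smul | with_reducible apply Int.fin | with_reducible apply IntF.sep | with_reducible apply IntF.lam | with_reducible apply IntF.insert | with_reducible apply IntF.singleton | with_reducible apply IntF.union | with_reducible apply IntF.iimage | with_reducible apply IntF.ite | with_reducible apply IntF.the | with_reducible apply IntF.irec | with_reducible apply IntF.succ | with_reducible apply IntF.val | with_reducible apply IntF.mk | (with_reducible refine Int.comp ?_ ?_; assumption) | (with_reducible refine Int.comp₂ ?_ ?_ ?_; assumption) | (with_reducible refine Int.comp₃ ?_ ?_ ?_ ?_; assumption) | (with_reducible refine Int.comp₄ ?_ ?_ ?_ ?_ ?_; assumption) | (with_reducible refine IntF.comp ?_ ?_; assumption) | (with_reducible refine IntF.comp₂ ?_ ?_ ?_; assumption) | (with_reducible refine IntF.comp₃ ?_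 ?_ ?_ ?_; assumption) | with_reducible apply IntF.pair))
    mem_iff := ?_
    intR := by (repeat' (first | with_reducible exact IntF.id | with_reducible exact IntF.fst' | with_reducible exact IntF.snd' | with_reducible exact IntF.const _ | with_reducible exact Int.const _ | assumption | with_reducible apply Int.and | with_reducible apply Int.or | with_reducible apply Int.not | with_reducible apply Int.imp | with_reducible apply Int.iff | with_reducible apply Int.ne | with_reducible apply Int.eq | with_reducible apply Int.mem | with_reducible apply Int.subset | with_reducible apply Int.ltN | with_reducible apply Int.leN | with_reducible_and_instances apply Int.le | with_reducible_and_instances apply Int.lt | with_reducible apply Int.all | with_reducible apply Int.ex | with_reducible apply IntF.fst | with_reducible apply IntF.snd | with_reducible apply IntF.app | with_reducible apply IntF.inl | with_reducible apply IntF.inr | with_reducible_and_instances apply IntF.mul | with_reducible_and_instances apply IntF.inv | with_reducible_and_instances apply IntF.add | with_reducible_and_instances apply IntF.sub | with_reducible_and_instances apply IntF.neg | with_reducible_and_instances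 apply IntF.smul | with_reducible apply Int.fin | with_reducible apply IntF.sep | with_reducible apply IntF.lam | with_reducible apply IntF.insert | with_reducible apply IntF.singleton | with_reducible apply IntF.union | with_reducible apply IntF.iimage | with_reducible apply IntF.ite | with_reducible apply IntF.the | with_reducible apply IntF.irec | with_reducible apply IntF.succ | with_reducible apply IntF.val | with_reducible apply IntF.mk | (with_reducible refine Int.comp ?_ ?_; assumption) | (with_reducible refine Int.comp₂ ?_ ?_ ?_; assumption) | (with_reducible refine Int.comp₃ ?_ ?_ ?_ ?_; assumption) | (with_reducible refine Int.comp₄ ?_ ?_ ?_ ?_ ?_; assumption) | (with_reducible refine IntF.comp ?_ ?_; assumption) | (with_reducible refine IntF.comp₂ ?_ ?_ ?_; assumption) | (with_reducible refine IntF.comp₃ ?_ ?_ ?_ ?_; assumption) | with_reducible apply IntF.pair))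
    R_iff := ?_
    intQ := by (repeat' (first | with_reducible exact IntF.id | with_reducible exact IntF.fst' | with_reducible exact IntF.snd' | with_reducible exact IntF.const _ | with_reducible exact Int.const _ | assumption | with_reducible apply Int.and | with_reducible apply Int.or | with_reducible apply Int.not | with_reducible apply Int.imp | with_reducible apply Int.iff | with_reducible apply Int.ne | with_reducible apply Int.eq | with_reducible apply Int.mem | with_reducible apply Int.subset | with_reducible apply Int.ltN | with_reducible apply Int.leN | with_reducible_and_instances apply Int.le | with_reducible_and_instances apply Int.lt | with_reducible apply Int.all | with_reducible apply Int.ex | with_reducible apply IntF.fst | with_reducible apply IntF.snd | with_reducible apply IntF.app | with_reducible apply IntF.inl | with_reducible apply IntF.inr | with_reducible_and_instances apply IntF.mul | with_reducible_and_instances apply IntF.inv | with_reducible_and_instances apply IntF.add | with_reducible_and_instances apply IntF.sub | with_reducible_and_instances apply IntF.neg | with_reducible_and_instances apply IntF.smul | with_reducible apply Int.fin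 | with_reducible apply IntF.sep | with_reducible apply IntF.lam | with_reducible apply IntF.insert | with_reducible apply IntF.singleton | with_reducible apply IntF.union | with_reducible apply IntF.iimage | with_reducible apply IntF.ite | with_reducible apply IntF.the | with_reducible apply IntF.irec | with_reducible apply IntF.succ | with_reducible apply IntF.val | with_reducible apply IntF.mk | (with_reducible refine Int.comp ?_ ?_; assumption) | (with_reducible refine Int.comp₂ ?_ ?_ ?_; assumption) | (with_reducible refine Int.comp₃ ?_ ?_ ?_ ?_; assumption) | (with_reducible refine Int.comp₄ ?_ ?_ ?_ ?_ ?_; assumption) | (with_reducible refine IntF.comp ?_ ?_; assumption) | (with_reducible refine IntF.comp₂ ?_ ?_ ?_; assumption) | (with_reducible refine IntF.comp₃ ?_ ?_ ?_ ?_; assumption) | with_reducible apply IntF.pair))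
    Q_iff := ?_
    relv := ?_
    homa := ?_
    homaa := ?_
    homd := ?_
    fina := ?_
    find := ?_ }⟩
  · intro x y
    refine Subtype.ext_iff.trans ((cA_inj hG).trans ⟨fun h => ?_, fun h => h ▸ rfl⟩)
    exact Sum.inl_injective h
  · rintro ⟨p, x, rfl⟩
    exact ⟨x, rfl⟩
  · intro x y
    refine Subtype.ext_iff.trans ((cA_inj hG).trans ⟨fun h => ?_, fun h => h ▸ rfl⟩)
    exact Sum.inl_injective (Sum.inr_injective h)
  · rintro ⟨p, x, rfl⟩
    exact ⟨x, rfl⟩
  · intro x y
    refine Subtype.ext_iff.trans ((cA_inj hG).trans ⟨fun h => ?_, fun h => h ▸ rfl⟩)
    exact Sum.inr_injective (Sum.inr_injective h)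
  · rintro ⟨p, x, rfl⟩
    exact ⟨x, rfl⟩
  · intro x B
    refine (hTm' _ _ _).trans ⟨?_, fun h => ⟨x, B, rfl, rfl, h⟩⟩
    rintro ⟨x', B', h1, h2, h3⟩
    cases h1
    cases h2
    exact h3
  · intro B v
    refine (hTr' _ _ _).trans ⟨?_, fun h => ⟨B, v, rfl, rfl, h⟩⟩
    rintro ⟨x', B', h1, h2, h3⟩
    cases h1
    cases h2
    exact h3
  · intro B v
    refine (hTq' _ _ _).trans ⟨?_, fun h => ⟨B, v, rfl, rfl, h⟩⟩
    rintro ⟨x', B', h1, h2, h3⟩
    cases h1
    cases h2
    exact h3
  · intro T hT
    obtain ⟨T', hT1, hT2⟩ := exists_rel (Z := Zh S) hG hC (int_Tn hT)
      (fun g hg n x y h => by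
        obtain ⟨v, hv, h1⟩ := h
        change x = _ at hv
        subst hv
        exact ⟨v, hg.v v, h1⟩)
    refine ⟨fun q => T' (q.1, (q.2.1, q.2.1)), by (repeat' (first | with_reducible exact IntF.id | with_reducible exact IntF.fst' | with_reducible exact IntF.snd' | with_reducible exact IntF.const _ | with_reducible exact Int.const _ | assumption | with_reducible apply Int.and | with_reducible apply Int.or | with_reducible apply Int.not | with_reducible apply Int.imp | with_reducible apply Int.iff | with_reducible apply Int.ne | with_reducible apply Int.eq | with_reducible apply Int.mem | with_reducible apply Int.subset | with_reducible apply Int.ltN | with_reducible apply Int.leN | with_reducible_and_instances apply Int.le | with_reducible_and_instances apply Int.lt | with_reducible apply Int.all | with_reducible apply Int.ex | with_reducible apply IntF.fst | with_reducible apply IntF.snd | with_reducible apply IntF.app | with_reducible apply IntF.inl | with_reducible apply IntF.inr | with_reducible_and_instances apply IntF.mul | with_reducible_and_instances apply IntF.inv | with_reducible_and_instances apply IntF.add | with_reducible_and_instances apply IntF.sub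 | with_reducible_and_instances apply IntF.neg | with_reducible_and_instances apply IntF.smul | with_reducible apply Int.fin | with_reducible apply IntF.sep | with_reducible apply IntF.lam | with_reducible apply IntF.insert | with_reducible apply IntF.singleton | with_reducible apply IntF.union | with_reducible apply IntF.iimage | with_reducible apply IntF.ite | with_reducible apply IntF.the | with_reducible apply IntF.irec | with_reducible apply IntF.succ | with_reducible apply IntF.val | with_reducible apply IntF.mk | (with_reducible refine Int.comp ?_ ?_; assumption) | (with_reducible refine Int.comp₂ ?_ ?_ ?_; assumption) | (with_reducible refine Int.comp₃ ?_ ?_ ?_ ?_; assumption) | (with_reducible refine Int.comp₄ ?_ ?_ ?_ ?_ ?_; assumption) | (with_reducible refine IntF.comp ?_ ?_; assumption) | (with_reducible refine IntF.comp₂ ?_ ?_ ?_; assumption) | (with_reducible refine IntF.comp₃ ?_ ?_ ?_ ?_; assumption) | with_reducible apply IntF.pair)), fun n v => ?_⟩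
    refine (hT2 _ _ _).trans ⟨?_, fun h => ⟨v, rfl, h⟩⟩
    rintro ⟨v', h1, h2⟩
    cases h1
    exact h2
  · intro W hW
    obtain ⟨s, hs, h1⟩ := exists_homH (S := S) hG hC
      (W := fun q : El (AA (Zh S) hG) × INat (NN (SS (Zh S)) hG) =>
        ∃ a : {p : El (AA (Zh S) hG) // PA hG p}, a.1 = q.1 ∧ W (a, q.2)) (by (repeat' (first | with_reducible exact IntF.id | with_reducible exact IntF.fst' | with_reducible exact IntF.snd' | with_reducible exact IntF.const _ | with_reducible exact Int.const _ | assumption | with_reducible apply Int.and | with_reducible apply Int.or | with_reducible apply Int.not | with_reducible apply Int.imp | with_reducible apply Int.iff | with_reducible apply Int.ne | with_reducible apply Int.eq | with_reducible apply Int.mem | with_reducible apply Int.subset | with_reducible apply Int.ltN | with_reducible apply Int.leN | with_reducible_and_instances apply Int.le | with_reducible_and_instances apply Int.lt | with_reducible apply Int.all | with_reducible apply Int.ex | with_reducible apply IntF.fst | with_reducible apply IntF.snd | with_reducible apply IntF.app | with_reducible apply IntF.inl | with_reducible apply IntF.inr | with_reducible_and_instances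 apply IntF.mul | with_reducible_and_instances apply IntF.inv | with_reducible_and_instances apply IntF.add | with_reducible_and_instances apply IntF.sub | with_reducible_and_instances apply IntF.neg | with_reducible_and_instances apply IntF.smul | with_reducible apply Int.fin | with_reducible apply IntF.sep | with_reducible apply IntF.lam | with_reducible apply IntF.insert | with_reducible apply IntF.singleton | with_reducible apply IntF.union | with_reducible apply IntF.iimage | with_reducible apply IntF.ite | with_reducible apply IntF.the | with_reducible apply IntF.irec | with_reducible apply IntF.succ | with_reducible apply IntF.val | with_reducible apply IntF.mk | (with_reducible refine Int.comp ?_ ?_; assumption) | (with_reducible refine Int.comp₂ ?_ ?_ ?_; assumption) | (with_reducible refine Int.comp₃ ?_ ?_ ?_ ?_; assumption) | (with_reducible refine Int.comp₄ ?_ ?_ ?_ ?_ ?_; assumption) | (with_reducible refine IntF.comp ?_ ?_; assumption) | (with_reducible refine IntF.comp₂ ?_ ?_ ?_; assumption) | (with_reducible refine IntF.comp₃ ?_ ?_ ?_ ?_; assumption) | with_reducible apply IntF.pair)))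
    refine ⟨s, hs, fun f fd hf hfs x n h => ?_⟩
    obtain ⟨a, ha, h2⟩ := h1 f fd hf hfs (xa x) n ⟨_, rfl, h⟩
    have h3 : a = ⟨cA (Zh S) hG (xa (f x)), f x, rfl⟩ := Subtype.ext ha
    rw [h3] at h2
    exact h2
  · intro W hW
    obtain ⟨s, hs, h1⟩ := exists_homH2 (S := S) hG
      (W := fun q : El (AA (Zh S) hG) × El (AA (Zh S) hG) =>
        ∃ a b : {p : El (AA (Zh S) hG) // PA hG p}, a.1 = q.1 ∧ b.1 = q.2 ∧ W (a, b)) (by (repeat' (first | with_reducible exact IntF.id | with_reducible exact IntF.fst' | with_reducible exact IntF.snd' | with_reducible exact IntF.const _ | with_reducible exact Int.const _ | assumption | with_reducible apply Int.and | with_reducible apply Int.or | with_reducible apply Int.not | with_reducible apply Int.imp | with_reducible apply Int.iff | with_reducible apply Int.ne | with_reducible apply Int.eq | with_reducible apply Int.mem | with_reducible apply Int.subset | with_reducible apply Int.ltN | with_reducible apply Int.leN | with_reducible_and_instances apply Int.le | with_reducible_and_instances apply Int.lt | with_reducible apply Int.all | with_reducible apply Int.ex | with_reducible apply IntF.fst | with_reducible apply IntF.snd | with_reducible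 apply IntF.app | with_reducible apply IntF.inl | with_reducible apply IntF.inr | with_reducible_and_instances apply IntF.mul | with_reducible_and_instances apply IntF.inv | with_reducible_and_instances apply IntF.add | with_reducible_and_instances apply IntF.sub | with_reducible_and_instances apply IntF.neg | with_reducible_and_instances apply IntF.smul | with_reducible apply Int.fin | with_reducible apply IntF.sep | with_reducible apply IntF.lam | with_reducible apply IntF.insert | with_reducible apply IntF.singleton | with_reducible apply IntF.union | with_reducible apply IntF.iimage | with_reducible apply IntF.ite | with_reducible apply IntF.the | with_reducible apply IntF.irec | with_reducible apply IntF.succ | with_reducible apply IntF.val | with_reducible apply IntF.mk | (with_reducible refine Int.comp ?_ ?_; assumption) | (with_reducible refine Int.comp₂ ?_ ?_ ?_; assumption) | (with_reducible refine Int.comp₃ ?_ ?_ ?_ ?_; assumption) | (with_reducible refine Int.comp₄ ?_ ?_ ?_ ?_ ?_; assumption) | (with_reducible refine IntF.comp ?_ ?_; assumption) | (with_reducible refine IntF.comp₂ ?_ ?_ ?_; assumption) | (with_reducible refine IntF.comp₃ ?_ ?_ ?_ ?_; assumption)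 | with_reducible apply IntF.pair)))
    refine ⟨s, hs, fun f fd hf hfs x y h => ?_⟩
    obtain ⟨a, b, ha, hb, h2⟩ := h1 f fd hf hfs (xa x) (xa y) ⟨_, _, rfl, rfl, h⟩
    have h3 : a = ⟨cA (Zh S) hG (xa (f x)), f x, rfl⟩ := Subtype.ext ha
    have h4 : b = ⟨cA (Zh S) hG (xa (f y)), f y, rfl⟩ := Subtype.ext hb
    rw [h3, h4] at h2
    exact h2
  · intro W hW
    obtain ⟨s, hs, h1⟩ := exists_homH (S := S) hG hC
      (W := fun q : El (AA (Zh S) hG) × INat (NN (SS (Zh S)) hG) =>
        ∃ a : {p : El (AA (Zh S) hG) // PD hG p}, a.1 = q.1 ∧ W (a, q.2)) (by (repeat' (first | with_reducible exact IntF.id | with_reducible exact IntF.fst' | with_reducible exact IntF.snd' | with_reducible exact IntF.const _ | with_reducible exact Int.const _ | assumption | with_reducible apply Int.and | with_reducible apply Int.or | with_reducible apply Int.not | with_reducible apply Int.imp | with_reducible apply Int.iff | with_reducible apply Int.ne | with_reducible apply Int.eq | with_reducible apply Int.mem | with_reducible apply Int.subset | with_reducible apply Int.ltN | with_reducible apply Int.leN | with_reducible_and_instances apply Int.le | with_reducible_and_instances apply Int.lt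 | with_reducible apply Int.all | with_reducible apply Int.ex | with_reducible apply IntF.fst | with_reducible apply IntF.snd | with_reducible apply IntF.app | with_reducible apply IntF.inl | with_reducible apply IntF.inr | with_reducible_and_instances apply IntF.mul | with_reducible_and_instances apply IntF.inv | with_reducible_and_instances apply IntF.add | with_reducible_and_instances apply IntF.sub | with_reducible_and_instances apply IntF.neg | with_reducible_and_instances apply IntF.smul | with_reducible apply Int.fin | with_reducible apply IntF.sep | with_reducible apply IntF.lam | with_reducible apply IntF.insert | with_reducible apply IntF.singleton | with_reducible apply IntF.union | with_reducible apply IntF.iimage | with_reducible apply IntF.ite | with_reducible apply IntF.the | with_reducible apply IntF.irec | with_reducible apply IntF.succ | with_reducible apply IntF.val | with_reducible apply IntF.mk | (with_reducible refine Int.comp ?_ ?_; assumption) | (with_reducible refine Int.comp₂ ?_ ?_ ?_; assumption) | (with_reducible refine Int.comp₃ ?_ ?_ ?_ ?_; assumption) | (with_reducible refine Int.comp₄ ?_ ?_ ?_ ?_ ?_; assumption) | (with_reducible refine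 IntF.comp ?_ ?_; assumption) | (with_reducible refine IntF.comp₂ ?_ ?_ ?_; assumption) | (with_reducible refine IntF.comp₃ ?_ ?_ ?_ ?_; assumption) | with_reducible apply IntF.pair)))
    refine ⟨s, hs, fun f fd hf hfs x n h => ?_⟩
    obtain ⟨a, ha, h2⟩ := h1 f fd hf hfs (xd x) n ⟨_, rfl, h⟩
    have h3 : a = ⟨cA (Zh S) hG (xd (fd x)), fd x, rfl⟩ := Subtype.ext ha
    rw [h3] at h2
    exact h2
  · intro E hE
    have hx : IntF M (fun x : β => (xa x : Xh β δ ν)) := by (repeat' (first | with_reducible exact IntF.id | with_reducible exact IntF.fst' | with_reducible exact IntF.snd' | with_reducible exact IntF.const _ | with_reducible exact Int.const _ | assumption | with_reducible apply Int.and | with_reducible apply Int.or | with_reducible apply Int.not | with_reducible apply Int.imp | with_reducible apply Int.iff | with_reducible apply Int.ne | with_reducible apply Int.eq | with_reducible apply Int.mem | with_reducible apply Int.subset | with_reducible apply Int.ltN | with_reducible apply Int.leN | with_reducible_and_instances apply Int.le | with_reducible_and_instances apply Int.lt | with_reducible apply Int.all | with_reducible apply Int.ex | with_reducible apply IntF.fst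 | with_reducible apply IntF.snd | with_reducible apply IntF.app | with_reducible apply IntF.inl | with_reducible apply IntF.inr | with_reducible_and_instances apply IntF.mul | with_reducible_and_instances apply IntF.inv | with_reducible_and_instances apply IntF.add | with_reducible_and_instances apply IntF.sub | with_reducible_and_instances apply IntF.neg | with_reducible_and_instances apply IntF.smul | with_reducible apply Int.fin | with_reducible apply IntF.sep | with_reducible apply IntF.lam | with_reducible apply IntF.insert | with_reducible apply IntF.singleton | with_reducible apply IntF.union | with_reducible apply IntF.iimage | with_reducible apply IntF.ite | with_reducible apply IntF.the | with_reducible apply IntF.irec | with_reducible apply IntF.succ | with_reducible apply IntF.val | with_reducible apply IntF.mk | (with_reducible refine Int.comp ?_ ?_; assumption) | (with_reducible refine Int.comp₂ ?_ ?_ ?_; assumption) | (with_reducible refine Int.comp₃ ?_ ?_ ?_ ?_; assumption) | (with_reducible refine Int.comp₄ ?_ ?_ ?_ ?_ ?_; assumption) | (with_reducible refine IntF.comp ?_ ?_; assumption) | (with_reducible refine IntF.comp₂ ?_ ?_ ?_; assumption) | (with_reducible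 refine IntF.comp₃ ?_ ?_ ?_ ?_; assumption) | with_reducible apply IntF.pair))
    obtain ⟨s, hs, h1⟩ := exists_fin (Z := Zh S) hG hC ⟨iimage (fun x => xa x) E, hE.image hx⟩
    have hv : IntF (NN (SS (Zh S)) hG) (fun a : {p : El (AA (Zh S) hG) // PA hG p} => a.1) := by
      (repeat' (first | with_reducible exact IntF.id | with_reducible exact IntF.fst' | with_reducible exact IntF.snd' | with_reducible exact IntF.const _ | with_reducible exact Int.const _ | assumption | with_reducible apply Int.and | with_reducible apply Int.or | with_reducible apply Int.not | with_reducible apply Int.imp | with_reducible apply Int.iff | with_reducible apply Int.ne | with_reducible apply Int.eq | with_reducible apply Int.mem | with_reducible apply Int.subset | with_reducible apply Int.ltN | with_reducible apply Int.leN | with_reducible_and_instances apply Int.le | with_reducible_and_instances apply Int.lt | with_reducible apply Int.all | with_reducible apply Int.ex | with_reducible apply IntF.fst | with_reducible apply IntF.snd | with_reducible apply IntF.app | with_reducible apply IntF.inl | with_reducible apply IntF.inr | with_reducible_and_instances apply IntF.mul | with_reducible_and_instances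 apply IntF.inv | with_reducible_and_instances apply IntF.add | with_reducible_and_instances apply IntF.sub | with_reducible_and_instances apply IntF.neg | with_reducible_and_instances apply IntF.smul | with_reducible apply Int.fin | with_reducible apply IntF.sep | with_reducible apply IntF.lam | with_reducible apply IntF.insert | with_reducible apply IntF.singleton | with_reducible apply IntF.union | with_reducible apply IntF.iimage | with_reducible apply IntF.ite | with_reducible apply IntF.the | with_reducible apply IntF.irec | with_reducible apply IntF.succ | with_reducible apply IntF.val | with_reducible apply IntF.mk | (with_reducible refine Int.comp ?_ ?_; assumption) | (with_reducible refine Int.comp₂ ?_ ?_ ?_; assumption) | (with_reducible refine Int.comp₃ ?_ ?_ ?_ ?_; assumption) | (with_reducible refine Int.comp₄ ?_ ?_ ?_ ?_ ?_; assumption) | (with_reducible refine IntF.comp ?_ ?_; assumption) | (with_reducible refine IntF.comp₂ ?_ ?_ ?_; assumption) | (with_reducible refine IntF.comp₃ ?_ ?_ ?_ ?_; assumption) | with_reducible apply IntF.pair))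
    refine ⟨_, fin_preimage hv (fun a b h => Subtype.ext h) hs, fun x => ?_⟩
    rw [mem_sep (by (repeat' (first | with_reducible exact IntF.id | with_reducible exact IntF.fst' | with_reducible exact IntF.snd' | with_reducible exact IntF.const _ | with_reducible exact Int.const _ | assumption | with_reducible apply Int.and | with_reducible apply Int.or | with_reducible apply Int.not | with_reducible apply Int.imp | with_reducible apply Int.iff | with_reducible apply Int.ne | with_reducible apply Int.eq | with_reducible apply Int.mem | with_reducible apply Int.subset | with_reducible apply Int.ltN | with_reducible apply Int.leN | with_reducible_and_instances apply Int.le | with_reducible_and_instances apply Int.lt | with_reducible apply Int.all | with_reducible apply Int.ex | with_reducible apply IntF.fst | with_reducible apply IntF.snd | with_reducible apply IntF.app | with_reducible apply IntF.inl | with_reducible apply IntF.inr | with_reducible_and_instances apply IntF.mul | with_reducible_and_instances apply IntF.inv | with_reducible_and_instances apply IntF.add | with_reducible_and_instances apply IntF.sub | with_reducible_and_instances apply IntF.neg | with_reducible_and_instances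 apply IntF.smul | with_reducible apply Int.fin | with_reducible apply IntF.sep | with_reducible apply IntF.lam | with_reducible apply IntF.insert | with_reducible apply IntF.singleton | with_reducible apply IntF.union | with_reducible apply IntF.iimage | with_reducible apply IntF.ite | with_reducible apply IntF.the | with_reducible apply IntF.irec | with_reducible apply IntF.succ | with_reducible apply IntF.val | with_reducible apply IntF.mk | (with_reducible refine Int.comp ?_ ?_; assumption) | (with_reducible refine Int.comp₂ ?_ ?_ ?_; assumption) | (with_reducible refine Int.comp₃ ?_ ?_ ?_ ?_; assumption) | (with_reducible refine Int.comp₄ ?_ ?_ ?_ ?_ ?_; assumption) | (with_reducible refine IntF.comp ?_ ?_; assumption) | (with_reducible refine IntF.comp₂ ?_ ?_ ?_; assumption) | (with_reducible refine IntF.comp₃ ?_ ?_ ?_ ?_; assumption) | with_reducible apply IntF.pair)))]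
    refine (h1 _).trans ((mem_iimage hx).trans ⟨?_, fun h => ⟨x, h, rfl⟩⟩)
    rintro ⟨y, hy, h2⟩
    rw [← Sum.inl_injective h2]
    exact hy
  · intro E hE
    have hx : IntF M (fun x : δ => (xd x : Xh β δ ν)) := by (repeat' (first | with_reducible exact IntF.id | with_reducible exact IntF.fst' | with_reducible exact IntF.snd' | with_reducible exact IntF.const _ | with_reducible exact Int.const _ | assumption | with_reducible apply Int.and | with_reducible apply Int.or | with_reducible apply Int.not | with_reducible apply Int.imp | with_reducible apply Int.iff | with_reducible apply Int.ne | with_reducible apply Int.eq | with_reducible apply Int.mem | with_reducible apply Int.subset | with_reducible apply Int.ltN | with_reducible apply Int.leN | with_reducible_and_instances apply Int.le | with_reducible_and_instances apply Int.lt | with_reducible apply Int.all | with_reducible apply Int.ex | with_reducible apply IntF.fst | with_reducible apply IntF.snd | with_reducible apply IntF.app | with_reducible apply IntF.inl | with_reducible apply IntF.inr | with_reducible_and_instances apply IntF.mul | with_reducible_and_instances apply IntF.inv | with_reducible_and_instances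 apply IntF.add | with_reducible_and_instances apply IntF.sub | with_reducible_and_instances apply IntF.neg | with_reducible_and_instances apply IntF.smul | with_reducible apply Int.fin | with_reducible apply IntF.sep | with_reducible apply IntF.lam | with_reducible apply IntF.insert | with_reducible apply IntF.singleton | with_reducible apply IntF.union | with_reducible apply IntF.iimage | with_reducible apply IntF.ite | with_reducible apply IntF.the | with_reducible apply IntF.irec | with_reducible apply IntF.succ | with_reducible apply IntF.val | with_reducible apply IntF.mk | (with_reducible refine Int.comp ?_ ?_; assumption) | (with_reducible refine Int.comp₂ ?_ ?_ ?_; assumption) | (with_reducible refine Int.comp₃ ?_ ?_ ?_ ?_; assumption) | (with_reducible refine Int.comp₄ ?_ ?_ ?_ ?_ ?_; assumption) | (with_reducible refine IntF.comp ?_ ?_; assumption) | (with_reducible refine IntF.comp₂ ?_ ?_ ?_; assumption) | (with_reducible refine IntF.comp₃ ?_ ?_ ?_ ?_; assumption) | with_reducible apply IntF.pair))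
    obtain ⟨s, hs, h1⟩ := exists_fin (Z := Zh S) hG hC ⟨iimage (fun x => xd x) E, hE.image hx⟩
    have hv : IntF (NN (SS (Zh S)) hG) (fun a : {p : El (AA (Zh S) hG) // PD hG p} => a.1) := by
      (repeat' (first | with_reducible exact IntF.id | with_reducible exact IntF.fst' | with_reducible exact IntF.snd' | with_reducible exact IntF.const _ | with_reducible exact Int.const _ | assumption | with_reducible apply Int.and | with_reducible apply Int.or | with_reducible apply Int.not | with_reducible apply Int.imp | with_reducible apply Int.iff | with_reducible apply Int.ne | with_reducible apply Int.eq | with_reducible apply Int.mem | with_reducible apply Int.subset | with_reducible apply Int.ltN | with_reducible apply Int.leN | with_reducible_and_instances apply Int.le | with_reducible_and_instances apply Int.lt | with_reducible apply Int.all | with_reducible apply Int.ex | with_reducible apply IntF.fst | with_reducible apply IntF.snd | with_reducible apply IntF.app | with_reducible apply IntF.inl | with_reducible apply IntF.inr | with_reducible_and_instances apply IntF.mul | with_reducible_and_instances apply IntF.inv | with_reducible_and_instances apply IntF.add |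 with_reducible_and_instances apply IntF.sub | with_reducible_and_instances apply IntF.neg | with_reducible_and_instances apply IntF.smul | with_reducible apply Int.fin | with_reducible apply IntF.sep | with_reducible apply IntF.lam | with_reducible apply IntF.insert | with_reducible apply IntF.singleton | with_reducible apply IntF.union | with_reducible apply IntF.iimage | with_reducible apply IntF.ite | with_reducible apply IntF.the | with_reducible apply IntF.irec | with_reducible apply IntF.succ | with_reducible apply IntF.val | with_reducible apply IntF.mk | (with_reducible refine Int.comp ?_ ?_; assumption) | (with_reducible refine Int.comp₂ ?_ ?_ ?_; assumption) | (with_reducible refine Int.comp₃ ?_ ?_ ?_ ?_; assumption) | (with_reducible refine Int.comp₄ ?_ ?_ ?_ ?_ ?_; assumption) | (with_reducible refine IntF.comp ?_ ?_; assumption) | (with_reducible refine IntF.comp₂ ?_ ?_ ?_; assumption) | (with_reducible refine IntF.comp₃ ?_ ?_ ?_ ?_; assumption) | with_reducible apply IntF.pair))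
    refine ⟨_, fin_preimage hv (fun a b h => Subtype.ext h) hs, fun x => ?_⟩
    rw [mem_sep (by (repeat' (first | with_reducible exact IntF.id | with_reducible exact IntF.fst' | with_reducible exact IntF.snd' | with_reducible exact IntF.const _ | with_reducible exact Int.const _ | assumption | with_reducible apply Int.and | with_reducible apply Int.or | with_reducible apply Int.not | with_reducible apply Int.imp | with_reducible apply Int.iff | with_reducible apply Int.ne | with_reducible apply Int.eq | with_reducible apply Int.mem | with_reducible apply Int.subset | with_reducible apply Int.ltN | with_reducible apply Int.leN | with_reducible_and_instances apply Int.le | with_reducible_and_instances apply Int.lt | with_reducible apply Int.all | with_reducible apply Int.ex | with_reducible apply IntF.fst | with_reducible apply IntF.snd | with_reducible apply IntF.app | with_reducible apply IntF.inl | with_reducible apply IntF.inr | with_reducible_and_instances apply IntF.mul | with_reducible_and_instances apply IntF.inv | with_reducible_and_instances apply IntF.add | with_reducible_and_instances apply IntF.sub | with_reducible_and_instances apply IntF.neg | with_reducible_and_instances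 apply IntF.smul | with_reducible apply Int.fin | with_reducible apply IntF.sep | with_reducible apply IntF.lam | with_reducible apply IntF.insert | with_reducible apply IntF.singleton | with_reducible apply IntF.union | with_reducible apply IntF.iimage | with_reducible apply IntF.ite | with_reducible apply IntF.the | with_reducible apply IntF.irec | with_reducible apply IntF.succ | with_reducible apply IntF.val | with_reducible apply IntF.mk | (with_reducible refine Int.comp ?_ ?_; assumption) | (with_reducible refine Int.comp₂ ?_ ?_ ?_; assumption) | (with_reducible refine Int.comp₃ ?_ ?_ ?_ ?_; assumption) | (with_reducible refine Int.comp₄ ?_ ?_ ?_ ?_ ?_; assumption) | (with_reducible refine IntF.comp ?_ ?_; assumption) | (with_reducible refine IntF.comp₂ ?_ ?_ ?_; assumption) | (with_reducible refine IntF.comp₃ ?_ ?_ ?_ ?_; assumption) | with_reducible apply IntF.pair)))]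
    refine (h1 _).trans ((mem_iimage hx).trans ⟨?_, fun h => ⟨x, h, rfl⟩⟩)
    rintro ⟨y, hy, h2⟩
    rw [← Sum.inl_injective (Sum.inr_injective h2)]
    exact hy

end

/-- The model has copies. -/
def HasRep (M : Type u) [L.Structure M] [IsModel M] {β δ ν : Type u} [ITy M β] [ITy M δ] [ITy M ν]
    (S : Rels M β δ ν) (N : Type u) [LSet.Structure N] [hZ : Helper672.Plain.Zermelo N] : Prop :=
  letI := Helper672.Plain.toL (M := N)
  letI : IsModel N := Helper672.Plain.isModel_toL
  Nonempty (Rep M N S)

theorem exists_rep (M : Type u) [L.Structure M] [IsModel M] [Countable M] (hC : CollL M)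
    {β δ ν : Type u} [ITy M β] [ITy M δ] [ITy M ν] (S : Rels M β δ ν) :
    ∃ (N : Type u) (_ : LSet.Structure N) (_ : ZF N), HasRep M S N := by
  have p₀ : Co M (Xh β δ ν) := ⟨∅, fun i k d d' h => absurd h (by simp), IFin.empty⟩
  obtain ⟨G, hG⟩ := H635.exists_gen (M := M) p₀
  have hzf : ZF (H635.NN (SS (Zh S)) hG) := nn_zf hG hC
  exact ⟨H635.NN (SS (Zh S)) hG, inferInstance, hzf, exists_repG hG hC⟩

/-- From a model of ZF to a model with copies. -/
theorem exists_of_rep {P : ∀ (N : Type u) [LSet.Structure N], Prop}
    (h : ∀ (M : Type u) [L.Structure M] [IsModel M] [Countable M], ∃ (β δ ν : Type u)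
      (_ : ITy M β) (_ : ITy M δ) (_ : ITy M ν) (S : Rels M β δ ν),
        ∀ (N : Type u) [LSet.Structure N] [hZ : Helper672.Plain.Zermelo N], HasRep M S N → P N)
    (M : Type u) [LSet.Structure M] (hM : ZF M) :
    ∃ (N : Type u) (_ : LSet.Structure N), ZF N ∧ P N := by
  obtain ⟨M₀, h1, h2⟩ := exists_countable_sub M hM
  letI := toL (M := M₀)
  haveI : IsModel M₀ := isModel_of_zermelo h2.toZermelo
  obtain ⟨β, δ, ν, iβ, iδ, iν, S, h3⟩ := h M₀
  obtain ⟨N, iN, hN, h4⟩ := exists_rep M₀ (coll_of_zf h2) S
  exact ⟨N, iN, hN, @h3 N iN hN.toZermelo h4⟩

end Pool.Agent.V11257H
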