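import Pool.Agent.V11257.Mg5

/-!
# A model where products of P-spaces can fail to be P-spaces
-/

set_option maxHeartbeats 1000000
set_option linter.all false
set_option synthInstance.maxSize 2000

namespace Pool.Agent.V11257H

open FirstOrder FirstOrder.Language
open Pool.Agent.Helper672
open Pool.Agent.Helper672.ZFA
open Pool.Agent.Helper672.Plain (LSet)
open Pool.Agent.H635Amen (ZF)

universe u

section

attribute [local instance] Helper672.Plain.toL

theorem not_ppp_of_rep {M : Type u} [L.Structure M] [IsModel M] {N : Type u} [LSet.Structure N]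
    [hZ : Helper672.Plain.Zermelo N] (h : HasRep M (Sp M) N) : ¬ PPP N := by
  letI : IsModel N := Helper672.Plain.isModel_toL
  obtain ⟨r⟩ := h
  obtain ⟨Q, R, hQR⟩ := exists_pq r
  exact not_ppp (pp r hQR)

end

theorem exists_not_ppp (M : Type u) [LSet.Structure M] (hM : ZF M) :
    ∃ (N : Type u) (_ : LSet.Structure N), ZF N ∧ ¬ PPP N :=
  exists_of_rep (P := fun N _ => ¬ PPP N)
    (fun M _ _ _ => ⟨Bp M, Dp M, INat M, inferInstance, inferInstance, inferInstance, Sp M,
      fun N _ _ h => not_ppp_of_rep h⟩) M hM

end Pool.Agent.V11257H
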