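import Mathlib

/-!
# Nonstandard extensions as elementary extensions of the full structure

`full B` is the first-order language with a symbol for every finitary function and relation on the
set `B`.  A nonstandard extension of `B` is a structure `X` for this language that is elementarily
equivalent to `B` (this is the transfer principle; the elements of `B` are named by the constants of
the language).
-/

set_option autoImplicit false

namespace Pool.Agent.V11257.NSA

open FirstOrder FirstOrder.Language

universe u

/-- The language with a symbol for every function and every relation on `B`. -/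
def full (B : Type) : Language := ⟨fun n => (Fin n → B) → B, fun n => Set (Fin n → B)⟩

/-- The standard structure on `B`. -/
instance fullStructure (B : Type) : (full B).Structure B where
  funMap := fun {_} f x => f x
  RelMap := fun {_} R x => x ∈ (show Set _ from R)

/-- `X` is an elementary extension of the full structure on `B`. -/
def IsExt (B : Type) (X : Type u) [(full B).Structure X] : Prop :=
  (full B).ElementarilyEquivalent B X

section
variable {B : Type} (X : Type u) [(full B).Structure X]

/-- The symbol of a subset of `B`. -/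
def rel1 (A : Set B) : (full B).Relations 1 := show Set (Fin 1 → B) from {v | v 0 ∈ A}

/-- The symbol of a binary relation on `B`. -/
def rel2 (R : B → B → Prop) : (full B).Relations 2 := show Set (Fin 2 → B) from {v | R (v 0) (v 1)}

/-- The symbol of a function on `B`. -/
def fun1 (f : B → B) : (full B).Functions 1 := show (Fin 1 → B) → B from fun v => f (v 0)

/-- The symbol of a binary operation on `B`. -/
def fun2 (f : B → B → B) : (full B).Functions 2 := show (Fin 2 → B) → B from fun v => f (v 0) (v 1)

/-- The extension of a subset of `B`. -/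
def star (A : Set B) : Set X := {x | Structure.RelMap (rel1 A) ![x]}

variable {X}

/-- The extension of a binary relation on `B`. -/
def starRel (R : B → B → Prop) (x y : X) : Prop := Structure.RelMap (rel2 R) ![x, y]

/-- The extension of a function on `B`. -/
def starFun (f : B → B) (x : X) : X := Structure.funMap (fun1 f) ![x]

/-- The extension of a binary operation on `B`. -/
def starOp (f : B → B → B) (x y : X) : X := Structure.funMap (fun2 f) ![x, y]

variable (B)

/-- `v x` is the family of the sets `A` with `x` in the extension of `A`. -/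
def vv (x : X) : Set (Set B) := {A | x ∈ star X A}

variable {B}

variable (X) in
/-- The monad of an ultrafilter. -/
def monad (F : Ultrafilter B) : Set X := {x | ∀ A ∈ F, x ∈ star X A}

@[simp] theorem relMap_rel1 {A : Set B} {v : Fin 1 → B} :
    Structure.RelMap (L := full B) (rel1 A) v ↔ v 0 ∈ A := Iff.rfl

@[simp] theorem relMap_rel2 {R : B → B → Prop} {v : Fin 2 → B} :
    Structure.RelMap (L := full B) (rel2 R) v ↔ R (v 0) (v 1) := Iff.rfl

@[simp] theorem funMap_fun1 {f : B → B} {v : Fin 1 → B} :
    Structure.funMap (L := full B) (fun1 f) v = f (v 0) := rfl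

@[simp] theorem funMap_fun2 {f : B → B → B} {v : Fin 2 → B} :
    Structure.funMap (L := full B) (fun2 f) v = f (v 0) (v 1) := rfl

variable (h : IsExt B X)
include h

theorem star_compl (A : Set B) (x : X) : x ∈ star X Aᶜ ↔ x ∉ star X A := by
  let φ : (full B).Sentence := ∀' (((rel1 Aᶜ).boundedFormula₁ (&0)) ⇔ ∼((rel1 A).boundedFormula₁ (&0)))
  have h1 : B ⊨ φ := by
    simp only [φ, Sentence.Realize, Formula.Realize, BoundedFormula.realize_all,
      BoundedFormula.realize_iff, BoundedFormula.realize_rel₁, BoundedFormula.realize_not]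
    intro a
    simp
  have h2 : X ⊨ φ := (h.realize_sentence φ).1 h1
  simp only [φ, Sentence.Realize, Formula.Realize, BoundedFormula.realize_all,
      BoundedFormula.realize_iff, BoundedFormula.realize_rel₁, BoundedFormula.realize_not] at h2
  exact h2 x

theorem star_preimage (f : B → B) (A : Set B) (x : X) :
    starFun f x ∈ star X A ↔ x ∈ star X (f ⁻¹' A) := by
  let φ : (full B).Sentence := ∀' (((rel1 A).boundedFormula₁ ((fun1 f).apply₁ (&0))) ⇔
    ((rel1 (f ⁻¹' A)).boundedFormula₁ (&0)))
  have h1 : B ⊨ φ := by
    simp only [φ, Sentence.Realize, Formula.Realize, BoundedFormula.realize_all,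
      BoundedFormula.realize_iff, BoundedFormula.realize_rel₁, Term.realize_functions_apply₁]
    intro a
    simp
  have h2 : X ⊨ φ := (h.realize_sentence φ).1 h1
  simp only [φ, Sentence.Realize, Formula.Realize, BoundedFormula.realize_all,
      BoundedFormula.realize_iff, BoundedFormula.realize_rel₁, Term.realize_functions_apply₁] at h2
  exact h2 x

theorem starRel_fun (R : B → B → Prop) (f g : B → B) (x : X) :
    starRel R (starFun f x) (starFun g x) ↔ x ∈ star X {a | R (f a) (g a)} := by
  let φ : (full B).Sentence := ∀' (((rel2 R).boundedFormula₂ ((fun1 f).apply₁ (&0))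
    ((fun1 g).apply₁ (&0))) ⇔ ((rel1 {a | R (f a) (g a)}).boundedFormula₁ (&0)))
  have h1 : B ⊨ φ := by
    simp only [φ, Sentence.Realize, Formula.Realize, BoundedFormula.realize_all,
      BoundedFormula.realize_iff, BoundedFormula.realize_rel₁, BoundedFormula.realize_rel₂,
      Term.realize_functions_apply₁]
    intro a
    simp
  have h2 : X ⊨ φ := (h.realize_sentence φ).1 h1
  simp only [φ, Sentence.Realize, Formula.Realize, BoundedFormula.realize_all,
      BoundedFormula.realize_iff, BoundedFormula.realize_rel₁, BoundedFormula.realize_rel₂,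
      Term.realize_functions_apply₁] at h2
  exact h2 x

theorem starOp_fun (m : B → B → B) (f g : B → B) (x : X) :
    starOp m (starFun f x) (starFun g x) = starFun (fun a => m (f a) (g a)) x := by
  let φ : (full B).Sentence := ∀' ((((fun2 m).apply₂ ((fun1 f).apply₁ (&0))
    ((fun1 g).apply₁ (&0)))) =' ((fun1 (fun a => m (f a) (g a))).apply₁ (&0)))
  have h1 : B ⊨ φ := by
    simp only [φ, Sentence.Realize, Formula.Realize, BoundedFormula.realize_all,
      BoundedFormula.realize_bdEqual, Term.realize_functions_apply₁, Term.realize_functions_apply₂]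
    intro a
    simp
  have h2 : X ⊨ φ := (h.realize_sentence φ).1 h1
  simp only [φ, Sentence.Realize, Formula.Realize, BoundedFormula.realize_all,
      BoundedFormula.realize_bdEqual, Term.realize_functions_apply₁, Term.realize_functions_apply₂] at h2
  exact h2 x

theorem star_mono {A A' : Set B} (hA : A ⊆ A') : star X A ⊆ star X A' := by
  intro x hx
  let φ : (full B).Sentence := ∀' (((rel1 A).boundedFormula₁ (&0)) ⟹ ((rel1 A').boundedFormula₁ (&0)))
  have h1 : B ⊨ φ := by
    simp only [φ, Sentence.Realize, Formula.Realize, BoundedFormula.realize_all,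
      BoundedFormula.realize_imp, BoundedFormula.realize_rel₁]
    intro a ha
    exact hA ha
  have h2 : X ⊨ φ := (h.realize_sentence φ).1 h1
  simp only [φ, Sentence.Realize, Formula.Realize, BoundedFormula.realize_all,
      BoundedFormula.realize_imp, BoundedFormula.realize_rel₁] at h2
  exact h2 x hx

theorem mem_star_iff_of_mem_monad {F : Ultrafilter B} {x : X} (hx : x ∈ monad X F) (A : Set B) :
    x ∈ star X A ↔ A ∈ F := by
  constructor
  · intro hA
    by_contra hcon
    exact (star_compl h A x).1 (hx _ (Ultrafilter.compl_mem_iff_notMem.2 hcon)) hA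
  · exact hx A

theorem vv_of_mem_monad {F : Ultrafilter B} {x : X} (hx : x ∈ monad X F) :
    vv B x = {A | A ∈ F} := by
  ext A
  exact mem_star_iff_of_mem_monad h hx A

theorem mem_monad_iff {F : Ultrafilter B} {x : X} : x ∈ monad X F ↔ vv B x = {A | A ∈ F} := by
  constructor
  · exact vv_of_mem_monad h
  · intro hx A hA
    have : A ∈ vv B x := by rw [hx]; exact hA
    exact this

theorem starFun_mem_monad {F : Ultrafilter B} {x : X} (hx : x ∈ monad X F) (f : B → B) :
    starFun f x ∈ monad X (F.map f) := by
  intro A hA
  rw [star_preimage h]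
  exact hx _ hA

end

/-- Realization of a type of triples in an extension with nonempty monads. -/
theorem exists_triple {B : Type} {X : Type u} [(full B).Structure X] (h : IsExt B X)
    (e : B ≃ B × B × B) (hmon : ∀ F : Ultrafilter B, (monad X F).Nonempty)
    (W : Ultrafilter (B × B × B)) : ∃ x y z : X,
      x ∈ monad X (W.map fun t => t.1) ∧ y ∈ monad X (W.map fun t => t.2.1) ∧
      z ∈ monad X (W.map fun t => t.2.2) ∧
      (∀ R : B → B → Prop, {t : B × B × B | R t.1 t.2.1} ∈ W → starRel R x y) ∧
      (∀ R : B → B → Prop, {t : B × B × B | R t.2.1 t.2.2} ∈ W → starRel R y z) ∧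
      (∀ (m : B → B → B) (A : Set B), starOp m x y ∈ star X A ↔ {t | m t.1 t.2.1 ∈ A} ∈ W) ∧
      (∀ (m : B → B → B) (A : Set B), starOp m z y ∈ star X A ↔ {t | m t.2.2 t.2.1 ∈ A} ∈ W) := by
  obtain ⟨w, hw⟩ := hmon (W.map e.symm)
  have hw' : ∀ A : Set B, w ∈ star X A ↔ e.symm ⁻¹' A ∈ W := fun A =>
    mem_star_iff_of_mem_monad h hw A
  let p1 : B → B := fun b => (e b).1
  let p2 : B → B := fun b => (e b).2.1
  let p3 : B → B := fun b => (e b).2.2
  refine ⟨starFun p1 w, starFun p2 w, starFun p3 w, ?_, ?_, ?_, ?_, ?_, ?_, ?_⟩
  · intro A hA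
    rw [star_preimage h, hw']
    have : e.symm ⁻¹' (p1 ⁻¹' A) = (fun t : B × B × B => t.1) ⁻¹' A := by
      ext t; simp [p1]
    rw [this]; exact hA
  · intro A hA
    rw [star_preimage h, hw']
    have : e.symm ⁻¹' (p2 ⁻¹' A) = (fun t : B × B × B => t.2.1) ⁻¹' A := by
      ext t; simp [p2]
    rw [this]; exact hA
  · intro A hA
    rw [star_preimage h, hw']
    have : e.symm ⁻¹' (p3 ⁻¹' A) = (fun t : B × B × B => t.2.2) ⁻¹' A := by
      ext t; simp [p3]
    rw [this]; exact hA
  · intro R hR
    rw [starRel_fun h, hw']
    have : e.symm ⁻¹' {a | R (p1 a) (p2 a)} = {t : B × B × B | R t.1 t.2.1} := by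
      ext t; simp [p1, p2]
    rw [this]; exact hR
  · intro R hR
    rw [starRel_fun h, hw']
    have : e.symm ⁻¹' {a | R (p2 a) (p3 a)} = {t : B × B × B | R t.2.1 t.2.2} := by
      ext t; simp [p2, p3]
    rw [this]; exact hR
  · intro m A
    rw [starOp_fun h, star_preimage h, hw']
    have : e.symm ⁻¹' ((fun a => m (p1 a) (p2 a)) ⁻¹' A) = {t : B × B × B | m t.1 t.2.1 ∈ A} := by
      ext t; simp [p1, p2]
    rw [this]
  · intro m A
    rw [starOp_fun h, star_preimage h, hw']
    have : e.symm ⁻¹' ((fun a => m (p3 a) (p2 a)) ⁻¹' A) = {t : B × B × B | m t.2.2 t.2.1 ∈ A} := by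
      ext t; simp [p3, p2]
    rw [this]

end Pool.Agent.V11257.NSA

namespace Pool.Agent.V11257.NSA

open FirstOrder FirstOrder.Language Filter

section Ultraproduct
variable {B : Type} [Nonempty B] {I : Type} (E : Ultrafilter I)

/-- The ultrapower of `B`. -/
abbrev UP (B : Type) {I : Type} (E : Ultrafilter I) : Type := (E : Filter I).Product fun _ => B

/-- The class of a family. -/
def cls (x : I → B) : UP B E := Quotient.mk _ x

theorem cls_surj (x : UP B E) : ∃ f, cls E f = x := Quotient.exists_rep x

theorem mem_star_cls (x : I → B) (A : Set B) : cls E x ∈ star (UP B E) A ↔ ∀ᶠ i in E, x i ∈ A := by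
  have h2 : (![cls E x] : Fin 1 → UP B E) = fun i => cls E ((![x] : Fin 1 → I → B) i) := by
    funext i
    fin_cases i
    rfl
  have h1 := relMap_quotient_mk' (L := full B) (s := (E : Filter I).productSetoid fun _ => B)
    (rel1 A) ![x]
  refine (Iff.trans ?_ h1)
  unfold star
  rw [Set.mem_ofPred_eq, h2]
  exact Iff.rfl

theorem isExt_UP : IsExt B (UP B E) := by
  rw [IsExt, elementarilyEquivalent_iff]
  intro φ
  rw [Ultraproduct.sentence_realize]
  simp

end Ultraproduct

/-- There are nonstandard extensions in which all monads are nonempty. -/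
theorem exists_ext (B : Type) [Nonempty B] : ∃ (X : Type) (_ : (full B).Structure X),
    IsExt B X ∧ ∀ F : Ultrafilter B, (monad X F).Nonempty := by
  let E : Ultrafilter (Ultrafilter B → B) := Ultrafilter.of (Filter.pi fun F : Ultrafilter B =>
    (F : Filter B))
  refine ⟨UP B E, inferInstance, isExt_UP E, fun F => ⟨cls E fun j => j F, fun A hA => ?_⟩⟩
  rw [mem_star_cls]
  have h1 : (E : Filter (Ultrafilter B → B)) ≤ Filter.pi fun F : Ultrafilter B => (F : Filter B) :=
    Ultrafilter.of_le _
  exact (tendsto_eval_pi (fun F : Ultrafilter B => (F : Filter B)) F).mono_left h1 hA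

end Pool.Agent.V11257.NSA
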