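import Pool.Agent.V11257.Nm11

/-!
# The almost digits of the first sort of the extension
-/

set_option maxHeartbeats 1000000
set_option linter.all false
set_option synthInstance.maxSize 2000

namespace Pool.Agent.V11257N

open FirstOrder FirstOrder.Language
open Pool.Agent.Helper672.ZFA
open Pool.Agent.Helper672.ZFA.H635 (IPerm IsGen NN EqFam CollL nn_ext exists_mk mk_eq_nd)
open Pool.Agent.Helper672.ZFA.H310M
open Pool.Agent.H310

universe u

variable {M : Type u} [L.Structure M] [hM : IsModel M]

/-- The indices of the coordinates up to `n`. -/
noncomputable def cE (n : INat M) : FS M (Xt M) :=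
  ⟨iimage (fun i : INat M => (Sum.inr (cyl i) : Xt M)) (sep M fun i => i ≤ n),
    ((finP_le n).fin (by (repeat' (first | with_reducible exact IntF.id | with_reducible exact IntF.fst' | with_reducible exact IntF.snd' | with_reducible exact IntF.const _ | with_reducible exact Int.const _ | assumption | with_reducible apply Int.and | with_reducible apply Int.or | with_reducible apply Int.not | with_reducible apply Int.imp | with_reducible apply Int.iff | with_reducible apply Int.ne | with_reducible apply Int.eq | with_reducible apply Int.mem | with_reducible apply Int.subset | with_reducible apply Int.ltN | with_reducible apply Int.leN | with_reducible_and_instances apply Int.le | with_reducible_and_instances apply Int.lt | with_reducible apply Int.all | with_reducible apply Int.ex | with_reducible apply IntF.fst | with_reducible apply IntF.snd | with_reducible apply IntF.app | with_reducible apply IntF.inl | with_reducible apply IntF.inr | with_reducible_and_instances apply IntF.mul | with_reducible_and_instances apply IntF.inv | with_reducible_and_instances apply IntF.add | with_reducible_and_instances apply IntF.sub |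 with_reducible_and_instances apply IntF.neg | with_reducible_and_instances apply IntF.smul | with_reducible apply Int.fin | with_reducible apply IntF.sep | with_reducible apply IntF.lam | with_reducible apply IntF.insert | with_reducible apply IntF.singleton | with_reducible apply IntF.union | with_reducible apply IntF.iimage | with_reducible apply IntF.ite | with_reducible apply IntF.the | with_reducible apply IntF.irec | with_reducible apply IntF.succ | with_reducible apply IntF.val | with_reducible apply IntF.mk | (with_reducible refine Int.comp ?_ ?_; assumption) | (with_reducible refine Int.comp₂ ?_ ?_ ?_; assumption) | (with_reducible refine Int.comp₃ ?_ ?_ ?_ ?_; assumption) | (with_reducible refine Int.comp₄ ?_ ?_ ?_ ?_ ?_; assumption) | (with_reducible refine IntF.comp ?_ ?_; assumption) | (with_reducible refine IntF.comp₂ ?_ ?_ ?_; assumption) | (with_reducible refine IntF.comp₃ ?_ ?_ ?_ ?_; assumption) | with_reducible apply IntF.pair)))).image (IntF.inr (int_cyl (M := M)))⟩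

theorem mem_cE {n : INat M} {x : Xt M} : x ∈ (cE n).1 ↔ ∃ i, i ≤ n ∧ x = Sum.inr (cyl i) := by
  have hf : IntF M (fun i : INat M => (Sum.inr (cyl i) : Xt M)) := IntF.inr (int_cyl (M := M))
  have hI : Int M (fun i : INat M => i ≤ n) := by (repeat' (first | with_reducible exact IntF.id | with_reducible exact IntF.fst' | with_reducible exact IntF.snd' | with_reducible exact IntF.const _ | with_reducible exact Int.const _ | assumption | with_reducible apply Int.and | with_reducible apply Int.or | with_reducible apply Int.not | with_reducible apply Int.imp | with_reducible apply Int.iff | with_reducible apply Int.ne | with_reducible apply Int.eq | with_reducible apply Int.mem | with_reducible apply Int.subset | with_reducible apply Int.ltN | with_reducible apply Int.leN | with_reducible_and_instances apply Int.le | with_reducible_and_instances apply Int.lt | with_reducible apply Int.all | with_reducible apply Int.ex | with_reducible apply IntF.fst | with_reducible apply IntF.snd | with_reducible apply IntF.app | with_reducible apply IntF.inl | with_reducible apply IntF.inr | with_reducible_and_instances apply IntF.mul | with_reducible_and_instances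 apply IntF.inv | with_reducible_and_instances apply IntF.add | with_reducible_and_instances apply IntF.sub | with_reducible_and_instances apply IntF.neg | with_reducible_and_instances apply IntF.smul | with_reducible apply Int.fin | with_reducible apply IntF.sep | with_reducible apply IntF.lam | with_reducible apply IntF.insert | with_reducible apply IntF.singleton | with_reducible apply IntF.union | with_reducible apply IntF.iimage | with_reducible apply IntF.ite | with_reducible apply IntF.the | with_reducible apply IntF.irec | with_reducible apply IntF.succ | with_reducible apply IntF.val | with_reducible apply IntF.mk | (with_reducible refine Int.comp ?_ ?_; assumption) | (with_reducible refine Int.comp₂ ?_ ?_ ?_; assumption) | (with_reducible refine Int.comp₃ ?_ ?_ ?_ ?_; assumption) | (with_reducible refine Int.comp₄ ?_ ?_ ?_ ?_ ?_; assumption) | (with_reducible refine IntF.comp ?_ ?_; assumption) | (with_reducible refine IntF.comp₂ ?_ ?_ ?_; assumption) | (with_reducible refine IntF.comp₃ ?_ ?_ ?_ ?_; assumption) | with_reducible apply IntF.pair))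
  refine (mem_iimage hf).trans ?_
  constructor
  · rintro ⟨i, hi, rfl⟩
    exact ⟨i, (mem_sep hI).1 hi, rfl⟩
  · rintro ⟨i, hi, rfl⟩
    exact ⟨i, (mem_sep hI).2 hi, rfl⟩

theorem rE_cE {n : INat M} {a b : Dt M} : rE (cE n) a b ↔ ∀ i, i ≤ n → (i ∈ a.1 ↔ i ∈ b.1) := by
  constructor
  · intro h i hi
    have := rE_part h (mem_cE.2 ⟨i, hi, rfl⟩)
    rwa [mem_cyl, mem_cyl] at this
  · intro h
    refine Or.inr ⟨fun h1 => ?_, fun h1 => ?_, fun B hB => ?_⟩
    · obtain ⟨i, -, h2⟩ := mem_cE.1 h1
      cases h2
    · obtain ⟨i, -, h2⟩ := mem_cE.1 h1
      cases h2
    · obtain ⟨i, hi, h2⟩ := mem_cE.1 hB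
      cases h2
      rw [mem_cyl, mem_cyl]
      exact h i hi

theorem not_fin_cE (n : INat M) (e : Dt M) : ¬ FinP M (fun a => rE (cE n) a e) := by
  intro h
  have hj : IntF M (fun k : INat M => xr e ⟨{n.succ + k}, IFin.singleton _⟩) := by
    refine IntF.comp₂ (p := fun a b : Dt M => xr a b) int_xr (IntF.const _) ?_
    exact IntF.mk (IntF.singleton (by (repeat' (first | with_reducible exact IntF.id | with_reducible exact IntF.fst' | with_reducible exact IntF.snd' | with_reducible exact IntF.const _ | with_reducible exact Int.const _ | assumption | with_reducible apply Int.and | with_reducible apply Int.or | with_reducible apply Int.not | with_reducible apply Int.imp | with_reducible apply Int.iff | with_reducible apply Int.ne | with_reducible apply Int.eq | with_reducible apply Int.mem | with_reducible apply Int.subset | with_reducible apply Int.ltN | with_reducible apply Int.leN | with_reducible_and_instances apply Int.le | with_reducible_and_instances apply Int.lt | with_reducible apply Int.all | with_reducible apply Int.ex | with_reducible apply IntF.fst | with_reducible apply IntF.snd | with_reducible apply IntF.app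 | with_reducible apply IntF.inl | with_reducible apply IntF.inr | with_reducible_and_instances apply IntF.mul | with_reducible_and_instances apply IntF.inv | with_reducible_and_instances apply IntF.add | with_reducible_and_instances apply IntF.sub | with_reducible_and_instances apply IntF.neg | with_reducible_and_instances apply IntF.smul | with_reducible apply Int.fin | with_reducible apply IntF.sep | with_reducible apply IntF.lam | with_reducible apply IntF.insert | with_reducible apply IntF.singleton | with_reducible apply IntF.union | with_reducible apply IntF.iimage | with_reducible apply IntF.ite | with_reducible apply IntF.the | with_reducible apply IntF.irec | with_reducible apply IntF.succ | with_reducible apply IntF.val | with_reducible apply IntF.mk | (with_reducible refine Int.comp ?_ ?_; assumption) | (with_reducible refine Int.comp₂ ?_ ?_ ?_; assumption) | (with_reducible refine Int.comp₃ ?_ ?_ ?_ ?_; assumption) | (with_reducible refine Int.comp₄ ?_ ?_ ?_ ?_ ?_; assumption) | (with_reducible refine IntF.comp ?_ ?_; assumption) | (with_reducible refine IntF.comp₂ ?_ ?_ ?_; assumption) | (with_reducible refine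 IntF.comp₃ ?_ ?_ ?_ ?_; assumption) | with_reducible apply IntF.pair))))
  have h1 : FinP M (fun _ : INat M => True) := by
    refine FinP.of_inj (Int.const _) hj (fun a b _ _ h2 => ?_) h fun k _ => ?_
    · have h3 : ∀ i, i ∈ (xr e ⟨{n.succ + a}, IFin.singleton _⟩).1 ↔
          i ∈ (xr e ⟨{n.succ + b}, IFin.singleton _⟩).1 := fun i => by rw [h2]
      have h4 := h3 (n.succ + a)
      rw [mem_xr, mem_xr] at h4
      have h5 : n.succ + a ∈ (⟨{n.succ + a}, IFin.singleton _⟩ : Dt M).1 := mem_singleton.2 rfl
      have h6 : n.succ + a ∈ (⟨{n.succ + b}, IFin.singleton _⟩ : Dt M).1 := by tauto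
      exact INat.add_left_cancel' (mem_singleton.1 h6)
    · rw [rE_cE]
      intro i hi
      rw [mem_xr]
      have h5 : ¬ i ∈ (⟨{n.succ + k}, IFin.singleton _⟩ : Dt M).1 := by
        intro h6
        rw [mem_singleton.1 h6] at hi
        exact absurd (INat.succ_le_iff.1 ((le_add_r n.succ k).trans hi)) (lt_irrefl n)
      tauto
  obtain ⟨n, hn⟩ := h1.bound
  exact absurd (hn n.succ trivial) (not_le.2 (INat.lt_succ_self n))

variable {G : Set (Co M (Xt M))} (hG : IsGen M G) (hC : CollL M)

/-- The sets of numbers of the model. -/
theorem exists_nnset (e : Dt M) : ∃ t : IPow (Nx hG) (INat (Nx hG)),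
    ∀ i, nnN (ZZ M) hG hC i ∈ t ↔ i ∈ e.1 := by
  obtain ⟨z, hz⟩ := EF.set hG (ef_nn (Z := ZZ M) hG) (Y := fun i => i ∈ e.1) (by (repeat' (first | with_reducible exact IntF.id | with_reducible exact IntF.fst' | with_reducible exact IntF.snd' | with_reducible exact IntF.const _ | with_reducible exact Int.const _ | assumption | with_reducible apply Int.and | with_reducible apply Int.or | with_reducible apply Int.not | with_reducible apply Int.imp | with_reducible apply Int.iff | with_reducible apply Int.ne | with_reducible apply Int.eq | with_reducible apply Int.mem | with_reducible apply Int.subset | with_reducible apply Int.ltN | with_reducible apply Int.leN | with_reducible_and_instances apply Int.le | with_reducible_and_instances apply Int.lt | with_reducible apply Int.all | with_reducible apply Int.ex | with_reducible apply IntF.fst | with_reducible apply IntF.snd | with_reducible apply IntF.app | with_reducible apply IntF.inl | with_reducible apply IntF.inr | with_reducible_and_instances apply IntF.mul | with_reducible_and_instances apply IntF.inv | with_reducible_and_instances apply IntF.add | with_reducible_and_instances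 apply IntF.sub | with_reducible_and_instances apply IntF.neg | with_reducible_and_instances apply IntF.smul | with_reducible apply Int.fin | with_reducible apply IntF.sep | with_reducible apply IntF.lam | with_reducible apply IntF.insert | with_reducible apply IntF.singleton | with_reducible apply IntF.union | with_reducible apply IntF.iimage | with_reducible apply IntF.ite | with_reducible apply IntF.the | with_reducible apply IntF.irec | with_reducible apply IntF.succ | with_reducible apply IntF.val | with_reducible apply IntF.mk | (with_reducible refine Int.comp ?_ ?_; assumption) | (with_reducible refine Int.comp₂ ?_ ?_ ?_; assumption) | (with_reducible refine Int.comp₃ ?_ ?_ ?_ ?_; assumption) | (with_reducible refine Int.comp₄ ?_ ?_ ?_ ?_ ?_; assumption) | (with_reducible refine IntF.comp ?_ ?_; assumption) | (with_reducible refine IntF.comp₂ ?_ ?_ ?_; assumption) | (with_reducible refine IntF.comp₃ ?_ ?_ ?_ ?_; assumption) | with_reducible apply IntF.pair)))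
    (E := fs0 M (Xt M)) fun g hg _ c hc => hc
  have hI : Int (Nx hG) (fun k : INat (Nx hG) => Mem k.val z) := ⟨z, fun _ => Iff.rfl⟩
  refine ⟨sep _ fun k => Mem k.val z, fun i => ?_⟩
  rw [mem_sep hI]
  refine (hz _).trans ⟨?_, fun h => ⟨i, h, rfl⟩⟩
  rintro ⟨c, hc, h⟩
  rw [(nn_inj hG).1 h]
  exact hc

/-- The finite sets of numbers of the extension are in the model. -/
theorem exists_trace (s : IPow (Nx hG) (INat (Nx hG))) (hs : IFin s) :
    ∃ e : Dt M, ∀ i, nnN (ZZ M) hG hC i ∈ s ↔ i ∈ e.1 := by
  obtain ⟨F, hF, hFm⟩ : ∃ F : FS M (INat M) → Nx hG, EF (ZZ M) hG (fun _ e => e) F ∧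
      ∀ e w, Helper672.Plain.Mem w (F e) ↔ ∃ d, d ∈ e.1 ∧ w = nn (ZZ M) hG d := by
    refine EF.sets hG (ef_nn (Z := ZZ M) hG) (R := fun (e : FS M (INat M)) (x : INat M) =>
      x ∈ e.1) (by (repeat' (first | with_reducible exact IntF.id | with_reducible exact IntF.fst' | with_reducible exact IntF.snd' | with_reducible exact IntF.const _ | with_reducible exact Int.const _ | assumption | with_reducible apply Int.and | with_reducible apply Int.or | with_reducible apply Int.not | with_reducible apply Int.imp | with_reducible apply Int.iff | with_reducible apply Int.ne | with_reducible apply Int.eq | with_reducible apply Int.mem | with_reducible apply Int.subset | with_reducible apply Int.ltN | with_reducible apply Int.leN | with_reducible_and_instances apply Int.le | with_reducible_and_instances apply Int.lt | with_reducible apply Int.all | with_reducible apply Int.ex | with_reducible apply IntF.fst | with_reducible apply IntF.snd | with_reducible apply IntF.app | with_reducible apply IntF.inl | with_reducible apply IntF.inr | with_reducible_and_instances apply IntF.mul | with_reducible_and_instances apply IntF.inv | with_reducible_and_instances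 apply IntF.add | with_reducible_and_instances apply IntF.sub | with_reducible_and_instances apply IntF.neg | with_reducible_and_instances apply IntF.smul | with_reducible apply Int.fin | with_reducible apply IntF.sep | with_reducible apply IntF.lam | with_reducible apply IntF.insert | with_reducible apply IntF.singleton | with_reducible apply IntF.union | with_reducible apply IntF.iimage | with_reducible apply IntF.ite | with_reducible apply IntF.the | with_reducible apply IntF.irec | with_reducible apply IntF.succ | with_reducible apply IntF.val | with_reducible apply IntF.mk | (with_reducible refine Int.comp ?_ ?_; assumption) | (with_reducible refine Int.comp₂ ?_ ?_ ?_; assumption) | (with_reducible refine Int.comp₃ ?_ ?_ ?_ ?_; assumption) | (with_reducible refine Int.comp₄ ?_ ?_ ?_ ?_ ?_; assumption) | (with_reducible refine IntF.comp ?_ ?_; assumption) | (with_reducible refine IntF.comp₂ ?_ ?_ ?_; assumption) | (with_reducible refine IntF.comp₃ ?_ ?_ ?_ ?_; assumption) | with_reducible apply IntF.pair))) (a' := fun _ e => e) (fun g hg c d h => h) (fun _ _ => rfl)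
      fun c => ⟨fs0 M (Xt M), fun _ _ _ => rfl⟩
  obtain ⟨z, hz⟩ := EF.set hG hF (Y := fun _ => True) (Int.const _) (E := fs0 M (Xt M))
    fun _ _ _ _ _ => trivial
  have hI : Int (Nx hG) (fun s : IPow (Nx hG) (INat (Nx hG)) => Mem (code s) z) :=
    ⟨z, fun _ => Iff.rfl⟩
  have key : Mem (code s) z := by
    refine IFin.ind (p := fun s : IPow (Nx hG) (INat (Nx hG)) => Mem (code s) z) hI ?_ ?_ s hs
    · refine (hz _).2 ⟨⟨∅, IFin.empty⟩, trivial, nn_ext hG fun w => ?_⟩
      rw [hFm]
      refine (mem_code_pow (M := Nx hG)).trans ?_
      constructor
      · rintro ⟨a, ha, -⟩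
        exact absurd ha (by simp)
      · rintro ⟨a, ha, -⟩
        exact absurd ha (by simp)
    · intro s x _ _ h
      obtain ⟨e, -, he⟩ := (hz _).1 h
      obtain ⟨k, rfl⟩ := nnN_surj hG hC x
      refine (hz _).2 ⟨⟨insert k e.1, e.2.insert k⟩, trivial, nn_ext hG fun w => ?_⟩
      rw [hFm]
      have h1 : ∀ w, Helper672.Plain.Mem w (code (M := Nx hG) s) ↔
          ∃ d, d ∈ e.1 ∧ w = nn (ZZ M) hG d := fun w => by
        have he' : code (M := Nx hG) s = F e := he
        rw [he', hFm]
      have h2 : ∀ w, Helper672.Plain.Mem w (code (M := Nx hG) s) ↔
          ∃ a, a ∈ s ∧ code a = w := fun w => mem_code_pow (M := Nx hG)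
      refine (mem_code_pow (M := Nx hG)).trans ?_
      constructor
      · rintro ⟨a, ha, rfl⟩
        rcases mem_insert.1 ha with rfl | ha
        · exact ⟨k, mem_insert.2 (Or.inl rfl), rfl⟩
        · obtain ⟨d, hd, h3⟩ := (h1 _).1 ((h2 _).2 ⟨a, ha, rfl⟩)
          exact ⟨d, mem_insert.2 (Or.inr hd), h3⟩
      · rintro ⟨d, hd, rfl⟩
        rcases mem_insert.1 hd with rfl | hd
        · exact ⟨nnN (ZZ M) hG hC d, mem_insert.2 (Or.inl rfl), rfl⟩
        · obtain ⟨a, ha, h3⟩ := (h2 _).1 ((h1 _).2 ⟨d, hd, rfl⟩)
          exact ⟨a, mem_insert.2 (Or.inr ha), h3⟩
  obtain ⟨e, -, he⟩ := (hz _).1 key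
  have he' : code (M := Nx hG) s = F e := he
  refine ⟨e, fun i => ?_⟩
  have h2 : ∀ w, Helper672.Plain.Mem w (code (M := Nx hG) s) ↔
      ∃ a, a ∈ s ∧ code a = w := fun w => mem_code_pow (M := Nx hG)
  constructor
  · intro h
    have h3 := (h2 _).2 ⟨_, h, rfl⟩
    rw [he', hFm] at h3
    obtain ⟨d, hd, h4⟩ := h3
    have h5 : i = d := (nn_inj hG).1 h4
    rw [h5]
    exact hd
  · intro h
    have h3 : Helper672.Plain.Mem (nn (ZZ M) hG i) (code (M := Nx hG) s) := by
      rw [he', hFm]
      exact ⟨i, h, rfl⟩
    obtain ⟨a, ha, h4⟩ := (h2 _).1 h3
    have h5 : a = nnN (ZZ M) hG hC i := ITy.inj (M := Nx hG) h4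
    rwa [h5] at ha

/-- The sequence of the coordinates up to `n`. -/
theorem exists_cseq (n : INat M) : ∃ c : INat (Nx hG) × El (AY hG) → Prop, Int (Nx hG) c ∧
    ∀ i B, c (nnN (ZZ M) hG hC i, yA hG B) ↔ i ≤ n ∧ B = cyl i := by
  have hc := int_cyl (M := M)
  have hf : EF (ZZ M) hG (fun g (q : INat M × Xt M) => (q.1, g.1.1 q.2))
      (fun q => op (nn (ZZ M) hG q.1) (cc (ZZ M) hG q.2)) := by
    refine EF.op hG (fun g b => ?_) ?_ ?_
    · exact Prod.ext rfl (g.2.2 _)
    · exact EF.comp hG (ef_nn hG) (φ := fun q : INat M × Xt M => q.1) IntF.fst' fun _ _ => rfl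
    · exact EF.comp hG (ef_cc hG) (φ := fun q : INat M × Xt M => q.2) IntF.snd' fun _ _ => rfl
  obtain ⟨z, hz⟩ := EF.set hG hf (Y := fun q => q.1 ≤ n ∧ q.2 = Sum.inr (cyl q.1))
    (Int.and (by (repeat' (first | with_reducible exact IntF.id | with_reducible exact IntF.fst' | with_reducible exact IntF.snd' | with_reducible exact IntF.const _ | with_reducible exact Int.const _ | assumption | with_reducible apply Int.and | with_reducible apply Int.or | with_reducible apply Int.not | with_reducible apply Int.imp | with_reducible apply Int.iff | with_reducible apply Int.ne | with_reducible apply Int.eq | with_reducible apply Int.mem | with_reducible apply Int.subset | with_reducible apply Int.ltN | with_reducible apply Int.leN | with_reducible_and_instances apply Int.le | with_reducible_and_instances apply Int.lt | with_reducible apply Int.all | with_reducible apply Int.ex | with_reducible apply IntF.fst | with_reducible apply IntF.snd | with_reducible apply IntF.app | with_reducible apply IntF.inl | with_reducible apply IntF.inr | with_reducible_and_instances apply IntF.mul | with_reducible_and_instances apply IntF.inv | with_reducible_and_instances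 apply IntF.add | with_reducible_and_instances apply IntF.sub | with_reducible_and_instances apply IntF.neg | with_reducible_and_instances apply IntF.smul | with_reducible apply Int.fin | with_reducible apply IntF.sep | with_reducible apply IntF.lam | with_reducible apply IntF.insert | with_reducible apply IntF.singleton | with_reducible apply IntF.union | with_reducible apply IntF.iimage | with_reducible apply IntF.ite | with_reducible apply IntF.the | with_reducible apply IntF.irec | with_reducible apply IntF.succ | with_reducible apply IntF.val | with_reducible apply IntF.mk | (with_reducible refine Int.comp ?_ ?_; assumption) | (with_reducible refine Int.comp₂ ?_ ?_ ?_; assumption) | (with_reducible refine Int.comp₃ ?_ ?_ ?_ ?_; assumption) | (with_reducible refine Int.comp₄ ?_ ?_ ?_ ?_ ?_; assumption) | (with_reducible refine IntF.comp ?_ ?_; assumption) | (with_reducible refine IntF.comp₂ ?_ ?_ ?_; assumption) | (with_reducible refine IntF.comp₃ ?_ ?_ ?_ ?_; assumption) | with_reducible apply IntF.pair))) (Int.eq IntF.snd' (IntF.inr (hc.comp IntF.fst')))) (E := cE n) (by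
      rintro g hg hgE c ⟨h1, h2⟩
      refine ⟨h1, ?_⟩
      change g.1.1 c.2 = _
      rw [h2]
      exact hgE _ (mem_cE.2 ⟨_, h1, rfl⟩))
  refine ⟨fun q => Mem (op q.1.val q.2.1) z, ⟨z, fun _ => Iff.rfl⟩, fun i B => ?_⟩
  refine (hz _).trans ⟨?_, fun h => ⟨(i, Sum.inr (cyl i)), ⟨h.1, rfl⟩, by rw [h.2]; rfl⟩⟩
  rintro ⟨⟨k, y⟩, ⟨h1, h2⟩, h3⟩
  obtain ⟨h4, h5⟩ := op_inj h3
  have h6 : i = k := (nn_inj hG).1 h4
  have h7 := (cc_inj hG).1 h5
  change y = Sum.inr (cyl k) at h2
  rw [h2] at h7
  subst h6
  exact ⟨h1, Sum.inr.inj h7⟩

/-- The almost digits. -/
theorem exists_dig : ∃ (mem : El (AD hG) × El (AY hG) → Prop)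
    (V : INat (Nx hG) × IPow (Nx hG) (El (AD hG)) → Prop), Int (Nx hG) mem ∧ Int (Nx hG) V ∧
    (∀ a B, mem (dA hG a, yA hG B) ↔ a ∈ B.1) ∧
    ∀ i U, V (nnN (ZZ M) hG hC i, U) ↔ ∃ B : Yt M, idx B.1 i ∧ ∀ a, dA hG a ∈ U ↔ a ∈ B.1 := by
  obtain ⟨mem, hmem, hmem'⟩ := exists_mem hG
  obtain ⟨idx', hidx, hidx'⟩ := exists_idx hG hC
  refine ⟨mem, fun q => ∃ b, idx' (b, q.1) ∧ ∀ x, x ∈ q.2 ↔ mem (x, b), hmem, by (repeat' (first | with_reducible exact IntF.id | with_reducible exact IntF.fst' | with_reducible exact IntF.snd' | with_reducible exact IntF.const _ | with_reducible exact Int.const _ | assumption | with_reducible apply Int.and | with_reducible apply Int.or | with_reducible apply Int.not | with_reducible apply Int.imp | with_reducible apply Int.iff | with_reducible apply Int.ne | with_reducible apply Int.eq | with_reducible apply Int.mem | with_reducible apply Int.subset | with_reducible apply Int.ltN | with_reducible apply Int.leN | with_reducible_and_instances apply Int.le | with_reducible_and_instances apply Int.lt | with_reducible apply Int.all | with_reducible apply Int.ex | with_reducible apply IntF.fst | with_reducible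 apply IntF.snd | with_reducible apply IntF.app | with_reducible apply IntF.inl | with_reducible apply IntF.inr | with_reducible_and_instances apply IntF.mul | with_reducible_and_instances apply IntF.inv | with_reducible_and_instances apply IntF.add | with_reducible_and_instances apply IntF.sub | with_reducible_and_instances apply IntF.neg | with_reducible_and_instances apply IntF.smul | with_reducible apply Int.fin | with_reducible apply IntF.sep | with_reducible apply IntF.lam | with_reducible apply IntF.insert | with_reducible apply IntF.singleton | with_reducible apply IntF.union | with_reducible apply IntF.iimage | with_reducible apply IntF.ite | with_reducible apply IntF.the | with_reducible apply IntF.irec | with_reducible apply IntF.succ | with_reducible apply IntF.val | with_reducible apply IntF.mk | (with_reducible refine Int.comp ?_ ?_; assumption) | (with_reducible refine Int.comp₂ ?_ ?_ ?_; assumption) | (with_reducible refine Int.comp₃ ?_ ?_ ?_ ?_; assumption) | (with_reducible refine Int.comp₄ ?_ ?_ ?_ ?_ ?_; assumption) | (with_reducible refine IntF.comp ?_ ?_; assumption) | (with_reducible refine IntF.comp₂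 ?_ ?_ ?_; assumption) | (with_reducible refine IntF.comp₃ ?_ ?_ ?_ ?_; assumption) | with_reducible apply IntF.pair)), hmem',
    fun i U => ?_⟩
  constructor
  · rintro ⟨b, h1, h2⟩
    obtain ⟨B, rfl⟩ := yA_surj hG b
    exact ⟨B, (hidx' _ _).1 h1, fun a => (h2 _).trans (hmem' _ _)⟩
  · rintro ⟨B, h1, h2⟩
    refine ⟨yA hG B, (hidx' _ _).2 h1, fun x => ?_⟩
    obtain ⟨a, rfl⟩ := dA_surj hG x
    exact (h2 _).trans (hmem' _ _).symm

end Pool.Agent.V11257N
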