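import Pool.Agent.V11257.Nm12

/-!
# The first sort of the extension has almost digits, and its infinite subsets contain cells
-/

set_option maxHeartbeats 1000000
set_option linter.all false
set_option synthInstance.maxSize 2000

namespace Pool.Agent.V11257N

open FirstOrder FirstOrder.Language
open Pool.Agent.Helper672.ZFA
open Pool.Agent.Helper672.ZFA.H635 (IPerm IsGen NN EqFam CollL nn_ext exists_mk mk_eq_nd)
open Pool.Agent.Helper672.ZFA.H310M
open Pool.Agent.H310

universe u

variable {M : Type u} [L.Structure M] [hM : IsModel M]
variable {G : Set (Co M (Xt M))} (hG : IsGen M G) (hC : CollL M)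

section

variable {mem : El (AD hG) × El (AY hG) → Prop}
  {V : INat (Nx hG) × IPow (Nx hG) (El (AD hG)) → Prop} (hmemI : Int (Nx hG) mem)
  (hVI : Int (Nx hG) V) (hmem : ∀ a B, mem (dA hG a, yA hG B) ↔ a ∈ B.1)
  (hV : ∀ i U, V (nnN (ZZ M) hG hC i, U) ↔
    ∃ B : Yt M, idx B.1 i ∧ ∀ a, dA hG a ∈ U ↔ a ∈ B.1)

include hmemI hmem hV

/-- The coordinates. -/
theorem V_cyl (i : INat M) : V (nnN (ZZ M) hG hC i, sep _ fun x => mem (x, yA hG (cyl i))) := by
  have hI : Int (Nx hG) (fun x => mem (x, yA hG (cyl i))) := by (repeat' (first | with_reducible exact IntF.id | with_reducible exact IntF.fst' | with_reducible exact IntF.snd' | with_reducible exact IntF.const _ | with_reducible exact Int.const _ | assumption | with_reducible apply Int.and | with_reducible apply Int.or | with_reducible apply Int.not | with_reducible apply Int.imp | with_reducible apply Int.iff | with_reducible apply Int.ne | with_reducible apply Int.eq | with_reducible apply Int.mem | with_reducible apply Int.subset | with_reducible apply Int.ltN | with_reducible apply Int.leN | with_reducible_and_instances apply Int.le | with_reducible_and_instances apply Int.lt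 | with_reducible apply Int.all | with_reducible apply Int.ex | with_reducible apply IntF.fst | with_reducible apply IntF.snd | with_reducible apply IntF.app | with_reducible apply IntF.inl | with_reducible apply IntF.inr | with_reducible_and_instances apply IntF.mul | with_reducible_and_instances apply IntF.inv | with_reducible_and_instances apply IntF.add | with_reducible_and_instances apply IntF.sub | with_reducible_and_instances apply IntF.neg | with_reducible_and_instances apply IntF.smul | with_reducible apply Int.fin | with_reducible apply IntF.sep | with_reducible apply IntF.lam | with_reducible apply IntF.insert | with_reducible apply IntF.singleton | with_reducible apply IntF.union | with_reducible apply IntF.iimage | with_reducible apply IntF.ite | with_reducible apply IntF.the | with_reducible apply IntF.irec | with_reducible apply IntF.succ | with_reducible apply IntF.val | with_reducible apply IntF.mk | (with_reducible refine Int.comp ?_ ?_; assumption) | (with_reducible refine Int.comp₂ ?_ ?_ ?_; assumption) | (with_reducible refine Int.comp₃ ?_ ?_ ?_ ?_; assumption) | (with_reducible refine Int.comp₄ ?_ ?_ ?_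 ?_ ?_; assumption) | (with_reducible refine IntF.comp ?_ ?_; assumption) | (with_reducible refine IntF.comp₂ ?_ ?_ ?_; assumption) | (with_reducible refine IntF.comp₃ ?_ ?_ ?_ ?_; assumption) | with_reducible apply IntF.pair))
  refine (hV _ _).2 ⟨cyl i, idx_iff.2 ⟨∅, IFin.empty, fun a ha => absurd mem_cyl ha⟩, fun a => ?_⟩
  rw [mem_sep hI, hmem]

/-- The cells. -/
theorem exists_Z (n : INat M) (e : Dt M) : ∃ Z : IPow (Nx hG) (El (AD hG)),
    (∀ a, dA hG a ∈ Z ↔ rE (cE n) a e) ∧
    ∀ t : IPow (Nx hG) (INat (Nx hG)), (∀ i, i ≤ n → (nnN (ZZ M) hG hC i ∈ t ↔ i ∈ e.1)) →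
      Dv V ((nnN (ZZ M) hG hC n.succ, t), Z) := by
  obtain ⟨r, hr, hr'⟩ := exists_r hG (cE n)
  obtain ⟨c, hc, hc'⟩ := exists_cseq hG hC n
  have hZI : Int (Nx hG) (fun x => r (x, dA hG e)) := by (repeat' (first | with_reducible exact IntF.id | with_reducible exact IntF.fst' | with_reducible exact IntF.snd' | with_reducible exact IntF.const _ | with_reducible exact Int.const _ | assumption | with_reducible apply Int.and | with_reducible apply Int.or | with_reducible apply Int.not | with_reducible apply Int.imp | with_reducible apply Int.iff | with_reducible apply Int.ne | with_reducible apply Int.eq | with_reducible apply Int.mem | with_reducible apply Int.subset | with_reducible apply Int.ltN | with_reducible apply Int.leN | with_reducible_and_instances apply Int.le | with_reducible_and_instances apply Int.lt | with_reducible apply Int.all | with_reducible apply Int.ex | with_reducible apply IntF.fst | with_reducible apply IntF.snd | with_reducible apply IntF.app | with_reducible apply IntF.inl | with_reducible apply IntF.inr | with_reducible_and_instances apply IntF.mul | with_reducible_and_instances apply IntF.inv | with_reducible_and_instances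 apply IntF.add | with_reducible_and_instances apply IntF.sub | with_reducible_and_instances apply IntF.neg | with_reducible_and_instances apply IntF.smul | with_reducible apply Int.fin | with_reducible apply IntF.sep | with_reducible apply IntF.lam | with_reducible apply IntF.insert | with_reducible apply IntF.singleton | with_reducible apply IntF.union | with_reducible apply IntF.iimage | with_reducible apply IntF.ite | with_reducible apply IntF.the | with_reducible apply IntF.irec | with_reducible apply IntF.succ | with_reducible apply IntF.val | with_reducible apply IntF.mk | (with_reducible refine Int.comp ?_ ?_; assumption) | (with_reducible refine Int.comp₂ ?_ ?_ ?_; assumption) | (with_reducible refine Int.comp₃ ?_ ?_ ?_ ?_; assumption) | (with_reducible refine Int.comp₄ ?_ ?_ ?_ ?_ ?_; assumption) | (with_reducible refine IntF.comp ?_ ?_; assumption) | (with_reducible refine IntF.comp₂ ?_ ?_ ?_; assumption) | (with_reducible refine IntF.comp₃ ?_ ?_ ?_ ?_; assumption) | with_reducible apply IntF.pair))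
  have hZ : ∀ a, dA hG a ∈ (sep (Nx hG) fun x => r (x, dA hG e)) ↔ rE (cE n) a e := fun a => by
    rw [mem_sep hZI, hr']
  refine ⟨_, hZ, fun t ht => ⟨fun j B hj hB => ?_, fun U hU => ?_⟩⟩
  · obtain ⟨j, rfl⟩ := nnN_surj hG hC j
    have hj' : j ≤ n := INat.lt_succ_iff.1 ((nnN_lt hG hC).1 hj)
    obtain ⟨B', h1, h2⟩ := (hV _ _).1 hB
    have hI : Int M (fun a : Dt M => ¬ (a ∈ B'.1 ↔ j ∈ a.1)) :=
      Helper672.ZFA.Int.not (Int.iff (Int.mem IntF.id (IntF.const _))
        (Int.mem (IntF.const _) (IntF.val IntF.id)))
    obtain ⟨Y, hY, h3⟩ := finN hG hC hI (idx_iff.1 h1)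
    refine ⟨fun h4 => hY.subset fun x hx => ?_, fun h4 => hY.subset fun x hx => ?_⟩
    · obtain ⟨a, rfl⟩ := dA_surj hG x
      have hx' := mem_sdiff.1 hx
      rw [hZ, h2] at hx'
      refine h3 _ ⟨a, rfl, fun h5 => hx'.2 (h5.2 ?_)⟩
      exact ((rE_cE.1 hx'.1) j hj').2 ((ht j hj').1 h4)
    · obtain ⟨a, rfl⟩ := dA_surj hG x
      have hx' := mem_inter.1 hx
      rw [hZ, h2] at hx'
      refine h3 _ ⟨a, rfl, fun h5 => h4 ((ht j hj').2 ?_)⟩
      exact ((rE_cE.1 hx'.1) j hj').1 (h5.1 hx'.2)
  · have hR : Int (Nx hG) (fun q : INat (Nx hG) × El (AD hG) => q.2 ∈ U ∧ ∃ b, c (q.1, b) ∧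
        ¬ (mem (q.2, b) ↔ q.1 ∈ t)) := by (repeat' (first | with_reducible exact IntF.id | with_reducible exact IntF.fst' | with_reducible exact IntF.snd' | with_reducible exact IntF.const _ | with_reducible exact Int.const _ | assumption | with_reducible apply Int.and | with_reducible apply Int.or | with_reducible apply Int.not | with_reducible apply Int.imp | with_reducible apply Int.iff | with_reducible apply Int.ne | with_reducible apply Int.eq | with_reducible apply Int.mem | with_reducible apply Int.subset | with_reducible apply Int.ltN | with_reducible apply Int.leN | with_reducible_and_instances apply Int.le | with_reducible_and_instances apply Int.lt | with_reducible apply Int.all | with_reducible apply Int.ex | with_reducible apply IntF.fst | with_reducible apply IntF.snd | with_reducible apply IntF.app | with_reducible apply IntF.inl | with_reducible apply IntF.inr | with_reducible_and_instances apply IntF.mul | with_reducible_and_instances apply IntF.inv | with_reducible_and_instances apply IntF.add | with_reducible_and_instances apply IntF.sub | with_reducible_and_instances apply IntF.neg | with_reducible_and_instances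 apply IntF.smul | with_reducible apply Int.fin | with_reducible apply IntF.sep | with_reducible apply IntF.lam | with_reducible apply IntF.insert | with_reducible apply IntF.singleton | with_reducible apply IntF.union | with_reducible apply IntF.iimage | with_reducible apply IntF.ite | with_reducible apply IntF.the | with_reducible apply IntF.irec | with_reducible apply IntF.succ | with_reducible apply IntF.val | with_reducible apply IntF.mk | (with_reducible refine Int.comp ?_ ?_; assumption) | (with_reducible refine Int.comp₂ ?_ ?_ ?_; assumption) | (with_reducible refine Int.comp₃ ?_ ?_ ?_ ?_; assumption) | (with_reducible refine Int.comp₄ ?_ ?_ ?_ ?_ ?_; assumption) | (with_reducible refine IntF.comp ?_ ?_; assumption) | (with_reducible refine IntF.comp₂ ?_ ?_ ?_; assumption) | (with_reducible refine IntF.comp₃ ?_ ?_ ?_ ?_; assumption) | with_reducible apply IntF.pair))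
    have h1 : FinP (Nx hG) (fun x : El (AD hG) => ∃ j, j < nnN (ZZ M) hG hC n.succ ∧
        (x ∈ U ∧ ∃ b, c (j, b) ∧ ¬ (mem (x, b) ↔ j ∈ t))) := by
      refine FinP.bUnion (P := fun j => j < nnN (ZZ M) hG hC n.succ)
        (R := fun q : INat (Nx hG) × El (AD hG) => q.2 ∈ U ∧ ∃ b, c (q.1, b) ∧
          ¬ (mem (q.2, b) ↔ q.1 ∈ t)) (finP_lt _) (by (repeat' (first | with_reducible exact IntF.id | with_reducible exact IntF.fst' | with_reducible exact IntF.snd' | with_reducible exact IntF.const _ | with_reducible exact Int.const _ | assumption | with_reducible apply Int.and | with_reducible apply Int.or | with_reducible apply Int.not | with_reducible apply Int.imp | with_reducible apply Int.iff | with_reducible apply Int.ne | with_reducible apply Int.eq | with_reducible apply Int.mem | with_reducible apply Int.subset | with_reducible apply Int.ltN | with_reducible apply Int.leN | with_reducible_and_instances apply Int.le | with_reducible_and_instances apply Int.lt | with_reducible apply Int.all | with_reducible apply Int.ex | with_reducible apply IntF.fst | with_reducible apply IntF.snd | with_reducible apply IntF.app | with_reducible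 apply IntF.inl | with_reducible apply IntF.inr | with_reducible_and_instances apply IntF.mul | with_reducible_and_instances apply IntF.inv | with_reducible_and_instances apply IntF.add | with_reducible_and_instances apply IntF.sub | with_reducible_and_instances apply IntF.neg | with_reducible_and_instances apply IntF.smul | with_reducible apply Int.fin | with_reducible apply IntF.sep | with_reducible apply IntF.lam | with_reducible apply IntF.insert | with_reducible apply IntF.singleton | with_reducible apply IntF.union | with_reducible apply IntF.iimage | with_reducible apply IntF.ite | with_reducible apply IntF.the | with_reducible apply IntF.irec | with_reducible apply IntF.succ | with_reducible apply IntF.val | with_reducible apply IntF.mk | (with_reducible refine Int.comp ?_ ?_; assumption) | (with_reducible refine Int.comp₂ ?_ ?_ ?_; assumption) | (with_reducible refine Int.comp₃ ?_ ?_ ?_ ?_; assumption) | (with_reducible refine Int.comp₄ ?_ ?_ ?_ ?_ ?_; assumption) | (with_reducible refine IntF.comp ?_ ?_; assumption) | (with_reducible refine IntF.comp₂ ?_ ?_ ?_; assumption) | (with_reducible refine IntF.comp₃ ?_ ?_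 ?_ ?_; assumption) | with_reducible apply IntF.pair))) hR fun j hj => ?_
      obtain ⟨j, rfl⟩ := nnN_surj hG hC j
      have hcI : Int (Nx hG) (fun x => mem (x, yA hG (cyl j))) := by (repeat' (first | with_reducible exact IntF.id | with_reducible exact IntF.fst' | with_reducible exact IntF.snd' | with_reducible exact IntF.const _ | with_reducible exact Int.const _ | assumption | with_reducible apply Int.and | with_reducible apply Int.or | with_reducible apply Int.not | with_reducible apply Int.imp | with_reducible apply Int.iff | with_reducible apply Int.ne | with_reducible apply Int.eq | with_reducible apply Int.mem | with_reducible apply Int.subset | with_reducible apply Int.ltN | with_reducible apply Int.leN | with_reducible_and_instances apply Int.le | with_reducible_and_instances apply Int.lt | with_reducible apply Int.all | with_reducible apply Int.ex | with_reducible apply IntF.fst | with_reducible apply IntF.snd | with_reducible apply IntF.app | with_reducible apply IntF.inl | with_reducible apply IntF.inr | with_reducible_and_instances apply IntF.mul | with_reducible_and_instances apply IntF.inv | with_reducible_and_instances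 apply IntF.add | with_reducible_and_instances apply IntF.sub | with_reducible_and_instances apply IntF.neg | with_reducible_and_instances apply IntF.smul | with_reducible apply Int.fin | with_reducible apply IntF.sep | with_reducible apply IntF.lam | with_reducible apply IntF.insert | with_reducible apply IntF.singleton | with_reducible apply IntF.union | with_reducible apply IntF.iimage | with_reducible apply IntF.ite | with_reducible apply IntF.the | with_reducible apply IntF.irec | with_reducible apply IntF.succ | with_reducible apply IntF.val | with_reducible apply IntF.mk | (with_reducible refine Int.comp ?_ ?_; assumption) | (with_reducible refine Int.comp₂ ?_ ?_ ?_; assumption) | (with_reducible refine Int.comp₃ ?_ ?_ ?_ ?_; assumption) | (with_reducible refine Int.comp₄ ?_ ?_ ?_ ?_ ?_; assumption) | (with_reducible refine IntF.comp ?_ ?_; assumption) | (with_reducible refine IntF.comp₂ ?_ ?_ ?_; assumption) | (with_reducible refine IntF.comp₃ ?_ ?_ ?_ ?_; assumption) | with_reducible apply IntF.pair))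
      obtain ⟨h2, h3⟩ := hU _ _ hj (V_cyl hG hC hmemI hmem hV j)
      have key : ∀ x, (x ∈ U ∧ ∃ b, c (nnN (ZZ M) hG hC j, b) ∧
          ¬ (mem (x, b) ↔ nnN (ZZ M) hG hC j ∈ t)) → x ∈ U ∧
            ¬ (mem (x, yA hG (cyl j)) ↔ nnN (ZZ M) hG hC j ∈ t) := by
        rintro x ⟨h4, b, h5, h6⟩
        obtain ⟨B, rfl⟩ := yA_surj hG b
        rw [((hc' _ _).1 h5).2] at h6
        exact ⟨h4, h6⟩
      by_cases hjt : nnN (ZZ M) hG hC j ∈ t
      · refine ⟨_, h2 hjt, fun x hx => ?_⟩
        obtain ⟨h4, h5⟩ := key x hx
        rw [mem_sdiff, mem_sep hcI]
        tauto
      · refine ⟨_, h3 hjt, fun x hx => ?_⟩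
        obtain ⟨h4, h5⟩ := key x hx
        rw [mem_inter, mem_sep hcI]
        tauto
    obtain ⟨Y, hY, h2⟩ := h1
    refine hY.subset fun x hx => ?_
    obtain ⟨a, rfl⟩ := dA_surj hG x
    have hx' := mem_sdiff.1 hx
    rw [hZ, rE_cE] at hx'
    obtain ⟨h3, h4⟩ := hx'
    push Not at h4
    obtain ⟨i, hi, h5⟩ := h4
    have h5' : ¬ (i ∈ a.1 ↔ i ∈ e.1) := by tauto
    refine h2 _ ⟨nnN (ZZ M) hG hC i, (nnN_lt hG hC).2 (INat.lt_succ_iff.2 hi), h3,
      yA hG (cyl i), (hc' _ _).2 ⟨hi, rfl⟩, ?_⟩
    rw [hmem, mem_cyl, ht i hi]
    exact h5'

include hVI

theorem ads_AD : ADS (Nx hG) (El (AD hG)) V := by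
  refine ⟨hVI, fun j => ?_, fun j B B' h1 h2 => ?_, fun n t U hU hUf => ?_⟩
  · obtain ⟨j, rfl⟩ := nnN_surj hG hC j
    exact ⟨_, V_cyl hG hC hmemI hmem hV j⟩
  · obtain ⟨j, rfl⟩ := nnN_surj hG hC j
    obtain ⟨C, h3, h4⟩ := (hV _ _).1 h1
    obtain ⟨C', h5, h6⟩ := (hV _ _).1 h2
    have hI : Int M (fun a : Dt M => ¬ (a ∈ C.1 ↔ a ∈ C'.1)) :=
      Helper672.ZFA.Int.not (Int.iff (Int.mem IntF.id (IntF.const _))
        (Int.mem IntF.id (IntF.const _)))
    obtain ⟨Y, hY, h7⟩ := finN hG hC hI (((idx_iff.1 h3).or (idx_iff.1 h5)).mono
      fun a ha => by tauto)
    refine hY.subset fun x hx => ?_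
    obtain ⟨a, rfl⟩ := dA_surj hG x
    have hx' := mem_sdiff.1 hx
    rw [h4, h6] at hx'
    exact h7 _ ⟨a, rfl, fun h8 => hx'.2 (h8.1 hx'.1)⟩
  · obtain ⟨n, rfl⟩ := nnN_surj hG hC n
    have hI : Int (Nx hG) (fun j : INat (Nx hG) => j < nnN (ZZ M) hG hC n.succ ∧ j ∈ t) := by (repeat' (first | with_reducible exact IntF.id | with_reducible exact IntF.fst' | with_reducible exact IntF.snd' | with_reducible exact IntF.const _ | with_reducible exact Int.const _ | assumption | with_reducible apply Int.and | with_reducible apply Int.or | with_reducible apply Int.not | with_reducible apply Int.imp | with_reducible apply Int.iff | with_reducible apply Int.ne | with_reducible apply Int.eq | with_reducible apply Int.mem | with_reducible apply Int.subset | with_reducible apply Int.ltN | with_reducible apply Int.leN | with_reducible_and_instances apply Int.le | with_reducible_and_instances apply Int.lt | with_reducible apply Int.all | with_reducible apply Int.ex | with_reducible apply IntF.fst | with_reducible apply IntF.snd | with_reducible apply IntF.app | with_reducible apply IntF.inl | with_reducible apply IntF.inr | with_reducible_and_instances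 apply IntF.mul | with_reducible_and_instances apply IntF.inv | with_reducible_and_instances apply IntF.add | with_reducible_and_instances apply IntF.sub | with_reducible_and_instances apply IntF.neg | with_reducible_and_instances apply IntF.smul | with_reducible apply Int.fin | with_reducible apply IntF.sep | with_reducible apply IntF.lam | with_reducible apply IntF.insert | with_reducible apply IntF.singleton | with_reducible apply IntF.union | with_reducible apply IntF.iimage | with_reducible apply IntF.ite | with_reducible apply IntF.the | with_reducible apply IntF.irec | with_reducible apply IntF.succ | with_reducible apply IntF.val | with_reducible apply IntF.mk | (with_reducible refine Int.comp ?_ ?_; assumption) | (with_reducible refine Int.comp₂ ?_ ?_ ?_; assumption) | (with_reducible refine Int.comp₃ ?_ ?_ ?_ ?_; assumption) | (with_reducible refine Int.comp₄ ?_ ?_ ?_ ?_ ?_; assumption) | (with_reducible refine IntF.comp ?_ ?_; assumption) | (with_reducible refine IntF.comp₂ ?_ ?_ ?_; assumption) | (with_reducible refine IntF.comp₃ ?_ ?_ ?_ ?_; assumption) | with_reducible apply IntF.pair))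
    obtain ⟨e, he⟩ := exists_trace hG hC (sep _ fun j => j < nnN (ZZ M) hG hC n.succ ∧ j ∈ t)
      (((finP_lt (nnN (ZZ M) hG hC n.succ)).mono fun j hj => hj.1).fin hI)
    obtain ⟨Z, h1, h2⟩ := exists_Z hG hC hmemI hmem hV n e
    have h3 := h2 t fun i hi => by
      rw [← he, mem_sep hI]
      exact ⟨fun h => ⟨(nnN_lt hG hC).2 (INat.lt_succ_iff.2 hi), h⟩, fun h => h.2⟩
    have h4 := hU.2 Z (h3.1.mono fun j hj => ⟨hj.trans ((nnN_lt hG hC).2 (INat.lt_succ_self n)),
      Iff.rfl⟩)
    have h5 : IFin Z := (h4.union hUf).subset fun x hx => by
      rw [mem_union, mem_sdiff]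
      by_cases h6 : x ∈ U
      · exact Or.inr h6
      · exact Or.inl ⟨hx, h6⟩
    refine not_fin_cE n e (fin_back hG hC ?_ ⟨Z, h5, ?_⟩)
    · exact Int.comp₃ (p := fun (E : FS M (Xt M)) (a b : Dt M) => rE E a b) int_rE
        (IntF.const _) IntF.id (IntF.const e)
    · rintro x ⟨a, rfl, h6⟩
      exact (h1 a).2 h6

theorem cel_AD : Cel (El (AD hG)) V := by
  intro K hK hKi
  have hKI := hK
  obtain ⟨z, hz⟩ := hK
  obtain ⟨E, hE⟩ := support hG z
  obtain ⟨N', -, hN'⟩ := exists_Bd E 0
  obtain ⟨Ex, hEx, hExf, hdet⟩ := hN'.det
  have hinv : ∀ a b, rE E a b → K (dA hG a) → K (dA hG b) := by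
    intro a b hab h
    obtain ⟨g, hg, hgE, hgb, -⟩ := exists_tr hab
    have h1 : Mem (cc (ZZ M) hG (Sum.inl a)) z := (hz (dA hG a)).2 h
    have h2 : Mem (cc (ZZ M) hG (g.1.1 (Sum.inl a))) z :=
      hE _ _ _ _ (ef_cc hG) g hg hgE (Sum.inl a) h1
    rw [hgb] at h2
    exact (hz (dA hG b)).1 h2
  obtain ⟨e, h1, h2⟩ : ∃ e, ¬ Ex e ∧ K (dA hG e) := by
    by_contra hc
    push Not at hc
    refine hKi ((finN hG hC hEx hExf).mono fun x hx => ?_)
    obtain ⟨a, rfl⟩ := dA_surj hG x
    refine ⟨a, rfl, ?_⟩
    by_contra h3
    exact hc a h3 hx
  obtain ⟨Z, h3, h4⟩ := exists_Z hG hC hmemI hmem hV N' e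
  obtain ⟨t, ht⟩ := exists_nnset hG hC e
  refine ⟨_, t, Z, h4 t fun i _ => ht i, (finN hG hC hEx hExf).mono fun x hx => ?_⟩
  obtain ⟨a, rfl⟩ := dA_surj hG x
  refine ⟨a, rfl, ?_⟩
  by_contra h5
  refine hx.2 (hinv e a (hdet e a h1 h5 fun i hi => ?_) h2)
  exact (rE_cE.1 ((h3 a).1 hx.1) i hi).symm

end

include hC in
/-- The extension: almost digits of the first sort. -/
theorem exists_ads : ∃ V, ADS (Nx hG) (El (AD hG)) V ∧ Cel (El (AD hG)) V := by
  obtain ⟨mem, V, h1, h2, h3, h4⟩ := exists_dig hG hC
  exact ⟨V, ads_AD hG hC h1 h2 h3 h4, cel_AD hG hC h1 h2 h3 h4⟩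

theorem inf_Dt : ¬ FinP M (fun _ : Dt M => True) := by
  intro h
  let j : INat M → Dt M := fun n => ⟨{n}, IFin.singleton n⟩
  have hj : IntF M j := IntF.mk (IntF.singleton IntF.id)
  have h1 : FinP M (fun _ : INat M => True) := by
    refine FinP.of_inj (Int.const _) hj (fun a b _ _ e => ?_) h fun _ _ => trivial
    have h2 : a ∈ (j b).1 := e ▸ (show a ∈ ({a} : IPow M (INat M)) by simp)
    have h3 : a ∈ ({b} : IPow M (INat M)) := h2
    simpa using h3
  obtain ⟨n, hn⟩ := h1.bound
  exact absurd (hn n.succ trivial) (not_le.2 (INat.lt_succ_self n))

include hC in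
theorem inf_AD : ¬ FinP (Nx hG) (fun _ : El (AD hG) => True) := fun h =>
  inf_Dt (M := M) (fin_back hG hC (p := fun _ => True) (Int.const _)
    (h.mono fun _ _ => trivial))

include hC in
/-- The infinite types of the extension have almost digits. -/
theorem exists_ads_of (hWO : ∀ x : M, ∃ lt : El x → El x → Prop, H635.IWO M (El x) lt)
    (x : Nx hG) (hx : ¬ FinP (Nx hG) (fun _ : El x => True)) : ∃ V, ADS (Nx hG) (El x) V := by
  by_contra hc
  obtain ⟨V, h1, h2⟩ := exists_ads hG hC
  exact not_nb hG hC hWO x (nb_of h1 h2 hc hx)

/-- Every sequence of subsets of the first sort is determined by finitely many sets. -/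
theorem supp_of {α : Type u} {N : Type u} [L.Structure N] [IsModel N] [ITy N α]
    (h : Hom1 N α) (hi : ¬ FinP N (fun _ : α => True)) (W : α × INat N → Prop) (hW : Int N W) :
    ∃ s : IPow N (IPow N α), IFin s ∧ ∀ x y, V11257G.Cl s x y → ∀ n, W (x, n) → W (y, n) := by
  obtain ⟨r, hr, h1, h2, h3, ⟨T, hT, hT'⟩, h4⟩ := h.hom (fun q => W (q.1.2, q.2)) (by (repeat' (first | with_reducible exact IntF.id | with_reducible exact IntF.fst' | with_reducible exact IntF.snd' | with_reducible exact IntF.const _ | with_reducible exact Int.const _ | assumption | with_reducible apply Int.and | with_reducible apply Int.or | with_reducible apply Int.not | with_reducible apply Int.imp | with_reducible apply Int.iff | with_reducible apply Int.ne | with_reducible apply Int.eq | with_reducible apply Int.mem | with_reducible apply Int.subset | with_reducible apply Int.ltN | with_reducible apply Int.leN | with_reducible_and_instances apply Int.le | with_reducible_and_instances apply Int.lt | with_reducible apply Int.all | with_reducible apply Int.ex | with_reducible apply IntF.fst | with_reducible apply IntF.snd | with_reducible apply IntF.app |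 with_reducible apply IntF.inl | with_reducible apply IntF.inr | with_reducible_and_instances apply IntF.mul | with_reducible_and_instances apply IntF.inv | with_reducible_and_instances apply IntF.add | with_reducible_and_instances apply IntF.sub | with_reducible_and_instances apply IntF.neg | with_reducible_and_instances apply IntF.smul | with_reducible apply Int.fin | with_reducible apply IntF.sep | with_reducible apply IntF.lam | with_reducible apply IntF.insert | with_reducible apply IntF.singleton | with_reducible apply IntF.union | with_reducible apply IntF.iimage | with_reducible apply IntF.ite | with_reducible apply IntF.the | with_reducible apply IntF.irec | with_reducible apply IntF.succ | with_reducible apply IntF.val | with_reducible apply IntF.mk | (with_reducible refine Int.comp ?_ ?_; assumption) | (with_reducible refine Int.comp₂ ?_ ?_ ?_; assumption) | (with_reducible refine Int.comp₃ ?_ ?_ ?_ ?_; assumption) | (with_reducible refine Int.comp₄ ?_ ?_ ?_ ?_ ?_; assumption) | (with_reducible refine IntF.comp ?_ ?_; assumption) | (with_reducible refine IntF.comp₂ ?_ ?_ ?_; assumption) | (with_reducible refine IntF.comp₃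 ?_ ?_ ?_ ?_; assumption) | with_reducible apply IntF.pair)))
  have hf : IntF N (fun x : α => sep N fun y : α => r (y, x)) := IntF.sep (by (repeat' (first | with_reducible exact IntF.id | with_reducible exact IntF.fst' | with_reducible exact IntF.snd' | with_reducible exact IntF.const _ | with_reducible exact Int.const _ | assumption | with_reducible apply Int.and | with_reducible apply Int.or | with_reducible apply Int.not | with_reducible apply Int.imp | with_reducible apply Int.iff | with_reducible apply Int.ne | with_reducible apply Int.eq | with_reducible apply Int.mem | with_reducible apply Int.subset | with_reducible apply Int.ltN | with_reducible apply Int.leN | with_reducible_and_instances apply Int.le | with_reducible_and_instances apply Int.lt | with_reducible apply Int.all | with_reducible apply Int.ex | with_reducible apply IntF.fst | with_reducible apply IntF.snd | with_reducible apply IntF.app | with_reducible apply IntF.inl | with_reducible apply IntF.inr | with_reducible_and_instances apply IntF.mul | with_reducible_and_instances apply IntF.inv | with_reducible_and_instances apply IntF.add | with_reducible_and_instances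 apply IntF.sub | with_reducible_and_instances apply IntF.neg | with_reducible_and_instances apply IntF.smul | with_reducible apply Int.fin | with_reducible apply IntF.sep | with_reducible apply IntF.lam | with_reducible apply IntF.insert | with_reducible apply IntF.singleton | with_reducible apply IntF.union | with_reducible apply IntF.iimage | with_reducible apply IntF.ite | with_reducible apply IntF.the | with_reducible apply IntF.irec | with_reducible apply IntF.succ | with_reducible apply IntF.val | with_reducible apply IntF.mk | (with_reducible refine Int.comp ?_ ?_; assumption) | (with_reducible refine Int.comp₂ ?_ ?_ ?_; assumption) | (with_reducible refine Int.comp₃ ?_ ?_ ?_ ?_; assumption) | (with_reducible refine Int.comp₄ ?_ ?_ ?_ ?_ ?_; assumption) | (with_reducible refine IntF.comp ?_ ?_; assumption) | (with_reducible refine IntF.comp₂ ?_ ?_ ?_; assumption) | (with_reducible refine IntF.comp₃ ?_ ?_ ?_ ?_; assumption) | with_reducible apply IntF.pair)))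
  have hI : ∀ x : α, Int N (fun y : α => r (y, x)) := fun x => by (repeat' (first | with_reducible exact IntF.id | with_reducible exact IntF.fst' | with_reducible exact IntF.snd' | with_reducible exact IntF.const _ | with_reducible exact Int.const _ | assumption | with_reducible apply Int.and | with_reducible apply Int.or | with_reducible apply Int.not | with_reducible apply Int.imp | with_reducible apply Int.iff | with_reducible apply Int.ne | with_reducible apply Int.eq | with_reducible apply Int.mem | with_reducible apply Int.subset | with_reducible apply Int.ltN | with_reducible apply Int.leN | with_reducible_and_instances apply Int.le | with_reducible_and_instances apply Int.lt | with_reducible apply Int.all | with_reducible apply Int.ex | with_reducible apply IntF.fst | with_reducible apply IntF.snd | with_reducible apply IntF.app | with_reducible apply IntF.inl | with_reducible apply IntF.inr | with_reducible_and_instances apply IntF.mul | with_reducible_and_instances apply IntF.inv | with_reducible_and_instances apply IntF.add | with_reducible_and_instances apply IntF.sub | with_reducible_and_instances apply IntF.neg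 | with_reducible_and_instances apply IntF.smul | with_reducible apply Int.fin | with_reducible apply IntF.sep | with_reducible apply IntF.lam | with_reducible apply IntF.insert | with_reducible apply IntF.singleton | with_reducible apply IntF.union | with_reducible apply IntF.iimage | with_reducible apply IntF.ite | with_reducible apply IntF.the | with_reducible apply IntF.irec | with_reducible apply IntF.succ | with_reducible apply IntF.val | with_reducible apply IntF.mk | (with_reducible refine Int.comp ?_ ?_; assumption) | (with_reducible refine Int.comp₂ ?_ ?_ ?_; assumption) | (with_reducible refine Int.comp₃ ?_ ?_ ?_ ?_; assumption) | (with_reducible refine Int.comp₄ ?_ ?_ ?_ ?_ ?_; assumption) | (with_reducible refine IntF.comp ?_ ?_; assumption) | (with_reducible refine IntF.comp₂ ?_ ?_ ?_; assumption) | (with_reducible refine IntF.comp₃ ?_ ?_ ?_ ?_; assumption) | with_reducible apply IntF.pair))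
  refine ⟨iimage (fun x : α => sep N fun y : α => r (y, x)) T, hT.image hf, fun x y hxy n hn => ?_⟩
  obtain ⟨z, hz, h5⟩ := hT' x
  have h6 := (hxy _ ((mem_iimage hf).2 ⟨z, hz, rfl⟩)).1 ((mem_sep (hI z)).2 h5)
  rw [mem_sep (hI z)] at h6
  obtain ⟨w, hw1, hw2⟩ : ∃ w, w ≠ x ∧ w ≠ y := by
    by_contra hc
    push Not at hc
    refine hi (((FinP.eq x).or (FinP.eq y)).mono fun w _ => ?_)
    by_cases h7 : w = x
    · exact Or.inl h7
    · exact Or.inr (hc w h7)
  exact h4 w x y n hw1 hw2 (h3 _ _ _ h5 (h2 _ _ h6)) hn

end Pool.Agent.V11257N
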