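import Pool.Agent.V11257.MfDefs

/-!
# IDFBI and IWDI in a structure for the language of set theory: definitions
-/

namespace Pool.Agent.V11257N

open FirstOrder FirstOrder.Language
open Pool.Agent.Helper672.Plain (LSet Mem)
open Pool.Agent.H310Cards
open Pool.Agent.V11257G (DyadicallyFilterbaseInfinite)

universe u

/-- `a` is weakly Dedekind-infinite: there is an injective function from the set of the natural
numbers to the power set of `a`. -/
def WeaklyDedekindInfinite {N : Type u} [LSet.Structure N] (a : N) : Prop :=
  ∃ p w f, IsPow p a ∧ IsOmega w ∧ IsInj f w p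

/-- IDFBI: every infinite set is dyadically filterbase infinite. -/
def IDFBI (N : Type u) [LSet.Structure N] : Prop :=
  ∀ a : N, ¬ IsFinite a → DyadicallyFilterbaseInfinite a

/-- IWDI: every infinite set is weakly Dedekind-infinite. -/
def IWDI (N : Type u) [LSet.Structure N] : Prop :=
  ∀ a : N, ¬ IsFinite a → WeaklyDedekindInfinite a

end Pool.Agent.V11257N
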