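import Pool.Agent.V11257.Nm13
import Pool.Agent.V11257.NmDefs
import Pool.Agent.H310R3.NA12

/-!
# Every infinite set is dyadically filterbase infinite, and one is weakly Dedekind-finite
-/

set_option maxHeartbeats 1000000
set_option linter.all false
set_option synthInstance.maxSize 2000

namespace Pool.Agent.V11257N

open FirstOrder FirstOrder.Language
open Pool.Agent.Helper672
open Pool.Agent.Helper672.ZFA
open Pool.Agent.Helper672.ZFA.V246
open Pool.Agent.Helper672.Plain (LSet)
open Pool.Agent.H310
open Pool.Agent.H310Cards
open Pool.Agent.H635Amen (ZF)
open Pool.Agent.V11246
open Pool.Agent.V11257G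

universe u

section

attribute [local instance] Helper672.Plain.toL

variable {N : Type u} [LSet.Structure N] [hZ : Helper672.Plain.Zermelo N]

local instance instModelNm14 : IsModel N := Helper672.Plain.isModel_toL

variable {α : Type u} [ITy N α]

section

variable {D : (INat N × IPow N (INat N)) × IPow N α → Prop} (h : FB0 N α D)

include h

theorem FB0.modd (n : INat N) (t : IPow N (INat N)) :
    Modd (sep N fun U : IPow N α => D ((n, t), U)) := by
  have hR := h.int
  have hI : Int N (fun U : IPow N α => D ((n, t), U)) := by (repeat' (first | with_reducible exact IntF.id | with_reducible exact IntF.fst' | with_reducible exact IntF.snd' | with_reducible exact IntF.const _ | with_reducible exact Int.const _ | assumption | with_reducible apply Int.and | with_reducible apply Int.or | with_reducible apply Int.not | with_reducible apply Int.imp | with_reducible apply Int.iff | with_reducible apply Int.ne | with_reducible apply Int.eq | with_reducible apply Int.mem | with_reducible apply Int.subset | with_reducible apply Int.ltN | with_reducible apply Int.leN | with_reducible_and_instances apply Int.le | with_reducible_and_instances apply Int.lt | with_reducible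 apply Int.all | with_reducible apply Int.ex | with_reducible apply IntF.fst | with_reducible apply IntF.snd | with_reducible apply IntF.app | with_reducible apply IntF.inl | with_reducible apply IntF.inr | with_reducible_and_instances apply IntF.mul | with_reducible_and_instances apply IntF.inv | with_reducible_and_instances apply IntF.add | with_reducible_and_instances apply IntF.sub | with_reducible_and_instances apply IntF.neg | with_reducible_and_instances apply IntF.smul | with_reducible apply Int.fin | with_reducible apply IntF.sep | with_reducible apply IntF.lam | with_reducible apply IntF.insert | with_reducible apply IntF.singleton | with_reducible apply IntF.union | with_reducible apply IntF.iimage | with_reducible apply IntF.ite | with_reducible apply IntF.the | with_reducible apply IntF.irec | with_reducible apply IntF.succ | with_reducible apply IntF.val | with_reducible apply IntF.mk | (with_reducible refine Int.comp ?_ ?_; assumption) | (with_reducible refine Int.comp₂ ?_ ?_ ?_; assumption) | (with_reducible refine Int.comp₃ ?_ ?_ ?_ ?_; assumption) | (with_reducible refine Int.comp₄ ?_ ?_ ?_ ?_ ?_; assumption) | (with_reducible refine IntF.comp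 ?_ ?_; assumption) | (with_reducible refine IntF.comp₂ ?_ ?_ ?_; assumption) | (with_reducible refine IntF.comp₃ ?_ ?_ ?_ ?_; assumption) | with_reducible apply IntF.pair))
  refine ⟨?_, ?_, ?_, ?_, ?_⟩
  · obtain ⟨U, hU⟩ := h.ne n t
    exact ⟨U, (mem_sep hI).2 hU⟩
  · intro U U' hU hU'
    rw [mem_sep hI] at hU hU' ⊢
    refine h.ext n t U _ hU (IFin.empty.subset fun x hx => ?_)
      ((h.diff n t U' U hU' hU).subset fun x hx => ?_)
    · rw [mem_sdiff, mem_union] at hx
      exact absurd (Or.inl hx.1) hx.2
    · rw [mem_sdiff, mem_union] at hx
      rw [mem_sdiff]
      tauto
  · intro U U' hU hU'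
    rw [mem_sep hI] at hU hU' ⊢
    refine h.ext n t U _ hU ((h.diff n t U U' hU hU').subset fun x hx => ?_)
      (IFin.empty.subset fun x hx => ?_)
    · rw [mem_sdiff, mem_inter] at hx
      rw [mem_sdiff]
      tauto
    · rw [mem_sdiff, mem_inter] at hx
      exact absurd hx.1.1 hx.2
  · intro U hU
    exact h.inf n t U ((mem_sep hI).1 hU)
  · intro U U' hU hU'
    exact h.diff n t U U' ((mem_sep hI).1 hU) ((mem_sep hI).1 hU')

theorem FB0.dyadic : DyadicallyFilterbaseInfinite (dom N α) := by
  have hD := h.int
  have hF : Int N (fun q : (INat N × IPow N (INat N)) × IPow N (IPow N α) =>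
      q.2 = sep N fun U : IPow N α => D (q.1, U)) := by (repeat' (first | with_reducible exact IntF.id | with_reducible exact IntF.fst' | with_reducible exact IntF.snd' | with_reducible exact IntF.const _ | with_reducible exact Int.const _ | assumption | with_reducible apply Int.and | with_reducible apply Int.or | with_reducible apply Int.not | with_reducible apply Int.imp | with_reducible apply Int.iff | with_reducible apply Int.ne | with_reducible apply Int.eq | with_reducible apply Int.mem | with_reducible apply Int.subset | with_reducible apply Int.ltN | with_reducible apply Int.leN | with_reducible_and_instances apply Int.le | with_reducible_and_instances apply Int.lt | with_reducible apply Int.all | with_reducible apply Int.ex | with_reducible apply IntF.fst | with_reducible apply IntF.snd | with_reducible apply IntF.app | with_reducible apply IntF.inl | with_reducible apply IntF.inr | with_reducible_and_instances apply IntF.mul | with_reducible_and_instances apply IntF.inv | with_reducible_and_instances apply IntF.add | with_reducible_and_instances apply IntF.sub | with_reducible_and_instances apply IntF.neg | with_reducible_and_instances apply IntF.smul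 | with_reducible apply Int.fin | with_reducible apply IntF.sep | with_reducible apply IntF.lam | with_reducible apply IntF.insert | with_reducible apply IntF.singleton | with_reducible apply IntF.union | with_reducible apply IntF.iimage | with_reducible apply IntF.ite | with_reducible apply IntF.the | with_reducible apply IntF.irec | with_reducible apply IntF.succ | with_reducible apply IntF.val | with_reducible apply IntF.mk | (with_reducible refine Int.comp ?_ ?_; assumption) | (with_reducible refine Int.comp₂ ?_ ?_ ?_; assumption) | (with_reducible refine Int.comp₃ ?_ ?_ ?_ ?_; assumption) | (with_reducible refine Int.comp₄ ?_ ?_ ?_ ?_ ?_; assumption) | (with_reducible refine IntF.comp ?_ ?_; assumption) | (with_reducible refine IntF.comp₂ ?_ ?_ ?_; assumption) | (with_reducible refine IntF.comp₃ ?_ ?_ ?_ ?_; assumption) | with_reducible apply IntF.pair))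
  have hI : ∀ n t, Int N (fun U : IPow N α => D ((n, t), U)) := by
    intro n t
    (repeat' (first | with_reducible exact IntF.id | with_reducible exact IntF.fst' | with_reducible exact IntF.snd' | with_reducible exact IntF.const _ | with_reducible exact Int.const _ | assumption | with_reducible apply Int.and | with_reducible apply Int.or | with_reducible apply Int.not | with_reducible apply Int.imp | with_reducible apply Int.iff | with_reducible apply Int.ne | with_reducible apply Int.eq | with_reducible apply Int.mem | with_reducible apply Int.subset | with_reducible apply Int.ltN | with_reducible apply Int.leN | with_reducible_and_instances apply Int.le | with_reducible_and_instances apply Int.lt | with_reducible apply Int.all | with_reducible apply Int.ex | with_reducible apply IntF.fst | with_reducible apply IntF.snd | with_reducible apply IntF.app | with_reducible apply IntF.inl | with_reducible apply IntF.inr | with_reducible_and_instances apply IntF.mul | with_reducible_and_instances apply IntF.inv | with_reducible_and_instances apply IntF.add | with_reducible_and_instances apply IntF.sub | with_reducible_and_instances apply IntF.neg | with_reducible_and_instances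 apply IntF.smul | with_reducible apply Int.fin | with_reducible apply IntF.sep | with_reducible apply IntF.lam | with_reducible apply IntF.insert | with_reducible apply IntF.singleton | with_reducible apply IntF.union | with_reducible apply IntF.iimage | with_reducible apply IntF.ite | with_reducible apply IntF.the | with_reducible apply IntF.irec | with_reducible apply IntF.succ | with_reducible apply IntF.val | with_reducible apply IntF.mk | (with_reducible refine Int.comp ?_ ?_; assumption) | (with_reducible refine Int.comp₂ ?_ ?_ ?_; assumption) | (with_reducible refine Int.comp₃ ?_ ?_ ?_ ?_; assumption) | (with_reducible refine Int.comp₄ ?_ ?_ ?_ ?_ ?_; assumption) | (with_reducible refine IntF.comp ?_ ?_; assumption) | (with_reducible refine IntF.comp₂ ?_ ?_ ?_; assumption) | (with_reducible refine IntF.comp₃ ?_ ?_ ?_ ?_; assumption) | with_reducible apply IntF.pair))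
  have hv : ∀ n t v, Val2 (relc N fun (p : INat N × IPow N (INat N)) (V : IPow N (IPow N α)) =>
      V = sep N fun U : IPow N α => D (p, U)) n t v ↔ ∃ (n' : INat N) (t' : IPow N (INat N)),
        n = code n' ∧ t = code t' ∧ v = code (sep N fun U : IPow N α => D ((n', t'), U)) := by
    intro n t v
    constructor
    · rintro ⟨p, h1, h2⟩
      obtain ⟨⟨n', t'⟩, V, rfl, h3, h4⟩ := (app_relc hF).1 h2
      obtain ⟨h5, h6⟩ := op_inj ((ordPair_iff.1 h1).symm.trans h3)
      exact ⟨n', t', h5, h6, h4⟩
    · rintro ⟨n', t', rfl, rfl, rfl⟩
      exact ⟨_, ordPair_iff.2 rfl, (app_relc hF).2 ⟨(n', t'), _, rfl, rfl, rfl⟩⟩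
  have hv' : ∀ (n : INat N) (t : IPow N (INat N)) v,
      Val2 (relc N fun (p : INat N × IPow N (INat N)) (V : IPow N (IPow N α)) =>
      V = sep N fun U : IPow N α => D (p, U)) (code n) (code t) v ↔
        v = code (sep N fun U : IPow N α => D ((n, t), U)) := by
    intro n t v
    rw [hv]
    constructor
    · rintro ⟨n', t', h1, h2, rfl⟩
      rw [ITy.inj h1, ITy.inj h2]
    · rintro rfl
      exact ⟨n, t, rfl, rfl, rfl⟩
  refine ⟨relc N fun (p : INat N × IPow N (INat N)) (V : IPow N (IPow N α)) =>
      V = sep N fun U : IPow N α => D (p, U), ?_, ?_, ?_, ?_⟩
  · intro n t hnt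
    obtain ⟨n, t, rfl, rfl, hn, ht⟩ := node_code hnt
    exact ⟨_, (hv' n t _).2 rfl, fun v hv => (hv' n t v).1 hv⟩
  · intro n t v hnt hvv
    obtain ⟨n, t, rfl, rfl, hn, ht⟩ := node_code hnt
    rw [(hv' n t v).1 hvv]
    exact isMod_of (h.modd n t)
  · intro n m s t s' hns hnt hst hmn hs' v v' h1 h2 w g hw hg v₀ v₁ h3 h4
    obtain ⟨n, s, rfl, rfl, hn, hs⟩ := node_code hns
    obtain ⟨n', t, hnn, rfl, -, ht⟩ := node_code hnt
    rw [← ITy.inj hnn] at ht
    have hm : m = code n.succ := Helper672.Plain.Zermelo.ext _ _ fun z =>
      (hmn z).trans (isSucc_code n z).symm
    subst hm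
    have hs'' : s' = code (insert n s : IPow N (INat N)) := Helper672.Plain.Zermelo.ext _ _ fun z =>
      (hs' z).trans (ins_code n s z).symm
    subst hs''
    rw [(hv' _ _ _).1 h1] at hw
    rw [(hv' _ _ _).1 h2] at hg
    rw [(hv' _ _ _).1 h3, (hv' _ _ _).1 h4]
    obtain ⟨W, hW, rfl⟩ := mem_codeB.1 hw
    obtain ⟨G, hG, rfl⟩ := mem_codeB.1 hg
    rw [mem_sep (hI _ _)] at hW hG
    obtain ⟨U, hU⟩ := h.ne n.succ s
    obtain ⟨U', hU'⟩ := h.ne n.succ (insert n s)
    have h5 := h.child0 n s W U hW hU
    have h6 := h.child1 n s W U' hW hU'
    have h7 := h.dis n s t W G hs ht (fun e => hst (by rw [e])) hW hG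
    refine ⟨code U, code U', mem_codeM.2 ((mem_sep (hI _ _)).2 hU),
      mem_codeM.2 ((mem_sep (hI _ _)).2 hU'), fun b hb => ?_, fun b hb => ?_⟩
    · have e : b = code ((U ∪ U') \ W) := isDiff_code.1 fun z => (hb z).trans (and_congr
        ((isUnion_code (w := code (U ∪ U'))).2 rfl z).symm Iff.rfl)
      rw [e]
      refine isFinite_of_fin ((h5.union h6).subset fun x hx => ?_)
      rw [mem_sdiff, mem_union] at hx
      rw [mem_union, mem_sdiff, mem_sdiff]
      tauto
    · have e : b = code ((U ∪ U') ∩ G) := isInter_code.1 fun z => (hb z).trans (and_congr
        ((isUnion_code (w := code (U ∪ U'))).2 rfl z).symm Iff.rfl)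
      rw [e]
      refine isFinite_of_fin (((h5.union h6).union h7).subset fun x hx => ?_)
      rw [mem_inter, mem_union] at hx
      rw [mem_union, mem_union, mem_sdiff, mem_sdiff, mem_inter]
      tauto
  · intro n p g s hn hk hp hg hgv b hb
    obtain ⟨n, rfl⟩ := natB.1 hn
    obtain ⟨B, rfl⟩ := subs_code (α := α) (u := b) fun z hz => ((hb z).1 hz).1
    have hA := int_app3 (α := α) g
    obtain ⟨K, hK, hcov⟩ := h.cover n
    have hA' : Int N (fun q : ((IPow N α × α) × IPow N (INat N)) × IPow N α =>
        App g (code q.1.2) (code q.2)) :=
      Int.comp (p := fun q : IPow N (INat N) × IPow N α => App g (code q.1) (code q.2))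
        (f := fun q : ((IPow N α × α) × IPow N (INat N)) × IPow N α => (q.1.2, q.2)) hA (by (repeat' (first | with_reducible exact IntF.id | with_reducible exact IntF.fst' | with_reducible exact IntF.snd' | with_reducible exact IntF.const _ | with_reducible exact Int.const _ | assumption | with_reducible apply Int.and | with_reducible apply Int.or | with_reducible apply Int.not | with_reducible apply Int.imp | with_reducible apply Int.iff | with_reducible apply Int.ne | with_reducible apply Int.eq | with_reducible apply Int.mem | with_reducible apply Int.subset | with_reducible apply Int.ltN | with_reducible apply Int.leN | with_reducible_and_instances apply Int.le | with_reducible_and_instances apply Int.lt | with_reducible apply Int.all | with_reducible apply Int.ex | with_reducible apply IntF.fst | with_reducible apply IntF.snd | with_reducible apply IntF.app | with_reducible apply IntF.inl | with_reducible apply IntF.inr | with_reducible_and_instances apply IntF.mul | with_reducible_and_instances apply IntF.inv | with_reducible_and_instances apply IntF.add | with_reducible_and_instances apply IntF.sub | with_reducible_and_instances apply IntF.neg | with_reducible_and_instances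 apply IntF.smul | with_reducible apply Int.fin | with_reducible apply IntF.sep | with_reducible apply IntF.lam | with_reducible apply IntF.insert | with_reducible apply IntF.singleton | with_reducible apply IntF.union | with_reducible apply IntF.iimage | with_reducible apply IntF.ite | with_reducible apply IntF.the | with_reducible apply IntF.irec | with_reducible apply IntF.succ | with_reducible apply IntF.val | with_reducible apply IntF.mk | (with_reducible refine Int.comp ?_ ?_; assumption) | (with_reducible refine Int.comp₂ ?_ ?_ ?_; assumption) | (with_reducible refine Int.comp₃ ?_ ?_ ?_ ?_; assumption) | (with_reducible refine Int.comp₄ ?_ ?_ ?_ ?_ ?_; assumption) | (with_reducible refine IntF.comp ?_ ?_; assumption) | (with_reducible refine IntF.comp₂ ?_ ?_ ?_; assumption) | (with_reducible refine IntF.comp₃ ?_ ?_ ?_ ?_; assumption) | with_reducible apply IntF.pair)))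
    have hSb : Int N (fun q : (IPow N α × α) × IPow N (INat N) => Sb n q.2) := by
      unfold Sb
      (repeat' (first | with_reducible exact IntF.id | with_reducible exact IntF.fst' | with_reducible exact IntF.snd' | with_reducible exact IntF.const _ | with_reducible exact Int.const _ | assumption | with_reducible apply Int.and | with_reducible apply Int.or | with_reducible apply Int.not | with_reducible apply Int.imp | with_reducible apply Int.iff | with_reducible apply Int.ne | with_reducible apply Int.eq | with_reducible apply Int.mem | with_reducible apply Int.subset | with_reducible apply Int.ltN | with_reducible apply Int.leN | with_reducible_and_instances apply Int.le | with_reducible_and_instances apply Int.lt | with_reducible apply Int.all | with_reducible apply Int.ex | with_reducible apply IntF.fst | with_reducible apply IntF.snd | with_reducible apply IntF.app | with_reducible apply IntF.inl | with_reducible apply IntF.inr | with_reducible_and_instances apply IntF.mul | with_reducible_and_instances apply IntF.inv | with_reducible_and_instances apply IntF.add | with_reducible_and_instances apply IntF.sub | with_reducible_and_instances apply IntF.neg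 | with_reducible_and_instances apply IntF.smul | with_reducible apply Int.fin | with_reducible apply IntF.sep | with_reducible apply IntF.lam | with_reducible apply IntF.insert | with_reducible apply IntF.singleton | with_reducible apply IntF.union | with_reducible apply IntF.iimage | with_reducible apply IntF.ite | with_reducible apply IntF.the | with_reducible apply IntF.irec | with_reducible apply IntF.succ | with_reducible apply IntF.val | with_reducible apply IntF.mk | (with_reducible refine Int.comp ?_ ?_; assumption) | (with_reducible refine Int.comp₂ ?_ ?_ ?_; assumption) | (with_reducible refine Int.comp₃ ?_ ?_ ?_ ?_; assumption) | (with_reducible refine Int.comp₄ ?_ ?_ ?_ ?_ ?_; assumption) | (with_reducible refine IntF.comp ?_ ?_; assumption) | (with_reducible refine IntF.comp₂ ?_ ?_ ?_; assumption) | (with_reducible refine IntF.comp₃ ?_ ?_ ?_ ?_; assumption) | with_reducible apply IntF.pair))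
    have hKI : Int N (fun q : IPow N α × α => q.2 ∈ q.1 ∧ ∃ t : IPow N (INat N), Sb n t ∧
        D ((n, t), q.1) ∧ ∀ U : IPow N α, App g (code t) (code U) → q.2 ∉ U) := by
      refine Int.and (by (repeat' (first | with_reducible exact IntF.id | with_reducible exact IntF.fst' | with_reducible exact IntF.snd' | with_reducible exact IntF.const _ | with_reducible exact Int.const _ | assumption | with_reducible apply Int.and | with_reducible apply Int.or | with_reducible apply Int.not | with_reducible apply Int.imp | with_reducible apply Int.iff | with_reducible apply Int.ne | with_reducible apply Int.eq | with_reducible apply Int.mem | with_reducible apply Int.subset | with_reducible apply Int.ltN | with_reducible apply Int.leN | with_reducible_and_instances apply Int.le | with_reducible_and_instances apply Int.lt | with_reducible apply Int.all | with_reducible apply Int.ex | with_reducible apply IntF.fst | with_reducible apply IntF.snd | with_reducible apply IntF.app | with_reducible apply IntF.inl | with_reducible apply IntF.inr | with_reducible_and_instances apply IntF.mul | with_reducible_and_instances apply IntF.inv | with_reducible_and_instances apply IntF.add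 | with_reducible_and_instances apply IntF.sub | with_reducible_and_instances apply IntF.neg | with_reducible_and_instances apply IntF.smul | with_reducible apply Int.fin | with_reducible apply IntF.sep | with_reducible apply IntF.lam | with_reducible apply IntF.insert | with_reducible apply IntF.singleton | with_reducible apply IntF.union | with_reducible apply IntF.iimage | with_reducible apply IntF.ite | with_reducible apply IntF.the | with_reducible apply IntF.irec | with_reducible apply IntF.succ | with_reducible apply IntF.val | with_reducible apply IntF.mk | (with_reducible refine Int.comp ?_ ?_; assumption) | (with_reducible refine Int.comp₂ ?_ ?_ ?_; assumption) | (with_reducible refine Int.comp₃ ?_ ?_ ?_ ?_; assumption) | (with_reducible refine Int.comp₄ ?_ ?_ ?_ ?_ ?_; assumption) | (with_reducible refine IntF.comp ?_ ?_; assumption) | (with_reducible refine IntF.comp₂ ?_ ?_ ?_; assumption) | (with_reducible refine IntF.comp₃ ?_ ?_ ?_ ?_; assumption) | with_reducible apply IntF.pair))) (Int.ex (Int.and hSb (Int.and (by (repeat' (first | with_reducible exact IntF.id | with_reducible exact IntF.fst' | with_reducible exact IntF.snd' | with_reducible exact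 IntF.const _ | with_reducible exact Int.const _ | assumption | with_reducible apply Int.and | with_reducible apply Int.or | with_reducible apply Int.not | with_reducible apply Int.imp | with_reducible apply Int.iff | with_reducible apply Int.ne | with_reducible apply Int.eq | with_reducible apply Int.mem | with_reducible apply Int.subset | with_reducible apply Int.ltN | with_reducible apply Int.leN | with_reducible_and_instances apply Int.le | with_reducible_and_instances apply Int.lt | with_reducible apply Int.all | with_reducible apply Int.ex | with_reducible apply IntF.fst | with_reducible apply IntF.snd | with_reducible apply IntF.app | with_reducible apply IntF.inl | with_reducible apply IntF.inr | with_reducible_and_instances apply IntF.mul | with_reducible_and_instances apply IntF.inv | with_reducible_and_instances apply IntF.add | with_reducible_and_instances apply IntF.sub | with_reducible_and_instances apply IntF.neg | with_reducible_and_instances apply IntF.smul | with_reducible apply Int.fin | with_reducible apply IntF.sep | with_reducible apply IntF.lam | with_reducible apply IntF.insert | with_reducible apply IntF.singleton | with_reducible apply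 IntF.union | with_reducible apply IntF.iimage | with_reducible apply IntF.ite | with_reducible apply IntF.the | with_reducible apply IntF.irec | with_reducible apply IntF.succ | with_reducible apply IntF.val | with_reducible apply IntF.mk | (with_reducible refine Int.comp ?_ ?_; assumption) | (with_reducible refine Int.comp₂ ?_ ?_ ?_; assumption) | (with_reducible refine Int.comp₃ ?_ ?_ ?_ ?_; assumption) | (with_reducible refine Int.comp₄ ?_ ?_ ?_ ?_ ?_; assumption) | (with_reducible refine IntF.comp ?_ ?_; assumption) | (with_reducible refine IntF.comp₂ ?_ ?_ ?_; assumption) | (with_reducible refine IntF.comp₃ ?_ ?_ ?_ ?_; assumption) | with_reducible apply IntF.pair))) (Int.all ?_))))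
      exact Int.imp hA' (by (repeat' (first | with_reducible exact IntF.id | with_reducible exact IntF.fst' | with_reducible exact IntF.snd' | with_reducible exact IntF.const _ | with_reducible exact Int.const _ | assumption | with_reducible apply Int.and | with_reducible apply Int.or | with_reducible apply Int.not | with_reducible apply Int.imp | with_reducible apply Int.iff | with_reducible apply Int.ne | with_reducible apply Int.eq | with_reducible apply Int.mem | with_reducible apply Int.subset | with_reducible apply Int.ltN | with_reducible apply Int.leN | with_reducible_and_instances apply Int.le | with_reducible_and_instances apply Int.lt | with_reducible apply Int.all | with_reducible apply Int.ex | with_reducible apply IntF.fst | with_reducible apply IntF.snd | with_reducible apply IntF.app | with_reducible apply IntF.inl | with_reducible apply IntF.inr | with_reducible_and_instances apply IntF.mul | with_reducible_and_instances apply IntF.inv | with_reducible_and_instances apply IntF.add | with_reducible_and_instances apply IntF.sub | with_reducible_and_instances apply IntF.neg | with_reducible_and_instances apply IntF.smul | with_reducible apply Int.fin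 | with_reducible apply IntF.sep | with_reducible apply IntF.lam | with_reducible apply IntF.insert | with_reducible apply IntF.singleton | with_reducible apply IntF.union | with_reducible apply IntF.iimage | with_reducible apply IntF.ite | with_reducible apply IntF.the | with_reducible apply IntF.irec | with_reducible apply IntF.succ | with_reducible apply IntF.val | with_reducible apply IntF.mk | (with_reducible refine Int.comp ?_ ?_; assumption) | (with_reducible refine Int.comp₂ ?_ ?_ ?_; assumption) | (with_reducible refine Int.comp₃ ?_ ?_ ?_ ?_; assumption) | (with_reducible refine Int.comp₄ ?_ ?_ ?_ ?_ ?_; assumption) | (with_reducible refine IntF.comp ?_ ?_; assumption) | (with_reducible refine IntF.comp₂ ?_ ?_ ?_; assumption) | (with_reducible refine IntF.comp₃ ?_ ?_ ?_ ?_; assumption) | with_reducible apply IntF.pair)))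
    have hKK : IntF N (fun C : IPow N α => sep N fun x => x ∈ C ∧ ∃ t : IPow N (INat N), Sb n t ∧
        D ((n, t), C) ∧ ∀ U : IPow N α, App g (code t) (code U) → x ∉ U) := IntF.sep hKI
    have hKI' : ∀ C : IPow N α, Int N (fun x => x ∈ C ∧ ∃ t : IPow N (INat N), Sb n t ∧
        D ((n, t), C) ∧ ∀ U : IPow N α, App g (code t) (code U) → x ∉ U) := fun C =>
      Int.comp (p := fun q : IPow N α × α => q.2 ∈ q.1 ∧ ∃ t : IPow N (INat N), Sb n t ∧
        D ((n, t), q.1) ∧ ∀ U : IPow N α, App g (code t) (code U) → q.2 ∉ U)
        (f := fun x : α => (C, x)) hKI (by (repeat' (first | with_reducible exact IntF.id | with_reducible exact IntF.fst' | with_reducible exact IntF.snd' | with_reducible exact IntF.const _ | with_reducible exact Int.const _ | assumption | with_reducible apply Int.and | with_reducible apply Int.or | with_reducible apply Int.not | with_reducible apply Int.imp | with_reducible apply Int.iff | with_reducible apply Int.ne | with_reducible apply Int.eq | with_reducible apply Int.mem | with_reducible apply Int.subset | with_reducible apply Int.ltN | with_reducible apply Int.leN | with_reducible_and_instances apply Int.le | with_reducible_and_instances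 apply Int.lt | with_reducible apply Int.all | with_reducible apply Int.ex | with_reducible apply IntF.fst | with_reducible apply IntF.snd | with_reducible apply IntF.app | with_reducible apply IntF.inl | with_reducible apply IntF.inr | with_reducible_and_instances apply IntF.mul | with_reducible_and_instances apply IntF.inv | with_reducible_and_instances apply IntF.add | with_reducible_and_instances apply IntF.sub | with_reducible_and_instances apply IntF.neg | with_reducible_and_instances apply IntF.smul | with_reducible apply Int.fin | with_reducible apply IntF.sep | with_reducible apply IntF.lam | with_reducible apply IntF.insert | with_reducible apply IntF.singleton | with_reducible apply IntF.union | with_reducible apply IntF.iimage | with_reducible apply IntF.ite | with_reducible apply IntF.the | with_reducible apply IntF.irec | with_reducible apply IntF.succ | with_reducible apply IntF.val | with_reducible apply IntF.mk | (with_reducible refine Int.comp ?_ ?_; assumption) | (with_reducible refine Int.comp₂ ?_ ?_ ?_; assumption) | (with_reducible refine Int.comp₃ ?_ ?_ ?_ ?_; assumption) | (with_reducible refine Int.comp₄ ?_ ?_ ?_ ?_ ?_; assumption) | (with_reducible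 refine IntF.comp ?_ ?_; assumption) | (with_reducible refine IntF.comp₂ ?_ ?_ ?_; assumption) | (with_reducible refine IntF.comp₃ ?_ ?_ ?_ ?_; assumption) | with_reducible apply IntF.pair)))
    refine isFinite_of_fin ((IFin.isUnion (hK.image hKK) ?_).subset fun x hx => ?_)
    · intro V hV
      obtain ⟨C, hC, rfl⟩ := (mem_iimage hKK).1 hV
      by_cases h1 : ∃ t, Sb n t ∧ D ((n, t), C)
      · obtain ⟨t, ht, hCt⟩ := h1
        have htp : Plain.Mem (code t) p := by
          refine (hp _).2 fun z hz => ?_
          obtain ⟨k, hk, rfl⟩ := mem_codeB.1 hz
          exact ht k hk
        obtain ⟨u, hu, -⟩ := hg.2 _ htp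
        have h2 := hgv _ _ _ hu ((hv' n t _).2 rfl)
        obtain ⟨U, hU, rfl⟩ := mem_codeB.1 h2
        rw [mem_sep (hI _ _)] at hU
        refine (h.diff n t C U hCt hU).subset fun x hx => ?_
        obtain ⟨hxC, t', ht', hCt', hxU⟩ := (mem_sep (hKI' C)).1 hx
        have h3 : t' = t := by
          by_contra hne
          refine h.inf n t C hCt ((h.dis n t' t C C ht' ht hne hCt' hCt).subset fun y hy => ?_)
          exact mem_inter.2 ⟨hy, hy⟩
        rw [h3] at hxU
        exact mem_sdiff.2 ⟨hxC, hxU U hu⟩
      · refine IFin.empty.subset fun x hx => ?_
        obtain ⟨hxC, t', ht', hCt', hxU⟩ := (mem_sep (hKI' C)).1 hx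
        exact absurd ⟨t', ht', hCt'⟩ h1
    · rw [mem_isUnion]
      obtain ⟨C, t, hC, hxC, ht, hCt⟩ := hcov x
      refine ⟨_, (mem_iimage hKK).2 ⟨C, hC, rfl⟩, (mem_sep (hKI' C)).2 ⟨hxC, t, ht, hCt,
        fun U hU hxU => ?_⟩⟩
      exact ((hb (code x)).1 (mem_codeM.2 hx)).2 ⟨_, _, hU, mem_codeM.2 hxU⟩

end

theorem dom_El' (a : N) : dom N (El a) = a := by
  refine Helper672.Plain.Zermelo.ext _ _ fun z => ?_
  refine (mem_dom (M := N) (α := El a)).trans ?_
  constructor
  · rintro ⟨x, rfl⟩
    exact x.2
  · exact fun h => ⟨⟨z, h⟩, rfl⟩

theorem dfbi_of {a : N} (h : ∃ V, ADS N (El a) V) : DyadicallyFilterbaseInfinite a := by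
  obtain ⟨V, hV⟩ := h
  have := hV.fb0.dyadic
  rwa [dom_El'] at this

theorem infP_of {a : N} (h : ¬ IsFinite a) : ¬ FinP N (fun _ : El a => True) :=
  not_finP (a := a) (fun z => mem_El) h

theorem inf_of {a : N} (h : ¬ FinP N (fun _ : El a => True)) : ¬ IsFinite a := fun hfin =>
  h (finP_of_finite (Int.const _) (t := a) (fun z => by
      rw [mem_El]
      exact exists_congr fun x => (true_and _).symm.to_iff) hfin)

theorem wdf_of {a : N} (h : ∃ V, ADS N (El a) V) (h' : Hom1 N (El a))
    (hi : ¬ FinP N (fun _ : El a => True)) : WeaklyDedekindFinite a := by
  obtain ⟨V, hV⟩ := h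
  have hb := hV.fb0
  have h3 : FB3 N (El a) (Dv V) := ⟨hb.int, hb.ne, hb.diff, hb.ext, hb.inf, hb.child0, hb.child1,
    hb.dis, hb.cover, fun W hW => supp_of h' hi W hW⟩
  have := h3.wdf
  rwa [dom_El'] at this

end

open Pool.Agent.Helper672.ZFA.H635 (IPerm IsGen NN EqFam CollL nn_ext exists_mk mk_eq_nd IWO
  nn_zf isModel_of_zermelo coll_of_zf exists_countable_sub toL)
open Pool.Agent.Helper672.ZFA.H310M
open Pool.Agent.H310NAS (WO)
open Pool.Agent.H310.NA (iwo_of wo_substructure zs zf_zs wo_zs)

theorem exists_idf' (M : Type u) [L.Structure M] [IsModel M] [Countable M] (hC : CollL M)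
    (hWO : ∀ x : M, ∃ lt : El x → El x → Prop, IWO M (El x) lt) :
    ∃ (N : Type u) (_ : LSet.Structure N), ZF N ∧ IDFBI N ∧ ¬ IWDI N := by
  have p₀ : Co M (Xt M) := ⟨∅, fun i k d d' h => absurd h (by simp), IFin.empty⟩
  obtain ⟨G, hG⟩ := H635.exists_gen (M := M) p₀
  have hzf : ZF (Nx hG) := nn_zf hG hC
  refine ⟨Nx hG, inferInstance, hzf, fun a ha => ?_, fun h => ?_⟩
  · exact dfbi_of (exists_ads_of hG hC hWO a (infP_of ha))
  · obtain ⟨p, w, f, h1, h2, h3⟩ := h (AD hG) (inf_of (inf_AD hG hC))
    obtain ⟨V, hV, -⟩ := exists_ads hG hC
    exact wdf_of ⟨V, hV⟩ (hom1 hG hC) (inf_AD hG hC) p w f h1 h2 h3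

section

attribute [local instance] toL

theorem exists_idf_c (M : Type u) [LSet.Structure M] [Countable M] (h : ZF M) (hW : WO M) :
    ∃ (N : Type u) (_ : LSet.Structure N), ZF N ∧ IDFBI N ∧ ¬ IWDI N := by
  have hM : IsModel M := isModel_of_zermelo h.toZermelo
  exact exists_idf' M (coll_of_zf h) (iwo_of hW)

end

/-- The theorem for all models of ZF with a well-order on every set. -/
theorem exists_idf (M : Type u) [LSet.Structure M] (h : ZF M) (hW : WO M) :
    ∃ (N : Type u) (_ : LSet.Structure N), ZF N ∧ IDFBI N ∧ ¬ IWDI N := by
  obtain ⟨M₀, h1, h2⟩ := exists_countable_sub M h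
  exact exists_idf_c M₀ h2 (wo_substructure M₀ hW)

/-- There is a model. -/
theorem exists_idf_zs : ∃ (N : Type 1) (_ : LSet.Structure N), ZF N ∧ IDFBI N ∧ ¬ IWDI N :=
  letI := zs.{0}
  exists_idf ZFSet.{0} zf_zs wo_zs

end Pool.Agent.V11257N
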