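import Pool.Agent.V11257.Nm1

/-!
# Almost coordinates of the set of the finite sets of natural numbers: the ground model
-/

set_option maxHeartbeats 1000000
set_option linter.all false
set_option synthInstance.maxSize 2000

namespace Pool.Agent.V11257N

open FirstOrder FirstOrder.Language
open Pool.Agent.Helper672.ZFA
open Pool.Agent.Helper672.ZFA.H635 (IPerm)
open Pool.Agent.Helper672.ZFA.H310M (FS PGr fsu)
open Pool.Agent.H310

universe u

variable {M : Type u} [L.Structure M] [hM : IsModel M]

variable (M) in
/-- The finite sets of natural numbers. -/
abbrev Dt : Type u := FS M (INat M)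

/-- The symmetric difference. -/
noncomputable def xr (a c : Dt M) : Dt M := ⟨sep M fun i => ¬ (i ∈ a.1 ↔ i ∈ c.1), by
  refine (a.2.union c.2).subset fun i hi => ?_
  have := (mem_sep (p := fun i => ¬ (i ∈ a.1 ↔ i ∈ c.1)) (by (repeat' (first | with_reducible exact IntF.id | with_reducible exact IntF.fst' | with_reducible exact IntF.snd' | with_reducible exact IntF.const _ | with_reducible exact Int.const _ | assumption | with_reducible apply Int.and | with_reducible apply Int.or | with_reducible apply Int.not | with_reducible apply Int.imp | with_reducible apply Int.iff | with_reducible apply Int.ne | with_reducible apply Int.eq | with_reducible apply Int.mem | with_reducible apply Int.subset | with_reducible apply Int.ltN | with_reducible apply Int.leN | with_reducible_and_instances apply Int.le | with_reducible_and_instances apply Int.lt | with_reducible apply Int.all | with_reducible apply Int.ex | with_reducible apply IntF.fst | with_reducible apply IntF.snd | with_reducible apply IntF.app | with_reducible apply IntF.inl | with_reducible apply IntF.inr | with_reducible_and_instances apply IntF.mul | with_reducible_and_instances apply IntF.inv | with_reducible_and_instances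 apply IntF.add | with_reducible_and_instances apply IntF.sub | with_reducible_and_instances apply IntF.neg | with_reducible_and_instances apply IntF.smul | with_reducible apply Int.fin | with_reducible apply IntF.sep | with_reducible apply IntF.lam | with_reducible apply IntF.insert | with_reducible apply IntF.singleton | with_reducible apply IntF.union | with_reducible apply IntF.iimage | with_reducible apply IntF.ite | with_reducible apply IntF.the | with_reducible apply IntF.irec | with_reducible apply IntF.succ | with_reducible apply IntF.val | with_reducible apply IntF.mk | (with_reducible refine Int.comp ?_ ?_; assumption) | (with_reducible refine Int.comp₂ ?_ ?_ ?_; assumption) | (with_reducible refine Int.comp₃ ?_ ?_ ?_ ?_; assumption) | (with_reducible refine Int.comp₄ ?_ ?_ ?_ ?_ ?_; assumption) | (with_reducible refine IntF.comp ?_ ?_; assumption) | (with_reducible refine IntF.comp₂ ?_ ?_ ?_; assumption) | (with_reducible refine IntF.comp₃ ?_ ?_ ?_ ?_; assumption) | with_reducible apply IntF.pair)))).1 hi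
  rw [mem_union]
  tauto⟩

theorem mem_xr {a c : Dt M} {i : INat M} : i ∈ (xr a c).1 ↔ ¬ (i ∈ a.1 ↔ i ∈ c.1) :=
  mem_sep (p := fun i => ¬ (i ∈ a.1 ↔ i ∈ c.1)) (by (repeat' (first | with_reducible exact IntF.id | with_reducible exact IntF.fst' | with_reducible exact IntF.snd' | with_reducible exact IntF.const _ | with_reducible exact Int.const _ | assumption | with_reducible apply Int.and | with_reducible apply Int.or | with_reducible apply Int.not | with_reducible apply Int.imp | with_reducible apply Int.iff | with_reducible apply Int.ne | with_reducible apply Int.eq | with_reducible apply Int.mem | with_reducible apply Int.subset | with_reducible apply Int.ltN | with_reducible apply Int.leN | with_reducible_and_instances apply Int.le | with_reducible_and_instances apply Int.lt | with_reducible apply Int.all | with_reducible apply Int.ex | with_reducible apply IntF.fst | with_reducible apply IntF.snd | with_reducible apply IntF.app | with_reducible apply IntF.inl | with_reducible apply IntF.inr | with_reducible_and_instances apply IntF.mul | with_reducible_and_instances apply IntF.inv | with_reducible_and_instances apply IntF.add | with_reducible_and_instances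 apply IntF.sub | with_reducible_and_instances apply IntF.neg | with_reducible_and_instances apply IntF.smul | with_reducible apply Int.fin | with_reducible apply IntF.sep | with_reducible apply IntF.lam | with_reducible apply IntF.insert | with_reducible apply IntF.singleton | with_reducible apply IntF.union | with_reducible apply IntF.iimage | with_reducible apply IntF.ite | with_reducible apply IntF.the | with_reducible apply IntF.irec | with_reducible apply IntF.succ | with_reducible apply IntF.val | with_reducible apply IntF.mk | (with_reducible refine Int.comp ?_ ?_; assumption) | (with_reducible refine Int.comp₂ ?_ ?_ ?_; assumption) | (with_reducible refine Int.comp₃ ?_ ?_ ?_ ?_; assumption) | (with_reducible refine Int.comp₄ ?_ ?_ ?_ ?_ ?_; assumption) | (with_reducible refine IntF.comp ?_ ?_; assumption) | (with_reducible refine IntF.comp₂ ?_ ?_ ?_; assumption) | (with_reducible refine IntF.comp₃ ?_ ?_ ?_ ?_; assumption) | with_reducible apply IntF.pair)))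

theorem int_xr : IntF M (fun q : Dt M × Dt M => xr q.1 q.2) := by
  unfold xr
  refine IntF.mk (IntF.sep ?_)
  (repeat' (first | with_reducible exact IntF.id | with_reducible exact IntF.fst' | with_reducible exact IntF.snd' | with_reducible exact IntF.const _ | with_reducible exact Int.const _ | assumption | with_reducible apply Int.and | with_reducible apply Int.or | with_reducible apply Int.not | with_reducible apply Int.imp | with_reducible apply Int.iff | with_reducible apply Int.ne | with_reducible apply Int.eq | with_reducible apply Int.mem | with_reducible apply Int.subset | with_reducible apply Int.ltN | with_reducible apply Int.leN | with_reducible_and_instances apply Int.le | with_reducible_and_instances apply Int.lt | with_reducible apply Int.all | with_reducible apply Int.ex | with_reducible apply IntF.fst | with_reducible apply IntF.snd | with_reducible apply IntF.app | with_reducible apply IntF.inl | with_reducible apply IntF.inr | with_reducible_and_instances apply IntF.mul | with_reducible_and_instances apply IntF.inv | with_reducible_and_instances apply IntF.add | with_reducible_and_instances apply IntF.sub | with_reducible_and_instances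 apply IntF.neg | with_reducible_and_instances apply IntF.smul | with_reducible apply Int.fin | with_reducible apply IntF.sep | with_reducible apply IntF.lam | with_reducible apply IntF.insert | with_reducible apply IntF.singleton | with_reducible apply IntF.union | with_reducible apply IntF.iimage | with_reducible apply IntF.ite | with_reducible apply IntF.the | with_reducible apply IntF.irec | with_reducible apply IntF.succ | with_reducible apply IntF.val | with_reducible apply IntF.mk | (with_reducible refine Int.comp ?_ ?_; assumption) | (with_reducible refine Int.comp₂ ?_ ?_ ?_; assumption) | (with_reducible refine Int.comp₃ ?_ ?_ ?_ ?_; assumption) | (with_reducible refine Int.comp₄ ?_ ?_ ?_ ?_ ?_; assumption) | (with_reducible refine IntF.comp ?_ ?_; assumption) | (with_reducible refine IntF.comp₂ ?_ ?_ ?_; assumption) | (with_reducible refine IntF.comp₃ ?_ ?_ ?_ ?_; assumption) | with_reducible apply IntF.pair))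

theorem dt_ext {a b : Dt M} (h : ∀ i, i ∈ a.1 ↔ i ∈ b.1) : a = b := Subtype.ext (IPow.ext' h)

theorem xr_xr (a c : Dt M) : xr (xr a c) c = a := dt_ext fun i => by
  rw [mem_xr, mem_xr]
  tauto

theorem xr_inj {a b c : Dt M} (h : xr a c = xr b c) : a = b := by
  rw [← xr_xr a c, h, xr_xr]

/-- `B` is almost the set of the sets that contain `i`. -/
def idx (B : IPow M (Dt M)) (i : INat M) : Prop :=
  IFin (sep M fun a : Dt M => ¬ (a ∈ B ↔ i ∈ a.1))

theorem int_idx : Int M (fun q : IPow M (Dt M) × INat M => idx q.1 q.2) := by
  unfold idx
  refine Int.fin (IntF.sep ?_)
  (repeat' (first | with_reducible exact IntF.id | with_reducible exact IntF.fst' | with_reducible exact IntF.snd' | with_reducible exact IntF.const _ | with_reducible exact Int.const _ | assumption | with_reducible apply Int.and | with_reducible apply Int.or | with_reducible apply Int.not | with_reducible apply Int.imp | with_reducible apply Int.iff | with_reducible apply Int.ne | with_reducible apply Int.eq | with_reducible apply Int.mem | with_reducible apply Int.subset | with_reducible apply Int.ltN | with_reducible apply Int.leN | with_reducible_and_instances apply Int.le | with_reducible_and_instances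 apply Int.lt | with_reducible apply Int.all | with_reducible apply Int.ex | with_reducible apply IntF.fst | with_reducible apply IntF.snd | with_reducible apply IntF.app | with_reducible apply IntF.inl | with_reducible apply IntF.inr | with_reducible_and_instances apply IntF.mul | with_reducible_and_instances apply IntF.inv | with_reducible_and_instances apply IntF.add | with_reducible_and_instances apply IntF.sub | with_reducible_and_instances apply IntF.neg | with_reducible_and_instances apply IntF.smul | with_reducible apply Int.fin | with_reducible apply IntF.sep | with_reducible apply IntF.lam | with_reducible apply IntF.insert | with_reducible apply IntF.singleton | with_reducible apply IntF.union | with_reducible apply IntF.iimage | with_reducible apply IntF.ite | with_reducible apply IntF.the | with_reducible apply IntF.irec | with_reducible apply IntF.succ | with_reducible apply IntF.val | with_reducible apply IntF.mk | (with_reducible refine Int.comp ?_ ?_; assumption) | (with_reducible refine Int.comp₂ ?_ ?_ ?_; assumption) | (with_reducible refine Int.comp₃ ?_ ?_ ?_ ?_; assumption) | (with_reducible refine Int.comp₄ ?_ ?_ ?_ ?_ ?_; assumption)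 | (with_reducible refine IntF.comp ?_ ?_; assumption) | (with_reducible refine IntF.comp₂ ?_ ?_ ?_; assumption) | (with_reducible refine IntF.comp₃ ?_ ?_ ?_ ?_; assumption) | with_reducible apply IntF.pair))

theorem idx_iff {B : IPow M (Dt M)} {i : INat M} : idx B i ↔
    FinP M (fun a : Dt M => ¬ (a ∈ B ↔ i ∈ a.1)) := by
  unfold idx
  rw [finP_iff (by (repeat' (first | with_reducible exact IntF.id | with_reducible exact IntF.fst' | with_reducible exact IntF.snd' | with_reducible exact IntF.const _ | with_reducible exact Int.const _ | assumption | with_reducible apply Int.and | with_reducible apply Int.or | with_reducible apply Int.not | with_reducible apply Int.imp | with_reducible apply Int.iff | with_reducible apply Int.ne | with_reducible apply Int.eq | with_reducible apply Int.mem | with_reducible apply Int.subset | with_reducible apply Int.ltN | with_reducible apply Int.leN | with_reducible_and_instances apply Int.le | with_reducible_and_instances apply Int.lt | with_reducible apply Int.all | with_reducible apply Int.ex | with_reducible apply IntF.fst | with_reducible apply IntF.snd | with_reducible apply IntF.app | with_reducible apply IntF.inl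 | with_reducible apply IntF.inr | with_reducible_and_instances apply IntF.mul | with_reducible_and_instances apply IntF.inv | with_reducible_and_instances apply IntF.add | with_reducible_and_instances apply IntF.sub | with_reducible_and_instances apply IntF.neg | with_reducible_and_instances apply IntF.smul | with_reducible apply Int.fin | with_reducible apply IntF.sep | with_reducible apply IntF.lam | with_reducible apply IntF.insert | with_reducible apply IntF.singleton | with_reducible apply IntF.union | with_reducible apply IntF.iimage | with_reducible apply IntF.ite | with_reducible apply IntF.the | with_reducible apply IntF.irec | with_reducible apply IntF.succ | with_reducible apply IntF.val | with_reducible apply IntF.mk | (with_reducible refine Int.comp ?_ ?_; assumption) | (with_reducible refine Int.comp₂ ?_ ?_ ?_; assumption) | (with_reducible refine Int.comp₃ ?_ ?_ ?_ ?_; assumption) | (with_reducible refine Int.comp₄ ?_ ?_ ?_ ?_ ?_; assumption) | (with_reducible refine IntF.comp ?_ ?_; assumption) | (with_reducible refine IntF.comp₂ ?_ ?_ ?_; assumption) | (with_reducible refine IntF.comp₃ ?_ ?_ ?_ ?_; assumption) | with_reducible apply IntF.pair)))]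

instance instFY : Fact (Int M (fun B : IPow M (Dt M) => ∃ i, idx B i)) := ⟨by
  have := int_idx (M := M)
  (repeat' (first | with_reducible exact IntF.id | with_reducible exact IntF.fst' | with_reducible exact IntF.snd' | with_reducible exact IntF.const _ | with_reducible exact Int.const _ | assumption | with_reducible apply Int.and | with_reducible apply Int.or | with_reducible apply Int.not | with_reducible apply Int.imp | with_reducible apply Int.iff | with_reducible apply Int.ne | with_reducible apply Int.eq | with_reducible apply Int.mem | with_reducible apply Int.subset | with_reducible apply Int.ltN | with_reducible apply Int.leN | with_reducible_and_instances apply Int.le | with_reducible_and_instances apply Int.lt | with_reducible apply Int.all | with_reducible apply Int.ex | with_reducible apply IntF.fst | with_reducible apply IntF.snd | with_reducible apply IntF.app | with_reducible apply IntF.inl | with_reducible apply IntF.inr | with_reducible_and_instances apply IntF.mul | with_reducible_and_instances apply IntF.inv | with_reducible_and_instances apply IntF.add | with_reducible_and_instances apply IntF.sub | with_reducible_and_instances apply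 IntF.neg | with_reducible_and_instances apply IntF.smul | with_reducible apply Int.fin | with_reducible apply IntF.sep | with_reducible apply IntF.lam | with_reducible apply IntF.insert | with_reducible apply IntF.singleton | with_reducible apply IntF.union | with_reducible apply IntF.iimage | with_reducible apply IntF.ite | with_reducible apply IntF.the | with_reducible apply IntF.irec | with_reducible apply IntF.succ | with_reducible apply IntF.val | with_reducible apply IntF.mk | (with_reducible refine Int.comp ?_ ?_; assumption) | (with_reducible refine Int.comp₂ ?_ ?_ ?_; assumption) | (with_reducible refine Int.comp₃ ?_ ?_ ?_ ?_; assumption) | (with_reducible refine Int.comp₄ ?_ ?_ ?_ ?_ ?_; assumption) | (with_reducible refine IntF.comp ?_ ?_; assumption) | (with_reducible refine IntF.comp₂ ?_ ?_ ?_; assumption) | (with_reducible refine IntF.comp₃ ?_ ?_ ?_ ?_; assumption) | with_reducible apply IntF.pair))⟩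

variable (M) in
/-- The almost parts. -/
abbrev Yt : Type u := {B : IPow M (Dt M) // ∃ i, idx B i}

variable (M) in
/-- The index set of the generic elements. -/
abbrev Xt : Type u := Dt M ⊕ Yt M

/-- The elements of the first sort. -/
def dm (x : Xt M) : Prop := ∃ a : Dt M, x = Sum.inl a

/-- Membership. -/
def mm (x y : Xt M) : Prop := ∃ (a : Dt M) (B : Yt M), x = Sum.inl a ∧ y = Sum.inr B ∧ a ∈ B.1

/-- The indices. -/
def ii (y : Xt M) (i : INat M) : Prop := ∃ B : Yt M, y = Sum.inr B ∧ idx B.1 i

theorem int_dm : Int M (dm (M := M)) := by
  unfold dm
  (repeat' (first | with_reducible exact IntF.id | with_reducible exact IntF.fst' | with_reducible exact IntF.snd' | with_reducible exact IntF.const _ | with_reducible exact Int.const _ | assumption | with_reducible apply Int.and | with_reducible apply Int.or | with_reducible apply Int.not | with_reducible apply Int.imp | with_reducible apply Int.iff | with_reducible apply Int.ne | with_reducible apply Int.eq | with_reducible apply Int.mem | with_reducible apply Int.subset | with_reducible apply Int.ltN | with_reducible apply Int.leN | with_reducible_and_instances apply Int.le | with_reducible_and_instances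 apply Int.lt | with_reducible apply Int.all | with_reducible apply Int.ex | with_reducible apply IntF.fst | with_reducible apply IntF.snd | with_reducible apply IntF.app | with_reducible apply IntF.inl | with_reducible apply IntF.inr | with_reducible_and_instances apply IntF.mul | with_reducible_and_instances apply IntF.inv | with_reducible_and_instances apply IntF.add | with_reducible_and_instances apply IntF.sub | with_reducible_and_instances apply IntF.neg | with_reducible_and_instances apply IntF.smul | with_reducible apply Int.fin | with_reducible apply IntF.sep | with_reducible apply IntF.lam | with_reducible apply IntF.insert | with_reducible apply IntF.singleton | with_reducible apply IntF.union | with_reducible apply IntF.iimage | with_reducible apply IntF.ite | with_reducible apply IntF.the | with_reducible apply IntF.irec | with_reducible apply IntF.succ | with_reducible apply IntF.val | with_reducible apply IntF.mk | (with_reducible refine Int.comp ?_ ?_; assumption) | (with_reducible refine Int.comp₂ ?_ ?_ ?_; assumption) | (with_reducible refine Int.comp₃ ?_ ?_ ?_ ?_; assumption) | (with_reducible refine Int.comp₄ ?_ ?_ ?_ ?_ ?_; assumption)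 | (with_reducible refine IntF.comp ?_ ?_; assumption) | (with_reducible refine IntF.comp₂ ?_ ?_ ?_; assumption) | (with_reducible refine IntF.comp₃ ?_ ?_ ?_ ?_; assumption) | with_reducible apply IntF.pair))

theorem int_mm : Int M (fun q : Xt M × Xt M => mm q.1 q.2) := by
  unfold mm
  (repeat' (first | with_reducible exact IntF.id | with_reducible exact IntF.fst' | with_reducible exact IntF.snd' | with_reducible exact IntF.const _ | with_reducible exact Int.const _ | assumption | with_reducible apply Int.and | with_reducible apply Int.or | with_reducible apply Int.not | with_reducible apply Int.imp | with_reducible apply Int.iff | with_reducible apply Int.ne | with_reducible apply Int.eq | with_reducible apply Int.mem | with_reducible apply Int.subset | with_reducible apply Int.ltN | with_reducible apply Int.leN | with_reducible_and_instances apply Int.le | with_reducible_and_instances apply Int.lt | with_reducible apply Int.all | with_reducible apply Int.ex | with_reducible apply IntF.fst | with_reducible apply IntF.snd | with_reducible apply IntF.app | with_reducible apply IntF.inl | with_reducible apply IntF.inr | with_reducible_and_instances apply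 IntF.mul | with_reducible_and_instances apply IntF.inv | with_reducible_and_instances apply IntF.add | with_reducible_and_instances apply IntF.sub | with_reducible_and_instances apply IntF.neg | with_reducible_and_instances apply IntF.smul | with_reducible apply Int.fin | with_reducible apply IntF.sep | with_reducible apply IntF.lam | with_reducible apply IntF.insert | with_reducible apply IntF.singleton | with_reducible apply IntF.union | with_reducible apply IntF.iimage | with_reducible apply IntF.ite | with_reducible apply IntF.the | with_reducible apply IntF.irec | with_reducible apply IntF.succ | with_reducible apply IntF.val | with_reducible apply IntF.mk | (with_reducible refine Int.comp ?_ ?_; assumption) | (with_reducible refine Int.comp₂ ?_ ?_ ?_; assumption) | (with_reducible refine Int.comp₃ ?_ ?_ ?_ ?_; assumption) | (with_reducible refine Int.comp₄ ?_ ?_ ?_ ?_ ?_; assumption) | (with_reducible refine IntF.comp ?_ ?_; assumption) | (with_reducible refine IntF.comp₂ ?_ ?_ ?_; assumption) | (with_reducible refine IntF.comp₃ ?_ ?_ ?_ ?_; assumption) | with_reducible apply IntF.pair))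

theorem int_ii : Int M (fun q : Xt M × INat M => ii q.1 q.2) := by
  have := int_idx (M := M)
  unfold ii
  (repeat' (first | with_reducible exact IntF.id | with_reducible exact IntF.fst' | with_reducible exact IntF.snd' | with_reducible exact IntF.const _ | with_reducible exact Int.const _ | assumption | with_reducible apply Int.and | with_reducible apply Int.or | with_reducible apply Int.not | with_reducible apply Int.imp | with_reducible apply Int.iff | with_reducible apply Int.ne | with_reducible apply Int.eq | with_reducible apply Int.mem | with_reducible apply Int.subset | with_reducible apply Int.ltN | with_reducible apply Int.leN | with_reducible_and_instances apply Int.le | with_reducible_and_instances apply Int.lt | with_reducible apply Int.all | with_reducible apply Int.ex | with_reducible apply IntF.fst | with_reducible apply IntF.snd | with_reducible apply IntF.app | with_reducible apply IntF.inl | with_reducible apply IntF.inr | with_reducible_and_instances apply IntF.mul | with_reducible_and_instances apply IntF.inv | with_reducible_and_instances apply IntF.add | with_reducible_and_instances apply IntF.sub | with_reducible_and_instances apply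 IntF.neg | with_reducible_and_instances apply IntF.smul | with_reducible apply Int.fin | with_reducible apply IntF.sep | with_reducible apply IntF.lam | with_reducible apply IntF.insert | with_reducible apply IntF.singleton | with_reducible apply IntF.union | with_reducible apply IntF.iimage | with_reducible apply IntF.ite | with_reducible apply IntF.the | with_reducible apply IntF.irec | with_reducible apply IntF.succ | with_reducible apply IntF.val | with_reducible apply IntF.mk | (with_reducible refine Int.comp ?_ ?_; assumption) | (with_reducible refine Int.comp₂ ?_ ?_ ?_; assumption) | (with_reducible refine Int.comp₃ ?_ ?_ ?_ ?_; assumption) | (with_reducible refine Int.comp₄ ?_ ?_ ?_ ?_ ?_; assumption) | (with_reducible refine IntF.comp ?_ ?_; assumption) | (with_reducible refine IntF.comp₂ ?_ ?_ ?_; assumption) | (with_reducible refine IntF.comp₃ ?_ ?_ ?_ ?_; assumption) | with_reducible apply IntF.pair))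

variable (M) in
/-- The automorphisms. -/
def HZ : Subgroup (IPerm M (Xt M)) where
  carrier := {g | (∀ x, dm x ↔ dm (g.1.1 x)) ∧ (∀ x y, mm x y ↔ mm (g.1.1 x) (g.1.1 y)) ∧
    ∀ y i, ii y i ↔ ii (g.1.1 y) i}
  mul_mem' {a b} ha hb := by
    refine ⟨fun x => ?_, fun x y => ?_, fun y i => ?_⟩
    · rw [hb.1 x, ha.1 (b.1.1 x), IPerm.mul_apply]
    · rw [hb.2.1 x y, ha.2.1 (b.1.1 x) (b.1.1 y), IPerm.mul_apply, IPerm.mul_apply]
    · rw [hb.2.2 y i, ha.2.2 (b.1.1 y) i, IPerm.mul_apply]
  one_mem' := by
    refine ⟨fun x => ?_, fun x y => ?_, fun y i => ?_⟩
    · rw [IPerm.one_apply]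
    · rw [IPerm.one_apply, IPerm.one_apply]
    · rw [IPerm.one_apply]
  inv_mem' {a} ha := by
    have e1 : ∀ x, a.1.1 (a.1.2 x) = x := a.2.1
    refine ⟨fun x => ?_, fun x y => ?_, fun y i => ?_⟩
    · change _ ↔ dm (a.1.2 x)
      rw [ha.1 (a.1.2 x), e1]
    · change _ ↔ mm (a.1.2 x) (a.1.2 y)
      rw [ha.2.1 (a.1.2 x), e1, e1]
    · change _ ↔ ii (a.1.2 y) i
      rw [ha.2.2 (a.1.2 y), e1]

variable (M) in
/-- The automorphisms. -/
def ZZ : PGr M (Xt M) where
  H := HZ M
  int := by
    have h1 := int_dm (M := M)
    have h2 := int_mm (M := M)
    have h3 := int_ii (M := M)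
    change Int M (fun g : IPerm M (Xt M) => (∀ x, dm x ↔ dm (g.1.1 x)) ∧
      (∀ x y, mm x y ↔ mm (g.1.1 x) (g.1.1 y)) ∧ ∀ y i, ii y i ↔ ii (g.1.1 y) i)
    (repeat' (first | with_reducible exact IntF.id | with_reducible exact IntF.fst' | with_reducible exact IntF.snd' | with_reducible exact IntF.const _ | with_reducible exact Int.const _ | assumption | with_reducible apply Int.and | with_reducible apply Int.or | with_reducible apply Int.not | with_reducible apply Int.imp | with_reducible apply Int.iff | with_reducible apply Int.ne | with_reducible apply Int.eq | with_reducible apply Int.mem | with_reducible apply Int.subset | with_reducible apply Int.ltN | with_reducible apply Int.leN | with_reducible_and_instances apply Int.le | with_reducible_and_instances apply Int.lt | with_reducible apply Int.all | with_reducible apply Int.ex | with_reducible apply IntF.fst | with_reducible apply IntF.snd | with_reducible apply IntF.app | with_reducible apply IntF.inl | with_reducible apply IntF.inr | with_reducible_and_instances apply IntF.mul | with_reducible_and_instances apply IntF.inv | with_reducible_and_instances apply IntF.add | with_reducible_and_instances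 apply IntF.sub | with_reducible_and_instances apply IntF.neg | with_reducible_and_instances apply IntF.smul | with_reducible apply Int.fin | with_reducible apply IntF.sep | with_reducible apply IntF.lam | with_reducible apply IntF.insert | with_reducible apply IntF.singleton | with_reducible apply IntF.union | with_reducible apply IntF.iimage | with_reducible apply IntF.ite | with_reducible apply IntF.the | with_reducible apply IntF.irec | with_reducible apply IntF.succ | with_reducible apply IntF.val | with_reducible apply IntF.mk | (with_reducible refine Int.comp ?_ ?_; assumption) | (with_reducible refine Int.comp₂ ?_ ?_ ?_; assumption) | (with_reducible refine Int.comp₃ ?_ ?_ ?_ ?_; assumption) | (with_reducible refine Int.comp₄ ?_ ?_ ?_ ?_ ?_; assumption) | (with_reducible refine IntF.comp ?_ ?_; assumption) | (with_reducible refine IntF.comp₂ ?_ ?_ ?_; assumption) | (with_reducible refine IntF.comp₃ ?_ ?_ ?_ ?_; assumption) | with_reducible apply IntF.pair))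

theorem mem_H {g : IPerm M (Xt M)} : g ∈ (ZZ M).H ↔ (∀ x, dm x ↔ dm (g.1.1 x)) ∧
    (∀ x y, mm x y ↔ mm (g.1.1 x) (g.1.1 y)) ∧ ∀ y i, ii y i ↔ ii (g.1.1 y) i := Iff.rfl

/-- Preimages of parts. -/
theorem idx_pre {h : Dt M → Dt M} (hi : IntF M h) (hh : ∀ a, h (h a) = a)
    (hc : FinP M (fun a => h a ≠ a)) {B : IPow M (Dt M)} {i : INat M} (hB : idx B i) :
    idx (sep M fun a => h a ∈ B) i := by
  have hS : Int M (fun a : Dt M => h a ∈ B) := by (repeat' (first | with_reducible exact IntF.id | with_reducible exact IntF.fst' | with_reducible exact IntF.snd' | with_reducible exact IntF.const _ | with_reducible exact Int.const _ | assumption | with_reducible apply Int.and | with_reducible apply Int.or | with_reducible apply Int.not | with_reducible apply Int.imp | with_reducible apply Int.iff | with_reducible apply Int.ne | with_reducible apply Int.eq | with_reducible apply Int.mem | with_reducible apply Int.subset | with_reducible apply Int.ltN | with_reducible apply Int.leN | with_reducible_and_instances apply Int.le | with_reducible_and_instances apply Int.lt | with_reducible apply Int.all | with_reducible apply Int.ex | with_reducible apply IntF.fst |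 with_reducible apply IntF.snd | with_reducible apply IntF.app | with_reducible apply IntF.inl | with_reducible apply IntF.inr | with_reducible_and_instances apply IntF.mul | with_reducible_and_instances apply IntF.inv | with_reducible_and_instances apply IntF.add | with_reducible_and_instances apply IntF.sub | with_reducible_and_instances apply IntF.neg | with_reducible_and_instances apply IntF.smul | with_reducible apply Int.fin | with_reducible apply IntF.sep | with_reducible apply IntF.lam | with_reducible apply IntF.insert | with_reducible apply IntF.singleton | with_reducible apply IntF.union | with_reducible apply IntF.iimage | with_reducible apply IntF.ite | with_reducible apply IntF.the | with_reducible apply IntF.irec | with_reducible apply IntF.succ | with_reducible apply IntF.val | with_reducible apply IntF.mk | (with_reducible refine Int.comp ?_ ?_; assumption) | (with_reducible refine Int.comp₂ ?_ ?_ ?_; assumption) | (with_reducible refine Int.comp₃ ?_ ?_ ?_ ?_; assumption) | (with_reducible refine Int.comp₄ ?_ ?_ ?_ ?_ ?_; assumption) | (with_reducible refine IntF.comp ?_ ?_; assumption) | (with_reducible refine IntF.comp₂ ?_ ?_ ?_; assumption)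 | (with_reducible refine IntF.comp₃ ?_ ?_ ?_ ?_; assumption) | with_reducible apply IntF.pair))
  rw [idx_iff] at hB ⊢
  refine (hB.or hc).mono fun a ha => ?_
  rw [mem_sep hS] at ha
  by_cases h1 : h a = a
  · left
    rwa [h1] at ha
  · exact Or.inr h1

theorem int_liftR {h : Dt M → Dt M} (hi : IntF M h) : Int M (fun q : Xt M × Xt M =>
    (∃ a : Dt M, q.1 = Sum.inl a ∧ q.2 = Sum.inl (h a)) ∨
      ∃ (B B' : Yt M), q.1 = Sum.inr B ∧ q.2 = Sum.inr B' ∧ ∀ a : Dt M, a ∈ B'.1 ↔ h a ∈ B.1) := by
  have h1 : Int M (fun q : Dt M × IPow M (Dt M) => h q.1 ∈ q.2) :=
    Int.mem (hi.comp IntF.fst') IntF.snd'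
  have h2 : Int M (fun q : IPow M (Dt M) × IPow M (Dt M) => ∀ a : Dt M, a ∈ q.1 ↔ h a ∈ q.2) := by
    refine Int.all (Int.iff ?_ ?_)
    · exact Int.mem IntF.snd' (IntF.fst IntF.fst')
    · exact Int.comp₂ (p := fun (a : Dt M) (B : IPow M (Dt M)) => h a ∈ B) h1 IntF.snd'
        (IntF.snd IntF.fst')
  refine Int.or ?_ ?_
  · refine Int.ex (Int.and ?_ ?_)
    · exact Int.eq (IntF.fst IntF.fst') (IntF.inl IntF.snd')
    · exact Int.eq (IntF.snd IntF.fst') (IntF.inl (hi.comp IntF.snd'))
  · refine Int.ex (Int.ex (Int.and ?_ (Int.and ?_ ?_)))
    · exact Int.eq (IntF.fst (IntF.fst IntF.fst')) (IntF.inr (IntF.snd IntF.fst'))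
    · exact Int.eq (IntF.snd (IntF.fst IntF.fst')) (IntF.inr IntF.snd')
    · exact Int.comp₂ (p := fun (B B' : IPow M (Dt M)) => ∀ a : Dt M, a ∈ B ↔ h a ∈ B') h2
        (IntF.val IntF.snd') (IntF.val (IntF.snd IntF.fst'))

/-- Finitary involutions act. -/
theorem exists_lift {h : Dt M → Dt M} (hi : IntF M h) (hh : ∀ a, h (h a) = a)
    (hc : FinP M (fun a => h a ≠ a)) : ∃ g ∈ (ZZ M).H, (∀ a, g.1.1 (Sum.inl a) =
      Sum.inl (h a)) ∧ ∀ B : Yt M, ∃ B' : Yt M, g.1.1 (Sum.inr B) = Sum.inr B' ∧
        ∀ a, a ∈ B'.1 ↔ h a ∈ B.1 := by
  have hS : ∀ B : IPow M (Dt M), Int M (fun a : Dt M => h a ∈ B) := fun B => by (repeat' (first | with_reducible exact IntF.id | with_reducible exact IntF.fst' | with_reducible exact IntF.snd' | with_reducible exact IntF.const _ | with_reducible exact Int.const _ | assumption | with_reducible apply Int.and | with_reducible apply Int.or | with_reducible apply Int.not | with_reducible apply Int.imp | with_reducible apply Int.iff | with_reducible apply Int.ne | with_reducible apply Int.eq | with_reducible apply Int.mem | with_reducible apply Int.subset | with_reducible apply Int.ltN | with_reducible apply Int.leN | with_reducible_and_instances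 apply Int.le | with_reducible_and_instances apply Int.lt | with_reducible apply Int.all | with_reducible apply Int.ex | with_reducible apply IntF.fst | with_reducible apply IntF.snd | with_reducible apply IntF.app | with_reducible apply IntF.inl | with_reducible apply IntF.inr | with_reducible_and_instances apply IntF.mul | with_reducible_and_instances apply IntF.inv | with_reducible_and_instances apply IntF.add | with_reducible_and_instances apply IntF.sub | with_reducible_and_instances apply IntF.neg | with_reducible_and_instances apply IntF.smul | with_reducible apply Int.fin | with_reducible apply IntF.sep | with_reducible apply IntF.lam | with_reducible apply IntF.insert | with_reducible apply IntF.singleton | with_reducible apply IntF.union | with_reducible apply IntF.iimage | with_reducible apply IntF.ite | with_reducible apply IntF.the | with_reducible apply IntF.irec | with_reducible apply IntF.succ | with_reducible apply IntF.val | with_reducible apply IntF.mk | (with_reducible refine Int.comp ?_ ?_; assumption) | (with_reducible refine Int.comp₂ ?_ ?_ ?_; assumption) | (with_reducible refine Int.comp₃ ?_ ?_ ?_ ?_; assumption) | (with_reducible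 refine Int.comp₄ ?_ ?_ ?_ ?_ ?_; assumption) | (with_reducible refine IntF.comp ?_ ?_; assumption) | (with_reducible refine IntF.comp₂ ?_ ?_ ?_; assumption) | (with_reducible refine IntF.comp₃ ?_ ?_ ?_ ?_; assumption) | with_reducible apply IntF.pair))
  let k : Xt M → Xt M := fun x => match x with
    | Sum.inl a => Sum.inl (h a)
    | Sum.inr B => Sum.inr ⟨sep M fun a => h a ∈ B.1, by
        obtain ⟨i, hB⟩ := B.2
        exact ⟨i, idx_pre hi hh hc hB⟩⟩
  have hk : IntF M k := by
    refine IntF.of_rel (r := fun x y => (∃ a, x = Sum.inl a ∧ y = Sum.inl (h a)) ∨
      ∃ (B B' : Yt M), x = Sum.inr B ∧ y = Sum.inr B' ∧ ∀ a, a ∈ B'.1 ↔ h a ∈ B.1)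
      (int_liftR hi) fun x y => ?_
    constructor
    · rintro (⟨a, rfl, rfl⟩ | ⟨B, B', rfl, rfl, h1⟩)
      · rfl
      · refine congrArg Sum.inr (Subtype.ext (IPow.ext' fun a => ?_))
        exact (mem_sep (hS B.1)).trans (h1 a).symm
    · rintro rfl
      rcases x with a | B
      · exact Or.inl ⟨a, rfl, rfl⟩
      · exact Or.inr ⟨B, _, rfl, rfl, fun a => mem_sep (hS B.1)⟩
  have hkk : ∀ x, k (k x) = x := by
    rintro (a | B)
    · exact congrArg Sum.inl (hh a)
    · refine congrArg Sum.inr (Subtype.ext (IPow.ext' fun a => ?_))
      change a ∈ sep M (fun a => h a ∈ sep M (fun a => h a ∈ B.1)) ↔ _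
      rw [mem_sep (hS _), mem_sep (hS _), hh]
  have himp : (∀ x, dm x → dm (k x)) ∧ (∀ x y, mm x y → mm (k x) (k y)) ∧
      ∀ y i, ii y i → ii (k y) i := by
    refine ⟨?_, ?_, ?_⟩
    · rintro _ ⟨a, rfl⟩
      exact ⟨h a, rfl⟩
    · rintro _ _ ⟨a, B, rfl, rfl, h1⟩
      refine ⟨h a, _, rfl, rfl, (mem_sep (hS B.1)).2 ?_⟩
      rw [hh]
      exact h1
    · rintro _ i ⟨B, rfl, h1⟩
      exact ⟨_, rfl, idx_pre hi hh hc h1⟩
  refine ⟨⟨(⟨k, hk⟩, ⟨k, hk⟩), hkk, hkk⟩, ⟨fun x => ⟨himp.1 x, fun h1 => ?_⟩,
    fun x y => ⟨himp.2.1 x y, fun h1 => ?_⟩, fun y i => ⟨himp.2.2 y i, fun h1 => ?_⟩⟩,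
    fun a => rfl, fun B => ⟨_, rfl, fun a => mem_sep (hS B.1)⟩⟩
  · have h2 := himp.1 _ h1
    change dm (k (k x)) at h2
    rwa [hkk] at h2
  · have h2 := himp.2.1 _ _ h1
    change mm (k (k x)) (k (k y)) at h2
    rwa [hkk, hkk] at h2
  · have h2 := himp.2.2 _ _ h1
    change ii (k (k y)) i at h2
    rwa [hkk] at h2

/-- The equivalence relation of a finite set of indices. -/
def rE (E : FS M (Xt M)) (a b : Dt M) : Prop :=
  a = b ∨ (¬ Sum.inl a ∈ E.1 ∧ ¬ Sum.inl b ∈ E.1 ∧ ∀ B : Yt M, Sum.inr B ∈ E.1 →
    (a ∈ B.1 ↔ b ∈ B.1))

theorem int_rE : Int M (fun q : (FS M (Xt M) × Dt M) × Dt M => rE q.1.1 q.1.2 q.2) := by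
  unfold rE
  (repeat' (first | with_reducible exact IntF.id | with_reducible exact IntF.fst' | with_reducible exact IntF.snd' | with_reducible exact IntF.const _ | with_reducible exact Int.const _ | assumption | with_reducible apply Int.and | with_reducible apply Int.or | with_reducible apply Int.not | with_reducible apply Int.imp | with_reducible apply Int.iff | with_reducible apply Int.ne | with_reducible apply Int.eq | with_reducible apply Int.mem | with_reducible apply Int.subset | with_reducible apply Int.ltN | with_reducible apply Int.leN | with_reducible_and_instances apply Int.le | with_reducible_and_instances apply Int.lt | with_reducible apply Int.all | with_reducible apply Int.ex | with_reducible apply IntF.fst | with_reducible apply IntF.snd | with_reducible apply IntF.app | with_reducible apply IntF.inl | with_reducible apply IntF.inr | with_reducible_and_instances apply IntF.mul | with_reducible_and_instances apply IntF.inv | with_reducible_and_instances apply IntF.add | with_reducible_and_instances apply IntF.sub | with_reducible_and_instances apply IntF.neg | with_reducible_and_instances apply IntF.smul | with_reducible apply Int.fin | with_reducible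 apply IntF.sep | with_reducible apply IntF.lam | with_reducible apply IntF.insert | with_reducible apply IntF.singleton | with_reducible apply IntF.union | with_reducible apply IntF.iimage | with_reducible apply IntF.ite | with_reducible apply IntF.the | with_reducible apply IntF.irec | with_reducible apply IntF.succ | with_reducible apply IntF.val | with_reducible apply IntF.mk | (with_reducible refine Int.comp ?_ ?_; assumption) | (with_reducible refine Int.comp₂ ?_ ?_ ?_; assumption) | (with_reducible refine Int.comp₃ ?_ ?_ ?_ ?_; assumption) | (with_reducible refine Int.comp₄ ?_ ?_ ?_ ?_ ?_; assumption) | (with_reducible refine IntF.comp ?_ ?_; assumption) | (with_reducible refine IntF.comp₂ ?_ ?_ ?_; assumption) | (with_reducible refine IntF.comp₃ ?_ ?_ ?_ ?_; assumption) | with_reducible apply IntF.pair))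

theorem rE_refl (E : FS M (Xt M)) (a : Dt M) : rE E a a := Or.inl rfl

theorem rE_symm {E : FS M (Xt M)} {a b : Dt M} (h : rE E a b) : rE E b a := by
  rcases h with h | ⟨h1, h2, h3⟩
  · exact Or.inl h.symm
  · exact Or.inr ⟨h2, h1, fun B hB => (h3 B hB).symm⟩

theorem rE_trans {E : FS M (Xt M)} {a b c : Dt M} (h : rE E a b) (h' : rE E b c) : rE E a c := by
  rcases h with rfl | ⟨h1, h2, h3⟩
  · exact h'
  rcases h' with rfl | ⟨h1', h2', h3'⟩
  · exact Or.inr ⟨h1, h2, h3⟩
  · exact Or.inr ⟨h1, h2', fun B hB => (h3 B hB).trans (h3' B hB)⟩

theorem rE_mono {E E' : FS M (Xt M)} (h : ∀ x, x ∈ E.1 → x ∈ E'.1) {a b : Dt M}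
    (hr : rE E' a b) : rE E a b := by
  rcases hr with hr | ⟨h1, h2, h3⟩
  · exact Or.inl hr
  · exact Or.inr ⟨fun h4 => h1 (h _ h4), fun h4 => h2 (h _ h4), fun B hB => h3 B (h _ hB)⟩

theorem rE_part {E : FS M (Xt M)} {a b : Dt M} (hr : rE E a b) {B : Yt M}
    (hB : Sum.inr B ∈ E.1) : a ∈ B.1 ↔ b ∈ B.1 := by
  rcases hr with rfl | ⟨h1, h2, h3⟩
  · rfl
  · exact h3 B hB

/-- An involution that preserves the classes fixes the support. -/
theorem fix_of_lift {E : FS M (Xt M)} {h : Dt M → Dt M} (hE : ∀ a, rE E a (h a))
    {g : IPerm M (Xt M)} (h1 : ∀ a, g.1.1 (Sum.inl a) = Sum.inl (h a))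
    (h2 : ∀ B : Yt M, ∃ B' : Yt M, g.1.1 (Sum.inr B) = Sum.inr B' ∧ ∀ a, a ∈ B'.1 ↔ h a ∈ B.1) :
    ∀ x, x ∈ E.1 → g.1.1 x = x := by
  rintro (a | B) hx
  · rw [h1]
    rcases hE a with h3 | h3
    · rw [← h3]
    · exact absurd hx h3.1
  · obtain ⟨B', h3, h4⟩ := h2 B
    rw [h3]
    refine congrArg Sum.inr (Subtype.ext (IPow.ext' fun a => ?_))
    rw [h4]
    exact (rE_part (hE a) hx).symm

/-- Transpositions. -/
theorem exists_tr {E : FS M (Xt M)} {y y' : Dt M} (hr : rE E y y') : ∃ g ∈ (ZZ M).H,
    (∀ x, x ∈ E.1 → g.1.1 x = x) ∧ g.1.1 (Sum.inl y) = Sum.inl y' ∧
      ∀ a, a ≠ y → a ≠ y' → g.1.1 (Sum.inl a) = Sum.inl a := by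
  classical
  have hi : IntF M (fun a : Dt M => if a = y then y' else if a = y' then y else a) := by (repeat' (first | with_reducible exact IntF.id | with_reducible exact IntF.fst' | with_reducible exact IntF.snd' | with_reducible exact IntF.const _ | with_reducible exact Int.const _ | assumption | with_reducible apply Int.and | with_reducible apply Int.or | with_reducible apply Int.not | with_reducible apply Int.imp | with_reducible apply Int.iff | with_reducible apply Int.ne | with_reducible apply Int.eq | with_reducible apply Int.mem | with_reducible apply Int.subset | with_reducible apply Int.ltN | with_reducible apply Int.leN | with_reducible_and_instances apply Int.le | with_reducible_and_instances apply Int.lt | with_reducible apply Int.all | with_reducible apply Int.ex | with_reducible apply IntF.fst | with_reducible apply IntF.snd | with_reducible apply IntF.app | with_reducible apply IntF.inl | with_reducible apply IntF.inr | with_reducible_and_instances apply IntF.mul | with_reducible_and_instances apply IntF.inv | with_reducible_and_instances apply IntF.add | with_reducible_and_instances apply IntF.sub | with_reducible_and_instances apply IntF.neg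 | with_reducible_and_instances apply IntF.smul | with_reducible apply Int.fin | with_reducible apply IntF.sep | with_reducible apply IntF.lam | with_reducible apply IntF.insert | with_reducible apply IntF.singleton | with_reducible apply IntF.union | with_reducible apply IntF.iimage | with_reducible apply IntF.ite | with_reducible apply IntF.the | with_reducible apply IntF.irec | with_reducible apply IntF.succ | with_reducible apply IntF.val | with_reducible apply IntF.mk | (with_reducible refine Int.comp ?_ ?_; assumption) | (with_reducible refine Int.comp₂ ?_ ?_ ?_; assumption) | (with_reducible refine Int.comp₃ ?_ ?_ ?_ ?_; assumption) | (with_reducible refine Int.comp₄ ?_ ?_ ?_ ?_ ?_; assumption) | (with_reducible refine IntF.comp ?_ ?_; assumption) | (with_reducible refine IntF.comp₂ ?_ ?_ ?_; assumption) | (with_reducible refine IntF.comp₃ ?_ ?_ ?_ ?_; assumption) | with_reducible apply IntF.pair))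
  have hh : ∀ a : Dt M, (if (if a = y then y' else if a = y' then y else a) = y then y' else
      if (if a = y then y' else if a = y' then y else a) = y' then y else
        (if a = y then y' else if a = y' then y else a)) = a := by
    intro a
    by_cases h1 : a = y
    · subst h1
      by_cases h2 : y' = a
      · simp [h2]
      · simp [h2]
    · by_cases h2 : a = y'
      · subst h2
        simp [h1]
      · simp [h1, h2]
  obtain ⟨g, hg, h1, h2⟩ := exists_lift hi hh (by
    refine ((FinP.eq y).or (FinP.eq y')).mono fun a ha => ?_
    by_contra hc
    push Not at hc
    exact ha (by rw [if_neg hc.1, if_neg hc.2]))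
  refine ⟨g, hg, fix_of_lift (fun a => ?_) h1 h2, ?_, fun a ha ha' => ?_⟩
  · by_cases h3 : a = y
    · subst h3
      simp only [if_true]
      exact hr
    · by_cases h4 : a = y'
      · subst h4
        simp only [if_neg h3, if_true]
        exact rE_symm hr
      · simp only [if_neg h3, if_neg h4]
        exact rE_refl _ _
  · rw [h1, if_pos rfl]
  · rw [h1, if_neg ha, if_neg ha']

/-- The finite sets of indices with an upper bound for the indices. -/
def Bd (E : FS M (Xt M)) (N : INat M) : Prop :=
  ∀ B : Yt M, Sum.inr B ∈ E.1 → ∃ i, i ≤ N ∧ idx B.1 i

theorem exists_Bd (E : FS M (Xt M)) (N : INat M) : ∃ N', N ≤ N' ∧ Bd E N' := by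
  have hI := int_idx (M := M)
  obtain ⟨N', hN'⟩ := IFin.exists_bound (r := fun (x : Xt M) (N : INat M) => ∀ B : Yt M,
    x = Sum.inr B → ∃ i, i ≤ N ∧ idx B.1 i) (by (repeat' (first | with_reducible exact IntF.id | with_reducible exact IntF.fst' | with_reducible exact IntF.snd' | with_reducible exact IntF.const _ | with_reducible exact Int.const _ | assumption | with_reducible apply Int.and | with_reducible apply Int.or | with_reducible apply Int.not | with_reducible apply Int.imp | with_reducible apply Int.iff | with_reducible apply Int.ne | with_reducible apply Int.eq | with_reducible apply Int.mem | with_reducible apply Int.subset | with_reducible apply Int.ltN | with_reducible apply Int.leN | with_reducible_and_instances apply Int.le | with_reducible_and_instances apply Int.lt | with_reducible apply Int.all | with_reducible apply Int.ex | with_reducible apply IntF.fst | with_reducible apply IntF.snd | with_reducible apply IntF.app | with_reducible apply IntF.inl | with_reducible apply IntF.inr | with_reducible_and_instances apply IntF.mul | with_reducible_and_instances apply IntF.inv | with_reducible_and_instances apply IntF.add | with_reducible_and_instances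 apply IntF.sub | with_reducible_and_instances apply IntF.neg | with_reducible_and_instances apply IntF.smul | with_reducible apply Int.fin | with_reducible apply IntF.sep | with_reducible apply IntF.lam | with_reducible apply IntF.insert | with_reducible apply IntF.singleton | with_reducible apply IntF.union | with_reducible apply IntF.iimage | with_reducible apply IntF.ite | with_reducible apply IntF.the | with_reducible apply IntF.irec | with_reducible apply IntF.succ | with_reducible apply IntF.val | with_reducible apply IntF.mk | (with_reducible refine Int.comp ?_ ?_; assumption) | (with_reducible refine Int.comp₂ ?_ ?_ ?_; assumption) | (with_reducible refine Int.comp₃ ?_ ?_ ?_ ?_; assumption) | (with_reducible refine Int.comp₄ ?_ ?_ ?_ ?_ ?_; assumption) | (with_reducible refine IntF.comp ?_ ?_; assumption) | (with_reducible refine IntF.comp₂ ?_ ?_ ?_; assumption) | (with_reducible refine IntF.comp₃ ?_ ?_ ?_ ?_; assumption) | with_reducible apply IntF.pair))) (fun b c => ⟨max b c, fun a h B hB => by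
      rcases h with h | h
      · obtain ⟨i, h1, h2⟩ := h B hB
        exact ⟨i, h1.trans (le_max_left _ _), h2⟩
      · obtain ⟨i, h1, h2⟩ := h B hB
        exact ⟨i, h1.trans (le_max_right _ _), h2⟩⟩) ⟨0⟩ E.2 fun x _ => by
      rcases x with a | B
      · exact ⟨0, fun B hB => by cases hB⟩
      · obtain ⟨i, hi⟩ := B.2
        exact ⟨i, fun B' hB' => by cases hB'; exact ⟨i, le_rfl, hi⟩⟩
  refine ⟨max N N', le_max_left _ _, fun B hB => ?_⟩
  obtain ⟨i, h1, h2⟩ := hN' _ hB B rfl
  exact ⟨i, h1.trans (le_max_right _ _), h2⟩

theorem finP_inl (E : FS M (Xt M)) : FinP M (fun a : Dt M => (Sum.inl a : Xt M) ∈ E.1) :=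
  FinP.of_inj (p := fun a : Dt M => (Sum.inl a : Xt M) ∈ E.1) (by (repeat' (first | with_reducible exact IntF.id | with_reducible exact IntF.fst' | with_reducible exact IntF.snd' | with_reducible exact IntF.const _ | with_reducible exact Int.const _ | assumption | with_reducible apply Int.and | with_reducible apply Int.or | with_reducible apply Int.not | with_reducible apply Int.imp | with_reducible apply Int.iff | with_reducible apply Int.ne | with_reducible apply Int.eq | with_reducible apply Int.mem | with_reducible apply Int.subset | with_reducible apply Int.ltN | with_reducible apply Int.leN | with_reducible_and_instances apply Int.le | with_reducible_and_instances apply Int.lt | with_reducible apply Int.all | with_reducible apply Int.ex | with_reducible apply IntF.fst | with_reducible apply IntF.snd | with_reducible apply IntF.app | with_reducible apply IntF.inl | with_reducible apply IntF.inr | with_reducible_and_instances apply IntF.mul | with_reducible_and_instances apply IntF.inv | with_reducible_and_instances apply IntF.add | with_reducible_and_instances apply IntF.sub | with_reducible_and_instances apply IntF.neg | with_reducible_and_instances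 apply IntF.smul | with_reducible apply Int.fin | with_reducible apply IntF.sep | with_reducible apply IntF.lam | with_reducible apply IntF.insert | with_reducible apply IntF.singleton | with_reducible apply IntF.union | with_reducible apply IntF.iimage | with_reducible apply IntF.ite | with_reducible apply IntF.the | with_reducible apply IntF.irec | with_reducible apply IntF.succ | with_reducible apply IntF.val | with_reducible apply IntF.mk | (with_reducible refine Int.comp ?_ ?_; assumption) | (with_reducible refine Int.comp₂ ?_ ?_ ?_; assumption) | (with_reducible refine Int.comp₃ ?_ ?_ ?_ ?_; assumption) | (with_reducible refine Int.comp₄ ?_ ?_ ?_ ?_ ?_; assumption) | (with_reducible refine IntF.comp ?_ ?_; assumption) | (with_reducible refine IntF.comp₂ ?_ ?_ ?_; assumption) | (with_reducible refine IntF.comp₃ ?_ ?_ ?_ ?_; assumption) | with_reducible apply IntF.pair)))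
    (f := fun a : Dt M => (Sum.inl a : Xt M)) IntF.inl' (fun _ _ _ _ h => Sum.inl.inj h)
    (q := fun x => x ∈ E.1) ⟨E.1, E.2, fun _ h => h⟩ fun _ h => h

/-- Almost all points are equivalent to their translates. -/
theorem Bd.trans {E : FS M (Xt M)} {N : INat M} (hE : Bd E N) {c : Dt M}
    (hc : ∀ j, j ∈ c.1 → N < j) : FinP M (fun a => ¬ rE E a (xr a c)) := by
  have hxc : IntF M (fun a : Dt M => xr a c) :=
    IntF.comp₂ (p := fun a b : Dt M => xr a b) int_xr IntF.id (IntF.const c)
  have hxi : ∀ p : Dt M → Prop, Int M p → FinP M p → FinP M (fun a => p (xr a c)) := by
    intro p hpi hp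
    exact FinP.of_inj (p := fun a => p (xr a c)) (hpi.comp hxc) (f := fun a => xr a c) hxc
      (fun _ _ _ _ h => xr_inj h) hp fun _ h => h
  have h1 := finP_inl E
  have h2 := hxi (fun a : Dt M => (Sum.inl a : Xt M) ∈ E.1)
    (Int.mem (IntF.inl IntF.id) (IntF.const _)) h1
  have hRi : Int M (fun q : Xt M × Dt M => ∃ B : Yt M,
      q.1 = Sum.inr B ∧ ¬ (q.2 ∈ B.1 ↔ xr q.2 c ∈ B.1)) := by
    refine Int.ex (Int.and ?_ (Helper672.ZFA.Int.not (Int.iff ?_ ?_)))
    · exact Int.eq (IntF.fst IntF.fst') (IntF.inr IntF.snd')
    · exact Int.mem (IntF.snd IntF.fst') (IntF.val IntF.snd')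
    · exact Int.mem (hxc.comp (IntF.snd IntF.fst')) (IntF.val IntF.snd')
  have h3 : FinP M (fun a : Dt M => ∃ x : Xt M, x ∈ E.1 ∧ ∃ B : Yt M, x = Sum.inr B ∧
      ¬ (a ∈ B.1 ↔ xr a c ∈ B.1)) := by
    refine FinP.bUnion (P := fun x : Xt M => x ∈ E.1) (R := fun q : Xt M × Dt M => ∃ B : Yt M,
      q.1 = Sum.inr B ∧ ¬ (q.2 ∈ B.1 ↔ xr q.2 c ∈ B.1)) ⟨E.1, E.2, fun _ h => h⟩
      (Int.mem IntF.id (IntF.const _)) hRi fun x hxE => ?_
    rcases x with a | B
    · exact ⟨∅, IFin.empty, fun b ⟨B, hB, _⟩ => by cases hB⟩
    · obtain ⟨i, hi, hB⟩ := hE B hxE
      have hic : ¬ i ∈ c.1 := fun h => absurd (hc i h) (not_lt.2 hi)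
      have h4 : ∀ b : Dt M, i ∈ (xr b c).1 ↔ i ∈ b.1 := fun b => by rw [mem_xr]; tauto
      have hi1 : Int M (fun a : Dt M => (a ∈ B.1 ↔ i ∈ a.1)) :=
        Int.iff (Int.mem IntF.id (IntF.const _)) (Int.mem (IntF.const _) (IntF.val IntF.id))
      have h5 := idx_iff.1 hB
      have h6 := hxi _ (Helper672.ZFA.Int.not hi1) h5
      refine (h5.or h6).mono ?_
      rintro b ⟨B', hB', h7⟩
      cases hB'
      rw [h4]
      tauto
  refine ((h1.or h2).or h3).mono fun a ha => ?_
  by_contra hc'
  push Not at hc'
  obtain ⟨⟨h4, h5⟩, h6⟩ := hc'
  refine ha (Or.inr ⟨h4, h5, fun B hB => ?_⟩)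
  exact h6 _ hB B rfl

/-- Transversals. -/
theorem exists_T (E : FS M (Xt M)) : ∃ T : Dt M → Prop, Int M T ∧ FinP M T ∧
    ∀ a, ∃ b, T b ∧ rE E a b := by
  have hr := int_rE (M := M)
  have hτ : IntF M (fun a : Dt M => sep M fun x : Xt M => x ∈ E.1 ∧ mm (Sum.inl a) x) := by
    have h := int_mm (M := M)
    refine IntF.sep ?_
    (repeat' (first | with_reducible exact IntF.id | with_reducible exact IntF.fst' | with_reducible exact IntF.snd' | with_reducible exact IntF.const _ | with_reducible exact Int.const _ | assumption | with_reducible apply Int.and | with_reducible apply Int.or | with_reducible apply Int.not | with_reducible apply Int.imp | with_reducible apply Int.iff | with_reducible apply Int.ne | with_reducible apply Int.eq | with_reducible apply Int.mem | with_reducible apply Int.subset | with_reducible apply Int.ltN | with_reducible apply Int.leN | with_reducible_and_instances apply Int.le | with_reducible_and_instances apply Int.lt | with_reducible apply Int.all | with_reducible apply Int.ex | with_reducible apply IntF.fst | with_reducible apply IntF.snd | with_reducible apply IntF.app | with_reducible apply IntF.inl | with_reducible apply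 IntF.inr | with_reducible_and_instances apply IntF.mul | with_reducible_and_instances apply IntF.inv | with_reducible_and_instances apply IntF.add | with_reducible_and_instances apply IntF.sub | with_reducible_and_instances apply IntF.neg | with_reducible_and_instances apply IntF.smul | with_reducible apply Int.fin | with_reducible apply IntF.sep | with_reducible apply IntF.lam | with_reducible apply IntF.insert | with_reducible apply IntF.singleton | with_reducible apply IntF.union | with_reducible apply IntF.iimage | with_reducible apply IntF.ite | with_reducible apply IntF.the | with_reducible apply IntF.irec | with_reducible apply IntF.succ | with_reducible apply IntF.val | with_reducible apply IntF.mk | (with_reducible refine Int.comp ?_ ?_; assumption) | (with_reducible refine Int.comp₂ ?_ ?_ ?_; assumption) | (with_reducible refine Int.comp₃ ?_ ?_ ?_ ?_; assumption) | (with_reducible refine Int.comp₄ ?_ ?_ ?_ ?_ ?_; assumption) | (with_reducible refine IntF.comp ?_ ?_; assumption) | (with_reducible refine IntF.comp₂ ?_ ?_ ?_; assumption) | (with_reducible refine IntF.comp₃ ?_ ?_ ?_ ?_; assumption) | with_reducible apply IntF.pair))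
  have hm := int_mm (M := M)
  have hbd := IFin.exists_bound (α := IPow M (Xt M)) (r := fun (t : IPow M (Xt M))
      (T : FS M (Dt M)) => (∃ a : Dt M, ¬ (Sum.inl a : Xt M) ∈ E.1 ∧ ∀ x : Xt M, x ∈ t ↔
        (x ∈ E.1 ∧ mm (Sum.inl a) x)) → ∃ b : Dt M, b ∈ T.1 ∧ ¬ (Sum.inl b : Xt M) ∈ E.1 ∧
        ∀ x : Xt M, x ∈ t ↔ (x ∈ E.1 ∧ mm (Sum.inl b) x)) (by (repeat' (first | with_reducible exact IntF.id | with_reducible exact IntF.fst' | with_reducible exact IntF.snd' | with_reducible exact IntF.const _ | with_reducible exact Int.const _ | assumption | with_reducible apply Int.and | with_reducible apply Int.or | with_reducible apply Int.not | with_reducible apply Int.imp | with_reducible apply Int.iff | with_reducible apply Int.ne | with_reducible apply Int.eq | with_reducible apply Int.mem | with_reducible apply Int.subset | with_reducible apply Int.ltN | with_reducible apply Int.leN | with_reducible_and_instances apply Int.le | with_reducible_and_instances apply Int.lt | with_reducible apply Int.all | with_reducible apply Int.ex | with_reducible apply IntF.fst | with_reducible apply IntF.snd | with_reducible apply IntF.app | with_reducible apply IntF.inl | with_reducible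 apply IntF.inr | with_reducible_and_instances apply IntF.mul | with_reducible_and_instances apply IntF.inv | with_reducible_and_instances apply IntF.add | with_reducible_and_instances apply IntF.sub | with_reducible_and_instances apply IntF.neg | with_reducible_and_instances apply IntF.smul | with_reducible apply Int.fin | with_reducible apply IntF.sep | with_reducible apply IntF.lam | with_reducible apply IntF.insert | with_reducible apply IntF.singleton | with_reducible apply IntF.union | with_reducible apply IntF.iimage | with_reducible apply IntF.ite | with_reducible apply IntF.the | with_reducible apply IntF.irec | with_reducible apply IntF.succ | with_reducible apply IntF.val | with_reducible apply IntF.mk | (with_reducible refine Int.comp ?_ ?_; assumption) | (with_reducible refine Int.comp₂ ?_ ?_ ?_; assumption) | (with_reducible refine Int.comp₃ ?_ ?_ ?_ ?_; assumption) | (with_reducible refine Int.comp₄ ?_ ?_ ?_ ?_ ?_; assumption) | (with_reducible refine IntF.comp ?_ ?_; assumption) | (with_reducible refine IntF.comp₂ ?_ ?_ ?_; assumption) | (with_reducible refine IntF.comp₃ ?_ ?_ ?_ ?_; assumption) | with_reducible apply IntF.pair)))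
    (fun T T' => ⟨fsu T T', fun t h h' => by
      rcases h with h | h
      · obtain ⟨b, h1, h2⟩ := h h'
        exact ⟨b, mem_union.2 (Or.inl h1), h2⟩
      · obtain ⟨b, h1, h2⟩ := h h'
        exact ⟨b, mem_union.2 (Or.inr h1), h2⟩⟩) ⟨⟨∅, IFin.empty⟩⟩ (s := ipow E.1) E.2.pow
    fun t _ => by
      by_cases h : ∃ a : Dt M, ¬ (Sum.inl a : Xt M) ∈ E.1 ∧ ∀ x : Xt M, x ∈ t ↔
        (x ∈ E.1 ∧ mm (Sum.inl a) x)
      · obtain ⟨a, ha⟩ := h
        exact ⟨⟨{a}, IFin.singleton a⟩, fun _ => ⟨a, mem_singleton.2 rfl, ha⟩⟩
      · exact ⟨⟨∅, IFin.empty⟩, fun h' => absurd h' h⟩
  obtain ⟨T, hT⟩ := hbd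
  refine ⟨fun b => b ∈ T.1 ∨ (Sum.inl b : Xt M) ∈ E.1, by (repeat' (first | with_reducible exact IntF.id | with_reducible exact IntF.fst' | with_reducible exact IntF.snd' | with_reducible exact IntF.const _ | with_reducible exact Int.const _ | assumption | with_reducible apply Int.and | with_reducible apply Int.or | with_reducible apply Int.not | with_reducible apply Int.imp | with_reducible apply Int.iff | with_reducible apply Int.ne | with_reducible apply Int.eq | with_reducible apply Int.mem | with_reducible apply Int.subset | with_reducible apply Int.ltN | with_reducible apply Int.leN | with_reducible_and_instances apply Int.le | with_reducible_and_instances apply Int.lt | with_reducible apply Int.all | with_reducible apply Int.ex | with_reducible apply IntF.fst | with_reducible apply IntF.snd | with_reducible apply IntF.app | with_reducible apply IntF.inl | with_reducible apply IntF.inr | with_reducible_and_instances apply IntF.mul | with_reducible_and_instances apply IntF.inv | with_reducible_and_instances apply IntF.add | with_reducible_and_instances apply IntF.sub | with_reducible_and_instances apply IntF.neg | with_reducible_and_instances apply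 IntF.smul | with_reducible apply Int.fin | with_reducible apply IntF.sep | with_reducible apply IntF.lam | with_reducible apply IntF.insert | with_reducible apply IntF.singleton | with_reducible apply IntF.union | with_reducible apply IntF.iimage | with_reducible apply IntF.ite | with_reducible apply IntF.the | with_reducible apply IntF.irec | with_reducible apply IntF.succ | with_reducible apply IntF.val | with_reducible apply IntF.mk | (with_reducible refine Int.comp ?_ ?_; assumption) | (with_reducible refine Int.comp₂ ?_ ?_ ?_; assumption) | (with_reducible refine Int.comp₃ ?_ ?_ ?_ ?_; assumption) | (with_reducible refine Int.comp₄ ?_ ?_ ?_ ?_ ?_; assumption) | (with_reducible refine IntF.comp ?_ ?_; assumption) | (with_reducible refine IntF.comp₂ ?_ ?_ ?_; assumption) | (with_reducible refine IntF.comp₃ ?_ ?_ ?_ ?_; assumption) | with_reducible apply IntF.pair)),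
    FinP.or ⟨T.1, T.2, fun _ h => h⟩ (finP_inl E), fun a => ?_⟩
  by_cases ha : (Sum.inl a : Xt M) ∈ E.1
  · exact ⟨a, Or.inr ha, rE_refl _ _⟩
  · have hS : Int M (fun x : Xt M => x ∈ E.1 ∧ mm (Sum.inl a) x) := by (repeat' (first | with_reducible exact IntF.id | with_reducible exact IntF.fst' | with_reducible exact IntF.snd' | with_reducible exact IntF.const _ | with_reducible exact Int.const _ | assumption | with_reducible apply Int.and | with_reducible apply Int.or | with_reducible apply Int.not | with_reducible apply Int.imp | with_reducible apply Int.iff | with_reducible apply Int.ne | with_reducible apply Int.eq | with_reducible apply Int.mem | with_reducible apply Int.subset | with_reducible apply Int.ltN | with_reducible apply Int.leN | with_reducible_and_instances apply Int.le | with_reducible_and_instances apply Int.lt | with_reducible apply Int.all | with_reducible apply Int.ex | with_reducible apply IntF.fst | with_reducible apply IntF.snd | with_reducible apply IntF.app | with_reducible apply IntF.inl | with_reducible apply IntF.inr | with_reducible_and_instances apply IntF.mul | with_reducible_and_instances apply IntF.inv | with_reducible_and_instances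 apply IntF.add | with_reducible_and_instances apply IntF.sub | with_reducible_and_instances apply IntF.neg | with_reducible_and_instances apply IntF.smul | with_reducible apply Int.fin | with_reducible apply IntF.sep | with_reducible apply IntF.lam | with_reducible apply IntF.insert | with_reducible apply IntF.singleton | with_reducible apply IntF.union | with_reducible apply IntF.iimage | with_reducible apply IntF.ite | with_reducible apply IntF.the | with_reducible apply IntF.irec | with_reducible apply IntF.succ | with_reducible apply IntF.val | with_reducible apply IntF.mk | (with_reducible refine Int.comp ?_ ?_; assumption) | (with_reducible refine Int.comp₂ ?_ ?_ ?_; assumption) | (with_reducible refine Int.comp₃ ?_ ?_ ?_ ?_; assumption) | (with_reducible refine Int.comp₄ ?_ ?_ ?_ ?_ ?_; assumption) | (with_reducible refine IntF.comp ?_ ?_; assumption) | (with_reducible refine IntF.comp₂ ?_ ?_ ?_; assumption) | (with_reducible refine IntF.comp₃ ?_ ?_ ?_ ?_; assumption) | with_reducible apply IntF.pair))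
    obtain ⟨b, h1, h2, h3⟩ := hT (sep M fun x : Xt M => x ∈ E.1 ∧ mm (Sum.inl a) x)
      (mem_ipow.2 fun x hx => ((mem_sep hS).1 hx).1) ⟨a, ha, fun x => mem_sep hS⟩
    refine ⟨b, Or.inl h1, Or.inr ⟨ha, h2, fun B hB => ?_⟩⟩
    have h4 := h3 (Sum.inr B)
    rw [mem_sep hS] at h4
    have h5 : ∀ a : Dt M, mm (Sum.inl a) (Sum.inr B) ↔ a ∈ B.1 := by
      intro a
      constructor
      · rintro ⟨a', B', e1, e2, h6⟩
        cases e1
        cases e2
        exact h6
      · exact fun h6 => ⟨a, B, rfl, rfl, h6⟩
    rw [h5, h5] at h4
    tauto

end Pool.Agent.V11257N
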