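import Pool.Agent.V11257.Nm4

/-!
# Almost coordinates: the sorts in the extension
-/

set_option maxHeartbeats 1000000
set_option linter.all false
set_option synthInstance.maxSize 2000

namespace Pool.Agent.V11257N

open FirstOrder FirstOrder.Language
open Pool.Agent.Helper672.ZFA
open Pool.Agent.Helper672.ZFA.H635 (IPerm IsGen NN EqFam CollL nn_ext exists_mk mk_eq_nd)
open Pool.Agent.Helper672.ZFA.H310M
open Pool.Agent.H310
open Pool.Agent.H310.NA (fin_img)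

universe u

section sorts

variable {M : Type u} [L.Structure M] [hM : IsModel M]
variable {G : Set (Co M (Xt M))} (hG : IsGen M G) (hC : CollL M)

/-- The extension. -/
abbrev Nx : Type u := NN (SS (ZZ M)) hG

theorem exists_AD : ∃ z : Nx hG, ∀ w, Mem w z ↔ ∃ x, dm x ∧ w = cc (ZZ M) hG x :=
  EF.set hG (ef_cc hG) (Y := fun x => dm x) int_dm (E := fs0 M (Xt M))
    fun g hg _ c hc => (hg.1 c).1 hc

theorem exists_AY : ∃ z : Nx hG, ∀ w, Mem w z ↔ ∃ x, ¬ dm x ∧ w = cc (ZZ M) hG x :=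
  EF.set hG (ef_cc hG) (Y := fun x => ¬ dm x) (Helper672.ZFA.Int.not int_dm) (E := fs0 M (Xt M))
    fun g hg _ c hc h => hc ((hg.1 c).2 h)

/-- The first sort. -/
noncomputable def AD : Nx hG := (exists_AD hG).choose

/-- The second sort. -/
noncomputable def AY : Nx hG := (exists_AY hG).choose

theorem mem_AD {w : Nx hG} : Mem w (AD hG) ↔ ∃ a : Dt M, w = cc (ZZ M) hG (Sum.inl a) := by
  refine ((exists_AD hG).choose_spec w).trans ⟨?_, ?_⟩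
  · rintro ⟨x, ⟨a, rfl⟩, h⟩
    exact ⟨a, h⟩
  · rintro ⟨a, h⟩
    exact ⟨_, ⟨a, rfl⟩, h⟩

theorem mem_AY {w : Nx hG} : Mem w (AY hG) ↔ ∃ B : Yt M, w = cc (ZZ M) hG (Sum.inr B) := by
  refine ((exists_AY hG).choose_spec w).trans ⟨?_, ?_⟩
  · rintro ⟨a | B, h1, h⟩
    · exact absurd ⟨a, rfl⟩ h1
    · exact ⟨B, h⟩
  · rintro ⟨B, h⟩
    refine ⟨_, ?_, h⟩
    rintro ⟨a, ha⟩
    cases ha

/-- The elements of the first sort. -/
noncomputable def dA (a : Dt M) : El (AD hG) := ⟨cc (ZZ M) hG (Sum.inl a), (mem_AD hG).2 ⟨a, rfl⟩⟩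

/-- The elements of the second sort. -/
noncomputable def yA (B : Yt M) : El (AY hG) := ⟨cc (ZZ M) hG (Sum.inr B), (mem_AY hG).2 ⟨B, rfl⟩⟩

theorem dA_inj {a b : Dt M} : dA hG a = dA hG b ↔ a = b :=
  ⟨fun h => Sum.inl.inj ((cc_inj hG).1 (congrArg Subtype.val h)), fun h => h ▸ rfl⟩

theorem dA_surj (x : El (AD hG)) : ∃ a, dA hG a = x := by
  obtain ⟨a, ha⟩ := (mem_AD hG).1 x.2
  exact ⟨a, Subtype.ext ha.symm⟩

theorem yA_surj (x : El (AY hG)) : ∃ B, yA hG B = x := by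
  obtain ⟨B, hB⟩ := (mem_AY hG).1 x.2
  exact ⟨B, Subtype.ext hB.symm⟩

theorem int_mem1 (z : Nx hG) {A : Nx hG} : Int (Nx hG) (fun x : El A => Mem x.1 z) :=
  ⟨z, fun _ => Iff.rfl⟩

theorem int_mem2 (z : Nx hG) {A B : Nx hG} :
    Int (Nx hG) (fun q : El A × El B => Mem (op q.1.1 q.2.1) z) := ⟨z, fun _ => Iff.rfl⟩

theorem int_mem2n (z : Nx hG) {A : Nx hG} :
    Int (Nx hG) (fun q : El A × INat (Nx hG) => Mem (op q.1.1 q.2.val) z) := ⟨z, fun _ => Iff.rfl⟩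

theorem ef2 : EF (ZZ M) hG (fun g (q : Xt M × Xt M) => (g.1.1 q.1, g.1.1 q.2))
    (fun q => op (cc (ZZ M) hG q.1) (cc (ZZ M) hG q.2)) := by
  refine EF.op hG (fun g b => ?_) ?_ ?_
  · exact Prod.ext (g.2.2 _) (g.2.2 _)
  · exact EF.comp hG (ef_cc hG) (φ := fun q : Xt M × Xt M => q.1) IntF.fst' fun _ _ => rfl
  · exact EF.comp hG (ef_cc hG) (φ := fun q : Xt M × Xt M => q.2) IntF.snd' fun _ _ => rfl

theorem ef1n : EF (ZZ M) hG (fun g (q : Xt M × INat M) => (g.1.1 q.1, q.2))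
    (fun q => op (cc (ZZ M) hG q.1) (nn (ZZ M) hG q.2)) := by
  refine EF.op hG (fun g b => ?_) ?_ ?_
  · exact Prod.ext (g.2.2 _) rfl
  · exact EF.comp hG (ef_cc hG) (φ := fun q : Xt M × INat M => q.1) IntF.fst' fun _ _ => rfl
  · exact EF.comp hG (ef_nn hG) (φ := fun q : Xt M × INat M => q.2) IntF.snd' fun _ _ => rfl

theorem ef2n : EF (ZZ M) hG (fun g (q : (Xt M × Xt M) × INat M) =>
    ((g.1.1 q.1.1, g.1.1 q.1.2), q.2)) (fun q => op (op (cc (ZZ M) hG q.1.1)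
      (cc (ZZ M) hG q.1.2)) (nn (ZZ M) hG q.2)) := by
  refine EF.op hG (fun g b => ?_) ?_ ?_
  · exact Prod.ext (Prod.ext (g.2.2 _) (g.2.2 _)) rfl
  · exact EF.comp hG (ef2 hG) (φ := fun q : (Xt M × Xt M) × INat M => q.1) IntF.fst'
      fun _ _ => rfl
  · exact EF.comp hG (ef_nn hG) (φ := fun q : (Xt M × Xt M) × INat M => q.2) IntF.snd'
      fun _ _ => rfl

/-- Membership in the extension. -/
theorem exists_mem : ∃ mem : El (AD hG) × El (AY hG) → Prop, Int (Nx hG) mem ∧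
    ∀ a B, mem (dA hG a, yA hG B) ↔ a ∈ B.1 := by
  obtain ⟨z, hz⟩ := EF.set hG (ef2 hG) (Y := fun q => mm q.1 q.2) int_mm (E := fs0 M (Xt M))
    fun g hg _ c hc => (hg.2.1 c.1 c.2).1 hc
  refine ⟨_, int_mem2 hG z, fun a B => ?_⟩
  refine (hz _).trans ⟨?_, fun h => ⟨(Sum.inl a, Sum.inr B), ⟨a, B, rfl, rfl, h⟩, rfl⟩⟩
  rintro ⟨⟨x, y⟩, ⟨a', B', rfl, rfl, h1⟩, h2⟩
  obtain ⟨h3, h4⟩ := op_inj h2
  have h5 := Sum.inl.inj ((cc_inj hG).1 h3)
  have h6 := Sum.inr.inj ((cc_inj hG).1 h4)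
  rw [h5, h6]
  exact h1

/-- The indices in the extension. -/
theorem exists_idx : ∃ idx' : El (AY hG) × INat (Nx hG) → Prop, Int (Nx hG) idx' ∧
    ∀ B n, idx' (yA hG B, nnN (ZZ M) hG hC n) ↔ idx B.1 n := by
  obtain ⟨z, hz⟩ := EF.set hG (ef1n hG) (Y := fun q => ii q.1 q.2) int_ii (E := fs0 M (Xt M))
    fun g hg _ c hc => (hg.2.2 c.1 c.2).1 hc
  refine ⟨_, int_mem2n hG z, fun B n => ?_⟩
  refine (hz _).trans ⟨?_, fun h => ⟨(Sum.inr B, n), ⟨B, rfl, h⟩, rfl⟩⟩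
  rintro ⟨⟨x, k⟩, ⟨B', rfl, h1⟩, h2⟩
  obtain ⟨h3, h4⟩ := op_inj h2
  have h5 := Sum.inr.inj ((cc_inj hG).1 h3)
  have h6 := (nn_inj hG).1 h4
  rw [h5, h6]
  exact h1

theorem rE_inv {E : FS M (Xt M)} {g : IPerm M (Xt M)} (hg : g ∈ (ZZ M).H)
    (hE : ∀ x, x ∈ E.1 → g.1.1 x = x) {a b a' b' : Dt M} (ha : g.1.1 (Sum.inl a) = Sum.inl a')
    (hb : g.1.1 (Sum.inl b) = Sum.inl b') (h : rE E a b) : rE E a' b' := by
  have ginj : ∀ x y, g.1.1 x = g.1.1 y → x = y := fun x y h => by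
    rw [← g.2.2 x, h, g.2.2]
  rcases h with rfl | ⟨h1, h2, h3⟩
  · rw [ha] at hb
    exact Or.inl (Sum.inl.inj hb)
  · refine Or.inr ⟨fun h4 => h1 ?_, fun h4 => h2 ?_, fun B hB => ?_⟩
    · have h5 := hE _ h4
      rw [← ha] at h5
      rw [← ginj _ _ h5, ha]
      exact h4
    · have h5 := hE _ h4
      rw [← hb] at h5
      rw [← ginj _ _ h5, hb]
      exact h4
    · have e1 : ∀ c c' : Dt M, g.1.1 (Sum.inl c) = Sum.inl c' → (c ∈ B.1 ↔ c' ∈ B.1) := by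
        intro c c' hc
        have h6 := hg.2.1 (Sum.inl c) (Sum.inr B)
        rw [hE _ hB, hc] at h6
        have e2 : ∀ c : Dt M, mm (Sum.inl c) (Sum.inr B) ↔ c ∈ B.1 := by
          intro c
          constructor
          · rintro ⟨c', B', e1, e2, h6⟩
            cases e1
            cases e2
            exact h6
          · exact fun h6 => ⟨c, B, rfl, rfl, h6⟩
        rwa [e2, e2] at h6
      rw [← e1 a a' ha, ← e1 b b' hb]
      exact h3 B hB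

theorem inl_of {g : IPerm M (Xt M)} (hg : g ∈ (ZZ M).H) (a : Dt M) :
    ∃ a' : Dt M, g.1.1 (Sum.inl a) = Sum.inl a' := (hg.1 (Sum.inl a)).1 ⟨a, rfl⟩

/-- The classes in the extension. -/
theorem exists_r (E : FS M (Xt M)) : ∃ r : El (AD hG) × El (AD hG) → Prop, Int (Nx hG) r ∧
    ∀ a b, r (dA hG a, dA hG b) ↔ rE E a b := by
  have hI : Int M (fun q : Xt M × Xt M => ∃ a b : Dt M, q.1 = Sum.inl a ∧ q.2 = Sum.inl b ∧
      rE E a b) := by
    have h := int_rE (M := M)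
    refine Int.ex (Int.ex (Int.and ?_ (Int.and ?_ ?_)))
    · exact Int.eq (IntF.fst (IntF.fst IntF.fst')) (IntF.inl (IntF.snd IntF.fst'))
    · exact Int.eq (IntF.snd (IntF.fst IntF.fst')) (IntF.inl IntF.snd')
    · exact Int.comp₃ (p := fun (E : FS M (Xt M)) (a b : Dt M) => rE E a b) h (IntF.const E)
        (IntF.snd IntF.fst') IntF.snd'
  obtain ⟨z, hz⟩ := EF.set hG (ef2 hG) hI (E := E) (by
    rintro g hg hgE c ⟨a, b, h1, h2, h3⟩
    obtain ⟨a', ha'⟩ := inl_of hg a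
    obtain ⟨b', hb'⟩ := inl_of hg b
    refine ⟨a', b', ?_, ?_, rE_inv hg hgE ha' hb' h3⟩
    · change g.1.1 c.1 = _
      rw [h1, ha']
    · change g.1.1 c.2 = _
      rw [h2, hb'])
  refine ⟨_, int_mem2 hG z, fun a b => ?_⟩
  refine (hz _).trans ⟨?_, fun h => ⟨(Sum.inl a, Sum.inl b), ⟨a, b, rfl, rfl, h⟩, rfl⟩⟩
  rintro ⟨⟨x, y⟩, ⟨a', b', h0, h0', h1⟩, h2⟩
  simp only at h0 h0' h2
  subst h0 h0'
  obtain ⟨h3, h4⟩ := op_inj h2
  have h5 := Sum.inl.inj ((cc_inj hG).1 h3)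
  have h6 := Sum.inl.inj ((cc_inj hG).1 h4)
  rw [h5, h6]
  exact h1

include hC in
/-- Finite sets of the model are finite in the extension. -/
theorem finN {p : Dt M → Prop} (hp : Int M p) (hf : FinP M p) :
    FinP (Nx hG) (fun x : El (AD hG) => ∃ a, dA hG a = x ∧ p a) := by
  have hp' : Int M (fun x : Xt M => ∃ a, p a ∧ Sum.inl a = x) :=
    Int.ex (Int.and (hp.comp IntF.snd') (Int.eq (IntF.inl IntF.snd') IntF.fst'))
  have hf' : FinP M (fun x : Xt M => ∃ a, p a ∧ Sum.inl a = x) := hf.image IntF.inl'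
  refine (fin_img hG hC (ef_cc hG) (fun g b => g.2.2 _) hp' hf' (E := ⟨_, hf'.fin hp'⟩)
    (fun g hg hgE c hc => hgE c ((mem_sep hp').2 hc)) (β := El (AD hG))).mono ?_
  rintro x ⟨a, rfl, h1⟩
  exact ⟨Sum.inl a, ⟨a, h1, rfl⟩, rfl⟩

include hC in
/-- Sets of the model that are finite in the extension are finite. -/
theorem fin_back {p : Dt M → Prop} (hp : Int M p)
    (hf : FinP (Nx hG) (fun x : El (AD hG) => ∃ a, dA hG a = x ∧ p a)) : FinP M p := by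
  by_contra hinf
  obtain ⟨s, hs, hsp⟩ := hf
  obtain ⟨e, n, h1, h2, h3⟩ := exists_BN hs
  obtain ⟨z, hz⟩ := e.int
  obtain ⟨E, hE⟩ := support hG z
  have hr := int_rE (M := M)
  obtain ⟨T, hT, hTf, hTr⟩ := exists_T E
  have h4 : ∃ b, T b ∧ ¬ FinP M (fun a => p a ∧ rE E a b) := by
    by_contra hc
    push Not at hc
    refine hinf ((FinP.bUnion hTf hT (R := fun q : Dt M × Dt M => p q.2 ∧ rE E q.2 q.1) ?_
      hc).mono fun a ha => ?_)
    · refine Int.and (hp.comp IntF.snd') ?_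
      exact Int.comp₃ (p := fun (E : FS M (Xt M)) (a b : Dt M) => rE E a b) hr (IntF.const E)
        IntF.snd' IntF.fst'
    · obtain ⟨b, h5, h6⟩ := hTr a
      exact ⟨b, h5, ha, h6⟩
  obtain ⟨b, -, hb⟩ := h4
  have h5 : ∃ a a', a ≠ a' ∧ (p a ∧ rE E a b) ∧ (p a' ∧ rE E a' b) := by
    by_contra hc
    push Not at hc
    by_cases h6 : ∃ a, p a ∧ rE E a b
    · obtain ⟨a, ha⟩ := h6
      refine hb ((FinP.eq a).mono fun a' ha' => ?_)
      by_contra h7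
      exact hc a a' (Ne.symm h7) ha ha'.1 ha'.2
    · exact hb ⟨∅, IFin.empty, fun a ha => absurd ⟨a, ha⟩ h6⟩
  obtain ⟨a, a', hne, ⟨ha, hab⟩, ha', hab'⟩ := h5
  obtain ⟨g, hg, hgE, hga, -⟩ := exists_tr (rE_trans hab (rE_symm hab'))
  obtain ⟨k, hk⟩ := nnN_surj hG hC (e (dA hG a))
  have h6 : Mem (op (cc (ZZ M) hG (Sum.inl a)) (nn (ZZ M) hG k)) z := by
    refine (hz (dA hG a, nnN (ZZ M) hG hC k)).2 ?_
    exact hk.symm
  have h7 := hE _ _ _ _ (ef1n hG) g hg hgE (Sum.inl a, k) h6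
  have h8 : Mem (op (cc (ZZ M) hG (Sum.inl a')) (nn (ZZ M) hG k)) z := by
    have h7' : Mem (op (cc (ZZ M) hG (g.1.1 (Sum.inl a))) (nn (ZZ M) hG k)) z := h7
    rw [hga] at h7'
    exact h7'
  have h9 : e (dA hG a') = nnN (ZZ M) hG hC k := (hz (dA hG a', nnN (ZZ M) hG hC k)).1 h8
  exact hne ((dA_inj hG).1 (h2 _ _ (hsp _ ⟨a, rfl, ha⟩) (hsp _ ⟨a', rfl, ha'⟩)
    (hk.symm.trans h9.symm)))

end sorts

end Pool.Agent.V11257N
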