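import Pool.Agent.H310R3.PM5

/-!
# Permutation models: relations between two generic elements, and transpositions
-/

set_option maxHeartbeats 1000000
set_option linter.all false
set_option synthInstance.maxSize 2000

namespace Pool.Agent.V11257P

open FirstOrder FirstOrder.Language
open Pool.Agent.Helper672.ZFA
open Pool.Agent.Helper672.ZFA.H635 (IPerm SymSys IG WFI FEq FMem tw Good feq_of_map feq_iff IsGen
  nd nd_eq mem_nd mem_nd_nd exists_mk mk_eq_nd EqFam NN nn_ext CollL nn_zf mem_NN)
open Pool.Agent.Helper672.ZFA.H310M
open Pool.Agent.Helper672.Plain (LSet)
open Pool.Agent.H310

universe u

variable {M : Type u} [L.Structure M] [hM : IsModel M] {X : Type u} [ITy M X]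

section

variable {Z : PGr M X} {G : Set (Co M X)} (hG : IsGen M G) (hC : CollL M)

/-- Homogeneity of the relations between two generic elements. -/
theorem exists_hom2 {W : El (AA Z hG) × El (AA Z hG) → Prop} (hW : Int (NN (SS Z) hG) W) :
    ∃ E : FS M X, ∀ g ∈ Z.H, (∀ x, x ∈ E.1 → g.1.1 x = x) → ∀ x y,
      W (cA Z hG x, cA Z hG y) → W (cA Z hG (g.1.1 x), cA Z hG (g.1.1 y)) := by
  obtain ⟨z, hz⟩ := hW
  obtain ⟨E, hE⟩ := support hG z
  have h1 : EF Z hG (fun (g : IPerm M X) (q : X × X) => (g.1.1 q.1, g.1.1 q.2))
      (fun q => op (cc Z hG q.1) (cc Z hG q.2)) := by
    refine EF.op hG (fun g b => ?_) ?_ ?_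
    · exact Prod.ext (g.2.2 _) (g.2.2 _)
    · exact EF.comp hG (ef_cc hG) (φ := fun q : X × X => q.1) (by (repeat' (first | with_reducible exact IntF.id | with_reducible exact IntF.fst' | with_reducible exact IntF.snd' | with_reducible exact IntF.const _ | with_reducible exact Int.const _ | assumption | with_reducible apply Int.and | with_reducible apply Int.or | with_reducible apply Int.not | with_reducible apply Int.imp | with_reducible apply Int.iff | with_reducible apply Int.ne | with_reducible apply Int.eq | with_reducible apply Int.mem | with_reducible apply Int.subset | with_reducible apply Int.ltN | with_reducible apply Int.leN | with_reducible_and_instances apply Int.le | with_reducible_and_instances apply Int.lt | with_reducible apply Int.all | with_reducible apply Int.ex | with_reducible apply IntF.fst | with_reducible apply IntF.snd | with_reducible apply IntF.app | with_reducible apply IntF.inl | with_reducible apply IntF.inr | with_reducible_and_instances apply IntF.mul | with_reducible_and_instances apply IntF.inv | with_reducible_and_instances apply IntF.add | with_reducible_and_instances apply IntF.sub | with_reducible_and_instances apply IntF.neg | with_reducible_and_instances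 apply IntF.smul | with_reducible apply Int.fin | with_reducible apply IntF.sep | with_reducible apply IntF.lam | with_reducible apply IntF.insert | with_reducible apply IntF.singleton | with_reducible apply IntF.union | with_reducible apply IntF.iimage | with_reducible apply IntF.ite | with_reducible apply IntF.the | with_reducible apply IntF.irec | with_reducible apply IntF.succ | with_reducible apply IntF.val | with_reducible apply IntF.mk | (with_reducible refine Int.comp ?_ ?_; assumption) | (with_reducible refine Int.comp₂ ?_ ?_ ?_; assumption) | (with_reducible refine Int.comp₃ ?_ ?_ ?_ ?_; assumption) | (with_reducible refine Int.comp₄ ?_ ?_ ?_ ?_ ?_; assumption) | (with_reducible refine IntF.comp ?_ ?_; assumption) | (with_reducible refine IntF.comp₂ ?_ ?_ ?_; assumption) | (with_reducible refine IntF.comp₃ ?_ ?_ ?_ ?_; assumption) | with_reducible apply IntF.pair))) fun g b => rfl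
    · exact EF.comp hG (ef_cc hG) (φ := fun q : X × X => q.2) (by (repeat' (first | with_reducible exact IntF.id | with_reducible exact IntF.fst' | with_reducible exact IntF.snd' | with_reducible exact IntF.const _ | with_reducible exact Int.const _ | assumption | with_reducible apply Int.and | with_reducible apply Int.or | with_reducible apply Int.not | with_reducible apply Int.imp | with_reducible apply Int.iff | with_reducible apply Int.ne | with_reducible apply Int.eq | with_reducible apply Int.mem | with_reducible apply Int.subset | with_reducible apply Int.ltN | with_reducible apply Int.leN | with_reducible_and_instances apply Int.le | with_reducible_and_instances apply Int.lt | with_reducible apply Int.all | with_reducible apply Int.ex | with_reducible apply IntF.fst | with_reducible apply IntF.snd | with_reducible apply IntF.app | with_reducible apply IntF.inl | with_reducible apply IntF.inr | with_reducible_and_instances apply IntF.mul | with_reducible_and_instances apply IntF.inv | with_reducible_and_instances apply IntF.add | with_reducible_and_instances apply IntF.sub | with_reducible_and_instances apply IntF.neg | with_reducible_and_instances apply IntF.smul | with_reducible apply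 Int.fin | with_reducible apply IntF.sep | with_reducible apply IntF.lam | with_reducible apply IntF.insert | with_reducible apply IntF.singleton | with_reducible apply IntF.union | with_reducible apply IntF.iimage | with_reducible apply IntF.ite | with_reducible apply IntF.the | with_reducible apply IntF.irec | with_reducible apply IntF.succ | with_reducible apply IntF.val | with_reducible apply IntF.mk | (with_reducible refine Int.comp ?_ ?_; assumption) | (with_reducible refine Int.comp₂ ?_ ?_ ?_; assumption) | (with_reducible refine Int.comp₃ ?_ ?_ ?_ ?_; assumption) | (with_reducible refine Int.comp₄ ?_ ?_ ?_ ?_ ?_; assumption) | (with_reducible refine IntF.comp ?_ ?_; assumption) | (with_reducible refine IntF.comp₂ ?_ ?_ ?_; assumption) | (with_reducible refine IntF.comp₃ ?_ ?_ ?_ ?_; assumption) | with_reducible apply IntF.pair))) fun g b => rfl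
  refine ⟨E, fun g hg hgE x n h => ?_⟩
  exact (hz _).1 (hE _ _ _ _ h1 g hg hgE (x, n) ((hz _).2 h))

/-- Homogeneity of the sets of generic elements. -/
theorem exists_hom1 {W : El (AA Z hG) → Prop} (hW : Int (NN (SS Z) hG) W) :
    ∃ E : FS M X, ∀ g ∈ Z.H, (∀ x, x ∈ E.1 → g.1.1 x = x) → ∀ x,
      W (cA Z hG x) → W (cA Z hG (g.1.1 x)) := by
  obtain ⟨E, hE⟩ := exists_hom2 (Z := Z) hG (W := fun q => W q.1) (Int.comp (p := W)
    (f := fun q : El (AA Z hG) × El (AA Z hG) => q.1) hW IntF.fst')
  exact ⟨E, fun g hg hgE x h => hE g hg hgE x x h⟩

end

open Classical in
/-- The transposition. -/
noncomputable def swf (x y z : X) : X := if z = x then y else if z = y then x else z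

theorem swf_swf (x y z : X) : swf x y (swf x y z) = z := by
  unfold swf
  by_cases h1 : z = x
  · subst h1
    by_cases h2 : y = z
    · subst h2
      simp
    · simp [h2]
  · by_cases h2 : z = y
    · subst h2
      simp [h1]
    · simp [h1, h2]

theorem int_swf (x y : X) : IntF M (swf x y) := by
  unfold swf
  (repeat' (first | with_reducible exact IntF.id | with_reducible exact IntF.fst' | with_reducible exact IntF.snd' | with_reducible exact IntF.const _ | with_reducible exact Int.const _ | assumption | with_reducible apply Int.and | with_reducible apply Int.or | with_reducible apply Int.not | with_reducible apply Int.imp | with_reducible apply Int.iff | with_reducible apply Int.ne | with_reducible apply Int.eq | with_reducible apply Int.mem | with_reducible apply Int.subset | with_reducible apply Int.ltN | with_reducible apply Int.leN | with_reducible_and_instances apply Int.le | with_reducible_and_instances apply Int.lt | with_reducible apply Int.all | with_reducible apply Int.ex | with_reducible apply IntF.fst | with_reducible apply IntF.snd | with_reducible apply IntF.app | with_reducible apply IntF.inl | with_reducible apply IntF.inr | with_reducible_and_instances apply IntF.mul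 | with_reducible_and_instances apply IntF.inv | with_reducible_and_instances apply IntF.add | with_reducible_and_instances apply IntF.sub | with_reducible_and_instances apply IntF.neg | with_reducible_and_instances apply IntF.smul | with_reducible apply Int.fin | with_reducible apply IntF.sep | with_reducible apply IntF.lam | with_reducible apply IntF.insert | with_reducible apply IntF.singleton | with_reducible apply IntF.union | with_reducible apply IntF.iimage | with_reducible apply IntF.ite | with_reducible apply IntF.the | with_reducible apply IntF.irec | with_reducible apply IntF.succ | with_reducible apply IntF.val | with_reducible apply IntF.mk | (with_reducible refine Int.comp ?_ ?_; assumption) | (with_reducible refine Int.comp₂ ?_ ?_ ?_; assumption) | (with_reducible refine Int.comp₃ ?_ ?_ ?_ ?_; assumption) | (with_reducible refine Int.comp₄ ?_ ?_ ?_ ?_ ?_; assumption) | (with_reducible refine IntF.comp ?_ ?_; assumption) | (with_reducible refine IntF.comp₂ ?_ ?_ ?_; assumption) | (with_reducible refine IntF.comp₃ ?_ ?_ ?_ ?_; assumption) | with_reducible apply IntF.pair))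

variable (M) in
/-- The transposition. -/
noncomputable def sw (x y : X) : IPerm M X := IPerm.ofInv (swf x y) (int_swf x y) (swf_swf x y)

theorem sw_apply (x y z : X) : (sw M x y).1.1 z = swf x y z := rfl

theorem swf_left (x y : X) : swf x y x = y := if_pos rfl

theorem swf_right (x y : X) : swf x y y = x := by
  unfold swf
  by_cases h : y = x
  · simp [h]
  · simp [h]

theorem swf_of_ne {x y z : X} (h1 : z ≠ x) (h2 : z ≠ y) : swf x y z = z := by
  unfold swf
  rw [if_neg h1, if_neg h2]

end Pool.Agent.V11257P
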