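import Mathlib

/-!
# Boolean algebras with joins of bounded size

Boolean `m`-algebras, `m`-homomorphisms, `m`-generation, the algebra of the regular lower sets of a
preorder, and the `m`-subalgebra generated by a set in a complete Boolean algebra.
-/

set_option autoImplicit false

namespace Pool.Agent.V11257.RegAlg

open Set Cardinal

/-- A Boolean algebra is a Boolean `m`-algebra if every subset of size at most `m` has a join and a
meet. -/
def MComplete (m : Cardinal.{0}) (B : Type) [BooleanAlgebra B] : Prop :=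
  ∀ S : Set B, Cardinal.mk S ≤ m → (∃ b, IsLUB S b) ∧ ∃ b, IsGLB S b

/-- A subalgebra closed under the joins and meets of at most `m` elements. -/
structure IsMSubalgebra (m : Cardinal.{0}) {B : Type} [BooleanAlgebra B] (L : Set B) : Prop where
  compl : ∀ x ∈ L, xᶜ ∈ L
  sup : ∀ x ∈ L, ∀ y ∈ L, x ⊔ y ∈ L
  join : ∀ S ⊆ L, Cardinal.mk S ≤ m → ∀ b, IsLUB S b → b ∈ L
  meet : ∀ S ⊆ L, Cardinal.mk S ≤ m → ∀ b, IsGLB S b → b ∈ L

/-- `G` is a set of `m`-generators. -/
def MGenerates (m : Cardinal.{0}) {B : Type} [BooleanAlgebra B] (G : Set B) : Prop :=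
  ∀ L : Set B, G ⊆ L → IsMSubalgebra m L → ∀ b, b ∈ L

/-- Homomorphisms that preserve the joins and meets of at most `m` elements. -/
structure IsMHom (m : Cardinal.{0}) {B C : Type} [BooleanAlgebra B] [BooleanAlgebra C]
    (h : B → C) : Prop where
  compl : ∀ x, h xᶜ = (h x)ᶜ
  sup : ∀ x y, h (x ⊔ y) = h x ⊔ h y
  join : ∀ S : Set B, Cardinal.mk S ≤ m → ∀ b, IsLUB S b → IsLUB (h '' S) (h b)
  meet : ∀ S : Set B, Cardinal.mk S ≤ m → ∀ b, IsGLB S b → IsGLB (h '' S) (h b)

/-! ## Complements of joins -/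

theorem isGLB_compl {B : Type} [BooleanAlgebra B] {S : Set B} {v : B}
    (h : IsLUB (compl '' S) v) : IsGLB S vᶜ := by
  constructor
  · intro x hx
    exact compl_le_of_compl_le (h.1 ⟨x, hx, rfl⟩)
  · intro w hw
    rw [le_compl_comm]
    refine h.2 ?_
    rintro _ ⟨x, hx, rfl⟩
    exact compl_le_compl (hw hx)

theorem isLUB_compl {B : Type} [BooleanAlgebra B] {S : Set B} {v : B}
    (h : IsGLB (compl '' S) v) : IsLUB S vᶜ := by
  constructor
  · intro x hx
    exact le_compl_comm.1 (h.1 ⟨x, hx, rfl⟩)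
  · intro w hw
    refine compl_le_of_compl_le (h.2 ?_)
    rintro _ ⟨x, hx, rfl⟩
    exact compl_le_compl (hw hx)

theorem exists_glb {B : Type} [BooleanAlgebra B] (hB : ∀ S : Set B, ∃ u, IsLUB S u) (S : Set B) :
    ∃ u, IsGLB S u := by
  obtain ⟨v, hv⟩ := hB (compl '' S)
  exact ⟨vᶜ, isGLB_compl hv⟩

/-- The meet of a set is the complement of the join of the complements. -/
theorem isLUB_image_compl {B : Type} [BooleanAlgebra B] {S : Set B} {v : B} (h : IsGLB S v) :
    IsLUB (compl '' S) vᶜ := by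
  apply isLUB_compl
  rw [image_image]
  simpa using h

theorem isGLB_image_compl {B : Type} [BooleanAlgebra B] {S : Set B} {v : B} (h : IsLUB S v) :
    IsGLB (compl '' S) vᶜ := by
  apply isGLB_compl
  rw [image_image]
  simpa using h

/-- A Boolean homomorphism that preserves joins also preserves meets. -/
theorem isGLB_of_join {A B : Type} [BooleanAlgebra A] [BooleanAlgebra B] {h : A → B}
    (hc : ∀ x, h xᶜ = (h x)ᶜ) {S : Set A} {a : A}
    (hj : IsLUB (compl '' S) aᶜ → IsLUB (h '' (compl '' S)) (h aᶜ)) (ha : IsGLB S a) :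
    IsGLB (h '' S) (h a) := by
  have h1 := hj (isLUB_image_compl ha)
  have h2 : h '' (compl '' S) = compl '' (h '' S) := by
    rw [image_image, image_image]
    exact image_congr fun x _ => hc x
  rw [h2, hc] at h1
  have h3 := isGLB_compl h1
  rwa [compl_compl] at h3

/-! ## The generated subalgebra -/

section closure

variable {C : Type} [BooleanAlgebra C]

/-- The carrier of the `m`-subalgebra generated by `G`. -/
def car (m : Cardinal.{0}) (G : Set C) : Set C := {x | ∀ L, G ⊆ L → IsMSubalgebra m L → x ∈ L}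

theorem subset_car (m : Cardinal.{0}) (G : Set C) : G ⊆ car m G := fun _ hx _ hL _ => hL hx

theorem isMSubalgebra_car (m : Cardinal.{0}) (G : Set C) : IsMSubalgebra m (car m G) where
  compl := fun x hx L hG hL => hL.compl x (hx L hG hL)
  sup := fun x hx y hy L hG hL => hL.sup x (hx L hG hL) y (hy L hG hL)
  join := fun _ hS hm b hb L hG hL => hL.join _ (fun x hx => hS hx L hG hL) hm b hb
  meet := fun _ hS hm b hb L hG hL => hL.meet _ (fun x hx => hS hx L hG hL) hm b hb

/-- The `m`-subalgebra generated by `G`. -/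
def mcl (m : Cardinal.{0}) (G : Set C) : BooleanSubalgebra C where
  carrier := car m G
  supClosed' := fun _ hx _ hy => (isMSubalgebra_car m G).sup _ hx _ hy
  infClosed' := fun _ hx _ hy => by
    have h := isMSubalgebra_car m G
    have h1 := h.compl _ (h.sup _ (h.compl _ hx) _ (h.compl _ hy))
    rwa [compl_sup, compl_compl, compl_compl] at h1
  compl_mem' := fun {x} hx => (isMSubalgebra_car m G).compl x hx
  bot_mem' := (isMSubalgebra_car m G).join ∅ (empty_subset _) (by simp) ⊥ (by simp)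

theorem mem_mcl {m : Cardinal.{0}} {G : Set C} {x : C} : x ∈ mcl m G ↔ x ∈ car m G := Iff.rfl

theorem isLUB_val_of {m : Cardinal.{0}} {G : Set C} {S : Set (mcl m G)} {b : mcl m G}
    (h : IsLUB (Subtype.val '' S) b.1) : IsLUB S b :=
  ⟨fun x hx => h.1 ⟨x, hx, rfl⟩, fun w hw => h.2 (by
    rintro _ ⟨x, hx, rfl⟩
    exact hw hx)⟩

theorem isGLB_val_of {m : Cardinal.{0}} {G : Set C} {S : Set (mcl m G)} {b : mcl m G}
    (h : IsGLB (Subtype.val '' S) b.1) : IsGLB S b :=
  ⟨fun x hx => h.1 ⟨x, hx, rfl⟩, fun w hw => h.2 (by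
    rintro _ ⟨x, hx, rfl⟩
    exact hw hx)⟩

variable (hC : ∀ S : Set C, ∃ u, IsLUB S u)

include hC in
theorem isLUB_val {m : Cardinal.{0}} {G : Set C} {S : Set (mcl m G)} (hS : Cardinal.mk S ≤ m)
    {b : mcl m G} (h : IsLUB S b) : IsLUB (Subtype.val '' S) b.1 := by
  obtain ⟨u, hu⟩ := hC (Subtype.val '' S)
  have h1 : u ∈ mcl m G := (isMSubalgebra_car m G).join (Subtype.val '' S) (by
    rintro _ ⟨x, -, rfl⟩
    exact x.2) (Cardinal.mk_image_le.trans hS) u hu
  have h2 : IsLUB S (⟨u, h1⟩ : mcl m G) := isLUB_val_of hu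
  rw [h.unique h2]
  exact hu

include hC in
theorem isGLB_val {m : Cardinal.{0}} {G : Set C} {S : Set (mcl m G)} (hS : Cardinal.mk S ≤ m)
    {b : mcl m G} (h : IsGLB S b) : IsGLB (Subtype.val '' S) b.1 := by
  obtain ⟨u, hu⟩ := exists_glb hC (Subtype.val '' S)
  have h1 : u ∈ mcl m G := (isMSubalgebra_car m G).meet (Subtype.val '' S) (by
    rintro _ ⟨x, -, rfl⟩
    exact x.2) (Cardinal.mk_image_le.trans hS) u hu
  have h2 : IsGLB S (⟨u, h1⟩ : mcl m G) := isGLB_val_of hu
  rw [h.unique h2]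
  exact hu

include hC in
theorem mcomplete_mcl (m : Cardinal.{0}) (G : Set C) : MComplete m (mcl m G) := by
  intro S hS
  constructor
  · obtain ⟨u, hu⟩ := hC (Subtype.val '' S)
    have h1 : u ∈ mcl m G := (isMSubalgebra_car m G).join (Subtype.val '' S) (by
      rintro _ ⟨x, -, rfl⟩
      exact x.2) (Cardinal.mk_image_le.trans hS) u hu
    exact ⟨⟨u, h1⟩, isLUB_val_of hu⟩
  · obtain ⟨u, hu⟩ := exists_glb hC (Subtype.val '' S)
    have h1 : u ∈ mcl m G := (isMSubalgebra_car m G).meet (Subtype.val '' S) (by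
      rintro _ ⟨x, -, rfl⟩
      exact x.2) (Cardinal.mk_image_le.trans hS) u hu
    exact ⟨⟨u, h1⟩, isGLB_val_of hu⟩

theorem mgenerates_mcl (m : Cardinal.{0}) (G : Set C) :
    MGenerates m (Subtype.val ⁻¹' G : Set (mcl m G)) := by
  intro L hG hL b
  have key : IsMSubalgebra m (Subtype.val '' L : Set C) := by
    refine ⟨?_, ?_, ?_, ?_⟩
    · rintro _ ⟨x, hx, rfl⟩
      exact ⟨xᶜ, hL.compl x hx, rfl⟩
    · rintro _ ⟨x, hx, rfl⟩ _ ⟨y, hy, rfl⟩
      exact ⟨x ⊔ y, hL.sup x hx y hy, rfl⟩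
    · intro S hS hm u hu
      have hS' : S ⊆ mcl m G := fun x hx => by
        obtain ⟨y, -, rfl⟩ := hS hx
        exact y.2
      have h1 : u ∈ mcl m G := (isMSubalgebra_car m G).join S hS' hm u hu
      have himg : (Subtype.val '' (Subtype.val ⁻¹' S : Set (mcl m G))) = S := by
        refine image_preimage_eq_of_subset fun x hx => ?_
        exact ⟨⟨x, hS' hx⟩, rfl⟩
      refine ⟨⟨u, h1⟩, hL.join (Subtype.val ⁻¹' S) ?_ ?_ _ (isLUB_val_of (by rw [himg]; exact hu)), rfl⟩
      · intro x hx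
        obtain ⟨y, hy, hyx⟩ := hS hx
        rwa [← Subtype.ext hyx]
      · exact (Cardinal.mk_preimage_of_injective _ _ Subtype.val_injective).trans hm
    · intro S hS hm u hu
      have hS' : S ⊆ mcl m G := fun x hx => by
        obtain ⟨y, -, rfl⟩ := hS hx
        exact y.2
      have h1 : u ∈ mcl m G := (isMSubalgebra_car m G).meet S hS' hm u hu
      have himg : (Subtype.val '' (Subtype.val ⁻¹' S : Set (mcl m G))) = S := by
        refine image_preimage_eq_of_subset fun x hx => ?_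
        exact ⟨⟨x, hS' hx⟩, rfl⟩
      refine ⟨⟨u, h1⟩, hL.meet (Subtype.val ⁻¹' S) ?_ ?_ _ (isGLB_val_of (by rw [himg]; exact hu)), rfl⟩
      · intro x hx
        obtain ⟨y, hy, hyx⟩ := hS hx
        rwa [← Subtype.ext hyx]
      · exact (Cardinal.mk_preimage_of_injective _ _ Subtype.val_injective).trans hm
  have hb : b.1 ∈ car m G := b.2
  obtain ⟨y, hy, hyb⟩ := hb (Subtype.val '' L)
    (fun x hx => ⟨⟨x, subset_car m G hx⟩, hG hx, rfl⟩) key
  rwa [← Subtype.ext hyb]

end closure

/-! ## Regular lower sets -/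

section regular

variable {P : Type} [Preorder P]

/-- The algebra of the regular lower sets of a preorder. -/
abbrev RO (P : Type) [Preorder P] : Type := Heyting.Regular (LowerSet P)

theorem mem_compl {s : LowerSet P} {p : P} : p ∈ sᶜ ↔ ∀ q ≤ p, q ∉ s := by
  rw [← LowerSet.Iic_le, le_compl_iff_disjoint_right, disjoint_iff_inf_le]
  constructor
  · intro h q hq hqs
    exact h (show q ∈ LowerSet.Iic p ⊓ s from ⟨hq, hqs⟩)
  · rintro h q ⟨hq, hqs⟩
    exact absurd hqs (h q hq)

theorem exists_isLUB (S : Set (RO P)) : ∃ u, IsLUB S u :=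
  ⟨_, Heyting.Regular.gi.isLUB_of_u_image (isLUB_sSup _)⟩

/-- The regular lower set generated by a condition. -/
def below (p : P) : RO P := Heyting.Regular.toRegular (LowerSet.Iic p)

theorem mem_below (p : P) : p ∈ (below p : LowerSet P) := by
  have h : LowerSet.Iic p ≤ (LowerSet.Iic p)ᶜᶜ := le_compl_compl
  exact h (show p ∈ LowerSet.Iic p from le_refl p)

theorem below_le {p : P} {u : RO P} (h : p ∈ (u : LowerSet P)) : below p ≤ u := by
  have h1 : LowerSet.Iic p ≤ (u : LowerSet P) := LowerSet.Iic_le.2 h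
  rw [← Heyting.Regular.coe_le_coe]
  have h2 : (LowerSet.Iic p)ᶜᶜ ≤ (u : LowerSet P)ᶜᶜ := compl_le_compl (compl_le_compl h1)
  rw [u.prop.eq] at h2
  exact h2

theorem below_le_iff {p : P} {u : RO P} : below p ≤ u ↔ p ∈ (u : LowerSet P) :=
  ⟨fun h => Heyting.Regular.coe_le_coe.2 h (mem_below p), below_le⟩

/-- Conditions in a join. -/
theorem exists_of_mem_isLUB {S : Set (RO P)} {u : RO P} (h : IsLUB S u) {p : P}
    (hp : p ∈ (u : LowerSet P)) : ∃ r ≤ p, ∃ v ∈ S, r ∈ (v : LowerSet P) := by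
  by_contra hcon
  push Not at hcon
  have h1 : u ≤ (below p)ᶜ := by
    refine h.2 fun v hv => ?_
    rw [le_compl_comm]
    refine below_le ?_
    rw [Heyting.Regular.coe_compl, mem_compl]
    exact fun q hq => hcon q hq v hv
  have h2 : below p ≤ (below p)ᶜ := (below_le hp).trans h1
  have h3 : p ∈ ((below p)ᶜ : RO P).val := below_le_iff.1 h2
  rw [Heyting.Regular.coe_compl, mem_compl] at h3
  exact h3 p le_rfl (mem_below p)

theorem mem_isGLB {S : Set (RO P)} {u : RO P} (h : IsGLB S u) {p : P} :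
    p ∈ (u : LowerSet P) ↔ ∀ v ∈ S, p ∈ (v : LowerSet P) := by
  constructor
  · intro hp v hv
    exact Heyting.Regular.coe_le_coe.2 (h.1 hv) hp
  · intro hp
    exact below_le_iff.1 (h.2 fun v hv => below_le (hp v hv))

theorem exists_mem_of_ne_bot {u : RO P} (h : u ≠ ⊥) : ∃ p, p ∈ (u : LowerSet P) := by
  by_contra hcon
  push Not at hcon
  apply h
  rw [← Heyting.Regular.coe_inj]
  ext p
  exact iff_of_false (hcon p) (fun hp => hp)

theorem ne_bot_of_mem {u : RO P} {p : P} (h : p ∈ (u : LowerSet P)) : u ≠ ⊥ := by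
  rintro rfl
  exact h

/-- If a regular set does not contain `p` then some condition below `p` is in the complement. -/
theorem exists_compl_of_notMem {u : RO P} {p : P} (h : p ∉ (u : LowerSet P)) :
    ∃ q ≤ p, ∀ r ≤ q, r ∉ (u : LowerSet P) := by
  by_contra hcon
  push Not at hcon
  apply h
  rw [← u.prop.eq, mem_compl]
  intro q hq hq'
  rw [mem_compl] at hq'
  obtain ⟨r, hr, hru⟩ := hcon q hq
  exact hq' r hr hru

/-- A lower set whose complement is given explicitly is regular. -/
theorem isRegular_of_compl {s t : LowerSet P} (h1 : sᶜ = t) (h2 : tᶜ = s) :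
    Heyting.IsRegular s := by
  rw [Heyting.IsRegular, h1, h2]

end regular

end Pool.Agent.V11257.RegAlg
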