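import Pool.Agent.V11257.Tr10

/-!
# The tree: the coded sets of the extension
-/

set_option maxHeartbeats 1000000
set_option linter.all false
set_option synthInstance.maxSize 2000

namespace Pool.Agent.V11257T

open FirstOrder FirstOrder.Language
open Pool.Agent.Helper672.ZFA
open Pool.Agent.Helper672.ZFA.H635 (IPerm IsGen NN EqFam CollL nn_ext exists_mk mk_eq_nd)
open Pool.Agent.Helper672.ZFA.H310M
open Pool.Agent.H310
open Pool.Agent.H310.NA (fin_img)
open Pool.Agent.V11257G (Dy Sb)

universe u

variable {M : Type u} [L.Structure M] [hM : IsModel M]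

/-- The elements of a coded set. -/
def RX (q : FS M (Xt M) × FS M (Xt M)) (d : Xt M) : Prop :=
  ∃ a e : Dt M, d = Sum.inl a ∧ (Sum.inl e : Xt M) ∈ q.2.1 ∧ rE q.1 a e

theorem int_RX : Int M (fun q : (FS M (Xt M) × FS M (Xt M)) × Xt M => RX q.1 q.2) := by
  have h := int_rE (M := M)
  unfold RX
  refine Int.ex (Int.ex (Int.and ?_ (Int.and ?_ ?_)))
  · exact Int.eq (IntF.snd (IntF.fst IntF.fst')) (IntF.inl (IntF.snd IntF.fst'))
  · exact Int.mem (IntF.inl IntF.snd') (IntF.val (IntF.snd (IntF.fst (IntF.fst IntF.fst'))))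
  · exact Int.comp₃ (p := fun (E : FS M (Xt M)) (a b : Dt M) => rE E a b) h
      (IntF.fst (IntF.fst (IntF.fst IntF.fst'))) (IntF.snd IntF.fst') IntF.snd'

theorem mm_iff {a : Dt M} {B : Yt M} : mm (Sum.inl a : Xt M) (Sum.inr B) ↔ a ∈ B.1.1 := by
  constructor
  · rintro ⟨a', B', e1, e2, h6⟩
    cases e1
    cases e2
    exact h6
  · exact fun h6 => ⟨a, B, rfl, rfl, h6⟩

theorem RX_inv {g : IPerm M (Xt M)} (hg : g ∈ (ZZ M).H) {q : FS M (Xt M) × FS M (Xt M)}
    {d : Xt M} (h : RX q d) : RX (fsg g q.1, fsg g q.2) (g.1.1 d) := by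
  obtain ⟨a, e, rfl, h1, h2⟩ := h
  have ginj : ∀ x y, g.1.1 x = g.1.1 y → x = y := fun x y h => by
    rw [← g.2.2 x, h, g.2.2]
  obtain ⟨a', ha⟩ := inl_of hg a
  obtain ⟨e', he⟩ := inl_of hg e
  refine ⟨a', e', ha, ?_, ?_⟩
  · rw [← he]
    exact mem_fsg.2 ⟨_, h1, rfl⟩
  · rcases h2 with rfl | ⟨h2, h3, h4⟩
    · rw [ha] at he
      exact Or.inl (Sum.inl.inj he)
    · refine Or.inr ⟨fun h5 => h2 ?_, fun h5 => h3 ?_, fun B' hB' => ?_⟩
      · obtain ⟨y, hy, h6⟩ := mem_fsg.1 h5
        rw [← ha] at h6
        rwa [← ginj _ _ h6]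
      · obtain ⟨y, hy, h6⟩ := mem_fsg.1 h5
        rw [← he] at h6
        rwa [← ginj _ _ h6]
      · obtain ⟨y, hy, h6⟩ := mem_fsg.1 hB'
        rcases y with c | B
        · obtain ⟨c', hc'⟩ := inl_of hg c
          rw [hc'] at h6
          cases h6
        · have e1 : ∀ c c' : Dt M, g.1.1 (Sum.inl c) = Sum.inl c' → (c ∈ B.1.1 ↔ c' ∈ B'.1.1) := by
            intro c c' hc
            have h7 := hg.2.1 (Sum.inl c) (Sum.inr B)
            rwa [h6, hc, mm_iff, mm_iff] at h7
          rw [← e1 a a' ha, ← e1 e e' he]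
          exact h4 B hy

variable {G : Set (Co M (Xt M))} (hG : IsGen M G) (hC : CollL M)

theorem mem_cP {α : Type u} [ITy (Nx hG) α] {s : IPow (Nx hG) α} {z : Nx hG} :
    Helper672.Plain.Mem z (code (M := Nx hG) s) ↔ ∃ a, a ∈ s ∧ code a = z :=
  mem_code_pow (M := Nx hG) (s := s) (z := z)

theorem mem_cD {s : IPow (Nx hG) (El (AD hG))} {a : Dt M} :
    Mem (cc (ZZ M) hG (Sum.inl a)) (code (M := Nx hG) s) ↔ dA hG a ∈ s :=
  mem_code_iff (M := Nx hG) (s := s) (a := dA hG a)

/-- The family of the coded sets. -/
theorem exists_F : ∃ F : FS M (Xt M) × FS M (Xt M) → Nx hG,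
    EF (ZZ M) hG (fun g q => (fsg g q.1, fsg g q.2)) F ∧
      ∀ q w, Mem w (F q) ↔ ∃ d, RX q d ∧ w = cc (ZZ M) hG d := by
  refine EF.sets hG (ef_cc hG) (R := RX) int_RX (a' := fun g q => (fsg g q.1, fsg g q.2))
    (fun g hg c d h => RX_inv hg h) (fun g b => Prod.ext (fsg_inv _ _) (fsg_inv _ _)) fun c => ?_
  refine ⟨fsu c.1 c.2, fun g hg hE => Prod.ext (fsg_fix fun x hx => ?_) (fsg_fix fun x hx => ?_)⟩
  · exact hE x (mem_union.2 (Or.inl hx))
  · exact hE x (mem_union.2 (Or.inr hx))

/-- All subsets of the first sort are coded. -/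
theorem exists_code {F : FS M (Xt M) × FS M (Xt M) → Nx hG}
    (hF : ∀ q w, Mem w (F q) ↔ ∃ d, RX q d ∧ w = cc (ZZ M) hG d)
    (B : IPow (Nx hG) (El (AD hG))) : ∃ E t, (∀ a b, rE E a b → dA hG a ∈ B → dA hG b ∈ B) ∧
      (∀ a, dA hG a ∈ B ↔ RX (E, t) (Sum.inl a)) ∧ code (M := Nx hG) B = F (E, t) := by
  obtain ⟨E, hE⟩ := support hG (code (M := Nx hG) B)
  have hinv : ∀ a b, rE E a b → dA hG a ∈ B → dA hG b ∈ B := by
    intro a b hab h
    obtain ⟨g, hg, hgE, hgb, -⟩ := exists_tr hab
    have h1 : Mem (cc (ZZ M) hG (Sum.inl a)) (code (M := Nx hG) B) := (mem_cD hG).2 h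
    have h2 : Mem (cc (ZZ M) hG (g.1.1 (Sum.inl a))) (code (M := Nx hG) B) :=
      hE _ _ _ _ (ef_cc hG) g hg hgE (Sum.inl a) h1
    rw [hgb] at h2
    exact (mem_cD hG).1 h2
  obtain ⟨T, hT, hTf, hTr⟩ := exists_T E
  have hp' : Int M (fun x : Xt M => ∃ a, T a ∧ Sum.inl a = x) :=
    Int.ex (Int.and (hT.comp IntF.snd') (Int.eq (IntF.inl IntF.snd') IntF.fst'))
  have hf' : FinP M (fun x : Xt M => ∃ a, T a ∧ Sum.inl a = x) := hTf.image IntF.inl'
  have hs := hf'.fin hp'
  obtain ⟨t, ht⟩ := trace hG (ef_cc hG) (code (M := Nx hG) B) hs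
  have hfin : IFin (sep M fun x : Xt M => x ∈ t ∧ ∃ a, T a ∧ Sum.inl a = x) := by
    refine hs.subset fun x hx => ?_
    exact (mem_sep hp').2 ((mem_sep (Int.and (Int.mem IntF.id (IntF.const _)) hp')).1 hx).2
  have hm : ∀ a, dA hG a ∈ B ↔ RX (E, ⟨_, hfin⟩) (Sum.inl a) := by
    intro a
    constructor
    · intro h
      obtain ⟨b, h1, h2⟩ := hTr a
      refine ⟨a, b, rfl, (mem_sep (Int.and (Int.mem IntF.id (IntF.const _)) hp')).2
        ⟨(ht _ ((mem_sep hp').2 ⟨b, h1, rfl⟩)).2 ?_, b, h1, rfl⟩, h2⟩
      exact (mem_cD hG).2 (hinv a b h2 h)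
    · rintro ⟨a', b, h0, h1, h2⟩
      cases h0
      obtain ⟨h3, b', h4, h5⟩ := (mem_sep (Int.and (Int.mem IntF.id (IntF.const _)) hp')).1 h1
      have h6 : Mem (cc (ZZ M) hG (Sum.inl b)) (code (M := Nx hG) B) :=
        (ht _ ((mem_sep hp').2 ⟨b', h4, h5⟩)).1 h3
      exact hinv b a (rE_symm h2) ((mem_cD hG).1 h6)
  refine ⟨E, ⟨_, hfin⟩, hinv, hm, nn_ext hG fun w => ?_⟩
  constructor
  · intro hw
    obtain ⟨x, hx, rfl⟩ := (mem_cP hG).1 hw
    obtain ⟨a, rfl⟩ := dA_surj hG x
    exact (hF _ _).2 ⟨Sum.inl a, (hm a).1 hx, rfl⟩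
  · intro hw
    obtain ⟨d, hd, rfl⟩ := (hF _ _).1 hw
    obtain ⟨a, e, rfl, h1, h2⟩ := id hd
    exact (mem_cD hG).2 ((hm a).2 hd)

/-- The finite sets of numbers of the extension are in the model. -/
theorem exists_Fn : ∃ F : FS M (INat M) → Nx hG, EF (ZZ M) hG (fun _ e => e) F ∧
      ∀ e w, Helper672.Plain.Mem w (F e) ↔ ∃ d, d ∈ e.1 ∧ w = nn (ZZ M) hG d := by
  refine EF.sets hG (ef_nn (Z := ZZ M) hG) (R := fun (e : FS M (INat M)) (x : INat M) =>
      x ∈ e.1) (by (repeat' (first | with_reducible exact IntF.id | with_reducible exact IntF.fst' | with_reducible exact IntF.snd' | with_reducible exact IntF.const _ | with_reducible exact Int.const _ | assumption | with_reducible apply Int.and | with_reducible apply Int.or | with_reducible apply Int.not | with_reducible apply Int.imp | with_reducible apply Int.iff | with_reducible apply Int.ne | with_reducible apply Int.eq | with_reducible apply Int.mem | with_reducible apply Int.subset | with_reducible apply Int.ltN | with_reducible apply Int.leN | with_reducible_and_instances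 apply Int.le | with_reducible_and_instances apply Int.lt | with_reducible apply Int.all | with_reducible apply Int.ex | with_reducible apply IntF.fst | with_reducible apply IntF.snd | with_reducible apply IntF.app | with_reducible apply IntF.inl | with_reducible apply IntF.inr | with_reducible_and_instances apply IntF.mul | with_reducible_and_instances apply IntF.inv | with_reducible_and_instances apply IntF.add | with_reducible_and_instances apply IntF.sub | with_reducible_and_instances apply IntF.neg | with_reducible_and_instances apply IntF.smul | with_reducible apply Int.fin | with_reducible apply IntF.sep | with_reducible apply IntF.lam | with_reducible apply IntF.insert | with_reducible apply IntF.singleton | with_reducible apply IntF.union | with_reducible apply IntF.iimage | with_reducible apply IntF.ite | with_reducible apply IntF.the | with_reducible apply IntF.irec | with_reducible apply IntF.succ | with_reducible apply IntF.val | with_reducible apply IntF.mk | (with_reducible refine Int.comp ?_ ?_; assumption)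 | (with_reducible refine Int.comp₂ ?_ ?_ ?_; assumption) | (with_reducible refine Int.comp₃ ?_ ?_ ?_ ?_; assumption) | (with_reducible refine Int.comp₄ ?_ ?_ ?_ ?_ ?_; assumption) | (with_reducible refine IntF.comp ?_ ?_; assumption) | (with_reducible refine IntF.comp₂ ?_ ?_ ?_; assumption) | (with_reducible refine IntF.comp₃ ?_ ?_ ?_ ?_; assumption) | with_reducible apply IntF.pair))) (a' := fun _ e => e) (fun g hg c d h => h) (fun _ _ => rfl)
      fun c => ⟨fs0 M (Xt M), fun _ _ _ => rfl⟩

include hC in
theorem exists_trace {F : FS M (INat M) → Nx hG} (hF : EF (ZZ M) hG (fun _ e => e) F)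
    (hFm : ∀ e w, Helper672.Plain.Mem w (F e) ↔ ∃ d, d ∈ e.1 ∧ w = nn (ZZ M) hG d)
    (s : IPow (Nx hG) (INat (Nx hG))) (hs : IFin s) :
    ∃ e : FS M (INat M), code (M := Nx hG) s = F e := by
  obtain ⟨z, hz⟩ := EF.set hG hF (Y := fun _ => True) (Int.const _) (E := fs0 M (Xt M))
    fun _ _ _ _ _ => trivial
  have hI : Int (Nx hG) (fun s : IPow (Nx hG) (INat (Nx hG)) => Mem (code s) z) :=
    ⟨z, fun _ => Iff.rfl⟩
  have key : Mem (code s) z := by
    refine IFin.ind (p := fun s : IPow (Nx hG) (INat (Nx hG)) => Mem (code s) z) hI ?_ ?_ s hs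
    · refine (hz _).2 ⟨⟨∅, IFin.empty⟩, trivial, nn_ext hG fun w => ?_⟩
      rw [hFm]
      refine (mem_code_pow (M := Nx hG)).trans ?_
      constructor
      · rintro ⟨a, ha, -⟩
        exact absurd ha (by simp)
      · rintro ⟨a, ha, -⟩
        exact absurd ha (by simp)
    · intro s x _ _ h
      obtain ⟨e, -, he⟩ := (hz _).1 h
      obtain ⟨k, rfl⟩ := nnN_surj hG hC x
      refine (hz _).2 ⟨⟨insert k e.1, e.2.insert k⟩, trivial, nn_ext hG fun w => ?_⟩
      rw [hFm]
      have h1 : ∀ w, Helper672.Plain.Mem w (code (M := Nx hG) s) ↔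
          ∃ d, d ∈ e.1 ∧ w = nn (ZZ M) hG d := fun w => by
        have he' : code (M := Nx hG) s = F e := he
        rw [he', hFm]
      have h2 : ∀ w, Helper672.Plain.Mem w (code (M := Nx hG) s) ↔
          ∃ a, a ∈ s ∧ code a = w := fun w => mem_code_pow (M := Nx hG)
      refine (mem_code_pow (M := Nx hG)).trans ?_
      constructor
      · rintro ⟨a, ha, rfl⟩
        rcases mem_insert.1 ha with rfl | ha
        · exact ⟨k, mem_insert.2 (Or.inl rfl), rfl⟩
        · obtain ⟨d, hd, h3⟩ := (h1 _).1 ((h2 _).2 ⟨a, ha, rfl⟩)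
          exact ⟨d, mem_insert.2 (Or.inr hd), h3⟩
      · rintro ⟨d, hd, rfl⟩
        rcases mem_insert.1 hd with rfl | hd
        · exact ⟨nnN (ZZ M) hG hC d, mem_insert.2 (Or.inl rfl), rfl⟩
        · obtain ⟨a, ha, h3⟩ := (h2 _).1 ((h1 _).2 ⟨d, hd, rfl⟩)
          exact ⟨a, mem_insert.2 (Or.inr ha), h3⟩
  obtain ⟨e, -, he⟩ := (hz _).1 key
  exact ⟨e, he⟩

section

variable {D : (INat (Nx hG) × IPow (Nx hG) (INat (Nx hG))) × IPow (Nx hG) (El (AD hG)) → Prop}

include hC in
/-- The automorphisms act on the values of the relations. -/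
theorem act (hD : Int (Nx hG) D) : ∃ E : FS M (Xt M), ∀ g ∈ (ZZ M).H,
    (∀ x, x ∈ E.1 → g.1.1 x = x) → ∀ n t U, IFin t → D ((n, t), U) → ∃ U', D ((n, t), U') ∧
      ∀ a a' : Dt M, g.1.1 (Sum.inl a) = Sum.inl a' → (dA hG a ∈ U ↔ dA hG a' ∈ U') := by
  obtain ⟨z, hz⟩ := hD
  obtain ⟨E, hE⟩ := support hG z
  obtain ⟨Fn, hFn, hFnm⟩ := exists_Fn (M := M) hG
  obtain ⟨F, hFE, hF⟩ := exists_F hG
  have hef : EF (ZZ M) hG (fun g (q : (INat M × FS M (INat M)) × (FS M (Xt M) × FS M (Xt M))) =>
      (q.1, (fsg g q.2.1, fsg g q.2.2))) (fun q => op (op (nn (ZZ M) hG q.1.1) (Fn q.1.2))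
        (F q.2)) := by
    have ha : ∀ (g : IPerm M (Xt M)) (b : (INat M × FS M (INat M)) ×
        (FS M (Xt M) × FS M (Xt M))), (fun g (q : (INat M × FS M (INat M)) ×
        (FS M (Xt M) × FS M (Xt M))) => (q.1, (fsg g q.2.1, fsg g q.2.2))) g⁻¹
        ((fun g (q : (INat M × FS M (INat M)) × (FS M (Xt M) × FS M (Xt M))) =>
        (q.1, (fsg g q.2.1, fsg g q.2.2))) g b) = b := fun g b =>
      Prod.ext rfl (Prod.ext (fsg_inv _ _) (fsg_inv _ _))
    refine EF.op hG ha (EF.op hG ha ?_ ?_) ?_
    · exact EF.comp hG (ef_nn (Z := ZZ M) hG) (φ := fun q : (INat M × FS M (INat M)) ×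
        (FS M (Xt M) × FS M (Xt M)) => q.1.1) (by (repeat' (first | with_reducible exact IntF.id | with_reducible exact IntF.fst' | with_reducible exact IntF.snd' | with_reducible exact IntF.const _ | with_reducible exact Int.const _ | assumption | with_reducible apply Int.and | with_reducible apply Int.or | with_reducible apply Int.not | with_reducible apply Int.imp | with_reducible apply Int.iff | with_reducible apply Int.ne | with_reducible apply Int.eq | with_reducible apply Int.mem | with_reducible apply Int.subset | with_reducible apply Int.ltN | with_reducible apply Int.leN | with_reducible_and_instances apply Int.le | with_reducible_and_instances apply Int.lt | with_reducible apply Int.all | with_reducible apply Int.ex | with_reducible apply IntF.fst | with_reducible apply IntF.snd | with_reducible apply IntF.app | with_reducible apply IntF.inl | with_reducible apply IntF.inr | with_reducible_and_instances apply IntF.mul | with_reducible_and_instances apply IntF.inv | with_reducible_and_instances apply IntF.add |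 with_reducible_and_instances apply IntF.sub | with_reducible_and_instances apply IntF.neg | with_reducible_and_instances apply IntF.smul | with_reducible apply Int.fin | with_reducible apply IntF.sep | with_reducible apply IntF.lam | with_reducible apply IntF.insert | with_reducible apply IntF.singleton | with_reducible apply IntF.union | with_reducible apply IntF.iimage | with_reducible apply IntF.ite | with_reducible apply IntF.the | with_reducible apply IntF.irec | with_reducible apply IntF.succ | with_reducible apply IntF.val | with_reducible apply IntF.mk | (with_reducible refine Int.comp ?_ ?_; assumption) | (with_reducible refine Int.comp₂ ?_ ?_ ?_; assumption) | (with_reducible refine Int.comp₃ ?_ ?_ ?_ ?_; assumption) | (with_reducible refine Int.comp₄ ?_ ?_ ?_ ?_ ?_; assumption) | (with_reducible refine IntF.comp ?_ ?_; assumption) | (with_reducible refine IntF.comp₂ ?_ ?_ ?_; assumption) | (with_reducible refine IntF.comp₃ ?_ ?_ ?_ ?_; assumption) | with_reducible apply IntF.pair))) fun _ _ => rfl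
    · exact EF.comp hG hFn (φ := fun q : (INat M × FS M (INat M)) ×
        (FS M (Xt M) × FS M (Xt M)) => q.1.2) (by (repeat' (first | with_reducible exact IntF.id | with_reducible exact IntF.fst' | with_reducible exact IntF.snd' | with_reducible exact IntF.const _ | with_reducible exact Int.const _ | assumption | with_reducible apply Int.and | with_reducible apply Int.or | with_reducible apply Int.not | with_reducible apply Int.imp | with_reducible apply Int.iff | with_reducible apply Int.ne | with_reducible apply Int.eq | with_reducible apply Int.mem | with_reducible apply Int.subset | with_reducible apply Int.ltN | with_reducible apply Int.leN | with_reducible_and_instances apply Int.le | with_reducible_and_instances apply Int.lt | with_reducible apply Int.all | with_reducible apply Int.ex | with_reducible apply IntF.fst | with_reducible apply IntF.snd | with_reducible apply IntF.app | with_reducible apply IntF.inl | with_reducible apply IntF.inr | with_reducible_and_instances apply IntF.mul | with_reducible_and_instances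 apply IntF.inv | with_reducible_and_instances apply IntF.add | with_reducible_and_instances apply IntF.sub | with_reducible_and_instances apply IntF.neg | with_reducible_and_instances apply IntF.smul | with_reducible apply Int.fin | with_reducible apply IntF.sep | with_reducible apply IntF.lam | with_reducible apply IntF.insert | with_reducible apply IntF.singleton | with_reducible apply IntF.union | with_reducible apply IntF.iimage | with_reducible apply IntF.ite | with_reducible apply IntF.the | with_reducible apply IntF.irec | with_reducible apply IntF.succ | with_reducible apply IntF.val | with_reducible apply IntF.mk | (with_reducible refine Int.comp ?_ ?_; assumption) | (with_reducible refine Int.comp₂ ?_ ?_ ?_; assumption) | (with_reducible refine Int.comp₃ ?_ ?_ ?_ ?_; assumption) | (with_reducible refine Int.comp₄ ?_ ?_ ?_ ?_ ?_; assumption) | (with_reducible refine IntF.comp ?_ ?_; assumption) | (with_reducible refine IntF.comp₂ ?_ ?_ ?_; assumption) | (with_reducible refine IntF.comp₃ ?_ ?_ ?_ ?_; assumption) |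 with_reducible apply IntF.pair))) fun _ _ => rfl
    · exact EF.comp hG hFE (φ := fun q : (INat M × FS M (INat M)) ×
        (FS M (Xt M) × FS M (Xt M)) => q.2) (by (repeat' (first | with_reducible exact IntF.id | with_reducible exact IntF.fst' | with_reducible exact IntF.snd' | with_reducible exact IntF.const _ | with_reducible exact Int.const _ | assumption | with_reducible apply Int.and | with_reducible apply Int.or | with_reducible apply Int.not | with_reducible apply Int.imp | with_reducible apply Int.iff | with_reducible apply Int.ne | with_reducible apply Int.eq | with_reducible apply Int.mem | with_reducible apply Int.subset | with_reducible apply Int.ltN | with_reducible apply Int.leN | with_reducible_and_instances apply Int.le | with_reducible_and_instances apply Int.lt | with_reducible apply Int.all | with_reducible apply Int.ex | with_reducible apply IntF.fst | with_reducible apply IntF.snd | with_reducible apply IntF.app | with_reducible apply IntF.inl | with_reducible apply IntF.inr | with_reducible_and_instances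 apply IntF.mul | with_reducible_and_instances apply IntF.inv | with_reducible_and_instances apply IntF.add | with_reducible_and_instances apply IntF.sub | with_reducible_and_instances apply IntF.neg | with_reducible_and_instances apply IntF.smul | with_reducible apply Int.fin | with_reducible apply IntF.sep | with_reducible apply IntF.lam | with_reducible apply IntF.insert | with_reducible apply IntF.singleton | with_reducible apply IntF.union | with_reducible apply IntF.iimage | with_reducible apply IntF.ite | with_reducible apply IntF.the | with_reducible apply IntF.irec | with_reducible apply IntF.succ | with_reducible apply IntF.val | with_reducible apply IntF.mk | (with_reducible refine Int.comp ?_ ?_; assumption) | (with_reducible refine Int.comp₂ ?_ ?_ ?_; assumption) | (with_reducible refine Int.comp₃ ?_ ?_ ?_ ?_; assumption) | (with_reducible refine Int.comp₄ ?_ ?_ ?_ ?_ ?_; assumption) | (with_reducible refine IntF.comp ?_ ?_; assumption) | (with_reducible refine IntF.comp₂ ?_ ?_ ?_; assumption) | (with_reducible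 refine IntF.comp₃ ?_ ?_ ?_ ?_; assumption) | with_reducible apply IntF.pair))) fun _ _ => rfl
  refine ⟨E, fun g hg hgE n t U ht hU => ?_⟩
  obtain ⟨n, rfl⟩ := nnN_surj hG hC n
  obtain ⟨e, he⟩ := exists_trace hG hC hFn hFnm t ht
  obtain ⟨E', t', hinv, hBt, hBc⟩ := exists_code hG hF U
  have h1 : Mem (op (op (nn (ZZ M) hG n) (Fn e)) (F (E', t'))) z := by
    rw [← he, ← hBc]
    exact (hz ((nnN (ZZ M) hG hC n, t), U)).2 hU
  have h2 : Mem (op (op (nn (ZZ M) hG n) (Fn e)) (F (fsg g E', fsg g t'))) z :=
    hE _ _ _ _ hef g hg hgE ((n, e), (E', t')) h1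
  have hbi : Int (Nx hG) (fun x : El (AD hG) => Mem x.1 (F (fsg g E', fsg g t'))) :=
    int_mem1 hG _
  have hcode : code (M := Nx hG) (sep (Nx hG) fun x : El (AD hG) =>
      Mem x.1 (F (fsg g E', fsg g t'))) = F (fsg g E', fsg g t') := by
    refine nn_ext hG fun w => ⟨fun hw => ?_, fun hw => ?_⟩
    · obtain ⟨x, hx, rfl⟩ := (mem_cP hG).1 hw
      exact (mem_sep hbi).1 hx
    · obtain ⟨d, hd, rfl⟩ := (hF _ _).1 hw
      obtain ⟨b, e, rfl, h5, h6⟩ := id hd
      exact (mem_cD hG).2 ((mem_sep hbi).2 ((hF _ _).2 ⟨_, hd, rfl⟩))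
  refine ⟨sep (Nx hG) fun x : El (AD hG) => Mem x.1 (F (fsg g E', fsg g t')), ?_, ?_⟩
  · refine (hz ((nnN (ZZ M) hG hC n, t), _)).1 ?_
    change Mem (op (op (nn (ZZ M) hG n) (code (M := Nx hG) t)) (code (M := Nx hG) _)) z
    rw [hcode, he]
    exact h2
  · intro a a' haa
    rw [mem_sep hbi, hBt]
    constructor
    · intro h3
      have h4 := RX_inv hg h3
      rw [haa] at h4
      exact (hF _ _).2 ⟨_, h4, rfl⟩
    · intro h3
      obtain ⟨d, hd, h6⟩ := (hF _ _).1 h3
      have h7 : (Sum.inl a' : Xt M) = d := (cc_inj hG).1 h6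
      subst h7
      have h8 := RX_inv ((ZZ M).H.inv_mem hg) hd
      simp only [fsg_inv] at h8
      have h9 : (g⁻¹ : IPerm M (Xt M)).1.1 (Sum.inl a') = Sum.inl a := by
        rw [IPerm.inv_apply, ← haa]
        exact g.2.2 _
      rwa [h9] at h8

include hC in
/-- The sets of the extension have finite supports. -/
theorem exists_supp (U : IPow (Nx hG) (El (AD hG))) : Int M (fun a => dA hG a ∈ U) ∧
    ∃ E' : FS M (Xt M), ∀ a b, rE E' a b → dA hG a ∈ U → dA hG b ∈ U := by
  obtain ⟨F, hFE, hF⟩ := exists_F hG
  obtain ⟨E', t', hinv, hBt, hBc⟩ := exists_code hG hF U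
  refine ⟨?_, E', hinv⟩
  have h := int_RX (M := M)
  have h1 : Int M (fun a : Dt M => RX (E', t') (Sum.inl a)) :=
    Int.comp₂ (p := fun (q : FS M (Xt M) × FS M (Xt M)) (d : Xt M) => RX q d) h (IntF.const _)
      (IntF.inl IntF.id)
  have h2 : (fun a => dA hG a ∈ U) = (fun a : Dt M => RX (E', t') (Sum.inl a)) :=
    funext fun a => propext (hBt a)
  rw [h2]
  exact h1

include hC in
/-- Finite sets of the extension. -/
theorem fin_iff' {p : Dt M → Prop} (hp : Int M p) {U : IPow (Nx hG) (El (AD hG))}
    (hU : ∀ a, dA hG a ∈ U ↔ p a) : IFin U ↔ FinP M p := by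
  constructor
  · intro h
    refine fin_back hG hC hp ⟨U, h, ?_⟩
    rintro x ⟨a, rfl, ha⟩
    exact (hU a).2 ha
  · intro h
    obtain ⟨s, hs, h1⟩ := finN hG hC hp h
    refine hs.subset fun x hx => ?_
    obtain ⟨a, rfl⟩ := dA_surj hG x
    exact h1 _ ⟨a, rfl, (hU a).1 hx⟩

include hC in
/-- Finite sets of names. -/
theorem finY {p : Yt M → Prop} (hp : Int M p) (hf : FinP M p) :
    FinP (Nx hG) (fun x : El (AY hG) => ∃ B, yA hG B = x ∧ p B) := by
  have hp' : Int M (fun x : Xt M => ∃ a, p a ∧ Sum.inr a = x) :=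
    Int.ex (Int.and (hp.comp IntF.snd') (Int.eq (IntF.inr IntF.snd') IntF.fst'))
  have hf' : FinP M (fun x : Xt M => ∃ a, p a ∧ Sum.inr a = x) := hf.image (IntF.inr IntF.id)
  refine (fin_img hG hC (ef_cc hG) (fun g b => g.2.2 _) hp' hf' (E := ⟨_, hf'.fin hp'⟩)
    (fun g hg hgE c hc => hgE c ((mem_sep hp').2 hc)) (β := El (AY hG))).mono ?_
  rintro x ⟨a, rfl, h1⟩
  exact ⟨Sum.inr a, ⟨a, h1, rfl⟩, rfl⟩

end

end Pool.Agent.V11257T
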