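import Pool.Agent.V11257.NmDefs

/-!
# ISFBI in a structure for the language of set theory: definition
-/

namespace Pool.Agent.V11257T

open FirstOrder FirstOrder.Language
open Pool.Agent.Helper672.Plain (LSet Mem)
open Pool.Agent.H310Cards
open Pool.Agent.V11257G (StronglyFilterbaseInfinite)

universe u

/-- ISFBI: every infinite set is strongly filterbase infinite. -/
def ISFBI (N : Type u) [LSet.Structure N] : Prop :=
  ∀ a : N, ¬ IsFinite a → StronglyFilterbaseInfinite a

end Pool.Agent.V11257T
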