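import Pool.Agent.V11257.Tr12
import Pool.Agent.V11257.Nm14
import Pool.Agent.V11257.TrDefs

/-!
# Every infinite set is strongly filterbase infinite, and one is not dyadically filterbase infinite
-/

set_option maxHeartbeats 1000000
set_option linter.all false
set_option synthInstance.maxSize 2000

namespace Pool.Agent.V11257T

open FirstOrder FirstOrder.Language
open Pool.Agent.Helper672
open Pool.Agent.Helper672.ZFA
open Pool.Agent.Helper672.Plain (LSet)
open Pool.Agent.H310
open Pool.Agent.H310Cards
open Pool.Agent.H635Amen (ZF)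
open Pool.Agent.V11257G
open Pool.Agent.V11257N (IDFBI infP_of inf_of dom_El')

universe u

section

attribute [local instance] Helper672.Plain.toL

variable {N : Type u} [LSet.Structure N] [hZ : Helper672.Plain.Zermelo N]

local instance instModelTr13 : IsModel N := Helper672.Plain.isModel_toL

theorem sfbi_of {a : N} (h : ∃ V, ADQ N (El a) V) : StronglyFilterbaseInfinite a := by
  obtain ⟨V, hV⟩ := h
  have := hV.strongly
  rwa [dom_El'] at this

theorem dy_of' {a : N} (h : DyadicallyFilterbaseInfinite a) :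
    ∃ D : (INat N × IPow N (INat N)) × IPow N (El a) → Prop, Dy D := by
  refine dy_of ?_
  rwa [dom_El']

end

open Pool.Agent.Helper672.ZFA.H635 (IPerm IsGen NN EqFam CollL nn_ext exists_mk mk_eq_nd IWO
  nn_zf isModel_of_zermelo coll_of_zf exists_countable_sub toL)
open Pool.Agent.Helper672.ZFA.H310M
open Pool.Agent.H310NAS (WO)
open Pool.Agent.H310.NA (iwo_of wo_substructure zs zf_zs wo_zs)

theorem exists_isf' (M : Type u) [L.Structure M] [IsModel M] [Countable M] (hC : CollL M)
    (hWO : ∀ x : M, ∃ lt : El x → El x → Prop, IWO M (El x) lt) :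
    ∃ (N : Type u) (_ : LSet.Structure N), ZF N ∧ ISFBI N ∧ ¬ IDFBI N := by
  have p₀ : Co M (Xt M) := ⟨∅, fun i k d d' h => absurd h (by simp), IFin.empty⟩
  obtain ⟨G, hG⟩ := H635.exists_gen (M := M) p₀
  have hzf : ZF (Nx hG) := nn_zf hG hC
  refine ⟨Nx hG, inferInstance, hzf, fun a ha => ?_, fun h => ?_⟩
  · exact sfbi_of (exists_adq_of hG hC hWO a (infP_of ha))
  · obtain ⟨D, hD⟩ := dy_of' (h (AD hG) (inf_of (inf_AD hG hC)))
    exact no_dy hG hC hD

section

attribute [local instance] toL

theorem exists_isf_c (M : Type u) [LSet.Structure M] [Countable M] (h : ZF M) (hW : WO M) :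
    ∃ (N : Type u) (_ : LSet.Structure N), ZF N ∧ ISFBI N ∧ ¬ IDFBI N := by
  have hM : IsModel M := isModel_of_zermelo h.toZermelo
  exact exists_isf' M (coll_of_zf h) (iwo_of hW)

end

/-- The theorem for all models of ZF with a well-order on every set. -/
theorem exists_isf (M : Type u) [LSet.Structure M] (h : ZF M) (hW : WO M) :
    ∃ (N : Type u) (_ : LSet.Structure N), ZF N ∧ ISFBI N ∧ ¬ IDFBI N := by
  obtain ⟨M₀, h1, h2⟩ := exists_countable_sub M h
  exact exists_isf_c M₀ h2 (wo_substructure M₀ hW)

/-- There is a model. -/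
theorem exists_isf_zs : ∃ (N : Type 1) (_ : LSet.Structure N), ZF N ∧ ISFBI N ∧ ¬ IDFBI N :=
  letI := zs.{0}
  exists_isf ZFSet.{0} zf_zs wo_zs

end Pool.Agent.V11257T
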