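import Pool.Agent.V11257.Tr1

/-!
# The tree of finite sequences: the ground model
-/

set_option maxHeartbeats 1000000
set_option linter.all false
set_option synthInstance.maxSize 2000

namespace Pool.Agent.V11257T

open FirstOrder FirstOrder.Language
open Pool.Agent.Helper672.ZFA
open Pool.Agent.Helper672.ZFA.H635 (IPerm)
open Pool.Agent.Helper672.ZFA.H310M (FS PGr fsu)
open Pool.Agent.H310

universe u

variable {M : Type u} [L.Structure M] [hM : IsModel M]

instance instFY : Fact (Int M (fun B : IPow M (Dt M) => ∃ n z, alm B n z)) := ⟨by
  have := int_alm (M := M)
  (repeat' (first | with_reducible exact IntF.id | with_reducible exact IntF.fst' | with_reducible exact IntF.snd' | with_reducible exact IntF.const _ | with_reducible exact Int.const _ | assumption | with_reducible apply Int.and | with_reducible apply Int.or | with_reducible apply Int.not | with_reducible apply Int.imp | with_reducible apply Int.iff | with_reducible apply Int.ne | with_reducible apply Int.eq | with_reducible apply Int.mem | with_reducible apply Int.subset | with_reducible apply Int.ltN | with_reducible apply Int.leN | with_reducible_and_instances apply Int.le | with_reducible_and_instances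 apply Int.lt | with_reducible apply Int.all | with_reducible apply Int.ex | with_reducible apply IntF.fst | with_reducible apply IntF.snd | with_reducible apply IntF.app | with_reducible apply IntF.inl | with_reducible apply IntF.inr | with_reducible_and_instances apply IntF.mul | with_reducible_and_instances apply IntF.inv | with_reducible_and_instances apply IntF.add | with_reducible_and_instances apply IntF.sub | with_reducible_and_instances apply IntF.neg | with_reducible_and_instances apply IntF.smul | with_reducible apply Int.fin | with_reducible apply IntF.sep | with_reducible apply IntF.lam | with_reducible apply IntF.insert | with_reducible apply IntF.singleton | with_reducible apply IntF.union | with_reducible apply IntF.iimage | with_reducible apply IntF.ite | with_reducible apply IntF.the | with_reducible apply IntF.irec | with_reducible apply IntF.succ | with_reducible apply IntF.val | with_reducible apply IntF.mk | (with_reducible refine Int.comp ?_ ?_; assumption) | (with_reducible refine Int.comp₂ ?_ ?_ ?_; assumption) | (with_reducible refine Int.comp₃ ?_ ?_ ?_ ?_; assumption) | (with_reducible refine Int.comp₄ ?_ ?_ ?_ ?_ ?_; assumption)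 | (with_reducible refine IntF.comp ?_ ?_; assumption) | (with_reducible refine IntF.comp₂ ?_ ?_ ?_; assumption) | (with_reducible refine IntF.comp₃ ?_ ?_ ?_ ?_; assumption) | with_reducible apply IntF.pair))⟩

/-- Finitary permutations. -/
def Pf (f : Dt M) : Prop := (∀ l, ∃ k, f k = l) ∧ (∀ k k', f k = f k' → k = k') ∧
  ∃ b, ∀ k, b ≤ k → f k = k

instance instFP : Fact (Int M (fun f : Dt M => Pf f)) := ⟨by
  unfold Pf
  (repeat' (first | with_reducible exact IntF.id | with_reducible exact IntF.fst' | with_reducible exact IntF.snd' | with_reducible exact IntF.const _ | with_reducible exact Int.const _ | assumption | with_reducible apply Int.and | with_reducible apply Int.or | with_reducible apply Int.not | with_reducible apply Int.imp | with_reducible apply Int.iff | with_reducible apply Int.ne | with_reducible apply Int.eq | with_reducible apply Int.mem | with_reducible apply Int.subset | with_reducible apply Int.ltN | with_reducible apply Int.leN | with_reducible_and_instances apply Int.le | with_reducible_and_instances apply Int.lt | with_reducible apply Int.all | with_reducible apply Int.ex | with_reducible apply IntF.fst | with_reducible apply IntF.snd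 | with_reducible apply IntF.app | with_reducible apply IntF.inl | with_reducible apply IntF.inr | with_reducible_and_instances apply IntF.mul | with_reducible_and_instances apply IntF.inv | with_reducible_and_instances apply IntF.add | with_reducible_and_instances apply IntF.sub | with_reducible_and_instances apply IntF.neg | with_reducible_and_instances apply IntF.smul | with_reducible apply Int.fin | with_reducible apply IntF.sep | with_reducible apply IntF.lam | with_reducible apply IntF.insert | with_reducible apply IntF.singleton | with_reducible apply IntF.union | with_reducible apply IntF.iimage | with_reducible apply IntF.ite | with_reducible apply IntF.the | with_reducible apply IntF.irec | with_reducible apply IntF.succ | with_reducible apply IntF.val | with_reducible apply IntF.mk | (with_reducible refine Int.comp ?_ ?_; assumption) | (with_reducible refine Int.comp₂ ?_ ?_ ?_; assumption) | (with_reducible refine Int.comp₃ ?_ ?_ ?_ ?_; assumption) | (with_reducible refine Int.comp₄ ?_ ?_ ?_ ?_ ?_; assumption) | (with_reducible refine IntF.comp ?_ ?_; assumption) | (with_reducible refine IntF.comp₂ ?_ ?_ ?_; assumption) | (with_reducible refine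 IntF.comp₃ ?_ ?_ ?_ ?_; assumption) | with_reducible apply IntF.pair))⟩

variable (M) in
/-- The names: almost nodes with finitary permutations. -/
abbrev Yt : Type u := {B : IPow M (Dt M) // ∃ n z, alm B n z} × {f : Dt M // Pf f}

variable (M) in
/-- The index set of the generic elements. -/
abbrev Xt : Type u := Dt M ⊕ Yt M

/-- The elements of the first sort. -/
def dm (x : Xt M) : Prop := ∃ a : Dt M, x = Sum.inl a

/-- Membership. -/
def mm (x y : Xt M) : Prop := ∃ (a : Dt M) (B : Yt M), x = Sum.inl a ∧ y = Sum.inr B ∧ a ∈ B.1.1

/-- Names of the same node. -/
def nd (y y' : Xt M) : Prop := ∃ B B' : Yt M, y = Sum.inr B ∧ y' = Sum.inr B' ∧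
  ∃ n z, alm B.1.1 n z ∧ alm B'.1.1 n z

/-- The level. -/
def lev (y : Xt M) (n : INat M) : Prop := ∃ B : Yt M, y = Sum.inr B ∧ ∃ z, alm B.1.1 n z

/-- Names of children. -/
def ch (y : Xt M) (k : INat M) (y' : Xt M) : Prop := ∃ B B' : Yt M, y = Sum.inr B ∧
  y' = Sum.inr B' ∧ ∃ n z, alm B.1.1 n z ∧ alm B'.1.1 n.succ z ∧ z n = B.2.1 k

theorem int_dm : Int M (dm (M := M)) := by
  unfold dm
  (repeat' (first | with_reducible exact IntF.id | with_reducible exact IntF.fst' | with_reducible exact IntF.snd' | with_reducible exact IntF.const _ | with_reducible exact Int.const _ | assumption | with_reducible apply Int.and | with_reducible apply Int.or | with_reducible apply Int.not | with_reducible apply Int.imp | with_reducible apply Int.iff | with_reducible apply Int.ne | with_reducible apply Int.eq | with_reducible apply Int.mem | with_reducible apply Int.subset | with_reducible apply Int.ltN | with_reducible apply Int.leN | with_reducible_and_instances apply Int.le | with_reducible_and_instances apply Int.lt | with_reducible apply Int.all | with_reducible apply Int.ex | with_reducible apply IntF.fst | with_reducible apply IntF.snd | with_reducible apply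 IntF.app | with_reducible apply IntF.inl | with_reducible apply IntF.inr | with_reducible_and_instances apply IntF.mul | with_reducible_and_instances apply IntF.inv | with_reducible_and_instances apply IntF.add | with_reducible_and_instances apply IntF.sub | with_reducible_and_instances apply IntF.neg | with_reducible_and_instances apply IntF.smul | with_reducible apply Int.fin | with_reducible apply IntF.sep | with_reducible apply IntF.lam | with_reducible apply IntF.insert | with_reducible apply IntF.singleton | with_reducible apply IntF.union | with_reducible apply IntF.iimage | with_reducible apply IntF.ite | with_reducible apply IntF.the | with_reducible apply IntF.irec | with_reducible apply IntF.succ | with_reducible apply IntF.val | with_reducible apply IntF.mk | (with_reducible refine Int.comp ?_ ?_; assumption) | (with_reducible refine Int.comp₂ ?_ ?_ ?_; assumption) | (with_reducible refine Int.comp₃ ?_ ?_ ?_ ?_; assumption) | (with_reducible refine Int.comp₄ ?_ ?_ ?_ ?_ ?_; assumption) | (with_reducible refine IntF.comp ?_ ?_; assumption) | (with_reducible refine IntF.comp₂ ?_ ?_ ?_; assumption) | (with_reducible refine IntF.comp₃ ?_ ?_ ?_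 ?_; assumption) | with_reducible apply IntF.pair))

theorem int_mm : Int M (fun q : Xt M × Xt M => mm q.1 q.2) := by
  unfold mm
  (repeat' (first | with_reducible exact IntF.id | with_reducible exact IntF.fst' | with_reducible exact IntF.snd' | with_reducible exact IntF.const _ | with_reducible exact Int.const _ | assumption | with_reducible apply Int.and | with_reducible apply Int.or | with_reducible apply Int.not | with_reducible apply Int.imp | with_reducible apply Int.iff | with_reducible apply Int.ne | with_reducible apply Int.eq | with_reducible apply Int.mem | with_reducible apply Int.subset | with_reducible apply Int.ltN | with_reducible apply Int.leN | with_reducible_and_instances apply Int.le | with_reducible_and_instances apply Int.lt | with_reducible apply Int.all | with_reducible apply Int.ex | with_reducible apply IntF.fst | with_reducible apply IntF.snd | with_reducible apply IntF.app | with_reducible apply IntF.inl | with_reducible apply IntF.inr | with_reducible_and_instances apply IntF.mul | with_reducible_and_instances apply IntF.inv | with_reducible_and_instances apply IntF.add | with_reducible_and_instances apply IntF.sub | with_reducible_and_instances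 apply IntF.neg | with_reducible_and_instances apply IntF.smul | with_reducible apply Int.fin | with_reducible apply IntF.sep | with_reducible apply IntF.lam | with_reducible apply IntF.insert | with_reducible apply IntF.singleton | with_reducible apply IntF.union | with_reducible apply IntF.iimage | with_reducible apply IntF.ite | with_reducible apply IntF.the | with_reducible apply IntF.irec | with_reducible apply IntF.succ | with_reducible apply IntF.val | with_reducible apply IntF.mk | (with_reducible refine Int.comp ?_ ?_; assumption) | (with_reducible refine Int.comp₂ ?_ ?_ ?_; assumption) | (with_reducible refine Int.comp₃ ?_ ?_ ?_ ?_; assumption) | (with_reducible refine Int.comp₄ ?_ ?_ ?_ ?_ ?_; assumption) | (with_reducible refine IntF.comp ?_ ?_; assumption) | (with_reducible refine IntF.comp₂ ?_ ?_ ?_; assumption) | (with_reducible refine IntF.comp₃ ?_ ?_ ?_ ?_; assumption) | with_reducible apply IntF.pair))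

theorem int_nd : Int M (fun q : Xt M × Xt M => nd q.1 q.2) := by
  have := int_alm (M := M)
  unfold nd
  (repeat' (first | with_reducible exact IntF.id | with_reducible exact IntF.fst' | with_reducible exact IntF.snd' | with_reducible exact IntF.const _ | with_reducible exact Int.const _ | assumption | with_reducible apply Int.and | with_reducible apply Int.or | with_reducible apply Int.not | with_reducible apply Int.imp | with_reducible apply Int.iff | with_reducible apply Int.ne | with_reducible apply Int.eq | with_reducible apply Int.mem | with_reducible apply Int.subset | with_reducible apply Int.ltN | with_reducible apply Int.leN | with_reducible_and_instances apply Int.le | with_reducible_and_instances apply Int.lt | with_reducible apply Int.all | with_reducible apply Int.ex | with_reducible apply IntF.fst | with_reducible apply IntF.snd | with_reducible apply IntF.app | with_reducible apply IntF.inl | with_reducible apply IntF.inr | with_reducible_and_instances apply IntF.mul | with_reducible_and_instances apply IntF.inv | with_reducible_and_instances apply IntF.add | with_reducible_and_instances apply IntF.sub | with_reducible_and_instances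 apply IntF.neg | with_reducible_and_instances apply IntF.smul | with_reducible apply Int.fin | with_reducible apply IntF.sep | with_reducible apply IntF.lam | with_reducible apply IntF.insert | with_reducible apply IntF.singleton | with_reducible apply IntF.union | with_reducible apply IntF.iimage | with_reducible apply IntF.ite | with_reducible apply IntF.the | with_reducible apply IntF.irec | with_reducible apply IntF.succ | with_reducible apply IntF.val | with_reducible apply IntF.mk | (with_reducible refine Int.comp ?_ ?_; assumption) | (with_reducible refine Int.comp₂ ?_ ?_ ?_; assumption) | (with_reducible refine Int.comp₃ ?_ ?_ ?_ ?_; assumption) | (with_reducible refine Int.comp₄ ?_ ?_ ?_ ?_ ?_; assumption) | (with_reducible refine IntF.comp ?_ ?_; assumption) | (with_reducible refine IntF.comp₂ ?_ ?_ ?_; assumption) | (with_reducible refine IntF.comp₃ ?_ ?_ ?_ ?_; assumption) | with_reducible apply IntF.pair))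

theorem int_lev : Int M (fun q : Xt M × INat M => lev q.1 q.2) := by
  have := int_alm (M := M)
  unfold lev
  (repeat' (first | with_reducible exact IntF.id | with_reducible exact IntF.fst' | with_reducible exact IntF.snd' | with_reducible exact IntF.const _ | with_reducible exact Int.const _ | assumption | with_reducible apply Int.and | with_reducible apply Int.or | with_reducible apply Int.not | with_reducible apply Int.imp | with_reducible apply Int.iff | with_reducible apply Int.ne | with_reducible apply Int.eq | with_reducible apply Int.mem | with_reducible apply Int.subset | with_reducible apply Int.ltN | with_reducible apply Int.leN | with_reducible_and_instances apply Int.le | with_reducible_and_instances apply Int.lt | with_reducible apply Int.all | with_reducible apply Int.ex | with_reducible apply IntF.fst | with_reducible apply IntF.snd | with_reducible apply IntF.app | with_reducible apply IntF.inl | with_reducible apply IntF.inr | with_reducible_and_instances apply IntF.mul | with_reducible_and_instances apply IntF.inv | with_reducible_and_instances apply IntF.add | with_reducible_and_instances apply IntF.sub | with_reducible_and_instances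 apply IntF.neg | with_reducible_and_instances apply IntF.smul | with_reducible apply Int.fin | with_reducible apply IntF.sep | with_reducible apply IntF.lam | with_reducible apply IntF.insert | with_reducible apply IntF.singleton | with_reducible apply IntF.union | with_reducible apply IntF.iimage | with_reducible apply IntF.ite | with_reducible apply IntF.the | with_reducible apply IntF.irec | with_reducible apply IntF.succ | with_reducible apply IntF.val | with_reducible apply IntF.mk | (with_reducible refine Int.comp ?_ ?_; assumption) | (with_reducible refine Int.comp₂ ?_ ?_ ?_; assumption) | (with_reducible refine Int.comp₃ ?_ ?_ ?_ ?_; assumption) | (with_reducible refine Int.comp₄ ?_ ?_ ?_ ?_ ?_; assumption) | (with_reducible refine IntF.comp ?_ ?_; assumption) | (with_reducible refine IntF.comp₂ ?_ ?_ ?_; assumption) | (with_reducible refine IntF.comp₃ ?_ ?_ ?_ ?_; assumption) | with_reducible apply IntF.pair))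

theorem int_ch : Int M (fun q : (Xt M × INat M) × Xt M => ch q.1.1 q.1.2 q.2) := by
  have := int_alm (M := M)
  unfold ch
  (repeat' (first | with_reducible exact IntF.id | with_reducible exact IntF.fst' | with_reducible exact IntF.snd' | with_reducible exact IntF.const _ | with_reducible exact Int.const _ | assumption | with_reducible apply Int.and | with_reducible apply Int.or | with_reducible apply Int.not | with_reducible apply Int.imp | with_reducible apply Int.iff | with_reducible apply Int.ne | with_reducible apply Int.eq | with_reducible apply Int.mem | with_reducible apply Int.subset | with_reducible apply Int.ltN | with_reducible apply Int.leN | with_reducible_and_instances apply Int.le | with_reducible_and_instances apply Int.lt | with_reducible apply Int.all | with_reducible apply Int.ex | with_reducible apply IntF.fst | with_reducible apply IntF.snd | with_reducible apply IntF.app | with_reducible apply IntF.inl | with_reducible apply IntF.inr | with_reducible_and_instances apply IntF.mul | with_reducible_and_instances apply IntF.inv | with_reducible_and_instances apply IntF.add | with_reducible_and_instances apply IntF.sub | with_reducible_and_instances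 apply IntF.neg | with_reducible_and_instances apply IntF.smul | with_reducible apply Int.fin | with_reducible apply IntF.sep | with_reducible apply IntF.lam | with_reducible apply IntF.insert | with_reducible apply IntF.singleton | with_reducible apply IntF.union | with_reducible apply IntF.iimage | with_reducible apply IntF.ite | with_reducible apply IntF.the | with_reducible apply IntF.irec | with_reducible apply IntF.succ | with_reducible apply IntF.val | with_reducible apply IntF.mk | (with_reducible refine Int.comp ?_ ?_; assumption) | (with_reducible refine Int.comp₂ ?_ ?_ ?_; assumption) | (with_reducible refine Int.comp₃ ?_ ?_ ?_ ?_; assumption) | (with_reducible refine Int.comp₄ ?_ ?_ ?_ ?_ ?_; assumption) | (with_reducible refine IntF.comp ?_ ?_; assumption) | (with_reducible refine IntF.comp₂ ?_ ?_ ?_; assumption) | (with_reducible refine IntF.comp₃ ?_ ?_ ?_ ?_; assumption) | with_reducible apply IntF.pair))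

variable (M) in
/-- The automorphisms. -/
def HZ : Subgroup (IPerm M (Xt M)) where
  carrier := {g | (∀ x, dm x ↔ dm (g.1.1 x)) ∧ (∀ x y, mm x y ↔ mm (g.1.1 x) (g.1.1 y)) ∧
    (∀ x y, nd x y ↔ nd (g.1.1 x) (g.1.1 y)) ∧ (∀ y i, lev y i ↔ lev (g.1.1 y) i) ∧
    ∀ x k y, ch x k y ↔ ch (g.1.1 x) k (g.1.1 y)}
  mul_mem' {a b} ha hb := by
    refine ⟨fun x => ?_, fun x y => ?_, fun x y => ?_, fun y i => ?_, fun x k y => ?_⟩
    · rw [hb.1 x, ha.1 (b.1.1 x), IPerm.mul_apply]
    · rw [hb.2.1 x y, ha.2.1 (b.1.1 x) (b.1.1 y), IPerm.mul_apply, IPerm.mul_apply]
    · rw [hb.2.2.1 x y, ha.2.2.1 (b.1.1 x) (b.1.1 y), IPerm.mul_apply, IPerm.mul_apply]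
    · rw [hb.2.2.2.1 y i, ha.2.2.2.1 (b.1.1 y) i, IPerm.mul_apply]
    · rw [hb.2.2.2.2 x k y, ha.2.2.2.2 (b.1.1 x) k (b.1.1 y), IPerm.mul_apply, IPerm.mul_apply]
  one_mem' := by
    refine ⟨fun x => ?_, fun x y => ?_, fun x y => ?_, fun y i => ?_, fun x k y => ?_⟩
    · rw [IPerm.one_apply]
    · rw [IPerm.one_apply, IPerm.one_apply]
    · rw [IPerm.one_apply, IPerm.one_apply]
    · rw [IPerm.one_apply]
    · rw [IPerm.one_apply, IPerm.one_apply]
  inv_mem' {a} ha := by
    have e1 : ∀ x, a.1.1 (a.1.2 x) = x := a.2.1
    refine ⟨fun x => ?_, fun x y => ?_, fun x y => ?_, fun y i => ?_, fun x k y => ?_⟩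
    · change _ ↔ dm (a.1.2 x)
      rw [ha.1 (a.1.2 x), e1]
    · change _ ↔ mm (a.1.2 x) (a.1.2 y)
      rw [ha.2.1 (a.1.2 x), e1, e1]
    · change _ ↔ nd (a.1.2 x) (a.1.2 y)
      rw [ha.2.2.1 (a.1.2 x), e1, e1]
    · change _ ↔ lev (a.1.2 y) i
      rw [ha.2.2.2.1 (a.1.2 y), e1]
    · change _ ↔ ch (a.1.2 x) k (a.1.2 y)
      rw [ha.2.2.2.2 (a.1.2 x), e1, e1]

variable (M) in
/-- The automorphisms. -/
def ZZ : PGr M (Xt M) where
  H := HZ M
  int := by
    have h1 := int_dm (M := M)
    have h2 := int_mm (M := M)
    have h3 := int_nd (M := M)
    have h4 := int_lev (M := M)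
    have h5 := int_ch (M := M)
    change Int M (fun g : IPerm M (Xt M) => (∀ x, dm x ↔ dm (g.1.1 x)) ∧
      (∀ x y, mm x y ↔ mm (g.1.1 x) (g.1.1 y)) ∧ (∀ x y, nd x y ↔ nd (g.1.1 x) (g.1.1 y)) ∧
      (∀ y i, lev y i ↔ lev (g.1.1 y) i) ∧ ∀ x k y, ch x k y ↔ ch (g.1.1 x) k (g.1.1 y))
    (repeat' (first | with_reducible exact IntF.id | with_reducible exact IntF.fst' | with_reducible exact IntF.snd' | with_reducible exact IntF.const _ | with_reducible exact Int.const _ | assumption | with_reducible apply Int.and | with_reducible apply Int.or | with_reducible apply Int.not | with_reducible apply Int.imp | with_reducible apply Int.iff | with_reducible apply Int.ne | with_reducible apply Int.eq | with_reducible apply Int.mem | with_reducible apply Int.subset | with_reducible apply Int.ltN | with_reducible apply Int.leN | with_reducible_and_instances apply Int.le | with_reducible_and_instances apply Int.lt | with_reducible apply Int.all | with_reducible apply Int.ex | with_reducible apply IntF.fst | with_reducible apply IntF.snd | with_reducible apply IntF.app | with_reducible apply IntF.inl | with_reducible apply IntF.inr | with_reducible_and_instances apply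 IntF.mul | with_reducible_and_instances apply IntF.inv | with_reducible_and_instances apply IntF.add | with_reducible_and_instances apply IntF.sub | with_reducible_and_instances apply IntF.neg | with_reducible_and_instances apply IntF.smul | with_reducible apply Int.fin | with_reducible apply IntF.sep | with_reducible apply IntF.lam | with_reducible apply IntF.insert | with_reducible apply IntF.singleton | with_reducible apply IntF.union | with_reducible apply IntF.iimage | with_reducible apply IntF.ite | with_reducible apply IntF.the | with_reducible apply IntF.irec | with_reducible apply IntF.succ | with_reducible apply IntF.val | with_reducible apply IntF.mk | (with_reducible refine Int.comp ?_ ?_; assumption) | (with_reducible refine Int.comp₂ ?_ ?_ ?_; assumption) | (with_reducible refine Int.comp₃ ?_ ?_ ?_ ?_; assumption) | (with_reducible refine Int.comp₄ ?_ ?_ ?_ ?_ ?_; assumption) | (with_reducible refine IntF.comp ?_ ?_; assumption) | (with_reducible refine IntF.comp₂ ?_ ?_ ?_; assumption) | (with_reducible refine IntF.comp₃ ?_ ?_ ?_ ?_; assumption) | with_reducible apply IntF.pair))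

section lift

variable (n₀ : INat M) (z₀ : Dt M) (k0 k1 : INat M)

open Classical in
/-- The new permutation. -/
noncomputable def np (B : Yt M) : Dt M :=
  if alm B.1.1 n₀ z₀ then lam M (fun k => swp k0 k1 (B.2.1 k)) else B.2.1

theorem np_pos {B : Yt M} (h : alm B.1.1 n₀ z₀) (k : INat M) :
    np n₀ z₀ k0 k1 B k = swp k0 k1 (B.2.1 k) := by
  have h' := int_swp (M := M)
  unfold np
  rw [if_pos h]
  refine lam_apply ?_ k
  exact (IntF.comp h' (by (repeat' (first | with_reducible exact IntF.id | with_reducible exact IntF.fst' | with_reducible exact IntF.snd' | with_reducible exact IntF.const _ | with_reducible exact Int.const _ | assumption | with_reducible apply Int.and | with_reducible apply Int.or | with_reducible apply Int.not | with_reducible apply Int.imp | with_reducible apply Int.iff | with_reducible apply Int.ne | with_reducible apply Int.eq | with_reducible apply Int.mem | with_reducible apply Int.subset | with_reducible apply Int.ltN | with_reducible apply Int.leN | with_reducible_and_instances apply Int.le | with_reducible_and_instances apply Int.lt | with_reducible apply Int.all | with_reducible apply Int.ex | with_reducible apply IntF.fst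 | with_reducible apply IntF.snd | with_reducible apply IntF.app | with_reducible apply IntF.inl | with_reducible apply IntF.inr | with_reducible_and_instances apply IntF.mul | with_reducible_and_instances apply IntF.inv | with_reducible_and_instances apply IntF.add | with_reducible_and_instances apply IntF.sub | with_reducible_and_instances apply IntF.neg | with_reducible_and_instances apply IntF.smul | with_reducible apply Int.fin | with_reducible apply IntF.sep | with_reducible apply IntF.lam | with_reducible apply IntF.insert | with_reducible apply IntF.singleton | with_reducible apply IntF.union | with_reducible apply IntF.iimage | with_reducible apply IntF.ite | with_reducible apply IntF.the | with_reducible apply IntF.irec | with_reducible apply IntF.succ | with_reducible apply IntF.val | with_reducible apply IntF.mk | (with_reducible refine Int.comp ?_ ?_; assumption) | (with_reducible refine Int.comp₂ ?_ ?_ ?_; assumption) | (with_reducible refine Int.comp₃ ?_ ?_ ?_ ?_; assumption) | (with_reducible refine Int.comp₄ ?_ ?_ ?_ ?_ ?_; assumption) | (with_reducible refine IntF.comp ?_ ?_; assumption) | (with_reducible refine IntF.comp₂ ?_ ?_ ?_; assumption)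 | (with_reducible refine IntF.comp₃ ?_ ?_ ?_ ?_; assumption) | with_reducible apply IntF.pair)) : IntF M (fun k : INat M => ((k0, k1), B.2.1 k))) :)

theorem np_neg {B : Yt M} (h : ¬ alm B.1.1 n₀ z₀) : np n₀ z₀ k0 k1 B = B.2.1 := by
  unfold np
  rw [if_neg h]

theorem int_np : IntF M (np (M := M) n₀ z₀ k0 k1) := by
  classical
  have h := int_alm (M := M)
  have h' := int_swp (M := M)
  unfold np
  refine IntF.ite ?_ (IntF.lam ?_) (by (repeat' (first | with_reducible exact IntF.id | with_reducible exact IntF.fst' | with_reducible exact IntF.snd' | with_reducible exact IntF.const _ | with_reducible exact Int.const _ | assumption | with_reducible apply Int.and | with_reducible apply Int.or | with_reducible apply Int.not | with_reducible apply Int.imp | with_reducible apply Int.iff | with_reducible apply Int.ne | with_reducible apply Int.eq | with_reducible apply Int.mem | with_reducible apply Int.subset | with_reducible apply Int.ltN | with_reducible apply Int.leN | with_reducible_and_instances apply Int.le | with_reducible_and_instances apply Int.lt | with_reducible apply Int.all | with_reducible apply Int.ex | with_reducible apply IntF.fst | with_reducible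 apply IntF.snd | with_reducible apply IntF.app | with_reducible apply IntF.inl | with_reducible apply IntF.inr | with_reducible_and_instances apply IntF.mul | with_reducible_and_instances apply IntF.inv | with_reducible_and_instances apply IntF.add | with_reducible_and_instances apply IntF.sub | with_reducible_and_instances apply IntF.neg | with_reducible_and_instances apply IntF.smul | with_reducible apply Int.fin | with_reducible apply IntF.sep | with_reducible apply IntF.lam | with_reducible apply IntF.insert | with_reducible apply IntF.singleton | with_reducible apply IntF.union | with_reducible apply IntF.iimage | with_reducible apply IntF.ite | with_reducible apply IntF.the | with_reducible apply IntF.irec | with_reducible apply IntF.succ | with_reducible apply IntF.val | with_reducible apply IntF.mk | (with_reducible refine Int.comp ?_ ?_; assumption) | (with_reducible refine Int.comp₂ ?_ ?_ ?_; assumption) | (with_reducible refine Int.comp₃ ?_ ?_ ?_ ?_; assumption) | (with_reducible refine Int.comp₄ ?_ ?_ ?_ ?_ ?_; assumption) | (with_reducible refine IntF.comp ?_ ?_; assumption) | (with_reducible refine IntF.comp₂ ?_ ?_ ?_; assumption) | (with_reducible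 refine IntF.comp₃ ?_ ?_ ?_ ?_; assumption) | with_reducible apply IntF.pair)))
  · exact Int.comp₃ (p := fun B n z => alm B n z) h (by (repeat' (first | with_reducible exact IntF.id | with_reducible exact IntF.fst' | with_reducible exact IntF.snd' | with_reducible exact IntF.const _ | with_reducible exact Int.const _ | assumption | with_reducible apply Int.and | with_reducible apply Int.or | with_reducible apply Int.not | with_reducible apply Int.imp | with_reducible apply Int.iff | with_reducible apply Int.ne | with_reducible apply Int.eq | with_reducible apply Int.mem | with_reducible apply Int.subset | with_reducible apply Int.ltN | with_reducible apply Int.leN | with_reducible_and_instances apply Int.le | with_reducible_and_instances apply Int.lt | with_reducible apply Int.all | with_reducible apply Int.ex | with_reducible apply IntF.fst | with_reducible apply IntF.snd | with_reducible apply IntF.app | with_reducible apply IntF.inl | with_reducible apply IntF.inr | with_reducible_and_instances apply IntF.mul | with_reducible_and_instances apply IntF.inv | with_reducible_and_instances apply IntF.add | with_reducible_and_instances apply IntF.sub | with_reducible_and_instances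 apply IntF.neg | with_reducible_and_instances apply IntF.smul | with_reducible apply Int.fin | with_reducible apply IntF.sep | with_reducible apply IntF.lam | with_reducible apply IntF.insert | with_reducible apply IntF.singleton | with_reducible apply IntF.union | with_reducible apply IntF.iimage | with_reducible apply IntF.ite | with_reducible apply IntF.the | with_reducible apply IntF.irec | with_reducible apply IntF.succ | with_reducible apply IntF.val | with_reducible apply IntF.mk | (with_reducible refine Int.comp ?_ ?_; assumption) | (with_reducible refine Int.comp₂ ?_ ?_ ?_; assumption) | (with_reducible refine Int.comp₃ ?_ ?_ ?_ ?_; assumption) | (with_reducible refine Int.comp₄ ?_ ?_ ?_ ?_ ?_; assumption) | (with_reducible refine IntF.comp ?_ ?_; assumption) | (with_reducible refine IntF.comp₂ ?_ ?_ ?_; assumption) | (with_reducible refine IntF.comp₃ ?_ ?_ ?_ ?_; assumption) | with_reducible apply IntF.pair))) (by (repeat' (first | with_reducible exact IntF.id | with_reducible exact IntF.fst' | with_reducible exact IntF.snd' | with_reducible exact IntF.const _ | with_reducible exact Int.const _ | assumption | with_reducible apply Int.and | with_reducible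 apply Int.or | with_reducible apply Int.not | with_reducible apply Int.imp | with_reducible apply Int.iff | with_reducible apply Int.ne | with_reducible apply Int.eq | with_reducible apply Int.mem | with_reducible apply Int.subset | with_reducible apply Int.ltN | with_reducible apply Int.leN | with_reducible_and_instances apply Int.le | with_reducible_and_instances apply Int.lt | with_reducible apply Int.all | with_reducible apply Int.ex | with_reducible apply IntF.fst | with_reducible apply IntF.snd | with_reducible apply IntF.app | with_reducible apply IntF.inl | with_reducible apply IntF.inr | with_reducible_and_instances apply IntF.mul | with_reducible_and_instances apply IntF.inv | with_reducible_and_instances apply IntF.add | with_reducible_and_instances apply IntF.sub | with_reducible_and_instances apply IntF.neg | with_reducible_and_instances apply IntF.smul | with_reducible apply Int.fin | with_reducible apply IntF.sep | with_reducible apply IntF.lam | with_reducible apply IntF.insert | with_reducible apply IntF.singleton | with_reducible apply IntF.union | with_reducible apply IntF.iimage | with_reducible apply IntF.ite | with_reducible apply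 IntF.the | with_reducible apply IntF.irec | with_reducible apply IntF.succ | with_reducible apply IntF.val | with_reducible apply IntF.mk | (with_reducible refine Int.comp ?_ ?_; assumption) | (with_reducible refine Int.comp₂ ?_ ?_ ?_; assumption) | (with_reducible refine Int.comp₃ ?_ ?_ ?_ ?_; assumption) | (with_reducible refine Int.comp₄ ?_ ?_ ?_ ?_ ?_; assumption) | (with_reducible refine IntF.comp ?_ ?_; assumption) | (with_reducible refine IntF.comp₂ ?_ ?_ ?_; assumption) | (with_reducible refine IntF.comp₃ ?_ ?_ ?_ ?_; assumption) | with_reducible apply IntF.pair))) (by (repeat' (first | with_reducible exact IntF.id | with_reducible exact IntF.fst' | with_reducible exact IntF.snd' | with_reducible exact IntF.const _ | with_reducible exact Int.const _ | assumption | with_reducible apply Int.and | with_reducible apply Int.or | with_reducible apply Int.not | with_reducible apply Int.imp | with_reducible apply Int.iff | with_reducible apply Int.ne | with_reducible apply Int.eq | with_reducible apply Int.mem | with_reducible apply Int.subset | with_reducible apply Int.ltN | with_reducible apply Int.leN | with_reducible_and_instances apply Int.le | with_reducible_and_instances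 apply Int.lt | with_reducible apply Int.all | with_reducible apply Int.ex | with_reducible apply IntF.fst | with_reducible apply IntF.snd | with_reducible apply IntF.app | with_reducible apply IntF.inl | with_reducible apply IntF.inr | with_reducible_and_instances apply IntF.mul | with_reducible_and_instances apply IntF.inv | with_reducible_and_instances apply IntF.add | with_reducible_and_instances apply IntF.sub | with_reducible_and_instances apply IntF.neg | with_reducible_and_instances apply IntF.smul | with_reducible apply Int.fin | with_reducible apply IntF.sep | with_reducible apply IntF.lam | with_reducible apply IntF.insert | with_reducible apply IntF.singleton | with_reducible apply IntF.union | with_reducible apply IntF.iimage | with_reducible apply IntF.ite | with_reducible apply IntF.the | with_reducible apply IntF.irec | with_reducible apply IntF.succ | with_reducible apply IntF.val | with_reducible apply IntF.mk | (with_reducible refine Int.comp ?_ ?_; assumption) | (with_reducible refine Int.comp₂ ?_ ?_ ?_; assumption) | (with_reducible refine Int.comp₃ ?_ ?_ ?_ ?_; assumption) | (with_reducible refine Int.comp₄ ?_ ?_ ?_ ?_ ?_; assumption)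 | (with_reducible refine IntF.comp ?_ ?_; assumption) | (with_reducible refine IntF.comp₂ ?_ ?_ ?_; assumption) | (with_reducible refine IntF.comp₃ ?_ ?_ ?_ ?_; assumption) | with_reducible apply IntF.pair)))
  · exact (IntF.comp h' (by (repeat' (first | with_reducible exact IntF.id | with_reducible exact IntF.fst' | with_reducible exact IntF.snd' | with_reducible exact IntF.const _ | with_reducible exact Int.const _ | assumption | with_reducible apply Int.and | with_reducible apply Int.or | with_reducible apply Int.not | with_reducible apply Int.imp | with_reducible apply Int.iff | with_reducible apply Int.ne | with_reducible apply Int.eq | with_reducible apply Int.mem | with_reducible apply Int.subset | with_reducible apply Int.ltN | with_reducible apply Int.leN | with_reducible_and_instances apply Int.le | with_reducible_and_instances apply Int.lt | with_reducible apply Int.all | with_reducible apply Int.ex | with_reducible apply IntF.fst | with_reducible apply IntF.snd | with_reducible apply IntF.app | with_reducible apply IntF.inl | with_reducible apply IntF.inr | with_reducible_and_instances apply IntF.mul | with_reducible_and_instances apply IntF.inv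 | with_reducible_and_instances apply IntF.add | with_reducible_and_instances apply IntF.sub | with_reducible_and_instances apply IntF.neg | with_reducible_and_instances apply IntF.smul | with_reducible apply Int.fin | with_reducible apply IntF.sep | with_reducible apply IntF.lam | with_reducible apply IntF.insert | with_reducible apply IntF.singleton | with_reducible apply IntF.union | with_reducible apply IntF.iimage | with_reducible apply IntF.ite | with_reducible apply IntF.the | with_reducible apply IntF.irec | with_reducible apply IntF.succ | with_reducible apply IntF.val | with_reducible apply IntF.mk | (with_reducible refine Int.comp ?_ ?_; assumption) | (with_reducible refine Int.comp₂ ?_ ?_ ?_; assumption) | (with_reducible refine Int.comp₃ ?_ ?_ ?_ ?_; assumption) | (with_reducible refine Int.comp₄ ?_ ?_ ?_ ?_ ?_; assumption) | (with_reducible refine IntF.comp ?_ ?_; assumption) | (with_reducible refine IntF.comp₂ ?_ ?_ ?_; assumption) | (with_reducible refine IntF.comp₃ ?_ ?_ ?_ ?_; assumption) | with_reducible apply IntF.pair)) : IntF M (fun q : Yt M × INat M => ((k0, k1), q.1.2.1 q.2))) :)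

theorem pf_np (B : Yt M) : Pf (np n₀ z₀ k0 k1 B) := by
  obtain ⟨h1, h2, b, h3⟩ := B.2.2
  by_cases h : alm B.1.1 n₀ z₀
  · refine ⟨fun l => ?_, fun k k' hk => ?_, max b (max k0.succ k1.succ), fun k hk => ?_⟩
    · obtain ⟨k, hk⟩ := h1 (swp k0 k1 l)
      exact ⟨k, by rw [np_pos _ _ _ _ h, hk, swp_swp]⟩
    · rw [np_pos _ _ _ _ h, np_pos _ _ _ _ h] at hk
      have := congrArg (swp k0 k1) hk
      rw [swp_swp, swp_swp] at this
      exact h2 _ _ this
    · rw [np_pos _ _ _ _ h, h3 k ((le_max_left _ _).trans hk)]
      have h4 : k0.succ ≤ k := ((le_max_left _ _).trans (le_max_right _ _)).trans hk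
      have h5 : k1.succ ≤ k := ((le_max_right _ _).trans (le_max_right _ _)).trans hk
      exact swp_of_ne (INat.succ_le_iff.1 h4).ne' (INat.succ_le_iff.1 h5).ne'
  · rw [np_neg _ _ _ _ h]
    exact B.2.2

variable {n₀ z₀ k0 k1}

/-- Finitary changes of label swaps act. -/
theorem exists_lift {h : Dt M → Dt M} (hi : IntF M h) (hh : ∀ a, h (h a) = a)
    (hc : FinP M (fun a => h a ≠ sm n₀ z₀ k0 k1 a)) :
    ∃ g ∈ (ZZ M).H, (∀ a, g.1.1 (Sum.inl a) = Sum.inl (h a)) ∧
      ∀ B : Yt M, ∃ B' : Yt M, g.1.1 (Sum.inr B) = Sum.inr B' ∧
        (∀ a, a ∈ B'.1.1 ↔ h a ∈ B.1.1) ∧ B'.2.1 = np n₀ z₀ k0 k1 B := by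
  have hS : ∀ B : IPow M (Dt M), Int M (fun a : Dt M => h a ∈ B) := fun B => by (repeat' (first | with_reducible exact IntF.id | with_reducible exact IntF.fst' | with_reducible exact IntF.snd' | with_reducible exact IntF.const _ | with_reducible exact Int.const _ | assumption | with_reducible apply Int.and | with_reducible apply Int.or | with_reducible apply Int.not | with_reducible apply Int.imp | with_reducible apply Int.iff | with_reducible apply Int.ne | with_reducible apply Int.eq | with_reducible apply Int.mem | with_reducible apply Int.subset | with_reducible apply Int.ltN | with_reducible apply Int.leN | with_reducible_and_instances apply Int.le | with_reducible_and_instances apply Int.lt | with_reducible apply Int.all | with_reducible apply Int.ex | with_reducible apply IntF.fst | with_reducible apply IntF.snd | with_reducible apply IntF.app | with_reducible apply IntF.inl | with_reducible apply IntF.inr | with_reducible_and_instances apply IntF.mul | with_reducible_and_instances apply IntF.inv | with_reducible_and_instances apply IntF.add | with_reducible_and_instances apply IntF.sub | with_reducible_and_instances apply IntF.neg | with_reducible_and_instances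 apply IntF.smul | with_reducible apply Int.fin | with_reducible apply IntF.sep | with_reducible apply IntF.lam | with_reducible apply IntF.insert | with_reducible apply IntF.singleton | with_reducible apply IntF.union | with_reducible apply IntF.iimage | with_reducible apply IntF.ite | with_reducible apply IntF.the | with_reducible apply IntF.irec | with_reducible apply IntF.succ | with_reducible apply IntF.val | with_reducible apply IntF.mk | (with_reducible refine Int.comp ?_ ?_; assumption) | (with_reducible refine Int.comp₂ ?_ ?_ ?_; assumption) | (with_reducible refine Int.comp₃ ?_ ?_ ?_ ?_; assumption) | (with_reducible refine Int.comp₄ ?_ ?_ ?_ ?_ ?_; assumption) | (with_reducible refine IntF.comp ?_ ?_; assumption) | (with_reducible refine IntF.comp₂ ?_ ?_ ?_; assumption) | (with_reducible refine IntF.comp₃ ?_ ?_ ?_ ?_; assumption) | with_reducible apply IntF.pair))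
  have hpre := fun {B : IPow M (Dt M)} {n : INat M} {z : Dt M} (hB : alm B n z) =>
    alm_pre n₀ z₀ k0 k1 hi hh hc hB
  let k : Xt M → Xt M := fun x => match x with
    | Sum.inl a => Sum.inl (h a)
    | Sum.inr B => Sum.inr (⟨sep M fun a => h a ∈ B.1.1, by
        obtain ⟨n, z, hB⟩ := B.1.2
        exact ⟨n, _, hpre hB⟩⟩, ⟨np n₀ z₀ k0 k1 B, pf_np _ _ _ _ B⟩)
  have hnp := int_np (M := M) n₀ z₀ k0 k1
  have h1 : Int M (fun q : Dt M × IPow M (Dt M) => h q.1 ∈ q.2) :=
    Int.mem (hi.comp IntF.fst') IntF.snd'
  have h2 : Int M (fun q : IPow M (Dt M) × IPow M (Dt M) => ∀ a : Dt M, a ∈ q.1 ↔ h a ∈ q.2) := by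
    refine Int.all (Int.iff ?_ ?_)
    · exact Int.mem IntF.snd' (IntF.fst IntF.fst')
    · exact Int.comp₂ (p := fun (a : Dt M) (B : IPow M (Dt M)) => h a ∈ B) h1 IntF.snd'
        (IntF.snd IntF.fst')
  have hk : IntF M k := by
    refine IntF.of_rel (r := fun x y => (∃ a, x = Sum.inl a ∧ y = Sum.inl (h a)) ∨
      ∃ (B B' : Yt M), x = Sum.inr B ∧ y = Sum.inr B' ∧ (∀ a, a ∈ B'.1.1 ↔ h a ∈ B.1.1) ∧
        B'.2.1 = np n₀ z₀ k0 k1 B) ?_ fun x y => ?_
    · refine Int.or ?_ ?_
      · refine Int.ex (Int.and ?_ ?_)
        · exact Int.eq (IntF.fst IntF.fst') (IntF.inl IntF.snd')
        · exact Int.eq (IntF.snd IntF.fst') (IntF.inl (hi.comp IntF.snd'))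
      · refine Int.ex (Int.ex (Int.and ?_ (Int.and ?_ (Int.and ?_ ?_))))
        · exact Int.eq (IntF.fst (IntF.fst IntF.fst')) (IntF.inr (IntF.snd IntF.fst'))
        · exact Int.eq (IntF.snd (IntF.fst IntF.fst')) (IntF.inr IntF.snd')
        · exact Int.comp₂ (p := fun (B B' : IPow M (Dt M)) => ∀ a : Dt M, a ∈ B ↔ h a ∈ B') h2
            (IntF.val (IntF.fst IntF.snd')) (IntF.val (IntF.fst (IntF.snd IntF.fst')))
        · exact Int.eq (IntF.val (IntF.snd IntF.snd')) (hnp.comp (IntF.snd IntF.fst'))
    · constructor
      · rintro (⟨a, rfl, rfl⟩ | ⟨B, B', rfl, rfl, h3, h4⟩)
        · rfl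
        · refine congrArg Sum.inr (Prod.ext (Subtype.ext (IPow.ext' fun a => ?_))
            (Subtype.ext h4.symm))
          exact (mem_sep (hS B.1.1)).trans (h3 a).symm
      · rintro rfl
        rcases x with a | B
        · exact Or.inl ⟨a, rfl, rfl⟩
        · exact Or.inr ⟨B, _, rfl, rfl, fun a => mem_sep (hS B.1.1), rfl⟩
  have hmem : ∀ (B : IPow M (Dt M)) a, a ∈ (sep M fun a => h a ∈ B) ↔ h a ∈ B := fun B a =>
    mem_sep (hS B)
  have hB0 : ∀ B : IPow M (Dt M), (∃ n z, alm B n z) →
      (alm (sep M fun a => h a ∈ B) n₀ z₀ ↔ alm B n₀ z₀) := by
    have key : ∀ B : IPow M (Dt M), alm B n₀ z₀ → alm (sep M fun a => h a ∈ B) n₀ z₀ :=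
      fun B hB => alm_congr (hpre hB) (eb_sm _ _ _ _ _)
    refine fun B _ => ⟨fun h3 => ?_, key B⟩
    have h4 := key _ h3
    have h5 : (sep M fun a => h a ∈ sep M fun a => h a ∈ B) = B := IPow.ext' fun a => by
      rw [hmem, hmem, hh]
    rwa [h5] at h4
  have hkk : ∀ x, k (k x) = x := by
    rintro (a | B)
    · exact congrArg Sum.inl (hh a)
    · refine congrArg Sum.inr (Prod.ext (Subtype.ext (IPow.ext' fun a => ?_))
        (Subtype.ext (IFun.ext' fun l => ?_)))
      · change a ∈ sep M (fun a => h a ∈ sep M (fun a => h a ∈ B.1.1)) ↔ _
        rw [hmem, hmem, hh]
      · by_cases h3 : alm B.1.1 n₀ z₀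
        · refine (np_pos _ _ _ _ ?_ l).trans ?_
          · exact (hB0 _ B.1.2).2 h3
          · change swp k0 k1 (np n₀ z₀ k0 k1 B l) = _
            rw [np_pos _ _ _ _ h3, swp_swp]
        · change (np n₀ z₀ k0 k1 (_, _) : Dt M) l = _
          rw [np_neg]
          · change (np n₀ z₀ k0 k1 B : Dt M) l = _
            rw [np_neg _ _ _ _ h3]
          · exact fun h4 => h3 ((hB0 _ B.1.2).1 h4)
  have himp : (∀ x, dm x → dm (k x)) ∧ (∀ x y, mm x y → mm (k x) (k y)) ∧
      (∀ x y, nd x y → nd (k x) (k y)) ∧ (∀ y i, lev y i → lev (k y) i) ∧
      ∀ x l y, ch x l y → ch (k x) l (k y) := by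
    refine ⟨?_, ?_, ?_, ?_, ?_⟩
    · rintro _ ⟨a, rfl⟩
      exact ⟨h a, rfl⟩
    · rintro _ _ ⟨a, B, rfl, rfl, h1⟩
      refine ⟨h a, _, rfl, rfl, (mem_sep (hS B.1.1)).2 ?_⟩
      rw [hh]
      exact h1
    · rintro _ _ ⟨B, B', rfl, rfl, n, z, h3, h4⟩
      exact ⟨_, _, rfl, rfl, n, _, hpre h3, hpre h4⟩
    · rintro _ i ⟨B, rfl, z, h1⟩
      exact ⟨_, rfl, _, hpre h1⟩
    · rintro _ l _ ⟨B, B', rfl, rfl, n, z, h3, h4, h5⟩
      refine ⟨_, _, rfl, rfl, n, _, hpre h3, hpre h4, ?_⟩
      change sm n₀ z₀ k0 k1 z n = np n₀ z₀ k0 k1 B l
      rw [sm_apply]
      by_cases h6 : n = n₀ ∧ Eb n₀ z z₀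
      · obtain ⟨rfl, h7⟩ := h6
        rw [if_pos ⟨rfl, h7⟩, np_pos _ _ _ _ (alm_congr h3 h7), h5]
      · rw [if_neg h6, np_neg, h5]
        intro h7
        obtain ⟨e1, e2⟩ := alm_unique h3 h7
        subst e1
        exact h6 ⟨rfl, e2⟩
  refine ⟨⟨(⟨k, hk⟩, ⟨k, hk⟩), hkk, hkk⟩, ⟨fun x => ⟨himp.1 x, fun h1 => ?_⟩,
    fun x y => ⟨himp.2.1 x y, fun h1 => ?_⟩, fun x y => ⟨himp.2.2.1 x y, fun h1 => ?_⟩,
    fun y i => ⟨himp.2.2.2.1 y i, fun h1 => ?_⟩, fun x l y => ⟨himp.2.2.2.2 x l y, fun h1 => ?_⟩⟩,
    fun a => rfl, fun B => ⟨_, rfl, fun a => mem_sep (hS B.1.1), rfl⟩⟩
  · have h2 := himp.1 _ h1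
    change dm (k (k x)) at h2
    rwa [hkk] at h2
  · have h2 := himp.2.1 _ _ h1
    change mm (k (k x)) (k (k y)) at h2
    rwa [hkk, hkk] at h2
  · have h2 := himp.2.2.1 _ _ h1
    change nd (k (k x)) (k (k y)) at h2
    rwa [hkk, hkk] at h2
  · have h2 := himp.2.2.2.1 _ _ h1
    change lev (k (k y)) i at h2
    rwa [hkk] at h2
  · have h2 := himp.2.2.2.2 _ _ _ h1
    change ch (k (k x)) l (k (k y)) at h2
    rwa [hkk, hkk] at h2

end lift

/-- The equivalence relation of a finite set of indices. -/
def rE (E : FS M (Xt M)) (a b : Dt M) : Prop :=
  a = b ∨ (¬ Sum.inl a ∈ E.1 ∧ ¬ Sum.inl b ∈ E.1 ∧ ∀ B : Yt M, Sum.inr B ∈ E.1 →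
    (a ∈ B.1.1 ↔ b ∈ B.1.1))

theorem int_rE : Int M (fun q : (FS M (Xt M) × Dt M) × Dt M => rE q.1.1 q.1.2 q.2) := by
  unfold rE
  (repeat' (first | with_reducible exact IntF.id | with_reducible exact IntF.fst' | with_reducible exact IntF.snd' | with_reducible exact IntF.const _ | with_reducible exact Int.const _ | assumption | with_reducible apply Int.and | with_reducible apply Int.or | with_reducible apply Int.not | with_reducible apply Int.imp | with_reducible apply Int.iff | with_reducible apply Int.ne | with_reducible apply Int.eq | with_reducible apply Int.mem | with_reducible apply Int.subset | with_reducible apply Int.ltN | with_reducible apply Int.leN | with_reducible_and_instances apply Int.le | with_reducible_and_instances apply Int.lt | with_reducible apply Int.all | with_reducible apply Int.ex | with_reducible apply IntF.fst | with_reducible apply IntF.snd | with_reducible apply IntF.app | with_reducible apply IntF.inl | with_reducible apply IntF.inr | with_reducible_and_instances apply IntF.mul | with_reducible_and_instances apply IntF.inv | with_reducible_and_instances apply IntF.add | with_reducible_and_instances apply IntF.sub | with_reducible_and_instances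 apply IntF.neg | with_reducible_and_instances apply IntF.smul | with_reducible apply Int.fin | with_reducible apply IntF.sep | with_reducible apply IntF.lam | with_reducible apply IntF.insert | with_reducible apply IntF.singleton | with_reducible apply IntF.union | with_reducible apply IntF.iimage | with_reducible apply IntF.ite | with_reducible apply IntF.the | with_reducible apply IntF.irec | with_reducible apply IntF.succ | with_reducible apply IntF.val | with_reducible apply IntF.mk | (with_reducible refine Int.comp ?_ ?_; assumption) | (with_reducible refine Int.comp₂ ?_ ?_ ?_; assumption) | (with_reducible refine Int.comp₃ ?_ ?_ ?_ ?_; assumption) | (with_reducible refine Int.comp₄ ?_ ?_ ?_ ?_ ?_; assumption) | (with_reducible refine IntF.comp ?_ ?_; assumption) | (with_reducible refine IntF.comp₂ ?_ ?_ ?_; assumption) | (with_reducible refine IntF.comp₃ ?_ ?_ ?_ ?_; assumption) | with_reducible apply IntF.pair))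

theorem rE_refl (E : FS M (Xt M)) (a : Dt M) : rE E a a := Or.inl rfl

theorem rE_symm {E : FS M (Xt M)} {a b : Dt M} (h : rE E a b) : rE E b a := by
  rcases h with h | ⟨h1, h2, h3⟩
  · exact Or.inl h.symm
  · exact Or.inr ⟨h2, h1, fun B hB => (h3 B hB).symm⟩

theorem rE_trans {E : FS M (Xt M)} {a b c : Dt M} (h : rE E a b) (h' : rE E b c) : rE E a c := by
  rcases h with rfl | ⟨h1, h2, h3⟩
  · exact h'
  rcases h' with rfl | ⟨h1', h2', h3'⟩
  · exact Or.inr ⟨h1, h2, h3⟩
  · exact Or.inr ⟨h1, h2', fun B hB => (h3 B hB).trans (h3' B hB)⟩

theorem rE_part {E : FS M (Xt M)} {a b : Dt M} (hr : rE E a b) {B : Yt M}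
    (hB : Sum.inr B ∈ E.1) : a ∈ B.1.1 ↔ b ∈ B.1.1 := by
  rcases hr with rfl | ⟨h1, h2, h3⟩
  · rfl
  · exact h3 B hB

/-- An involution that preserves the classes fixes the support. -/
theorem fix_of_lift {n₀ : INat M} {z₀ : Dt M} {k0 k1 : INat M} {E : FS M (Xt M)}
    {h : Dt M → Dt M} (hE : ∀ a, rE E a (h a))
    (hn : ∀ B : Yt M, Sum.inr B ∈ E.1 → np n₀ z₀ k0 k1 B = B.2.1)
    {g : IPerm M (Xt M)} (h1 : ∀ a, g.1.1 (Sum.inl a) = Sum.inl (h a))
    (h2 : ∀ B : Yt M, ∃ B' : Yt M, g.1.1 (Sum.inr B) = Sum.inr B' ∧
      (∀ a, a ∈ B'.1.1 ↔ h a ∈ B.1.1) ∧ B'.2.1 = np n₀ z₀ k0 k1 B) :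
    ∀ x, x ∈ E.1 → g.1.1 x = x := by
  rintro (a | B) hx
  · rw [h1]
    rcases hE a with h3 | h3
    · rw [← h3]
    · exact absurd hx h3.1
  · obtain ⟨B', h3, h4, h5⟩ := h2 B
    rw [h3]
    refine congrArg Sum.inr (Prod.ext (Subtype.ext (IPow.ext' fun a => ?_)) (Subtype.ext ?_))
    · rw [h4]
      exact (rE_part (hE a) hx).symm
    · rw [h5]
      exact hn B hx

theorem sm_id (n₀ : INat M) (z₀ : Dt M) (k : INat M) (a : Dt M) : sm n₀ z₀ k k a = a := by
  refine IFun.ext' fun j => ?_
  rw [sm_apply, swp_self]
  simp

theorem np_id (n₀ : INat M) (z₀ : Dt M) (k : INat M) (B : Yt M) : np n₀ z₀ k k B = B.2.1 := by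
  by_cases h : alm B.1.1 n₀ z₀
  · refine IFun.ext' fun j => ?_
    rw [np_pos _ _ _ _ h, swp_self]
  · exact np_neg _ _ _ _ h

/-- Transpositions. -/
theorem exists_tr {E : FS M (Xt M)} {y y' : Dt M} (hr : rE E y y') : ∃ g ∈ (ZZ M).H,
    (∀ x, x ∈ E.1 → g.1.1 x = x) ∧ g.1.1 (Sum.inl y) = Sum.inl y' ∧
      ∀ a, a ≠ y → a ≠ y' → g.1.1 (Sum.inl a) = Sum.inl a := by
  classical
  have hi : IntF M (fun a : Dt M => if a = y then y' else if a = y' then y else a) := by (repeat' (first | with_reducible exact IntF.id | with_reducible exact IntF.fst' | with_reducible exact IntF.snd' | with_reducible exact IntF.const _ | with_reducible exact Int.const _ | assumption | with_reducible apply Int.and | with_reducible apply Int.or | with_reducible apply Int.not | with_reducible apply Int.imp | with_reducible apply Int.iff | with_reducible apply Int.ne | with_reducible apply Int.eq | with_reducible apply Int.mem | with_reducible apply Int.subset | with_reducible apply Int.ltN | with_reducible apply Int.leN | with_reducible_and_instances apply Int.le | with_reducible_and_instances apply Int.lt | with_reducible apply Int.all | with_reducible apply Int.ex | with_reducible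 apply IntF.fst | with_reducible apply IntF.snd | with_reducible apply IntF.app | with_reducible apply IntF.inl | with_reducible apply IntF.inr | with_reducible_and_instances apply IntF.mul | with_reducible_and_instances apply IntF.inv | with_reducible_and_instances apply IntF.add | with_reducible_and_instances apply IntF.sub | with_reducible_and_instances apply IntF.neg | with_reducible_and_instances apply IntF.smul | with_reducible apply Int.fin | with_reducible apply IntF.sep | with_reducible apply IntF.lam | with_reducible apply IntF.insert | with_reducible apply IntF.singleton | with_reducible apply IntF.union | with_reducible apply IntF.iimage | with_reducible apply IntF.ite | with_reducible apply IntF.the | with_reducible apply IntF.irec | with_reducible apply IntF.succ | with_reducible apply IntF.val | with_reducible apply IntF.mk | (with_reducible refine Int.comp ?_ ?_; assumption) | (with_reducible refine Int.comp₂ ?_ ?_ ?_; assumption) | (with_reducible refine Int.comp₃ ?_ ?_ ?_ ?_; assumption) | (with_reducible refine Int.comp₄ ?_ ?_ ?_ ?_ ?_; assumption) | (with_reducible refine IntF.comp ?_ ?_; assumption) | (with_reducible refine IntF.comp₂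 ?_ ?_ ?_; assumption) | (with_reducible refine IntF.comp₃ ?_ ?_ ?_ ?_; assumption) | with_reducible apply IntF.pair))
  have hh : ∀ a : Dt M, (if (if a = y then y' else if a = y' then y else a) = y then y' else
      if (if a = y then y' else if a = y' then y else a) = y' then y else
        (if a = y then y' else if a = y' then y else a)) = a := by
    intro a
    by_cases h1 : a = y
    · subst h1
      by_cases h2 : y' = a
      · simp [h2]
      · simp [h2]
    · by_cases h2 : a = y'
      · subst h2
        simp [h1]
      · simp [h1, h2]
  obtain ⟨g, hg, h1, h2⟩ := exists_lift (n₀ := 0) (z₀ := y) (k0 := 0) (k1 := 0) hi hh (by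
    refine ((FinP.eq y).or (FinP.eq y')).mono fun a ha => ?_
    rw [sm_id] at ha
    by_contra hc
    push Not at hc
    exact ha (by rw [if_neg hc.1, if_neg hc.2]))
  refine ⟨g, hg, fix_of_lift (fun a => ?_) (fun B _ => np_id _ _ _ B) h1 h2, ?_,
    fun a ha ha' => ?_⟩
  · by_cases h3 : a = y
    · subst h3
      simp only [if_true]
      exact hr
    · by_cases h4 : a = y'
      · subst h4
        simp only [if_neg h3, if_true]
        exact rE_symm hr
      · simp only [if_neg h3, if_neg h4]
        exact rE_refl _ _
  · rw [h1, if_pos rfl]
  · rw [h1, if_neg ha, if_neg ha']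

end Pool.Agent.V11257T
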