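import Pool.Agent.V11257.Tr2

/-!
# The tree of finite sequences: finite determination and swaps
-/

set_option maxHeartbeats 1000000
set_option linter.all false
set_option synthInstance.maxSize 2000

namespace Pool.Agent.V11257T

open FirstOrder FirstOrder.Language
open Pool.Agent.Helper672.ZFA
open Pool.Agent.Helper672.ZFA.H635 (IPerm)
open Pool.Agent.Helper672.ZFA.H310M (FS PGr fsu)
open Pool.Agent.H310

universe u

variable {M : Type u} [L.Structure M] [hM : IsModel M]

/-- The finite sets of indices with an upper bound for the levels. -/
def Bd (E : FS M (Xt M)) (N : INat M) : Prop :=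
  ∀ B : Yt M, Sum.inr B ∈ E.1 → ∃ n z, n ≤ N ∧ alm B.1.1 n z

theorem exists_Bd (E : FS M (Xt M)) (N : INat M) : ∃ N', N ≤ N' ∧ Bd E N' := by
  have hI := int_alm (M := M)
  obtain ⟨N', hN'⟩ := IFin.exists_bound (r := fun (x : Xt M) (N : INat M) => ∀ B : Yt M,
    x = Sum.inr B → ∃ n z, n ≤ N ∧ alm B.1.1 n z) (by (repeat' (first | with_reducible exact IntF.id | with_reducible exact IntF.fst' | with_reducible exact IntF.snd' | with_reducible exact IntF.const _ | with_reducible exact Int.const _ | assumption | with_reducible apply Int.and | with_reducible apply Int.or | with_reducible apply Int.not | with_reducible apply Int.imp | with_reducible apply Int.iff | with_reducible apply Int.ne | with_reducible apply Int.eq | with_reducible apply Int.mem | with_reducible apply Int.subset | with_reducible apply Int.ltN | with_reducible apply Int.leN | with_reducible_and_instances apply Int.le | with_reducible_and_instances apply Int.lt | with_reducible apply Int.all | with_reducible apply Int.ex | with_reducible apply IntF.fst | with_reducible apply IntF.snd | with_reducible apply IntF.app | with_reducible apply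 IntF.inl | with_reducible apply IntF.inr | with_reducible_and_instances apply IntF.mul | with_reducible_and_instances apply IntF.inv | with_reducible_and_instances apply IntF.add | with_reducible_and_instances apply IntF.sub | with_reducible_and_instances apply IntF.neg | with_reducible_and_instances apply IntF.smul | with_reducible apply Int.fin | with_reducible apply IntF.sep | with_reducible apply IntF.lam | with_reducible apply IntF.insert | with_reducible apply IntF.singleton | with_reducible apply IntF.union | with_reducible apply IntF.iimage | with_reducible apply IntF.ite | with_reducible apply IntF.the | with_reducible apply IntF.irec | with_reducible apply IntF.succ | with_reducible apply IntF.val | with_reducible apply IntF.mk | (with_reducible refine Int.comp ?_ ?_; assumption) | (with_reducible refine Int.comp₂ ?_ ?_ ?_; assumption) | (with_reducible refine Int.comp₃ ?_ ?_ ?_ ?_; assumption) | (with_reducible refine Int.comp₄ ?_ ?_ ?_ ?_ ?_; assumption) | (with_reducible refine IntF.comp ?_ ?_; assumption) | (with_reducible refine IntF.comp₂ ?_ ?_ ?_; assumption) | (with_reducible refine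 IntF.comp₃ ?_ ?_ ?_ ?_; assumption) | with_reducible apply IntF.pair)))
    (fun b c => ⟨max b c, fun a h B hB => by
      rcases h with h | h
      · obtain ⟨i, z, h1, h2⟩ := h B hB
        exact ⟨i, z, h1.trans (le_max_left _ _), h2⟩
      · obtain ⟨i, z, h1, h2⟩ := h B hB
        exact ⟨i, z, h1.trans (le_max_right _ _), h2⟩⟩) ⟨0⟩ E.2 fun x _ => by
      rcases x with a | B
      · exact ⟨0, fun B hB => by cases hB⟩
      · obtain ⟨i, z, hi⟩ := B.1.2
        exact ⟨i, fun B' hB' => by cases hB'; exact ⟨i, z, le_rfl, hi⟩⟩
  refine ⟨max N N', le_max_left _ _, fun B hB => ?_⟩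
  obtain ⟨i, z, h1, h2⟩ := hN' _ hB B rfl
  exact ⟨i, z, h1.trans (le_max_right _ _), h2⟩

theorem finP_inl (E : FS M (Xt M)) : FinP M (fun a : Dt M => (Sum.inl a : Xt M) ∈ E.1) :=
  FinP.of_inj (p := fun a : Dt M => (Sum.inl a : Xt M) ∈ E.1) (by (repeat' (first | with_reducible exact IntF.id | with_reducible exact IntF.fst' | with_reducible exact IntF.snd' | with_reducible exact IntF.const _ | with_reducible exact Int.const _ | assumption | with_reducible apply Int.and | with_reducible apply Int.or | with_reducible apply Int.not | with_reducible apply Int.imp | with_reducible apply Int.iff | with_reducible apply Int.ne | with_reducible apply Int.eq | with_reducible apply Int.mem | with_reducible apply Int.subset | with_reducible apply Int.ltN | with_reducible apply Int.leN | with_reducible_and_instances apply Int.le | with_reducible_and_instances apply Int.lt | with_reducible apply Int.all | with_reducible apply Int.ex | with_reducible apply IntF.fst | with_reducible apply IntF.snd | with_reducible apply IntF.app | with_reducible apply IntF.inl | with_reducible apply IntF.inr | with_reducible_and_instances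 apply IntF.mul | with_reducible_and_instances apply IntF.inv | with_reducible_and_instances apply IntF.add | with_reducible_and_instances apply IntF.sub | with_reducible_and_instances apply IntF.neg | with_reducible_and_instances apply IntF.smul | with_reducible apply Int.fin | with_reducible apply IntF.sep | with_reducible apply IntF.lam | with_reducible apply IntF.insert | with_reducible apply IntF.singleton | with_reducible apply IntF.union | with_reducible apply IntF.iimage | with_reducible apply IntF.ite | with_reducible apply IntF.the | with_reducible apply IntF.irec | with_reducible apply IntF.succ | with_reducible apply IntF.val | with_reducible apply IntF.mk | (with_reducible refine Int.comp ?_ ?_; assumption) | (with_reducible refine Int.comp₂ ?_ ?_ ?_; assumption) | (with_reducible refine Int.comp₃ ?_ ?_ ?_ ?_; assumption) | (with_reducible refine Int.comp₄ ?_ ?_ ?_ ?_ ?_; assumption) | (with_reducible refine IntF.comp ?_ ?_; assumption) | (with_reducible refine IntF.comp₂ ?_ ?_ ?_; assumption) | (with_reducible refine IntF.comp₃ ?_ ?_ ?_ ?_; assumption) | with_reducible apply IntF.pair)))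
    (f := fun a : Dt M => (Sum.inl a : Xt M)) IntF.inl' (fun _ _ _ _ h => Sum.inl.inj h)
    (q := fun x => x ∈ E.1) ⟨E.1, E.2, fun _ h => h⟩ fun _ h => h


/-- The classes are determined by the values below a bound, up to finitely many points. -/
theorem Bd.det {E : FS M (Xt M)} {N : INat M} (hE : Bd E N) : ∃ Ex : Dt M → Prop, Int M Ex ∧
    FinP M Ex ∧ ∀ a b, ¬ Ex a → ¬ Ex b → Eb N a b → rE E a b := by
  have hEb := int_Eb (M := M)
  have hR : Int M (fun q : Xt M × FS M (Dt M) => ∀ B : Yt M, q.1 = Sum.inr B → ∀ a b : Dt M,
      ¬ a ∈ q.2.1 → ¬ b ∈ q.2.1 → Eb N a b → (a ∈ B.1.1 ↔ b ∈ B.1.1)) := by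
    (repeat' (first | with_reducible exact IntF.id | with_reducible exact IntF.fst' | with_reducible exact IntF.snd' | with_reducible exact IntF.const _ | with_reducible exact Int.const _ | assumption | with_reducible apply Int.and | with_reducible apply Int.or | with_reducible apply Int.not | with_reducible apply Int.imp | with_reducible apply Int.iff | with_reducible apply Int.ne | with_reducible apply Int.eq | with_reducible apply Int.mem | with_reducible apply Int.subset | with_reducible apply Int.ltN | with_reducible apply Int.leN | with_reducible_and_instances apply Int.le | with_reducible_and_instances apply Int.lt | with_reducible apply Int.all | with_reducible apply Int.ex | with_reducible apply IntF.fst | with_reducible apply IntF.snd | with_reducible apply IntF.app | with_reducible apply IntF.inl | with_reducible apply IntF.inr | with_reducible_and_instances apply IntF.mul | with_reducible_and_instances apply IntF.inv | with_reducible_and_instances apply IntF.add | with_reducible_and_instances apply IntF.sub | with_reducible_and_instances apply IntF.neg | with_reducible_and_instances apply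 IntF.smul | with_reducible apply Int.fin | with_reducible apply IntF.sep | with_reducible apply IntF.lam | with_reducible apply IntF.insert | with_reducible apply IntF.singleton | with_reducible apply IntF.union | with_reducible apply IntF.iimage | with_reducible apply IntF.ite | with_reducible apply IntF.the | with_reducible apply IntF.irec | with_reducible apply IntF.succ | with_reducible apply IntF.val | with_reducible apply IntF.mk | (with_reducible refine Int.comp ?_ ?_; assumption) | (with_reducible refine Int.comp₂ ?_ ?_ ?_; assumption) | (with_reducible refine Int.comp₃ ?_ ?_ ?_ ?_; assumption) | (with_reducible refine Int.comp₄ ?_ ?_ ?_ ?_ ?_; assumption) | (with_reducible refine IntF.comp ?_ ?_; assumption) | (with_reducible refine IntF.comp₂ ?_ ?_ ?_; assumption) | (with_reducible refine IntF.comp₃ ?_ ?_ ?_ ?_; assumption) | with_reducible apply IntF.pair))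
  obtain ⟨t, ht⟩ := IFin.exists_bound (r := fun (x : Xt M) (t : FS M (Dt M)) => ∀ B : Yt M,
    x = Sum.inr B → ∀ a b : Dt M, ¬ a ∈ t.1 → ¬ b ∈ t.1 → Eb N a b →
      (a ∈ B.1.1 ↔ b ∈ B.1.1)) hR (fun t t' => ⟨fsu t t', fun x h B hB a b ha hb hab => by
      rcases h with h | h
      · exact h B hB a b (fun h' => ha (mem_union.2 (Or.inl h')))
          (fun h' => hb (mem_union.2 (Or.inl h'))) hab
      · exact h B hB a b (fun h' => ha (mem_union.2 (Or.inr h')))
          (fun h' => hb (mem_union.2 (Or.inr h'))) hab⟩) ⟨⟨∅, IFin.empty⟩⟩ E.2 fun x hx => by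
    rcases x with a | B
    · exact ⟨⟨∅, IFin.empty⟩, fun B hB => by cases hB⟩
    · obtain ⟨i, z, hi, hB⟩ := hE B hx
      obtain ⟨Z, hZ, hZ'⟩ := alm_iff.1 hB
      refine ⟨⟨Z, hZ⟩, fun B' hB' a b ha hb hab => ?_⟩
      cases hB'
      have e1 : (a ∈ B.1.1 ↔ Eb i a z) := by
        by_contra hc
        exact ha (hZ' a hc)
      have e2 : (b ∈ B.1.1 ↔ Eb i b z) := by
        by_contra hc
        exact hb (hZ' b hc)
      have e3 : Eb i a z ↔ Eb i b z :=
        ⟨fun h => (hab.mono hi).symm.trans h, fun h => (hab.mono hi).trans h⟩
      rw [e1, e2, e3]
  have ht1 : Int M (fun a : Dt M => a ∈ t.1 ∨ (Sum.inl a : Xt M) ∈ E.1) :=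
    Int.or (Int.mem IntF.id (IntF.const _)) (Int.mem (IntF.inl IntF.id) (IntF.const _))
  refine ⟨_, ht1, FinP.or ⟨t.1, t.2, fun _ h => h⟩ (finP_inl E), fun a b ha hb hab => ?_⟩
  push Not at ha hb
  exact Or.inr ⟨ha.2, hb.2, fun B hB => ht _ hB B rfl a b ha.1 hb.1 hab⟩

/-- No node of `E` is above `(m, c)`. -/
def NoExt (E : FS M (Xt M)) (m : INat M) (c : Dt M) : Prop :=
  ∀ B : Yt M, Sum.inr B ∈ E.1 → ∀ n z, alm B.1.1 n z → ¬ (m ≤ n ∧ Eb m z c)

theorem int_NoExt : Int M (fun q : (FS M (Xt M) × INat M) × Dt M => NoExt q.1.1 q.1.2 q.2) := by
  have h := int_alm (M := M)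
  have h' := int_Eb (M := M)
  unfold NoExt
  (repeat' (first | with_reducible exact IntF.id | with_reducible exact IntF.fst' | with_reducible exact IntF.snd' | with_reducible exact IntF.const _ | with_reducible exact Int.const _ | assumption | with_reducible apply Int.and | with_reducible apply Int.or | with_reducible apply Int.not | with_reducible apply Int.imp | with_reducible apply Int.iff | with_reducible apply Int.ne | with_reducible apply Int.eq | with_reducible apply Int.mem | with_reducible apply Int.subset | with_reducible apply Int.ltN | with_reducible apply Int.leN | with_reducible_and_instances apply Int.le | with_reducible_and_instances apply Int.lt | with_reducible apply Int.all | with_reducible apply Int.ex | with_reducible apply IntF.fst | with_reducible apply IntF.snd | with_reducible apply IntF.app | with_reducible apply IntF.inl | with_reducible apply IntF.inr | with_reducible_and_instances apply IntF.mul | with_reducible_and_instances apply IntF.inv | with_reducible_and_instances apply IntF.add | with_reducible_and_instances apply IntF.sub | with_reducible_and_instances apply IntF.neg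 | with_reducible_and_instances apply IntF.smul | with_reducible apply Int.fin | with_reducible apply IntF.sep | with_reducible apply IntF.lam | with_reducible apply IntF.insert | with_reducible apply IntF.singleton | with_reducible apply IntF.union | with_reducible apply IntF.iimage | with_reducible apply IntF.ite | with_reducible apply IntF.the | with_reducible apply IntF.irec | with_reducible apply IntF.succ | with_reducible apply IntF.val | with_reducible apply IntF.mk | (with_reducible refine Int.comp ?_ ?_; assumption) | (with_reducible refine Int.comp₂ ?_ ?_ ?_; assumption) | (with_reducible refine Int.comp₃ ?_ ?_ ?_ ?_; assumption) | (with_reducible refine Int.comp₄ ?_ ?_ ?_ ?_ ?_; assumption) | (with_reducible refine IntF.comp ?_ ?_; assumption) | (with_reducible refine IntF.comp₂ ?_ ?_ ?_; assumption) | (with_reducible refine IntF.comp₃ ?_ ?_ ?_ ?_; assumption) | with_reducible apply IntF.pair))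

theorem sm_of_not {n₀ : INat M} {z₀ : Dt M} {k0 k1 : INat M} {a : Dt M} (h : ¬ Eb n₀ a z₀) :
    sm n₀ z₀ k0 k1 a = a := by
  refine IFun.ext' fun j => ?_
  rw [sm_apply, if_neg fun h' => h h'.2]

/-- Label swaps that fix a finite set. -/
theorem exists_sw {E : FS M (Xt M)} {m : INat M} {c : Dt M} (hE : NoExt E m c) {n₀ : INat M}
    {z₀ : Dt M} (hm : m ≤ n₀) (hz : Eb m z₀ c) (k0 k1 : INat M) : ∃ g ∈ (ZZ M).H,
      (∀ x, x ∈ E.1 → g.1.1 x = x) ∧
        FinP M (fun a : Dt M => g.1.1 (Sum.inl a) ≠ Sum.inl (sm n₀ z₀ k0 k1 a)) := by
  classical
  have hs := int_sm n₀ z₀ k0 k1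
  have hrc : Int M (fun a : Dt M => rE E a (sm n₀ z₀ k0 k1 a)) :=
    Int.comp₃ (p := fun (E : FS M (Xt M)) (a b : Dt M) => rE E a b) int_rE (IntF.const E)
      IntF.id hs
  have hi : IntF M (fun a : Dt M => if rE E a (sm n₀ z₀ k0 k1 a) then sm n₀ z₀ k0 k1 a else a) :=
    IntF.ite hrc hs IntF.id
  have hh : ∀ a : Dt M, (if rE E (if rE E a (sm n₀ z₀ k0 k1 a) then sm n₀ z₀ k0 k1 a else a)
      (sm n₀ z₀ k0 k1 (if rE E a (sm n₀ z₀ k0 k1 a) then sm n₀ z₀ k0 k1 a else a)) then
        sm n₀ z₀ k0 k1 (if rE E a (sm n₀ z₀ k0 k1 a) then sm n₀ z₀ k0 k1 a else a) else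
        (if rE E a (sm n₀ z₀ k0 k1 a) then sm n₀ z₀ k0 k1 a else a)) = a := by
    intro a
    by_cases h1 : rE E a (sm n₀ z₀ k0 k1 a)
    · rw [if_pos h1, sm_sm, if_pos (rE_symm h1)]
    · rw [if_neg h1, if_neg h1]
  have hfix : ∀ (n : INat M) (z a : Dt M), ¬ (m ≤ n ∧ Eb m z c) →
      (Eb n (sm n₀ z₀ k0 k1 a) z ↔ Eb n a z) := by
    intro n z a h1
    rcases le_or_gt n n₀ with h2 | h2
    · exact ⟨fun h3 => ((eb_sm _ _ _ _ a).mono h2).symm.trans h3,
        fun h3 => ((eb_sm _ _ _ _ a).mono h2).trans h3⟩
    · have h3 : ¬ Eb m z c := fun h3 => h1 ⟨hm.trans h2.le, h3⟩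
      have key : ∀ b, Eb n b z → sm n₀ z₀ k0 k1 b = b := fun b hb =>
        sm_of_not fun h4 => h3 (((hb.mono (hm.trans h2.le)).symm.trans (h4.mono hm)).trans hz)
      constructor
      · intro h4
        have h5 := key _ h4
        rw [sm_sm] at h5
        rwa [← h5] at h4
      · intro h4
        rw [key a h4]
        exact h4
  have hsi : ∀ p : Dt M → Prop, FinP M p → FinP M (fun a => p (sm n₀ z₀ k0 k1 a)) := fun p hp =>
    (hp.image hs).mono fun a ha => ⟨_, ha, sm_sm _ _ _ _ a⟩
  have h1 := finP_inl E
  have h2 := hsi _ h1
  have hRi : Int M (fun q : Xt M × Dt M => ∃ B : Yt M,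
      q.1 = Sum.inr B ∧ ¬ (q.2 ∈ B.1.1 ↔ sm n₀ z₀ k0 k1 q.2 ∈ B.1.1)) := by
    refine Int.ex (Int.and ?_ (Helper672.ZFA.Int.not (Int.iff ?_ ?_)))
    · exact Int.eq (IntF.fst IntF.fst') (IntF.inr IntF.snd')
    · exact Int.mem (IntF.snd IntF.fst') (IntF.val (IntF.fst IntF.snd'))
    · exact Int.mem (hs.comp (IntF.snd IntF.fst')) (IntF.val (IntF.fst IntF.snd'))
  have h3 : FinP M (fun a : Dt M => ∃ x : Xt M, x ∈ E.1 ∧ ∃ B : Yt M, x = Sum.inr B ∧
      ¬ (a ∈ B.1.1 ↔ sm n₀ z₀ k0 k1 a ∈ B.1.1)) := by
    refine FinP.bUnion (P := fun x : Xt M => x ∈ E.1) (R := fun q : Xt M × Dt M => ∃ B : Yt M,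
      q.1 = Sum.inr B ∧ ¬ (q.2 ∈ B.1.1 ↔ sm n₀ z₀ k0 k1 q.2 ∈ B.1.1)) ⟨E.1, E.2, fun _ h => h⟩
      (Int.mem IntF.id (IntF.const _)) hRi fun x hxE => ?_
    rcases x with a | B
    · exact ⟨∅, IFin.empty, fun b ⟨B, hB, _⟩ => by cases hB⟩
    · obtain ⟨n, z, hB⟩ := B.1.2
      have h5 := alm_iff.1 hB
      refine (h5.or (hsi _ h5)).mono ?_
      rintro b ⟨B', hB', h7⟩
      cases hB'
      have h8 := hfix n z b (hE B hxE n z hB)
      rw [h8]
      tauto
  have h4 : FinP M (fun a : Dt M => ¬ rE E a (sm n₀ z₀ k0 k1 a)) := by
    refine ((h1.or h2).or h3).mono fun a ha => ?_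
    by_contra hc'
    push Not at hc'
    obtain ⟨⟨h4, h5⟩, h6⟩ := hc'
    refine ha (Or.inr ⟨h4, h5, fun B hB => ?_⟩)
    exact h6 _ hB B rfl
  obtain ⟨g, hg, h5, h6⟩ := exists_lift (n₀ := n₀) (z₀ := z₀) (k0 := k0) (k1 := k1) hi hh
    (h4.mono fun a ha h7 => ha (if_pos h7))
  refine ⟨g, hg, fix_of_lift (fun a => ?_) (fun B hB => np_neg _ _ _ _ fun h7 =>
    hE B hB n₀ z₀ h7 ⟨hm, hz⟩) h5 h6, h4.mono fun a ha h7 => ha ?_⟩
  · by_cases h3 : rE E a (sm n₀ z₀ k0 k1 a)
    · simp only [if_pos h3]
      exact h3
    · simp only [if_neg h3]
      exact rE_refl _ _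
  · rw [h5, if_pos h7]

/-- Transversals. -/
theorem exists_T (E : FS M (Xt M)) : ∃ T : Dt M → Prop, Int M T ∧ FinP M T ∧
    ∀ a, ∃ b, T b ∧ rE E a b := by
  have hr := int_rE (M := M)
  have hτ : IntF M (fun a : Dt M => sep M fun x : Xt M => x ∈ E.1 ∧ mm (Sum.inl a) x) := by
    have h := int_mm (M := M)
    refine IntF.sep ?_
    (repeat' (first | with_reducible exact IntF.id | with_reducible exact IntF.fst' | with_reducible exact IntF.snd' | with_reducible exact IntF.const _ | with_reducible exact Int.const _ | assumption | with_reducible apply Int.and | with_reducible apply Int.or | with_reducible apply Int.not | with_reducible apply Int.imp | with_reducible apply Int.iff | with_reducible apply Int.ne | with_reducible apply Int.eq | with_reducible apply Int.mem | with_reducible apply Int.subset | with_reducible apply Int.ltN | with_reducible apply Int.leN | with_reducible_and_instances apply Int.le | with_reducible_and_instances apply Int.lt | with_reducible apply Int.all | with_reducible apply Int.ex | with_reducible apply IntF.fst | with_reducible apply IntF.snd | with_reducible apply IntF.app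 | with_reducible apply IntF.inl | with_reducible apply IntF.inr | with_reducible_and_instances apply IntF.mul | with_reducible_and_instances apply IntF.inv | with_reducible_and_instances apply IntF.add | with_reducible_and_instances apply IntF.sub | with_reducible_and_instances apply IntF.neg | with_reducible_and_instances apply IntF.smul | with_reducible apply Int.fin | with_reducible apply IntF.sep | with_reducible apply IntF.lam | with_reducible apply IntF.insert | with_reducible apply IntF.singleton | with_reducible apply IntF.union | with_reducible apply IntF.iimage | with_reducible apply IntF.ite | with_reducible apply IntF.the | with_reducible apply IntF.irec | with_reducible apply IntF.succ | with_reducible apply IntF.val | with_reducible apply IntF.mk | (with_reducible refine Int.comp ?_ ?_; assumption) | (with_reducible refine Int.comp₂ ?_ ?_ ?_; assumption) | (with_reducible refine Int.comp₃ ?_ ?_ ?_ ?_; assumption) | (with_reducible refine Int.comp₄ ?_ ?_ ?_ ?_ ?_; assumption) | (with_reducible refine IntF.comp ?_ ?_; assumption) | (with_reducible refine IntF.comp₂ ?_ ?_ ?_; assumption) |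 (with_reducible refine IntF.comp₃ ?_ ?_ ?_ ?_; assumption) | with_reducible apply IntF.pair))
  have hm := int_mm (M := M)
  have hbd := IFin.exists_bound (α := IPow M (Xt M)) (r := fun (t : IPow M (Xt M))
      (T : FS M (Dt M)) => (∃ a : Dt M, ¬ (Sum.inl a : Xt M) ∈ E.1 ∧ ∀ x : Xt M, x ∈ t ↔
        (x ∈ E.1 ∧ mm (Sum.inl a) x)) → ∃ b : Dt M, b ∈ T.1 ∧ ¬ (Sum.inl b : Xt M) ∈ E.1 ∧
        ∀ x : Xt M, x ∈ t ↔ (x ∈ E.1 ∧ mm (Sum.inl b) x)) (by (repeat' (first | with_reducible exact IntF.id | with_reducible exact IntF.fst' | with_reducible exact IntF.snd' | with_reducible exact IntF.const _ | with_reducible exact Int.const _ | assumption | with_reducible apply Int.and | with_reducible apply Int.or | with_reducible apply Int.not | with_reducible apply Int.imp | with_reducible apply Int.iff | with_reducible apply Int.ne | with_reducible apply Int.eq | with_reducible apply Int.mem | with_reducible apply Int.subset | with_reducible apply Int.ltN | with_reducible apply Int.leN | with_reducible_and_instances apply Int.le | with_reducible_and_instances apply Int.lt | with_reducible apply Int.all | with_reducible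 apply Int.ex | with_reducible apply IntF.fst | with_reducible apply IntF.snd | with_reducible apply IntF.app | with_reducible apply IntF.inl | with_reducible apply IntF.inr | with_reducible_and_instances apply IntF.mul | with_reducible_and_instances apply IntF.inv | with_reducible_and_instances apply IntF.add | with_reducible_and_instances apply IntF.sub | with_reducible_and_instances apply IntF.neg | with_reducible_and_instances apply IntF.smul | with_reducible apply Int.fin | with_reducible apply IntF.sep | with_reducible apply IntF.lam | with_reducible apply IntF.insert | with_reducible apply IntF.singleton | with_reducible apply IntF.union | with_reducible apply IntF.iimage | with_reducible apply IntF.ite | with_reducible apply IntF.the | with_reducible apply IntF.irec | with_reducible apply IntF.succ | with_reducible apply IntF.val | with_reducible apply IntF.mk | (with_reducible refine Int.comp ?_ ?_; assumption) | (with_reducible refine Int.comp₂ ?_ ?_ ?_; assumption) | (with_reducible refine Int.comp₃ ?_ ?_ ?_ ?_; assumption) | (with_reducible refine Int.comp₄ ?_ ?_ ?_ ?_ ?_; assumption) | (with_reducible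 refine IntF.comp ?_ ?_; assumption) | (with_reducible refine IntF.comp₂ ?_ ?_ ?_; assumption) | (with_reducible refine IntF.comp₃ ?_ ?_ ?_ ?_; assumption) | with_reducible apply IntF.pair)))
    (fun T T' => ⟨fsu T T', fun t h h' => by
      rcases h with h | h
      · obtain ⟨b, h1, h2⟩ := h h'
        exact ⟨b, mem_union.2 (Or.inl h1), h2⟩
      · obtain ⟨b, h1, h2⟩ := h h'
        exact ⟨b, mem_union.2 (Or.inr h1), h2⟩⟩) ⟨⟨∅, IFin.empty⟩⟩ (s := ipow E.1) E.2.pow
    fun t _ => by
      by_cases h : ∃ a : Dt M, ¬ (Sum.inl a : Xt M) ∈ E.1 ∧ ∀ x : Xt M, x ∈ t ↔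
        (x ∈ E.1 ∧ mm (Sum.inl a) x)
      · obtain ⟨a, ha⟩ := h
        exact ⟨⟨{a}, IFin.singleton a⟩, fun _ => ⟨a, mem_singleton.2 rfl, ha⟩⟩
      · exact ⟨⟨∅, IFin.empty⟩, fun h' => absurd h' h⟩
  obtain ⟨T, hT⟩ := hbd
  refine ⟨fun b => b ∈ T.1 ∨ (Sum.inl b : Xt M) ∈ E.1, by (repeat' (first | with_reducible exact IntF.id | with_reducible exact IntF.fst' | with_reducible exact IntF.snd' | with_reducible exact IntF.const _ | with_reducible exact Int.const _ | assumption | with_reducible apply Int.and | with_reducible apply Int.or | with_reducible apply Int.not | with_reducible apply Int.imp | with_reducible apply Int.iff | with_reducible apply Int.ne | with_reducible apply Int.eq | with_reducible apply Int.mem | with_reducible apply Int.subset | with_reducible apply Int.ltN | with_reducible apply Int.leN | with_reducible_and_instances apply Int.le | with_reducible_and_instances apply Int.lt | with_reducible apply Int.all | with_reducible apply Int.ex | with_reducible apply IntF.fst | with_reducible apply IntF.snd | with_reducible apply IntF.app | with_reducible apply IntF.inl | with_reducible apply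 IntF.inr | with_reducible_and_instances apply IntF.mul | with_reducible_and_instances apply IntF.inv | with_reducible_and_instances apply IntF.add | with_reducible_and_instances apply IntF.sub | with_reducible_and_instances apply IntF.neg | with_reducible_and_instances apply IntF.smul | with_reducible apply Int.fin | with_reducible apply IntF.sep | with_reducible apply IntF.lam | with_reducible apply IntF.insert | with_reducible apply IntF.singleton | with_reducible apply IntF.union | with_reducible apply IntF.iimage | with_reducible apply IntF.ite | with_reducible apply IntF.the | with_reducible apply IntF.irec | with_reducible apply IntF.succ | with_reducible apply IntF.val | with_reducible apply IntF.mk | (with_reducible refine Int.comp ?_ ?_; assumption) | (with_reducible refine Int.comp₂ ?_ ?_ ?_; assumption) | (with_reducible refine Int.comp₃ ?_ ?_ ?_ ?_; assumption) | (with_reducible refine Int.comp₄ ?_ ?_ ?_ ?_ ?_; assumption) | (with_reducible refine IntF.comp ?_ ?_; assumption) | (with_reducible refine IntF.comp₂ ?_ ?_ ?_; assumption) | (with_reducible refine IntF.comp₃ ?_ ?_ ?_ ?_; assumption)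 | with_reducible apply IntF.pair)),
    FinP.or ⟨T.1, T.2, fun _ h => h⟩ (finP_inl E), fun a => ?_⟩
  by_cases ha : (Sum.inl a : Xt M) ∈ E.1
  · exact ⟨a, Or.inr ha, rE_refl _ _⟩
  · have hS : Int M (fun x : Xt M => x ∈ E.1 ∧ mm (Sum.inl a) x) := by (repeat' (first | with_reducible exact IntF.id | with_reducible exact IntF.fst' | with_reducible exact IntF.snd' | with_reducible exact IntF.const _ | with_reducible exact Int.const _ | assumption | with_reducible apply Int.and | with_reducible apply Int.or | with_reducible apply Int.not | with_reducible apply Int.imp | with_reducible apply Int.iff | with_reducible apply Int.ne | with_reducible apply Int.eq | with_reducible apply Int.mem | with_reducible apply Int.subset | with_reducible apply Int.ltN | with_reducible apply Int.leN | with_reducible_and_instances apply Int.le | with_reducible_and_instances apply Int.lt | with_reducible apply Int.all | with_reducible apply Int.ex | with_reducible apply IntF.fst | with_reducible apply IntF.snd | with_reducible apply IntF.app | with_reducible apply IntF.inl | with_reducible apply IntF.inr | with_reducible_and_instances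 apply IntF.mul | with_reducible_and_instances apply IntF.inv | with_reducible_and_instances apply IntF.add | with_reducible_and_instances apply IntF.sub | with_reducible_and_instances apply IntF.neg | with_reducible_and_instances apply IntF.smul | with_reducible apply Int.fin | with_reducible apply IntF.sep | with_reducible apply IntF.lam | with_reducible apply IntF.insert | with_reducible apply IntF.singleton | with_reducible apply IntF.union | with_reducible apply IntF.iimage | with_reducible apply IntF.ite | with_reducible apply IntF.the | with_reducible apply IntF.irec | with_reducible apply IntF.succ | with_reducible apply IntF.val | with_reducible apply IntF.mk | (with_reducible refine Int.comp ?_ ?_; assumption) | (with_reducible refine Int.comp₂ ?_ ?_ ?_; assumption) | (with_reducible refine Int.comp₃ ?_ ?_ ?_ ?_; assumption) | (with_reducible refine Int.comp₄ ?_ ?_ ?_ ?_ ?_; assumption) | (with_reducible refine IntF.comp ?_ ?_; assumption) | (with_reducible refine IntF.comp₂ ?_ ?_ ?_; assumption) | (with_reducible refine IntF.comp₃ ?_ ?_ ?_ ?_; assumption) | with_reducible apply IntF.pair))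
    obtain ⟨b, h1, h2, h3⟩ := hT (sep M fun x : Xt M => x ∈ E.1 ∧ mm (Sum.inl a) x)
      (mem_ipow.2 fun x hx => ((mem_sep hS).1 hx).1) ⟨a, ha, fun x => mem_sep hS⟩
    refine ⟨b, Or.inl h1, Or.inr ⟨ha, h2, fun B hB => ?_⟩⟩
    have h4 := h3 (Sum.inr B)
    rw [mem_sep hS] at h4
    have h5 : ∀ a : Dt M, mm (Sum.inl a) (Sum.inr B) ↔ a ∈ B.1.1 := by
      intro a
      constructor
      · rintro ⟨a', B', e1, e2, h6⟩
        cases e1
        cases e2
        exact h6
      · exact fun h6 => ⟨a, B, rfl, rfl, h6⟩
    rw [h5, h5] at h4
    tauto

end Pool.Agent.V11257T
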