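import Pool.Agent.V11257.Tr3

/-!
# The tree: the sorts in the extension
-/

set_option maxHeartbeats 1000000
set_option linter.all false
set_option synthInstance.maxSize 2000

namespace Pool.Agent.V11257T

open FirstOrder FirstOrder.Language
open Pool.Agent.Helper672.ZFA
open Pool.Agent.Helper672.ZFA.H635 (IPerm IsGen NN EqFam CollL nn_ext exists_mk mk_eq_nd)
open Pool.Agent.Helper672.ZFA.H310M
open Pool.Agent.H310
open Pool.Agent.H310.NA (fin_img)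

universe u

section sorts

variable {M : Type u} [L.Structure M] [hM : IsModel M]
variable {G : Set (Co M (Xt M))} (hG : IsGen M G) (hC : CollL M)

/-- The extension. -/
abbrev Nx : Type u := NN (SS (ZZ M)) hG

theorem exists_AD : ∃ z : Nx hG, ∀ w, Mem w z ↔ ∃ x, dm x ∧ w = cc (ZZ M) hG x :=
  EF.set hG (ef_cc hG) (Y := fun x => dm x) int_dm (E := fs0 M (Xt M))
    fun g hg _ c hc => (hg.1 c).1 hc

theorem exists_AY : ∃ z : Nx hG, ∀ w, Mem w z ↔ ∃ x, ¬ dm x ∧ w = cc (ZZ M) hG x :=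
  EF.set hG (ef_cc hG) (Y := fun x => ¬ dm x) (Helper672.ZFA.Int.not int_dm) (E := fs0 M (Xt M))
    fun g hg _ c hc h => hc ((hg.1 c).2 h)

/-- The first sort. -/
noncomputable def AD : Nx hG := (exists_AD hG).choose

/-- The second sort. -/
noncomputable def AY : Nx hG := (exists_AY hG).choose

theorem mem_AD {w : Nx hG} : Mem w (AD hG) ↔ ∃ a : Dt M, w = cc (ZZ M) hG (Sum.inl a) := by
  refine ((exists_AD hG).choose_spec w).trans ⟨?_, ?_⟩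
  · rintro ⟨x, ⟨a, rfl⟩, h⟩
    exact ⟨a, h⟩
  · rintro ⟨a, h⟩
    exact ⟨_, ⟨a, rfl⟩, h⟩

theorem mem_AY {w : Nx hG} : Mem w (AY hG) ↔ ∃ B : Yt M, w = cc (ZZ M) hG (Sum.inr B) := by
  refine ((exists_AY hG).choose_spec w).trans ⟨?_, ?_⟩
  · rintro ⟨a | B, h1, h⟩
    · exact absurd ⟨a, rfl⟩ h1
    · exact ⟨B, h⟩
  · rintro ⟨B, h⟩
    refine ⟨_, ?_, h⟩
    rintro ⟨a, ha⟩
    cases ha

/-- The elements of the first sort. -/
noncomputable def dA (a : Dt M) : El (AD hG) := ⟨cc (ZZ M) hG (Sum.inl a), (mem_AD hG).2 ⟨a, rfl⟩⟩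

/-- The elements of the second sort. -/
noncomputable def yA (B : Yt M) : El (AY hG) := ⟨cc (ZZ M) hG (Sum.inr B), (mem_AY hG).2 ⟨B, rfl⟩⟩

theorem dA_inj {a b : Dt M} : dA hG a = dA hG b ↔ a = b :=
  ⟨fun h => Sum.inl.inj ((cc_inj hG).1 (congrArg Subtype.val h)), fun h => h ▸ rfl⟩

theorem dA_surj (x : El (AD hG)) : ∃ a, dA hG a = x := by
  obtain ⟨a, ha⟩ := (mem_AD hG).1 x.2
  exact ⟨a, Subtype.ext ha.symm⟩

theorem yA_surj (x : El (AY hG)) : ∃ B, yA hG B = x := by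
  obtain ⟨B, hB⟩ := (mem_AY hG).1 x.2
  exact ⟨B, Subtype.ext hB.symm⟩

theorem int_mem1 (z : Nx hG) {A : Nx hG} : Int (Nx hG) (fun x : El A => Mem x.1 z) :=
  ⟨z, fun _ => Iff.rfl⟩

theorem int_mem2 (z : Nx hG) {A B : Nx hG} :
    Int (Nx hG) (fun q : El A × El B => Mem (op q.1.1 q.2.1) z) := ⟨z, fun _ => Iff.rfl⟩

theorem int_mem2n (z : Nx hG) {A : Nx hG} :
    Int (Nx hG) (fun q : El A × INat (Nx hG) => Mem (op q.1.1 q.2.val) z) := ⟨z, fun _ => Iff.rfl⟩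

theorem ef2 : EF (ZZ M) hG (fun g (q : Xt M × Xt M) => (g.1.1 q.1, g.1.1 q.2))
    (fun q => op (cc (ZZ M) hG q.1) (cc (ZZ M) hG q.2)) := by
  refine EF.op hG (fun g b => ?_) ?_ ?_
  · exact Prod.ext (g.2.2 _) (g.2.2 _)
  · exact EF.comp hG (ef_cc hG) (φ := fun q : Xt M × Xt M => q.1) IntF.fst' fun _ _ => rfl
  · exact EF.comp hG (ef_cc hG) (φ := fun q : Xt M × Xt M => q.2) IntF.snd' fun _ _ => rfl

theorem ef1n : EF (ZZ M) hG (fun g (q : Xt M × INat M) => (g.1.1 q.1, q.2))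
    (fun q => op (cc (ZZ M) hG q.1) (nn (ZZ M) hG q.2)) := by
  refine EF.op hG (fun g b => ?_) ?_ ?_
  · exact Prod.ext (g.2.2 _) rfl
  · exact EF.comp hG (ef_cc hG) (φ := fun q : Xt M × INat M => q.1) IntF.fst' fun _ _ => rfl
  · exact EF.comp hG (ef_nn hG) (φ := fun q : Xt M × INat M => q.2) IntF.snd' fun _ _ => rfl

theorem ef2n : EF (ZZ M) hG (fun g (q : (Xt M × Xt M) × INat M) =>
    ((g.1.1 q.1.1, g.1.1 q.1.2), q.2)) (fun q => op (op (cc (ZZ M) hG q.1.1)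
      (cc (ZZ M) hG q.1.2)) (nn (ZZ M) hG q.2)) := by
  refine EF.op hG (fun g b => ?_) ?_ ?_
  · exact Prod.ext (Prod.ext (g.2.2 _) (g.2.2 _)) rfl
  · exact EF.comp hG (ef2 hG) (φ := fun q : (Xt M × Xt M) × INat M => q.1) IntF.fst'
      fun _ _ => rfl
  · exact EF.comp hG (ef_nn hG) (φ := fun q : (Xt M × Xt M) × INat M => q.2) IntF.snd'
      fun _ _ => rfl

/-- Membership in the extension. -/
theorem exists_mem : ∃ mem : El (AD hG) × El (AY hG) → Prop, Int (Nx hG) mem ∧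
    ∀ a B, mem (dA hG a, yA hG B) ↔ a ∈ B.1.1 := by
  obtain ⟨z, hz⟩ := EF.set hG (ef2 hG) (Y := fun q => mm q.1 q.2) int_mm (E := fs0 M (Xt M))
    fun g hg _ c hc => (hg.2.1 c.1 c.2).1 hc
  refine ⟨_, int_mem2 hG z, fun a B => ?_⟩
  refine (hz _).trans ⟨?_, fun h => ⟨(Sum.inl a, Sum.inr B), ⟨a, B, rfl, rfl, h⟩, rfl⟩⟩
  rintro ⟨⟨x, y⟩, ⟨a', B', rfl, rfl, h1⟩, h2⟩
  obtain ⟨h3, h4⟩ := op_inj h2
  have h5 := Sum.inl.inj ((cc_inj hG).1 h3)
  have h6 := Sum.inr.inj ((cc_inj hG).1 h4)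
  rw [h5, h6]
  exact h1

/-- Same node in the extension. -/
theorem exists_nd : ∃ r : El (AY hG) × El (AY hG) → Prop, Int (Nx hG) r ∧
    ∀ B B', r (yA hG B, yA hG B') ↔ nd (Sum.inr B : Xt M) (Sum.inr B') := by
  obtain ⟨z, hz⟩ := EF.set hG (ef2 hG) (Y := fun q => nd q.1 q.2) int_nd (E := fs0 M (Xt M))
    fun g hg _ c hc => (hg.2.2.1 c.1 c.2).1 hc
  refine ⟨_, int_mem2 hG z, fun a B => ?_⟩
  refine (hz _).trans ⟨?_, fun h => ⟨(Sum.inr a, Sum.inr B), h, rfl⟩⟩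
  rintro ⟨⟨x, y⟩, h1, h2⟩
  obtain ⟨h3, h4⟩ := op_inj h2
  have h5 := (cc_inj hG).1 h3
  have h6 := (cc_inj hG).1 h4
  rw [h5, h6]
  exact h1

/-- The levels in the extension. -/
theorem exists_lev : ∃ l : El (AY hG) × INat (Nx hG) → Prop, Int (Nx hG) l ∧
    ∀ B n, l (yA hG B, nnN (ZZ M) hG hC n) ↔ lev (Sum.inr B : Xt M) n := by
  obtain ⟨z, hz⟩ := EF.set hG (ef1n hG) (Y := fun q => lev q.1 q.2) int_lev (E := fs0 M (Xt M))
    fun g hg _ c hc => (hg.2.2.2.1 c.1 c.2).1 hc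
  refine ⟨_, int_mem2n hG z, fun B n => ?_⟩
  refine (hz _).trans ⟨?_, fun h => ⟨(Sum.inr B, n), h, rfl⟩⟩
  rintro ⟨⟨x, k⟩, h1, h2⟩
  obtain ⟨h3, h4⟩ := op_inj h2
  have h5 := (cc_inj hG).1 h3
  have h6 := (nn_inj hG).1 h4
  rw [h5, h6]
  exact h1

/-- The children in the extension. -/
theorem exists_ch : ∃ c : (El (AY hG) × El (AY hG)) × INat (Nx hG) → Prop, Int (Nx hG) c ∧
    ∀ B B' n, c ((yA hG B, yA hG B'), nnN (ZZ M) hG hC n) ↔
      ch (Sum.inr B : Xt M) n (Sum.inr B') := by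
  have hc := int_ch (M := M)
  obtain ⟨z, hz⟩ := EF.set hG (ef2n hG) (Y := fun q => ch q.1.1 q.2 q.1.2)
    (Int.comp₃ (p := fun (x : Xt M) (k : INat M) (y : Xt M) => ch x k y) hc
      (IntF.fst IntF.fst') IntF.snd' (IntF.snd IntF.fst')) (E := fs0 M (Xt M))
    fun g hg _ c hc => (hg.2.2.2.2 c.1.1 c.2 c.1.2).1 hc
  have hI : Int (Nx hG) (fun q : (El (AY hG) × El (AY hG)) × INat (Nx hG) =>
      Mem (op (op q.1.1.1 q.1.2.1) q.2.val) z) := ⟨z, fun _ => Iff.rfl⟩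
  refine ⟨_, hI, fun B B' n => ?_⟩
  refine (hz _).trans ⟨?_, fun h => ⟨((Sum.inr B, Sum.inr B'), n), h, rfl⟩⟩
  rintro ⟨⟨⟨x, y⟩, k⟩, h1, h2⟩
  obtain ⟨h3, h4⟩ := op_inj h2
  obtain ⟨h3, h3'⟩ := op_inj h3
  have h5 := (cc_inj hG).1 h3
  have h5' := (cc_inj hG).1 h3'
  have h6 := (nn_inj hG).1 h4
  rw [h5, h5', h6]
  exact h1

theorem rE_inv {E : FS M (Xt M)} {g : IPerm M (Xt M)} (hg : g ∈ (ZZ M).H)
    (hE : ∀ x, x ∈ E.1 → g.1.1 x = x) {a b a' b' : Dt M} (ha : g.1.1 (Sum.inl a) = Sum.inl a')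
    (hb : g.1.1 (Sum.inl b) = Sum.inl b') (h : rE E a b) : rE E a' b' := by
  have ginj : ∀ x y, g.1.1 x = g.1.1 y → x = y := fun x y h => by
    rw [← g.2.2 x, h, g.2.2]
  rcases h with rfl | ⟨h1, h2, h3⟩
  · rw [ha] at hb
    exact Or.inl (Sum.inl.inj hb)
  · refine Or.inr ⟨fun h4 => h1 ?_, fun h4 => h2 ?_, fun B hB => ?_⟩
    · have h5 := hE _ h4
      rw [← ha] at h5
      rw [← ginj _ _ h5, ha]
      exact h4
    · have h5 := hE _ h4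
      rw [← hb] at h5
      rw [← ginj _ _ h5, hb]
      exact h4
    · have e1 : ∀ c c' : Dt M, g.1.1 (Sum.inl c) = Sum.inl c' → (c ∈ B.1.1 ↔ c' ∈ B.1.1) := by
        intro c c' hc
        have h6 := hg.2.1 (Sum.inl c) (Sum.inr B)
        rw [hE _ hB, hc] at h6
        have e2 : ∀ c : Dt M, mm (Sum.inl c) (Sum.inr B) ↔ c ∈ B.1.1 := by
          intro c
          constructor
          · rintro ⟨c', B', e1, e2, h6⟩
            cases e1
            cases e2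
            exact h6
          · exact fun h6 => ⟨c, B, rfl, rfl, h6⟩
        rwa [e2, e2] at h6
      rw [← e1 a a' ha, ← e1 b b' hb]
      exact h3 B hB

theorem inl_of {g : IPerm M (Xt M)} (hg : g ∈ (ZZ M).H) (a : Dt M) :
    ∃ a' : Dt M, g.1.1 (Sum.inl a) = Sum.inl a' := (hg.1 (Sum.inl a)).1 ⟨a, rfl⟩

/-- The classes in the extension. -/
theorem exists_r (E : FS M (Xt M)) : ∃ r : El (AD hG) × El (AD hG) → Prop, Int (Nx hG) r ∧
    ∀ a b, r (dA hG a, dA hG b) ↔ rE E a b := by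
  have hI : Int M (fun q : Xt M × Xt M => ∃ a b : Dt M, q.1 = Sum.inl a ∧ q.2 = Sum.inl b ∧
      rE E a b) := by
    have h := int_rE (M := M)
    refine Int.ex (Int.ex (Int.and ?_ (Int.and ?_ ?_)))
    · exact Int.eq (IntF.fst (IntF.fst IntF.fst')) (IntF.inl (IntF.snd IntF.fst'))
    · exact Int.eq (IntF.snd (IntF.fst IntF.fst')) (IntF.inl IntF.snd')
    · exact Int.comp₃ (p := fun (E : FS M (Xt M)) (a b : Dt M) => rE E a b) h (IntF.const E)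
        (IntF.snd IntF.fst') IntF.snd'
  obtain ⟨z, hz⟩ := EF.set hG (ef2 hG) hI (E := E) (by
    rintro g hg hgE c ⟨a, b, h1, h2, h3⟩
    obtain ⟨a', ha'⟩ := inl_of hg a
    obtain ⟨b', hb'⟩ := inl_of hg b
    refine ⟨a', b', ?_, ?_, rE_inv hg hgE ha' hb' h3⟩
    · change g.1.1 c.1 = _
      rw [h1, ha']
    · change g.1.1 c.2 = _
      rw [h2, hb'])
  refine ⟨_, int_mem2 hG z, fun a b => ?_⟩
  refine (hz _).trans ⟨?_, fun h => ⟨(Sum.inl a, Sum.inl b), ⟨a, b, rfl, rfl, h⟩, rfl⟩⟩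
  rintro ⟨⟨x, y⟩, ⟨a', b', h0, h0', h1⟩, h2⟩
  simp only at h0 h0' h2
  subst h0 h0'
  obtain ⟨h3, h4⟩ := op_inj h2
  have h5 := Sum.inl.inj ((cc_inj hG).1 h3)
  have h6 := Sum.inl.inj ((cc_inj hG).1 h4)
  rw [h5, h6]
  exact h1

include hC in
/-- Finite sets of the model are finite in the extension. -/
theorem finN {p : Dt M → Prop} (hp : Int M p) (hf : FinP M p) :
    FinP (Nx hG) (fun x : El (AD hG) => ∃ a, dA hG a = x ∧ p a) := by
  have hp' : Int M (fun x : Xt M => ∃ a, p a ∧ Sum.inl a = x) :=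
    Int.ex (Int.and (hp.comp IntF.snd') (Int.eq (IntF.inl IntF.snd') IntF.fst'))
  have hf' : FinP M (fun x : Xt M => ∃ a, p a ∧ Sum.inl a = x) := hf.image IntF.inl'
  refine (fin_img hG hC (ef_cc hG) (fun g b => g.2.2 _) hp' hf' (E := ⟨_, hf'.fin hp'⟩)
    (fun g hg hgE c hc => hgE c ((mem_sep hp').2 hc)) (β := El (AD hG))).mono ?_
  rintro x ⟨a, rfl, h1⟩
  exact ⟨Sum.inl a, ⟨a, h1, rfl⟩, rfl⟩

include hC in
/-- Sets of the model that are finite in the extension are finite. -/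
theorem fin_back {p : Dt M → Prop} (hp : Int M p)
    (hf : FinP (Nx hG) (fun x : El (AD hG) => ∃ a, dA hG a = x ∧ p a)) : FinP M p := by
  by_contra hinf
  obtain ⟨s, hs, hsp⟩ := hf
  obtain ⟨e, n, h1, h2, h3⟩ := exists_BN hs
  obtain ⟨z, hz⟩ := e.int
  obtain ⟨E, hE⟩ := support hG z
  have hr := int_rE (M := M)
  obtain ⟨T, hT, hTf, hTr⟩ := exists_T E
  have h4 : ∃ b, T b ∧ ¬ FinP M (fun a => p a ∧ rE E a b) := by
    by_contra hc
    push Not at hc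
    refine hinf ((FinP.bUnion hTf hT (R := fun q : Dt M × Dt M => p q.2 ∧ rE E q.2 q.1) ?_
      hc).mono fun a ha => ?_)
    · refine Int.and (hp.comp IntF.snd') ?_
      exact Int.comp₃ (p := fun (E : FS M (Xt M)) (a b : Dt M) => rE E a b) hr (IntF.const E)
        IntF.snd' IntF.fst'
    · obtain ⟨b, h5, h6⟩ := hTr a
      exact ⟨b, h5, ha, h6⟩
  obtain ⟨b, -, hb⟩ := h4
  have h5 : ∃ a a', a ≠ a' ∧ (p a ∧ rE E a b) ∧ (p a' ∧ rE E a' b) := by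
    by_contra hc
    push Not at hc
    by_cases h6 : ∃ a, p a ∧ rE E a b
    · obtain ⟨a, ha⟩ := h6
      refine hb ((FinP.eq a).mono fun a' ha' => ?_)
      by_contra h7
      exact hc a a' (Ne.symm h7) ha ha'.1 ha'.2
    · exact hb ⟨∅, IFin.empty, fun a ha => absurd ⟨a, ha⟩ h6⟩
  obtain ⟨a, a', hne, ⟨ha, hab⟩, ha', hab'⟩ := h5
  obtain ⟨g, hg, hgE, hga, -⟩ := exists_tr (rE_trans hab (rE_symm hab'))
  obtain ⟨k, hk⟩ := nnN_surj hG hC (e (dA hG a))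
  have h6 : Mem (op (cc (ZZ M) hG (Sum.inl a)) (nn (ZZ M) hG k)) z := by
    refine (hz (dA hG a, nnN (ZZ M) hG hC k)).2 ?_
    exact hk.symm
  have h7 := hE _ _ _ _ (ef1n hG) g hg hgE (Sum.inl a, k) h6
  have h8 : Mem (op (cc (ZZ M) hG (Sum.inl a')) (nn (ZZ M) hG k)) z := by
    have h7' : Mem (op (cc (ZZ M) hG (g.1.1 (Sum.inl a))) (nn (ZZ M) hG k)) z := h7
    rw [hga] at h7'
    exact h7'
  have h9 : e (dA hG a') = nnN (ZZ M) hG hC k := (hz (dA hG a', nnN (ZZ M) hG hC k)).1 h8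
  exact hne ((dA_inj hG).1 (h2 _ _ (hsp _ ⟨a, rfl, ha⟩) (hsp _ ⟨a', rfl, ha'⟩)
    (hk.symm.trans h9.symm)))

end sorts

end Pool.Agent.V11257T
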