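import Pool.Agent.V11257.Tr5

/-!
# The tree: the sorts are good
-/

set_option maxHeartbeats 1000000
set_option linter.all false
set_option synthInstance.maxSize 2000

namespace Pool.Agent.V11257T

open FirstOrder FirstOrder.Language
open Pool.Agent.Helper672.ZFA
open Pool.Agent.Helper672.ZFA.H635 (IPerm IsGen NN EqFam CollL nn_ext exists_mk mk_eq_nd)
open Pool.Agent.Helper672.ZFA.H310M
open Pool.Agent.H310

universe u

variable {M : Type u} [L.Structure M] [hM : IsModel M]

variable {G : Set (Co M (Xt M))} (hG : IsGen M G) (hC : CollL M)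

include hC in
theorem hom1 : Hom1 (Nx hG) (El (AD hG)) where
  hom R hR := by
    obtain ⟨z, hz⟩ := hR
    obtain ⟨E, hE⟩ := support hG z
    obtain ⟨r, hr, hr'⟩ := exists_r hG E
    obtain ⟨T, hT, hTf, hTr⟩ := exists_T E
    obtain ⟨t, ht, htT⟩ := finN hG hC hT hTf
    refine ⟨r, hr, fun x => ?_, fun x y => ?_, fun x y w => ?_, ⟨t, ht, fun x => ?_⟩, ?_⟩
    · obtain ⟨a, rfl⟩ := dA_surj hG x
      exact (hr' _ _).2 (rE_refl _ _)
    · obtain ⟨a, rfl⟩ := dA_surj hG x
      obtain ⟨b, rfl⟩ := dA_surj hG y
      rw [hr', hr']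
      exact rE_symm
    · obtain ⟨a, rfl⟩ := dA_surj hG x
      obtain ⟨b, rfl⟩ := dA_surj hG y
      obtain ⟨c, rfl⟩ := dA_surj hG w
      rw [hr', hr', hr']
      exact rE_trans
    · obtain ⟨a, rfl⟩ := dA_surj hG x
      obtain ⟨b, h1, h2⟩ := hTr a
      exact ⟨dA hG b, htT _ ⟨b, rfl, h1⟩, (hr' _ _).2 h2⟩
    · intro x y y' n hxy hxy' hyy hR
      obtain ⟨a, rfl⟩ := dA_surj hG x
      obtain ⟨b, rfl⟩ := dA_surj hG y
      obtain ⟨b', rfl⟩ := dA_surj hG y'
      obtain ⟨k, rfl⟩ := nnN_surj hG hC n
      obtain ⟨g, hg, hgE, hgb, hga⟩ := exists_tr ((hr' _ _).1 hyy)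
      have h1 : Mem (op (op (cc (ZZ M) hG (Sum.inl a)) (cc (ZZ M) hG (Sum.inl b)))
          (nn (ZZ M) hG k)) z := (hz ((dA hG a, dA hG b), nnN (ZZ M) hG hC k)).2 hR
      have h2 : Mem (op (op (cc (ZZ M) hG (g.1.1 (Sum.inl a))) (cc (ZZ M) hG
          (g.1.1 (Sum.inl b)))) (nn (ZZ M) hG k)) z :=
        hE _ _ _ _ (ef2n hG) g hg hgE ((Sum.inl a, Sum.inl b), k) h1
      rw [hgb, hga a (fun h => hxy (h ▸ rfl)) (fun h => hxy' (h ▸ rfl))] at h2
      exact (hz ((dA hG a, dA hG b'), nnN (ZZ M) hG hC k)).1 h2

theorem pf_id : Pf (lam M fun k : INat M => k : Dt M) := by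
  have e : ∀ k, (lam M fun k : INat M => k : Dt M) k = k := fun k => lam_apply IntF.id k
  refine ⟨fun l => ⟨l, e l⟩, fun k k' h => ?_, 0, fun k _ => e k⟩
  rwa [e, e] at h

/-- The canonical name of a node. -/
noncomputable def nm0 (n : INat M) (z : Dt M) : Yt M :=
  (⟨sep M fun a : Dt M => Eb n a z, n, z, by
    have h := int_Eb (M := M)
    rw [alm_iff]
    refine ⟨∅, IFin.empty, fun a ha => absurd (mem_sep ?_) ha⟩
    exact Int.comp₃ (p := fun n a z => Eb n a z) h (IntF.const _) IntF.id (IntF.const _)⟩,
    ⟨_, pf_id⟩)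

theorem mem_nm0 {n : INat M} {z a : Dt M} : a ∈ (nm0 n z).1.1 ↔ Eb n a z := by
  have h := int_Eb (M := M)
  refine mem_sep ?_
  exact Int.comp₃ (p := fun n a z => Eb n a z) h (IntF.const _) IntF.id (IntF.const _)

theorem alm_nm0 (n : INat M) (z : Dt M) : alm (nm0 n z).1.1 n z := by
  rw [alm_iff]
  exact ⟨∅, IFin.empty, fun a ha => absurd mem_nm0 ha⟩

theorem nm0_id (n : INat M) (z : Dt M) (k : INat M) : (nm0 n z).2.1 k = k := lam_apply IntF.id k

theorem eb_succ {n : INat M} {a z : Dt M} (h : Eb n a z) (h' : a n = z n) : Eb n.succ a z := by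
  intro j hj
  rcases INat.lt_succ_iff'.1 hj with h1 | rfl
  · exact h j h1
  · exact h'

theorem succ_inj {n m : INat M} (h : n.succ = m.succ) : n = m := by
  refine le_antisymm (INat.lt_succ_iff.1 ?_) (INat.lt_succ_iff.1 ?_)
  · rw [← h]
    exact INat.lt_succ_self n
  · rw [h]
    exact INat.lt_succ_self m

theorem nd_alm {B B' : Yt M} (h : nd (Sum.inr B : Xt M) (Sum.inr B')) :
    ∃ n z, alm B.1.1 n z ∧ alm B'.1.1 n z := by
  obtain ⟨C, C', h1, h2, h3⟩ := h
  cases h1
  cases h2
  exact h3

theorem ch_alm {B B' : Yt M} {k : INat M} (h : ch (Sum.inr B : Xt M) k (Sum.inr B')) :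
    ∃ n z, alm B.1.1 n z ∧ alm B'.1.1 n.succ z ∧ z n = B.2.1 k := by
  obtain ⟨C, C', h1, h2, h3⟩ := h
  cases h1
  cases h2
  exact h3

theorem lev_alm {B : Yt M} {k : INat M} (h : lev (Sum.inr B : Xt M) k) :
    ∃ z, alm B.1.1 k z := by
  obtain ⟨C, h1, h3⟩ := h
  cases h1
  exact h3

theorem ch_iff {B B' : Yt M} (h : nd (Sum.inr B : Xt M) (Sum.inr B')) (k m : INat M) :
    (∃ Z : Yt M, ch (Sum.inr B : Xt M) k (Sum.inr Z) ∧ ch (Sum.inr B' : Xt M) m (Sum.inr Z)) ↔
      B.2.1 k = B'.2.1 m := by
  obtain ⟨n, z, h1, h2⟩ := nd_alm h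
  constructor
  · rintro ⟨Z, h3, h4⟩
    obtain ⟨n', z', h5, h6, h7⟩ := ch_alm h3
    obtain ⟨n'', z'', h8, h9, h10⟩ := ch_alm h4
    obtain ⟨e1, e2⟩ := alm_unique h6 h9
    have e3 := succ_inj e1
    subst e3
    rw [← h7, ← h10]
    exact e2 n' (INat.lt_succ_self n')
  · intro h3
    have e1 : Eb n (upd z n (B.2.1 k)) z := eb_upd _ _ _
    refine ⟨nm0 n.succ (upd z n (B.2.1 k)), ⟨_, _, rfl, rfl, n, upd z n (B.2.1 k),
      alm_congr h1 e1.symm, alm_nm0 _ _, upd_self _ _ _⟩, ⟨_, _, rfl, rfl, n, upd z n (B.2.1 k),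
      alm_congr h2 e1.symm, alm_nm0 _ _, ?_⟩⟩
    rw [upd_self]
    exact h3

include hC in
theorem exists_tre : ∃ mem r l c, Tre (Nx hG) (α := El (AD hG)) (β := El (AY hG)) mem r l c ∧
    (∀ a B, mem (dA hG a, yA hG B) ↔ a ∈ B.1.1) ∧
    ∀ B B' n, c ((yA hG B, yA hG B'), nnN (ZZ M) hG hC n) ↔
      ch (Sum.inr B : Xt M) n (Sum.inr B') := by
  obtain ⟨mem, hmem, hmem'⟩ := exists_mem hG
  obtain ⟨r, hr, hr'⟩ := exists_nd hG
  obtain ⟨l, hl, hl'⟩ := exists_lev hG hC
  obtain ⟨c, hc, hc'⟩ := exists_ch hG hC
  have hch : ∀ B B' k m, nd (Sum.inr B : Xt M) (Sum.inr B') →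
      ((∃ z, c ((yA hG B, z), nnN (ZZ M) hG hC k) ∧ c ((yA hG B', z), nnN (ZZ M) hG hC m)) ↔
        B.2.1 k = B'.2.1 m) := by
    intro B B' k m h
    rw [← ch_iff h]
    constructor
    · rintro ⟨z, h1, h2⟩
      obtain ⟨Z, rfl⟩ := yA_surj hG z
      exact ⟨Z, (hc' _ _ _).1 h1, (hc' _ _ _).1 h2⟩
    · rintro ⟨Z, h1, h2⟩
      exact ⟨yA hG Z, (hc' _ _ _).2 h1, (hc' _ _ _).2 h2⟩
  refine ⟨mem, r, l, c, ⟨hmem, hr, hl, hc, fun y => ?_, fun y y' h1 h2 => ?_, fun y n h1 => ?_,
    fun x y y' k h1 h2 => ?_, fun y y' h1 => ?_, fun y y' h1 => ?_,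
    fun y₀ y y' h1 h2 h3 h4 => ?_⟩, hmem', hc'⟩
  · obtain ⟨B, rfl⟩ := yA_surj hG y
    obtain ⟨n, z, hB⟩ := B.1.2
    exact ⟨nnN (ZZ M) hG hC n, (hl' _ _).2 ⟨B, rfl, z, hB⟩⟩
  · obtain ⟨B, rfl⟩ := yA_surj hG y
    obtain ⟨B', rfl⟩ := yA_surj hG y'
    rw [← nnN_zero (Z := ZZ M) hG hC] at h1 h2
    obtain ⟨z, h3⟩ := lev_alm ((hl' _ _).1 h1)
    obtain ⟨z', h4⟩ := lev_alm ((hl' _ _).1 h2)
    exact (hr' _ _).2 ⟨B, B', rfl, rfl, 0, z, h3, alm_congr h4 fun j hj => absurd hj INat.not_lt_zero⟩
  · obtain ⟨B, rfl⟩ := yA_surj hG y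
    obtain ⟨n, rfl⟩ := nnN_surj hG hC n
    rw [← nnN_succ (Z := ZZ M) hG hC] at h1
    obtain ⟨z, h3⟩ := lev_alm ((hl' _ _).1 h1)
    refine ⟨yA hG (nm0 n z), (hl' _ _).2 ⟨_, rfl, z, alm_nm0 n z⟩, nnN (ZZ M) hG hC (z n),
      (hc' _ _ _).2 ⟨_, _, rfl, rfl, n, z, alm_nm0 n z, h3, (nm0_id _ _ _).symm⟩⟩
  · obtain ⟨A, rfl⟩ := yA_surj hG x
    obtain ⟨B, rfl⟩ := yA_surj hG y
    obtain ⟨B', rfl⟩ := yA_surj hG y'
    obtain ⟨k, rfl⟩ := nnN_surj hG hC k
    obtain ⟨n, z, h3, h4, h5⟩ := ch_alm ((hc' _ _ _).1 h1)
    obtain ⟨n', z', h6, h7, h8⟩ := ch_alm ((hc' _ _ _).1 h2)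
    obtain ⟨rfl, e2⟩ := alm_unique h3 h6
    refine (hr' _ _).2 ⟨B, B', rfl, rfl, n.succ, z, h4, alm_congr h7 (eb_succ e2 ?_).symm⟩
    rw [h5, h8]
  · obtain ⟨B, rfl⟩ := yA_surj hG y
    obtain ⟨B', rfl⟩ := yA_surj hG y'
    obtain ⟨n, z, h3, h4⟩ := nd_alm ((hr' _ _).1 h1)
    have hI : Int M (fun a : Dt M => ¬ (a ∈ B.1.1 ↔ a ∈ B'.1.1)) := by (repeat' (first | with_reducible exact IntF.id | with_reducible exact IntF.fst' | with_reducible exact IntF.snd' | with_reducible exact IntF.const _ | with_reducible exact Int.const _ | assumption | with_reducible apply Int.and | with_reducible apply Int.or | with_reducible apply Int.not | with_reducible apply Int.imp | with_reducible apply Int.iff | with_reducible apply Int.ne | with_reducible apply Int.eq | with_reducible apply Int.mem | with_reducible apply Int.subset | with_reducible apply Int.ltN | with_reducible apply Int.leN | with_reducible_and_instances apply Int.le | with_reducible_and_instances apply Int.lt | with_reducible apply Int.all | with_reducible apply Int.ex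 | with_reducible apply IntF.fst | with_reducible apply IntF.snd | with_reducible apply IntF.app | with_reducible apply IntF.inl | with_reducible apply IntF.inr | with_reducible_and_instances apply IntF.mul | with_reducible_and_instances apply IntF.inv | with_reducible_and_instances apply IntF.add | with_reducible_and_instances apply IntF.sub | with_reducible_and_instances apply IntF.neg | with_reducible_and_instances apply IntF.smul | with_reducible apply Int.fin | with_reducible apply IntF.sep | with_reducible apply IntF.lam | with_reducible apply IntF.insert | with_reducible apply IntF.singleton | with_reducible apply IntF.union | with_reducible apply IntF.iimage | with_reducible apply IntF.ite | with_reducible apply IntF.the | with_reducible apply IntF.irec | with_reducible apply IntF.succ | with_reducible apply IntF.val | with_reducible apply IntF.mk | (with_reducible refine Int.comp ?_ ?_; assumption) | (with_reducible refine Int.comp₂ ?_ ?_ ?_; assumption) | (with_reducible refine Int.comp₃ ?_ ?_ ?_ ?_; assumption)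 | (with_reducible refine Int.comp₄ ?_ ?_ ?_ ?_ ?_; assumption) | (with_reducible refine IntF.comp ?_ ?_; assumption) | (with_reducible refine IntF.comp₂ ?_ ?_ ?_; assumption) | (with_reducible refine IntF.comp₃ ?_ ?_ ?_ ?_; assumption) | with_reducible apply IntF.pair))
    refine (finN hG hC hI (((alm_iff.1 h3).or (alm_iff.1 h4)).mono fun a ha => ?_)).mono
      fun x hx => ?_
    · by_contra h5
      push Not at h5
      exact ha (h5.1.trans h5.2.symm)
    · obtain ⟨a, rfl⟩ := dA_surj hG x
      rw [hmem', hmem'] at hx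
      exact ⟨a, rfl, hx⟩
  · obtain ⟨B, rfl⟩ := yA_surj hG y
    obtain ⟨B', rfl⟩ := yA_surj hG y'
    have hnd := (hr' _ _).1 h1
    obtain ⟨-, i1, b, h3⟩ := B.2.2
    obtain ⟨-, i2, b', h4⟩ := B'.2.2
    have h5 : FinP (Nx hG) (fun q : INat (Nx hG) × INat (Nx hG) => ∃ k,
        k < nnN (ZZ M) hG hC (max b b') ∧ (q.1 = k ∧ q.2 < nnN (ZZ M) hG hC (max b b'))) := by
      refine FinP.bUnion (R := fun r : INat (Nx hG) × (INat (Nx hG) × INat (Nx hG)) =>
        r.2.1 = r.1 ∧ r.2.2 < nnN (ZZ M) hG hC (max b b')) (finP_lt _) (by (repeat' (first | with_reducible exact IntF.id | with_reducible exact IntF.fst' | with_reducible exact IntF.snd' | with_reducible exact IntF.const _ | with_reducible exact Int.const _ | assumption | with_reducible apply Int.and | with_reducible apply Int.or | with_reducible apply Int.not | with_reducible apply Int.imp | with_reducible apply Int.iff | with_reducible apply Int.ne | with_reducible apply Int.eq | with_reducible apply Int.mem | with_reducible apply Int.subset | with_reducible apply Int.ltN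 | with_reducible apply Int.leN | with_reducible_and_instances apply Int.le | with_reducible_and_instances apply Int.lt | with_reducible apply Int.all | with_reducible apply Int.ex | with_reducible apply IntF.fst | with_reducible apply IntF.snd | with_reducible apply IntF.app | with_reducible apply IntF.inl | with_reducible apply IntF.inr | with_reducible_and_instances apply IntF.mul | with_reducible_and_instances apply IntF.inv | with_reducible_and_instances apply IntF.add | with_reducible_and_instances apply IntF.sub | with_reducible_and_instances apply IntF.neg | with_reducible_and_instances apply IntF.smul | with_reducible apply Int.fin | with_reducible apply IntF.sep | with_reducible apply IntF.lam | with_reducible apply IntF.insert | with_reducible apply IntF.singleton | with_reducible apply IntF.union | with_reducible apply IntF.iimage | with_reducible apply IntF.ite | with_reducible apply IntF.the | with_reducible apply IntF.irec | with_reducible apply IntF.succ | with_reducible apply IntF.val | with_reducible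 apply IntF.mk | (with_reducible refine Int.comp ?_ ?_; assumption) | (with_reducible refine Int.comp₂ ?_ ?_ ?_; assumption) | (with_reducible refine Int.comp₃ ?_ ?_ ?_ ?_; assumption) | (with_reducible refine Int.comp₄ ?_ ?_ ?_ ?_ ?_; assumption) | (with_reducible refine IntF.comp ?_ ?_; assumption) | (with_reducible refine IntF.comp₂ ?_ ?_ ?_; assumption) | (with_reducible refine IntF.comp₃ ?_ ?_ ?_ ?_; assumption) | with_reducible apply IntF.pair))) (by (repeat' (first | with_reducible exact IntF.id | with_reducible exact IntF.fst' | with_reducible exact IntF.snd' | with_reducible exact IntF.const _ | with_reducible exact Int.const _ | assumption | with_reducible apply Int.and | with_reducible apply Int.or | with_reducible apply Int.not | with_reducible apply Int.imp | with_reducible apply Int.iff | with_reducible apply Int.ne | with_reducible apply Int.eq | with_reducible apply Int.mem | with_reducible apply Int.subset | with_reducible apply Int.ltN | with_reducible apply Int.leN | with_reducible_and_instances apply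 Int.le | with_reducible_and_instances apply Int.lt | with_reducible apply Int.all | with_reducible apply Int.ex | with_reducible apply IntF.fst | with_reducible apply IntF.snd | with_reducible apply IntF.app | with_reducible apply IntF.inl | with_reducible apply IntF.inr | with_reducible_and_instances apply IntF.mul | with_reducible_and_instances apply IntF.inv | with_reducible_and_instances apply IntF.add | with_reducible_and_instances apply IntF.sub | with_reducible_and_instances apply IntF.neg | with_reducible_and_instances apply IntF.smul | with_reducible apply Int.fin | with_reducible apply IntF.sep | with_reducible apply IntF.lam | with_reducible apply IntF.insert | with_reducible apply IntF.singleton | with_reducible apply IntF.union | with_reducible apply IntF.iimage | with_reducible apply IntF.ite | with_reducible apply IntF.the | with_reducible apply IntF.irec | with_reducible apply IntF.succ | with_reducible apply IntF.val | with_reducible apply IntF.mk | (with_reducible refine Int.comp ?_ ?_; assumption) |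 (with_reducible refine Int.comp₂ ?_ ?_ ?_; assumption) | (with_reducible refine Int.comp₃ ?_ ?_ ?_ ?_; assumption) | (with_reducible refine Int.comp₄ ?_ ?_ ?_ ?_ ?_; assumption) | (with_reducible refine IntF.comp ?_ ?_; assumption) | (with_reducible refine IntF.comp₂ ?_ ?_ ?_; assumption) | (with_reducible refine IntF.comp₃ ?_ ?_ ?_ ?_; assumption) | with_reducible apply IntF.pair)))
        fun k _ => ?_
      refine ((finP_lt (nnN (ZZ M) hG hC (max b b'))).image
        (f := fun m : INat (Nx hG) => (k, m)) (by (repeat' (first | with_reducible exact IntF.id | with_reducible exact IntF.fst' | with_reducible exact IntF.snd' | with_reducible exact IntF.const _ | with_reducible exact Int.const _ | assumption | with_reducible apply Int.and | with_reducible apply Int.or | with_reducible apply Int.not | with_reducible apply Int.imp | with_reducible apply Int.iff | with_reducible apply Int.ne | with_reducible apply Int.eq | with_reducible apply Int.mem | with_reducible apply Int.subset | with_reducible apply Int.ltN | with_reducible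 apply Int.leN | with_reducible_and_instances apply Int.le | with_reducible_and_instances apply Int.lt | with_reducible apply Int.all | with_reducible apply Int.ex | with_reducible apply IntF.fst | with_reducible apply IntF.snd | with_reducible apply IntF.app | with_reducible apply IntF.inl | with_reducible apply IntF.inr | with_reducible_and_instances apply IntF.mul | with_reducible_and_instances apply IntF.inv | with_reducible_and_instances apply IntF.add | with_reducible_and_instances apply IntF.sub | with_reducible_and_instances apply IntF.neg | with_reducible_and_instances apply IntF.smul | with_reducible apply Int.fin | with_reducible apply IntF.sep | with_reducible apply IntF.lam | with_reducible apply IntF.insert | with_reducible apply IntF.singleton | with_reducible apply IntF.union | with_reducible apply IntF.iimage | with_reducible apply IntF.ite | with_reducible apply IntF.the | with_reducible apply IntF.irec | with_reducible apply IntF.succ | with_reducible apply IntF.val | with_reducible apply IntF.mk | (with_reducible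 refine Int.comp ?_ ?_; assumption) | (with_reducible refine Int.comp₂ ?_ ?_ ?_; assumption) | (with_reducible refine Int.comp₃ ?_ ?_ ?_ ?_; assumption) | (with_reducible refine Int.comp₄ ?_ ?_ ?_ ?_ ?_; assumption) | (with_reducible refine IntF.comp ?_ ?_; assumption) | (with_reducible refine IntF.comp₂ ?_ ?_ ?_; assumption) | (with_reducible refine IntF.comp₃ ?_ ?_ ?_ ?_; assumption) | with_reducible apply IntF.pair)))).mono ?_
      rintro ⟨k', m⟩ ⟨h6, h7⟩
      exact ⟨m, h7, Prod.ext (by exact h6.symm) rfl⟩
    refine h5.mono ?_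
    rintro ⟨k, m⟩ ⟨h6, h7⟩
    obtain ⟨k, rfl⟩ := nnN_surj hG hC k
    obtain ⟨m, rfl⟩ := nnN_surj hG hC m
    have h8 := (hch B B' k m hnd).1 h7
    have h6' : k ≠ m := fun e => h6 (by rw [e])
    have hk : k < max b b' := by
      by_contra hc1
      have hc1 := not_lt.1 hc1
      have e1 := h3 k ((le_max_left _ _).trans hc1)
      have e2 := h4 k ((le_max_right _ _).trans hc1)
      exact h6' (i2 _ _ (by rw [e2, ← h8, e1]))
    have hm : m < max b b' := by
      by_contra hc1
      have hc1 := not_lt.1 hc1
      have e1 := h3 m ((le_max_left _ _).trans hc1)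
      have e2 := h4 m ((le_max_right _ _).trans hc1)
      exact h6' (i1 _ _ (by rw [e1, h8, e2]))
    exact ⟨_, (nnN_lt (Z := ZZ M) hG hC).2 hk, rfl, (nnN_lt (Z := ZZ M) hG hC).2 hm⟩
  · obtain ⟨B₀, rfl⟩ := yA_surj hG y₀
    obtain ⟨B, rfl⟩ := yA_surj hG y
    obtain ⟨B', rfl⟩ := yA_surj hG y'
    have hn1 := (hr' _ _).1 h1
    have hn2 := (hr' _ _).1 h2
    have e1 : B.1 = B'.1 := Subtype.ext (IPow.ext' fun a => by
      have := h3 (dA hG a)
      rwa [hmem', hmem'] at this)
    have h5 : ∀ k m, (k ≠ m ∧ B.2.1 k = B₀.2.1 m) ↔ (k ≠ m ∧ B'.2.1 k = B₀.2.1 m) := by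
      intro k m
      have h6 := h4 (nnN (ZZ M) hG hC k) (nnN (ZZ M) hG hC m)
      rw [hch B B₀ k m hn1, hch B' B₀ k m hn2] at h6
      have h7 : nnN (ZZ M) hG hC k ≠ nnN (ZZ M) hG hC m ↔ k ≠ m :=
        (nnN_inj (Z := ZZ M) hG hC).not
      rwa [h7] at h6
    obtain ⟨s0, -⟩ := B₀.2.2
    have e2 : B.2 = B'.2 := Subtype.ext (IFun.ext' fun k => by
      obtain ⟨m, hm⟩ := s0 (B.2.1 k)
      by_cases h6 : k = m
      · subst h6
        obtain ⟨m', hm'⟩ := s0 (B'.2.1 k)
        by_cases h7 : k = m'
        · subst h7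
          rw [← hm, hm']
        · have h8 := ((h5 k m').2 ⟨h7, hm'.symm⟩).2
          rw [h8, hm']
      · have h8 := ((h5 k m).1 ⟨h6, hm.symm⟩).2
        rw [h8, hm])
    rw [show B = B' from Prod.ext e1 e2]

/-- The inclusion of the first sort. -/
noncomputable def incD (x : El (AD hG)) : El (AA (ZZ M) hG) := ⟨x.1, by
  obtain ⟨a, ha⟩ := (mem_AD hG).1 x.2
  exact (mem_AA hG).2 ⟨_, ha⟩⟩

/-- The inclusion of the second sort. -/
noncomputable def incY (x : El (AY hG)) : El (AA (ZZ M) hG) := ⟨x.1, by
  obtain ⟨a, ha⟩ := (mem_AY hG).1 x.2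
  exact (mem_AA hG).2 ⟨_, ha⟩⟩

theorem int_incD : IntF (Nx hG) (incD hG) :=
  IntF.of_D (S := fun v => v 0 = v 1) (D.eqf (DF.var _) (DF.var _)) fun _ _ =>
    ⟨fun h => Subtype.ext h, fun h => congrArg Subtype.val h⟩

theorem int_incY : IntF (Nx hG) (incY hG) :=
  IntF.of_D (S := fun v => v 0 = v 1) (D.eqf (DF.var _) (DF.var _)) fun _ _ =>
    ⟨fun h => Subtype.ext h, fun h => congrArg Subtype.val h⟩


variable {σ : Type u} [ITy (Nx hG) σ]

include hC in
/-- The generic elements are good. -/
theorem gd_AA (hσ : Nb (Nx hG) σ (El (AD hG))) :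
    Gd (Nx hG) σ (fun _ : El (AA (ZZ M) hG) => True) := by
  have h1 := (hom1 hG hC).gd hσ
  obtain ⟨mem, r, l, c, hcls, -⟩ := exists_tre hG hC
  have h2 := hcls.gd hσ.nat h1
  refine ((h1.image (int_incD hG)).or (h2.image (int_incY hG))).mono (Int.const _) fun x _ => ?_
  obtain ⟨y, hy⟩ := (mem_AA hG).1 x.2
  rcases y with a | B
  · exact Or.inl ⟨dA hG a, trivial, Subtype.ext hy.symm⟩
  · exact Or.inr ⟨yA hG B, trivial, Subtype.ext hy.symm⟩

end Pool.Agent.V11257T
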