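import Pool.Agent.V11257.Tr5
import Pool.Agent.V11257.Mf14

/-!
# Almost disjoint sequences
-/

set_option maxHeartbeats 1000000
set_option linter.all false
set_option synthInstance.maxSize 2000

namespace Pool.Agent.V11257T

open FirstOrder FirstOrder.Language
open Pool.Agent.Helper672
open Pool.Agent.Helper672.ZFA
open Pool.Agent.Helper672.ZFA.V246
open Pool.Agent.Helper672.Plain (LSet)
open Pool.Agent.H310
open Pool.Agent.H310Cards
open Pool.Agent.V11246
open Pool.Agent.V11257G
open Pool.Agent.V11257N (Dv ADS int_Dv nat_of)

universe u

section

variable {N : Type u} [L.Structure N] [IsModel N] {α : Type u} [ITy N α]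

variable (N α) in
/-- Almost disjoint sequences of infinite sets. -/
structure ADQ (V : INat N × IPow N α → Prop) : Prop where
  int : Int N V
  ne : ∀ j, ∃ B, V (j, B)
  eq : ∀ j B B', V (j, B) → V (j, B') → IFin (B \ B')
  dis : ∀ i j B B', i ≠ j → V (i, B) → V (j, B') → IFin (B ∩ B')
  inf : ∀ j B, V (j, B) → ¬ IFin B

theorem adq_of_ads {V : INat N × IPow N α → Prop} (h : ADS N α V) : ∃ V', ADQ N α V' := by
  have hD := int_Dv h.int
  refine ⟨fun q => Dv V ((q.1.succ, {q.1}), q.2), ?_, fun j => ?_, fun j B B' h1 h2 => ?_,
    fun i j B B' hij h1 h2 => ?_, fun j B h1 => h.inf _ _ _ h1⟩
  · exact Int.comp (p := Dv V) (f := fun q : INat N × IPow N α => ((q.1.succ, {q.1}), q.2)) hD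
      (by (repeat' (first | with_reducible exact IntF.id | with_reducible exact IntF.fst' | with_reducible exact IntF.snd' | with_reducible exact IntF.const _ | with_reducible exact Int.const _ | assumption | with_reducible apply Int.and | with_reducible apply Int.or | with_reducible apply Int.not | with_reducible apply Int.imp | with_reducible apply Int.iff | with_reducible apply Int.ne | with_reducible apply Int.eq | with_reducible apply Int.mem | with_reducible apply Int.subset | with_reducible apply Int.ltN | with_reducible apply Int.leN | with_reducible_and_instances apply Int.le | with_reducible_and_instances apply Int.lt | with_reducible apply Int.all | with_reducible apply Int.ex | with_reducible apply IntF.fst | with_reducible apply IntF.snd | with_reducible apply IntF.app | with_reducible apply IntF.inl | with_reducible apply IntF.inr | with_reducible_and_instances apply IntF.mul | with_reducible_and_instances apply IntF.inv | with_reducible_and_instances apply IntF.add | with_reducible_and_instances apply IntF.sub | with_reducible_and_instances apply IntF.neg | with_reducible_and_instances apply IntF.smul | with_reducible apply Int.fin | with_reducible apply IntF.sep | with_reducible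 apply IntF.lam | with_reducible apply IntF.insert | with_reducible apply IntF.singleton | with_reducible apply IntF.union | with_reducible apply IntF.iimage | with_reducible apply IntF.ite | with_reducible apply IntF.the | with_reducible apply IntF.irec | with_reducible apply IntF.succ | with_reducible apply IntF.val | with_reducible apply IntF.mk | (with_reducible refine Int.comp ?_ ?_; assumption) | (with_reducible refine Int.comp₂ ?_ ?_ ?_; assumption) | (with_reducible refine Int.comp₃ ?_ ?_ ?_ ?_; assumption) | (with_reducible refine Int.comp₄ ?_ ?_ ?_ ?_ ?_; assumption) | (with_reducible refine IntF.comp ?_ ?_; assumption) | (with_reducible refine IntF.comp₂ ?_ ?_ ?_; assumption) | (with_reducible refine IntF.comp₃ ?_ ?_ ?_ ?_; assumption) | with_reducible apply IntF.pair)))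
  · obtain ⟨U, hU⟩ := h.exists_cell j.succ {j}
    exact ⟨U, hU⟩
  · exact h2.2 _ h1.1
  · have key : ∀ i j B B', i < j → Dv V ((i.succ, {i}), B) → Dv V ((j.succ, {j}), B') →
        IFin (B ∩ B') := by
      intro i j B B' hij h1 h2
      obtain ⟨C, hC⟩ := h.ne i
      have h3 := (h1.1 i C (INat.lt_succ_self i) hC).1 (mem_singleton.2 rfl)
      have h4 := (h2.1 i C (hij.trans (INat.lt_succ_self j)) hC).2 fun h5 =>
        hij.ne (mem_singleton.1 h5)
      refine (h3.union h4).subset fun x hx => ?_
      rw [mem_inter] at hx
      rw [mem_union, mem_sdiff, mem_inter]
      tauto
    rcases lt_or_gt_of_ne hij with h3 | h3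
    · exact key i j B B' h3 h1 h2
    · exact fin_sym (key j i B' B h3 h2 h1)

end

section

variable {N : Type u} [L.Structure N] [IsModel N] {κ σ : Type u} [ITy N κ] [ITy N σ]
  {V : INat N × IPow N κ → Prop}

theorem ADQ.pull (h : ADQ N κ V) {D₀ : σ → Prop} (hD : Int N D₀) {W : κ × σ → Prop}
    (hW : Int N W) (hu : ∀ x y s, D₀ s → W (x, s) → W (y, s) → x = y)
    (hf : ∀ x, FinP N (fun s => W (x, s)))
    (hK : ∀ j B, V (j, B) → FinP N (fun x => x ∈ B ∧ ¬ ∃ s, D₀ s ∧ W (x, s))) :
    ∃ V', ADQ N σ V' := by
  have hV := h.int
  have hs : ∀ B : IPow N κ, Int N (fun s : σ => D₀ s ∧ ∃ x, x ∈ B ∧ W (x, s)) := by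
    intro B
    (repeat' (first | with_reducible exact IntF.id | with_reducible exact IntF.fst' | with_reducible exact IntF.snd' | with_reducible exact IntF.const _ | with_reducible exact Int.const _ | assumption | with_reducible apply Int.and | with_reducible apply Int.or | with_reducible apply Int.not | with_reducible apply Int.imp | with_reducible apply Int.iff | with_reducible apply Int.ne | with_reducible apply Int.eq | with_reducible apply Int.mem | with_reducible apply Int.subset | with_reducible apply Int.ltN | with_reducible apply Int.leN | with_reducible_and_instances apply Int.le | with_reducible_and_instances apply Int.lt | with_reducible apply Int.all | with_reducible apply Int.ex | with_reducible apply IntF.fst | with_reducible apply IntF.snd | with_reducible apply IntF.app | with_reducible apply IntF.inl | with_reducible apply IntF.inr | with_reducible_and_instances apply IntF.mul | with_reducible_and_instances apply IntF.inv | with_reducible_and_instances apply IntF.add | with_reducible_and_instances apply IntF.sub | with_reducible_and_instances apply IntF.neg | with_reducible_and_instances apply IntF.smul | with_reducible apply Int.fin | with_reducible apply IntF.sep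 | with_reducible apply IntF.lam | with_reducible apply IntF.insert | with_reducible apply IntF.singleton | with_reducible apply IntF.union | with_reducible apply IntF.iimage | with_reducible apply IntF.ite | with_reducible apply IntF.the | with_reducible apply IntF.irec | with_reducible apply IntF.succ | with_reducible apply IntF.val | with_reducible apply IntF.mk | (with_reducible refine Int.comp ?_ ?_; assumption) | (with_reducible refine Int.comp₂ ?_ ?_ ?_; assumption) | (with_reducible refine Int.comp₃ ?_ ?_ ?_ ?_; assumption) | (with_reducible refine Int.comp₄ ?_ ?_ ?_ ?_ ?_; assumption) | (with_reducible refine IntF.comp ?_ ?_; assumption) | (with_reducible refine IntF.comp₂ ?_ ?_ ?_; assumption) | (with_reducible refine IntF.comp₃ ?_ ?_ ?_ ?_; assumption) | with_reducible apply IntF.pair))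
  have hfin : ∀ B : IPow N κ, IFin B → FinP N (fun s : σ => ∃ x, x ∈ B ∧ W (x, s)) := by
    intro B hB
    exact FinP.bUnion (P := fun x => x ∈ B) (R := W) ⟨B, hB, fun _ h => h⟩ (by (repeat' (first | with_reducible exact IntF.id | with_reducible exact IntF.fst' | with_reducible exact IntF.snd' | with_reducible exact IntF.const _ | with_reducible exact Int.const _ | assumption | with_reducible apply Int.and | with_reducible apply Int.or | with_reducible apply Int.not | with_reducible apply Int.imp | with_reducible apply Int.iff | with_reducible apply Int.ne | with_reducible apply Int.eq | with_reducible apply Int.mem | with_reducible apply Int.subset | with_reducible apply Int.ltN | with_reducible apply Int.leN | with_reducible_and_instances apply Int.le | with_reducible_and_instances apply Int.lt | with_reducible apply Int.all | with_reducible apply Int.ex | with_reducible apply IntF.fst | with_reducible apply IntF.snd | with_reducible apply IntF.app | with_reducible apply IntF.inl | with_reducible apply IntF.inr | with_reducible_and_instances apply IntF.mul | with_reducible_and_instances apply IntF.inv | with_reducible_and_instances apply IntF.add | with_reducible_and_instances apply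 IntF.sub | with_reducible_and_instances apply IntF.neg | with_reducible_and_instances apply IntF.smul | with_reducible apply Int.fin | with_reducible apply IntF.sep | with_reducible apply IntF.lam | with_reducible apply IntF.insert | with_reducible apply IntF.singleton | with_reducible apply IntF.union | with_reducible apply IntF.iimage | with_reducible apply IntF.ite | with_reducible apply IntF.the | with_reducible apply IntF.irec | with_reducible apply IntF.succ | with_reducible apply IntF.val | with_reducible apply IntF.mk | (with_reducible refine Int.comp ?_ ?_; assumption) | (with_reducible refine Int.comp₂ ?_ ?_ ?_; assumption) | (with_reducible refine Int.comp₃ ?_ ?_ ?_ ?_; assumption) | (with_reducible refine Int.comp₄ ?_ ?_ ?_ ?_ ?_; assumption) | (with_reducible refine IntF.comp ?_ ?_; assumption) | (with_reducible refine IntF.comp₂ ?_ ?_ ?_; assumption) | (with_reducible refine IntF.comp₃ ?_ ?_ ?_ ?_; assumption) | with_reducible apply IntF.pair))) hW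
      fun x _ => hf x
  refine ⟨fun q => ∃ B, V (q.1, B) ∧ ∀ s, s ∈ q.2 ↔ (D₀ s ∧ ∃ x, x ∈ B ∧ W (x, s)), by (repeat' (first | with_reducible exact IntF.id | with_reducible exact IntF.fst' | with_reducible exact IntF.snd' | with_reducible exact IntF.const _ | with_reducible exact Int.const _ | assumption | with_reducible apply Int.and | with_reducible apply Int.or | with_reducible apply Int.not | with_reducible apply Int.imp | with_reducible apply Int.iff | with_reducible apply Int.ne | with_reducible apply Int.eq | with_reducible apply Int.mem | with_reducible apply Int.subset | with_reducible apply Int.ltN | with_reducible apply Int.leN | with_reducible_and_instances apply Int.le | with_reducible_and_instances apply Int.lt | with_reducible apply Int.all | with_reducible apply Int.ex | with_reducible apply IntF.fst | with_reducible apply IntF.snd | with_reducible apply IntF.app | with_reducible apply IntF.inl | with_reducible apply IntF.inr | with_reducible_and_instances apply IntF.mul | with_reducible_and_instances apply IntF.inv | with_reducible_and_instances apply IntF.add | with_reducible_and_instances apply IntF.sub | with_reducible_and_instances apply IntF.neg | with_reducible_and_instances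 apply IntF.smul | with_reducible apply Int.fin | with_reducible apply IntF.sep | with_reducible apply IntF.lam | with_reducible apply IntF.insert | with_reducible apply IntF.singleton | with_reducible apply IntF.union | with_reducible apply IntF.iimage | with_reducible apply IntF.ite | with_reducible apply IntF.the | with_reducible apply IntF.irec | with_reducible apply IntF.succ | with_reducible apply IntF.val | with_reducible apply IntF.mk | (with_reducible refine Int.comp ?_ ?_; assumption) | (with_reducible refine Int.comp₂ ?_ ?_ ?_; assumption) | (with_reducible refine Int.comp₃ ?_ ?_ ?_ ?_; assumption) | (with_reducible refine Int.comp₄ ?_ ?_ ?_ ?_ ?_; assumption) | (with_reducible refine IntF.comp ?_ ?_; assumption) | (with_reducible refine IntF.comp₂ ?_ ?_ ?_; assumption) | (with_reducible refine IntF.comp₃ ?_ ?_ ?_ ?_; assumption) | with_reducible apply IntF.pair)),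
    fun j => ?_, ?_, ?_, ?_⟩
  · obtain ⟨B, hB⟩ := h.ne j
    exact ⟨sep N fun s : σ => D₀ s ∧ ∃ x, x ∈ B ∧ W (x, s), B, hB, fun s => mem_sep (hs B)⟩
  · rintro j U U' ⟨B, h1, h2⟩ ⟨B', h3, h4⟩
    refine ((hfin _ (h.eq j B B' h1 h3)).mono (p := fun s => s ∈ U \ U') fun s hs => ?_).fin
      (Int.mem IntF.id (IntF.const _)) |>.subset fun s hs => (mem_sep
        (Int.mem IntF.id (IntF.const _))).2 hs
    rw [mem_sdiff, h2, h4] at hs
    obtain ⟨⟨h5, x, h6, h7⟩, h8⟩ := hs
    refine ⟨x, ?_, h7⟩
    rw [mem_sdiff]
    exact ⟨h6, fun h9 => h8 ⟨h5, x, h9, h7⟩⟩
  · rintro i j U U' hij ⟨B, h1, h2⟩ ⟨B', h3, h4⟩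
    refine ((hfin _ (h.dis i j B B' hij h1 h3)).mono (p := fun s => s ∈ U ∩ U') fun s hs => ?_).fin
      (Int.mem IntF.id (IntF.const _)) |>.subset fun s hs => (mem_sep
        (Int.mem IntF.id (IntF.const _))).2 hs
    rw [mem_inter, h2, h4] at hs
    obtain ⟨⟨h5, x, h6, h7⟩, -, y, h8, h9⟩ := hs
    refine ⟨x, ?_, h7⟩
    rw [mem_inter]
    refine ⟨h6, ?_⟩
    rw [hu x y s h5 h7 h9]
    exact h8
  · rintro j U ⟨B, h1, h2⟩ hU
    have h3 : FinP N (fun x : κ => ∃ s, s ∈ U ∧ (D₀ s ∧ W (x, s))) := by
      refine FinP.bUnion (P := fun s : σ => s ∈ U) (R := fun q : σ × κ => D₀ q.1 ∧ W (q.2, q.1))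
        ⟨U, hU, fun _ h => h⟩ (by (repeat' (first | with_reducible exact IntF.id | with_reducible exact IntF.fst' | with_reducible exact IntF.snd' | with_reducible exact IntF.const _ | with_reducible exact Int.const _ | assumption | with_reducible apply Int.and | with_reducible apply Int.or | with_reducible apply Int.not | with_reducible apply Int.imp | with_reducible apply Int.iff | with_reducible apply Int.ne | with_reducible apply Int.eq | with_reducible apply Int.mem | with_reducible apply Int.subset | with_reducible apply Int.ltN | with_reducible apply Int.leN | with_reducible_and_instances apply Int.le | with_reducible_and_instances apply Int.lt | with_reducible apply Int.all | with_reducible apply Int.ex | with_reducible apply IntF.fst | with_reducible apply IntF.snd | with_reducible apply IntF.app | with_reducible apply IntF.inl | with_reducible apply IntF.inr | with_reducible_and_instances apply IntF.mul | with_reducible_and_instances apply IntF.inv | with_reducible_and_instances apply IntF.add | with_reducible_and_instances apply IntF.sub | with_reducible_and_instances apply IntF.neg | with_reducible_and_instances apply IntF.smul | with_reducible apply Int.fin | with_reducible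 apply IntF.sep | with_reducible apply IntF.lam | with_reducible apply IntF.insert | with_reducible apply IntF.singleton | with_reducible apply IntF.union | with_reducible apply IntF.iimage | with_reducible apply IntF.ite | with_reducible apply IntF.the | with_reducible apply IntF.irec | with_reducible apply IntF.succ | with_reducible apply IntF.val | with_reducible apply IntF.mk | (with_reducible refine Int.comp ?_ ?_; assumption) | (with_reducible refine Int.comp₂ ?_ ?_ ?_; assumption) | (with_reducible refine Int.comp₃ ?_ ?_ ?_ ?_; assumption) | (with_reducible refine Int.comp₄ ?_ ?_ ?_ ?_ ?_; assumption) | (with_reducible refine IntF.comp ?_ ?_; assumption) | (with_reducible refine IntF.comp₂ ?_ ?_ ?_; assumption) | (with_reducible refine IntF.comp₃ ?_ ?_ ?_ ?_; assumption) | with_reducible apply IntF.pair))) (by (repeat' (first | with_reducible exact IntF.id | with_reducible exact IntF.fst' | with_reducible exact IntF.snd' | with_reducible exact IntF.const _ | with_reducible exact Int.const _ | assumption | with_reducible apply Int.and | with_reducible apply Int.or | with_reducible apply Int.not | with_reducible apply Int.imp | with_reducible apply Int.iff | with_reducible apply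 Int.ne | with_reducible apply Int.eq | with_reducible apply Int.mem | with_reducible apply Int.subset | with_reducible apply Int.ltN | with_reducible apply Int.leN | with_reducible_and_instances apply Int.le | with_reducible_and_instances apply Int.lt | with_reducible apply Int.all | with_reducible apply Int.ex | with_reducible apply IntF.fst | with_reducible apply IntF.snd | with_reducible apply IntF.app | with_reducible apply IntF.inl | with_reducible apply IntF.inr | with_reducible_and_instances apply IntF.mul | with_reducible_and_instances apply IntF.inv | with_reducible_and_instances apply IntF.add | with_reducible_and_instances apply IntF.sub | with_reducible_and_instances apply IntF.neg | with_reducible_and_instances apply IntF.smul | with_reducible apply Int.fin | with_reducible apply IntF.sep | with_reducible apply IntF.lam | with_reducible apply IntF.insert | with_reducible apply IntF.singleton | with_reducible apply IntF.union | with_reducible apply IntF.iimage | with_reducible apply IntF.ite | with_reducible apply IntF.the | with_reducible apply IntF.irec | with_reducible apply IntF.succ | with_reducible apply IntF.val | with_reducible apply IntF.mk | (with_reducible refine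 Int.comp ?_ ?_; assumption) | (with_reducible refine Int.comp₂ ?_ ?_ ?_; assumption) | (with_reducible refine Int.comp₃ ?_ ?_ ?_ ?_; assumption) | (with_reducible refine Int.comp₄ ?_ ?_ ?_ ?_ ?_; assumption) | (with_reducible refine IntF.comp ?_ ?_; assumption) | (with_reducible refine IntF.comp₂ ?_ ?_ ?_; assumption) | (with_reducible refine IntF.comp₃ ?_ ?_ ?_ ?_; assumption) | with_reducible apply IntF.pair))) fun s hs => ?_
      obtain ⟨h4, x, h5, h6⟩ := (h2 s).1 hs
      exact (FinP.eq x).mono fun y hy => hu y x s h4 hy.2 h6
    refine h.inf j B h1 ?_
    refine (((h3.or (hK j B h1)).mono (p := fun x => x ∈ B) fun x hx => ?_).fin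
      (Int.mem IntF.id (IntF.const _))).subset fun s hs => (mem_sep
        (Int.mem IntF.id (IntF.const _))).2 hs
    by_cases h4 : ∃ s, D₀ s ∧ W (x, s)
    · obtain ⟨s, h5, h6⟩ := h4
      exact Or.inl ⟨s, (h2 s).2 ⟨h5, x, hx, h6⟩, h5, h6⟩
    · exact Or.inr ⟨hx, h4⟩

/-- Every infinite set contains an almost disjoint sequence. -/
def CelQ (N κ : Type u) [L.Structure N] [IsModel N] [ITy N κ] : Prop :=
  ∀ K : κ → Prop, Int N K → ¬ FinP N K → ∃ V, ADQ N κ V ∧ ∀ j B, V (j, B) →
    FinP N (fun x => x ∈ B ∧ ¬ K x)

/-- Infinite types without almost disjoint sequences are bad. -/
theorem nb_of' (hκ : CelQ N κ) (hσ : ¬ ∃ V, ADQ N σ V)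
    (hi : ¬ FinP N (fun _ : σ => True)) : Nb N σ κ where
  inf := hi
  nat := nat_of fun ⟨V, hV⟩ => hσ (adq_of_ads hV)
  nom := by
    intro D W hD hW h1 h2 h3
    by_contra hDf
    have hK : Int N (fun x : κ => ∃ s, D s ∧ W (x, s)) := by (repeat' (first | with_reducible exact IntF.id | with_reducible exact IntF.fst' | with_reducible exact IntF.snd' | with_reducible exact IntF.const _ | with_reducible exact Int.const _ | assumption | with_reducible apply Int.and | with_reducible apply Int.or | with_reducible apply Int.not | with_reducible apply Int.imp | with_reducible apply Int.iff | with_reducible apply Int.ne | with_reducible apply Int.eq | with_reducible apply Int.mem | with_reducible apply Int.subset | with_reducible apply Int.ltN | with_reducible apply Int.leN | with_reducible_and_instances apply Int.le | with_reducible_and_instances apply Int.lt | with_reducible apply Int.all | with_reducible apply Int.ex | with_reducible apply IntF.fst | with_reducible apply IntF.snd | with_reducible apply IntF.app | with_reducible apply IntF.inl | with_reducible apply IntF.inr | with_reducible_and_instances apply IntF.mul | with_reducible_and_instances apply IntF.inv | with_reducible_and_instances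 apply IntF.add | with_reducible_and_instances apply IntF.sub | with_reducible_and_instances apply IntF.neg | with_reducible_and_instances apply IntF.smul | with_reducible apply Int.fin | with_reducible apply IntF.sep | with_reducible apply IntF.lam | with_reducible apply IntF.insert | with_reducible apply IntF.singleton | with_reducible apply IntF.union | with_reducible apply IntF.iimage | with_reducible apply IntF.ite | with_reducible apply IntF.the | with_reducible apply IntF.irec | with_reducible apply IntF.succ | with_reducible apply IntF.val | with_reducible apply IntF.mk | (with_reducible refine Int.comp ?_ ?_; assumption) | (with_reducible refine Int.comp₂ ?_ ?_ ?_; assumption) | (with_reducible refine Int.comp₃ ?_ ?_ ?_ ?_; assumption) | (with_reducible refine Int.comp₄ ?_ ?_ ?_ ?_ ?_; assumption) | (with_reducible refine IntF.comp ?_ ?_; assumption) | (with_reducible refine IntF.comp₂ ?_ ?_ ?_; assumption) | (with_reducible refine IntF.comp₃ ?_ ?_ ?_ ?_; assumption) | with_reducible apply IntF.pair))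
    have hKi : ¬ FinP N (fun x : κ => ∃ s, D s ∧ W (x, s)) := by
      intro h4
      refine hDf ((FinP.bUnion h4 hK hW fun x _ => h3 x).mono fun s hs => ?_)
      obtain ⟨x, hx⟩ := h1 s hs
      exact ⟨x, ⟨s, hs, hx⟩, hx⟩
    obtain ⟨V, hV, hCK⟩ := hκ _ hK hKi
    exact hσ (hV.pull hD hW h2 h3 hCK)

end

section

attribute [local instance] Helper672.Plain.toL

variable {N : Type u} [LSet.Structure N] [hZ : Helper672.Plain.Zermelo N]

local instance instModelTr7 : IsModel N := Helper672.Plain.isModel_toL

variable {α : Type u} [ITy N α]

/-- The sequence of the filterbases. -/
def RV (V : INat N × IPow N α → Prop) (q : IPow N α × INat N) : Prop :=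
  ∃ B, V (q.2, B) ∧ IFin (q.1 \ B) ∧ IFin (B \ q.1)

theorem int_RV {V : INat N × IPow N α → Prop} (hV : Int N V) : Int N (RV V) := by
  unfold RV
  refine Int.ex (Int.and (by (repeat' (first | with_reducible exact IntF.id | with_reducible exact IntF.fst' | with_reducible exact IntF.snd' | with_reducible exact IntF.const _ | with_reducible exact Int.const _ | assumption | with_reducible apply Int.and | with_reducible apply Int.or | with_reducible apply Int.not | with_reducible apply Int.imp | with_reducible apply Int.iff | with_reducible apply Int.ne | with_reducible apply Int.eq | with_reducible apply Int.mem | with_reducible apply Int.subset | with_reducible apply Int.ltN | with_reducible apply Int.leN | with_reducible_and_instances apply Int.le | with_reducible_and_instances apply Int.lt | with_reducible apply Int.all | with_reducible apply Int.ex | with_reducible apply IntF.fst | with_reducible apply IntF.snd | with_reducible apply IntF.app | with_reducible apply IntF.inl | with_reducible apply IntF.inr | with_reducible_and_instances apply IntF.mul | with_reducible_and_instances apply IntF.inv | with_reducible_and_instances apply IntF.add | with_reducible_and_instances apply IntF.sub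 | with_reducible_and_instances apply IntF.neg | with_reducible_and_instances apply IntF.smul | with_reducible apply Int.fin | with_reducible apply IntF.sep | with_reducible apply IntF.lam | with_reducible apply IntF.insert | with_reducible apply IntF.singleton | with_reducible apply IntF.union | with_reducible apply IntF.iimage | with_reducible apply IntF.ite | with_reducible apply IntF.the | with_reducible apply IntF.irec | with_reducible apply IntF.succ | with_reducible apply IntF.val | with_reducible apply IntF.mk | (with_reducible refine Int.comp ?_ ?_; assumption) | (with_reducible refine Int.comp₂ ?_ ?_ ?_; assumption) | (with_reducible refine Int.comp₃ ?_ ?_ ?_ ?_; assumption) | (with_reducible refine Int.comp₄ ?_ ?_ ?_ ?_ ?_; assumption) | (with_reducible refine IntF.comp ?_ ?_; assumption) | (with_reducible refine IntF.comp₂ ?_ ?_ ?_; assumption) | (with_reducible refine IntF.comp₃ ?_ ?_ ?_ ?_; assumption) | with_reducible apply IntF.pair))) (Int.and (Int.fin (IntF.sdiff ?_ ?_))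
    (Int.fin (IntF.sdiff ?_ ?_)))) <;> (repeat' (first | with_reducible exact IntF.id | with_reducible exact IntF.fst' | with_reducible exact IntF.snd' | with_reducible exact IntF.const _ | with_reducible exact Int.const _ | assumption | with_reducible apply Int.and | with_reducible apply Int.or | with_reducible apply Int.not | with_reducible apply Int.imp | with_reducible apply Int.iff | with_reducible apply Int.ne | with_reducible apply Int.eq | with_reducible apply Int.mem | with_reducible apply Int.subset | with_reducible apply Int.ltN | with_reducible apply Int.leN | with_reducible_and_instances apply Int.le | with_reducible_and_instances apply Int.lt | with_reducible apply Int.all | with_reducible apply Int.ex | with_reducible apply IntF.fst | with_reducible apply IntF.snd | with_reducible apply IntF.app | with_reducible apply IntF.inl | with_reducible apply IntF.inr | with_reducible_and_instances apply IntF.mul | with_reducible_and_instances apply IntF.inv | with_reducible_and_instances apply IntF.add | with_reducible_and_instances apply IntF.sub | with_reducible_and_instances apply IntF.neg | with_reducible_and_instances apply IntF.smul | with_reducible apply Int.fin | with_reducible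 apply IntF.sep | with_reducible apply IntF.lam | with_reducible apply IntF.insert | with_reducible apply IntF.singleton | with_reducible apply IntF.union | with_reducible apply IntF.iimage | with_reducible apply IntF.ite | with_reducible apply IntF.the | with_reducible apply IntF.irec | with_reducible apply IntF.succ | with_reducible apply IntF.val | with_reducible apply IntF.mk | (with_reducible refine Int.comp ?_ ?_; assumption) | (with_reducible refine Int.comp₂ ?_ ?_ ?_; assumption) | (with_reducible refine Int.comp₃ ?_ ?_ ?_ ?_; assumption) | (with_reducible refine Int.comp₄ ?_ ?_ ?_ ?_ ?_; assumption) | (with_reducible refine IntF.comp ?_ ?_; assumption) | (with_reducible refine IntF.comp₂ ?_ ?_ ?_; assumption) | (with_reducible refine IntF.comp₃ ?_ ?_ ?_ ?_; assumption) | with_reducible apply IntF.pair))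

variable {V : INat N × IPow N α → Prop} (h : ADQ N α V)

include h

theorem ADQ.c2 (U U' : IPow N α) (i : INat N) (h1 : RV V (U, i)) (h2 : RV V (U', i)) :
    IFin (U \ U') := by
  obtain ⟨B, h3, h4, h5⟩ := h1
  obtain ⟨B', h6, h7, h8⟩ := h2
  exact fin_tri h4 (fin_tri (h.eq i B B' h3 h6) h8)

theorem ADQ.c4 (U : IPow N α) (i : INat N) (h1 : RV V (U, i)) : ¬ IFin U := by
  obtain ⟨B, h3, h4, h5⟩ := h1
  intro hU
  refine h.inf i B h3 ((h5.union hU).subset fun x hx => ?_)
  rw [mem_union, mem_sdiff]
  tauto

theorem ADQ.c5 (U U' : IPow N α) (i j : INat N) (hij : i ≠ j) (h1 : RV V (U, i))
    (h2 : RV V (U', j)) : IFin (U ∩ U') := by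
  obtain ⟨B, h3, h4, h5⟩ := h1
  obtain ⟨B', h6, h7, h8⟩ := h2
  refine ((h4.union h7).union (h.dis i j B B' hij h3 h6)).subset fun x hx => ?_
  rw [mem_inter] at hx
  rw [mem_union, mem_union, mem_sdiff, mem_sdiff, mem_inter]
  tauto

theorem ADQ.modd (i : INat N) : Modd (sep N fun U : IPow N α => RV V (U, i)) := by
  have hR := int_RV h.int
  have hI : Int N (fun U : IPow N α => RV V (U, i)) := by (repeat' (first | with_reducible exact IntF.id | with_reducible exact IntF.fst' | with_reducible exact IntF.snd' | with_reducible exact IntF.const _ | with_reducible exact Int.const _ | assumption | with_reducible apply Int.and | with_reducible apply Int.or | with_reducible apply Int.not | with_reducible apply Int.imp | with_reducible apply Int.iff | with_reducible apply Int.ne | with_reducible apply Int.eq | with_reducible apply Int.mem | with_reducible apply Int.subset | with_reducible apply Int.ltN | with_reducible apply Int.leN | with_reducible_and_instances apply Int.le | with_reducible_and_instances apply Int.lt | with_reducible apply Int.all | with_reducible apply Int.ex | with_reducible apply IntF.fst | with_reducible apply IntF.snd | with_reducible apply IntF.app | with_reducible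 apply IntF.inl | with_reducible apply IntF.inr | with_reducible_and_instances apply IntF.mul | with_reducible_and_instances apply IntF.inv | with_reducible_and_instances apply IntF.add | with_reducible_and_instances apply IntF.sub | with_reducible_and_instances apply IntF.neg | with_reducible_and_instances apply IntF.smul | with_reducible apply Int.fin | with_reducible apply IntF.sep | with_reducible apply IntF.lam | with_reducible apply IntF.insert | with_reducible apply IntF.singleton | with_reducible apply IntF.union | with_reducible apply IntF.iimage | with_reducible apply IntF.ite | with_reducible apply IntF.the | with_reducible apply IntF.irec | with_reducible apply IntF.succ | with_reducible apply IntF.val | with_reducible apply IntF.mk | (with_reducible refine Int.comp ?_ ?_; assumption) | (with_reducible refine Int.comp₂ ?_ ?_ ?_; assumption) | (with_reducible refine Int.comp₃ ?_ ?_ ?_ ?_; assumption) | (with_reducible refine Int.comp₄ ?_ ?_ ?_ ?_ ?_; assumption) | (with_reducible refine IntF.comp ?_ ?_; assumption) | (with_reducible refine IntF.comp₂ ?_ ?_ ?_; assumption) | (with_reducible refine IntF.comp₃ ?_ ?_ ?_ ?_; assumption) | with_reducible apply IntF.pair))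
  refine ⟨?_, ?_, ?_, ?_, ?_⟩
  · obtain ⟨U, hU⟩ := h.ne i
    refine ⟨U, (mem_sep hI).2 ⟨U, hU, ?_, ?_⟩⟩ <;>
    · refine IFin.empty.subset fun x hx => ?_
      rw [mem_sdiff] at hx
      exact absurd hx.1 hx.2
  · intro U U' hU hU'
    rw [mem_sep hI] at hU hU' ⊢
    obtain ⟨B, h3, h4, h5⟩ := hU
    obtain ⟨B', h6, h7, h8⟩ := hU'
    refine ⟨B, h3, (h4.union (fin_tri h7 (h.eq i B' B h6 h3))).subset fun x hx => ?_,
      h5.subset fun x hx => ?_⟩
    · rw [mem_sdiff, mem_union] at hx
      rw [mem_union, mem_sdiff, mem_sdiff]
      tauto
    · rw [mem_sdiff, mem_union] at hx
      rw [mem_sdiff]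
      tauto
  · intro U U' hU hU'
    rw [mem_sep hI] at hU hU' ⊢
    obtain ⟨B, h3, h4, h5⟩ := hU
    obtain ⟨B', h6, h7, h8⟩ := hU'
    refine ⟨B, h3, h4.subset fun x hx => ?_,
      (h5.union (fin_tri (h.eq i B B' h3 h6) h8)).subset fun x hx => ?_⟩
    · rw [mem_sdiff, mem_inter] at hx
      rw [mem_sdiff]
      tauto
    · rw [mem_sdiff, mem_inter] at hx
      rw [mem_union, mem_sdiff, mem_sdiff]
      tauto
  · intro U hU
    exact h.c4 U i ((mem_sep hI).1 hU)
  · intro U U' hU hU'
    exact h.c2 U U' i ((mem_sep hI).1 hU) ((mem_sep hI).1 hU')

theorem ADQ.c1 (i : INat N) : ∃ U, RV V (U, i) := by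
  obtain ⟨U, hU⟩ := h.ne i
  refine ⟨U, U, hU, ?_, ?_⟩ <;>
  · refine IFin.empty.subset fun x hx => ?_
    rw [mem_sdiff] at hx
    exact absurd hx.1 hx.2

theorem ADQ.strongly : StronglyFilterbaseInfinite (dom N α) := by
  have hR := int_RV h.int
  have hF : IntF N (fun i : INat N => sep N fun U : IPow N α => RV V (U, i)) := by (repeat' (first | with_reducible exact IntF.id | with_reducible exact IntF.fst' | with_reducible exact IntF.snd' | with_reducible exact IntF.const _ | with_reducible exact Int.const _ | assumption | with_reducible apply Int.and | with_reducible apply Int.or | with_reducible apply Int.not | with_reducible apply Int.imp | with_reducible apply Int.iff | with_reducible apply Int.ne | with_reducible apply Int.eq | with_reducible apply Int.mem | with_reducible apply Int.subset | with_reducible apply Int.ltN | with_reducible apply Int.leN | with_reducible_and_instances apply Int.le | with_reducible_and_instances apply Int.lt | with_reducible apply Int.all | with_reducible apply Int.ex | with_reducible apply IntF.fst | with_reducible apply IntF.snd | with_reducible apply IntF.app | with_reducible apply IntF.inl | with_reducible apply IntF.inr | with_reducible_and_instances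 apply IntF.mul | with_reducible_and_instances apply IntF.inv | with_reducible_and_instances apply IntF.add | with_reducible_and_instances apply IntF.sub | with_reducible_and_instances apply IntF.neg | with_reducible_and_instances apply IntF.smul | with_reducible apply Int.fin | with_reducible apply IntF.sep | with_reducible apply IntF.lam | with_reducible apply IntF.insert | with_reducible apply IntF.singleton | with_reducible apply IntF.union | with_reducible apply IntF.iimage | with_reducible apply IntF.ite | with_reducible apply IntF.the | with_reducible apply IntF.irec | with_reducible apply IntF.succ | with_reducible apply IntF.val | with_reducible apply IntF.mk | (with_reducible refine Int.comp ?_ ?_; assumption) | (with_reducible refine Int.comp₂ ?_ ?_ ?_; assumption) | (with_reducible refine Int.comp₃ ?_ ?_ ?_ ?_; assumption) | (with_reducible refine Int.comp₄ ?_ ?_ ?_ ?_ ?_; assumption) | (with_reducible refine IntF.comp ?_ ?_; assumption) | (with_reducible refine IntF.comp₂ ?_ ?_ ?_; assumption) | (with_reducible refine IntF.comp₃ ?_ ?_ ?_ ?_; assumption) | with_reducible apply IntF.pair))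
  have hI : ∀ i, Int N (fun U : IPow N α => RV V (U, i)) := by
    intro i
    (repeat' (first | with_reducible exact IntF.id | with_reducible exact IntF.fst' | with_reducible exact IntF.snd' | with_reducible exact IntF.const _ | with_reducible exact Int.const _ | assumption | with_reducible apply Int.and | with_reducible apply Int.or | with_reducible apply Int.not | with_reducible apply Int.imp | with_reducible apply Int.iff | with_reducible apply Int.ne | with_reducible apply Int.eq | with_reducible apply Int.mem | with_reducible apply Int.subset | with_reducible apply Int.ltN | with_reducible apply Int.leN | with_reducible_and_instances apply Int.le | with_reducible_and_instances apply Int.lt | with_reducible apply Int.all | with_reducible apply Int.ex | with_reducible apply IntF.fst | with_reducible apply IntF.snd | with_reducible apply IntF.app | with_reducible apply IntF.inl | with_reducible apply IntF.inr | with_reducible_and_instances apply IntF.mul | with_reducible_and_instances apply IntF.inv | with_reducible_and_instances apply IntF.add | with_reducible_and_instances apply IntF.sub | with_reducible_and_instances apply IntF.neg | with_reducible_and_instances apply IntF.smul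 | with_reducible apply Int.fin | with_reducible apply IntF.sep | with_reducible apply IntF.lam | with_reducible apply IntF.insert | with_reducible apply IntF.singleton | with_reducible apply IntF.union | with_reducible apply IntF.iimage | with_reducible apply IntF.ite | with_reducible apply IntF.the | with_reducible apply IntF.irec | with_reducible apply IntF.succ | with_reducible apply IntF.val | with_reducible apply IntF.mk | (with_reducible refine Int.comp ?_ ?_; assumption) | (with_reducible refine Int.comp₂ ?_ ?_ ?_; assumption) | (with_reducible refine Int.comp₃ ?_ ?_ ?_ ?_; assumption) | (with_reducible refine Int.comp₄ ?_ ?_ ?_ ?_ ?_; assumption) | (with_reducible refine IntF.comp ?_ ?_; assumption) | (with_reducible refine IntF.comp₂ ?_ ?_ ?_; assumption) | (with_reducible refine IntF.comp₃ ?_ ?_ ?_ ?_; assumption) | with_reducible apply IntF.pair))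
  refine ⟨_, isSeq_relc hF, ?_, ?_, ?_⟩
  · intro n v hv
    obtain ⟨i, rfl, rfl⟩ := (app_relcF hF).1 hv
    exact isMod_of (h.modd i)
  · intro m n v v' hv hv' hmn
    obtain ⟨i, rfl, rfl⟩ := (app_relcF hF).1 hv
    obtain ⟨j, rfl, rfl⟩ := (app_relcF hF).1 hv'
    obtain ⟨U, hU⟩ := h.c1 i
    obtain ⟨U', hU'⟩ := h.c1 j
    exact ⟨code U, code U', code (U ∩ U'), mem_codeM.2 ((mem_sep (hI i)).2 hU),
      mem_codeM.2 ((mem_sep (hI j)).2 hU'), isInter_code.2 rfl,
      isFinite_of_fin (h.c5 U U' i j (fun e => hmn (by rw [e])) hU hU')⟩
  · intro n g s hn hg hgv b hb hbf
    obtain ⟨n, rfl⟩ := natB.1 hn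
    obtain ⟨B, rfl⟩ := subs_code (α := α) (u := b) fun z hz => ((hb z).1 hz).1
    have hB := fin_of_isFinite hbf
    obtain ⟨e, he⟩ := h.c1 n
    have hA := int_app2 (α := α) g
    have hP : Int N (fun q : INat N × α => q.2 ∈ e ∧ ∃ U : IPow N α, App g (code q.1) (code U) ∧
        q.2 ∈ U) := by
      refine Int.and (by (repeat' (first | with_reducible exact IntF.id | with_reducible exact IntF.fst' | with_reducible exact IntF.snd' | with_reducible exact IntF.const _ | with_reducible exact Int.const _ | assumption | with_reducible apply Int.and | with_reducible apply Int.or | with_reducible apply Int.not | with_reducible apply Int.imp | with_reducible apply Int.iff | with_reducible apply Int.ne | with_reducible apply Int.eq | with_reducible apply Int.mem | with_reducible apply Int.subset | with_reducible apply Int.ltN | with_reducible apply Int.leN | with_reducible_and_instances apply Int.le | with_reducible_and_instances apply Int.lt | with_reducible apply Int.all | with_reducible apply Int.ex | with_reducible apply IntF.fst | with_reducible apply IntF.snd | with_reducible apply IntF.app | with_reducible apply IntF.inl | with_reducible apply IntF.inr | with_reducible_and_instances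 apply IntF.mul | with_reducible_and_instances apply IntF.inv | with_reducible_and_instances apply IntF.add | with_reducible_and_instances apply IntF.sub | with_reducible_and_instances apply IntF.neg | with_reducible_and_instances apply IntF.smul | with_reducible apply Int.fin | with_reducible apply IntF.sep | with_reducible apply IntF.lam | with_reducible apply IntF.insert | with_reducible apply IntF.singleton | with_reducible apply IntF.union | with_reducible apply IntF.iimage | with_reducible apply IntF.ite | with_reducible apply IntF.the | with_reducible apply IntF.irec | with_reducible apply IntF.succ | with_reducible apply IntF.val | with_reducible apply IntF.mk | (with_reducible refine Int.comp ?_ ?_; assumption) | (with_reducible refine Int.comp₂ ?_ ?_ ?_; assumption) | (with_reducible refine Int.comp₃ ?_ ?_ ?_ ?_; assumption) | (with_reducible refine Int.comp₄ ?_ ?_ ?_ ?_ ?_; assumption) | (with_reducible refine IntF.comp ?_ ?_; assumption) | (with_reducible refine IntF.comp₂ ?_ ?_ ?_; assumption) | (with_reducible refine IntF.comp₃ ?_ ?_ ?_ ?_; assumption) | with_reducible apply IntF.pair))) (Int.ex (Int.and ?_ (by (repeat' (first | with_reducible exact IntF.id | with_reducible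 exact IntF.fst' | with_reducible exact IntF.snd' | with_reducible exact IntF.const _ | with_reducible exact Int.const _ | assumption | with_reducible apply Int.and | with_reducible apply Int.or | with_reducible apply Int.not | with_reducible apply Int.imp | with_reducible apply Int.iff | with_reducible apply Int.ne | with_reducible apply Int.eq | with_reducible apply Int.mem | with_reducible apply Int.subset | with_reducible apply Int.ltN | with_reducible apply Int.leN | with_reducible_and_instances apply Int.le | with_reducible_and_instances apply Int.lt | with_reducible apply Int.all | with_reducible apply Int.ex | with_reducible apply IntF.fst | with_reducible apply IntF.snd | with_reducible apply IntF.app | with_reducible apply IntF.inl | with_reducible apply IntF.inr | with_reducible_and_instances apply IntF.mul | with_reducible_and_instances apply IntF.inv | with_reducible_and_instances apply IntF.add | with_reducible_and_instances apply IntF.sub | with_reducible_and_instances apply IntF.neg | with_reducible_and_instances apply IntF.smul | with_reducible apply Int.fin | with_reducible apply IntF.sep | with_reducible apply IntF.lam | with_reducible apply IntF.insert | with_reducible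 apply IntF.singleton | with_reducible apply IntF.union | with_reducible apply IntF.iimage | with_reducible apply IntF.ite | with_reducible apply IntF.the | with_reducible apply IntF.irec | with_reducible apply IntF.succ | with_reducible apply IntF.val | with_reducible apply IntF.mk | (with_reducible refine Int.comp ?_ ?_; assumption) | (with_reducible refine Int.comp₂ ?_ ?_ ?_; assumption) | (with_reducible refine Int.comp₃ ?_ ?_ ?_ ?_; assumption) | (with_reducible refine Int.comp₄ ?_ ?_ ?_ ?_ ?_; assumption) | (with_reducible refine IntF.comp ?_ ?_; assumption) | (with_reducible refine IntF.comp₂ ?_ ?_ ?_; assumption) | (with_reducible refine IntF.comp₃ ?_ ?_ ?_ ?_; assumption) | with_reducible apply IntF.pair)))))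
      exact Int.comp (p := fun q : INat N × IPow N α => App g (code q.1) (code q.2))
        (f := fun q : (INat N × α) × IPow N α => (q.1.1, q.2)) hA (by (repeat' (first | with_reducible exact IntF.id | with_reducible exact IntF.fst' | with_reducible exact IntF.snd' | with_reducible exact IntF.const _ | with_reducible exact Int.const _ | assumption | with_reducible apply Int.and | with_reducible apply Int.or | with_reducible apply Int.not | with_reducible apply Int.imp | with_reducible apply Int.iff | with_reducible apply Int.ne | with_reducible apply Int.eq | with_reducible apply Int.mem | with_reducible apply Int.subset | with_reducible apply Int.ltN | with_reducible apply Int.leN | with_reducible_and_instances apply Int.le | with_reducible_and_instances apply Int.lt | with_reducible apply Int.all | with_reducible apply Int.ex | with_reducible apply IntF.fst | with_reducible apply IntF.snd | with_reducible apply IntF.app | with_reducible apply IntF.inl | with_reducible apply IntF.inr | with_reducible_and_instances apply IntF.mul | with_reducible_and_instances apply IntF.inv | with_reducible_and_instances apply IntF.add | with_reducible_and_instances apply IntF.sub | with_reducible_and_instances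 apply IntF.neg | with_reducible_and_instances apply IntF.smul | with_reducible apply Int.fin | with_reducible apply IntF.sep | with_reducible apply IntF.lam | with_reducible apply IntF.insert | with_reducible apply IntF.singleton | with_reducible apply IntF.union | with_reducible apply IntF.iimage | with_reducible apply IntF.ite | with_reducible apply IntF.the | with_reducible apply IntF.irec | with_reducible apply IntF.succ | with_reducible apply IntF.val | with_reducible apply IntF.mk | (with_reducible refine Int.comp ?_ ?_; assumption) | (with_reducible refine Int.comp₂ ?_ ?_ ?_; assumption) | (with_reducible refine Int.comp₃ ?_ ?_ ?_ ?_; assumption) | (with_reducible refine Int.comp₄ ?_ ?_ ?_ ?_ ?_; assumption) | (with_reducible refine IntF.comp ?_ ?_; assumption) | (with_reducible refine IntF.comp₂ ?_ ?_ ?_; assumption) | (with_reducible refine IntF.comp₃ ?_ ?_ ?_ ?_; assumption) | with_reducible apply IntF.pair)))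
    -- the values of `g`
    have hgU : ∀ i : INat N, i < n → ∃ U : IPow N α, RV V (U, i) ∧ App g (code i) (code U) ∧
        ∀ V : IPow N α, App g (code i) (code V) → V = U := by
      intro i hi
      obtain ⟨u, hu, huu⟩ := hg.2 (code i) hi
      have h1 := hgv (code i) u _ hu ((app_relcF hF).2 ⟨i, rfl, rfl⟩)
      obtain ⟨U, hU, rfl⟩ := mem_codeB.1 h1
      exact ⟨U, (mem_sep (hI i)).1 hU, hu, fun V hV => ITy.inj (huu _ hV)⟩
    have hfin := fin_union_lt hP n fun i hi => by
      obtain ⟨U, hU, -, hu⟩ := hgU i hi
      refine (h.c5 e U n i (fun e => ?_) he hU).subset fun x hx => ?_
      · rw [e] at hi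
        exact lt_irrefl _ hi
      · have hx' := (mem_sep (Int.comp (p := fun q : INat N × α => q.2 ∈ e ∧
          ∃ U : IPow N α, App g (code q.1) (code U) ∧ q.2 ∈ U) (f := fun x : α => (i, x)) hP
          (by (repeat' (first | with_reducible exact IntF.id | with_reducible exact IntF.fst' | with_reducible exact IntF.snd' | with_reducible exact IntF.const _ | with_reducible exact Int.const _ | assumption | with_reducible apply Int.and | with_reducible apply Int.or | with_reducible apply Int.not | with_reducible apply Int.imp | with_reducible apply Int.iff | with_reducible apply Int.ne | with_reducible apply Int.eq | with_reducible apply Int.mem | with_reducible apply Int.subset | with_reducible apply Int.ltN | with_reducible apply Int.leN | with_reducible_and_instances apply Int.le | with_reducible_and_instances apply Int.lt | with_reducible apply Int.all | with_reducible apply Int.ex | with_reducible apply IntF.fst | with_reducible apply IntF.snd | with_reducible apply IntF.app | with_reducible apply IntF.inl | with_reducible apply IntF.inr | with_reducible_and_instances apply IntF.mul | with_reducible_and_instances apply IntF.inv | with_reducible_and_instances apply IntF.add | with_reducible_and_instances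 apply IntF.sub | with_reducible_and_instances apply IntF.neg | with_reducible_and_instances apply IntF.smul | with_reducible apply Int.fin | with_reducible apply IntF.sep | with_reducible apply IntF.lam | with_reducible apply IntF.insert | with_reducible apply IntF.singleton | with_reducible apply IntF.union | with_reducible apply IntF.iimage | with_reducible apply IntF.ite | with_reducible apply IntF.the | with_reducible apply IntF.irec | with_reducible apply IntF.succ | with_reducible apply IntF.val | with_reducible apply IntF.mk | (with_reducible refine Int.comp ?_ ?_; assumption) | (with_reducible refine Int.comp₂ ?_ ?_ ?_; assumption) | (with_reducible refine Int.comp₃ ?_ ?_ ?_ ?_; assumption) | (with_reducible refine Int.comp₄ ?_ ?_ ?_ ?_ ?_; assumption) | (with_reducible refine IntF.comp ?_ ?_; assumption) | (with_reducible refine IntF.comp₂ ?_ ?_ ?_; assumption) | (with_reducible refine IntF.comp₃ ?_ ?_ ?_ ?_; assumption) | with_reducible apply IntF.pair))))).1 hx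
        obtain ⟨h1, V, hV, hxV⟩ := hx'
        rw [hu V hV] at hxV
        exact mem_inter.2 ⟨h1, hxV⟩
    refine h.c4 e n he ((hB.union hfin).subset fun x hx => ?_)
    rw [mem_union]
    by_cases hxB : x ∈ B
    · exact Or.inl hxB
    · refine Or.inr ((mem_sep ?_).2 ?_)
      · refine Int.ex (Int.and (by (repeat' (first | with_reducible exact IntF.id | with_reducible exact IntF.fst' | with_reducible exact IntF.snd' | with_reducible exact IntF.const _ | with_reducible exact Int.const _ | assumption | with_reducible apply Int.and | with_reducible apply Int.or | with_reducible apply Int.not | with_reducible apply Int.imp | with_reducible apply Int.iff | with_reducible apply Int.ne | with_reducible apply Int.eq | with_reducible apply Int.mem | with_reducible apply Int.subset | with_reducible apply Int.ltN | with_reducible apply Int.leN | with_reducible_and_instances apply Int.le | with_reducible_and_instances apply Int.lt | with_reducible apply Int.all | with_reducible apply Int.ex | with_reducible apply IntF.fst | with_reducible apply IntF.snd | with_reducible apply IntF.app | with_reducible apply IntF.inl | with_reducible apply IntF.inr | with_reducible_and_instances apply IntF.mul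 | with_reducible_and_instances apply IntF.inv | with_reducible_and_instances apply IntF.add | with_reducible_and_instances apply IntF.sub | with_reducible_and_instances apply IntF.neg | with_reducible_and_instances apply IntF.smul | with_reducible apply Int.fin | with_reducible apply IntF.sep | with_reducible apply IntF.lam | with_reducible apply IntF.insert | with_reducible apply IntF.singleton | with_reducible apply IntF.union | with_reducible apply IntF.iimage | with_reducible apply IntF.ite | with_reducible apply IntF.the | with_reducible apply IntF.irec | with_reducible apply IntF.succ | with_reducible apply IntF.val | with_reducible apply IntF.mk | (with_reducible refine Int.comp ?_ ?_; assumption) | (with_reducible refine Int.comp₂ ?_ ?_ ?_; assumption) | (with_reducible refine Int.comp₃ ?_ ?_ ?_ ?_; assumption) | (with_reducible refine Int.comp₄ ?_ ?_ ?_ ?_ ?_; assumption) | (with_reducible refine IntF.comp ?_ ?_; assumption) | (with_reducible refine IntF.comp₂ ?_ ?_ ?_; assumption) | (with_reducible refine IntF.comp₃ ?_ ?_ ?_ ?_; assumption) | with_reducible apply IntF.pair))) ?_)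
        exact Int.comp (p := fun q : INat N × α => q.2 ∈ e ∧
          ∃ U : IPow N α, App g (code q.1) (code U) ∧ q.2 ∈ U)
          (f := fun q : α × INat N => (q.2, q.1)) hP (by (repeat' (first | with_reducible exact IntF.id | with_reducible exact IntF.fst' | with_reducible exact IntF.snd' | with_reducible exact IntF.const _ | with_reducible exact Int.const _ | assumption | with_reducible apply Int.and | with_reducible apply Int.or | with_reducible apply Int.not | with_reducible apply Int.imp | with_reducible apply Int.iff | with_reducible apply Int.ne | with_reducible apply Int.eq | with_reducible apply Int.mem | with_reducible apply Int.subset | with_reducible apply Int.ltN | with_reducible apply Int.leN | with_reducible_and_instances apply Int.le | with_reducible_and_instances apply Int.lt | with_reducible apply Int.all | with_reducible apply Int.ex | with_reducible apply IntF.fst | with_reducible apply IntF.snd | with_reducible apply IntF.app | with_reducible apply IntF.inl | with_reducible apply IntF.inr | with_reducible_and_instances apply IntF.mul | with_reducible_and_instances apply IntF.inv | with_reducible_and_instances apply IntF.add | with_reducible_and_instances apply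 IntF.sub | with_reducible_and_instances apply IntF.neg | with_reducible_and_instances apply IntF.smul | with_reducible apply Int.fin | with_reducible apply IntF.sep | with_reducible apply IntF.lam | with_reducible apply IntF.insert | with_reducible apply IntF.singleton | with_reducible apply IntF.union | with_reducible apply IntF.iimage | with_reducible apply IntF.ite | with_reducible apply IntF.the | with_reducible apply IntF.irec | with_reducible apply IntF.succ | with_reducible apply IntF.val | with_reducible apply IntF.mk | (with_reducible refine Int.comp ?_ ?_; assumption) | (with_reducible refine Int.comp₂ ?_ ?_ ?_; assumption) | (with_reducible refine Int.comp₃ ?_ ?_ ?_ ?_; assumption) | (with_reducible refine Int.comp₄ ?_ ?_ ?_ ?_ ?_; assumption) | (with_reducible refine IntF.comp ?_ ?_; assumption) | (with_reducible refine IntF.comp₂ ?_ ?_ ?_; assumption) | (with_reducible refine IntF.comp₃ ?_ ?_ ?_ ?_; assumption) | with_reducible apply IntF.pair)))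
      · have h1 : ¬ Plain.Mem (code x) (code B) := fun h1 => hxB (mem_codeM.1 h1)
        rw [hb] at h1
        have h2 : ∃ i u, App g i u ∧ Plain.Mem (code x) u := by
          by_contra h2
          exact h1 ⟨code_mem_domP x, h2⟩
        obtain ⟨i, u, hi, hxu⟩ := h2
        obtain ⟨i', y, hi', -, h3⟩ := hg.1 _ (app_iff.1 hi)
        obtain ⟨h4, h5⟩ := op_inj (ordPair_iff.1 h3)
        subst h4
        obtain ⟨k, hk, rfl⟩ := mem_nat (n := n) (z := i) hi'
        obtain ⟨U, hU, hgU', hu⟩ := hgU k hk
        obtain ⟨u', hu', huu⟩ := hg.2 _ hi'
        have h6 : u = code U := (huu _ hi).trans (huu _ hgU').symm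
        rw [h6] at hxu
        exact ⟨k, hk, hx, U, hgU', mem_codeM.1 hxu⟩


omit h in
theorem dy_of (hd : DyadicallyFilterbaseInfinite (dom N α)) :
    ∃ D : (INat N × IPow N (INat N)) × IPow N α → Prop, Dy D := by
  obtain ⟨f, h1, h2, h3, -⟩ := hd
  have hV := int_val2 (α := α) f
  have hval : ∀ (n : INat N) (t : IPow N (INat N)), 0 < n → Sb n t → ∃ V : IPow N (IPow N α),
      Val2 f (code n) (code t) (code V) ∧ Modd V ∧
        ∀ V' : IPow N (IPow N α), Val2 f (code n) (code t) (code V') → V' = V := by
    intro n t hn ht
    obtain ⟨v, hv, hu⟩ := h1 _ _ (isNode_code hn ht)
    obtain ⟨V, rfl, hV⟩ := (h2 _ _ _ (isNode_code hn ht) hv).code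
    exact ⟨V, hv, hV, fun V' hV' => ITy.inj (hu _ hV')⟩
  refine ⟨fun q => ∃ V : IPow N (IPow N α),
    Val2 f (code q.1.1) (code q.1.2) (code V) ∧ q.2 ∈ V, ?_, ?_, ?_, ?_, ?_⟩
  · refine Int.ex (Int.and ?_ (by (repeat' (first | with_reducible exact IntF.id | with_reducible exact IntF.fst' | with_reducible exact IntF.snd' | with_reducible exact IntF.const _ | with_reducible exact Int.const _ | assumption | with_reducible apply Int.and | with_reducible apply Int.or | with_reducible apply Int.not | with_reducible apply Int.imp | with_reducible apply Int.iff | with_reducible apply Int.ne | with_reducible apply Int.eq | with_reducible apply Int.mem | with_reducible apply Int.subset | with_reducible apply Int.ltN | with_reducible apply Int.leN | with_reducible_and_instances apply Int.le | with_reducible_and_instances apply Int.lt | with_reducible apply Int.all | with_reducible apply Int.ex | with_reducible apply IntF.fst | with_reducible apply IntF.snd | with_reducible apply IntF.app | with_reducible apply IntF.inl | with_reducible apply IntF.inr | with_reducible_and_instances apply IntF.mul | with_reducible_and_instances apply IntF.inv | with_reducible_and_instances apply IntF.add | with_reducible_and_instances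 apply IntF.sub | with_reducible_and_instances apply IntF.neg | with_reducible_and_instances apply IntF.smul | with_reducible apply Int.fin | with_reducible apply IntF.sep | with_reducible apply IntF.lam | with_reducible apply IntF.insert | with_reducible apply IntF.singleton | with_reducible apply IntF.union | with_reducible apply IntF.iimage | with_reducible apply IntF.ite | with_reducible apply IntF.the | with_reducible apply IntF.irec | with_reducible apply IntF.succ | with_reducible apply IntF.val | with_reducible apply IntF.mk | (with_reducible refine Int.comp ?_ ?_; assumption) | (with_reducible refine Int.comp₂ ?_ ?_ ?_; assumption) | (with_reducible refine Int.comp₃ ?_ ?_ ?_ ?_; assumption) | (with_reducible refine Int.comp₄ ?_ ?_ ?_ ?_ ?_; assumption) | (with_reducible refine IntF.comp ?_ ?_; assumption) | (with_reducible refine IntF.comp₂ ?_ ?_ ?_; assumption) | (with_reducible refine IntF.comp₃ ?_ ?_ ?_ ?_; assumption) | with_reducible apply IntF.pair))))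
    exact Int.comp (p := fun q : (INat N × IPow N (INat N)) × IPow N (IPow N α) =>
      Val2 f (code q.1.1) (code q.1.2) (code q.2))
      (f := fun q : ((INat N × IPow N (INat N)) × IPow N α) × IPow N (IPow N α) => (q.1.1, q.2))
      hV (by (repeat' (first | with_reducible exact IntF.id | with_reducible exact IntF.fst' | with_reducible exact IntF.snd' | with_reducible exact IntF.const _ | with_reducible exact Int.const _ | assumption | with_reducible apply Int.and | with_reducible apply Int.or | with_reducible apply Int.not | with_reducible apply Int.imp | with_reducible apply Int.iff | with_reducible apply Int.ne | with_reducible apply Int.eq | with_reducible apply Int.mem | with_reducible apply Int.subset | with_reducible apply Int.ltN | with_reducible apply Int.leN | with_reducible_and_instances apply Int.le | with_reducible_and_instances apply Int.lt | with_reducible apply Int.all | with_reducible apply Int.ex | with_reducible apply IntF.fst | with_reducible apply IntF.snd | with_reducible apply IntF.app | with_reducible apply IntF.inl | with_reducible apply IntF.inr | with_reducible_and_instances apply IntF.mul | with_reducible_and_instances apply IntF.inv | with_reducible_and_instances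 apply IntF.add | with_reducible_and_instances apply IntF.sub | with_reducible_and_instances apply IntF.neg | with_reducible_and_instances apply IntF.smul | with_reducible apply Int.fin | with_reducible apply IntF.sep | with_reducible apply IntF.lam | with_reducible apply IntF.insert | with_reducible apply IntF.singleton | with_reducible apply IntF.union | with_reducible apply IntF.iimage | with_reducible apply IntF.ite | with_reducible apply IntF.the | with_reducible apply IntF.irec | with_reducible apply IntF.succ | with_reducible apply IntF.val | with_reducible apply IntF.mk | (with_reducible refine Int.comp ?_ ?_; assumption) | (with_reducible refine Int.comp₂ ?_ ?_ ?_; assumption) | (with_reducible refine Int.comp₃ ?_ ?_ ?_ ?_; assumption) | (with_reducible refine Int.comp₄ ?_ ?_ ?_ ?_ ?_; assumption) | (with_reducible refine IntF.comp ?_ ?_; assumption) | (with_reducible refine IntF.comp₂ ?_ ?_ ?_; assumption) | (with_reducible refine IntF.comp₃ ?_ ?_ ?_ ?_; assumption) | with_reducible apply IntF.pair)))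
  · intro n t hn ht
    obtain ⟨V, h4, h5, -⟩ := hval n t hn ht
    obtain ⟨U, hU⟩ := h5.ne
    exact ⟨U, V, h4, hU⟩
  · rintro n t U hn ht ⟨V', h6, hU⟩
    obtain ⟨V, h4, h5, h7⟩ := hval n t hn ht
    rw [h7 V' h6] at hU
    exact h5.inf U hU
  · rintro n t U U' hn ht ⟨V', h6, hU⟩ ⟨V'', h6', hU'⟩
    obtain ⟨V, h4, h5, h7⟩ := hval n t hn ht
    rw [h7 V' h6] at hU
    rw [h7 V'' h6'] at hU'
    exact h5.diff U U' hU hU'
  · rintro n s t W G hn hs ht hst ⟨V, h4, hW⟩ ⟨V', h5, hG⟩
    obtain ⟨V₀, h6, h7, -⟩ := hval n.succ s (pos_succ n) hs.succ
    obtain ⟨V₁, h8, h9, -⟩ := hval n.succ (insert n s) (pos_succ n) hs.ins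
    obtain ⟨u, u', h10, h11, h12, h13⟩ := h3 _ _ _ _ _ (isNode_code hn hs) (isNode_code hn ht)
      (fun e => hst (ITy.inj e)) (isSucc_code n) (ins_code n s) _ _ h4 h5 _ _ (mem_codeM.2 hW)
      (mem_codeM.2 hG) _ _ h6 h8
    obtain ⟨U, hU, rfl⟩ := mem_codeB.1 h10
    obtain ⟨U', hU', rfl⟩ := mem_codeB.1 h11
    refine ⟨U, U', ⟨V₀, h6, hU⟩, ⟨V₁, h8, hU'⟩, fin_of_isFinite (h12 _ fun z => ?_),
      fin_of_isFinite (h13 _ fun z => ?_)⟩
    · refine ((isDiff_code (w := code ((U ∪ U') \ W))).2 rfl z).trans (and_congr ?_ Iff.rfl)
      exact (isUnion_code (w := code (U ∪ U'))).2 rfl z
    · refine ((isInter_code (w := code ((U ∪ U') ∩ G))).2 rfl z).trans (and_congr ?_ Iff.rfl)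
      exact (isUnion_code (w := code (U ∪ U'))).2 rfl z

end

end Pool.Agent.V11257T
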