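import Pool.Agent.V11257.Tr9
import Pool.Agent.V11257.Tr7

/-!
# Every infinite subset of the first sort contains an almost disjoint sequence
-/

set_option maxHeartbeats 1000000
set_option linter.all false
set_option synthInstance.maxSize 2000

namespace Pool.Agent.V11257T

open FirstOrder FirstOrder.Language
open Pool.Agent.Helper672.ZFA
open Pool.Agent.Helper672.ZFA.H635 (IPerm IsGen NN EqFam CollL nn_ext exists_mk mk_eq_nd)
open Pool.Agent.Helper672.ZFA.H310M
open Pool.Agent.H310

universe u

variable {M : Type u} [L.Structure M] [hM : IsModel M]

theorem not_fin_cell (n : INat M) (z : Dt M) : ¬ FinP M (fun a : Dt M => Eb n a z) := by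
  intro h
  obtain ⟨v, hv⟩ := exists_upd h z n
  exact hv (eb_upd _ _ _)

theorem alm_inf {B : IPow M (Dt M)} {n : INat M} {z : Dt M} (h : alm B n z) :
    ¬ FinP M (fun a : Dt M => a ∈ B) := by
  intro h1
  refine not_fin_cell n z (((alm_iff.1 h).or h1).mono fun a ha => ?_)
  by_cases h2 : a ∈ B
  · exact Or.inr h2
  · exact Or.inl fun h3 => h2 (h3.2 ha)

variable {G : Set (Co M (Xt M))} (hG : IsGen M G) (hC : CollL M)

include hC in
theorem celq_AD : CelQ (Nx hG) (El (AD hG)) := by
  intro K hK hKi
  have hKI := hK
  obtain ⟨z, hz⟩ := hK
  obtain ⟨E, hE⟩ := support hG z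
  obtain ⟨N', -, hN'⟩ := exists_Bd E 0
  obtain ⟨Ex, hEx, hExf, hdet⟩ := hN'.det
  have hinv : ∀ a b, rE E a b → K (dA hG a) → K (dA hG b) := by
    intro a b hab h
    obtain ⟨g, hg, hgE, hgb, -⟩ := exists_tr hab
    have h1 : Mem (cc (ZZ M) hG (Sum.inl a)) z := (hz (dA hG a)).2 h
    have h2 : Mem (cc (ZZ M) hG (g.1.1 (Sum.inl a))) z :=
      hE _ _ _ _ (ef_cc hG) g hg hgE (Sum.inl a) h1
    rw [hgb] at h2
    exact (hz (dA hG b)).1 h2
  obtain ⟨e, h1, h2⟩ : ∃ e, ¬ Ex e ∧ K (dA hG e) := by
    by_contra hc
    push Not at hc
    refine hKi ((finN hG hC hEx hExf).mono fun x hx => ?_)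
    obtain ⟨a, rfl⟩ := dA_surj hG x
    refine ⟨a, rfl, ?_⟩
    by_contra h3
    exact hc a h3 hx
  obtain ⟨mem, r, l, c, hT, hmem, hc⟩ := exists_tre hG hC
  have i1 := hT.im
  have i4 := hT.ic
  have hs : ∀ y : El (AY hG), Int (Nx hG) (fun x : El (AD hG) => mem (x, y)) := by
    intro y
    (repeat' (first | with_reducible exact IntF.id | with_reducible exact IntF.fst' | with_reducible exact IntF.snd' | with_reducible exact IntF.const _ | with_reducible exact Int.const _ | assumption | with_reducible apply Int.and | with_reducible apply Int.or | with_reducible apply Int.not | with_reducible apply Int.imp | with_reducible apply Int.iff | with_reducible apply Int.ne | with_reducible apply Int.eq | with_reducible apply Int.mem | with_reducible apply Int.subset | with_reducible apply Int.ltN | with_reducible apply Int.leN | with_reducible_and_instances apply Int.le | with_reducible_and_instances apply Int.lt | with_reducible apply Int.all | with_reducible apply Int.ex | with_reducible apply IntF.fst | with_reducible apply IntF.snd | with_reducible apply IntF.app | with_reducible apply IntF.inl | with_reducible apply IntF.inr | with_reducible_and_instances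 apply IntF.mul | with_reducible_and_instances apply IntF.inv | with_reducible_and_instances apply IntF.add | with_reducible_and_instances apply IntF.sub | with_reducible_and_instances apply IntF.neg | with_reducible_and_instances apply IntF.smul | with_reducible apply Int.fin | with_reducible apply IntF.sep | with_reducible apply IntF.lam | with_reducible apply IntF.insert | with_reducible apply IntF.singleton | with_reducible apply IntF.union | with_reducible apply IntF.iimage | with_reducible apply IntF.ite | with_reducible apply IntF.the | with_reducible apply IntF.irec | with_reducible apply IntF.succ | with_reducible apply IntF.val | with_reducible apply IntF.mk | (with_reducible refine Int.comp ?_ ?_; assumption) | (with_reducible refine Int.comp₂ ?_ ?_ ?_; assumption) | (with_reducible refine Int.comp₃ ?_ ?_ ?_ ?_; assumption) | (with_reducible refine Int.comp₄ ?_ ?_ ?_ ?_ ?_; assumption) | (with_reducible refine IntF.comp ?_ ?_; assumption) | (with_reducible refine IntF.comp₂ ?_ ?_ ?_; assumption) | (with_reducible refine IntF.comp₃ ?_ ?_ ?_ ?_; assumption) | with_reducible apply IntF.pair))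
  -- children
  have hchild : ∀ (j : INat M) (B : Yt M), ch (Sum.inr (nm0 N' e) : Xt M) j (Sum.inr B) →
      alm B.1.1 N'.succ (upd e N' j) := by
    intro j B hB
    obtain ⟨n', z', h3, h4, h5⟩ := ch_alm hB
    obtain ⟨rfl, h6⟩ := alm_unique h3 (alm_nm0 N' e)
    rw [nm0_id] at h5
    refine alm_congr h4 (eb_succ (h6.trans (eb_upd _ _ _).symm) ?_)
    rw [h5, upd_self]
  have hfin : ∀ (p : Dt M → Prop), Int M p → FinP M p → ∀ U : IPow (Nx hG) (El (AD hG)),
      (∀ a, dA hG a ∈ U → p a) → IFin U := by
    intro p hp hpf U hU
    refine ((finN hG hC hp hpf).mono (p := fun x => x ∈ U) fun x hx => ?_).fin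
      (Int.mem IntF.id (IntF.const _)) |>.subset fun s hs => (mem_sep
        (Int.mem IntF.id (IntF.const _))).2 hs
    obtain ⟨a, rfl⟩ := dA_surj hG x
    exact ⟨a, rfl, hU a hx⟩
  refine ⟨fun q => ∃ y, c ((yA hG (nm0 N' e), y), q.1) ∧ ∀ x, x ∈ q.2 ↔ mem (x, y), ⟨by (repeat' (first | with_reducible exact IntF.id | with_reducible exact IntF.fst' | with_reducible exact IntF.snd' | with_reducible exact IntF.const _ | with_reducible exact Int.const _ | assumption | with_reducible apply Int.and | with_reducible apply Int.or | with_reducible apply Int.not | with_reducible apply Int.imp | with_reducible apply Int.iff | with_reducible apply Int.ne | with_reducible apply Int.eq | with_reducible apply Int.mem | with_reducible apply Int.subset | with_reducible apply Int.ltN | with_reducible apply Int.leN | with_reducible_and_instances apply Int.le | with_reducible_and_instances apply Int.lt | with_reducible apply Int.all | with_reducible apply Int.ex | with_reducible apply IntF.fst | with_reducible apply IntF.snd | with_reducible apply IntF.app | with_reducible apply IntF.inl | with_reducible apply IntF.inr | with_reducible_and_instances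 apply IntF.mul | with_reducible_and_instances apply IntF.inv | with_reducible_and_instances apply IntF.add | with_reducible_and_instances apply IntF.sub | with_reducible_and_instances apply IntF.neg | with_reducible_and_instances apply IntF.smul | with_reducible apply Int.fin | with_reducible apply IntF.sep | with_reducible apply IntF.lam | with_reducible apply IntF.insert | with_reducible apply IntF.singleton | with_reducible apply IntF.union | with_reducible apply IntF.iimage | with_reducible apply IntF.ite | with_reducible apply IntF.the | with_reducible apply IntF.irec | with_reducible apply IntF.succ | with_reducible apply IntF.val | with_reducible apply IntF.mk | (with_reducible refine Int.comp ?_ ?_; assumption) | (with_reducible refine Int.comp₂ ?_ ?_ ?_; assumption) | (with_reducible refine Int.comp₃ ?_ ?_ ?_ ?_; assumption) | (with_reducible refine Int.comp₄ ?_ ?_ ?_ ?_ ?_; assumption) | (with_reducible refine IntF.comp ?_ ?_; assumption) | (with_reducible refine IntF.comp₂ ?_ ?_ ?_; assumption) | (with_reducible refine IntF.comp₃ ?_ ?_ ?_ ?_; assumption) | with_reducible apply IntF.pair)),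
    fun j => ?_, ?_, ?_, ?_⟩, ?_⟩
  · obtain ⟨j, rfl⟩ := nnN_surj hG hC j
    refine ⟨sep _ fun x => mem (x, yA hG (nm0 N'.succ (upd e N' j))), _, (hc _ _ _).2
      ⟨_, _, rfl, rfl, N', upd e N' j, alm_congr (alm_nm0 N' e) (eb_upd _ _ _).symm,
        alm_nm0 _ _, ?_⟩, fun x => mem_sep (hs _)⟩
    rw [upd_self, nm0_id]
  · rintro j U U' ⟨y, h3, h4⟩ ⟨y', h5, h6⟩
    obtain ⟨j, rfl⟩ := nnN_surj hG hC j
    obtain ⟨B, rfl⟩ := yA_surj hG y
    obtain ⟨B', rfl⟩ := yA_surj hG y'
    have h7 := alm_iff.1 (hchild j B ((hc _ _ _).1 h3))
    have h8 := alm_iff.1 (hchild j B' ((hc _ _ _).1 h5))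
    refine hfin (fun a => a ∈ B.1.1 ∧ ¬ a ∈ B'.1.1) (by (repeat' (first | with_reducible exact IntF.id | with_reducible exact IntF.fst' | with_reducible exact IntF.snd' | with_reducible exact IntF.const _ | with_reducible exact Int.const _ | assumption | with_reducible apply Int.and | with_reducible apply Int.or | with_reducible apply Int.not | with_reducible apply Int.imp | with_reducible apply Int.iff | with_reducible apply Int.ne | with_reducible apply Int.eq | with_reducible apply Int.mem | with_reducible apply Int.subset | with_reducible apply Int.ltN | with_reducible apply Int.leN | with_reducible_and_instances apply Int.le | with_reducible_and_instances apply Int.lt | with_reducible apply Int.all | with_reducible apply Int.ex | with_reducible apply IntF.fst | with_reducible apply IntF.snd | with_reducible apply IntF.app | with_reducible apply IntF.inl | with_reducible apply IntF.inr | with_reducible_and_instances apply IntF.mul | with_reducible_and_instances apply IntF.inv | with_reducible_and_instances apply IntF.add | with_reducible_and_instances apply IntF.sub | with_reducible_and_instances apply IntF.neg | with_reducible_and_instances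 apply IntF.smul | with_reducible apply Int.fin | with_reducible apply IntF.sep | with_reducible apply IntF.lam | with_reducible apply IntF.insert | with_reducible apply IntF.singleton | with_reducible apply IntF.union | with_reducible apply IntF.iimage | with_reducible apply IntF.ite | with_reducible apply IntF.the | with_reducible apply IntF.irec | with_reducible apply IntF.succ | with_reducible apply IntF.val | with_reducible apply IntF.mk | (with_reducible refine Int.comp ?_ ?_; assumption) | (with_reducible refine Int.comp₂ ?_ ?_ ?_; assumption) | (with_reducible refine Int.comp₃ ?_ ?_ ?_ ?_; assumption) | (with_reducible refine Int.comp₄ ?_ ?_ ?_ ?_ ?_; assumption) | (with_reducible refine IntF.comp ?_ ?_; assumption) | (with_reducible refine IntF.comp₂ ?_ ?_ ?_; assumption) | (with_reducible refine IntF.comp₃ ?_ ?_ ?_ ?_; assumption) | with_reducible apply IntF.pair))) ((h7.or h8).mono ?_) _ fun a ha => ?_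
    · rintro a ⟨h9, h10⟩
      tauto
    · rw [mem_sdiff, h4, h6, hmem, hmem] at ha
      exact ha
  · rintro i j U U' hij ⟨y, h3, h4⟩ ⟨y', h5, h6⟩
    obtain ⟨i, rfl⟩ := nnN_surj hG hC i
    obtain ⟨j, rfl⟩ := nnN_surj hG hC j
    obtain ⟨B, rfl⟩ := yA_surj hG y
    obtain ⟨B', rfl⟩ := yA_surj hG y'
    have h7 := alm_iff.1 (hchild i B ((hc _ _ _).1 h3))
    have h8 := alm_iff.1 (hchild j B' ((hc _ _ _).1 h5))
    refine hfin (fun a => a ∈ B.1.1 ∧ a ∈ B'.1.1) (by (repeat' (first | with_reducible exact IntF.id | with_reducible exact IntF.fst' | with_reducible exact IntF.snd' | with_reducible exact IntF.const _ | with_reducible exact Int.const _ | assumption | with_reducible apply Int.and | with_reducible apply Int.or | with_reducible apply Int.not | with_reducible apply Int.imp | with_reducible apply Int.iff | with_reducible apply Int.ne | with_reducible apply Int.eq | with_reducible apply Int.mem | with_reducible apply Int.subset | with_reducible apply Int.ltN | with_reducible apply Int.leN | with_reducible_and_instances apply Int.le | with_reducible_and_instances apply Int.lt | with_reducible apply Int.all | with_reducible apply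 Int.ex | with_reducible apply IntF.fst | with_reducible apply IntF.snd | with_reducible apply IntF.app | with_reducible apply IntF.inl | with_reducible apply IntF.inr | with_reducible_and_instances apply IntF.mul | with_reducible_and_instances apply IntF.inv | with_reducible_and_instances apply IntF.add | with_reducible_and_instances apply IntF.sub | with_reducible_and_instances apply IntF.neg | with_reducible_and_instances apply IntF.smul | with_reducible apply Int.fin | with_reducible apply IntF.sep | with_reducible apply IntF.lam | with_reducible apply IntF.insert | with_reducible apply IntF.singleton | with_reducible apply IntF.union | with_reducible apply IntF.iimage | with_reducible apply IntF.ite | with_reducible apply IntF.the | with_reducible apply IntF.irec | with_reducible apply IntF.succ | with_reducible apply IntF.val | with_reducible apply IntF.mk | (with_reducible refine Int.comp ?_ ?_; assumption) | (with_reducible refine Int.comp₂ ?_ ?_ ?_; assumption) | (with_reducible refine Int.comp₃ ?_ ?_ ?_ ?_; assumption) | (with_reducible refine Int.comp₄ ?_ ?_ ?_ ?_ ?_; assumption) | (with_reducible refine IntF.comp ?_ ?_;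 assumption) | (with_reducible refine IntF.comp₂ ?_ ?_ ?_; assumption) | (with_reducible refine IntF.comp₃ ?_ ?_ ?_ ?_; assumption) | with_reducible apply IntF.pair))) ((h7.or h8).mono ?_) _ fun a ha => ?_
    · rintro a ⟨h9, h10⟩
      by_contra h11
      push Not at h11
      have h12 := (h11.1.1 h9) N' (INat.lt_succ_self N')
      have h13 := (h11.2.1 h10) N' (INat.lt_succ_self N')
      rw [upd_self] at h12 h13
      exact hij (by rw [← h12, ← h13])
    · rw [mem_inter, h4, h6, hmem, hmem] at ha
      exact ha
  · rintro j U ⟨y, h3, h4⟩ hU
    obtain ⟨j, rfl⟩ := nnN_surj hG hC j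
    obtain ⟨B, rfl⟩ := yA_surj hG y
    refine alm_inf (hchild j B ((hc _ _ _).1 h3)) (fin_back hG hC (p := fun a => a ∈ B.1.1)
      (Int.mem IntF.id (IntF.const _)) ⟨U, hU, ?_⟩)
    rintro x ⟨a, rfl, ha⟩
    rw [h4, hmem]
    exact ha
  · rintro j U ⟨y, h3, h4⟩
    obtain ⟨j, rfl⟩ := nnN_surj hG hC j
    obtain ⟨B, rfl⟩ := yA_surj hG y
    have h7 := alm_iff.1 (hchild j B ((hc _ _ _).1 h3))
    have hEb := int_Eb (M := M)
    have hi : Int M (fun a : Dt M => ¬ (a ∈ B.1.1 ↔ Eb N'.succ a (upd e N' j))) := by
      refine Helper672.ZFA.Int.not (Int.iff (by (repeat' (first | with_reducible exact IntF.id | with_reducible exact IntF.fst' | with_reducible exact IntF.snd' | with_reducible exact IntF.const _ | with_reducible exact Int.const _ | assumption | with_reducible apply Int.and | with_reducible apply Int.or | with_reducible apply Int.not | with_reducible apply Int.imp | with_reducible apply Int.iff | with_reducible apply Int.ne | with_reducible apply Int.eq | with_reducible apply Int.mem | with_reducible apply Int.subset | with_reducible apply Int.ltN | with_reducible apply Int.leN | with_reducible_and_instances apply Int.le |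 with_reducible_and_instances apply Int.lt | with_reducible apply Int.all | with_reducible apply Int.ex | with_reducible apply IntF.fst | with_reducible apply IntF.snd | with_reducible apply IntF.app | with_reducible apply IntF.inl | with_reducible apply IntF.inr | with_reducible_and_instances apply IntF.mul | with_reducible_and_instances apply IntF.inv | with_reducible_and_instances apply IntF.add | with_reducible_and_instances apply IntF.sub | with_reducible_and_instances apply IntF.neg | with_reducible_and_instances apply IntF.smul | with_reducible apply Int.fin | with_reducible apply IntF.sep | with_reducible apply IntF.lam | with_reducible apply IntF.insert | with_reducible apply IntF.singleton | with_reducible apply IntF.union | with_reducible apply IntF.iimage | with_reducible apply IntF.ite | with_reducible apply IntF.the | with_reducible apply IntF.irec | with_reducible apply IntF.succ | with_reducible apply IntF.val | with_reducible apply IntF.mk | (with_reducible refine Int.comp ?_ ?_; assumption) | (with_reducible refine Int.comp₂ ?_ ?_ ?_; assumption) | (with_reducible refine Int.comp₃ ?_ ?_ ?_ ?_; assumption) | (with_reducible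 refine Int.comp₄ ?_ ?_ ?_ ?_ ?_; assumption) | (with_reducible refine IntF.comp ?_ ?_; assumption) | (with_reducible refine IntF.comp₂ ?_ ?_ ?_; assumption) | (with_reducible refine IntF.comp₃ ?_ ?_ ?_ ?_; assumption) | with_reducible apply IntF.pair))) ?_)
      exact Int.comp₃ (p := fun n a z => Eb n a z) hEb (IntF.const _) IntF.id (IntF.const _)
    refine (finN hG hC (Int.or hi hEx) (h7.or hExf)).mono ?_
    rintro x ⟨h8, h9⟩
    obtain ⟨a, rfl⟩ := dA_surj hG x
    refine ⟨a, rfl, ?_⟩
    by_contra h10
    push Not at h10
    rw [h4, hmem] at h8
    have h11 := (h10.1.1 h8).mono (INat.lt_succ_self N').le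
    exact h9 (hinv e a (hdet e a h1 h10.2 (h11.trans (eb_upd _ _ _)).symm) h2)

include hC in
/-- The infinite types of the extension have almost disjoint sequences. -/
theorem exists_adq_of (hWO : ∀ x : M, ∃ lt : El x → El x → Prop, H635.IWO M (El x) lt)
    (x : Nx hG) (hx : ¬ FinP (Nx hG) (fun _ : El x => True)) : ∃ V, ADQ (Nx hG) (El x) V := by
  by_contra hc
  exact not_nb hG hC hWO x (nb_of' (celq_AD hG hC) hc hx)

theorem inf_Dt : ¬ FinP M (fun _ : Dt M => True) := by
  intro h
  exact not_fin_cell 0 (lam M fun k : INat M => k : Dt M) (h.mono fun _ _ => trivial)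

include hC in
theorem inf_AD : ¬ FinP (Nx hG) (fun _ : El (AD hG) => True) := fun h =>
  inf_Dt (M := M) (fin_back hG hC (p := fun _ => True) (Int.const _)
    (h.mono fun _ _ => trivial))

end Pool.Agent.V11257T
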