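import Mathlib

/-!
# An ultrafilter on the second level that is not a product

We construct an ultrafilter `F` on the positive integers, containing the set of products of two
primes, and a prime ultrafilter `P` such that `P` is finitely embeddable in `F`, while the only
ultrafilters that divide `F` from both sides are `1` and `F`.
-/

set_option autoImplicit false

namespace Pool.Agent.V11257.UFDiv

open Set Filter

/-- The product of two ultrafilters: `A ∈ F * G` iff `{n | A / n ∈ G} ∈ F`, with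
`A / n = {m | n * m ∈ A}`. -/
def mul (F G : Ultrafilter ℕ+) : Ultrafilter ℕ+ :=
  F.bind fun n => G.map fun m => n * m

theorem mem_mul {F G : Ultrafilter ℕ+} {A : Set ℕ+} :
    A ∈ mul F G ↔ {n | {m | n * m ∈ A} ∈ G} ∈ F := Iff.rfl

/-- `F ∣_M G`. -/
def MDvd (F G : Ultrafilter ℕ+) : Prop := ∃ H₁ H₂ : Ultrafilter ℕ+, G = mul (mul H₁ F) H₂

/-- `A ≤_fe B`. -/
def SetFE (A B : Set ℕ+) : Prop := ∀ S : Finset ℕ+, (S : Set ℕ+) ⊆ A → ∃ k : ℕ+, ∀ s ∈ S, k * s ∈ B

/-- `F ≤_fe G`. -/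
def FE (F G : Ultrafilter ℕ+) : Prop := ∀ B ∈ G, ∃ A ∈ F, SetFE A B

/-- The enumeration of the primes. -/
noncomputable def pr (n : ℕ) : ℕ+ := ⟨Nat.nth Nat.Prime n, (Nat.prime_nth_prime n).pos⟩

theorem pr_prime (n : ℕ) : (pr n : ℕ).Prime := Nat.prime_nth_prime n

theorem pr_inj {m n : ℕ} (h : pr m = pr n) : m = n := by
  have h1 : Nat.nth Nat.Prime m = Nat.nth Nat.Prime n := congrArg PNat.val h
  exact Nat.nth_injective Nat.infinite_setOfPred_prime h1

theorem exists_pr {p : ℕ+} (hp : (p : ℕ).Prime) : ∃ n, p = pr n := by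
  have := Nat.nth_count hp
  exact ⟨Nat.count Nat.Prime p, PNat.eq (by rw [pr]; exact this.symm)⟩

/-- A nonprincipal ultrafilter on the index set. -/
noncomputable abbrev U : Ultrafilter ℕ := Filter.hyperfilter ℕ

theorem U_ne (k : ℕ) : ∀ᶠ n in (U : Filter ℕ), n ≠ k := by
  have h : ({k} : Set ℕ)ᶜ ∈ (U : Filter ℕ) :=
    Filter.hyperfilter_le_cofinite (by simp)
  exact h

theorem U_gt (k : ℕ) : ∀ᶠ n in (U : Filter ℕ), k < n := by
  have h : (Iic k)ᶜ ∈ (U : Filter ℕ) :=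
    Filter.hyperfilter_le_cofinite (by
      rw [Filter.mem_cofinite, compl_compl]; exact finite_Iic k)
  filter_upwards [h] with n hn
  simpa using hn

/-- The prime ultrafilter. -/
noncomputable def P : Ultrafilter ℕ+ := U.map pr

/-- The prime ultrafilters `Q i`. -/
noncomputable def Q (i : ℕ) : Ultrafilter ℕ+ := U.map fun j => pr (Nat.pair i j)

/-- The ultrafilter on the second level. -/
noncomputable def F : Ultrafilter ℕ+ := U.bind fun i => mul P (Q i)

theorem mem_F {A : Set ℕ+} :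
    A ∈ F ↔ ∀ᶠ i in (U : Filter ℕ), ∀ᶠ n in (U : Filter ℕ), ∀ᶠ j in (U : Filter ℕ),
      pr n * pr (Nat.pair i j) ∈ A := Iff.rfl

theorem mul_cases {r s : ℕ+} {p q : ℕ+} (hp : (p : ℕ).Prime) (hq : (q : ℕ).Prime)
    (h : r * s = p * q) : r = 1 ∨ s = 1 ∨ (r = p ∧ s = q) ∨ (r = q ∧ s = p) := by
  have h' : (r : ℕ) * s = p * q := by exact_mod_cast congrArg PNat.val h
  have hdvd : (p : ℕ) ∣ r * s := h' ▸ dvd_mul_right _ _
  have key : ∀ r s : ℕ+, (r : ℕ) * s = p * q → (p : ℕ) ∣ r →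
      s = 1 ∨ (r = p ∧ s = q) := by
    intro r s h' ⟨t, ht⟩
    rw [ht, mul_assoc] at h'
    have h2 : t * s = q := Nat.eq_of_mul_eq_mul_left hp.pos h'
    have h3 : (s : ℕ) ∣ q := h2 ▸ dvd_mul_left _ _
    rcases (Nat.dvd_prime hq).1 h3 with h4 | h4
    · left; exact PNat.coe_eq_one_iff.1 h4
    · right
      have h5 : t = 1 := by
        rw [h4] at h2
        exact Nat.eq_of_mul_eq_mul_right hq.pos (by rw [h2, one_mul])
      rw [h5, mul_one] at ht
      exact ⟨PNat.eq ht, PNat.eq h4⟩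
  rcases hp.dvd_mul.1 hdvd with h1 | h1
  · rcases key r s h' h1 with h2 | h2
    · exact Or.inr (Or.inl h2)
    · exact Or.inr (Or.inr (Or.inl h2))
  · rcases key s r (by rw [mul_comm]; exact h') h1 with h2 | h2
    · exact Or.inl h2
    · exact Or.inr (Or.inr (Or.inr ⟨h2.2, h2.1⟩))

theorem pr_mul_inj {a b c d : ℕ} (hab : a < b) (hcd : c < d) (h : pr c * pr d = pr a * pr b) :
    c = a ∧ d = b := by
  rcases mul_cases (pr_prime a) (pr_prime b) h with h | h | ⟨h1, h2⟩ | ⟨h1, h2⟩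
  · exact absurd (by rw [h]; rfl) (pr_prime c).ne_one
  · exact absurd (by rw [h]; rfl) (pr_prime d).ne_one
  · exact ⟨pr_inj h1, pr_inj h2⟩
  · have := pr_inj h1
    have := pr_inj h2
    omega

/-- The set of all products `pr a * pr b` with `a < b` satisfying a condition. -/
def Pairs (r : ℕ → ℕ → Prop) : Set ℕ+ := {x | ∃ a b, a < b ∧ r a b ∧ x = pr a * pr b}

theorem Pairs_mem_F {r : ℕ → ℕ → Prop}
    (h : ∀ᶠ i in (U : Filter ℕ), ∀ᶠ n in (U : Filter ℕ), ∀ᶠ j in (U : Filter ℕ),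
      r n (Nat.pair i j)) : Pairs r ∈ F := by
  rw [mem_F]
  filter_upwards [h] with i hi
  filter_upwards [hi] with n hn
  filter_upwards [hn, U_gt n] with j hj hjn
  exact ⟨n, Nat.pair i j, hjn.trans_le (Nat.right_le_pair i j), hj, rfl⟩

theorem mem_pure' {A : Set ℕ+} {x : ℕ+} : A ∈ (pure x : Ultrafilter ℕ+) ↔ x ∈ A := Iff.rfl

theorem eq_pure_of_mem {R : Ultrafilter ℕ+} {x : ℕ+} (h : ({x} : Set ℕ+) ∈ R) : R = pure x :=
  Ultrafilter.eq_pure_of_finite_mem (finite_singleton x) h |>.choose_spec |> fun h2 => by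
    obtain ⟨h3, h4⟩ := h2
    rw [h4, mem_singleton_iff.1 h3]

theorem F_not_mul {R S : Ultrafilter ℕ+} (h : F = mul R S) : R = pure 1 ∨ S = pure 1 := by
  by_contra hcon
  push Not at hcon
  obtain ⟨hR, hS⟩ := hcon
  have hR1 : ({1} : Set ℕ+)ᶜ ∈ R :=
    Ultrafilter.compl_mem_iff_notMem.2 fun h => hR (eq_pure_of_mem h)
  have hS1 : ({1} : Set ℕ+)ᶜ ∈ S :=
    Ultrafilter.compl_mem_iff_notMem.2 fun h => hS (eq_pure_of_mem h)
  -- the first set in `F`
  have hB1 : Pairs (fun a b => (Nat.unpair b).1 < a) ∈ F := by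
    refine Pairs_mem_F (Filter.Eventually.of_forall fun i => ?_)
    filter_upwards [U_gt i] with n hn
    refine Filter.Eventually.of_forall fun j => ?_
    rw [Nat.unpair_pair]
    exact hn
  rw [h, mem_mul] at hB1
  -- for most `r` there is a prime `r = pr c`, and for most `s`, `s = pr d`.
  have hRp : {r | ∃ c, r = pr c ∧ {s | ∃ d, s = pr d ∧ pr c * pr d ∈
      Pairs (fun a b => (Nat.unpair b).1 < a)} ∈ S} ∈ R := by
    filter_upwards [hB1, hR1] with r hr hr1
    have h2 : {s | ∃ c d, r = pr c ∧ s = pr d ∧ pr c * pr d ∈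
      Pairs (fun a b => (Nat.unpair b).1 < a)} ∈ S := by
      filter_upwards [hr, hS1] with s hs hs1
      obtain ⟨a, b, hab, hr', he⟩ := hs
      rcases mul_cases (pr_prime a) (pr_prime b) he with h | h | ⟨h1, h2⟩ | ⟨h1, h2⟩
      · exact absurd h hr1
      · exact absurd h hs1
      · exact ⟨a, b, h1, h2, a, b, hab, hr', rfl⟩
      · exact ⟨b, a, h1, h2, a, b, hab, hr', mul_comm _ _⟩
    obtain ⟨s, c, d, h3, h4, h5⟩ := S.nonempty_of_mem h2
    refine ⟨c, h3, ?_⟩
    filter_upwards [h2] with s' hs'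
    obtain ⟨c', d', h6, h7, h8⟩ := hs'
    rw [h3] at h6
    rw [← pr_inj h6] at h8
    exact ⟨d', h7, h8⟩
  -- `S` is not principal
  have hSd : ∀ d, ({pr d} : Set ℕ+)ᶜ ∈ S := by
    intro d
    refine Ultrafilter.compl_mem_iff_notMem.2 fun hd => ?_
    have hd' := eq_pure_of_mem hd
    have hF : Pairs (fun a b => a ≠ d ∧ b ≠ d) ∈ F := by
      refine Pairs_mem_F ?_
      filter_upwards [U_gt d] with i hi
      filter_upwards [U_ne d] with n hn
      refine Filter.Eventually.of_forall fun j => ⟨hn, ?_⟩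
      have := Nat.left_le_pair i j
      omega
    rw [h, mem_mul, hd'] at hF
    obtain ⟨r, hr⟩ := R.nonempty_of_mem hF
    obtain ⟨a, b, hab, ⟨h1, h2⟩, h3⟩ : r * pr d ∈ Pairs (fun a b => a ≠ d ∧ b ≠ d) := hr
    rcases mul_cases (pr_prime a) (pr_prime b) h3 with h4 | h4 | ⟨-, h4⟩ | ⟨-, h4⟩
    · rw [h4, one_mul] at h3
      have h5 : (pr d : ℕ) = pr a * pr b := by exact_mod_cast congrArg PNat.val h3
      have h6 := pr_prime d
      rw [h5] at h6
      exact Nat.not_prime_mul (pr_prime a).ne_one (pr_prime b).ne_one h6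
    · exact absurd (by rw [h4]; rfl) (pr_prime d).ne_one
    · exact h2 (pr_inj h4).symm
    · exact h1 (pr_inj h4).symm
  have hSgt : ∀ c, {s | ∀ d, s = pr d → c < d} ∈ S := by
    intro c
    have h1 : (⋂ d ∈ Finset.range (c + 1), ({pr d} : Set ℕ+)ᶜ) ∈ S := by
      have := (Filter.biInter_finset_mem (f := (S : Filter ℕ+))
        (s := fun d => ({pr d} : Set ℕ+)ᶜ) (Finset.range (c + 1))).2 fun d _ => hSd d
      exact this
    filter_upwards [h1] with s hs d hd
    by_contra hcd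
    have := mem_iInter₂.1 hs d (Finset.mem_range.2 (by omega))
    exact this hd
  -- fix `r = pr c`
  obtain ⟨r, c, -, hc⟩ := R.nonempty_of_mem hRp
  have hlt : {s | ∃ d, s = pr d ∧ (Nat.unpair d).1 < c} ∈ S := by
    filter_upwards [hc, hSgt c] with s hs hgt
    obtain ⟨d, hd, a, b, hab, hr, he⟩ := hs
    obtain ⟨rfl, rfl⟩ := pr_mul_inj hab (hgt d hd) he
    exact ⟨d, hd, hr⟩
  -- the value is constant
  have hconst : ∃ i, {s | ∃ d, s = pr d ∧ (Nat.unpair d).1 = i} ∈ S := by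
    by_contra hno
    push Not at hno
    have h1 : (⋂ i ∈ Finset.range c, ({s | ∃ d, s = pr d ∧ (Nat.unpair d).1 = i} : Set ℕ+)ᶜ) ∈ S := by
      have := (Filter.biInter_finset_mem (f := (S : Filter ℕ+))
        (s := fun i => ({s | ∃ d, s = pr d ∧ (Nat.unpair d).1 = i} : Set ℕ+)ᶜ)
        (Finset.range c)).2 fun i _ => Ultrafilter.compl_mem_iff_notMem.2 (hno i)
      exact this
    obtain ⟨s, hs1, d, hd, hdc⟩ := S.nonempty_of_mem (Filter.inter_mem h1 hlt)
    exact mem_iInter₂.1 hs1 _ (Finset.mem_range.2 hdc) ⟨d, hd, rfl⟩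
  obtain ⟨i, hi⟩ := hconst
  -- contradiction
  have hB2 : Pairs (fun a b => (Nat.unpair b).1 ≠ i) ∈ F := by
    refine Pairs_mem_F ?_
    filter_upwards [U_ne i] with k hk
    refine Filter.Eventually.of_forall fun n => Filter.Eventually.of_forall fun j => ?_
    rw [Nat.unpair_pair]
    exact hk
  rw [h, mem_mul] at hB2
  obtain ⟨r, ⟨c, rfl, -⟩, hr2⟩ := R.nonempty_of_mem (Filter.inter_mem hRp hB2)
  obtain ⟨s, ⟨⟨d, rfl, hd⟩, hgt⟩, a, b, hab, hne, he⟩ :=
    S.nonempty_of_mem (Filter.inter_mem (Filter.inter_mem hi (hSgt c)) hr2)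
  obtain ⟨rfl, rfl⟩ := pr_mul_inj hab (hgt d rfl) he
  exact hne hd

theorem mul_eq_one {R S : Ultrafilter ℕ+} (h : mul R S = pure 1) : R = pure 1 ∧ S = pure 1 := by
  have h1 : ({1} : Set ℕ+) ∈ mul R S := by rw [h]; exact mem_pure'.2 rfl
  rw [mem_mul] at h1
  have h2 : ({1} : Set ℕ+) ∈ R := by
    filter_upwards [h1] with r hr
    obtain ⟨s, hs⟩ := S.nonempty_of_mem hr
    have hs' : r * s = 1 := hs
    exact (mul_eq_one_iff_of_one_le one_le one_le).1 hs' |>.1
  refine ⟨eq_pure_of_mem h2, ?_⟩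
  obtain ⟨r, hr⟩ := R.nonempty_of_mem h1
  refine eq_pure_of_mem ?_
  filter_upwards [hr] with s hs
  have hs' : r * s = 1 := hs
  exact (mul_eq_one_iff_of_one_le one_le one_le).1 hs' |>.2

theorem mul_one' (R : Ultrafilter ℕ+) : mul R (pure 1) = R := by
  ext A
  rw [mem_mul]
  have : {n : ℕ+ | {m | n * m ∈ A} ∈ (pure 1 : Ultrafilter ℕ+)} = A := by
    ext n
    rw [mem_setOf_eq, mem_pure', mem_setOf_eq, mul_one]
  rw [this]

theorem one_mul' (R : Ultrafilter ℕ+) : mul (pure 1) R = R := by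
  ext A
  rw [mem_mul, mem_pure', mem_setOf_eq]
  simp

/-- The only divisors of `F` are `1` and `F`. -/
theorem dvd_F {G : Ultrafilter ℕ+} (h : MDvd G F) : G = pure 1 ∨ G = F := by
  obtain ⟨H₁, H₂, h⟩ := h
  rcases F_not_mul h with h1 | h1
  · exact Or.inl (mul_eq_one h1).2
  · rw [h1, mul_one'] at h
    rcases F_not_mul h with h2 | h2
    · rw [h2, one_mul'] at h
      exact Or.inr h.symm
    · exact Or.inl h2

/-- `P` is finitely embeddable in `F`. -/
theorem P_FE_F : FE P F := by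
  intro B hB
  rw [mem_F] at hB
  obtain ⟨i, hi⟩ := hB.exists
  refine ⟨{p | {m | p * m ∈ B} ∈ Q i}, ?_, ?_⟩
  · exact hi
  · intro S hS
    have h1 : (⋂ p ∈ S, {m | p * m ∈ B}) ∈ Q i := by
      have := (Filter.biInter_finset_mem (f := (Q i : Filter ℕ+))
        (s := fun p => {m | p * m ∈ B}) S).2 fun p hp => hS hp
      exact this
    obtain ⟨k, hk⟩ := (Q i).nonempty_of_mem h1
    refine ⟨k, fun s hs => ?_⟩
    have := mem_iInter₂.1 hk s hs
    rw [mul_comm]
    exact this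

theorem primes_mem_P : {p : ℕ+ | (p : ℕ).Prime} ∈ P :=
  Filter.Eventually.of_forall (f := (U : Filter ℕ)) fun n => pr_prime n

theorem level_two_mem_F : {n : ℕ+ | ∃ p q : ℕ+, (p : ℕ).Prime ∧ (q : ℕ).Prime ∧ n = p * q} ∈ F := by
  rw [mem_F]
  exact Filter.Eventually.of_forall fun i => Filter.Eventually.of_forall fun n =>
    Filter.Eventually.of_forall fun j => ⟨_, _, pr_prime _, pr_prime _, rfl⟩

theorem not_F_FE_P : ¬ FE F P := by
  intro h
  obtain ⟨A, hA, hAP⟩ := h _ primes_mem_P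
  obtain ⟨n, hnA, p, q, hp, hq, rfl⟩ := F.nonempty_of_mem (Filter.inter_mem hA level_two_mem_F)
  obtain ⟨k, hk⟩ := hAP {p * q} (by simpa using hnA)
  have h1 : ((k * (p * q) : ℕ+) : ℕ).Prime := hk _ (Finset.mem_singleton_self _)
  rw [PNat.mul_coe, PNat.mul_coe, ← mul_assoc] at h1
  refine Nat.not_prime_mul ?_ hq.ne_one h1
  intro h2
  exact hp.ne_one (Nat.eq_one_of_mul_eq_one_left h2)

theorem F_ne_one : F ≠ pure 1 := by
  intro h
  have := level_two_mem_F
  rw [h] at this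
  obtain ⟨p, q, hp, hq, h1⟩ := mem_pure'.1 this
  have h2 : (1 : ℕ) = p * q := by exact_mod_cast congrArg PNat.val h1
  exact hp.ne_one (Nat.eq_one_of_mul_eq_one_right h2.symm)

theorem P_ne_one : P ≠ pure 1 := by
  intro h
  have := primes_mem_P
  rw [h] at this
  exact Nat.not_prime_one (mem_pure'.1 this)

theorem FE_refl (G : Ultrafilter ℕ+) : FE G G := fun B hB => ⟨B, hB, fun S hS => ⟨1, fun s hs => by
  rw [one_mul]; exact hS hs⟩⟩

theorem not_P_MDvd_F : ¬ MDvd P F := by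
  intro h
  rcases dvd_F h with h1 | h1
  · exact P_ne_one h1
  · exact not_F_FE_P (h1 ▸ FE_refl F)

/-- The numbers with exactly `n` prime factors, counted with multiplicity. -/
def Lev (n : ℕ) : Set ℕ+ := {m | (m : ℕ).primeFactorsList.length = n}

theorem Lev_one_mem_P : Lev 1 ∈ P := by
  filter_upwards [primes_mem_P] with p hp
  have hp' : (p : ℕ).Prime := hp
  change (p : ℕ).primeFactorsList.length = 1
  rw [Nat.primeFactorsList_prime hp']
  rfl

theorem Lev_two_mem_F : Lev 2 ∈ F := by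
  filter_upwards [level_two_mem_F] with m hm
  obtain ⟨p, q, hp, hq, rfl⟩ := hm
  change ((p * q : ℕ+) : ℕ).primeFactorsList.length = 2
  rw [PNat.mul_coe, (Nat.perm_primeFactorsList_mul hp.ne_zero hq.ne_zero).length_eq,
    List.length_append, Nat.primeFactorsList_prime hp, Nat.primeFactorsList_prime hq]
  rfl

end Pool.Agent.V11257.UFDiv
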