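import Mathlib

/-!
# Words with long alternating runs: definitions and the rigidity of the walks
-/

set_option linter.all false

namespace Pool.Agent.V11257W

/-- The scale of the block `k`. -/
def s (k : ℕ) : ℕ := 4 ^ (k + 1)

theorem s_succ (k : ℕ) : s (k + 1) = 4 * s k := by
  unfold s
  ring

theorem s_pos (k : ℕ) : 4 ≤ s k := by
  induction k with
  | zero => norm_num [s]
  | succ k ih => rw [s_succ]; omega

theorem s_even (k : ℕ) : 2 ∣ s k := by
  induction k with
  | zero => norm_num [s]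
  | succ k ih => rw [s_succ]; omega

theorem s_unb (k : ℕ) : k < s k := by
  induction k with
  | zero => norm_num [s]
  | succ k ih => rw [s_succ]; omega

theorem s_mono {k l : ℕ} (h : k < l) : 4 * s k ≤ s l := by
  obtain ⟨d, rfl⟩ := Nat.exists_eq_add_of_lt h
  induction d with
  | zero => rw [Nat.add_zero, s_succ]
  | succ d ih =>
    have h1 := ih (by omega)
    rw [show k + (d + 1) + 1 = (k + d + 1) + 1 by ring, s_succ]
    omega

theorem s_inj {k l : ℕ} (h : s k = s l) : k = l := by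
  rcases lt_trichotomy k l with h1 | h1 | h1
  · have := s_mono h1
    have := s_pos k
    omega
  · exact h1
  · have := s_mono h1
    have := s_pos l
    omega

open Classical in
/-- The length of the block `k`. -/
noncomputable def len (x : Set ℕ) (k : ℕ) : ℕ := if k ∈ x then 3 * s k + 1 else 5 * s k + 3

theorem len_in {x : Set ℕ} {k : ℕ} (h : k ∈ x) : len x k = 3 * s k + 1 := if_pos h

theorem len_out {x : Set ℕ} {k : ℕ} (h : k ∉ x) : len x k = 5 * s k + 3 := if_neg h

/-- The start of the block `k`. -/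
noncomputable def S (x : Set ℕ) : ℕ → ℕ
  | 0 => 0
  | k + 1 => S x k + len x k

theorem S_succ (x : Set ℕ) (k : ℕ) : S x (k + 1) = S x k + len x k := rfl

theorem len_ge (x : Set ℕ) (k : ℕ) : 3 * s k + 1 ≤ len x k := by
  by_cases h : k ∈ x
  · rw [len_in h]
  · rw [len_out h]; omega

theorem S_lt (x : Set ℕ) (k : ℕ) : S x k < S x (k + 1) := by
  have := len_ge x k
  rw [S_succ]
  omega

theorem S_mono (x : Set ℕ) : StrictMono (S x) := strictMono_nat_of_lt_succ (S_lt x)

theorem S_unb (x : Set ℕ) (k : ℕ) : k ≤ S x k := (S_mono x).le_apply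

/-- The edges with equal labels. -/
def D (x : Set ℕ) (i : ℕ) : Prop :=
  ∃ k, i = S x (k + 1) ∨ (k ∉ x ∧ (i = S x k + (2 * s k + 1) ∨ i = S x k + (3 * s k + 2)))

theorem D_succ (x : Set ℕ) (k : ℕ) : D x (S x (k + 1)) := ⟨k, Or.inl rfl⟩

theorem D_one {x : Set ℕ} {k : ℕ} (h : k ∉ x) : D x (S x k + (2 * s k + 1)) :=
  ⟨k, Or.inr ⟨h, Or.inl rfl⟩⟩

theorem D_two {x : Set ℕ} {k : ℕ} (h : k ∉ x) : D x (S x k + (3 * s k + 2)) :=
  ⟨k, Or.inr ⟨h, Or.inr rfl⟩⟩

theorem D_bd {x : Set ℕ} {i : ℕ} (h : D x i) : ∃ k, S x k < i ∧ i ≤ S x (k + 1) ∧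
    (i = S x (k + 1) ∨ (k ∉ x ∧ (i = S x k + (2 * s k + 1) ∨ i = S x k + (3 * s k + 2)))) := by
  obtain ⟨k, h1⟩ := h
  have h2 := S_lt x k
  refine ⟨k, ?_, ?_, h1⟩
  · rcases h1 with h1 | ⟨h3, h1 | h1⟩ <;> omega
  · rcases h1 with h1 | ⟨h3, h1 | h1⟩
    · omega
    · rw [S_succ, len_out h3]; omega
    · rw [S_succ, len_out h3]; omega

theorem D_pos {x : Set ℕ} {i : ℕ} (h : D x i) : 0 < i := by
  obtain ⟨k, h1, -⟩ := D_bd h
  omega

/-- The edges with equal labels in a block. -/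
theorem free {x : Set ℕ} {j k : ℕ} (h : D x j) (h1 : S x k < j) (h2 : j < S x (k + 1)) :
    k ∉ x ∧ (j = S x k + (2 * s k + 1) ∨ j = S x k + (3 * s k + 2)) := by
  obtain ⟨l, h3, h4, h5⟩ := D_bd h
  have h6 : l = k := by
    rcases lt_trichotomy l k with h6 | h6 | h6
    · have := (S_mono x).monotone (show l + 1 ≤ k from h6)
      omega
    · exact h6
    · have := (S_mono x).monotone (show k + 1 ≤ l from h6)
      omega
  subst h6
  rcases h5 with h5 | h5
  · omega
  · exact h5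

theorem free_start {x : Set ℕ} {j k : ℕ} (h1 : S x k < j) (h2 : j < S x k + (2 * s k + 1)) :
    ¬ D x j := by
  intro h
  have h3 := len_ge x k
  obtain ⟨-, h4⟩ := free (k := k) h h1 (by rw [S_succ]; omega)
  omega

theorem free_in {x : Set ℕ} {j k : ℕ} (hk : k ∈ x) (h1 : S x k < j) (h2 : j < S x (k + 1)) :
    ¬ D x j := fun h => (free h h1 h2).1 hk

/-- The edges with equal labels, as integers. -/
def DZ (x : Set ℕ) (j : ℤ) : Prop := ∃ i : ℕ, (i : ℤ) = j ∧ D x i

theorem DZ_nat {x : Set ℕ} {i : ℕ} : DZ x (i : ℤ) ↔ D x i := by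
  constructor
  · rintro ⟨j, h1, h2⟩
    have : j = i := by exact_mod_cast h1
    exact this ▸ h2
  · exact fun h => ⟨i, rfl, h⟩

/-- The walks. -/
structure Walk (x y : Set ℕ) (κ : ℕ → ℤ) : Prop where
  nonneg : ∀ i, 0 ≤ κ i
  step : ∀ i, κ (i + 1) = κ i + 1 ∨ κ (i + 1) = κ i - 1
  turn : ∀ i, κ (i + 2) = κ i → D x (i + 1)
  str : ∀ i, κ (i + 2) ≠ κ i → (D x (i + 1) ↔ DZ y (κ (i + 1)))

variable {x y : Set ℕ} {κ : ℕ → ℤ} (h : Walk x y κ)

include h

/-- Along a run the walk is straight. -/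
theorem Walk.seg {T a : ℕ} {σ : ℤ} (hσ : σ = 1 ∨ σ = -1) (h0 : κ (T + 1) = κ T + σ)
    (hf : ∀ j, T < j → j < T + a → ¬ D x j) :
    (∀ t : ℕ, t ≤ a → κ (T + t) = κ T + σ * t) ∧
      ∀ t : ℕ, 0 < t → t < a → ¬ DZ y (κ T + σ * t) := by
  have key : ∀ t : ℕ, t + 1 ≤ a → κ (T + t) = κ T + σ * t ∧ κ (T + t + 1) = κ T + σ * (t + 1) := by
    intro t
    induction t with
    | zero =>
      intro _
      refine ⟨by simp, ?_⟩
      rw [Nat.add_zero, h0]
      push_cast
      ring
    | succ t ih =>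
      intro ht
      obtain ⟨h1, h2⟩ := ih (by omega)
      refine ⟨by rw [show T + (t + 1) = T + t + 1 by ring, h2]; push_cast; ring, ?_⟩
      have h3 := hf (T + t + 1) (by omega) (by omega)
      have h4 : κ (T + t + 2) ≠ κ (T + t) := fun h5 => h3 (h.turn (T + t) h5)
      have h5 := h.step (T + t + 1)
      rw [show T + t + 1 + 1 = T + t + 2 by ring] at h5
      rw [show T + (t + 1) + 1 = T + t + 2 by ring]
      rw [h2] at h5
      rw [h1] at h4
      push_cast
      rcases hσ with rfl | rfl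
      · rcases h5 with h5 | h5
        · rw [h5]; ring
        · exfalso; apply h4; rw [h5]; ring
      · rcases h5 with h5 | h5
        · exfalso; apply h4; rw [h5]; ring
        · rw [h5]; ring
  have key2 : ∀ t : ℕ, t ≤ a → κ (T + t) = κ T + σ * t := by
    intro t ht
    rcases Nat.eq_zero_or_pos t with rfl | h1
    · simp
    · obtain ⟨u, rfl⟩ := Nat.exists_eq_succ_of_ne_zero h1.ne'
      have h2 := (key u ht).2
      rw [show T + u.succ = T + u + 1 by rfl, h2]
      push_cast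
      ring
  refine ⟨key2, fun t h1 h2 h3 => ?_⟩
  obtain ⟨u, rfl⟩ := Nat.exists_eq_succ_of_ne_zero h1.ne'
  have h4 := hf (T + u + 1) (by omega) (by omega)
  have h5 : κ (T + u + 2) ≠ κ (T + u) := fun h5 => h4 (h.turn (T + u) h5)
  refine h4 ((h.str (T + u) h5).2 ?_)
  have h6 := key2 (u + 1) (by omega)
  rw [show T + (u + 1) = T + u + 1 by ring] at h6
  rw [h6]
  exact h3

/-- At the end of a run the walk turns, or it passes. -/
theorem Walk.dt {T : ℕ} {σ : ℤ} (hσ : σ = 1 ∨ σ = -1) (hT : 0 < T)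
    (h0 : κ (T - 1) = κ T - σ) : κ (T + 1) = κ T - σ ∨ (κ (T + 1) = κ T + σ ∧ (D x T → DZ y (κ T))) := by
  obtain ⟨u, rfl⟩ := Nat.exists_eq_succ_of_ne_zero hT.ne'
  rw [show u.succ - 1 = u from rfl] at h0
  change κ (u + 2) = κ (u + 1) - σ ∨ (κ (u + 2) = κ (u + 1) + σ ∧ (D x (u + 1) → DZ y (κ (u + 1))))
  change κ u = κ (u + 1) - σ at h0
  by_cases h1 : κ (u + 2) = κ u
  · exact Or.inl (h1.trans h0)
  · right
    refine ⟨?_, fun h2 => (h.str u h1).1 h2⟩
    have h2 := h.step (u + 1)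
    rw [show u + 1 + 1 = u + 2 by ring] at h2
    rw [h0] at h1
    rcases hσ with rfl | rfl
    · rcases h2 with h2 | h2
      · exact h2
      · exact absurd h2 h1
    · rcases h2 with h2 | h2
      · exfalso; apply h1; rw [h2]; ring
      · rw [h2]; ring

/-- A run that is followed by a longer run. -/
theorem Walk.no_turn {T a a' : ℕ} {σ : ℤ} (hσ : σ = 1 ∨ σ = -1) {g : ℤ} (haa : a < a')
    (hg : DZ y g ∨ (g = 0 ∧ σ = 1)) (hT : κ T = g + σ * a) (ha : 0 < a)
    (hf : ∀ j, T < j → j < T + a' → ¬ D x j) : κ (T + 1) ≠ κ T - σ := by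
  intro h1
  have hσ' : -σ = 1 ∨ -σ = -1 := by
    rcases hσ with rfl | rfl
    · exact Or.inr rfl
    · exact Or.inl (by norm_num)
  obtain ⟨h2, h3⟩ := h.seg hσ' (T := T) (a := a') (by rw [h1]; ring) hf
  rcases hg with hg | ⟨hg, hs⟩
  · apply h3 a ha haa
    rw [hT]
    have : g + σ * a + -σ * a = g := by ring
    rwa [this]
  · have h4 := h2 (a + 1) (by omega)
    have h5 := h.nonneg (T + (a + 1))
    rw [h4, hT, hg, hs] at h5
    push_cast at h5
    linarith

theorem Walk.step1 {T a a' : ℕ} {σ : ℤ} (hσ : σ = 1 ∨ σ = -1) (ha : 0 < a) (haa : a < a')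
    (h0 : κ (T + 1) = κ T + σ) (hg : DZ y (κ T) ∨ (κ T = 0 ∧ σ = 1))
    (hf : ∀ j, T < j → j < T + a → ¬ D x j) (hD : D x (T + a))
    (hf' : ∀ j, T + a < j → j < T + a + a' → ¬ D x j) :
    κ (T + a + 1) = κ (T + a) + σ ∧ κ (T + a) = κ T + σ * a ∧ DZ y (κ (T + a)) := by
  obtain ⟨h1, h2⟩ := h.seg hσ h0 hf
  have h3 := h1 a le_rfl
  have h4 := h1 (a - 1) (by omega)
  have h5 : κ (T + a - 1) = κ (T + a) - σ := by
    rw [show T + a - 1 = T + (a - 1) by omega, h4, h3]
    push_cast [show 1 ≤ a from ha]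
    ring
  rcases h.dt hσ (show 0 < T + a by omega) h5 with h6 | ⟨h6, h7⟩
  · exact absurd h6 (h.no_turn hσ haa hg h3 ha hf')
  · exact ⟨h6, h3, h7 hD⟩

/-- The block `k`: if the walk does not turn at the first interior point of the block. -/
theorem Walk.blk {k : ℕ} {σ : ℤ} (hσ : σ = 1 ∨ σ = -1)
    (h0 : κ (S x k + 1) = κ (S x k) + σ) (hg : DZ y (κ (S x k)) ∨ (κ (S x k) = 0 ∧ σ = 1)) :
    κ (S x (k + 1) + 1) = κ (S x (k + 1)) + σ ∧ DZ y (κ (S x (k + 1))) ∧
      (∃ m : ℕ, 0 < m ∧ κ (S x (k + 1)) = κ (S x k) + σ * m) ∧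
      (k ∈ x → κ (S x (k + 1)) = κ (S x k) + σ * (3 * s k + 1 : ℕ) ∧
        ∀ t : ℕ, 0 < t → t < 3 * s k + 1 → ¬ DZ y (κ (S x k) + σ * t)) := by
  have hs := s_pos k
  have hnext : ∀ j, S x (k + 1) < j → j < S x (k + 1) + (8 * s k + 1) → ¬ D x j := by
    intro j h1 h2
    refine free_start (k := k + 1) h1 ?_
    rw [s_succ]
    omega
  by_cases hk : k ∈ x
  · have hS : S x (k + 1) = S x k + (3 * s k + 1) := by rw [S_succ, len_in hk]
    have hf : ∀ j, S x k < j → j < S x k + (3 * s k + 1) → ¬ D x j := fun j h1 h2 =>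
      free_in hk h1 (by rw [hS]; exact h2)
    have h1 := h.step1 hσ (T := S x k) (a := 3 * s k + 1) (a' := 8 * s k + 1) (by omega) (by omega)
      h0 hg hf (by rw [← hS]; exact D_succ x k) (fun j h1 h2 => hnext j (by omega) (by omega))
    rw [← hS] at h1
    exact ⟨h1.1, h1.2.2, ⟨_, by omega, h1.2.1⟩, fun _ => ⟨h1.2.1, (h.seg hσ h0 hf).2⟩⟩
  · have hS : S x (k + 1) = S x k + (5 * s k + 3) := by rw [S_succ, len_out hk]
    have hf1 : ∀ j, S x k < j → j < S x k + (2 * s k + 1) → ¬ D x j := fun j h1 h2 =>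
      free_start h1 h2
    have hf2 : ∀ j, S x k + (2 * s k + 1) < j → j < S x k + (2 * s k + 1) + (s k + 1) →
        ¬ D x j := by
      intro j h1 h2 h3
      obtain ⟨-, h4⟩ := free h3 (k := k) (by omega) (by omega)
      omega
    have hf3 : ∀ j, S x k + (2 * s k + 1) + (s k + 1) < j →
        j < S x k + (2 * s k + 1) + (s k + 1) + (2 * s k + 1) → ¬ D x j := by
      intro j h1 h2 h3
      obtain ⟨-, h4⟩ := free h3 (k := k) (by omega) (by omega)
      omega
    have hD1 : D x (S x k + (2 * s k + 1)) := D_one hk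
    have hD2 : D x (S x k + (2 * s k + 1) + (s k + 1)) := by
      have := D_two hk
      rwa [show S x k + (3 * s k + 2) = S x k + (2 * s k + 1) + (s k + 1) by omega] at this
    have hS' : S x (k + 1) = S x k + (2 * s k + 1) + (s k + 1) + (2 * s k + 1) := by
      rw [hS]; omega
    have hD3 : D x (S x k + (2 * s k + 1) + (s k + 1) + (2 * s k + 1)) := by
      rw [← hS']; exact D_succ x k
    have hf4 : ∀ j, S x k + (2 * s k + 1) + (s k + 1) + (2 * s k + 1) < j →
        j < S x k + (2 * s k + 1) + (s k + 1) + (2 * s k + 1) + (8 * s k + 1) → ¬ D x j :=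
      fun j h1 h2 => hnext j (by omega) (by omega)
    obtain ⟨e1, e2⟩ := h.seg hσ h0 hf1
    have e3 := e1 (2 * s k + 1) le_rfl
    have e4 := e1 (2 * s k) (by omega)
    have e5 : κ (S x k + (2 * s k + 1) - 1) = κ (S x k + (2 * s k + 1)) - σ := by
      rw [show S x k + (2 * s k + 1) - 1 = S x k + 2 * s k by omega, e4, e3]
      push_cast
      ring
    rcases h.dt hσ (show 0 < S x k + (2 * s k + 1) by omega) e5 with h6 | ⟨h6, h7⟩
    · -- turn
      have hσ' : -σ = 1 ∨ -σ = -1 := by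
        rcases hσ with rfl | rfl
        · exact Or.inr rfl
        · exact Or.inl (by norm_num)
      obtain ⟨f1, -⟩ := h.seg hσ' (by rw [h6]; ring) hf2
      have f2 := f1 (s k + 1) le_rfl
      have f3 := f1 (s k) (by omega)
      have f4 : κ (S x k + (2 * s k + 1) + (s k + 1)) = κ (S x k) + σ * (s k) := by
        rw [f2, e3]
        push_cast
        ring
      have f5 : κ (S x k + (2 * s k + 1) + (s k + 1) - 1) =
          κ (S x k + (2 * s k + 1) + (s k + 1)) - -σ := by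
        rw [show S x k + (2 * s k + 1) + (s k + 1) - 1 = S x k + (2 * s k + 1) + s k by omega, f3,
          f2]
        push_cast
        ring
      rcases h.dt hσ' (by omega) f5 with g1 | ⟨g1, g2⟩
      · obtain ⟨g3, -⟩ := h.seg hσ (T := S x k + (2 * s k + 1) + (s k + 1)) (by rw [g1]; ring) hf3
        have g4 := g3 (2 * s k + 1) le_rfl
        have g5 := g3 (2 * s k) (by omega)
        have g6 : κ (S x k + (2 * s k + 1) + (s k + 1) + (2 * s k + 1)) =
            κ (S x k) + σ * (3 * s k + 1 : ℕ) := by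
          rw [g4, f4]
          push_cast
          ring
        have g7 : κ (S x k + (2 * s k + 1) + (s k + 1) + (2 * s k + 1) - 1) =
            κ (S x k + (2 * s k + 1) + (s k + 1) + (2 * s k + 1)) - σ := by
          rw [show S x k + (2 * s k + 1) + (s k + 1) + (2 * s k + 1) - 1 =
            S x k + (2 * s k + 1) + (s k + 1) + 2 * s k by omega, g5, g4]
          push_cast
          ring
        rw [hS']
        rcases h.dt hσ (by omega) g7 with g8 | ⟨g8, g9⟩
        · exact absurd g8 (h.no_turn hσ (show 3 * s k + 1 < 8 * s k + 1 by omega) hg g6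
            (by omega) hf4)
        · exact ⟨g8, g9 hD3, ⟨_, by omega, g6⟩, fun hk' => absurd hk' hk⟩
      · exfalso
        have g3 := g2 hD2
        rw [f4] at g3
        exact e2 (s k) (by omega) (by omega) g3
    · have a1 := h.step1 hσ (by omega) (show s k + 1 < 2 * s k + 1 by omega) h6 (Or.inl (h7 hD1))
        hf2 hD2 hf3
      have a2 := h.step1 hσ (by omega) (show 2 * s k + 1 < 8 * s k + 1 by omega) a1.1
        (Or.inl a1.2.2) hf3 hD3 hf4
      rw [hS']
      refine ⟨a2.1, a2.2.2, ⟨(2 * s k + 1) + (s k + 1) + (2 * s k + 1), by omega, ?_⟩,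
        fun hk' => absurd hk' hk⟩
      rw [a2.2.1, a1.2.1, e3]
      push_cast
      ring

end Pool.Agent.V11257W
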