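import Pool.Agent.V11257.Wd1

/-!
# Walks and almost inclusion
-/

set_option linter.all false

namespace Pool.Agent.V11257W

variable {x y : Set ℕ} {κ : ℕ → ℤ}

/-- If the walk turns at the end of the block. -/
theorem Walk.turned (h : Walk x y κ) {k : ℕ} {σ : ℤ} (hσ : σ = 1 ∨ σ = -1)
    (h0 : κ (S x k + 1) = κ (S x k) + σ)
    (ht : ∀ τ : ℤ, τ = 1 ∨ τ = -1 → ¬ (κ (S x (k + 1) + 1) = κ (S x (k + 1)) + τ ∧
      DZ y (κ (S x (k + 1))) ∧ κ (S x (k + 1) - 1) = κ (S x (k + 1)) - τ)) :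
    κ (S x (k + 1)) = κ (S x k) + σ * (3 * s k + 1 : ℕ) ∧
      κ (S x (k + 1) + 1) = κ (S x (k + 1)) + -σ ∧
      ∀ t : ℕ, 0 < t → t < 3 * s k + 1 → ¬ DZ y (κ (S x k) + σ * t) := by
  have hs := s_pos k
  have hnext : ∀ j, S x (k + 1) < j → j < S x (k + 1) + (8 * s k + 1) → ¬ D x j := by
    intro j h1 h2
    refine free_start (k := k + 1) h1 ?_
    rw [s_succ]
    omega
  by_cases hk : k ∈ x
  · have hS : S x (k + 1) = S x k + (3 * s k + 1) := by rw [S_succ, len_in hk]
    have hf : ∀ j, S x k < j → j < S x k + (3 * s k + 1) → ¬ D x j := fun j h1 h2 =>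
      free_in hk h1 (by rw [hS]; exact h2)
    obtain ⟨e1, e2⟩ := h.seg hσ h0 hf
    have e3 := e1 (3 * s k + 1) le_rfl
    have e4 := e1 (3 * s k) (by omega)
    rw [← hS] at e3
    have e5 : κ (S x (k + 1) - 1) = κ (S x (k + 1)) - σ := by
      rw [e3, show S x (k + 1) - 1 = S x k + 3 * s k by omega, e4]
      push_cast
      ring
    refine ⟨e3, ?_, e2⟩
    rcases h.dt hσ (by omega) e5 with h6 | ⟨h6, h7⟩
    · rw [h6]; ring
    · exact absurd ⟨h6, h7 (D_succ x k), e5⟩ (ht σ hσ)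
  · have hS : S x (k + 1) = S x k + (5 * s k + 3) := by rw [S_succ, len_out hk]
    have hf1 : ∀ j, S x k < j → j < S x k + (2 * s k + 1) → ¬ D x j := fun j h1 h2 =>
      free_start h1 h2
    have hf2 : ∀ j, S x k + (2 * s k + 1) < j → j < S x k + (2 * s k + 1) + (s k + 1) →
        ¬ D x j := by
      intro j h1 h2 h3
      obtain ⟨-, h4⟩ := free h3 (k := k) (by omega) (by omega)
      omega
    have hf3 : ∀ j, S x k + (2 * s k + 1) + (s k + 1) < j →
        j < S x k + (2 * s k + 1) + (s k + 1) + (2 * s k + 1) → ¬ D x j := by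
      intro j h1 h2 h3
      obtain ⟨-, h4⟩ := free h3 (k := k) (by omega) (by omega)
      omega
    have hD1 : D x (S x k + (2 * s k + 1)) := D_one hk
    have hD2 : D x (S x k + (2 * s k + 1) + (s k + 1)) := by
      have := D_two hk
      rwa [show S x k + (3 * s k + 2) = S x k + (2 * s k + 1) + (s k + 1) by omega] at this
    have hS' : S x (k + 1) = S x k + (2 * s k + 1) + (s k + 1) + (2 * s k + 1) := by
      rw [hS]; omega
    have hD3 : D x (S x k + (2 * s k + 1) + (s k + 1) + (2 * s k + 1)) := by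
      rw [← hS']; exact D_succ x k
    have hf4 : ∀ j, S x k + (2 * s k + 1) + (s k + 1) + (2 * s k + 1) < j →
        j < S x k + (2 * s k + 1) + (s k + 1) + (2 * s k + 1) + (8 * s k + 1) → ¬ D x j :=
      fun j h1 h2 => hnext j (by omega) (by omega)
    obtain ⟨e1, e2⟩ := h.seg hσ h0 hf1
    have e3 := e1 (2 * s k + 1) le_rfl
    have e4 := e1 (2 * s k) (by omega)
    have e5 : κ (S x k + (2 * s k + 1) - 1) = κ (S x k + (2 * s k + 1)) - σ := by
      rw [show S x k + (2 * s k + 1) - 1 = S x k + 2 * s k by omega, e4, e3]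
      push_cast
      ring
    rcases h.dt hσ (show 0 < S x k + (2 * s k + 1) by omega) e5 with h6 | ⟨h6, h7⟩
    · -- turn
      have hσ' : -σ = 1 ∨ -σ = -1 := by
        rcases hσ with rfl | rfl
        · exact Or.inr rfl
        · exact Or.inl (by norm_num)
      obtain ⟨f1, -⟩ := h.seg hσ' (by rw [h6]; ring) hf2
      have f2 := f1 (s k + 1) le_rfl
      have f3 := f1 (s k) (by omega)
      have f4 : κ (S x k + (2 * s k + 1) + (s k + 1)) = κ (S x k) + σ * (s k) := by
        rw [f2, e3]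
        push_cast
        ring
      have f5 : κ (S x k + (2 * s k + 1) + (s k + 1) - 1) =
          κ (S x k + (2 * s k + 1) + (s k + 1)) - -σ := by
        rw [show S x k + (2 * s k + 1) + (s k + 1) - 1 = S x k + (2 * s k + 1) + s k by omega, f3,
          f2]
        push_cast
        ring
      rcases h.dt hσ' (by omega) f5 with g1 | ⟨g1, g2⟩
      · obtain ⟨g3, g3'⟩ := h.seg hσ (T := S x k + (2 * s k + 1) + (s k + 1)) (by rw [g1]; ring)
          hf3
        have g4 := g3 (2 * s k + 1) le_rfl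
        have g5 := g3 (2 * s k) (by omega)
        have g6 : κ (S x k + (2 * s k + 1) + (s k + 1) + (2 * s k + 1)) =
            κ (S x k) + σ * (3 * s k + 1 : ℕ) := by
          rw [g4, f4]
          push_cast
          ring
        have g7 : κ (S x k + (2 * s k + 1) + (s k + 1) + (2 * s k + 1) - 1) =
            κ (S x k + (2 * s k + 1) + (s k + 1) + (2 * s k + 1)) - σ := by
          rw [show S x k + (2 * s k + 1) + (s k + 1) + (2 * s k + 1) - 1 =
            S x k + (2 * s k + 1) + (s k + 1) + 2 * s k by omega, g5, g4]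
          push_cast
          ring
        have hcov : ∀ t : ℕ, 0 < t → t < 3 * s k + 1 → ¬ DZ y (κ (S x k) + σ * t) := by
          intro t h1 h2
          by_cases h3 : t < 2 * s k + 1
          · exact e2 t h1 h3
          · have h4 := g3' (t - s k) (by omega) (by omega)
            rw [f4] at h4
            have h5 : κ (S x k) + σ * (s k : ℤ) + σ * ((t - s k : ℕ) : ℤ) =
                κ (S x k) + σ * t := by
              rw [Nat.cast_sub (by omega)]
              ring
            rwa [h5] at h4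
        rw [← hS'] at g6 g7
        refine ⟨g6, ?_, hcov⟩
        rcases h.dt hσ (by omega) g7 with g8 | ⟨g8, g9⟩
        · rw [g8]; ring
        · exact absurd ⟨g8, g9 (D_succ x k), g7⟩ (ht σ hσ)
      · exfalso
        have g3 := g2 hD2
        rw [f4] at g3
        exact e2 (s k) (by omega) (by omega) g3
    · exfalso
      have a1 := h.step1 hσ (by omega) (show s k + 1 < 2 * s k + 1 by omega) h6 (Or.inl (h7 hD1))
        hf2 hD2 hf3
      have a2 := h.step1 hσ (by omega) (show 2 * s k + 1 < 8 * s k + 1 by omega) a1.1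
        (Or.inl a1.2.2) hf3 hD3 hf4
      obtain ⟨b1, -⟩ := h.seg hσ a1.1 hf3
      have b2 := b1 (2 * s k + 1) le_rfl
      have b3 := b1 (2 * s k) (by omega)
      refine ht σ hσ ?_
      rw [hS']
      refine ⟨a2.1, a2.2.2, ?_⟩
      rw [show S x k + (2 * s k + 1) + (s k + 1) + (2 * s k + 1) - 1 =
        S x k + (2 * s k + 1) + (s k + 1) + 2 * s k by omega, b2, b3]
      push_cast
      ring

/-- The walk passes at the end of a block. -/
theorem Walk.exists_pass (h : Walk x y κ) : ∃ k, ∃ τ : ℤ, (τ = 1 ∨ τ = -1) ∧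
    κ (S x (k + 1) + 1) = κ (S x (k + 1)) + τ ∧ DZ y (κ (S x (k + 1))) := by
  by_contra hcon
  push Not at hcon
  have ht : ∀ k, ∀ τ : ℤ, τ = 1 ∨ τ = -1 → ¬ (κ (S x (k + 1) + 1) = κ (S x (k + 1)) + τ ∧
      DZ y (κ (S x (k + 1))) ∧ κ (S x (k + 1) - 1) = κ (S x (k + 1)) - τ) :=
    fun k τ hτ h1 => hcon k τ hτ h1.1 h1.2.1
  have hI : ∀ k, ∃ σ : ℤ, (σ = 1 ∨ σ = -1) ∧ κ (S x k + 1) = κ (S x k) + σ ∧
      0 ≤ (κ 0 - κ (S x k)) * σ ∧ (κ 0 - κ (S x k)) * σ ≤ 3 * s k + 1 := by
    intro k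
    induction k with
    | zero =>
      rcases h.step 0 with h1 | h1
      · exact ⟨1, Or.inl rfl, h1, by simp [S], by simp [S]; positivity⟩
      · exact ⟨-1, Or.inr rfl, h1, by simp [S], by simp [S]; positivity⟩
    | succ k ih =>
      obtain ⟨σ, hσ, h1, h2, h3⟩ := ih
      obtain ⟨h4, h5, -⟩ := h.turned hσ h1 (ht k)
      have hs := s_succ k
      have hσσ : σ * σ = 1 := by rcases hσ with rfl | rfl <;> norm_num
      refine ⟨-σ, by rcases hσ with rfl | rfl <;> simp, h5, ?_, ?_⟩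
      · rw [h4]
        push_cast
        nlinarith
      · rw [h4, hs]
        push_cast
        nlinarith
  obtain ⟨g0, -⟩ : ∃ g : ℕ, True := ⟨0, trivial⟩
  obtain ⟨G, hG, hG0⟩ : ∃ G : ℕ, D y G ∧ κ 0 < G := by
    refine ⟨S y ((κ 0).toNat + 1 + 1), D_succ y _, ?_⟩
    have h1 := S_unb y ((κ 0).toNat + 1 + 1)
    have h2 := Int.toNat_of_nonneg (h.nonneg 0)
    omega
  obtain ⟨σ, hσ, h1, h2, h3⟩ := hI G
  obtain ⟨h4, h5, h6⟩ := h.turned hσ h1 (ht G)
  have h7 := s_unb G
  have h8 := h.nonneg (S x (G + 1))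
  have h9 := h.nonneg (S x G)
  rcases hσ with rfl | rfl
  · refine h6 (G - κ (S x G)).toNat (by omega) (by omega) ?_
    rw [Int.toNat_of_nonneg (by omega)]
    have : κ (S x G) + 1 * (↑G - κ (S x G)) = (G : ℤ) := by ring
    rw [this]
    exact DZ_nat.2 hG
  · rw [h4] at h8
    push_cast at h8
    refine h6 (κ (S x G) - G).toNat (by omega) (by omega) ?_
    rw [Int.toNat_of_nonneg (by omega)]
    have : κ (S x G) + -1 * (κ (S x G) - ↑G) = (G : ℤ) := by ring
    rw [this]
    exact DZ_nat.2 hG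

theorem two_three {m k : ℕ} : 2 * s m ≠ 3 * s k := by
  intro h
  have h1 : 3 ∣ 2 * s m := ⟨s k, h⟩
  have h2 : ¬ 3 ∣ s m := by
    unfold s
    intro h3
    have := Nat.Prime.dvd_of_dvd_pow Nat.prime_three h3
    omega
  have h3 : Nat.Coprime 3 2 := by norm_num
  exact h2 (h3.dvd_of_dvd_mul_left h1)

theorem one_three {m k : ℕ} : s m ≠ 3 * s k := by
  intro h
  have h2 : ¬ 3 ∣ s m := by
    unfold s
    intro h3
    have := Nat.Prime.dvd_of_dvd_pow Nat.prime_three h3
    omega
  exact h2 ⟨s k, h⟩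

/-- The gaps of length `3 s k + 1`. -/
theorem gap {g k : ℕ} (hg : D y g) (hg' : D y (g + (3 * s k + 1)))
    (hf : ∀ t, 0 < t → t < 3 * s k + 1 → ¬ D y (g + t)) : k ∈ y := by
  obtain ⟨l, h1⟩ := hg
  have key : ∀ m, g = S y m → k ∈ y := by
    intro m hm
    by_cases hmy : m ∈ y
    · have h2 : S y (m + 1) = g + (3 * s m + 1) := by rw [S_succ, len_in hmy, hm]
      have h3 : ¬ 3 * s m + 1 < 3 * s k + 1 := fun h4 => hf (3 * s m + 1) (by omega) h4
        (by rw [← h2]; exact D_succ y m)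
      have h4 : ¬ 3 * s k + 1 < 3 * s m + 1 := fun h5 => free_in (k := m) hmy (by omega)
        (by omega) hg'
      have h5 : m = k := s_inj (by omega)
      exact h5 ▸ hmy
    · exfalso
      have h2 : D y (g + (2 * s m + 1)) := by rw [hm]; exact D_one hmy
      have h3 : ¬ 2 * s m + 1 < 3 * s k + 1 := fun h4 => hf (2 * s m + 1) (by omega) h4 h2
      have h4 := two_three (m := m) (k := k)
      exact free_start (k := m) (show S y m < g + (3 * s k + 1) by omega) (by omega) hg'
  rcases h1 with h1 | ⟨hl, h1 | h1⟩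
  · exact key _ h1
  · exfalso
    have h2 : D y (g + (s l + 1)) := by
      have := D_two hl
      rwa [show S y l + (3 * s l + 2) = g + (s l + 1) by omega] at this
    have h3 : ¬ s l + 1 < 3 * s k + 1 := fun h4 => hf (s l + 1) (by omega) h4 h2
    have h4 := one_three (m := l) (k := k)
    have h5 : S y (l + 1) = S y l + (5 * s l + 3) := by rw [S_succ, len_out hl]
    obtain ⟨-, h6⟩ := free (k := l) hg' (by omega) (by omega)
    omega
  · exfalso
    have h5 : S y (l + 1) = S y l + (5 * s l + 3) := by rw [S_succ, len_out hl]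
    have h2 : D y (g + (2 * s l + 1)) := by
      have := D_succ y l
      rwa [show S y (l + 1) = g + (2 * s l + 1) by omega] at this
    have h3 : ¬ 2 * s l + 1 < 3 * s k + 1 := fun h4 => hf (2 * s l + 1) (by omega) h4 h2
    have h4 := two_three (m := l) (k := k)
    obtain ⟨-, h6⟩ := free (k := l) hg' (by omega) (by omega)
    omega

/-- Walks exist only for almost included sets. -/
theorem Walk.almost (h : Walk x y κ) : (x \ y).Finite := by
  obtain ⟨k₀, τ, hτ, h1, h2⟩ := h.exists_pass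
  have key : ∀ m, κ (S x (k₀ + 1 + m) + 1) = κ (S x (k₀ + 1 + m)) + τ ∧
      DZ y (κ (S x (k₀ + 1 + m))) := by
    intro m
    induction m with
    | zero => exact ⟨h1, h2⟩
    | succ m ih =>
      obtain ⟨a1, a2, -⟩ := h.blk hτ ih.1 (Or.inl ih.2)
      exact ⟨a1, a2⟩
  have hτ1 : τ = 1 := by
    rcases hτ with h3 | h3
    · exact h3
    · exfalso
      have h4 : ∀ m : ℕ, κ (S x (k₀ + 1 + m)) ≤ κ (S x (k₀ + 1)) - m := by
        intro m
        induction m with
        | zero => simp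
        | succ m ih =>
          obtain ⟨-, -, ⟨n, hn, a3⟩, -⟩ := h.blk (Or.inr h3) (key m).1 (Or.inl (key m).2)
          have e1 : k₀ + 1 + (m + 1) = k₀ + 1 + m + 1 := by ring
          rw [e1, a3, h3]
          push_cast
          omega
      have h5 := h4 ((κ (S x (k₀ + 1))).toNat + 1)
      have h6 := h.nonneg (S x (k₀ + 1 + ((κ (S x (k₀ + 1))).toNat + 1)))
      have h7 := Int.toNat_of_nonneg (h.nonneg (S x (k₀ + 1)))
      push_cast at h5
      omega
  subst hτ1
  refine (Set.finite_lt_nat (k₀ + 1)).subset fun k hk => ?_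
  by_contra hlt
  have hlt : k₀ + 1 ≤ k := not_lt.1 hlt
  obtain ⟨m, rfl⟩ := Nat.exists_eq_add_of_le hlt
  obtain ⟨-, b2, -, b4⟩ := h.blk hτ (key m).1 (Or.inl (key m).2)
  obtain ⟨b5, b6⟩ := b4 hk.1
  obtain ⟨g, hg, hgD⟩ := (key m).2
  refine hk.2 (gap (g := g) hgD ?_ fun t ht1 ht2 ht3 => ?_)
  · rw [b5, ← hg] at b2
    have e1 : (g : ℤ) + 1 * ((3 * s (k₀ + 1 + m) + 1 : ℕ) : ℤ) =
        ((g + (3 * s (k₀ + 1 + m) + 1) : ℕ) : ℤ) := by push_cast; ring
    rw [e1] at b2
    exact DZ_nat.1 b2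
  · refine b6 t ht1 ht2 ?_
    rw [← hg]
    have e1 : (g : ℤ) + 1 * (t : ℤ) = ((g + t : ℕ) : ℤ) := by push_cast; ring
    rw [e1]
    exact DZ_nat.2 ht3

end Pool.Agent.V11257W
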