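import Pool.Agent.V11257.Wd2

/-!
# Labels, and the existence of walks
-/

set_option linter.all false

namespace Pool.Agent.V11257W

variable {x y z : Set ℕ} {κ : ℕ → ℤ}

open Classical in
/-- The labels of the vertices. -/
noncomputable def lab (x : Set ℕ) : ℕ → Bool
  | 0 => false
  | i + 1 => if D x i then lab x i else !lab x i

theorem lab_succ (x : Set ℕ) (i : ℕ) [Decidable (D x i)] :
    lab x (i + 1) = if D x i then lab x i else !lab x i := by
  rw [lab]
  congr

theorem lab_D {i : ℕ} (h : D x i) : lab x (i + 1) = lab x i := by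
  classical
  rw [lab_succ, if_pos h]

theorem lab_nD {i : ℕ} (h : ¬ D x i) : lab x (i + 1) = !lab x i := by
  classical
  rw [lab_succ, if_neg h]

theorem D_iff_lab {i : ℕ} : D x i ↔ lab x (i + 1) = lab x i := by
  constructor
  · exact lab_D
  · intro h
    by_contra h1
    rw [lab_nD h1] at h
    cases hb : lab x i <;> rw [hb] at h <;> simp at h

theorem lab_one (x : Set ℕ) : lab x 1 = true := by
  have h : ¬ D x 0 := fun h => absurd (D_pos h) (lt_irrefl 0)
  rw [show (1 : ℕ) = 0 + 1 by rfl, lab_nD h]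
  rfl

theorem lab_run {T b : ℕ} (hf : ∀ j, T < j → j < T + (2 * b + 1) → ¬ D x j)
    (hD : D x (T + (2 * b + 1))) : lab x (T + (2 * b + 1) + 1) = lab x (T + 1) := by
  have key : ∀ c, c ≤ b → lab x (T + (2 * c + 1)) = lab x (T + 1) := by
    intro c
    induction c with
    | zero => intro _; rfl
    | succ c ih =>
      intro hc
      rw [show T + (2 * (c + 1) + 1) = T + (2 * c + 1) + 1 + 1 by ring,
        lab_nD (hf _ (by omega) (by omega)), lab_nD (hf _ (by omega) (by omega)),
        ih (by omega), Bool.not_not]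
  rw [lab_D hD, key b le_rfl]

theorem lab_run' {T a : ℕ} (ha : a % 2 = 1) (hf : ∀ j, T < j → j < T + a → ¬ D x j)
    (hD : D x (T + a)) : lab x (T + a + 1) = lab x (T + 1) := by
  obtain ⟨b, rfl⟩ : ∃ b, a = 2 * b + 1 := ⟨a / 2, by omega⟩
  exact lab_run hf hD

theorem lab_start (x : Set ℕ) (k : ℕ) : lab x (S x k + 1) = true := by
  induction k with
  | zero => exact lab_one x
  | succ k ih =>
    have hs := s_even k
    have hp := s_pos k
    by_cases hk : k ∈ x
    · have hS : S x (k + 1) = S x k + (3 * s k + 1) := by rw [S_succ, len_in hk]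
      rw [hS]
      exact (lab_run' (by omega) (fun j h1 h2 => free_in hk h1 (by rw [hS]; exact h2))
        (by rw [← hS]; exact D_succ x k)).trans ih
    · have hS : S x (k + 1) = S x k + (5 * s k + 3) := by rw [S_succ, len_out hk]
      have hS' : S x (k + 1) = S x k + (2 * s k + 1) + (s k + 1) + (2 * s k + 1) := by
        rw [hS]; omega
      have hf2 : ∀ j, S x k + (2 * s k + 1) < j → j < S x k + (2 * s k + 1) + (s k + 1) →
          ¬ D x j := by
        intro j h1 h2 h3
        obtain ⟨-, h4⟩ := free h3 (k := k) (by omega) (by omega)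
        omega
      have hf3 : ∀ j, S x k + (2 * s k + 1) + (s k + 1) < j →
          j < S x k + (2 * s k + 1) + (s k + 1) + (2 * s k + 1) → ¬ D x j := by
        intro j h1 h2 h3
        obtain ⟨-, h4⟩ := free h3 (k := k) (by omega) (by omega)
        omega
      have hD2 : D x (S x k + (2 * s k + 1) + (s k + 1)) := by
        have := D_two hk
        rwa [show S x k + (3 * s k + 2) = S x k + (2 * s k + 1) + (s k + 1) by omega] at this
      rw [hS', lab_run' (by omega) hf3 (by rw [← hS']; exact D_succ x k),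
        lab_run' (by omega) hf2 hD2, lab_run' (by omega) (fun j h1 h2 => free_start h1 h2)
          (D_one hk)]
      exact ih

theorem S_parity (x : Set ℕ) (k : ℕ) : S x k % 2 = k % 2 := by
  induction k with
  | zero => rfl
  | succ k ih =>
    have hs := s_even k
    rw [S_succ]
    by_cases hk : k ∈ x
    · rw [len_in hk]; omega
    · rw [len_out hk]; omega

/-- The walks that respect the labels. -/
structure Good (x y : Set ℕ) (κ : ℕ → ℤ) : Prop where
  nonneg : ∀ i, 0 ≤ κ i
  step : ∀ i, κ (i + 1) = κ i + 1 ∨ κ (i + 1) = κ i - 1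
  par : ∀ i : ℕ, (κ i - i) % 2 = 0
  lab : ∀ i, lab x (i + 1) = lab y (max (κ i) (κ (i + 1))).toNat

theorem toNat_DZ {j : ℤ} (hj : 0 ≤ j) : DZ y j ↔ D y j.toNat := by
  obtain ⟨n, rfl⟩ := Int.eq_ofNat_of_zero_le hj
  exact DZ_nat

theorem Walk.lab_iff (h : Walk x y κ) (i : ℕ) :
    lab x (i + 1) = lab y (max (κ i) (κ (i + 1))).toNat ↔
      lab x (i + 1 + 1) = lab y (max (κ (i + 1)) (κ (i + 1 + 1))).toNat := by
  by_cases h1 : κ (i + 2) = κ i
  · rw [lab_D (h.turn i h1), show i + 1 + 1 = i + 2 by ring, h1, max_comm (κ (i + 1)) (κ i)]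
  · have h2 := h.str i h1
    have n0 := h.nonneg i
    have n1 := h.nonneg (i + 1)
    have n2 := h.nonneg (i + 2)
    have s1 := h.step i
    have s2 := h.step (i + 1)
    rw [show i + 1 + 1 = i + 2 by ring] at s2 ⊢
    rw [toNat_DZ n1] at h2
    have key : ∀ e : ℕ, (D x (i + 1) ↔ D y e) → ((lab x (i + 1) = lab y e ↔
        lab x (i + 2) = lab y (e + 1)) ∧ (lab x (i + 1) = lab y (e + 1) ↔
        lab x (i + 2) = lab y e)) := by
      intro e he
      rw [show i + 2 = i + 1 + 1 by ring]
      by_cases hD : D x (i + 1)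
      · rw [lab_D hD, lab_D (he.1 hD)]
        exact ⟨Iff.rfl, Iff.rfl⟩
      · rw [lab_nD hD, lab_nD (fun h => hD (he.2 h))]
        cases lab x (i + 1) <;> cases lab y e <;> simp
    obtain ⟨k1, k2⟩ := key _ h2
    rcases s1 with s1 | s1 <;> rcases s2 with s2 | s2
    · rw [show (max (κ i) (κ (i + 1))).toNat = (κ (i + 1)).toNat by omega,
        show (max (κ (i + 1)) (κ (i + 2))).toNat = (κ (i + 1)).toNat + 1 by omega]
      exact k1
    · exfalso; apply h1; omega
    · exfalso; apply h1; omega
    · rw [show (max (κ i) (κ (i + 1))).toNat = (κ (i + 1)).toNat + 1 by omega,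
        show (max (κ (i + 1)) (κ (i + 2))).toNat = (κ (i + 1)).toNat by omega]
      exact k2

theorem Walk.good (h : Walk x y κ) (i₀ : ℕ) (hp : (κ i₀ - i₀) % 2 = 0)
    (hl : V11257W.lab x (i₀ + 1) = V11257W.lab y (max (κ i₀) (κ (i₀ + 1))).toNat) :
    Good x y κ := by
  have e1 : ∀ i, V11257W.lab x (i + 1) = V11257W.lab y (max (κ i) (κ (i + 1))).toNat ↔
      V11257W.lab x (0 + 1) = V11257W.lab y (max (κ 0) (κ (0 + 1))).toNat := by
    intro i
    induction i with
    | zero => exact Iff.rfl
    | succ i ih => exact (h.lab_iff i).symm.trans ih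
  have e2 : ∀ i : ℕ, (κ i - i) % 2 = 0 ↔ (κ 0 - (0 : ℕ)) % 2 = 0 := by
    intro i
    induction i with
    | zero => exact Iff.rfl
    | succ i ih =>
      rw [← ih]
      rcases h.step i with h1 | h1 <;> rw [h1] <;> push_cast <;> omega
  exact ⟨h.nonneg, h.step, fun i => (e2 i).2 ((e2 i₀).1 hp), fun i => (e1 i).2 ((e1 i₀).1 hl)⟩

open Classical in
/-- The directions. -/
noncomputable def dir (x y : Set ℕ) (i : ℕ) : ℤ :=
  if ∃ k, k ∉ x ∧ k ∈ y ∧ S x k + (2 * s k + 1) ≤ i ∧ i < S x k + (3 * s k + 2) then -1 else 1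

/-- The walk. -/
noncomputable def wk (x y : Set ℕ) : ℕ → ℤ
  | 0 => 0
  | i + 1 => wk x y i + dir x y i

theorem blk_unique {k l i : ℕ} (h1 : S x k ≤ i) (h2 : i < S x (k + 1)) (h3 : S x l ≤ i)
    (h4 : i < S x (l + 1)) : k = l := by
  rcases lt_trichotomy k l with h | h | h
  · have := (S_mono x).monotone (show k + 1 ≤ l from h)
    omega
  · exact h
  · have := (S_mono x).monotone (show l + 1 ≤ k from h)
    omega

theorem wk_line {T a : ℕ} {d : ℤ} (hd : ∀ i, T ≤ i → i < T + a → dir x y i = d) :
    ∀ t, t ≤ a → wk x y (T + t) = wk x y T + d * t := by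
  intro t
  induction t with
  | zero => intro _; simp
  | succ t ih =>
    intro ht
    rw [show T + (t + 1) = T + t + 1 by ring, wk, ih (by omega), hd _ (by omega) (by omega)]
    push_cast
    ring

theorem dir_one {k i : ℕ} (h1 : S x k ≤ i) (h2 : i < S x (k + 1))
    (h3 : ¬ (k ∉ x ∧ k ∈ y ∧ S x k + (2 * s k + 1) ≤ i ∧ i < S x k + (3 * s k + 2))) :
    dir x y i = 1 := by
  refine if_neg ?_
  rintro ⟨l, h4, h5, h6, h7⟩
  have h8 : k = l := blk_unique h1 h2 (by omega) (by rw [S_succ, len_out h4]; omega)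
  subst h8
  exact h3 ⟨h4, h5, h6, h7⟩

/-- The positions of the walk. -/
theorem wk_blk (hxy : x ⊆ y) (k : ℕ) : wk x y (S x k) = S y k ∧
    ((k ∈ x ↔ k ∈ y) → ∀ t : ℕ, t ≤ len x k → wk x y (S x k + t) = S y k + t) ∧
    (k ∉ x → k ∈ y →
      (∀ t : ℕ, t ≤ 2 * s k + 1 → wk x y (S x k + t) = S y k + t) ∧
      (∀ t : ℕ, 2 * s k + 1 ≤ t → t ≤ 3 * s k + 2 →
        wk x y (S x k + t) = S y k + (4 * s k + 2) - t) ∧
      (∀ t : ℕ, 3 * s k + 2 ≤ t → t ≤ 5 * s k + 3 →
        wk x y (S x k + t) = S y k + t - (2 * s k + 2))) := by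
  have step : ∀ k, wk x y (S x k) = S y k →
    ((k ∈ x ↔ k ∈ y) → ∀ t : ℕ, t ≤ len x k → wk x y (S x k + t) = S y k + t) ∧
    (k ∉ x → k ∈ y →
      (∀ t : ℕ, t ≤ 2 * s k + 1 → wk x y (S x k + t) = S y k + t) ∧
      (∀ t : ℕ, 2 * s k + 1 ≤ t → t ≤ 3 * s k + 2 →
        wk x y (S x k + t) = S y k + (4 * s k + 2) - t) ∧
      (∀ t : ℕ, 3 * s k + 2 ≤ t → t ≤ 5 * s k + 3 →
        wk x y (S x k + t) = S y k + t - (2 * s k + 2))) := by
    intro k h0
    have hs := s_pos k
    refine ⟨fun hk t ht => ?_, fun h1 h2 => ?_⟩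
    · have h1 := wk_line (x := x) (y := y) (T := S x k) (a := len x k) (d := 1) (fun i h1 h2 =>
        dir_one h1 (by rw [S_succ]; exact h2) fun h3 => h3.1 (hk.2 h3.2.1)) t ht
      rw [h1, h0]
      ring
    · have hS : S x (k + 1) = S x k + (5 * s k + 3) := by rw [S_succ, len_out h1]
      have e1 := wk_line (x := x) (y := y) (T := S x k) (a := 2 * s k + 1) (d := 1)
        (fun i h3 h4 => dir_one h3 (by omega) fun h5 => by omega)
      have e2 := wk_line (x := x) (y := y) (T := S x k + (2 * s k + 1)) (a := s k + 1) (d := -1)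
        (fun i h3 h4 => if_pos ⟨k, h1, h2, by omega, by omega⟩)
      have e3 := wk_line (x := x) (y := y) (T := S x k + (2 * s k + 1) + (s k + 1))
        (a := 2 * s k + 1) (d := 1) (fun i h3 h4 => dir_one (k := k) (by omega) (by omega)
          fun h5 => by omega)
      refine ⟨fun t ht => ?_, fun t ht1 ht2 => ?_, fun t ht1 ht2 => ?_⟩
      · rw [e1 t ht, h0]
        ring
      · have f1 := e2 (t - (2 * s k + 1)) (by omega)
        rw [show S x k + (2 * s k + 1) + (t - (2 * s k + 1)) = S x k + t by omega,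
          e1 _ le_rfl, h0] at f1
        rw [f1, Nat.cast_sub ht1]
        push_cast
        ring
      · have f1 := e3 (t - (3 * s k + 2)) (by omega)
        rw [show S x k + (2 * s k + 1) + (s k + 1) + (t - (3 * s k + 2)) = S x k + t by omega,
          e2 _ le_rfl, e1 _ le_rfl, h0] at f1
        rw [f1, Nat.cast_sub ht1]
        push_cast
        ring
  have h0 : ∀ k, wk x y (S x k) = S y k := by
    intro k
    induction k with
    | zero => rfl
    | succ k ih =>
      obtain ⟨h1, h2⟩ := step k ih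
      by_cases hk : k ∈ x ↔ k ∈ y
      · rw [S_succ, h1 hk _ le_rfl, S_succ]
        have : len x k = len y k := by
          by_cases h3 : k ∈ x
          · rw [len_in h3, len_in (hk.1 h3)]
          · rw [len_out h3, len_out fun h4 => h3 (hk.2 h4)]
        rw [this]
        push_cast
        ring
      · have h3 : k ∉ x := fun h3 => hk ⟨fun _ => hxy h3, fun _ => h3⟩
        have h4 : k ∈ y := by
          by_contra h4
          exact hk ⟨fun h => absurd h h3, fun h => absurd h h4⟩
        rw [S_succ, len_out h3, (h2 h3 h4).2.2 _ (by omega) le_rfl, S_succ, len_in h4]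
        push_cast
        ring
  exact ⟨h0 k, step k (h0 k)⟩

theorem exists_blk (x : Set ℕ) {j : ℕ} (hj : 0 < j) : ∃ k, S x k < j ∧ j ≤ S x (k + 1) := by
  have h1 : ∃ k, j ≤ S x k := ⟨j, S_unb x j⟩
  classical
  have h2 := Nat.find_spec h1
  rcases Nat.eq_zero_or_pos (Nat.find h1) with h3 | h3
  · rw [h3] at h2
    change j ≤ 0 at h2
    omega
  · refine ⟨Nat.find h1 - 1, not_le.1 (Nat.find_min h1 (by omega)), ?_⟩
    rw [show Nat.find h1 - 1 + 1 = Nat.find h1 by omega]
    exact h2

theorem D_in_blk {k t : ℕ} (h0 : 0 < t) (h1 : t < len x k) :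
    D x (S x k + t) ↔ k ∉ x ∧ (t = 2 * s k + 1 ∨ t = 3 * s k + 2) := by
  constructor
  · intro h
    obtain ⟨h2, h3⟩ := free (k := k) h (by omega) (by rw [S_succ]; omega)
    exact ⟨h2, by omega⟩
  · rintro ⟨h2, rfl | rfl⟩
    · exact D_one h2
    · exact D_two h2

/-- The walk for a subset. -/
theorem walk_wk (hxy : x ⊆ y) : Walk x y (wk x y) := by
  have hpos : ∀ i, 0 ≤ wk x y i := by
    intro i
    rcases Nat.eq_zero_or_pos i with rfl | hi
    · exact le_rfl
    · obtain ⟨k, h1, h2⟩ := exists_blk x hi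
      have hs := s_pos k
      obtain ⟨h3, h4, h5⟩ := wk_blk hxy k
      obtain ⟨t, rfl⟩ := Nat.exists_eq_add_of_lt h1
      rw [S_succ] at h2
      by_cases hk : k ∈ x ↔ k ∈ y
      · rw [show S x k + t + 1 = S x k + (t + 1) by ring, h4 hk _ (by omega)]
        positivity
      · have h3 : k ∉ x := fun h3 => hk ⟨fun _ => hxy h3, fun _ => h3⟩
        have h4 : k ∈ y := by
          by_contra h4
          exact hk ⟨fun h => absurd h h3, fun h => absurd h h4⟩
        obtain ⟨a1, a2, a3⟩ := h5 h3 h4
        rw [len_out h3] at h2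
        rw [show S x k + t + 1 = S x k + (t + 1) by ring]
        rcases le_total (t + 1) (2 * s k + 1) with h6 | h6
        · rw [a1 _ h6]; positivity
        · rcases le_total (t + 1) (3 * s k + 2) with h7 | h7
          · rw [a2 _ h6 h7]; push_cast; omega
          · rw [a3 _ h7 (by omega)]; push_cast; omega
  refine ⟨hpos, fun i => ?_, fun i h => ?_, fun i h => ?_⟩
  · rw [wk]
    unfold dir
    split_ifs
    · right; ring
    · left; rfl
  all_goals
    obtain ⟨k, h1, h2⟩ := exists_blk x (show 0 < i + 1 by omega)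
    have hs := s_pos k
    have hs' := s_pos (k + 1)
    obtain ⟨-, h4, h5⟩ := wk_blk hxy k
    obtain ⟨b1, b2, b3⟩ := wk_blk hxy (k + 1)
    obtain ⟨t, ht⟩ := Nat.exists_eq_add_of_lt h1
    have ht : i = S x k + t := by omega
    subst ht
    have hn : wk x y (S x (k + 1) + 1) = S y (k + 1) + 1 := by
      by_cases hk : k + 1 ∈ x ↔ k + 1 ∈ y
      · have := b2 hk 1 (by have := len_ge x (k + 1); omega)
        rw [this]; rfl
      · have h3 : k + 1 ∉ x := fun h3 => hk ⟨fun _ => hxy h3, fun _ => h3⟩
        have h4 : k + 1 ∈ y := by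
          by_contra h4
          exact hk ⟨fun h => absurd h h3, fun h => absurd h h4⟩
        have := (b3 h3 h4).1 1 (by omega)
        rw [this]; rfl
  · -- turn
    rw [S_succ] at h2
    by_contra hD
    by_cases hk : k ∈ x ↔ k ∈ y
    · rcases Nat.lt_or_ge (t + 1) (len x k) with h6 | h6
      · rw [show S x k + t + 2 = S x k + (t + 2) by ring, h4 hk _ (by omega),
          h4 hk _ (by omega)] at h
        push_cast at h
        omega
      · apply hD
        rw [show S x k + t + 1 = S x (k + 1) by rw [S_succ]; omega]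
        exact D_succ x k
    · have h3 : k ∉ x := fun h3 => hk ⟨fun _ => hxy h3, fun _ => h3⟩
      have h4 : k ∈ y := by
        by_contra h4
        exact hk ⟨fun h => absurd h h3, fun h => absurd h h4⟩
      obtain ⟨a1, a2, a3⟩ := h5 h3 h4
      have hlen := len_out h3
      rw [hlen] at h2
      rw [show S x k + t + 1 = S x k + (t + 1) by ring] at hD
      rcases Nat.lt_or_ge (t + 1) (5 * s k + 3) with h6 | h6
      · rw [D_in_blk (by omega) (by omega)] at hD
        push Not at hD
        obtain ⟨c1, c2⟩ := hD h3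
        rw [show S x k + t + 2 = S x k + (t + 2) by ring] at h
        rcases Nat.lt_or_ge (t + 1) (2 * s k + 1) with h7 | h7
        · rw [a1 _ (by omega), a1 _ (by omega)] at h
          push_cast at h; omega
        · rcases Nat.lt_or_ge (t + 1) (3 * s k + 2) with h8 | h8
          · rw [a2 _ (by omega) (by omega), a2 _ (by omega) (by omega)] at h
            push_cast at h; omega
          · rw [a3 _ (by omega) (by omega), a3 _ (by omega) (by omega)] at h
            push_cast at h; omega
      · apply hD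
        rw [show S x k + (t + 1) = S x (k + 1) by rw [S_succ]; omega]
        exact D_succ x k
  · -- straight
    rcases Nat.lt_or_ge (S x k + t + 1) (S x (k + 1)) with h6 | h6
    · rw [S_succ] at h6
      have h6' : t + 1 < len x k := by omega
      rw [show S x k + t + 1 = S x k + (t + 1) by ring, D_in_blk (by omega) h6']
      by_cases hk : k ∈ x ↔ k ∈ y
      · have hlen : len x k = len y k := by
          by_cases h3 : k ∈ x
          · rw [len_in h3, len_in (hk.1 h3)]
          · rw [len_out h3, len_out fun h4 => h3 (hk.2 h4)]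
        rw [h4 hk _ (by omega)]
        have e1 : (S y k : ℤ) + ((t + 1 : ℕ) : ℤ) = ((S y k + (t + 1) : ℕ) : ℤ) := by push_cast; ring
        rw [e1, DZ_nat, D_in_blk (by omega) (by omega), hk]
      · have h3 : k ∉ x := fun h3 => hk ⟨fun _ => hxy h3, fun _ => h3⟩
        have h4 : k ∈ y := by
          by_contra h4
          exact hk ⟨fun h => absurd h h3, fun h => absurd h h4⟩
        obtain ⟨a1, a2, a3⟩ := h5 h3 h4
        rw [len_out h3] at h6'
        have hfree : ∀ u : ℕ, 0 < u → u < 3 * s k + 1 → ¬ D y (S y k + u) := fun u h7 h8 =>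
          free_in h4 (by omega) (by rw [S_succ, len_in h4]; omega)
        have hc1 : t + 1 ≠ 2 * s k + 1 := by
          intro hc
          apply h
          rw [show S x k + t + 2 = S x k + (t + 2) by ring, a2 _ (by omega) (by omega),
            a1 _ (by omega)]
          push_cast
          omega
        have hc2 : t + 1 ≠ 3 * s k + 2 := by
          intro hc
          apply h
          rw [show S x k + t + 2 = S x k + (t + 2) by ring, a3 _ (by omega) (by omega),
            a2 _ (by omega) (by omega)]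
          push_cast
          omega
        refine iff_of_false (fun h7 => by omega) ?_
        rcases Nat.lt_or_ge (t + 1) (2 * s k + 1) with h7 | h7
        · rw [a1 _ (by omega)]
          have e1 : (S y k : ℤ) + ((t + 1 : ℕ) : ℤ) = ((S y k + (t + 1) : ℕ) : ℤ) := by
            push_cast; ring
          rw [e1, DZ_nat]
          exact hfree _ (by omega) (by omega)
        · rcases Nat.lt_or_ge (t + 1) (3 * s k + 2) with h8 | h8
          · rw [a2 _ (by omega) (by omega)]
            have e1 : (S y k : ℤ) + (4 * s k + 2) - ((t + 1 : ℕ) : ℤ) =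
                ((S y k + (4 * s k + 1 - t) : ℕ) : ℤ) := by omega
            rw [e1, DZ_nat]
            exact hfree _ (by omega) (by omega)
          · rw [a3 _ (by omega) (by omega)]
            have e1 : (S y k : ℤ) + ((t + 1 : ℕ) : ℤ) - (2 * s k + 2) =
                ((S y k + (t + 1 - (2 * s k + 2)) : ℕ) : ℤ) := by omega
            rw [e1, DZ_nat]
            exact hfree _ (by omega) (by omega)
    · have h7 : S x k + t + 1 = S x (k + 1) := by omega
      rw [h7]
      rw [b1]
      exact iff_of_true (D_succ x k) (DZ_nat.2 (D_succ y k))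

theorem exists_good_subset (hxy : x ⊆ y) : ∃ κ, Good x y κ := by
  refine ⟨wk x y, (walk_wk hxy).good 0 (by rfl) ?_⟩
  have h1 : dir x y 0 = 1 := by
    refine dir_one (k := 0) le_rfl (S_lt x 0) ?_
    rintro ⟨-, -, h1, -⟩
    change 0 + _ ≤ 0 at h1
    omega
  have h2 : wk x y (0 + 1) = 1 := by
    rw [wk, h1]
    rfl
  rw [h2]
  have h3 : (max (wk x y 0) 1).toNat = 1 := rfl
  rw [h3, lab_one]
  exact (lab_one y).symm

end Pool.Agent.V11257W
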