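import Pool.Agent.V11257.Wd3

/-!
# The walk that folds an initial part
-/

set_option linter.all false

namespace Pool.Agent.V11257W

variable {x y z : Set ℕ} {κ : ℕ → ℤ}

/-- The zigzag. -/
noncomputable def Zg (z : Set ℕ) : ℕ → ℕ → ℤ
  | 0, _ => 0
  | m + 1, i => if i ≤ S z m then (3 * s m + 1) - Zg z m i else S z (m + 1) - i

theorem Zg_lo {m i : ℕ} (h : i ≤ S z m) : Zg z (m + 1) i = (3 * s m + 1) - Zg z m i := by
  rw [Zg, if_pos h]

/-- The properties of the zigzag. -/
theorem Zg_prop {k₀ : ℕ} (hz : ∀ k, k < k₀ → k ∈ z) (m : ℕ) (hm : m ≤ k₀) :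
    Zg z m (S z m) = 0 ∧ (∀ i, i ≤ S z m → 0 ≤ Zg z m i ∧ Zg z m i ≤ s m) ∧
    (∀ i, i < S z m → Zg z m (i + 1) = Zg z m i + 1 ∨ Zg z m (i + 1) = Zg z m i - 1) ∧
    (∀ i, i + 2 ≤ S z m → (Zg z m (i + 2) = Zg z m i → ∃ l, i + 1 = S z (l + 1)) ∧
      (Zg z m (i + 2) ≠ Zg z m i → (∀ l, i + 1 ≠ S z (l + 1)) ∧ 0 < Zg z m (i + 1))) ∧
    (0 < m → Zg z m (S z m - 1) = 1) := by
  induction m with
  | zero =>
    refine ⟨rfl, fun i hi => ⟨le_rfl, by simp [Zg]⟩, fun i hi => ?_, fun i hi => ?_, fun h => ?_⟩
    · exact absurd hi (Nat.not_lt_zero _)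
    · change i + 2 ≤ 0 at hi
      omega
    · omega
  | succ m ih =>
    obtain ⟨a, b, c, d, e⟩ := ih (by omega)
    have hs := s_pos m
    have hs' := s_succ m
    have hS : S z (m + 1) = S z m + (3 * s m + 1) := by rw [S_succ, len_in (hz m (by omega))]
    have lo : ∀ i, i ≤ S z m → Zg z (m + 1) i = (3 * s m + 1) - Zg z m i := fun i hi => Zg_lo hi
    have hi : ∀ i, S z m ≤ i → Zg z (m + 1) i = S z (m + 1) - i := by
      intro i hi
      rcases Nat.eq_or_lt_of_le hi with h1 | h1
      · rw [← h1, lo _ le_rfl, a, hS]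
        push_cast
        ring
      · rw [Zg, if_neg (by omega)]
    refine ⟨by rw [hi _ (by omega)]; ring, fun i h1 => ?_, fun i h1 => ?_, fun i h1 => ?_,
      fun _ => ?_⟩
    · rcases le_total i (S z m) with h2 | h2
      · rw [lo i h2]
        obtain ⟨h3, h4⟩ := b i h2
        omega
      · rw [hi i h2]
        omega
    · rcases Nat.lt_or_ge i (S z m) with h2 | h2
      · rw [lo i (by omega), lo (i + 1) (by omega)]
        rcases c i h2 with h3 | h3 <;> rw [h3]
        · right; ring
        · left; ring
      · rw [hi i h2, hi (i + 1) (by omega)]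
        right
        push_cast
        ring
    · rcases Nat.lt_or_ge (i + 1) (S z m) with h2 | h2
      · rw [lo i (by omega), lo (i + 2) (by omega), lo (i + 1) (by omega)]
        obtain ⟨d1, d2⟩ := d i (by omega)
        have h3 := b (i + 1) (by omega)
        refine ⟨fun h4 => d1 (by omega), fun h4 => ⟨(d2 fun h5 => h4 (by rw [h5])).1, by omega⟩⟩
      · rcases Nat.eq_or_lt_of_le h2 with h3 | h3
        · have hm0 : 0 < m := by
            rcases Nat.eq_zero_or_pos m with h4 | h4
            · subst h4
              change 0 = _ at h3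
              omega
            · exact h4
          have h4 := e hm0
          rw [h3, show i + 1 - 1 = i by omega] at h4
          rw [lo i (by omega), hi (i + 2) (by omega), h4]
          refine ⟨fun _ => ⟨m - 1, ?_⟩, fun h5 => ?_⟩
          · rw [show m - 1 + 1 = m by omega]
            exact h3.symm
          · exfalso
            apply h5
            rw [hS]
            push_cast
            omega
        · rw [hi i (by omega), hi (i + 2) (by omega), hi (i + 1) (by omega)]
          refine ⟨fun h5 => by push_cast at h5; omega, fun _ => ⟨fun l hl => ?_, by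
            push_cast; omega⟩⟩
          have h5 : l + 1 = m + 1 ∨ l + 1 ≤ m ∨ m + 1 < l + 1 := by omega
          rcases h5 with h5 | h5 | h5
          · rw [h5] at hl; omega
          · have := (S_mono z).monotone h5
            omega
          · have := (S_mono z) h5
            omega
    · rw [hi _ (by omega), Nat.cast_sub (by omega)]
      push_cast
      ring

/-- The walk. -/
noncomputable def zw (z y : Set ℕ) (k₀ : ℕ) (i : ℕ) : ℤ :=
  if i ≤ S z k₀ then S y k₀ + Zg z k₀ i else S y k₀ + (i - S z k₀)

theorem walk_zw {k₀ : ℕ} (hz : ∀ k, k < k₀ → k ∈ z) (hzy : ∀ k, k₀ ≤ k → (k ∈ z ↔ k ∈ y)) :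
    Walk z y (zw z y k₀) := by
  obtain ⟨a, b, c, d, e⟩ := Zg_prop hz k₀ le_rfl
  have hs := s_pos k₀
  have lo : ∀ i, i ≤ S z k₀ → zw z y k₀ i = S y k₀ + Zg z k₀ i := fun i hi => if_pos hi
  have hi : ∀ i, S z k₀ ≤ i → zw z y k₀ i = S y k₀ + (i - S z k₀) := by
    intro i h1
    rcases Nat.eq_or_lt_of_le h1 with h2 | h2
    · rw [← h2, lo _ le_rfl, a]
      ring
    · exact if_neg (by omega)
  have hshift : ∀ m, (S z (k₀ + m) : ℤ) - S z k₀ = S y (k₀ + m) - S y k₀ := by
    intro m
    induction m with
    | zero => simp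
    | succ m ih =>
      have : len z (k₀ + m) = len y (k₀ + m) := by
        have h1 := hzy (k₀ + m) (by omega)
        by_cases h3 : k₀ + m ∈ z
        · rw [len_in h3, len_in (h1.1 h3)]
        · rw [len_out h3, len_out fun h4 => h3 (h1.2 h4)]
      rw [show k₀ + (m + 1) = k₀ + m + 1 by ring, S_succ, S_succ, this]
      push_cast
      linarith
  refine ⟨fun i => ?_, fun i => ?_, fun i h => ?_, fun i h => ?_⟩
  · rcases le_total i (S z k₀) with h1 | h1
    · rw [lo i h1]
      have := (b i h1).1
      positivity
    · rw [hi i h1]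
      omega
  · rcases Nat.lt_or_ge i (S z k₀) with h1 | h1
    · rw [lo i (by omega), lo (i + 1) (by omega)]
      rcases c i h1 with h2 | h2 <;> rw [h2]
      · left; ring
      · right; ring
    · rw [hi i h1, hi (i + 1) (by omega)]
      left
      push_cast
      ring
  · rcases Nat.lt_or_ge (i + 1) (S z k₀) with h1 | h1
    · rw [lo i (by omega), lo (i + 2) (by omega)] at h
      obtain ⟨l, hl⟩ := (d i (by omega)).1 (by omega)
      rw [hl]
      exact D_succ z l
    · rcases Nat.eq_or_lt_of_le h1 with h3 | h3
      · have hm0 : 0 < k₀ := by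
          rcases Nat.eq_zero_or_pos k₀ with h4 | h4
          · subst h4
            change 0 = _ at h3
            omega
          · exact h4
        rw [← h3, show k₀ = k₀ - 1 + 1 by omega]
        exact D_succ z _
      · rw [hi i (by omega), hi (i + 2) (by omega)] at h
        push_cast at h
        omega
  · rcases Nat.lt_or_ge (i + 1) (S z k₀) with h1 | h1
    · rw [lo i (by omega), lo (i + 2) (by omega)] at h
      obtain ⟨h2, h3⟩ := (d i (by omega)).2 (fun h4 => h (by rw [h4]))
      have h4 := (b (i + 1) (by omega)).2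
      rw [lo (i + 1) (by omega)]
      refine iff_of_false (fun h5 => ?_) ?_
      · obtain ⟨k, h6, h7, h8⟩ := D_bd h5
        have h9 : k < k₀ := by
          by_contra h9
          have := (S_mono z).monotone (not_lt.1 h9)
          omega
        rcases h8 with h8 | h8
        · exact h2 k h8
        · exact h8.1 (hz k h9)
      · obtain ⟨n, hn⟩ := Int.eq_ofNat_of_zero_le h3.le
        rw [hn] at h3 h4 ⊢
        have e1 : (S y k₀ : ℤ) + (n : ℤ) = ((S y k₀ + n : ℕ) : ℤ) := by push_cast; ring
        rw [e1, DZ_nat]
        exact free_start (k := k₀) (by omega) (by omega)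
    · rcases Nat.eq_or_lt_of_le h1 with h3 | h3
      · exfalso
        have hm0 : 0 < k₀ := by
          rcases Nat.eq_zero_or_pos k₀ with h4 | h4
          · subst h4
            change 0 = _ at h3
            omega
          · exact h4
        have h4 := e hm0
        rw [h3, show i + 1 - 1 = i by omega] at h4
        apply h
        rw [lo i (by omega), hi (i + 2) (by omega), h4]
        push_cast
        omega
      · rw [hi (i + 1) (by omega)]
        have h4 : ∀ m, k₀ ≤ m → (S z m : ℤ) - S z k₀ = S y m - S y k₀ := by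
          intro m hm
          obtain ⟨u, rfl⟩ := Nat.exists_eq_add_of_le hm
          exact hshift u
        constructor
        · intro h5
          obtain ⟨k, h6, h7, h8⟩ := D_bd h5
          have h9 : k₀ ≤ k := by
            by_contra h9
            have := (S_mono z).monotone (show k + 1 ≤ k₀ by omega)
            omega
          have f1 := h4 k h9
          have f2 := h4 (k + 1) (by omega)
          rcases h8 with h8 | ⟨h8, h10 | h10⟩
          · refine ⟨S y (k + 1), ?_, D_succ y k⟩
            rw [h8]; omega
          · refine ⟨S y k + (2 * s k + 1), ?_, D_one fun h => h8 ((hzy k h9).2 h)⟩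
            rw [h10]; push_cast; omega
          · refine ⟨S y k + (3 * s k + 2), ?_, D_two fun h => h8 ((hzy k h9).2 h)⟩
            rw [h10]; push_cast; omega
        · rintro ⟨n, hn, h5⟩
          obtain ⟨k, h6, h7, h8⟩ := D_bd h5
          have h9 : k₀ ≤ k := by
            by_contra h9
            have := (S_mono y).monotone (show k + 1 ≤ k₀ by omega)
            omega
          have f1 := h4 k h9
          have f2 := h4 (k + 1) (by omega)
          rcases h8 with h8 | ⟨h8, h10 | h10⟩
          · have : i + 1 = S z (k + 1) := by omega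
            rw [this]
            exact D_succ z k
          · have : i + 1 = S z k + (2 * s k + 1) := by omega
            rw [this]
            exact D_one fun h => h8 ((hzy k h9).1 h)
          · have : i + 1 = S z k + (3 * s k + 2) := by omega
            rw [this]
            exact D_two fun h => h8 ((hzy k h9).1 h)

theorem exists_good_prefix {k₀ : ℕ} (hz : ∀ k, k < k₀ → k ∈ z)
    (hzy : ∀ k, k₀ ≤ k → (k ∈ z ↔ k ∈ y)) : ∃ κ, Good z y κ := by
  refine ⟨zw z y k₀, (walk_zw hz hzy).good (S z k₀) ?_ ?_⟩
  · have h1 : zw z y k₀ (S z k₀) = S y k₀ := by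
      rw [zw, if_pos le_rfl, (Zg_prop hz k₀ le_rfl).1]
      ring
    rw [h1]
    have h2 := S_parity z k₀
    have h3 := S_parity y k₀
    omega
  · have h1 : zw z y k₀ (S z k₀) = S y k₀ := by
      rw [zw, if_pos le_rfl, (Zg_prop hz k₀ le_rfl).1]
      ring
    have h2 : zw z y k₀ (S z k₀ + 1) = S y k₀ + 1 := by
      rw [zw, if_neg (by omega)]
      push_cast
      ring
    rw [h1, h2, lab_start]
    have h3 : (max (S y k₀ : ℤ) (S y k₀ + 1)).toNat = S y k₀ + 1 := by omega
    rw [h3, lab_start]

end Pool.Agent.V11257W
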