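import Pool.Agent.V11257.Wd4

/-!
# The sets of reals, and the walks of the continuous reductions
-/

set_option linter.all false

namespace Pool.Agent.V11257W

open Set Filter Topology

variable {x y : Set ℕ} {κ : ℕ → ℤ}

/-- The set of reals: the labelled vertices and the odd edges. -/
def A (x : Set ℕ) : Set ℝ :=
  {t | (∃ i : ℕ, 1 ≤ i ∧ t = i ∧ lab x i = true) ∨ ∃ i : ℕ, Odd i ∧ (i : ℝ) < t ∧ t < i + 1}

theorem mem_vertex {i : ℕ} (hi : 1 ≤ i) : (i : ℝ) ∈ A x ↔ lab x i = true := by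
  constructor
  · rintro (⟨j, -, h1, h2⟩ | ⟨j, -, h1, h2⟩)
    · have : i = j := by exact_mod_cast h1
      rwa [this]
    · have h3 : j < i := by exact_mod_cast h1
      have h4 : i < j + 1 := by exact_mod_cast h2
      omega
  · exact fun h => Or.inl ⟨i, hi, rfl, h⟩

theorem mem_edge {i : ℕ} {t : ℝ} (h1 : (i : ℝ) < t) (h2 : t < i + 1) : t ∈ A x ↔ Odd i := by
  constructor
  · rintro (⟨j, -, h3, -⟩ | ⟨j, hj, h3, h4⟩)
    · rw [h3] at h1 h2
      have h5 : i < j := by exact_mod_cast h1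
      have h6 : j < i + 1 := by exact_mod_cast h2
      omega
    · have h5 : (i : ℝ) < (j + 1 : ℕ) := by push_cast; linarith
      have h6 : (j : ℝ) < (i + 1 : ℕ) := by push_cast; linarith
      have h5 : i < j + 1 := by exact_mod_cast h5
      have h6 : j < i + 1 := by exact_mod_cast h6
      have : i = j := by omega
      rwa [this]
  · exact fun h => Or.inr ⟨i, h, h1, h2⟩

theorem mem_neg {t : ℝ} (h : t < 1) : t ∉ A x := by
  rintro (⟨j, hj, h3, -⟩ | ⟨j, hj, h3, h4⟩)
  · have : (1 : ℝ) ≤ j := by exact_mod_cast hj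
    linarith
  · have h5 : 1 ≤ j := hj.pos
    have : (1 : ℝ) ≤ j := by exact_mod_cast h5
    linarith

/-- The sets are intersections of an open set and a closed set. -/
theorem A_d2 (x : Set ℕ) : ∃ U F : Set ℝ, IsOpen U ∧ IsClosed F ∧ A x = U ∩ F := by
  refine ⟨(((fun n : ℕ => (n : ℝ)) '' {i | lab x i = false})ᶜ),
    (Iio 1 ∪ ⋃ i : {i : ℕ // Even i}, Ioo (i.1 : ℝ) (i.1 + 1))ᶜ, ?_, ?_, ?_⟩
  · exact (Nat.isClosedEmbedding_coe_real.isClosedMap _ (isClosed_discrete _)).isOpen_compl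
  · exact (isOpen_Iio.union (isOpen_iUnion fun i => isOpen_Ioo)).isClosed_compl
  · ext t
    simp only [mem_inter_iff, mem_compl_iff, mem_union, mem_Iio, mem_iUnion, mem_Ioo, not_or,
      not_exists, Set.mem_image, mem_setOf_eq, not_and, Subtype.forall]
    constructor
    · intro ht
      refine ⟨fun n hn hnt => ?_, fun h1 => mem_neg h1 ht, fun i hi h1 h2 => ?_⟩
      · rcases Nat.eq_zero_or_pos n with h1 | h1
        · subst h1
          rw [← hnt] at ht
          exact mem_neg (by norm_num) ht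
        · rw [← hnt, mem_vertex h1, hn] at ht
          exact absurd ht (by simp)
      · rw [mem_edge h1 h2] at ht
        exact (Nat.not_odd_iff_even.2 hi) ht
    · rintro ⟨h1, h2, h3⟩
      have h2 := not_lt.1 h2
      have h4 : 0 ≤ t := by linarith
      have h5 := Nat.floor_le h4
      have h6 := Nat.lt_floor_add_one t
      have h7 : 1 ≤ ⌊t⌋₊ := Nat.le_floor (by exact_mod_cast h2)
      rcases eq_or_lt_of_le h5 with h8 | h8
      · rw [← h8, mem_vertex h7]
        have := h1 ⌊t⌋₊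
        cases hb : lab x ⌊t⌋₊
        · exact absurd h8 (this hb)
        · rfl
      · rw [mem_edge h8 h6]
        rcases Nat.even_or_odd ⌊t⌋₊ with h9 | h9
        · exact absurd h6 (h3 _ h9 h8)
        · exact h9

/-- Membership is locally constant except at the vertices. -/
theorem loc_const {u : ℝ} (hu : ∀ n : ℕ, 1 ≤ n → u ≠ n) : ∃ P : Prop, ∀ᶠ w in 𝓝 u,
    (w ∈ A x ↔ P) := by
  rcases lt_or_ge u 1 with h1 | h1
  · refine ⟨False, ?_⟩
    filter_upwards [Iio_mem_nhds h1] with w hw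
    exact iff_of_false (mem_neg hw) id
  · have h4 : 0 ≤ u := by linarith
    have h5 := Nat.floor_le h4
    have h6 := Nat.lt_floor_add_one u
    have h7 : 1 ≤ ⌊u⌋₊ := Nat.le_floor (by exact_mod_cast h1)
    have h8 : (⌊u⌋₊ : ℝ) < u := lt_of_le_of_ne h5 (hu _ h7).symm
    refine ⟨Odd ⌊u⌋₊, ?_⟩
    filter_upwards [Ioo_mem_nhds h8 h6] with w hw
    exact mem_edge hw.1 hw.2

/-- The walk of a continuous reduction. -/
theorem walk_of_cont {f : ℝ → ℝ} (hf : Continuous f) (h : A x = f ⁻¹' A y) : ∃ κ, Walk x y κ := by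
  have hmem : ∀ t, t ∈ A x ↔ f t ∈ A y := fun t => by rw [h]; exact Iff.rfl
  have h1 : ∀ i : ℕ, ∃ n : ℕ, 1 ≤ n ∧ f ((i + 1 : ℕ) : ℝ) = n := by
    intro i
    by_contra hcon
    push Not at hcon
    obtain ⟨P, hP⟩ := loc_const (x := y) hcon
    have h2 := (hf.tendsto ((i + 1 : ℕ) : ℝ)).eventually hP
    obtain ⟨ε, hε, h3⟩ := Metric.eventually_nhds_iff.1 h2
    have h4 : 0 < min ε 1 := lt_min hε one_pos
    have h5 := min_le_left ε 1
    have h6 := min_le_right ε 1
    have e1 := h3 (y := ((i + 1 : ℕ) : ℝ) - min ε 1 / 2) (by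
      rw [Real.dist_eq, abs_lt]; constructor <;> linarith)
    have e2 := h3 (y := ((i + 1 : ℕ) : ℝ) + min ε 1 / 2) (by
      rw [Real.dist_eq, abs_lt]; constructor <;> linarith)
    rw [← hmem, mem_edge (i := i) (by push_cast; linarith) (by push_cast; linarith)] at e1
    rw [← hmem, mem_edge (i := i + 1) (by push_cast; linarith) (by push_cast; linarith)] at e2
    have h7 := e1.trans e2.symm
    rw [Nat.odd_iff, Nat.odd_iff] at h7
    omega
  choose n hn1 hn2 using h1
  have cross : ∀ i e : ℕ, (f ((i + 1 : ℕ) : ℝ) ≤ e + 1 / 2 ∧ (e : ℝ) + 1 / 2 ≤ f ((i + 2 : ℕ) : ℝ)) ∨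
      (f ((i + 2 : ℕ) : ℝ) ≤ e + 1 / 2 ∧ (e : ℝ) + 1 / 2 ≤ f ((i + 1 : ℕ) : ℝ)) →
      (Odd (i + 1) ↔ Odd e) := by
    intro i e hie
    have hle : ((i + 1 : ℕ) : ℝ) ≤ ((i + 2 : ℕ) : ℝ) := by push_cast; linarith
    obtain ⟨t, ht, hft⟩ : ∃ t ∈ Icc ((i + 1 : ℕ) : ℝ) ((i + 2 : ℕ) : ℝ), f t = e + 1 / 2 := by
      rcases hie with hie | hie
      · obtain ⟨t, ht, hft⟩ := intermediate_value_Icc hle hf.continuousOn (show (e : ℝ) + 1 / 2 ∈
          Icc (f ((i + 1 : ℕ) : ℝ)) (f ((i + 2 : ℕ) : ℝ)) from ⟨hie.1, hie.2⟩)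
        exact ⟨t, ht, hft⟩
      · obtain ⟨t, ht, hft⟩ := intermediate_value_Icc' hle hf.continuousOn (show (e : ℝ) + 1 / 2 ∈
          Icc (f ((i + 2 : ℕ) : ℝ)) (f ((i + 1 : ℕ) : ℝ)) from ⟨hie.1, hie.2⟩)
        exact ⟨t, ht, hft⟩
    have hne : ∀ j : ℕ, f ((j + 1 : ℕ) : ℝ) ≠ e + 1 / 2 := by
      intro j hj
      rw [hn2 j] at hj
      have h3 : (e : ℝ) < n j := by rw [hj]; linarith
      have h4 : (n j : ℝ) < e + 1 := by rw [hj]; linarith
      have h3 : e < n j := by exact_mod_cast h3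
      have h4 : n j < e + 1 := by exact_mod_cast h4
      omega
    have h3 : ((i + 1 : ℕ) : ℝ) < t := lt_of_le_of_ne ht.1 fun h4 => hne i (by rw [h4]; exact hft)
    have h4 : t < ((i + 2 : ℕ) : ℝ) := lt_of_le_of_ne ht.2 fun h4 => hne (i + 1) (by
      rw [show i + 1 + 1 = i + 2 by ring, ← h4]; exact hft)
    have h5 := hmem t
    rw [mem_edge h3 (by push_cast at h4 ⊢; linarith), hft,
      mem_edge (i := e) (by linarith) (by linarith)] at h5
    exact h5
  have hup : ∀ i, n i < n (i + 1) → n (i + 1) = n i + 1 ∧ (Odd (i + 1) ↔ Odd (n i)) := by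
    intro i hi
    have e1 := cross i (n i) (Or.inl ⟨by rw [hn2]; linarith, by
      rw [show i + 2 = i + 1 + 1 by ring, hn2]
      have : ((n i + 1 : ℕ) : ℝ) ≤ n (i + 1) := by exact_mod_cast hi
      push_cast at this
      linarith⟩)
    refine ⟨?_, e1⟩
    by_contra hne
    have e2 := cross i (n i + 1) (Or.inl ⟨by rw [hn2]; push_cast; linarith, by
      rw [show i + 2 = i + 1 + 1 by ring, hn2]
      have : ((n i + 2 : ℕ) : ℝ) ≤ n (i + 1) := by exact_mod_cast (by omega)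
      push_cast at this ⊢
      linarith⟩)
    have e3 := e1.symm.trans e2
    rw [Nat.odd_iff, Nat.odd_iff] at e3
    omega
  have hdn : ∀ i, n (i + 1) < n i → n i = n (i + 1) + 1 ∧ (Odd (i + 1) ↔ Odd (n (i + 1))) := by
    intro i hi
    have e1 := cross i (n (i + 1)) (Or.inr ⟨by
      rw [show i + 2 = i + 1 + 1 by ring, hn2]; linarith, by
      rw [hn2]
      have : ((n (i + 1) + 1 : ℕ) : ℝ) ≤ n i := by exact_mod_cast hi
      push_cast at this
      linarith⟩)
    refine ⟨?_, e1⟩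
    by_contra hne
    have e2 := cross i (n (i + 1) + 1) (Or.inr ⟨by
      rw [show i + 2 = i + 1 + 1 by ring, hn2]; push_cast; linarith, by
      rw [hn2]
      have : ((n (i + 1) + 2 : ℕ) : ℝ) ≤ n i := by exact_mod_cast (by omega)
      push_cast at this ⊢
      linarith⟩)
    have e3 := e1.symm.trans e2
    rw [Nat.odd_iff, Nat.odd_iff] at e3
    omega
  have hlab : ∀ i, lab x (i + 1) = lab y (n i) := by
    intro i
    have e1 := hmem ((i + 1 : ℕ) : ℝ)
    rw [mem_vertex (by omega), hn2, mem_vertex (hn1 i)] at e1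
    cases h3 : lab x (i + 1) <;> cases h4 : lab y (n i) <;> simp_all
  let κ : ℕ → ℤ := fun i => if n i % 2 = i % 2 then (n i : ℤ) else n i - 1
  have k1 : ∀ i, (κ i = n i ∧ n i % 2 = i % 2) ∨ (κ i = n i - 1 ∧ n i % 2 ≠ i % 2) := by
    intro i
    by_cases h3 : n i % 2 = i % 2
    · exact Or.inl ⟨if_pos h3, h3⟩
    · exact Or.inr ⟨if_neg h3, h3⟩
  have k2 : ∀ i, κ (i + 1) = n i ∨ κ (i + 1) = n i - 1 := by
    intro i
    have e1 := k1 (i + 1)
    rcases lt_trichotomy (n i) (n (i + 1)) with h3 | h3 | h3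
    · obtain ⟨h4, h5⟩ := hup i h3
      rw [Nat.odd_iff, Nat.odd_iff] at h5
      omega
    · omega
    · obtain ⟨h4, h5⟩ := hdn i h3
      rw [Nat.odd_iff, Nat.odd_iff] at h5
      omega
  have par : ∀ i, (κ i - i) % 2 = 0 := by
    intro i
    have e1 := k1 i
    have e2 := hn1 i
    omega
  refine ⟨κ, fun i => ?_, fun i => ?_, fun i hi => ?_, fun i hi => ?_⟩
  · have e1 := k1 i
    have e2 := hn1 i
    omega
  · have e1 := k1 i
    have e2 := k2 i
    have e3 := par i
    have e4 := par (i + 1)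
    push_cast at e4
    omega
  · have e1 := k1 i
    have e2 := k2 i
    have e3 := k1 (i + 1)
    have e4 := k2 (i + 1)
    have e5 := par i
    have e6 := par (i + 1)
    have e7 := par (i + 2)
    rw [show i + 1 + 1 = i + 2 by ring] at e4
    push_cast at e6 e7
    have e8 : n (i + 1) = n i := by omega
    rw [D_iff_lab, show i + 1 + 1 = (i + 1) + 1 by ring, hlab, hlab, e8]
  · have e1 := k1 i
    have e2 := k2 i
    have e3 := k1 (i + 1)
    have e4 := k2 (i + 1)
    have e5 := par i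
    have e6 := par (i + 1)
    have e7 := par (i + 2)
    rw [show i + 1 + 1 = i + 2 by ring] at e4
    push_cast at e6 e7
    have e8 : (n (i + 1) = n i + 1 ∧ κ (i + 1) = n i) ∨
        (n i = n (i + 1) + 1 ∧ κ (i + 1) = n (i + 1)) := by omega
    rw [D_iff_lab, show i + 1 + 1 = (i + 1) + 1 by ring, hlab, hlab]
    rcases e8 with ⟨e8, e9⟩ | ⟨e8, e9⟩
    · rw [e9, DZ_nat, D_iff_lab, e8]
    · rw [e9, DZ_nat, D_iff_lab, e8]
      exact eq_comm

/-- Continuous reductions exist only for almost included sets. -/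
theorem almost_of_cont {f : ℝ → ℝ} (hf : Continuous f) (h : A x = f ⁻¹' A y) :
    (x \ y).Finite := by
  obtain ⟨κ, hκ⟩ := walk_of_cont hf h
  exact hκ.almost

end Pool.Agent.V11257W
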