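import Pool.Agent.V11257.Wd5

/-!
# The smooth Lipschitz reduction of a walk
-/

set_option linter.all false

namespace Pool.Agent.V11257W

open Set Filter Topology
open scoped NNReal


variable {x y : Set ℕ} {κ : ℕ → ℤ}

/-- The bump. -/
noncomputable def bp (u : ℝ) : ℝ := Real.smoothTransition u * Real.smoothTransition (1 - u)

theorem psi_smooth : ContDiff ℝ (⊤ : ℕ∞) (fun u => Real.smoothTransition u) := Real.smoothTransition.contDiff

theorem bp_smooth : ContDiff ℝ (⊤ : ℕ∞) bp :=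
  psi_smooth.mul (psi_smooth.comp (contDiff_const.sub contDiff_id))

theorem bp_nonpos {u : ℝ} (h : u ≤ 0) : bp u = 0 := by
  rw [bp, Real.smoothTransition.zero_of_nonpos h, zero_mul]

theorem bp_ge {u : ℝ} (h : 1 ≤ u) : bp u = 0 := by
  rw [bp, Real.smoothTransition.zero_of_nonpos (show 1 - u ≤ 0 by linarith), mul_zero]

theorem bp_pos {u : ℝ} (h0 : 0 < u) (h1 : u < 1) : 0 < bp u :=
  mul_pos (Real.smoothTransition.pos_of_pos h0) (Real.smoothTransition.pos_of_pos (by linarith))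

theorem bp_lt {u : ℝ} (h0 : 0 < u) (h1 : u < 1) : bp u < 1 := by
  have e1 := Real.smoothTransition.lt_one_of_lt_one h1
  have e2 := Real.smoothTransition.le_one (1 - u)
  have e3 := Real.smoothTransition.nonneg u
  have e4 := Real.smoothTransition.nonneg (1 - u)
  unfold bp
  nlinarith

/-- The vertices of the walk. -/
def vt (κ : ℕ → ℤ) (i : ℕ) : ℤ := max (κ i) (κ (i + 1))

/-- The difference of consecutive vertices. -/
noncomputable def dl (κ : ℕ → ℤ) (i : ℕ) : ℝ := (vt κ (i + 1) : ℝ) - vt κ i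

/-- The sign of the bump. -/
noncomputable def ep (κ : ℕ → ℤ) (i : ℕ) : ℝ :=
  if vt κ (i + 1) = vt κ i then (if κ (i + 1) = vt κ i then 1 else -1) else 0

/-- The terms. -/
noncomputable def H (κ : ℕ → ℤ) (i : ℕ) (t : ℝ) : ℝ :=
  dl κ i * Real.smoothTransition (t - (i + 1)) + ep κ i * bp (t - (i + 1))

/-- The first sign. -/
noncomputable def e0 (κ : ℕ → ℤ) : ℝ := if κ 0 = vt κ 0 then 1 else -1

/-- The partial sums. -/
noncomputable def F (κ : ℕ → ℤ) (m : ℕ) (t : ℝ) : ℝ :=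
  vt κ 0 + e0 κ * (Real.smoothTransition (1 - t) / 2) + ∑ j ∈ Finset.range m, H κ j t

/-- The reduction. -/
noncomputable def fn (κ : ℕ → ℤ) (t : ℝ) : ℝ := F κ ⌊t⌋₊ t

theorem H_zero {i : ℕ} {t : ℝ} (h : t ≤ i + 1) : H κ i t = 0 := by
  rw [H, Real.smoothTransition.zero_of_nonpos (by linarith), bp_nonpos (by linarith)]
  ring

theorem H_const {i : ℕ} {t : ℝ} (h : (i : ℝ) + 2 ≤ t) : H κ i t = dl κ i := by
  rw [H, Real.smoothTransition.one_of_one_le (by linarith), bp_ge (by linarith)]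
  ring

theorem fn_eq {m : ℕ} {t : ℝ} (h : t < m + 1) : fn κ t = F κ m t := by
  have h1 : ⌊t⌋₊ < m + 1 := (Nat.floor_lt' (by omega)).2 (by push_cast; exact h)
  unfold fn F
  congr 1
  refine Finset.sum_subset (Finset.range_subset_range.2 (by omega)) fun j _ hj => H_zero ?_
  rw [Finset.mem_range, not_lt] at hj
  have h2 := Nat.lt_floor_add_one t
  have h3 : (⌊t⌋₊ : ℝ) ≤ j := by exact_mod_cast hj
  linarith

theorem fn_lt_one {t : ℝ} (h : t < 1) : fn κ t = vt κ 0 + e0 κ * (Real.smoothTransition (1 - t) / 2) := by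
  rw [fn_eq (m := 0) (by push_cast; linarith), F, Finset.sum_range_zero, add_zero]

theorem fn_edge {i : ℕ} {t : ℝ} (h1 : (i : ℝ) + 1 ≤ t) (h2 : t < i + 2) :
    fn κ t = vt κ i + H κ i t := by
  rw [fn_eq (m := i + 1) (by push_cast; linarith), F, Finset.sum_range_succ,
    Real.smoothTransition.zero_of_nonpos (show 1 - t ≤ 0 by
      have : (0 : ℝ) ≤ i := Nat.cast_nonneg i
      linarith)]
  have h3 : ∑ j ∈ Finset.range i, H κ j t = (vt κ i : ℝ) - vt κ 0 := by
    rw [← Finset.sum_range_sub (fun j => (vt κ j : ℝ))]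
    refine Finset.sum_congr rfl fun j hj => ?_
    rw [Finset.mem_range] at hj
    have h4 : ((j + 1 : ℕ) : ℝ) ≤ i := by exact_mod_cast hj
    push_cast at h4
    rw [H_const (by linarith)]
    rfl
  rw [h3]
  ring

theorem fn_vertex (i : ℕ) : fn κ ((i + 1 : ℕ) : ℝ) = vt κ i := by
  rw [fn_edge (i := i) (by push_cast; linarith) (by push_cast; linarith),
    H_zero (by push_cast; linarith), add_zero]

theorem F_smooth (m : ℕ) : ContDiff ℝ (⊤ : ℕ∞) (F κ m) := by
  have h1 : ContDiff ℝ (⊤ : ℕ∞) (fun t : ℝ => Real.smoothTransition (1 - t)) :=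
    psi_smooth.comp (contDiff_const.sub contDiff_id)
  have h2 : ∀ j : ℕ, ContDiff ℝ (⊤ : ℕ∞) (fun t : ℝ => Real.smoothTransition (t - (j + 1))) := fun j =>
    psi_smooth.comp (contDiff_id.sub contDiff_const)
  have h3 : ∀ j : ℕ, ContDiff ℝ (⊤ : ℕ∞) (fun t : ℝ => bp (t - (j + 1))) := fun j =>
    bp_smooth.comp (contDiff_id.sub contDiff_const)
  unfold F
  refine (contDiff_const.add (contDiff_const.mul (h1.div_const 2))).add (ContDiff.sum fun j _ => ?_)
  unfold H
  exact (contDiff_const.mul (h2 j)).add (contDiff_const.mul (h3 j))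

theorem fn_smooth : ContDiff ℝ (⊤ : ℕ∞) (fn κ) := by
  refine contDiff_iff_contDiffAt.2 fun t => ?_
  refine (F_smooth (κ := κ) ⌊t⌋₊).contDiffAt.congr_of_eventuallyEq ?_
  filter_upwards [Iio_mem_nhds (Nat.lt_floor_add_one t)] with w hw
  exact fn_eq hw

/-- A bound for the derivative. -/
theorem bd {g : ℝ → ℝ} (hg : ContDiff ℝ 1 g) {c d : ℝ} (h0 : ∀ u, u < 0 → g u = c)
    (h1 : ∀ u, 1 < u → g u = d) : ∃ C, 0 ≤ C ∧ ∀ u, |deriv g u| ≤ C := by
  have hc : Continuous (deriv g) := hg.continuous_deriv le_rfl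
  obtain ⟨C, hC⟩ := (isCompact_Icc (a := (0 : ℝ)) (b := 1)).exists_bound_of_continuousOn
    hc.continuousOn
  have hC0 : 0 ≤ C := (norm_nonneg _).trans (hC 0 ⟨le_rfl, zero_le_one⟩)
  refine ⟨C, hC0, fun u => ?_⟩
  rcases lt_or_ge u 0 with hu | hu
  · have e1 : g =ᶠ[𝓝 u] fun _ => c := by
      filter_upwards [Iio_mem_nhds hu] with w hw
      exact h0 w hw
    rw [e1.deriv_eq, deriv_const, abs_zero]
    exact hC0
  · rcases lt_or_ge 1 u with hu1 | hu1
    · have e1 : g =ᶠ[𝓝 u] fun _ => d := by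
        filter_upwards [Ioi_mem_nhds hu1] with w hw
        exact h1 w hw
      rw [e1.deriv_eq, deriv_const, abs_zero]
      exact hC0
    · exact hC u ⟨hu, hu1⟩

theorem vt_cases (h : Good x y κ) (i : ℕ) :
    (vt κ i = κ (i + 1) ∨ vt κ i = κ (i + 1) + 1) ∧
      (vt κ (i + 1) = κ (i + 1) ∨ vt κ (i + 1) = κ (i + 1) + 1) := by
  have h1 := h.step i
  have h2 := h.step (i + 1)
  unfold vt
  omega

theorem dl_abs (h : Good x y κ) (i : ℕ) : |dl κ i| ≤ 1 := by
  obtain ⟨h1, h2⟩ := vt_cases h i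
  unfold dl
  rcases h1 with h1 | h1 <;> rcases h2 with h2 | h2 <;> rw [h1, h2] <;> push_cast <;>
    rw [abs_le] <;> constructor <;> linarith

theorem ep_abs (i : ℕ) : |ep κ i| ≤ 1 := by
  unfold ep
  split_ifs <;> norm_num

theorem e0_abs : |e0 κ| ≤ 1 := by
  unfold e0
  split_ifs <;> norm_num

theorem fn_lip (h : Good x y κ) : ∃ K : ℝ≥0, LipschitzWith K (fn κ) := by
  obtain ⟨C₁, hC₁, hb₁⟩ := bd (g := fun u => Real.smoothTransition u) (psi_smooth.of_le (by exact_mod_cast le_top))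
    (fun u hu => Real.smoothTransition.zero_of_nonpos hu.le)
    (fun u hu => Real.smoothTransition.one_of_one_le hu.le)
  obtain ⟨C₂, hC₂, hb₂⟩ := bd (bp_smooth.of_le (by exact_mod_cast le_top))
    (fun u hu => bp_nonpos hu.le) (fun u hu => bp_ge hu.le)
  have hd : Differentiable ℝ (fn κ) := fn_smooth.differentiable (by simp)
  have hReal.smoothTransition : ∀ u, HasDerivAt (fun u => Real.smoothTransition u) (deriv (fun u => Real.smoothTransition u) u) u := fun u =>
    ((psi_smooth.differentiable (by simp)) u).hasDerivAt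
  have hbp : ∀ u, HasDerivAt bp (deriv bp u) u := fun u =>
    ((bp_smooth.differentiable (by simp)) u).hasDerivAt
  have hc : Continuous (deriv (fn κ)) :=
    (fn_smooth (κ := κ)).continuous_deriv (by exact_mod_cast le_top)
  have hB : IsClosed {t | |deriv (fn κ) t| ≤ C₁ + C₂} :=
    isClosed_le (continuous_abs.comp hc) continuous_const
  have hlo : ∀ t, t < 1 → |deriv (fn κ) t| ≤ C₁ + C₂ := by
    intro t ht
    have e1 : fn κ =ᶠ[𝓝 t] fun t => vt κ 0 + e0 κ * (Real.smoothTransition (1 - t) / 2) := by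
      filter_upwards [Iio_mem_nhds ht] with w hw
      exact fn_lt_one hw
    have e2 : HasDerivAt (fun t : ℝ => (vt κ 0 : ℝ) + e0 κ * (Real.smoothTransition (1 - t) / 2))
        (e0 κ * (-deriv (fun u => Real.smoothTransition u) (1 - t) / 2)) t := by
      have e3 := HasDerivAt.comp_const_sub 1 t (hReal.smoothTransition (1 - t))
      exact ((e3.div_const 2).const_mul (e0 κ)).const_add _
    rw [e1.deriv_eq, e2.deriv, abs_mul]
    have e4 := hb₁ (1 - t)
    have e5 := e0_abs (κ := κ)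
    have e6 : |-deriv (fun u => Real.smoothTransition u) (1 - t) / 2| ≤ C₁ := by
      rw [abs_div, abs_neg, abs_two]
      have := abs_nonneg (deriv (fun u => Real.smoothTransition u) (1 - t))
      linarith
    have e7 := abs_nonneg (-deriv (fun u => Real.smoothTransition u) (1 - t) / 2)
    have e8 := abs_nonneg (e0 κ)
    nlinarith
  have hmid : ∀ (i : ℕ) t, (i : ℝ) + 1 < t → t < i + 2 → |deriv (fn κ) t| ≤ C₁ + C₂ := by
    intro i t h1 h2
    have e1 : fn κ =ᶠ[𝓝 t] fun t => vt κ i + H κ i t := by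
      filter_upwards [Ioo_mem_nhds h1 h2] with w hw
      exact fn_edge hw.1.le hw.2
    have e2 : HasDerivAt (fun t : ℝ => (vt κ i : ℝ) + H κ i t)
        (dl κ i * deriv (fun u => Real.smoothTransition u) (t - (i + 1)) + ep κ i * deriv bp (t - (i + 1))) t := by
      have e3 := HasDerivAt.comp_sub_const t ((i : ℝ) + 1) (hReal.smoothTransition (t - (i + 1)))
      have e4 := HasDerivAt.comp_sub_const t ((i : ℝ) + 1) (hbp (t - (i + 1)))
      exact ((e3.const_mul (dl κ i)).add (e4.const_mul (ep κ i))).const_add _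
    rw [e1.deriv_eq, e2.deriv]
    refine (abs_add_le _ _).trans ?_
    rw [abs_mul, abs_mul]
    have e3 := hb₁ (t - (i + 1))
    have e4 := hb₂ (t - (i + 1))
    have e5 := dl_abs h i
    have e6 := ep_abs (κ := κ) i
    have e7 := abs_nonneg (deriv (fun u => Real.smoothTransition u) (t - (i + 1)))
    have e8 := abs_nonneg (deriv bp (t - (i + 1)))
    have e9 := abs_nonneg (dl κ i)
    have e10 := abs_nonneg (ep κ i)
    nlinarith
  have hall : ∀ t, |deriv (fn κ) t| ≤ C₁ + C₂ := by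
    intro t
    rcases lt_or_ge t 1 with h1 | h1
    · exact hlo t h1
    · have h4 : 0 ≤ t := by linarith
      have h5 := Nat.floor_le h4
      have h6 := Nat.lt_floor_add_one t
      have h7 : 1 ≤ ⌊t⌋₊ := Nat.le_floor (by exact_mod_cast h1)
      obtain ⟨i, hi⟩ : ∃ i, ⌊t⌋₊ = i + 1 := ⟨⌊t⌋₊ - 1, by omega⟩
      rw [hi] at h5 h6
      push_cast at h5 h6
      have h8 : Ioo ((i : ℝ) + 1) (i + 2) ⊆ {t | |deriv (fn κ) t| ≤ C₁ + C₂} :=
        fun w hw => hmid i w hw.1 hw.2
      have h9 := closure_minimal h8 hB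
      rw [closure_Ioo (by linarith)] at h9
      exact h9 ⟨h5, by linarith⟩
  refine ⟨⟨C₁ + C₂, by positivity⟩, lipschitzWith_of_nnnorm_deriv_le hd fun t => ?_⟩
  rw [← NNReal.coe_le_coe, coe_nnnorm, Real.norm_eq_abs]
  exact hall t

theorem mem_edge' {k : ℤ} (hk : 0 ≤ k) {u : ℝ} (h1 : (k : ℝ) < u) (h2 : u < k + 1) :
    u ∈ A y ↔ k % 2 = 1 := by
  obtain ⟨n, rfl⟩ := Int.eq_ofNat_of_zero_le hk
  rw [mem_edge (i := n) (by exact_mod_cast h1) (by exact_mod_cast h2), Nat.odd_iff]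
  omega

/-- The reduction. -/
theorem fn_mem (h : Good x y κ) (t : ℝ) : t ∈ A x ↔ fn κ t ∈ A y := by
  rcases lt_or_ge t 1 with h1 | h1
  · refine iff_of_false (mem_neg h1) ?_
    have e1 := Real.smoothTransition.pos_of_pos (show 0 < 1 - t by linarith)
    have e2 := Real.smoothTransition.le_one (1 - t)
    have e3 := h.step 0
    have e4 := h.par 0
    have e5 := h.nonneg 0
    have e6 : (κ 0 = vt κ 0 ∧ e0 κ = 1) ∨ (vt κ 0 = κ 0 + 1 ∧ e0 κ = -1) := by
      by_cases e7 : κ 0 = vt κ 0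
      · exact Or.inl ⟨e7, if_pos e7⟩
      · refine Or.inr ⟨?_, if_neg e7⟩
        unfold vt at e7 ⊢
        omega
    have e8 : (κ 0 : ℝ) < fn κ t ∧ fn κ t < κ 0 + 1 := by
      rw [fn_lt_one h1]
      rcases e6 with ⟨e6, e7⟩ | ⟨e6, e7⟩
      · rw [← e6, e7]
        constructor <;> linarith
      · rw [e6, e7]
        push_cast
        constructor <;> linarith
    rw [mem_edge' e5 e8.1 e8.2]
    omega
  · have h4 : 0 ≤ t := by linarith
    have h5 := Nat.floor_le h4
    have h6 := Nat.lt_floor_add_one t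
    have h7 : 1 ≤ ⌊t⌋₊ := Nat.le_floor (by exact_mod_cast h1)
    obtain ⟨i, hi⟩ : ∃ i, ⌊t⌋₊ = i + 1 := ⟨⌊t⌋₊ - 1, by omega⟩
    rw [hi] at h5 h6
    have n0 := h.nonneg i
    have n1 := h.nonneg (i + 1)
    have s1 := h.step i
    rcases eq_or_lt_of_le h5 with h8 | h8
    · rw [← h8, fn_vertex, mem_vertex (by omega), h.lab i]
      have h9 : (vt κ i : ℝ) = ((vt κ i).toNat : ℝ) := by
        have : (0 : ℤ) ≤ vt κ i := by unfold vt; omega
        exact_mod_cast (Int.toNat_of_nonneg this).symm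
      rw [h9, mem_vertex (by unfold vt; omega)]
      rfl
    · rw [mem_edge h8 h6]
      push_cast at h8 h6
      have e1 := Real.smoothTransition.pos_of_pos (show 0 < t - (i + 1) by linarith)
      have e2 := Real.smoothTransition.lt_one_of_lt_one (show t - (i + 1) < 1 by linarith)
      have e3 := bp_pos (show 0 < t - (i + 1) by linarith) (by linarith)
      have e4 := bp_lt (show 0 < t - (i + 1) by linarith) (by linarith)
      obtain ⟨v1, v2⟩ := vt_cases h i
      have e8 : (κ (i + 1) : ℝ) < fn κ t ∧ fn κ t < κ (i + 1) + 1 := by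
        rw [fn_edge h8.le (by linarith), H, dl, ep]
        rcases v1 with v1 | v1 <;> rcases v2 with v2 | v2
        · rw [if_pos (by rw [v1, v2]), if_pos v1.symm, v1, v2]
          constructor <;> linarith
        · rw [if_neg (by rw [v1, v2]; omega), v1, v2]
          push_cast
          constructor <;> linarith
        · rw [if_neg (by rw [v1, v2]; omega), v1, v2]
          push_cast
          constructor <;> linarith
        · rw [if_pos (by rw [v1, v2]), if_neg (by rw [v1]; omega), v1, v2]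
          push_cast
          constructor <;> linarith
      rw [mem_edge' n1 e8.1 e8.2, Nat.odd_iff]
      have := h.par (i + 1)
      push_cast at this
      omega

theorem exists_red (h : Good x y κ) : ∃ f : ℝ → ℝ, ContDiff ℝ (⊤ : ℕ∞) f ∧
    (∃ K : ℝ≥0, LipschitzWith K f) ∧ A x = f ⁻¹' A y :=
  ⟨fn κ, fn_smooth, fn_lip h, Set.ext fun t => fn_mem h t⟩

/-- The smooth Lipschitz reductions for almost included sets. -/
theorem exists_red_of_almost (h : (x \ y).Finite) : ∃ f : ℝ → ℝ, ContDiff ℝ (⊤ : ℕ∞) f ∧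
    (∃ K : ℝ≥0, LipschitzWith K f) ∧ A x = f ⁻¹' A y := by
  obtain ⟨k₀, hk₀⟩ : ∃ k₀, ∀ k, k ∈ x \ y → k < k₀ := by
    obtain ⟨b, hb⟩ := h.bddAbove
    exact ⟨b + 1, fun k hk => Nat.lt_succ_of_le (hb hk)⟩
  let z : Set ℕ := {k | k < k₀ ∨ k ∈ y}
  have hxz : x ⊆ z := fun k hk => by
    by_cases h1 : k ∈ y
    · exact Or.inr h1
    · exact Or.inl (hk₀ k ⟨hk, h1⟩)
  obtain ⟨κ₁, h1⟩ := exists_good_subset hxz
  obtain ⟨κ₂, h2⟩ := exists_good_prefix (y := y) (z := z) (k₀ := k₀) (fun k hk => Or.inl hk)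
    (fun k hk => ⟨fun h => h.resolve_left (by omega), fun h => Or.inr h⟩)
  obtain ⟨f, f1, ⟨K, f2⟩, f3⟩ := exists_red h1
  obtain ⟨g, g1, ⟨K', g2⟩, g3⟩ := exists_red h2
  exact ⟨g ∘ f, g1.comp f1, ⟨_, g2.comp f2⟩, by rw [f3, g3]; rfl⟩

end Pool.Agent.V11257W
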