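import Pool.Agent.V11257.Zr2

/-!
# The spaces: realcompactness
-/

set_option maxHeartbeats 1000000
set_option linter.all false
set_option synthInstance.maxSize 2000

namespace Pool.Agent.V11257Z

open FirstOrder FirstOrder.Language
open Pool.Agent.Helper672
open Pool.Agent.Helper672.ZFA
open Pool.Agent.Helper672.ZFA.V246
open Pool.Agent.Helper672.Plain (LSet)
open Pool.Agent.H310
open Pool.Agent.H310Cards
open Pool.Agent.H310Top (IsTopology)
open Pool.Agent.H635Amen (IsReals)
open Pool.Agent.V11246

universe u

section

attribute [local instance] Helper672.Plain.toL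

variable {N : Type u} [LSet.Structure N] [hZ : Helper672.Plain.Zermelo N]

local instance instModelZr3 : IsModel N := Helper672.Plain.isModel_toL

noncomputable local instance instPElZr3 (x : N) : ITy N (Helper672.Plain.El x) :=
  (inferInstance : ITy N (El x))

variable {j r : N} [Field (Plain.El r)] [LinearOrder (Plain.El r)]
  [IsStrictOrderedRing (Plain.El r)]

/-- Open sets of real functions. -/
def OpR (U : IPow N (IFun N (Plain.El j) (Plain.El r))) : Prop :=
  ∀ f, f ∈ U → ∃ S : IPow N (Plain.El j), IFin S ∧ ∃ ε : Plain.El r, 0 < ε ∧
    ∀ g : IFun N (Plain.El j) (Plain.El r), (∀ i, i ∈ S → |g i - f i| < ε) → g ∈ U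

theorem int_OpR (hr : IsReals r) : Int N (OpR (N := N) (j := j) (r := r)) := by
  have hclo := int_closeR hr
  have hlt := int_ltR hr
  unfold OpR
  have g1 : Int N (fun q : (((IPow N (IFun N (Plain.El j) (Plain.El r)) ×
      IFun N (Plain.El j) (Plain.El r)) × IPow N (Plain.El j)) × Plain.El r) => 0 < q.2) :=
    Int.comp (p := fun q : Plain.El r × Plain.El r => q.1 < q.2)
      (f := fun q : (((IPow N (IFun N (Plain.El j) (Plain.El r)) ×
      IFun N (Plain.El j) (Plain.El r)) × IPow N (Plain.El j)) × Plain.El r) => (0, q.2)) hlt
      ((IntF.const _).pair IntF.snd')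
  have g2 : Int N (fun q : (((((IPow N (IFun N (Plain.El j) (Plain.El r)) ×
      IFun N (Plain.El j) (Plain.El r)) × IPow N (Plain.El j)) × Plain.El r) ×
      IFun N (Plain.El j) (Plain.El r)) × Plain.El j) =>
      |q.1.2 q.2 - q.1.1.1.1.2 q.2| < q.1.1.2) :=
    Int.comp (p := fun q : (Plain.El r × Plain.El r) × Plain.El r => |q.1.1 - q.1.2| < q.2)
      (f := fun q : (((((IPow N (IFun N (Plain.El j) (Plain.El r)) ×
      IFun N (Plain.El j) (Plain.El r)) × IPow N (Plain.El j)) × Plain.El r) ×
      IFun N (Plain.El j) (Plain.El r)) × Plain.El j) =>
        ((q.1.2 q.2, q.1.1.1.1.2 q.2), q.1.1.2)) hclo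
      (((IntF.app (IntF.snd IntF.fst') IntF.snd').pair (IntF.app (IntF.snd (IntF.fst (IntF.fst
        (IntF.fst IntF.fst')))) IntF.snd')).pair (IntF.snd (IntF.fst IntF.fst')))
  (repeat' (first | with_reducible exact IntF.id | with_reducible exact IntF.fst' | with_reducible exact IntF.snd' | with_reducible exact IntF.const _ | with_reducible exact Int.const _ | assumption | with_reducible apply Int.and | with_reducible apply Int.or | with_reducible apply Int.not | with_reducible apply Int.imp | with_reducible apply Int.iff | with_reducible apply Int.ne | with_reducible apply Int.eq | with_reducible apply Int.mem | with_reducible apply Int.subset | with_reducible apply Int.ltN | with_reducible apply Int.leN | with_reducible_and_instances apply Int.le | with_reducible_and_instances apply Int.lt | with_reducible apply Int.all | with_reducible apply Int.ex | with_reducible apply IntF.fst | with_reducible apply IntF.snd | with_reducible apply IntF.app | with_reducible apply IntF.inl | with_reducible apply IntF.inr | with_reducible_and_instances apply IntF.mul | with_reducible_and_instances apply IntF.inv | with_reducible_and_instances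 apply IntF.add | with_reducible_and_instances apply IntF.sub | with_reducible_and_instances apply IntF.neg | with_reducible_and_instances apply IntF.smul | with_reducible apply Int.fin | with_reducible apply IntF.sep | with_reducible apply IntF.lam | with_reducible apply IntF.insert | with_reducible apply IntF.singleton | with_reducible apply IntF.union | with_reducible apply IntF.iimage | with_reducible apply IntF.ite | with_reducible apply IntF.the | with_reducible apply IntF.irec | with_reducible apply IntF.succ | with_reducible apply IntF.val | with_reducible apply IntF.mk | (with_reducible refine Int.comp ?_ ?_; assumption) | (with_reducible refine Int.comp₂ ?_ ?_ ?_; assumption) | (with_reducible refine Int.comp₃ ?_ ?_ ?_ ?_; assumption) | (with_reducible refine Int.comp₄ ?_ ?_ ?_ ?_ ?_; assumption) | (with_reducible refine IntF.comp ?_ ?_; assumption) | (with_reducible refine IntF.comp₂ ?_ ?_ ?_; assumption) | (with_reducible refine IntF.comp₃ ?_ ?_ ?_ ?_; assumption) | with_reducible apply IntF.pair))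

theorem isRealPowTop_dom (hr : IsReals r) :
    IsRealPowTop r (code (M := N) (sep N (OpR (N := N) (j := j) (r := r))))
      (dom N (IFun N (Plain.El j) (Plain.El r))) j := by
  have hI := int_OpR (j := j) hr
  intro u
  constructor
  · intro hu
    obtain ⟨U, hU, rfl⟩ := mem_codeB.1 hu
    rw [mem_sep hI] at hU
    refine ⟨fun f hf => ?_, fun f hf => ?_⟩
    · obtain ⟨f, -, rfl⟩ := mem_codeB.1 hf
      exact code_mem_domP f
    · obtain ⟨f, hf', rfl⟩ := mem_codeB.1 hf
      obtain ⟨S, h1, ε, hε, h2⟩ := hU f hf'
      refine ⟨code S, isFinite_of_fin h1, fun i hi => ?_, ε, hε, fun g hg h3 => ?_⟩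
      · obtain ⟨i, -, rfl⟩ := mem_codeB.1 hi
        exact i.2
      · obtain ⟨g, rfl⟩ := mem_domP.1 hg
        refine mem_codeB'.2 (h2 g fun i hi => ?_)
        exact h3 (code i) (f i) (g i) (mem_codeB'.2 hi) (app_code.2 ⟨i, rfl, rfl⟩)
          (app_code.2 ⟨i, rfl, rfl⟩)
  · rintro ⟨h1, h2⟩
    obtain ⟨U, rfl⟩ := exists_codeB (α := IFun N (Plain.El j) (Plain.El r)) fun z hz =>
      mem_domP.1 (h1 z hz)
    refine mem_codeB'.2 ((mem_sep hI).2 fun f hf => ?_)
    obtain ⟨s, h3, h4, ε, hε, h5⟩ := h2 (code f) (mem_codeB'.2 hf)
    obtain ⟨S, rfl⟩ := exists_codeB (α := Plain.El j) fun z hz => ⟨⟨z, h4 z hz⟩, rfl⟩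
    refine ⟨S, fin_of_isFinite h3, ε, hε, fun g hg => ?_⟩
    refine mem_codeB'.1 (h5 (code g) (code_mem_domP g) fun i y z hi hy hz => ?_)
    obtain ⟨i, hi', rfl⟩ := mem_codeB.1 hi
    obtain ⟨i', h6, h7⟩ := app_code.1 hy
    obtain ⟨i'', h8, h9⟩ := app_code.1 hz
    rw [ITy.inj h6] at h7
    rw [ITy.inj h8] at h9
    have h10 : f i = y := Subtype.ext h7
    have h11 : g i = z := Subtype.ext h9
    rw [← h10, ← h11]
    exact hg i hi'

end

section

attribute [local instance] Helper672.Plain.toL

variable {N : Type u} [LSet.Structure N] [hZ : Helper672.Plain.Zermelo N]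

local instance instModelZr3' : IsModel N := Helper672.Plain.isModel_toL

noncomputable local instance instPElZr3' (x : N) : ITy N (Helper672.Plain.El x) :=
  (inferInstance : ITy N (El x))

variable {a : N}
variable {D : INat N × (Plain.El a × Plain.El a) → Prop} {fb : Plain.El a → INat N}
  (h : ZT N D fb)
variable {P : Pt N (Plain.El a) → Prop} (hP : Int N P)
variable {r : N} [Field (Plain.El r)] [LinearOrder (Plain.El r)]
  [IsStrictOrderedRing (Plain.El r)]

open Classical in
/-- The embedding. -/
noncomputable def ch (r : N) [Field (Plain.El r)] (D : INat N × (Plain.El a × Plain.El a) → Prop)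
    (fb : Plain.El a → INat N) (z : Pt N (Plain.El a)) : IFun N (Plain.El a) (Plain.El r) :=
  lam N fun x => if lep D fb z x then 1 else 0

include h

omit [LinearOrder (Plain.El r)] [IsStrictOrderedRing (Plain.El r)] in
theorem int_ch : IntF N (ch r D fb) := by
  have h1 := h.int_lep
  unfold ch
  (repeat' (first | with_reducible exact IntF.id | with_reducible exact IntF.fst' | with_reducible exact IntF.snd' | with_reducible exact IntF.const _ | with_reducible exact Int.const _ | assumption | with_reducible apply Int.and | with_reducible apply Int.or | with_reducible apply Int.not | with_reducible apply Int.imp | with_reducible apply Int.iff | with_reducible apply Int.ne | with_reducible apply Int.eq | with_reducible apply Int.mem | with_reducible apply Int.subset | with_reducible apply Int.ltN | with_reducible apply Int.leN | with_reducible_and_instances apply Int.le | with_reducible_and_instances apply Int.lt | with_reducible apply Int.all | with_reducible apply Int.ex | with_reducible apply IntF.fst | with_reducible apply IntF.snd | with_reducible apply IntF.app | with_reducible apply IntF.inl | with_reducible apply IntF.inr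 | with_reducible_and_instances apply IntF.mul | with_reducible_and_instances apply IntF.inv | with_reducible_and_instances apply IntF.add | with_reducible_and_instances apply IntF.sub | with_reducible_and_instances apply IntF.neg | with_reducible_and_instances apply IntF.smul | with_reducible apply Int.fin | with_reducible apply IntF.sep | with_reducible apply IntF.lam | with_reducible apply IntF.insert | with_reducible apply IntF.singleton | with_reducible apply IntF.union | with_reducible apply IntF.iimage | with_reducible apply IntF.ite | with_reducible apply IntF.the | with_reducible apply IntF.irec | with_reducible apply IntF.succ | with_reducible apply IntF.val | with_reducible apply IntF.mk | (with_reducible refine Int.comp ?_ ?_; assumption) | (with_reducible refine Int.comp₂ ?_ ?_ ?_; assumption) | (with_reducible refine Int.comp₃ ?_ ?_ ?_ ?_; assumption) | (with_reducible refine Int.comp₄ ?_ ?_ ?_ ?_ ?_; assumption) | (with_reducible refine IntF.comp ?_ ?_; assumption) | (with_reducible refine IntF.comp₂ ?_ ?_ ?_; assumption) | (with_reducible refine IntF.comp₃ ?_ ?_ ?_ ?_; assumption) | with_reducible apply IntF.pair))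

omit [LinearOrder (Plain.El r)] [IsStrictOrderedRing (Plain.El r)] in
theorem ch_apply (z : Pt N (Plain.El a)) (x : Plain.El a) :
    (lep D fb z x ∧ ch r D fb z x = 1) ∨ (¬ lep D fb z x ∧ ch r D fb z x = 0) := by
  classical
  have h1 := h.int_lep
  have h2 : Int N (fun x : Plain.El a => lep D fb z x) := Int.comp
    (p := fun q : Pt N (Plain.El a) × Plain.El a => lep D fb q.1 q.2) (f := fun x => (z, x)) h1
      (by (repeat' (first | with_reducible exact IntF.id | with_reducible exact IntF.fst' | with_reducible exact IntF.snd' | with_reducible exact IntF.const _ | with_reducible exact Int.const _ | assumption | with_reducible apply Int.and | with_reducible apply Int.or | with_reducible apply Int.not | with_reducible apply Int.imp | with_reducible apply Int.iff | with_reducible apply Int.ne | with_reducible apply Int.eq | with_reducible apply Int.mem | with_reducible apply Int.subset | with_reducible apply Int.ltN | with_reducible apply Int.leN | with_reducible_and_instances apply Int.le | with_reducible_and_instances apply Int.lt | with_reducible apply Int.all | with_reducible apply Int.ex | with_reducible apply IntF.fst |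 with_reducible apply IntF.snd | with_reducible apply IntF.app | with_reducible apply IntF.inl | with_reducible apply IntF.inr | with_reducible_and_instances apply IntF.mul | with_reducible_and_instances apply IntF.inv | with_reducible_and_instances apply IntF.add | with_reducible_and_instances apply IntF.sub | with_reducible_and_instances apply IntF.neg | with_reducible_and_instances apply IntF.smul | with_reducible apply Int.fin | with_reducible apply IntF.sep | with_reducible apply IntF.lam | with_reducible apply IntF.insert | with_reducible apply IntF.singleton | with_reducible apply IntF.union | with_reducible apply IntF.iimage | with_reducible apply IntF.ite | with_reducible apply IntF.the | with_reducible apply IntF.irec | with_reducible apply IntF.succ | with_reducible apply IntF.val | with_reducible apply IntF.mk | (with_reducible refine Int.comp ?_ ?_; assumption) | (with_reducible refine Int.comp₂ ?_ ?_ ?_; assumption) | (with_reducible refine Int.comp₃ ?_ ?_ ?_ ?_; assumption) | (with_reducible refine Int.comp₄ ?_ ?_ ?_ ?_ ?_; assumption) | (with_reducible refine IntF.comp ?_ ?_; assumption) | (with_reducible refine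 IntF.comp₂ ?_ ?_ ?_; assumption) | (with_reducible refine IntF.comp₃ ?_ ?_ ?_ ?_; assumption) | with_reducible apply IntF.pair)))
  have h3 : ch r D fb z x = if lep D fb z x then 1 else 0 := by
    unfold ch
    rw [lam_apply (by (repeat' (first | with_reducible exact IntF.id | with_reducible exact IntF.fst' | with_reducible exact IntF.snd' | with_reducible exact IntF.const _ | with_reducible exact Int.const _ | assumption | with_reducible apply Int.and | with_reducible apply Int.or | with_reducible apply Int.not | with_reducible apply Int.imp | with_reducible apply Int.iff | with_reducible apply Int.ne | with_reducible apply Int.eq | with_reducible apply Int.mem | with_reducible apply Int.subset | with_reducible apply Int.ltN | with_reducible apply Int.leN | with_reducible_and_instances apply Int.le | with_reducible_and_instances apply Int.lt | with_reducible apply Int.all | with_reducible apply Int.ex | with_reducible apply IntF.fst | with_reducible apply IntF.snd | with_reducible apply IntF.app | with_reducible apply IntF.inl | with_reducible apply IntF.inr | with_reducible_and_instances apply IntF.mul | with_reducible_and_instances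 apply IntF.inv | with_reducible_and_instances apply IntF.add | with_reducible_and_instances apply IntF.sub | with_reducible_and_instances apply IntF.neg | with_reducible_and_instances apply IntF.smul | with_reducible apply Int.fin | with_reducible apply IntF.sep | with_reducible apply IntF.lam | with_reducible apply IntF.insert | with_reducible apply IntF.singleton | with_reducible apply IntF.union | with_reducible apply IntF.iimage | with_reducible apply IntF.ite | with_reducible apply IntF.the | with_reducible apply IntF.irec | with_reducible apply IntF.succ | with_reducible apply IntF.val | with_reducible apply IntF.mk | (with_reducible refine Int.comp ?_ ?_; assumption) | (with_reducible refine Int.comp₂ ?_ ?_ ?_; assumption) | (with_reducible refine Int.comp₃ ?_ ?_ ?_ ?_; assumption) | (with_reducible refine Int.comp₄ ?_ ?_ ?_ ?_ ?_; assumption) | (with_reducible refine IntF.comp ?_ ?_; assumption) | (with_reducible refine IntF.comp₂ ?_ ?_ ?_; assumption) | (with_reducible refine IntF.comp₃ ?_ ?_ ?_ ?_; assumption) | with_reducible apply IntF.pair)))]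
  rw [h3]
  by_cases h4 : lep D fb z x
  · rw [if_pos h4]
    exact Or.inl ⟨h4, rfl⟩
  · rw [if_neg h4]
    exact Or.inr ⟨h4, rfl⟩

omit [LinearOrder (Plain.El r)] [IsStrictOrderedRing (Plain.El r)] in
theorem ch_one {z : Pt N (Plain.El a)} {x : Plain.El a} : ch r D fb z x = 1 ↔ lep D fb z x := by
  rcases ch_apply (r := r) h z x with h1 | h1
  · exact iff_of_true h1.2 h1.1
  · exact iff_of_false (fun h2 => zero_ne_one (h1.2.symm.trans h2)) h1.1

omit [LinearOrder (Plain.El r)] [IsStrictOrderedRing (Plain.El r)] in
theorem ch_zero {z : Pt N (Plain.El a)} {x : Plain.El a} :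
    ch r D fb z x = 0 ↔ ¬ lep D fb z x := by
  rcases ch_apply (r := r) h z x with h1 | h1
  · exact iff_of_false (fun h2 => zero_ne_one (h2.symm.trans h1.2)) (not_not.2 h1.1)
  · exact iff_of_true h1.2 h1.1

omit [LinearOrder (Plain.El r)] [IsStrictOrderedRing (Plain.El r)] in
theorem ch_eq {z w : Pt N (Plain.El a)} {x : Plain.El a} :
    ch r D fb z x = ch r D fb w x ↔ (lep D fb z x ↔ lep D fb w x) := by
  rcases ch_apply (r := r) h z x with h1 | h1 <;> rcases ch_apply (r := r) h w x with h2 | h2
  · exact iff_of_true (h1.2.trans h2.2.symm) (iff_of_true h1.1 h2.1)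
  · refine iff_of_false (fun h3 => ?_) (fun h3 => h2.1 (h3.1 h1.1))
    rw [h1.2, h2.2] at h3
    exact zero_ne_one h3.symm
  · refine iff_of_false (fun h3 => ?_) (fun h3 => h1.1 (h3.2 h2.1))
    rw [h1.2, h2.2] at h3
    exact zero_ne_one h3
  · exact iff_of_true (h1.2.trans h2.2.symm) (iff_of_false h1.1 h2.1)

omit [LinearOrder (Plain.El r)] [IsStrictOrderedRing (Plain.El r)] in
theorem ch_inj {z w : Pt N (Plain.El a)} (h1 : ch r D fb z = ch r D fb w) : z = w :=
  h.sepp fun x => (ch_eq (r := r) h).1 (by rw [h1])

include hP

/-- Closed subspaces of the large space are realcompact. -/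
theorem rco_of (hr : IsReals r)
    (hPC : ∀ z, (∀ x, ∃ w, P w ∧ (lep D fb z x ↔ lep D fb w x)) → P z) :
    IsRealcompact (ts (OP D fb P)) (xs (N := N) P) := by
  have hS := spO h hP
  have hchi := int_ch (r := r) h
  have hgt := h.int_gt
  have hleo := h.int_leo
  have hlt := int_ltR hr
  have hIO := int_OpR (j := a) hr
  have hR : Int N (fun q : Pt N (Plain.El a) ×
      IFun N (Plain.El a) (Plain.El r) => P q.1 ∧ ch r D fb q.1 = q.2) := by
    have h1 : Int N (fun q : Pt N (Plain.El a) ×
      IFun N (Plain.El a) (Plain.El r) => P q.1) := Int.comp (p := P)
        (f := fun q : Pt N (Plain.El a) ×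
          IFun N (Plain.El a) (Plain.El r) => q.1) hP (by (repeat' (first | with_reducible exact IntF.id | with_reducible exact IntF.fst' | with_reducible exact IntF.snd' | with_reducible exact IntF.const _ | with_reducible exact Int.const _ | assumption | with_reducible apply Int.and | with_reducible apply Int.or | with_reducible apply Int.not | with_reducible apply Int.imp | with_reducible apply Int.iff | with_reducible apply Int.ne | with_reducible apply Int.eq | with_reducible apply Int.mem | with_reducible apply Int.subset | with_reducible apply Int.ltN | with_reducible apply Int.leN | with_reducible_and_instances apply Int.le | with_reducible_and_instances apply Int.lt | with_reducible apply Int.all | with_reducible apply Int.ex | with_reducible apply IntF.fst | with_reducible apply IntF.snd | with_reducible apply IntF.app | with_reducible apply IntF.inl | with_reducible apply IntF.inr | with_reducible_and_instances apply IntF.mul | with_reducible_and_instances apply IntF.inv | with_reducible_and_instances apply IntF.add | with_reducible_and_instances apply IntF.sub | with_reducible_and_instances apply IntF.neg | with_reducible_and_instances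 apply IntF.smul | with_reducible apply Int.fin | with_reducible apply IntF.sep | with_reducible apply IntF.lam | with_reducible apply IntF.insert | with_reducible apply IntF.singleton | with_reducible apply IntF.union | with_reducible apply IntF.iimage | with_reducible apply IntF.ite | with_reducible apply IntF.the | with_reducible apply IntF.irec | with_reducible apply IntF.succ | with_reducible apply IntF.val | with_reducible apply IntF.mk | (with_reducible refine Int.comp ?_ ?_; assumption) | (with_reducible refine Int.comp₂ ?_ ?_ ?_; assumption) | (with_reducible refine Int.comp₃ ?_ ?_ ?_ ?_; assumption) | (with_reducible refine Int.comp₄ ?_ ?_ ?_ ?_ ?_; assumption) | (with_reducible refine IntF.comp ?_ ?_; assumption) | (with_reducible refine IntF.comp₂ ?_ ?_ ?_; assumption) | (with_reducible refine IntF.comp₃ ?_ ?_ ?_ ?_; assumption) | with_reducible apply IntF.pair)))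
    have h2 : Int N (fun q : Pt N (Plain.El a) ×
      IFun N (Plain.El a) (Plain.El r) => ch r D fb q.1 = q.2) := hchi
    exact h1.and h2
  have happ : ∀ z f, App (relc N fun (z : Pt N (Plain.El a))
      (f : IFun N (Plain.El a) (Plain.El r)) => P z ∧ ch r D fb z = f) z f ↔
      ∃ s, P s ∧ z = code s ∧ f = code (ch r D fb s) := by
    intro z f
    rw [app_relc hR]
    constructor
    · rintro ⟨s, g, ⟨h1, rfl⟩, h2, h3⟩
      exact ⟨s, h1, h2, h3⟩
    · rintro ⟨s, h1, h2, h3⟩
      exact ⟨s, _, ⟨h1, rfl⟩, h2, h3⟩
  refine ⟨r, inferInstance, inferInstance, inferInstance, hr, a,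
    dom N (IFun N (Plain.El a) (Plain.El r)),
    code (M := N) (sep N (OpR (N := N) (j := a) (r := r))),
    relc N fun (z : Pt N (Plain.El a))
      (f : IFun N (Plain.El a) (Plain.El r)) => P z ∧ ch r D fb z = f,
    isFunSet_dom, isRealPowTop_dom hr, ⟨⟨fun q hq => ?_, fun x hx => ?_⟩,
      fun x x' y h5 h6 => ?_⟩, fun u => ⟨fun hu => ?_, ?_⟩, ?_⟩
  · obtain ⟨s, f, ⟨h1, rfl⟩, rfl⟩ := (mem_relc hR).1 hq
    exact ⟨code s, code (ch r D fb s), (mem_xs' hS).2 h1, code_mem_domP _, ordPair_iff.2 rfl⟩
  · obtain ⟨s, h1, rfl⟩ := (mem_xs hS).1 hx
    refine ⟨code (ch r D fb s), (happ _ _).2 ⟨s, h1, rfl, rfl⟩, fun y hy => ?_⟩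
    obtain ⟨t, h2, h3, rfl⟩ := (happ _ _).1 hy
    rw [ITy.inj h3]
  · obtain ⟨s, h1, rfl, rfl⟩ := (happ _ _).1 h5
    obtain ⟨t, h2, rfl, h3⟩ := (happ _ _).1 h6
    rw [ch_inj (r := r) h (ITy.inj h3)]
  · -- open sets are preimages
    obtain ⟨U, h1, rfl⟩ := (mem_ts hS).1 hu
    refine ⟨fun z hz => ?_, ?_⟩
    · obtain ⟨s, hs, rfl⟩ := mem_codeB.1 hz
      exact (mem_xs' hS).2 (h1.1 s hs)
    · have hI : Int N (fun f : IFun N (Plain.El a) (Plain.El r) =>
          ∃ l u : Bd N (Plain.El a), (∀ x, l = Sum.inl x → f x < 2⁻¹) ∧
            (∀ x, u = Sum.inl x → 2⁻¹ < f x) ∧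
            ∀ w : Pt N (Plain.El a), P w → gt D fb w l → leo D fb w u → w ∈ U) := by
        have g1 : Int N (fun q : ((IFun N (Plain.El a) (Plain.El r) ×
            Bd N (Plain.El a)) × Bd N (Plain.El a)) × Pt N (Plain.El a) => gt D fb q.2 q.1.1.2) :=
          Int.comp (p := fun q : Pt N (Plain.El a) × Bd N (Plain.El a) => gt D fb q.1 q.2)
          (f := fun q : ((IFun N (Plain.El a) (Plain.El r) ×
            Bd N (Plain.El a)) × Bd N (Plain.El a)) × Pt N (Plain.El a) => (q.2, q.1.1.2)) hgt
            (by (repeat' (first | with_reducible exact IntF.id | with_reducible exact IntF.fst' | with_reducible exact IntF.snd' | with_reducible exact IntF.const _ | with_reducible exact Int.const _ | assumption | with_reducible apply Int.and | with_reducible apply Int.or | with_reducible apply Int.not | with_reducible apply Int.imp | with_reducible apply Int.iff | with_reducible apply Int.ne | with_reducible apply Int.eq | with_reducible apply Int.mem | with_reducible apply Int.subset | with_reducible apply Int.ltN | with_reducible apply Int.leN | with_reducible_and_instances apply Int.le | with_reducible_and_instances apply Int.lt |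 with_reducible apply Int.all | with_reducible apply Int.ex | with_reducible apply IntF.fst | with_reducible apply IntF.snd | with_reducible apply IntF.app | with_reducible apply IntF.inl | with_reducible apply IntF.inr | with_reducible_and_instances apply IntF.mul | with_reducible_and_instances apply IntF.inv | with_reducible_and_instances apply IntF.add | with_reducible_and_instances apply IntF.sub | with_reducible_and_instances apply IntF.neg | with_reducible_and_instances apply IntF.smul | with_reducible apply Int.fin | with_reducible apply IntF.sep | with_reducible apply IntF.lam | with_reducible apply IntF.insert | with_reducible apply IntF.singleton | with_reducible apply IntF.union | with_reducible apply IntF.iimage | with_reducible apply IntF.ite | with_reducible apply IntF.the | with_reducible apply IntF.irec | with_reducible apply IntF.succ | with_reducible apply IntF.val | with_reducible apply IntF.mk | (with_reducible refine Int.comp ?_ ?_; assumption) | (with_reducible refine Int.comp₂ ?_ ?_ ?_; assumption) | (with_reducible refine Int.comp₃ ?_ ?_ ?_ ?_; assumption) | (with_reducible refine Int.comp₄ ?_ ?_ ?_ ?_ ?_;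 assumption) | (with_reducible refine IntF.comp ?_ ?_; assumption) | (with_reducible refine IntF.comp₂ ?_ ?_ ?_; assumption) | (with_reducible refine IntF.comp₃ ?_ ?_ ?_ ?_; assumption) | with_reducible apply IntF.pair)))
        have g2 : Int N (fun q : ((IFun N (Plain.El a) (Plain.El r) ×
            Bd N (Plain.El a)) × Bd N (Plain.El a)) × Pt N (Plain.El a) => leo D fb q.2 q.1.2) :=
          Int.comp (p := fun q : Pt N (Plain.El a) × Bd N (Plain.El a) => leo D fb q.1 q.2)
          (f := fun q : ((IFun N (Plain.El a) (Plain.El r) ×
            Bd N (Plain.El a)) × Bd N (Plain.El a)) × Pt N (Plain.El a) => (q.2, q.1.2)) hleo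
            (by (repeat' (first | with_reducible exact IntF.id | with_reducible exact IntF.fst' | with_reducible exact IntF.snd' | with_reducible exact IntF.const _ | with_reducible exact Int.const _ | assumption | with_reducible apply Int.and | with_reducible apply Int.or | with_reducible apply Int.not | with_reducible apply Int.imp | with_reducible apply Int.iff | with_reducible apply Int.ne | with_reducible apply Int.eq | with_reducible apply Int.mem | with_reducible apply Int.subset | with_reducible apply Int.ltN | with_reducible apply Int.leN | with_reducible_and_instances apply Int.le | with_reducible_and_instances apply Int.lt | with_reducible apply Int.all | with_reducible apply Int.ex | with_reducible apply IntF.fst | with_reducible apply IntF.snd | with_reducible apply IntF.app | with_reducible apply IntF.inl | with_reducible apply IntF.inr | with_reducible_and_instances apply IntF.mul | with_reducible_and_instances apply IntF.inv | with_reducible_and_instances apply IntF.add | with_reducible_and_instances apply IntF.sub | with_reducible_and_instances apply IntF.neg | with_reducible_and_instances apply IntF.smul | with_reducible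 apply Int.fin | with_reducible apply IntF.sep | with_reducible apply IntF.lam | with_reducible apply IntF.insert | with_reducible apply IntF.singleton | with_reducible apply IntF.union | with_reducible apply IntF.iimage | with_reducible apply IntF.ite | with_reducible apply IntF.the | with_reducible apply IntF.irec | with_reducible apply IntF.succ | with_reducible apply IntF.val | with_reducible apply IntF.mk | (with_reducible refine Int.comp ?_ ?_; assumption) | (with_reducible refine Int.comp₂ ?_ ?_ ?_; assumption) | (with_reducible refine Int.comp₃ ?_ ?_ ?_ ?_; assumption) | (with_reducible refine Int.comp₄ ?_ ?_ ?_ ?_ ?_; assumption) | (with_reducible refine IntF.comp ?_ ?_; assumption) | (with_reducible refine IntF.comp₂ ?_ ?_ ?_; assumption) | (with_reducible refine IntF.comp₃ ?_ ?_ ?_ ?_; assumption) | with_reducible apply IntF.pair)))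
        have g3 : Int N (fun q : ((IFun N (Plain.El a) (Plain.El r) ×
            Bd N (Plain.El a)) × Bd N (Plain.El a)) × Pt N (Plain.El a) => P q.2) :=
          Int.comp (p := P)
          (f := fun q : ((IFun N (Plain.El a) (Plain.El r) ×
            Bd N (Plain.El a)) × Bd N (Plain.El a)) × Pt N (Plain.El a) => q.2) hP
            (by (repeat' (first | with_reducible exact IntF.id | with_reducible exact IntF.fst' | with_reducible exact IntF.snd' | with_reducible exact IntF.const _ | with_reducible exact Int.const _ | assumption | with_reducible apply Int.and | with_reducible apply Int.or | with_reducible apply Int.not | with_reducible apply Int.imp | with_reducible apply Int.iff | with_reducible apply Int.ne | with_reducible apply Int.eq | with_reducible apply Int.mem | with_reducible apply Int.subset | with_reducible apply Int.ltN | with_reducible apply Int.leN | with_reducible_and_instances apply Int.le | with_reducible_and_instances apply Int.lt | with_reducible apply Int.all | with_reducible apply Int.ex | with_reducible apply IntF.fst | with_reducible apply IntF.snd | with_reducible apply IntF.app | with_reducible apply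 IntF.inl | with_reducible apply IntF.inr | with_reducible_and_instances apply IntF.mul | with_reducible_and_instances apply IntF.inv | with_reducible_and_instances apply IntF.add | with_reducible_and_instances apply IntF.sub | with_reducible_and_instances apply IntF.neg | with_reducible_and_instances apply IntF.smul | with_reducible apply Int.fin | with_reducible apply IntF.sep | with_reducible apply IntF.lam | with_reducible apply IntF.insert | with_reducible apply IntF.singleton | with_reducible apply IntF.union | with_reducible apply IntF.iimage | with_reducible apply IntF.ite | with_reducible apply IntF.the | with_reducible apply IntF.irec | with_reducible apply IntF.succ | with_reducible apply IntF.val | with_reducible apply IntF.mk | (with_reducible refine Int.comp ?_ ?_; assumption) | (with_reducible refine Int.comp₂ ?_ ?_ ?_; assumption) | (with_reducible refine Int.comp₃ ?_ ?_ ?_ ?_; assumption) | (with_reducible refine Int.comp₄ ?_ ?_ ?_ ?_ ?_; assumption) | (with_reducible refine IntF.comp ?_ ?_; assumption) | (with_reducible refine IntF.comp₂ ?_ ?_ ?_; assumption) | (with_reducible refine IntF.comp₃ ?_ ?_ ?_ ?_; assumption)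 | with_reducible apply IntF.pair)))
        have g4 : Int N (fun q : ((IFun N (Plain.El a) (Plain.El r) ×
            Bd N (Plain.El a)) × Bd N (Plain.El a)) × Plain.El a => q.1.1.1 q.2 < 2⁻¹) :=
          Int.comp (p := fun q : Plain.El r × Plain.El r => q.1 < q.2)
          (f := fun q : ((IFun N (Plain.El a) (Plain.El r) ×
            Bd N (Plain.El a)) × Bd N (Plain.El a)) × Plain.El a => (q.1.1.1 q.2, 2⁻¹)) hlt
            (IntF.pair (IntF.app (IntF.fst (IntF.fst IntF.fst')) IntF.snd') (IntF.const _))
        have g5 : Int N (fun q : ((IFun N (Plain.El a) (Plain.El r) ×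
            Bd N (Plain.El a)) × Bd N (Plain.El a)) × Plain.El a => 2⁻¹ < q.1.1.1 q.2) :=
          Int.comp (p := fun q : Plain.El r × Plain.El r => q.1 < q.2)
          (f := fun q : ((IFun N (Plain.El a) (Plain.El r) ×
            Bd N (Plain.El a)) × Bd N (Plain.El a)) × Plain.El a => (2⁻¹, q.1.1.1 q.2)) hlt
            (IntF.pair (IntF.const _) (IntF.app (IntF.fst (IntF.fst IntF.fst')) IntF.snd'))
        (repeat' (first | with_reducible exact IntF.id | with_reducible exact IntF.fst' | with_reducible exact IntF.snd' | with_reducible exact IntF.const _ | with_reducible exact Int.const _ | assumption | with_reducible apply Int.and | with_reducible apply Int.or | with_reducible apply Int.not | with_reducible apply Int.imp | with_reducible apply Int.iff | with_reducible apply Int.ne | with_reducible apply Int.eq | with_reducible apply Int.mem | with_reducible apply Int.subset | with_reducible apply Int.ltN | with_reducible apply Int.leN | with_reducible_and_instances apply Int.le | with_reducible_and_instances apply Int.lt | with_reducible apply Int.all | with_reducible apply Int.ex | with_reducible apply IntF.fst | with_reducible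 apply IntF.snd | with_reducible apply IntF.app | with_reducible apply IntF.inl | with_reducible apply IntF.inr | with_reducible_and_instances apply IntF.mul | with_reducible_and_instances apply IntF.inv | with_reducible_and_instances apply IntF.add | with_reducible_and_instances apply IntF.sub | with_reducible_and_instances apply IntF.neg | with_reducible_and_instances apply IntF.smul | with_reducible apply Int.fin | with_reducible apply IntF.sep | with_reducible apply IntF.lam | with_reducible apply IntF.insert | with_reducible apply IntF.singleton | with_reducible apply IntF.union | with_reducible apply IntF.iimage | with_reducible apply IntF.ite | with_reducible apply IntF.the | with_reducible apply IntF.irec | with_reducible apply IntF.succ | with_reducible apply IntF.val | with_reducible apply IntF.mk | (with_reducible refine Int.comp ?_ ?_; assumption) | (with_reducible refine Int.comp₂ ?_ ?_ ?_; assumption) | (with_reducible refine Int.comp₃ ?_ ?_ ?_ ?_; assumption) | (with_reducible refine Int.comp₄ ?_ ?_ ?_ ?_ ?_; assumption) | (with_reducible refine IntF.comp ?_ ?_; assumption) | (with_reducible refine IntF.comp₂ ?_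 ?_ ?_; assumption) | (with_reducible refine IntF.comp₃ ?_ ?_ ?_ ?_; assumption) | with_reducible apply IntF.pair))
      refine ⟨code (sep N fun f : IFun N (Plain.El a) (Plain.El r) =>
          ∃ l u : Bd N (Plain.El a), (∀ x, l = Sum.inl x → f x < 2⁻¹) ∧
            (∀ x, u = Sum.inl x → 2⁻¹ < f x) ∧
            ∀ w : Pt N (Plain.El a), P w → gt D fb w l → leo D fb w u → w ∈ U),
        mem_codeB'.2 ((mem_sep hIO).2 fun f hf => ?_), fun z f hzf => ?_⟩
      · obtain ⟨l, u, h2, h3, h4⟩ := (mem_sep hI).1 hf
        have k1 : ∃ S : IPow N (Plain.El a), IFin S ∧ ∃ ε : Plain.El r, 0 < ε ∧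
            ∀ x, l = Sum.inl x → x ∈ S ∧ f x + ε ≤ 2⁻¹ := by
          rcases l with (x | n)
          · refine ⟨{x}, IFin.singleton x, 2⁻¹ - f x, by linarith [h2 x rfl], fun y hy => ?_⟩
            obtain rfl := Sum.inl.inj hy
            exact ⟨mem_singleton.2 rfl, by linarith⟩
          · exact ⟨∅, IFin.empty, 1, one_pos, fun y hy => by simp at hy⟩
        have k2 : ∃ S : IPow N (Plain.El a), IFin S ∧ ∃ ε : Plain.El r, 0 < ε ∧
            ∀ x, u = Sum.inl x → x ∈ S ∧ 2⁻¹ + ε ≤ f x := by
          rcases u with (x | n)
          · refine ⟨{x}, IFin.singleton x, f x - 2⁻¹, by linarith [h3 x rfl], fun y hy => ?_⟩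
            obtain rfl := Sum.inl.inj hy
            exact ⟨mem_singleton.2 rfl, by linarith⟩
          · exact ⟨∅, IFin.empty, 1, one_pos, fun y hy => by simp at hy⟩
        obtain ⟨S, m1, ε, m2, m3⟩ := k1
        obtain ⟨S', m1', ε', m2', m3'⟩ := k2
        refine ⟨S ∪ S', m1.union m1', min ε ε', lt_min m2 m2', fun g hg => (mem_sep hI).2
          ⟨l, u, fun x hx => ?_, fun x hx => ?_, h4⟩⟩
        · have m4 := abs_sub_lt_iff.1 (hg x (mem_union.2 (Or.inl (m3 x hx).1)))
          have m5 := min_le_left ε ε'
          linarith [(m3 x hx).2]
        · have m4 := abs_sub_lt_iff.1 (hg x (mem_union.2 (Or.inr (m3' x hx).1)))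
          have m5 := min_le_right ε ε'
          linarith [(m3' x hx).2]
      · obtain ⟨s, h2, rfl, rfl⟩ := (happ _ _).1 hzf
        have hh0 : (0 : Plain.El r) < 2⁻¹ := by positivity
        have hh1 : (2⁻¹ : Plain.El r) < 1 := by
          have : (2⁻¹ : Plain.El r) + 2⁻¹ = 1 := by norm_num
          linarith
        rw [mem_codeP, mem_codeP, mem_sep hI]
        constructor
        · intro h3
          obtain ⟨l, u, h4, h5, h6⟩ := h1.2 s h3
          refine ⟨l, u, fun x hx => ?_, fun x hx => ?_, h6⟩
          · rw [(ch_zero (r := r) h).2 (h4 x hx)]
            exact hh0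
          · rw [(ch_one (r := r) h).2 (h5 x hx)]
            exact hh1
        · rintro ⟨l, u, h4, h5, h6⟩
          refine h6 s h2 (fun x hx => ?_) fun x hx => ?_
          · intro h7
            have h8 := h4 x hx
            rw [(ch_one (r := r) h).2 h7] at h8
            linarith
          · by_contra h7
            have h8 := h5 x hx
            rw [(ch_zero (r := r) h).2 h7] at h8
            linarith
  · -- preimages are open
    rintro ⟨h1, v, h2, h3⟩
    obtain ⟨V, h4, rfl⟩ := mem_codeB.1 h2
    rw [mem_sep hIO] at h4
    obtain ⟨U, rfl, h5⟩ := exists_sub hS h1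
    have h6 : ∀ s, P s → (s ∈ U ↔ ch r D fb s ∈ V) := fun s hs => by
      have h7 := h3 (code s) (code (ch r D fb s)) ((happ _ _).2 ⟨s, hs, rfl, rfl⟩)
      rwa [mem_codeP, mem_codeP] at h7
    refine (mem_ts' hS).2 ⟨h5, fun z hz => ?_⟩
    obtain ⟨S, h7, ε, hε, h8⟩ := h4 _ ((h6 z (h5 z hz)).1 hz)
    obtain ⟨l, u, h9, h10, h11⟩ := h.exists_itv z h7
    refine ⟨l, u, h9, h10, fun w h12 h13 h14 => (h6 w h12).2 (h8 _ fun x hx => ?_)⟩
    rw [(ch_eq (r := r) h).2 (h11 w h13 h14 x hx), sub_self, abs_zero]
    exact hε
  · -- the image is closed
    have hI : Int N (fun f : IFun N (Plain.El a) (Plain.El r) =>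
        ¬ ∃ s, P s ∧ ch r D fb s = f) := by
      have g1 : Int N (fun q : IFun N (Plain.El a) (Plain.El r) ×
          Pt N (Plain.El a) => P q.2) := Int.comp (p := P)
          (f := fun q : IFun N (Plain.El a) (Plain.El r) ×
          Pt N (Plain.El a) => q.2) hP (by (repeat' (first | with_reducible exact IntF.id | with_reducible exact IntF.fst' | with_reducible exact IntF.snd' | with_reducible exact IntF.const _ | with_reducible exact Int.const _ | assumption | with_reducible apply Int.and | with_reducible apply Int.or | with_reducible apply Int.not | with_reducible apply Int.imp | with_reducible apply Int.iff | with_reducible apply Int.ne | with_reducible apply Int.eq | with_reducible apply Int.mem | with_reducible apply Int.subset | with_reducible apply Int.ltN | with_reducible apply Int.leN | with_reducible_and_instances apply Int.le | with_reducible_and_instances apply Int.lt | with_reducible apply Int.all | with_reducible apply Int.ex | with_reducible apply IntF.fst | with_reducible apply IntF.snd | with_reducible apply IntF.app | with_reducible apply IntF.inl | with_reducible apply IntF.inr | with_reducible_and_instances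 apply IntF.mul | with_reducible_and_instances apply IntF.inv | with_reducible_and_instances apply IntF.add | with_reducible_and_instances apply IntF.sub | with_reducible_and_instances apply IntF.neg | with_reducible_and_instances apply IntF.smul | with_reducible apply Int.fin | with_reducible apply IntF.sep | with_reducible apply IntF.lam | with_reducible apply IntF.insert | with_reducible apply IntF.singleton | with_reducible apply IntF.union | with_reducible apply IntF.iimage | with_reducible apply IntF.ite | with_reducible apply IntF.the | with_reducible apply IntF.irec | with_reducible apply IntF.succ | with_reducible apply IntF.val | with_reducible apply IntF.mk | (with_reducible refine Int.comp ?_ ?_; assumption) | (with_reducible refine Int.comp₂ ?_ ?_ ?_; assumption) | (with_reducible refine Int.comp₃ ?_ ?_ ?_ ?_; assumption) | (with_reducible refine Int.comp₄ ?_ ?_ ?_ ?_ ?_; assumption) | (with_reducible refine IntF.comp ?_ ?_; assumption) | (with_reducible refine IntF.comp₂ ?_ ?_ ?_; assumption) | (with_reducible refine IntF.comp₃ ?_ ?_ ?_ ?_; assumption) | with_reducible apply IntF.pair)))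
      have g2 : Int N (fun q : IFun N (Plain.El a) (Plain.El r) ×
          Pt N (Plain.El a) => ch r D fb q.2 = q.1) :=
        Int.eq (IntF.comp (f := fun q : IFun N (Plain.El a) (Plain.El r) ×
          Pt N (Plain.El a) => q.2) hchi IntF.snd') IntF.fst'
      exact (Int.ex (g1.and g2)).not
    refine ⟨code (sep N fun f : IFun N (Plain.El a) (Plain.El r) =>
        ¬ ∃ s, P s ∧ ch r D fb s = f), mem_codeB'.2 ((mem_sep hIO).2 fun f hf => ?_),
        fun f hf => ?_⟩
    · by_contra hc
      have h1 : ∀ S : IPow N (Plain.El a), IFin S → ∀ ε : Plain.El r, 0 < ε →
          ∃ s, P s ∧ ∀ x, x ∈ S → |ch r D fb s x - f x| < ε := by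
        intro S hS ε hε
        by_contra h2
        refine hc ⟨S, hS, ε, hε, fun g hg => (mem_sep hI).2 ?_⟩
        rintro ⟨s, h4, rfl⟩
        exact h2 ⟨s, h4, hg⟩
      have h01 : ∀ x, f x = 0 ∨ f x = 1 := by
        intro x
        by_contra h2
        push Not at h2
        obtain ⟨s, -, h3⟩ := h1 {x} (IFin.singleton x) (min |f x| |f x - 1|)
          (lt_min (abs_pos.2 h2.1) (abs_pos.2 (sub_ne_zero.2 h2.2)))
        have h4 := h3 x (mem_singleton.2 rfl)
        rcases ch_apply (r := r) h s x with h5 | h5
        · rw [h5.2, abs_sub_comm] at h4
          exact absurd h4 (not_lt.2 (min_le_right _ _))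
        · rw [h5.2, zero_sub, abs_neg] at h4
          exact absurd h4 (not_lt.2 (min_le_left _ _))
      have h1' : ∀ S : IPow N (Plain.El a), IFin S → ∃ s, P s ∧ ∀ x, x ∈ S →
          f x = ch r D fb s x := by
        intro S hS
        obtain ⟨s, h2, h3⟩ := h1 S hS 1 one_pos
        refine ⟨s, h2, fun x hx => ?_⟩
        have h4 := abs_sub_lt_iff.1 (h3 x hx)
        rcases ch_apply (r := r) h s x with h5 | h5 <;> rcases h01 x with h6 | h6
        · rw [h5.2, h6] at h4
          linarith
        · rw [h5.2, h6]
        · rw [h5.2, h6]
        · rw [h5.2, h6] at h4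
          linarith
      refine (mem_sep hI).1 hf ?_
      have hφ : Int N (fun x : Plain.El a => f x = 1) := Int.eq f.int_app (IntF.const _)
      obtain ⟨z, hz⟩ := h.cut hφ fun x y hx hxy => by
        obtain ⟨s, h2, h3⟩ := h1' (Insert.insert x {y}) ((IFin.singleton y).insert x)
        have h4 := h3 x (by simp)
        have h5 := h3 y (by simp)
        rw [hx] at h4
        rw [h5]
        exact (ch_one (r := r) h).2 (h.lep_mono ((ch_one (r := r) h).1 h4.symm) hxy)
      have hz' : ∀ x, ∃ w, P w ∧ (lep D fb z x ↔ lep D fb w x) ∧ f x = ch r D fb w x := fun x => by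
        obtain ⟨s, h2, h3⟩ := h1' {x} (IFin.singleton x)
        have h4 := h3 x (by simp)
        exact ⟨s, h2, by rw [← hz x, h4, ch_one (r := r) h], h4⟩
      refine ⟨z, hPC z fun x => ?_, IFun.ext' fun x => ?_⟩
      · obtain ⟨w, h2, h3, -⟩ := hz' x
        exact ⟨w, h2, h3⟩
      · obtain ⟨w, h2, h3, h4⟩ := hz' x
        rw [h4, ch_eq (r := r) h]
        exact h3
    · obtain ⟨g, rfl⟩ := mem_domP.1 hf
      rw [mem_codeP, mem_sep hI]
      refine not_congr ⟨?_, ?_⟩
      · rintro ⟨s, h1, rfl⟩
        exact ⟨code s, (happ _ _).2 ⟨s, h1, rfl, rfl⟩⟩
      · rintro ⟨z, h1⟩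
        obtain ⟨s, h2, -, h3⟩ := (happ _ _).1 h1
        exact ⟨s, h2, (ITy.inj h3).symm⟩

end

end Pool.Agent.V11257Z
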