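import Pool.Agent.V11257.Zr3

/-!
# The spaces: real functions
-/

set_option maxHeartbeats 1000000
set_option linter.all false
set_option synthInstance.maxSize 2000

namespace Pool.Agent.V11257Z

open FirstOrder FirstOrder.Language
open Pool.Agent.Helper672
open Pool.Agent.Helper672.ZFA
open Pool.Agent.Helper672.ZFA.V246
open Pool.Agent.Helper672.Plain (LSet)
open Pool.Agent.H310
open Pool.Agent.H310Cards
open Pool.Agent.H310Top (IsTopology)
open Pool.Agent.H635Amen (IsReals)
open Pool.Agent.V11246

universe u

section

attribute [local instance] Helper672.Plain.toL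

variable {N : Type u} [LSet.Structure N] [hZ : Helper672.Plain.Zermelo N]

local instance instModelZr4 : IsModel N := Helper672.Plain.isModel_toL

noncomputable local instance instPElZr4 (x : N) : ITy N (Helper672.Plain.El x) :=
  (inferInstance : ITy N (El x))

variable {α : Type u} [ITy N α]
variable {D : INat N × (α × α) → Prop} {fb : α → INat N} (h : ZT N D fb)
variable {P : Pt N α → Prop} (hP : Int N P)
variable {r : N} [Field (Plain.El r)] [LinearOrder (Plain.El r)]
  [IsStrictOrderedRing (Plain.El r)]

include h in
/-- Near the limit points. -/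
theorem near_R (hPa : ∀ x : α, P (Sum.inr x)) {F : Pt N α → Plain.El r}
    (hc : CtR P (OP D fb P) F) {n : INat N} (hn : P (Sum.inl n.succ)) {ε : Plain.El r}
    (hε : 0 < ε) : ∃ y, fb y = n ∧ ∀ w, fb w = n → pre D fb w y →
      |F (Sum.inr w) - F (Sum.inl n.succ)| < ε := by
  obtain ⟨U, h1, h2, h3⟩ := hc _ hn ε hε
  obtain ⟨l, u, k1, k2, k3⟩ := h1.2 _ h2
  obtain ⟨y, m1, m2⟩ := h.nbR k1 k2
  exact ⟨y, m1, fun w hw hwy => h3 _ (k3 _ (hPa w) (m2 w hw hwy).1 (m2 w hw hwy).2)⟩

include h in
theorem near_L (hPa : ∀ x : α, P (Sum.inr x)) {F : Pt N α → Plain.El r}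
    (hc : CtR P (OP D fb P) F) {n : INat N} (hn : P (Sum.inl n.succ.succ)) {ε : Plain.El r}
    (hε : 0 < ε) : ∃ y, fb y = n ∧ ∀ w, fb w = n → pre D fb y w →
      |F (Sum.inr w) - F (Sum.inl n.succ.succ)| < ε := by
  obtain ⟨U, h1, h2, h3⟩ := hc _ hn ε hε
  obtain ⟨l, u, k1, k2, k3⟩ := h1.2 _ h2
  obtain ⟨y, m1, m2⟩ := h.nbL k1 k2
  exact ⟨y, m1, fun w hw hwy => h3 _ (k3 _ (hPa w) (m2 w hw hwy).1 (m2 w hw hwy).2)⟩

include h in
/-- Continuous real functions are eventually constant on the limit points. -/
theorem ev_of_contR (hr : IsReals r) (hPa : ∀ x : α, P (Sum.inr x))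
    (hPp : ∀ n : INat N, P (Sum.inl n.succ)) {F : Pt N α → Plain.El r} (hF : IntF N F)
    (hc : CtR P (OP D fb P) F) :
    ∃ n₀ : INat N, ∀ n, n₀ ≤ n → F (Sum.inl n.succ) = F (Sum.inl n₀.succ) := by
  have hf := h.intF
  have hadd := int_addR hr
  have hlt := int_ltR hr
  have k1 : IntF N (fun x : α => F (Sum.inr x)) := IntF.comp (f := fun x => Sum.inr x)
    hF (by (repeat' (first | with_reducible exact IntF.id | with_reducible exact IntF.fst' | with_reducible exact IntF.snd' | with_reducible exact IntF.const _ | with_reducible exact Int.const _ | assumption | with_reducible apply Int.and | with_reducible apply Int.or | with_reducible apply Int.not | with_reducible apply Int.imp | with_reducible apply Int.iff | with_reducible apply Int.ne | with_reducible apply Int.eq | with_reducible apply Int.mem | with_reducible apply Int.subset | with_reducible apply Int.ltN | with_reducible apply Int.leN | with_reducible_and_instances apply Int.le | with_reducible_and_instances apply Int.lt | with_reducible apply Int.all | with_reducible apply Int.ex | with_reducible apply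 IntF.fst | with_reducible apply IntF.snd | with_reducible apply IntF.app | with_reducible apply IntF.inl | with_reducible apply IntF.inr | with_reducible_and_instances apply IntF.mul | with_reducible_and_instances apply IntF.inv | with_reducible_and_instances apply IntF.add | with_reducible_and_instances apply IntF.sub | with_reducible_and_instances apply IntF.neg | with_reducible_and_instances apply IntF.smul | with_reducible apply Int.fin | with_reducible apply IntF.sep | with_reducible apply IntF.lam | with_reducible apply IntF.insert | with_reducible apply IntF.singleton | with_reducible apply IntF.union | with_reducible apply IntF.iimage | with_reducible apply IntF.ite | with_reducible apply IntF.the | with_reducible apply IntF.irec | with_reducible apply IntF.succ | with_reducible apply IntF.val | with_reducible apply IntF.mk | (with_reducible refine Int.comp ?_ ?_; assumption) | (with_reducible refine Int.comp₂ ?_ ?_ ?_; assumption) | (with_reducible refine Int.comp₃ ?_ ?_ ?_ ?_; assumption) | (with_reducible refine Int.comp₄ ?_ ?_ ?_ ?_ ?_; assumption) |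 (with_reducible refine IntF.comp ?_ ?_; assumption) | (with_reducible refine IntF.comp₂ ?_ ?_ ?_; assumption) | (with_reducible refine IntF.comp₃ ?_ ?_ ?_ ?_; assumption) | with_reducible apply IntF.pair)))
  have k2 : IntF N (fun x : α => F (Sum.inl (fb x).succ)) := IntF.comp
    (f := fun x => Sum.inl (fb x).succ) hF (by (repeat' (first | with_reducible exact IntF.id | with_reducible exact IntF.fst' | with_reducible exact IntF.snd' | with_reducible exact IntF.const _ | with_reducible exact Int.const _ | assumption | with_reducible apply Int.and | with_reducible apply Int.or | with_reducible apply Int.not | with_reducible apply Int.imp | with_reducible apply Int.iff | with_reducible apply Int.ne | with_reducible apply Int.eq | with_reducible apply Int.mem | with_reducible apply Int.subset | with_reducible apply Int.ltN | with_reducible apply Int.leN | with_reducible_and_instances apply Int.le | with_reducible_and_instances apply Int.lt | with_reducible apply Int.all | with_reducible apply Int.ex | with_reducible apply IntF.fst | with_reducible apply IntF.snd | with_reducible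 apply IntF.app | with_reducible apply IntF.inl | with_reducible apply IntF.inr | with_reducible_and_instances apply IntF.mul | with_reducible_and_instances apply IntF.inv | with_reducible_and_instances apply IntF.add | with_reducible_and_instances apply IntF.sub | with_reducible_and_instances apply IntF.neg | with_reducible_and_instances apply IntF.smul | with_reducible apply Int.fin | with_reducible apply IntF.sep | with_reducible apply IntF.lam | with_reducible apply IntF.insert | with_reducible apply IntF.singleton | with_reducible apply IntF.union | with_reducible apply IntF.iimage | with_reducible apply IntF.ite | with_reducible apply IntF.the | with_reducible apply IntF.irec | with_reducible apply IntF.succ | with_reducible apply IntF.val | with_reducible apply IntF.mk | (with_reducible refine Int.comp ?_ ?_; assumption) | (with_reducible refine Int.comp₂ ?_ ?_ ?_; assumption) | (with_reducible refine Int.comp₃ ?_ ?_ ?_ ?_; assumption) | (with_reducible refine Int.comp₄ ?_ ?_ ?_ ?_ ?_; assumption) | (with_reducible refine IntF.comp ?_ ?_; assumption) | (with_reducible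 refine IntF.comp₂ ?_ ?_ ?_; assumption) | (with_reducible refine IntF.comp₃ ?_ ?_ ?_ ?_; assumption) | with_reducible apply IntF.pair)))
  have k3 : IntF N (fun x : α => F (Sum.inl (fb x).succ.succ)) := IntF.comp
    (f := fun x => Sum.inl (fb x).succ.succ) hF (by (repeat' (first | with_reducible exact IntF.id | with_reducible exact IntF.fst' | with_reducible exact IntF.snd' | with_reducible exact IntF.const _ | with_reducible exact Int.const _ | assumption | with_reducible apply Int.and | with_reducible apply Int.or | with_reducible apply Int.not | with_reducible apply Int.imp | with_reducible apply Int.iff | with_reducible apply Int.ne | with_reducible apply Int.eq | with_reducible apply Int.mem | with_reducible apply Int.subset | with_reducible apply Int.ltN | with_reducible apply Int.leN | with_reducible_and_instances apply Int.le | with_reducible_and_instances apply Int.lt | with_reducible apply Int.all | with_reducible apply Int.ex | with_reducible apply IntF.fst | with_reducible apply IntF.snd | with_reducible apply IntF.app | with_reducible apply IntF.inl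 | with_reducible apply IntF.inr | with_reducible_and_instances apply IntF.mul | with_reducible_and_instances apply IntF.inv | with_reducible_and_instances apply IntF.add | with_reducible_and_instances apply IntF.sub | with_reducible_and_instances apply IntF.neg | with_reducible_and_instances apply IntF.smul | with_reducible apply Int.fin | with_reducible apply IntF.sep | with_reducible apply IntF.lam | with_reducible apply IntF.insert | with_reducible apply IntF.singleton | with_reducible apply IntF.union | with_reducible apply IntF.iimage | with_reducible apply IntF.ite | with_reducible apply IntF.the | with_reducible apply IntF.irec | with_reducible apply IntF.succ | with_reducible apply IntF.val | with_reducible apply IntF.mk | (with_reducible refine Int.comp ?_ ?_; assumption) | (with_reducible refine Int.comp₂ ?_ ?_ ?_; assumption) | (with_reducible refine Int.comp₃ ?_ ?_ ?_ ?_; assumption) | (with_reducible refine Int.comp₄ ?_ ?_ ?_ ?_ ?_; assumption) | (with_reducible refine IntF.comp ?_ ?_; assumption) | (with_reducible refine IntF.comp₂ ?_ ?_ ?_; assumption)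 | (with_reducible refine IntF.comp₃ ?_ ?_ ?_ ?_; assumption) | with_reducible apply IntF.pair)))
  have k4 : IntF N (fun x : α => F (Sum.inr x) + F (Sum.inr x)) := IntF.comp
    (g := fun q : Plain.El r × Plain.El r => q.1 + q.2) (f := fun x => (F (Sum.inr x), F (Sum.inr x)))
    hadd (k1.pair k1)
  have k5 : IntF N (fun x : α => F (Sum.inl (fb x).succ) + F (Sum.inl (fb x).succ.succ)) :=
    IntF.comp (g := fun q : Plain.El r × Plain.El r => q.1 + q.2)
      (f := fun x => (F (Sum.inl (fb x).succ), F (Sum.inl (fb x).succ.succ))) hadd (k2.pair k3)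
  have hI : Int N (fun x : α => F (Sum.inr x) + F (Sum.inr x) <
      F (Sum.inl (fb x).succ) + F (Sum.inl (fb x).succ.succ)) := Int.comp
    (p := fun q : Plain.El r × Plain.El r => q.1 < q.2)
    (f := fun x => (F (Sum.inr x) + F (Sum.inr x),
      F (Sum.inl (fb x).succ) + F (Sum.inl (fb x).succ.succ))) hlt (k4.pair k5)
  have hI' : Int N (fun x : α => F (Sum.inl (fb x).succ) + F (Sum.inl (fb x).succ.succ) <
      F (Sum.inr x) + F (Sum.inr x)) := Int.comp
    (p := fun q : Plain.El r × Plain.El r => q.1 < q.2)
    (f := fun x => (F (Sum.inl (fb x).succ) + F (Sum.inl (fb x).succ.succ),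
      F (Sum.inr x) + F (Sum.inr x))) hlt (k5.pair k4)
  obtain ⟨n₀, h1⟩ := h.key hI
  obtain ⟨n₁, h1'⟩ := h.key hI'
  have h2 : ∀ n, max n₀ n₁ ≤ n → F (Sum.inl n.succ) = F (Sum.inl n.succ.succ) := by
    intro n hn
    rcases lt_trichotomy (F (Sum.inl n.succ)) (F (Sum.inl n.succ.succ)) with h3 | h3 | h3
    · exfalso
      have hε : 0 < (F (Sum.inl n.succ.succ) - F (Sum.inl n.succ)) / 2 := by linarith
      obtain ⟨y, m1, m2⟩ := near_R h hPa hc (hPp n) hε
      obtain ⟨y', m1', m2'⟩ := near_L h hPa hc (hPp n.succ) hε
      refine h1 n ((le_max_left _ _).trans hn) ⟨y, m1, fun w hw hwy => ?_⟩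
        ⟨y', m1', fun w hw hwy h9 => ?_⟩
      · have m3 := abs_sub_lt_iff.1 (m2 w hw hwy)
        rw [hw]
        linarith
      · have m3 := abs_sub_lt_iff.1 (m2' w hw hwy)
        rw [hw] at h9
        linarith
    · exact h3
    · exfalso
      have hε : 0 < (F (Sum.inl n.succ) - F (Sum.inl n.succ.succ)) / 2 := by linarith
      obtain ⟨y, m1, m2⟩ := near_R h hPa hc (hPp n) hε
      obtain ⟨y', m1', m2'⟩ := near_L h hPa hc (hPp n.succ) hε
      refine h1' n ((le_max_right _ _).trans hn) ⟨y, m1, fun w hw hwy => ?_⟩
        ⟨y', m1', fun w hw hwy h9 => ?_⟩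
      · have m3 := abs_sub_lt_iff.1 (m2 w hw hwy)
        rw [hw]
        linarith
      · have m3 := abs_sub_lt_iff.1 (m2' w hw hwy)
        rw [hw] at h9
        linarith
  have hg : IntF N (fun n : INat N => F (Sum.inl n.succ)) := IntF.comp
    (f := fun n : INat N => Sum.inl n.succ) hF (by (repeat' (first | with_reducible exact IntF.id | with_reducible exact IntF.fst' | with_reducible exact IntF.snd' | with_reducible exact IntF.const _ | with_reducible exact Int.const _ | assumption | with_reducible apply Int.and | with_reducible apply Int.or | with_reducible apply Int.not | with_reducible apply Int.imp | with_reducible apply Int.iff | with_reducible apply Int.ne | with_reducible apply Int.eq | with_reducible apply Int.mem | with_reducible apply Int.subset | with_reducible apply Int.ltN | with_reducible apply Int.leN | with_reducible_and_instances apply Int.le | with_reducible_and_instances apply Int.lt | with_reducible apply Int.all | with_reducible apply Int.ex | with_reducible apply IntF.fst | with_reducible apply IntF.snd | with_reducible apply IntF.app |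 with_reducible apply IntF.inl | with_reducible apply IntF.inr | with_reducible_and_instances apply IntF.mul | with_reducible_and_instances apply IntF.inv | with_reducible_and_instances apply IntF.add | with_reducible_and_instances apply IntF.sub | with_reducible_and_instances apply IntF.neg | with_reducible_and_instances apply IntF.smul | with_reducible apply Int.fin | with_reducible apply IntF.sep | with_reducible apply IntF.lam | with_reducible apply IntF.insert | with_reducible apply IntF.singleton | with_reducible apply IntF.union | with_reducible apply IntF.iimage | with_reducible apply IntF.ite | with_reducible apply IntF.the | with_reducible apply IntF.irec | with_reducible apply IntF.succ | with_reducible apply IntF.val | with_reducible apply IntF.mk | (with_reducible refine Int.comp ?_ ?_; assumption) | (with_reducible refine Int.comp₂ ?_ ?_ ?_; assumption) | (with_reducible refine Int.comp₃ ?_ ?_ ?_ ?_; assumption) | (with_reducible refine Int.comp₄ ?_ ?_ ?_ ?_ ?_; assumption) | (with_reducible refine IntF.comp ?_ ?_; assumption) | (with_reducible refine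 IntF.comp₂ ?_ ?_ ?_; assumption) | (with_reducible refine IntF.comp₃ ?_ ?_ ?_ ?_; assumption) | with_reducible apply IntF.pair)))
  exact ⟨_, h.ev_const hg h2⟩

include h hP in
/-- Complete regularity. -/
theorem isTychonoff_ts : IsTychonoff (ts (OP D fb P)) (xs (N := N) P) := by
  classical
  have hS := spO h hP
  refine ⟨isT1_ts h hP, fun u a hu ha => ?_⟩
  obtain ⟨r, i1, i2, i3, hr⟩ := H635.exists_reals hZ
  obtain ⟨U, h1, rfl⟩ := (mem_ts hS).1 hu
  obtain ⟨s, h2, rfl⟩ := mem_codeB.1 ha
  obtain ⟨l, v, h3, h4, h5⟩ := h1.2 s h2
  have hI := int_itv h hP l v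
  have hF : IntF N (fun z : Pt N α => if P z ∧ gt D fb z l ∧ leo D fb z v then (0 : Plain.El r)
      else 1) := IntF.ite hI (IntF.const _) (IntF.const _)
  have hJ : ∀ z, z ∈ sep N (fun z : Pt N α => P z ∧ gt D fb z l ∧ leo D fb z v) ↔
      P z ∧ gt D fb z l ∧ leo D fb z v := fun z => mem_sep hI
  have hcl := (isClopen_iff h hP).1 (clopen_itv h hP l v)
  obtain ⟨hc1, V, hc2, hc3⟩ := hcl
  have hc : CtR P (OP D fb P) (fun z : Pt N α => if P z ∧ gt D fb z l ∧ leo D fb z v then
      (0 : Plain.El r) else 1) := by
    intro z hz ε hε
    by_cases h6 : P z ∧ gt D fb z l ∧ leo D fb z v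
    · refine ⟨_, hc1, (hJ z).2 h6, fun w hw => ?_⟩
      beta_reduce
      rw [if_pos ((hJ w).1 hw), if_pos h6, sub_self, abs_zero]
      exact hε
    · refine ⟨V, hc2, (hc3 z).2 ⟨hz, fun h7 => h6 ((hJ z).1 h7)⟩, fun w hw => ?_⟩
      beta_reduce
      rw [if_neg (fun h7 => ((hc3 w).1 hw).2 ((hJ w).2 h7)), if_neg h6, sub_self, abs_zero]
      exact hε
  obtain ⟨φ, h6, h7⟩ := cont_fold hS hF hc
  have h8 : ∀ z : Plain.El (xs (N := N) P), ∃ w, ∃ hw : P w, z = ⟨code w, (mem_xs' hS).2 hw⟩ := by
    intro z
    obtain ⟨w, hw, hw'⟩ := (mem_xs hS).1 z.2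
    exact ⟨w, hw, Subtype.ext hw'.symm⟩
  refine ⟨r, i1, i2, i3, hr, φ, h6, fun z => ?_, fun z hz => ?_, fun z hz => ?_⟩
  · obtain ⟨w, hw, rfl⟩ := h8 z
    rw [h7 w hw]
    beta_reduce
    split_ifs
    · exact ⟨le_rfl, zero_le_one⟩
    · exact ⟨zero_le_one, le_rfl⟩
  · obtain ⟨w, hw, rfl⟩ := h8 z
    obtain rfl : w = s := ITy.inj hz
    rw [h7 w hw]
    exact if_pos ⟨hw, h3, h4⟩
  · obtain ⟨w, hw, rfl⟩ := h8 z
    rw [h7 w hw]
    exact if_neg fun h9 => hz (mem_codeQ.2 (h5 w h9.1 h9.2.1 h9.2.2))

include h in
/-- The initial segments are z-embedded. -/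
theorem z_embedded (n : INat N) : IsZEmbedded (ts (OP D fb PB))
    (xs (N := N) (PB (N := N) (α := α))) (xs (N := N) (PK D fb n)) := by
  have hS := spO h (int_PK' h n)
  have hSB := spO h (int_PB (N := N) (α := α))
  have hrt := int_rt h n
  refine ⟨pk_sub h n, ts (OP D fb (PK D fb n)), isSubTop_ts h (int_PB (N := N) (α := α))
    (int_PK' h n) fun z hz => pk_pb h hz, fun z hz => ?_⟩
  obtain ⟨Z, rfl, h1, r, i1, i2, i3, hr, F, h2, h3, h4⟩ := zero_unfold hS hz
  have hF : IntF N (fun z => F (rt D fb n z)) := IntF.comp h2 hrt
  have hI := int_pre_rt hrt Z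
  refine ⟨code (sep N fun z : Pt N α => PB z ∧ rt D fb n z ∈ Z), zero_fold hSB hr hF
    (fun z hz ε hε => ?_) (fun s hs => ((mem_sep hI).1 hs).1) (fun s hs => ?_), trace_rt h h1⟩
  · obtain ⟨U, h5, h6, h7⟩ := h3 (rt D fb n z) (rt_pk n z) ε hε
    have hI' := int_pre_rt hrt U
    refine ⟨sep N fun z : Pt N α => PB z ∧ rt D fb n z ∈ U, op_rt h h5 fun z => mem_sep hI',
      (mem_sep hI').2 ⟨hz, h6⟩, fun w hw => h7 _ ((mem_sep hI').1 hw).2⟩
  · rw [mem_sep hI, ← h4 _ (rt_pk n s)]
    exact ⟨fun h => h.2, fun h => ⟨hs, h⟩⟩

end

section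

attribute [local instance] Helper672.Plain.toL

variable {N : Type u} [LSet.Structure N] [hZ : Helper672.Plain.Zermelo N]

local instance instModelZr4' : IsModel N := Helper672.Plain.isModel_toL

noncomputable local instance instPElZr4' (x : N) : ITy N (Helper672.Plain.El x) :=
  (inferInstance : ITy N (El x))

variable {a : N}
variable {D : INat N × (Plain.El a × Plain.El a) → Prop} {fb : Plain.El a → INat N}
  (h : ZT N D fb)

include h

theorem rco_PK (n : INat N) :
    IsRealcompact (ts (OP D fb (PK D fb n))) (xs (N := N) (PK D fb n)) := by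
  obtain ⟨r, i1, i2, i3, hr⟩ := H635.exists_reals hZ
  exact rco_of h (int_PK' h n) hr fun z hz x hx => by
    obtain ⟨w, h1, h2⟩ := hz x
    exact h2.2 (h1 x hx)

theorem rco_all :
    IsRealcompact (ts (OP D fb (fun _ => True))) (xs (N := N) (fun _ : Pt N (Plain.El a) => True)) := by
  obtain ⟨r, i1, i2, i3, hr⟩ := H635.exists_reals hZ
  exact rco_of h (Int.const _) hr fun z _ => trivial

omit h in
theorem pb_succ (n : INat N) : PB (Sum.inl n.succ : Pt N (Plain.El a)) := fun e =>
  INat.succ_ne_zero _ (Sum.inl.inj e)

omit h in
theorem pb_inr (x : Plain.El a) : PB (Sum.inr x : Pt N (Plain.El a)) := fun e => by simp at e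

/-- The space without the last point is not realcompact. -/
theorem not_rco : ¬ IsRealcompact (ts (OP D fb PB)) (xs (N := N) (PB (N := N) (α := Plain.El a))) := by
  intro hN
  have hSB := spO h (int_PB (N := N) (α := Plain.El a))
  obtain ⟨r, i1, i2, i3, hr, j, F, hF, hc, hcl, hemb⟩ := rco_unfold hSB hN
  obtain ⟨g, hg, h1⟩ := exists_lim hF fun i => ev_of_contR h hr pb_inr pb_succ
    (F := fun z => F (i, z)) (IntF.comp (f := fun z => (i, z)) hF (IntF.pair (IntF.const _) IntF.id))
    (hc i)
  obtain ⟨z, hz, h2⟩ := hcl g hg fun S hS ε hε => by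
    obtain ⟨n, -, h2⟩ := h1 S hS 0
    refine ⟨_, pb_succ n, fun i hi => ?_⟩
    rw [h2 i hi, sub_self, abs_zero]
    exact hε
  obtain ⟨x, hx⟩ : ∃ x, lep D fb z x := by
    rcases z with n | y
    · rcases INat.eq_zero_or_succ n with rfl | ⟨k, rfl⟩
      · exact absurd rfl hz
      · obtain ⟨x, hx⟩ := h.ne k
        exact ⟨x, lep_inl.2 hx.symm.le⟩
    · exact ⟨y, lep_inr.2 (h.pre_refl y)⟩
  have hI := int_itv h (int_PB (N := N) (α := Plain.El a)) (Sum.inr 0) (Sum.inl x)
  obtain ⟨S, h3, ε, hε, h4⟩ := hemb (sep N fun s => PB s ∧ gt D fb s (Sum.inr 0) ∧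
    leo D fb s (Sum.inl x)) z
    (op_itv fun s => mem_sep hI) ((mem_sep hI).2 ⟨hz, gt_inr, leo_inl.2 hx⟩)
  obtain ⟨n, h5, h6⟩ := h1 S h3 (fb x).succ
  have h7 := (mem_sep hI).1 (h4 (Sum.inl n.succ) (pb_succ n) fun i hi => by
    rw [h6 i hi, h2 i, sub_self, abs_zero]
    exact hε)
  have h8 := lep_inl.1 (leo_inl.1 h7.2.2)
  exact absurd (lt_of_lt_of_le (INat.lt_succ_self (fb x)) (h5.trans h8)) (lt_irrefl _)

/-- The space. -/
theorem space_rco : ∃ x t : N, IsTopology t x ∧ IsTychonoff t x ∧ (∃ f, IsSeqUnion f x ∧
    ∀ n u, App f n u → IsRealcompactSub t u ∧ IsZEmbedded t x u) ∧ ¬ IsRealcompact t x := by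
  have hB := int_PB (N := N) (α := Plain.El a)
  have hS := spO h hB
  obtain ⟨f, h1, h2⟩ := seq_union h
  refine ⟨xs (N := N) (PB (N := N) (α := Plain.El a)), ts (OP D fb PB), isTopology_ts hS,
    isTychonoff_ts h hB, ⟨f, h1, fun n u hu => ?_⟩, not_rco h⟩
  obtain ⟨m, rfl⟩ := h2 n u hu
  exact ⟨⟨ts (OP D fb (PK D fb m)), isSubTop_ts h hB (int_PK' h m) (fun z hz => pk_pb h hz),
    rco_PK h m⟩, z_embedded h m⟩

end

end Pool.Agent.V11257Z
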