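import Pool.Agent.V11257.Zr4
import Pool.Agent.V11246.NcoR

/-!
# The spaces: zero-sets, Baire sets, and the failure of countable multiple choice
-/

set_option maxHeartbeats 1000000
set_option linter.all false
set_option synthInstance.maxSize 2000

namespace Pool.Agent.V11257Z

open FirstOrder FirstOrder.Language
open Pool.Agent.Helper672
open Pool.Agent.Helper672.ZFA
open Pool.Agent.Helper672.ZFA.V246
open Pool.Agent.Helper672.Plain (LSet)
open Pool.Agent.H310
open Pool.Agent.H310Cards
open Pool.Agent.H310Top (IsTopology)
open Pool.Agent.H635Amen (IsReals)
open Pool.Agent.V11246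

universe u

section

variable {N : Type u} [L.Structure N] [hN : IsModel N] {α : Type u} [ITy N α]
variable {D : INat N × (α × α) → Prop} {fb : α → INat N} (h : ZT N D fb)

include h

theorem ZT.uK {k m : INat N} {x y : α} (h1 : D (k, (x, y))) (h2 : D (k + m, (x, y))) : m = 0 := by
  obtain ⟨w, hw⟩ := h.exR m y
  have h3 := h.tr _ _ _ h1 _ _ hw
  have h4 := h.uR _ h3 h2
  subst h4
  exact h.zero_of _ _ hw

theorem ZT.uN {k k' : INat N} {x y : α} (h1 : D (k, (x, y))) (h2 : D (k', (x, y))) : k = k' := by
  rcases INat.total k k' with ⟨m, rfl⟩ | ⟨m, rfl⟩
  · rw [h.uK h1 h2, add_zero]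
  · rw [h.uK h2 h1, add_zero]

/-- The final segment above the limit point with number `n.succ`. -/
def TT (P : Pt N α → Prop) (D : INat N × (α × α) → Prop) (fb : α → INat N) (n : INat N)
    (z : Pt N α) : Prop := P z ∧ ∀ x, lep D fb z x → n.succ ≤ fb x

theorem int_TT {P : Pt N α → Prop} (hP : Int N P) :
    Int N (fun q : INat N × Pt N α => TT P D fb q.1 q.2) := by
  have h1 := h.int_lep
  have h2 := h.intF
  unfold TT
  have h3 : Int N (fun q : (INat N × Pt N α) × α => lep D fb q.1.2 q.2) := Int.comp
    (p := fun q : Pt N α × α => lep D fb q.1 q.2)
    (f := fun q : (INat N × Pt N α) × α => (q.1.2, q.2)) h1 (by (repeat' (first | with_reducible exact IntF.id | with_reducible exact IntF.fst' | with_reducible exact IntF.snd' | with_reducible exact IntF.const _ | with_reducible exact Int.const _ | assumption | with_reducible apply Int.and | with_reducible apply Int.or | with_reducible apply Int.not | with_reducible apply Int.imp | with_reducible apply Int.iff | with_reducible apply Int.ne | with_reducible apply Int.eq | with_reducible apply Int.mem | with_reducible apply Int.subset | with_reducible apply Int.ltN | with_reducible apply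 Int.leN | with_reducible_and_instances apply Int.le | with_reducible_and_instances apply Int.lt | with_reducible apply Int.all | with_reducible apply Int.ex | with_reducible apply IntF.fst | with_reducible apply IntF.snd | with_reducible apply IntF.app | with_reducible apply IntF.inl | with_reducible apply IntF.inr | with_reducible_and_instances apply IntF.mul | with_reducible_and_instances apply IntF.inv | with_reducible_and_instances apply IntF.add | with_reducible_and_instances apply IntF.sub | with_reducible_and_instances apply IntF.neg | with_reducible_and_instances apply IntF.smul | with_reducible apply Int.fin | with_reducible apply IntF.sep | with_reducible apply IntF.lam | with_reducible apply IntF.insert | with_reducible apply IntF.singleton | with_reducible apply IntF.union | with_reducible apply IntF.iimage | with_reducible apply IntF.ite | with_reducible apply IntF.the | with_reducible apply IntF.irec | with_reducible apply IntF.succ | with_reducible apply IntF.val | with_reducible apply IntF.mk | (with_reducible refine Int.comp ?_ ?_; assumption) | (with_reducible refine Int.comp₂ ?_ ?_ ?_; assumption) | (with_reducible refine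 Int.comp₃ ?_ ?_ ?_ ?_; assumption) | (with_reducible refine Int.comp₄ ?_ ?_ ?_ ?_ ?_; assumption) | (with_reducible refine IntF.comp ?_ ?_; assumption) | (with_reducible refine IntF.comp₂ ?_ ?_ ?_; assumption) | (with_reducible refine IntF.comp₃ ?_ ?_ ?_ ?_; assumption) | with_reducible apply IntF.pair)))
  have h4 : Int N (fun q : INat N × Pt N α => P q.2) := Int.comp (p := P)
    (f := fun q : INat N × Pt N α => q.2) hP (by (repeat' (first | with_reducible exact IntF.id | with_reducible exact IntF.fst' | with_reducible exact IntF.snd' | with_reducible exact IntF.const _ | with_reducible exact Int.const _ | assumption | with_reducible apply Int.and | with_reducible apply Int.or | with_reducible apply Int.not | with_reducible apply Int.imp | with_reducible apply Int.iff | with_reducible apply Int.ne | with_reducible apply Int.eq | with_reducible apply Int.mem | with_reducible apply Int.subset | with_reducible apply Int.ltN | with_reducible apply Int.leN | with_reducible_and_instances apply Int.le | with_reducible_and_instances apply Int.lt | with_reducible apply Int.all | with_reducible apply Int.ex | with_reducible apply IntF.fst | with_reducible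 apply IntF.snd | with_reducible apply IntF.app | with_reducible apply IntF.inl | with_reducible apply IntF.inr | with_reducible_and_instances apply IntF.mul | with_reducible_and_instances apply IntF.inv | with_reducible_and_instances apply IntF.add | with_reducible_and_instances apply IntF.sub | with_reducible_and_instances apply IntF.neg | with_reducible_and_instances apply IntF.smul | with_reducible apply Int.fin | with_reducible apply IntF.sep | with_reducible apply IntF.lam | with_reducible apply IntF.insert | with_reducible apply IntF.singleton | with_reducible apply IntF.union | with_reducible apply IntF.iimage | with_reducible apply IntF.ite | with_reducible apply IntF.the | with_reducible apply IntF.irec | with_reducible apply IntF.succ | with_reducible apply IntF.val | with_reducible apply IntF.mk | (with_reducible refine Int.comp ?_ ?_; assumption) | (with_reducible refine Int.comp₂ ?_ ?_ ?_; assumption) | (with_reducible refine Int.comp₃ ?_ ?_ ?_ ?_; assumption) | (with_reducible refine Int.comp₄ ?_ ?_ ?_ ?_ ?_; assumption) | (with_reducible refine IntF.comp ?_ ?_; assumption) | (with_reducible refine IntF.comp₂ ?_ ?_ ?_; assumption)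 | (with_reducible refine IntF.comp₃ ?_ ?_ ?_ ?_; assumption) | with_reducible apply IntF.pair)))
  (repeat' (first | with_reducible exact IntF.id | with_reducible exact IntF.fst' | with_reducible exact IntF.snd' | with_reducible exact IntF.const _ | with_reducible exact Int.const _ | assumption | with_reducible apply Int.and | with_reducible apply Int.or | with_reducible apply Int.not | with_reducible apply Int.imp | with_reducible apply Int.iff | with_reducible apply Int.ne | with_reducible apply Int.eq | with_reducible apply Int.mem | with_reducible apply Int.subset | with_reducible apply Int.ltN | with_reducible apply Int.leN | with_reducible_and_instances apply Int.le | with_reducible_and_instances apply Int.lt | with_reducible apply Int.all | with_reducible apply Int.ex | with_reducible apply IntF.fst | with_reducible apply IntF.snd | with_reducible apply IntF.app | with_reducible apply IntF.inl | with_reducible apply IntF.inr | with_reducible_and_instances apply IntF.mul | with_reducible_and_instances apply IntF.inv | with_reducible_and_instances apply IntF.add | with_reducible_and_instances apply IntF.sub | with_reducible_and_instances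 apply IntF.neg | with_reducible_and_instances apply IntF.smul | with_reducible apply Int.fin | with_reducible apply IntF.sep | with_reducible apply IntF.lam | with_reducible apply IntF.insert | with_reducible apply IntF.singleton | with_reducible apply IntF.union | with_reducible apply IntF.iimage | with_reducible apply IntF.ite | with_reducible apply IntF.the | with_reducible apply IntF.irec | with_reducible apply IntF.succ | with_reducible apply IntF.val | with_reducible apply IntF.mk | (with_reducible refine Int.comp ?_ ?_; assumption) | (with_reducible refine Int.comp₂ ?_ ?_ ?_; assumption) | (with_reducible refine Int.comp₃ ?_ ?_ ?_ ?_; assumption) | (with_reducible refine Int.comp₄ ?_ ?_ ?_ ?_ ?_; assumption) | (with_reducible refine IntF.comp ?_ ?_; assumption) | (with_reducible refine IntF.comp₂ ?_ ?_ ?_; assumption) | (with_reducible refine IntF.comp₃ ?_ ?_ ?_ ?_; assumption) | with_reducible apply IntF.pair))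

theorem int_TT' {P : Pt N α → Prop} (hP : Int N P) (n : INat N) : Int N (TT P D fb n) :=
  Int.comp (p := fun q : INat N × Pt N α => TT P D fb q.1 q.2) (f := fun z => (n, z)) (int_TT h hP)
    (by (repeat' (first | with_reducible exact IntF.id | with_reducible exact IntF.fst' | with_reducible exact IntF.snd' | with_reducible exact IntF.const _ | with_reducible exact Int.const _ | assumption | with_reducible apply Int.and | with_reducible apply Int.or | with_reducible apply Int.not | with_reducible apply Int.imp | with_reducible apply Int.iff | with_reducible apply Int.ne | with_reducible apply Int.eq | with_reducible apply Int.mem | with_reducible apply Int.subset | with_reducible apply Int.ltN | with_reducible apply Int.leN | with_reducible_and_instances apply Int.le | with_reducible_and_instances apply Int.lt | with_reducible apply Int.all | with_reducible apply Int.ex | with_reducible apply IntF.fst | with_reducible apply IntF.snd | with_reducible apply IntF.app | with_reducible apply IntF.inl | with_reducible apply IntF.inr | with_reducible_and_instances apply IntF.mul | with_reducible_and_instances apply IntF.inv | with_reducible_and_instances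 apply IntF.add | with_reducible_and_instances apply IntF.sub | with_reducible_and_instances apply IntF.neg | with_reducible_and_instances apply IntF.smul | with_reducible apply Int.fin | with_reducible apply IntF.sep | with_reducible apply IntF.lam | with_reducible apply IntF.insert | with_reducible apply IntF.singleton | with_reducible apply IntF.union | with_reducible apply IntF.iimage | with_reducible apply IntF.ite | with_reducible apply IntF.the | with_reducible apply IntF.irec | with_reducible apply IntF.succ | with_reducible apply IntF.val | with_reducible apply IntF.mk | (with_reducible refine Int.comp ?_ ?_; assumption) | (with_reducible refine Int.comp₂ ?_ ?_ ?_; assumption) | (with_reducible refine Int.comp₃ ?_ ?_ ?_ ?_; assumption) | (with_reducible refine Int.comp₄ ?_ ?_ ?_ ?_ ?_; assumption) | (with_reducible refine IntF.comp ?_ ?_; assumption) | (with_reducible refine IntF.comp₂ ?_ ?_ ?_; assumption) | (with_reducible refine IntF.comp₃ ?_ ?_ ?_ ?_; assumption) | with_reducible apply IntF.pair)))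

/-- Points outside the final segment. -/
theorem not_TT {P : Pt N α → Prop} {n : INat N} {z : Pt N α} (hz : P z) (h1 : ¬ TT P D fb n z)
    {y : α} (hy : fb y = n) : lep D fb z y ∨ ∃ v k, z = Sum.inr v ∧ D (k, (y, v)) := by
  unfold TT at h1
  push Not at h1
  obtain ⟨x, h2, h3⟩ := h1 hz
  have h4 : fb x ≤ n := INat.lt_succ_iff.1 h3
  rcases h4.lt_or_eq with h5 | h5
  · exact Or.inl (h.lep_mono h2 (Or.inl (hy.symm ▸ h5)))
  · rcases h2 with ⟨m, rfl, h6⟩ | ⟨v, rfl, h6⟩
    · exact Or.inl (lep_inl.2 (hy.symm ▸ h5 ▸ h6))
    · rcases (h.pre_le h6).lt_or_eq with h7 | h7
      · exact Or.inl (lep_inr.2 (Or.inl (by rw [hy, ← h5]; exact h7)))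
      · obtain ⟨k, h8 | h8⟩ := h.total v y (h7.trans (h5.trans hy.symm))
        · exact Or.inl (lep_inr.2 (Or.inr ⟨k, h8⟩))
        · exact Or.inr ⟨v, k, rfl, h8⟩

end

section

attribute [local instance] Helper672.Plain.toL

variable {N : Type u} [LSet.Structure N] [hZ : Helper672.Plain.Zermelo N]

local instance instModelZr5 : IsModel N := Helper672.Plain.isModel_toL

noncomputable local instance instPElZr5 (x : N) : ITy N (Helper672.Plain.El x) :=
  (inferInstance : ITy N (El x))

variable {α : Type u} [ITy N α]
variable {D : INat N × (α × α) → Prop} {fb : α → INat N} (h : ZT N D fb)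
variable {P : Pt N α → Prop} (hP : Int N P)
variable {r : N} [Field (Plain.El r)] [LinearOrder (Plain.El r)]
  [IsStrictOrderedRing (Plain.El r)]

include h hP

/-- The final segments are zero-sets: the function. -/
theorem exists_TF (hr : IsReals r) (n : INat N) : ∃ F : Pt N α → Plain.El r, IntF N F ∧
    CtR P (OP D fb P) F ∧ ∀ s, P s → (TT P D fb n s ↔ F s = 0) := by
  have hD := h.intD
  obtain ⟨q, hq0, hpos, hanti, hlim⟩ := exists_q (hM := instModelZr5) hr
  have hq : IntF N (fun n : INat N => q n) := hq0
  obtain ⟨y, hy⟩ := h.ne n
  have hTI := int_TT' h hP n
  have hqle : ∀ k i, q (k + i) ≤ q k := by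
    intro k i
    rcases (IZ.le_add_r k i).lt_or_eq with h1 | h1
    · exact (hanti _ _ h1).le
    · rw [← h1]
  have hex : ∀ z : Pt N α, ∃ v : Plain.El r, (TT P D fb n z ∧ v = 0) ∨
      (¬ TT P D fb n z ∧ ((∃ k w, z = Sum.inr w ∧ D (k, (y, w)) ∧ v = q k) ∨
        ((¬ ∃ k w, z = Sum.inr w ∧ D (k, (y, w))) ∧ v = q 0))) := by
    intro z
    by_cases h1 : TT P D fb n z
    · exact ⟨0, Or.inl ⟨h1, rfl⟩⟩
    · by_cases h2 : ∃ k w, z = Sum.inr w ∧ D (k, (y, w))
      · obtain ⟨k, w, h3, h4⟩ := h2
        exact ⟨q k, Or.inr ⟨h1, Or.inl ⟨k, w, h3, h4, rfl⟩⟩⟩
      · exact ⟨q 0, Or.inr ⟨h1, Or.inr ⟨h2, rfl⟩⟩⟩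
  choose F hF using hex
  have f1 : ∀ z, TT P D fb n z → F z = 0 := fun z hz => (hF z).elim (fun h => h.2)
    fun h => absurd hz h.1
  have f2 : ∀ w k, ¬ TT P D fb n (Sum.inr w) → D (k, (y, w)) → F (Sum.inr w) = q k := by
    intro w k hw hk
    rcases hF (Sum.inr w) with h1 | ⟨-, ⟨k', w', h1, h2, h3⟩ | ⟨h1, -⟩⟩
    · exact absurd h1.1 hw
    · obtain rfl := Sum.inr.inj h1
      rw [h3, h.uN hk h2]
    · exact absurd ⟨k, w, rfl, hk⟩ h1
  have f3 : ∀ z, ¬ TT P D fb n z → (¬ ∃ k w, z = Sum.inr w ∧ D (k, (y, w))) → F z = q 0 := by
    intro z hz hk
    rcases hF z with h1 | ⟨-, ⟨k', w', h1, h2, h3⟩ | ⟨-, h1⟩⟩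
    · exact absurd h1.1 hz
    · exact absurd ⟨k', w', h1, h2⟩ hk
    · exact h1
  have fT : ∀ z, lep D fb z y → ¬ TT P D fb n z := fun z hz hT => by
    have := hT.2 y hz
    rw [hy] at this
    exact absurd (lt_of_lt_of_le (INat.lt_succ_self n) this) (lt_irrefl _)
  have f4 : ∀ z, lep D fb z y → F z = q 0 := by
    intro z hz
    by_cases h1 : ∃ k w, z = Sum.inr w ∧ D (k, (y, w))
    · obtain ⟨k, w, rfl, h2⟩ := h1
      obtain rfl := h.pre_anti (lep_inr.1 hz) (Or.inr ⟨k, h2⟩)
      rw [f2 w k (fT _ hz) h2, h.zero_of _ _ h2]
    · exact f3 z (fT z hz) h1
  have f5 : ∀ z, ¬ TT P D fb n z → 0 < F z := by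
    intro z hz
    rcases hF z with h1 | ⟨-, ⟨k', w', h1, h2, h3⟩ | ⟨-, h1⟩⟩
    · exact absurd h1.1 hz
    · rw [h3]
      exact hpos _
    · rw [h1]
      exact hpos _
  refine ⟨F, ?_, ?_, ?_⟩
  · refine IntF.of_rel (r := fun (z : Pt N α) (v : Plain.El r) => (TT P D fb n z ∧ v = 0) ∨
      (¬ TT P D fb n z ∧ ((∃ k w, z = Sum.inr w ∧ D (k, (y, w)) ∧ v = q k) ∨
        ((¬ ∃ k w, z = Sum.inr w ∧ D (k, (y, w))) ∧ v = q 0)))) ?_ ?_
    · have g1 : Int N (fun p : Pt N α × Plain.El r => TT P D fb n p.1) := Int.comp
        (p := TT P D fb n) (f := fun p : Pt N α × Plain.El r => p.1) hTI (by (repeat' (first | with_reducible exact IntF.id | with_reducible exact IntF.fst' | with_reducible exact IntF.snd' | with_reducible exact IntF.const _ | with_reducible exact Int.const _ | assumption | with_reducible apply Int.and | with_reducible apply Int.or | with_reducible apply Int.not | with_reducible apply Int.imp | with_reducible apply Int.iff | with_reducible apply Int.ne | with_reducible apply Int.eq | with_reducible apply Int.mem | with_reducible apply Int.subset | with_reducible apply Int.ltN | with_reducible apply Int.leN | with_reducible_and_instances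 apply Int.le | with_reducible_and_instances apply Int.lt | with_reducible apply Int.all | with_reducible apply Int.ex | with_reducible apply IntF.fst | with_reducible apply IntF.snd | with_reducible apply IntF.app | with_reducible apply IntF.inl | with_reducible apply IntF.inr | with_reducible_and_instances apply IntF.mul | with_reducible_and_instances apply IntF.inv | with_reducible_and_instances apply IntF.add | with_reducible_and_instances apply IntF.sub | with_reducible_and_instances apply IntF.neg | with_reducible_and_instances apply IntF.smul | with_reducible apply Int.fin | with_reducible apply IntF.sep | with_reducible apply IntF.lam | with_reducible apply IntF.insert | with_reducible apply IntF.singleton | with_reducible apply IntF.union | with_reducible apply IntF.iimage | with_reducible apply IntF.ite | with_reducible apply IntF.the | with_reducible apply IntF.irec | with_reducible apply IntF.succ | with_reducible apply IntF.val | with_reducible apply IntF.mk | (with_reducible refine Int.comp ?_ ?_; assumption) | (with_reducible refine Int.comp₂ ?_ ?_ ?_; assumption) | (with_reducible refine Int.comp₃ ?_ ?_ ?_ ?_; assumption)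 | (with_reducible refine Int.comp₄ ?_ ?_ ?_ ?_ ?_; assumption) | (with_reducible refine IntF.comp ?_ ?_; assumption) | (with_reducible refine IntF.comp₂ ?_ ?_ ?_; assumption) | (with_reducible refine IntF.comp₃ ?_ ?_ ?_ ?_; assumption) | with_reducible apply IntF.pair)))
      have g2 : Int N (fun p : ((Pt N α × Plain.El r) × INat N) × α => D (p.1.2, (y, p.2))) :=
        Int.comp (p := D) (f := fun p : ((Pt N α × Plain.El r) × INat N) × α =>
          (p.1.2, (y, p.2))) hD (by (repeat' (first | with_reducible exact IntF.id | with_reducible exact IntF.fst' | with_reducible exact IntF.snd' | with_reducible exact IntF.const _ | with_reducible exact Int.const _ | assumption | with_reducible apply Int.and | with_reducible apply Int.or | with_reducible apply Int.not | with_reducible apply Int.imp | with_reducible apply Int.iff | with_reducible apply Int.ne | with_reducible apply Int.eq | with_reducible apply Int.mem | with_reducible apply Int.subset | with_reducible apply Int.ltN | with_reducible apply Int.leN | with_reducible_and_instances apply Int.le | with_reducible_and_instances apply Int.lt | with_reducible apply Int.all | with_reducible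 apply Int.ex | with_reducible apply IntF.fst | with_reducible apply IntF.snd | with_reducible apply IntF.app | with_reducible apply IntF.inl | with_reducible apply IntF.inr | with_reducible_and_instances apply IntF.mul | with_reducible_and_instances apply IntF.inv | with_reducible_and_instances apply IntF.add | with_reducible_and_instances apply IntF.sub | with_reducible_and_instances apply IntF.neg | with_reducible_and_instances apply IntF.smul | with_reducible apply Int.fin | with_reducible apply IntF.sep | with_reducible apply IntF.lam | with_reducible apply IntF.insert | with_reducible apply IntF.singleton | with_reducible apply IntF.union | with_reducible apply IntF.iimage | with_reducible apply IntF.ite | with_reducible apply IntF.the | with_reducible apply IntF.irec | with_reducible apply IntF.succ | with_reducible apply IntF.val | with_reducible apply IntF.mk | (with_reducible refine Int.comp ?_ ?_; assumption) | (with_reducible refine Int.comp₂ ?_ ?_ ?_; assumption) | (with_reducible refine Int.comp₃ ?_ ?_ ?_ ?_; assumption) | (with_reducible refine Int.comp₄ ?_ ?_ ?_ ?_ ?_; assumption) | (with_reducible refine IntF.comp ?_ ?_;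 assumption) | (with_reducible refine IntF.comp₂ ?_ ?_ ?_; assumption) | (with_reducible refine IntF.comp₃ ?_ ?_ ?_ ?_; assumption) | with_reducible apply IntF.pair)))
      (repeat' (first | with_reducible exact IntF.id | with_reducible exact IntF.fst' | with_reducible exact IntF.snd' | with_reducible exact IntF.const _ | with_reducible exact Int.const _ | assumption | with_reducible apply Int.and | with_reducible apply Int.or | with_reducible apply Int.not | with_reducible apply Int.imp | with_reducible apply Int.iff | with_reducible apply Int.ne | with_reducible apply Int.eq | with_reducible apply Int.mem | with_reducible apply Int.subset | with_reducible apply Int.ltN | with_reducible apply Int.leN | with_reducible_and_instances apply Int.le | with_reducible_and_instances apply Int.lt | with_reducible apply Int.all | with_reducible apply Int.ex | with_reducible apply IntF.fst | with_reducible apply IntF.snd | with_reducible apply IntF.app | with_reducible apply IntF.inl | with_reducible apply IntF.inr | with_reducible_and_instances apply IntF.mul | with_reducible_and_instances apply IntF.inv | with_reducible_and_instances apply IntF.add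 | with_reducible_and_instances apply IntF.sub | with_reducible_and_instances apply IntF.neg | with_reducible_and_instances apply IntF.smul | with_reducible apply Int.fin | with_reducible apply IntF.sep | with_reducible apply IntF.lam | with_reducible apply IntF.insert | with_reducible apply IntF.singleton | with_reducible apply IntF.union | with_reducible apply IntF.iimage | with_reducible apply IntF.ite | with_reducible apply IntF.the | with_reducible apply IntF.irec | with_reducible apply IntF.succ | with_reducible apply IntF.val | with_reducible apply IntF.mk | (with_reducible refine Int.comp ?_ ?_; assumption) | (with_reducible refine Int.comp₂ ?_ ?_ ?_; assumption) | (with_reducible refine Int.comp₃ ?_ ?_ ?_ ?_; assumption) | (with_reducible refine Int.comp₄ ?_ ?_ ?_ ?_ ?_; assumption) | (with_reducible refine IntF.comp ?_ ?_; assumption) | (with_reducible refine IntF.comp₂ ?_ ?_ ?_; assumption) | (with_reducible refine IntF.comp₃ ?_ ?_ ?_ ?_; assumption) | with_reducible apply IntF.pair))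
    · intro z v
      constructor
      · rintro (⟨h1, rfl⟩ | ⟨h1, ⟨k, w, rfl, h2, rfl⟩ | ⟨h2, rfl⟩⟩)
        · exact f1 z h1
        · exact f2 w k h1 h2
        · exact f3 z h1 h2
      · rintro rfl
        exact hF z
  · intro z hz ε hε
    have hitv : ∀ l u, OP D fb P (sep N fun s : Pt N α => P s ∧ gt D fb s l ∧ leo D fb s u) :=
      fun l u => op_itv fun s => mem_sep (int_itv h hP l u)
    by_cases h1 : TT P D fb n z
    · obtain ⟨k, hk⟩ := hlim ε hε
      obtain ⟨yk, hyk⟩ := h.exR k y
      have hfk : fb yk = n := (h.fib _ _ _ hyk).symm.trans hy
      refine ⟨_, hitv (Sum.inl yk) (Sum.inr 0), (mem_sep (int_itv h hP _ _)).2 ⟨hz, gt_inl.2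
        fun h2 => ?_, leo_inr⟩, fun w hw => ?_⟩
      · have := h1.2 yk h2
        rw [hfk] at this
        exact absurd (lt_of_lt_of_le (INat.lt_succ_self n) this) (lt_irrefl _)
      · obtain ⟨hw1, hw2, -⟩ := (mem_sep (int_itv h hP _ _)).1 hw
        rw [gt_inl] at hw2
        rw [f1 z h1, sub_zero]
        by_cases h3 : TT P D fb n w
        · rw [f1 w h3, abs_zero]
          exact hε
        · rcases not_TT h hw1 h3 hfk with h4 | ⟨v, i, rfl, h4⟩
          · exact absurd h4 hw2
          · rw [f2 v (k + i) h3 (h.tr _ _ _ hyk _ _ h4), abs_of_pos (hpos _)]
            exact (hqle k i).trans_lt hk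
    · rcases not_TT h hz h1 hy with h2 | ⟨v, k, rfl, h2⟩
      · refine ⟨_, hitv (Sum.inr 0) (Sum.inl y), (mem_sep (int_itv h hP _ _)).2 ⟨hz, gt_inr,
          leo_inl.2 h2⟩, fun w hw => ?_⟩
        obtain ⟨hw1, -, hw2⟩ := (mem_sep (int_itv h hP _ _)).1 hw
        rw [f4 w (leo_inl.1 hw2), f4 z h2, sub_self, abs_zero]
        exact hε
      · obtain ⟨v', hv'⟩ := h.down v
        refine ⟨_, hitv (Sum.inl v') (Sum.inl v), (mem_sep (int_itv h hP _ _)).2 ⟨hz, gt_inl.2
          fun h3 => h.not_pre_pred hv' (lep_inr.1 h3), leo_inl.2 (lep_inr.2 (h.pre_refl v))⟩,
          fun w hw => ?_⟩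
        obtain ⟨hw1, hw2, hw3⟩ := (mem_sep (int_itv h hP _ _)).1 hw
        rw [h.iso hv' (gt_inl.1 hw2) (leo_inl.1 hw3), sub_self, abs_zero]
        exact hε
  · intro s hs
    constructor
    · exact f1 s
    · intro h1
      by_contra h2
      exact (f5 s h2).ne' h1

/-- The final segments are zero-sets. -/
theorem zero_TT (n : INat N) : IsZeroSet (ts (OP D fb P)) (xs (N := N) P)
    (code (sep N (TT P D fb n))) := by
  obtain ⟨r, i1, i2, i3, hr⟩ := H635.exists_reals hZ
  obtain ⟨F, h1, h2, h3⟩ := exists_TF h hP hr n
  have hI := int_TT' h hP n
  exact zero_fold (spO h hP) hr h1 h2 (fun s hs => ((mem_sep hI).1 hs).1) fun s hs => by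
    rw [mem_sep hI]
    exact h3 s hs

omit hP in
/-- The space without the last point is a Baire set. -/
theorem baire_B : IsBaireSet (ts (OP D fb (fun _ => True))) (xs (N := N) (fun _ : Pt N α => True))
    (xs (N := N) (PB (N := N) (α := α))) := by
  intro S hS hSz
  have hT : Int N (fun _ : Pt N α => True) := Int.const _
  have hSp := spO h hT
  have hSB := spO h (int_PB (N := N) (α := α))
  have hTT := int_TT h hT
  have hI : ∀ n, Int N (fun z : Pt N α => ¬ TT (fun _ => True) D fb n z) := fun n =>
    (int_TT' h hT n).not
  have hf : IntF N (fun n : INat N => sep N fun z : Pt N α => ¬ TT (fun _ => True) D fb n z) :=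
    IntF.sep hTT.not
  have hIm : Int N (fun V : IPow N (Pt N α) => ∃ n : INat N, True ∧
      (sep N fun z : Pt N α => ¬ TT (fun _ => True) D fb n z) = V) := by
    have g : Int N (fun q : IPow N (Pt N α) × INat N => True ∧ (sep N fun z : Pt N α =>
        ¬ TT (fun _ => True) D fb q.2 z) = q.1) :=
      (Int.const _).and (Int.eq (IntF.comp (f := fun q : IPow N (Pt N α) × INat N => q.2) hf
        IntF.snd') IntF.fst')
    exact Int.ex g
  have hmem : ∀ V : IPow N (Pt N α), V ∈ sep N (fun V : IPow N (Pt N α) => ∃ n : INat N, True ∧
      (sep N fun z : Pt N α => ¬ TT (fun _ => True) D fb n z) = V) ↔ ∃ n : INat N, True ∧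
      (sep N fun z : Pt N α => ¬ TT (fun _ => True) D fb n z) = V := fun V => mem_sep hIm
  refine hS.union (code (sep N (fun V : IPow N (Pt N α) => ∃ n : INat N, True ∧
      (sep N fun z : Pt N α => ¬ TT (fun _ => True) D fb n z) = V))) _ ?_ ?_ ?_
  · refine isCtble_of_ctb ?_
    exact (Ctb.image (P := fun _ : INat N => True) (Int.const _) Ctb.nat hf).mono fun V hV =>
      (hmem V).1 hV
  · intro v hv
    obtain ⟨V, hV, rfl⟩ := mem_codeB.1 hv
    obtain ⟨n, -, rfl⟩ := (hmem V).1 hV
    refine hS.compl _ _ (hSz _ (zero_TT h hT n)) fun z => ?_
    constructor
    · intro hz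
      obtain ⟨s, hs, rfl⟩ := mem_codeB.1 hz
      refine ⟨(mem_xs' hSp).2 trivial, fun h1 => (mem_sep (hI n)).1 hs ?_⟩
      exact (mem_sep (int_TT' h hT n)).1 (mem_codeQ.1 h1)
    · rintro ⟨h1, h2⟩
      obtain ⟨s, -, rfl⟩ := (mem_xs hSp).1 h1
      exact mem_codeQ.2 ((mem_sep (hI n)).2 fun h3 => h2 (mem_codeQ.2
        ((mem_sep (int_TT' h hT n)).2 h3)))
  · intro z
    constructor
    · intro hz
      obtain ⟨s, hs, rfl⟩ := (mem_xs hSB).1 hz
      have h1 : ∃ n, ¬ TT (fun _ => True) D fb n s := by
        rcases s with m | v
        · rcases INat.eq_zero_or_succ m with rfl | ⟨k, rfl⟩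
          · exact absurd rfl hs
          · obtain ⟨x, hx⟩ := h.ne k
            refine ⟨k, fun h1 => ?_⟩
            have h2 := h1.2 x (lep_inl.2 hx.symm.le)
            rw [hx] at h2
            exact absurd (lt_of_lt_of_le (INat.lt_succ_self k) h2) (lt_irrefl _)
        · refine ⟨fb v, fun h1 => ?_⟩
          have h2 := h1.2 v (lep_inr.2 (h.pre_refl v))
          exact absurd (lt_of_lt_of_le (INat.lt_succ_self _) h2) (lt_irrefl _)
      obtain ⟨n, hn⟩ := h1
      exact ⟨_, mem_codeQ.2 ((hmem _).2 ⟨n, trivial, rfl⟩), mem_codeQ.2 ((mem_sep (hI n)).2 hn)⟩
    · rintro ⟨v, hv, hzv⟩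
      obtain ⟨V, hV, rfl⟩ := mem_codeB.1 hv
      obtain ⟨n, -, rfl⟩ := (hmem V).1 hV
      obtain ⟨s, hs, rfl⟩ := mem_codeB.1 hzv
      refine (mem_xs' hSB).2 ?_
      rintro rfl
      exact (mem_sep (hI n)).1 hs ⟨trivial, fun x hx => absurd hx not_lep_zero⟩

omit hP in
/-- Countable multiple choice fails. -/
theorem not_cmc : ¬ CMC N := by
  intro hC
  have hfb := h.intF
  have hD := h.intD
  have hfI : ∀ n, Int N (fun x : α => fb x = n) := fun n => by (repeat' (first | with_reducible exact IntF.id | with_reducible exact IntF.fst' | with_reducible exact IntF.snd' | with_reducible exact IntF.const _ | with_reducible exact Int.const _ | assumption | with_reducible apply Int.and | with_reducible apply Int.or | with_reducible apply Int.not | with_reducible apply Int.imp | with_reducible apply Int.iff | with_reducible apply Int.ne | with_reducible apply Int.eq | with_reducible apply Int.mem | with_reducible apply Int.subset | with_reducible apply Int.ltN | with_reducible apply Int.leN | with_reducible_and_instances apply Int.le | with_reducible_and_instances apply Int.lt | with_reducible apply Int.all | with_reducible apply Int.ex | with_reducible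 apply IntF.fst | with_reducible apply IntF.snd | with_reducible apply IntF.app | with_reducible apply IntF.inl | with_reducible apply IntF.inr | with_reducible_and_instances apply IntF.mul | with_reducible_and_instances apply IntF.inv | with_reducible_and_instances apply IntF.add | with_reducible_and_instances apply IntF.sub | with_reducible_and_instances apply IntF.neg | with_reducible_and_instances apply IntF.smul | with_reducible apply Int.fin | with_reducible apply IntF.sep | with_reducible apply IntF.lam | with_reducible apply IntF.insert | with_reducible apply IntF.singleton | with_reducible apply IntF.union | with_reducible apply IntF.iimage | with_reducible apply IntF.ite | with_reducible apply IntF.the | with_reducible apply IntF.irec | with_reducible apply IntF.succ | with_reducible apply IntF.val | with_reducible apply IntF.mk | (with_reducible refine Int.comp ?_ ?_; assumption) | (with_reducible refine Int.comp₂ ?_ ?_ ?_; assumption) | (with_reducible refine Int.comp₃ ?_ ?_ ?_ ?_; assumption) | (with_reducible refine Int.comp₄ ?_ ?_ ?_ ?_ ?_; assumption) | (with_reducible refine IntF.comp ?_ ?_; assumption) | (with_reducible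 refine IntF.comp₂ ?_ ?_ ?_; assumption) | (with_reducible refine IntF.comp₃ ?_ ?_ ?_ ?_; assumption) | with_reducible apply IntF.pair))
  have hf : IntF N (fun n : INat N => sep N fun x : α => fb x = n) := by (repeat' (first | with_reducible exact IntF.id | with_reducible exact IntF.fst' | with_reducible exact IntF.snd' | with_reducible exact IntF.const _ | with_reducible exact Int.const _ | assumption | with_reducible apply Int.and | with_reducible apply Int.or | with_reducible apply Int.not | with_reducible apply Int.imp | with_reducible apply Int.iff | with_reducible apply Int.ne | with_reducible apply Int.eq | with_reducible apply Int.mem | with_reducible apply Int.subset | with_reducible apply Int.ltN | with_reducible apply Int.leN | with_reducible_and_instances apply Int.le | with_reducible_and_instances apply Int.lt | with_reducible apply Int.all | with_reducible apply Int.ex | with_reducible apply IntF.fst | with_reducible apply IntF.snd | with_reducible apply IntF.app | with_reducible apply IntF.inl | with_reducible apply IntF.inr | with_reducible_and_instances apply IntF.mul | with_reducible_and_instances apply IntF.inv | with_reducible_and_instances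 apply IntF.add | with_reducible_and_instances apply IntF.sub | with_reducible_and_instances apply IntF.neg | with_reducible_and_instances apply IntF.smul | with_reducible apply Int.fin | with_reducible apply IntF.sep | with_reducible apply IntF.lam | with_reducible apply IntF.insert | with_reducible apply IntF.singleton | with_reducible apply IntF.union | with_reducible apply IntF.iimage | with_reducible apply IntF.ite | with_reducible apply IntF.the | with_reducible apply IntF.irec | with_reducible apply IntF.succ | with_reducible apply IntF.val | with_reducible apply IntF.mk | (with_reducible refine Int.comp ?_ ?_; assumption) | (with_reducible refine Int.comp₂ ?_ ?_ ?_; assumption) | (with_reducible refine Int.comp₃ ?_ ?_ ?_ ?_; assumption) | (with_reducible refine Int.comp₄ ?_ ?_ ?_ ?_ ?_; assumption) | (with_reducible refine IntF.comp ?_ ?_; assumption) | (with_reducible refine IntF.comp₂ ?_ ?_ ?_; assumption) | (with_reducible refine IntF.comp₃ ?_ ?_ ?_ ?_; assumption) | with_reducible apply IntF.pair))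
  obtain ⟨s', g, hg, h1⟩ := hC (dom N (INat N)) (dom N (IPow N α))
    (code (⟨_, hf⟩ : IFun N (INat N) (IPow N α))) isOmega_dom
    (isFun_code _ (fun z => mem_domP) fun n => code_mem_domP _) (fun n u hu => by
      obtain ⟨n, rfl, rfl⟩ := app_code.1 hu
      obtain ⟨x, hx⟩ := h.ne n
      exact ⟨code x, mem_codeQ.2 ((mem_sep (hfI n)).2 hx)⟩)
  have h2 : ∀ n : INat N, ∃ S : IPow N α, App g (code n) (code S) ∧ IFin S ∧ (∃ x, x ∈ S) ∧
      ∀ x, x ∈ S → fb x = n := by
    intro n
    obtain ⟨b, hb, -⟩ := hg.2 (code n) (code_mem_domP n)
    obtain ⟨h3, ⟨z, hz⟩, h5⟩ := h1 (code n) _ b (app_code.2 ⟨n, rfl, rfl⟩) hb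
    obtain ⟨S, rfl⟩ := exists_codeB (α := α) (u := b) fun z hz => by
      obtain ⟨s, -, h6⟩ := mem_codeB.1 (h5 z hz)
      exact ⟨s, h6⟩
    obtain ⟨s, hs, -⟩ := mem_codeB.1 hz
    exact ⟨S, hb, fin_of_isFinite h3, ⟨s, hs⟩, fun x hx => (mem_sep (hfI n)).1
      (mem_codeQ.1 (h5 _ (mem_codeQ.2 hx)))⟩
  have hW : Int N (fun x : α => ∃ u, App g (code (fb x)) u ∧ Mem (code x) u) := by
    have k1 : Int N (fun q : INat N × α => ∃ u, App g (code q.1) u ∧ Mem (code q.2) u) := int_appm g
    exact Int.comp (p := fun q : INat N × α => ∃ u, App g (code q.1) u ∧ Mem (code q.2) u)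
      (f := fun x => (fb x, x)) k1 (hfb.pair IntF.id)
  obtain ⟨n, h3⟩ := h.hom _ hW
  obtain ⟨S, h4, h5, ⟨x, hx⟩, h6⟩ := h2 n
  have h7 : ∀ y, fb y = n → y ∈ S := by
    intro y hy
    obtain ⟨u, h8, h9⟩ := h3 x y ((h6 x hx).trans hy.symm) (h6 x hx).symm.le
      ⟨code S, by rw [h6 x hx]; exact h4, mem_codeQ.2 hx⟩
    rw [hy] at h8
    rw [app_uniq hg h8 h4] at h9
    exact mem_codeQ.1 h9
  -- a finite fibre has a bound
  have h8 : ∀ S : IPow N α, IFin S → (∀ y, y ∈ S → fb y = n) →
      ∃ b, fb b = n ∧ ∀ y, y ∈ S → pre D fb y b := by
    have hpre := h.int_pre
    have g1 : Int N (fun q : (IPow N α × α) × α => pre D fb q.2 q.1.2) := Int.comp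
      (p := fun q : α × α => pre D fb q.1 q.2)
      (f := fun q : (IPow N α × α) × α => (q.2, q.1.2)) hpre (by (repeat' (first | with_reducible exact IntF.id | with_reducible exact IntF.fst' | with_reducible exact IntF.snd' | with_reducible exact IntF.const _ | with_reducible exact Int.const _ | assumption | with_reducible apply Int.and | with_reducible apply Int.or | with_reducible apply Int.not | with_reducible apply Int.imp | with_reducible apply Int.iff | with_reducible apply Int.ne | with_reducible apply Int.eq | with_reducible apply Int.mem | with_reducible apply Int.subset | with_reducible apply Int.ltN | with_reducible apply Int.leN | with_reducible_and_instances apply Int.le | with_reducible_and_instances apply Int.lt | with_reducible apply Int.all | with_reducible apply Int.ex | with_reducible apply IntF.fst | with_reducible apply IntF.snd | with_reducible apply IntF.app | with_reducible apply IntF.inl | with_reducible apply IntF.inr | with_reducible_and_instances apply IntF.mul | with_reducible_and_instances apply IntF.inv | with_reducible_and_instances apply IntF.add | with_reducible_and_instances apply IntF.sub | with_reducible_and_instances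 apply IntF.neg | with_reducible_and_instances apply IntF.smul | with_reducible apply Int.fin | with_reducible apply IntF.sep | with_reducible apply IntF.lam | with_reducible apply IntF.insert | with_reducible apply IntF.singleton | with_reducible apply IntF.union | with_reducible apply IntF.iimage | with_reducible apply IntF.ite | with_reducible apply IntF.the | with_reducible apply IntF.irec | with_reducible apply IntF.succ | with_reducible apply IntF.val | with_reducible apply IntF.mk | (with_reducible refine Int.comp ?_ ?_; assumption) | (with_reducible refine Int.comp₂ ?_ ?_ ?_; assumption) | (with_reducible refine Int.comp₃ ?_ ?_ ?_ ?_; assumption) | (with_reducible refine Int.comp₄ ?_ ?_ ?_ ?_ ?_; assumption) | (with_reducible refine IntF.comp ?_ ?_; assumption) | (with_reducible refine IntF.comp₂ ?_ ?_ ?_; assumption) | (with_reducible refine IntF.comp₃ ?_ ?_ ?_ ?_; assumption) | with_reducible apply IntF.pair)))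
    refine IFin.ind (by (repeat' (first | with_reducible exact IntF.id | with_reducible exact IntF.fst' | with_reducible exact IntF.snd' | with_reducible exact IntF.const _ | with_reducible exact Int.const _ | assumption | with_reducible apply Int.and | with_reducible apply Int.or | with_reducible apply Int.not | with_reducible apply Int.imp | with_reducible apply Int.iff | with_reducible apply Int.ne | with_reducible apply Int.eq | with_reducible apply Int.mem | with_reducible apply Int.subset | with_reducible apply Int.ltN | with_reducible apply Int.leN | with_reducible_and_instances apply Int.le | with_reducible_and_instances apply Int.lt | with_reducible apply Int.all | with_reducible apply Int.ex | with_reducible apply IntF.fst | with_reducible apply IntF.snd | with_reducible apply IntF.app | with_reducible apply IntF.inl | with_reducible apply IntF.inr | with_reducible_and_instances apply IntF.mul | with_reducible_and_instances apply IntF.inv | with_reducible_and_instances apply IntF.add | with_reducible_and_instances apply IntF.sub | with_reducible_and_instances apply IntF.neg | with_reducible_and_instances apply IntF.smul | with_reducible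 apply Int.fin | with_reducible apply IntF.sep | with_reducible apply IntF.lam | with_reducible apply IntF.insert | with_reducible apply IntF.singleton | with_reducible apply IntF.union | with_reducible apply IntF.iimage | with_reducible apply IntF.ite | with_reducible apply IntF.the | with_reducible apply IntF.irec | with_reducible apply IntF.succ | with_reducible apply IntF.val | with_reducible apply IntF.mk | (with_reducible refine Int.comp ?_ ?_; assumption) | (with_reducible refine Int.comp₂ ?_ ?_ ?_; assumption) | (with_reducible refine Int.comp₃ ?_ ?_ ?_ ?_; assumption) | (with_reducible refine Int.comp₄ ?_ ?_ ?_ ?_ ?_; assumption) | (with_reducible refine IntF.comp ?_ ?_; assumption) | (with_reducible refine IntF.comp₂ ?_ ?_ ?_; assumption) | (with_reducible refine IntF.comp₃ ?_ ?_ ?_ ?_; assumption) | with_reducible apply IntF.pair))) ?_ ?_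
    · intro _
      obtain ⟨b, hb⟩ := h.ne n
      exact ⟨b, hb, fun y hy => absurd hy (by simp)⟩
    · intro S c _ _ ih h8
      obtain ⟨b, hb, h9⟩ := ih fun y hy => h8 y (mem_insert.2 (Or.inr hy))
      rcases h.pre_total b c with h10 | h10
      · refine ⟨c, h8 c (mem_insert.2 (Or.inl rfl)), fun y hy => ?_⟩
        rcases mem_insert.1 hy with rfl | hy
        · exact h.pre_refl _
        · exact h.pre_trans (h9 y hy) h10
      · refine ⟨b, hb, fun y hy => ?_⟩
        rcases mem_insert.1 hy with rfl | hy
        · exact h10
        · exact h9 y hy
  obtain ⟨b, hb, h9⟩ := h8 S h5 h6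
  obtain ⟨b', hb'⟩ := h.up b
  exact h.not_pre_pred hb' (h9 b' (h7 b' ((h.fib _ _ _ hb').symm.trans hb)))

end

end Pool.Agent.V11257Z
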