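import Pool.Agent.V11257.Zt9
import Pool.Agent.V11257.Zr5

/-!
# The spaces: realcompactness, the model
-/

set_option maxHeartbeats 1000000
set_option linter.all false
set_option synthInstance.maxSize 2000

namespace Pool.Agent.V11257Z

open FirstOrder FirstOrder.Language
open Pool.Agent.Helper672
open Pool.Agent.Helper672.ZFA
open Pool.Agent.Helper672.ZFA.V246
open Pool.Agent.Helper672.Plain (LSet)
open Pool.Agent.H310
open Pool.Agent.H310Cards
open Pool.Agent.H310Top (IsTopology)
open Pool.Agent.H635Amen (IsReals)
open Pool.Agent.V11246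

universe u

theorem subTop_uniq {N : Type u} [LSet.Structure N] [hZ : Helper672.Plain.Zermelo N]
    {t' t'' t y : N} (h1 : IsSubTop t' t y) (h2 : IsSubTop t'' t y) : t' = t'' :=
  hZ.ext _ _ fun z => (h1 z).trans (h2 z).symm

section

attribute [local instance] Helper672.Plain.toL

variable {N : Type u} [LSet.Structure N] [hZ : Helper672.Plain.Zermelo N]

local instance instModelZr6' : IsModel N := Helper672.Plain.isModel_toL

noncomputable local instance instPElZr6' (x : N) : ITy N (Helper672.Plain.El x) :=
  (inferInstance : ITy N (El x))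

variable {a : N}
variable {D : INat N × (Plain.El a × Plain.El a) → Prop} {fb : Plain.El a → INat N}
  (h : ZT N D fb)

include h

/-- The space with the last point, and the Baire set of the other points. -/
theorem space_baire : ¬ CMC N ∧ ∃ x t b : N, IsTopology t x ∧ IsRealcompact t x ∧
    (∀ z, Plain.Mem z b → Plain.Mem z x) ∧ IsBaireSet t x b ∧ ¬ IsRealcompactSub t b := by
  have hT : Int N (fun _ : Pt N (Plain.El a) => True) := Int.const _
  have hS := spO h hT
  have hB := int_PB (N := N) (α := Plain.El a)
  refine ⟨not_cmc h, xs (N := N) (fun _ : Pt N (Plain.El a) => True),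
    ts (OP D fb (fun _ => True)), xs (N := N) (PB (N := N) (α := Plain.El a)), isTopology_ts hS,
    rco_all h, fun z hz => ?_, baire_B h, ?_⟩
  · obtain ⟨s, -, rfl⟩ := (mem_xs (spO h hB)).1 hz
    exact (mem_xs' hS).2 trivial
  · rintro ⟨t', h1, h2⟩
    rw [subTop_uniq h1 (isSubTop_ts h hT hB fun _ _ => trivial)] at h2
    exact not_rco h h2

end

section

attribute [local instance] Helper672.Plain.toL

theorem space_rco_of {N : Type u} [LSet.Structure N] [hZ : Helper672.Plain.Zermelo N]
    (hh : HasZT N) : ∃ x t : N, IsTopology t x ∧ IsTychonoff t x ∧ (∃ f, IsSeqUnion f x ∧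
    ∀ n u, App f n u → IsRealcompactSub t u ∧ IsZEmbedded t x u) ∧ ¬ IsRealcompact t x := by
  letI : IsModel N := Helper672.Plain.isModel_toL
  obtain ⟨a, D, fb, hD⟩ := hh
  exact space_rco hD

theorem space_baire_of {N : Type u} [LSet.Structure N] [hZ : Helper672.Plain.Zermelo N]
    (hh : HasZT N) : ¬ CMC N ∧ ∃ x t b : N, IsTopology t x ∧ IsRealcompact t x ∧
    (∀ z, Plain.Mem z b → Plain.Mem z x) ∧ IsBaireSet t x b ∧ ¬ IsRealcompactSub t b := by
  letI : IsModel N := Helper672.Plain.isModel_toL
  obtain ⟨a, D, fb, hD⟩ := hh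
  exact space_baire hD

end

end Pool.Agent.V11257Z
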