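import Pool.Agent.V11257.Zr6

/-!
# The space with the last point: countable pseudocharacter
-/

set_option maxHeartbeats 1000000
set_option linter.all false
set_option synthInstance.maxSize 2000

namespace Pool.Agent.V11257Z

open FirstOrder FirstOrder.Language
open Pool.Agent.Helper672
open Pool.Agent.Helper672.ZFA
open Pool.Agent.Helper672.ZFA.V246
open Pool.Agent.Helper672.Plain (LSet)
open Pool.Agent.H310
open Pool.Agent.H310Cards
open Pool.Agent.H310Top (IsTopology)
open Pool.Agent.H635Amen (IsReals)
open Pool.Agent.V11246

universe u

section

variable {N : Type u} [L.Structure N] [hN : IsModel N] {α : Type u} [ITy N α]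
variable {D : INat N × (α × α) → Prop} {fb : α → INat N} (h : ZT N D fb)

include h

/-- The fibres are countable. -/
theorem ctb_fib (m : INat N) : Ctb N (fun x : α => fb x = m) := by
  have hD := h.intD
  have hfb := h.intF
  obtain ⟨y, hy⟩ := h.ne m
  have hR : Ctb N (fun x : α => ∃ k : INat N, D (k, (y, x))) := by
    have hex : ∀ x : α, ∃ k : INat N, D (k, (y, x)) ∨ (¬ (∃ k : INat N, D (k, (y, x)))) ∧ k = 0 := by
      intro x
      by_cases h1 : ∃ k : INat N, D (k, (y, x))
      · exact ⟨_, Or.inl h1.choose_spec⟩
      · exact ⟨0, Or.inr ⟨h1, rfl⟩⟩
    choose e he using hex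
    refine ⟨e, IntF.of_rel (r := fun x k => D (k, (y, x)) ∨ (¬ (∃ k : INat N, D (k, (y, x)))) ∧
      k = 0) (by (repeat' (first | with_reducible exact IntF.id | with_reducible exact IntF.fst' | with_reducible exact IntF.snd' | with_reducible exact IntF.const _ | with_reducible exact Int.const _ | assumption | with_reducible apply Int.and | with_reducible apply Int.or | with_reducible apply Int.not | with_reducible apply Int.imp | with_reducible apply Int.iff | with_reducible apply Int.ne | with_reducible apply Int.eq | with_reducible apply Int.mem | with_reducible apply Int.subset | with_reducible apply Int.ltN | with_reducible apply Int.leN | with_reducible_and_instances apply Int.le | with_reducible_and_instances apply Int.lt | with_reducible apply Int.all | with_reducible apply Int.ex | with_reducible apply IntF.fst | with_reducible apply IntF.snd | with_reducible apply IntF.app | with_reducible apply IntF.inl | with_reducible apply IntF.inr | with_reducible_and_instances apply IntF.mul | with_reducible_and_instances apply IntF.inv | with_reducible_and_instances apply IntF.add | with_reducible_and_instances apply IntF.sub | with_reducible_and_instances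 apply IntF.neg | with_reducible_and_instances apply IntF.smul | with_reducible apply Int.fin | with_reducible apply IntF.sep | with_reducible apply IntF.lam | with_reducible apply IntF.insert | with_reducible apply IntF.singleton | with_reducible apply IntF.union | with_reducible apply IntF.iimage | with_reducible apply IntF.ite | with_reducible apply IntF.the | with_reducible apply IntF.irec | with_reducible apply IntF.succ | with_reducible apply IntF.val | with_reducible apply IntF.mk | (with_reducible refine Int.comp ?_ ?_; assumption) | (with_reducible refine Int.comp₂ ?_ ?_ ?_; assumption) | (with_reducible refine Int.comp₃ ?_ ?_ ?_ ?_; assumption) | (with_reducible refine Int.comp₄ ?_ ?_ ?_ ?_ ?_; assumption) | (with_reducible refine IntF.comp ?_ ?_; assumption) | (with_reducible refine IntF.comp₂ ?_ ?_ ?_; assumption) | (with_reducible refine IntF.comp₃ ?_ ?_ ?_ ?_; assumption) | with_reducible apply IntF.pair))) fun x k => ⟨?_, ?_⟩, fun a b ha hb hab => ?_⟩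
    · rintro (h1 | ⟨h1, rfl⟩)
      · rcases he x with h2 | ⟨h2, -⟩
        · exact h.uN h2 h1
        · exact absurd ⟨_, h1⟩ h2
      · rcases he x with h2 | ⟨-, h2⟩
        · exact absurd ⟨_, h2⟩ h1
        · exact h2
    · rintro rfl
      exact he x
    · rcases he a with h1 | ⟨h1, -⟩
      · rcases he b with h2 | ⟨h2, -⟩
        · rw [hab] at h1
          exact h.uR _ h1 h2
        · exact absurd hb h2
      · exact absurd ha h1
  have hL : Ctb N (fun x : α => ∃ k : INat N, D (k, (x, y))) := by
    have hex : ∀ x : α, ∃ k : INat N, D (k, (x, y)) ∨ (¬ (∃ k : INat N, D (k, (x, y)))) ∧ k = 0 := by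
      intro x
      by_cases h1 : ∃ k : INat N, D (k, (x, y))
      · exact ⟨_, Or.inl h1.choose_spec⟩
      · exact ⟨0, Or.inr ⟨h1, rfl⟩⟩
    choose e he using hex
    refine ⟨e, IntF.of_rel (r := fun x k => D (k, (x, y)) ∨ (¬ (∃ k : INat N, D (k, (x, y)))) ∧
      k = 0) (by (repeat' (first | with_reducible exact IntF.id | with_reducible exact IntF.fst' | with_reducible exact IntF.snd' | with_reducible exact IntF.const _ | with_reducible exact Int.const _ | assumption | with_reducible apply Int.and | with_reducible apply Int.or | with_reducible apply Int.not | with_reducible apply Int.imp | with_reducible apply Int.iff | with_reducible apply Int.ne | with_reducible apply Int.eq | with_reducible apply Int.mem | with_reducible apply Int.subset | with_reducible apply Int.ltN | with_reducible apply Int.leN | with_reducible_and_instances apply Int.le | with_reducible_and_instances apply Int.lt | with_reducible apply Int.all | with_reducible apply Int.ex | with_reducible apply IntF.fst | with_reducible apply IntF.snd | with_reducible apply IntF.app | with_reducible apply IntF.inl | with_reducible apply IntF.inr | with_reducible_and_instances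 apply IntF.mul | with_reducible_and_instances apply IntF.inv | with_reducible_and_instances apply IntF.add | with_reducible_and_instances apply IntF.sub | with_reducible_and_instances apply IntF.neg | with_reducible_and_instances apply IntF.smul | with_reducible apply Int.fin | with_reducible apply IntF.sep | with_reducible apply IntF.lam | with_reducible apply IntF.insert | with_reducible apply IntF.singleton | with_reducible apply IntF.union | with_reducible apply IntF.iimage | with_reducible apply IntF.ite | with_reducible apply IntF.the | with_reducible apply IntF.irec | with_reducible apply IntF.succ | with_reducible apply IntF.val | with_reducible apply IntF.mk | (with_reducible refine Int.comp ?_ ?_; assumption) | (with_reducible refine Int.comp₂ ?_ ?_ ?_; assumption) | (with_reducible refine Int.comp₃ ?_ ?_ ?_ ?_; assumption) | (with_reducible refine Int.comp₄ ?_ ?_ ?_ ?_ ?_; assumption) | (with_reducible refine IntF.comp ?_ ?_; assumption) | (with_reducible refine IntF.comp₂ ?_ ?_ ?_; assumption) | (with_reducible refine IntF.comp₃ ?_ ?_ ?_ ?_; assumption) | with_reducible apply IntF.pair))) fun x k => ⟨?_, ?_⟩, fun a b ha hb hab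 => ?_⟩
    · rintro (h1 | ⟨h1, rfl⟩)
      · rcases he x with h2 | ⟨h2, -⟩
        · exact h.uN h2 h1
        · exact absurd ⟨_, h1⟩ h2
      · rcases he x with h2 | ⟨-, h2⟩
        · exact absurd ⟨_, h2⟩ h1
        · exact h2
    · rintro rfl
      exact he x
    · rcases he a with h1 | ⟨h1, -⟩
      · rcases he b with h2 | ⟨h2, -⟩
        · rw [hab] at h1
          exact h.uL _ h1 h2
        · exact absurd hb h2
      · exact absurd ha h1
  refine (Ctb.or (by (repeat' (first | with_reducible exact IntF.id | with_reducible exact IntF.fst' | with_reducible exact IntF.snd' | with_reducible exact IntF.const _ | with_reducible exact Int.const _ | assumption | with_reducible apply Int.and | with_reducible apply Int.or | with_reducible apply Int.not | with_reducible apply Int.imp | with_reducible apply Int.iff | with_reducible apply Int.ne | with_reducible apply Int.eq | with_reducible apply Int.mem | with_reducible apply Int.subset | with_reducible apply Int.ltN | with_reducible apply Int.leN | with_reducible_and_instances apply Int.le | with_reducible_and_instances apply Int.lt | with_reducible apply Int.all | with_reducible apply Int.ex |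 with_reducible apply IntF.fst | with_reducible apply IntF.snd | with_reducible apply IntF.app | with_reducible apply IntF.inl | with_reducible apply IntF.inr | with_reducible_and_instances apply IntF.mul | with_reducible_and_instances apply IntF.inv | with_reducible_and_instances apply IntF.add | with_reducible_and_instances apply IntF.sub | with_reducible_and_instances apply IntF.neg | with_reducible_and_instances apply IntF.smul | with_reducible apply Int.fin | with_reducible apply IntF.sep | with_reducible apply IntF.lam | with_reducible apply IntF.insert | with_reducible apply IntF.singleton | with_reducible apply IntF.union | with_reducible apply IntF.iimage | with_reducible apply IntF.ite | with_reducible apply IntF.the | with_reducible apply IntF.irec | with_reducible apply IntF.succ | with_reducible apply IntF.val | with_reducible apply IntF.mk | (with_reducible refine Int.comp ?_ ?_; assumption) | (with_reducible refine Int.comp₂ ?_ ?_ ?_; assumption) | (with_reducible refine Int.comp₃ ?_ ?_ ?_ ?_; assumption) | (with_reducible refine Int.comp₄ ?_ ?_ ?_ ?_ ?_; assumption) | (with_reducible refine IntF.comp ?_ ?_; assumption) | (with_reducible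 refine IntF.comp₂ ?_ ?_ ?_; assumption) | (with_reducible refine IntF.comp₃ ?_ ?_ ?_ ?_; assumption) | with_reducible apply IntF.pair))) hR hL).mono fun x hx => ?_
  obtain ⟨k, h1 | h1⟩ := h.total y x (hy.trans hx.symm)
  · exact Or.inl ⟨k, h1⟩
  · exact Or.inr ⟨k, h1⟩

/-- The points other than the last one are separated by the points of two fibres. -/
theorem exists_sep_fib {s : Pt N α} (hs : s ≠ Sum.inl 0) : ∃ m : INat N, ∀ w : Pt N α, w ≠ s →
    ∃ x, (fb x = m ∨ fb x = m.succ) ∧ ¬ (lep D fb w x ↔ lep D fb s x) := by
  rcases s with n | y
  · rcases INat.eq_zero_or_succ n with rfl | ⟨k, rfl⟩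
    · exact absurd rfl hs
    obtain ⟨m, h1, h2⟩ : ∃ m : INat N, (k = m ∨ k = m.succ) ∧ ∀ j, k = INat.succ j → j = m := by
      rcases INat.eq_zero_or_succ k with rfl | ⟨j, rfl⟩
      · exact ⟨0, Or.inl rfl, fun j hj => absurd hj.symm (INat.succ_ne_zero _)⟩
      · exact ⟨j, Or.inr rfl, fun i hi => (INat.succ_inj hi).symm⟩
    refine ⟨m, fun w hw => ?_⟩
    obtain ⟨x, ⟨h3, h4⟩ | ⟨h3, h4⟩⟩ := h.exists_sep hw
    · rw [lep_inl, not_le] at h4
      have h5 : ∃ j : INat N, k = INat.succ j := by
        rcases INat.eq_zero_or_succ k with rfl | ⟨j, rfl⟩
        · exact absurd (lt_of_lt_of_le h4 (INat.zero_le _)) (lt_irrefl _)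
        · exact ⟨j, rfl⟩
      obtain ⟨j, hj⟩ := h5
      obtain rfl := h2 j hj
      subst hj
      rcases (INat.lt_succ_iff.1 h4).lt_or_eq with h5 | h5
      · obtain ⟨y, hy⟩ := h.ne j
        refine ⟨y, Or.inl hy, fun h6 => ?_⟩
        have h7 := lep_inl.1 (h6.1 (h.lep_mono h3 (Or.inl (hy.symm ▸ h5))))
        rw [hy] at h7
        exact absurd (lt_of_lt_of_le (INat.lt_succ_self j) h7) (lt_irrefl _)
      · refine ⟨x, Or.inl h5, fun h6 => ?_⟩
        have h7 := lep_inl.1 (h6.1 h3)
        exact absurd (lt_of_lt_of_le h4 h7) (lt_irrefl _)
    · rw [lep_inl] at h4
      rcases h4.lt_or_eq with h5 | h5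
      · obtain ⟨y, hy⟩ := h.ne k
        refine ⟨y, by rw [hy]; exact h1, fun h6 => h3 ?_⟩
        exact h.lep_mono (h6.2 (lep_inl.2 hy.symm.le)) (Or.inl (hy.symm ▸ h5))
      · exact ⟨x, by rw [← h5]; exact h1, fun h6 => h3 (h6.2 (lep_inl.2 h4))⟩
  · refine ⟨fb y, fun w hw => ?_⟩
    obtain ⟨x, ⟨h3, h4⟩ | ⟨h3, h4⟩⟩ := h.exists_sep hw
    · rw [lep_inr] at h4
      obtain ⟨y', hy'⟩ := h.down y
      have h5 : pre D fb x y := (h.pre_total x y).resolve_right h4
      have h6 : pre D fb x y' := h.pre_pred hy' h5 fun e => h4 (e ▸ h.pre_refl _)
      refine ⟨y', Or.inl (h.fib _ _ _ hy'), fun h7 => ?_⟩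
      exact h.not_pre_pred hy' (lep_inr.1 (h7.1 (h.lep_mono h3 h6)))
    · rw [lep_inr] at h4
      exact ⟨y, Or.inl rfl, fun h5 => h3 (h.lep_mono (h5.2 (lep_inr.2 (h.pre_refl y))) h4)⟩

end

section

attribute [local instance] Helper672.Plain.toL

variable {N : Type u} [LSet.Structure N] [hZ : Helper672.Plain.Zermelo N]

local instance instModelZs1 : IsModel N := Helper672.Plain.isModel_toL

noncomputable local instance instPElZs1 (x : N) : ITy N (Helper672.Plain.El x) :=
  (inferInstance : ITy N (El x))

variable {α : Type u} [ITy N α]
variable {D : INat N × (α × α) → Prop} {fb : α → INat N} (h : ZT N D fb)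

include h

theorem cpc_all : HasCtblePseudocharacter (ts (OP D fb (fun _ => True)))
    (xs (N := N) (fun _ : Pt N α => True)) := by
  have hT : Int N (fun _ : Pt N α => True) := Int.const _
  have hS := spO h hT
  have hfb := h.intF
  have hlep := h.int_lep
  intro a ha
  obtain ⟨s, -, rfl⟩ := (mem_xs hS).1 ha
  by_cases hs : s = Sum.inl 0
  · subst hs
    -- the last point
    have g1 : Int N (fun q : (INat N × Pt N α) × α => lep D fb q.1.2 q.2) := Int.comp
      (p := fun q : Pt N α × α => lep D fb q.1 q.2)
      (f := fun q : (INat N × Pt N α) × α => (q.1.2, q.2)) hlep (by (repeat' (first | with_reducible exact IntF.id | with_reducible exact IntF.fst' | with_reducible exact IntF.snd' | with_reducible exact IntF.const _ | with_reducible exact Int.const _ | assumption | with_reducible apply Int.and | with_reducible apply Int.or | with_reducible apply Int.not | with_reducible apply Int.imp | with_reducible apply Int.iff | with_reducible apply Int.ne | with_reducible apply Int.eq | with_reducible apply Int.mem | with_reducible apply Int.subset | with_reducible apply Int.ltN | with_reducible apply Int.leN | with_reducible_and_instances apply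 Int.le | with_reducible_and_instances apply Int.lt | with_reducible apply Int.all | with_reducible apply Int.ex | with_reducible apply IntF.fst | with_reducible apply IntF.snd | with_reducible apply IntF.app | with_reducible apply IntF.inl | with_reducible apply IntF.inr | with_reducible_and_instances apply IntF.mul | with_reducible_and_instances apply IntF.inv | with_reducible_and_instances apply IntF.add | with_reducible_and_instances apply IntF.sub | with_reducible_and_instances apply IntF.neg | with_reducible_and_instances apply IntF.smul | with_reducible apply Int.fin | with_reducible apply IntF.sep | with_reducible apply IntF.lam | with_reducible apply IntF.insert | with_reducible apply IntF.singleton | with_reducible apply IntF.union | with_reducible apply IntF.iimage | with_reducible apply IntF.ite | with_reducible apply IntF.the | with_reducible apply IntF.irec | with_reducible apply IntF.succ | with_reducible apply IntF.val | with_reducible apply IntF.mk | (with_reducible refine Int.comp ?_ ?_; assumption) | (with_reducible refine Int.comp₂ ?_ ?_ ?_; assumption) | (with_reducible refine Int.comp₃ ?_ ?_ ?_ ?_; assumption) | (with_reducible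 refine Int.comp₄ ?_ ?_ ?_ ?_ ?_; assumption) | (with_reducible refine IntF.comp ?_ ?_; assumption) | (with_reducible refine IntF.comp₂ ?_ ?_ ?_; assumption) | (with_reducible refine IntF.comp₃ ?_ ?_ ?_ ?_; assumption) | with_reducible apply IntF.pair)))
    have g2 : Int N (fun q : INat N × Pt N α => ∃ x, fb x = q.1 ∧ ¬ lep D fb q.2 x) := by (repeat' (first | with_reducible exact IntF.id | with_reducible exact IntF.fst' | with_reducible exact IntF.snd' | with_reducible exact IntF.const _ | with_reducible exact Int.const _ | assumption | with_reducible apply Int.and | with_reducible apply Int.or | with_reducible apply Int.not | with_reducible apply Int.imp | with_reducible apply Int.iff | with_reducible apply Int.ne | with_reducible apply Int.eq | with_reducible apply Int.mem | with_reducible apply Int.subset | with_reducible apply Int.ltN | with_reducible apply Int.leN | with_reducible_and_instances apply Int.le | with_reducible_and_instances apply Int.lt | with_reducible apply Int.all | with_reducible apply Int.ex | with_reducible apply IntF.fst | with_reducible apply IntF.snd | with_reducible apply IntF.app | with_reducible apply IntF.inl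 | with_reducible apply IntF.inr | with_reducible_and_instances apply IntF.mul | with_reducible_and_instances apply IntF.inv | with_reducible_and_instances apply IntF.add | with_reducible_and_instances apply IntF.sub | with_reducible_and_instances apply IntF.neg | with_reducible_and_instances apply IntF.smul | with_reducible apply Int.fin | with_reducible apply IntF.sep | with_reducible apply IntF.lam | with_reducible apply IntF.insert | with_reducible apply IntF.singleton | with_reducible apply IntF.union | with_reducible apply IntF.iimage | with_reducible apply IntF.ite | with_reducible apply IntF.the | with_reducible apply IntF.irec | with_reducible apply IntF.succ | with_reducible apply IntF.val | with_reducible apply IntF.mk | (with_reducible refine Int.comp ?_ ?_; assumption) | (with_reducible refine Int.comp₂ ?_ ?_ ?_; assumption) | (with_reducible refine Int.comp₃ ?_ ?_ ?_ ?_; assumption) | (with_reducible refine Int.comp₄ ?_ ?_ ?_ ?_ ?_; assumption) | (with_reducible refine IntF.comp ?_ ?_; assumption) | (with_reducible refine IntF.comp₂ ?_ ?_ ?_; assumption) | (with_reducible refine IntF.comp₃ ?_ ?_ ?_ ?_; assumption) | with_reducible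 apply IntF.pair))
    have hI : ∀ n : INat N, Int N (fun z : Pt N α => ∃ x, fb x = n ∧ ¬ lep D fb z x) := fun n =>
      Int.comp (p := fun q : INat N × Pt N α => ∃ x, fb x = q.1 ∧ ¬ lep D fb q.2 x)
        (f := fun z => (n, z)) g2 (by (repeat' (first | with_reducible exact IntF.id | with_reducible exact IntF.fst' | with_reducible exact IntF.snd' | with_reducible exact IntF.const _ | with_reducible exact Int.const _ | assumption | with_reducible apply Int.and | with_reducible apply Int.or | with_reducible apply Int.not | with_reducible apply Int.imp | with_reducible apply Int.iff | with_reducible apply Int.ne | with_reducible apply Int.eq | with_reducible apply Int.mem | with_reducible apply Int.subset | with_reducible apply Int.ltN | with_reducible apply Int.leN | with_reducible_and_instances apply Int.le | with_reducible_and_instances apply Int.lt | with_reducible apply Int.all | with_reducible apply Int.ex | with_reducible apply IntF.fst | with_reducible apply IntF.snd | with_reducible apply IntF.app | with_reducible apply IntF.inl | with_reducible apply IntF.inr | with_reducible_and_instances apply IntF.mul | with_reducible_and_instances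 apply IntF.inv | with_reducible_and_instances apply IntF.add | with_reducible_and_instances apply IntF.sub | with_reducible_and_instances apply IntF.neg | with_reducible_and_instances apply IntF.smul | with_reducible apply Int.fin | with_reducible apply IntF.sep | with_reducible apply IntF.lam | with_reducible apply IntF.insert | with_reducible apply IntF.singleton | with_reducible apply IntF.union | with_reducible apply IntF.iimage | with_reducible apply IntF.ite | with_reducible apply IntF.the | with_reducible apply IntF.irec | with_reducible apply IntF.succ | with_reducible apply IntF.val | with_reducible apply IntF.mk | (with_reducible refine Int.comp ?_ ?_; assumption) | (with_reducible refine Int.comp₂ ?_ ?_ ?_; assumption) | (with_reducible refine Int.comp₃ ?_ ?_ ?_ ?_; assumption) | (with_reducible refine Int.comp₄ ?_ ?_ ?_ ?_ ?_; assumption) | (with_reducible refine IntF.comp ?_ ?_; assumption) | (with_reducible refine IntF.comp₂ ?_ ?_ ?_; assumption) | (with_reducible refine IntF.comp₃ ?_ ?_ ?_ ?_; assumption) | with_reducible apply IntF.pair)))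
    have hf : IntF N (fun n : INat N => sep N fun z : Pt N α => ∃ x, fb x = n ∧ ¬ lep D fb z x) :=
      IntF.sep g2
    have hIm : Int N (fun V : IPow N (Pt N α) => ∃ n : INat N, True ∧
        (sep N fun z : Pt N α => ∃ x, fb x = n ∧ ¬ lep D fb z x) = V) := by
      have g : Int N (fun q : IPow N (Pt N α) × INat N => True ∧ (sep N fun z : Pt N α =>
          ∃ x, fb x = q.2 ∧ ¬ lep D fb z x) = q.1) :=
        (Int.const _).and (Int.eq (IntF.comp (f := fun q : IPow N (Pt N α) × INat N => q.2) hf
          IntF.snd') IntF.fst')
      exact Int.ex g
    have hmem : ∀ V : IPow N (Pt N α), V ∈ sep N (fun V : IPow N (Pt N α) => ∃ n : INat N, True ∧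
        (sep N fun z : Pt N α => ∃ x, fb x = n ∧ ¬ lep D fb z x) = V) ↔ ∃ n : INat N, True ∧
        (sep N fun z : Pt N α => ∃ x, fb x = n ∧ ¬ lep D fb z x) = V := fun V => mem_sep hIm
    refine ⟨code (sep N (fun V : IPow N (Pt N α) => ∃ n : INat N, True ∧
        (sep N fun z : Pt N α => ∃ x, fb x = n ∧ ¬ lep D fb z x) = V)), ?_, ?_, ?_, ?_⟩
    · refine isCtble_of_ctb ?_
      exact (Ctb.image (P := fun _ : INat N => True) (Int.const _) Ctb.nat hf).mono fun V hV =>
        (hmem V).1 hV
    · exact ⟨_, mem_codeQ.2 ((hmem _).2 ⟨0, trivial, rfl⟩)⟩
    · intro u hu
      obtain ⟨V, hV, rfl⟩ := mem_codeB.1 hu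
      obtain ⟨n, -, rfl⟩ := (hmem V).1 hV
      refine (mem_ts' hS).2 ⟨fun _ _ => trivial, fun z hz => ?_⟩
      obtain ⟨x, h1, h2⟩ := (mem_sep (hI n)).1 hz
      exact ⟨Sum.inl x, Sum.inr 0, gt_inl.2 h2, leo_inr, fun w _ h3 _ =>
        (mem_sep (hI n)).2 ⟨x, h1, gt_inl.1 h3⟩⟩
    · intro z
      constructor
      · rintro rfl u hu
        obtain ⟨V, hV, rfl⟩ := mem_codeB.1 hu
        obtain ⟨n, -, rfl⟩ := (hmem V).1 hV
        obtain ⟨x, hx⟩ := h.ne n
        exact mem_codeQ.2 ((mem_sep (hI n)).2 ⟨x, hx, not_lep_zero⟩)
      · intro h1
        obtain ⟨s, hs, rfl⟩ := mem_codeB.1 (h1 _ (mem_codeQ.2 ((hmem _).2 ⟨0, trivial, rfl⟩)))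
        have h2 : ∀ n : INat N, ∃ x, fb x = n ∧ ¬ lep D fb s x := fun n => (mem_sep (hI n)).1
          (mem_codeQ.1 (h1 _ (mem_codeQ.2 ((hmem _).2 ⟨n, trivial, rfl⟩))))
        refine congrArg code ?_
        rcases s with m | v
        · rcases INat.eq_zero_or_succ m with rfl | ⟨k, rfl⟩
          · rfl
          · obtain ⟨x, h3, h4⟩ := h2 k
            exact absurd (lep_inl.2 h3.symm.le) h4
        · obtain ⟨x, h3, h4⟩ := h2 (fb v).succ
          exact absurd (lep_inr.2 (Or.inl (h3.symm ▸ INat.lt_succ_self _))) h4
  · obtain ⟨m, hm⟩ := exists_sep_fib h hs
    have g0 : Int N (fun x : α => fb x = m ∨ fb x = m.succ) := by (repeat' (first | with_reducible exact IntF.id | with_reducible exact IntF.fst' | with_reducible exact IntF.snd' | with_reducible exact IntF.const _ | with_reducible exact Int.const _ | assumption | with_reducible apply Int.and | with_reducible apply Int.or | with_reducible apply Int.not | with_reducible apply Int.imp | with_reducible apply Int.iff | with_reducible apply Int.ne | with_reducible apply Int.eq | with_reducible apply Int.mem | with_reducible apply Int.subset | with_reducible apply Int.ltN | with_reducible apply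 Int.leN | with_reducible_and_instances apply Int.le | with_reducible_and_instances apply Int.lt | with_reducible apply Int.all | with_reducible apply Int.ex | with_reducible apply IntF.fst | with_reducible apply IntF.snd | with_reducible apply IntF.app | with_reducible apply IntF.inl | with_reducible apply IntF.inr | with_reducible_and_instances apply IntF.mul | with_reducible_and_instances apply IntF.inv | with_reducible_and_instances apply IntF.add | with_reducible_and_instances apply IntF.sub | with_reducible_and_instances apply IntF.neg | with_reducible_and_instances apply IntF.smul | with_reducible apply Int.fin | with_reducible apply IntF.sep | with_reducible apply IntF.lam | with_reducible apply IntF.insert | with_reducible apply IntF.singleton | with_reducible apply IntF.union | with_reducible apply IntF.iimage | with_reducible apply IntF.ite | with_reducible apply IntF.the | with_reducible apply IntF.irec | with_reducible apply IntF.succ | with_reducible apply IntF.val | with_reducible apply IntF.mk | (with_reducible refine Int.comp ?_ ?_; assumption) | (with_reducible refine Int.comp₂ ?_ ?_ ?_; assumption) | (with_reducible refine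 Int.comp₃ ?_ ?_ ?_ ?_; assumption) | (with_reducible refine Int.comp₄ ?_ ?_ ?_ ?_ ?_; assumption) | (with_reducible refine IntF.comp ?_ ?_; assumption) | (with_reducible refine IntF.comp₂ ?_ ?_ ?_; assumption) | (with_reducible refine IntF.comp₃ ?_ ?_ ?_ ?_; assumption) | with_reducible apply IntF.pair))
    have g1 : Int N (fun q : α × Pt N α => lep D fb q.2 q.1) := Int.comp
      (p := fun q : Pt N α × α => lep D fb q.1 q.2)
      (f := fun q : α × Pt N α => (q.2, q.1)) hlep (by (repeat' (first | with_reducible exact IntF.id | with_reducible exact IntF.fst' | with_reducible exact IntF.snd' | with_reducible exact IntF.const _ | with_reducible exact Int.const _ | assumption | with_reducible apply Int.and | with_reducible apply Int.or | with_reducible apply Int.not | with_reducible apply Int.imp | with_reducible apply Int.iff | with_reducible apply Int.ne | with_reducible apply Int.eq | with_reducible apply Int.mem | with_reducible apply Int.subset | with_reducible apply Int.ltN | with_reducible apply Int.leN | with_reducible_and_instances apply Int.le | with_reducible_and_instances apply Int.lt | with_reducible apply Int.all | with_reducible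 apply Int.ex | with_reducible apply IntF.fst | with_reducible apply IntF.snd | with_reducible apply IntF.app | with_reducible apply IntF.inl | with_reducible apply IntF.inr | with_reducible_and_instances apply IntF.mul | with_reducible_and_instances apply IntF.inv | with_reducible_and_instances apply IntF.add | with_reducible_and_instances apply IntF.sub | with_reducible_and_instances apply IntF.neg | with_reducible_and_instances apply IntF.smul | with_reducible apply Int.fin | with_reducible apply IntF.sep | with_reducible apply IntF.lam | with_reducible apply IntF.insert | with_reducible apply IntF.singleton | with_reducible apply IntF.union | with_reducible apply IntF.iimage | with_reducible apply IntF.ite | with_reducible apply IntF.the | with_reducible apply IntF.irec | with_reducible apply IntF.succ | with_reducible apply IntF.val | with_reducible apply IntF.mk | (with_reducible refine Int.comp ?_ ?_; assumption) | (with_reducible refine Int.comp₂ ?_ ?_ ?_; assumption) | (with_reducible refine Int.comp₃ ?_ ?_ ?_ ?_; assumption) | (with_reducible refine Int.comp₄ ?_ ?_ ?_ ?_ ?_; assumption) | (with_reducible refine IntF.comp ?_ ?_;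 assumption) | (with_reducible refine IntF.comp₂ ?_ ?_ ?_; assumption) | (with_reducible refine IntF.comp₃ ?_ ?_ ?_ ?_; assumption) | with_reducible apply IntF.pair)))
    have g2 : Int N (fun q : α × Pt N α => lep D fb s q.1) := Int.comp
      (p := fun q : Pt N α × α => lep D fb q.1 q.2)
      (f := fun q : α × Pt N α => (s, q.1)) hlep (by (repeat' (first | with_reducible exact IntF.id | with_reducible exact IntF.fst' | with_reducible exact IntF.snd' | with_reducible exact IntF.const _ | with_reducible exact Int.const _ | assumption | with_reducible apply Int.and | with_reducible apply Int.or | with_reducible apply Int.not | with_reducible apply Int.imp | with_reducible apply Int.iff | with_reducible apply Int.ne | with_reducible apply Int.eq | with_reducible apply Int.mem | with_reducible apply Int.subset | with_reducible apply Int.ltN | with_reducible apply Int.leN | with_reducible_and_instances apply Int.le | with_reducible_and_instances apply Int.lt | with_reducible apply Int.all | with_reducible apply Int.ex | with_reducible apply IntF.fst | with_reducible apply IntF.snd | with_reducible apply IntF.app | with_reducible apply IntF.inl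 | with_reducible apply IntF.inr | with_reducible_and_instances apply IntF.mul | with_reducible_and_instances apply IntF.inv | with_reducible_and_instances apply IntF.add | with_reducible_and_instances apply IntF.sub | with_reducible_and_instances apply IntF.neg | with_reducible_and_instances apply IntF.smul | with_reducible apply Int.fin | with_reducible apply IntF.sep | with_reducible apply IntF.lam | with_reducible apply IntF.insert | with_reducible apply IntF.singleton | with_reducible apply IntF.union | with_reducible apply IntF.iimage | with_reducible apply IntF.ite | with_reducible apply IntF.the | with_reducible apply IntF.irec | with_reducible apply IntF.succ | with_reducible apply IntF.val | with_reducible apply IntF.mk | (with_reducible refine Int.comp ?_ ?_; assumption) | (with_reducible refine Int.comp₂ ?_ ?_ ?_; assumption) | (with_reducible refine Int.comp₃ ?_ ?_ ?_ ?_; assumption) | (with_reducible refine Int.comp₄ ?_ ?_ ?_ ?_ ?_; assumption) | (with_reducible refine IntF.comp ?_ ?_; assumption) | (with_reducible refine IntF.comp₂ ?_ ?_ ?_; assumption) | (with_reducible refine IntF.comp₃ ?_ ?_ ?_ ?_; assumption) | with_reducible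 apply IntF.pair)))
    have g3 : Int N (fun q : α × Pt N α => lep D fb q.2 q.1 ↔ lep D fb s q.1) := g1.iff g2
    have hI : ∀ x : α, Int N (fun z : Pt N α => lep D fb z x ↔ lep D fb s x) := fun x =>
      Int.comp (p := fun q : α × Pt N α => lep D fb q.2 q.1 ↔ lep D fb s q.1)
        (f := fun z => (x, z)) g3 (by (repeat' (first | with_reducible exact IntF.id | with_reducible exact IntF.fst' | with_reducible exact IntF.snd' | with_reducible exact IntF.const _ | with_reducible exact Int.const _ | assumption | with_reducible apply Int.and | with_reducible apply Int.or | with_reducible apply Int.not | with_reducible apply Int.imp | with_reducible apply Int.iff | with_reducible apply Int.ne | with_reducible apply Int.eq | with_reducible apply Int.mem | with_reducible apply Int.subset | with_reducible apply Int.ltN | with_reducible apply Int.leN | with_reducible_and_instances apply Int.le | with_reducible_and_instances apply Int.lt | with_reducible apply Int.all | with_reducible apply Int.ex | with_reducible apply IntF.fst | with_reducible apply IntF.snd | with_reducible apply IntF.app | with_reducible apply IntF.inl | with_reducible apply IntF.inr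 | with_reducible_and_instances apply IntF.mul | with_reducible_and_instances apply IntF.inv | with_reducible_and_instances apply IntF.add | with_reducible_and_instances apply IntF.sub | with_reducible_and_instances apply IntF.neg | with_reducible_and_instances apply IntF.smul | with_reducible apply Int.fin | with_reducible apply IntF.sep | with_reducible apply IntF.lam | with_reducible apply IntF.insert | with_reducible apply IntF.singleton | with_reducible apply IntF.union | with_reducible apply IntF.iimage | with_reducible apply IntF.ite | with_reducible apply IntF.the | with_reducible apply IntF.irec | with_reducible apply IntF.succ | with_reducible apply IntF.val | with_reducible apply IntF.mk | (with_reducible refine Int.comp ?_ ?_; assumption) | (with_reducible refine Int.comp₂ ?_ ?_ ?_; assumption) | (with_reducible refine Int.comp₃ ?_ ?_ ?_ ?_; assumption) | (with_reducible refine Int.comp₄ ?_ ?_ ?_ ?_ ?_; assumption) | (with_reducible refine IntF.comp ?_ ?_; assumption) | (with_reducible refine IntF.comp₂ ?_ ?_ ?_; assumption) | (with_reducible refine IntF.comp₃ ?_ ?_ ?_ ?_; assumption) | with_reducible apply IntF.pair)))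
    have hf : IntF N (fun x : α => sep N fun z : Pt N α => lep D fb z x ↔ lep D fb s x) :=
      IntF.sep g3
    have hIm : Int N (fun V : IPow N (Pt N α) => ∃ x : α, (fb x = m ∨ fb x = m.succ) ∧
        (sep N fun z : Pt N α => lep D fb z x ↔ lep D fb s x) = V) := by
      have g : Int N (fun q : IPow N (Pt N α) × α => (fb q.2 = m ∨ fb q.2 = m.succ) ∧
          (sep N fun z : Pt N α => lep D fb z q.2 ↔ lep D fb s q.2) = q.1) :=
        (Int.comp (p := fun x : α => fb x = m ∨ fb x = m.succ)
          (f := fun q : IPow N (Pt N α) × α => q.2) g0 IntF.snd').and
          (Int.eq (IntF.comp (f := fun q : IPow N (Pt N α) × α => q.2) hf IntF.snd') IntF.fst')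
      exact Int.ex g
    have hmem : ∀ V : IPow N (Pt N α), V ∈ sep N (fun V : IPow N (Pt N α) => ∃ x : α,
        (fb x = m ∨ fb x = m.succ) ∧ (sep N fun z : Pt N α => lep D fb z x ↔ lep D fb s x) = V) ↔
        ∃ x : α, (fb x = m ∨ fb x = m.succ) ∧
          (sep N fun z : Pt N α => lep D fb z x ↔ lep D fb s x) = V := fun V => mem_sep hIm
    obtain ⟨x₀, hx₀⟩ := h.ne m
    refine ⟨code (sep N (fun V : IPow N (Pt N α) => ∃ x : α, (fb x = m ∨ fb x = m.succ) ∧
        (sep N fun z : Pt N α => lep D fb z x ↔ lep D fb s x) = V)), ?_, ?_, ?_, ?_⟩
    · refine isCtble_of_ctb ?_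
      exact (Ctb.image g0 (Ctb.or (by (repeat' (first | with_reducible exact IntF.id | with_reducible exact IntF.fst' | with_reducible exact IntF.snd' | with_reducible exact IntF.const _ | with_reducible exact Int.const _ | assumption | with_reducible apply Int.and | with_reducible apply Int.or | with_reducible apply Int.not | with_reducible apply Int.imp | with_reducible apply Int.iff | with_reducible apply Int.ne | with_reducible apply Int.eq | with_reducible apply Int.mem | with_reducible apply Int.subset | with_reducible apply Int.ltN | with_reducible apply Int.leN | with_reducible_and_instances apply Int.le | with_reducible_and_instances apply Int.lt | with_reducible apply Int.all | with_reducible apply Int.ex | with_reducible apply IntF.fst | with_reducible apply IntF.snd | with_reducible apply IntF.app | with_reducible apply IntF.inl | with_reducible apply IntF.inr | with_reducible_and_instances apply IntF.mul | with_reducible_and_instances apply IntF.inv | with_reducible_and_instances apply IntF.add | with_reducible_and_instances apply IntF.sub | with_reducible_and_instances apply IntF.neg | with_reducible_and_instances apply IntF.smul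 | with_reducible apply Int.fin | with_reducible apply IntF.sep | with_reducible apply IntF.lam | with_reducible apply IntF.insert | with_reducible apply IntF.singleton | with_reducible apply IntF.union | with_reducible apply IntF.iimage | with_reducible apply IntF.ite | with_reducible apply IntF.the | with_reducible apply IntF.irec | with_reducible apply IntF.succ | with_reducible apply IntF.val | with_reducible apply IntF.mk | (with_reducible refine Int.comp ?_ ?_; assumption) | (with_reducible refine Int.comp₂ ?_ ?_ ?_; assumption) | (with_reducible refine Int.comp₃ ?_ ?_ ?_ ?_; assumption) | (with_reducible refine Int.comp₄ ?_ ?_ ?_ ?_ ?_; assumption) | (with_reducible refine IntF.comp ?_ ?_; assumption) | (with_reducible refine IntF.comp₂ ?_ ?_ ?_; assumption) | (with_reducible refine IntF.comp₃ ?_ ?_ ?_ ?_; assumption) | with_reducible apply IntF.pair))) (ctb_fib h m) (ctb_fib h m.succ)) hf).mono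
        fun V hV => (hmem V).1 hV
    · exact ⟨_, mem_codeQ.2 ((hmem _).2 ⟨x₀, Or.inl hx₀, rfl⟩)⟩
    · intro u hu
      obtain ⟨V, hV, rfl⟩ := mem_codeB.1 hu
      obtain ⟨x, -, rfl⟩ := (hmem V).1 hV
      refine (mem_ts' hS).2 ⟨fun _ _ => trivial, fun z hz => ?_⟩
      have h1 := (mem_sep (hI x)).1 hz
      by_cases h2 : lep D fb s x
      · exact ⟨Sum.inr 0, Sum.inl x, gt_inr, leo_inl.2 (h1.2 h2), fun w _ _ h3 =>
          (mem_sep (hI x)).2 ⟨fun _ => h2, fun _ => leo_inl.1 h3⟩⟩
      · exact ⟨Sum.inl x, Sum.inr 0, gt_inl.2 fun h3 => h2 (h1.1 h3), leo_inr, fun w _ h3 _ =>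
          (mem_sep (hI x)).2 ⟨fun h4 => absurd h4 (gt_inl.1 h3), fun h4 => absurd h4 h2⟩⟩
    · intro z
      constructor
      · rintro rfl u hu
        obtain ⟨V, hV, rfl⟩ := mem_codeB.1 hu
        obtain ⟨x, -, rfl⟩ := (hmem V).1 hV
        exact mem_codeQ.2 ((mem_sep (hI x)).2 Iff.rfl)
      · intro h1
        obtain ⟨w, hw, rfl⟩ := mem_codeB.1 (h1 _ (mem_codeQ.2 ((hmem _).2 ⟨x₀, Or.inl hx₀, rfl⟩)))
        refine congrArg code ?_
        by_contra h2
        obtain ⟨x, h3, h4⟩ := hm w h2
        exact h4 ((mem_sep (hI x)).1 (mem_codeQ.1 (h1 _ (mem_codeQ.2 ((hmem _).2 ⟨x, h3, rfl⟩)))))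

/-- The set of the last point is not open in the topology of the zero-sets. -/
theorem not_zopen : ¬ IsZOpen (ts (OP D fb (fun _ => True))) (xs (N := N) (fun _ : Pt N α => True))
    (code (sep N fun z : Pt N α => z = Sum.inl 0)) := by
  have hT : Int N (fun _ : Pt N α => True) := Int.const _
  have hS := spO h hT
  have hI : Int N (fun z : Pt N α => z = Sum.inl 0) := Int.eq IntF.id (IntF.const _)
  rintro ⟨-, h1⟩
  obtain ⟨z, h2, h3, h4⟩ := h1 (code (Sum.inl 0 : Pt N α)) (mem_codeQ.2 ((mem_sep hI).2 rfl))
  obtain ⟨Z, rfl, -, r, i1, i2, i3, hr, F, h5, h6, h7⟩ := zero_unfold hS h2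
  obtain ⟨n₀, h8⟩ := ev_of_contR h hr (fun _ => trivial) (fun _ => trivial) h5 h6
  have h9 : F (Sum.inl n₀.succ) = F (Sum.inl 0) := by
    by_contra h9
    obtain ⟨U, k1, k2, k3⟩ := h6 (Sum.inl 0) trivial _ (abs_pos.2 (sub_ne_zero.2 h9))
    obtain ⟨l, u, k4, k5, k6⟩ := k1.2 _ k2
    obtain ⟨n, k7, k8⟩ : ∃ n : INat N, n₀ ≤ n ∧ gt D fb (Sum.inl n.succ) l := by
      rcases l with x | m
      · refine ⟨max n₀ (fb x).succ, le_max_left _ _, gt_inl.2 fun h10 => ?_⟩
        have h11 := (le_max_right n₀ (fb x).succ).trans (lep_inl.1 h10)
        exact absurd (lt_of_lt_of_le (INat.lt_succ_self _) h11) (lt_irrefl _)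
      · exact ⟨n₀, le_rfl, gt_inr⟩
    have k9 : leo D fb (Sum.inl n.succ) u := fun x hx => absurd (k5 x hx) not_lep_zero
    have k10 := k3 _ (k6 _ trivial k8 k9)
    rw [h8 n k7] at k10
    exact lt_irrefl _ k10
  have h10 : (Sum.inl 0 : Pt N α) ∈ Z := mem_codeQ.1 h3
  rw [h7 _ trivial] at h10
  rw [h10] at h9
  have h11 := (mem_sep hI).1 (mem_codeQ.1 (h4 _ (mem_codeQ.2 ((h7 _ trivial).2 h9))))
  exact INat.succ_ne_zero _ (Sum.inl.inj h11)

end

section

attribute [local instance] Helper672.Plain.toL

variable {N : Type u} [LSet.Structure N] [hZ : Helper672.Plain.Zermelo N]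

local instance instModelZs1' : IsModel N := Helper672.Plain.isModel_toL

noncomputable local instance instPElZs1' (x : N) : ITy N (Helper672.Plain.El x) :=
  (inferInstance : ITy N (El x))

variable {a : N}
variable {D : INat N × (Plain.El a × Plain.El a) → Prop} {fb : Plain.El a → INat N}
  (h : ZT N D fb)

include h

theorem space_cpc : ∃ x t u : N, IsTopology t x ∧ IsTychonoff t x ∧
    HasCtblePseudocharacter t x ∧ (∀ z, Plain.Mem z u → Plain.Mem z x) ∧ ¬ IsZOpen t x u := by
  have hT : Int N (fun _ : Pt N (Plain.El a) => True) := Int.const _
  have hS := spO h hT
  refine ⟨xs (N := N) (fun _ : Pt N (Plain.El a) => True),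
    ts (OP D fb (fun _ => True)), code (sep N fun z : Pt N (Plain.El a) => z = Sum.inl 0),
    isTopology_ts hS, isTychonoff_ts h hT, cpc_all h, fun z hz => ?_, not_zopen h⟩
  obtain ⟨s, -, rfl⟩ := mem_codeB.1 hz
  exact (mem_xs' hS).2 trivial

end

section

attribute [local instance] Helper672.Plain.toL

theorem space_cpc_of {N : Type u} [LSet.Structure N] [hZ : Helper672.Plain.Zermelo N]
    (hh : HasZT N) : ∃ x t u : N, IsTopology t x ∧ IsTychonoff t x ∧
    HasCtblePseudocharacter t x ∧ (∀ z, Plain.Mem z u → Plain.Mem z x) ∧ ¬ IsZOpen t x u := by
  letI : IsModel N := Helper672.Plain.isModel_toL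
  obtain ⟨a, D, fb, hD⟩ := hh
  exact space_cpc hD

end

end Pool.Agent.V11257Z
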