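import Pool.Agent.V11257.Zr6

/-!
# Zero-sets and z-ultrafilters
-/

set_option maxHeartbeats 1000000
set_option linter.all false
set_option synthInstance.maxSize 2000

namespace Pool.Agent.V11257Z

open FirstOrder FirstOrder.Language
open Pool.Agent.Helper672
open Pool.Agent.Helper672.ZFA
open Pool.Agent.Helper672.ZFA.V246
open Pool.Agent.Helper672.Plain (LSet)
open Pool.Agent.H310
open Pool.Agent.H310Cards
open Pool.Agent.H310Top (IsTopology)
open Pool.Agent.H635Amen (IsReals)
open Pool.Agent.V11246

universe u

section

attribute [local instance] Helper672.Plain.toL

variable {N : Type u} [LSet.Structure N] [hZ : Helper672.Plain.Zermelo N]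

local instance instModelZs2 : IsModel N := Helper672.Plain.isModel_toL

noncomputable local instance instPElZs2 (x : N) : ITy N (Helper672.Plain.El x) :=
  (inferInstance : ITy N (El x))

variable {α : Type u} [ITy N α] {P : α → Prop} {O : IPow N α → Prop}
variable {r : N} [Field (Plain.El r)] [LinearOrder (Plain.El r)]
  [IsStrictOrderedRing (Plain.El r)]

variable (r) in
/-- Zero-sets, inside. -/
def ZS (P : α → Prop) (O : IPow N α → Prop) (Z : IPow N α) : Prop :=
  (∀ s, s ∈ Z → P s) ∧ ∃ f : IFun N α (Plain.El r), CtR P O (fun z => f z) ∧
    ∀ s, P s → (s ∈ Z ↔ f s = 0)

theorem zs_iff (hS : SpO N P O) {Z : IPow N α} :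
    IsZeroSetIn r (ts O) (xs (N := N) P) (code Z) ↔ ZS r P O Z := by
  constructor
  · rintro ⟨h1, φ, h2, h3⟩
    obtain ⟨F, h5, h6, h7⟩ := cont_unfold hS h2
    refine ⟨fun s hs => (mem_xs' hS).1 (h1 _ (mem_codeQ.2 hs)), ⟨F, h5⟩, h7, fun s hs => ?_⟩
    have h8 : F s = 0 ↔ s ∈ Z := by
      rw [h6 s hs, ← h3]
      exact mem_codeQ
    exact h8.symm
  · rintro ⟨h1, f, h2, h3⟩
    obtain ⟨φ, h4, h5⟩ := cont_fold hS f.2 h2
    refine ⟨fun y hy => ?_, φ, h4, fun y => ?_⟩
    · obtain ⟨s, hs, rfl⟩ := mem_codeB.1 hy
      exact (mem_xs' hS).2 (h1 s hs)
    · obtain ⟨s, hs, hs'⟩ := (mem_xs hS).1 y.2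
      obtain rfl : (⟨code s, (mem_xs' hS).2 hs⟩ : Plain.El (xs (N := N) P)) = y :=
        Subtype.ext hs'
      rw [h5 s hs]
      exact mem_codeQ.trans (h3 s hs)

theorem int_zs (hr : IsReals r) (hP : Int N P) (hO : Int N O) : Int N (ZS r P O) := by
  have h1 := int_closeR hr
  have h2 := int_ltR hr
  have g1 : Int N (fun q : (((((IPow N α × IFun N α (Plain.El r)) × α) × Plain.El r) ×
      IPow N α) × α) => |q.1.1.1.1.2 q.2 - q.1.1.1.1.2 q.1.1.1.2| < q.1.1.2) := Int.comp
    (p := fun q : (Plain.El r × Plain.El r) × Plain.El r => |q.1.1 - q.1.2| < q.2)
    (f := fun q : (((((IPow N α × IFun N α (Plain.El r)) × α) × Plain.El r) ×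
      IPow N α) × α) => ((q.1.1.1.1.2 q.2, q.1.1.1.1.2 q.1.1.1.2), q.1.1.2)) h1
    (IntF.pair (IntF.pair (IntF.app (by (repeat' (first | with_reducible exact IntF.id | with_reducible exact IntF.fst' | with_reducible exact IntF.snd' | with_reducible exact IntF.const _ | with_reducible exact Int.const _ | assumption | with_reducible apply Int.and | with_reducible apply Int.or | with_reducible apply Int.not | with_reducible apply Int.imp | with_reducible apply Int.iff | with_reducible apply Int.ne | with_reducible apply Int.eq | with_reducible apply Int.mem | with_reducible apply Int.subset | with_reducible apply Int.ltN | with_reducible apply Int.leN | with_reducible_and_instances apply Int.le | with_reducible_and_instances apply Int.lt | with_reducible apply Int.all | with_reducible apply Int.ex | with_reducible apply IntF.fst | with_reducible apply IntF.snd | with_reducible apply IntF.app | with_reducible apply IntF.inl | with_reducible apply IntF.inr | with_reducible_and_instances apply IntF.mul | with_reducible_and_instances apply IntF.inv | with_reducible_and_instances apply IntF.add | with_reducible_and_instances apply IntF.sub | with_reducible_and_instances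 apply IntF.neg | with_reducible_and_instances apply IntF.smul | with_reducible apply Int.fin | with_reducible apply IntF.sep | with_reducible apply IntF.lam | with_reducible apply IntF.insert | with_reducible apply IntF.singleton | with_reducible apply IntF.union | with_reducible apply IntF.iimage | with_reducible apply IntF.ite | with_reducible apply IntF.the | with_reducible apply IntF.irec | with_reducible apply IntF.succ | with_reducible apply IntF.val | with_reducible apply IntF.mk | (with_reducible refine Int.comp ?_ ?_; assumption) | (with_reducible refine Int.comp₂ ?_ ?_ ?_; assumption) | (with_reducible refine Int.comp₃ ?_ ?_ ?_ ?_; assumption) | (with_reducible refine Int.comp₄ ?_ ?_ ?_ ?_ ?_; assumption) | (with_reducible refine IntF.comp ?_ ?_; assumption) | (with_reducible refine IntF.comp₂ ?_ ?_ ?_; assumption) | (with_reducible refine IntF.comp₃ ?_ ?_ ?_ ?_; assumption) | with_reducible apply IntF.pair))) (by (repeat' (first | with_reducible exact IntF.id | with_reducible exact IntF.fst' | with_reducible exact IntF.snd' | with_reducible exact IntF.const _ | with_reducible exact Int.const _ | assumption | with_reducible apply Int.and | with_reducible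 apply Int.or | with_reducible apply Int.not | with_reducible apply Int.imp | with_reducible apply Int.iff | with_reducible apply Int.ne | with_reducible apply Int.eq | with_reducible apply Int.mem | with_reducible apply Int.subset | with_reducible apply Int.ltN | with_reducible apply Int.leN | with_reducible_and_instances apply Int.le | with_reducible_and_instances apply Int.lt | with_reducible apply Int.all | with_reducible apply Int.ex | with_reducible apply IntF.fst | with_reducible apply IntF.snd | with_reducible apply IntF.app | with_reducible apply IntF.inl | with_reducible apply IntF.inr | with_reducible_and_instances apply IntF.mul | with_reducible_and_instances apply IntF.inv | with_reducible_and_instances apply IntF.add | with_reducible_and_instances apply IntF.sub | with_reducible_and_instances apply IntF.neg | with_reducible_and_instances apply IntF.smul | with_reducible apply Int.fin | with_reducible apply IntF.sep | with_reducible apply IntF.lam | with_reducible apply IntF.insert | with_reducible apply IntF.singleton | with_reducible apply IntF.union | with_reducible apply IntF.iimage | with_reducible apply IntF.ite | with_reducible apply IntF.the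 | with_reducible apply IntF.irec | with_reducible apply IntF.succ | with_reducible apply IntF.val | with_reducible apply IntF.mk | (with_reducible refine Int.comp ?_ ?_; assumption) | (with_reducible refine Int.comp₂ ?_ ?_ ?_; assumption) | (with_reducible refine Int.comp₃ ?_ ?_ ?_ ?_; assumption) | (with_reducible refine Int.comp₄ ?_ ?_ ?_ ?_ ?_; assumption) | (with_reducible refine IntF.comp ?_ ?_; assumption) | (with_reducible refine IntF.comp₂ ?_ ?_ ?_; assumption) | (with_reducible refine IntF.comp₃ ?_ ?_ ?_ ?_; assumption) | with_reducible apply IntF.pair)))) (IntF.app (by (repeat' (first | with_reducible exact IntF.id | with_reducible exact IntF.fst' | with_reducible exact IntF.snd' | with_reducible exact IntF.const _ | with_reducible exact Int.const _ | assumption | with_reducible apply Int.and | with_reducible apply Int.or | with_reducible apply Int.not | with_reducible apply Int.imp | with_reducible apply Int.iff | with_reducible apply Int.ne | with_reducible apply Int.eq | with_reducible apply Int.mem | with_reducible apply Int.subset | with_reducible apply Int.ltN | with_reducible apply Int.leN | with_reducible_and_instances apply Int.le | with_reducible_and_instances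 apply Int.lt | with_reducible apply Int.all | with_reducible apply Int.ex | with_reducible apply IntF.fst | with_reducible apply IntF.snd | with_reducible apply IntF.app | with_reducible apply IntF.inl | with_reducible apply IntF.inr | with_reducible_and_instances apply IntF.mul | with_reducible_and_instances apply IntF.inv | with_reducible_and_instances apply IntF.add | with_reducible_and_instances apply IntF.sub | with_reducible_and_instances apply IntF.neg | with_reducible_and_instances apply IntF.smul | with_reducible apply Int.fin | with_reducible apply IntF.sep | with_reducible apply IntF.lam | with_reducible apply IntF.insert | with_reducible apply IntF.singleton | with_reducible apply IntF.union | with_reducible apply IntF.iimage | with_reducible apply IntF.ite | with_reducible apply IntF.the | with_reducible apply IntF.irec | with_reducible apply IntF.succ | with_reducible apply IntF.val | with_reducible apply IntF.mk | (with_reducible refine Int.comp ?_ ?_; assumption) | (with_reducible refine Int.comp₂ ?_ ?_ ?_; assumption) | (with_reducible refine Int.comp₃ ?_ ?_ ?_ ?_; assumption) | (with_reducible refine Int.comp₄ ?_ ?_ ?_ ?_ ?_; assumption)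 | (with_reducible refine IntF.comp ?_ ?_; assumption) | (with_reducible refine IntF.comp₂ ?_ ?_ ?_; assumption) | (with_reducible refine IntF.comp₃ ?_ ?_ ?_ ?_; assumption) | with_reducible apply IntF.pair))) (by (repeat' (first | with_reducible exact IntF.id | with_reducible exact IntF.fst' | with_reducible exact IntF.snd' | with_reducible exact IntF.const _ | with_reducible exact Int.const _ | assumption | with_reducible apply Int.and | with_reducible apply Int.or | with_reducible apply Int.not | with_reducible apply Int.imp | with_reducible apply Int.iff | with_reducible apply Int.ne | with_reducible apply Int.eq | with_reducible apply Int.mem | with_reducible apply Int.subset | with_reducible apply Int.ltN | with_reducible apply Int.leN | with_reducible_and_instances apply Int.le | with_reducible_and_instances apply Int.lt | with_reducible apply Int.all | with_reducible apply Int.ex | with_reducible apply IntF.fst | with_reducible apply IntF.snd | with_reducible apply IntF.app | with_reducible apply IntF.inl | with_reducible apply IntF.inr | with_reducible_and_instances apply IntF.mul | with_reducible_and_instances apply IntF.inv | with_reducible_and_instances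 apply IntF.add | with_reducible_and_instances apply IntF.sub | with_reducible_and_instances apply IntF.neg | with_reducible_and_instances apply IntF.smul | with_reducible apply Int.fin | with_reducible apply IntF.sep | with_reducible apply IntF.lam | with_reducible apply IntF.insert | with_reducible apply IntF.singleton | with_reducible apply IntF.union | with_reducible apply IntF.iimage | with_reducible apply IntF.ite | with_reducible apply IntF.the | with_reducible apply IntF.irec | with_reducible apply IntF.succ | with_reducible apply IntF.val | with_reducible apply IntF.mk | (with_reducible refine Int.comp ?_ ?_; assumption) | (with_reducible refine Int.comp₂ ?_ ?_ ?_; assumption) | (with_reducible refine Int.comp₃ ?_ ?_ ?_ ?_; assumption) | (with_reducible refine Int.comp₄ ?_ ?_ ?_ ?_ ?_; assumption) | (with_reducible refine IntF.comp ?_ ?_; assumption) | (with_reducible refine IntF.comp₂ ?_ ?_ ?_; assumption) | (with_reducible refine IntF.comp₃ ?_ ?_ ?_ ?_; assumption) | with_reducible apply IntF.pair)))))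
      (IntF.snd (IntF.fst IntF.fst')))
  have g2 : Int N (fun q : (((IPow N α × IFun N α (Plain.El r)) × α) × Plain.El r) =>
      0 < q.2) := Int.comp (p := fun q : Plain.El r × Plain.El r => q.1 < q.2)
    (f := fun q : (((IPow N α × IFun N α (Plain.El r)) × α) × Plain.El r) => (0, q.2)) h2
    (IntF.pair (IntF.const _) IntF.snd')
  unfold ZS CtR
  beta_reduce
  have g3 : Int N (fun q : ((((IPow N α × IFun N α (Plain.El r)) × α) × Plain.El r) ×
      IPow N α) => O q.2) := Int.comp (p := O)
    (f := fun q : ((((IPow N α × IFun N α (Plain.El r)) × α) × Plain.El r) ×
      IPow N α) => q.2) hO IntF.snd'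
  have g4 : Int N (fun q : ((IPow N α × IFun N α (Plain.El r)) × α) => P q.2) := Int.comp (p := P)
    (f := fun q : ((IPow N α × IFun N α (Plain.El r)) × α) => q.2) hP IntF.snd'
  have g5 : Int N (fun q : IPow N α × α => P q.2) := Int.comp (p := P)
    (f := fun q : IPow N α × α => q.2) hP IntF.snd'
  have g6 : Int N (fun q : ((IPow N α × IFun N α (Plain.El r)) × α) => q.1.2 q.2 = 0) :=
    Int.eq (IntF.app (by (repeat' (first | with_reducible exact IntF.id | with_reducible exact IntF.fst' | with_reducible exact IntF.snd' | with_reducible exact IntF.const _ | with_reducible exact Int.const _ | assumption | with_reducible apply Int.and | with_reducible apply Int.or | with_reducible apply Int.not | with_reducible apply Int.imp | with_reducible apply Int.iff | with_reducible apply Int.ne | with_reducible apply Int.eq | with_reducible apply Int.mem | with_reducible apply Int.subset | with_reducible apply Int.ltN | with_reducible apply Int.leN | with_reducible_and_instances apply Int.le | with_reducible_and_instances apply Int.lt | with_reducible apply Int.all | with_reducible apply Int.ex | with_reducible apply IntF.fst | with_reducible apply IntF.snd | with_reducible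 apply IntF.app | with_reducible apply IntF.inl | with_reducible apply IntF.inr | with_reducible_and_instances apply IntF.mul | with_reducible_and_instances apply IntF.inv | with_reducible_and_instances apply IntF.add | with_reducible_and_instances apply IntF.sub | with_reducible_and_instances apply IntF.neg | with_reducible_and_instances apply IntF.smul | with_reducible apply Int.fin | with_reducible apply IntF.sep | with_reducible apply IntF.lam | with_reducible apply IntF.insert | with_reducible apply IntF.singleton | with_reducible apply IntF.union | with_reducible apply IntF.iimage | with_reducible apply IntF.ite | with_reducible apply IntF.the | with_reducible apply IntF.irec | with_reducible apply IntF.succ | with_reducible apply IntF.val | with_reducible apply IntF.mk | (with_reducible refine Int.comp ?_ ?_; assumption) | (with_reducible refine Int.comp₂ ?_ ?_ ?_; assumption) | (with_reducible refine Int.comp₃ ?_ ?_ ?_ ?_; assumption) | (with_reducible refine Int.comp₄ ?_ ?_ ?_ ?_ ?_; assumption) | (with_reducible refine IntF.comp ?_ ?_; assumption) | (with_reducible refine IntF.comp₂ ?_ ?_ ?_; assumption) | (with_reducible refine IntF.comp₃ ?_ ?_ ?_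 ?_; assumption) | with_reducible apply IntF.pair))) (by (repeat' (first | with_reducible exact IntF.id | with_reducible exact IntF.fst' | with_reducible exact IntF.snd' | with_reducible exact IntF.const _ | with_reducible exact Int.const _ | assumption | with_reducible apply Int.and | with_reducible apply Int.or | with_reducible apply Int.not | with_reducible apply Int.imp | with_reducible apply Int.iff | with_reducible apply Int.ne | with_reducible apply Int.eq | with_reducible apply Int.mem | with_reducible apply Int.subset | with_reducible apply Int.ltN | with_reducible apply Int.leN | with_reducible_and_instances apply Int.le | with_reducible_and_instances apply Int.lt | with_reducible apply Int.all | with_reducible apply Int.ex | with_reducible apply IntF.fst | with_reducible apply IntF.snd | with_reducible apply IntF.app | with_reducible apply IntF.inl | with_reducible apply IntF.inr | with_reducible_and_instances apply IntF.mul | with_reducible_and_instances apply IntF.inv | with_reducible_and_instances apply IntF.add | with_reducible_and_instances apply IntF.sub | with_reducible_and_instances apply IntF.neg | with_reducible_and_instances apply IntF.smul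 | with_reducible apply Int.fin | with_reducible apply IntF.sep | with_reducible apply IntF.lam | with_reducible apply IntF.insert | with_reducible apply IntF.singleton | with_reducible apply IntF.union | with_reducible apply IntF.iimage | with_reducible apply IntF.ite | with_reducible apply IntF.the | with_reducible apply IntF.irec | with_reducible apply IntF.succ | with_reducible apply IntF.val | with_reducible apply IntF.mk | (with_reducible refine Int.comp ?_ ?_; assumption) | (with_reducible refine Int.comp₂ ?_ ?_ ?_; assumption) | (with_reducible refine Int.comp₃ ?_ ?_ ?_ ?_; assumption) | (with_reducible refine Int.comp₄ ?_ ?_ ?_ ?_ ?_; assumption) | (with_reducible refine IntF.comp ?_ ?_; assumption) | (with_reducible refine IntF.comp₂ ?_ ?_ ?_; assumption) | (with_reducible refine IntF.comp₃ ?_ ?_ ?_ ?_; assumption) | with_reducible apply IntF.pair)))) (IntF.const _)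
  have m1 : Int N (fun q : (((((IPow N α × IFun N α (Plain.El r)) × α) × Plain.El r) ×
      IPow N α) × α) => q.2 ∈ q.1.2) := by (repeat' (first | with_reducible exact IntF.id | with_reducible exact IntF.fst' | with_reducible exact IntF.snd' | with_reducible exact IntF.const _ | with_reducible exact Int.const _ | assumption | with_reducible apply Int.and | with_reducible apply Int.or | with_reducible apply Int.not | with_reducible apply Int.imp | with_reducible apply Int.iff | with_reducible apply Int.ne | with_reducible apply Int.eq | with_reducible apply Int.mem | with_reducible apply Int.subset | with_reducible apply Int.ltN | with_reducible apply Int.leN | with_reducible_and_instances apply Int.le | with_reducible_and_instances apply Int.lt | with_reducible apply Int.all | with_reducible apply Int.ex | with_reducible apply IntF.fst | with_reducible apply IntF.snd | with_reducible apply IntF.app | with_reducible apply IntF.inl | with_reducible apply IntF.inr | with_reducible_and_instances apply IntF.mul | with_reducible_and_instances apply IntF.inv | with_reducible_and_instances apply IntF.add | with_reducible_and_instances apply IntF.sub | with_reducible_and_instances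 apply IntF.neg | with_reducible_and_instances apply IntF.smul | with_reducible apply Int.fin | with_reducible apply IntF.sep | with_reducible apply IntF.lam | with_reducible apply IntF.insert | with_reducible apply IntF.singleton | with_reducible apply IntF.union | with_reducible apply IntF.iimage | with_reducible apply IntF.ite | with_reducible apply IntF.the | with_reducible apply IntF.irec | with_reducible apply IntF.succ | with_reducible apply IntF.val | with_reducible apply IntF.mk | (with_reducible refine Int.comp ?_ ?_; assumption) | (with_reducible refine Int.comp₂ ?_ ?_ ?_; assumption) | (with_reducible refine Int.comp₃ ?_ ?_ ?_ ?_; assumption) | (with_reducible refine Int.comp₄ ?_ ?_ ?_ ?_ ?_; assumption) | (with_reducible refine IntF.comp ?_ ?_; assumption) | (with_reducible refine IntF.comp₂ ?_ ?_ ?_; assumption) | (with_reducible refine IntF.comp₃ ?_ ?_ ?_ ?_; assumption) | with_reducible apply IntF.pair))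
  have m2 : Int N (fun q : ((((IPow N α × IFun N α (Plain.El r)) × α) × Plain.El r) ×
      IPow N α) => q.1.1.2 ∈ q.2) := by (repeat' (first | with_reducible exact IntF.id | with_reducible exact IntF.fst' | with_reducible exact IntF.snd' | with_reducible exact IntF.const _ | with_reducible exact Int.const _ | assumption | with_reducible apply Int.and | with_reducible apply Int.or | with_reducible apply Int.not | with_reducible apply Int.imp | with_reducible apply Int.iff | with_reducible apply Int.ne | with_reducible apply Int.eq | with_reducible apply Int.mem | with_reducible apply Int.subset | with_reducible apply Int.ltN | with_reducible apply Int.leN | with_reducible_and_instances apply Int.le | with_reducible_and_instances apply Int.lt | with_reducible apply Int.all | with_reducible apply Int.ex | with_reducible apply IntF.fst | with_reducible apply IntF.snd | with_reducible apply IntF.app | with_reducible apply IntF.inl | with_reducible apply IntF.inr | with_reducible_and_instances apply IntF.mul | with_reducible_and_instances apply IntF.inv | with_reducible_and_instances apply IntF.add | with_reducible_and_instances apply IntF.sub | with_reducible_and_instances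 apply IntF.neg | with_reducible_and_instances apply IntF.smul | with_reducible apply Int.fin | with_reducible apply IntF.sep | with_reducible apply IntF.lam | with_reducible apply IntF.insert | with_reducible apply IntF.singleton | with_reducible apply IntF.union | with_reducible apply IntF.iimage | with_reducible apply IntF.ite | with_reducible apply IntF.the | with_reducible apply IntF.irec | with_reducible apply IntF.succ | with_reducible apply IntF.val | with_reducible apply IntF.mk | (with_reducible refine Int.comp ?_ ?_; assumption) | (with_reducible refine Int.comp₂ ?_ ?_ ?_; assumption) | (with_reducible refine Int.comp₃ ?_ ?_ ?_ ?_; assumption) | (with_reducible refine Int.comp₄ ?_ ?_ ?_ ?_ ?_; assumption) | (with_reducible refine IntF.comp ?_ ?_; assumption) | (with_reducible refine IntF.comp₂ ?_ ?_ ?_; assumption) | (with_reducible refine IntF.comp₃ ?_ ?_ ?_ ?_; assumption) | with_reducible apply IntF.pair))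
  have m3 : Int N (fun q : ((IPow N α × IFun N α (Plain.El r)) × α) => q.2 ∈ q.1.1) := by (repeat' (first | with_reducible exact IntF.id | with_reducible exact IntF.fst' | with_reducible exact IntF.snd' | with_reducible exact IntF.const _ | with_reducible exact Int.const _ | assumption | with_reducible apply Int.and | with_reducible apply Int.or | with_reducible apply Int.not | with_reducible apply Int.imp | with_reducible apply Int.iff | with_reducible apply Int.ne | with_reducible apply Int.eq | with_reducible apply Int.mem | with_reducible apply Int.subset | with_reducible apply Int.ltN | with_reducible apply Int.leN | with_reducible_and_instances apply Int.le | with_reducible_and_instances apply Int.lt | with_reducible apply Int.all | with_reducible apply Int.ex | with_reducible apply IntF.fst | with_reducible apply IntF.snd | with_reducible apply IntF.app | with_reducible apply IntF.inl | with_reducible apply IntF.inr | with_reducible_and_instances apply IntF.mul | with_reducible_and_instances apply IntF.inv | with_reducible_and_instances apply IntF.add | with_reducible_and_instances apply IntF.sub | with_reducible_and_instances apply IntF.neg | with_reducible_and_instances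 apply IntF.smul | with_reducible apply Int.fin | with_reducible apply IntF.sep | with_reducible apply IntF.lam | with_reducible apply IntF.insert | with_reducible apply IntF.singleton | with_reducible apply IntF.union | with_reducible apply IntF.iimage | with_reducible apply IntF.ite | with_reducible apply IntF.the | with_reducible apply IntF.irec | with_reducible apply IntF.succ | with_reducible apply IntF.val | with_reducible apply IntF.mk | (with_reducible refine Int.comp ?_ ?_; assumption) | (with_reducible refine Int.comp₂ ?_ ?_ ?_; assumption) | (with_reducible refine Int.comp₃ ?_ ?_ ?_ ?_; assumption) | (with_reducible refine Int.comp₄ ?_ ?_ ?_ ?_ ?_; assumption) | (with_reducible refine IntF.comp ?_ ?_; assumption) | (with_reducible refine IntF.comp₂ ?_ ?_ ?_; assumption) | (with_reducible refine IntF.comp₃ ?_ ?_ ?_ ?_; assumption) | with_reducible apply IntF.pair))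
  have m4 : Int N (fun q : IPow N α × α => q.2 ∈ q.1) := by (repeat' (first | with_reducible exact IntF.id | with_reducible exact IntF.fst' | with_reducible exact IntF.snd' | with_reducible exact IntF.const _ | with_reducible exact Int.const _ | assumption | with_reducible apply Int.and | with_reducible apply Int.or | with_reducible apply Int.not | with_reducible apply Int.imp | with_reducible apply Int.iff | with_reducible apply Int.ne | with_reducible apply Int.eq | with_reducible apply Int.mem | with_reducible apply Int.subset | with_reducible apply Int.ltN | with_reducible apply Int.leN | with_reducible_and_instances apply Int.le | with_reducible_and_instances apply Int.lt | with_reducible apply Int.all | with_reducible apply Int.ex | with_reducible apply IntF.fst | with_reducible apply IntF.snd | with_reducible apply IntF.app | with_reducible apply IntF.inl | with_reducible apply IntF.inr | with_reducible_and_instances apply IntF.mul | with_reducible_and_instances apply IntF.inv | with_reducible_and_instances apply IntF.add | with_reducible_and_instances apply IntF.sub | with_reducible_and_instances apply IntF.neg | with_reducible_and_instances apply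 IntF.smul | with_reducible apply Int.fin | with_reducible apply IntF.sep | with_reducible apply IntF.lam | with_reducible apply IntF.insert | with_reducible apply IntF.singleton | with_reducible apply IntF.union | with_reducible apply IntF.iimage | with_reducible apply IntF.ite | with_reducible apply IntF.the | with_reducible apply IntF.irec | with_reducible apply IntF.succ | with_reducible apply IntF.val | with_reducible apply IntF.mk | (with_reducible refine Int.comp ?_ ?_; assumption) | (with_reducible refine Int.comp₂ ?_ ?_ ?_; assumption) | (with_reducible refine Int.comp₃ ?_ ?_ ?_ ?_; assumption) | (with_reducible refine Int.comp₄ ?_ ?_ ?_ ?_ ?_; assumption) | (with_reducible refine IntF.comp ?_ ?_; assumption) | (with_reducible refine IntF.comp₂ ?_ ?_ ?_; assumption) | (with_reducible refine IntF.comp₃ ?_ ?_ ?_ ?_; assumption) | with_reducible apply IntF.pair))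
  exact (Int.all (m4.imp g5)).and (Int.ex (Int.and (Int.all (g4.imp (Int.all (g2.imp (Int.ex
    (g3.and (m2.and (Int.all (m1.imp g1)))))))))
    (Int.all (g4.imp (m3.iff g6)))))

theorem intF_abs (hr : IsReals r) {F : α → Plain.El r} (hF : IntF N F) :
    IntF N (fun z => |F z|) := by
  have h1 := int_leR hr
  have h2 := int_addR hr
  have g1 : Int N (fun q : α × Plain.El r => 0 ≤ F q.1) := Int.comp
    (p := fun q : Plain.El r × Plain.El r => q.1 ≤ q.2) (f := fun q : α × Plain.El r => (0, F q.1))
    h1 (IntF.pair (IntF.const _) (IntF.comp (f := fun q : α × Plain.El r => q.1) hF IntF.fst'))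
  have g2 : Int N (fun q : α × Plain.El r => F q.1 + q.2 = 0) := Int.eq (IntF.comp
    (g := fun q : Plain.El r × Plain.El r => q.1 + q.2) (f := fun q : α × Plain.El r => (F q.1, q.2))
    h2 (IntF.pair (IntF.comp (f := fun q : α × Plain.El r => q.1) hF IntF.fst') IntF.snd'))
    (IntF.const _)
  have g3 : Int N (fun q : α × Plain.El r => F q.1 = q.2) := Int.eq
    (IntF.comp (f := fun q : α × Plain.El r => q.1) hF IntF.fst') IntF.snd'
  refine IntF.of_rel (r := fun (z : α) (y : Plain.El r) => (0 ≤ F z ∧ F z = y) ∨
    (¬ 0 ≤ F z ∧ F z + y = 0)) ((g1.and g3).or (g1.not.and g2)) fun z y => ?_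
  constructor
  · rintro (⟨h3, rfl⟩ | ⟨h3, h4⟩)
    · exact abs_of_nonneg h3
    · rw [abs_of_neg (not_le.1 h3)]
      linarith
  · rintro rfl
    rcases le_or_gt 0 (F z) with h3 | h3
    · exact Or.inl ⟨h3, (abs_of_nonneg h3).symm⟩
    · refine Or.inr ⟨not_le.2 h3, ?_⟩
      rw [abs_of_neg h3]
      linarith

theorem zs_inter (hr : IsReals r) (hS : SpO N P O) {Z Z' Z'' : IPow N α} (h1 : ZS r P O Z)
    (h2 : ZS r P O Z') (h3 : ∀ s, s ∈ Z'' ↔ s ∈ Z ∧ s ∈ Z') : ZS r P O Z'' := by
  obtain ⟨h4, f, h5, h6⟩ := h1
  obtain ⟨-, g, h8, h9⟩ := h2
  have hF : IntF N (fun z => |f z| + |g z|) := IntF.comp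
    (g := fun q : Plain.El r × Plain.El r => q.1 + q.2) (f := fun z : α => (|f z|, |g z|))
    (int_addR hr) (IntF.pair (intF_abs hr f.2) (intF_abs hr g.2))
  refine ⟨fun s hs => h4 s ((h3 s).1 hs).1, ⟨_, hF⟩, fun z hz ε hε => ?_, fun s hs => ?_⟩
  · obtain ⟨U, k1, k2, k3⟩ := h5 z hz (ε / 2) (half_pos hε)
    obtain ⟨V, k4, k5, k6⟩ := h8 z hz (ε / 2) (half_pos hε)
    have hI : Int N (fun s : α => s ∈ U ∧ s ∈ V) := by (repeat' (first | with_reducible exact IntF.id | with_reducible exact IntF.fst' | with_reducible exact IntF.snd' | with_reducible exact IntF.const _ | with_reducible exact Int.const _ | assumption | with_reducible apply Int.and | with_reducible apply Int.or | with_reducible apply Int.not | with_reducible apply Int.imp | with_reducible apply Int.iff | with_reducible apply Int.ne | with_reducible apply Int.eq | with_reducible apply Int.mem | with_reducible apply Int.subset | with_reducible apply Int.ltN | with_reducible apply Int.leN | with_reducible_and_instances apply Int.le | with_reducible_and_instances apply Int.lt | with_reducible apply Int.all | with_reducible apply Int.ex | with_reducible apply IntF.fst | with_reducible apply IntF.snd |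 with_reducible apply IntF.app | with_reducible apply IntF.inl | with_reducible apply IntF.inr | with_reducible_and_instances apply IntF.mul | with_reducible_and_instances apply IntF.inv | with_reducible_and_instances apply IntF.add | with_reducible_and_instances apply IntF.sub | with_reducible_and_instances apply IntF.neg | with_reducible_and_instances apply IntF.smul | with_reducible apply Int.fin | with_reducible apply IntF.sep | with_reducible apply IntF.lam | with_reducible apply IntF.insert | with_reducible apply IntF.singleton | with_reducible apply IntF.union | with_reducible apply IntF.iimage | with_reducible apply IntF.ite | with_reducible apply IntF.the | with_reducible apply IntF.irec | with_reducible apply IntF.succ | with_reducible apply IntF.val | with_reducible apply IntF.mk | (with_reducible refine Int.comp ?_ ?_; assumption) | (with_reducible refine Int.comp₂ ?_ ?_ ?_; assumption) | (with_reducible refine Int.comp₃ ?_ ?_ ?_ ?_; assumption) | (with_reducible refine Int.comp₄ ?_ ?_ ?_ ?_ ?_; assumption) | (with_reducible refine IntF.comp ?_ ?_; assumption) | (with_reducible refine IntF.comp₂ ?_ ?_ ?_; assumption) | (with_reducible refine IntF.comp₃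 ?_ ?_ ?_ ?_; assumption) | with_reducible apply IntF.pair))
    refine ⟨sep N fun s => s ∈ U ∧ s ∈ V, hS.inter _ _ _ k1 k4 fun s => mem_sep hI,
      (mem_sep hI).2 ⟨k2, k5⟩, fun w hw => ?_⟩
    obtain ⟨k7, k8⟩ := (mem_sep hI).1 hw
    have k9 := k3 w k7
    have k10 := k6 w k8
    have k11 := abs_abs_sub_abs_le_abs_sub (f w) (f z)
    have k12 := abs_abs_sub_abs_le_abs_sub (g w) (g z)
    have k13 : |(|f w| + |g w|) - (|f z| + |g z|)| ≤ |(|f w| - |f z|)| + |(|g w| - |g z|)| := by
      have : (|f w| + |g w|) - (|f z| + |g z|) = (|f w| - |f z|) + (|g w| - |g z|) := by ring
      rw [this]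
      exact abs_add_le _ _
    calc |(|f w| + |g w|) - (|f z| + |g z|)| ≤ |(|f w| - |f z|)| + |(|g w| - |g z|)| := k13
      _ ≤ |f w - f z| + |g w - g z| := add_le_add k11 k12
      _ < ε / 2 + ε / 2 := add_lt_add k9 k10
      _ = ε := add_halves ε
  · rw [h3, h6 s hs, h9 s hs]
    change _ ↔ |f s| + |g s| = 0
    constructor
    · rintro ⟨k1, k2⟩
      rw [k1, k2, abs_zero, add_zero]
    · intro k1
      have k2 := abs_nonneg (f s)
      have k3 := abs_nonneg (g s)
      exact ⟨abs_eq_zero.1 (by linarith), abs_eq_zero.1 (by linarith)⟩

/-- Clopen sets are zero-sets. -/
theorem zs_clopen (hS : SpO N P O) {C C' : IPow N α} (h1 : O C) (h2 : O C')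
    (h3 : ∀ s, s ∈ C' ↔ P s ∧ s ∉ C) : ZS r P O C := by
  classical
  have hI : Int N (fun z : α => z ∈ C) := by (repeat' (first | with_reducible exact IntF.id | with_reducible exact IntF.fst' | with_reducible exact IntF.snd' | with_reducible exact IntF.const _ | with_reducible exact Int.const _ | assumption | with_reducible apply Int.and | with_reducible apply Int.or | with_reducible apply Int.not | with_reducible apply Int.imp | with_reducible apply Int.iff | with_reducible apply Int.ne | with_reducible apply Int.eq | with_reducible apply Int.mem | with_reducible apply Int.subset | with_reducible apply Int.ltN | with_reducible apply Int.leN | with_reducible_and_instances apply Int.le | with_reducible_and_instances apply Int.lt | with_reducible apply Int.all | with_reducible apply Int.ex | with_reducible apply IntF.fst | with_reducible apply IntF.snd | with_reducible apply IntF.app | with_reducible apply IntF.inl | with_reducible apply IntF.inr | with_reducible_and_instances apply IntF.mul | with_reducible_and_instances apply IntF.inv | with_reducible_and_instances apply IntF.add | with_reducible_and_instances apply IntF.sub | with_reducible_and_instances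 apply IntF.neg | with_reducible_and_instances apply IntF.smul | with_reducible apply Int.fin | with_reducible apply IntF.sep | with_reducible apply IntF.lam | with_reducible apply IntF.insert | with_reducible apply IntF.singleton | with_reducible apply IntF.union | with_reducible apply IntF.iimage | with_reducible apply IntF.ite | with_reducible apply IntF.the | with_reducible apply IntF.irec | with_reducible apply IntF.succ | with_reducible apply IntF.val | with_reducible apply IntF.mk | (with_reducible refine Int.comp ?_ ?_; assumption) | (with_reducible refine Int.comp₂ ?_ ?_ ?_; assumption) | (with_reducible refine Int.comp₃ ?_ ?_ ?_ ?_; assumption) | (with_reducible refine Int.comp₄ ?_ ?_ ?_ ?_ ?_; assumption) | (with_reducible refine IntF.comp ?_ ?_; assumption) | (with_reducible refine IntF.comp₂ ?_ ?_ ?_; assumption) | (with_reducible refine IntF.comp₃ ?_ ?_ ?_ ?_; assumption) | with_reducible apply IntF.pair))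
  have hF : IntF N (fun z : α => if z ∈ C then (0 : Plain.El r) else 1) :=
    IntF.ite hI (IntF.const _) (IntF.const _)
  refine ⟨hS.sub C h1, ⟨_, hF⟩, fun z hz ε hε => ?_, fun s hs => ?_⟩
  · by_cases h6 : z ∈ C
    · refine ⟨_, h1, h6, fun w hw => ?_⟩
      change |(if w ∈ C then (0 : Plain.El r) else 1) - (if z ∈ C then (0 : Plain.El r) else 1)| < ε
      rw [if_pos hw, if_pos h6, sub_self, abs_zero]
      exact hε
    · refine ⟨_, h2, (h3 z).2 ⟨hz, h6⟩, fun w hw => ?_⟩
      change |(if w ∈ C then (0 : Plain.El r) else 1) - (if z ∈ C then (0 : Plain.El r) else 1)| < ε
      rw [if_neg ((h3 w).1 hw).2, if_neg h6, sub_self, abs_zero]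
      exact hε
  · change _ ↔ (if s ∈ C then (0 : Plain.El r) else 1) = 0
    by_cases h6 : s ∈ C
    · rw [if_pos h6]
      exact ⟨fun _ => rfl, fun _ => h6⟩
    · rw [if_neg h6]
      exact ⟨fun h => absurd h h6, fun h => absurd h one_ne_zero⟩

/-- z-ultrafilters contain a clopen set or its complement. -/
theorem zu_clopen (hr : IsReals r) (hS : SpO N P O) {F : IPow N (IPow N α)}
    (hF : IsZUltra r (ts O) (xs (N := N) P) (code F)) {C C' : IPow N α} (h1 : O C) (h2 : O C')
    (h3 : ∀ s, s ∈ C' ↔ P s ∧ s ∉ C) : C ∈ F ∨ C' ∈ F := by
  have hC : ZS r P O C := zs_clopen hS h1 h2 h3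
  have hC' : ZS r P O C' := zs_clopen hS h2 h1 fun s => by
    rw [h3]
    constructor
    · exact fun h => ⟨hS.sub C h1 s h, fun h' => h'.2 h⟩
    · rintro ⟨h4, h5⟩
      by_contra h6
      exact h5 ⟨h4, h6⟩
  by_cases hdis : ∃ F1, F1 ∈ F ∧ ∀ s, s ∈ F1 → s ∉ C
  · obtain ⟨F1, h4, h5⟩ := hdis
    refine Or.inr (mem_codeQ.1 (hF.1.up (code F1) (code C') (mem_codeQ.2 h4) ((zs_iff hS).2 hC')
      fun z hz => ?_))
    obtain ⟨s, hs, rfl⟩ := mem_codeB.1 hz
    have h6 := ((zs_iff hS).1 (hF.1.mem _ (mem_codeQ.2 h4)).1).1 s hs
    exact mem_codeQ.2 ((h3 s).2 ⟨h6, h5 s hs⟩)
  · left
    push Not at hdis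
    have hzs := int_zs hr hS.iP hS.iO
    have hG : Int N (fun Z : IPow N α => ZS r P O Z ∧ ∃ F1, F1 ∈ F ∧ ∀ s, s ∈ F1 → s ∈ C →
        s ∈ Z) := hzs.and (by (repeat' (first | with_reducible exact IntF.id | with_reducible exact IntF.fst' | with_reducible exact IntF.snd' | with_reducible exact IntF.const _ | with_reducible exact Int.const _ | assumption | with_reducible apply Int.and | with_reducible apply Int.or | with_reducible apply Int.not | with_reducible apply Int.imp | with_reducible apply Int.iff | with_reducible apply Int.ne | with_reducible apply Int.eq | with_reducible apply Int.mem | with_reducible apply Int.subset | with_reducible apply Int.ltN | with_reducible apply Int.leN | with_reducible_and_instances apply Int.le | with_reducible_and_instances apply Int.lt | with_reducible apply Int.all | with_reducible apply Int.ex | with_reducible apply IntF.fst | with_reducible apply IntF.snd | with_reducible apply IntF.app | with_reducible apply IntF.inl | with_reducible apply IntF.inr | with_reducible_and_instances apply IntF.mul | with_reducible_and_instances apply IntF.inv | with_reducible_and_instances apply IntF.add | with_reducible_and_instances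 apply IntF.sub | with_reducible_and_instances apply IntF.neg | with_reducible_and_instances apply IntF.smul | with_reducible apply Int.fin | with_reducible apply IntF.sep | with_reducible apply IntF.lam | with_reducible apply IntF.insert | with_reducible apply IntF.singleton | with_reducible apply IntF.union | with_reducible apply IntF.iimage | with_reducible apply IntF.ite | with_reducible apply IntF.the | with_reducible apply IntF.irec | with_reducible apply IntF.succ | with_reducible apply IntF.val | with_reducible apply IntF.mk | (with_reducible refine Int.comp ?_ ?_; assumption) | (with_reducible refine Int.comp₂ ?_ ?_ ?_; assumption) | (with_reducible refine Int.comp₃ ?_ ?_ ?_ ?_; assumption) | (with_reducible refine Int.comp₄ ?_ ?_ ?_ ?_ ?_; assumption) | (with_reducible refine IntF.comp ?_ ?_; assumption) | (with_reducible refine IntF.comp₂ ?_ ?_ ?_; assumption) | (with_reducible refine IntF.comp₃ ?_ ?_ ?_ ?_; assumption) | with_reducible apply IntF.pair)))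
    have hm : ∀ Z, Z ∈ sep N (fun Z : IPow N α => ZS r P O Z ∧ ∃ F1, F1 ∈ F ∧ ∀ s, s ∈ F1 →
        s ∈ C → s ∈ Z) ↔ ZS r P O Z ∧ ∃ F1, F1 ∈ F ∧ ∀ s, s ∈ F1 → s ∈ C → s ∈ Z :=
      fun Z => mem_sep hG
    obtain ⟨a, ha⟩ := hF.1.ne
    obtain ⟨F0, hF0, rfl⟩ := mem_codeB.1 ha
    have hCG : C ∈ sep N (fun Z : IPow N α => ZS r P O Z ∧ ∃ F1, F1 ∈ F ∧ ∀ s, s ∈ F1 →
        s ∈ C → s ∈ Z) := (hm C).2 ⟨hC, F0, hF0, fun s _ h => h⟩
    refine mem_codeQ.1 (hF.2 (code (sep N (fun Z : IPow N α => ZS r P O Z ∧ ∃ F1, F1 ∈ F ∧
      ∀ s, s ∈ F1 → s ∈ C → s ∈ Z))) ⟨⟨_, mem_codeQ.2 hCG⟩, fun a ha => ?_, fun a b c ha hb hc => ?_,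
      fun a b ha hb hab => ?_⟩ (fun a ha => ?_) _ (mem_codeQ.2 hCG))
    · obtain ⟨Z, hZ, rfl⟩ := mem_codeB.1 ha
      obtain ⟨k1, F1, k2, k3⟩ := (hm Z).1 hZ
      obtain ⟨s, k4, k5⟩ := hdis F1 k2
      exact ⟨(zs_iff hS).2 k1, _, mem_codeQ.2 (k3 s k4 k5)⟩
    · obtain ⟨Z, hZ, rfl⟩ := mem_codeB.1 ha
      obtain ⟨Z', hZ', rfl⟩ := mem_codeB.1 hb
      obtain ⟨k1, F1, k2, k3⟩ := (hm Z).1 hZ
      obtain ⟨k1', F1', k2', k3'⟩ := (hm Z').1 hZ'
      obtain ⟨Z'', rfl⟩ := exists_codeB (α := α) (u := c) fun z hz => by
        obtain ⟨s, -, h6⟩ := mem_codeB.1 ((hc z).1 hz).1
        exact ⟨s, h6⟩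
      have k4 : ∀ s, s ∈ Z'' ↔ s ∈ Z ∧ s ∈ Z' := fun s => by
        have := hc (code s)
        rw [mem_codeQ, mem_codeQ, mem_codeQ] at this
        exact this
      have hI : Int N (fun s : α => s ∈ F1 ∧ s ∈ F1') := by (repeat' (first | with_reducible exact IntF.id | with_reducible exact IntF.fst' | with_reducible exact IntF.snd' | with_reducible exact IntF.const _ | with_reducible exact Int.const _ | assumption | with_reducible apply Int.and | with_reducible apply Int.or | with_reducible apply Int.not | with_reducible apply Int.imp | with_reducible apply Int.iff | with_reducible apply Int.ne | with_reducible apply Int.eq | with_reducible apply Int.mem | with_reducible apply Int.subset | with_reducible apply Int.ltN | with_reducible apply Int.leN | with_reducible_and_instances apply Int.le | with_reducible_and_instances apply Int.lt | with_reducible apply Int.all | with_reducible apply Int.ex | with_reducible apply IntF.fst | with_reducible apply IntF.snd | with_reducible apply IntF.app | with_reducible apply IntF.inl | with_reducible apply IntF.inr | with_reducible_and_instances apply IntF.mul | with_reducible_and_instances apply IntF.inv | with_reducible_and_instances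 apply IntF.add | with_reducible_and_instances apply IntF.sub | with_reducible_and_instances apply IntF.neg | with_reducible_and_instances apply IntF.smul | with_reducible apply Int.fin | with_reducible apply IntF.sep | with_reducible apply IntF.lam | with_reducible apply IntF.insert | with_reducible apply IntF.singleton | with_reducible apply IntF.union | with_reducible apply IntF.iimage | with_reducible apply IntF.ite | with_reducible apply IntF.the | with_reducible apply IntF.irec | with_reducible apply IntF.succ | with_reducible apply IntF.val | with_reducible apply IntF.mk | (with_reducible refine Int.comp ?_ ?_; assumption) | (with_reducible refine Int.comp₂ ?_ ?_ ?_; assumption) | (with_reducible refine Int.comp₃ ?_ ?_ ?_ ?_; assumption) | (with_reducible refine Int.comp₄ ?_ ?_ ?_ ?_ ?_; assumption) | (with_reducible refine IntF.comp ?_ ?_; assumption) | (with_reducible refine IntF.comp₂ ?_ ?_ ?_; assumption) | (with_reducible refine IntF.comp₃ ?_ ?_ ?_ ?_; assumption) | with_reducible apply IntF.pair))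
      have k5 : sep N (fun s : α => s ∈ F1 ∧ s ∈ F1') ∈ F := mem_codeQ.1 (hF.1.inter _ _ _
        (mem_codeQ.2 k2) (mem_codeQ.2 k2') fun z => by
          constructor
          · intro hz
            obtain ⟨s, hs, rfl⟩ := mem_codeB.1 hz
            have := (mem_sep hI).1 hs
            exact ⟨mem_codeQ.2 this.1, mem_codeQ.2 this.2⟩
          · rintro ⟨hz, hz'⟩
            obtain ⟨s, hs, rfl⟩ := mem_codeB.1 hz
            exact mem_codeQ.2 ((mem_sep hI).2 ⟨hs, mem_codeQ.1 hz'⟩))
      exact mem_codeQ.2 ((hm Z'').2 ⟨zs_inter hr hS k1 k1' k4, _, k5, fun s hs hsC =>
        (k4 s).2 ⟨k3 s ((mem_sep hI).1 hs).1 hsC, k3' s ((mem_sep hI).1 hs).2 hsC⟩⟩)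
    · obtain ⟨Z, hZ, rfl⟩ := mem_codeB.1 ha
      obtain ⟨k1, F1, k2, k3⟩ := (hm Z).1 hZ
      obtain ⟨Z', rfl, -⟩ := exists_sub hS (u := b) hb.1
      exact mem_codeQ.2 ((hm Z').2 ⟨(zs_iff hS).1 hb, F1, k2, fun s hs hsC =>
        mem_codeQ.1 (hab _ (mem_codeQ.2 (k3 s hs hsC)))⟩)
    · obtain ⟨Z, hZ, rfl⟩ := mem_codeB.1 ha
      exact mem_codeQ.2 ((hm Z).2 ⟨(zs_iff hS).1 (hF.1.mem _ (mem_codeQ.2 hZ)).1, Z, hZ,
        fun s hs _ => hs⟩)

end

end Pool.Agent.V11257Z
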