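import Pool.Agent.V11257.Zs2

/-!
# The space without the last point: z-ultrafilters
-/

set_option maxHeartbeats 1000000
set_option linter.all false
set_option synthInstance.maxSize 2000

namespace Pool.Agent.V11257Z

open FirstOrder FirstOrder.Language
open Pool.Agent.Helper672
open Pool.Agent.Helper672.ZFA
open Pool.Agent.Helper672.ZFA.V246
open Pool.Agent.Helper672.Plain (LSet)
open Pool.Agent.H310
open Pool.Agent.H310Cards
open Pool.Agent.H310Top (IsTopology)
open Pool.Agent.H635Amen (IsReals)
open Pool.Agent.V11246

universe u

section

attribute [local instance] Helper672.Plain.toL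

variable {N : Type u} [LSet.Structure N] [hZ : Helper672.Plain.Zermelo N]

local instance instModelZs3 : IsModel N := Helper672.Plain.isModel_toL

noncomputable local instance instPElZs3 (x : N) : ITy N (Helper672.Plain.El x) :=
  (inferInstance : ITy N (El x))

variable {α : Type u} [ITy N α]
variable {D : INat N × (α × α) → Prop} {fb : α → INat N} (h : ZT N D fb)
variable {r : N} [Field (Plain.El r)] [LinearOrder (Plain.El r)]
  [IsStrictOrderedRing (Plain.El r)]

include h

/-- The z-ultrafilters with the countable intersection property are fixed. -/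
theorem zu_fixed (hr : IsReals r) {F : N}
    (hF : IsZUltra r (ts (OP D fb PB)) (xs (N := N) (PB (N := N) (α := α))) F)
    (hcip : HasCip F) : IsFixed F := by
  have hB := int_PB (N := N) (α := α)
  have hS := spO h hB
  have hlep := h.int_lep
  obtain ⟨F, rfl⟩ := exists_codeB (α := IPow N (Pt N α)) (u := F) fun z hz => by
    obtain ⟨Z, h1, -⟩ := exists_sub hS (u := z) (hF.1.mem z hz).1.1
    exact ⟨Z, h1⟩
  have hmem : ∀ Z, Z ∈ F → ZS r PB (OP D fb PB) Z ∧ ∃ s, s ∈ Z := fun Z hZ => by
    obtain ⟨h1, z, h2⟩ := hF.1.mem _ (mem_codeQ.2 hZ)
    obtain ⟨s, hs, -⟩ := mem_codeB.1 h2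
    exact ⟨(zs_iff hS).1 h1, s, hs⟩
  have hup : ∀ Z Z', Z ∈ F → ZS r PB (OP D fb PB) Z' → (∀ s, s ∈ Z → s ∈ Z') → Z' ∈ F :=
    fun Z Z' h1 h2 h3 => mem_codeQ.1 (hF.1.up _ _ (mem_codeQ.2 h1) ((zs_iff hS).2 h2)
      fun z hz => by
        obtain ⟨s, hs, rfl⟩ := mem_codeB.1 hz
        exact mem_codeQ.2 (h3 s hs))
  have hint : ∀ Z Z' Z'', Z ∈ F → Z' ∈ F → (∀ s, s ∈ Z'' ↔ s ∈ Z ∧ s ∈ Z') → Z'' ∈ F := by
    intro Z Z' Z'' h1 h2 h3
    refine mem_codeQ.1 (hF.1.inter _ _ _ (mem_codeQ.2 h1) (mem_codeQ.2 h2) fun z => ?_)
    constructor
    · intro hz
      obtain ⟨s, hs, rfl⟩ := mem_codeB.1 hz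
      exact ⟨mem_codeQ.2 ((h3 s).1 hs).1, mem_codeQ.2 ((h3 s).1 hs).2⟩
    · rintro ⟨hz, hz'⟩
      obtain ⟨s, hs, rfl⟩ := mem_codeB.1 hz
      exact mem_codeQ.2 ((h3 s).2 ⟨hs, mem_codeQ.1 hz'⟩)
  obtain ⟨F0, hF0⟩ : ∃ F0, F0 ∈ F := by
    obtain ⟨a, ha⟩ := hF.1.ne
    obtain ⟨F0, hF0, -⟩ := mem_codeB.1 ha
    exact ⟨F0, hF0⟩
  -- the initial segments
  have g1 : Int N (fun q : α × Pt N α => lep D fb q.2 q.1) := Int.comp
    (p := fun q : Pt N α × α => lep D fb q.1 q.2)
    (f := fun q : α × Pt N α => (q.2, q.1)) hlep (by (repeat' (first | with_reducible exact IntF.id | with_reducible exact IntF.fst' | with_reducible exact IntF.snd' | with_reducible exact IntF.const _ | with_reducible exact Int.const _ | assumption | with_reducible apply Int.and | with_reducible apply Int.or | with_reducible apply Int.not | with_reducible apply Int.imp | with_reducible apply Int.iff | with_reducible apply Int.ne | with_reducible apply Int.eq | with_reducible apply Int.mem | with_reducible apply Int.subset | with_reducible apply Int.ltN | with_reducible apply Int.leN | with_reducible_and_instances apply Int.le | with_reducible_and_instances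 apply Int.lt | with_reducible apply Int.all | with_reducible apply Int.ex | with_reducible apply IntF.fst | with_reducible apply IntF.snd | with_reducible apply IntF.app | with_reducible apply IntF.inl | with_reducible apply IntF.inr | with_reducible_and_instances apply IntF.mul | with_reducible_and_instances apply IntF.inv | with_reducible_and_instances apply IntF.add | with_reducible_and_instances apply IntF.sub | with_reducible_and_instances apply IntF.neg | with_reducible_and_instances apply IntF.smul | with_reducible apply Int.fin | with_reducible apply IntF.sep | with_reducible apply IntF.lam | with_reducible apply IntF.insert | with_reducible apply IntF.singleton | with_reducible apply IntF.union | with_reducible apply IntF.iimage | with_reducible apply IntF.ite | with_reducible apply IntF.the | with_reducible apply IntF.irec | with_reducible apply IntF.succ | with_reducible apply IntF.val | with_reducible apply IntF.mk | (with_reducible refine Int.comp ?_ ?_; assumption) | (with_reducible refine Int.comp₂ ?_ ?_ ?_; assumption) | (with_reducible refine Int.comp₃ ?_ ?_ ?_ ?_; assumption) | (with_reducible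 refine Int.comp₄ ?_ ?_ ?_ ?_ ?_; assumption) | (with_reducible refine IntF.comp ?_ ?_; assumption) | (with_reducible refine IntF.comp₂ ?_ ?_ ?_; assumption) | (with_reducible refine IntF.comp₃ ?_ ?_ ?_ ?_; assumption) | with_reducible apply IntF.pair)))
  have g2 : Int N (fun q : α × Pt N α => PB q.2) := Int.comp (p := PB)
    (f := fun q : α × Pt N α => q.2) hB (by (repeat' (first | with_reducible exact IntF.id | with_reducible exact IntF.fst' | with_reducible exact IntF.snd' | with_reducible exact IntF.const _ | with_reducible exact Int.const _ | assumption | with_reducible apply Int.and | with_reducible apply Int.or | with_reducible apply Int.not | with_reducible apply Int.imp | with_reducible apply Int.iff | with_reducible apply Int.ne | with_reducible apply Int.eq | with_reducible apply Int.mem | with_reducible apply Int.subset | with_reducible apply Int.ltN | with_reducible apply Int.leN | with_reducible_and_instances apply Int.le | with_reducible_and_instances apply Int.lt | with_reducible apply Int.all | with_reducible apply Int.ex | with_reducible apply IntF.fst | with_reducible apply IntF.snd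 | with_reducible apply IntF.app | with_reducible apply IntF.inl | with_reducible apply IntF.inr | with_reducible_and_instances apply IntF.mul | with_reducible_and_instances apply IntF.inv | with_reducible_and_instances apply IntF.add | with_reducible_and_instances apply IntF.sub | with_reducible_and_instances apply IntF.neg | with_reducible_and_instances apply IntF.smul | with_reducible apply Int.fin | with_reducible apply IntF.sep | with_reducible apply IntF.lam | with_reducible apply IntF.insert | with_reducible apply IntF.singleton | with_reducible apply IntF.union | with_reducible apply IntF.iimage | with_reducible apply IntF.ite | with_reducible apply IntF.the | with_reducible apply IntF.irec | with_reducible apply IntF.succ | with_reducible apply IntF.val | with_reducible apply IntF.mk | (with_reducible refine Int.comp ?_ ?_; assumption) | (with_reducible refine Int.comp₂ ?_ ?_ ?_; assumption) | (with_reducible refine Int.comp₃ ?_ ?_ ?_ ?_; assumption) | (with_reducible refine Int.comp₄ ?_ ?_ ?_ ?_ ?_; assumption) | (with_reducible refine IntF.comp ?_ ?_; assumption) | (with_reducible refine IntF.comp₂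 ?_ ?_ ?_; assumption) | (with_reducible refine IntF.comp₃ ?_ ?_ ?_ ?_; assumption) | with_reducible apply IntF.pair)))
  have g3 : Int N (fun q : α × Pt N α => PB q.2 ∧ lep D fb q.2 q.1) := g2.and g1
  have g4 : Int N (fun q : α × Pt N α => PB q.2 ∧ ¬ lep D fb q.2 q.1) := g2.and g1.not
  have hI : ∀ x : α, Int N (fun z : Pt N α => PB z ∧ lep D fb z x) := fun x =>
    Int.comp (p := fun q : α × Pt N α => PB q.2 ∧ lep D fb q.2 q.1)
      (f := fun z => (x, z)) g3 (by (repeat' (first | with_reducible exact IntF.id | with_reducible exact IntF.fst' | with_reducible exact IntF.snd' | with_reducible exact IntF.const _ | with_reducible exact Int.const _ | assumption | with_reducible apply Int.and | with_reducible apply Int.or | with_reducible apply Int.not | with_reducible apply Int.imp | with_reducible apply Int.iff | with_reducible apply Int.ne | with_reducible apply Int.eq | with_reducible apply Int.mem | with_reducible apply Int.subset | with_reducible apply Int.ltN | with_reducible apply Int.leN | with_reducible_and_instances apply Int.le | with_reducible_and_instances apply Int.lt | with_reducible apply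 Int.all | with_reducible apply Int.ex | with_reducible apply IntF.fst | with_reducible apply IntF.snd | with_reducible apply IntF.app | with_reducible apply IntF.inl | with_reducible apply IntF.inr | with_reducible_and_instances apply IntF.mul | with_reducible_and_instances apply IntF.inv | with_reducible_and_instances apply IntF.add | with_reducible_and_instances apply IntF.sub | with_reducible_and_instances apply IntF.neg | with_reducible_and_instances apply IntF.smul | with_reducible apply Int.fin | with_reducible apply IntF.sep | with_reducible apply IntF.lam | with_reducible apply IntF.insert | with_reducible apply IntF.singleton | with_reducible apply IntF.union | with_reducible apply IntF.iimage | with_reducible apply IntF.ite | with_reducible apply IntF.the | with_reducible apply IntF.irec | with_reducible apply IntF.succ | with_reducible apply IntF.val | with_reducible apply IntF.mk | (with_reducible refine Int.comp ?_ ?_; assumption) | (with_reducible refine Int.comp₂ ?_ ?_ ?_; assumption) | (with_reducible refine Int.comp₃ ?_ ?_ ?_ ?_; assumption) | (with_reducible refine Int.comp₄ ?_ ?_ ?_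 ?_ ?_; assumption) | (with_reducible refine IntF.comp ?_ ?_; assumption) | (with_reducible refine IntF.comp₂ ?_ ?_ ?_; assumption) | (with_reducible refine IntF.comp₃ ?_ ?_ ?_ ?_; assumption) | with_reducible apply IntF.pair)))
  have hI' : ∀ x : α, Int N (fun z : Pt N α => PB z ∧ ¬ lep D fb z x) := fun x =>
    Int.comp (p := fun q : α × Pt N α => PB q.2 ∧ ¬ lep D fb q.2 q.1)
      (f := fun z => (x, z)) g4 (by (repeat' (first | with_reducible exact IntF.id | with_reducible exact IntF.fst' | with_reducible exact IntF.snd' | with_reducible exact IntF.const _ | with_reducible exact Int.const _ | assumption | with_reducible apply Int.and | with_reducible apply Int.or | with_reducible apply Int.not | with_reducible apply Int.imp | with_reducible apply Int.iff | with_reducible apply Int.ne | with_reducible apply Int.eq | with_reducible apply Int.mem | with_reducible apply Int.subset | with_reducible apply Int.ltN | with_reducible apply Int.leN | with_reducible_and_instances apply Int.le | with_reducible_and_instances apply Int.lt | with_reducible apply Int.all | with_reducible apply Int.ex | with_reducible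 apply IntF.fst | with_reducible apply IntF.snd | with_reducible apply IntF.app | with_reducible apply IntF.inl | with_reducible apply IntF.inr | with_reducible_and_instances apply IntF.mul | with_reducible_and_instances apply IntF.inv | with_reducible_and_instances apply IntF.add | with_reducible_and_instances apply IntF.sub | with_reducible_and_instances apply IntF.neg | with_reducible_and_instances apply IntF.smul | with_reducible apply Int.fin | with_reducible apply IntF.sep | with_reducible apply IntF.lam | with_reducible apply IntF.insert | with_reducible apply IntF.singleton | with_reducible apply IntF.union | with_reducible apply IntF.iimage | with_reducible apply IntF.ite | with_reducible apply IntF.the | with_reducible apply IntF.irec | with_reducible apply IntF.succ | with_reducible apply IntF.val | with_reducible apply IntF.mk | (with_reducible refine Int.comp ?_ ?_; assumption) | (with_reducible refine Int.comp₂ ?_ ?_ ?_; assumption) | (with_reducible refine Int.comp₃ ?_ ?_ ?_ ?_; assumption) | (with_reducible refine Int.comp₄ ?_ ?_ ?_ ?_ ?_; assumption) | (with_reducible refine IntF.comp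 ?_ ?_; assumption) | (with_reducible refine IntF.comp₂ ?_ ?_ ?_; assumption) | (with_reducible refine IntF.comp₃ ?_ ?_ ?_ ?_; assumption) | with_reducible apply IntF.pair)))
  have hf : IntF N (fun x : α => sep N fun z : Pt N α => PB z ∧ lep D fb z x) := IntF.sep g3
  have hO : ∀ x, OP D fb PB (sep N fun z : Pt N α => PB z ∧ lep D fb z x) := fun x =>
    op_itv (l := Sum.inr 0) (u := Sum.inl x) fun s => (mem_sep (hI x)).trans
      ⟨fun h1 => ⟨h1.1, gt_inr, leo_inl.2 h1.2⟩, fun h1 => ⟨h1.1, leo_inl.1 h1.2.2⟩⟩
  have hO' : ∀ x, OP D fb PB (sep N fun z : Pt N α => PB z ∧ ¬ lep D fb z x) := fun x =>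
    op_itv (l := Sum.inl x) (u := Sum.inr 0) fun s => (mem_sep (hI' x)).trans
      ⟨fun h1 => ⟨h1.1, gt_inl.2 h1.2, leo_inr⟩, fun h1 => ⟨h1.1, gt_inl.1 h1.2.1⟩⟩
  have hcc : ∀ x s, s ∈ (sep N fun z : Pt N α => PB z ∧ ¬ lep D fb z x) ↔
      PB s ∧ s ∉ (sep N fun z : Pt N α => PB z ∧ lep D fb z x) := fun x s => by
    rw [mem_sep (hI' x), mem_sep (hI x)]
    exact ⟨fun h1 => ⟨h1.1, fun h2 => h1.2 h2.2⟩, fun h1 => ⟨h1.1, fun h2 => h1.2 ⟨h1.1, h2⟩⟩⟩
  have hcc' : ∀ x s, s ∈ (sep N fun z : Pt N α => PB z ∧ lep D fb z x) ↔
      PB s ∧ s ∉ (sep N fun z : Pt N α => PB z ∧ ¬ lep D fb z x) := fun x s => by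
    rw [mem_sep (hI' x), mem_sep (hI x)]
    refine ⟨fun h1 => ⟨h1.1, fun h2 => h2.2 h1.2⟩, fun h1 => ⟨h1.1, ?_⟩⟩
    by_contra h2
    exact h1.2 ⟨h1.1, h2⟩
  have hφ : Int N (fun x : α => (sep N fun z : Pt N α => PB z ∧ lep D fb z x) ∈ F) :=
    Int.comp (p := fun Z : IPow N (Pt N α) => Z ∈ F) (by (repeat' (first | with_reducible exact IntF.id | with_reducible exact IntF.fst' | with_reducible exact IntF.snd' | with_reducible exact IntF.const _ | with_reducible exact Int.const _ | assumption | with_reducible apply Int.and | with_reducible apply Int.or | with_reducible apply Int.not | with_reducible apply Int.imp | with_reducible apply Int.iff | with_reducible apply Int.ne | with_reducible apply Int.eq | with_reducible apply Int.mem | with_reducible apply Int.subset | with_reducible apply Int.ltN | with_reducible apply Int.leN | with_reducible_and_instances apply Int.le | with_reducible_and_instances apply Int.lt | with_reducible apply Int.all | with_reducible apply Int.ex | with_reducible apply IntF.fst | with_reducible apply IntF.snd | with_reducible apply IntF.app | with_reducible apply IntF.inl |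 with_reducible apply IntF.inr | with_reducible_and_instances apply IntF.mul | with_reducible_and_instances apply IntF.inv | with_reducible_and_instances apply IntF.add | with_reducible_and_instances apply IntF.sub | with_reducible_and_instances apply IntF.neg | with_reducible_and_instances apply IntF.smul | with_reducible apply Int.fin | with_reducible apply IntF.sep | with_reducible apply IntF.lam | with_reducible apply IntF.insert | with_reducible apply IntF.singleton | with_reducible apply IntF.union | with_reducible apply IntF.iimage | with_reducible apply IntF.ite | with_reducible apply IntF.the | with_reducible apply IntF.irec | with_reducible apply IntF.succ | with_reducible apply IntF.val | with_reducible apply IntF.mk | (with_reducible refine Int.comp ?_ ?_; assumption) | (with_reducible refine Int.comp₂ ?_ ?_ ?_; assumption) | (with_reducible refine Int.comp₃ ?_ ?_ ?_ ?_; assumption) | (with_reducible refine Int.comp₄ ?_ ?_ ?_ ?_ ?_; assumption) | (with_reducible refine IntF.comp ?_ ?_; assumption) | (with_reducible refine IntF.comp₂ ?_ ?_ ?_; assumption) | (with_reducible refine IntF.comp₃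 ?_ ?_ ?_ ?_; assumption) | with_reducible apply IntF.pair))) hf
  have hzC : ∀ x, ZS r PB (OP D fb PB) (sep N fun z : Pt N α => PB z ∧ lep D fb z x) := fun x =>
    zs_clopen hS (hO x) (hO' x) (hcc x)
  have hmono : ∀ x y, (sep N fun z : Pt N α => PB z ∧ lep D fb z x) ∈ F → pre D fb x y →
      (sep N fun z : Pt N α => PB z ∧ lep D fb z y) ∈ F := fun x y h1 h2 =>
    hup _ _ h1 (hzC y) fun s hs => (mem_sep (hI y)).2 ⟨((mem_sep (hI x)).1 hs).1,
      h.lep_mono ((mem_sep (hI x)).1 hs).2 h2⟩
  obtain ⟨z, hz⟩ := h.cut hφ hmono
  have hneg : ∀ x, ¬ lep D fb z x → (sep N fun z : Pt N α => PB z ∧ ¬ lep D fb z x) ∈ F :=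
    fun x hx => (zu_clopen hr hS hF (hO x) (hO' x) (hcc x)).resolve_left fun h1 =>
      hx ((hz x).1 h1)
  by_cases hz0 : z = Sum.inl 0
  · exfalso
    subst hz0
    have hTT : Int N (fun q : INat N × Pt N α => TT PB D fb q.1 q.2) := int_TT h hB
    have hTn : ∀ n, Int N (TT PB D fb n) := fun n => int_TT' h hB n
    have hT : ∀ n : INat N, sep N (TT PB D fb n) ∈ F := by
      intro n
      obtain ⟨x, hx⟩ := h.ne n.succ
      obtain ⟨f, k1, k2, k3⟩ := exists_TF h hB hr n
      refine hup _ _ (hneg x not_lep_zero) ⟨fun s hs => ((mem_sep (hTn n)).1 hs).1, ⟨f, k1⟩, k2,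
        fun s hs => ?_⟩ fun s hs => (mem_sep (hTn n)).2 ⟨((mem_sep (hI' x)).1 hs).1,
          fun y hy => ?_⟩
      · rw [mem_sep (hTn n)]
        exact k3 s hs
      · by_contra h2
        rw [not_le] at h2
        exact ((mem_sep (hI' x)).1 hs).2 (h.lep_mono hy (Or.inl (hx.symm ▸ h2)))
    have hfT : IntF N (fun n : INat N => sep N fun z : Pt N α => TT PB D fb n z) :=
      IntF.sep hTT
    have hIm : Int N (fun V : IPow N (Pt N α) => ∃ n : INat N, True ∧
        (sep N fun z : Pt N α => TT PB D fb n z) = V) := by
      have g : Int N (fun q : IPow N (Pt N α) × INat N => True ∧ (sep N fun z : Pt N α =>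
          TT PB D fb q.2 z) = q.1) :=
        (Int.const _).and (Int.eq (IntF.comp (f := fun q : IPow N (Pt N α) × INat N => q.2) hfT
          IntF.snd') IntF.fst')
      exact Int.ex g
    have hmm : ∀ V : IPow N (Pt N α), V ∈ sep N (fun V : IPow N (Pt N α) => ∃ n : INat N, True ∧
        (sep N fun z : Pt N α => TT PB D fb n z) = V) ↔ ∃ n : INat N, True ∧
        (sep N fun z : Pt N α => TT PB D fb n z) = V := fun V => mem_sep hIm
    obtain ⟨w, hw⟩ := hcip (code (sep N (fun V : IPow N (Pt N α) => ∃ n : INat N, True ∧
        (sep N fun z : Pt N α => TT PB D fb n z) = V)))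
      (isCtble_of_ctb ((Ctb.image (P := fun _ : INat N => True) (Int.const _) Ctb.nat hfT).mono
        fun V hV => (hmm V).1 hV)) ⟨_, mem_codeQ.2 ((hmm _).2 ⟨0, trivial, rfl⟩)⟩
      (fun u hu => by
        obtain ⟨V, hV, rfl⟩ := mem_codeB.1 hu
        obtain ⟨n, -, rfl⟩ := (hmm V).1 hV
        exact mem_codeQ.2 (hT n))
    obtain ⟨s, hs, rfl⟩ := mem_codeB.1 (hw _ (mem_codeQ.2 ((hmm _).2 ⟨0, trivial, rfl⟩)))
    have h2 : ∀ n : INat N, TT PB D fb n s := fun n => (mem_sep (hTn n)).1
      (mem_codeQ.1 (hw _ (mem_codeQ.2 ((hmm _).2 ⟨n, trivial, rfl⟩))))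
    obtain ⟨x, hx⟩ : ∃ x, lep D fb s x := by
      rcases s with n | y
      · rcases INat.eq_zero_or_succ n with rfl | ⟨k, rfl⟩
        · exact absurd rfl (h2 0).1
        · obtain ⟨x, hx⟩ := h.ne k
          exact ⟨x, lep_inl.2 hx.symm.le⟩
      · exact ⟨y, lep_inr.2 (h.pre_refl y)⟩
    have h3 := (h2 (fb x)).2 x hx
    exact absurd (lt_of_lt_of_le (INat.lt_succ_self _) h3) (lt_irrefl _)
  · -- fixed at `z`
    refine ⟨code z, fun u hu => ?_⟩
    obtain ⟨Z, hZ, rfl⟩ := mem_codeB.1 hu
    refine mem_codeQ.2 ?_
    by_contra hzZ
    obtain ⟨⟨k1, f, k2, k3⟩, -⟩ := hmem Z hZ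
    have k4 : f z ≠ 0 := fun k5 => hzZ ((k3 z hz0).2 k5)
    obtain ⟨U, k5, k6, k7⟩ := k2 z hz0 |f z| (abs_pos.2 k4)
    obtain ⟨l, v, k8, k9, k10⟩ := k5.2 z k6
    have h1 : ∃ F1, F1 ∈ F ∧ ∀ w, w ∈ F1 → gt D fb w l := by
      rcases l with x | m
      · exact ⟨_, hneg x (gt_inl.1 k8), fun w hw => gt_inl.2 ((mem_sep (hI' x)).1 hw).2⟩
      · exact ⟨F0, hF0, fun w _ => gt_inr⟩
    have h2 : ∃ F1, F1 ∈ F ∧ ∀ w, w ∈ F1 → leo D fb w v := by
      rcases v with x | m
      · exact ⟨_, (hz x).2 (leo_inl.1 k9), fun w hw => leo_inl.2 ((mem_sep (hI x)).1 hw).2⟩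
      · exact ⟨F0, hF0, fun w _ => leo_inr⟩
    obtain ⟨F1, m1, m2⟩ := h1
    obtain ⟨F2, m3, m4⟩ := h2
    have hJ : Int N (fun s : Pt N α => s ∈ F1 ∧ s ∈ F2) := by (repeat' (first | with_reducible exact IntF.id | with_reducible exact IntF.fst' | with_reducible exact IntF.snd' | with_reducible exact IntF.const _ | with_reducible exact Int.const _ | assumption | with_reducible apply Int.and | with_reducible apply Int.or | with_reducible apply Int.not | with_reducible apply Int.imp | with_reducible apply Int.iff | with_reducible apply Int.ne | with_reducible apply Int.eq | with_reducible apply Int.mem | with_reducible apply Int.subset | with_reducible apply Int.ltN | with_reducible apply Int.leN | with_reducible_and_instances apply Int.le | with_reducible_and_instances apply Int.lt | with_reducible apply Int.all | with_reducible apply Int.ex | with_reducible apply IntF.fst | with_reducible apply IntF.snd | with_reducible apply IntF.app | with_reducible apply IntF.inl | with_reducible apply IntF.inr | with_reducible_and_instances apply IntF.mul | with_reducible_and_instances apply IntF.inv | with_reducible_and_instances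 apply IntF.add | with_reducible_and_instances apply IntF.sub | with_reducible_and_instances apply IntF.neg | with_reducible_and_instances apply IntF.smul | with_reducible apply Int.fin | with_reducible apply IntF.sep | with_reducible apply IntF.lam | with_reducible apply IntF.insert | with_reducible apply IntF.singleton | with_reducible apply IntF.union | with_reducible apply IntF.iimage | with_reducible apply IntF.ite | with_reducible apply IntF.the | with_reducible apply IntF.irec | with_reducible apply IntF.succ | with_reducible apply IntF.val | with_reducible apply IntF.mk | (with_reducible refine Int.comp ?_ ?_; assumption) | (with_reducible refine Int.comp₂ ?_ ?_ ?_; assumption) | (with_reducible refine Int.comp₃ ?_ ?_ ?_ ?_; assumption) | (with_reducible refine Int.comp₄ ?_ ?_ ?_ ?_ ?_; assumption) | (with_reducible refine IntF.comp ?_ ?_; assumption) | (with_reducible refine IntF.comp₂ ?_ ?_ ?_; assumption) | (with_reducible refine IntF.comp₃ ?_ ?_ ?_ ?_; assumption) | with_reducible apply IntF.pair))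
    have m5 : (sep N fun s : Pt N α => s ∈ F1 ∧ s ∈ F2) ∈ F := hint _ _ _ m1 m3 fun s => mem_sep hJ
    have hJ' : Int N (fun s : Pt N α => s ∈ (sep N fun s : Pt N α => s ∈ F1 ∧ s ∈ F2) ∧ s ∈ Z) := by
      (repeat' (first | with_reducible exact IntF.id | with_reducible exact IntF.fst' | with_reducible exact IntF.snd' | with_reducible exact IntF.const _ | with_reducible exact Int.const _ | assumption | with_reducible apply Int.and | with_reducible apply Int.or | with_reducible apply Int.not | with_reducible apply Int.imp | with_reducible apply Int.iff | with_reducible apply Int.ne | with_reducible apply Int.eq | with_reducible apply Int.mem | with_reducible apply Int.subset | with_reducible apply Int.ltN | with_reducible apply Int.leN | with_reducible_and_instances apply Int.le | with_reducible_and_instances apply Int.lt | with_reducible apply Int.all | with_reducible apply Int.ex | with_reducible apply IntF.fst | with_reducible apply IntF.snd | with_reducible apply IntF.app | with_reducible apply IntF.inl | with_reducible apply IntF.inr | with_reducible_and_instances apply IntF.mul | with_reducible_and_instances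 apply IntF.inv | with_reducible_and_instances apply IntF.add | with_reducible_and_instances apply IntF.sub | with_reducible_and_instances apply IntF.neg | with_reducible_and_instances apply IntF.smul | with_reducible apply Int.fin | with_reducible apply IntF.sep | with_reducible apply IntF.lam | with_reducible apply IntF.insert | with_reducible apply IntF.singleton | with_reducible apply IntF.union | with_reducible apply IntF.iimage | with_reducible apply IntF.ite | with_reducible apply IntF.the | with_reducible apply IntF.irec | with_reducible apply IntF.succ | with_reducible apply IntF.val | with_reducible apply IntF.mk | (with_reducible refine Int.comp ?_ ?_; assumption) | (with_reducible refine Int.comp₂ ?_ ?_ ?_; assumption) | (with_reducible refine Int.comp₃ ?_ ?_ ?_ ?_; assumption) | (with_reducible refine Int.comp₄ ?_ ?_ ?_ ?_ ?_; assumption) | (with_reducible refine IntF.comp ?_ ?_; assumption) | (with_reducible refine IntF.comp₂ ?_ ?_ ?_; assumption) | (with_reducible refine IntF.comp₃ ?_ ?_ ?_ ?_; assumption) | with_reducible apply IntF.pair))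
    have m6 : (sep N fun s : Pt N α => s ∈ (sep N fun s : Pt N α => s ∈ F1 ∧ s ∈ F2) ∧ s ∈ Z) ∈ F :=
      hint _ _ _ m5 hZ fun s => mem_sep hJ'
    obtain ⟨-, s, hs⟩ := hmem _ m6
    obtain ⟨m7, m8⟩ := (mem_sep hJ').1 hs
    obtain ⟨m9, m10⟩ := (mem_sep hJ).1 m7
    have m11 := k7 s (k10 s (k1 s m8) (m2 s m9) (m4 s m10))
    beta_reduce at m11
    rw [(k3 s (k1 s m8)).1 m8, zero_sub, abs_neg] at m11
    exact lt_irrefl _ m11

end

section

attribute [local instance] Helper672.Plain.toL

variable {N : Type u} [LSet.Structure N] [hZ : Helper672.Plain.Zermelo N]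

local instance instModelZs3' : IsModel N := Helper672.Plain.isModel_toL

noncomputable local instance instPElZs3' (x : N) : ITy N (Helper672.Plain.El x) :=
  (inferInstance : ITy N (El x))

variable {a : N}
variable {D : INat N × (Plain.El a × Plain.El a) → Prop} {fb : Plain.El a → INat N}
  (h : ZT N D fb)

include h

theorem space_zu : ∃ x t : N, IsTopology t x ∧ IsTychonoff t x ∧
    (∀ (r : N) [Field (Plain.El r)] [LinearOrder (Plain.El r)] [IsStrictOrderedRing (Plain.El r)],
      IsReals r → ∀ F, IsZUltra r t x F → HasCip F → IsFixed F) ∧ ¬ IsRealcompact t x := by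
  have hB := int_PB (N := N) (α := Plain.El a)
  have hS := spO h hB
  exact ⟨xs (N := N) (PB (N := N) (α := Plain.El a)), ts (OP D fb PB), isTopology_ts hS,
    isTychonoff_ts h hB, fun r _ _ _ hr F hF hc => zu_fixed h hr hF hc, not_rco h⟩

end

section

attribute [local instance] Helper672.Plain.toL

theorem space_zu_of {N : Type u} [LSet.Structure N] [hZ : Helper672.Plain.Zermelo N]
    (hh : HasZT N) : ∃ x t : N, IsTopology t x ∧ IsTychonoff t x ∧
    (∀ (r : N) [Field (Plain.El r)] [LinearOrder (Plain.El r)] [IsStrictOrderedRing (Plain.El r)],
      IsReals r → ∀ F, IsZUltra r t x F → HasCip F → IsFixed F) ∧ ¬ IsRealcompact t x := by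
  letI : IsModel N := Helper672.Plain.isModel_toL
  obtain ⟨a, D, fb, hD⟩ := hh
  exact space_zu hD

end

end Pool.Agent.V11257Z
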