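import Pool.Agent.H310R3.PM5
import Pool.Agent.V11246.Zi

/-!
# A sequence of copies of the integers: the structure
-/

set_option maxHeartbeats 1000000
set_option linter.all false
set_option synthInstance.maxSize 2000

namespace Pool.Agent.V11257Z

open FirstOrder FirstOrder.Language
open Pool.Agent.Helper672.ZFA
open Pool.Agent.Helper672.ZFA.H635 (IPerm SymSys IG WFI FEq FMem tw Good feq_of_map feq_iff IsGen
  nd nd_eq mem_nd mem_nd_nd exists_mk mk_eq_nd EqFam NN nn_ext CollL nn_zf mem_NN)
open Pool.Agent.Helper672.ZFA.H310M
open Pool.Agent.Helper672.Plain (LSet)
open Pool.Agent.H310

universe u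

/-- The set `α` is the union of a sequence of sets, the fibres of `fb`, each of them a copy of the
set of the integers up to translations: `D (n, (x, y))` says that `y = x + n`. Every set is
invariant under the translations of almost all fibres. -/
structure ZT (N : Type u) [L.Structure N] [IsModel N] {α : Type u} [ITy N α]
    (D : INat N × (α × α) → Prop) (fb : α → INat N) : Prop where
  intD : Int N D
  intF : IntF N fb
  fib : ∀ (n : INat N) (x y : α), D (n, (x, y)) → fb x = fb y
  zero : ∀ x y : α, D (0, (x, y)) ↔ x = y
  succ : ∀ (n : INat N) (x y : α), D (n.succ, (x, y)) ↔ ∃ z, D (n, (x, z)) ∧ D ((0 : INat N).succ, (z, y))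
  up : ∀ x, ∃ y, D ((0 : INat N).succ, (x, y))
  down : ∀ y, ∃ x, D ((0 : INat N).succ, (x, y))
  upU : ∀ x y z, D ((0 : INat N).succ, (x, y)) → D ((0 : INat N).succ, (x, z)) → y = z
  downU : ∀ x y z, D ((0 : INat N).succ, (x, z)) → D ((0 : INat N).succ, (y, z)) → x = y
  total : ∀ x y, fb x = fb y → ∃ n, D (n, (x, y)) ∨ D (n, (y, x))
  acyc : ∀ (n : INat N) (x : α), ¬ D (n.succ, (x, x))
  ne : ∀ n, ∃ x, fb x = n
  hom : ∀ W : α → Prop, Int N W → ∃ n, ∀ x y, fb x = fb y → n ≤ fb x → W x → W y

variable {M : Type u} [L.Structure M] [hM : IsModel M]

variable (M) in
/-- The index set. -/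
abbrev Xz : Type u := INat M × IZ M

/-- The translations. -/
def Dz (q : INat M × (Xz M × Xz M)) : Prop :=
  q.2.1.1 = q.2.2.1 ∧ q.2.2.2 = q.2.1.2 + IZ.of q.1

theorem int_Dz : Int M (Dz (M := M)) := by
  unfold Dz
  have h1 : IntF M (fun q : INat M × (Xz M × Xz M) => IZ.of q.1) :=
    IntF.comp (f := fun q : INat M × (Xz M × Xz M) => q.1) IZ.intF_ofZ (by (repeat' (first | with_reducible exact IntF.id | with_reducible exact IntF.fst' | with_reducible exact IntF.snd' | with_reducible exact IntF.const _ | with_reducible exact Int.const _ | assumption | with_reducible apply Int.and | with_reducible apply Int.or | with_reducible apply Int.not | with_reducible apply Int.imp | with_reducible apply Int.iff | with_reducible apply Int.ne | with_reducible apply Int.eq | with_reducible apply Int.mem | with_reducible apply Int.subset | with_reducible apply Int.ltN | with_reducible apply Int.leN | with_reducible_and_instances apply Int.le | with_reducible_and_instances apply Int.lt | with_reducible apply Int.all | with_reducible apply Int.ex | with_reducible apply IntF.fst | with_reducible apply IntF.snd | with_reducible apply IntF.app | with_reducible apply IntF.inl | with_reducible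 apply IntF.inr | with_reducible_and_instances apply IntF.mul | with_reducible_and_instances apply IntF.inv | with_reducible_and_instances apply IntF.add | with_reducible_and_instances apply IntF.sub | with_reducible_and_instances apply IntF.neg | with_reducible_and_instances apply IntF.smul | with_reducible apply Int.fin | with_reducible apply IntF.sep | with_reducible apply IntF.lam | with_reducible apply IntF.insert | with_reducible apply IntF.singleton | with_reducible apply IntF.union | with_reducible apply IntF.iimage | with_reducible apply IntF.ite | with_reducible apply IntF.the | with_reducible apply IntF.irec | with_reducible apply IntF.succ | with_reducible apply IntF.val | with_reducible apply IntF.mk | (with_reducible refine Int.comp ?_ ?_; assumption) | (with_reducible refine Int.comp₂ ?_ ?_ ?_; assumption) | (with_reducible refine Int.comp₃ ?_ ?_ ?_ ?_; assumption) | (with_reducible refine Int.comp₄ ?_ ?_ ?_ ?_ ?_; assumption) | (with_reducible refine IntF.comp ?_ ?_; assumption) | (with_reducible refine IntF.comp₂ ?_ ?_ ?_; assumption) | (with_reducible refine IntF.comp₃ ?_ ?_ ?_ ?_; assumption) | with_reducible apply IntF.pair)))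
  (repeat' (first | with_reducible exact IntF.id | with_reducible exact IntF.fst' | with_reducible exact IntF.snd' | with_reducible exact IntF.const _ | with_reducible exact Int.const _ | assumption | with_reducible apply Int.and | with_reducible apply Int.or | with_reducible apply Int.not | with_reducible apply Int.imp | with_reducible apply Int.iff | with_reducible apply Int.ne | with_reducible apply Int.eq | with_reducible apply Int.mem | with_reducible apply Int.subset | with_reducible apply Int.ltN | with_reducible apply Int.leN | with_reducible_and_instances apply Int.le | with_reducible_and_instances apply Int.lt | with_reducible apply Int.all | with_reducible apply Int.ex | with_reducible apply IntF.fst | with_reducible apply IntF.snd | with_reducible apply IntF.app | with_reducible apply IntF.inl | with_reducible apply IntF.inr | with_reducible_and_instances apply IntF.mul | with_reducible_and_instances apply IntF.inv | with_reducible_and_instances apply IntF.add | with_reducible_and_instances apply IntF.sub | with_reducible_and_instances apply IntF.neg | with_reducible_and_instances apply IntF.smul | with_reducible apply Int.fin | with_reducible apply IntF.sep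 | with_reducible apply IntF.lam | with_reducible apply IntF.insert | with_reducible apply IntF.singleton | with_reducible apply IntF.union | with_reducible apply IntF.iimage | with_reducible apply IntF.ite | with_reducible apply IntF.the | with_reducible apply IntF.irec | with_reducible apply IntF.succ | with_reducible apply IntF.val | with_reducible apply IntF.mk | (with_reducible refine Int.comp ?_ ?_; assumption) | (with_reducible refine Int.comp₂ ?_ ?_ ?_; assumption) | (with_reducible refine Int.comp₃ ?_ ?_ ?_ ?_; assumption) | (with_reducible refine Int.comp₄ ?_ ?_ ?_ ?_ ?_; assumption) | (with_reducible refine IntF.comp ?_ ?_; assumption) | (with_reducible refine IntF.comp₂ ?_ ?_ ?_; assumption) | (with_reducible refine IntF.comp₃ ?_ ?_ ?_ ?_; assumption) | with_reducible apply IntF.pair))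

/-- The fibres. -/
def Fz (q : INat M × (Xz M × Xz M)) : Prop := q.2.1.1 = q.1 ∧ q.2.2.1 = q.1

theorem int_Fz : Int M (Fz (M := M)) := by
  unfold Fz
  (repeat' (first | with_reducible exact IntF.id | with_reducible exact IntF.fst' | with_reducible exact IntF.snd' | with_reducible exact IntF.const _ | with_reducible exact Int.const _ | assumption | with_reducible apply Int.and | with_reducible apply Int.or | with_reducible apply Int.not | with_reducible apply Int.imp | with_reducible apply Int.iff | with_reducible apply Int.ne | with_reducible apply Int.eq | with_reducible apply Int.mem | with_reducible apply Int.subset | with_reducible apply Int.ltN | with_reducible apply Int.leN | with_reducible_and_instances apply Int.le | with_reducible_and_instances apply Int.lt | with_reducible apply Int.all | with_reducible apply Int.ex | with_reducible apply IntF.fst | with_reducible apply IntF.snd | with_reducible apply IntF.app | with_reducible apply IntF.inl | with_reducible apply IntF.inr | with_reducible_and_instances apply IntF.mul | with_reducible_and_instances apply IntF.inv | with_reducible_and_instances apply IntF.add | with_reducible_and_instances apply IntF.sub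 | with_reducible_and_instances apply IntF.neg | with_reducible_and_instances apply IntF.smul | with_reducible apply Int.fin | with_reducible apply IntF.sep | with_reducible apply IntF.lam | with_reducible apply IntF.insert | with_reducible apply IntF.singleton | with_reducible apply IntF.union | with_reducible apply IntF.iimage | with_reducible apply IntF.ite | with_reducible apply IntF.the | with_reducible apply IntF.irec | with_reducible apply IntF.succ | with_reducible apply IntF.val | with_reducible apply IntF.mk | (with_reducible refine Int.comp ?_ ?_; assumption) | (with_reducible refine Int.comp₂ ?_ ?_ ?_; assumption) | (with_reducible refine Int.comp₃ ?_ ?_ ?_ ?_; assumption) | (with_reducible refine Int.comp₄ ?_ ?_ ?_ ?_ ?_; assumption) | (with_reducible refine IntF.comp ?_ ?_; assumption) | (with_reducible refine IntF.comp₂ ?_ ?_ ?_; assumption) | (with_reducible refine IntF.comp₃ ?_ ?_ ?_ ?_; assumption) | with_reducible apply IntF.pair))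

/-- The group. -/
def GzS (g : IPerm M (Xz M)) : Prop :=
  (∀ n x y, Dz (n, (x, y)) ↔ Dz (n, (g.1.1 x, g.1.1 y))) ∧ ∀ x, (g.1.1 x).1 = x.1

variable (M) in
/-- The group. -/
def Hz : Subgroup (IPerm M (Xz M)) where
  carrier := {g | GzS g}
  mul_mem' {a b} ha hb := by
    refine ⟨fun n x y => ?_, fun x => ?_⟩
    · rw [hb.1 n x y, ha.1 n (b.1.1 x) (b.1.1 y), IPerm.mul_apply, IPerm.mul_apply]
    · rw [IPerm.mul_apply, ha.2, hb.2]
  one_mem' := by
    refine ⟨fun n x y => ?_, fun x => ?_⟩
    · rw [IPerm.one_apply, IPerm.one_apply]
    · rw [IPerm.one_apply]
  inv_mem' {a} ha := by
    have e1 : ∀ x, a.1.1 (a.1.2 x) = x := a.2.1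
    refine ⟨fun n x y => ?_, fun x => ?_⟩
    · change _ ↔ Dz (n, (a.1.2 x, a.1.2 y))
      rw [ha.1 n (a.1.2 x), e1, e1]
    · change (a.1.2 x).1 = x.1
      rw [← ha.2, e1]

variable (M) in
/-- The group. -/
def Zz : PGr M (Xz M) where
  H := Hz M
  int := by
    have h := int_Dz (M := M)
    change Int M (fun g : IPerm M (Xz M) =>
      (∀ n x y, Dz (n, (x, y)) ↔ Dz (n, (g.1.1 x, g.1.1 y))) ∧ ∀ x, (g.1.1 x).1 = x.1)
    (repeat' (first | with_reducible exact IntF.id | with_reducible exact IntF.fst' | with_reducible exact IntF.snd' | with_reducible exact IntF.const _ | with_reducible exact Int.const _ | assumption | with_reducible apply Int.and | with_reducible apply Int.or | with_reducible apply Int.not | with_reducible apply Int.imp | with_reducible apply Int.iff | with_reducible apply Int.ne | with_reducible apply Int.eq | with_reducible apply Int.mem | with_reducible apply Int.subset | with_reducible apply Int.ltN | with_reducible apply Int.leN | with_reducible_and_instances apply Int.le | with_reducible_and_instances apply Int.lt | with_reducible apply Int.all | with_reducible apply Int.ex | with_reducible apply IntF.fst | with_reducible apply IntF.snd | with_reducible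 apply IntF.app | with_reducible apply IntF.inl | with_reducible apply IntF.inr | with_reducible_and_instances apply IntF.mul | with_reducible_and_instances apply IntF.inv | with_reducible_and_instances apply IntF.add | with_reducible_and_instances apply IntF.sub | with_reducible_and_instances apply IntF.neg | with_reducible_and_instances apply IntF.smul | with_reducible apply Int.fin | with_reducible apply IntF.sep | with_reducible apply IntF.lam | with_reducible apply IntF.insert | with_reducible apply IntF.singleton | with_reducible apply IntF.union | with_reducible apply IntF.iimage | with_reducible apply IntF.ite | with_reducible apply IntF.the | with_reducible apply IntF.irec | with_reducible apply IntF.succ | with_reducible apply IntF.val | with_reducible apply IntF.mk | (with_reducible refine Int.comp ?_ ?_; assumption) | (with_reducible refine Int.comp₂ ?_ ?_ ?_; assumption) | (with_reducible refine Int.comp₃ ?_ ?_ ?_ ?_; assumption) | (with_reducible refine Int.comp₄ ?_ ?_ ?_ ?_ ?_; assumption) | (with_reducible refine IntF.comp ?_ ?_; assumption) | (with_reducible refine IntF.comp₂ ?_ ?_ ?_; assumption) | (with_reducible refine IntF.comp₃ ?_ ?_ ?_ ?_; assumption)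 | with_reducible apply IntF.pair))

/-- The translation of a fibre. -/
theorem exists_tr {x y : Xz M} (h : x.1 = y.1) :
    ∃ g ∈ (Zz M).H, g.1.1 x = y ∧ ∀ z : Xz M, z.1 ≠ x.1 → g.1.1 z = z := by
  classical
  have key : ∀ c : IZ M, IntF M (fun z : Xz M => if z.1 = x.1 then ((z.1, z.2 + c) : Xz M) else z) := by
    intro c
    (repeat' (first | with_reducible exact IntF.id | with_reducible exact IntF.fst' | with_reducible exact IntF.snd' | with_reducible exact IntF.const _ | with_reducible exact Int.const _ | assumption | with_reducible apply Int.and | with_reducible apply Int.or | with_reducible apply Int.not | with_reducible apply Int.imp | with_reducible apply Int.iff | with_reducible apply Int.ne | with_reducible apply Int.eq | with_reducible apply Int.mem | with_reducible apply Int.subset | with_reducible apply Int.ltN | with_reducible apply Int.leN | with_reducible_and_instances apply Int.le | with_reducible_and_instances apply Int.lt | with_reducible apply Int.all | with_reducible apply Int.ex | with_reducible apply IntF.fst | with_reducible apply IntF.snd | with_reducible apply IntF.app | with_reducible apply IntF.inl | with_reducible apply IntF.inr | with_reducible_and_instances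 apply IntF.mul | with_reducible_and_instances apply IntF.inv | with_reducible_and_instances apply IntF.add | with_reducible_and_instances apply IntF.sub | with_reducible_and_instances apply IntF.neg | with_reducible_and_instances apply IntF.smul | with_reducible apply Int.fin | with_reducible apply IntF.sep | with_reducible apply IntF.lam | with_reducible apply IntF.insert | with_reducible apply IntF.singleton | with_reducible apply IntF.union | with_reducible apply IntF.iimage | with_reducible apply IntF.ite | with_reducible apply IntF.the | with_reducible apply IntF.irec | with_reducible apply IntF.succ | with_reducible apply IntF.val | with_reducible apply IntF.mk | (with_reducible refine Int.comp ?_ ?_; assumption) | (with_reducible refine Int.comp₂ ?_ ?_ ?_; assumption) | (with_reducible refine Int.comp₃ ?_ ?_ ?_ ?_; assumption) | (with_reducible refine Int.comp₄ ?_ ?_ ?_ ?_ ?_; assumption) | (with_reducible refine IntF.comp ?_ ?_; assumption) | (with_reducible refine IntF.comp₂ ?_ ?_ ?_; assumption) | (with_reducible refine IntF.comp₃ ?_ ?_ ?_ ?_; assumption) | with_reducible apply IntF.pair))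
  have h4 : ∀ (c : IZ M) (z : Xz M), (fun z : Xz M => if z.1 = x.1 then ((z.1, z.2 + c) : Xz M) else z)
      ((fun z : Xz M => if z.1 = x.1 then ((z.1, z.2 + -c) : Xz M) else z) z) = z := by
    intro c z
    by_cases hz : z.1 = x.1
    · simp only [if_pos hz]
      refine Prod.ext rfl ?_
      change z.2 + -c + c = z.2
      ring
    · simp only [if_neg hz]
  have h5 : ∀ (c : IZ M) (z : Xz M), (fun z : Xz M => if z.1 = x.1 then ((z.1, z.2 + -c) : Xz M) else z)
      ((fun z : Xz M => if z.1 = x.1 then ((z.1, z.2 + c) : Xz M) else z) z) = z := by
    intro c z
    by_cases hz : z.1 = x.1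
    · simp only [if_pos hz]
      refine Prod.ext rfl ?_
      change z.2 + c + -c = z.2
      ring
    · simp only [if_neg hz]
  refine ⟨⟨(⟨_, key (y.2 - x.2)⟩, ⟨_, key (-(y.2 - x.2))⟩), h4 _, h5 _⟩, ⟨?_, ?_⟩, ?_, fun z hz => if_neg hz⟩
  · intro n z w
    change Dz (n, (z, w)) ↔ Dz (n, ((if z.1 = x.1 then ((z.1, z.2 + (y.2 - x.2)) : Xz M) else z),
      (if w.1 = x.1 then ((w.1, w.2 + (y.2 - x.2)) : Xz M) else w)))
    by_cases hz : z.1 = x.1 <;> by_cases hw : w.1 = x.1
    · rw [if_pos hz, if_pos hw]
      refine and_congr Iff.rfl ?_
      change w.2 = z.2 + IZ.of n ↔ w.2 + (y.2 - x.2) = z.2 + (y.2 - x.2) + IZ.of n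
      constructor
      · intro h
        rw [h]
        ring
      · intro h
        linear_combination h
    · rw [if_pos hz, if_neg hw]
      exact iff_of_false (fun h => hw (h.1.symm.trans hz)) fun h => hw (h.1.symm.trans hz)
    · rw [if_neg hz, if_pos hw]
      exact iff_of_false (fun h => hz (h.1.trans hw)) fun h => hz (h.1.trans hw)
    · rw [if_neg hz, if_neg hw]
  · intro z
    change (if z.1 = x.1 then ((z.1, z.2 + (y.2 - x.2)) : Xz M) else z).1 = z.1
    by_cases hz : z.1 = x.1
    · rw [if_pos hz]
    · rw [if_neg hz]
  · change (if x.1 = x.1 then ((x.1, x.2 + (y.2 - x.2)) : Xz M) else x) = y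
    rw [if_pos rfl]
    refine Prod.ext h ?_
    change x.2 + (y.2 - x.2) = y.2
    ring

theorem exists_bd (E : FS M (Xz M)) : ∃ n : INat M, ∀ e, e ∈ E.1 → e.1 < n := by
  refine IFin.exists_bound (r := fun (e : Xz M) (n : INat M) => e.1 < n) (by (repeat' (first | with_reducible exact IntF.id | with_reducible exact IntF.fst' | with_reducible exact IntF.snd' | with_reducible exact IntF.const _ | with_reducible exact Int.const _ | assumption | with_reducible apply Int.and | with_reducible apply Int.or | with_reducible apply Int.not | with_reducible apply Int.imp | with_reducible apply Int.iff | with_reducible apply Int.ne | with_reducible apply Int.eq | with_reducible apply Int.mem | with_reducible apply Int.subset | with_reducible apply Int.ltN | with_reducible apply Int.leN | with_reducible_and_instances apply Int.le | with_reducible_and_instances apply Int.lt | with_reducible apply Int.all | with_reducible apply Int.ex | with_reducible apply IntF.fst | with_reducible apply IntF.snd | with_reducible apply IntF.app | with_reducible apply IntF.inl | with_reducible apply IntF.inr | with_reducible_and_instances apply IntF.mul | with_reducible_and_instances apply IntF.inv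 | with_reducible_and_instances apply IntF.add | with_reducible_and_instances apply IntF.sub | with_reducible_and_instances apply IntF.neg | with_reducible_and_instances apply IntF.smul | with_reducible apply Int.fin | with_reducible apply IntF.sep | with_reducible apply IntF.lam | with_reducible apply IntF.insert | with_reducible apply IntF.singleton | with_reducible apply IntF.union | with_reducible apply IntF.iimage | with_reducible apply IntF.ite | with_reducible apply IntF.the | with_reducible apply IntF.irec | with_reducible apply IntF.succ | with_reducible apply IntF.val | with_reducible apply IntF.mk | (with_reducible refine Int.comp ?_ ?_; assumption) | (with_reducible refine Int.comp₂ ?_ ?_ ?_; assumption) | (with_reducible refine Int.comp₃ ?_ ?_ ?_ ?_; assumption) | (with_reducible refine Int.comp₄ ?_ ?_ ?_ ?_ ?_; assumption) | (with_reducible refine IntF.comp ?_ ?_; assumption) | (with_reducible refine IntF.comp₂ ?_ ?_ ?_; assumption) | (with_reducible refine IntF.comp₃ ?_ ?_ ?_ ?_; assumption) | with_reducible apply IntF.pair))) ?_ ⟨0⟩ E.2 ?_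
  · intro b c
    exact ⟨max b c, fun a h => h.elim (fun h => lt_of_lt_of_le h (le_max_left _ _))
      fun h => lt_of_lt_of_le h (le_max_right _ _)⟩
  · intro e _
    exact ⟨e.1.succ, INat.lt_succ_self _⟩

end Pool.Agent.V11257Z
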