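import Pool.Agent.V11257.Zt0

/-!
# A sequence of copies of the integers: the permutation model
-/

set_option maxHeartbeats 1000000
set_option linter.all false
set_option synthInstance.maxSize 2000

namespace Pool.Agent.V11257Z

open FirstOrder FirstOrder.Language
open Pool.Agent.Helper672.ZFA
open Pool.Agent.Helper672.ZFA.H635 (IPerm SymSys IG WFI FEq FMem tw Good feq_of_map feq_iff IsGen
  nd nd_eq mem_nd mem_nd_nd exists_mk mk_eq_nd EqFam NN nn_ext CollL nn_zf mem_NN)
open Pool.Agent.Helper672.ZFA.H310M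
open Pool.Agent.Helper672.Plain (LSet)
open Pool.Agent.H310

universe u

variable {M : Type u} [L.Structure M] [hM : IsModel M]

theorem dz_zero (x y : Xz M) : Dz (0, (x, y)) ↔ x = y := by
  unfold Dz
  change x.1 = y.1 ∧ y.2 = x.2 + IZ.of 0 ↔ x = y
  rw [IZ.of_zero, add_zero]
  exact ⟨fun h => Prod.ext h.1 h.2.symm, fun h => h ▸ ⟨rfl, rfl⟩⟩

theorem dz_succ (n : INat M) (x y : Xz M) :
    Dz (n.succ, (x, y)) ↔ ∃ z, Dz (n, (x, z)) ∧ Dz ((0 : INat M).succ, (z, y)) := by
  unfold Dz
  change x.1 = y.1 ∧ y.2 = x.2 + IZ.of n.succ ↔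
    ∃ z : Xz M, (x.1 = z.1 ∧ z.2 = x.2 + IZ.of n) ∧ z.1 = y.1 ∧ y.2 = z.2 + IZ.of (0 : INat M).succ
  have e1 : IZ.of (0 : INat M).succ = (1 : IZ M) := IZ.of_one
  have e2 : IZ.of n.succ = IZ.of n + (1 : IZ M) := by
    rw [INat.succ_eq, IZ.of_add, IZ.of_one]
  rw [e1, e2]
  constructor
  · rintro ⟨h1, h2⟩
    exact ⟨(x.1, x.2 + IZ.of n), ⟨rfl, rfl⟩, h1, by rw [h2]; ring⟩
  · rintro ⟨z, ⟨h1, h2⟩, h3, h4⟩
    exact ⟨h1.trans h3, by rw [h4, h2]; ring⟩

theorem dz_up (x : Xz M) : ∃ y, Dz ((0 : INat M).succ, (x, y)) :=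
  ⟨(x.1, x.2 + IZ.of (0 : INat M).succ), rfl, rfl⟩

theorem dz_down (y : Xz M) : ∃ x, Dz ((0 : INat M).succ, (x, y)) :=
  ⟨(y.1, y.2 - IZ.of (0 : INat M).succ), rfl, by
    change y.2 = y.2 - IZ.of (0 : INat M).succ + IZ.of (0 : INat M).succ
    ring⟩

theorem dz_upU {n : INat M} {x y z : Xz M} (h : Dz (n, (x, y))) (h' : Dz (n, (x, z))) : y = z :=
  Prod.ext (h.1.symm.trans h'.1) (h.2.trans h'.2.symm)

theorem dz_downU {n : INat M} {x y z : Xz M} (h : Dz (n, (x, z))) (h' : Dz (n, (y, z))) : x = y :=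
  Prod.ext (h.1.trans h'.1.symm) (by
    have h1 : z.2 = x.2 + IZ.of n := h.2
    have h2 : z.2 = y.2 + IZ.of n := h'.2
    rw [h2] at h1
    exact (add_right_cancel h1).symm)

theorem dz_total {x y : Xz M} (h : x.1 = y.1) : ∃ n, Dz (n, (x, y)) ∨ Dz (n, (y, x)) := by
  obtain ⟨a, ha⟩ := IZ.sign (y.2 - x.2)
  refine ⟨a, ?_⟩
  rcases ha with ha | ha
  · refine Or.inl ⟨h, ?_⟩
    change y.2 = x.2 + IZ.of a
    rw [← ha]
    ring
  · refine Or.inr ⟨h.symm, ?_⟩
    change x.2 = y.2 + IZ.of a
    linear_combination -ha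

theorem dz_acyc (n : INat M) (x : Xz M) : ¬ Dz (n.succ, (x, x)) := by
  rintro ⟨-, h⟩
  change x.2 = x.2 + IZ.of n.succ at h
  have h1 : IZ.of n.succ = IZ.of (0 : INat M) := by
    rw [IZ.of_zero]
    linear_combination -h
  exact INat.succ_ne_zero n (IZ.of_injective h1)

variable {G : Set (Co M (Xz M))} (hG : IsGen M G) (hC : CollL M)

include hC in
theorem exists_ZT : ∃ D fb, ZT (NN (SS (Zz M)) hG) (α := El (AA (Zz M) hG)) D fb := by
  obtain ⟨D, hD, hD'⟩ := exists_rel (Z := Zz M) hG hC int_Dz
    (fun g hg n x y h => (hg.1 n x y).1 h)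
  obtain ⟨F, hF, hF'⟩ := exists_rel (Z := Zz M) hG hC int_Fz
    (fun g hg n x y h => ⟨(hg.2 x).trans h.1, (hg.2 y).trans h.2⟩)
  have hn := nnN_surj (Z := Zz M) hG hC
  have hc := cA_surj (Z := Zz M) hG
  have hex : ∀ a : El (AA (Zz M) hG), ∃ n : INat (NN (SS (Zz M)) hG), F (n, (a, a)) := by
    intro a
    obtain ⟨a, rfl⟩ := hc a
    exact ⟨nnN (Zz M) hG hC a.1, (hF' _ _ _).2 ⟨rfl, rfl⟩⟩
  choose fb hfb using hex
  have hfu : ∀ (a : Xz M) (n : INat M), fb (cA (Zz M) hG a) = nnN (Zz M) hG hC n ↔ a.1 = n := by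
    intro a n
    obtain ⟨m, hm⟩ := hn (fb (cA (Zz M) hG a))
    have h1 := hfb (cA (Zz M) hG a)
    rw [← hm, hF'] at h1
    rw [← hm, nnN_inj]
    exact ⟨fun h => h1.1.trans h, fun h => h1.1.symm.trans h⟩
  have hIF : IntF (NN (SS (Zz M)) hG) fb := by
    refine IntF.of_rel (r := fun (a : El (AA (Zz M) hG)) (n : INat (NN (SS (Zz M)) hG)) =>
      F (n, (a, a))) ?_ ?_
    · exact Int.comp (p := F) (f := fun q : El (AA (Zz M) hG) × INat (NN (SS (Zz M)) hG) =>
        (q.2, (q.1, q.1))) hF (by (repeat' (first | with_reducible exact IntF.id | with_reducible exact IntF.fst' | with_reducible exact IntF.snd' | with_reducible exact IntF.const _ | with_reducible exact Int.const _ | assumption | with_reducible apply Int.and | with_reducible apply Int.or | with_reducible apply Int.not | with_reducible apply Int.imp | with_reducible apply Int.iff | with_reducible apply Int.ne | with_reducible apply Int.eq | with_reducible apply Int.mem | with_reducible apply Int.subset | with_reducible apply Int.ltN |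 with_reducible apply Int.leN | with_reducible_and_instances apply Int.le | with_reducible_and_instances apply Int.lt | with_reducible apply Int.all | with_reducible apply Int.ex | with_reducible apply IntF.fst | with_reducible apply IntF.snd | with_reducible apply IntF.app | with_reducible apply IntF.inl | with_reducible apply IntF.inr | with_reducible_and_instances apply IntF.mul | with_reducible_and_instances apply IntF.inv | with_reducible_and_instances apply IntF.add | with_reducible_and_instances apply IntF.sub | with_reducible_and_instances apply IntF.neg | with_reducible_and_instances apply IntF.smul | with_reducible apply Int.fin | with_reducible apply IntF.sep | with_reducible apply IntF.lam | with_reducible apply IntF.insert | with_reducible apply IntF.singleton | with_reducible apply IntF.union | with_reducible apply IntF.iimage | with_reducible apply IntF.ite | with_reducible apply IntF.the | with_reducible apply IntF.irec | with_reducible apply IntF.succ | with_reducible apply IntF.val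 | with_reducible apply IntF.mk | (with_reducible refine Int.comp ?_ ?_; assumption) | (with_reducible refine Int.comp₂ ?_ ?_ ?_; assumption) | (with_reducible refine Int.comp₃ ?_ ?_ ?_ ?_; assumption) | (with_reducible refine Int.comp₄ ?_ ?_ ?_ ?_ ?_; assumption) | (with_reducible refine IntF.comp ?_ ?_; assumption) | (with_reducible refine IntF.comp₂ ?_ ?_ ?_; assumption) | (with_reducible refine IntF.comp₃ ?_ ?_ ?_ ?_; assumption) | with_reducible apply IntF.pair)))
    · intro a n
      obtain ⟨a, rfl⟩ := hc a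
      obtain ⟨n, rfl⟩ := hn n
      rw [hfu, hF']
      exact ⟨fun h => h.1, fun h => ⟨h, h⟩⟩
  have e1 : nnN (Zz M) hG hC (0 : INat M).succ = (0 : INat (NN (SS (Zz M)) hG)).succ := by
    rw [nnN_succ, nnN_zero]
  refine ⟨D, fb, ⟨hD, hIF, fun n x y h => ?_, fun x y => ?_, fun n x y => ?_, fun x => ?_, fun y => ?_,
    fun x y z h h' => ?_, fun x y z h h' => ?_, fun x y h => ?_, fun n x h => ?_, fun n => ?_, ?_⟩⟩
  · obtain ⟨n, rfl⟩ := hn n
    obtain ⟨x, rfl⟩ := hc x
    obtain ⟨y, rfl⟩ := hc y
    have h1 := ((hD' _ _ _).1 h).1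
    rw [(hfu x x.1).2 rfl, (hfu y x.1).2 h1.symm]
  · obtain ⟨x, rfl⟩ := hc x
    obtain ⟨y, rfl⟩ := hc y
    rw [← nnN_zero (Z := Zz M) hG hC, hD', dz_zero, cA_inj]
  · obtain ⟨n, rfl⟩ := hn n
    obtain ⟨x, rfl⟩ := hc x
    obtain ⟨y, rfl⟩ := hc y
    rw [← nnN_succ, hD', dz_succ, ← e1]
    constructor
    · rintro ⟨z, h1, h2⟩
      exact ⟨cA (Zz M) hG z, (hD' _ _ _).2 h1, (hD' _ _ _).2 h2⟩
    · rintro ⟨z, h1, h2⟩
      obtain ⟨z, rfl⟩ := hc z
      exact ⟨z, (hD' _ _ _).1 h1, (hD' _ _ _).1 h2⟩
  · obtain ⟨x, rfl⟩ := hc x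
    obtain ⟨y, h⟩ := dz_up x
    exact ⟨cA (Zz M) hG y, by rw [← e1]; exact (hD' _ _ _).2 h⟩
  · obtain ⟨y, rfl⟩ := hc y
    obtain ⟨x, h⟩ := dz_down y
    exact ⟨cA (Zz M) hG x, by rw [← e1]; exact (hD' _ _ _).2 h⟩
  · obtain ⟨x, rfl⟩ := hc x
    obtain ⟨y, rfl⟩ := hc y
    obtain ⟨z, rfl⟩ := hc z
    rw [← e1, hD'] at h h'
    rw [dz_upU h h']
  · obtain ⟨x, rfl⟩ := hc x
    obtain ⟨y, rfl⟩ := hc y
    obtain ⟨z, rfl⟩ := hc z
    rw [← e1, hD'] at h h'
    rw [dz_downU h h']
  · obtain ⟨x, rfl⟩ := hc x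
    obtain ⟨y, rfl⟩ := hc y
    rw [(hfu y y.1).2 rfl, hfu] at h
    obtain ⟨n, h1⟩ := dz_total h
    exact ⟨nnN (Zz M) hG hC n, by rw [hD', hD']; exact h1⟩
  · obtain ⟨n, rfl⟩ := hn n
    obtain ⟨x, rfl⟩ := hc x
    rw [← nnN_succ, hD'] at h
    exact dz_acyc _ _ h
  · obtain ⟨n, rfl⟩ := hn n
    exact ⟨cA (Zz M) hG (n, 0), (hfu _ _).2 rfl⟩
  · intro W hW
    obtain ⟨E, hE⟩ := exists_hom (Z := Zz M) hG hC (W := fun q => W q.1)
      (Int.comp (p := W) (f := fun q : El (AA (Zz M) hG) × INat (NN (SS (Zz M)) hG) => q.1) hW (by (repeat' (first | with_reducible exact IntF.id | with_reducible exact IntF.fst' | with_reducible exact IntF.snd' | with_reducible exact IntF.const _ | with_reducible exact Int.const _ | assumption | with_reducible apply Int.and | with_reducible apply Int.or | with_reducible apply Int.not | with_reducible apply Int.imp | with_reducible apply Int.iff | with_reducible apply Int.ne | with_reducible apply Int.eq | with_reducible apply Int.mem | with_reducible apply Int.subset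 | with_reducible apply Int.ltN | with_reducible apply Int.leN | with_reducible_and_instances apply Int.le | with_reducible_and_instances apply Int.lt | with_reducible apply Int.all | with_reducible apply Int.ex | with_reducible apply IntF.fst | with_reducible apply IntF.snd | with_reducible apply IntF.app | with_reducible apply IntF.inl | with_reducible apply IntF.inr | with_reducible_and_instances apply IntF.mul | with_reducible_and_instances apply IntF.inv | with_reducible_and_instances apply IntF.add | with_reducible_and_instances apply IntF.sub | with_reducible_and_instances apply IntF.neg | with_reducible_and_instances apply IntF.smul | with_reducible apply Int.fin | with_reducible apply IntF.sep | with_reducible apply IntF.lam | with_reducible apply IntF.insert | with_reducible apply IntF.singleton | with_reducible apply IntF.union | with_reducible apply IntF.iimage | with_reducible apply IntF.ite | with_reducible apply IntF.the | with_reducible apply IntF.irec | with_reducible apply IntF.succ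 | with_reducible apply IntF.val | with_reducible apply IntF.mk | (with_reducible refine Int.comp ?_ ?_; assumption) | (with_reducible refine Int.comp₂ ?_ ?_ ?_; assumption) | (with_reducible refine Int.comp₃ ?_ ?_ ?_ ?_; assumption) | (with_reducible refine Int.comp₄ ?_ ?_ ?_ ?_ ?_; assumption) | (with_reducible refine IntF.comp ?_ ?_; assumption) | (with_reducible refine IntF.comp₂ ?_ ?_ ?_; assumption) | (with_reducible refine IntF.comp₃ ?_ ?_ ?_ ?_; assumption) | with_reducible apply IntF.pair))))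
    obtain ⟨n, hn'⟩ := exists_bd E
    refine ⟨nnN (Zz M) hG hC n, fun x y hxy hx h => ?_⟩
    obtain ⟨x, rfl⟩ := hc x
    obtain ⟨y, rfl⟩ := hc y
    rw [(hfu x x.1).2 rfl] at hx
    have hx' : ¬ x.1 < n := by
      intro h1
      rcases hx with h2 | h2
      · exact lt_asymm h1 ((nnN_lt hG hC).1 h2)
      · rw [(nnN_inj hG hC).1 h2] at h1
        exact lt_irrefl _ h1
    rw [(hfu y y.1).2 rfl, hfu] at hxy
    obtain ⟨g, hg, h1, h2⟩ := exists_tr hxy
    have h3 := hE g hg (fun e he => h2 e fun h4 => hx' (h4 ▸ hn' e he)) x 0 h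
    rwa [h1] at h3

end Pool.Agent.V11257Z
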