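import Pool.Agent.V11257.Zt0
import Pool.Agent.V11246.Ctb

/-!
# A sequence of copies of the integers: the linear order
-/

set_option maxHeartbeats 1000000
set_option linter.all false
set_option synthInstance.maxSize 2000

namespace Pool.Agent.V11257Z

open FirstOrder FirstOrder.Language
open Pool.Agent.Helper672.ZFA
open Pool.Agent.Helper672.Plain (LSet)
open Pool.Agent.H310

universe u

variable {N : Type u} [L.Structure N] [hN : IsModel N] {α : Type u} [ITy N α]
variable {D : INat N × (α × α) → Prop} {fb : α → INat N} (h : ZT N D fb)

include h

theorem ZT.uR {x y z : α} (n : INat N) : D (n, (x, y)) → D (n, (x, z)) → y = z := by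
  have hI := h.intD
  revert y z
  suffices H : ∀ y z, D (n, (x, y)) → D (n, (x, z)) → y = z from fun {y z} => H y z
  refine INat.ind (p := fun n => ∀ y z, D (n, (x, y)) → D (n, (x, z)) → y = z) (by (repeat' (first | with_reducible exact IntF.id | with_reducible exact IntF.fst' | with_reducible exact IntF.snd' | with_reducible exact IntF.const _ | with_reducible exact Int.const _ | assumption | with_reducible apply Int.and | with_reducible apply Int.or | with_reducible apply Int.not | with_reducible apply Int.imp | with_reducible apply Int.iff | with_reducible apply Int.ne | with_reducible apply Int.eq | with_reducible apply Int.mem | with_reducible apply Int.subset | with_reducible apply Int.ltN | with_reducible apply Int.leN | with_reducible_and_instances apply Int.le | with_reducible_and_instances apply Int.lt | with_reducible apply Int.all | with_reducible apply Int.ex | with_reducible apply IntF.fst | with_reducible apply IntF.snd | with_reducible apply IntF.app | with_reducible apply IntF.inl | with_reducible apply IntF.inr | with_reducible_and_instances apply IntF.mul | with_reducible_and_instances apply IntF.inv | with_reducible_and_instances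 apply IntF.add | with_reducible_and_instances apply IntF.sub | with_reducible_and_instances apply IntF.neg | with_reducible_and_instances apply IntF.smul | with_reducible apply Int.fin | with_reducible apply IntF.sep | with_reducible apply IntF.lam | with_reducible apply IntF.insert | with_reducible apply IntF.singleton | with_reducible apply IntF.union | with_reducible apply IntF.iimage | with_reducible apply IntF.ite | with_reducible apply IntF.the | with_reducible apply IntF.irec | with_reducible apply IntF.succ | with_reducible apply IntF.val | with_reducible apply IntF.mk | (with_reducible refine Int.comp ?_ ?_; assumption) | (with_reducible refine Int.comp₂ ?_ ?_ ?_; assumption) | (with_reducible refine Int.comp₃ ?_ ?_ ?_ ?_; assumption) | (with_reducible refine Int.comp₄ ?_ ?_ ?_ ?_ ?_; assumption) | (with_reducible refine IntF.comp ?_ ?_; assumption) | (with_reducible refine IntF.comp₂ ?_ ?_ ?_; assumption) | (with_reducible refine IntF.comp₃ ?_ ?_ ?_ ?_; assumption) | with_reducible apply IntF.pair))) ?_ ?_ n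
  · intro y z h1 h2
    rw [h.zero] at h1 h2
    exact h1.symm.trans h2
  · intro n ih y z h1 h2
    obtain ⟨u, h3, h4⟩ := (h.succ _ _ _).1 h1
    obtain ⟨v, h5, h6⟩ := (h.succ _ _ _).1 h2
    obtain rfl := ih u v h3 h5
    exact h.upU _ _ _ h4 h6

theorem ZT.uL {z : α} (n : INat N) {x y : α} : D (n, (x, z)) → D (n, (y, z)) → x = y := by
  have hI := h.intD
  revert x y z
  suffices H : ∀ z x y, D (n, (x, z)) → D (n, (y, z)) → x = y from fun {z x y} => H z x y
  refine INat.ind (p := fun n => ∀ z x y, D (n, (x, z)) → D (n, (y, z)) → x = y) (by (repeat' (first | with_reducible exact IntF.id | with_reducible exact IntF.fst' | with_reducible exact IntF.snd' | with_reducible exact IntF.const _ | with_reducible exact Int.const _ | assumption | with_reducible apply Int.and | with_reducible apply Int.or | with_reducible apply Int.not | with_reducible apply Int.imp | with_reducible apply Int.iff | with_reducible apply Int.ne | with_reducible apply Int.eq | with_reducible apply Int.mem | with_reducible apply Int.subset | with_reducible apply Int.ltN | with_reducible apply Int.leN | with_reducible_and_instances apply Int.le | with_reducible_and_instances apply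 Int.lt | with_reducible apply Int.all | with_reducible apply Int.ex | with_reducible apply IntF.fst | with_reducible apply IntF.snd | with_reducible apply IntF.app | with_reducible apply IntF.inl | with_reducible apply IntF.inr | with_reducible_and_instances apply IntF.mul | with_reducible_and_instances apply IntF.inv | with_reducible_and_instances apply IntF.add | with_reducible_and_instances apply IntF.sub | with_reducible_and_instances apply IntF.neg | with_reducible_and_instances apply IntF.smul | with_reducible apply Int.fin | with_reducible apply IntF.sep | with_reducible apply IntF.lam | with_reducible apply IntF.insert | with_reducible apply IntF.singleton | with_reducible apply IntF.union | with_reducible apply IntF.iimage | with_reducible apply IntF.ite | with_reducible apply IntF.the | with_reducible apply IntF.irec | with_reducible apply IntF.succ | with_reducible apply IntF.val | with_reducible apply IntF.mk | (with_reducible refine Int.comp ?_ ?_; assumption) | (with_reducible refine Int.comp₂ ?_ ?_ ?_; assumption) | (with_reducible refine Int.comp₃ ?_ ?_ ?_ ?_; assumption) | (with_reducible refine Int.comp₄ ?_ ?_ ?_ ?_ ?_; assumption)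 | (with_reducible refine IntF.comp ?_ ?_; assumption) | (with_reducible refine IntF.comp₂ ?_ ?_ ?_; assumption) | (with_reducible refine IntF.comp₃ ?_ ?_ ?_ ?_; assumption) | with_reducible apply IntF.pair))) ?_ ?_ n
  · intro z x y h1 h2
    rw [h.zero] at h1 h2
    exact h1.trans h2.symm
  · intro n ih z x y h1 h2
    obtain ⟨u, h3, h4⟩ := (h.succ _ _ _).1 h1
    obtain ⟨v, h5, h6⟩ := (h.succ _ _ _).1 h2
    obtain rfl := h.downU _ _ _ h4 h6
    exact ih u x y h3 h5

theorem ZT.exR (n : INat N) (x : α) : ∃ y, D (n, (x, y)) := by
  have hI := h.intD
  refine INat.ind (p := fun n => ∃ y, D (n, (x, y))) (by (repeat' (first | with_reducible exact IntF.id | with_reducible exact IntF.fst' | with_reducible exact IntF.snd' | with_reducible exact IntF.const _ | with_reducible exact Int.const _ | assumption | with_reducible apply Int.and | with_reducible apply Int.or | with_reducible apply Int.not | with_reducible apply Int.imp | with_reducible apply Int.iff | with_reducible apply Int.ne | with_reducible apply Int.eq | with_reducible apply Int.mem | with_reducible apply Int.subset | with_reducible apply Int.ltN | with_reducible apply Int.leN | with_reducible_and_instances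 apply Int.le | with_reducible_and_instances apply Int.lt | with_reducible apply Int.all | with_reducible apply Int.ex | with_reducible apply IntF.fst | with_reducible apply IntF.snd | with_reducible apply IntF.app | with_reducible apply IntF.inl | with_reducible apply IntF.inr | with_reducible_and_instances apply IntF.mul | with_reducible_and_instances apply IntF.inv | with_reducible_and_instances apply IntF.add | with_reducible_and_instances apply IntF.sub | with_reducible_and_instances apply IntF.neg | with_reducible_and_instances apply IntF.smul | with_reducible apply Int.fin | with_reducible apply IntF.sep | with_reducible apply IntF.lam | with_reducible apply IntF.insert | with_reducible apply IntF.singleton | with_reducible apply IntF.union | with_reducible apply IntF.iimage | with_reducible apply IntF.ite | with_reducible apply IntF.the | with_reducible apply IntF.irec | with_reducible apply IntF.succ | with_reducible apply IntF.val | with_reducible apply IntF.mk | (with_reducible refine Int.comp ?_ ?_; assumption) | (with_reducible refine Int.comp₂ ?_ ?_ ?_; assumption) | (with_reducible refine Int.comp₃ ?_ ?_ ?_ ?_; assumption) | (with_reducible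 refine Int.comp₄ ?_ ?_ ?_ ?_ ?_; assumption) | (with_reducible refine IntF.comp ?_ ?_; assumption) | (with_reducible refine IntF.comp₂ ?_ ?_ ?_; assumption) | (with_reducible refine IntF.comp₃ ?_ ?_ ?_ ?_; assumption) | with_reducible apply IntF.pair))) ?_ ?_ n
  · exact ⟨x, (h.zero _ _).2 rfl⟩
  · rintro n ⟨y, hy⟩
    obtain ⟨z, hz⟩ := h.up y
    exact ⟨z, (h.succ _ _ _).2 ⟨y, hy, hz⟩⟩

theorem ZT.tr (m : INat N) (x y : α) (hxy : D (m, (x, y))) (n : INat N) (z : α) :
    D (n, (y, z)) → D (m + n, (x, z)) := by
  have hI := h.intD
  refine INat.ind (p := fun n => ∀ z, D (n, (y, z)) → D (m + n, (x, z))) (by (repeat' (first | with_reducible exact IntF.id | with_reducible exact IntF.fst' | with_reducible exact IntF.snd' | with_reducible exact IntF.const _ | with_reducible exact Int.const _ | assumption | with_reducible apply Int.and | with_reducible apply Int.or | with_reducible apply Int.not | with_reducible apply Int.imp | with_reducible apply Int.iff | with_reducible apply Int.ne | with_reducible apply Int.eq | with_reducible apply Int.mem | with_reducible apply Int.subset | with_reducible apply Int.ltN | with_reducible apply Int.leN | with_reducible_and_instances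 apply Int.le | with_reducible_and_instances apply Int.lt | with_reducible apply Int.all | with_reducible apply Int.ex | with_reducible apply IntF.fst | with_reducible apply IntF.snd | with_reducible apply IntF.app | with_reducible apply IntF.inl | with_reducible apply IntF.inr | with_reducible_and_instances apply IntF.mul | with_reducible_and_instances apply IntF.inv | with_reducible_and_instances apply IntF.add | with_reducible_and_instances apply IntF.sub | with_reducible_and_instances apply IntF.neg | with_reducible_and_instances apply IntF.smul | with_reducible apply Int.fin | with_reducible apply IntF.sep | with_reducible apply IntF.lam | with_reducible apply IntF.insert | with_reducible apply IntF.singleton | with_reducible apply IntF.union | with_reducible apply IntF.iimage | with_reducible apply IntF.ite | with_reducible apply IntF.the | with_reducible apply IntF.irec | with_reducible apply IntF.succ | with_reducible apply IntF.val | with_reducible apply IntF.mk | (with_reducible refine Int.comp ?_ ?_; assumption) | (with_reducible refine Int.comp₂ ?_ ?_ ?_; assumption) | (with_reducible refine Int.comp₃ ?_ ?_ ?_ ?_; assumption) | (with_reducible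 refine Int.comp₄ ?_ ?_ ?_ ?_ ?_; assumption) | (with_reducible refine IntF.comp ?_ ?_; assumption) | (with_reducible refine IntF.comp₂ ?_ ?_ ?_; assumption) | (with_reducible refine IntF.comp₃ ?_ ?_ ?_ ?_; assumption) | with_reducible apply IntF.pair))) ?_ ?_ n z
  · intro z h1
    rw [h.zero] at h1
    rw [add_zero, ← h1]
    exact hxy
  · intro n ih z h1
    obtain ⟨u, h2, h3⟩ := (h.succ _ _ _).1 h1
    rw [INat.add_succ']
    exact (h.succ _ _ _).2 ⟨u, ih u h2, h3⟩

theorem ZT.zero_of (n : INat N) (x : α) (h1 : D (n, (x, x))) : n = 0 := by
  rcases INat.eq_zero_or_succ n with h2 | ⟨k, rfl⟩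
  · exact h2
  · exact absurd h1 (h.acyc k x)

theorem ZT.anti {m n : INat N} {x y : α} (h1 : D (m, (x, y))) (h2 : D (n, (y, x))) : x = y := by
  have h3 := h.zero_of _ _ (h.tr m x y h1 n x h2)
  rw [INat.eq_zero_of_add h3] at h1
  exact (h.zero _ _).1 h1

theorem ZT.exL (n : INat N) (y : α) : ∃ x, D (n, (x, y)) := by
  have hI := h.intD
  have h1 : ∀ z, ∃ x, D (n, (x, z)) := by
    refine INat.ind (p := fun n => ∀ y, ∃ x, D (n, (x, y))) (by (repeat' (first | with_reducible exact IntF.id | with_reducible exact IntF.fst' | with_reducible exact IntF.snd' | with_reducible exact IntF.const _ | with_reducible exact Int.const _ | assumption | with_reducible apply Int.and | with_reducible apply Int.or | with_reducible apply Int.not | with_reducible apply Int.imp | with_reducible apply Int.iff | with_reducible apply Int.ne | with_reducible apply Int.eq | with_reducible apply Int.mem | with_reducible apply Int.subset | with_reducible apply Int.ltN | with_reducible apply Int.leN | with_reducible_and_instances apply Int.le | with_reducible_and_instances apply Int.lt | with_reducible apply Int.all | with_reducible apply Int.ex | with_reducible apply IntF.fst |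 with_reducible apply IntF.snd | with_reducible apply IntF.app | with_reducible apply IntF.inl | with_reducible apply IntF.inr | with_reducible_and_instances apply IntF.mul | with_reducible_and_instances apply IntF.inv | with_reducible_and_instances apply IntF.add | with_reducible_and_instances apply IntF.sub | with_reducible_and_instances apply IntF.neg | with_reducible_and_instances apply IntF.smul | with_reducible apply Int.fin | with_reducible apply IntF.sep | with_reducible apply IntF.lam | with_reducible apply IntF.insert | with_reducible apply IntF.singleton | with_reducible apply IntF.union | with_reducible apply IntF.iimage | with_reducible apply IntF.ite | with_reducible apply IntF.the | with_reducible apply IntF.irec | with_reducible apply IntF.succ | with_reducible apply IntF.val | with_reducible apply IntF.mk | (with_reducible refine Int.comp ?_ ?_; assumption) | (with_reducible refine Int.comp₂ ?_ ?_ ?_; assumption) | (with_reducible refine Int.comp₃ ?_ ?_ ?_ ?_; assumption) | (with_reducible refine Int.comp₄ ?_ ?_ ?_ ?_ ?_; assumption) | (with_reducible refine IntF.comp ?_ ?_; assumption) | (with_reducible refine IntF.comp₂ ?_ ?_ ?_; assumption)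 | (with_reducible refine IntF.comp₃ ?_ ?_ ?_ ?_; assumption) | with_reducible apply IntF.pair))) ?_ ?_ n
    · exact fun y => ⟨y, (h.zero _ _).2 rfl⟩
    · intro n ih y
      obtain ⟨z, hz⟩ := h.down y
      obtain ⟨x, hx⟩ := ih z
      exact ⟨x, (h.succ _ _ _).2 ⟨z, hx, hz⟩⟩
  exact h1 y

/-- The jump. -/
theorem ZT.jump {W : α → Prop} (hW : Int N W) {b : α} (n : INat N) {x : α} :
    D (n, (b, x)) → ¬ W b → W x → ∃ y y', D ((0 : INat N).succ, (y, y')) ∧ ¬ W y ∧ W y' := by
  have hI := h.intD
  revert x
  suffices H : ∀ x, D (n, (b, x)) → ¬ W b → W x →
    ∃ y y', D ((0 : INat N).succ, (y, y')) ∧ ¬ W y ∧ W y' from fun {x} => H x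
  refine INat.ind (p := fun n => ∀ x, D (n, (b, x)) → ¬ W b → W x →
    ∃ y y', D ((0 : INat N).succ, (y, y')) ∧ ¬ W y ∧ W y') ?_ ?_ ?_ n
  · have h1 : Int N (fun q : INat N × α => D (q.1, (b, q.2))) := Int.comp (p := D)
      (f := fun q : INat N × α => (q.1, (b, q.2))) hI (by (repeat' (first | with_reducible exact IntF.id | with_reducible exact IntF.fst' | with_reducible exact IntF.snd' | with_reducible exact IntF.const _ | with_reducible exact Int.const _ | assumption | with_reducible apply Int.and | with_reducible apply Int.or | with_reducible apply Int.not | with_reducible apply Int.imp | with_reducible apply Int.iff | with_reducible apply Int.ne | with_reducible apply Int.eq | with_reducible apply Int.mem | with_reducible apply Int.subset | with_reducible apply Int.ltN | with_reducible apply Int.leN | with_reducible_and_instances apply Int.le | with_reducible_and_instances apply Int.lt | with_reducible apply Int.all | with_reducible apply Int.ex | with_reducible apply IntF.fst | with_reducible apply IntF.snd | with_reducible apply IntF.app | with_reducible apply IntF.inl | with_reducible apply IntF.inr | with_reducible_and_instances apply IntF.mul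 | with_reducible_and_instances apply IntF.inv | with_reducible_and_instances apply IntF.add | with_reducible_and_instances apply IntF.sub | with_reducible_and_instances apply IntF.neg | with_reducible_and_instances apply IntF.smul | with_reducible apply Int.fin | with_reducible apply IntF.sep | with_reducible apply IntF.lam | with_reducible apply IntF.insert | with_reducible apply IntF.singleton | with_reducible apply IntF.union | with_reducible apply IntF.iimage | with_reducible apply IntF.ite | with_reducible apply IntF.the | with_reducible apply IntF.irec | with_reducible apply IntF.succ | with_reducible apply IntF.val | with_reducible apply IntF.mk | (with_reducible refine Int.comp ?_ ?_; assumption) | (with_reducible refine Int.comp₂ ?_ ?_ ?_; assumption) | (with_reducible refine Int.comp₃ ?_ ?_ ?_ ?_; assumption) | (with_reducible refine Int.comp₄ ?_ ?_ ?_ ?_ ?_; assumption) | (with_reducible refine IntF.comp ?_ ?_; assumption) | (with_reducible refine IntF.comp₂ ?_ ?_ ?_; assumption) | (with_reducible refine IntF.comp₃ ?_ ?_ ?_ ?_; assumption) | with_reducible apply IntF.pair)))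
    have h2 : Int N (fun q : INat N × α => W q.2) := Int.comp (p := W)
      (f := fun q : INat N × α => q.2) hW (by (repeat' (first | with_reducible exact IntF.id | with_reducible exact IntF.fst' | with_reducible exact IntF.snd' | with_reducible exact IntF.const _ | with_reducible exact Int.const _ | assumption | with_reducible apply Int.and | with_reducible apply Int.or | with_reducible apply Int.not | with_reducible apply Int.imp | with_reducible apply Int.iff | with_reducible apply Int.ne | with_reducible apply Int.eq | with_reducible apply Int.mem | with_reducible apply Int.subset | with_reducible apply Int.ltN | with_reducible apply Int.leN | with_reducible_and_instances apply Int.le | with_reducible_and_instances apply Int.lt | with_reducible apply Int.all | with_reducible apply Int.ex | with_reducible apply IntF.fst | with_reducible apply IntF.snd | with_reducible apply IntF.app | with_reducible apply IntF.inl | with_reducible apply IntF.inr | with_reducible_and_instances apply IntF.mul | with_reducible_and_instances apply IntF.inv | with_reducible_and_instances apply IntF.add | with_reducible_and_instances apply IntF.sub | with_reducible_and_instances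 apply IntF.neg | with_reducible_and_instances apply IntF.smul | with_reducible apply Int.fin | with_reducible apply IntF.sep | with_reducible apply IntF.lam | with_reducible apply IntF.insert | with_reducible apply IntF.singleton | with_reducible apply IntF.union | with_reducible apply IntF.iimage | with_reducible apply IntF.ite | with_reducible apply IntF.the | with_reducible apply IntF.irec | with_reducible apply IntF.succ | with_reducible apply IntF.val | with_reducible apply IntF.mk | (with_reducible refine Int.comp ?_ ?_; assumption) | (with_reducible refine Int.comp₂ ?_ ?_ ?_; assumption) | (with_reducible refine Int.comp₃ ?_ ?_ ?_ ?_; assumption) | (with_reducible refine Int.comp₄ ?_ ?_ ?_ ?_ ?_; assumption) | (with_reducible refine IntF.comp ?_ ?_; assumption) | (with_reducible refine IntF.comp₂ ?_ ?_ ?_; assumption) | (with_reducible refine IntF.comp₃ ?_ ?_ ?_ ?_; assumption) | with_reducible apply IntF.pair)))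
    have h3 : Int N (fun q : INat N × α => D (q.1, (b, q.2)) → ¬ W b → W q.2 →
      ∃ y y', D ((0 : INat N).succ, (y, y')) ∧ ¬ W y ∧ W y') :=
      h1.imp ((Int.const _).imp (h2.imp (Int.const _)))
    exact Int.all h3
  · intro x h1 h2 h3
    rw [h.zero] at h1
    exact absurd (h1 ▸ h3) h2
  · intro n ih x h1 h2 h3
    obtain ⟨u, h4, h5⟩ := (h.succ _ _ _).1 h1
    by_cases h6 : W u
    · exact ih u h4 h2 h6
    · exact ⟨u, x, h5, h6, h3⟩

omit h

/-- The order. -/
def pre (D : INat N × (α × α) → Prop) (fb : α → INat N) (x y : α) : Prop :=
  fb x < fb y ∨ ∃ n, D (n, (x, y))

include h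

theorem ZT.int_pre : Int N (fun q : α × α => pre D fb q.1 q.2) := by
  have hI := h.intD
  have hF := h.intF
  unfold pre
  (repeat' (first | with_reducible exact IntF.id | with_reducible exact IntF.fst' | with_reducible exact IntF.snd' | with_reducible exact IntF.const _ | with_reducible exact Int.const _ | assumption | with_reducible apply Int.and | with_reducible apply Int.or | with_reducible apply Int.not | with_reducible apply Int.imp | with_reducible apply Int.iff | with_reducible apply Int.ne | with_reducible apply Int.eq | with_reducible apply Int.mem | with_reducible apply Int.subset | with_reducible apply Int.ltN | with_reducible apply Int.leN | with_reducible_and_instances apply Int.le | with_reducible_and_instances apply Int.lt | with_reducible apply Int.all | with_reducible apply Int.ex | with_reducible apply IntF.fst | with_reducible apply IntF.snd | with_reducible apply IntF.app | with_reducible apply IntF.inl | with_reducible apply IntF.inr | with_reducible_and_instances apply IntF.mul | with_reducible_and_instances apply IntF.inv | with_reducible_and_instances apply IntF.add | with_reducible_and_instances apply IntF.sub | with_reducible_and_instances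 apply IntF.neg | with_reducible_and_instances apply IntF.smul | with_reducible apply Int.fin | with_reducible apply IntF.sep | with_reducible apply IntF.lam | with_reducible apply IntF.insert | with_reducible apply IntF.singleton | with_reducible apply IntF.union | with_reducible apply IntF.iimage | with_reducible apply IntF.ite | with_reducible apply IntF.the | with_reducible apply IntF.irec | with_reducible apply IntF.succ | with_reducible apply IntF.val | with_reducible apply IntF.mk | (with_reducible refine Int.comp ?_ ?_; assumption) | (with_reducible refine Int.comp₂ ?_ ?_ ?_; assumption) | (with_reducible refine Int.comp₃ ?_ ?_ ?_ ?_; assumption) | (with_reducible refine Int.comp₄ ?_ ?_ ?_ ?_ ?_; assumption) | (with_reducible refine IntF.comp ?_ ?_; assumption) | (with_reducible refine IntF.comp₂ ?_ ?_ ?_; assumption) | (with_reducible refine IntF.comp₃ ?_ ?_ ?_ ?_; assumption) | with_reducible apply IntF.pair))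

theorem ZT.pre_refl (x : α) : pre D fb x x := Or.inr ⟨0, (h.zero _ _).2 rfl⟩

theorem ZT.pre_le {x y : α} (h1 : pre D fb x y) : fb x ≤ fb y := by
  rcases h1 with h1 | ⟨n, h1⟩
  · exact h1.le
  · exact (h.fib _ _ _ h1).le

theorem ZT.pre_trans {x y z : α} (h1 : pre D fb x y) (h2 : pre D fb y z) : pre D fb x z := by
  rcases h1 with h1 | ⟨m, h1⟩
  · exact Or.inl (lt_of_lt_of_le h1 (h.pre_le h2))
  · rcases h2 with h2 | ⟨n, h2⟩
    · exact Or.inl ((h.fib _ _ _ h1).symm ▸ h2)
    · exact Or.inr ⟨m + n, h.tr _ _ _ h1 _ _ h2⟩

theorem ZT.pre_anti {x y : α} (h1 : pre D fb x y) (h2 : pre D fb y x) : x = y := by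
  have h3 : fb x = fb y := le_antisymm (h.pre_le h1) (h.pre_le h2)
  rcases h1 with h1 | ⟨m, h1⟩
  · exact absurd h1 (h3 ▸ lt_irrefl _)
  · rcases h2 with h2 | ⟨n, h2⟩
    · exact absurd h2 (h3 ▸ lt_irrefl _)
    · exact h.anti h1 h2

theorem ZT.pre_total (x y : α) : pre D fb x y ∨ pre D fb y x := by
  rcases lt_trichotomy (fb x) (fb y) with h1 | h1 | h1
  · exact Or.inl (Or.inl h1)
  · obtain ⟨n, h2 | h2⟩ := h.total x y h1
    · exact Or.inl (Or.inr ⟨n, h2⟩)
    · exact Or.inr (Or.inr ⟨n, h2⟩)
  · exact Or.inr (Or.inl h1)

/-- The predecessor. -/
theorem ZT.pre_pred {x y z : α} (h1 : D ((0 : INat N).succ, (y, z))) (h2 : pre D fb x z)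
    (h3 : x ≠ z) : pre D fb x y := by
  have h4 := h.fib _ _ _ h1
  rcases h2 with h2 | ⟨n, h2⟩
  · exact Or.inl (h4.symm ▸ h2)
  · rcases INat.eq_zero_or_succ n with rfl | ⟨k, rfl⟩
    · exact absurd ((h.zero _ _).1 h2) h3
    · obtain ⟨u, h5, h6⟩ := (h.succ _ _ _).1 h2
      obtain rfl := h.downU _ _ _ h6 h1
      exact Or.inr ⟨k, h5⟩

theorem ZT.not_pre_pred {x y : α} (h1 : D ((0 : INat N).succ, (x, y))) : ¬ pre D fb y x := by
  intro h2
  have h3 : pre D fb x y := Or.inr ⟨_, h1⟩
  obtain rfl := h.pre_anti h2 h3
  exact h.acyc _ _ h1

omit h

variable (N α) in
/-- The points: `inl 0` is the last point, `inl n.succ` is the `n`-th limit point. -/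
abbrev Pt : Type u := INat N ⊕ α

/-- The initial segments. -/
def lep (D : INat N × (α × α) → Prop) (fb : α → INat N) (z : Pt N α) (x : α) : Prop :=
  (∃ n : INat N, z = Sum.inl n.succ ∧ n ≤ fb x) ∨ ∃ y, z = Sum.inr y ∧ pre D fb y x

theorem lep_inr {x y : α} : lep D fb (Sum.inr y : Pt N α) x ↔ pre D fb y x := by
  constructor
  · rintro (⟨n, h1, -⟩ | ⟨z, h1, h2⟩)
    · simp at h1
    · rw [Sum.inr.inj h1]
      exact h2
  · exact fun h => Or.inr ⟨y, rfl, h⟩

theorem lep_inl {n : INat N} {x : α} : lep D fb (Sum.inl n.succ : Pt N α) x ↔ n ≤ fb x := by
  constructor
  · rintro (⟨m, h1, h2⟩ | ⟨z, h1, h2⟩)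
    · rw [INat.succ_inj (Sum.inl.inj h1)]
      exact h2
    · simp at h1
  · exact fun h => Or.inl ⟨n, rfl, h⟩

theorem not_lep_zero {x : α} : ¬ lep D fb (Sum.inl 0 : Pt N α) x := by
  rintro (⟨m, h1, h2⟩ | ⟨z, h1, h2⟩)
  · exact INat.succ_ne_zero m (Sum.inl.inj h1).symm
  · simp at h1

include h

theorem ZT.int_lep : Int N (fun q : Pt N α × α => lep D fb q.1 q.2) := by
  have h1 := h.int_pre
  have hF := h.intF
  unfold lep
  have h2 : Int N (fun q : (Pt N α × α) × α => pre D fb q.2 q.1.2) := Int.comp
    (p := fun q : α × α => pre D fb q.1 q.2) (f := fun q : (Pt N α × α) × α => (q.2, q.1.2)) h1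
    (by (repeat' (first | with_reducible exact IntF.id | with_reducible exact IntF.fst' | with_reducible exact IntF.snd' | with_reducible exact IntF.const _ | with_reducible exact Int.const _ | assumption | with_reducible apply Int.and | with_reducible apply Int.or | with_reducible apply Int.not | with_reducible apply Int.imp | with_reducible apply Int.iff | with_reducible apply Int.ne | with_reducible apply Int.eq | with_reducible apply Int.mem | with_reducible apply Int.subset | with_reducible apply Int.ltN | with_reducible apply Int.leN | with_reducible_and_instances apply Int.le | with_reducible_and_instances apply Int.lt | with_reducible apply Int.all | with_reducible apply Int.ex | with_reducible apply IntF.fst | with_reducible apply IntF.snd | with_reducible apply IntF.app | with_reducible apply IntF.inl | with_reducible apply IntF.inr | with_reducible_and_instances apply IntF.mul | with_reducible_and_instances apply IntF.inv | with_reducible_and_instances apply IntF.add | with_reducible_and_instances apply IntF.sub | with_reducible_and_instances apply IntF.neg | with_reducible_and_instances apply IntF.smul | with_reducible apply Int.fin | with_reducible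 apply IntF.sep | with_reducible apply IntF.lam | with_reducible apply IntF.insert | with_reducible apply IntF.singleton | with_reducible apply IntF.union | with_reducible apply IntF.iimage | with_reducible apply IntF.ite | with_reducible apply IntF.the | with_reducible apply IntF.irec | with_reducible apply IntF.succ | with_reducible apply IntF.val | with_reducible apply IntF.mk | (with_reducible refine Int.comp ?_ ?_; assumption) | (with_reducible refine Int.comp₂ ?_ ?_ ?_; assumption) | (with_reducible refine Int.comp₃ ?_ ?_ ?_ ?_; assumption) | (with_reducible refine Int.comp₄ ?_ ?_ ?_ ?_ ?_; assumption) | (with_reducible refine IntF.comp ?_ ?_; assumption) | (with_reducible refine IntF.comp₂ ?_ ?_ ?_; assumption) | (with_reducible refine IntF.comp₃ ?_ ?_ ?_ ?_; assumption) | with_reducible apply IntF.pair)))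
  (repeat' (first | with_reducible exact IntF.id | with_reducible exact IntF.fst' | with_reducible exact IntF.snd' | with_reducible exact IntF.const _ | with_reducible exact Int.const _ | assumption | with_reducible apply Int.and | with_reducible apply Int.or | with_reducible apply Int.not | with_reducible apply Int.imp | with_reducible apply Int.iff | with_reducible apply Int.ne | with_reducible apply Int.eq | with_reducible apply Int.mem | with_reducible apply Int.subset | with_reducible apply Int.ltN | with_reducible apply Int.leN | with_reducible_and_instances apply Int.le | with_reducible_and_instances apply Int.lt | with_reducible apply Int.all | with_reducible apply Int.ex | with_reducible apply IntF.fst | with_reducible apply IntF.snd | with_reducible apply IntF.app | with_reducible apply IntF.inl | with_reducible apply IntF.inr | with_reducible_and_instances apply IntF.mul | with_reducible_and_instances apply IntF.inv | with_reducible_and_instances apply IntF.add | with_reducible_and_instances apply IntF.sub | with_reducible_and_instances apply IntF.neg | with_reducible_and_instances apply IntF.smul | with_reducible apply Int.fin | with_reducible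 apply IntF.sep | with_reducible apply IntF.lam | with_reducible apply IntF.insert | with_reducible apply IntF.singleton | with_reducible apply IntF.union | with_reducible apply IntF.iimage | with_reducible apply IntF.ite | with_reducible apply IntF.the | with_reducible apply IntF.irec | with_reducible apply IntF.succ | with_reducible apply IntF.val | with_reducible apply IntF.mk | (with_reducible refine Int.comp ?_ ?_; assumption) | (with_reducible refine Int.comp₂ ?_ ?_ ?_; assumption) | (with_reducible refine Int.comp₃ ?_ ?_ ?_ ?_; assumption) | (with_reducible refine Int.comp₄ ?_ ?_ ?_ ?_ ?_; assumption) | (with_reducible refine IntF.comp ?_ ?_; assumption) | (with_reducible refine IntF.comp₂ ?_ ?_ ?_; assumption) | (with_reducible refine IntF.comp₃ ?_ ?_ ?_ ?_; assumption) | with_reducible apply IntF.pair))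

theorem ZT.lep_mono {z : Pt N α} {x y : α} (h1 : lep D fb z x) (h2 : pre D fb x y) :
    lep D fb z y := by
  rcases h1 with ⟨n, rfl, h3⟩ | ⟨w, rfl, h3⟩
  · exact Or.inl ⟨n, rfl, h3.trans (h.pre_le h2)⟩
  · exact Or.inr ⟨w, rfl, h.pre_trans h3 h2⟩

theorem ZT.lep_total {z : Pt N α} {x : α} (h1 : ¬ lep D fb z x) {y : α} (h2 : pre D fb y x) :
    ¬ lep D fb z y := fun h3 => h1 (h.lep_mono h3 h2)

/-- The points are separated. -/
theorem ZT.sepp {z z' : Pt N α} (h1 : ∀ x, lep D fb z x ↔ lep D fb z' x) : z = z' := by
  have key : ∀ n : INat N, ∀ y : α, ¬ ∀ x, lep D fb (Sum.inl n : Pt N α) x ↔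
      lep D fb (Sum.inr y : Pt N α) x := by
    intro n y h2
    rcases INat.eq_zero_or_succ n with rfl | ⟨k, rfl⟩
    · exact not_lep_zero ((h2 y).2 (lep_inr.2 (h.pre_refl y)))
    · have h3 := lep_inl.1 ((h2 y).2 (lep_inr.2 (h.pre_refl y)))
      obtain ⟨x, hx⟩ := h.down y
      have h4 := h.fib _ _ _ hx
      exact h.not_pre_pred hx (lep_inr.1 ((h2 x).1 (lep_inl.2 (h4.symm ▸ h3))))
  rcases z with n | y <;> rcases z' with m | y'
  · rcases INat.eq_zero_or_succ n with rfl | ⟨k, rfl⟩ <;>
      rcases INat.eq_zero_or_succ m with rfl | ⟨l, rfl⟩
    · rfl
    · obtain ⟨x, hx⟩ := h.ne l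
      exact absurd ((h1 x).2 (lep_inl.2 hx.symm.le)) not_lep_zero
    · obtain ⟨x, hx⟩ := h.ne k
      exact absurd ((h1 x).1 (lep_inl.2 hx.symm.le)) not_lep_zero
    · obtain ⟨x, hx⟩ := h.ne k
      obtain ⟨y, hy⟩ := h.ne l
      have h2 := lep_inl.1 ((h1 x).1 (lep_inl.2 hx.symm.le))
      have h3 := lep_inl.1 ((h1 y).2 (lep_inl.2 hy.symm.le))
      rw [hx] at h2
      rw [hy] at h3
      rw [le_antisymm h3 h2]
  · exact absurd h1 (key n y')
  · exact absurd (fun x => (h1 x).symm) (key m y)
  · rw [h.pre_anti (lep_inr.1 ((h1 y').2 (lep_inr.2 (h.pre_refl _))))
      (lep_inr.1 ((h1 y).1 (lep_inr.2 (h.pre_refl _))))]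

/-- The cuts. -/
theorem ZT.cut {φ : α → Prop} (hφ : Int N φ) (hm : ∀ x y, φ x → pre D fb x y → φ y) :
    ∃ z : Pt N α, ∀ x, φ x ↔ lep D fb z x := by
  by_cases hA : ∃ x y, fb x = fb y ∧ φ x ∧ ¬ φ y
  · obtain ⟨x, y, h1, h2, h3⟩ := hA
    have h4 : ∃ n, D (n, (y, x)) := by
      obtain ⟨n, h4 | h4⟩ := h.total x y h1
      · exact absurd (hm _ _ h2 (Or.inr ⟨n, h4⟩)) h3
      · exact ⟨n, h4⟩
    obtain ⟨n, h4⟩ := h4
    obtain ⟨v, w, h5, h6, h7⟩ := h.jump hφ n h4 h3 h2
    refine ⟨Sum.inr w, fun t => ?_⟩
    rw [lep_inr]
    constructor
    · intro h8
      by_contra h9
      rcases h.pre_total w t with h10 | h10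
      · exact h9 h10
      · by_cases h11 : t = w
        · exact h9 (h11 ▸ h.pre_refl w)
        · exact h6 (hm _ _ h8 (h.pre_pred h5 h10 h11))
    · exact fun h8 => hm _ _ h7 h8
  · have hB : ∀ x y, fb x = fb y → φ x → φ y := fun x y h1 h2 => by
      by_contra h3
      exact hA ⟨x, y, h1, h2, h3⟩
    by_cases hC : ∃ x, φ x
    · have hF := h.intF
      obtain ⟨n, ⟨x, hx, hx'⟩, hmin⟩ := INat.exists_least (p := fun n => ∃ x, fb x = n ∧ φ x)
        (by (repeat' (first | with_reducible exact IntF.id | with_reducible exact IntF.fst' | with_reducible exact IntF.snd' | with_reducible exact IntF.const _ | with_reducible exact Int.const _ | assumption | with_reducible apply Int.and | with_reducible apply Int.or | with_reducible apply Int.not | with_reducible apply Int.imp | with_reducible apply Int.iff | with_reducible apply Int.ne | with_reducible apply Int.eq | with_reducible apply Int.mem | with_reducible apply Int.subset | with_reducible apply Int.ltN | with_reducible apply Int.leN | with_reducible_and_instances apply Int.le | with_reducible_and_instances apply Int.lt | with_reducible apply Int.all | with_reducible apply Int.ex | with_reducible apply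 IntF.fst | with_reducible apply IntF.snd | with_reducible apply IntF.app | with_reducible apply IntF.inl | with_reducible apply IntF.inr | with_reducible_and_instances apply IntF.mul | with_reducible_and_instances apply IntF.inv | with_reducible_and_instances apply IntF.add | with_reducible_and_instances apply IntF.sub | with_reducible_and_instances apply IntF.neg | with_reducible_and_instances apply IntF.smul | with_reducible apply Int.fin | with_reducible apply IntF.sep | with_reducible apply IntF.lam | with_reducible apply IntF.insert | with_reducible apply IntF.singleton | with_reducible apply IntF.union | with_reducible apply IntF.iimage | with_reducible apply IntF.ite | with_reducible apply IntF.the | with_reducible apply IntF.irec | with_reducible apply IntF.succ | with_reducible apply IntF.val | with_reducible apply IntF.mk | (with_reducible refine Int.comp ?_ ?_; assumption) | (with_reducible refine Int.comp₂ ?_ ?_ ?_; assumption) | (with_reducible refine Int.comp₃ ?_ ?_ ?_ ?_; assumption) | (with_reducible refine Int.comp₄ ?_ ?_ ?_ ?_ ?_; assumption) | (with_reducible refine IntF.comp ?_ ?_; assumption) | (with_reducible refine IntF.comp₂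 ?_ ?_ ?_; assumption) | (with_reducible refine IntF.comp₃ ?_ ?_ ?_ ?_; assumption) | with_reducible apply IntF.pair))) (by
          obtain ⟨x, hx⟩ := hC
          exact ⟨fb x, x, rfl, hx⟩)
      refine ⟨Sum.inl n.succ, fun y => ?_⟩
      rw [lep_inl]
      constructor
      · exact fun h1 => hmin _ ⟨y, rfl, h1⟩
      · intro h1
        rcases h1.lt_or_eq with h1 | h1
        · exact hm _ _ hx' (Or.inl (hx.symm ▸ h1))
        · exact hB x y (hx.trans h1) hx'
    · refine ⟨Sum.inl 0, fun x => ⟨fun h1 => absurd ⟨x, h1⟩ hC, fun h1 => absurd h1 not_lep_zero⟩⟩

end Pool.Agent.V11257Z
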