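import Pool.Agent.V11257.Zt2

/-!
# A sequence of copies of the integers: the topology
-/

set_option maxHeartbeats 1000000
set_option linter.all false
set_option synthInstance.maxSize 2000

namespace Pool.Agent.V11257Z

open FirstOrder FirstOrder.Language
open Pool.Agent.Helper672.ZFA
open Pool.Agent.Helper672.Plain (LSet)
open Pool.Agent.H310

universe u

variable {N : Type u} [L.Structure N] [hN : IsModel N] {α : Type u} [ITy N α]
variable {D : INat N × (α × α) → Prop} {fb : α → INat N}

variable (N α) in
/-- The bounds: `inl x` is a bound, `inr n` is no bound. -/
abbrev Bd : Type u := α ⊕ INat N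

/-- Above the lower bound. -/
def gt (D : INat N × (α × α) → Prop) (fb : α → INat N) (z : Pt N α) (l : Bd N α) : Prop :=
  ∀ x, l = Sum.inl x → ¬ lep D fb z x

/-- Below the upper bound. -/
def leo (D : INat N × (α × α) → Prop) (fb : α → INat N) (z : Pt N α) (l : Bd N α) : Prop :=
  ∀ x, l = Sum.inl x → lep D fb z x

theorem gt_inl {z : Pt N α} {x : α} : gt D fb z (Sum.inl x) ↔ ¬ lep D fb z x :=
  ⟨fun h => h x rfl, fun h y hy => Sum.inl.inj hy ▸ h⟩

theorem gt_inr {z : Pt N α} {n : INat N} : gt D fb z (Sum.inr n) := fun y hy => by simp at hy

theorem leo_inl {z : Pt N α} {x : α} : leo D fb z (Sum.inl x) ↔ lep D fb z x :=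
  ⟨fun h => h x rfl, fun h y hy => Sum.inl.inj hy ▸ h⟩

theorem leo_inr {z : Pt N α} {n : INat N} : leo D fb z (Sum.inr n) := fun y hy => by simp at hy

/-- The open sets of the subspace `P`. -/
def OP (D : INat N × (α × α) → Prop) (fb : α → INat N) (P : Pt N α → Prop)
    (U : IPow N (Pt N α)) : Prop :=
  (∀ z, z ∈ U → P z) ∧ ∀ z, z ∈ U → ∃ l u, gt D fb z l ∧ leo D fb z u ∧
    ∀ w, P w → gt D fb w l → leo D fb w u → w ∈ U

variable (h : ZT N D fb) {P : Pt N α → Prop}

include h

theorem ZT.int_gt : Int N (fun q : Pt N α × Bd N α => gt D fb q.1 q.2) := by
  have h1 := h.int_lep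
  unfold gt
  have h2 : Int N (fun q : (Pt N α × Bd N α) × α => lep D fb q.1.1 q.2) := Int.comp
    (p := fun q : Pt N α × α => lep D fb q.1 q.2)
    (f := fun q : (Pt N α × Bd N α) × α => (q.1.1, q.2)) h1 (by (repeat' (first | with_reducible exact IntF.id | with_reducible exact IntF.fst' | with_reducible exact IntF.snd' | with_reducible exact IntF.const _ | with_reducible exact Int.const _ | assumption | with_reducible apply Int.and | with_reducible apply Int.or | with_reducible apply Int.not | with_reducible apply Int.imp | with_reducible apply Int.iff | with_reducible apply Int.ne | with_reducible apply Int.eq | with_reducible apply Int.mem | with_reducible apply Int.subset | with_reducible apply Int.ltN | with_reducible apply Int.leN | with_reducible_and_instances apply Int.le | with_reducible_and_instances apply Int.lt | with_reducible apply Int.all | with_reducible apply Int.ex | with_reducible apply IntF.fst | with_reducible apply IntF.snd | with_reducible apply IntF.app | with_reducible apply IntF.inl | with_reducible apply IntF.inr | with_reducible_and_instances apply IntF.mul | with_reducible_and_instances apply IntF.inv | with_reducible_and_instances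 apply IntF.add | with_reducible_and_instances apply IntF.sub | with_reducible_and_instances apply IntF.neg | with_reducible_and_instances apply IntF.smul | with_reducible apply Int.fin | with_reducible apply IntF.sep | with_reducible apply IntF.lam | with_reducible apply IntF.insert | with_reducible apply IntF.singleton | with_reducible apply IntF.union | with_reducible apply IntF.iimage | with_reducible apply IntF.ite | with_reducible apply IntF.the | with_reducible apply IntF.irec | with_reducible apply IntF.succ | with_reducible apply IntF.val | with_reducible apply IntF.mk | (with_reducible refine Int.comp ?_ ?_; assumption) | (with_reducible refine Int.comp₂ ?_ ?_ ?_; assumption) | (with_reducible refine Int.comp₃ ?_ ?_ ?_ ?_; assumption) | (with_reducible refine Int.comp₄ ?_ ?_ ?_ ?_ ?_; assumption) | (with_reducible refine IntF.comp ?_ ?_; assumption) | (with_reducible refine IntF.comp₂ ?_ ?_ ?_; assumption) | (with_reducible refine IntF.comp₃ ?_ ?_ ?_ ?_; assumption) | with_reducible apply IntF.pair)))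
  (repeat' (first | with_reducible exact IntF.id | with_reducible exact IntF.fst' | with_reducible exact IntF.snd' | with_reducible exact IntF.const _ | with_reducible exact Int.const _ | assumption | with_reducible apply Int.and | with_reducible apply Int.or | with_reducible apply Int.not | with_reducible apply Int.imp | with_reducible apply Int.iff | with_reducible apply Int.ne | with_reducible apply Int.eq | with_reducible apply Int.mem | with_reducible apply Int.subset | with_reducible apply Int.ltN | with_reducible apply Int.leN | with_reducible_and_instances apply Int.le | with_reducible_and_instances apply Int.lt | with_reducible apply Int.all | with_reducible apply Int.ex | with_reducible apply IntF.fst | with_reducible apply IntF.snd | with_reducible apply IntF.app | with_reducible apply IntF.inl | with_reducible apply IntF.inr | with_reducible_and_instances apply IntF.mul | with_reducible_and_instances apply IntF.inv | with_reducible_and_instances apply IntF.add | with_reducible_and_instances apply IntF.sub | with_reducible_and_instances apply IntF.neg | with_reducible_and_instances apply IntF.smul | with_reducible apply Int.fin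 | with_reducible apply IntF.sep | with_reducible apply IntF.lam | with_reducible apply IntF.insert | with_reducible apply IntF.singleton | with_reducible apply IntF.union | with_reducible apply IntF.iimage | with_reducible apply IntF.ite | with_reducible apply IntF.the | with_reducible apply IntF.irec | with_reducible apply IntF.succ | with_reducible apply IntF.val | with_reducible apply IntF.mk | (with_reducible refine Int.comp ?_ ?_; assumption) | (with_reducible refine Int.comp₂ ?_ ?_ ?_; assumption) | (with_reducible refine Int.comp₃ ?_ ?_ ?_ ?_; assumption) | (with_reducible refine Int.comp₄ ?_ ?_ ?_ ?_ ?_; assumption) | (with_reducible refine IntF.comp ?_ ?_; assumption) | (with_reducible refine IntF.comp₂ ?_ ?_ ?_; assumption) | (with_reducible refine IntF.comp₃ ?_ ?_ ?_ ?_; assumption) | with_reducible apply IntF.pair))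

theorem ZT.int_leo : Int N (fun q : Pt N α × Bd N α => leo D fb q.1 q.2) := by
  have h1 := h.int_lep
  unfold leo
  have h2 : Int N (fun q : (Pt N α × Bd N α) × α => lep D fb q.1.1 q.2) := Int.comp
    (p := fun q : Pt N α × α => lep D fb q.1 q.2)
    (f := fun q : (Pt N α × Bd N α) × α => (q.1.1, q.2)) h1 (by (repeat' (first | with_reducible exact IntF.id | with_reducible exact IntF.fst' | with_reducible exact IntF.snd' | with_reducible exact IntF.const _ | with_reducible exact Int.const _ | assumption | with_reducible apply Int.and | with_reducible apply Int.or | with_reducible apply Int.not | with_reducible apply Int.imp | with_reducible apply Int.iff | with_reducible apply Int.ne | with_reducible apply Int.eq | with_reducible apply Int.mem | with_reducible apply Int.subset | with_reducible apply Int.ltN | with_reducible apply Int.leN | with_reducible_and_instances apply Int.le | with_reducible_and_instances apply Int.lt | with_reducible apply Int.all | with_reducible apply Int.ex | with_reducible apply IntF.fst | with_reducible apply IntF.snd | with_reducible apply IntF.app | with_reducible apply IntF.inl | with_reducible apply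 IntF.inr | with_reducible_and_instances apply IntF.mul | with_reducible_and_instances apply IntF.inv | with_reducible_and_instances apply IntF.add | with_reducible_and_instances apply IntF.sub | with_reducible_and_instances apply IntF.neg | with_reducible_and_instances apply IntF.smul | with_reducible apply Int.fin | with_reducible apply IntF.sep | with_reducible apply IntF.lam | with_reducible apply IntF.insert | with_reducible apply IntF.singleton | with_reducible apply IntF.union | with_reducible apply IntF.iimage | with_reducible apply IntF.ite | with_reducible apply IntF.the | with_reducible apply IntF.irec | with_reducible apply IntF.succ | with_reducible apply IntF.val | with_reducible apply IntF.mk | (with_reducible refine Int.comp ?_ ?_; assumption) | (with_reducible refine Int.comp₂ ?_ ?_ ?_; assumption) | (with_reducible refine Int.comp₃ ?_ ?_ ?_ ?_; assumption) | (with_reducible refine Int.comp₄ ?_ ?_ ?_ ?_ ?_; assumption) | (with_reducible refine IntF.comp ?_ ?_; assumption) | (with_reducible refine IntF.comp₂ ?_ ?_ ?_; assumption) | (with_reducible refine IntF.comp₃ ?_ ?_ ?_ ?_; assumption) | with_reducible apply IntF.pair)))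
  (repeat' (first | with_reducible exact IntF.id | with_reducible exact IntF.fst' | with_reducible exact IntF.snd' | with_reducible exact IntF.const _ | with_reducible exact Int.const _ | assumption | with_reducible apply Int.and | with_reducible apply Int.or | with_reducible apply Int.not | with_reducible apply Int.imp | with_reducible apply Int.iff | with_reducible apply Int.ne | with_reducible apply Int.eq | with_reducible apply Int.mem | with_reducible apply Int.subset | with_reducible apply Int.ltN | with_reducible apply Int.leN | with_reducible_and_instances apply Int.le | with_reducible_and_instances apply Int.lt | with_reducible apply Int.all | with_reducible apply Int.ex | with_reducible apply IntF.fst | with_reducible apply IntF.snd | with_reducible apply IntF.app | with_reducible apply IntF.inl | with_reducible apply IntF.inr | with_reducible_and_instances apply IntF.mul | with_reducible_and_instances apply IntF.inv | with_reducible_and_instances apply IntF.add | with_reducible_and_instances apply IntF.sub | with_reducible_and_instances apply IntF.neg | with_reducible_and_instances apply IntF.smul | with_reducible apply Int.fin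 | with_reducible apply IntF.sep | with_reducible apply IntF.lam | with_reducible apply IntF.insert | with_reducible apply IntF.singleton | with_reducible apply IntF.union | with_reducible apply IntF.iimage | with_reducible apply IntF.ite | with_reducible apply IntF.the | with_reducible apply IntF.irec | with_reducible apply IntF.succ | with_reducible apply IntF.val | with_reducible apply IntF.mk | (with_reducible refine Int.comp ?_ ?_; assumption) | (with_reducible refine Int.comp₂ ?_ ?_ ?_; assumption) | (with_reducible refine Int.comp₃ ?_ ?_ ?_ ?_; assumption) | (with_reducible refine Int.comp₄ ?_ ?_ ?_ ?_ ?_; assumption) | (with_reducible refine IntF.comp ?_ ?_; assumption) | (with_reducible refine IntF.comp₂ ?_ ?_ ?_; assumption) | (with_reducible refine IntF.comp₃ ?_ ?_ ?_ ?_; assumption) | with_reducible apply IntF.pair))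

theorem ZT.int_OP (hP : Int N P) : Int N (OP D fb P) := by
  have h1 := h.int_gt
  have h2 := h.int_leo
  unfold OP
  have h3 : Int N (fun q : (((IPow N (Pt N α) × Pt N α) × Bd N α) × Bd N α) =>
      gt D fb q.1.1.2 q.1.2) := Int.comp
    (p := fun q : Pt N α × Bd N α => gt D fb q.1 q.2)
    (f := fun q : (((IPow N (Pt N α) × Pt N α) × Bd N α) × Bd N α) => (q.1.1.2, q.1.2)) h1 (by (repeat' (first | with_reducible exact IntF.id | with_reducible exact IntF.fst' | with_reducible exact IntF.snd' | with_reducible exact IntF.const _ | with_reducible exact Int.const _ | assumption | with_reducible apply Int.and | with_reducible apply Int.or | with_reducible apply Int.not | with_reducible apply Int.imp | with_reducible apply Int.iff | with_reducible apply Int.ne | with_reducible apply Int.eq | with_reducible apply Int.mem | with_reducible apply Int.subset | with_reducible apply Int.ltN | with_reducible apply Int.leN | with_reducible_and_instances apply Int.le | with_reducible_and_instances apply Int.lt | with_reducible apply Int.all | with_reducible apply Int.ex | with_reducible apply IntF.fst | with_reducible apply IntF.snd | with_reducible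 apply IntF.app | with_reducible apply IntF.inl | with_reducible apply IntF.inr | with_reducible_and_instances apply IntF.mul | with_reducible_and_instances apply IntF.inv | with_reducible_and_instances apply IntF.add | with_reducible_and_instances apply IntF.sub | with_reducible_and_instances apply IntF.neg | with_reducible_and_instances apply IntF.smul | with_reducible apply Int.fin | with_reducible apply IntF.sep | with_reducible apply IntF.lam | with_reducible apply IntF.insert | with_reducible apply IntF.singleton | with_reducible apply IntF.union | with_reducible apply IntF.iimage | with_reducible apply IntF.ite | with_reducible apply IntF.the | with_reducible apply IntF.irec | with_reducible apply IntF.succ | with_reducible apply IntF.val | with_reducible apply IntF.mk | (with_reducible refine Int.comp ?_ ?_; assumption) | (with_reducible refine Int.comp₂ ?_ ?_ ?_; assumption) | (with_reducible refine Int.comp₃ ?_ ?_ ?_ ?_; assumption) | (with_reducible refine Int.comp₄ ?_ ?_ ?_ ?_ ?_; assumption) | (with_reducible refine IntF.comp ?_ ?_; assumption) | (with_reducible refine IntF.comp₂ ?_ ?_ ?_; assumption) | (with_reducible refine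 IntF.comp₃ ?_ ?_ ?_ ?_; assumption) | with_reducible apply IntF.pair)))
  have h4 : Int N (fun q : (((IPow N (Pt N α) × Pt N α) × Bd N α) × Bd N α) =>
      leo D fb q.1.1.2 q.2) := Int.comp
    (p := fun q : Pt N α × Bd N α => leo D fb q.1 q.2)
    (f := fun q : (((IPow N (Pt N α) × Pt N α) × Bd N α) × Bd N α) => (q.1.1.2, q.2)) h2 (by (repeat' (first | with_reducible exact IntF.id | with_reducible exact IntF.fst' | with_reducible exact IntF.snd' | with_reducible exact IntF.const _ | with_reducible exact Int.const _ | assumption | with_reducible apply Int.and | with_reducible apply Int.or | with_reducible apply Int.not | with_reducible apply Int.imp | with_reducible apply Int.iff | with_reducible apply Int.ne | with_reducible apply Int.eq | with_reducible apply Int.mem | with_reducible apply Int.subset | with_reducible apply Int.ltN | with_reducible apply Int.leN | with_reducible_and_instances apply Int.le | with_reducible_and_instances apply Int.lt | with_reducible apply Int.all | with_reducible apply Int.ex | with_reducible apply IntF.fst | with_reducible apply IntF.snd | with_reducible apply IntF.app | with_reducible apply IntF.inl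 | with_reducible apply IntF.inr | with_reducible_and_instances apply IntF.mul | with_reducible_and_instances apply IntF.inv | with_reducible_and_instances apply IntF.add | with_reducible_and_instances apply IntF.sub | with_reducible_and_instances apply IntF.neg | with_reducible_and_instances apply IntF.smul | with_reducible apply Int.fin | with_reducible apply IntF.sep | with_reducible apply IntF.lam | with_reducible apply IntF.insert | with_reducible apply IntF.singleton | with_reducible apply IntF.union | with_reducible apply IntF.iimage | with_reducible apply IntF.ite | with_reducible apply IntF.the | with_reducible apply IntF.irec | with_reducible apply IntF.succ | with_reducible apply IntF.val | with_reducible apply IntF.mk | (with_reducible refine Int.comp ?_ ?_; assumption) | (with_reducible refine Int.comp₂ ?_ ?_ ?_; assumption) | (with_reducible refine Int.comp₃ ?_ ?_ ?_ ?_; assumption) | (with_reducible refine Int.comp₄ ?_ ?_ ?_ ?_ ?_; assumption) | (with_reducible refine IntF.comp ?_ ?_; assumption) | (with_reducible refine IntF.comp₂ ?_ ?_ ?_; assumption) | (with_reducible refine IntF.comp₃ ?_ ?_ ?_ ?_; assumption) | with_reducible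 apply IntF.pair)))
  have h5 : Int N (fun q : ((((IPow N (Pt N α) × Pt N α) × Bd N α) × Bd N α) × Pt N α) =>
      gt D fb q.2 q.1.1.2) := Int.comp
    (p := fun q : Pt N α × Bd N α => gt D fb q.1 q.2)
    (f := fun q : ((((IPow N (Pt N α) × Pt N α) × Bd N α) × Bd N α) × Pt N α) => (q.2, q.1.1.2)) h1
      (by (repeat' (first | with_reducible exact IntF.id | with_reducible exact IntF.fst' | with_reducible exact IntF.snd' | with_reducible exact IntF.const _ | with_reducible exact Int.const _ | assumption | with_reducible apply Int.and | with_reducible apply Int.or | with_reducible apply Int.not | with_reducible apply Int.imp | with_reducible apply Int.iff | with_reducible apply Int.ne | with_reducible apply Int.eq | with_reducible apply Int.mem | with_reducible apply Int.subset | with_reducible apply Int.ltN | with_reducible apply Int.leN | with_reducible_and_instances apply Int.le | with_reducible_and_instances apply Int.lt | with_reducible apply Int.all | with_reducible apply Int.ex | with_reducible apply IntF.fst | with_reducible apply IntF.snd | with_reducible apply IntF.app | with_reducible apply IntF.inl | with_reducible apply IntF.inr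 | with_reducible_and_instances apply IntF.mul | with_reducible_and_instances apply IntF.inv | with_reducible_and_instances apply IntF.add | with_reducible_and_instances apply IntF.sub | with_reducible_and_instances apply IntF.neg | with_reducible_and_instances apply IntF.smul | with_reducible apply Int.fin | with_reducible apply IntF.sep | with_reducible apply IntF.lam | with_reducible apply IntF.insert | with_reducible apply IntF.singleton | with_reducible apply IntF.union | with_reducible apply IntF.iimage | with_reducible apply IntF.ite | with_reducible apply IntF.the | with_reducible apply IntF.irec | with_reducible apply IntF.succ | with_reducible apply IntF.val | with_reducible apply IntF.mk | (with_reducible refine Int.comp ?_ ?_; assumption) | (with_reducible refine Int.comp₂ ?_ ?_ ?_; assumption) | (with_reducible refine Int.comp₃ ?_ ?_ ?_ ?_; assumption) | (with_reducible refine Int.comp₄ ?_ ?_ ?_ ?_ ?_; assumption) | (with_reducible refine IntF.comp ?_ ?_; assumption) | (with_reducible refine IntF.comp₂ ?_ ?_ ?_; assumption) | (with_reducible refine IntF.comp₃ ?_ ?_ ?_ ?_; assumption) | with_reducible apply IntF.pair)))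
  have h6 : Int N (fun q : ((((IPow N (Pt N α) × Pt N α) × Bd N α) × Bd N α) × Pt N α) =>
      leo D fb q.2 q.1.2) := Int.comp
    (p := fun q : Pt N α × Bd N α => leo D fb q.1 q.2)
    (f := fun q : ((((IPow N (Pt N α) × Pt N α) × Bd N α) × Bd N α) × Pt N α) => (q.2, q.1.2)) h2
      (by (repeat' (first | with_reducible exact IntF.id | with_reducible exact IntF.fst' | with_reducible exact IntF.snd' | with_reducible exact IntF.const _ | with_reducible exact Int.const _ | assumption | with_reducible apply Int.and | with_reducible apply Int.or | with_reducible apply Int.not | with_reducible apply Int.imp | with_reducible apply Int.iff | with_reducible apply Int.ne | with_reducible apply Int.eq | with_reducible apply Int.mem | with_reducible apply Int.subset | with_reducible apply Int.ltN | with_reducible apply Int.leN | with_reducible_and_instances apply Int.le | with_reducible_and_instances apply Int.lt | with_reducible apply Int.all | with_reducible apply Int.ex | with_reducible apply IntF.fst | with_reducible apply IntF.snd | with_reducible apply IntF.app | with_reducible apply IntF.inl | with_reducible apply IntF.inr | with_reducible_and_instances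 apply IntF.mul | with_reducible_and_instances apply IntF.inv | with_reducible_and_instances apply IntF.add | with_reducible_and_instances apply IntF.sub | with_reducible_and_instances apply IntF.neg | with_reducible_and_instances apply IntF.smul | with_reducible apply Int.fin | with_reducible apply IntF.sep | with_reducible apply IntF.lam | with_reducible apply IntF.insert | with_reducible apply IntF.singleton | with_reducible apply IntF.union | with_reducible apply IntF.iimage | with_reducible apply IntF.ite | with_reducible apply IntF.the | with_reducible apply IntF.irec | with_reducible apply IntF.succ | with_reducible apply IntF.val | with_reducible apply IntF.mk | (with_reducible refine Int.comp ?_ ?_; assumption) | (with_reducible refine Int.comp₂ ?_ ?_ ?_; assumption) | (with_reducible refine Int.comp₃ ?_ ?_ ?_ ?_; assumption) | (with_reducible refine Int.comp₄ ?_ ?_ ?_ ?_ ?_; assumption) | (with_reducible refine IntF.comp ?_ ?_; assumption) | (with_reducible refine IntF.comp₂ ?_ ?_ ?_; assumption) | (with_reducible refine IntF.comp₃ ?_ ?_ ?_ ?_; assumption) | with_reducible apply IntF.pair)))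
  (repeat' (first | with_reducible exact IntF.id | with_reducible exact IntF.fst' | with_reducible exact IntF.snd' | with_reducible exact IntF.const _ | with_reducible exact Int.const _ | assumption | with_reducible apply Int.and | with_reducible apply Int.or | with_reducible apply Int.not | with_reducible apply Int.imp | with_reducible apply Int.iff | with_reducible apply Int.ne | with_reducible apply Int.eq | with_reducible apply Int.mem | with_reducible apply Int.subset | with_reducible apply Int.ltN | with_reducible apply Int.leN | with_reducible_and_instances apply Int.le | with_reducible_and_instances apply Int.lt | with_reducible apply Int.all | with_reducible apply Int.ex | with_reducible apply IntF.fst | with_reducible apply IntF.snd | with_reducible apply IntF.app | with_reducible apply IntF.inl | with_reducible apply IntF.inr | with_reducible_and_instances apply IntF.mul | with_reducible_and_instances apply IntF.inv | with_reducible_and_instances apply IntF.add | with_reducible_and_instances apply IntF.sub | with_reducible_and_instances apply IntF.neg | with_reducible_and_instances apply IntF.smul | with_reducible apply Int.fin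 | with_reducible apply IntF.sep | with_reducible apply IntF.lam | with_reducible apply IntF.insert | with_reducible apply IntF.singleton | with_reducible apply IntF.union | with_reducible apply IntF.iimage | with_reducible apply IntF.ite | with_reducible apply IntF.the | with_reducible apply IntF.irec | with_reducible apply IntF.succ | with_reducible apply IntF.val | with_reducible apply IntF.mk | (with_reducible refine Int.comp ?_ ?_; assumption) | (with_reducible refine Int.comp₂ ?_ ?_ ?_; assumption) | (with_reducible refine Int.comp₃ ?_ ?_ ?_ ?_; assumption) | (with_reducible refine Int.comp₄ ?_ ?_ ?_ ?_ ?_; assumption) | (with_reducible refine IntF.comp ?_ ?_; assumption) | (with_reducible refine IntF.comp₂ ?_ ?_ ?_; assumption) | (with_reducible refine IntF.comp₃ ?_ ?_ ?_ ?_; assumption) | with_reducible apply IntF.pair))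

theorem ZT.gt_dir (l l' : Bd N α) : (∀ w, gt D fb w l → gt D fb w l') ∨
    ∀ w, gt D fb w l' → gt D fb w l := by
  rcases l with x | n
  · rcases l' with y | m
    · rcases h.pre_total x y with h1 | h1
      · refine Or.inr fun w hw => ?_
        rw [gt_inl] at hw ⊢
        exact h.lep_total hw h1
      · refine Or.inl fun w hw => ?_
        rw [gt_inl] at hw ⊢
        exact h.lep_total hw h1
    · exact Or.inl fun w _ => gt_inr
  · exact Or.inr fun w _ => gt_inr

theorem ZT.leo_dir (l l' : Bd N α) : (∀ w, leo D fb w l → leo D fb w l') ∨
    ∀ w, leo D fb w l' → leo D fb w l := by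
  rcases l with x | n
  · rcases l' with y | m
    · rcases h.pre_total x y with h1 | h1
      · refine Or.inl fun w hw => ?_
        rw [leo_inl] at hw ⊢
        exact h.lep_mono hw h1
      · refine Or.inr fun w hw => ?_
        rw [leo_inl] at hw ⊢
        exact h.lep_mono hw h1
    · exact Or.inl fun w _ => leo_inr
  · exact Or.inr fun w _ => leo_inr

/-- The points of the fibres are isolated. -/
theorem ZT.iso {x y : α} (h1 : D ((0 : INat N).succ, (x, y))) {z : Pt N α}
    (h2 : ¬ lep D fb z x) (h3 : lep D fb z y) : z = Sum.inr y := by
  have h4 := h.fib _ _ _ h1
  rcases h3 with ⟨n, rfl, h5⟩ | ⟨w, rfl, h5⟩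
  · exact absurd (lep_inl.2 (h4.symm ▸ h5)) h2
  · by_contra h6
    exact h2 (lep_inr.2 (h.pre_pred h1 h5 fun e => h6 (e ▸ rfl)))

theorem ZT.op_union {c : IPow N (IPow N (Pt N α))} {W : IPow N (Pt N α)}
    (hc : ∀ U, U ∈ c → OP D fb P U) (hW : ∀ s, s ∈ W ↔ ∃ U, U ∈ c ∧ s ∈ U) : OP D fb P W := by
  refine ⟨fun z hz => ?_, fun z hz => ?_⟩
  · obtain ⟨U, h1, h2⟩ := (hW z).1 hz
    exact (hc U h1).1 z h2
  · obtain ⟨U, h1, h2⟩ := (hW z).1 hz
    obtain ⟨l, u, h3, h4, h5⟩ := (hc U h1).2 z h2
    exact ⟨l, u, h3, h4, fun w h6 h7 h8 => (hW w).2 ⟨U, h1, h5 w h6 h7 h8⟩⟩

theorem ZT.op_inter {U V W : IPow N (Pt N α)} (hU : OP D fb P U) (hV : OP D fb P V)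
    (hW : ∀ s, s ∈ W ↔ s ∈ U ∧ s ∈ V) : OP D fb P W := by
  refine ⟨fun z hz => hU.1 z ((hW z).1 hz).1, fun z hz => ?_⟩
  obtain ⟨l, u, h1, h2, h3⟩ := hU.2 z ((hW z).1 hz).1
  obtain ⟨l', u', h1', h2', h3'⟩ := hV.2 z ((hW z).1 hz).2
  obtain ⟨l'', h4, h5⟩ : ∃ l'', gt D fb z l'' ∧ ∀ w, gt D fb w l'' → gt D fb w l ∧ gt D fb w l' := by
    rcases h.gt_dir l l' with h6 | h6
    · exact ⟨l, h1, fun w hw => ⟨hw, h6 w hw⟩⟩
    · exact ⟨l', h1', fun w hw => ⟨h6 w hw, hw⟩⟩
  obtain ⟨u'', h6, h7⟩ : ∃ l'', leo D fb z l'' ∧ ∀ w, leo D fb w l'' → leo D fb w u ∧ leo D fb w u' := by
    rcases h.leo_dir u u' with h6 | h6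
    · exact ⟨u, h2, fun w hw => ⟨hw, h6 w hw⟩⟩
    · exact ⟨u', h2', fun w hw => ⟨h6 w hw, hw⟩⟩
  refine ⟨l'', u'', h4, h6, fun w h8 h9 h10 => (hW w).2 ⟨h3 w h8 (h5 w h9).1 (h7 w h10).1,
    h3' w h8 (h5 w h9).2 (h7 w h10).2⟩⟩

omit h in
theorem op_univ {U : IPow N (Pt N α)} (hU : ∀ s, s ∈ U ↔ P s) : OP D fb P U :=
  ⟨fun z hz => (hU z).1 hz, fun z _ => ⟨Sum.inr 0, Sum.inr 0, gt_inr, leo_inr, fun w hw _ _ =>
    (hU w).2 hw⟩⟩

omit h in
/-- The intervals are open. -/
theorem op_itv {l u : Bd N α} {U : IPow N (Pt N α)}
    (hU : ∀ s, s ∈ U ↔ P s ∧ gt D fb s l ∧ leo D fb s u) : OP D fb P U :=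
  ⟨fun z hz => ((hU z).1 hz).1, fun z hz => ⟨l, u, ((hU z).1 hz).2.1, ((hU z).1 hz).2.2,
    fun w h1 h2 h3 => (hU w).2 ⟨h1, h2, h3⟩⟩⟩

omit h in
theorem op_itv_compl {l u : Bd N α} {U : IPow N (Pt N α)}
    (hU : ∀ s, s ∈ U ↔ P s ∧ ¬ (gt D fb s l ∧ leo D fb s u)) : OP D fb P U := by
  refine ⟨fun z hz => ((hU z).1 hz).1, fun z hz => ?_⟩
  by_cases h1 : gt D fb z l
  · have h2 : ¬ leo D fb z u := fun h2 => ((hU z).1 hz).2 ⟨h1, h2⟩
    unfold leo at h2
    push Not at h2
    obtain ⟨x, rfl, h3⟩ := h2
    exact ⟨Sum.inl x, Sum.inr 0, gt_inl.2 h3, leo_inr, fun w h4 h5 _ => (hU w).2 ⟨h4, fun h6 =>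
      gt_inl.1 h5 (leo_inl.1 h6.2)⟩⟩
  · unfold gt at h1
    push Not at h1
    obtain ⟨x, rfl, h3⟩ := h1
    exact ⟨Sum.inr 0, Sum.inl x, gt_inr, leo_inl.2 h3, fun w h4 _ h5 => (hU w).2 ⟨h4, fun h6 =>
      gt_inl.1 h6.1 (leo_inl.1 h5)⟩⟩

/-- Separation by an initial segment. -/
theorem ZT.exists_sep {z z' : Pt N α} (hz : z ≠ z') : ∃ x, (lep D fb z x ∧ ¬ lep D fb z' x) ∨
    (¬ lep D fb z x ∧ lep D fb z' x) := by
  by_contra hc
  push Not at hc
  refine hz (h.sepp fun x => ⟨fun h1 => ?_, fun h1 => ?_⟩)
  · exact (hc x).1 h1
  · by_contra h2
    exact (hc x).2 h2 h1

/-- Neighbourhoods of the limit points, from above. -/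
theorem ZT.nbR {n : INat N} {l u : Bd N α} (h1 : gt D fb (Sum.inl n.succ) l)
    (h2 : leo D fb (Sum.inl n.succ) u) : ∃ y, fb y = n ∧ ∀ w, fb w = n → pre D fb w y →
      gt D fb (Sum.inr w) l ∧ leo D fb (Sum.inr w) u := by
  have h3 : ∀ w, fb w = n → gt D fb (Sum.inr w) l := by
    intro w hw x hx h4
    have h5 := h1 x hx
    rw [lep_inl, not_le] at h5
    have h6 := h.pre_le (lep_inr.1 h4)
    rw [hw] at h6
    exact absurd (lt_of_lt_of_le h5 h6) (lt_irrefl _)
  by_cases h4 : ∃ x, u = Sum.inl x ∧ fb x = n
  · obtain ⟨y, rfl, hy⟩ := h4
    exact ⟨y, hy, fun w hw hwy => ⟨h3 w hw, leo_inl.2 (lep_inr.2 hwy)⟩⟩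
  · obtain ⟨y, hy⟩ := h.ne n
    refine ⟨y, hy, fun w hw _ => ⟨h3 w hw, fun x hx => ?_⟩⟩
    have h5 := lep_inl.1 (h2 x hx)
    rcases h5.lt_or_eq with h6 | h6
    · exact lep_inr.2 (Or.inl (hw.symm ▸ h6))
    · exact absurd ⟨x, hx, h6.symm⟩ h4

/-- Neighbourhoods of the limit points, from below. -/
theorem ZT.nbL {n : INat N} {l u : Bd N α} (h1 : gt D fb (Sum.inl n.succ.succ) l)
    (h2 : leo D fb (Sum.inl n.succ.succ) u) : ∃ y, fb y = n ∧ ∀ w, fb w = n → pre D fb y w →
      gt D fb (Sum.inr w) l ∧ leo D fb (Sum.inr w) u := by
  have h3 : ∀ w, fb w = n → leo D fb (Sum.inr w) u := by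
    intro w hw x hx
    have h5 := h2 x hx
    rw [lep_inl] at h5
    exact lep_inr.2 (Or.inl (hw.symm ▸ INat.succ_le_iff.1 h5))
  by_cases h4 : ∃ x, l = Sum.inl x ∧ fb x = n
  · obtain ⟨x, rfl, hx⟩ := h4
    obtain ⟨y, hy⟩ := h.up x
    refine ⟨y, (h.fib _ _ _ hy).symm.trans hx, fun w hw hwy => ⟨gt_inl.2 fun h5 => ?_, h3 w hw⟩⟩
    exact h.not_pre_pred hy (h.pre_trans hwy (lep_inr.1 h5))
  · obtain ⟨y, hy⟩ := h.ne n
    refine ⟨y, hy, fun w hw _ => ⟨fun x hx h6 => ?_, h3 w hw⟩⟩
    have h5 := h1 x hx
    rw [lep_inl, not_le] at h5
    rcases (INat.lt_succ_iff.1 h5).lt_or_eq with h7 | h7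
    · have h8 := h.pre_le (lep_inr.1 h6)
      rw [hw] at h8
      exact absurd (lt_of_lt_of_le h7 h8) (lt_irrefl _)
    · exact h4 ⟨x, hx, h7⟩

/-- Homogeneity. -/
theorem ZT.key {W : α → Prop} (hW : Int N W) : ∃ n₀, ∀ n, n₀ ≤ n →
    (∃ y, fb y = n ∧ ∀ w, fb w = n → pre D fb w y → W w) →
      ¬ ∃ y, fb y = n ∧ ∀ w, fb w = n → pre D fb y w → ¬ W w := by
  obtain ⟨n₀, h1⟩ := h.hom W hW
  refine ⟨n₀, fun n hn => ?_⟩
  rintro ⟨y, hy, h2⟩ ⟨z, hz, h3⟩
  exact h3 z hz (h.pre_refl z) (h1 y z (hy.trans hz.symm) (hy.symm ▸ hn) (h2 y hy (h.pre_refl y)))

/-- Eventually constant sequences. -/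
theorem ZT.ev_const {β : Type u} [ITy N β] {g : INat N → β} (hg : IntF N g) {n₀ : INat N}
    (h1 : ∀ n, n₀ ≤ n → g n = g n.succ) : ∀ n, n₀ ≤ n → g n = g n₀ := by
  refine INat.ind (p := fun n => n₀ ≤ n → g n = g n₀) (by (repeat' (first | with_reducible exact IntF.id | with_reducible exact IntF.fst' | with_reducible exact IntF.snd' | with_reducible exact IntF.const _ | with_reducible exact Int.const _ | assumption | with_reducible apply Int.and | with_reducible apply Int.or | with_reducible apply Int.not | with_reducible apply Int.imp | with_reducible apply Int.iff | with_reducible apply Int.ne | with_reducible apply Int.eq | with_reducible apply Int.mem | with_reducible apply Int.subset | with_reducible apply Int.ltN | with_reducible apply Int.leN | with_reducible_and_instances apply Int.le | with_reducible_and_instances apply Int.lt | with_reducible apply Int.all | with_reducible apply Int.ex | with_reducible apply IntF.fst | with_reducible apply IntF.snd | with_reducible apply IntF.app | with_reducible apply IntF.inl | with_reducible apply IntF.inr | with_reducible_and_instances apply IntF.mul | with_reducible_and_instances apply IntF.inv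 | with_reducible_and_instances apply IntF.add | with_reducible_and_instances apply IntF.sub | with_reducible_and_instances apply IntF.neg | with_reducible_and_instances apply IntF.smul | with_reducible apply Int.fin | with_reducible apply IntF.sep | with_reducible apply IntF.lam | with_reducible apply IntF.insert | with_reducible apply IntF.singleton | with_reducible apply IntF.union | with_reducible apply IntF.iimage | with_reducible apply IntF.ite | with_reducible apply IntF.the | with_reducible apply IntF.irec | with_reducible apply IntF.succ | with_reducible apply IntF.val | with_reducible apply IntF.mk | (with_reducible refine Int.comp ?_ ?_; assumption) | (with_reducible refine Int.comp₂ ?_ ?_ ?_; assumption) | (with_reducible refine Int.comp₃ ?_ ?_ ?_ ?_; assumption) | (with_reducible refine Int.comp₄ ?_ ?_ ?_ ?_ ?_; assumption) | (with_reducible refine IntF.comp ?_ ?_; assumption) | (with_reducible refine IntF.comp₂ ?_ ?_ ?_; assumption) | (with_reducible refine IntF.comp₃ ?_ ?_ ?_ ?_; assumption) | with_reducible apply IntF.pair))) ?_ ?_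
  · intro h2
    rw [le_antisymm (INat.zero_le n₀) h2]
  · intro n ih h2
    rcases h2.lt_or_eq with h3 | h3
    · rw [← h1 n (INat.lt_succ_iff.1 h3), ih (INat.lt_succ_iff.1 h3)]
    · rw [h3]

omit h in
/-- The limit of a family of eventually constant functions. -/
theorem exists_lim {J V : Type u} [ITy N J] [ITy N V] {F : J × Pt N α → V} (hF : IntF N F)
    (hc : ∀ j, ∃ n₀ : INat N, ∀ n, n₀ ≤ n → F (j, Sum.inl n.succ) = F (j, Sum.inl n₀.succ)) :
    ∃ g : J → V, IntF N g ∧ ∀ S : IPow N J, IFin S → ∀ m : INat N, ∃ n, m ≤ n ∧
      ∀ j, j ∈ S → F (j, Sum.inl n.succ) = g j := by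
  have h1 : ∀ j, ∃ v, ∃ n₀ : INat N, ∀ n, n₀ ≤ n → F (j, Sum.inl n.succ) = v := fun j => by
    obtain ⟨n₀, h2⟩ := hc j
    exact ⟨_, n₀, h2⟩
  choose g hg using h1
  have h2 : ∀ j v, (∃ n₀ : INat N, ∀ n, n₀ ≤ n → F (j, Sum.inl n.succ) = v) ↔ g j = v := by
    intro j v
    constructor
    · rintro ⟨n₀, h3⟩
      obtain ⟨n₁, h4⟩ := hg j
      rw [← h4 _ (le_max_right n₀ n₁), h3 _ (le_max_left n₀ n₁)]
    · rintro rfl
      exact hg j
  have hI : IntF N g := IntF.of_rel (r := fun j v => ∃ n₀ : INat N, ∀ n, n₀ ≤ n →
    F (j, Sum.inl n.succ) = v) (by (repeat' (first | with_reducible exact IntF.id | with_reducible exact IntF.fst' | with_reducible exact IntF.snd' | with_reducible exact IntF.const _ | with_reducible exact Int.const _ | assumption | with_reducible apply Int.and | with_reducible apply Int.or | with_reducible apply Int.not | with_reducible apply Int.imp | with_reducible apply Int.iff | with_reducible apply Int.ne | with_reducible apply Int.eq | with_reducible apply Int.mem | with_reducible apply Int.subset | with_reducible apply Int.ltN | with_reducible apply Int.leN | with_reducible_and_instances apply Int.le | with_reducible_and_instances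 apply Int.lt | with_reducible apply Int.all | with_reducible apply Int.ex | with_reducible apply IntF.fst | with_reducible apply IntF.snd | with_reducible apply IntF.app | with_reducible apply IntF.inl | with_reducible apply IntF.inr | with_reducible_and_instances apply IntF.mul | with_reducible_and_instances apply IntF.inv | with_reducible_and_instances apply IntF.add | with_reducible_and_instances apply IntF.sub | with_reducible_and_instances apply IntF.neg | with_reducible_and_instances apply IntF.smul | with_reducible apply Int.fin | with_reducible apply IntF.sep | with_reducible apply IntF.lam | with_reducible apply IntF.insert | with_reducible apply IntF.singleton | with_reducible apply IntF.union | with_reducible apply IntF.iimage | with_reducible apply IntF.ite | with_reducible apply IntF.the | with_reducible apply IntF.irec | with_reducible apply IntF.succ | with_reducible apply IntF.val | with_reducible apply IntF.mk | (with_reducible refine Int.comp ?_ ?_; assumption) | (with_reducible refine Int.comp₂ ?_ ?_ ?_; assumption) | (with_reducible refine Int.comp₃ ?_ ?_ ?_ ?_; assumption) | (with_reducible refine Int.comp₄ ?_ ?_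 ?_ ?_ ?_; assumption) | (with_reducible refine IntF.comp ?_ ?_; assumption) | (with_reducible refine IntF.comp₂ ?_ ?_ ?_; assumption) | (with_reducible refine IntF.comp₃ ?_ ?_ ?_ ?_; assumption) | with_reducible apply IntF.pair))) h2
  refine ⟨g, hI, fun S hS m => ?_⟩
  obtain ⟨n₁, h3⟩ := IFin.exists_bound (r := fun (j : J) (n₀ : INat N) => ∀ n, n₀ ≤ n →
    F (j, Sum.inl n.succ) = g j) (by (repeat' (first | with_reducible exact IntF.id | with_reducible exact IntF.fst' | with_reducible exact IntF.snd' | with_reducible exact IntF.const _ | with_reducible exact Int.const _ | assumption | with_reducible apply Int.and | with_reducible apply Int.or | with_reducible apply Int.not | with_reducible apply Int.imp | with_reducible apply Int.iff | with_reducible apply Int.ne | with_reducible apply Int.eq | with_reducible apply Int.mem | with_reducible apply Int.subset | with_reducible apply Int.ltN | with_reducible apply Int.leN | with_reducible_and_instances apply Int.le | with_reducible_and_instances apply Int.lt | with_reducible apply Int.all | with_reducible apply Int.ex | with_reducible apply IntF.fst | with_reducible apply IntF.snd | with_reducible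 apply IntF.app | with_reducible apply IntF.inl | with_reducible apply IntF.inr | with_reducible_and_instances apply IntF.mul | with_reducible_and_instances apply IntF.inv | with_reducible_and_instances apply IntF.add | with_reducible_and_instances apply IntF.sub | with_reducible_and_instances apply IntF.neg | with_reducible_and_instances apply IntF.smul | with_reducible apply Int.fin | with_reducible apply IntF.sep | with_reducible apply IntF.lam | with_reducible apply IntF.insert | with_reducible apply IntF.singleton | with_reducible apply IntF.union | with_reducible apply IntF.iimage | with_reducible apply IntF.ite | with_reducible apply IntF.the | with_reducible apply IntF.irec | with_reducible apply IntF.succ | with_reducible apply IntF.val | with_reducible apply IntF.mk | (with_reducible refine Int.comp ?_ ?_; assumption) | (with_reducible refine Int.comp₂ ?_ ?_ ?_; assumption) | (with_reducible refine Int.comp₃ ?_ ?_ ?_ ?_; assumption) | (with_reducible refine Int.comp₄ ?_ ?_ ?_ ?_ ?_; assumption) | (with_reducible refine IntF.comp ?_ ?_; assumption) | (with_reducible refine IntF.comp₂ ?_ ?_ ?_; assumption) | (with_reducible refine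 IntF.comp₃ ?_ ?_ ?_ ?_; assumption) | with_reducible apply IntF.pair))) (fun b c => ⟨max b c, fun a h3 n hn => h3.elim
      (fun h3 => h3 n ((le_max_left _ _).trans hn)) fun h3 => h3 n ((le_max_right _ _).trans hn)⟩)
      ⟨0⟩ hS (fun j _ => hg j)
  exact ⟨max m n₁, le_max_left _ _, fun j hj => h3 j hj _ (le_max_right _ _)⟩

end Pool.Agent.V11257Z
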