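import Pool.Agent.V11257.Zt1
import Pool.Agent.V11257.Zt7
import Pool.Agent.H635R2.Coll
import Pool.Agent.H635R2.Ext

/-!
# The model
-/

set_option maxHeartbeats 1000000
set_option linter.all false
set_option synthInstance.maxSize 2000

namespace Pool.Agent.V11257Z

open FirstOrder FirstOrder.Language
open Pool.Agent.Helper672
open Pool.Agent.Helper672.ZFA
open Pool.Agent.Helper672.Plain (LSet)
open Pool.Agent.H310
open Pool.Agent.H310Cards
open Pool.Agent.Helper672.ZFA.H310M (Co SS AA)
open Pool.Agent.H635Amen (ZF)
open Pool.Agent.H310Top (IsTopology)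
open Pool.Agent.V11246
open Pool.Agent.Helper672.ZFA.H635 (CollL isModel_of_zermelo coll_of_zf exists_countable_sub toL nn_zf)

universe u

section

attribute [local instance] Helper672.Plain.toL

/-- The model has a sequence of copies of the integers without invariant choice. -/
def HasZT (N : Type u) [LSet.Structure N] [hZ : Helper672.Plain.Zermelo N] : Prop :=
  letI : IsModel N := Helper672.Plain.isModel_toL
  ∃ (a : N) (D : INat N × (El a × El a) → Prop) (fb : El a → INat N), ZT N D fb

end

theorem hasZT_of {N : Type u} [LSet.Structure N] [hZ : Helper672.Plain.Zermelo N]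
    (hh : letI := Helper672.Plain.toL (M := N); letI : IsModel N := Helper672.Plain.isModel_toL
      ∃ (a : N) (D : INat N × (El a × El a) → Prop) (fb : El a → INat N), ZT N D fb) : HasZT N := hh

theorem exists_zt' (M : Type u) [L.Structure M] [IsModel M] [Countable M] (hC : CollL M) :
    ∃ (N : Type u) (_ : LSet.Structure N) (_ : ZF N), HasZT N := by
  have p₀ : Co M (Xz M) := ⟨∅, fun i k d d' h => absurd h (by simp), IFin.empty⟩
  obtain ⟨G, hG⟩ := H635.exists_gen (M := M) p₀
  have hzf : ZF (H635.NN (SS (Zz M)) hG) := nn_zf hG hC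
  obtain ⟨D, fb, hD⟩ := exists_ZT hG hC
  exact ⟨H635.NN (SS (Zz M)) hG, inferInstance, hzf, hasZT_of ⟨_, D, fb, hD⟩⟩

section

attribute [local instance] toL

theorem exists_zt_c (M : Type u) [LSet.Structure M] [Countable M] (h : ZF M) :
    ∃ (N : Type u) (_ : LSet.Structure N) (_ : ZF N), HasZT N := by
  have hM : IsModel M := isModel_of_zermelo h.toZermelo
  exact exists_zt' M (coll_of_zf h)

end

theorem exists_zt (M : Type u) [LSet.Structure M] (h : ZF M) :
    ∃ (N : Type u) (_ : LSet.Structure N) (_ : ZF N), HasZT N := by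
  obtain ⟨M₀, h1, h2⟩ := exists_countable_sub M h
  exact exists_zt_c M₀ h2

section

attribute [local instance] Helper672.Plain.toL

theorem space_nco_of {N : Type u} [LSet.Structure N] [hZ : Helper672.Plain.Zermelo N]
    (hh : HasZT N) : ∃ x t : N, IsTopology t x ∧ IsT1 t x ∧ IsZeroDim t x ∧
      (∃ f, IsSeqUnion f x ∧
        ∀ n u, App f n u → IsNCompactSub t u ∧ IsTwoEmbedded t x u ∧ IsCdEmbedded t x u) ∧
      ¬ IsNCompact t x := by
  letI : IsModel N := Helper672.Plain.isModel_toL
  obtain ⟨a, D, fb, hD⟩ := hh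
  exact space_nco hD

end

end Pool.Agent.V11257Z
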