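import Pool.Agent.V11246.CdDefs

/-!
# Subspaces and sequences of subspaces in a structure for the language of set theory: definitions

`Mem`, `El` and `LSet` are from `Pool.Agent.Helper672.SIK.Plain`, `IsOmega`, `IsFun`, `App` and
`IsFinite` from `Pool.Agent.H310R3.Cards`, and `IsClopen`, `IsCdelta` and `IsNCompact` from
`Pool.Agent.V11246.CdDefs`.
-/

namespace Pool.Agent.V11257Z

open FirstOrder FirstOrder.Language
open Pool.Agent.Helper672.Plain (LSet Mem El)
open Pool.Agent.H310Cards
open Pool.Agent.V11246 (IsClopen IsCdelta IsNCompact)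

universe u

variable {M : Type u} [LSet.Structure M]

/-- `t'` is the subspace topology on the subset `y` of the space with the topology `t`. -/
def IsSubTop (t' t y : M) : Prop :=
  ∀ u, Mem u t' ↔ (∀ z, Mem z u → Mem z y) ∧
    ∃ v, Mem v t ∧ ∀ z, Mem z u ↔ Mem z v ∧ Mem z y

/-- `f` is a sequence (indexed by the set of the natural numbers) of subsets of `x` whose union is
`x`. -/
def IsSeqUnion (f x : M) : Prop :=
  ∃ w s, IsOmega w ∧ IsFun f w s ∧ ∀ z, Mem z x ↔ ∃ n u, App f n u ∧ Mem z u

/-- The subspace `y` is N-compact. -/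
def IsNCompactSub (t y : M) : Prop := ∃ t', IsSubTop t' t y ∧ IsNCompact t' y

/-- The subspace `y` is 2-embedded in the space: every clopen subset of the subspace `y` (that is,
every continuous map from `y` to the discrete space with two points) is the trace of a clopen
subset of the space. -/
def IsTwoEmbedded (t x y : M) : Prop :=
  (∀ z, Mem z y → Mem z x) ∧ ∃ t', IsSubTop t' t y ∧ ∀ u, IsClopen t' y u →
    ∃ v, IsClopen t x v ∧ ∀ z, Mem z u ↔ Mem z v ∧ Mem z y

/-- The subspace `y` is c-delta-embedded in the space: every intersection of a nonempty countable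
family of clopen subsets of the subspace `y` is the trace of an intersection of a nonempty
countable family of clopen subsets of the space. -/
def IsCdEmbedded (t x y : M) : Prop :=
  (∀ z, Mem z y → Mem z x) ∧ ∃ t', IsSubTop t' t y ∧ ∀ a, IsCdelta t' y a →
    ∃ b, IsCdelta t x b ∧ ∀ z, Mem z a ↔ Mem z b ∧ Mem z y

end Pool.Agent.V11257Z
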